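import Pool.Agent.N948.IX.Defs

/-!
# Interface crossings of annuli: basic facts
-/

set_option autoImplicit false

namespace Pool.Agent.N948.IX.Bas

open H974 H12S Finset H984P H342P Pool.Agent.W92.DP

/-! ### Norms -/

/-- the vertex of a state is a corner of its face -/
lemma cor (c : Vtx) (ρ : St) : 2 * lv c ρ.1 = lf c (face ρ) + 1 ∨ 2 * lv c ρ.1 = lf c (face ρ) - 1 := by
  obtain ⟨⟨x, y⟩, q⟩ := ρ
  obtain ⟨cx, cy⟩ := c
  cases q <;> simp only [face_ne, face_nw, face_sw, face_se, lv, lf, abs_eq_max_neg] <;> omega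

lemma cor_mv (c : Vtx) (ρ : St) :
    2 * lv c (mv ρ).1 = lf c (face ρ) + 1 ∨ 2 * lv c (mv ρ).1 = lf c (face ρ) - 1 := by
  have := cor c (mv ρ)
  rwa [p2_face_mv] at this

lemma cor_rt (c : Vtx) (ρ : St) :
    2 * lv c ρ.1 = lf c (face (rt ρ)) + 1 ∨ 2 * lv c ρ.1 = lf c (face (rt ρ)) - 1 := by
  have := cor c (rt ρ)
  rwa [p2_rt_fst] at this

lemma cor_mv_rt (c : Vtx) (ρ : St) :
    2 * lv c (mv ρ).1 = lf c (face (rt ρ)) + 1 ∨ 2 * lv c (mv ρ).1 = lf c (face (rt ρ)) - 1 := by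
  obtain ⟨⟨x, y⟩, q⟩ := ρ
  obtain ⟨cx, cy⟩ := c
  cases q <;> simp only [face_ne, face_nw, face_sw, face_se, rt_ne, rt_nw, rt_sw, rt_se, mv_ne,
    mv_nw, mv_sw, mv_se, lv, lf, abs_eq_max_neg] <;> omega

/-- a state with an annular face examines an edge of the annulus -/
lemma ge_of_face {c : Vtx} {a b : ℕ} {ρ : St} (h : Af c a b (face ρ)) : ae ρ ∈ Ge c a b := by
  have h1 := cor c ρ
  have h2 := cor_mv c ρ
  obtain ⟨h3, h4⟩ := h
  unfold Ge
  rcases p2_ends ρ with ⟨e1, e2⟩ | ⟨e1, e2⟩ <;> rw [Set.mem_ofPred_eq, e1, e2] <;> omega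

lemma ge_of_rt {c : Vtx} {a b : ℕ} {ρ : St} (h : Af c a b (face (rt ρ))) : ae ρ ∈ Ge c a b := by
  have h1 := cor_rt c ρ
  have h2 := cor_mv_rt c ρ
  obtain ⟨h3, h4⟩ := h
  unfold Ge
  rcases p2_ends ρ with ⟨e1, e2⟩ | ⟨e1, e2⟩ <;> rw [Set.mem_ofPred_eq, e1, e2] <;> omega

lemma gd_of {c : Vtx} {a b : ℕ} {ρ : St} (h : Af c a b (face ρ)) (h' : Af c a b (face (rt ρ))) :
    ae ρ ∈ Gd c a b := by
  unfold Gd
  rcases p2_dends ρ with ⟨e1, e2⟩ | ⟨e1, e2⟩ <;> rw [Set.mem_ofPred_eq, e1, e2]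
  · exact ⟨h, h'⟩
  · exact ⟨h', h⟩

/-! ### (a) -/

lemma orb_inj {F : Set Edg} {σ τ : St} {s : ℕ} (h : orb F σ s = orb F τ s) : σ = τ :=
  (nxt_bij F).1.iterate s h

end Pool.Agent.N948.IX.Bas

namespace Pool.Agent.N948.IX

open H974 H12S Finset H984P H342P Pool.Agent.W92.DP Bas

theorem congr : St_congr := by
  intro F F' σ T h s hs
  refine orb_congr (T := T) ?_ hs
  intro e he
  rw [mem_Exm] at he
  obtain ⟨s, hs, rfl⟩ := he
  exact h s hs

/-! ### (b) -/

theorem basic : St_basic := by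
  intro F c a b σ T hab h
  have hab' : (a : ℤ) < b := by exact_mod_cast hab
  -- the first step is closed, or the face does not change
  have hstep : ∀ s, (ae (orb F σ s) ∈ F ∧ face (orb F σ (s + 1)) = face (orb F σ s) ∧
      (orb F σ (s + 1)).1 = (mv (orb F σ s)).1) ∨
      (ae (orb F σ s) ∉ F ∧ face (orb F σ (s + 1)) = face (rt (orb F σ s)) ∧
      (orb F σ (s + 1)).1 = (orb F σ s).1) := by
    intro s
    rw [orb_succ]
    by_cases h1 : ae (orb F σ s) ∈ F
    · left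
      rw [nxt_open h1, p2_face_mv]
      exact ⟨h1, rfl, rfl⟩
    · right
      rw [nxt_closed h1, p2_rt_fst]
      exact ⟨h1, rfl, rfl⟩
  have hT : 1 < T := by
    by_contra hT
    have hT1 : T = 1 := by have := h.pos; omega
    have h1 := h.st
    have h2 := h.en
    rw [hT1] at h2
    rcases hstep 0 with ⟨_, h3, _⟩ | ⟨_, h3, _⟩
    · rw [h3, orb_zero] at h2
      omega
    · rw [h3, orb_zero] at h2
      have h4 := cor c σ
      have h5 := cor_rt c σ
      omega
  obtain ⟨h1a, h1b⟩ := h.mid 1 (by omega) hT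
  obtain ⟨h2a, h2b⟩ := h.mid (T - 1) (by omega) (by omega)
  -- the first step
  have h0 : ae σ ∉ F ∧ face (orb F σ 1) = face (rt σ) ∧ (orb F σ 1).1 = σ.1 := by
    rcases hstep 0 with ⟨_, h3, _⟩ | h3
    · have := h.st
      rw [h3, orb_zero] at h1b
      omega
    · exact h3
  -- the last step
  have hl : ae (orb F σ (T - 1)) ∉ F ∧ face (orb F σ T) = face (rt (orb F σ (T - 1))) ∧
      (orb F σ T).1 = (orb F σ (T - 1)).1 := by
    have h3 := hstep (T - 1)
    rw [Nat.sub_add_cancel (by omega : 1 ≤ T)] at h3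
    rcases h3 with ⟨_, h4, _⟩ | h3
    · have := h.en
      rw [h4] at this
      omega
    · exact h3
  have hGe : ∀ s < T, ae (orb F σ s) ∈ Ge c a b := by
    intro s hs
    rcases Nat.eq_zero_or_pos s with rfl | hs0
    · rw [orb_zero]
      apply ge_of_rt
      rw [← h0.2.1]
      exact ⟨h1a, h1b⟩
    · exact ge_of_face (h.mid s hs0 hs)
  refine ⟨hT, ?_, ?_, hGe, fun s hs => orb_reach hGe hs, ?_, ?_, ?_⟩
  · have h3 := cor c σ
    have h4 := cor_rt c σ
    rw [← h0.2.1] at h4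
    have := h.st
    omega
  · have h3 := cor c (orb F σ (T - 1))
    have h4 := cor_rt c (orb F σ (T - 1))
    rw [← hl.2.1] at h4
    have := h.en
    rw [hl.2.2]
    omega
  · intro s hs0 hsT
    induction s with
    | zero => omega
    | succ s ih =>
      rcases Nat.eq_zero_or_pos s with rfl | hs1
      · exact DReach.refl _ _
      · have ih' := ih hs1 (by omega)
        rcases hstep s with ⟨_, h3, _⟩ | ⟨h4, h3, _⟩
        · rw [h3]; exact ih'
        · refine ih'.trans (DAdj.reach ⟨ae (orb F σ s), ⟨h4, ?_⟩, ?_⟩)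
          · refine gd_of (h.mid s hs1 (by omega)) ?_
            rw [← h3]
            exact h.mid (s + 1) hs0 hsT
          · rw [h3]
            exact p2_dends _
  · refine ⟨⟨h1a, h1b⟩, ae σ, h0.1, ?_⟩
    have := h.st
    rw [h0.2.1]
    rcases p2_dends σ with ⟨e1, e2⟩ | ⟨e1, e2⟩
    · right; rw [e1, e2]; exact ⟨rfl, this⟩
    · left; rw [e1, e2]; exact ⟨rfl, this⟩
  · refine ⟨⟨h2a, h2b⟩, ae (orb F σ (T - 1)), hl.1, ?_⟩
    have := h.en
    rw [hl.2.1] at this
    rcases p2_dends (orb F σ (T - 1)) with ⟨e1, e2⟩ | ⟨e1, e2⟩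
    · left; rw [e1, e2]; exact ⟨rfl, this⟩
    · right; rw [e1, e2]; exact ⟨rfl, this⟩

/-! ### (c) -/

theorem restr : St_restr := by
  intro F c a b σ T hab h
  have hab' : (a : ℤ) < b := by exact_mod_cast hab
  have hodd : ∀ (ρ : St) (m : ℤ), lf c (face ρ) ≠ 2 * m := by
    intro ρ m
    have := cor c ρ
    omega
  refine ⟨?_, ?_, ?_, ?_⟩
  · intro T' h'
    rcases Nat.lt_trichotomy T' T with h1 | h1 | h1
    · have h2 := h.mid T' h'.pos h1
      have h3 := h'.en
      omega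
    · exact h1
    · have h2 := h'.mid T h.pos h1
      have h3 := h.en
      omega
  · intro m hm hmb
    have hm' : (a : ℤ) ≤ m := by exact_mod_cast hm
    have hmb' : (m : ℤ) < b := by exact_mod_cast hmb
    classical
    have hex : ∃ s, 0 < s ∧ lf c (face (orb F σ s)) < 2 * (m : ℤ) := ⟨T, h.pos, by
      have := h.en; omega⟩
    refine ⟨Nat.find hex, Nat.find_min' hex ⟨h.pos, by have := h.en; omega⟩, ?_⟩
    have hle : Nat.find hex ≤ T := Nat.find_min' hex ⟨h.pos, by have := h.en; omega⟩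
    refine ⟨(Nat.find_spec hex).1, h.st, ?_, (Nat.find_spec hex).2⟩
    intro s hs hs'
    have h1 := Nat.find_min hex hs'
    have h2 := h.mid s hs (by omega)
    have h3 := hodd (orb F σ s) m
    refine ⟨?_, h2.2⟩
    by_contra hcon
    exact h1 ⟨hs, by omega⟩
  · intro m hm hmb
    have hm' : (a : ℤ) < m := by exact_mod_cast hm
    have hmb' : (m : ℤ) ≤ b := by exact_mod_cast hmb
    classical
    have h0 : 2 * (m : ℤ) < lf c (face (orb F σ 0)) := by
      have := h.st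
      rw [orb_zero]
      omega
    set s := Nat.findGreatest (fun s => 2 * (m : ℤ) < lf c (face (orb F σ s))) (T - 1) with hs
    have hs1 : s ≤ T - 1 := Nat.findGreatest_le _
    have hs2 : 2 * (m : ℤ) < lf c (face (orb F σ s)) :=
      Nat.findGreatest_spec (P := fun s => 2 * (m : ℤ) < lf c (face (orb F σ s))) (Nat.zero_le _) h0
    have hpos := h.pos
    refine ⟨s, by omega, ?_⟩
    refine ⟨by omega, hs2, ?_, ?_⟩
    · intro t ht ht'
      rw [← orb_add]
      have h1 : ¬ 2 * (m : ℤ) < lf c (face (orb F σ (t + s))) :=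
        Nat.findGreatest_is_greatest (P := fun s => 2 * (m : ℤ) < lf c (face (orb F σ s)))
          (n := T - 1) (k := t + s) (by omega) (by omega)
      have h2 := h.mid (t + s) (by omega) (by omega)
      have h3 := hodd (orb F σ (t + s)) m
      omega
    · rw [← orb_add]
      have e : T - s + s = T := by omega
      rw [e]
      exact h.en
  · intro σ' T' s s' h' hs hs' he
    rcases Nat.lt_trichotomy s s' with h1 | h1 | h1
    · exfalso
      have e : s' = s + (s' - s) := by omega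
      rw [e, orb_add] at he
      have h2 := orb_inj he
      have h3 := h'.mid (s' - s) (by omega) (by omega)
      have h4 := h.st
      rw [← h2] at h3
      omega
    · subst h1
      exact ⟨orb_inj he, rfl⟩
    · exfalso
      have e : s = s' + (s - s') := by omega
      rw [e, orb_add] at he
      have h2 := orb_inj he
      have h3 := h.mid (s - s') (by omega) (by omega)
      have h4 := h'.st
      rw [h2] at h3
      omega

/-! ### (d) -/

end Pool.Agent.N948.IX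

namespace Pool.Agent.N948.IX.Bas

open H974 H12S Finset H984P H342P Pool.Agent.W92.DP

/-- a function on a convex set of integers which is constant along unit steps -/
lemma line (P : ℤ → Prop) (hP : ∀ x y z, x ≤ y → y ≤ z → P x → P z → P y) (φ : ℤ → ZMod 2)
    (h : ∀ x, P x → P (x + 1) → φ x = φ (x + 1)) (x y : ℤ) (hx : P x) (hy : P y) : φ x = φ y := by
  have key : ∀ (n : ℕ) (x : ℤ), P x → P (x + n) → φ x = φ (x + n) := by
    intro n
    induction n with
    | zero => intro x _ _; simp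
    | succ n ih =>
      intro x h1 h2
      push_cast at h2 ⊢
      have h3 : P (x + n) := hP x (x + n) (x + (n + 1)) (by omega) (by omega) h1 h2
      rw [ih x h1 h3, ← add_assoc]
      rw [← add_assoc] at h2
      exact h _ h3 h2
  rcases le_total x y with h1 | h1
  · have := key (y - x).toNat x hx
    have e : x + ((y - x).toNat : ℤ) = y := by omega
    rw [e] at this
    exact this hy
  · have := key (x - y).toNat y hy
    have e : y + ((x - y).toNat : ℤ) = x := by omega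
    rw [e] at this
    exact (this hx).symm

lemma outer_iff (c : Vtx) (b : ℕ) (f : Vtx) : 2 * (b : ℤ) < lf c f ↔
    (c.1 + b ≤ f.1 ∨ f.1 ≤ c.1 - b - 1) ∨ (c.2 + b ≤ f.2 ∨ f.2 ≤ c.2 - b - 1) := by
  unfold lf
  simp only [abs_eq_max_neg]
  omega

lemma inner_iff (c : Vtx) (a : ℕ) (f : Vtx) : lf c f < 2 * (a : ℤ) ↔
    (c.1 - a ≤ f.1 ∧ f.1 ≤ c.1 + a - 1) ∧ (c.2 - a ≤ f.2 ∧ f.2 ≤ c.2 + a - 1) := by
  unfold lf
  simp only [abs_eq_max_neg]
  omega

end Pool.Agent.N948.IX.Bas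

namespace Pool.Agent.N948.IX

open H974 H12S Finset H984P H342P Pool.Agent.W92.DP Bas

theorem connI : St_ConnI := by
  intro c a h hh f g hf hg
  rw [inner_iff] at hf hg
  have h1 : h (f.1, f.2) = h (g.1, f.2) := by
    refine line (fun x => c.1 - a ≤ x ∧ x ≤ c.1 + a - 1) (by intros; omega) (fun x => h (x, f.2)) ?_
      _ _ hf.1 hg.1
    intro x hx hx'
    refine hh _ _ ((inner_iff _ _ _).2 ⟨hx, hf.2⟩) ((inner_iff _ _ _).2 ⟨hx', hf.2⟩) ?_
    simp
  have h2 : h (g.1, f.2) = h (g.1, g.2) := by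
    refine line (fun y => c.2 - a ≤ y ∧ y ≤ c.2 + a - 1) (by intros; omega) (fun y => h (g.1, y)) ?_
      _ _ hf.2 hg.2
    intro y hy hy'
    refine hh _ _ ((inner_iff _ _ _).2 ⟨hg.1, hy⟩) ((inner_iff _ _ _).2 ⟨hg.1, hy'⟩) ?_
    simp
  exact h1.trans h2

theorem connO : St_ConnO := by
  intro c b h hh
  -- horizontal and vertical walks
  have hor : ∀ (P : ℤ → Prop) (_ : ∀ x y z, x ≤ y → y ≤ z → P x → P z → P y) (y : ℤ)
      (_ : ∀ x, P x → 2 * (b : ℤ) < lf c (x, y)) (x x' : ℤ), P x → P x' → h (x, y) = h (x', y) := by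
    intro P hP y hy x x' hx hx'
    refine line P hP (fun x => h (x, y)) ?_ x x' hx hx'
    intro z hz hz'
    refine hh _ _ (hy z hz) (hy _ hz') ?_
    simp
  have ver : ∀ (P : ℤ → Prop) (_ : ∀ x y z, x ≤ y → y ≤ z → P x → P z → P y) (x : ℤ)
      (_ : ∀ y, P y → 2 * (b : ℤ) < lf c (x, y)) (y y' : ℤ), P y → P y' → h (x, y) = h (x, y') := by
    intro P hP x hx y y' hy hy'
    refine line P hP (fun y => h (x, y)) ?_ y y' hy hy'
    intro z hz hz'
    refine hh _ _ (hx z hz) (hx _ hz') ?_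
    simp
  have hT : ∀ x y z : ℤ, x ≤ y → y ≤ z → True → True → True := fun _ _ _ _ _ _ _ => trivial
  have hR : ∀ f g : Vtx, c.1 + b ≤ f.1 → c.1 + b ≤ g.1 → h f = h g := by
    rintro ⟨fx, fy⟩ ⟨gx, gy⟩ hf hg
    have e1 := ver (fun _ => True) hT fx (fun y _ => (outer_iff _ _ _).2 (Or.inl (Or.inl hf))) fy gy
      trivial trivial
    have e2 := hor (fun x => c.1 + b ≤ x) (by intros; omega) gy
      (fun x hx => (outer_iff _ _ _).2 (Or.inl (Or.inl hx))) fx gx hf hg
    exact e1.trans e2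
  have hL : ∀ f g : Vtx, f.1 ≤ c.1 - b - 1 → g.1 ≤ c.1 - b - 1 → h f = h g := by
    rintro ⟨fx, fy⟩ ⟨gx, gy⟩ hf hg
    have e1 := ver (fun _ => True) hT fx (fun y _ => (outer_iff _ _ _).2 (Or.inl (Or.inr hf))) fy gy
      trivial trivial
    have e2 := hor (fun x => x ≤ c.1 - b - 1) (by intros; omega) gy
      (fun x hx => (outer_iff _ _ _).2 (Or.inl (Or.inr hx))) fx gx hf hg
    exact e1.trans e2
  have hU : ∀ f g : Vtx, c.2 + b ≤ f.2 → c.2 + b ≤ g.2 → h f = h g := by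
    rintro ⟨fx, fy⟩ ⟨gx, gy⟩ hf hg
    have e1 := hor (fun _ => True) hT fy (fun y _ => (outer_iff _ _ _).2 (Or.inr (Or.inl hf))) fx gx
      trivial trivial
    have e2 := ver (fun x => c.2 + b ≤ x) (by intros; omega) gx
      (fun x hx => (outer_iff _ _ _).2 (Or.inr (Or.inl hx))) fy gy hf hg
    exact e1.trans e2
  have hD : ∀ f g : Vtx, f.2 ≤ c.2 - b - 1 → g.2 ≤ c.2 - b - 1 → h f = h g := by
    rintro ⟨fx, fy⟩ ⟨gx, gy⟩ hf hg
    have e1 := hor (fun _ => True) hT fy (fun y _ => (outer_iff _ _ _).2 (Or.inr (Or.inr hf))) fx gx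
      trivial trivial
    have e2 := ver (fun x => x ≤ c.2 - b - 1) (by intros; omega) gx
      (fun x hx => (outer_iff _ _ _).2 (Or.inr (Or.inr hx))) fy gy hf hg
    exact e1.trans e2
  have key : ∀ f : Vtx, 2 * (b : ℤ) < lf c f → h f = h (c.1 + b, c.2 + b) := by
    intro f hf
    rw [outer_iff] at hf
    rcases hf with (hf | hf) | (hf | hf)
    · exact hR f _ hf le_rfl
    · exact (hL f (c.1 - b - 1, c.2 + b) hf le_rfl).trans (hU _ _ le_rfl le_rfl)
    · exact hU f _ hf le_rfl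
    · exact (hD f (c.1 + b, c.2 - b - 1) hf le_rfl).trans (hR _ _ le_rfl le_rfl)
  intro f g hf hg
  rw [key f hf, key g hg]

end Pool.Agent.N948.IX

/-! ### (e) -/

namespace Pool.Agent.N948.IX.Bas

open H974 H12S Finset H984P H342P Pool.Agent.W92.DP H984P.SideAux

/-- A chain of states with outer faces. -/
def LkO (c : Vtx) (b : ℕ) (σ τ : St) : Prop :=
  ∃ α : St → ZMod 2, (∀ ρ, lf c (face ρ) < 2 * (b : ℤ) → α ρ = 0) ∧
    ∀ ρ, T4 α ρ = inc σ ρ + inc τ ρ

variable {c : Vtx} {b : ℕ}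

theorem LkO.refl (σ : St) : LkO c b σ σ :=
  ⟨fun _ => 0, fun _ _ => rfl, fun ρ => by unfold T4; rw [z2s (inc σ ρ)]; rfl⟩

theorem LkO.symm {σ τ : St} (h : LkO c b σ τ) : LkO c b τ σ := by
  obtain ⟨α, h1, h2⟩ := h
  exact ⟨α, h1, fun ρ => by rw [h2, add_comm]⟩

theorem LkO.trans {σ τ υ : St} (h : LkO c b σ τ) (h' : LkO c b τ υ) : LkO c b σ υ := by
  obtain ⟨α, h1, h2⟩ := h
  obtain ⟨β, h3, h4⟩ := h'
  refine ⟨fun ρ => α ρ + β ρ, fun ρ hρ => by
    show α ρ + β ρ = 0; rw [h1 ρ hρ, h3 ρ hρ, add_zero], fun ρ => ?_⟩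
  have e1 := h2 ρ
  have e2 := h4 ρ
  have e3 := z2s (inc τ ρ)
  unfold T4 at e1 e2 ⊢
  linear_combination e1 + e2 + e3

theorem LkO.sR {σ : St} (h : 2 * (b : ℤ) < lf c (face σ)) : LkO c b σ (rt σ) := by
  refine ⟨fun ρ => b2 (ρ = σ), fun ρ hρ => b2_not_of (fun e => by rw [e] at hρ; omega), fun ρ => ?_⟩
  unfold T4 inc
  have e1 : b2 (rt ρ = rt σ) = b2 (ρ = σ) := b2_congr rt_inj
  have e2 : b2 (mv ρ = rt σ) = b2 (op ρ = σ) := by
    rw [← rt_op]; exact b2_congr rt_inj
  rw [e1, e2]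
  ring

theorem LkO.sM {σ : St} (h : 2 * (b : ℤ) < lf c (face σ)) : LkO c b σ (mv σ) := by
  refine ⟨fun ρ => b2 (ρ = σ), fun ρ hρ => b2_not_of (fun e => by rw [e] at hρ; omega), fun ρ => ?_⟩
  unfold T4 inc
  have e1 : b2 (mv ρ = mv σ) = b2 (ρ = σ) := b2_congr mv_inj
  have e2 : b2 (rt ρ = mv σ) = b2 (op ρ = σ) := by
    rw [← mv_op]; exact b2_congr mv_inj
  rw [e1, e2]
  ring

/-- all states with the same outer face are linked -/
theorem LkO.faces (σ : St) (h : 2 * (b : ℤ) < lf c (face σ)) : LkO c b ((face σ), .ne) σ := by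
  obtain ⟨⟨x, y⟩, q⟩ := σ
  have step : ∀ τ : St, face τ = face ((x, y), q) → LkO c b τ (mv τ) :=
    fun τ hτ => LkO.sM (by rw [hτ]; exact h)
  cases q
  · simpa using LkO.refl _
  · have h1 := step ((x - 1, y), .ne) (by simp)
    simpa using h1
  · have h1 := step ((x - 1, y - 1), .ne) (by simp)
    have h2 := step ((x, y - 1), .nw) (by simp)
    have h3 := h1.trans (by simpa using h2)
    simpa using h3
  · have h1 := step ((x, y - 1), .ne) (by simp)
    have h2 := step ((x + 1, y - 1), .nw) (by simp)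
    have h3 := step ((x + 1, y), .sw) (by simp)
    have h4 : LkO c b ((x, y - 1), .ne) ((x + 1, y - 1), .nw) := by simpa using h1
    have h5 : LkO c b ((x + 1, y - 1), .nw) ((x + 1, y), .sw) := by simpa using h2
    have h6 : LkO c b ((x + 1, y), .sw) ((x, y), .se) := by simpa using h3
    exact h4.trans (h5.trans h6)

/-- neighbouring outer faces are linked -/
theorem LkO.nbr1 (x y : ℤ) (h : 2 * (b : ℤ) < lf c (x, y)) (h' : 2 * (b : ℤ) < lf c (x, y - 1)) :
    LkO c b ((x, y), .ne) ((x, y - 1), .ne) := by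
  have h1 : LkO c b ((x, y), .ne) ((x, y), .se) := by
    simpa using LkO.sR (c := c) (b := b) (σ := ((x, y), Q4.ne)) (by simpa using h)
  have h2 := LkO.faces (c := c) (b := b) ((x, y), Q4.se) (by simpa using h')
  exact h1.trans h2.symm

theorem LkO.nbr2 (x y : ℤ) (h : 2 * (b : ℤ) < lf c (x, y)) (h' : 2 * (b : ℤ) < lf c (x - 1, y)) :
    LkO c b ((x, y), .ne) ((x - 1, y), .ne) := by
  have h1 := LkO.faces (c := c) (b := b) ((x, y + 1), Q4.se) (by simpa using h)
  have h2 : LkO c b ((x, y + 1), .se) ((x, y + 1), .sw) := by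
    simpa using LkO.sR (c := c) (b := b) (σ := ((x, y + 1), Q4.se)) (by simpa using h)
  have h3 := LkO.faces (c := c) (b := b) ((x, y + 1), Q4.sw) (by simpa using h')
  have h4 := h1.trans (h2.trans h3.symm)
  simpa using h4

theorem LkO.nbr {f g : Vtx} (hf : 2 * (b : ℤ) < lf c f) (hg : 2 * (b : ℤ) < lf c g)
    (h : |f.1 - g.1| + |f.2 - g.2| = 1) : LkO c b (f, .ne) (g, .ne) := by
  obtain ⟨x, y⟩ := f
  obtain ⟨x', y'⟩ := g
  simp only [abs_eq_max_neg] at h
  have h4 : (x' = x ∧ y' = y - 1) ∨ (x' = x ∧ y' = y + 1) ∨ (x' = x - 1 ∧ y' = y) ∨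
      (x' = x + 1 ∧ y' = y) := by omega
  rcases h4 with ⟨rfl, rfl⟩ | ⟨rfl, rfl⟩ | ⟨rfl, rfl⟩ | ⟨rfl, rfl⟩
  · exact LkO.nbr1 _ _ hf hg
  · have := LkO.nbr1 (c := c) (b := b) x' (y + 1) hg (by simpa using hf)
    simpa using this.symm
  · exact LkO.nbr2 _ _ hf hg
  · have := LkO.nbr2 (c := c) (b := b) (x + 1) y' hg (by simpa using hf)
    simpa using this.symm

end Pool.Agent.N948.IX.Bas

namespace Pool.Agent.N948.IX

open H974 H12S Finset H984P H342P Pool.Agent.W92.DP Bas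

theorem lkOut : St_LkOut := by
  intro c b σ τ hσ hτ
  show LkO c b σ τ
  classical
  have h1 := LkO.faces σ hσ
  have h2 := LkO.faces τ hτ
  have h3 : LkO c b ((face σ), .ne) ((face τ), .ne) := by
    have key := connO c b (fun f => if LkO c b ((face σ), .ne) (f, .ne) then 1 else 0) ?_
      (face σ) (face τ) hσ hτ
    · rw [if_pos (LkO.refl _)] at key
      by_contra hcon
      rw [if_neg hcon] at key
      exact one_ne_zero key
    · intro f g hf hg hfg
      have h4 := LkO.nbr hf hg hfg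
      have h5 : LkO c b ((face σ), .ne) (f, .ne) ↔ LkO c b ((face σ), .ne) (g, .ne) :=
        ⟨fun h => h.trans h4, fun h => h.trans h4.symm⟩
      simp only [h5]
  exact h1.symm.trans (h3.trans h2)

end Pool.Agent.N948.IX
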