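import Pool.Agent.N948.IX.Defs
import Pool.Agent.H984R3.Per.Basic

/-!
Project IX (helper948): different inward crossings have different open clusters on their right and
different closed dual clusters on their left.  Author: helper645.

`σ, orb σ 1, …, orb σ N` is followed up to the first return `N` to the faces outside the large
square; a chain outside closes it, and the potentials of the closed chain are constant on open
edges of the large square and across closed edges between faces of the large square.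
-/

set_option autoImplicit false

namespace Pool.Agent.N948.IX

open H974 H12S Finset H984P H342P Pool.Agent.W92.DP H984P.SideAux

namespace N1

theorem lv_le {c v : Vtx} {b : ℤ} : lv c v ≤ b ↔
    (-b ≤ v.1 - c.1 ∧ v.1 - c.1 ≤ b) ∧ (-b ≤ v.2 - c.2 ∧ v.2 - c.2 ≤ b) := by
  unfold lv
  rw [max_le_iff, abs_le, abs_le]

theorem le_lv {c v : Vtx} {a : ℤ} : a ≤ lv c v ↔
    (a ≤ v.1 - c.1 ∨ a ≤ -(v.1 - c.1)) ∨ (a ≤ v.2 - c.2 ∨ a ≤ -(v.2 - c.2)) := by
  unfold lv
  rw [le_max_iff, le_abs, le_abs]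

theorem lf_lt {c f : Vtx} {b : ℤ} : lf c f < 2 * b ↔
    (-b ≤ f.1 - c.1 ∧ f.1 - c.1 < b) ∧ (-b ≤ f.2 - c.2 ∧ f.2 - c.2 < b) := by
  unfold lf
  rw [max_lt_iff, abs_lt, abs_lt]
  omega

theorem lf_odd (c f : Vtx) (k : ℤ) : lf c f ≠ 2 * k := by
  unfold lf
  rcases max_choice |2 * (f.1 - c.1) + 1| |2 * (f.2 - c.2) + 1| with h | h <;> rw [h]
  · rcases abs_choice (2 * (f.1 - c.1) + 1) with h' | h' <;> rw [h'] <;> omega
  · rcases abs_choice (2 * (f.2 - c.2) + 1) with h' | h' <;> rw [h'] <;> omega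

/-- An edge of a square is the side of a face of the square. -/
theorem exists_face {c : Vtx} {b : ℕ} {e : Edg} (h1 : lv c (src e) ≤ b) (h2 : lv c (tgt e) ≤ b) :
    ∃ ρ, ae ρ = e ∧ lf c (face ρ) < 2 * (b : ℤ) := by
  obtain ⟨x, y, _ | _⟩ := e
  · rw [lv_le] at h1 h2
    simp only [src_mk, tgt_false] at h1 h2
    by_cases hx : x - c.1 < b
    · exact ⟨((x, y + 1), .se), by simp, by rw [lf_lt]; simp only [face_se]; omega⟩
    · exact ⟨((x, y), .nw), by simp, by rw [lf_lt]; simp only [face_nw]; omega⟩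
  · rw [lv_le] at h1 h2
    simp only [src_mk, tgt_true] at h1 h2
    by_cases hy : y - c.2 < b
    · exact ⟨((x, y), .ne), by simp, by rw [lf_lt]; simp only [face_ne]; omega⟩
    · exact ⟨((x + 1, y), .sw), by simp, by rw [lf_lt]; simp only [face_sw]; omega⟩

theorem face_or {c : Vtx} {b : ℕ} {e : Edg} (h1 : lv c (src e) ≤ b) (h2 : lv c (tgt e) ≤ b) :
    lf c (dsrc e) < 2 * (b : ℤ) ∨ lf c (dtgt e) < 2 * (b : ℤ) := by
  obtain ⟨ρ, rfl, h⟩ := exists_face h1 h2
  rcases p2_dends ρ with ⟨g1, g2⟩ | ⟨g1, g2⟩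
  · left; rw [g1]; exact h
  · right; rw [g2]; exact h

/-- An edge between two faces of the small square has an end inside of it. -/
theorem inner_edge {c : Vtx} {a : ℤ} {e : Edg} (h1 : lf c (dsrc e) < 2 * a)
    (h2 : lf c (dtgt e) < 2 * a) : ¬ (a ≤ lv c (src e) ∧ a ≤ lv c (tgt e)) := by
  rintro ⟨h3, h4⟩
  rw [lf_lt] at h1 h2
  rw [le_lv] at h3 h4
  obtain ⟨x, y, _ | _⟩ := e
  · simp only [src_mk, tgt_false, dsrc_false, dtgt_mk] at h1 h2 h3 h4
    omega
  · simp only [src_mk, tgt_true, dsrc_true, dtgt_mk] at h1 h2 h3 h4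
    omega

theorem orb_box {G : Set Edg} {c : Vtx} {b : ℕ}
    (hG : ∀ e ∈ G, lv c (src e) ≤ b ∧ lv c (tgt e) ≤ b) {σ : St} (h : lv c σ.1 ≤ b) (s : ℕ) :
    lv c (orb G σ s).1 ≤ b := by
  induction s with
  | zero => exact h
  | succ s ih =>
    rw [orb_succ]
    by_cases ho : ae (orb G σ s) ∈ G
    · rw [nxt_open ho]
      rcases p2_ends (orb G σ s) with ⟨_, h2⟩ | ⟨h1, _⟩
      · rw [← h2]; exact (hG _ ho).2
      · rw [← h1]; exact (hG _ ho).1
    · rw [nxt_closed ho, p2_rt_fst]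
      exact ih

theorem orb_cancel {G : Set Edg} {σ σ' : St} {i n : ℕ} (h : orb G σ i = orb G σ' (i + n)) :
    σ = orb G σ' n := by
  rw [orb_add] at h
  exact (nxt_bij G).1.iterate i h

theorem periodic {G : Set Edg} {c : Vtx} {b : ℕ}
    (hG : ∀ e ∈ G, lv c (src e) ≤ b ∧ lv c (tgt e) ≤ b) {σ : St} (h : lv c σ.1 ≤ b) :
    ∃ n, 0 < n ∧ orb G σ n = σ := by
  by_contra hc
  push Not at hc
  have key : ∀ i j : ℕ, i < j → orb G σ i ≠ orb G σ j := by
    intro i j hij he
    obtain ⟨n, rfl⟩ : ∃ n, j = i + n := ⟨j - i, by omega⟩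
    exact hc n (by omega) (orb_cancel he).symm
  have hinj : Function.Injective (orb G σ) := by
    intro i j hij
    rcases Nat.lt_trichotomy i j with h' | h' | h'
    · exact absurd hij (key i j h')
    · exact h'
    · exact absurd hij.symm (key j i h')
  have hfin : {ρ : St | lv c ρ.1 ≤ b}.Finite := by
    refine (((Set.finite_Icc (c.1 - b) (c.1 + b)).prod (Set.finite_Icc (c.2 - b) (c.2 + b))).prod
      (Set.finite_univ (α := Q4))).subset ?_
    rintro ⟨⟨x, y⟩, q⟩ h
    have h' : lv c (x, y) ≤ b := h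
    rw [lv_le] at h'
    simp only at h'
    refine ⟨⟨⟨?_, ?_⟩, ⟨?_, ?_⟩⟩, trivial⟩ <;> simp only <;> omega
  exact Set.infinite_range_of_injective hinj (hfin.subset (by
    rintro _ ⟨s, rfl⟩
    exact orb_box hG h s))

/-- The chain of the first `N` states. -/
noncomputable def al (G : Set Edg) (σ : St) (N : ℕ) (ρ : St) : ZMod 2 :=
  ∑ s ∈ Finset.range N, b2 (orb G σ s = ρ)

theorem al_nxt (G : Set Edg) (σ : St) (N : ℕ) (ρ : St) :
    al G σ N ρ + al G σ N (nxt G ρ) = b2 (nxt G ρ = σ) + b2 (nxt G ρ = orb G σ N) := by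
  have h1 : al G σ N ρ = ∑ s ∈ Finset.range N, b2 (orb G σ (s + 1) = nxt G ρ) := by
    unfold al
    refine Finset.sum_congr rfl fun s _ => b2_congr ?_
    rw [orb_succ]
    exact (nxt_bij G).1.eq_iff.symm
  have h2 := Finset.sum_range_succ (fun s => b2 (orb G σ s = nxt G ρ)) N
  have h3 := Finset.sum_range_succ' (fun s => b2 (orb G σ s = nxt G ρ)) N
  rw [h1, b2_congr (eq_comm (a := nxt G ρ) (b := σ)),
    b2_congr (eq_comm (a := nxt G ρ) (b := orb G σ N))]
  unfold al
  rw [orb_zero] at h3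
  have e1 := z2s (∑ s ∈ Finset.range N, b2 (orb G σ s = nxt G ρ))
  have e2 := z2s (b2 (σ = nxt G ρ))
  linear_combination h2 - h3 + e1 - e2

theorem al_T4 (G : Set Edg) (σ : St) (N : ℕ) (ρ : St) :
    T4 (al G σ N) ρ = inc σ ρ + inc (orb G σ N) ρ := by
  have h1 := al_nxt G σ N ρ
  have h2 := al_nxt G σ N (op ρ)
  unfold T4 inc
  by_cases h : ae ρ ∈ G
  · have h' : ae (op ρ) ∈ G := by rw [ae_op]; exact h
    rw [nxt_open h] at h1
    rw [nxt_open h', mv_op] at h2
    linear_combination h1 + h2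
  · have h' : ae (op ρ) ∉ G := by rw [ae_op]; exact h
    rw [nxt_closed h] at h1
    rw [nxt_closed h', rt_op] at h2
    linear_combination h1 + h2

/-- The potentials of a crossing. -/
theorem core {G : Set Edg} {c : Vtx} {b : ℕ}
    (hG : ∀ e ∈ G, lv c (src e) ≤ b ∧ lv c (tgt e) ≤ b) (hL : St_LkOut) {σ σ' : St}
    (h1 : 2 * (b : ℤ) < lf c (face σ)) (h1' : 2 * (b : ℤ) < lf c (face σ'))
    (hv1 : lv c σ.1 ≤ b) (hne : σ ≠ σ') {m m' : ℕ}
    (hm : ∀ s, 0 < s → s ≤ m → lf c (face (orb G σ s)) < 2 * (b : ℤ))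
    (hm' : ∀ s, 0 < s → s ≤ m' → lf c (face (orb G σ' s)) < 2 * (b : ℤ)) :
    ∃ hv hf : Vtx → ZMod 2, (∀ e ∈ G, hv (src e) = hv (tgt e)) ∧
      (∀ e, e ∉ G → lf c (dsrc e) < 2 * (b : ℤ) → lf c (dtgt e) < 2 * (b : ℤ) →
        hf (dsrc e) = hf (dtgt e)) ∧
      (∀ s, 0 < s → s ≤ m → hv (orb G σ s).1 + hf (face (orb G σ s)) = 1) ∧
      (∀ s, 0 < s → s ≤ m' → hv (orb G σ' s).1 + hf (face (orb G σ' s)) = 0) := by
  classical
  have hex : ∃ n, 0 < n ∧ 2 * (b : ℤ) < lf c (face (orb G σ n)) := by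
    obtain ⟨n, hn, hn'⟩ := periodic hG hv1
    exact ⟨n, hn, by rw [hn']; exact h1⟩
  obtain ⟨N, ⟨hN0, hN1⟩, hN2⟩ : ∃ N, (0 < N ∧ 2 * (b : ℤ) < lf c (face (orb G σ N))) ∧
      ∀ s < N, ¬ (0 < s ∧ 2 * (b : ℤ) < lf c (face (orb G σ s))) :=
    ⟨Nat.find hex, Nat.find_spec hex, fun s hs => Nat.find_min hex hs⟩
  have hmN : m < N := by
    by_contra hc
    have := hm N hN0 (by omega)
    omega
  obtain ⟨β, hβ1, hβ2⟩ := hL c b σ (orb G σ N) h1 hN1
  obtain ⟨hv, hf, hpot⟩ := pot4 (fun ρ => al G σ N ρ + β ρ) (by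
    intro ρ
    have e1 := al_T4 G σ N ρ
    have e2 := hβ2 ρ
    have e3 := z2s (inc σ ρ)
    have e4 := z2s (inc (orb G σ N) ρ)
    unfold T4 at e1 e2 ⊢
    linear_combination e1 + e2 + e3 + e4)
  have hal : ∀ ρ, lf c (face ρ) < 2 * (b : ℤ) → lf c (face (nxt G ρ)) < 2 * (b : ℤ) →
      hv ρ.1 + hf (face ρ) = hv (nxt G ρ).1 + hf (face (nxt G ρ)) := by
    intro ρ g1 g2
    have k1 := al_nxt G σ N ρ
    have k2 : ¬ nxt G ρ = σ := fun g => by rw [g] at g2; omega
    have k3 : ¬ nxt G ρ = orb G σ N := fun g => by rw [g] at g2; omega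
    rw [b2_not_of k2, b2_not_of k3, add_zero] at k1
    rw [hpot ρ, hpot (nxt G ρ)]
    simp only [hβ1 ρ g1, hβ1 _ g2, add_zero]
    exact z2_eq k1
  refine ⟨hv, hf, ?_, ?_, ?_, ?_⟩
  · intro e he
    obtain ⟨ρ, rfl, g1⟩ := exists_face (hG e he).1 (hG e he).2
    have k1 := hal ρ g1 (by rw [nxt_open he, p2_face_mv]; exact g1)
    rw [nxt_open he, p2_face_mv] at k1
    have k2 : hv ρ.1 = hv (mv ρ).1 := add_right_cancel k1
    rcases p2_ends ρ with ⟨g2, g3⟩ | ⟨g2, g3⟩
    · rw [g2, g3]; exact k2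
    · rw [g2, g3]; exact k2.symm
  · intro e he g1 g2
    obtain ⟨ρ, rfl⟩ := exists_ae e
    have g3 : lf c (face ρ) < 2 * (b : ℤ) ∧ lf c (face (rt ρ)) < 2 * (b : ℤ) := by
      rcases p2_dends ρ with ⟨k1, k2⟩ | ⟨k1, k2⟩
      · rw [k1] at g1; rw [k2] at g2; exact ⟨g1, g2⟩
      · rw [k1] at g1; rw [k2] at g2; exact ⟨g2, g1⟩
    have k1 := hal ρ g3.1 (by rw [nxt_closed he]; exact g3.2)
    rw [nxt_closed he, p2_rt_fst] at k1
    have k2 : hf (face ρ) = hf (face (rt ρ)) := add_left_cancel k1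
    rcases p2_dends ρ with ⟨g4, g5⟩ | ⟨g4, g5⟩
    · rw [g4, g5]; exact k2
    · rw [g4, g5]; exact k2.symm
  · intro s hs hsm
    have g1 := hm s hs hsm
    rw [hpot]
    simp only [hβ1 _ g1, add_zero]
    unfold al
    rw [Finset.sum_eq_single s]
    · exact b2_of rfl
    · intro t ht hts
      rw [Finset.mem_range] at ht
      refine b2_not_of fun he => ?_
      rcases Nat.lt_trichotomy t s with h' | h' | h'
      · obtain ⟨n, rfl⟩ : ∃ n, s = t + n := ⟨s - t, by omega⟩
        have g2 := orb_cancel he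
        exact hN2 n (by omega) ⟨by omega, by rw [← g2]; exact h1⟩
      · exact hts h'
      · obtain ⟨n, rfl⟩ : ∃ n, t = s + n := ⟨t - s, by omega⟩
        have g2 := orb_cancel he.symm
        exact hN2 n (by omega) ⟨by omega, by rw [← g2]; exact h1⟩
    · intro h'
      exact absurd (Finset.mem_range.2 (by omega)) h'
  · intro s hs hsm
    have g1 := hm' s hs hsm
    rw [hpot]
    simp only [hβ1 _ g1, add_zero]
    unfold al
    refine Finset.sum_eq_zero fun t ht => ?_
    rw [Finset.mem_range] at ht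
    refine b2_not_of fun he => ?_
    rcases Nat.lt_or_ge s t with h' | h'
    · obtain ⟨n, rfl⟩ : ∃ n, t = s + n := ⟨t - s, by omega⟩
      have g2 := orb_cancel he.symm
      exact hN2 n (by omega) ⟨by omega, by rw [← g2]; exact h1'⟩
    · obtain ⟨n, rfl⟩ : ∃ n, s = t + n := ⟨s - t, by omega⟩
      have g2 := orb_cancel he
      rcases Nat.eq_zero_or_pos n with h0 | h0
      · subst h0
        exact hne g2
      · have g3 := hm' n h0 (by omega)
        rw [← g2] at g3
        omega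

theorem reach_const {G : Set Edg} {h : Vtx → ZMod 2} (hh : ∀ e ∈ G, h (src e) = h (tgt e))
    {u v : Vtx} (hr : Reach G u v) : h u = h v := by
  induction hr with
  | refl => rfl
  | tail _ hst ih =>
    obtain ⟨e, he, g⟩ := hst
    have k := hh e he
    rcases g with ⟨g1, g2⟩ | ⟨g1, g2⟩ <;> rw [ih, ← g1, ← g2, k]

theorem dreach_const {G : Set Edg} {h : Vtx → ZMod 2} (hh : ∀ e ∈ G, h (dsrc e) = h (dtgt e))
    {u v : Vtx} (hr : DReach G u v) : h u = h v := by
  induction hr with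
  | refl => rfl
  | tail _ hst ih =>
    obtain ⟨e, he, g⟩ := hst
    have k := hh e he
    rcases g with ⟨g1, g2⟩ | ⟨g1, g2⟩ <;> rw [ih, ← g1, ← g2, k]

/-- The faces of a crossing have the same potential. -/
theorem leg_const {G : Set Edg} {c : Vtx} {b : ℕ} {hf : Vtx → ZMod 2}
    (hh : ∀ e, e ∉ G → lf c (dsrc e) < 2 * (b : ℤ) → lf c (dtgt e) < 2 * (b : ℤ) →
        hf (dsrc e) = hf (dtgt e)) {σ : St} {m : ℕ}
    (hm : ∀ s, 0 < s → s ≤ m → lf c (face (orb G σ s)) < 2 * (b : ℤ)) :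
    ∀ s, 0 < s → s ≤ m → hf (face (orb G σ s)) = hf (face (orb G σ 1)) := by
  intro s
  induction s with
  | zero => intro h; exact absurd h (lt_irrefl 0)
  | succ s ih =>
    intro _ hs
    rcases Nat.eq_zero_or_pos s with h0 | h0
    · subst h0; rfl
    · rw [← ih h0 (by omega)]
      have g1 := hm s h0 (by omega)
      have g2 := hm (s + 1) (by omega) hs
      rw [orb_succ] at g2 ⊢
      by_cases ho : ae (orb G σ s) ∈ G
      · rw [nxt_open ho, p2_face_mv]
      · rw [nxt_closed ho] at g2 ⊢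
        rcases p2_dends (orb G σ s) with ⟨k1, k2⟩ | ⟨k1, k2⟩
        · have := hh _ ho (by rw [k1]; exact g1) (by rw [k2]; exact g2)
          rw [k1, k2] at this
          exact this.symm
        · have := hh _ ho (by rw [k1]; exact g2) (by rw [k2]; exact g1)
          rw [k1, k2] at this
          exact this

/-- A function constant along the edges of a square is constant. -/
theorem box_const {c : Vtx} {a : ℕ} {h : Vtx → ZMod 2}
    (hh : ∀ e : Edg, lv c (src e) ≤ a → lv c (tgt e) ≤ a → h (src e) = h (tgt e)) :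
    ∀ v, lv c v ≤ a → h v = h c := by
  have c1 : ∀ n : ℕ, ∀ x y : ℤ, (x - c.1).natAbs = n → lv c (x, y) ≤ a →
      h (x, y) = h (c.1, y) := by
    intro n
    induction n with
    | zero =>
      intro x y hn _
      have : x = c.1 := by omega
      rw [this]
    | succ n ih =>
      intro x y hn hl
      rw [lv_le] at hl
      simp only at hl
      rcases lt_or_ge c.1 x with g | g
      · have k1 := hh (x - 1, y, true) (by rw [lv_le]; simp only [src_mk]; omega)
          (by rw [lv_le]; simp only [tgt_true]; omega)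
        simp only [src_mk, tgt_true, sub_add_cancel] at k1
        rw [← k1]
        exact ih (x - 1) y (by omega) (by rw [lv_le]; simp only; omega)
      · have k1 := hh (x, y, true) (by rw [lv_le]; simp only [src_mk]; omega)
          (by rw [lv_le]; simp only [tgt_true]; omega)
        simp only [src_mk, tgt_true] at k1
        rw [k1]
        exact ih (x + 1) y (by omega) (by rw [lv_le]; simp only; omega)
  have c2 : ∀ n : ℕ, ∀ y : ℤ, (y - c.2).natAbs = n → lv c (c.1, y) ≤ a →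
      h (c.1, y) = h c := by
    intro n
    induction n with
    | zero =>
      intro y hn _
      have : y = c.2 := by omega
      rw [this]
    | succ n ih =>
      intro y hn hl
      rw [lv_le] at hl
      simp only at hl
      rcases lt_or_ge c.2 y with g | g
      · have k1 := hh (c.1, y - 1, false) (by rw [lv_le]; simp only [src_mk]; omega)
          (by rw [lv_le]; simp only [tgt_false]; omega)
        simp only [src_mk, tgt_false, sub_add_cancel] at k1
        rw [← k1]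
        exact ih (y - 1) (by omega) (by rw [lv_le]; simp only; omega)
      · have k1 := hh (c.1, y, false) (by rw [lv_le]; simp only [src_mk]; omega)
          (by rw [lv_le]; simp only [tgt_false]; omega)
        simp only [src_mk, tgt_false] at k1
        rw [k1]
        exact ih (y + 1) (by omega) (by rw [lv_le]; simp only; omega)
  rintro ⟨x, y⟩ hv
  rw [c1 _ x y rfl hv]
  refine c2 _ y rfl ?_
  rw [lv_le] at hv ⊢
  simp only at hv ⊢
  omega

/-- The edge between two neighbouring faces. -/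
theorem adj_edge {f g : Vtx} (h : |f.1 - g.1| + |f.2 - g.2| = 1) :
    ∃ e : Edg, (dsrc e = f ∧ dtgt e = g) ∨ (dsrc e = g ∧ dtgt e = f) := by
  obtain ⟨x, y⟩ := f
  obtain ⟨x', y'⟩ := g
  simp only at h
  have key : (x = x' + 1 ∧ y = y') ∨ (x' = x + 1 ∧ y = y') ∨ (x = x' ∧ y = y' + 1) ∨
      (x = x' ∧ y' = y + 1) := by
    rcases abs_cases (x - x') with ⟨h1, _⟩ | ⟨h1, _⟩ <;>
      rcases abs_cases (y - y') with ⟨h2, _⟩ | ⟨h2, _⟩ <;> rw [h1, h2] at h <;> omega
  rcases key with ⟨rfl, rfl⟩ | ⟨rfl, rfl⟩ | ⟨rfl, rfl⟩ | ⟨rfl, rfl⟩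
  · exact ⟨(x' + 1, y, false), Or.inr ⟨by simp, by simp⟩⟩
  · exact ⟨(x + 1, y, false), Or.inl ⟨by simp, by simp⟩⟩
  · exact ⟨(x, y' + 1, true), Or.inr ⟨by simp, by simp⟩⟩
  · exact ⟨(x, y + 1, true), Or.inl ⟨by simp, by simp⟩⟩

end N1

open N1

theorem n1o (hc : St_congr) (hB : St_basic) (hL : St_LkOut) (hI : St_ConnI) : St_N1o := by
  intro F c a b σ σ' T T' hab h h' hne hr
  obtain ⟨b1, b2', b3, b4, b5, b6, b7, b8⟩ := hB F c a b σ T hab h
  obtain ⟨d1, d2, d3, d4, d5, d6, d7, d8⟩ := hB F c a b σ' T' hab h'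
  have ho : ∀ s ≤ T, orb (F ∩ Ge c a b) σ s = orb F σ s :=
    hc F (F ∩ Ge c a b) σ T (fun s hs => ⟨fun g => ⟨g, b4 s hs⟩, fun g => g.1⟩)
  have ho' : ∀ s ≤ T', orb (F ∩ Ge c a b) σ' s = orb F σ' s :=
    hc F (F ∩ Ge c a b) σ' T' (fun s hs => ⟨fun g => ⟨g, d4 s hs⟩, fun g => g.1⟩)
  have hm : ∀ s, 0 < s → s ≤ T → lf c (face (orb (F ∩ Ge c a b) σ s)) < 2 * (b : ℤ) := by
    intro s hs hsT
    rw [ho s hsT]
    rcases Nat.lt_or_ge s T with g | g
    · exact (h.mid s hs g).2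
    · have : s = T := by omega
      rw [this]
      have := h.en
      omega
  have hm' : ∀ s, 0 < s → s ≤ T' → lf c (face (orb (F ∩ Ge c a b) σ' s)) < 2 * (b : ℤ) := by
    intro s hs hsT
    rw [ho' s hsT]
    rcases Nat.lt_or_ge s T' with g | g
    · exact (h'.mid s hs g).2
    · have : s = T' := by omega
      rw [this]
      have := h'.en
      omega
  obtain ⟨hv, hf, p1, p2, p3, p4⟩ := core (G := F ∩ Ge c a b) (c := c) (b := b)
    (fun e he => ⟨he.2.1.2, he.2.2.2⟩) hL h.st h'.st (le_of_eq b2') hne hm hm'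
  have q1 := leg_const p2 hm T (by omega) le_rfl
  have q2 := leg_const p2 hm' T' (by omega) le_rfl
  have q3 : hf (face (orb (F ∩ Ge c a b) σ T)) = hf (face (orb (F ∩ Ge c a b) σ' T')) := by
    refine hI c a hf (fun f g g1 g2 g3 => ?_) _ _ (by rw [ho T le_rfl]; exact h.en)
      (by rw [ho' T' le_rfl]; exact h'.en)
    obtain ⟨e, he⟩ := adj_edge g3
    have key : ∀ e : Edg, lf c (dsrc e) < 2 * (a : ℤ) → lf c (dtgt e) < 2 * (a : ℤ) →
        hf (dsrc e) = hf (dtgt e) := by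
      intro e k1 k2
      refine p2 e (fun k3 => inner_edge k1 k2 ⟨k3.2.1.1, k3.2.2.1⟩) ?_ ?_ <;> omega
    rcases he with ⟨k1, k2⟩ | ⟨k1, k2⟩
    · have := key e (by rw [k1]; exact g1) (by rw [k2]; exact g2)
      rw [k1, k2] at this
      exact this
    · have := key e (by rw [k1]; exact g2) (by rw [k2]; exact g1)
      rw [k1, k2] at this
      exact this.symm
  have r1 := p3 1 one_pos (by omega)
  have r2 := p4 1 one_pos (by omega)
  have s1 : hv σ.1 = hv (orb (F ∩ Ge c a b) σ 1).1 := by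
    rw [ho 1 (by omega)]
    exact reach_const p1 (b5 1 (by omega))
  have s2 : hv σ'.1 = hv (orb (F ∩ Ge c a b) σ' 1).1 := by
    rw [ho' 1 (by omega)]
    exact reach_const p1 (d5 1 (by omega))
  have s3 := reach_const p1 hr
  rw [← s1, ← q1, q3, q2, s3, s2, r2] at r1
  exact absurd r1 (by decide)

namespace N1

/-- The restriction of a crossing to the configuration of n1d. -/
theorem orb_d (hc : St_congr) {F : Set Edg} {c : Vtx} {a b : ℕ} {σ : St} {T : ℕ} (hab : a < b)
    (h : InLeg F c a b σ T) (b4 : ∀ s < T, ae (orb F σ s) ∈ Ge c a b) :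
    ∀ s ≤ T - 1, orb ((F ∩ Ge c a b) ∪ {e | lv c (src e) ≤ a ∧ lv c (tgt e) ≤ a}) σ s =
      orb F σ s := by
  refine hc F _ σ (T - 1) (fun s hs => ⟨fun g => Or.inl ⟨g, b4 s (by omega)⟩, fun g => ?_⟩)
  rcases g with g | g
  · exact g.1
  · by_contra hF
    have g1 := face_or g.1 g.2
    have g2 : 2 * (a : ℤ) < lf c (face (orb F σ s)) := by
      rcases Nat.eq_zero_or_pos s with h0 | h0
      · subst h0
        have := h.st
        rw [orb_zero]
        omega
      · exact (h.mid s h0 (by omega)).1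
    have g3 : 2 * (a : ℤ) < lf c (face (rt (orb F σ s))) := by
      have := (h.mid (s + 1) (by omega) (by omega)).1
      rwa [orb_succ, nxt_closed hF] at this
    rcases p2_dends (orb F σ s) with ⟨k1, k2⟩ | ⟨k1, k2⟩ <;> rw [k1, k2] at g1 <;> omega

/-- The last step of a crossing is closed. -/
theorem last_fst {F : Set Edg} {c : Vtx} {a b : ℕ} {σ : St} {T : ℕ}
    (h : InLeg F c a b σ T) (h1 : 1 < T) : (orb F σ (T - 1)).1 = (orb F σ T).1 := by
  obtain ⟨s, rfl⟩ : ∃ s, T = s + 1 := ⟨T - 1, by omega⟩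
  simp only [Nat.add_sub_cancel]
  rw [orb_succ]
  by_cases ho : ae (orb F σ s) ∈ F
  · exfalso
    have g1 := h.en
    rw [orb_succ, nxt_open ho, p2_face_mv] at g1
    have g2 := (h.mid s (by omega) (by omega)).1
    omega
  · rw [nxt_closed ho, p2_rt_fst]

end N1

theorem n1d (hc : St_congr) (hB : St_basic) (hL : St_LkOut) : St_N1d := by
  intro F c a b σ σ' T T' hab h h' hne hr
  obtain ⟨b1, b2', b3, b4, b5, b6, b7, b8⟩ := hB F c a b σ T hab h
  obtain ⟨d1, d2, d3, d4, d5, d6, d7, d8⟩ := hB F c a b σ' T' hab h'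
  have ho := orb_d hc hab h b4
  have ho' := orb_d hc hab h' d4
  set G : Set Edg := (F ∩ Ge c a b) ∪ {e | lv c (src e) ≤ a ∧ lv c (tgt e) ≤ a} with hGdef
  have hG : ∀ e ∈ G, lv c (src e) ≤ b ∧ lv c (tgt e) ≤ b := by
    intro e he
    rcases he with g | g
    · exact ⟨g.2.1.2, g.2.2.2⟩
    · exact ⟨g.1.trans (by exact_mod_cast hab.le), g.2.trans (by exact_mod_cast hab.le)⟩
  have hm : ∀ s, 0 < s → s ≤ T - 1 → lf c (face (orb G σ s)) < 2 * (b : ℤ) := by
    intro s hs hsT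
    rw [ho s hsT]
    exact (h.mid s hs (by omega)).2
  have hm' : ∀ s, 0 < s → s ≤ T' - 1 → lf c (face (orb G σ' s)) < 2 * (b : ℤ) := by
    intro s hs hsT
    rw [ho' s hsT]
    exact (h'.mid s hs (by omega)).2
  obtain ⟨hv, hf, p1, p2, p3, p4⟩ := core hG hL h.st h'.st (le_of_eq b2') hne hm hm'
  have r1 := p3 (T - 1) (by omega) le_rfl
  have r2 := p4 (T' - 1) (by omega) le_rfl
  rw [ho (T - 1) le_rfl] at r1
  rw [ho' (T' - 1) le_rfl] at r2
  have box := box_const (c := c) (a := a) (h := hv) (fun e g1 g2 => p1 e (Or.inr ⟨g1, g2⟩))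
  have v1 := box (orb F σ (T - 1)).1 (by rw [last_fst h b1]; exact le_of_eq b3)
  have v2 := box (orb F σ' (T' - 1)).1 (by rw [last_fst h' d1]; exact le_of_eq d3)
  have hfc : ∀ e ∈ Fᶜ ∩ Gd c a b, hf (dsrc e) = hf (dtgt e) := by
    rintro e ⟨g1, g2, g3⟩
    refine p2 e (fun g4 => ?_) g2.2 g3.2
    rcases g4 with g4 | g4
    · exact g1 g4.1
    · have g5 := face_or g4.1 g4.2
      have g6 := g2.1
      have g7 := g3.1
      omega
  have u1 := dreach_const hfc (b6 (T - 1) (by omega) (by omega))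
  have u2 := dreach_const hfc (d6 (T' - 1) (by omega) (by omega))
  have u3 := dreach_const hfc hr
  rw [v1, ← u1, u3, u2, ← v2, r2] at r1
  exact absurd r1 (by decide)

end Pool.Agent.N948.IX
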