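import Pool.Agent.N948.IX.Defs

/-!
Crossing clusters have a crossing interface (project IX, subtask N2, by helper543).
-/

set_option autoImplicit false
set_option linter.unusedSimpArgs false

namespace Pool.Agent.N948.IX.N2

open H974 H12S Finset H984P H342P Pool.Agent.W92.DP H984P.SideAux

theorem lf_lt {c f : Vtx} {n : ℤ} : lf c f < n ↔
    ((-n < 2 * (f.1 - c.1) + 1 ∧ 2 * (f.1 - c.1) + 1 < n) ∧
      (-n < 2 * (f.2 - c.2) + 1 ∧ 2 * (f.2 - c.2) + 1 < n)) := by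
  unfold lf; rw [max_lt_iff, abs_lt, abs_lt]

theorem lt_lf {c f : Vtx} {n : ℤ} : n < lf c f ↔
    ((n < 2 * (f.1 - c.1) + 1 ∨ n < -(2 * (f.1 - c.1) + 1)) ∨
      (n < 2 * (f.2 - c.2) + 1 ∨ n < -(2 * (f.2 - c.2) + 1))) := by
  unfold lf; rw [lt_max_iff, lt_abs, lt_abs]

theorem lv_le {c v : Vtx} {n : ℤ} : lv c v ≤ n ↔
    ((-n ≤ v.1 - c.1 ∧ v.1 - c.1 ≤ n) ∧ (-n ≤ v.2 - c.2 ∧ v.2 - c.2 ≤ n)) := by
  unfold lv; rw [max_le_iff, abs_le, abs_le]

theorem le_lv {c v : Vtx} {n : ℤ} : n ≤ lv c v ↔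
    ((n ≤ v.1 - c.1 ∨ n ≤ -(v.1 - c.1)) ∨ (n ≤ v.2 - c.2 ∨ n ≤ -(v.2 - c.2))) := by
  unfold lv; rw [le_max_iff, le_abs, le_abs]

/-- The edges of the square. -/
def Sq (c : Vtx) (a : ℕ) : Set Edg := {e | lv c (src e) ≤ a ∧ lv c (tgt e) ≤ a}

/-- An edge next to a face of the annulus is an edge of the annulus. -/
theorem geo1 {c : Vtx} {a b : ℕ} {e : Edg} (h : Af c a b (dsrc e) ∨ Af c a b (dtgt e)) :
    e ∈ Ge c a b := by
  obtain ⟨x, y, q⟩ := e
  simp only [Af, Ge, Set.mem_ofPred_eq, lf_lt, lt_lf, lv_le, le_lv] at h ⊢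
  cases q <;> simp at h ⊢ <;> omega

theorem geo2 {c : Vtx} {a b : ℕ} {e : Edg} (h : Af c a b (dsrc e)) (h' : lf c (dtgt e) < 2 * (a:ℤ)) :
    e ∈ Sq c a := by
  obtain ⟨x, y, q⟩ := e
  simp only [Af, Sq, Set.mem_ofPred_eq, lf_lt, lt_lf, lv_le, le_lv] at h h' ⊢
  cases q <;> simp at h h' ⊢ <;> omega

theorem geo2' {c : Vtx} {a b : ℕ} {e : Edg} (h : Af c a b (dtgt e)) (h' : lf c (dsrc e) < 2 * (a:ℤ)) :
    e ∈ Sq c a := by
  obtain ⟨x, y, q⟩ := e
  simp only [Af, Sq, Set.mem_ofPred_eq, lf_lt, lt_lf, lv_le, le_lv] at h h' ⊢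
  cases q <;> simp at h h' ⊢ <;> omega

theorem geo3 {c : Vtx} {a b : ℕ} {e : Edg} (h : Af c a b (dsrc e)) (h' : e ∈ Sq c a) (ha : 1 ≤ a) :
    lf c (dtgt e) < 2 * (a:ℤ) := by
  obtain ⟨x, y, q⟩ := e
  simp only [Af, Sq, Set.mem_ofPred_eq, lf_lt, lt_lf, lv_le, le_lv] at h h' ⊢
  cases q <;> simp at h h' ⊢ <;> omega

theorem geo3' {c : Vtx} {a b : ℕ} {e : Edg} (h : Af c a b (dtgt e)) (h' : e ∈ Sq c a) (ha : 1 ≤ a) :
    lf c (dsrc e) < 2 * (a:ℤ) := by
  obtain ⟨x, y, q⟩ := e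
  simp only [Af, Sq, Set.mem_ofPred_eq, lf_lt, lt_lf, lv_le, le_lv] at h h' ⊢
  cases q <;> simp at h h' ⊢ <;> omega

/-- An edge between two outer faces. -/
theorem geo4 {c : Vtx} {b : ℕ} {e : Edg} (hb : 1 ≤ b) (h : 2 * (b:ℤ) < lf c (dsrc e))
    (h' : 2 * (b:ℤ) < lf c (dtgt e)) : ¬ (lv c (src e) ≤ b ∧ lv c (tgt e) ≤ b) := by
  obtain ⟨x, y, q⟩ := e
  simp only [lf_lt, lt_lf, lv_le, le_lv] at h h' ⊢
  cases q <;> simp at h h' ⊢ <;> omega

/-- An edge between two inner faces. -/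
theorem geo5 {c : Vtx} {a : ℕ} {e : Edg} (h : lf c (dsrc e) < 2 * (a:ℤ))
    (h' : lf c (dtgt e) < 2 * (a:ℤ)) : ¬ ((a:ℤ) ≤ lv c (src e) ∧ (a:ℤ) ≤ lv c (tgt e)) := by
  obtain ⟨x, y, q⟩ := e
  simp only [lf_lt, lt_lf, lv_le, le_lv] at h h' ⊢
  cases q <;> simp at h h' ⊢ <;> omega

/-- An edge next to an outer face. -/
theorem geo6 {c : Vtx} {a b : ℕ} {e : Edg} (hab : a < b) (h : 2 * (b:ℤ) < lf c (dsrc e) ∨ 2 * (b:ℤ) < lf c (dtgt e)) :
    e ∉ Sq c a := by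
  obtain ⟨x, y, q⟩ := e
  simp only [Sq, Set.mem_ofPred_eq, lf_lt, lt_lf, lv_le, le_lv] at h ⊢
  cases q <;> simp at h ⊢ <;> omega

/-- Outer and inner faces are not neighbours. -/
theorem geo7 {c : Vtx} {a b : ℕ} {e : Edg} (hab : a < b) (h : 2 * (b:ℤ) < lf c (dsrc e)) :
    2 * (a:ℤ) < lf c (dtgt e) := by
  obtain ⟨x, y, q⟩ := e
  simp only [lf_lt, lt_lf, lv_le, le_lv] at h ⊢
  cases q <;> simp at h ⊢ <;> omega

theorem geo7' {c : Vtx} {a b : ℕ} {e : Edg} (hab : a < b) (h : 2 * (b:ℤ) < lf c (dtgt e)) :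
    2 * (a:ℤ) < lf c (dsrc e) := by
  obtain ⟨x, y, q⟩ := e
  simp only [lf_lt, lt_lf, lv_le, le_lv] at h ⊢
  cases q <;> simp at h ⊢ <;> omega

/-- Parity. -/
theorem lf_odd (c f : Vtx) (n : ℤ) : lf c f < 2 * n ∨ 2 * n < lf c f := by
  rw [lf_lt, lt_lf]; omega

/-- A state with an outer face at a vertex of norm `b`. -/
theorem outer_state {c v : Vtx} {b : ℕ} (h : lv c v = b) : ∃ q, 2 * (b:ℤ) < lf c (face (v, q)) := by
  have h1 : (b:ℤ) ≤ lv c v := h.ge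
  rw [le_lv] at h1
  obtain ⟨x, y⟩ := v
  simp only at h1
  rcases h1 with (h1 | h1) | (h1 | h1)
  · exact ⟨.ne, by rw [lt_lf]; simp; omega⟩
  · exact ⟨.nw, by rw [lt_lf]; simp; omega⟩
  · exact ⟨.ne, by rw [lt_lf]; simp; omega⟩
  · exact ⟨.se, by rw [lt_lf]; simp; omega⟩

/-- A state with an inner face at a vertex of norm `a ≥ 1`. -/
theorem inner_state {c v : Vtx} {a : ℕ} (ha : 1 ≤ a) (h : lv c v ≤ a) :
    ∃ q, lf c (face (v, q)) < 2 * (a:ℤ) := by
  rw [lv_le] at h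
  obtain ⟨x, y⟩ := v
  simp only at h
  rcases le_or_gt (x - c.1) 0 with h1 | h1 <;> rcases le_or_gt (y - c.2) 0 with h2 | h2
  · exact ⟨.ne, by rw [lf_lt]; simp; omega⟩
  · exact ⟨.se, by rw [lf_lt]; simp; omega⟩
  · exact ⟨.nw, by rw [lf_lt]; simp; omega⟩
  · exact ⟨.sw, by rw [lf_lt]; simp; omega⟩

/-- Adjacent faces have a common edge. -/
theorem adjE {f g : Vtx} (h : |f.1 - g.1| + |f.2 - g.2| = 1) :
    ∃ e : Edg, (dsrc e = f ∧ dtgt e = g) ∨ (dsrc e = g ∧ dtgt e = f) := by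
  obtain ⟨x, y⟩ := f
  obtain ⟨x', y'⟩ := g
  simp only at h
  have h4 : (x' = x + 1 ∧ y' = y) ∨ (x = x' + 1 ∧ y' = y) ∨ (x' = x ∧ y' = y + 1) ∨
      (x' = x ∧ y = y' + 1) := by
    rcases abs_cases (x - x') with ⟨h1, h2⟩ | ⟨h1, h2⟩ <;>
      rcases abs_cases (y - y') with ⟨h3, h4⟩ | ⟨h3, h4⟩ <;> rw [h1, h3] at h <;> omega
  rcases h4 with ⟨rfl, rfl⟩ | ⟨rfl, rfl⟩ | ⟨rfl, rfl⟩ | ⟨rfl, rfl⟩
  · exact ⟨(x + 1, y', false), Or.inl ⟨by simp, by simp⟩⟩
  · exact ⟨(x' + 1, y', false), Or.inr ⟨by simp, by simp⟩⟩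
  · exact ⟨(x', y + 1, true), Or.inl ⟨by simp, by simp⟩⟩
  · exact ⟨(x', y' + 1, true), Or.inr ⟨by simp, by simp⟩⟩

/-! ### Orbits -/

theorem step_le {F : Set Edg} {c : Vtx} {b : ℕ}
    (hF : ∀ e ∈ F, lv c (src e) ≤ b ∧ lv c (tgt e) ≤ b) {ρ : St} (hρ : lv c ρ.1 ≤ b) :
    lv c (nxt F ρ).1 ≤ b := by
  by_cases h : ae ρ ∈ F
  · rw [nxt_open h, mv_fst]
    rcases ends ρ with ⟨h1, h2⟩ | ⟨h1, h2⟩
    · rw [← h2]; exact (hF _ h).2
    · rw [← h1]; exact (hF _ h).1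
  · rw [nxt_closed h, rt_fst]; exact hρ

theorem step_ge {F : Set Edg} {c : Vtx} {b : ℕ}
    (hF : ∀ e ∈ F, lv c (src e) ≤ b ∧ lv c (tgt e) ≤ b) {ρ : St} (hρ : lv c (nxt F ρ).1 ≤ b) :
    lv c ρ.1 ≤ b := by
  by_cases h : ae ρ ∈ F
  · rcases ends ρ with ⟨h1, h2⟩ | ⟨h1, h2⟩
    · rw [← h1]; exact (hF _ h).1
    · rw [← h2]; exact (hF _ h).2
  · rw [nxt_closed h, rt_fst] at hρ; exact hρ

theorem orb_le {F : Set Edg} {c : Vtx} {b : ℕ}
    (hF : ∀ e ∈ F, lv c (src e) ≤ b ∧ lv c (tgt e) ≤ b) {ρ : St} (hρ : lv c ρ.1 ≤ b) (s : ℕ) :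
    lv c (orb F ρ s).1 ≤ b := by
  induction s with
  | zero => exact hρ
  | succ s ih => rw [orb_succ]; exact step_le hF ih

/-- Orbits in finite regions are periodic. -/
theorem per {F : Set Edg} {c : Vtx} {b : ℕ}
    (hF : ∀ e ∈ F, lv c (src e) ≤ b ∧ lv c (tgt e) ≤ b) {ρ : St} (hρ : lv c ρ.1 ≤ b) (n : ℕ) :
    ∃ P, n < P ∧ orb F ρ P = ρ := by
  have hfin : {τ : St | lv c τ.1 ≤ b}.Finite := by
    refine Set.Finite.subset ((((Set.finite_Icc (c.1 - b) (c.1 + b)).prod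
      (Set.finite_Icc (c.2 - b) (c.2 + b))).prod (Set.finite_univ (α := Q4)))) ?_
    rintro ⟨⟨x, y⟩, q⟩ h
    simp only [Set.mem_ofPred_eq, lv_le] at h
    simp only [Set.mem_prod, Set.mem_Icc, Set.mem_univ, and_true]
    omega
  have hni : ¬ Function.Injective (fun s : ℕ => orb F ρ s) := by
    intro hi
    exact Set.infinite_range_of_injective hi (hfin.subset (by
      rintro _ ⟨s, rfl⟩
      exact orb_le hF hρ s))
  obtain ⟨m, hm, hm'⟩ : ∃ m, 0 < m ∧ orb F ρ m = ρ := by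
    have key : ∀ i j, i < j → orb F ρ i = orb F ρ j → ∃ m, 0 < m ∧ orb F ρ m = ρ := by
      intro i j hij he
      refine ⟨j - i, by omega, ?_⟩
      have h1 : orb F ρ j = (nxt F)^[i] (orb F ρ (j - i)) := by
        rw [show orb F ρ j = orb F ρ (i + (j - i)) by rw [show i + (j - i) = j by omega], orb_add]
        rfl
      rw [h1] at he
      exact (((nxt_bij F).1.iterate i) he).symm
    unfold Function.Injective at hni
    push Not at hni
    obtain ⟨i, j, h1, h2⟩ := hni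
    rcases Nat.lt_or_gt_of_ne h2 with h3 | h3
    · exact key i j h3 h1
    · exact key j i h3 h1.symm
  have hmul : ∀ k, orb F ρ (k * m) = ρ := by
    intro k
    induction k with
    | zero => simp
    | succ k ih => rw [Nat.succ_mul, orb_add, hm', ih]
  exact ⟨(n + 1) * m, by nlinarith, hmul _⟩

/-- Last time before `P` with property `p`. -/
theorem last (p : ℕ → Prop) {n P : ℕ} (hn : n ≤ P) (h : p n) :
    ∃ t, n ≤ t ∧ t ≤ P ∧ p t ∧ ∀ s, t < s → s ≤ P → ¬ p s := by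
  classical
  refine ⟨Nat.findGreatest p P, Nat.le_findGreatest hn h, Nat.findGreatest_le P,
    Nat.findGreatest_spec hn h, fun s h1 h2 h3 => ?_⟩
  exact Nat.findGreatest_is_greatest h1 h2 h3

/-- First time after `n` with property `q`. -/
theorem first (q : ℕ → Prop) {n P : ℕ} (hn : n ≤ P) (h : q P) :
    ∃ t, n ≤ t ∧ t ≤ P ∧ q t ∧ ∀ s, n ≤ s → s < t → ¬ q s := by
  classical
  have hex : ∃ t, n ≤ t ∧ q t := ⟨P, hn, h⟩
  refine ⟨Nat.find hex, (Nat.find_spec hex).1, Nat.find_min' hex ⟨hn, h⟩, (Nat.find_spec hex).2,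
    fun s h1 h2 h3 => Nat.find_min hex h2 ⟨h1, h3⟩⟩

theorem reach_const {F : Set Edg} {h : Vtx → ZMod 2} (hC : ∀ e ∈ F, h (src e) = h (tgt e))
    {u w : Vtx} (hr : Reach F u w) : h u = h w := by
  induction hr with
  | refl => rfl
  | tail _ hs ih =>
    obtain ⟨e, he, h | h⟩ := hs
    · rw [ih, ← h.1, ← h.2]; exact hC e he
    · rw [ih, ← h.1, ← h.2]; exact (hC e he).symm

theorem dreach_const {F : Set Edg} {h : Vtx → ZMod 2} (hC : ∀ e ∈ F, h (dsrc e) = h (dtgt e))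
    {u w : Vtx} (hr : DReach F u w) : h u = h w := by
  induction hr with
  | refl => rfl
  | tail _ hs ih =>
    obtain ⟨e, he, h | h⟩ := hs
    · rw [ih, ← h.1, ← h.2]; exact hC e he
    · rw [ih, ← h.1, ← h.2]; exact (hC e he).symm

/-- A function which is constant along the edges of a square. -/
theorem sq_const {c : Vtx} {a : ℕ} {h : Vtx → ZMod 2}
    (hC : ∀ e ∈ Sq c a, h (src e) = h (tgt e)) :
    ∀ (n : ℕ) (v : Vtx), (v.1 - c.1).natAbs + (v.2 - c.2).natAbs = n → lv c v ≤ a → h v = h c := by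
  intro n
  induction n with
  | zero =>
    intro v hv _
    congr 1
    ext
    · omega
    · omega
  | succ n ih =>
    rintro ⟨x, y⟩ hv hl
    simp only at hv
    rw [lv_le] at hl
    simp only at hl
    have main : ∀ e : Edg, ∀ w, ((src e = (x, y) ∧ tgt e = w) ∨ (src e = w ∧ tgt e = (x, y))) →
        lv c w ≤ a → (w.1 - c.1).natAbs + (w.2 - c.2).natAbs = n → h (x, y) = h c := by
      intro e w he hw hn
      have hxy : lv c (x, y) ≤ a := by rw [lv_le]; simpa using hl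
      rw [← ih w hn hw]
      rcases he with ⟨h1, h2⟩ | ⟨h1, h2⟩
      · rw [← h1, ← h2]
        exact hC e ⟨by rw [h1]; exact hxy, by rw [h2]; exact hw⟩
      · rw [← h1, ← h2]
        exact (hC e ⟨by rw [h1]; exact hw, by rw [h2]; exact hxy⟩).symm
    rcases lt_trichotomy x c.1 with h1 | h1 | h1
    · exact main (x, y, true) (x + 1, y) (Or.inl ⟨by simp, by simp⟩) (by rw [lv_le]; simp; omega)
        (by simp only; omega)
    · rcases lt_trichotomy y c.2 with h2 | h2 | h2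
      · exact main (x, y, false) (x, y + 1) (Or.inl ⟨by simp, by simp⟩) (by rw [lv_le]; simp; omega)
          (by simp only; omega)
      · omega
      · exact main (x, y - 1, false) (x, y - 1) (Or.inr ⟨by simp, by simp⟩)
          (by rw [lv_le]; simp; omega) (by simp only; omega)
    · exact main (x - 1, y, true) (x - 1, y) (Or.inr ⟨by simp, by simp⟩)
        (by rw [lv_le]; simp; omega) (by simp only; omega)

theorem orb_reach' {F : Set Edg} (ρ : St) (s : ℕ) : Reach F ρ.1 (orb F ρ s).1 := by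
  induction s with
  | zero => exact Reach.refl _ _
  | succ s ih =>
    rw [orb_succ]
    refine ih.trans ?_
    generalize orb F ρ s = τ
    by_cases h : ae τ ∈ F
    · rw [nxt_open h, mv_fst]
      exact Adj.reach ⟨ae τ, h, ends τ⟩
    · rw [nxt_closed h, rt_fst]; exact Reach.refl _ _

/-- An open crossing cluster has an inward crossing on its boundary. -/
theorem n2o (hc : St_congr) (hB : St_basic) (hO : St_ConnO) (hI : St_ConnI) : St_N2o := by
  intro F c a b x y x' y' ha hab hx hy hxy hx' hy' hxy' hne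
  have hab' : (a:ℤ) < b := by exact_mod_cast hab
  obtain ⟨F1, hF1⟩ : ∃ F1, F1 = F ∩ Ge c a b := ⟨_, rfl⟩
  rw [← hF1] at hxy hxy' hne ⊢
  have hb : 1 ≤ b := by omega
  have hge : ∀ e ∈ F1, e ∈ Ge c a b := fun e he => by rw [hF1] at he; exact he.2
  have hFb : ∀ e ∈ F1, lv c (src e) ≤ b ∧ lv c (tgt e) ≤ b := fun e he =>
    ⟨(hge e he).1.2, (hge e he).2.2⟩
  have hCb : ∀ v, Reach F1 x v → lv c v ≤ b := by
    intro v hv
    induction hv with
    | refl => rw [hx]; exact hab'.le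
    | tail _ hs _ =>
      obtain ⟨e, he, h | h⟩ := hs
      · rw [← h.2]; exact (hFb e he).2
      · rw [← h.1]; exact (hFb e he).1
  obtain ⟨A, hA⟩ : ∃ A : Set St, A = {ρ | Reach F1 x ρ.1 ∧
    ∀ n, ¬ (2 * (b:ℤ) < lf c (face (orb F1 ρ n)))} := ⟨_, rfl⟩
  have mA : ∀ ρ, ρ ∈ A ↔ (Reach F1 x ρ.1 ∧ ∀ n, ¬ (2 * (b:ℤ) < lf c (face (orb F1 ρ n)))) := by
    intro ρ; rw [hA]; exact Iff.rfl
  have hclu : ∀ ρ : St, Reach F1 ρ.1 (nxt F1 ρ).1 := fun ρ => orb_reach' ρ 1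
  have hinv : ∀ ρ, ρ ∈ A ↔ nxt F1 ρ ∈ A := by
    intro ρ
    rw [mA, mA]
    constructor
    · rintro ⟨h1, h2⟩
      exact ⟨h1.trans (hclu ρ), fun n => by
        have := h2 (n + 1)
        rw [orb_add] at this
        exact this⟩
    · rintro ⟨h1, h2⟩
      have h3 : Reach F1 x ρ.1 := h1.trans (hclu ρ).symm
      refine ⟨h3, fun n => ?_⟩
      rcases n with _ | n
      · obtain ⟨P, hP, hP'⟩ := per hFb (hCb _ h3) 0
        obtain ⟨P, rfl⟩ : ∃ P', P = P' + 1 := ⟨P - 1, by omega⟩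
        have h4 := h2 P
        rw [orb_add] at hP'
        have h5 : orb F1 (nxt F1 ρ) P = ρ := hP'
        rw [h5] at h4
        exact h4
      · have := h2 n
        rw [orb_add]
        exact this
  obtain ⟨hv, hf, hpot, hC, hE⟩ := pot_of_inv F1 A hinv
  have hout : ∀ f g : Vtx, 2 * (b : ℤ) < lf c f → 2 * (b : ℤ) < lf c g → hf f = hf g := by
    apply hO c b hf
    intro f g h1 h2 h3
    obtain ⟨e, h | h⟩ := adjE h3
    · rw [← h.1, ← h.2]
      exact hE e (fun he => geo4 hb (by rw [h.1]; exact h1) (by rw [h.2]; exact h2) (hFb e he))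
    · rw [← h.1, ← h.2]
      exact (hE e (fun he => geo4 hb (by rw [h.1]; exact h2) (by rw [h.2]; exact h1)
        (hFb e he))).symm
  have hinn : ∀ f g : Vtx, lf c f < 2 * (a : ℤ) → lf c g < 2 * (a : ℤ) → hf f = hf g := by
    apply hI c a hf
    intro f g h1 h2 h3
    obtain ⟨e, h | h⟩ := adjE h3
    · rw [← h.1, ← h.2]
      exact hE e (fun he => geo5 (by rw [h.1]; exact h1) (by rw [h.2]; exact h2)
        ⟨(hge e he).1.1, (hge e he).2.1⟩)
    · rw [← h.1, ← h.2]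
      exact (hE e (fun he => geo5 (by rw [h.1]; exact h2) (by rw [h.2]; exact h1)
        ⟨(hge e he).1.1, (hge e he).2.1⟩)).symm
  obtain ⟨qy, hqy⟩ := outer_state hy
  obtain ⟨qy', hqy'⟩ := outer_state hy'
  obtain ⟨q, hq⟩ := inner_state ha hx.le
  obtain ⟨q', hq'⟩ := inner_state ha hx'.le
  have e1 : hv y + hf (face (y, qy)) = 0 :=
    (hpot (y, qy)).trans (b2_not_of (fun h => ((mA _).1 h).2 0 hqy))
  have e2 : hv y' + hf (face (y', qy')) = 0 :=
    (hpot (y', qy')).trans (b2_not_of (fun h => ((mA _).1 h).2 0 hqy'))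
  have e3 : hv x = hv y := reach_const hC hxy
  have e4 : hv x' = hv y' := reach_const hC hxy'
  have e5 : hf (face (y, qy)) = hf (face (y', qy')) := hout _ _ hqy hqy'
  have e6 : hv x' + hf (face (x', q')) = 0 :=
    (hpot (x', q')).trans (b2_not_of (fun h => hne ((mA _).1 h).1))
  have e7 : hf (face (x, q)) = hf (face (x', q')) := hinn _ _ hq hq'
  have e8 : hv x + hf (face (x, q)) = b2 (((x, q) : St) ∈ A) := hpot (x, q)
  have hρ : ((x, q) : St) ∉ A := by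
    intro h
    rw [b2_of h] at e8
    rw [e3, e7] at e8
    rw [e4] at e6
    rw [e5] at e1
    generalize hv y = p1 at *
    generalize hv y' = p2 at *
    generalize hf (face (y', qy')) = p3 at *
    generalize hf (face (x', q')) = p4 at *
    clear e3 e4 e5 e7
    revert p1 p2 p3 p4
    decide
  obtain ⟨n, hn⟩ : ∃ n, 2 * (b:ℤ) < lf c (face (orb F1 (x, q) n)) := by
    by_contra hcon
    push Not at hcon
    exact hρ ((mA _).2 ⟨Reach.refl _ _, fun n => not_lt.2 (hcon n)⟩)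
  obtain ⟨P, hP, hP'⟩ := per (ρ := (x, q)) hFb (hCb _ (Reach.refl _ _)) n
  obtain ⟨t1, h1, h2, h3, h4⟩ := first (fun s => lf c (face (orb F1 (x, q) s)) < 2 * (a:ℤ)) hP.le
    (by show lf c (face (orb F1 (x, q) P)) < _; rw [hP']; exact hq)
  obtain ⟨t0, h5, h6, h7, h8⟩ := last (fun s => 2 * (b:ℤ) < lf c (face (orb F1 (x, q) s))) h1 hn
  have h9 : t0 < t1 := by
    rcases h6.lt_or_eq with h | h
    · exact h
    · rw [h] at h7; omega
  have hleg : InLeg F1 c a b (orb F1 (x, q) t0) (t1 - t0) := by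
    refine ⟨by omega, h7, ?_, ?_⟩
    · intro s hs1 hs2
      rw [← orb_add]
      constructor
      · rcases lf_odd c (face (orb F1 (x, q) (s + t0))) a with h | h
        · exact absurd h (h4 _ (by omega) (by omega))
        · exact h
      · rcases lf_odd c (face (orb F1 (x, q) (s + t0))) b with h | h
        · exact h
        · exact absurd h (h8 _ (by omega) (by omega))
    · rw [← orb_add, show t1 - t0 + t0 = t1 by omega]
      exact h3
  have hG := (hB F1 c a b _ _ hab hleg).2.2.2.1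
  have m1 : ∀ e, e ∈ F1 ↔ (e ∈ F ∧ e ∈ Ge c a b) := by
    intro e; rw [hF1]; exact Iff.rfl
  have hcg := hc F1 F (orb F1 (x, q) t0) (t1 - t0)
    (fun s hs => ⟨fun h => ((m1 _).1 h).1, fun h => (m1 _).2 ⟨h, hG s hs⟩⟩)
  refine ⟨orb F1 (x, q) t0, t1 - t0, ⟨hleg.pos, hleg.st, ?_, ?_⟩, ?_⟩
  · intro s hs1 hs2
    rw [hcg s hs2.le]
    exact hleg.mid s hs1 hs2
  · rw [hcg _ le_rfl]
    exact hleg.en
  · exact orb_reach' (F := F1) (x, q) t0

/-- A closed dual crossing cluster has an inward crossing on its boundary. -/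
theorem n2d (hc : St_congr) (hO : St_ConnO) : St_N2d := by
  intro F c a b f g f' g' ha hab hf1 hg1 hfg hf1' hg1' hfg' hne
  have hab' : (a:ℤ) < b := by exact_mod_cast hab
  have hb : 1 ≤ b := by omega
  obtain ⟨F3, hF3⟩ : ∃ F3, F3 = (F ∩ Ge c a b) ∪ Sq c a := ⟨_, rfl⟩
  have m3 : ∀ e, e ∈ F3 ↔ ((e ∈ F ∧ e ∈ Ge c a b) ∨ e ∈ Sq c a) := by
    intro e; rw [hF3]; exact Iff.rfl
  have hFb : ∀ e ∈ F3, lv c (src e) ≤ b ∧ lv c (tgt e) ≤ b := by
    intro e he
    rcases (m3 e).1 he with h | h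
    · exact ⟨h.2.1.2, h.2.2.2⟩
    · exact ⟨h.1.trans hab'.le, h.2.trans hab'.le⟩
  have cl : ∀ e ∈ Fᶜ ∩ Gd c a b, e ∉ F3 := by
    rintro e ⟨h1, h2, h3⟩ he
    rcases (m3 e).1 he with h4 | h4
    · exact h1 h4.1
    · have := geo3 h2 h4 ha
      have := h3.1
      omega
  have stp : ∀ e, e ∉ F3 → ((Af c a b (dsrc e) ∧ ¬ (2 * (b:ℤ) < lf c (dtgt e))) ∨
      (Af c a b (dtgt e) ∧ ¬ (2 * (b:ℤ) < lf c (dsrc e)))) → e ∈ Fᶜ ∩ Gd c a b := by
    rintro e he (⟨h1, h2⟩ | ⟨h1, h2⟩)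
    · have h3 : e ∈ Ge c a b := geo1 (Or.inl h1)
      refine ⟨fun h => he ((m3 e).2 (Or.inl ⟨h, h3⟩)), h1, ?_, ?_⟩
      · rcases lf_odd c (dtgt e) a with h | h
        · exact absurd ((m3 e).2 (Or.inr (geo2 h1 h))) he
        · exact h
      · rcases lf_odd c (dtgt e) b with h | h
        · exact h
        · exact absurd h h2
    · have h3 : e ∈ Ge c a b := geo1 (Or.inr h1)
      refine ⟨fun h => he ((m3 e).2 (Or.inl ⟨h, h3⟩)), ⟨?_, ?_⟩, h1⟩
      · rcases lf_odd c (dsrc e) a with h | h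
        · exact absurd ((m3 e).2 (Or.inr (geo2' h1 h))) he
        · exact h
      · rcases lf_odd c (dsrc e) b with h | h
        · exact h
        · exact absurd h h2
  have sst : ∀ ρ, ae ρ ∉ F3 → ((Af c a b (face ρ) ∧ ¬ (2 * (b:ℤ) < lf c (face (rt ρ)))) ∨
      (Af c a b (face (rt ρ)) ∧ ¬ (2 * (b:ℤ) < lf c (face ρ)))) → ae ρ ∈ Fᶜ ∩ Gd c a b := by
    intro ρ h1 h2
    apply stp _ h1
    rcases p2_dends ρ with ⟨h3, h4⟩ | ⟨h3, h4⟩
    · rw [h3, h4]; exact h2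
    · rw [h3, h4]; exact h2.symm
  have hDf : ∀ h, DReach (Fᶜ ∩ Gd c a b) f h → Af c a b h := by
    intro h hh
    induction hh with
    | refl => exact hf1.1
    | tail _ hs _ =>
      obtain ⟨e, he, h | h⟩ := hs
      · rw [← h.2]; exact he.2.2
      · rw [← h.1]; exact he.2.1
  have hcor : ∀ ρ : St, Af c a b (face ρ) → lv c ρ.1 ≤ b := by
    intro ρ h
    have h1 : ae ρ ∈ Ge c a b := by
      rcases p2_dends ρ with ⟨h3, h4⟩ | ⟨h3, h4⟩
      · exact geo1 (Or.inl (by rw [h3]; exact h))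
      · exact geo1 (Or.inr (by rw [h4]; exact h))
    rcases ends ρ with ⟨h3, h4⟩ | ⟨h3, h4⟩
    · rw [← h3]; exact h1.1.2
    · rw [← h4]; exact h1.2.2
  obtain ⟨A, hA⟩ : ∃ A : Set St, A = {ρ | DReach (Fᶜ ∩ Gd c a b) f (face ρ) ∧
    ∀ n, ¬ (2 * (b:ℤ) < lf c (face (orb F3 ρ n)))} := ⟨_, rfl⟩
  have mA : ∀ ρ, ρ ∈ A ↔ (DReach (Fᶜ ∩ Gd c a b) f (face ρ) ∧
      ∀ n, ¬ (2 * (b:ℤ) < lf c (face (orb F3 ρ n)))) := by
    intro ρ; rw [hA]; exact Iff.rfl
  have hinv : ∀ ρ, ρ ∈ A ↔ nxt F3 ρ ∈ A := by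
    intro ρ
    rw [mA, mA]
    constructor
    · rintro ⟨h1, h2⟩
      refine ⟨?_, fun n => by
        have := h2 (n + 1)
        rw [orb_add] at this
        exact this⟩
      by_cases h : ae ρ ∈ F3
      · rw [nxt_open h, face_mv]; exact h1
      · have h3 : ¬ (2 * (b:ℤ) < lf c (face (nxt F3 ρ))) := h2 1
        rw [nxt_closed h] at h3 ⊢
        exact h1.trans (DAdj.reach ⟨ae ρ, sst ρ h (Or.inl ⟨hDf _ h1, h3⟩), p2_dends ρ⟩)
    · rintro ⟨h1, h2⟩
      have hb1 : lv c ρ.1 ≤ b := step_ge hFb (hcor _ (hDf _ h1))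
      have h0 : ¬ (2 * (b:ℤ) < lf c (face ρ)) := by
        obtain ⟨P, hP, hP'⟩ := per hFb hb1 0
        obtain ⟨P, rfl⟩ : ∃ P', P = P' + 1 := ⟨P - 1, by omega⟩
        have h4 := h2 P
        rw [orb_add] at hP'
        have h5 : orb F3 (nxt F3 ρ) P = ρ := hP'
        rw [h5] at h4
        exact h4
      refine ⟨?_, fun n => ?_⟩
      · by_cases h : ae ρ ∈ F3
        · rw [nxt_open h, face_mv] at h1; exact h1
        · rw [nxt_closed h] at h1
          exact h1.trans (DAdj.reach ⟨ae ρ, sst ρ h (Or.inr ⟨hDf _ h1, h0⟩), (p2_dends ρ).symm⟩)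
      · rcases n with _ | n
        · exact h0
        · have := h2 n
          rw [orb_add]
          exact this
  obtain ⟨hv, hf, hpot, hC, hE⟩ := pot_of_inv F3 A hinv
  have hout : ∀ f g : Vtx, 2 * (b : ℤ) < lf c f → 2 * (b : ℤ) < lf c g → hf f = hf g := by
    apply hO c b hf
    intro f g h1 h2 h3
    obtain ⟨e, h | h⟩ := adjE h3
    · rw [← h.1, ← h.2]
      exact hE e (fun he => geo4 hb (by rw [h.1]; exact h1) (by rw [h.2]; exact h2) (hFb e he))
    · rw [← h.1, ← h.2]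
      exact (hE e (fun he => geo4 hb (by rw [h.1]; exact h2) (by rw [h.2]; exact h1)
        (hFb e he))).symm
  -- dual potential of the crossing clusters
  have hto : ∀ g, TOut c a b F g → ∃ g0, 2 * (b:ℤ) < lf c g0 ∧ hf g = hf g0 := by
    rintro g ⟨_, e, he, ⟨h1, h2⟩ | ⟨h1, h2⟩⟩
    · refine ⟨dtgt e, h2, ?_⟩
      rw [← h1]
      refine hE e (fun h => ?_)
      rcases (m3 e).1 h with h | h
      · exact he h.1
      · exact geo6 hab (Or.inr h2) h
    · refine ⟨dsrc e, h2, ?_⟩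
      rw [← h1]
      refine (hE e (fun h => ?_)).symm
      rcases (m3 e).1 h with h | h
      · exact he h.1
      · exact geo6 hab (Or.inl h2) h
  obtain ⟨g0, hg0, hg0'⟩ := hto g hg1
  obtain ⟨g2, hg2, hg2'⟩ := hto g' hg1'
  have e1 : hf f = hf g := dreach_const (fun e he => hE e (cl e he)) hfg
  have e2 : hf f' = hf g' := dreach_const (fun e he => hE e (cl e he)) hfg'
  have e3 : hf f = hf f' := by rw [e1, e2, hg0', hg2', hout _ _ hg0 hg2]
  have e4 : ∀ v, lv c v ≤ a → hv v = hv c := fun v hv' =>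
    sq_const (fun e he => hC e ((m3 e).2 (Or.inr he))) _ v rfl hv'
  -- the state of a face touching the inside
  have hti : ∀ f, TIn c a b F f → ∃ ρ, face ρ = f ∧ ae ρ ∈ Sq c a ∧ ae ρ ∉ F := by
    rintro f ⟨hA1, e, he, ⟨h1, h2⟩ | ⟨h1, h2⟩⟩
    · have h3 : e ∈ Sq c a := geo2 (by rw [h1]; exact hA1) h2
      obtain ⟨ρ, rfl⟩ := exists_ae e
      rcases faces ρ with ⟨h4, h5⟩ | ⟨h4, h5⟩
      · exact ⟨ρ, by rw [← h4, h1], h3, he⟩
      · exact ⟨op ρ, by rw [← h4, h1], by rw [ae_op]; exact h3, by rw [ae_op]; exact he⟩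
    · have h3 : e ∈ Sq c a := geo2' (by rw [h1]; exact hA1) h2
      obtain ⟨ρ, rfl⟩ := exists_ae e
      rcases faces ρ with ⟨h4, h5⟩ | ⟨h4, h5⟩
      · exact ⟨op ρ, by rw [← h5, h1], by rw [ae_op]; exact h3, by rw [ae_op]; exact he⟩
      · exact ⟨ρ, by rw [← h5, h1], h3, he⟩
  have hsq : ∀ ρ : St, ae ρ ∈ Sq c a → lv c ρ.1 ≤ a := by
    intro ρ h
    rcases ends ρ with ⟨h3, h4⟩ | ⟨h3, h4⟩
    · rw [← h3]; exact h.1
    · rw [← h4]; exact h.2
  obtain ⟨ρ', r1', r2', r3'⟩ := hti f' hf1'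
  obtain ⟨ρ, r1, r2, r3⟩ := hti f hf1
  have e5 : hv ρ'.1 + hf (face ρ') = 0 :=
    (hpot ρ').trans (b2_not_of (fun h => hne (by
      have := ((mA _).1 h).1
      rw [r1'] at this
      exact this)))
  have e6 : hv ρ.1 + hf (face ρ) = b2 (ρ ∈ A) := hpot ρ
  rw [e4 _ (hsq _ r2'), r1'] at e5
  rw [e4 _ (hsq _ r2), r1, e3, e5] at e6
  have hρ : ρ ∉ A := by
    intro h
    rw [b2_of h] at e6
    exact absurd e6 (by decide)
  obtain ⟨n, hn⟩ : ∃ n, 2 * (b:ℤ) < lf c (face (orb F3 ρ n)) := by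
    by_contra hcon
    push Not at hcon
    exact hρ ((mA _).2 ⟨by rw [r1]; exact DReach.refl _ _, fun n => not_lt.2 (hcon n)⟩)
  have hfA : Af c a b (face ρ) := by rw [r1]; exact hf1.1
  obtain ⟨P, hP, hP'⟩ := per (ρ := ρ) hFb (hcor _ hfA) n
  obtain ⟨t0, h5, h6, h7, h8⟩ := last (fun s => 2 * (b:ℤ) < lf c (face (orb F3 ρ s))) hP.le hn
  have h9 : t0 < P := by
    rcases h6.lt_or_eq with h | h
    · exact h
    · rw [h, hP'] at h7
      have := hfA.2
      omega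
  -- annular faces
  have hann : ∀ s, t0 < s → s ≤ P → Af c a b (face (orb F3 ρ s)) := by
    intro s hs
    induction s, hs using Nat.le_induction with
    | base =>
      intro hs'
      have h10 := h8 (t0 + 1) (by omega) hs'
      refine ⟨?_, ?_⟩
      · rw [orb_succ] at h10 ⊢
        by_cases h : ae (orb F3 ρ t0) ∈ F3
        · rw [nxt_open h, face_mv] at h10
          exact absurd h7 h10
        · rw [nxt_closed h]
          rcases p2_dends (orb F3 ρ t0) with ⟨h3, h4⟩ | ⟨h3, h4⟩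
          · rw [← h4]; exact geo7 hab (by rw [h3]; exact h7)
          · rw [← h3]; exact geo7' hab (by rw [h4]; exact h7)
      · rcases lf_odd c (face (orb F3 ρ (t0 + 1))) b with h | h
        · exact h
        · exact absurd h h10
    | succ s hs ih =>
      intro hs'
      have h10 := h8 (s + 1) (by omega) hs'
      have ih' := ih (by omega)
      rw [orb_succ] at h10 ⊢
      by_cases h : ae (orb F3 ρ s) ∈ F3
      · rw [nxt_open h, face_mv]; exact ih'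
      · rw [nxt_closed h] at h10 ⊢
        have h11 := sst _ h (Or.inl ⟨ih', h10⟩)
        rcases p2_dends (orb F3 ρ s) with ⟨h3, h4⟩ | ⟨h3, h4⟩
        · rw [← h4]; exact h11.2.2
        · rw [← h3]; exact h11.2.1
  have hcon : ∀ s, t0 < s → s ≤ P →
      DReach (Fᶜ ∩ Gd c a b) (face (orb F3 ρ (t0 + 1))) (face (orb F3 ρ s)) := by
    intro s hs
    induction s, hs using Nat.le_induction with
    | base => intro _; exact DReach.refl _ _
    | succ s hs ih =>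
      intro hs'
      have ih' := ih (by omega)
      have h10 := h8 (s + 1) (by omega) hs'
      have h12 := hann s (by omega) (by omega)
      rw [orb_succ] at h10
      rw [orb_succ F3 ρ s]
      by_cases h : ae (orb F3 ρ s) ∈ F3
      · rw [nxt_open h, face_mv]; exact ih'
      · rw [nxt_closed h] at h10 ⊢
        exact ih'.trans (DAdj.reach ⟨_, sst _ h (Or.inl ⟨h12, h10⟩), p2_dends _⟩)
  obtain ⟨t, k1, k2, k3, k4⟩ := first (fun s => ae (orb F3 ρ s) ∈ F3 ∧ ae (orb F3 ρ s) ∉ F) h9.le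
    (by
      show ae (orb F3 ρ P) ∈ F3 ∧ ae (orb F3 ρ P) ∉ F
      rw [hP']
      exact ⟨(m3 _).2 (Or.inr r2), r3⟩)
  have hcl0 : ae (orb F3 ρ t0) ∉ F3 := by
    intro h
    have h10 := h8 (t0 + 1) (by omega) (by omega)
    rw [orb_succ, nxt_open h, face_mv] at h10
    exact h10 h7
  have k5 : t0 < t := by
    rcases k1.lt_or_eq with h | h
    · exact h
    · rw [← h] at k3; exact absurd k3.1 hcl0
  have hGe : ∀ s, t0 ≤ s → s ≤ P → ae (orb F3 ρ s) ∈ Ge c a b := by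
    intro s hs1 hs2
    rcases hs1.lt_or_eq with h | h
    · have h1 := hann s h hs2
      rcases p2_dends (orb F3 ρ s) with ⟨h3, h4⟩ | ⟨h3, h4⟩
      · exact geo1 (Or.inl (by rw [h3]; exact h1))
      · exact geo1 (Or.inr (by rw [h4]; exact h1))
    · have h1 := hann (t0 + 1) (by omega) (by omega)
      rw [← h]
      rw [orb_succ, nxt_closed hcl0] at h1
      rcases p2_dends (orb F3 ρ t0) with ⟨h3, h4⟩ | ⟨h3, h4⟩
      · exact geo1 (Or.inr (by rw [h4]; exact h1))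
      · exact geo1 (Or.inl (by rw [h3]; exact h1))
  have hcg := hc F3 F (orb F3 ρ t0) (t - t0) (fun s hs => by
    rw [← orb_add]
    constructor
    · intro h
      by_contra h'
      exact k4 (s + t0) (by omega) (by omega) ⟨h, h'⟩
    · intro h
      exact (m3 _).2 (Or.inl ⟨h, hGe _ (by omega) (by omega)⟩))
  have k6 : orb F (orb F3 ρ t0) (t - t0) = orb F3 ρ t := by
    rw [hcg _ le_rfl, ← orb_add, show t - t0 + t0 = t by omega]
  have k7 := hann t k5 k2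
  have k8 : ae (orb F3 ρ t) ∈ Sq c a := by
    rcases (m3 _).1 k3.1 with h | h
    · exact absurd h.1 k3.2
    · exact h
  refine ⟨orb F3 ρ t0, t - t0 + 1, ⟨by omega, h7, ?_, ?_⟩, ?_⟩
  · intro s hs1 hs2
    rw [hcg s (by omega), ← orb_add]
    exact hann _ (by omega) (by omega)
  · rw [orb_succ, k6, nxt_closed k3.2]
    rcases p2_dends (orb F3 ρ t) with ⟨h3, h4⟩ | ⟨h3, h4⟩
    · rw [← h4]; exact geo3 (by rw [h3]; exact k7) k8 ha
    · rw [← h3]; exact geo3' (by rw [h4]; exact k7) k8 ha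
  · rw [hcg 1 (by omega), ← orb_add, add_comm 1 t0]
    have h10 := hcon P h9 le_rfl
    rw [hP', r1] at h10
    exact h10.symm

end Pool.Agent.N948.IX.N2
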