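import Pool.Agent.N948.IX.Asm
import Pool.Agent.N948.IX.Bas
import Pool.Agent.N948.IX.N1
import Pool.Agent.N948.IX.N2

/-!
# Project IX: finiteness, locality and the number of crossings
-/

set_option autoImplicit false

namespace Pool.Agent.N948.IX

open H974 H906.Cyl H12S Finset H984P H342P

theorem fin : St_fin := by
  intro c b
  refine ⟨((Finset.Icc (c.1 - b) (c.1 + b)) ×ˢ (Finset.Icc (c.2 - b) (c.2 + b))) ×ˢ
    (Finset.univ : Finset Q4), fun F a hab σ hσ => ?_⟩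
  obtain ⟨T, hT⟩ := hσ
  obtain ⟨-, h1, -⟩ := basic F c a b σ T hab hT
  have h2 : |σ.1.1 - c.1| ≤ (b : ℤ) := by
    rw [← h1]
    exact le_max_left _ _
  have h3 : |σ.1.2 - c.2| ≤ (b : ℤ) := by
    rw [← h1]
    exact le_max_right _ _
  rw [abs_le] at h2 h3
  rw [Finset.mem_coe, Finset.mem_product, Finset.mem_product, Finset.mem_Icc, Finset.mem_Icc]
  refine ⟨⟨⟨?_, ?_⟩, ?_, ?_⟩, Finset.mem_univ _⟩
  · linarith
  · linarith
  · linarith
  · linarith

theorem loc : St_loc := by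
  intro F G c a b hab hFG σ T hT
  obtain ⟨-, -, -, hG, -⟩ := basic F c a b σ T hab hT
  have h1 : ∀ s ≤ T, orb G σ s = orb F σ s := by
    apply congr F G σ T
    intro s hs
    have h2 := hG s hs
    have h3 : ae (orb F σ s) ∈ F ∩ Ge c a b ↔ ae (orb F σ s) ∈ G ∩ Ge c a b := by rw [hFG]
    constructor
    · intro h4
      exact (h3.1 ⟨h4, h2⟩).1
    · intro h4
      exact (h3.2 ⟨h4, h2⟩).1
  refine ⟨⟨hT.pos, hT.st, fun s hs hs' => ?_, ?_⟩, ?_⟩
  · rw [h1 s hs'.le]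
    exact hT.mid s hs hs'
  · rw [h1 T le_rfl]
    exact hT.en
  · ext e
    rw [mem_Exm, mem_Exm]
    constructor
    · rintro ⟨s, hs, he⟩
      rw [h1 s hs.le] at he
      exact ⟨s, hs, he⟩
    · rintro ⟨s, hs, he⟩
      rw [← h1 s hs.le] at he
      exact ⟨s, hs, he⟩

theorem cnt : St_cnt := by
  intro F c a b K ha hab hK hOC
  obtain ⟨x, hx, hne⟩ := hOC
  have hN2 : St_N2o := N2.n2o congr basic connO connI
  have h1 : ∀ i : Fin K, ∃ σ : St, σ ∈ LS c a b F ∧ Reach (F ∩ Ge c a b) (x i) σ.1 := by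
    intro i
    obtain ⟨j, hj⟩ : ∃ j : Fin K, i ≠ j := by
      by_cases hi : i.1 = 0
      · exact ⟨⟨1, by omega⟩, fun h => by
          rw [h] at hi
          simp at hi⟩
      · exact ⟨⟨0, by omega⟩, fun h => hi (by rw [h])⟩
    obtain ⟨hxi, y, hy, hr⟩ := hx i
    obtain ⟨hxj, y', hy', hr'⟩ := hx j
    obtain ⟨σ, T, hσ, hr''⟩ := hN2 F c a b (x i) y (x j) y' ha hab hxi hy hr hxj hy' hr' (hne i j hj)
    exact ⟨σ, ⟨T, hσ⟩, hr''⟩
  choose σ hσ hr using h1
  refine ⟨σ, ?_, hσ⟩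
  intro i j hij
  by_contra hcon
  apply hne i j hcon
  have h2 := hr j
  rw [← hij] at h2
  exact (hr i).trans h2.symm

theorem cnt' : St_cnt' := by
  intro F c a b K σ hab hinj hσ
  have hN1 : St_N1o := n1o congr basic lkOut connI
  choose T hT using hσ
  have hB := fun i => basic F c a b (σ i) (T i) hab (hT i)
  refine ⟨fun i => (orb F (σ i) (T i)).1, fun i => ?_, fun i j hij h => ?_⟩
  · obtain ⟨-, h1, h2, -, h3, -⟩ := hB i
    exact ⟨h2, (σ i).1, h1, (h3 (T i) le_rfl).symm⟩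
  · obtain ⟨-, -, -, -, h3, -⟩ := hB i
    obtain ⟨-, -, -, -, h3', -⟩ := hB j
    have h4 := hN1 F c a b (σ i) (σ j) (T i) (T j) hab (hT i) (hT j) (fun he => hij (hinj he))
    apply h4
    exact ((h3 (T i) le_rfl).trans h).trans (h3' (T j) le_rfl).symm

end Pool.Agent.N948.IX
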