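import Pool.Agent.N948.IX.Asm
import Pool.Agent.N948.IX.Bas

/-!
# Interface crossings of annuli: translation invariance of the arm event, blocked annuli
-/

set_option autoImplicit false

namespace Pool.Agent.N948.IX.A2

open H974 H906.Cyl H12S Finset H984P H342P
open Pool.Agent.H160R2.ML (KArm nm)

/-! ### Translations -/

lemma lv_tr (c v : Vtx) : lv c ((trl c.1 c.2).ψ v) = nm v := by
  obtain ⟨x, y⟩ := v
  obtain ⟨p, q⟩ := c
  simp only [trl_ψ, lv, nm]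
  rw [add_sub_cancel_right, add_sub_cancel_right]

lemma src_tr (s t : ℤ) (e : Edg) : src ((trl s t).φ e) = (trl s t).ψ (src e) := by
  obtain ⟨x, y, _ | _⟩ := e <;> simp

lemma tgt_tr (s t : ℤ) (e : Edg) : tgt ((trl s t).φ e) = (trl s t).ψ (tgt e) := by
  obtain ⟨x, y, _ | _⟩ := e
  · simp only [trl_φ, tgt_false, trl_ψ, Prod.mk.injEq, true_and]; ring
  · simp only [trl_φ, tgt_true, trl_ψ, Prod.mk.injEq, and_true]; ring

lemma mem_ann (c : Vtx) (a b : ℕ) (e : Edg) :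
    (trl c.1 c.2).φ e ∈ Ge c a b ↔ e ∈ Pool.Agent.H160R2.ML.annE a b := by
  unfold Ge Pool.Agent.H160R2.ML.annE
  simp only [Set.mem_ofPred_eq, src_tr, tgt_tr, lv_tr]

lemma ge_im (c : Vtx) (a b : ℕ) (F : Set Edg) : ((trl c.1 c.2).φ '' F) ∩ Ge c a b =
    (trl c.1 c.2).φ '' (F ∩ Pool.Agent.H160R2.ML.annE a b) := by
  ext e
  constructor
  · rintro ⟨⟨e', he', rfl⟩, h⟩
    exact ⟨e', ⟨he', (mem_ann c a b e').1 h⟩, rfl⟩
  · rintro ⟨e', ⟨h1, h2⟩, rfl⟩
    exact ⟨⟨e', h1, rfl⟩, (mem_ann c a b e').2 h2⟩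

lemma oc_tr (c : Vtx) (a b K : ℕ) (F : Set Edg) :
    OC c a b K ((trl c.1 c.2).φ '' F) ↔ KArm K a b F := by
  unfold OC KArm
  rw [ge_im]
  constructor
  · rintro ⟨x, h1, h2⟩
    refine ⟨fun i => (trl c.1 c.2).ψ.symm (x i), fun i => ?_, fun i j hij => ?_⟩
    · obtain ⟨h3, y, h4, h5⟩ := h1 i
      refine ⟨?_, (trl c.1 c.2).ψ.symm y, ?_, ?_⟩
      · rw [← lv_tr c, Equiv.apply_symm_apply]; exact h3
      · rw [← lv_tr c, Equiv.apply_symm_apply]; exact h4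
      · rw [← (trl c.1 c.2).reach_iff, Equiv.apply_symm_apply, Equiv.apply_symm_apply]
        exact h5
    · rw [← (trl c.1 c.2).reach_iff, Equiv.apply_symm_apply, Equiv.apply_symm_apply]
      exact h2 i j hij
  · rintro ⟨x, h1, h2⟩
    refine ⟨fun i => (trl c.1 c.2).ψ (x i), fun i => ?_, fun i j hij => ?_⟩
    · obtain ⟨h3, y, h4, h5⟩ := h1 i
      refine ⟨?_, (trl c.1 c.2).ψ y, ?_, ?_⟩
      · rw [lv_tr c]; exact h3
      · rw [lv_tr c]; exact h4
      · rw [(trl c.1 c.2).reach_iff]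
        exact h5
    · rw [(trl c.1 c.2).reach_iff]
      exact h2 i j hij

lemma coe_GeF (c : Vtx) (a b : ℕ) : (↑(GeF c a b) : Set Edg) = Ge c a b := by
  obtain ⟨p, q⟩ := c
  ext ⟨x, y, _ | _⟩
  · rw [Finset.mem_coe, GeF, Finset.mem_filter, mem_RE_false]
    simp only [Set.mem_ofPred_eq, Ge, lv, src_mk, tgt_false, abs_eq_max_neg]
    omega
  · rw [Finset.mem_coe, GeF, Finset.mem_filter, mem_RE_true]
    simp only [Set.mem_ofPred_eq, Ge, lv, src_mk, tgt_true, abs_eq_max_neg]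
    omega

lemma Ge_zero (a b : ℕ) : Ge (0, 0) a b = Pool.Agent.H160R2.ML.annE a b := by
  unfold Ge Pool.Agent.H160R2.ML.annE lv nm
  simp only [sub_zero]

lemma mp_GeF (c : Vtx) (a b : ℕ) : (trl c.1 c.2).mp (GeF (0, 0) a b) = GeF c a b := by
  apply Finset.coe_injective
  rw [LSym.coe_mp, coe_GeF, coe_GeF, Ge_zero]
  have h := ge_im c a b Set.univ
  rw [Set.image_univ_of_surjective (trl c.1 c.2).φ.surjective, Set.univ_inter, Set.univ_inter] at h
  exact h.symm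

lemma oc_loc (c : Vtx) (a b K : ℕ) {F G : Set Edg} (h : F ∩ Ge c a b = G ∩ Ge c a b) :
    OC c a b K F ↔ OC c a b K G := by
  unfold OC
  rw [h]

lemma karm_loc (a b K : ℕ) {F G : Set Edg} (h : F ∩ Ge (0, 0) a b = G ∩ Ge (0, 0) a b) :
    KArm K a b F ↔ KArm K a b G := by
  rw [Ge_zero] at h
  unfold KArm
  rw [h]

lemma inter_GeF (c : Vtx) (a b : ℕ) (F : Finset Edg) :
    (↑F : Set Edg) ∩ Ge c a b = (↑(F ∩ GeF c a b) : Set Edg) ∩ Ge c a b := by
  rw [Finset.coe_inter, coe_GeF, Set.inter_assoc, Set.inter_self]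

lemma GeF_sub (a b : ℕ) : GeF (0, 0) a b ⊆ boxE b := by
  unfold GeF boxE
  refine (Finset.filter_subset _ _).trans ?_
  simp only [zero_sub, zero_add]
  exact Finset.Subset.refl _

theorem oct_ : St_OCt := by
  intro c a b K S _ hS
  have h1 : Pr (fun _ => (1/2 : ℝ)) S (fun F => OC c a b K (↑F : Set Edg)) =
      Pr (fun _ => (1/2 : ℝ)) (GeF c a b) (fun F => OC c a b K (↑F : Set Edg)) :=
    Pr_local hS fun F _ => oc_loc c a b K (inter_GeF c a b F)
  have h4 : Pr (fun _ => (1/2 : ℝ)) (boxE b) (fun F => KArm K a b (↑F : Set Edg)) =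
      Pr (fun _ => (1/2 : ℝ)) (GeF (0, 0) a b) (fun F => KArm K a b (↑F : Set Edg)) :=
    Pr_local (GeF_sub a b) fun F _ => karm_loc a b K (inter_GeF (0, 0) a b F)
  rw [h1, h4, ← mp_GeF, LSym.pr]
  apply Pr_congr
  intro F _
  rw [LSym.coe_mp, oc_tr]

/-! ### Blocked annuli -/

lemma not_blk {F : Finset Edg} {R1 R2 : ℤ} (h2 : R1 < R2) {u v : Vtx}
    (hu : (-R1 ≤ u.1 ∧ u.1 ≤ R1) ∧ (-R1 ≤ u.2 ∧ u.2 ≤ R1))
    (h : Reach (↑F : Set Edg) u v) (hv : v.1 ≤ -R2 ∨ R2 ≤ v.1 ∨ v.2 ≤ -R2 ∨ R2 ≤ v.2) :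
    ¬ Blk R1 R2 F := by
  obtain ⟨w, k1, k2, k3⟩ := first_exit (a := -R2) (b := R2) (c := -R2) (d := R2)
    (by unfold inR; omega) h hv
  rintro ⟨hb1, hb2⟩
  rcases k2 with k2 | k2 | k2 | k2
  · apply hb1
    right
    obtain ⟨y1, y2, m1, m2, m3, -⟩ := sub_LR (a := -R2) (b := -R1) (c := -R2) (d := R2) (by omega)
      (by rintro x y ⟨-, h⟩ _ _; simp only [mem_coe, mem_RE_true] at h; omega)
      (by rintro x y ⟨-, h⟩ _ _; simp only [mem_coe, mem_RE_false] at h; omega)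
      k3.symm k2.le hu.1.1
    exact ⟨y1, y2, m1, m2, m3.mono (by rintro e ⟨⟨h4, -⟩, h5⟩; exact ⟨h4, h5⟩)⟩
  · apply hb1
    left
    obtain ⟨y1, y2, m1, m2, m3, -⟩ := sub_LR (a := R1) (b := R2) (c := -R2) (d := R2) (by omega)
      (by rintro x y ⟨-, h⟩ _ _; simp only [mem_coe, mem_RE_true] at h; omega)
      (by rintro x y ⟨-, h⟩ _ _; simp only [mem_coe, mem_RE_false] at h; omega)
      k3 hu.1.2 k2.ge
    exact ⟨y1, y2, m1, m2, m3.mono (by rintro e ⟨⟨h4, -⟩, h5⟩; exact ⟨h4, h5⟩)⟩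
  · apply hb2
    right
    obtain ⟨y1, y2, m1, m2, m3, -⟩ := sub_TB (a := -R2) (b := R2) (c := -R2) (d := -R1) (by omega)
      (by rintro x y ⟨-, h⟩ _ _; simp only [mem_coe, mem_RE_false] at h; omega)
      (by rintro x y ⟨-, h⟩ _ _; simp only [mem_coe, mem_RE_true] at h; omega)
      k3.symm k2.le hu.2.1
    exact ⟨y1, y2, m1, m2, m3.mono (by rintro e ⟨⟨h4, -⟩, h5⟩; exact ⟨h4, h5⟩)⟩
  · apply hb2
    left
    obtain ⟨y1, y2, m1, m2, m3, -⟩ := sub_TB (a := -R2) (b := R2) (c := R1) (d := R2) (by omega)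
      (by rintro x y ⟨-, h⟩ _ _; simp only [mem_coe, mem_RE_false] at h; omega)
      (by rintro x y ⟨-, h⟩ _ _; simp only [mem_coe, mem_RE_true] at h; omega)
      k3 hu.2.2 k2.ge
    exact ⟨y1, y2, m1, m2, m3.mono (by rintro e ⟨⟨h4, -⟩, h5⟩; exact ⟨h4, h5⟩)⟩

/-- a path from norm `a` to norm `b > a` uses an edge of the box of radius `a + 1` -/
lemma first_edge {F : Finset Edg} {a b : ℕ} (hab : a < b) {x y : Vtx} (hx : nm x = a)
    (hy : nm y = b) (h : Reach (↑F : Set Edg) x y) : F ∩ boxE (a + 1) ≠ ∅ := by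
  intro hF
  rcases Relation.ReflTransGen.cases_head h with hxy | ⟨z, ⟨e, he, hcase⟩, -⟩
  · rw [hxy, hy] at hx
    omega
  · have hmem : e ∈ F ∩ boxE (a + 1) := by
      rw [Finset.mem_inter]
      refine ⟨he, ?_⟩
      obtain ⟨p, q, _ | _⟩ := e
      · rw [src_mk, tgt_false] at hcase
        unfold boxE
        rw [mem_RE_false]
        rcases hcase with ⟨h1, -⟩ | ⟨-, h1⟩ <;> rw [← h1] at hx <;>
          simp only [nm, abs_eq_max_neg] at hx <;> omega
      · rw [src_mk, tgt_true] at hcase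
        unfold boxE
        rw [mem_RE_true]
        rcases hcase with ⟨h1, -⟩ | ⟨-, h1⟩ <;> rw [← h1] at hx <;>
          simp only [nm, abs_eq_max_neg] at hx <;> omega
    rw [hF] at hmem
    exact absurd hmem (Finset.notMem_empty _)

lemma pr_empty {S T : Finset Edg} (h : T ⊆ S) :
    (1/2 : ℝ) ^ T.card ≤ Pr (fun _ => (1/2 : ℝ)) S (fun F => F ∩ T = ∅) := by
  rw [Pr_local (S' := T) h (by intro F _; rw [Finset.inter_assoc, Finset.inter_self])]
  unfold Pr Ex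
  have h1 : (1/2 : ℝ) ^ T.card = (∏ e ∈ (∅ : Finset Edg), (1/2 : ℝ)) *
      (∏ e ∈ T \ ∅, (1 - (1/2 : ℝ))) * ind ((∅ : Finset Edg) ∩ T = ∅) := by
    rw [ind_of (Finset.empty_inter T), Finset.prod_empty, Finset.sdiff_empty, Finset.prod_const]
    norm_num
  rw [h1]
  refine Finset.single_le_sum (f := fun F : Finset Edg => (∏ e ∈ F, (1/2 : ℝ)) *
      (∏ e ∈ T \ F, (1 - (1/2 : ℝ))) * ind (F ∩ T = ∅)) (fun F _ => ?_)
      (Finset.empty_mem_powerset T)
  refine mul_nonneg (mul_nonneg ?_ ?_) (ind_nonneg _)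
  · exact Finset.prod_nonneg fun _ _ => by norm_num
  · exact Finset.prod_nonneg fun _ _ => by norm_num

theorem nlp_ : St_NLp := by
  refine ⟨(1/2) ^ 188 * (1/2) ^ (boxE 5).card, by positivity, ?_⟩
  intro c a b S ha hab hS
  have ok : Ok (fun _ : Edg => (1/2 : ℝ)) := okq (by norm_num) (by norm_num)
  have h1 : Pr (fun _ => (1/2 : ℝ)) S (fun F => (LS c a b (↑F : Set Edg)).Nonempty) ≤
      Pr (fun _ => (1/2 : ℝ)) S (fun F => OC c a b 1 (↑F : Set Edg)) := by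
    apply Pr_mono ok
    rintro F _ ⟨σ, T, hσ⟩
    obtain ⟨-, h2, h3, -, h4, -⟩ := basic _ _ _ _ _ _ (by omega) hσ
    exact ⟨fun _ => (orb (↑F : Set Edg) σ T).1, fun _ => ⟨h3, σ.1, h2, (h4 T le_rfl).symm⟩,
      fun i j hij => absurd (Subsingleton.elim i j) hij⟩
  rw [oct_ c a b 1 S (by omega) hS] at h1
  refine h1.trans ?_
  have hp0 : (0 : ℝ) < (1/2 : ℝ) ^ 188 := by positivity
  have hp1 : (1/2 : ℝ) ^ 188 ≤ 1 := pow_le_one₀ (by norm_num) (by norm_num)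
  have hq0 : (0 : ℝ) < (1/2 : ℝ) ^ (boxE 5).card := by positivity
  have hq1 : (1/2 : ℝ) ^ (boxE 5).card ≤ 1 := pow_le_one₀ (by norm_num) (by norm_num)
  by_cases h5 : 5 ≤ a
  · have e1 : Pr (fun _ => (1/2 : ℝ)) (boxE b) (fun F => KArm 1 a b (↑F : Set Edg)) ≤
        Pr (fun _ => (1/2 : ℝ)) (boxE b) (fun F => ¬ Blk a (3 * a : ℕ) F) := by
      apply Pr_mono ok
      rintro F _ ⟨x, hx, -⟩
      obtain ⟨h6, y, h7, h8⟩ := hx 0
      refine not_blk (u := x 0) (v := y) (by push_cast; omega) ?_ (h8.mono Set.inter_subset_left) ?_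
      · simp only [nm, abs_eq_max_neg] at h6
        omega
      · simp only [nm, abs_eq_max_neg] at h7
        push_cast
        omega
    rw [Pr_not] at e1
    have hsub : H974.annE a (3 * a) ⊆ boxE b :=
      Finset.sdiff_subset.trans (boxE_mono hab)
    have e2 := pr_Blk h5 hsub
    nlinarith
  · have e1 : Pr (fun _ => (1/2 : ℝ)) (boxE b) (fun F => KArm 1 a b (↑F : Set Edg)) ≤
        Pr (fun _ => (1/2 : ℝ)) (boxE b) (fun F => ¬ (F ∩ boxE (a + 1) = ∅)) := by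
      apply Pr_mono ok
      rintro F _ ⟨x, hx, -⟩
      obtain ⟨h6, y, h7, h8⟩ := hx 0
      exact first_edge (by omega) h6 h7 (h8.mono Set.inter_subset_left)
    rw [Pr_not] at e1
    have e2 := pr_empty (S := boxE b) (T := boxE (a + 1)) (boxE_mono (by omega))
    have e3 : (1/2 : ℝ) ^ (boxE 5).card ≤ (1/2 : ℝ) ^ (boxE (a + 1)).card :=
      pow_le_pow_of_le_one (by norm_num) (by norm_num)
        (Finset.card_le_card (boxE_mono (by omega)))
    nlinarith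

end Pool.Agent.N948.IX.A2

namespace Pool.Agent.N948.IX

/-- Translation invariance of the arm event, and restriction to the annulus. -/
theorem oct : St_OCt := A2.oct_

/-- A crossing of an annulus of ratio three may fail to exist. -/
theorem nlp : St_NLp := A2.nlp_

end Pool.Agent.N948.IX
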