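import Pool.Agent.N948.IX.Asm

/-!
# Project IX, part A3: moments of the number of crossings (helper383)
-/

set_option autoImplicit false

namespace Pool.Agent.N948.IX.A3

open H974 H12S Finset H984P H342P

/-- slices are independent -/
theorem indep {ι E : Type} [DecidableEq ι] [DecidableEq E] (q : ℝ) (S : Finset E)
    (P : ι → Set E → Prop) (I : Finset ι) :
    Pr (fun _ : ι × E => q) (I ×ˢ S) (fun F => ∀ i ∈ I, P i {e | (i, e) ∈ F}) =
      ∏ i ∈ I, Pr (fun _ : E => q) S (fun F => P i (↑F : Set E)) := by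
  induction I using Finset.induction_on with
  | empty =>
    rw [prod_empty]
    exact Pr_true _ fun F _ i hi => absurd hi (notMem_empty i)
  | insert a I ha ih =>
    rw [prod_insert ha, ← ih]
    have hS : ({a} : Finset ι) ×ˢ S ⊆ (insert a I) ×ˢ S :=
      product_subset_product_left (by simp)
    have hT : I ×ˢ S ⊆ (insert a I) ×ˢ S := product_subset_product_left (subset_insert _ _)
    have hd : Disjoint (({a} : Finset ι) ×ˢ S) (I ×ˢ S) := by
      rw [disjoint_left]
      rintro ⟨i, e⟩ h1 h2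
      rw [mem_product, mem_singleton] at h1
      rw [mem_product] at h2
      exact ha (h1.1 ▸ h2.1)
    have hA : ∀ F, F ⊆ (insert a I) ×ˢ S →
        (P a {e | (a, e) ∈ F} ↔ P a {e | (a, e) ∈ F ∩ (({a} : Finset ι) ×ˢ S)}) := by
      intro F hF
      have : {e | (a, e) ∈ F} = {e | (a, e) ∈ F ∩ (({a} : Finset ι) ×ˢ S)} := by
        ext e
        show (a, e) ∈ F ↔ (a, e) ∈ F ∩ (({a} : Finset ι) ×ˢ S)
        rw [mem_inter, mem_product, mem_singleton]
        exact ⟨fun h => ⟨h, rfl, (mem_product.1 (hF h)).2⟩, fun h => h.1⟩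
      rw [this]
    have hB : ∀ F, F ⊆ (insert a I) ×ˢ S → ((∀ i ∈ I, P i {e | (i, e) ∈ F}) ↔
        ∀ i ∈ I, P i {e | (i, e) ∈ F ∩ (I ×ˢ S)}) := by
      intro F hF
      refine forall₂_congr fun i hi => ?_
      have : {e | (i, e) ∈ F} = {e | (i, e) ∈ F ∩ (I ×ˢ S)} := by
        ext e
        show (i, e) ∈ F ↔ (i, e) ∈ F ∩ (I ×ˢ S)
        rw [mem_inter, mem_product]
        exact ⟨fun h => ⟨h, hi, (mem_product.1 (hF h)).2⟩, fun h => h.1⟩
      rw [this]
    have h1 := Pr_indep (p := fun _ : ι × E => q) hS hT hd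
      (A := fun F => P a {e | (a, e) ∈ F}) (B := fun F => ∀ i ∈ I, P i {e | (i, e) ∈ F}) hA hB
    have h2 : Pr (fun _ : ι × E => q) ((insert a I) ×ˢ S)
        (fun F => ∀ i ∈ insert a I, P i {e | (i, e) ∈ F}) =
        Pr (fun _ : ι × E => q) ((insert a I) ×ˢ S)
        (fun F => P a {e | (a, e) ∈ F} ∧ ∀ i ∈ I, P i {e | (i, e) ∈ F}) :=
      Pr_congr fun F _ => by rw [forall_mem_insert]
    rw [h2, h1, Pr_local hS hA, Pr_local hT hB]
    congr 1
    let φ : E ↪ ι × E := ⟨fun e => (a, e), fun e e' h => (Prod.mk.inj h).2⟩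
    have h3 : ({a} : Finset ι) ×ˢ S = S.map φ := by
      ext ⟨i, e⟩
      rw [mem_product, mem_singleton, mem_map]
      constructor
      · rintro ⟨h, h'⟩
        exact ⟨e, h', Prod.ext h.symm rfl⟩
      · rintro ⟨e', h, h'⟩
        have h4 := Prod.mk.inj h'
        exact ⟨h4.1.symm, h4.2 ▸ h⟩
    rw [h3, Pr_map]
    refine Pr_congr fun F _ => ?_
    have : {e | (a, e) ∈ F.map φ} = (↑F : Set E) := by
      ext e
      show (a, e) ∈ F.map φ ↔ e ∈ (↑F : Set E)
      rw [mem_map, mem_coe]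
      constructor
      · rintro ⟨e', h, h'⟩
        have h4 := Prod.mk.inj h'
        exact h4.2 ▸ h
      · intro h
        exact ⟨e, h, rfl⟩
    rw [this]

theorem pow_bound (N K : ℕ) : (N : ℝ) ^ K ≤ 2 ^ K * (N.descFactorial K : ℝ) + (2 * K) ^ K := by
  have key : N ^ K ≤ 2 ^ K * N.descFactorial K + (2 * K) ^ K := by
    rcases Nat.lt_or_ge N (2 * K) with h | h
    · exact (Nat.pow_le_pow_left h.le K).trans (Nat.le_add_left _ _)
    · have h1 : N ≤ 2 * (N + 1 - K) := by omega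
      calc N ^ K ≤ (2 * (N + 1 - K)) ^ K := Nat.pow_le_pow_left h1 K
        _ = 2 ^ K * (N + 1 - K) ^ K := by rw [mul_pow]
        _ ≤ 2 ^ K * N.descFactorial K := Nat.mul_le_mul_left _ (Nat.pow_sub_le_descFactorial N K)
        _ ≤ _ := Nat.le_add_right _ _
  exact_mod_cast key

theorem mu_bound {E : Type} [DecidableEq E] {p : E → ℝ} (hp : Ok p) (S : Finset E)
    (N : Finset E → ℕ) (δ : ℝ) (hδ : 0 < δ)
    (h2 : Ex p S (fun F => ((N F).descFactorial 2 : ℝ)) ≤ (Ex p S fun F => (N F : ℝ)) ^ 2)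
    (h0 : Pr p S (fun F => 0 < N F) ≤ 1 - δ) : Ex p S (fun F => (N F : ℝ)) ≤ 1 / δ := by
  set μ := Ex p S (fun F => (N F : ℝ)) with hμ
  have hμ0 : 0 ≤ μ := Ex_nonneg hp fun F _ => Nat.cast_nonneg _
  have hm2 : Ex p S (fun F => (N F : ℝ) ^ 2) ≤ μ ^ 2 + μ := by
    have h3 : Ex p S (fun F => (N F : ℝ) ^ 2) =
        Ex p S (fun F => ((N F).descFactorial 2 : ℝ)) + μ := by
      rw [hμ, ← Ex_add]
      refine Ex_congr fun F _ => ?_
      have h4 : (N F) ^ 2 = (N F).descFactorial 2 + N F := by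
        rcases Nat.eq_zero_or_pos (N F) with h | h
        · rw [h]; rfl
        · obtain ⟨k, hk⟩ : ∃ k, N F = k + 1 := ⟨N F - 1, by omega⟩
          rw [hk]
          simp [Nat.descFactorial]
          ring
      exact_mod_cast h4
    rw [h3]
    linarith
  set t : ℝ := 1 / (μ + 1) with ht
  have ht0 : 0 < t := by positivity
  have h5 : 0 ≤ Ex p S (fun F => ((N F : ℝ) * t - ind (0 < N F)) ^ 2) :=
    Ex_nonneg hp fun F _ => sq_nonneg _
  have h6 : Ex p S (fun F => ((N F : ℝ) * t - ind (0 < N F)) ^ 2) =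
      Ex p S (fun F => (N F : ℝ) ^ 2) * t ^ 2 - μ * (2 * t) + Pr p S (fun F => 0 < N F) := by
    unfold Pr
    rw [hμ, ← Ex_mul_right, ← Ex_mul_right, ← Ex_sub, ← Ex_add]
    refine Ex_congr fun F _ => ?_
    show ((N F : ℝ) * t - ind (0 < N F)) ^ 2 =
      (N F : ℝ) ^ 2 * t ^ 2 - (N F : ℝ) * (2 * t) + ind (0 < N F)
    rcases Nat.eq_zero_or_pos (N F) with h | h
    · rw [h, ind_not_of (lt_irrefl 0)]
      simp
    · rw [ind_of h]
      ring
  rw [h6] at h5
  have h7 : (μ + 1) * t = 1 := by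
    rw [ht]
    field_simp
  have h8 : Ex p S (fun F => (N F : ℝ) ^ 2) * t ^ 2 ≤ μ * t := by
    calc Ex p S (fun F => (N F : ℝ) ^ 2) * t ^ 2 ≤ (μ ^ 2 + μ) * t ^ 2 := by gcongr
      _ = μ * t * ((μ + 1) * t) := by ring
      _ = μ * t := by rw [h7, mul_one]
  have h9 : μ * t ≤ 1 - δ := by linarith
  have h10 : μ * t = 1 - t := by linear_combination h7
  have h11 : δ ≤ t := by linarith
  rw [le_div_iff₀ hδ]
  calc μ * δ ≤ μ * t := by gcongr
    _ ≤ 1 := by linarith

open Classical in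
/-- the first moment of the number of crossings and its factorial moments -/
theorem fac (hn3 : St_N3) (hps : St_PS) (hf : St_fin) (c : Vtx) (a b : ℕ) (S : Finset Edg)
    (hab : a < b) (hS : GeF c a b ⊆ S) (K : ℕ) :
    Ex (fun _ => (1/2 : ℝ)) S (fun F => ((NL c a b (↑F : Set Edg)).descFactorial K : ℝ)) ≤
      (Ex (fun _ => (1/2 : ℝ)) S (fun F => (NL c a b (↑F : Set Edg) : ℝ))) ^ K := by
  obtain ⟨A, hA⟩ := hf c b
  have hok : ∀ {E : Type} [DecidableEq E], Ok (fun _ : E => (1/2 : ℝ)) := by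
    intro E _ e
    constructor <;> norm_num
  set Nf : Set Edg → Finset St := fun F => A.filter fun σ => σ ∈ LS c a b F with hNf
  have hNfL : ∀ F : Set Edg, (↑(Nf F) : Set St) = LS c a b F := by
    intro F
    ext σ
    rw [mem_coe, hNf, mem_filter]
    exact ⟨fun h => h.2, fun h => ⟨hA F a hab h, h⟩⟩
  have hNL : ∀ F : Set Edg, NL c a b F = (Nf F).card := by
    intro F
    show Set.ncard (LS c a b F) = _
    rw [← hNfL F, Set.ncard_coe_finset]
  -- factorial moments are sums over tuples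
  have h1 : ∀ F : Set Edg, ((NL c a b F).descFactorial K : ℝ) ≤
      ∑ σ ∈ Fintype.piFinset (fun _ : Fin K => A), ind (Tup c a b (fun _ : Fin K => F) σ) := by
    intro F
    have h2 : (NL c a b F).descFactorial K = Fintype.card (Fin K ↪ ↥(Nf F)) := by
      rw [Fintype.card_embedding_eq, Fintype.card_coe, Fintype.card_fin, hNL]
    have h3 : Fintype.card (Fin K ↪ ↥(Nf F)) ≤
        ((Fintype.piFinset (fun _ : Fin K => A)).filter
          (fun σ => Tup c a b (fun _ : Fin K => F) σ)).card := by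
      rw [← Finset.card_univ]
      refine card_le_card_of_injOn (fun f i => ((f i : ↥(Nf F)) : St)) ?_ ?_
      · intro f _
        rw [mem_coe, mem_filter, Fintype.mem_piFinset]
        have hm : ∀ i, ((f i : ↥(Nf F)) : St) ∈ Nf F := fun i => (f i).2
        have hm' : ∀ i, ((f i : ↥(Nf F)) : St) ∈ LS c a b F := fun i => by
          rw [← hNfL F]
          exact hm i
        refine ⟨fun i => (mem_filter.1 (hm i)).1, ?_⟩
        choose T hT using hm'
        refine ⟨T, hT, fun i i' hii => ?_⟩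
        refine hn3 F c a b _ _ _ _ hab (hT i) (hT i') fun h => hii ?_
        exact f.injective (Subtype.ext h)
      · intro f _ g _ h
        refine Function.Embedding.ext fun i => Subtype.ext ?_
        exact congrFun h i
    have h4 : ∑ σ ∈ Fintype.piFinset (fun _ : Fin K => A),
        ind (Tup c a b (fun _ : Fin K => F) σ) =
        (((Fintype.piFinset (fun _ : Fin K => A)).filter
          (fun σ => Tup c a b (fun _ : Fin K => F) σ)).card : ℝ) := by
      rw [card_filter, Nat.cast_sum]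
      refine sum_congr rfl fun σ _ => ?_
      by_cases h : Tup c a b (fun _ : Fin K => F) σ
      · rw [ind_of h, if_pos h, Nat.cast_one]
      · rw [ind_not_of h, if_neg h, Nat.cast_zero]
    rw [h4, h2]
    exact_mod_cast h3
  -- the first moment
  have hfirst : Ex (fun _ => (1/2 : ℝ)) S (fun F => (NL c a b (↑F : Set Edg) : ℝ)) =
      ∑ s ∈ A, Pr (fun _ => (1/2 : ℝ)) S (fun F => s ∈ LS c a b (↑F : Set Edg)) := by
    unfold Pr
    rw [← Ex_sum]
    refine Ex_congr fun F _ => ?_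
    rw [hNL, hNf, card_filter, Nat.cast_sum]
    refine sum_congr rfl fun s _ => ?_
    by_cases h : s ∈ LS c a b (↑F : Set Edg)
    · rw [ind_of h, if_pos h, Nat.cast_one]
    · rw [ind_not_of h, if_neg h, Nat.cast_zero]
  calc Ex (fun _ => (1/2 : ℝ)) S (fun F => ((NL c a b (↑F : Set Edg)).descFactorial K : ℝ))
      ≤ Ex (fun _ => (1/2 : ℝ)) S (fun F => ∑ σ ∈ Fintype.piFinset (fun _ : Fin K => A),
          ind (Tup c a b (fun _ : Fin K => (↑F : Set Edg)) σ)) :=
        Ex_mono hok fun F _ => h1 _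
    _ = ∑ σ ∈ Fintype.piFinset (fun _ : Fin K => A), Pr (fun _ => (1/2 : ℝ)) S
          (fun F => Tup c a b (fun _ : Fin K => (↑F : Set Edg)) σ) := Ex_sum _ _ _ _
    _ ≤ ∑ σ ∈ Fintype.piFinset (fun _ : Fin K => A),
          ∏ i, Pr (fun _ => (1/2 : ℝ)) S (fun F => σ i ∈ LS c a b (↑F : Set Edg)) := by
        refine sum_le_sum fun σ _ => ?_
        rw [← hps K K id c a b σ S hab hS]
        have h5 := indep (1/2 : ℝ) S (fun (i : Fin K) (F : Set Edg) => σ i ∈ LS c a b F) univ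
        refine le_trans (Pr_mono hok fun F _ h => ?_) h5.le
        obtain ⟨T, hT, -⟩ := h
        intro i _
        exact ⟨T i, hT i⟩
    _ = (∑ s ∈ A, Pr (fun _ => (1/2 : ℝ)) S
          (fun F => s ∈ LS c a b (↑F : Set Edg))) ^ K := by
        rw [← prod_univ_sum (fun _ : Fin K => A) (fun _ s => Pr (fun _ => (1/2 : ℝ)) S
          (fun F => s ∈ LS c a b (↑F : Set Edg))), prod_const, card_univ, Fintype.card_fin]
    _ = _ := by rw [hfirst]

end Pool.Agent.N948.IX.A3

namespace Pool.Agent.N948.IX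

open H974 H12S Finset H984P H342P Pool.Agent.N948.IX.A3

theorem mom (_hB : St_basic) (_hR : St_restr) (hn3 : St_N3) (hps : St_PS) (hf : St_fin)
    (_hl : St_loc) (hp : St_NLp) : St_Mom := by
  intro K
  obtain ⟨δ, hδ, hp⟩ := hp
  refine ⟨2 ^ K * (1 / δ) ^ K + (2 * K) ^ K, by positivity, ?_⟩
  intro c a b S ha h3 hS
  have hab : a < b := by omega
  have hok : ∀ {E : Type} [DecidableEq E], Ok (fun _ : E => (1/2 : ℝ)) := by
    intro E _ e
    constructor <;> norm_num
  have hpos : Pr (fun _ => (1/2 : ℝ)) S (fun F => 0 < NL c a b (↑F : Set Edg)) ≤ 1 - δ := by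
    refine le_trans (Pr_mono hok fun F _ h => ?_) (hp c a b S ha h3 hS)
    exact Set.nonempty_of_ncard_ne_zero (Nat.pos_iff_ne_zero.1 h)
  have h2 := fac hn3 hps hf c a b S hab hS 2
  have hμ := mu_bound hok S (fun F => NL c a b (↑F : Set Edg)) δ hδ h2 hpos
  have hK := fac hn3 hps hf c a b S hab hS K
  have hμ0 : 0 ≤ Ex (fun _ => (1/2 : ℝ)) S (fun F => (NL c a b (↑F : Set Edg) : ℝ)) :=
    Ex_nonneg hok fun F _ => Nat.cast_nonneg _
  calc Ex (fun _ => (1/2 : ℝ)) S (fun F => ((NL c a b (↑F : Set Edg) : ℕ) : ℝ) ^ K)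
      ≤ Ex (fun _ => (1/2 : ℝ)) S (fun F =>
          2 ^ K * ((NL c a b (↑F : Set Edg)).descFactorial K : ℝ) + (2 * K) ^ K) :=
        Ex_mono hok fun F _ => pow_bound _ _
    _ = 2 ^ K * Ex (fun _ => (1/2 : ℝ)) S
          (fun F => ((NL c a b (↑F : Set Edg)).descFactorial K : ℝ)) + (2 * K) ^ K := by
        rw [Ex_add, Ex_mul_left, Ex_const]
    _ ≤ 2 ^ K * (Ex (fun _ => (1/2 : ℝ)) S (fun F => (NL c a b (↑F : Set Edg) : ℝ))) ^ K +
          (2 * K) ^ K := by gcongr
    _ ≤ 2 ^ K * (1 / δ) ^ K + (2 * K) ^ K := by gcongr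

end Pool.Agent.N948.IX

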