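import Pool.Agent.N948.IX.Asm
import Pool.Agent.TH992.E.Low

/-!
Project IX (helper948), A4 (helper499): upper and lower bound for the crossings of independent
configurations.
-/

set_option autoImplicit false

namespace Pool.Agent.N948.IX

open H974 H906.Cyl H12S Finset H984P H342P
open Pool.Agent.H160R2.ML (KArm)

namespace A4

/-! ### General facts -/

theorem ok {E : Type*} : Ok (fun _ : E => (1/2 : ℝ)) := fun _ => by constructor <;> norm_num

/-- the law of a slice -/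
theorem Ex_slice {m : ℕ} (i : Fin m) (S : Finset Edg) (g : Set Edg → ℝ) :
    Ex (fun _ => (1/2 : ℝ)) ((Finset.univ : Finset (Fin m)) ×ˢ S) (fun F => g (sl F i)) =
      Ex (fun _ => (1/2 : ℝ)) S (fun F => g (↑F : Set Edg)) := by
  obtain ⟨φ, hφ⟩ : ∃ φ : Edg ↪ Fin m × Edg, ∀ e, φ e = (i, e) :=
    ⟨⟨fun e => (i, e), fun e e' h => (Prod.mk.inj h).2⟩, fun _ => rfl⟩
  have hsub : S.map φ ⊆ (Finset.univ : Finset (Fin m)) ×ˢ S := by
    intro x hx
    obtain ⟨e, he, rfl⟩ := Finset.mem_map.1 hx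
    rw [hφ]
    exact Finset.mem_product.2 ⟨Finset.mem_univ _, he⟩
  have hmem : ∀ (F : Finset Edg) (e : Edg), (i, e) ∈ F.map φ ↔ e ∈ F := by
    intro F e
    rw [← hφ, Finset.mem_map']
  rw [Ex_local hsub (f := fun F => g (sl F i)), Ex_map]
  · apply Ex_congr
    intro F hF
    congr 1
    ext e
    exact hmem F e
  · intro F hF
    congr 1
    ext e
    show (i, e) ∈ F ↔ (i, e) ∈ F ∩ S.map φ
    rw [Finset.mem_inter, hmem]
    constructor
    · intro h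
      exact ⟨h, (Finset.mem_product.1 (hF h)).2⟩
    · exact fun h => h.1

theorem prod_le_sum_pow {K : ℕ} (hK : 1 ≤ K) (x : Fin K → ℝ) (hx : ∀ i, 0 ≤ x i) :
    ∏ i, x i ≤ ∑ i, x i ^ K := by
  obtain ⟨i₀, -, h₀⟩ := Finset.exists_max_image (Finset.univ : Finset (Fin K)) x
    ⟨⟨0, hK⟩, Finset.mem_univ _⟩
  calc ∏ i, x i ≤ ∏ _i : Fin K, x i₀ :=
        Finset.prod_le_prod (fun i _ => hx i) (fun i hi => h₀ i hi)
    _ = x i₀ ^ K := by simp
    _ ≤ ∑ i, x i ^ K := Finset.single_le_sum (f := fun i => x i ^ K)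
        (fun i _ => pow_nonneg (hx i) K) (Finset.mem_univ i₀)

theorem ind_forall {K : ℕ} (P : Fin K → Prop) : ind (∀ i, P i) = ∏ i, ind (P i) := by
  by_cases h : ∀ i, P i
  · rw [ind_of h, Finset.prod_eq_one (fun i _ => ind_of (h i))]
  · rw [ind_not_of h]
    push Not at h
    obtain ⟨i, hi⟩ := h
    exact (Finset.prod_eq_zero (Finset.mem_univ i) (ind_not_of hi)).symm

theorem ind_exists_le {α : Type*} {P : Finset α} {Q : α → Prop} (h : ∀ σ, Q σ → σ ∈ P) :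
    ind (∃ σ, Q σ) ≤ ∑ σ ∈ P, ind (Q σ) := by
  by_cases hex : ∃ σ, Q σ
  · obtain ⟨σ, hσ⟩ := hex
    rw [ind_of ⟨σ, hσ⟩, ← ind_of hσ]
    exact Finset.single_le_sum (f := fun σ => ind (Q σ)) (fun _ _ => ind_nonneg _) (h σ hσ)
  · rw [ind_not_of hex]
    exact Finset.sum_nonneg fun _ _ => ind_nonneg _

/-! ### The edges of the annulus -/

theorem mem_GeF {c : Vtx} {a b : ℕ} {e : Edg} : e ∈ GeF c a b ↔ e ∈ Ge c a b := by
  obtain ⟨x, y, d⟩ := e
  constructor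
  · intro h
    unfold GeF at h
    rw [Finset.mem_filter] at h
    obtain ⟨h1, h2, h3⟩ := h
    refine ⟨⟨h2, ?_⟩, h3, ?_⟩
    · unfold lv
      rw [max_le_iff, abs_le, abs_le]
      cases d
      · rw [mem_RE_false] at h1
        obtain ⟨u1, u2, u3, u4⟩ := h1
        simp only [src_mk]
        refine ⟨⟨?_, ?_⟩, ?_, ?_⟩ <;> linarith
      · rw [mem_RE_true] at h1
        obtain ⟨u1, u2, u3, u4⟩ := h1
        simp only [src_mk]
        refine ⟨⟨?_, ?_⟩, ?_, ?_⟩ <;> linarith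
    · unfold lv
      rw [max_le_iff, abs_le, abs_le]
      cases d
      · rw [mem_RE_false] at h1
        obtain ⟨u1, u2, u3, u4⟩ := h1
        simp only [tgt_false]
        refine ⟨⟨?_, ?_⟩, ?_, ?_⟩ <;> linarith
      · rw [mem_RE_true] at h1
        obtain ⟨u1, u2, u3, u4⟩ := h1
        simp only [tgt_true]
        refine ⟨⟨?_, ?_⟩, ?_, ?_⟩ <;> linarith
  · rintro ⟨⟨h1, h2⟩, h3, h4⟩
    unfold GeF
    rw [Finset.mem_filter]
    refine ⟨?_, h1, h3⟩
    unfold lv at h2 h4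
    rw [max_le_iff, abs_le, abs_le] at h2 h4
    cases d
    · simp only [src_mk, tgt_false] at h2 h4
      rw [mem_RE_false]
      refine ⟨?_, ?_, ?_, ?_⟩ <;> linarith [h2.1.1, h2.1.2, h2.2.1, h2.2.2, h4.1.1, h4.1.2, h4.2.1, h4.2.2]
    · simp only [src_mk, tgt_true] at h2 h4
      rw [mem_RE_true]
      refine ⟨?_, ?_, ?_, ?_⟩ <;> linarith [h2.1.1, h2.1.2, h2.2.1, h2.2.2, h4.1.1, h4.1.2, h4.2.1, h4.2.2]

theorem GeF_mono {c : Vtx} {a b a' b' : ℕ} (ha : a ≤ a') (hb : b' ≤ b) :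
    GeF c a' b' ⊆ GeF c a b := by
  intro e he
  have ha' : (a : ℤ) ≤ a' := by exact_mod_cast ha
  have hb' : (b' : ℤ) ≤ b := by exact_mod_cast hb
  obtain ⟨⟨h1, h2⟩, h3, h4⟩ := mem_GeF.1 he
  exact mem_GeF.2 ⟨⟨ha'.trans h1, h2.trans hb'⟩, ha'.trans h3, h4.trans hb'⟩

theorem GeF_disj {c : Vtx} {a b a' b' : ℕ} (h : b < a') : Disjoint (GeF c a b) (GeF c a' b') := by
  rw [Finset.disjoint_left]
  intro e he he'
  have h1 := (mem_GeF.1 he).1.2
  have h2 := (mem_GeF.1 he').1.1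
  have h3 : (b : ℤ) < a' := by exact_mod_cast h
  linarith

theorem inter_ge (F : Finset Edg) (c : Vtx) (a b : ℕ) :
    (↑(F ∩ GeF c a b) : Set Edg) ∩ Ge c a b = (↑F : Set Edg) ∩ Ge c a b := by
  ext e
  simp only [Finset.coe_inter, Set.mem_inter_iff, Finset.mem_coe, mem_GeF]
  tauto

theorem sl_inter {m : ℕ} (F : Finset (Fin m × Edg)) (i : Fin m) (S : Finset Edg) (c : Vtx)
    (a b : ℕ) (hS : GeF c a b ⊆ S) :
    sl (F ∩ ((Finset.univ : Finset (Fin m)) ×ˢ S)) i ∩ Ge c a b = sl F i ∩ Ge c a b := by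
  ext e
  simp only [sl, Set.mem_inter_iff, Set.mem_ofPred_eq, Finset.mem_inter, Finset.mem_product,
    Finset.mem_univ, true_and]
  constructor
  · rintro ⟨⟨h1, h2⟩, h3⟩
    exact ⟨h1, h3⟩
  · rintro ⟨h1, h3⟩
    exact ⟨⟨h1, hS (mem_GeF.2 h3)⟩, h3⟩

theorem LS_congr (hl : St_loc) {c : Vtx} {a b : ℕ} (hab : a < b) {F G : Set Edg}
    (h : F ∩ Ge c a b = G ∩ Ge c a b) : LS c a b F = LS c a b G := by
  ext σ
  constructor
  · rintro ⟨T, hT⟩
    exact ⟨T, (hl F G c a b hab h σ T hT).1⟩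
  · rintro ⟨T, hT⟩
    exact ⟨T, (hl G F c a b hab h.symm σ T hT).1⟩

theorem NL_congr (hl : St_loc) {c : Vtx} {a b : ℕ} (hab : a < b) {F G : Set Edg}
    (h : F ∩ Ge c a b = G ∩ Ge c a b) : NL c a b F = NL c a b G := by
  have := LS_congr hl hab h
  unfold LS at this
  unfold NL
  rw [this]

theorem OC_congr {c : Vtx} {a b K : ℕ} {F G : Set Edg}
    (h : F ∩ Ge c a b = G ∩ Ge c a b) : OC c a b K F ↔ OC c a b K G := by
  unfold OC
  rw [h]

theorem sum_LS {A : Finset St} {c : Vtx} {a b : ℕ} {F : Set Edg} (h : LS c a b F ⊆ ↑A) :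
    ∑ s ∈ A, ind (s ∈ LS c a b F) = ((NL c a b F : ℕ) : ℝ) := by
  classical
  have h1 : LS c a b F = ↑(A.filter (fun s => s ∈ LS c a b F)) := by
    ext s
    rw [Finset.mem_coe, Finset.mem_filter]
    exact ⟨fun hs => ⟨h hs, hs⟩, fun hs => hs.2⟩
  have h2 : NL c a b F = (A.filter (fun s => s ∈ LS c a b F)).card := by
    have h3 : NL c a b F = (LS c a b F).ncard := rfl
    rw [h3]
    conv_lhs => rw [h1]
    exact Set.ncard_coe_finset _
  rw [h2, Finset.card_filter]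
  push_cast
  refine Finset.sum_congr rfl fun s _ => ?_
  unfold ind
  split_ifs <;> rfl

/-- counting families of starting states -/
theorem sum_fam {K : ℕ} {A : Finset St} {c : Vtx} {a b : ℕ} {ω : Fin K → Set Edg}
    (h : ∀ i, LS c a b (ω i) ⊆ ↑A) :
    ∑ σ ∈ Fintype.piFinset (fun _ : Fin K => A), ind (∀ i, σ i ∈ LS c a b (ω i)) =
      ∏ i, ((NL c a b (ω i) : ℕ) : ℝ) := by
  have h1 : ∀ i, ((NL c a b (ω i) : ℕ) : ℝ) = ∑ s ∈ A, ind (s ∈ LS c a b (ω i)) :=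
    fun i => (sum_LS (h i)).symm
  simp only [h1]
  rw [Finset.prod_univ_sum]
  exact Finset.sum_congr rfl fun σ _ => ind_forall _

/-! ### Families of crossings -/

theorem tup_mem {K : ℕ} {c : Vtx} {a b : ℕ} {ω : Fin K → Set Edg} {σ : Fin K → St}
    (h : Tup c a b ω σ) (i : Fin K) : σ i ∈ LS c a b (ω i) := by
  obtain ⟨T, hT, -⟩ := h
  exact ⟨T i, hT i⟩

theorem tup_congr (hl : St_loc) {K : ℕ} {c : Vtx} {a b : ℕ} (hab : a < b)
    {ω ω' : Fin K → Set Edg} (h : ∀ i, ω i ∩ Ge c a b = ω' i ∩ Ge c a b) {σ : Fin K → St}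
    (hσ : Tup c a b ω σ) : Tup c a b ω' σ := by
  obtain ⟨T, hT, hd⟩ := hσ
  refine ⟨T, fun i => (hl _ _ c a b hab (h i) _ _ (hT i)).1, fun i i' hii => ?_⟩
  rw [(hl _ _ c a b hab (h i) _ _ (hT i)).2, (hl _ _ c a b hab (h i') _ _ (hT i')).2]
  exact hd i i' hii

theorem tup_inj (hR : St_restr) {K : ℕ} {c : Vtx} {a b : ℕ} (hab : a < b) {F : Set Edg}
    {σ : Fin K → St} (h : Tup c a b (fun _ => F) σ) : Function.Injective σ := by
  obtain ⟨T, hT, hd⟩ := h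
  intro i i' hii
  by_contra hne
  have h1 := hd i i' hne
  have h2 : T i' = T i :=
    (hR F c a b (σ i) (T i) hab (hT i)).1 (T i') (by rw [hii]; exact hT i')
  have h4 : ae (orb F (σ i) 0) ∈ Exm F (σ i) (T i) := mem_Exm.2 ⟨0, (hT i).pos, rfl⟩
  have h5 : ae (orb F (σ i) 0) ∈ Exm F (σ i') (T i') := by
    rw [← hii, h2]
    exact h4
  exact Finset.disjoint_left.1 h1 h4 h5

/-- restriction to an outer annulus -/
theorem tup_out (hR : St_restr) {K : ℕ} {c : Vtx} {a m b : ℕ} {ω : Fin K → Set Edg}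
    {σ : Fin K → St} (ham : a ≤ m) (hmb : m < b) (h : Tup c a b ω σ) (i : Fin K) :
    σ i ∈ LS c m b (ω i) := by
  obtain ⟨T, hT, -⟩ := h
  obtain ⟨T', -, h'⟩ := (hR (ω i) c a b (σ i) (T i) (by omega) (hT i)).2.1 m ham hmb
  exact ⟨T', h'⟩

/-- restriction to an inner annulus -/
theorem tup_in (hR : St_restr) {K : ℕ} {c : Vtx} {a m b : ℕ} {ω : Fin K → Set Edg}
    {σ : Fin K → St} (ham : a < m) (hmb : m ≤ b) (h : Tup c a b ω σ) :
    ∃ σ' : Fin K → St, Tup c a m ω σ' := by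
  obtain ⟨T, hT, hd⟩ := h
  have h1 : ∀ i, ∃ s, InLeg (ω i) c a m (orb (ω i) (σ i) s) (T i - s) ∧ s < T i := fun i => by
    obtain ⟨s, hs, h⟩ := (hR (ω i) c a b (σ i) (T i) (by omega) (hT i)).2.2.1 m ham hmb
    exact ⟨s, h, hs⟩
  choose s hs' hs using h1
  refine ⟨fun i => orb (ω i) (σ i) (s i), fun i => T i - s i, hs', fun i i' hii => ?_⟩
  have hsub : ∀ i, Exm (ω i) (orb (ω i) (σ i) (s i)) (T i - s i) ⊆ Exm (ω i) (σ i) (T i) := by
    intro i e he
    obtain ⟨t, ht, rfl⟩ := mem_Exm.1 he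
    exact mem_Exm.2 ⟨t + s i, by omega, by rw [orb_add]⟩
  exact Finset.disjoint_of_subset_left (hsub i)
    (Finset.disjoint_of_subset_right (hsub i') (hd i i' hii))

theorem tup_OC (hR : St_restr) (hc' : St_cnt') {K : ℕ} {c : Vtx} {a b : ℕ} (hab : a < b)
    {F : Set Edg} {σ : Fin K → St} (h : Tup c a b (fun _ => F) σ) : OC c a b K F :=
  hc' F c a b K σ hab (tup_inj hR hab h) (fun i => tup_mem h i)

theorem OC_tup (hn3 : St_N3) (hc : St_cnt) {K : ℕ} {c : Vtx} {a b : ℕ} (ha : 1 ≤ a) (hab : a < b)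
    (hK : 2 ≤ K) {F : Set Edg} (h : OC c a b K F) :
    ∃ σ : Fin K → St, Tup c a b (fun _ => F) σ := by
  obtain ⟨σ, hi, hσ⟩ := hc F c a b K ha hab hK h
  choose T hT using hσ
  exact ⟨σ, T, hT, fun i i' hii => hn3 F c a b _ _ _ _ hab (hT i) (hT i') (fun h => hii (hi h))⟩

/-- the probability does not depend on the finite set of edges -/
theorem tupP_local (hl : St_loc) {m K : ℕ} (j : Fin K → Fin m) {c : Vtx} {a b : ℕ} (hab : a < b)
    {S S' : Finset Edg} (hS : GeF c a b ⊆ S) (hSS : S ⊆ S') :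
    tupP j c a b S' = tupP j c a b S := by
  unfold tupP
  apply Pr_local (Finset.product_subset_product_right hSS)
  intro F _
  have hi : ∀ i, sl F (j i) ∩ Ge c a b =
      sl (F ∩ ((Finset.univ : Finset (Fin m)) ×ˢ S)) (j i) ∩ Ge c a b :=
    fun i => (sl_inter F (j i) S c a b hS).symm
  constructor
  · rintro ⟨σ, hσ⟩
    exact ⟨σ, tup_congr hl hab hi hσ⟩
  · rintro ⟨σ, hσ⟩
    exact ⟨σ, tup_congr hl hab (fun i => (hi i).symm) hσ⟩

theorem tupP_nonneg {m K : ℕ} (j : Fin K → Fin m) (c : Vtx) (a b : ℕ) (S : Finset Edg) :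
    0 ≤ tupP j c a b S := Pr_nonneg ok _ _

theorem tupP_le_one {m K : ℕ} (j : Fin K → Fin m) (c : Vtx) (a b : ℕ) (S : Finset Edg) :
    tupP j c a b S ≤ 1 := Pr_le_one ok _ _

/-! ### The upper bound -/

theorem tupP_le (hR : St_restr) (hps : St_PS) (hl : St_loc) (hc' : St_cnt') (hf : St_fin)
    {m K : ℕ} (j : Fin K → Fin m) {c : Vtx} {a r b : ℕ} (har : a < r) (hrb : r + 1 < b)
    {S : Finset Edg} (hS : GeF c a b ⊆ S) :
    tupP j c a b S ≤ Ex (fun _ => (1/2 : ℝ)) S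
        (fun F => ((NL c (r + 1) b (↑F : Set Edg) : ℕ) : ℝ) ^ K) *
      Pr (fun _ => (1/2 : ℝ)) S (fun F => OC c a r K (↑F : Set Edg)) := by
  obtain ⟨A, hA⟩ := hf c b
  have hab : a < b := by omega
  have h1 : tupP j c a b S ≤ ∑ σ ∈ Fintype.piFinset (fun _ : Fin K => A),
      Pr (fun _ => (1/2 : ℝ)) ((Finset.univ : Finset (Fin m)) ×ˢ S)
        (fun F => Tup c a b (fun i => sl F (j i)) σ) := by
    unfold tupP Pr
    rw [← Ex_sum]
    apply Ex_mono ok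
    intro F _
    apply ind_exists_le
    intro σ hσ
    rw [Fintype.mem_piFinset]
    intro i
    exact hA _ a hab (tup_mem hσ i)
  have h2 : ∑ σ ∈ Fintype.piFinset (fun _ : Fin K => A),
      Pr (fun _ => (1/2 : ℝ)) ((Finset.univ : Finset (Fin m)) ×ˢ S)
        (fun F => Tup c a b (fun i => sl F (j i)) σ) =
      Ex (fun _ => (1/2 : ℝ)) S (fun F => ∑ σ ∈ Fintype.piFinset (fun _ : Fin K => A),
        ind (Tup c a b (fun _ => (↑F : Set Edg)) σ)) := by
    rw [Ex_sum]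
    refine Finset.sum_congr rfl fun σ _ => ?_
    exact hps m K j c a b σ S hab hS
  rw [h2] at h1
  refine h1.trans ?_
  have h3 : Ex (fun _ => (1/2 : ℝ)) S
        (fun F => ((NL c (r + 1) b (↑F : Set Edg) : ℕ) : ℝ) ^ K) *
      Pr (fun _ => (1/2 : ℝ)) S (fun F => OC c a r K (↑F : Set Edg)) =
      Ex (fun _ => (1/2 : ℝ)) S (fun F => ((NL c (r + 1) b (↑F : Set Edg) : ℕ) : ℝ) ^ K *
        ind (OC c a r K (↑F : Set Edg))) := by
    unfold Pr
    rw [← Ex_mul_indep (S := GeF c (r + 1) b) (T := GeF c a r)]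
    · exact (GeF_mono (by omega) le_rfl).trans hS
    · exact (GeF_mono le_rfl (by omega)).trans hS
    · exact (GeF_disj (by omega)).symm
    · intro F _
      rw [NL_congr hl (by omega) (inter_ge F c (r + 1) b).symm]
    · intro F _
      exact ind_congr (OC_congr (inter_ge F c a r).symm)
  rw [h3]
  apply Ex_mono ok
  intro F _
  have h4 : ((NL c (r + 1) b (↑F : Set Edg) : ℕ) : ℝ) ^ K =
      ∑ σ ∈ Fintype.piFinset (fun _ : Fin K => A),
        ind (∀ i, σ i ∈ LS c (r + 1) b (↑F : Set Edg)) := by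
    rw [sum_fam (ω := fun _ : Fin K => (↑F : Set Edg)) (fun _ => hA _ _ hrb)]
    simp
  rw [h4, Finset.sum_mul]
  refine Finset.sum_le_sum fun σ _ => ?_
  rw [← ind_and]
  apply ind_mono
  intro hσ
  refine ⟨fun i => tup_out hR (by omega) hrb hσ i, ?_⟩
  obtain ⟨σ', hσ'⟩ := tup_in hR har (by omega) hσ
  exact tup_OC hR hc' har hσ'

/-! ### The lower bound -/

theorem tupP_ge (hR : St_restr) (hn3 : St_N3) (hps : St_PS) (hl : St_loc) (hc : St_cnt)
    (hf : St_fin) {m K : ℕ} (hK : 2 ≤ K) (j : Fin K → Fin m) {c : Vtx} {a b B : ℕ} (ha : 1 ≤ a)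
    (hab : a < b) (hbB : b + 1 < B) {S : Finset Edg} (hS : GeF c a B ⊆ S) :
    Pr (fun _ => (1/2 : ℝ)) S (fun F => OC c a B K (↑F : Set Edg)) ≤
      K * Ex (fun _ => (1/2 : ℝ)) S
        (fun F => ((NL c (b + 1) B (↑F : Set Edg) : ℕ) : ℝ) ^ K) * tupP j c a b S := by
  obtain ⟨A, hA⟩ := hf c B
  have haB : a < B := by omega
  have h1 : Pr (fun _ => (1/2 : ℝ)) S (fun F => OC c a B K (↑F : Set Edg)) ≤
      ∑ σ ∈ Fintype.piFinset (fun _ : Fin K => A),
      Pr (fun _ => (1/2 : ℝ)) S (fun F => Tup c a B (fun _ => (↑F : Set Edg)) σ) := by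
    unfold Pr
    rw [← Ex_sum]
    apply Ex_mono ok
    intro F _
    refine le_trans (ind_mono (OC_tup hn3 hc ha haB hK)) (ind_exists_le ?_)
    intro σ hσ
    rw [Fintype.mem_piFinset]
    intro i
    exact hA _ a haB (tup_mem hσ i)
  have h2 : ∑ σ ∈ Fintype.piFinset (fun _ : Fin K => A),
      Pr (fun _ => (1/2 : ℝ)) S (fun F => Tup c a B (fun _ => (↑F : Set Edg)) σ) =
      Ex (fun _ => (1/2 : ℝ)) ((Finset.univ : Finset (Fin m)) ×ˢ S)
        (fun F => ∑ σ ∈ Fintype.piFinset (fun _ : Fin K => A),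
          ind (Tup c a B (fun i => sl F (j i)) σ)) := by
    rw [Ex_sum]
    refine Finset.sum_congr rfl fun σ _ => ?_
    exact (hps m K j c a B σ S haB hS).symm
  rw [h2] at h1
  refine h1.trans ?_
  have hind : ∀ i : Fin K, Ex (fun _ => (1/2 : ℝ)) ((Finset.univ : Finset (Fin m)) ×ˢ S)
      (fun F => ((NL c (b + 1) B (sl F (j i)) : ℕ) : ℝ) ^ K *
        ind (∃ σ : Fin K → St, Tup c a b (fun i => sl F (j i)) σ)) =
      Ex (fun _ => (1/2 : ℝ)) S (fun F => ((NL c (b + 1) B (↑F : Set Edg) : ℕ) : ℝ) ^ K) *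
        tupP j c a b S := by
    intro i
    rw [← Ex_slice (j i) S (fun G => ((NL c (b + 1) B G : ℕ) : ℝ) ^ K)]
    unfold tupP Pr
    apply Ex_mul_indep (S := (Finset.univ : Finset (Fin m)) ×ˢ GeF c (b + 1) B)
      (T := (Finset.univ : Finset (Fin m)) ×ˢ GeF c a b)
    · exact Finset.product_subset_product_right ((GeF_mono (by omega) le_rfl).trans hS)
    · exact Finset.product_subset_product_right ((GeF_mono le_rfl (by omega)).trans hS)
    · rw [Finset.disjoint_left]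
      intro x hx hx'
      exact Finset.disjoint_left.1 (GeF_disj (c := c) (a := a) (b := b) (a' := b + 1) (b' := B)
        (by omega)) (Finset.mem_product.1 hx').2 (Finset.mem_product.1 hx).2
    · intro F _
      rw [NL_congr hl hbB (sl_inter F (j i) _ c (b + 1) B (Finset.Subset.refl _)).symm]
    · intro F _
      have hi : ∀ i, sl F (j i) ∩ Ge c a b =
          sl (F ∩ ((Finset.univ : Finset (Fin m)) ×ˢ GeF c a b)) (j i) ∩ Ge c a b :=
        fun i => (sl_inter F (j i) _ c a b (Finset.Subset.refl _)).symm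
      apply ind_congr
      constructor
      · rintro ⟨σ, hσ⟩
        exact ⟨σ, tup_congr hl hab hi hσ⟩
      · rintro ⟨σ, hσ⟩
        exact ⟨σ, tup_congr hl hab (fun i => (hi i).symm) hσ⟩
  have h3 : (K : ℝ) * Ex (fun _ => (1/2 : ℝ)) S
        (fun F => ((NL c (b + 1) B (↑F : Set Edg) : ℕ) : ℝ) ^ K) * tupP j c a b S =
      Ex (fun _ => (1/2 : ℝ)) ((Finset.univ : Finset (Fin m)) ×ˢ S)
      (fun F => ∑ i : Fin K, ((NL c (b + 1) B (sl F (j i)) : ℕ) : ℝ) ^ K *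
        ind (∃ σ : Fin K → St, Tup c a b (fun i => sl F (j i)) σ)) := by
    rw [Ex_sum, Finset.sum_congr rfl (fun i _ => hind i), Finset.sum_const, Finset.card_univ,
      Fintype.card_fin, nsmul_eq_mul, mul_assoc]
  rw [h3]
  apply Ex_mono ok
  intro F _
  have h4 : ∑ σ ∈ Fintype.piFinset (fun _ : Fin K => A),
      ind (Tup c a B (fun i => sl F (j i)) σ) ≤
      (∏ i, ((NL c (b + 1) B (sl F (j i)) : ℕ) : ℝ)) *
        ind (∃ σ : Fin K → St, Tup c a b (fun i => sl F (j i)) σ) := by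
    rw [← sum_fam (ω := fun i : Fin K => sl F (j i)) (fun _ => hA _ _ hbB), Finset.sum_mul]
    refine Finset.sum_le_sum fun σ _ => ?_
    rw [← ind_and]
    apply ind_mono
    intro hσ
    exact ⟨fun i => tup_out hR (by omega) hbB hσ i, tup_in hR hab (by omega) hσ⟩
  refine h4.trans ?_
  rw [← Finset.sum_mul]
  exact mul_le_mul_of_nonneg_right (prod_le_sum_pow (by omega) _ (fun i => Nat.cast_nonneg _))
    (ind_nonneg _)

/-- the arm bounds -/
def HU (K : ℕ) : Prop := ∀ r : ℕ, ∃ C : ℝ, 0 < C ∧ ∀ n : ℕ, 1 ≤ n →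
    Pr (fun _ => (1 / 2 : ℝ)) (boxE n) (fun F => KArm K r n (↑F : Set Edg)) ≤
      C * (n : ℝ) ^ (-((4 * (K : ℝ) ^ 2 - 1) / 12))

def HL (K : ℕ) : Prop := ∃ c : ℝ, 0 < c ∧ ∀ r n : ℕ, K ≤ r → r ≤ n →
    c * ((r : ℝ) / n) ^ ((4 * (K : ℝ) ^ 2 - 1) / 12) ≤
      Pr (fun _ => (1 / 2 : ℝ)) (boxE n) (fun F => KArm K r n (↑F : Set Edg))

theorem up' (hA : ∀ K, 2 ≤ K → HU K) (hR : St_restr) (hps : St_PS) (hf : St_fin) (hl : St_loc)
    (hc' : St_cnt') (ho : St_OCt) (hm : St_Mom) : St_Up := by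
  intro m K j a hK ha
  obtain ⟨C1, hC1, hU⟩ := hA K hK a
  obtain ⟨C2, hC2, hM⟩ := hm K
  obtain ⟨al, hal⟩ : ∃ al : ℝ, al = (4 * (K : ℝ) ^ 2 - 1) / 12 := ⟨_, rfl⟩
  have hk2 : (2 : ℝ) ≤ K := by exact_mod_cast hK
  have hal0 : 0 < al := by rw [hal]; nlinarith
  rw [← hal] at hU ⊢
  have h9 : (0 : ℝ) < 9 ^ al := Real.rpow_pos_of_pos (by norm_num) _
  have ha6 : (0 : ℝ) < ((3 * a + 6 : ℕ) : ℝ) := by exact_mod_cast (by omega : 0 < 3 * a + 6)
  have hpa : (0 : ℝ) < ((3 * a + 6 : ℕ) : ℝ) ^ al := Real.rpow_pos_of_pos ha6 _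
  refine ⟨C2 * C1 * 9 ^ al + ((3 * a + 6 : ℕ) : ℝ) ^ al, by positivity, ?_⟩
  intro c b S hab hS
  have hb0 : (0 : ℝ) < b := by exact_mod_cast (by omega : 0 < b)
  have hp : (0 : ℝ) < (b : ℝ) ^ (-al) := Real.rpow_pos_of_pos hb0 _
  by_cases h : 3 * a + 6 ≤ b
  · obtain ⟨r, hr⟩ : ∃ r : ℕ, r = b / 3 - 1 := ⟨_, rfl⟩
    have har : a < r := by omega
    have hrb : 3 * (r + 1) ≤ b := by omega
    have hbr : b ≤ 9 * r := by omega
    have h1 := tupP_le hR hps hl hc' hf j har (by omega : r + 1 < b) hS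
    have h2 := hM c (r + 1) b S (by omega) hrb ((GeF_mono (by omega) le_rfl).trans hS)
    have h3 := ho c a r K S har ((GeF_mono le_rfl (by omega)).trans hS)
    rw [h3] at h1
    have h4 := hU r (by omega)
    have h5 : 0 ≤ Pr (fun _ => (1/2 : ℝ)) (boxE r) (fun F => KArm K a r (↑F : Set Edg)) :=
      Pr_nonneg ok _ _
    have h6 : (r : ℝ) ^ (-al) ≤ 9 ^ al * (b : ℝ) ^ (-al) := by
      have hr0 : (0 : ℝ) < r := by exact_mod_cast (by omega : 0 < r)
      have h7 : (b : ℝ) / 9 ≤ r := by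
        rw [div_le_iff₀ (by norm_num)]
        have : (b : ℝ) ≤ 9 * r := by exact_mod_cast hbr
        linarith
      have h8 : (r : ℝ) ^ (-al) ≤ ((b : ℝ) / 9) ^ (-al) :=
        Real.rpow_le_rpow_of_nonpos (by positivity) h7 (by linarith)
      refine h8.trans (le_of_eq ?_)
      rw [Real.div_rpow hb0.le (by norm_num), Real.rpow_neg (by norm_num : (0:ℝ) ≤ 9)]
      field_simp
    calc tupP j c a b S ≤ _ := h1
      _ ≤ C2 * (C1 * (r : ℝ) ^ (-al)) := mul_le_mul h2 h4 h5 hC2.le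
      _ ≤ C2 * (C1 * (9 ^ al * (b : ℝ) ^ (-al))) := by gcongr
      _ = C2 * C1 * 9 ^ al * (b : ℝ) ^ (-al) := by ring
      _ ≤ (C2 * C1 * 9 ^ al + ((3 * a + 6 : ℕ) : ℝ) ^ al) * (b : ℝ) ^ (-al) := by
          apply mul_le_mul_of_nonneg_right _ hp.le
          linarith
  · have h1 : (1 : ℝ) ≤ ((3 * a + 6 : ℕ) : ℝ) ^ al * (b : ℝ) ^ (-al) := by
      have h2 : (b : ℝ) ^ al ≤ ((3 * a + 6 : ℕ) : ℝ) ^ al := by
        apply Real.rpow_le_rpow hb0.le _ hal0.le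
        exact_mod_cast (by omega : b ≤ 3 * a + 6)
      have h3 : (b : ℝ) ^ al * (b : ℝ) ^ (-al) = 1 := by
        rw [← Real.rpow_add hb0]
        simp
      rw [← h3]
      exact mul_le_mul_of_nonneg_right h2 hp.le
    have h2 := tupP_le_one j c a b S
    have h3 : 0 < C2 * C1 * 9 ^ al * (b : ℝ) ^ (-al) := by positivity
    rw [add_mul]
    linarith

theorem lo' (hA : ∀ K, 2 ≤ K → HL K) (hR : St_restr) (hn3 : St_N3) (hps : St_PS) (hf : St_fin)
    (hl : St_loc) (hc : St_cnt) (ho : St_OCt) (hm : St_Mom) : St_Lo := by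
  intro m K j hK
  obtain ⟨C1, hC1, hL⟩ := hA K hK
  obtain ⟨C2, hC2, hM⟩ := hm K
  obtain ⟨al, hal⟩ : ∃ al : ℝ, al = (4 * (K : ℝ) ^ 2 - 1) / 12 := ⟨_, rfl⟩
  have hk2 : (2 : ℝ) ≤ K := by exact_mod_cast hK
  have hal0 : 0 < al := by rw [hal]; nlinarith
  rw [← hal] at hL ⊢
  have h6 : (0 : ℝ) < 6 ^ al := Real.rpow_pos_of_pos (by norm_num) _
  refine ⟨C1 / (6 ^ al * (K * C2)), by positivity, ?_⟩
  intro c a b S hKa hab hS
  have ha0 : (0 : ℝ) < a := by exact_mod_cast (by omega : 0 < a)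
  have hb0 : (0 : ℝ) < b := by exact_mod_cast (by omega : 0 < b)
  obtain ⟨B, hB⟩ : ∃ B : ℕ, B = 3 * (b + 1) := ⟨_, rfl⟩
  have hB0 : (0 : ℝ) < B := by exact_mod_cast (by omega : 0 < B)
  have h1 := tupP_ge hR hn3 hps hl hc hf hK j (c := c) (a := a) (b := b) (B := B)
    (by omega : 1 ≤ a) hab (by omega) (S := S ∪ GeF c a B) Finset.subset_union_right
  rw [tupP_local hl j hab hS Finset.subset_union_left] at h1
  have h2 := hM c (b + 1) B (S ∪ GeF c a B) (by omega) (by omega)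
    ((GeF_mono (by omega) le_rfl).trans Finset.subset_union_right)
  rw [ho c a B K (S ∪ GeF c a B) (by omega) Finset.subset_union_right] at h1
  have h3 := (hL a B hKa (by omega)).trans h1
  have h4 : ((a : ℝ) / b) ^ al ≤ 6 ^ al * ((a : ℝ) / B) ^ al := by
    rw [← Real.mul_rpow (by norm_num) (by positivity)]
    apply Real.rpow_le_rpow (by positivity) _ hal0.le
    rw [← mul_div_assoc, div_le_div_iff₀ hb0 hB0]
    have h5 : (B : ℝ) ≤ 6 * b := by exact_mod_cast (by omega : B ≤ 6 * b)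
    have := mul_le_mul_of_nonneg_left h5 ha0.le
    linarith
  have h5 := tupP_nonneg j c a b S
  have h7 : (0 : ℝ) < 6 ^ al * (K * C2) := by positivity
  rw [div_mul_eq_mul_div, div_le_iff₀ h7]
  calc C1 * ((a : ℝ) / b) ^ al ≤ C1 * (6 ^ al * ((a : ℝ) / B) ^ al) :=
        mul_le_mul_of_nonneg_left h4 hC1.le
    _ = 6 ^ al * (C1 * ((a : ℝ) / B) ^ al) := by ring
    _ ≤ 6 ^ al * (K * Ex (fun _ => (1/2 : ℝ)) (S ∪ GeF c a B)
        (fun F => ((NL c (b + 1) B (↑F : Set Edg) : ℕ) : ℝ) ^ K) * tupP j c a b S) :=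
        mul_le_mul_of_nonneg_left h3 h6.le
    _ ≤ 6 ^ al * (K * C2 * tupP j c a b S) := by
        apply mul_le_mul_of_nonneg_left _ h6.le
        apply mul_le_mul_of_nonneg_right _ h5
        exact mul_le_mul_of_nonneg_left h2 (by linarith)
    _ = tupP j c a b S * (6 ^ al * (K * C2)) := by ring

end A4

/-- THE UPPER BOUND -/
theorem up (hB : St_basic) (hR : St_restr) (hn3 : St_N3) (hps : St_PS) (hf : St_fin) (hl : St_loc)
    (hc : St_cnt) (hc' : St_cnt') (ho : St_OCt) (hm : St_Mom) : St_Up :=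
  A4.up' (fun K hK r => TH992.E.upper K hK r) hR hps hf hl hc' ho hm

/-- THE LOWER BOUND -/
theorem lo (hB : St_basic) (hR : St_restr) (hn3 : St_N3) (hps : St_PS) (hf : St_fin) (hl : St_loc)
    (hc : St_cnt) (hc' : St_cnt') (ho : St_OCt) (hm : St_Mom) : St_Lo :=
  A4.lo' (fun K hK => TH992.E.lower K hK) hR hn3 hps hf hl hc ho hm

end Pool.Agent.N948.IX
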