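import Pool.Agent.N948.IX.Asm

/-!
# Project IX (helper948), part A5: the law of `m` independent configurations

By helper459.
-/

set_option autoImplicit false

namespace Pool.Agent.N948.IX.A5

open H974 H906.Cyl H12S Finset H984P H342P
open MeasureTheory
open Pool.Agent.H160R2.ML (KArm)
open Pool.Agent.H160R2.ML.TFIN (Z2 crit)

/-- The open edges in a finite set, in all configurations. -/
def tr {m : ℕ} (S : Finset Edg) (ω : Fin m → sqLattice.edgeSet → Bool) :
    Finset (Fin m × Edg) :=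
  ((Finset.univ : Finset (Fin m)) ×ˢ S).filter (fun p => ω p.1 (toE p.2) = true)

/-- The slice, as a finite set. -/
def sc {m : ℕ} (S : Finset Edg) (T : Finset (Fin m × Edg)) (i : Fin m) : Finset Edg :=
  S.filter (fun e => (i, e) ∈ T)

theorem tr_eq {m : ℕ} {S : Finset Edg} {T : Finset (Fin m × Edg)}
    (hT : T ⊆ (Finset.univ : Finset (Fin m)) ×ˢ S) :
    {ω | tr S ω = T} = Set.pi Set.univ (fun i => {w | FF S w = sc S T i}) := by
  ext ω
  rw [Set.mem_univ_pi]
  constructor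
  · intro h i
    have h' : tr S ω = T := h
    show FF S (ω i) = sc S T i
    ext e
    unfold sc
    rw [mem_FF, Finset.mem_filter, ← h']
    unfold tr
    rw [Finset.mem_filter, Finset.mem_product]
    simp only [Finset.mem_univ, true_and]
    tauto
  · intro h
    show tr S ω = T
    ext ⟨i, e⟩
    have h1 : FF S (ω i) = sc S T i := h i
    have h2 : e ∈ FF S (ω i) ↔ e ∈ sc S T i := by rw [h1]
    unfold sc at h2
    rw [mem_FF, Finset.mem_filter] at h2
    unfold tr
    rw [Finset.mem_filter, Finset.mem_product]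
    simp only [Finset.mem_univ, true_and]
    rw [h2]
    constructor
    · exact fun h => h.2
    · intro h
      exact ⟨(Finset.mem_product.1 (hT h)).2, h⟩

theorem meas_tr {m : ℕ} (S : Finset Edg) (T : Finset (Fin m × Edg)) :
    MeasurableSet {ω : Fin m → sqLattice.edgeSet → Bool | tr S ω = T} := by
  by_cases hT : T ⊆ (Finset.univ : Finset (Fin m)) ×ˢ S
  · rw [tr_eq hT]
    exact MeasurableSet.univ_pi fun i => meas_FF S _
  · have : {ω : Fin m → sqLattice.edgeSet → Bool | tr S ω = T} = ∅ := by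
      ext ω
      simp only [Set.mem_empty_iff_false, iff_false]
      intro h
      have h' : tr S ω = T := h
      exact hT (h' ▸ Finset.filter_subset _ _)
    rw [this]
    exact MeasurableSet.empty

theorem law_tr {m : ℕ} {S : Finset Edg} {T : Finset (Fin m × Edg)}
    (hT : T ⊆ (Finset.univ : Finset (Fin m)) ×ˢ S) :
    (Measure.pi (fun _ : Fin m => bondLaw hlf)).real {ω | tr S ω = T} =
      (∏ _e ∈ T, (1/2 : ℝ)) * ∏ _e ∈ ((Finset.univ : Finset (Fin m)) ×ˢ S) \ T,
        (1 - (1/2 : ℝ)) := by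
  rw [tr_eq hT, measureReal_def, Measure.pi_pi, ENNReal.toReal_prod]
  have h1 : ∀ i ∈ (Finset.univ : Finset (Fin m)),
      (bondLaw hlf {w | FF S w = sc S T i}).toReal = (1/2 : ℝ) ^ S.card := by
    intro i _
    have hs : sc S T i ⊆ S := Finset.filter_subset _ _
    have h2 := law_eq hlf hs
    rw [measureReal_def] at h2
    rw [h2]
    have h3 : ((hlf : unitInterval) : ℝ) = 1 / 2 := rfl
    rw [h3, show (1 : ℝ) - 1 / 2 = 1 / 2 by norm_num, Finset.prod_const, Finset.prod_const,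
      ← pow_add]
    congr 1
    have := Finset.card_sdiff_add_card_eq_card hs
    omega
  rw [Finset.prod_congr rfl h1, Finset.prod_const, Finset.card_univ, Fintype.card_fin, ← pow_mul,
    show (1 : ℝ) - 1 / 2 = 1 / 2 by norm_num, Finset.prod_const, Finset.prod_const, ← pow_add]
  congr 1
  have h4 := Finset.card_sdiff_add_card_eq_card hT
  rw [Finset.card_product, Finset.card_univ, Fintype.card_fin] at h4
  rw [mul_comm, ← h4]
  omega

theorem tr_union {m : ℕ} (S : Finset Edg) (Q : Finset (Fin m × Edg) → Prop) [DecidablePred Q] :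
    {ω : Fin m → sqLattice.edgeSet → Bool | Q (tr S ω)} =
      ⋃ T ∈ ((Finset.univ : Finset (Fin m)) ×ˢ S).powerset.filter Q, {ω | tr S ω = T} := by
  ext ω
  simp only [Set.mem_iUnion, Finset.mem_filter, Finset.mem_powerset]
  constructor
  · intro h
    exact ⟨tr S ω, ⟨Finset.filter_subset _ _, h⟩, rfl⟩
  · rintro ⟨T, ⟨-, hQ⟩, hω⟩
    have hω' : tr S ω = T := hω
    show Q (tr S ω)
    rw [hω']; exact hQ

theorem law' (m : ℕ) (S : Finset Edg) (Q : Finset (Fin m × Edg) → Prop) :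
    (Measure.pi (fun _ : Fin m => bondLaw hlf)).real {ω | Q (tr S ω)} =
      Pr (fun _ => (1/2 : ℝ)) ((Finset.univ : Finset (Fin m)) ×ˢ S) Q := by
  classical
  rw [tr_union, measureReal_biUnion_finset]
  · unfold Pr Ex
    rw [Finset.sum_filter]
    apply Finset.sum_congr rfl
    intro T hT
    beta_reduce
    split_ifs with hQ
    · rw [law_tr (Finset.mem_powerset.mp hT), ind_of hQ, mul_one]
    · rw [ind_not_of hQ, mul_zero]
  · intro T _ T' _ hne
    rw [Function.onFun, Set.disjoint_left]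
    intro ω h1 h2
    exact hne ((show tr S ω = T from h1).symm.trans (show tr S ω = T' from h2))
  · intro T _
    exact meas_tr S T

theorem ge_sub (c : Vtx) (a b : ℕ) (e : Edg) (he : e ∈ Ge c a b) : e ∈ GeF c a b := by
  obtain ⟨x, y, d⟩ := e
  obtain ⟨⟨h1, h2⟩, h3, h4⟩ := he
  unfold GeF
  rw [Finset.mem_filter]
  refine ⟨?_, h1, h3⟩
  unfold lv at h2 h4
  rw [max_le_iff, abs_le, abs_le] at h2 h4
  cases d
  · simp only [src_mk, tgt_false] at h2 h4
    rw [mem_RE_false]
    refine ⟨?_, ?_, ?_, ?_⟩ <;> linarith [h2.1.1, h2.1.2, h2.2.1, h2.2.2, h4.1.1, h4.1.2, h4.2.1, h4.2.2]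
  · simp only [src_mk, tgt_true] at h2 h4
    rw [mem_RE_true]
    refine ⟨?_, ?_, ?_, ?_⟩ <;> linarith [h2.1.1, h2.1.2, h2.2.1, h2.2.2, h4.1.1, h4.1.2, h4.2.1, h4.2.2]

theorem tup_loc (hl : St_loc) {K : ℕ} {c : Vtx} {a b : ℕ} (hab : a < b) {ω ω' : Fin K → Set Edg}
    (h : ∀ i, ω i ∩ Ge c a b = ω' i ∩ Ge c a b) {σ : Fin K → St} (hT : Tup c a b ω σ) :
    Tup c a b ω' σ := by
  obtain ⟨T, h1, h2⟩ := hT
  refine ⟨T, fun i => (hl _ _ c a b hab (h i) _ _ (h1 i)).1, fun i i' hii => ?_⟩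
  rw [(hl _ _ c a b hab (h i) _ _ (h1 i)).2, (hl _ _ c a b hab (h i') _ _ (h1 i')).2]
  exact h2 i i' hii

theorem sl_tr {m : ℕ} (S : Finset Edg) (ω : Fin m → sqLattice.edgeSet → Bool) (i : Fin m) :
    sl (tr S ω) i = opn (ω i) ∩ ↑S := by
  ext e
  show (i, e) ∈ tr S ω ↔ ω i (toE e) = true ∧ e ∈ S
  unfold tr
  rw [Finset.mem_filter, Finset.mem_product]
  simp only [Finset.mem_univ, true_and]
  tauto

theorem cross_iff (hl : St_loc) {m K : ℕ} (j : Fin K → Fin m) {a b : ℕ} (hab : a < b)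
    (ω : Fin m → sqLattice.edgeSet → Bool) :
    Cross j a b ω ↔ ∃ σ : Fin K → St, Tup (0, 0) a b
      (fun i => sl (tr (GeF (0, 0) a b) ω) (j i)) σ := by
  have h : ∀ i : Fin K, opn (ω (j i)) ∩ Ge (0, 0) a b =
      sl (tr (GeF (0, 0) a b) ω) (j i) ∩ Ge (0, 0) a b := by
    intro i
    rw [sl_tr]
    ext e
    constructor
    · rintro ⟨h1, h2⟩
      exact ⟨⟨h1, ge_sub _ _ _ _ h2⟩, h2⟩
    · rintro ⟨⟨h1, -⟩, h2⟩
      exact ⟨h1, h2⟩
  constructor
  · rintro ⟨σ, hσ⟩
    exact ⟨σ, tup_loc hl hab h hσ⟩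
  · rintro ⟨σ, hσ⟩
    exact ⟨σ, tup_loc hl hab (fun i => (h i).symm) hσ⟩

theorem cross_law (hl : St_loc) {m K : ℕ} (j : Fin K → Fin m) {a b : ℕ} (hab : a < b) :
    (Measure.pi (fun _ : Fin m => crit)).real {ω | Cross j a b ω} =
      tupP j (0, 0) a b (GeF (0, 0) a b) := by
  have h1 : {ω : Fin m → sqLattice.edgeSet → Bool | Cross j a b ω} =
      {ω | ∃ σ : Fin K → St, Tup (0, 0) a b
        (fun i => sl (tr (GeF (0, 0) a b) ω) (j i)) σ} := by
    ext ω
    exact cross_iff hl j hab ω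
  have h2 := law' m (GeF (0, 0) a b) (fun F => ∃ σ : Fin K → St, Tup (0, 0) a b
    (fun i => sl F (j i)) σ)
  have h3 : (Measure.pi (fun _ : Fin m => bondLaw hlf)).real
      {ω : Fin m → sqLattice.edgeSet → Bool | Cross j a b ω} =
      tupP j (0, 0) a b (GeF (0, 0) a b) := by
    rw [h1]
    exact h2
  exact h3

end Pool.Agent.N948.IX.A5

namespace Pool.Agent.N948.IX

open H974 H906.Cyl H12S Finset H984P H342P
open MeasureTheory
open Pool.Agent.H160R2.ML.TFIN (Z2 crit)

/-- The finite-dimensional laws. -/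
theorem law : St_Law := fun m S Q => A5.law' m S Q

/-- The theorem on intersection exponents, from the bounds in finite volume. -/
theorem ie (_hB : St_basic) (hl : St_loc) (hU : St_Up) (hL : St_Lo) (_hW : St_Law) : St_IE := by
  intro m K j hK
  refine ⟨fun a ha => ?_, ?_⟩
  · obtain ⟨C, -, h⟩ := hU m K j a hK ha
    refine ⟨C, fun b hab => ?_⟩
    rw [A5.cross_law hl j hab]
    exact h (0, 0) b _ hab (Finset.Subset.refl _)
  · obtain ⟨C, hC, h⟩ := hL m K j hK
    refine ⟨C, hC, fun a b hKa hab => ?_⟩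
    rw [A5.cross_law hl j hab]
    exact h (0, 0) a b _ hKa hab (Finset.Subset.refl _)

end Pool.Agent.N948.IX
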