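import Pool.Agent.N948.IX.Defs
import Pool.Agent.H160R2.ML.T_FIN

/-!
# Project IX (helper948): statements for the first theorem
-/

set_option autoImplicit false

namespace Pool.Agent.N948.IX

open H974 H906.Cyl H12S Finset H984P H342P
open MeasureTheory
open Pool.Agent.H160R2.ML (KArm)
open Pool.Agent.H160R2.ML.TFIN (Z2 crit)

/-- The starting states of the inward crossings. -/
def LS (c : Vtx) (a b : ℕ) (F : Set Edg) : Set St := {σ | ∃ T, InLeg F c a b σ T}

/-- There are finitely many candidates for the starting states. -/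
def St_fin : Prop := ∀ (c : Vtx) (b : ℕ), ∃ A : Finset St, ∀ (F : Set Edg) (a : ℕ), a < b →
  LS c a b F ⊆ ↑A

/-- The crossings only depend on the edges of the annulus. -/
def St_loc : Prop := ∀ (F G : Set Edg) (c : Vtx) (a b : ℕ), a < b →
  F ∩ Ge c a b = G ∩ Ge c a b → ∀ (σ : St) (T : ℕ), InLeg F c a b σ T →
    InLeg G c a b σ T ∧ Exm G σ T = Exm F σ T

/-- A configuration with `K ≥ 2` distinct open crossing clusters has at least `K` crossings. -/
def St_cnt : Prop := ∀ (F : Set Edg) (c : Vtx) (a b K : ℕ), 1 ≤ a → a < b → 2 ≤ K → OC c a b K F →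
  ∃ σ : Fin K → St, Function.Injective σ ∧ ∀ i, σ i ∈ LS c a b F

/-- `K` crossings with different starting states: `K` distinct open crossing clusters. -/
def St_cnt' : Prop := ∀ (F : Set Edg) (c : Vtx) (a b K : ℕ) (σ : Fin K → St), a < b →
  Function.Injective σ → (∀ i, σ i ∈ LS c a b F) → OC c a b K F

/-- Translation invariance, and restriction to the annulus. -/
def St_OCt : Prop := ∀ (c : Vtx) (a b K : ℕ) (S : Finset Edg), a < b → GeF c a b ⊆ S →
  Pr (fun _ => (1/2 : ℝ)) S (fun F => OC c a b K (↑F : Set Edg)) =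
    Pr (fun _ => (1/2 : ℝ)) (boxE b) (fun F => KArm K a b (↑F : Set Edg))

/-- A crossing of an annulus of ratio three may fail to exist. -/
def St_NLp : Prop := ∃ δ : ℝ, 0 < δ ∧ ∀ (c : Vtx) (a b : ℕ) (S : Finset Edg), 1 ≤ a → 3 * a ≤ b →
  GeF c a b ⊆ S →
  Pr (fun _ => (1/2 : ℝ)) S (fun F => (LS c a b (↑F : Set Edg)).Nonempty) ≤ 1 - δ

/-- Moments of the number of crossings. -/
def St_Mom : Prop := ∀ K : ℕ, ∃ C : ℝ, 0 < C ∧ ∀ (c : Vtx) (a b : ℕ) (S : Finset Edg), 1 ≤ a →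
  3 * a ≤ b → GeF c a b ⊆ S →
  Ex (fun _ => (1/2 : ℝ)) S (fun F => ((NL c a b (↑F : Set Edg) : ℕ) : ℝ) ^ K) ≤ C

/-- The probability of `K` crossings in the configurations `j i` of `m` independent configurations,
examining pairwise disjoint sets of edges. -/
noncomputable def tupP {m K : ℕ} (j : Fin K → Fin m) (c : Vtx) (a b : ℕ) (S : Finset Edg) : ℝ :=
  Pr (fun _ => (1/2 : ℝ)) ((Finset.univ : Finset (Fin m)) ×ˢ S)
    (fun F => ∃ σ : Fin K → St, Tup c a b (fun i => sl F (j i)) σ)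

/-- The upper bound. -/
def St_Up : Prop := ∀ (m K : ℕ) (j : Fin K → Fin m) (a : ℕ), 2 ≤ K → 1 ≤ a → ∃ C : ℝ, 0 < C ∧
  ∀ (c : Vtx) (b : ℕ) (S : Finset Edg), a < b → GeF c a b ⊆ S →
    tupP j c a b S ≤ C * (b : ℝ) ^ (-((4 * (K : ℝ) ^ 2 - 1) / 12))

/-- The lower bound. -/
def St_Lo : Prop := ∀ (m K : ℕ) (j : Fin K → Fin m), 2 ≤ K → ∃ C : ℝ, 0 < C ∧
  ∀ (c : Vtx) (a b : ℕ) (S : Finset Edg), K ≤ a → a < b → GeF c a b ⊆ S →
    C * ((a : ℝ) / b) ^ ((4 * (K : ℝ) ^ 2 - 1) / 12) ≤ tupP j c a b S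

/-- The finite-dimensional laws of `m` independent configurations. -/
def St_Law : Prop := ∀ (m : ℕ) (S : Finset Edg) (Q : Finset (Fin m × Edg) → Prop),
  (Measure.pi (fun _ : Fin m => crit)).real
    {ω | Q (((Finset.univ : Finset (Fin m)) ×ˢ S).filter (fun p => ω p.1 (toE p.2) = true))} =
  Pr (fun _ => (1/2 : ℝ)) ((Finset.univ : Finset (Fin m)) ×ˢ S) Q

/-- The event of the theorem: crossings in the configurations `j i` from the outside to the inside
of the annulus which examine pairwise disjoint sets of edges. -/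
def Cross {m K : ℕ} (j : Fin K → Fin m) (a b : ℕ) (ω : Fin m → Z2.edgeSet → Bool) : Prop :=
  ∃ σ : Fin K → St, Tup (0, 0) a b (fun i => opn (ω (j i))) σ

/-- Intersection exponents. -/
def St_IE : Prop := ∀ (m K : ℕ) (j : Fin K → Fin m), 2 ≤ K →
  (∀ a : ℕ, 1 ≤ a → ∃ C : ℝ, ∀ b : ℕ, a < b →
    (Measure.pi (fun _ : Fin m => crit)).real {ω | Cross j a b ω} ≤
      C * (b : ℝ) ^ (-((4 * (K : ℝ) ^ 2 - 1) / 12))) ∧
  ∃ c : ℝ, 0 < c ∧ ∀ a b : ℕ, K ≤ a → a < b →
    c * ((a : ℝ) / b) ^ ((4 * (K : ℝ) ^ 2 - 1) / 12) ≤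
      (Measure.pi (fun _ : Fin m => crit)).real {ω | Cross j a b ω}

end Pool.Agent.N948.IX
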