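import Pool.Agent.N948.IX.Asm
import Pool.Agent.H974R2.Sym

/-!
# Project IX (helper948): colour switching by translation

The dual configuration shifted by half a unit is a configuration with the same law, in which the
interfaces are traversed backwards. So inward and outward crossings can be exchanged if they are at
a small distance from each other.
-/

set_option autoImplicit false

namespace Pool.Agent.N948.IX

open H974 H906.Cyl H12S Finset H984P H342P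

/-- A state after the shift by half a unit, with the roles of the vertex and the face exchanged:
the vertex of `th σ` is the face of `σ`, its face is the vertex of `σ` (minus `(1, 1)`). -/
def th (σ : St) : St := match σ.2 with
  | .ne => ((σ.1.1, σ.1.2), .sw)
  | .nw => ((σ.1.1 - 1, σ.1.2), .se)
  | .sw => ((σ.1.1 - 1, σ.1.2 - 1), .ne)
  | .se => ((σ.1.1, σ.1.2 - 1), .nw)

/-- The dual configuration, shifted by half a unit. -/
def DS (F : Set Edg) : Set Edg := dl '' Fᶜ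

/-- The shifted dual configuration reverses the time. -/
def St_th : Prop := ∀ (F : Set Edg) (σ : St) (T s : ℕ), s ≤ T →
  orb (DS F) (th (orb F σ T)) s = th (orb F σ (T - s)) ∧
  Exm (DS F) (th (orb F σ T)) s = (Exm F (orb F σ (T - s)) s).image dl

/-- Separation of two sets of edges. -/
def Sep (n : ℕ) (A B : Finset Edg) : Prop := ∀ e ∈ A, ∀ e' ∈ B, (n : ℤ) ≤ lv (src e) (src e')

/-- Crossings of both types: inward for `true`, outward for `false`. -/
def Leg (ε : Bool) (F : Set Edg) (c : Vtx) (a b : ℕ) (σ : St) (T : ℕ) : Prop :=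
  if ε = true then InLeg F c a b σ T else OutLeg F c a b σ T

/-- Crossings of the types `ε i` in the configurations `ω i`, starting at `σ i`, at distance at
least `n` from each other. -/
def TupE {K : ℕ} (n : ℕ) (ε : Fin K → Bool) (c : Vtx) (a b : ℕ) (ω : Fin K → Set Edg)
    (σ : Fin K → St) : Prop :=
  ∃ T : Fin K → ℕ, (∀ i, Leg (ε i) (ω i) c a b (σ i) (T i)) ∧
    ∀ i i', i ≠ i' → Sep n (Exm (ω i) (σ i) (T i)) (Exm (ω i') (σ i') (T i'))

/-- The configurations with the types `false` are replaced by the shifted dual ones. -/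
def swt {K : ℕ} (ε : Fin K → Bool) (ω : Fin K → Set Edg) : Fin K → Set Edg :=
  fun i => if ε i = true then ω i else DS (ω i)

/-- Colour switching, upper bound. -/
def St_SH1 : Prop := ∀ (K : ℕ) (ε : Fin K → Bool) (c : Vtx) (a b : ℕ) (ω : Fin K → Set Edg),
  1 ≤ a → a + 2 < b →
  Set.ncard {σ : Fin K → St | TupE 10 ε c a b ω σ} ≤
    Set.ncard {σ : Fin K → St | Tup c (a + 1) (b - 1) (swt ε ω) σ}

/-- Colour switching, lower bound. -/
def St_SH2 : Prop := ∀ (K : ℕ) (ε : Fin K → Bool) (c : Vtx) (a b : ℕ) (ω : Fin K → Set Edg),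
  1 ≤ a → a + 2 < b →
  Set.ncard {σ : Fin K → St | TupE 12 (fun _ => true) c a b (swt ε ω) σ} ≤
    Set.ncard {σ : Fin K → St | TupE 10 ε c (a + 1) (b - 1) ω σ}

/-- The law does not change. -/
def St_SHL : Prop := ∀ (K : ℕ) (ε : Fin K → Bool) (c : Vtx) (b : ℕ)
  (f : (Fin K → Set Edg) → ℝ),
  (∀ ω ω' : Fin K → Set Edg, (∀ i, ω i ∩ Bx c b = ω' i ∩ Bx c b) → f ω = f ω') →
  ∀ S : Finset Edg, Bx c (b + 2) ⊆ (↑S : Set Edg) →
  Ex (fun _ => (1/2 : ℝ)) ((Finset.univ : Finset (Fin K)) ×ˢ S)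
    (fun F => f (swt ε (fun i => sl F i))) =
  Ex (fun _ => (1/2 : ℝ)) ((Finset.univ : Finset (Fin K)) ×ˢ S) (fun F => f (fun i => sl F i))

/-- The path sum identity for general witness sets. -/
def St_GPS : Prop := ∀ (m K : ℕ) (j : Fin K → Fin m) (S : Finset Edg)
  (W : Fin K → Set Edg → Finset Edg → Prop) (R : (Fin K → Finset Edg) → Prop),
  (∀ i F A, W i F A → A ⊆ S) →
  (∀ i F G A, W i F A → (∀ e ∈ A, (e ∈ F ↔ e ∈ G)) → W i G A) →
  (∀ i F A B, W i F A → W i F B → A = B) →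
  (∀ A, R A → ∀ i i', i ≠ i' → Disjoint (A i) (A i')) →
  Pr (fun _ => (1/2 : ℝ)) ((Finset.univ : Finset (Fin m)) ×ˢ S)
    (fun F => ∃ A : Fin K → Finset Edg, (∀ i, W i (sl F (j i)) (A i)) ∧ R A) =
  Pr (fun _ => (1/2 : ℝ)) S
    (fun F => ∃ A : Fin K → Finset Edg, (∀ i, W i (↑F : Set Edg) (A i)) ∧ R A)

/-- Factorial moments of the number of inward crossings. -/
def St_UpE : Prop := ∀ (K a : ℕ), 2 ≤ K → 1 ≤ a → ∃ C : ℝ, 0 < C ∧
  ∀ (c : Vtx) (b : ℕ) (S : Finset Edg), a < b → GeF c a b ⊆ S →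
    Ex (fun _ => (1/2 : ℝ)) S (fun F => (((NL c a b (↑F : Set Edg)).descFactorial K : ℕ) : ℝ)) ≤
      C * (b : ℝ) ^ (-((4 * (K : ℝ) ^ 2 - 1) / 12))

/-- The four-arm bound, uniform in the inner radius. -/
def St_F2 : Prop := ∃ C : ℝ, 0 < C ∧ ∀ (c : Vtx) (a b : ℕ) (S : Finset Edg), 1 ≤ a → a < b →
  GeF c a b ⊆ S → Pr (fun _ => (1/2 : ℝ)) S (fun F => OC c a b 2 (↑F : Set Edg)) ≤
    C * ((a : ℝ) / b) ^ (5/4 : ℝ)

/-- The second factorial moment, uniform in the inner radius. -/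
def St_UpE2 : Prop := ∃ C : ℝ, 0 < C ∧ ∀ (c : Vtx) (a b : ℕ) (S : Finset Edg), 1 ≤ a →
  3 * a + 6 ≤ b → GeF c a b ⊆ S →
  Ex (fun _ => (1/2 : ℝ)) S (fun F => (((NL c a b (↑F : Set Edg)).descFactorial 2 : ℕ) : ℝ)) ≤
    C * ((a : ℝ) / b) ^ (5/4 : ℝ)

/-- Crossings of arbitrary types in independent configurations. -/
def St_TEup : Prop := ∀ (m K : ℕ) (j : Fin K → Fin m) (ε : Fin K → Bool) (a : ℕ), 2 ≤ K → 1 ≤ a →
  ∃ C : ℝ, 0 < C ∧ ∀ (c : Vtx) (b : ℕ) (S : Finset Edg), a < b → GeF c a b ⊆ S →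
    Pr (fun _ => (1/2 : ℝ)) ((Finset.univ : Finset (Fin m)) ×ˢ S)
      (fun F => ∃ σ : Fin K → St, TupE 10 ε c a b (fun i => sl F (j i)) σ) ≤
    C * (b : ℝ) ^ (-((4 * (K : ℝ) ^ 2 - 1) / 12))

/-- An inward and an outward crossing of the same configuration, at distance at least `n`. -/
def IO (n : ℕ) (c : Vtx) (a b : ℕ) (F : Set Edg) : Prop :=
  ∃ (σ : St) (T : ℕ) (τ : St) (U : ℕ), InLeg F c a b σ T ∧ OutLeg F c a b τ U ∧
    Sep n (Exm F σ T) (Exm F τ U)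

/-- The bound for an inward and an outward crossing, uniform in the inner radius. -/
def St_IOup : Prop := ∃ C : ℝ, 0 < C ∧ ∀ (c : Vtx) (a b : ℕ) (S : Finset Edg), 1 ≤ a → a < b →
  GeF c a b ⊆ S → Pr (fun _ => (1/2 : ℝ)) S (fun F => IO 10 c a b (↑F : Set Edg)) ≤
    C * ((a : ℝ) / b) ^ (5/4 : ℝ)

/-- Most pairs of inward crossings are at distance at least `12`. -/
def St_THIN : Prop := ∃ C : ℝ, 0 < C ∧ ∃ a0 : ℕ, 1 ≤ a0 ∧
  ∀ (c : Vtx) (a b : ℕ) (S : Finset Edg), a0 ≤ a → a < b → GeF c a b ⊆ S →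
  C * ((a : ℝ) / b) ^ (5/4 : ℝ) ≤ Ex (fun _ => (1/2 : ℝ)) S (fun F =>
    ((Set.ncard {σ : Fin 2 → St | TupE 12 (fun _ => true) c a b (fun _ => (↑F : Set Edg)) σ} : ℕ)
      : ℝ))

/-- The lower bound for an inward and an outward crossing. -/
def St_IOlo : Prop := ∃ C : ℝ, 0 < C ∧ ∃ a0 : ℕ, 1 ≤ a0 ∧
  ∀ (c : Vtx) (a b : ℕ) (S : Finset Edg), a0 ≤ a → a < b → GeF c a b ⊆ S →
  C * ((a : ℝ) / b) ^ (5/4 : ℝ) ≤
    Pr (fun _ => (1/2 : ℝ)) S (fun F => IO 10 c a b (↑F : Set Edg))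

end Pool.Agent.N948.IX
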