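import Pool.Agent.N948.IX.Bas
import Pool.Agent.N948.IX.Cut

/-!
# Project IX: the shift by half a unit reverses the interfaces
-/

set_option autoImplicit false

namespace Pool.Agent.N948.IX.C1

open H974 H906.Cyl H12S Finset H984P H342P Pool.Agent.W92.DP Bas

/-! ### One step -/

lemma ae_th_mv (σ : St) : ae (th (mv σ)) = dl (ae σ) := by
  obtain ⟨⟨x, y⟩, q⟩ := σ
  cases q <;> simp [th]

lemma ae_th_rt (σ : St) : ae (th (rt σ)) = dl (ae σ) := by
  obtain ⟨⟨x, y⟩, q⟩ := σ
  cases q <;> simp [th]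

lemma rt_th_mv (σ : St) : rt (th (mv σ)) = th σ := by
  obtain ⟨⟨x, y⟩, q⟩ := σ
  cases q <;> simp [th]

lemma mv_th_rt (σ : St) : mv (th (rt σ)) = th σ := by
  obtain ⟨⟨x, y⟩, q⟩ := σ
  cases q <;> simp [th]

lemma mem_DS {F : Set Edg} {e : Edg} : dl e ∈ DS F ↔ e ∉ F := by
  unfold DS
  constructor
  · rintro ⟨e', he', h⟩
    rw [dl.injective h] at he'
    exact he'
  · intro h
    exact ⟨e, h, rfl⟩

lemma ae_th_nxt (F : Set Edg) (σ : St) : ae (th (nxt F σ)) = dl (ae σ) := by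
  by_cases h : ae σ ∈ F
  · rw [nxt_open h, ae_th_mv]
  · rw [nxt_closed h, ae_th_rt]

lemma nxt_th_nxt (F : Set Edg) (σ : St) : nxt (DS F) (th (nxt F σ)) = th σ := by
  by_cases h : ae σ ∈ F
  · rw [nxt_open h, nxt_closed, rt_th_mv]
    rw [ae_th_mv, mem_DS]
    exact fun h' => h' h
  · rw [nxt_closed h, nxt_open, mv_th_rt]
    rw [ae_th_rt, mem_DS]
    exact h

end C1

open H974 H906.Cyl H12S Finset H984P H342P Pool.Agent.W92.DP Bas C1

theorem tht : St_th := by
  intro F σ T s hs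
  have h1 : ∀ s ≤ T, orb (DS F) (th (orb F σ T)) s = th (orb F σ (T - s)) := by
    intro s
    induction s with
    | zero => intro _; rw [orb_zero, Nat.sub_zero]
    | succ s ih =>
      intro hs
      rw [orb_succ, ih (by omega)]
      obtain ⟨u, hu⟩ : ∃ u, T - s = u + 1 := ⟨T - s - 1, by omega⟩
      have hu' : T - (s + 1) = u := by omega
      rw [hu, hu', orb_succ, nxt_th_nxt]
  refine ⟨h1 s hs, ?_⟩
  ext e
  rw [mem_Exm, mem_image]
  constructor
  · rintro ⟨u, hu, rfl⟩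
    obtain ⟨k, hk⟩ : ∃ k, T - u = k + 1 := ⟨T - u - 1, by omega⟩
    refine ⟨ae (orb F σ k), ?_, ?_⟩
    · rw [mem_Exm]
      refine ⟨s - 1 - u, by omega, ?_⟩
      rw [← orb_add]
      congr 2
      omega
    · rw [h1 u (by omega), hk, orb_succ, ae_th_nxt]
  · rintro ⟨e', he', rfl⟩
    rw [mem_Exm] at he'
    obtain ⟨u, hu, rfl⟩ := he'
    refine ⟨s - 1 - u, by omega, ?_⟩
    rw [h1 _ (by omega), ← orb_add]
    have h2 : T - (s - 1 - u) = (u + (T - s)) + 1 := by omega
    rw [h2, orb_succ, ae_th_nxt]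

namespace C1

/-! ### Geometry of the shift -/

lemma lf_th (c : Vtx) (σ : St) :
    lf c (face (th σ)) ≤ lf c (face σ) + 2 ∧ lf c (face σ) ≤ lf c (face (th σ)) + 2 := by
  obtain ⟨⟨x, y⟩, q⟩ := σ
  obtain ⟨cx, cy⟩ := c
  cases q <;> simp only [th, face_ne, face_nw, face_sw, face_se, lf, abs_eq_max_neg] <;> omega

lemma th_inj {σ τ : St} (h : th σ = th τ) : σ = τ := by
  obtain ⟨⟨x, y⟩, q⟩ := σ
  obtain ⟨⟨x', y'⟩, q'⟩ := τ
  cases q <;> cases q' <;> simp_all [th]

/-- the inverse of `th` -/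
def thi (σ : St) : St := match σ.2 with
  | .sw => ((σ.1.1, σ.1.2), .ne)
  | .se => ((σ.1.1 + 1, σ.1.2), .nw)
  | .ne => ((σ.1.1 + 1, σ.1.2 + 1), .sw)
  | .nw => ((σ.1.1, σ.1.2 + 1), .se)

lemma th_thi (σ : St) : th (thi σ) = σ := by
  obtain ⟨⟨x, y⟩, q⟩ := σ
  cases q <;> simp [th, thi]

lemma lf_odd (c : Vtx) (ρ : St) (m : ℤ) : lf c (face ρ) ≠ 2 * m := by
  have := cor c ρ
  omega

lemma lv_dl (e : Edg) : lv (src e) (src (dl e)) ≤ 1 := by
  obtain ⟨x, y, _ | _⟩ := e <;> simp [lv, abs_eq_max_neg]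

lemma lv_self (v : Vtx) : lv v v = 0 := by simp [lv]

lemma lv_comm' (v w : Vtx) : lv v w = lv w v := by
  unfold lv
  rw [abs_sub_comm, abs_sub_comm w.2]

lemma lv_tri (u v w : Vtx) : lv u w ≤ lv u v + lv v w := by
  obtain ⟨x, y⟩ := u
  obtain ⟨x', y'⟩ := v
  obtain ⟨x'', y''⟩ := w
  simp only [lv, abs_eq_max_neg]
  omega

/-! ### Crossings from the outside to the inside -/

lemma num {P Q : ℕ → Prop} {n : ℕ} (h0 : P 0) (hn : Q n) (hPQ : ∀ k, P k → ¬ Q k) :
    ∃ s t, s + t ≤ n ∧ 0 < t ∧ P s ∧ (∀ u, 0 < u → u < t → ¬ P (u + s) ∧ ¬ Q (u + s)) ∧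
      Q (t + s) := by
  classical
  have hex : ∃ k, Q k := ⟨n, hn⟩
  have h1 : Nat.find hex ≤ n := Nat.find_min' hex hn
  have h2 : P (Nat.findGreatest P (Nat.find hex)) := Nat.findGreatest_spec (Nat.zero_le _) h0
  have h3 : Nat.findGreatest P (Nat.find hex) ≤ Nat.find hex := Nat.findGreatest_le _
  have h4 : Nat.findGreatest P (Nat.find hex) ≠ Nat.find hex := by
    intro h
    rw [h] at h2
    exact hPQ _ h2 (Nat.find_spec hex)
  refine ⟨Nat.findGreatest P (Nat.find hex), Nat.find hex - Nat.findGreatest P (Nat.find hex),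
    by omega, by omega, h2, fun u hu hut => ⟨?_, ?_⟩, ?_⟩
  · exact Nat.findGreatest_is_greatest (n := Nat.find hex) (by omega) (by omega)
  · exact Nat.find_min hex (by omega)
  · rw [Nat.sub_add_cancel h3]
    exact Nat.find_spec hex

lemma inleg_of {F : Set Edg} {c : Vtx} {a b : ℕ} (hab : a < b) {ρ : St} {n : ℕ}
    (h0 : 2 * (b : ℤ) < lf c (face ρ)) (hn : lf c (face (orb F ρ n)) < 2 * (a : ℤ)) :
    ∃ s t, s + t ≤ n ∧ InLeg F c a b (orb F ρ s) t := by
  have hab' : (a : ℤ) < b := by exact_mod_cast hab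
  obtain ⟨s, t, h1, h2, h3, h4, h5⟩ := num (P := fun k => 2 * (b : ℤ) < lf c (face (orb F ρ k)))
    (Q := fun k => lf c (face (orb F ρ k)) < 2 * (a : ℤ)) (n := n) (by simpa using h0) hn
    (fun k hk => by omega)
  refine ⟨s, t, h1, h2, h3, fun u hu hut => ?_, ?_⟩
  · rw [← orb_add]
    have h6 := h4 u hu hut
    have h7 := lf_odd c (orb F ρ (u + s)) a
    have h8 := lf_odd c (orb F ρ (u + s)) b
    omega
  · rw [← orb_add]
    exact h5

lemma outleg_of {F : Set Edg} {c : Vtx} {a b : ℕ} (hab : a < b) {ρ : St} {n : ℕ}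
    (h0 : lf c (face ρ) < 2 * (a : ℤ)) (hn : 2 * (b : ℤ) < lf c (face (orb F ρ n))) :
    ∃ s t, s + t ≤ n ∧ OutLeg F c a b (orb F ρ s) t := by
  have hab' : (a : ℤ) < b := by exact_mod_cast hab
  obtain ⟨s, t, h1, h2, h3, h4, h5⟩ := num (P := fun k => lf c (face (orb F ρ k)) < 2 * (a : ℤ))
    (Q := fun k => 2 * (b : ℤ) < lf c (face (orb F ρ k))) (n := n) (by simpa using h0) hn
    (fun k hk => by omega)
  refine ⟨s, t, h1, h2, h3, fun u hu hut => ?_, ?_⟩
  · rw [← orb_add]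
    have h6 := h4 u hu hut
    have h7 := lf_odd c (orb F ρ (u + s)) a
    have h8 := lf_odd c (orb F ρ (u + s)) b
    omega
  · rw [← orb_add]
    exact h5

lemma exm_sub {F : Set Edg} {ρ : St} {s t n : ℕ} (h : s + t ≤ n) :
    Exm F (orb F ρ s) t ⊆ Exm F ρ n := by
  intro e he
  rw [mem_Exm] at he ⊢
  obtain ⟨u, hu, rfl⟩ := he
  exact ⟨u + s, by omega, by rw [orb_add]⟩

lemma ncard_rel {α : Type*} {s t : Set α} (R : α → α → Prop)
    (h1 : ∀ x ∈ s, ∃ y ∈ t, R x y) (h2 : ∀ x x' y, R x y → R x' y → x = x') (ht : t.Finite) :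
    s.ncard ≤ t.ncard := by
  have h3 : ∀ x, ∃ y, x ∈ s → y ∈ t ∧ R x y := by
    intro x
    by_cases hx : x ∈ s
    · obtain ⟨y, hy, hR⟩ := h1 x hx
      exact ⟨y, fun _ => ⟨hy, hR⟩⟩
    · exact ⟨x, fun h => absurd h hx⟩
  choose f hf using h3
  exact Set.ncard_le_ncard_of_injOn f (fun x hx => (hf x hx).1)
    (fun x hx x' hx' e => h2 x x' (f x) (hf x hx).2 (by rw [e]; exact (hf x' hx').2)) ht

/-- finitely many states have a face in a square -/
lemma fin_states (c : Vtx) (a : ℕ) : {σ : St | lf c (face σ) < 2 * (a : ℤ)}.Finite := by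
  refine Set.Finite.subset (((Finset.Icc (c.1 - a - 2) (c.1 + a + 2)) ×ˢ
    (Finset.Icc (c.2 - a - 2) (c.2 + a + 2))) ×ˢ (Finset.univ : Finset Q4)).finite_toSet ?_
  rintro ⟨⟨x, y⟩, q⟩ h
  obtain ⟨cx, cy⟩ := c
  rw [Set.mem_ofPred_eq] at h
  rw [Finset.mem_coe, Finset.mem_product, Finset.mem_product, Finset.mem_Icc, Finset.mem_Icc]
  cases q <;> simp only [face_ne, face_nw, face_sw, face_se, lf, abs_eq_max_neg] at h <;>
    exact ⟨⟨by constructor <;> simp only <;> omega, by constructor <;> simp only <;> omega⟩,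
      Finset.mem_univ _⟩

/-- an orbit meets itself -/
lemma orb_meet {F : Set Edg} {σ τ : St} {u u' : ℕ} (huu : u ≤ u') (h : orb F σ u = orb F τ u') :
    σ = orb F τ (u' - u) := by
  have e : u' = u + (u' - u) := by omega
  rw [e, orb_add] at h
  exact orb_inj h

/-! ### The first comparison -/

/-- the relation between the old and the new crossings -/
def r1 (c : Vtx) (a b : ℕ) (ε : Bool) (F : Set Edg) (σ σ' : St) : Prop :=
  if ε = true then ∃ T s, InLeg F c a b σ T ∧ s < T ∧ σ' = orb F σ s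
  else ∃ T u, OutLeg F c a b σ T ∧ 0 < u ∧ u ≤ T ∧ σ' = th (orb F σ u)

lemma r1_inj (hR : St_restr) {c : Vtx} {a b : ℕ} (hab : a < b) {ε : Bool} {F : Set Edg}
    {σ τ σ' : St} (h1 : r1 c a b ε F σ σ') (h2 : r1 c a b ε F τ σ') : σ = τ := by
  unfold r1 at h1 h2
  split_ifs at h1 h2
  · obtain ⟨T, s, hT, hs, e⟩ := h1
    obtain ⟨T', s', hT', hs', e'⟩ := h2
    exact ((hR F c a b σ T hab hT).2.2.2 τ T' s s' hT' hs hs' (by rw [← e, e'])).1
  · obtain ⟨T, u, hT, hu, huT, e⟩ := h1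
    obtain ⟨T', u', hT', hu', huT', e'⟩ := h2
    have h3 : orb F σ u = orb F τ u' := th_inj (by rw [← e, e'])
    rcases le_total u u' with h | h
    · have h4 := orb_meet h h3
      rcases Nat.eq_zero_or_pos (u' - u) with h5 | h5
      · rw [h5, orb_zero] at h4
        exact h4
      · exfalso
        have h6 := hT'.mid (u' - u) h5 (by omega)
        rw [← h4] at h6
        have h7 := hT.st
        omega
    · have h4 := orb_meet h h3.symm
      rcases Nat.eq_zero_or_pos (u - u') with h5 | h5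
      · rw [h5, orb_zero] at h4
        exact h4.symm
      · exfalso
        have h6 := hT.mid (u - u') h5 (by omega)
        rw [← h4] at h6
        have h7 := hT'.st
        omega

lemma step1 {c : Vtx} {a b : ℕ} (hab : a + 2 < b) {ε : Bool} {F : Set Edg} {σ : St} {T : ℕ}
    (h : Leg ε F c a b σ T) : ∃ σ' T', InLeg (if ε = true then F else DS F) c (a + 1) (b - 1) σ' T' ∧
      (∀ e ∈ Exm (if ε = true then F else DS F) σ' T', ∃ e' ∈ Exm F σ T, lv (src e') (src e) ≤ 1) ∧
      r1 c a b ε F σ σ' := by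
  obtain ⟨b', rfl⟩ : ∃ b', b = b' + 1 := ⟨b - 1, by omega⟩
  rw [Nat.add_sub_cancel]
  have hab' : a + 1 < b' := by omega
  have hab2 : (a : ℤ) + 1 < b' := by exact_mod_cast hab'
  unfold Leg at h
  unfold r1
  by_cases hε : ε = true
  · rw [if_pos hε] at h
    simp only [if_pos hε]
    obtain ⟨s, t, hst, hleg⟩ := inleg_of (F := F) (c := c) (a := a + 1) (b := b') hab' (ρ := σ)
      (n := T) (by have := h.st; push_cast at this; omega)
      (by have := h.en; push_cast; omega)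
    refine ⟨orb F σ s, t, hleg, fun e he => ⟨e, exm_sub hst he, by rw [lv_self]; norm_num⟩,
      T, s, h, ?_, rfl⟩
    have := hleg.pos
    omega
  · rw [if_neg hε] at h
    simp only [if_neg hε]
    have h1 := lf_th c (orb F σ T)
    have h2 := lf_th c σ
    obtain ⟨s, t, hst, hleg⟩ := inleg_of (F := DS F) (c := c) (a := a + 1) (b := b') hab'
      (ρ := th (orb F σ T)) (n := T) (by have := h.en; push_cast at this; omega)
      (by
        rw [(tht F σ T T le_rfl).1, Nat.sub_self, orb_zero]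
        have := h.st
        push_cast
        omega)
    have hpos := hleg.pos
    refine ⟨orb (DS F) (th (orb F σ T)) s, t, hleg, fun e he => ?_, T, T - s, h, by omega,
      Nat.sub_le _ _, (tht F σ T s (by omega)).1⟩
    have h3 := exm_sub hst he
    rw [(tht F σ T T le_rfl).2, Nat.sub_self, orb_zero, mem_image] at h3
    obtain ⟨e', he', rfl⟩ := h3
    exact ⟨e', he', lv_dl e'⟩

/-! ### The second comparison -/

/-- the relation between the old and the new crossings -/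
def r2 (c : Vtx) (a b : ℕ) (ε : Bool) (F : Set Edg) (σ σ' : St) : Prop :=
  if ε = true then ∃ T s, InLeg F c a b σ T ∧ s < T ∧ σ' = orb F σ s
  else ∃ T u, InLeg (DS F) c a b σ T ∧ 0 < u ∧ u ≤ T ∧ th σ' = orb (DS F) σ u

lemma r2_inj (hR : St_restr) {c : Vtx} {a b : ℕ} (hab : a < b) {ε : Bool} {F : Set Edg}
    {σ τ σ' : St} (h1 : r2 c a b ε F σ σ') (h2 : r2 c a b ε F τ σ') : σ = τ := by
  unfold r2 at h1 h2
  split_ifs at h1 h2
  · obtain ⟨T, s, hT, hs, e⟩ := h1
    obtain ⟨T', s', hT', hs', e'⟩ := h2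
    exact ((hR F c a b σ T hab hT).2.2.2 τ T' s s' hT' hs hs' (by rw [← e, e'])).1
  · obtain ⟨T, u, hT, hu, huT, e⟩ := h1
    obtain ⟨T', u', hT', hu', huT', e'⟩ := h2
    have h3 : orb (DS F) σ u = orb (DS F) τ u' := by rw [← e, e']
    rcases le_total u u' with h | h
    · have h4 := orb_meet h h3
      rcases Nat.eq_zero_or_pos (u' - u) with h5 | h5
      · rw [h5, orb_zero] at h4
        exact h4
      · exfalso
        have h6 := hT'.mid (u' - u) h5 (by omega)
        rw [← h4] at h6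
        have h7 := hT.st
        omega
    · have h4 := orb_meet h h3.symm
      rcases Nat.eq_zero_or_pos (u - u') with h5 | h5
      · rw [h5, orb_zero] at h4
        exact h4.symm
      · exfalso
        have h6 := hT.mid (u - u') h5 (by omega)
        rw [← h4] at h6
        have h7 := hT'.st
        omega

lemma step2 {c : Vtx} {a b : ℕ} (hab : a + 2 < b) {ε : Bool} {F : Set Edg} {σ : St} {T : ℕ}
    (h : InLeg (if ε = true then F else DS F) c a b σ T) :
    ∃ σ' T', Leg ε F c (a + 1) (b - 1) σ' T' ∧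
      (∀ e ∈ Exm F σ' T', ∃ e' ∈ Exm (if ε = true then F else DS F) σ T,
        lv (src e') (src e) ≤ 1) ∧ r2 c a b ε F σ σ' := by
  obtain ⟨b', rfl⟩ : ∃ b', b = b' + 1 := ⟨b - 1, by omega⟩
  rw [Nat.add_sub_cancel]
  have hab' : a + 1 < b' := by omega
  have hab2 : (a : ℤ) + 1 < b' := by exact_mod_cast hab'
  unfold Leg r2
  by_cases hε : ε = true
  · rw [if_pos hε] at h
    simp only [if_pos hε]
    obtain ⟨s, t, hst, hleg⟩ := inleg_of (F := F) (c := c) (a := a + 1) (b := b') hab' (ρ := σ)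
      (n := T) (by have := h.st; push_cast at this; omega)
      (by have := h.en; push_cast; omega)
    refine ⟨orb F σ s, t, hleg, fun e he => ⟨e, exm_sub hst he, by rw [lv_self]; norm_num⟩,
      T, s, h, ?_, rfl⟩
    have := hleg.pos
    omega
  · rw [if_neg hε] at h
    simp only [if_neg hε]
    obtain ⟨τ, hτ⟩ : ∃ τ, τ = thi (orb (DS F) σ T) := ⟨_, rfl⟩
    have hσ : σ = th (orb F τ T) := by
      have h1 := (tht F τ T T le_rfl).1
      rw [Nat.sub_self, orb_zero, hτ, th_thi] at h1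
      exact (orb_inj h1).symm.trans (by rw [hτ])
    have horb : ∀ s ≤ T, orb (DS F) σ s = th (orb F τ (T - s)) := by
      intro s hs
      rw [hσ]
      exact (tht F τ T s hs).1
    have hExm : Exm (DS F) σ T = (Exm F τ T).image dl := by
      rw [hσ]
      have h1 := (tht F τ T T le_rfl).2
      rw [Nat.sub_self, orb_zero] at h1
      exact h1
    have h1 := lf_th c (orb F τ T)
    rw [← hσ] at h1
    have h2 := lf_th c τ
    have h3 := horb T le_rfl
    rw [Nat.sub_self, orb_zero] at h3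
    rw [← h3] at h2
    obtain ⟨s, t, hst, hleg⟩ := outleg_of (F := F) (c := c) (a := a + 1) (b := b') hab'
      (ρ := τ) (n := T) (by have := h.en; push_cast; omega)
      (by have := h.st; push_cast at this; omega)
    have hpos := hleg.pos
    refine ⟨orb F τ s, t, hleg, fun e he => ?_, T, T - s, h, by omega,
      Nat.sub_le _ _, ?_⟩
    · refine ⟨dl e, ?_, ?_⟩
      · rw [hExm]
        exact mem_image_of_mem _ (exm_sub hst he)
      · rw [lv_comm']
        exact lv_dl e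
    · rw [horb (T - s) (Nat.sub_le _ _)]
      congr 2
      omega

end C1

open C1

theorem sh1 (hB : St_basic) (hR : St_restr) (hf : St_fin) : St_SH1 := by
  intro K ε c a b ω ha hab
  refine ncard_rel (fun σ σ' => ∀ i, r1 c a b (ε i) (ω i) (σ i) (σ' i)) ?_ ?_ ?_
  · rintro σ ⟨T, hT, hsep⟩
    choose σ' T' h1 h2 h3 using fun i => step1 hab (hT i)
    refine ⟨σ', ⟨T', h1, fun i i' hii => ?_⟩, h3⟩
    rw [Finset.disjoint_left]
    intro e he he'
    obtain ⟨e1, he1, hd1⟩ := h2 i e he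
    obtain ⟨e2, he2, hd2⟩ := h2 i' e he'
    have h4 := hsep i i' hii e1 he1 e2 he2
    have h5 := lv_tri (src e1) (src e) (src e2)
    rw [lv_comm'] at hd2
    push_cast at h4
    omega
  · intro σ τ σ' h1 h2
    funext i
    exact r1_inj hR (by omega) (h1 i) (h2 i)
  · obtain ⟨A, hA⟩ := hf c (b - 1)
    refine (Set.Finite.pi' (t := fun _ : Fin K => (↑A : Set St)) fun _ => A.finite_toSet).subset ?_
    rintro σ ⟨T, hT, -⟩ i
    exact hA (swt ε ω i) (a + 1) (by omega) ⟨T i, hT i⟩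

theorem sh2 (hB : St_basic) (hR : St_restr) (hf : St_fin) : St_SH2 := by
  intro K ε c a b ω ha hab
  refine ncard_rel (fun σ σ' => ∀ i, r2 c a b (ε i) (ω i) (σ i) (σ' i)) ?_ ?_ ?_
  · rintro σ ⟨T, hT, hsep⟩
    have hT' : ∀ i, InLeg (if ε i = true then ω i else DS (ω i)) c a b (σ i) (T i) := by
      intro i
      have := hT i
      simpa [Leg, swt] using this
    choose σ' T' h1 h2 h3 using fun i => step2 hab (hT' i)
    refine ⟨σ', ⟨T', h1, fun i i' hii => ?_⟩, h3⟩
    intro e he e' he'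
    obtain ⟨e1, he1, hd1⟩ := h2 i e he
    obtain ⟨e2, he2, hd2⟩ := h2 i' e' he'
    have h4 := hsep i i' hii e1 he1 e2 he2
    have h5 := lv_tri (src e1) (src e) (src e2)
    have h6 := lv_tri (src e) (src e') (src e2)
    rw [lv_comm'] at hd2
    push_cast at h4 ⊢
    omega
  · intro σ τ σ' h1 h2
    funext i
    exact r2_inj hR (by omega) (h1 i) (h2 i)
  · obtain ⟨A, hA⟩ := hf c (b - 1)
    refine (Set.Finite.pi' (t := fun _ : Fin K => (↑A : Set St) ∪
      {σ : St | lf c (face σ) < 2 * ((a + 1 : ℕ) : ℤ)}) fun _ =>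
      A.finite_toSet.union (fin_states c (a + 1))).subset ?_
    rintro σ ⟨T, hT, -⟩ i
    have h1 := hT i
    unfold Leg at h1
    split_ifs at h1
    · exact Or.inl (hA (ω i) (a + 1) (by omega) ⟨T i, h1⟩)
    · exact Or.inr h1.st

end Pool.Agent.N948.IX
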