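import Pool.Agent.N948.IX.Defs

/-!
# Project IX (helper948), part PS: the path sum identity

By helper232.
-/

set_option autoImplicit false

namespace Pool.Agent.N948.IX.PS

open H974 Finset H984P

/-! ### The probability of a cylinder -/

section cyl

variable {E : Type} [DecidableEq E]

theorem cyl (U I O : Finset E) (hI : I ⊆ U) :
    Pr (fun _ => (1/2 : ℝ)) U (fun F => ∀ e ∈ I, (e ∈ F ↔ e ∈ O)) = (1/2 : ℝ) ^ I.card := by
  rw [Pr_local (S' := I) hI]
  · unfold Pr Ex
    rw [Finset.sum_eq_single (I ∩ O)]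
    · beta_reduce
      rw [ind_of]
      · rw [Finset.prod_const, Finset.prod_const, mul_one]
        have h1 : (1 : ℝ) - 1 / 2 = 1 / 2 := by norm_num
        rw [h1, ← pow_add]
        congr 1
        have := Finset.card_sdiff_add_card_inter I (I ∩ O)
        rw [Finset.inter_eq_right.2 Finset.inter_subset_left] at this
        omega
      · intro e he
        simp [he]
    · intro F hF hne
      beta_reduce
      rw [ind_not_of, mul_zero]
      intro h
      apply hne
      ext e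
      rw [Finset.mem_powerset] at hF
      rw [Finset.mem_inter]
      constructor
      · intro he
        exact ⟨hF he, (h e (hF he)).1 he⟩
      · rintro ⟨h1, h2⟩
        exact (h e h1).2 h2
    · intro h
      exact absurd (Finset.mem_powerset.2 Finset.inter_subset_left) h
  · intro F _
    constructor
    · intro h e he
      rw [Finset.mem_inter]
      exact ⟨fun h1 => (h e he).1 h1.1, fun h1 => ⟨(h e he).2 h1, he⟩⟩
    · intro h e he
      have := h e he
      rw [Finset.mem_inter] at this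
      exact ⟨fun h1 => this.1 ⟨h1, he⟩, fun h1 => (this.2 h1).1⟩

/-- prescriptions on disjoint sets of edges -/
theorem cyls {K : ℕ} (φ : Fin K → Edg → E) (hφ : ∀ i i' e e', φ i e = φ i' e' → e = e')
    (U : Finset E) (p : Fin K → Finset Edg × Finset Edg)
    (hU : ∀ i, ∀ e ∈ (p i).1, φ i e ∈ U) (hd : ∀ i i', i ≠ i' → Disjoint (p i).1 (p i').1) :
    Pr (fun _ => (1/2 : ℝ)) U (fun F => ∀ i, ∀ e ∈ (p i).1, (φ i e ∈ F ↔ e ∈ (p i).2)) =
      (1/2 : ℝ) ^ (∑ i, (p i).1.card) := by
  classical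
  set I : Finset E := univ.biUnion (fun i => (p i).1.image (φ i)) with hIdef
  set O : Finset E := univ.biUnion (fun i => ((p i).1 ∩ (p i).2).image (φ i)) with hOdef
  have hmI : ∀ x, x ∈ I ↔ ∃ i, ∃ e ∈ (p i).1, φ i e = x := by
    intro x; simp [hIdef]
  have hmO : ∀ i, ∀ e ∈ (p i).1, (φ i e ∈ O ↔ e ∈ (p i).2) := by
    intro i e he
    simp only [hOdef, mem_biUnion, mem_univ, true_and, mem_image, mem_inter]
    constructor
    · rintro ⟨i', e', ⟨h1, h2⟩, h3⟩
      have h4 := hφ _ _ _ _ h3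
      subst h4
      by_cases hii : i' = i
      · subst hii; exact h2
      · exact absurd he (Finset.disjoint_left.1 (hd _ _ hii) h1)
    · intro h
      exact ⟨i, e, ⟨he, h⟩, rfl⟩
  have hcard : I.card = ∑ i, (p i).1.card := by
    rw [hIdef, Finset.card_biUnion]
    · apply Finset.sum_congr rfl
      intro i _
      exact Finset.card_image_of_injOn fun a _ b _ h => hφ _ _ _ _ h
    · intro i _ i' _ hii
      show Disjoint ((p i).1.image (φ i)) ((p i').1.image (φ i'))
      rw [Finset.disjoint_left]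
      intro x hx hx'
      rw [Finset.mem_image] at hx hx'
      obtain ⟨e, he, rfl⟩ := hx
      obtain ⟨e', he', h⟩ := hx'
      have h4 := hφ _ _ _ _ h
      subst h4
      exact Finset.disjoint_left.1 (hd _ _ hii) he he'
  rw [← hcard, ← cyl U I O]
  · apply Pr_congr
    intro F _
    constructor
    · intro h x hx
      obtain ⟨i, e, he, rfl⟩ := (hmI x).1 hx
      rw [hmO i e he]
      exact h i e he
    · intro h i e he
      rw [← hmO i e he]
      exact h _ ((hmI _).2 ⟨i, e, he, rfl⟩)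
  · intro x hx
    obtain ⟨i, e, he, rfl⟩ := (hmI x).1 hx
    exact hU i e he

end cyl

/-! ### Patterns -/

theorem ge_sub (c : Vtx) (a b : ℕ) (e : Edg) (he : e ∈ Ge c a b) : e ∈ GeF c a b := by
  obtain ⟨x, y, d⟩ := e
  obtain ⟨⟨h1, h2⟩, h3, h4⟩ := he
  unfold GeF
  rw [Finset.mem_filter]
  refine ⟨?_, h1, h3⟩
  unfold lv at h2 h4
  rw [max_le_iff, abs_le, abs_le] at h2 h4
  cases d
  · simp only [src_mk, tgt_false] at h2 h4
    rw [mem_RE_false]
    refine ⟨?_, ?_, ?_, ?_⟩ <;> linarith [h2.1.1, h2.1.2, h2.2.1, h2.2.2, h4.1.1, h4.1.2, h4.2.1, h4.2.2]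
  · simp only [src_mk, tgt_true] at h2 h4
    rw [mem_RE_true]
    refine ⟨?_, ?_, ?_, ?_⟩ <;> linarith [h2.1.1, h2.1.2, h2.2.1, h2.2.2, h4.1.1, h4.1.2, h4.2.1, h4.2.2]

/-- the configurations agree on the examined edges -/
theorem agree (hc : St_congr) {F F' : Set Edg} {s0 : St} {T : ℕ}
    (h : ∀ e ∈ Exm F s0 T, (e ∈ F ↔ e ∈ F')) : ∀ s ≤ T, orb F' s0 s = orb F s0 s :=
  hc F F' s0 T fun s hs => h _ (mem_Exm.2 ⟨s, hs, rfl⟩)

theorem exm_eq {F F' : Set Edg} {s0 : St} {T : ℕ} (h : ∀ s ≤ T, orb F' s0 s = orb F s0 s) :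
    Exm F' s0 T = Exm F s0 T := by
  unfold Exm
  apply Finset.image_congr
  intro s hs
  have : s < T := by simpa using hs
  simp only [h s this.le]

theorem leg_eq {F F' : Set Edg} {c : Vtx} {a b : ℕ} {s0 : St} {T : ℕ}
    (h : ∀ s ≤ T, orb F' s0 s = orb F s0 s) (hl : InLeg F c a b s0 T) : InLeg F' c a b s0 T := by
  refine ⟨hl.pos, hl.st, fun s h0 h1 => ?_, ?_⟩
  · rw [h s h1.le]; exact hl.mid s h0 h1
  · rw [h T le_rfl]; exact hl.en

open Classical in
/-- the patterns of a starting state -/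
noncomputable def Pat (c : Vtx) (a b : ℕ) (s0 : St) : Finset (Finset Edg × Finset Edg) :=
  ((GeF c a b).powerset ×ˢ (GeF c a b).powerset).filter (fun q => q.2 ⊆ q.1 ∧
    ∃ T, InLeg (↑q.2 : Set Edg) c a b s0 T ∧ Exm (↑q.2 : Set Edg) s0 T = q.1)

theorem pat_sub {c : Vtx} {a b : ℕ} {s0 : St} {q : Finset Edg × Finset Edg}
    (hq : q ∈ Pat c a b s0) : q.1 ⊆ GeF c a b := by
  classical
  unfold Pat at hq
  rw [Finset.mem_filter, Finset.mem_product, Finset.mem_powerset] at hq
  exact hq.1.1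

open Classical in
theorem pat_of (hc : St_congr) (hB : St_basic) {G : Set Edg} {c : Vtx} {a b : ℕ} (hab : a < b)
    {s0 : St} {T : ℕ} (hl : InLeg G c a b s0 T) :
    (Exm G s0 T, (Exm G s0 T).filter (fun e => e ∈ G)) ∈ Pat c a b s0 := by
  set A := Exm G s0 T with hA
  set O := A.filter (fun e => e ∈ G) with hO
  have h1 : ∀ e ∈ Exm G s0 T, (e ∈ G ↔ e ∈ (↑O : Set Edg)) := by
    intro e he
    rw [Finset.mem_coe, hO, Finset.mem_filter]
    exact ⟨fun h => ⟨he, h⟩, fun h => h.2⟩
  have h2 := agree hc h1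
  have hAG : A ⊆ GeF c a b := by
    intro e he
    rw [hA, mem_Exm] at he
    obtain ⟨s, hs, rfl⟩ := he
    exact ge_sub c a b _ ((hB G c a b s0 T hab hl).2.2.2.1 s hs)
  have hOA : O ⊆ A := Finset.filter_subset _ _
  unfold Pat
  rw [Finset.mem_filter, Finset.mem_product, Finset.mem_powerset, Finset.mem_powerset]
  exact ⟨⟨hAG, hOA.trans hAG⟩, hOA, T, leg_eq h2 hl, exm_eq h2⟩

open Classical in
theorem of_pat (hc : St_congr) {G : Set Edg} {c : Vtx} {a b : ℕ} {s0 : St}
    {q : Finset Edg × Finset Edg} (hq : q ∈ Pat c a b s0) (hG : ∀ e ∈ q.1, (e ∈ G ↔ e ∈ q.2)) :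
    ∃ T, InLeg G c a b s0 T ∧ q = (Exm G s0 T, (Exm G s0 T).filter (fun e => e ∈ G)) := by
  unfold Pat at hq
  rw [Finset.mem_filter] at hq
  obtain ⟨_, hsub, T, hl, hE⟩ := hq
  have h1 : ∀ e ∈ Exm (↑q.2 : Set Edg) s0 T, (e ∈ (↑q.2 : Set Edg) ↔ e ∈ G) := by
    intro e he
    rw [hE] at he
    rw [hG e he, Finset.mem_coe]
  have h2 := agree hc h1
  have h3 := exm_eq h2
  refine ⟨T, leg_eq h2 hl, ?_⟩
  rw [h3, hE]
  ext1
  · rfl
  · ext e
    simp only [Finset.mem_filter]
    constructor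
    · intro he
      exact ⟨hsub he, (hG e (hsub he)).2 he⟩
    · rintro ⟨h4, h5⟩
      exact (hG e h4).1 h5

open Classical in
/-- the families of patterns with disjoint sets -/
noncomputable def Ps {K : ℕ} (c : Vtx) (a b : ℕ) (σ : Fin K → St) :
    Finset (Fin K → Finset Edg × Finset Edg) :=
  (Fintype.piFinset fun i => Pat c a b (σ i)).filter
    (fun p => ∀ i i', i ≠ i' → Disjoint (p i).1 (p i').1)

theorem ind_tup (hc : St_congr) (hB : St_basic) (hR : St_restr) {K : ℕ} {c : Vtx} {a b : ℕ}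
    (hab : a < b) (ω : Fin K → Set Edg) (σ : Fin K → St) :
    ind (Tup c a b ω σ) =
      ∑ p ∈ Ps c a b σ, ind (∀ i, ∀ e ∈ (p i).1, (e ∈ ω i ↔ e ∈ (p i).2)) := by
  classical
  by_cases h : Tup c a b ω σ
  · rw [ind_of h]
    obtain ⟨T, hT, hd⟩ := h
    set p : Fin K → Finset Edg × Finset Edg := fun i =>
      (Exm (ω i) (σ i) (T i), (Exm (ω i) (σ i) (T i)).filter (fun e => e ∈ ω i)) with hp
    rw [Finset.sum_eq_single p]
    · rw [ind_of]
      intro i e he
      simp only [hp, Finset.mem_filter] at he ⊢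
      exact ⟨fun h => ⟨he, h⟩, fun h => h.2⟩
    · intro q hq hne
      apply ind_not_of
      intro hq2
      apply hne
      funext i
      unfold Ps at hq
      rw [Finset.mem_filter, Fintype.mem_piFinset] at hq
      obtain ⟨T', hT', hq3⟩ := of_pat hc (hq.1 i) (hq2 i)
      have : T' = T i := (hR (ω i) c a b (σ i) (T i) hab (hT i)).1 T' hT'
      subst this
      rw [hq3]
    · intro hnp
      exfalso
      apply hnp
      unfold Ps
      rw [Finset.mem_filter, Fintype.mem_piFinset]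
      exact ⟨fun i => pat_of hc hB hab (hT i), hd⟩
  · rw [ind_not_of h]
    symm
    apply Finset.sum_eq_zero
    intro q hq
    apply ind_not_of
    intro hq2
    apply h
    unfold Ps at hq
    rw [Finset.mem_filter, Fintype.mem_piFinset] at hq
    choose T hT hT2 using fun i => of_pat hc (hq.1 i) (hq2 i)
    refine ⟨T, hT, fun i i' hii => ?_⟩
    have := hq.2 i i' hii
    rw [hT2 i, hT2 i'] at this
    exact this

/-- the common value of both sides -/
theorem pr_tup (hc : St_congr) (hB : St_basic) (hR : St_restr) {K : ℕ} {c : Vtx} {a b : ℕ}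
    (hab : a < b) (σ : Fin K → St) {E : Type} [DecidableEq E] (φ : Fin K → Edg → E)
    (hφ : ∀ i i' e e', φ i e = φ i' e' → e = e') (U : Finset E)
    (hU : ∀ i, ∀ e ∈ GeF c a b, φ i e ∈ U) :
    Pr (fun _ => (1/2 : ℝ)) U (fun F => Tup c a b (fun i => {e | φ i e ∈ F}) σ) =
      ∑ p ∈ Ps c a b σ, (1/2 : ℝ) ^ (∑ i, (p i).1.card) := by
  unfold Pr
  simp_rw [ind_tup hc hB hR hab]
  rw [Ex_sum]
  apply Finset.sum_congr rfl
  intro p hp
  unfold Ps at hp
  rw [Finset.mem_filter, Fintype.mem_piFinset] at hp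
  rw [← cyls φ hφ U p _ hp.2]
  · rfl
  · intro i e he
    apply hU
    exact pat_sub (hp.1 i) he

/-- PS. The path sum identity. -/
theorem ps (hc : St_congr) (hB : St_basic) (hR : St_restr) : St_PS := by
  intro m K j c a b σ S hab hS
  have h1 := pr_tup hc hB hR hab σ (fun i e => (j i, e))
    (fun i i' e e' h => (Prod.ext_iff.1 h).2) ((Finset.univ : Finset (Fin m)) ×ˢ S)
    (fun i e he => Finset.mem_product.2 ⟨Finset.mem_univ _, hS he⟩)
  have h2 := pr_tup hc hB hR hab σ (fun _ e => e) (fun i i' e e' h => h) S (fun i e he => hS he)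
  exact h1.trans h2.symm

end Pool.Agent.N948.IX.PS

namespace Pool.Agent.N948.IX

/-- PS. The path sum identity. -/
theorem ps (hc : St_congr) (hB : St_basic) (hR : St_restr) : St_PS := PS.ps hc hB hR

end Pool.Agent.N948.IX
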