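import Pool.Agent.N948.IX.Cut
import Pool.Agent.N948.IX.PS

/-!
# Project IX (helper948), part C2: the path sum identity for general witness sets, the law of the
shifted slices

By helper645.
-/

set_option autoImplicit false

namespace Pool.Agent.N948.IX.C2

open H974 Finset H984P

/-! ### The general path sum identity -/

section gps

variable {K : ℕ} (S : Finset Edg) (W : Fin K → Set Edg → Finset Edg → Prop)

open Classical in
/-- the patterns of type `i` -/
noncomputable def Pat (i : Fin K) : Finset (Finset Edg × Finset Edg) :=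
  (S.powerset ×ˢ S.powerset).filter (fun q => q.2 ⊆ q.1 ∧ W i (↑q.2 : Set Edg) q.1)

variable {S W}

theorem mem_Pat {i : Fin K} {q : Finset Edg × Finset Edg} :
    q ∈ Pat S W i ↔ (q.1 ⊆ S ∧ q.2 ⊆ S) ∧ q.2 ⊆ q.1 ∧ W i (↑q.2 : Set Edg) q.1 := by
  classical
  unfold Pat
  rw [Finset.mem_filter, Finset.mem_product, Finset.mem_powerset, Finset.mem_powerset]

open Classical in
/-- the families of patterns -/
noncomputable def Ps (S : Finset Edg) (W : Fin K → Set Edg → Finset Edg → Prop)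
    (R : (Fin K → Finset Edg) → Prop) : Finset (Fin K → Finset Edg × Finset Edg) :=
  (Fintype.piFinset fun i => Pat S W i).filter (fun p => R fun i => (p i).1)

theorem mem_Ps {R : (Fin K → Finset Edg) → Prop} {p : Fin K → Finset Edg × Finset Edg} :
    p ∈ Ps S W R ↔ (∀ i, p i ∈ Pat S W i) ∧ R fun i => (p i).1 := by
  classical
  unfold Ps
  rw [Finset.mem_filter, Fintype.mem_piFinset]

theorem ind_ex (h1 : ∀ i F A, W i F A → A ⊆ S)
    (h2 : ∀ i F G A, W i F A → (∀ e ∈ A, (e ∈ F ↔ e ∈ G)) → W i G A)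
    (h3 : ∀ i F A B, W i F A → W i F B → A = B) (R : (Fin K → Finset Edg) → Prop)
    (ω : Fin K → Set Edg) :
    ind (∃ A : Fin K → Finset Edg, (∀ i, W i (ω i) (A i)) ∧ R A) =
      ∑ p ∈ Ps S W R, ind (∀ i, ∀ e ∈ (p i).1, (e ∈ ω i ↔ e ∈ (p i).2)) := by
  classical
  by_cases h : ∃ A : Fin K → Finset Edg, (∀ i, W i (ω i) (A i)) ∧ R A
  · rw [ind_of h]
    obtain ⟨A, hA, hR⟩ := h
    set p : Fin K → Finset Edg × Finset Edg := fun i => (A i, (A i).filter (fun e => e ∈ ω i))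
      with hp
    rw [Finset.sum_eq_single p]
    · rw [ind_of]
      intro i e he
      simp only [hp, Finset.mem_filter] at he ⊢
      exact ⟨fun h => ⟨he, h⟩, fun h => h.2⟩
    · intro q hq hne
      apply ind_not_of
      intro hq2
      apply hne
      funext i
      obtain ⟨hq3, -⟩ := mem_Ps.1 hq
      obtain ⟨-, h5, h6⟩ := mem_Pat.1 (hq3 i)
      have h7 : W i (ω i) (q i).1 := h2 i _ _ _ h6 fun e he => (hq2 i e he).symm
      have h8 : (q i).1 = A i := h3 i _ _ _ h7 (hA i)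
      refine Prod.ext h8 ?_
      ext e
      simp only [hp, Finset.mem_filter]
      constructor
      · intro he
        have he1 := h5 he
        exact ⟨by rw [← h8]; exact he1, (hq2 i e he1).2 he⟩
      · rintro ⟨h9, h10⟩
        rw [← h8] at h9
        exact (hq2 i e h9).1 h10
    · intro hnp
      exfalso
      apply hnp
      rw [mem_Ps]
      refine ⟨fun i => ?_, hR⟩
      rw [mem_Pat]
      have h4 := h1 i _ _ (hA i)
      have h5 : (A i).filter (fun e => e ∈ ω i) ⊆ A i := Finset.filter_subset _ _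
      refine ⟨⟨h4, h5.trans h4⟩, h5, ?_⟩
      refine h2 i _ _ _ (hA i) fun e he => ?_
      simp only [hp, Finset.coe_filter, Set.mem_ofPred_eq]
      exact ⟨fun h => ⟨he, h⟩, fun h => h.2⟩
  · rw [ind_not_of h]
    symm
    apply Finset.sum_eq_zero
    intro q hq
    apply ind_not_of
    intro hq2
    apply h
    obtain ⟨hq3, hq4⟩ := mem_Ps.1 hq
    refine ⟨fun i => (q i).1, fun i => ?_, hq4⟩
    obtain ⟨-, h5, h6⟩ := mem_Pat.1 (hq3 i)
    exact h2 i _ _ _ h6 fun e he => (hq2 i e he).symm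

theorem pr_ex (h1 : ∀ i F A, W i F A → A ⊆ S)
    (h2 : ∀ i F G A, W i F A → (∀ e ∈ A, (e ∈ F ↔ e ∈ G)) → W i G A)
    (h3 : ∀ i F A B, W i F A → W i F B → A = B) (R : (Fin K → Finset Edg) → Prop)
    (h4 : ∀ A, R A → ∀ i i', i ≠ i' → Disjoint (A i) (A i'))
    {E : Type} [DecidableEq E] (φ : Fin K → Edg → E)
    (hφ : ∀ i i' e e', φ i e = φ i' e' → e = e') (U : Finset E)
    (hU : ∀ i, ∀ e ∈ S, φ i e ∈ U) :
    Pr (fun _ => (1/2 : ℝ)) U (fun F => ∃ A : Fin K → Finset Edg,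
      (∀ i, W i {e | φ i e ∈ F} (A i)) ∧ R A) =
      ∑ p ∈ Ps S W R, (1/2 : ℝ) ^ (∑ i, (p i).1.card) := by
  unfold Pr
  simp_rw [ind_ex h1 h2 h3 R]
  rw [Ex_sum]
  apply Finset.sum_congr rfl
  intro p hp
  obtain ⟨hp1, hp2⟩ := mem_Ps.1 hp
  rw [← PS.cyls φ hφ U p _ (h4 _ hp2)]
  · rfl
  · intro i e he
    apply hU
    exact (mem_Pat.1 (hp1 i)).1.1 he

end gps

/-! ### The law of the shifted slices -/

theorem Ex_half {E : Type} [DecidableEq E] (S : Finset E) (f : Finset E → ℝ) :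
    Ex (fun _ => (1/2 : ℝ)) S f = ∑ F ∈ S.powerset, (1/2 : ℝ) ^ S.card * f F := by
  unfold Ex
  refine Finset.sum_congr rfl fun F hF => ?_
  rw [Finset.mem_powerset] at hF
  rw [Finset.prod_const, Finset.prod_const]
  have h1 : (1 : ℝ) - 1 / 2 = 1 / 2 := by norm_num
  rw [h1, ← pow_add]
  congr 2
  have := Finset.card_sdiff_add_card_inter S F
  rw [Finset.inter_eq_right.2 hF] at this
  omega

theorem Ex_flip {E : Type} [DecidableEq E] (S O : Finset E) (hO : O ⊆ S) (f : Finset E → ℝ) :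
    Ex (fun _ => (1/2 : ℝ)) S (fun F => f (symmDiff F O)) = Ex (fun _ => (1/2 : ℝ)) S f := by
  rw [Ex_half, Ex_half]
  have hm : ∀ F ∈ S.powerset, symmDiff F O ∈ S.powerset := by
    intro F hF
    rw [Finset.mem_powerset] at hF ⊢
    intro e he
    rw [Finset.mem_symmDiff] at he
    rcases he with ⟨h, _⟩ | ⟨h, _⟩
    · exact hF h
    · exact hO h
  refine Finset.sum_nbij' (fun F => symmDiff F O) (fun F => symmDiff F O) hm hm ?_ ?_ ?_
  · intro F _
    exact symmDiff_symmDiff_cancel_right _ _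
  · intro F _
    exact symmDiff_symmDiff_cancel_right _ _
  · intro F _
    rfl

/-- moving the edges of the slices of type `false` -/
def mv {K : ℕ} (ε : Fin K → Bool) : (Fin K × Edg) ↪ (Fin K × Edg) where
  toFun x := (x.1, if ε x.1 = true then x.2 else dl.symm x.2)
  inj' := by
    rintro ⟨i, e⟩ ⟨i', e'⟩ h
    simp only [Prod.mk.injEq] at h
    obtain ⟨rfl, h⟩ := h
    by_cases hi : ε i = true
    · rw [if_pos hi, if_pos hi] at h
      rw [h]
    · rw [if_neg hi, if_neg hi] at h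
      rw [dl.symm.injective h]

theorem Bx_dls {c : Vtx} {b : ℕ} {e : Edg} (he : e ∈ Bx c b) : dl.symm e ∈ Bx c (b + 2) := by
  obtain ⟨x, y, d⟩ := e
  obtain ⟨h1, h2⟩ := he
  unfold lv at h1 h2
  rw [max_le_iff, abs_le, abs_le] at h1 h2
  cases d
  · simp only [src_mk, tgt_false] at h1 h2
    rw [dls_f]
    show lv c (src (x, y + 1, true)) ≤ _ ∧ lv c (tgt (x, y + 1, true)) ≤ _
    unfold lv
    rw [max_le_iff, abs_le, abs_le, max_le_iff, abs_le, abs_le]
    simp only [src_mk, tgt_true]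
    push_cast
    refine ⟨⟨⟨?_, ?_⟩, ?_, ?_⟩, ⟨?_, ?_⟩, ?_, ?_⟩ <;>
      linarith [h1.1.1, h1.1.2, h1.2.1, h1.2.2, h2.1.1, h2.1.2, h2.2.1, h2.2.2]
  · simp only [src_mk, tgt_true] at h1 h2
    rw [dls_t]
    show lv c (src (x + 1, y, false)) ≤ _ ∧ lv c (tgt (x + 1, y, false)) ≤ _
    unfold lv
    rw [max_le_iff, abs_le, abs_le, max_le_iff, abs_le, abs_le]
    simp only [src_mk, tgt_false]
    push_cast
    refine ⟨⟨⟨?_, ?_⟩, ?_, ?_⟩, ⟨?_, ?_⟩, ?_, ?_⟩ <;>
      linarith [h1.1.1, h1.1.2, h1.2.1, h1.2.2, h2.1.1, h2.1.2, h2.2.1, h2.2.2]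

theorem Bx_mono {c : Vtx} {b b' : ℕ} (h : b ≤ b') : Bx c b ⊆ Bx c b' := by
  intro e he
  have h1 : (b : ℤ) ≤ b' := by exact_mod_cast h
  exact ⟨he.1.trans h1, he.2.trans h1⟩

theorem mem_DS {F : Set Edg} {e : Edg} : e ∈ DS F ↔ dl.symm e ∉ F := by
  unfold DS
  constructor
  · rintro ⟨x, hx, rfl⟩
    rwa [Equiv.symm_apply_apply]
  · intro h
    exact ⟨dl.symm e, h, Equiv.apply_symm_apply _ _⟩

end Pool.Agent.N948.IX.C2

namespace Pool.Agent.N948.IX

open H974 Finset H984P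

/-- The path sum identity for general witness sets. -/
theorem gps : St_GPS := by
  intro m K j S W R h1 h2 h3 h4
  have e1 := C2.pr_ex h1 h2 h3 R h4 (fun i e => (j i, e))
    (fun i i' e e' h => (Prod.ext_iff.1 h).2) ((Finset.univ : Finset (Fin m)) ×ˢ S)
    (fun i e he => Finset.mem_product.2 ⟨Finset.mem_univ _, he⟩)
  have e2 := C2.pr_ex h1 h2 h3 R h4 (fun _ e => e) (fun i i' e e' h => h) S (fun i e he => he)
  exact e1.trans e2.symm

/-- The law of the shifted slices. -/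
theorem shl : St_SHL := by
  classical
  intro K ε c b f hf S hS
  set B : Finset Edg := S.filter (fun e => e ∈ Bx c b) with hB
  have hBm : ∀ e, e ∈ B ↔ e ∈ Bx c b := by
    intro e
    rw [hB, Finset.mem_filter]
    exact ⟨fun h => h.2, fun h => ⟨by exact_mod_cast hS (C2.Bx_mono (by omega) h), h⟩⟩
  have hBS : B ⊆ S := Finset.filter_subset _ _
  set U1 : Finset (Fin K × Edg) := Finset.univ ×ˢ B with hU1
  have hU1m : ∀ i e, (i, e) ∈ U1 ↔ e ∈ Bx c b := by
    intro i e
    rw [hU1, Finset.mem_product]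
    simp only [Finset.mem_univ, true_and]
    exact hBm e
  have hU1S : U1 ⊆ Finset.univ ×ˢ S := Finset.product_subset_product (Finset.Subset.refl _) hBS
  -- the right hand side
  have hR : Ex (fun _ => (1/2 : ℝ)) ((Finset.univ : Finset (Fin K)) ×ˢ S)
      (fun F => f (fun i => sl F i)) = Ex (fun _ => (1/2 : ℝ)) U1 (fun F => f (fun i => sl F i)) := by
    apply Ex_local hU1S
    intro F _
    apply hf
    intro i
    ext e
    simp only [Set.mem_inter_iff, sl, Set.mem_ofPred_eq, Finset.mem_inter]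
    constructor
    · rintro ⟨h1, h2⟩
      exact ⟨⟨h1, (hU1m i e).2 h2⟩, h2⟩
    · rintro ⟨⟨h1, _⟩, h2⟩
      exact ⟨h1, h2⟩
  set φ := C2.mv ε with hφ
  have hφt : ∀ i e, ε i = true → φ (i, e) = (i, e) := by
    intro i e hi
    show (i, if ε i = true then e else dl.symm e) = (i, e)
    rw [if_pos hi]
  have hφf : ∀ i e, ¬ ε i = true → φ (i, e) = (i, dl.symm e) := by
    intro i e hi
    show (i, if ε i = true then e else dl.symm e) = (i, dl.symm e)
    rw [if_neg hi]
  have hU2S : U1.map φ ⊆ Finset.univ ×ˢ S := by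
    intro x hx
    rw [Finset.mem_map] at hx
    obtain ⟨⟨i, e⟩, hy, rfl⟩ := hx
    rw [hU1m] at hy
    rw [Finset.mem_product]
    refine ⟨Finset.mem_univ _, ?_⟩
    by_cases hi : ε i = true
    · rw [hφt i e hi]
      exact hBS ((hBm e).2 hy)
    · rw [hφf i e hi]
      exact_mod_cast hS (C2.Bx_dls hy)
  have hL : Ex (fun _ => (1/2 : ℝ)) ((Finset.univ : Finset (Fin K)) ×ˢ S)
      (fun F => f (swt ε (fun i => sl F i))) =
      Ex (fun _ => (1/2 : ℝ)) (U1.map φ) (fun F => f (swt ε (fun i => sl F i))) := by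
    apply Ex_local hU2S
    intro F _
    apply hf
    intro i
    ext e
    unfold swt
    by_cases hi : ε i = true
    · rw [if_pos hi, if_pos hi]
      simp only [Set.mem_inter_iff, sl, Set.mem_ofPred_eq, Finset.mem_inter]
      constructor
      · rintro ⟨h1, h2⟩
        refine ⟨⟨h1, ?_⟩, h2⟩
        rw [← hφt i e hi]
        exact Finset.mem_map_of_mem _ ((hU1m i e).2 h2)
      · rintro ⟨⟨h1, _⟩, h2⟩
        exact ⟨h1, h2⟩
    · rw [if_neg hi, if_neg hi]
      simp only [Set.mem_inter_iff, C2.mem_DS, sl, Set.mem_ofPred_eq, Finset.mem_inter]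
      constructor
      · rintro ⟨h1, h2⟩
        exact ⟨fun h => h1 h.1, h2⟩
      · rintro ⟨h1, h2⟩
        refine ⟨fun h => h1 ⟨h, ?_⟩, h2⟩
        rw [← hφf i e hi]
        exact Finset.mem_map_of_mem _ ((hU1m i e).2 h2)
  rw [hL, hR, Ex_map]
  set O : Finset (Fin K × Edg) := U1.filter (fun x => ¬ ε x.1 = true) with hO
  refine Eq.trans ?_ (C2.Ex_flip U1 O (Finset.filter_subset _ _) (fun F => f (fun i => sl F i)))
  apply Ex_congr
  intro F _
  apply hf
  intro i
  ext e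
  unfold swt
  by_cases hi : ε i = true
  · rw [if_pos hi]
    simp only [Set.mem_inter_iff, sl, Set.mem_ofPred_eq]
    constructor
    · rintro ⟨h1, h2⟩
      refine ⟨?_, h2⟩
      rw [← hφt i e hi, Finset.mem_map'] at h1
      rw [Finset.mem_symmDiff]
      refine Or.inl ⟨h1, fun h => ?_⟩
      exact (Finset.mem_filter.1 h).2 hi
    · rintro ⟨h1, h2⟩
      refine ⟨?_, h2⟩
      rw [← hφt i e hi, Finset.mem_map']
      rw [Finset.mem_symmDiff] at h1
      rcases h1 with ⟨h3, _⟩ | ⟨h3, _⟩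
      · exact h3
      · exact absurd hi (Finset.mem_filter.1 h3).2
  · rw [if_neg hi]
    simp only [Set.mem_inter_iff, C2.mem_DS, sl, Set.mem_ofPred_eq]
    constructor
    · rintro ⟨h1, h2⟩
      refine ⟨?_, h2⟩
      rw [← hφf i e hi, Finset.mem_map'] at h1
      rw [Finset.mem_symmDiff]
      exact Or.inr ⟨Finset.mem_filter.2 ⟨(hU1m i e).2 h2, hi⟩, h1⟩
    · rintro ⟨h1, h2⟩
      refine ⟨?_, h2⟩
      rw [← hφf i e hi, Finset.mem_map']
      rw [Finset.mem_symmDiff] at h1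
      rcases h1 with ⟨_, h3⟩ | ⟨_, h3⟩
      · exact absurd (Finset.mem_filter.2 ⟨(hU1m i e).2 h2, hi⟩) h3
      · exact h3

end Pool.Agent.N948.IX
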