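import Pool.Agent.N948.IX.Cut
import Pool.Agent.TH992.E.Prob
import Pool.Agent.W347.DPAA

/-!
# Project IX, part C3: factorial moments and the four-arm bound (helper271)
-/

set_option autoImplicit false

namespace Pool.Agent.N948.IX.C3

open H974 H906.Cyl H12S Finset H984P H342P
open Pool.Agent.H160R2.ML (KArm)

theorem okh : Ok (fun _ : Edg => (1/2 : ℝ)) := fun e => by constructor <;> norm_num

theorem lv_le {c v : Vtx} {k : ℤ} : lv c v ≤ k ↔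
    (c.1 - k ≤ v.1 ∧ v.1 ≤ c.1 + k) ∧ (c.2 - k ≤ v.2 ∧ v.2 ≤ c.2 + k) := by
  unfold lv
  rw [max_le_iff, abs_le, abs_le]
  constructor
  · rintro ⟨⟨h1, h2⟩, h3, h4⟩
    refine ⟨⟨?_, ?_⟩, ?_, ?_⟩ <;> linarith
  · rintro ⟨⟨h1, h2⟩, h3, h4⟩
    refine ⟨⟨?_, ?_⟩, ?_, ?_⟩ <;> linarith

theorem mem_blk {c : Vtx} {k : ℕ} {e : Edg} :
    e ∈ blk c k ↔ lv c (src e) ≤ k ∧ lv c (tgt e) ≤ k := by
  rw [lv_le, lv_le]
  obtain ⟨x, y, _ | _⟩ := e
  · simp only [blk, mem_RE_false, src_mk, tgt_false]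
    constructor
    · rintro ⟨h1, h2, h3, h4⟩
      refine ⟨⟨⟨?_, ?_⟩, ?_, ?_⟩, ⟨?_, ?_⟩, ?_, ?_⟩ <;> linarith
    · rintro ⟨⟨⟨h1, h2⟩, h3, h4⟩, ⟨h5, h6⟩, h7, h8⟩
      refine ⟨?_, ?_, ?_, ?_⟩ <;> linarith
  · simp only [blk, mem_RE_true, src_mk, tgt_true]
    constructor
    · rintro ⟨h1, h2, h3, h4⟩
      refine ⟨⟨⟨?_, ?_⟩, ?_, ?_⟩, ⟨?_, ?_⟩, ?_, ?_⟩ <;> linarith
    · rintro ⟨⟨⟨h1, h2⟩, h3, h4⟩, ⟨h5, h6⟩, h7, h8⟩
      refine ⟨?_, ?_, ?_, ?_⟩ <;> linarith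

theorem mem_GeF {c : Vtx} {a b : ℕ} {e : Edg} : e ∈ GeF c a b ↔ e ∈ Ge c a b := by
  have h : e ∈ GeF c a b ↔ e ∈ blk c b ∧ (a : ℤ) ≤ lv c (src e) ∧ (a : ℤ) ≤ lv c (tgt e) := by
    unfold GeF blk
    rw [Finset.mem_filter]
  rw [h, mem_blk]
  constructor
  · rintro ⟨⟨h1, h2⟩, h3, h4⟩
    exact ⟨⟨h3, h1⟩, h4, h2⟩
  · rintro ⟨⟨h3, h1⟩, h4, h2⟩
    exact ⟨⟨h1, h2⟩, h3, h4⟩

theorem lv_edge (c : Vtx) (e : Edg) :
    lv c (src e) ≤ lv c (tgt e) + 1 ∧ lv c (tgt e) ≤ lv c (src e) + 1 := by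
  have key : ∀ u v : Vtx, |u.1 - v.1| ≤ 1 → |u.2 - v.2| ≤ 1 → lv c u ≤ lv c v + 1 := by
    intro u v h1 h2
    unfold lv
    apply max_le
    · have h3 := le_max_left |v.1 - c.1| |v.2 - c.2|
      have h4 : |u.1 - c.1| ≤ |u.1 - v.1| + |v.1 - c.1| := by
        have := abs_add_le (u.1 - v.1) (v.1 - c.1)
        simpa using this
      linarith
    · have h3 := le_max_right |v.1 - c.1| |v.2 - c.2|
      have h4 : |u.2 - c.2| ≤ |u.2 - v.2| + |v.2 - c.2| := by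
        have := abs_add_le (u.2 - v.2) (v.2 - c.2)
        simpa using this
      linarith
  obtain ⟨x, y, _ | _⟩ := e
  · rw [src_mk, tgt_false]
    exact ⟨key _ _ (by simp) (by simp), key _ _ (by simp) (by simp)⟩
  · rw [src_mk, tgt_true]
    exact ⟨key _ _ (by simp) (by simp), key _ _ (by simp) (by simp)⟩

theorem coe_inter (F : Finset Edg) (c : Vtx) (a b : ℕ) :
    (↑F : Set Edg) ∩ Ge c a b = (↑(F ∩ GeF c a b) : Set Edg) ∩ Ge c a b := by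
  ext e
  constructor
  · rintro ⟨h1, h2⟩
    exact ⟨Finset.mem_coe.2 (Finset.mem_inter.2 ⟨h1, mem_GeF.2 h2⟩), h2⟩
  · rintro ⟨h1, h2⟩
    exact ⟨(Finset.mem_inter.1 (Finset.mem_coe.1 h1)).1, h2⟩

theorem OC_congr {F G : Set Edg} {c : Vtx} {a b K : ℕ} (h : F ∩ Ge c a b = G ∩ Ge c a b) :
    OC c a b K F ↔ OC c a b K G := by
  unfold OC
  rw [h]

theorem LS_congr (hl : St_loc) {F G : Set Edg} {c : Vtx} {a b : ℕ} (hab : a < b)
    (h : F ∩ Ge c a b = G ∩ Ge c a b) : LS c a b F = LS c a b G := by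
  ext σ
  constructor
  · rintro ⟨T, hT⟩
    exact ⟨T, (hl F G c a b hab h σ T hT).1⟩
  · rintro ⟨T, hT⟩
    exact ⟨T, (hl G F c a b hab h.symm σ T hT).1⟩

theorem NL_eq (c : Vtx) (a b : ℕ) (F : Set Edg) : NL c a b F = (LS c a b F).ncard := rfl

/-- candidates for the starting states -/
noncomputable def Cd (c : Vtx) (b : ℕ) : Finset St :=
  ((Finset.Icc (c.1 - b) (c.1 + b)) ×ˢ (Finset.Icc (c.2 - b) (c.2 + b))) ×ˢ
    (Finset.univ : Finset Q4)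

theorem LS_sub (hB : St_basic) {F : Set Edg} {c : Vtx} {a b : ℕ} (hab : a < b) :
    LS c a b F ⊆ ↑(Cd c b) := by
  rintro σ ⟨T, hT⟩
  obtain ⟨-, h1, -⟩ := hB F c a b σ T hab hT
  have h2 := lv_le.1 h1.le
  rw [Finset.mem_coe, Cd, Finset.mem_product, Finset.mem_product, Finset.mem_Icc, Finset.mem_Icc]
  exact ⟨⟨h2.1, h2.2⟩, Finset.mem_univ _⟩

theorem LS_fin (hB : St_basic) {F : Set Edg} {c : Vtx} {a b : ℕ} (hab : a < b) :
    (LS c a b F).Finite := (Cd c b).finite_toSet.subset (LS_sub hB hab)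

theorem card_Cd (c : Vtx) (b : ℕ) : (Cd c b).card = (2 * b + 1) ^ 2 * Fintype.card Q4 := by
  rw [Cd, Finset.card_product, Finset.card_product, Int.card_Icc, Int.card_Icc, Finset.card_univ]
  have h1 : (c.1 + b + 1 - (c.1 - b)).toNat = 2 * b + 1 := by
    have : c.1 + (b : ℤ) + 1 - (c.1 - b) = ((2 * b + 1 : ℕ) : ℤ) := by push_cast; ring
    rw [this, Int.toNat_natCast]
  have h2 : (c.2 + b + 1 - (c.2 - b)).toNat = 2 * b + 1 := by
    have : c.2 + (b : ℤ) + 1 - (c.2 - b) = ((2 * b + 1 : ℕ) : ℤ) := by push_cast; ring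
    rw [this, Int.toNat_natCast]
  rw [h1, h2]
  ring

theorem NL_le (hB : St_basic) (F : Set Edg) (c : Vtx) {a b : ℕ} (hab : a < b) :
    NL c a b F ≤ (2 * b + 1) ^ 2 * Fintype.card Q4 := by
  rw [NL_eq, ← card_Cd c b, ← Set.ncard_coe_finset]
  exact Set.ncard_le_ncard (LS_sub hB hab) (Cd c b).finite_toSet

theorem exitc {c : Vtx} {a b : ℕ} {F : Set Edg} {x y : Vtx} (hab : a < b) (hx : lv c x = a)
    (hy : lv c y = b) (h : Reach (F ∩ Ge c a b) x y) :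
    ∃ u, lv c u = a ∧ Reach (F ∩ Ge c a b) x u ∧ Reach (F ∩ ↑(blk c b \ blk c a)) u y := by
  obtain ⟨B, hB⟩ : ∃ B : Set Vtx, B = {v | lv c v ≤ a} := ⟨_, rfl⟩
  have hmB : ∀ v, v ∈ B ↔ lv c v ≤ a := by
    intro v; rw [hB]; rfl
  obtain ⟨u, hu, h1, h2⟩ := TH992.E.exit1 (B := B) ((hmB x).2 hx.le) h
  rw [hmB] at hu
  have hsub : (F ∩ Ge c a b) \ TH992.E.inE B ⊆ F ∩ ↑(blk c b \ blk c a) := by
    rintro e ⟨⟨h3, h4⟩, h5⟩
    refine ⟨h3, ?_⟩
    rw [Finset.mem_coe, Finset.mem_sdiff, mem_blk, mem_blk]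
    refine ⟨⟨h4.1.2, h4.2.2⟩, fun h6 => h5 ⟨(hmB _).2 h6.1, (hmB _).2 h6.2⟩⟩
  refine ⟨u, le_antisymm hu ?_, h1, h2.mono hsub⟩
  rcases Relation.ReflTransGen.cases_head h2 with h3 | ⟨v, hs, _⟩
  · rw [h3, hy]
    exact_mod_cast hab.le
  · obtain ⟨e, ⟨⟨_, h4⟩, _⟩, he⟩ := hs
    rcases he with ⟨h5, _⟩ | ⟨_, h5⟩
    · rw [← h5]; exact h4.1.1
    · rw [← h5]; exact h4.2.1

theorem blk_sub {c : Vtx} {a b : ℕ} {F : Set Edg} :
    F ∩ ↑(blk c b \ blk c a) ⊆ F ∩ Ge c a b := by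
  rintro e ⟨h1, h2⟩
  refine ⟨h1, ?_⟩
  rw [Finset.mem_coe, Finset.mem_sdiff, mem_blk, mem_blk] at h2
  obtain ⟨⟨h3, h4⟩, h5⟩ := h2
  have h6 := lv_edge c e
  refine ⟨⟨?_, h3⟩, ?_, h4⟩
  · by_contra h7
    apply h5
    constructor <;> omega
  · by_contra h7
    apply h5
    constructor <;> omega

theorem mem_bdB {c v : Vtx} {k : ℕ} (h : lv c v = k) : v ∈ bdB c k := by
  have h1 : |v.1 - c.1| ≤ (k : ℤ) := by rw [← h]; exact le_max_left _ _
  have h2 : |v.2 - c.2| ≤ (k : ℤ) := by rw [← h]; exact le_max_right _ _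
  refine ⟨h1, h2, ?_⟩
  unfold lv at h
  rcases max_choice |v.1 - c.1| |v.2 - c.2| with h3 | h3
  · left; rw [← h, h3]
  · right; rw [← h, h3]

theorem oc_a4a {c : Vtx} {a b : ℕ} {F : Set Edg} (hab : a < b) (h : OC c a b 2 F) :
    H389NS.A4a c a b F := by
  obtain ⟨x, hx, hne⟩ := h
  obtain ⟨hx0, y0, hy0, h0⟩ := hx 0
  obtain ⟨hx1, y1, hy1, h1⟩ := hx 1
  obtain ⟨u, hu, hxu, huy⟩ := exitc hab hx0 hy0 h0
  obtain ⟨u', hu', hxu', huy'⟩ := exitc hab hx1 hy1 h1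
  refine ⟨u, mem_bdB hu, u', mem_bdB hu', ⟨y0, mem_bdB hy0, huy⟩, ⟨y1, mem_bdB hy1, huy'⟩, ?_⟩
  intro h2
  exact hne 0 1 (by decide) ((hxu.trans (h2.mono blk_sub)).trans hxu'.symm)

theorem descF (hB : St_basic) (hR : St_restr) (hc' : St_cnt') (F : Set Edg) (c : Vtx)
    {a m b : ℕ} (K : ℕ) (ham : a < m) (hmb : m + 1 < b) :
    (((NL c a b F).descFactorial K : ℕ) : ℝ) ≤
      ((NL c (m + 1) b F : ℕ) : ℝ) ^ K * ind (OC c a m K F) := by
  have hab : a < b := by omega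
  by_cases hK : K ≤ NL c a b F
  · have hfin := LS_fin hB (F := F) (c := c) hab
    have hfin' := LS_fin hB (F := F) (c := c) hmb
    have hsub : LS c a b F ⊆ LS c (m + 1) b F := by
      rintro σ ⟨T, hT⟩
      obtain ⟨T', _, hT'⟩ := (hR F c a b σ T hab hT).2.1 (m + 1) (by omega) hmb
      exact ⟨T', hT'⟩
    have hOC : OC c a m K F := by
      rw [NL_eq, Set.ncard_eq_toFinset_card _ hfin] at hK
      obtain ⟨t, ht, htc⟩ := Finset.exists_subset_card_eq hK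
      let eqv := t.equivFinOfCardEq htc
      let σ : Fin K → St := fun i => (eqv.symm i).1
      have hσ : ∀ i, σ i ∈ LS c a b F := fun i =>
        (Set.Finite.mem_toFinset hfin).1 (ht (eqv.symm i).2)
      have hinj : Function.Injective σ := fun i j hij =>
        eqv.symm.injective (Subtype.ext hij)
      choose T hT using hσ
      have h3 := fun i => (hR F c a b (σ i) (T i) hab (hT i)).2.2.1 m ham (by omega)
      choose s hs hs' using h3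
      refine hc' F c a m K (fun i => orb F (σ i) (s i)) ham ?_ (fun i => ⟨_, hs' i⟩)
      intro i j hij
      have h4 := (hR F c a b (σ i) (T i) hab (hT i)).2.2.2 (σ j) (T j) (s i) (s j) (hT j) (hs i)
        (hs j) hij
      exact hinj h4.1
    rw [ind_of hOC, mul_one]
    have h1 : (NL c a b F).descFactorial K ≤ NL c (m + 1) b F ^ K :=
      (Nat.descFactorial_le_pow _ _).trans (Nat.pow_le_pow_left (Set.ncard_le_ncard hsub hfin') K)
    exact_mod_cast h1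
  · rw [(Nat.descFactorial_eq_zero_iff_lt).2 (not_le.1 hK)]
    have := ind_nonneg (OC c a m K F)
    push_cast
    positivity

theorem expb (hB : St_basic) (hR : St_restr) (hl : St_loc) (hc' : St_cnt') (c : Vtx)
    {a m b : ℕ} (K : ℕ) (S : Finset Edg) (ham : a < m) (hmb : m + 1 < b) (hS : GeF c a b ⊆ S) :
    Ex (fun _ => (1/2 : ℝ)) S
      (fun F => (((NL c a b (↑F : Set Edg)).descFactorial K : ℕ) : ℝ)) ≤
    Ex (fun _ => (1/2 : ℝ)) S (fun F => ((NL c (m + 1) b (↑F : Set Edg) : ℕ) : ℝ) ^ K) *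
      Pr (fun _ => (1/2 : ℝ)) S (fun F => OC c a m K (↑F : Set Edg)) := by
  have h1 : GeF c (m + 1) b ⊆ S := by
    refine Finset.Subset.trans ?_ hS
    intro e he
    rw [mem_GeF] at he ⊢
    obtain ⟨⟨h1, h2⟩, h3, h4⟩ := he
    refine ⟨⟨?_, h2⟩, ?_, h4⟩ <;> push_cast at h1 h3 <;> omega
  have h2 : GeF c a m ⊆ S := by
    refine Finset.Subset.trans ?_ hS
    intro e he
    rw [mem_GeF] at he ⊢
    obtain ⟨⟨h1, h2⟩, h3, h4⟩ := he
    refine ⟨⟨h1, ?_⟩, h3, ?_⟩ <;> omega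
  have hd : Disjoint (GeF c (m + 1) b) (GeF c a m) := by
    rw [Finset.disjoint_left]
    intro e he he'
    rw [mem_GeF] at he he'
    have h3 := he.1.1
    have h4 := he'.1.2
    push_cast at h3
    omega
  unfold Pr
  rw [← Ex_mul_indep h1 h2 hd]
  · exact Ex_mono okh fun F _ => descF hB hR hc' _ c K ham hmb
  · intro F _
    rw [NL_eq, NL_eq, LS_congr hl hmb (coe_inter F c (m + 1) b)]
  · intro F _
    exact ind_congr (OC_congr (coe_inter F c a m))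

theorem msub {c : Vtx} {a m b : ℕ} {S : Finset Edg} (hmb : m ≤ b) (hS : GeF c a b ⊆ S) :
    GeF c a m ⊆ S := by
  refine Finset.Subset.trans ?_ hS
  intro e he
  rw [mem_GeF] at he ⊢
  obtain ⟨⟨h1, h2⟩, h3, h4⟩ := he
  refine ⟨⟨h1, ?_⟩, h3, ?_⟩ <;> omega

theorem msub' {c : Vtx} {a m b : ℕ} {S : Finset Edg} (ham : a ≤ m) (hS : GeF c a b ⊆ S) :
    GeF c m b ⊆ S := by
  refine Finset.Subset.trans ?_ hS
  intro e he
  rw [mem_GeF] at he ⊢
  obtain ⟨⟨h1, h2⟩, h3, h4⟩ := he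
  refine ⟨⟨?_, h2⟩, ?_, h4⟩ <;> omega

end Pool.Agent.N948.IX.C3

namespace Pool.Agent.N948.IX

open H974 H906.Cyl H12S Finset H984P H342P
open Pool.Agent.H160R2.ML (KArm)
open C3

theorem f2 (ho : St_OCt) : St_F2 := by
  obtain ⟨C, hC, h⟩ := Pool.Agent.W347.DPAA.aa
  refine ⟨C, hC, fun c a b S ha hab hS => ?_⟩
  have h1 := ho c a b 2 S hab hS
  have h2 := ho c a b 2 (S ∪ blk c b) hab (hS.trans Finset.subset_union_left)
  rw [h1, ← h2]
  refine le_trans (Pr_mono okh ?_) (h c a b ha hab.le (S ∪ blk c b) Finset.subset_union_right)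
  intro F _ hF
  exact oc_a4a hab hF

theorem upE (hB : St_basic) (hR : St_restr) (_hf : St_fin) (hl : St_loc) (hc' : St_cnt')
    (ho : St_OCt) (hm : St_Mom) : St_UpE := by
  intro K a hK ha
  obtain ⟨CM, hCM, hM⟩ := hm K
  obtain ⟨CU, hCU, hU⟩ := TH992.E.upper K hK a
  obtain ⟨al, hal⟩ : ∃ al : ℝ, al = (4 * (K : ℝ) ^ 2 - 1) / 12 := ⟨_, rfl⟩
  have hK2 : (2 : ℝ) ≤ K := by exact_mod_cast hK
  have hal0 : 0 < al := by rw [hal]; nlinarith
  rw [← hal] at hU ⊢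
  obtain ⟨ρ, hρ⟩ : ∃ ρ : ℕ, ρ = 3 * a + 6 := ⟨_, rfl⟩
  obtain ⟨M, hMd⟩ : ∃ M : ℕ, M = ((2 * ρ + 1) ^ 2 * Fintype.card Q4) ^ K := ⟨_, rfl⟩
  have hρ0 : (0 : ℝ) < ρ := by
    have : 0 < ρ := by omega
    exact_mod_cast this
  have h9 : (0 : ℝ) < 9 ^ al := by positivity
  have hρa : (0 : ℝ) < (ρ : ℝ) ^ al := Real.rpow_pos_of_pos hρ0 _
  refine ⟨CM * CU * 9 ^ al + M * (ρ : ℝ) ^ al, by positivity, ?_⟩
  intro c b S hab hS
  have hb0 : (0 : ℝ) < b := by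
    have : 0 < b := by omega
    exact_mod_cast this
  have hp : (0 : ℝ) < (b : ℝ) ^ (-al) := Real.rpow_pos_of_pos hb0 _
  by_cases h : ρ ≤ b
  · obtain ⟨m, hmd⟩ : ∃ m : ℕ, m = b / 3 - 1 := ⟨_, rfl⟩
    have h1 : a < m := by omega
    have h2 : m + 1 < b := by omega
    have h3 : 3 * (m + 1) ≤ b := by omega
    have h4 : b ≤ 9 * m := by omega
    have h5 := expb hB hR hl hc' c K S h1 h2 hS
    have h6 := hM c (m + 1) b S (by omega) h3 (msub' (by omega) hS)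
    have h7 : Pr (fun _ => (1/2 : ℝ)) S (fun F => OC c a m K (↑F : Set Edg)) ≤
        CU * (m : ℝ) ^ (-al) := by
      rw [ho c a m K S h1 (msub (by omega) hS)]
      exact hU m (by omega)
    have hm0 : (0 : ℝ) < m := by
      have : 0 < m := by omega
      exact_mod_cast this
    have h8 : (m : ℝ) ^ (-al) ≤ 9 ^ al * (b : ℝ) ^ (-al) := by
      have e1 : (b : ℝ) / 9 ≤ m := by
        have : (b : ℝ) ≤ 9 * m := by exact_mod_cast h4
        linarith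
      have e2 := Real.rpow_le_rpow_of_nonpos (by positivity) e1 (by linarith : -al ≤ 0)
      rw [Real.div_rpow hb0.le (by norm_num), Real.rpow_neg (by norm_num : (0:ℝ) ≤ 9) al,
        div_inv_eq_mul, mul_comm] at e2
      exact e2
    have h10 : 0 ≤ Pr (fun _ => (1/2 : ℝ)) S (fun F => OC c a m K (↑F : Set Edg)) :=
      Pr_nonneg okh _ _
    calc _ ≤ _ := h5
      _ ≤ CM * (CU * (m : ℝ) ^ (-al)) := mul_le_mul h6 h7 h10 hCM.le
      _ ≤ CM * (CU * (9 ^ al * (b : ℝ) ^ (-al))) := by gcongr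
      _ ≤ _ := by nlinarith [mul_pos hρa hp, Nat.cast_nonneg (α := ℝ) M]
  · have h1 : Ex (fun _ => (1/2 : ℝ)) S
        (fun F => (((NL c a b (↑F : Set Edg)).descFactorial K : ℕ) : ℝ)) ≤ M := by
      apply Ex_le_of_le okh
      intro F _
      have h2 : (NL c a b (↑F : Set Edg)).descFactorial K ≤ M := by
        rw [hMd]
        refine (Nat.descFactorial_le_pow _ _).trans (Nat.pow_le_pow_left ?_ K)
        refine (NL_le hB _ c hab).trans (Nat.mul_le_mul_right _ (Nat.pow_le_pow_left ?_ 2))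
        omega
      exact_mod_cast h2
    have h2 : (b : ℝ) ^ al ≤ (ρ : ℝ) ^ al := by
      apply Real.rpow_le_rpow hb0.le _ hal0.le
      exact_mod_cast (by omega : b ≤ ρ)
    have h3 : (b : ℝ) ^ al * (b : ℝ) ^ (-al) = 1 := by
      rw [← Real.rpow_add hb0]; simp
    have h4 := mul_le_mul_of_nonneg_right h2 hp.le
    rw [h3] at h4
    have h5 : 0 < CM * CU * 9 ^ al * (b : ℝ) ^ (-al) := by positivity
    have h6 : (M : ℝ) * 1 ≤ M * ((ρ : ℝ) ^ al * (b : ℝ) ^ (-al)) :=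
      mul_le_mul_of_nonneg_left h4 (Nat.cast_nonneg _)
    rw [add_mul]
    linarith

theorem upE2 (hB : St_basic) (hR : St_restr) (_hf : St_fin) (hl : St_loc) (hc' : St_cnt')
    (_ho : St_OCt) (hm : St_Mom) (h2 : St_F2) : St_UpE2 := by
  obtain ⟨CM, hCM, hM⟩ := hm 2
  obtain ⟨CU, hCU, hU⟩ := h2
  have h9 : (0 : ℝ) < 9 ^ (5/4 : ℝ) := by positivity
  refine ⟨CM * CU * 9 ^ (5/4 : ℝ), by positivity, ?_⟩
  intro c a b S ha hab hS
  have hb0 : (0 : ℝ) < b := by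
    have : 0 < b := by omega
    exact_mod_cast this
  have ha0 : (0 : ℝ) < a := by
    exact_mod_cast ha
  obtain ⟨m, hmd⟩ : ∃ m : ℕ, m = b / 3 - 1 := ⟨_, rfl⟩
  have h1 : a < m := by omega
  have h2 : m + 1 < b := by omega
  have h3 : 3 * (m + 1) ≤ b := by omega
  have h4 : b ≤ 9 * m := by omega
  have h5 := expb hB hR hl hc' c 2 S h1 h2 hS
  have h6 := hM c (m + 1) b S (by omega) h3 (msub' (by omega) hS)
  have h7 := hU c a m S ha h1 (msub (by omega) hS)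
  have hm0 : (0 : ℝ) < m := by
    have : 0 < m := by omega
    exact_mod_cast this
  have h8 : ((a : ℝ) / m) ^ (5/4 : ℝ) ≤ 9 ^ (5/4 : ℝ) * ((a : ℝ) / b) ^ (5/4 : ℝ) := by
    rw [← Real.mul_rpow (by norm_num) (by positivity)]
    apply Real.rpow_le_rpow (by positivity) _ (by norm_num)
    rw [div_le_iff₀ hm0]
    have e1 : (b : ℝ) ≤ 9 * m := by exact_mod_cast h4
    have e2 : (a : ℝ) = a / b * b := by field_simp
    calc (a : ℝ) = a / b * b := e2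
      _ ≤ a / b * (9 * m) := mul_le_mul_of_nonneg_left e1 (by positivity)
      _ = 9 * (a / b) * m := by ring
  have h10 : 0 ≤ Pr (fun _ => (1/2 : ℝ)) S (fun F => OC c a m 2 (↑F : Set Edg)) :=
    Pr_nonneg okh _ _
  calc _ ≤ _ := h5
    _ ≤ CM * (CU * ((a : ℝ) / m) ^ (5/4 : ℝ)) := mul_le_mul h6 h7 h10 hCM.le
    _ ≤ CM * (CU * (9 ^ (5/4 : ℝ) * ((a : ℝ) / b) ^ (5/4 : ℝ))) := by gcongr
    _ = _ := by ring

end Pool.Agent.N948.IX
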