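import Pool.Agent.N948.IX.Cut
import Pool.Agent.N948.IX.Bas

/-!
# Project IX: upper bounds for crossings of both types
-/

set_option autoImplicit false

namespace Pool.Agent.N948.IX

open H974 H906.Cyl H12S Finset H984P H342P Pool.Agent.W92.DP

namespace C4

theorem ok {E : Type*} : Ok (fun _ : E => (1/2 : ℝ)) := fun _ => by constructor <;> norm_num

/-! ### Outward crossings -/

theorem out_basic {F : Set Edg} {c : Vtx} {a b : ℕ} {σ : St} {T : ℕ} (hab : a < b)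
    (h : OutLeg F c a b σ T) : lv c σ.1 = a ∧ ∀ s < T, ae (orb F σ s) ∈ Ge c a b := by
  have hab' : (a : ℤ) < b := by exact_mod_cast hab
  have hstep : ∀ s, (ae (orb F σ s) ∈ F ∧ face (orb F σ (s + 1)) = face (orb F σ s) ∧
      (orb F σ (s + 1)).1 = (mv (orb F σ s)).1) ∨
      (ae (orb F σ s) ∉ F ∧ face (orb F σ (s + 1)) = face (rt (orb F σ s)) ∧
      (orb F σ (s + 1)).1 = (orb F σ s).1) := by
    intro s
    rw [orb_succ]
    by_cases h1 : ae (orb F σ s) ∈ F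
    · left
      rw [nxt_open h1, p2_face_mv]
      exact ⟨h1, rfl, rfl⟩
    · right
      rw [nxt_closed h1, p2_rt_fst]
      exact ⟨h1, rfl, rfl⟩
  have hT : 1 < T := by
    by_contra hT
    have hT1 : T = 1 := by have := h.pos; omega
    have h1 := h.st
    have h2 := h.en
    rw [hT1] at h2
    rcases hstep 0 with ⟨_, h3, _⟩ | ⟨_, h3, _⟩
    · rw [h3, orb_zero] at h2
      omega
    · rw [h3, orb_zero] at h2
      have h4 := Bas.cor c σ
      have h5 := Bas.cor_rt c σ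
      omega
  obtain ⟨h1a, h1b⟩ := h.mid 1 (by omega) hT
  have h0 : ae σ ∉ F ∧ face (orb F σ 1) = face (rt σ) ∧ (orb F σ 1).1 = σ.1 := by
    rcases hstep 0 with ⟨_, h3, _⟩ | h3
    · have := h.st
      rw [h3, orb_zero] at h1a
      omega
    · exact h3
  refine ⟨?_, ?_⟩
  · have h3 := Bas.cor c σ
    have h4 := Bas.cor_rt c σ
    rw [← h0.2.1] at h4
    have := h.st
    omega
  · intro s hs
    rcases Nat.eq_zero_or_pos s with rfl | hs0
    · rw [orb_zero]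
      apply Bas.ge_of_rt
      rw [← h0.2.1]
      exact ⟨h1a, h1b⟩
    · exact Bas.ge_of_face (h.mid s hs0 hs)

/-! ### Crossings of both types -/

/-- candidates for the starting states -/
noncomputable def Sts (c : Vtx) (b : ℕ) : Finset St :=
  ((Finset.Icc (c.1 - b) (c.1 + b)) ×ˢ (Finset.Icc (c.2 - b) (c.2 + b))) ×ˢ
    (Finset.univ : Finset Q4)

theorem mem_Sts {c : Vtx} {b : ℕ} {σ : St} (h : lv c σ.1 ≤ b) : σ ∈ Sts c b := by
  have h2 : |σ.1.1 - c.1| ≤ (b : ℤ) := (le_max_left _ _).trans h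
  have h3 : |σ.1.2 - c.2| ≤ (b : ℤ) := (le_max_right _ _).trans h
  rw [abs_le] at h2 h3
  unfold Sts
  rw [Finset.mem_product, Finset.mem_product, Finset.mem_Icc, Finset.mem_Icc]
  refine ⟨⟨⟨?_, ?_⟩, ?_, ?_⟩, Finset.mem_univ _⟩
  · linarith
  · linarith
  · linarith
  · linarith

theorem leg_st (hB : St_basic) {ε : Bool} {F : Set Edg} {c : Vtx} {a b : ℕ} {σ : St} {T : ℕ}
    (hab : a < b) (h : Leg ε F c a b σ T) : σ ∈ Sts c b := by
  unfold Leg at h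
  split_ifs at h
  · exact mem_Sts (hB F c a b σ T hab h).2.1.le
  · have h1 := (out_basic hab h).1
    apply mem_Sts
    rw [h1]
    exact_mod_cast hab.le

theorem leg_ge (hB : St_basic) {ε : Bool} {F : Set Edg} {c : Vtx} {a b : ℕ} {σ : St} {T : ℕ}
    (hab : a < b) (h : Leg ε F c a b σ T) : ∀ e ∈ Exm F σ T, e ∈ Ge c a b := by
  intro e he
  obtain ⟨s, hs, rfl⟩ := mem_Exm.1 he
  unfold Leg at h
  split_ifs at h
  · exact (hB F c a b σ T hab h).2.2.2.1 s hs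
  · exact (out_basic hab h).2 s hs

theorem leg_uniq {ε : Bool} {F : Set Edg} {c : Vtx} {a b : ℕ} {σ : St} {T T' : ℕ}
    (h : Leg ε F c a b σ T) (h' : Leg ε F c a b σ T') : T = T' := by
  unfold Leg at h h'
  split_ifs at h h'
  · rcases lt_trichotomy T T' with h1 | h1 | h1
    · have h2 := h'.mid T h.pos h1
      have h3 := h.en
      omega
    · exact h1
    · have h2 := h.mid T' h'.pos h1
      have h3 := h'.en
      omega
  · rcases lt_trichotomy T T' with h1 | h1 | h1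
    · have h2 := h'.mid T h.pos h1
      have h3 := h.en
      omega
    · exact h1
    · have h2 := h.mid T' h'.pos h1
      have h3 := h'.en
      omega

theorem leg_agree {ε : Bool} {F G : Set Edg} {c : Vtx} {a b : ℕ} {σ : St} {T : ℕ}
    (h : Leg ε F c a b σ T) (hag : ∀ e ∈ Exm F σ T, (e ∈ F ↔ e ∈ G)) :
    Leg ε G c a b σ T ∧ Exm G σ T = Exm F σ T := by
  have h1 : ∀ s ≤ T, orb G σ s = orb F σ s :=
    congr F G σ T fun s hs => hag _ (mem_Exm.2 ⟨s, hs, rfl⟩)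
  refine ⟨?_, ?_⟩
  · unfold Leg at h ⊢
    split_ifs at h ⊢
    · refine ⟨h.pos, h.st, fun s hs hs' => ?_, ?_⟩
      · rw [h1 s hs'.le]
        exact h.mid s hs hs'
      · rw [h1 T le_rfl]
        exact h.en
    · refine ⟨h.pos, h.st, fun s hs hs' => ?_, ?_⟩
      · rw [h1 s hs'.le]
        exact h.mid s hs hs'
      · rw [h1 T le_rfl]
        exact h.en
  · ext e
    rw [mem_Exm, mem_Exm]
    constructor
    · rintro ⟨s, hs, he⟩
      rw [h1 s hs.le] at he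
      exact ⟨s, hs, he⟩
    · rintro ⟨s, hs, he⟩
      rw [← h1 s hs.le] at he
      exact ⟨s, hs, he⟩

theorem leg_loc (hB : St_basic) {ε : Bool} {F G : Set Edg} {c : Vtx} {a b : ℕ} {σ : St} {T : ℕ}
    (hab : a < b) (hFG : F ∩ Ge c a b = G ∩ Ge c a b)
    (h : Leg ε F c a b σ T) : Leg ε G c a b σ T ∧ Exm G σ T = Exm F σ T := by
  refine leg_agree h fun e he => ?_
  have h2 := leg_ge hB hab h e he
  have h3 : e ∈ F ∩ Ge c a b ↔ e ∈ G ∩ Ge c a b := by rw [hFG]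
  constructor
  · intro h4
    exact (h3.1 ⟨h4, h2⟩).1
  · intro h4
    exact (h3.2 ⟨h4, h2⟩).1

theorem lv_self (v : Vtx) : lv v v = 0 := by simp [lv]

theorem lv_comm (v w : Vtx) : lv v w = lv w v := by
  unfold lv
  rw [abs_sub_comm w.1 v.1, abs_sub_comm w.2 v.2]

theorem sep_disj {n : ℕ} (hn : 0 < n) {A B : Finset Edg} (h : Sep n A B) : Disjoint A B := by
  rw [Finset.disjoint_left]
  intro e h1 h2
  have h3 := h e h1 e h2
  rw [lv_self] at h3
  omega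

theorem sep_symm {n : ℕ} {A B : Finset Edg} (h : Sep n A B) : Sep n B A := by
  intro e he e' he'
  rw [lv_comm]
  exact h e' he' e he

theorem tupE_mem (hB : St_basic) {K n : ℕ} {ε : Fin K → Bool} {c : Vtx} {a b : ℕ} (hab : a < b)
    {ω : Fin K → Set Edg} {σ : Fin K → St} (h : TupE n ε c a b ω σ) :
    σ ∈ Fintype.piFinset (fun _ : Fin K => Sts c b) := by
  obtain ⟨T, hT, -⟩ := h
  rw [Fintype.mem_piFinset]
  exact fun i => leg_st hB hab (hT i)

theorem tupE_congr (hB : St_basic) {K n : ℕ} {ε : Fin K → Bool} {c : Vtx} {a b : ℕ} (hab : a < b)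
    {ω ω' : Fin K → Set Edg} (h : ∀ i, ω i ∩ Ge c a b = ω' i ∩ Ge c a b) {σ : Fin K → St}
    (hσ : TupE n ε c a b ω σ) : TupE n ε c a b ω' σ := by
  obtain ⟨T, hT, hd⟩ := hσ
  refine ⟨T, fun i => (leg_loc hB hab (h i) (hT i)).1, fun i i' hii => ?_⟩
  rw [(leg_loc hB hab (h i) (hT i)).2, (leg_loc hB hab (h i') (hT i')).2]
  exact hd i i' hii

/-! ### The edges of the annulus -/

theorem mem_GeF {c : Vtx} {a b : ℕ} {e : Edg} : e ∈ GeF c a b ↔ e ∈ Ge c a b := by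
  obtain ⟨x, y, d⟩ := e
  constructor
  · intro h
    unfold GeF at h
    rw [Finset.mem_filter] at h
    obtain ⟨h1, h2, h3⟩ := h
    refine ⟨⟨h2, ?_⟩, h3, ?_⟩
    · unfold lv
      rw [max_le_iff, abs_le, abs_le]
      cases d
      · rw [mem_RE_false] at h1
        obtain ⟨u1, u2, u3, u4⟩ := h1
        simp only [src_mk]
        refine ⟨⟨?_, ?_⟩, ?_, ?_⟩ <;> linarith
      · rw [mem_RE_true] at h1
        obtain ⟨u1, u2, u3, u4⟩ := h1
        simp only [src_mk]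
        refine ⟨⟨?_, ?_⟩, ?_, ?_⟩ <;> linarith
    · unfold lv
      rw [max_le_iff, abs_le, abs_le]
      cases d
      · rw [mem_RE_false] at h1
        obtain ⟨u1, u2, u3, u4⟩ := h1
        simp only [tgt_false]
        refine ⟨⟨?_, ?_⟩, ?_, ?_⟩ <;> linarith
      · rw [mem_RE_true] at h1
        obtain ⟨u1, u2, u3, u4⟩ := h1
        simp only [tgt_true]
        refine ⟨⟨?_, ?_⟩, ?_, ?_⟩ <;> linarith
  · rintro ⟨⟨h1, h2⟩, h3, h4⟩
    unfold GeF
    rw [Finset.mem_filter]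
    refine ⟨?_, h1, h3⟩
    unfold lv at h2 h4
    rw [max_le_iff, abs_le, abs_le] at h2 h4
    cases d
    · simp only [src_mk, tgt_false] at h2 h4
      rw [mem_RE_false]
      refine ⟨?_, ?_, ?_, ?_⟩ <;> linarith [h2.1.1, h2.1.2, h2.2.1, h2.2.2, h4.1.1, h4.1.2, h4.2.1, h4.2.2]
    · simp only [src_mk, tgt_true] at h2 h4
      rw [mem_RE_true]
      refine ⟨?_, ?_, ?_, ?_⟩ <;> linarith [h2.1.1, h2.1.2, h2.2.1, h2.2.2, h4.1.1, h4.1.2, h4.2.1, h4.2.2]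

theorem lv_nonneg (c v : Vtx) : 0 ≤ lv c v := (abs_nonneg _).trans (le_max_left _ _)

theorem Bx_sub {c : Vtx} {d : ℕ} : Bx c d ⊆ (↑(GeF c 0 d) : Set Edg) := by
  rintro e ⟨h1, h2⟩
  rw [Finset.mem_coe, mem_GeF]
  exact ⟨⟨by simpa using lv_nonneg c (src e), h1⟩, by simpa using lv_nonneg c (tgt e), h2⟩

theorem Ge_mono {c : Vtx} {a b a' b' : ℕ} (ha : a ≤ a') (hb : b' ≤ b) :
    Ge c a' b' ⊆ Ge c a b := by
  rintro e ⟨⟨h1, h2⟩, h3, h4⟩
  have ha' : (a : ℤ) ≤ a' := by exact_mod_cast ha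
  have hb' : (b' : ℤ) ≤ b := by exact_mod_cast hb
  exact ⟨⟨ha'.trans h1, h2.trans hb'⟩, ha'.trans h3, h4.trans hb'⟩

theorem Ge_Bx {c : Vtx} {a b b' : ℕ} (hb : b' ≤ b) : Ge c a b' ⊆ Bx c b := by
  rintro e ⟨⟨h1, h2⟩, h3, h4⟩
  have hb' : (b' : ℤ) ≤ b := by exact_mod_cast hb
  exact ⟨h2.trans hb', h4.trans hb'⟩

theorem GeF_mono {c : Vtx} {a b a' b' : ℕ} (ha : a ≤ a') (hb : b' ≤ b) :
    GeF c a' b' ⊆ GeF c a b := by
  intro e he
  exact mem_GeF.2 (Ge_mono ha hb (mem_GeF.1 he))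

theorem inter_ge {c : Vtx} {a b : ℕ} {F S : Finset Edg} (hS : GeF c a b ⊆ S) :
    (↑(F ∩ S) : Set Edg) ∩ Ge c a b = (↑F : Set Edg) ∩ Ge c a b := by
  ext e
  simp only [Finset.coe_inter, Set.mem_inter_iff, Finset.mem_coe]
  constructor
  · rintro ⟨⟨h1, h2⟩, h3⟩
    exact ⟨h1, h3⟩
  · rintro ⟨h1, h3⟩
    exact ⟨⟨h1, hS (mem_GeF.2 h3)⟩, h3⟩

theorem sl_inter {m : ℕ} (F : Finset (Fin m × Edg)) (i : Fin m) (S : Finset Edg) (c : Vtx)
    (a b : ℕ) (hS : GeF c a b ⊆ S) :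
    sl (F ∩ ((Finset.univ : Finset (Fin m)) ×ˢ S)) i ∩ Ge c a b = sl F i ∩ Ge c a b := by
  ext e
  simp only [sl, Set.mem_inter_iff, Set.mem_ofPred_eq, Finset.mem_inter, Finset.mem_product,
    Finset.mem_univ, true_and]
  constructor
  · rintro ⟨⟨h1, h2⟩, h3⟩
    exact ⟨h1, h3⟩
  · rintro ⟨h1, h3⟩
    exact ⟨⟨h1, hS (mem_GeF.2 h3)⟩, h3⟩

/-! ### Sums and expectations -/

theorem ind_exists_le {α : Type*} {P : Finset α} {Q : α → Prop} (h : ∀ σ, Q σ → σ ∈ P) :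
    ind (∃ σ, Q σ) ≤ ∑ σ ∈ P, ind (Q σ) := by
  by_cases hex : ∃ σ, Q σ
  · obtain ⟨σ, hσ⟩ := hex
    rw [ind_of ⟨σ, hσ⟩, ← ind_of hσ]
    exact Finset.single_le_sum (f := fun σ => ind (Q σ)) (fun _ _ => ind_nonneg _) (h σ hσ)
  · rw [ind_not_of hex]
    exact Finset.sum_nonneg fun _ _ => ind_nonneg _

theorem sum_ncard {α : Type*} {A : Finset α} {Q : α → Prop} (h : ∀ x, Q x → x ∈ A) :
    ∑ x ∈ A, ind (Q x) = ((Set.ncard {x | Q x} : ℕ) : ℝ) := by
  classical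
  have h1 : {x | Q x} = (↑(A.filter (fun s => Q s)) : Set α) := by
    ext s
    rw [Finset.mem_coe, Finset.mem_filter]
    exact ⟨fun hs => ⟨h s hs, hs⟩, fun hs => hs.2⟩
  have h2 : Set.ncard {x | Q x} = (A.filter (fun s => Q s)).card := by
    rw [h1]
    exact Set.ncard_coe_finset _
  rw [h2, Finset.card_filter]
  push_cast
  refine Finset.sum_congr rfl fun s _ => ?_
  unfold ind
  split_ifs <;> rfl

theorem Pr_sum {E α : Type*} [DecidableEq E] (S : Finset E) (A : Finset α)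
    (Q : α → Finset E → Prop) (h : ∀ F x, Q x F → x ∈ A) :
    ∑ x ∈ A, Pr (fun _ => (1/2 : ℝ)) S (fun F => Q x F) =
      Ex (fun _ => (1/2 : ℝ)) S (fun F => ((Set.ncard {x | Q x F} : ℕ) : ℝ)) := by
  unfold Pr
  rw [← Ex_sum]
  apply Ex_congr
  intro F _
  exact sum_ncard (h F)

theorem Pr_ex_le {E α : Type*} [DecidableEq E] (S : Finset E) (A : Finset α)
    (Q : α → Finset E → Prop) (h : ∀ F x, Q x F → x ∈ A) :
    Pr (fun _ => (1/2 : ℝ)) S (fun F => ∃ x, Q x F) ≤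
      ∑ x ∈ A, Pr (fun _ => (1/2 : ℝ)) S (fun F => Q x F) := by
  unfold Pr
  rw [← Ex_sum]
  apply Ex_mono ok
  intro F _
  exact ind_exists_le (h F)

/-! ### The path sum identity for crossings of both types -/

theorem tupE_iff {K : ℕ} (ε : Fin K → Bool) (c : Vtx) (a b : ℕ) (ω : Fin K → Set Edg)
    (σ : Fin K → St) :
    TupE 10 ε c a b ω σ ↔ ∃ A : Fin K → Finset Edg,
      (∀ i, ∃ T, Leg (ε i) (ω i) c a b (σ i) T ∧ Exm (ω i) (σ i) T = A i) ∧
      ∀ i i', i ≠ i' → Sep 10 (A i) (A i') := by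
  constructor
  · rintro ⟨T, hT, hs⟩
    exact ⟨fun i => Exm (ω i) (σ i) (T i), fun i => ⟨T i, hT i, rfl⟩, hs⟩
  · rintro ⟨A, hA, hs⟩
    choose T hT hTA using hA
    refine ⟨T, hT, fun i i' hii => ?_⟩
    rw [hTA, hTA]
    exact hs i i' hii

theorem prE (hB : St_basic) (hg : St_GPS) {m K : ℕ} (j : Fin K → Fin m) (ε : Fin K → Bool)
    (c : Vtx) {a b : ℕ} (hab : a < b) {S : Finset Edg} (hS : GeF c a b ⊆ S) (σ : Fin K → St) :
    Pr (fun _ => (1/2 : ℝ)) ((Finset.univ : Finset (Fin m)) ×ˢ S)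
      (fun F => TupE 10 ε c a b (fun i => sl F (j i)) σ) =
    Pr (fun _ => (1/2 : ℝ)) S (fun F => TupE 10 ε c a b (fun _ => (↑F : Set Edg)) σ) := by
  have h := hg m K j S
    (fun i F A => ∃ T, Leg (ε i) F c a b (σ i) T ∧ Exm F (σ i) T = A)
    (fun A => ∀ i i', i ≠ i' → Sep 10 (A i) (A i')) ?_ ?_ ?_ ?_
  · rw [Pr_congr (fun F _ => tupE_iff ε c a b (fun i => sl F (j i)) σ), h]
    exact (Pr_congr (fun F _ => tupE_iff ε c a b (fun _ => (↑F : Set Edg)) σ)).symm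
  · rintro i F A ⟨T, hT, rfl⟩ e he
    exact hS (mem_GeF.2 (leg_ge hB hab hT e he))
  · rintro i F G A ⟨T, hT, rfl⟩ hag
    obtain ⟨h1, h2⟩ := leg_agree hT hag
    exact ⟨T, h1, h2⟩
  · rintro i F A B ⟨T, hT, rfl⟩ ⟨T', hT', rfl⟩
    rw [leg_uniq hT hT']
  · intro A hA i i' hii
    exact sep_disj (by norm_num) (hA i i' hii)

/-! ### Counting -/

theorem tup_st (hB : St_basic) {K : ℕ} {c : Vtx} {a b : ℕ} (hab : a < b)
    {ω : Fin K → Set Edg} {σ : Fin K → St} (h : Tup c a b ω σ) :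
    σ ∈ Fintype.piFinset (fun _ : Fin K => Sts c b) := by
  obtain ⟨T, hT, -⟩ := h
  rw [Fintype.mem_piFinset]
  exact fun i => mem_Sts (hB _ c a b _ _ hab (hT i)).2.1.le

theorem tup_congr (hl : St_loc) {K : ℕ} {c : Vtx} {a b : ℕ} (hab : a < b)
    {ω ω' : Fin K → Set Edg} (h : ∀ i, ω i ∩ Ge c a b = ω' i ∩ Ge c a b) {σ : Fin K → St}
    (hσ : Tup c a b ω σ) : Tup c a b ω' σ := by
  obtain ⟨T, hT, hd⟩ := hσ
  refine ⟨T, fun i => (hl _ _ c a b hab (h i) _ _ (hT i)).1, fun i i' hii => ?_⟩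
  rw [(hl _ _ c a b hab (h i) _ _ (hT i)).2, (hl _ _ c a b hab (h i') _ _ (hT i')).2]
  exact hd i i' hii

theorem tup_inj (hR : St_restr) {K : ℕ} {c : Vtx} {a b : ℕ} (hab : a < b) {F : Set Edg}
    {σ : Fin K → St} (h : Tup c a b (fun _ => F) σ) : Function.Injective σ := by
  obtain ⟨T, hT, hd⟩ := h
  intro i i' hii
  by_contra hne
  have h1 := hd i i' hne
  have h2 : T i' = T i :=
    (hR F c a b (σ i) (T i) hab (hT i)).1 (T i') (by rw [hii]; exact hT i')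
  have h4 : ae (orb F (σ i) 0) ∈ Exm F (σ i) (T i) := mem_Exm.2 ⟨0, (hT i).pos, rfl⟩
  have h5 : ae (orb F (σ i) 0) ∈ Exm F (σ i') (T i') := by
    rw [← hii, h2]
    exact h4
  exact Finset.disjoint_left.1 h1 h4 h5

theorem tup_card (hB : St_basic) (hR : St_restr) {K : ℕ} {c : Vtx} {a b : ℕ} (hab : a < b)
    (F : Set Edg) :
    Set.ncard {σ : Fin K → St | Tup c a b (fun _ => F) σ} ≤ (NL c a b F).descFactorial K := by
  classical
  have hsub : LS c a b F ⊆ ↑(Sts c b) := by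
    rintro σ ⟨T, hT⟩
    exact mem_Sts (hB F c a b σ T hab hT).2.1.le
  have hfin : (LS c a b F).Finite := (Sts c b).finite_toSet.subset hsub
  have : Fintype (LS c a b F) := hfin.fintype
  have h1 : NL c a b F = Fintype.card (LS c a b F) := by
    have h2 : NL c a b F = (LS c a b F).ncard := rfl
    rw [h2, Set.ncard_eq_toFinset_card']
    exact Set.toFinset_card _
  have h3 : Nat.card (Fin K ↪ LS c a b F) = (Fintype.card (LS c a b F)).descFactorial K := by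
    rw [Nat.card_eq_fintype_card, Fintype.card_embedding_eq, Fintype.card_fin]
  rw [h1, ← h3, ← Nat.card_coe_set_eq]
  refine Nat.card_le_card_of_injective
    (fun σ : {σ : Fin K → St | Tup c a b (fun _ => F) σ} =>
      (⟨fun i => ⟨σ.1 i, by
        obtain ⟨T, hT, -⟩ := σ.2
        exact ⟨T i, hT i⟩⟩, fun i i' hii => tup_inj hR hab σ.2 (congrArg Subtype.val hii)⟩ :
        Fin K ↪ LS c a b F)) ?_
  intro σ τ h
  apply Subtype.ext
  funext i
  have h2 := DFunLike.congr_fun h i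
  exact congrArg Subtype.val h2

/-! ### The main bound -/

theorem main (hB : St_basic) (hR : St_restr) (hl : St_loc) (hps : St_PS) (hg : St_GPS)
    (h1 : St_SH1) (hL : St_SHL) (K : ℕ) (ε : Fin K → Bool) (c : Vtx) {a b : ℕ} (ha : 1 ≤ a)
    (hab : a + 2 < b) {S : Finset Edg} (hS : Bx c (b + 2) ⊆ (↑S : Set Edg)) :
    ∑ σ ∈ Fintype.piFinset (fun _ : Fin K => Sts c b),
      Pr (fun _ => (1/2 : ℝ)) S (fun F => TupE 10 ε c a b (fun _ => (↑F : Set Edg)) σ) ≤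
    Ex (fun _ => (1/2 : ℝ)) S
      (fun F => (((NL c (a + 1) (b - 1) (↑F : Set Edg)).descFactorial K : ℕ) : ℝ)) := by
  have hG : GeF c a b ⊆ S := fun e he => hS (Ge_Bx (by omega) (mem_GeF.1 he))
  have hG' : GeF c (a + 1) (b - 1) ⊆ S := (GeF_mono (by omega) (by omega)).trans hG
  have e1 : ∀ σ : Fin K → St,
      Pr (fun _ => (1/2 : ℝ)) S (fun F => TupE 10 ε c a b (fun _ => (↑F : Set Edg)) σ) =
      Pr (fun _ => (1/2 : ℝ)) ((Finset.univ : Finset (Fin K)) ×ˢ S)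
        (fun F => TupE 10 ε c a b (fun i => sl F i) σ) := fun σ =>
    (prE hB hg id ε c (by omega) hG σ).symm
  simp only [e1]
  rw [Pr_sum _ _ (fun σ F => TupE 10 ε c a b (fun i => sl F i) σ)
    (fun F σ h => tupE_mem hB (by omega) h)]
  have e2 : Ex (fun _ => (1/2 : ℝ)) ((Finset.univ : Finset (Fin K)) ×ˢ S)
      (fun F => ((Set.ncard {σ : Fin K → St | TupE 10 ε c a b (fun i => sl F i) σ} : ℕ) : ℝ)) ≤
      Ex (fun _ => (1/2 : ℝ)) ((Finset.univ : Finset (Fin K)) ×ˢ S)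
      (fun F => ((Set.ncard {σ : Fin K → St |
        Tup c (a + 1) (b - 1) (swt ε (fun i => sl F i)) σ} : ℕ) : ℝ)) := by
    apply Ex_mono ok
    intro F _
    exact_mod_cast h1 K ε c a b (fun i => sl F i) ha hab
  refine e2.trans ?_
  have e3 := hL K ε c b (fun ω => ((Set.ncard {σ : Fin K → St |
        Tup c (a + 1) (b - 1) ω σ} : ℕ) : ℝ)) ?_ S hS
  · rw [e3]
    have e4 : ∀ σ : Fin K → St,
        Pr (fun _ => (1/2 : ℝ)) ((Finset.univ : Finset (Fin K)) ×ˢ S)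
          (fun F => Tup c (a + 1) (b - 1) (fun i => sl F i) σ) =
        Pr (fun _ => (1/2 : ℝ)) S
          (fun F => Tup c (a + 1) (b - 1) (fun _ => (↑F : Set Edg)) σ) := fun σ =>
      hps K K id c (a + 1) (b - 1) σ S (by omega) hG'
    rw [← Pr_sum _ (Fintype.piFinset (fun _ : Fin K => Sts c (b - 1)))
      (fun σ F => Tup c (a + 1) (b - 1) (fun i => sl F i) σ)
      (fun F σ h => tup_st hB (by omega) h)]
    simp only [e4]
    rw [Pr_sum _ _ (fun σ (F : Finset Edg) => Tup c (a + 1) (b - 1) (fun _ => (↑F : Set Edg)) σ)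
      (fun F σ h => tup_st hB (by omega) h)]
    apply Ex_mono ok
    intro F _
    exact_mod_cast tup_card hB hR (by omega) (↑F : Set Edg)
  · intro ω ω' h
    have h2 : ∀ i, ω i ∩ Ge c (a + 1) (b - 1) = ω' i ∩ Ge c (a + 1) (b - 1) := by
      intro i
      have h3 : Ge c (a + 1) (b - 1) ⊆ Bx c b := Ge_Bx (by omega)
      rw [← Set.inter_eq_self_of_subset_right h3, ← Set.inter_assoc, ← Set.inter_assoc, h i]
    have h4 : {σ : Fin K → St | Tup c (a + 1) (b - 1) ω σ} =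
        {σ : Fin K → St | Tup c (a + 1) (b - 1) ω' σ} := by
      ext σ
      exact ⟨tup_congr hl (by omega) h2, tup_congr hl (by omega) fun i => (h2 i).symm⟩
    show ((Set.ncard {σ : Fin K → St | Tup c (a + 1) (b - 1) ω σ} : ℕ) : ℝ) =
      ((Set.ncard {σ : Fin K → St | Tup c (a + 1) (b - 1) ω' σ} : ℕ) : ℝ)
    rw [h4]

/-- enlarging the set of edges, several configurations -/
theorem prE_local (hB : St_basic) {m K : ℕ} (j : Fin K → Fin m) (ε : Fin K → Bool)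
    (c : Vtx) {a b : ℕ} (hab : a < b) {S S' : Finset Edg} (hS : GeF c a b ⊆ S) (hSS : S ⊆ S') :
    Pr (fun _ => (1/2 : ℝ)) ((Finset.univ : Finset (Fin m)) ×ˢ S')
      (fun F => ∃ σ : Fin K → St, TupE 10 ε c a b (fun i => sl F (j i)) σ) =
    Pr (fun _ => (1/2 : ℝ)) ((Finset.univ : Finset (Fin m)) ×ˢ S)
      (fun F => ∃ σ : Fin K → St, TupE 10 ε c a b (fun i => sl F (j i)) σ) := by
  apply Pr_local (Finset.product_subset_product_right hSS)
  intro F _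
  have h : ∀ i, sl F (j i) ∩ Ge c a b =
      sl (F ∩ ((Finset.univ : Finset (Fin m)) ×ˢ S)) (j i) ∩ Ge c a b :=
    fun i => (sl_inter F (j i) S c a b hS).symm
  constructor
  · rintro ⟨σ, hσ⟩
    exact ⟨σ, tupE_congr hB hab h hσ⟩
  · rintro ⟨σ, hσ⟩
    exact ⟨σ, tupE_congr hB hab (fun i => (h i).symm) hσ⟩

theorem prE_le (hB : St_basic) (hR : St_restr) (hl : St_loc) (hps : St_PS) (hg : St_GPS)
    (h1 : St_SH1) (hL : St_SHL) {m K : ℕ} (j : Fin K → Fin m) (ε : Fin K → Bool) (c : Vtx)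
    {a b : ℕ} (ha : 1 ≤ a) (hab : a + 2 < b) {S : Finset Edg} (hS : GeF c a b ⊆ S) :
    ∃ S' : Finset Edg, GeF c (a + 1) (b - 1) ⊆ S' ∧
    Pr (fun _ => (1/2 : ℝ)) ((Finset.univ : Finset (Fin m)) ×ˢ S)
      (fun F => ∃ σ : Fin K → St, TupE 10 ε c a b (fun i => sl F (j i)) σ) ≤
    Ex (fun _ => (1/2 : ℝ)) S'
      (fun F => (((NL c (a + 1) (b - 1) (↑F : Set Edg)).descFactorial K : ℕ) : ℝ)) := by
  have hS' : GeF c a b ⊆ S ∪ GeF c 0 (b + 2) := hS.trans Finset.subset_union_left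
  refine ⟨S ∪ GeF c 0 (b + 2), (GeF_mono (by omega) (by omega)).trans hS', ?_⟩
  rw [← prE_local hB j ε c (by omega) hS (Finset.subset_union_left (s₂ := GeF c 0 (b + 2)))]
  refine (Pr_ex_le _ (Fintype.piFinset (fun _ : Fin K => Sts c b))
    (fun σ F => TupE 10 ε c a b (fun i => sl F (j i)) σ)
    (fun F σ h => tupE_mem hB (by omega) h)).trans ?_
  have e1 : ∀ σ : Fin K → St,
      Pr (fun _ => (1/2 : ℝ)) ((Finset.univ : Finset (Fin m)) ×ˢ (S ∪ GeF c 0 (b + 2)))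
        (fun F => TupE 10 ε c a b (fun i => sl F (j i)) σ) =
      Pr (fun _ => (1/2 : ℝ)) (S ∪ GeF c 0 (b + 2))
        (fun F => TupE 10 ε c a b (fun _ => (↑F : Set Edg)) σ) := fun σ =>
    prE hB hg j ε c (by omega) hS' σ
  simp only [e1]
  refine main hB hR hl hps hg h1 hL K ε c ha hab ?_
  refine Bx_sub.trans ?_
  exact_mod_cast Finset.subset_union_right

theorem ioE (hB : St_basic) (hR : St_restr) (hl : St_loc) (hps : St_PS) (hg : St_GPS)
    (h1 : St_SH1) (hL : St_SHL) (c : Vtx)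
    {a b : ℕ} (ha : 1 ≤ a) (hab : a + 2 < b) {S : Finset Edg} (hS : GeF c a b ⊆ S) :
    ∃ S' : Finset Edg, GeF c (a + 1) (b - 1) ⊆ S' ∧
    Pr (fun _ => (1/2 : ℝ)) S (fun F => IO 10 c a b (↑F : Set Edg)) ≤
    Ex (fun _ => (1/2 : ℝ)) S'
      (fun F => (((NL c (a + 1) (b - 1) (↑F : Set Edg)).descFactorial 2 : ℕ) : ℝ)) := by
  have hS' : GeF c a b ⊆ S ∪ GeF c 0 (b + 2) := hS.trans Finset.subset_union_left
  refine ⟨S ∪ GeF c 0 (b + 2), (GeF_mono (by omega) (by omega)).trans hS', ?_⟩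
  have hloc : ∀ F : Finset Edg, (∃ σ : Fin 2 → St, TupE 10 ![true, false] c a b
      (fun _ => (↑F : Set Edg)) σ) ↔ ∃ σ : Fin 2 → St, TupE 10 ![true, false] c a b
      (fun _ => (↑(F ∩ S) : Set Edg)) σ := by
    intro F
    have h : (↑F : Set Edg) ∩ Ge c a b = (↑(F ∩ S) : Set Edg) ∩ Ge c a b := (inter_ge hS).symm
    constructor
    · rintro ⟨σ, hσ⟩
      exact ⟨σ, tupE_congr hB (by omega) (fun _ => h) hσ⟩
    · rintro ⟨σ, hσ⟩
      exact ⟨σ, tupE_congr hB (by omega) (fun _ => h.symm) hσ⟩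
  have h2 : Pr (fun _ => (1/2 : ℝ)) S (fun F => IO 10 c a b (↑F : Set Edg)) ≤
      Pr (fun _ => (1/2 : ℝ)) S (fun F => ∃ σ : Fin 2 → St, TupE 10 ![true, false] c a b
        (fun _ => (↑F : Set Edg)) σ) := by
    apply Pr_mono ok
    rintro F _ ⟨σ, T, τ, U, hσ, hτ, hs⟩
    refine ⟨![σ, τ], ![T, U], ?_, ?_⟩
    · rw [Fin.forall_fin_two]
      exact ⟨hσ, hτ⟩
    · intro i i' hii
      fin_cases i <;> fin_cases i'
      · exact absurd rfl hii
      · exact hs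
      · exact sep_symm hs
      · exact absurd rfl hii
  refine h2.trans ?_
  rw [← Pr_local (S := S ∪ GeF c 0 (b + 2)) Finset.subset_union_left (fun F _ => hloc F)]
  refine (Pr_ex_le _ (Fintype.piFinset (fun _ : Fin 2 => Sts c b))
    (fun σ (F : Finset Edg) => TupE 10 ![true, false] c a b (fun _ => (↑F : Set Edg)) σ)
    (fun F σ h => tupE_mem hB (by omega) h)).trans ?_
  refine main hB hR hl hps hg h1 hL 2 ![true, false] c ha hab ?_
  refine Bx_sub.trans ?_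
  exact_mod_cast Finset.subset_union_right

end C4

theorem teUp (hB : St_basic) (hR : St_restr) (hn3 : St_N3) (hf : St_fin) (hl : St_loc)
    (hps : St_PS) (hg : St_GPS) (h1 : St_SH1) (hL : St_SHL) (hE : St_UpE) : St_TEup := by
  intro m K j ε a hK ha
  obtain ⟨C, hC, hCE⟩ := hE K (a + 1) hK (by omega)
  set α : ℝ := (4 * (K : ℝ) ^ 2 - 1) / 12 with hα
  have hK' : (2 : ℝ) ≤ K := by exact_mod_cast hK
  have hα0 : 0 < α := by
    rw [hα]
    have : (4 : ℝ) ≤ (K : ℝ) ^ 2 := by nlinarith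
    linarith
  have h2α : (0 : ℝ) < 2 ^ α := Real.rpow_pos_of_pos (by norm_num) _
  have hbα : (0 : ℝ) < ((3 * a + 20 : ℕ) : ℝ) ^ α :=
    Real.rpow_pos_of_pos (by positivity) _
  refine ⟨C * 2 ^ α + ((3 * a + 20 : ℕ) : ℝ) ^ α, by positivity, ?_⟩
  intro c b S hab hS
  have hb0 : (0 : ℝ) < b := by exact_mod_cast (by omega : 0 < b)
  have hbm : (0 : ℝ) < (b : ℝ) ^ (-α) := Real.rpow_pos_of_pos hb0 _
  by_cases hbig : b ≤ 3 * a + 20
  · refine (Pr_le_one C4.ok _ _).trans ?_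
    have h3 : (1 : ℝ) ≤ ((3 * a + 20 : ℕ) : ℝ) ^ α * (b : ℝ) ^ (-α) := by
      rw [Real.rpow_neg hb0.le, ← div_eq_mul_inv, one_le_div (Real.rpow_pos_of_pos hb0 _)]
      exact Real.rpow_le_rpow hb0.le (by exact_mod_cast hbig) hα0.le
    have h4 : 0 ≤ C * 2 ^ α * (b : ℝ) ^ (-α) := by positivity
    nlinarith
  · obtain ⟨S', hS', hle⟩ := C4.prE_le hB hR hl hps hg h1 hL j ε c ha (by omega) hS
    refine hle.trans ?_
    refine (hCE c (b - 1) S' (by omega) hS').trans ?_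
    have hb1 : (b : ℝ) / 2 ≤ ((b - 1 : ℕ) : ℝ) := by
      rw [Nat.cast_sub (by omega)]
      have : (2 : ℝ) ≤ b := by exact_mod_cast (by omega : 2 ≤ b)
      push_cast
      linarith
    have h5 : ((b - 1 : ℕ) : ℝ) ^ (-α) ≤ 2 ^ α * (b : ℝ) ^ (-α) := by
      have h6 : ((b - 1 : ℕ) : ℝ) ^ (-α) ≤ ((b : ℝ) / 2) ^ (-α) :=
        Real.rpow_le_rpow_of_nonpos (by positivity) hb1 (by linarith)
      refine h6.trans (le_of_eq ?_)
      rw [Real.div_rpow hb0.le (by norm_num), Real.rpow_neg (by norm_num : (0 : ℝ) ≤ 2)]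
      field_simp
    have h7 : 0 ≤ ((3 * a + 20 : ℕ) : ℝ) ^ α * (b : ℝ) ^ (-α) := by positivity
    have h8 : C * ((b - 1 : ℕ) : ℝ) ^ (-α) ≤ C * (2 ^ α * (b : ℝ) ^ (-α)) :=
      mul_le_mul_of_nonneg_left h5 hC.le
    nlinarith

theorem ioUp (hB : St_basic) (hR : St_restr) (hn3 : St_N3) (hf : St_fin) (hl : St_loc)
    (hps : St_PS) (hg : St_GPS) (h1 : St_SH1) (hL : St_SHL) (hE : St_UpE) (hE2 : St_UpE2) :
    St_IOup := by
  obtain ⟨C, hC, hCE⟩ := hE2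
  have h4 : (0 : ℝ) < 4 ^ (5/4 : ℝ) := Real.rpow_pos_of_pos (by norm_num) _
  have h13 : (0 : ℝ) < 13 ^ (5/4 : ℝ) := Real.rpow_pos_of_pos (by norm_num) _
  refine ⟨C * 4 ^ (5/4 : ℝ) + 13 ^ (5/4 : ℝ), by positivity, ?_⟩
  intro c a b S ha hab hS
  have ha0 : (0 : ℝ) < a := by exact_mod_cast (by omega : 0 < a)
  have ha1 : (1 : ℝ) ≤ a := by exact_mod_cast ha
  have hb0 : (0 : ℝ) < b := by exact_mod_cast (by omega : 0 < b)
  have hab0 : (0 : ℝ) < (a : ℝ) / b := div_pos ha0 hb0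
  have habp : (0 : ℝ) < ((a : ℝ) / b) ^ (5/4 : ℝ) := Real.rpow_pos_of_pos hab0 _
  by_cases hbig : 3 * (a + 1) + 6 ≤ b - 1
  · obtain ⟨S', hS', hle⟩ := C4.ioE hB hR hl hps hg h1 hL c ha (by omega) hS
    refine hle.trans ?_
    refine (hCE c (a + 1) (b - 1) S' (by omega) hbig hS').trans ?_
    have hb1 : (b : ℝ) / 2 ≤ ((b - 1 : ℕ) : ℝ) := by
      rw [Nat.cast_sub (by omega)]
      have : (2 : ℝ) ≤ b := by exact_mod_cast (by omega : 2 ≤ b)
      push_cast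
      linarith
    have h5 : (((a + 1 : ℕ) : ℝ) / ((b - 1 : ℕ) : ℝ)) ^ (5/4 : ℝ) ≤
        4 ^ (5/4 : ℝ) * ((a : ℝ) / b) ^ (5/4 : ℝ) := by
      rw [← Real.mul_rpow (by norm_num) hab0.le]
      have hbp : (0 : ℝ) < ((b - 1 : ℕ) : ℝ) := lt_of_lt_of_le (by positivity) hb1
      apply Real.rpow_le_rpow (by positivity) _ (by norm_num)
      rw [div_le_iff₀ hbp]
      have h6 : ((a + 1 : ℕ) : ℝ) ≤ 2 * a := by push_cast; linarith
      have h7 : 2 * (a : ℝ) = 4 * ((a : ℝ) / b) * (b / 2) := by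
        field_simp
        ring
      have h8 : 4 * ((a : ℝ) / b) * (b / 2) ≤ 4 * ((a : ℝ) / b) * ((b - 1 : ℕ) : ℝ) :=
        mul_le_mul_of_nonneg_left hb1 (by positivity)
      linarith
    have h7 : 0 ≤ (13 : ℝ) ^ (5/4 : ℝ) * ((a : ℝ) / b) ^ (5/4 : ℝ) := by positivity
    have h8 := mul_le_mul_of_nonneg_left h5 hC.le
    nlinarith
  · refine (Pr_le_one C4.ok _ _).trans ?_
    have h3 : (1 : ℝ) ≤ 13 ^ (5/4 : ℝ) * ((a : ℝ) / b) ^ (5/4 : ℝ) := by
      rw [← Real.mul_rpow (by norm_num) hab0.le]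
      apply Real.one_le_rpow _ (by norm_num)
      rw [← mul_div_assoc, one_le_div hb0]
      exact_mod_cast (by omega : b ≤ 13 * a)
    have h9 : 0 ≤ C * 4 ^ (5/4 : ℝ) * ((a : ℝ) / b) ^ (5/4 : ℝ) := by positivity
    nlinarith

end Pool.Agent.N948.IX
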