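import Pool.Agent.N948.IX.Cut
import Pool.Agent.TH992.E.Low

/-!
# Project IX: two crossings are rarely close to each other
-/

set_option autoImplicit false

namespace Pool.Agent.N948.IX.C5

open H974 Finset H984P

/-! ### Locality -/

lemma coe_GeF (c : Vtx) (a b : ℕ) : (↑(GeF c a b) : Set Edg) = Ge c a b := by
  obtain ⟨p, q⟩ := c
  ext ⟨x, y, _ | _⟩
  · rw [Finset.mem_coe, GeF, Finset.mem_filter, mem_RE_false]
    simp only [Set.mem_ofPred_eq, Ge, lv, src_mk, tgt_false, abs_eq_max_neg]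
    omega
  · rw [Finset.mem_coe, GeF, Finset.mem_filter, mem_RE_true]
    simp only [Set.mem_ofPred_eq, Ge, lv, src_mk, tgt_true, abs_eq_max_neg]
    omega

lemma oc_loc (c : Vtx) (a b K : ℕ) {F G : Set Edg} (h : F ∩ Ge c a b = G ∩ Ge c a b) :
    OC c a b K F ↔ OC c a b K G := by
  unfold OC
  rw [h]

lemma inter_GeF (c : Vtx) (a b : ℕ) (F : Finset Edg) :
    (↑F : Set Edg) ∩ Ge c a b = (↑(F ∩ GeF c a b) : Set Edg) ∩ Ge c a b := by
  rw [Finset.coe_inter, coe_GeF, Set.inter_assoc, Set.inter_self]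

lemma LS_loc (hl : St_loc) {c : Vtx} {a b : ℕ} (hab : a < b) {F G : Set Edg}
    (h : F ∩ Ge c a b = G ∩ Ge c a b) : LS c a b F = LS c a b G := by
  ext σ
  constructor
  · rintro ⟨T, hT⟩
    exact ⟨T, (hl F G c a b hab h σ T hT).1⟩
  · rintro ⟨T, hT⟩
    exact ⟨T, (hl G F c a b hab h.symm σ T hT).1⟩

lemma NL_eq (c : Vtx) (a b : ℕ) (F : Set Edg) : NL c a b F = Set.ncard (LS c a b F) := rfl

lemma NL_loc (hl : St_loc) {c : Vtx} {a b : ℕ} (hab : a < b) {F G : Set Edg}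
    (h : F ∩ Ge c a b = G ∩ Ge c a b) : NL c a b F = NL c a b G := by
  rw [NL_eq, NL_eq, LS_loc hl hab h]

/-- The pairs of separated crossings. -/
def TS (c : Vtx) (a b : ℕ) (F : Set Edg) : Set (Fin 2 → St) :=
  {σ | TupE 12 (fun _ => true) c a b (fun _ => F) σ}

lemma TS_sub (hl : St_loc) {c : Vtx} {a b : ℕ} (hab : a < b) {F G : Set Edg}
    (h : F ∩ Ge c a b = G ∩ Ge c a b) : TS c a b F ⊆ TS c a b G := by
  rintro σ ⟨T, h1, h2⟩
  have h3 : ∀ i, InLeg F c a b (σ i) (T i) := fun i => by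
    have := h1 i
    unfold Leg at this
    simpa using this
  refine ⟨T, fun i => ?_, fun i i' hi => ?_⟩
  · unfold Leg
    simp only [if_true]
    exact (hl F G c a b hab h _ _ (h3 i)).1
  · have := h2 i i' hi
    rw [(hl F G c a b hab h _ _ (h3 i)).2, (hl F G c a b hab h _ _ (h3 i')).2]
    exact this

lemma TS_loc (hl : St_loc) {c : Vtx} {a b : ℕ} (hab : a < b) {F G : Set Edg}
    (h : F ∩ Ge c a b = G ∩ Ge c a b) : TS c a b F = TS c a b G :=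
  Set.Subset.antisymm (TS_sub hl hab h) (TS_sub hl hab h.symm)

/-! ### Restriction of crossings -/

lemma sub_leg (hR : St_restr) {F : Set Edg} {c : Vtx} {a' a b B : ℕ} {σ : St} {T : ℕ}
    (h1 : a' ≤ a) (h2 : a < b) (h3 : b ≤ B) (hT : InLeg F c a' B σ T) :
    ∃ s T'' : ℕ, s < T ∧ s + T'' ≤ T ∧ InLeg F c a b (orb F σ s) T'' := by
  obtain ⟨-, g1, -, -⟩ := hR F c a' B σ T (by omega) hT
  obtain ⟨T', hT', hL⟩ := g1 a h1 (by omega)
  obtain ⟨-, -, g2, -⟩ := hR F c a B σ T' (by omega) hL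
  obtain ⟨s, hs, hL'⟩ := g2 b h2 h3
  exact ⟨s, T' - s, by omega, by omega, hL'⟩

lemma orb_ne (hR : St_restr) {F : Set Edg} {c : Vtx} {a' B : ℕ} {σ σ' : St} {T T' s s' : ℕ}
    (hab : a' < B) (hT : InLeg F c a' B σ T) (hT' : InLeg F c a' B σ' T') (hs : s < T)
    (hs' : s' < T') (hne : σ ≠ σ') : orb F σ s ≠ orb F σ' s' := by
  intro h
  obtain ⟨-, -, -, g⟩ := hR F c a' B σ T hab hT
  exact hne (g σ' T' s s' hT' hs hs' h).1

lemma oc_two (hR : St_restr) (hc' : St_cnt') {F : Set Edg} {c : Vtx} {a' B m m' : ℕ} {σ σ' : St}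
    {T T' : ℕ} (h1 : a' ≤ m) (h2 : m < m') (h3 : m' ≤ B) (hT : InLeg F c a' B σ T)
    (hT' : InLeg F c a' B σ' T') (hne : σ ≠ σ') : OC c m m' 2 F := by
  obtain ⟨s, U, hs, -, hL⟩ := sub_leg hR h1 h2 h3 hT
  obtain ⟨s', U', hs', -, hL'⟩ := sub_leg hR h1 h2 h3 hT'
  have hne' := orb_ne hR (by omega) hT hT' hs hs' hne
  refine hc' F c m m' 2 ![orb F σ s, orb F σ' s'] h2 ?_ ?_
  · intro i j hij
    fin_cases i <;> fin_cases j
    · rfl
    · exact absurd hij hne'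
    · exact absurd hij.symm hne'
    · rfl
  · intro i
    fin_cases i
    · exact ⟨U, hL⟩
    · exact ⟨U', hL'⟩

/-! ### Levels -/

lemma lv_le_iff {c v : Vtx} {n : ℤ} : lv c v ≤ n ↔
    -n ≤ v.1 - c.1 ∧ v.1 - c.1 ≤ n ∧ -n ≤ v.2 - c.2 ∧ v.2 - c.2 ≤ n := by
  unfold lv
  rw [max_le_iff, abs_le, abs_le]
  tauto

lemma lv_nonneg (c v : Vtx) : 0 ≤ lv c v := le_max_of_le_left (abs_nonneg _)

lemma lv_symm (u v : Vtx) : lv u v = lv v u := by
  unfold lv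
  rw [abs_sub_comm, abs_sub_comm v.2]

lemma lv_tri (c z v : Vtx) : lv c v ≤ lv c z + lv z v := by
  have h1 := lv_le_iff.1 (le_refl (lv c z))
  have h2 := lv_le_iff.1 (le_refl (lv z v))
  rw [lv_le_iff]
  omega

lemma lv_ae (σ : St) : lv (src (ae σ)) σ.1 ≤ 1 := by
  obtain ⟨⟨x, y⟩, q⟩ := σ
  rw [lv_le_iff]
  cases q <;> simp [ae, src]

/-! ### Pairs of crossings -/

/-- The pairs of different crossings. -/
def PS (c : Vtx) (a b : ℕ) (F : Set Edg) : Set (Fin 2 → St) :=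
  {p | p 0 ∈ LS c a b F ∧ p 1 ∈ LS c a b F ∧ p 0 ≠ p 1}

lemma fin_pi {X : Set (Fin 2 → St)} {L : Set St} {A : Finset St} (hL : L ⊆ ↑A)
    (hX : ∀ p ∈ X, ∀ i, p i ∈ L) : X.Finite := by
  refine (Finset.finite_toSet (Fintype.piFinset fun _ : Fin 2 => A)).subset fun p hp => ?_
  rw [Finset.mem_coe, Fintype.mem_piFinset]
  exact fun i => hL (hX p hp i)

lemma PS_mem {c : Vtx} {a b : ℕ} {F : Set Edg} {p : Fin 2 → St} (hp : p ∈ PS c a b F)
    (i : Fin 2) : p i ∈ LS c a b F := by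
  fin_cases i
  · exact hp.1
  · exact hp.2.1

lemma PS_fin (hf : St_fin) {c : Vtx} {a b : ℕ} (hab : a < b) (F : Set Edg) :
    (PS c a b F).Finite := by
  obtain ⟨A, hA⟩ := hf c b
  exact fin_pi (hA F a hab) fun p hp i => PS_mem hp i

lemma TS_fin (hf : St_fin) {c : Vtx} {a b : ℕ} (hab : a < b) (F : Set Edg) :
    (TS c a b F).Finite := by
  obtain ⟨A, hA⟩ := hf c b
  refine fin_pi (hA F a hab) ?_
  rintro p ⟨T, h1, -⟩ i
  have := h1 i
  unfold Leg at this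
  simp only [if_true] at this
  exact ⟨_, this⟩

lemma PS_card (hf : St_fin) {c : Vtx} {a a2 b : ℕ} (hab2 : a2 < b) {F : Set Edg}
    (hsub : LS c a b F ⊆ LS c a2 b F) : (PS c a b F).ncard ≤ NL c a2 b F ^ 2 := by
  obtain ⟨A, hA⟩ := hf c b
  have hfin : (LS c a2 b F).Finite := (Finset.finite_toSet A).subset (hA F a2 hab2)
  rw [NL_eq, sq, ← Set.ncard_prod]
  refine Set.ncard_le_ncard_of_injOn (fun p => (p 0, p 1)) ?_ ?_ (hfin.prod hfin)
  · intro p hp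
    exact ⟨hsub hp.1, hsub hp.2.1⟩
  · intro p _ p' _ h
    simp only [Prod.mk.injEq] at h
    funext i
    fin_cases i
    · exact h.1
    · exact h.2

lemma PS_pos (hf : St_fin) (hc : St_cnt) {c : Vtx} {a b : ℕ} (ha : 1 ≤ a) (hab : a < b)
    (F : Set Edg) : ind (OC c a b 2 F) ≤ ((PS c a b F).ncard : ℝ) := by
  by_cases h : OC c a b 2 F
  · rw [ind_of h]
    obtain ⟨σ, h1, h2⟩ := hc F c a b 2 ha hab le_rfl h
    have h3 : σ ∈ PS c a b F := ⟨h2 0, h2 1, fun h0 => by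
      have := h1 h0
      simp at this⟩
    have h4 : 0 < (PS c a b F).ncard := (Set.ncard_pos (PS_fin hf hab F)).2 ⟨σ, h3⟩
    exact_mod_cast h4
  · rw [ind_not_of h]
    positivity

/-- The level of a point. -/
def Lz (c z : Vtx) : ℕ := (lv c z).toNat

lemma Lz_eq (c z : Vtx) : ((Lz c z : ℕ) : ℤ) = lv c z := Int.toNat_of_nonneg (lv_nonneg c z)

lemma bad_point (hB : St_basic) (hR : St_restr) (hTL : St_TL) (hc' : St_cnt') {F : Set Edg}
    {c : Vtx} {a b : ℕ} (ha : 240 ≤ a) (hab : a < b) {σ σ' : St} {T T' s s' U U' : ℕ}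
    (hT : InLeg F c (a / 2) (12 * b + 3) σ T) (hT' : InLeg F c (a / 2) (12 * b + 3) σ' T')
    (hne : σ ≠ σ') (hsU : s + U ≤ T) (hsU' : s' + U' ≤ T')
    (hU : InLeg F c a b (orb F σ s) U)
    {e e' : Edg} (he : e ∈ Exm F (orb F σ s) U) (he' : e' ∈ Exm F (orb F σ' s') U')
    (hd : lv (src e) (src e') < 12) :
    (a : ℤ) ≤ lv c (src e) ∧ lv c (src e) ≤ b ∧
      OC c (a / 2) (Lz c (src e) - Lz c (src e) / 8 - 1) 2 F ∧
      OC (src e) 15 (Lz c (src e) / 8) 3 F ∧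
      OC c (Lz c (src e) + Lz c (src e) / 8 + 1) (4 * b) 2 F := by
  obtain ⟨t, ht, rfl⟩ := mem_Exm.1 he
  obtain ⟨t', ht', rfl⟩ := mem_Exm.1 he'
  obtain ⟨-, -, -, hG, -⟩ := hB F c a b _ U hab hU
  obtain ⟨⟨h1, h2⟩, -⟩ := hG t ht
  set z := src (ae (orb F (orb F σ s) t)) with hz
  have hL := Lz_eq c z
  have hL1 : a ≤ Lz c z := by omega
  have hL2 : Lz c z ≤ b := by omega
  refine ⟨h1, h2, ?_, ?_, ?_⟩
  · exact oc_two hR hc' le_rfl (by omega) (by omega) hT hT' hne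
  · refine hTL F c (a / 2) (12 * b + 3) σ σ' T T' z 13 (Lz c z / 8) (by omega) (by omega) hT hT'
      hne (by omega) (by omega) (by omega) ⟨t + s, by omega, ?_⟩ ⟨t' + s', by omega, ?_⟩
    · rw [orb_add]
      have := lv_ae (orb F (orb F σ s) t)
      rw [← hz] at this
      omega
    · rw [orb_add]
      have g1 := lv_ae (orb F (orb F σ' s') t')
      have g2 := lv_tri z (src (ae (orb F (orb F σ' s') t'))) (orb F (orb F σ' s') t').1
      omega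
  · exact oc_two hR hc' (by omega) (by omega) (by omega) hT hT' hne

/-- The points of the annulus. -/
noncomputable def Zs (c : Vtx) (a b : ℕ) : Finset Vtx :=
  ((Finset.Icc (c.1 - b) (c.1 + b)) ×ˢ (Finset.Icc (c.2 - b) (c.2 + b))).filter
    fun z => (a : ℤ) ≤ lv c z

lemma mem_Zs {c z : Vtx} {a b : ℕ} : z ∈ Zs c a b ↔ (a : ℤ) ≤ lv c z ∧ lv c z ≤ b := by
  unfold Zs
  rw [Finset.mem_filter, Finset.mem_product, Finset.mem_Icc, Finset.mem_Icc, lv_le_iff]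
  constructor
  · rintro ⟨⟨⟨h1, h2⟩, h3, h4⟩, h5⟩
    exact ⟨h5, by linarith, by linarith, by linarith, by linarith⟩
  · rintro ⟨h5, h1, h2, h3, h4⟩
    exact ⟨⟨⟨by linarith, by linarith⟩, by linarith, by linarith⟩, h5⟩

/-- The contribution of a point. -/
noncomputable def pc (c : Vtx) (a b : ℕ) (z : Vtx) (F : Set Edg) : ℝ :=
  ind (OC c (a / 2) (Lz c z - Lz c z / 8 - 1) 2 F) * (ind (OC z 15 (Lz c z / 8) 3 F) *
    (ind (OC c (Lz c z + Lz c z / 8 + 1) (4 * b) 2 F) *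
      ((NL c (4 * b + 1) (12 * b + 3) F : ℕ) : ℝ) ^ 2))

lemma pc_nonneg (c : Vtx) (a b : ℕ) (z : Vtx) (F : Set Edg) : 0 ≤ pc c a b z F :=
  mul_nonneg (ind_nonneg _) (mul_nonneg (ind_nonneg _) (mul_nonneg (ind_nonneg _) (sq_nonneg _)))

theorem count_ineq (hB : St_basic) (hR : St_restr) (hTL : St_TL) (hf : St_fin) (hc' : St_cnt')
    {c : Vtx} {a b : ℕ} (ha : 240 ≤ a) (hab : a < b) (F : Set Edg) :
    ((PS c (a / 2) (12 * b + 3) F).ncard : ℝ) ≤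
      ((TS c a b F).ncard : ℝ) + ∑ z ∈ Zs c a b, pc c a b z F := by
  classical
  have hsum : 0 ≤ ∑ z ∈ Zs c a b, pc c a b z F := Finset.sum_nonneg fun z _ => pc_nonneg c a b z F
  -- the restricted crossings
  have hex : ∀ σ : St, ∃ (T s U : ℕ), σ ∈ LS c (a / 2) (12 * b + 3) F →
      InLeg F c (a / 2) (12 * b + 3) σ T ∧ s < T ∧ s + U ≤ T ∧
      InLeg F c a b (orb F σ s) U := by
    intro σ
    by_cases h : σ ∈ LS c (a / 2) (12 * b + 3) F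
    · obtain ⟨T, hT⟩ := h
      obtain ⟨s, U, h1, h2, h3⟩ := sub_leg hR (a := a) (b := b) (by omega) hab (by omega) hT
      exact ⟨T, s, U, fun _ => ⟨hT, h1, h2, h3⟩⟩
    · exact ⟨0, 0, 0, fun h' => absurd h' h⟩
  choose T s U hTU using hex
  by_cases hbad : ∃ p ∈ PS c (a / 2) (12 * b + 3) F, (fun i => orb F (p i) (s (p i))) ∉ TS c a b F
  · -- two crossings near each other
    obtain ⟨p, hp, hpb⟩ := hbad
    have hleg : ∀ i, InLeg F c a b (orb F (p i) (s (p i))) (U (p i)) := fun i =>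
      (hTU (p i) (PS_mem hp i)).2.2.2
    have hns : ¬ ∀ i i' : Fin 2, i ≠ i' → Sep 12 (Exm F (orb F (p i) (s (p i))) (U (p i)))
        (Exm F (orb F (p i') (s (p i'))) (U (p i'))) := by
      intro h
      apply hpb
      refine ⟨fun i => U (p i), fun i => ?_, h⟩
      unfold Leg
      simp only [if_true]
      exact hleg i
    push Not at hns
    obtain ⟨i, i', hii, hsep⟩ := hns
    unfold Sep at hsep
    push Not at hsep
    obtain ⟨e, he, e', he', hd⟩ := hsep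
    have hne : p i ≠ p i' := by
      fin_cases i <;> fin_cases i'
      · exact absurd rfl hii
      · exact hp.2.2
      · exact hp.2.2.symm
      · exact absurd rfl hii
    obtain ⟨g1, g2, g3, g4, g5⟩ := bad_point hB hR hTL hc' ha hab (hTU (p i) (PS_mem hp i)).1
      (hTU (p i') (PS_mem hp i')).1 hne (hTU (p i) (PS_mem hp i)).2.2.1
      (hTU (p i') (PS_mem hp i')).2.2.1 (hleg i) he he' (by exact_mod_cast hd)
    have hz : src e ∈ Zs c a b := mem_Zs.2 ⟨g1, g2⟩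
    have hpc : pc c a b (src e) F = ((NL c (4 * b + 1) (12 * b + 3) F : ℕ) : ℝ) ^ 2 := by
      unfold pc
      rw [ind_of g3, ind_of g4, ind_of g5, one_mul, one_mul, one_mul]
    have h1 : pc c a b (src e) F ≤ ∑ z ∈ Zs c a b, pc c a b z F :=
      Finset.single_le_sum (f := fun z => pc c a b z F) (fun z _ => pc_nonneg c a b z F) hz
    have hsub : LS c (a / 2) (12 * b + 3) F ⊆ LS c (4 * b + 1) (12 * b + 3) F := by
      rintro σ ⟨T0, hT0⟩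
      obtain ⟨T1, -, hT1⟩ := (hR F c (a / 2) (12 * b + 3) σ T0 (by omega) hT0).2.1 (4 * b + 1)
        (by omega) (by omega)
      exact ⟨T1, hT1⟩
    have h2 := PS_card hf (a := a / 2) (a2 := 4 * b + 1) (b := 12 * b + 3) (by omega) hsub
    have h3 : ((PS c (a / 2) (12 * b + 3) F).ncard : ℝ) ≤
        ((NL c (4 * b + 1) (12 * b + 3) F : ℕ) : ℝ) ^ 2 := by exact_mod_cast h2
    have h4 : (0 : ℝ) ≤ ((TS c a b F).ncard : ℝ) := Nat.cast_nonneg _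
    linarith
  · -- all pairs are separated
    push Not at hbad
    have h1 : (PS c (a / 2) (12 * b + 3) F).ncard ≤ (TS c a b F).ncard := by
      refine Set.ncard_le_ncard_of_injOn (fun p i => orb F (p i) (s (p i))) hbad ?_
        (TS_fin hf hab F)
      intro p hp p' hp' h
      funext i
      have h2 := congrFun h i
      by_contra hne
      exact orb_ne hR (by omega) (hTU (p i) (PS_mem hp i)).1 (hTU (p' i) (PS_mem hp' i)).1
        (hTU (p i) (PS_mem hp i)).2.1 (hTU (p' i) (PS_mem hp' i)).2.1 hne h2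
    have h2 : ((PS c (a / 2) (12 * b + 3) F).ncard : ℝ) ≤ ((TS c a b F).ncard : ℝ) := by
      exact_mod_cast h1
    linarith

/-! ### Expectations -/

/-- Functions of the edges of a finite set. -/
def Loc (X : Finset Edg) (f : Finset Edg → ℝ) : Prop :=
  ∀ F G : Finset Edg, F ∩ X = G ∩ X → f F = f G

lemma Loc.inter {X T : Finset Edg} {f : Finset Edg → ℝ} (h : Loc X f) (hXT : X ⊆ T)
    (F : Finset Edg) : f F = f (F ∩ T) := by
  apply h
  rw [Finset.inter_assoc, Finset.inter_eq_right.2 hXT]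

lemma Loc.mul {X Y : Finset Edg} {f g : Finset Edg → ℝ} (hf : Loc X f) (hg : Loc Y g) :
    Loc (X ∪ Y) (fun F => f F * g F) := by
  intro F G h
  have h1 : F ∩ X = G ∩ X := by
    have := congrArg (fun Z => Z ∩ X) h
    simpa only [Finset.inter_assoc, Finset.inter_eq_right.2 Finset.subset_union_left] using this
  have h2 : F ∩ Y = G ∩ Y := by
    have := congrArg (fun Z => Z ∩ Y) h
    simpa only [Finset.inter_assoc, Finset.inter_eq_right.2 Finset.subset_union_right] using this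
  show f F * g F = f G * g G
  rw [hf F G h1, hg F G h2]

lemma Ex_mul {X Y U : Finset Edg} (hX : X ⊆ U) (hY : Y ⊆ U) (hd : Disjoint X Y)
    {f g : Finset Edg → ℝ} (hf : Loc X f) (hg : Loc Y g) :
    Ex (fun _ => (1/2 : ℝ)) U (fun F => f F * g F) =
      Ex (fun _ => (1/2 : ℝ)) U f * Ex (fun _ => (1/2 : ℝ)) U g :=
  Ex_mul_indep hX hY hd (fun F _ => hf.inter subset_rfl F) (fun F _ => hg.inter subset_rfl F)

lemma Loc_of_Ge {c : Vtx} {a b : ℕ} {f : Set Edg → ℝ}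
    (h : ∀ F G : Set Edg, F ∩ Ge c a b = G ∩ Ge c a b → f F = f G) :
    Loc (GeF c a b) (fun F => f (↑F : Set Edg)) := by
  intro F G hFG
  apply h
  rw [inter_GeF, hFG, ← inter_GeF]

lemma mem_GeF {c : Vtx} {a b : ℕ} {e : Edg} : e ∈ GeF c a b ↔
    ((a : ℤ) ≤ lv c (src e) ∧ lv c (src e) ≤ b) ∧ ((a : ℤ) ≤ lv c (tgt e) ∧ lv c (tgt e) ≤ b) := by
  rw [← Finset.mem_coe, coe_GeF]
  rfl

lemma GeF_mono {c : Vtx} {a b a' b' : ℕ} (h1 : a' ≤ a) (h2 : b ≤ b') :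
    GeF c a b ⊆ GeF c a' b' := by
  intro e he
  rw [mem_GeF] at he ⊢
  omega

lemma ok : Ok (fun _ : Edg => (1/2 : ℝ)) := fun _ => by constructor <;> norm_num

lemma Ex_pc (hl : St_loc) {c z : Vtx} {a b : ℕ} (ha : 240 ≤ a) (hz : z ∈ Zs c a b) :
    Ex (fun _ => (1/2 : ℝ)) (GeF c (a / 2) (12 * b + 3)) (fun F => pc c a b z (↑F : Set Edg)) =
      Pr (fun _ => (1/2 : ℝ)) (GeF c (a / 2) (12 * b + 3))
        (fun F => OC c (a / 2) (Lz c z - Lz c z / 8 - 1) 2 (↑F : Set Edg)) *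
      (Pr (fun _ => (1/2 : ℝ)) (GeF c (a / 2) (12 * b + 3))
        (fun F => OC z 15 (Lz c z / 8) 3 (↑F : Set Edg)) *
      (Pr (fun _ => (1/2 : ℝ)) (GeF c (a / 2) (12 * b + 3))
        (fun F => OC c (Lz c z + Lz c z / 8 + 1) (4 * b) 2 (↑F : Set Edg)) *
      Ex (fun _ => (1/2 : ℝ)) (GeF c (a / 2) (12 * b + 3))
        (fun F => ((NL c (4 * b + 1) (12 * b + 3) (↑F : Set Edg) : ℕ) : ℝ) ^ 2))) := by
  obtain ⟨hz1, hz2⟩ := mem_Zs.1 hz
  have hL := Lz_eq c z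
  have hL1 : a ≤ Lz c z := by omega
  have hL2 : Lz c z ≤ b := by omega
  have l1 : Loc (GeF c (a / 2) (Lz c z - Lz c z / 8 - 1))
      (fun F => ind (OC c (a / 2) (Lz c z - Lz c z / 8 - 1) 2 (↑F : Set Edg))) :=
    Loc_of_Ge (f := fun F => ind (OC c (a / 2) (Lz c z - Lz c z / 8 - 1) 2 F))
      fun F G h => ind_congr (oc_loc _ _ _ _ h)
  have l2 : Loc (GeF z 15 (Lz c z / 8)) (fun F => ind (OC z 15 (Lz c z / 8) 3 (↑F : Set Edg))) :=
    Loc_of_Ge (f := fun F => ind (OC z 15 (Lz c z / 8) 3 F))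
      fun F G h => ind_congr (oc_loc _ _ _ _ h)
  have l3 : Loc (GeF c (Lz c z + Lz c z / 8 + 1) (4 * b))
      (fun F => ind (OC c (Lz c z + Lz c z / 8 + 1) (4 * b) 2 (↑F : Set Edg))) :=
    Loc_of_Ge (f := fun F => ind (OC c (Lz c z + Lz c z / 8 + 1) (4 * b) 2 F))
      fun F G h => ind_congr (oc_loc _ _ _ _ h)
  have l4 : Loc (GeF c (4 * b + 1) (12 * b + 3))
      (fun F => ((NL c (4 * b + 1) (12 * b + 3) (↑F : Set Edg) : ℕ) : ℝ) ^ 2) :=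
    Loc_of_Ge (f := fun F => ((NL c (4 * b + 1) (12 * b + 3) F : ℕ) : ℝ) ^ 2)
      fun F G h => by rw [NL_loc hl (by omega) h]
  have s1 : GeF c (a / 2) (Lz c z - Lz c z / 8 - 1) ⊆ GeF c (a / 2) (12 * b + 3) :=
    GeF_mono le_rfl (by omega)
  have s2 : GeF z 15 (Lz c z / 8) ⊆ GeF c (a / 2) (12 * b + 3) := by
    intro e he
    rw [mem_GeF] at he ⊢
    have t1 := lv_tri c z (src e)
    have t2 := lv_tri c z (tgt e)
    have t3 := lv_tri c (src e) z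
    have t4 := lv_tri c (tgt e) z
    rw [lv_symm (src e) z] at t3
    rw [lv_symm (tgt e) z] at t4
    omega
  have s3 : GeF c (Lz c z + Lz c z / 8 + 1) (4 * b) ⊆ GeF c (a / 2) (12 * b + 3) :=
    GeF_mono (by omega) (by omega)
  have s4 : GeF c (4 * b + 1) (12 * b + 3) ⊆ GeF c (a / 2) (12 * b + 3) :=
    GeF_mono (by omega) le_rfl
  have d34 : Disjoint (GeF c (Lz c z + Lz c z / 8 + 1) (4 * b)) (GeF c (4 * b + 1) (12 * b + 3)) := by
    rw [Finset.disjoint_left]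
    intro e h1 h2
    rw [mem_GeF] at h1 h2
    omega
  have d2 : Disjoint (GeF z 15 (Lz c z / 8)) (GeF c (Lz c z + Lz c z / 8 + 1) (4 * b) ∪
      GeF c (4 * b + 1) (12 * b + 3)) := by
    rw [Finset.disjoint_left]
    intro e h1 h2
    have t1 := lv_tri c z (src e)
    rw [Finset.mem_union, mem_GeF, mem_GeF] at h2
    rw [mem_GeF] at h1
    omega
  have d1 : Disjoint (GeF c (a / 2) (Lz c z - Lz c z / 8 - 1)) (GeF z 15 (Lz c z / 8) ∪
      (GeF c (Lz c z + Lz c z / 8 + 1) (4 * b) ∪ GeF c (4 * b + 1) (12 * b + 3))) := by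
    rw [Finset.disjoint_left]
    intro e h1 h2
    have t3 := lv_tri c (src e) z
    rw [lv_symm (src e) z] at t3
    rw [Finset.mem_union, Finset.mem_union, mem_GeF, mem_GeF, mem_GeF] at h2
    rw [mem_GeF] at h1
    omega
  have e3 := Ex_mul s3 s4 d34 l3 l4
  have e2 := Ex_mul s2 (Finset.union_subset s3 s4) d2 l2 (l3.mul l4)
  have e1 := Ex_mul s1 (Finset.union_subset s2 (Finset.union_subset s3 s4)) d1 l1
    (l2.mul (l3.mul l4))
  unfold pc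
  rw [e1, e2, e3]
  rfl

/-! ### Numbers -/

lemma num1 {a b L : ℕ} (ha : 240 ≤ a) (hL1 : a ≤ L) (hL2 : L ≤ b) :
    (((a / 2 : ℕ) : ℝ) / ((L - L / 8 - 1 : ℕ) : ℝ)) ^ (5 / 4 : ℝ) *
      (((L + L / 8 + 1 : ℕ) : ℝ) / ((4 * b : ℕ) : ℝ)) ^ (5 / 4 : ℝ) ≤
      ((a : ℝ) / b) ^ (5 / 4 : ℝ) := by
  rw [← Real.mul_rpow (by positivity) (by positivity)]
  refine Real.rpow_le_rpow (by positivity) ?_ (by norm_num)
  have h1 : (2 : ℝ) * ((a / 2 : ℕ) : ℝ) ≤ a := by exact_mod_cast (by omega : 2 * (a / 2) ≤ a)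
  have h2 : (L : ℝ) ≤ 2 * ((L - L / 8 - 1 : ℕ) : ℝ) := by
    exact_mod_cast (by omega : L ≤ 2 * (L - L / 8 - 1))
  have h3 : ((L + L / 8 + 1 : ℕ) : ℝ) ≤ 2 * L := by
    exact_mod_cast (by omega : L + L / 8 + 1 ≤ 2 * L)
  have hL : (0 : ℝ) < L := by exact_mod_cast (by omega : 0 < L)
  have hb : (0 : ℝ) < b := by exact_mod_cast (by omega : 0 < b)
  have ha0 : (0 : ℝ) < a := by exact_mod_cast (by omega : 0 < a)
  have hm : (0 : ℝ) < ((L - L / 8 - 1 : ℕ) : ℝ) := by linarith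
  have hb4 : (0 : ℝ) < ((4 * b : ℕ) : ℝ) := by exact_mod_cast (by omega : 0 < 4 * b)
  rw [div_mul_div_comm, div_le_div_iff₀ (mul_pos hm hb4) hb]
  have e1 : ((a / 2 : ℕ) : ℝ) * ((L + L / 8 + 1 : ℕ) : ℝ) ≤ (a / 2) * (2 * L) :=
    mul_le_mul (by linarith) h3 (by positivity) (by positivity)
  have e2 : (a : ℝ) * (((L - L / 8 - 1 : ℕ) : ℝ) * ((4 * b : ℕ) : ℝ)) =
      (a * (4 * b)) * ((L - L / 8 - 1 : ℕ) : ℝ) := by
    push_cast
    ring
  rw [e2]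
  calc ((a / 2 : ℕ) : ℝ) * ((L + L / 8 + 1 : ℕ) : ℝ) * b ≤ (a / 2) * (2 * L) * b :=
        mul_le_mul_of_nonneg_right e1 hb.le
    _ ≤ (a * (4 * b)) * (L / 2) := by
        have : 0 < (a : ℝ) * L * b := by positivity
        nlinarith
    _ ≤ (a * (4 * b)) * ((L - L / 8 - 1 : ℕ) : ℝ) :=
        mul_le_mul_of_nonneg_left (by linarith) (by positivity)

lemma num2 {L : ℕ} (hL : 240 ≤ L) : ((L / 8 : ℕ) : ℝ) ^ (-(35 / 12) : ℝ) ≤
    (1 / 16 : ℝ) ^ (-(35 / 12) : ℝ) * (L : ℝ) ^ (-(35 / 12) : ℝ) := by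
  rw [← Real.mul_rpow (by norm_num) (by positivity)]
  have h1 : (L : ℝ) ≤ 16 * ((L / 8 : ℕ) : ℝ) := by exact_mod_cast (by omega : L ≤ 16 * (L / 8))
  have hL0 : (0 : ℝ) < L := by exact_mod_cast (by omega : 0 < L)
  exact Real.rpow_le_rpow_of_nonpos (by linarith) (by linarith) (by norm_num)

/-- The weight of an integer. -/
noncomputable def gz (x : ℤ) : ℝ := (|(x : ℝ)| + 1) ^ (-(4 / 3) : ℝ)

lemma gz_nonneg (x : ℤ) : 0 ≤ gz x := by unfold gz; positivity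

lemma gz_summable : Summable gz := by
  have h1 : Summable fun n : ℕ => ((n : ℝ) + 1) ^ (-(4 / 3) : ℝ) := by
    have h2 : Summable fun n : ℕ => (n : ℝ) ^ (-(4 / 3) : ℝ) :=
      Real.summable_nat_rpow.2 (by norm_num)
    have h3 := (summable_nat_add_iff 1).2 h2
    refine h3.congr fun n => ?_
    push_cast
    rfl
  apply Summable.of_nat_of_neg
  · refine h1.congr fun n => ?_
    unfold gz
    simp
  · refine h1.congr fun n => ?_
    unfold gz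
    simp

lemma gz_sum (c : ℤ) (A : Finset ℤ) : ∑ x ∈ A, gz (x - c) ≤ ∑' x, gz x := by
  have h1 : Summable fun x : ℤ => gz (x - c) := (Equiv.subRight c).summable_iff.2 gz_summable
  have h2 : ∑' x : ℤ, gz (x - c) = ∑' x, gz x := (Equiv.subRight c).tsum_eq gz
  rw [← h2]
  exact h1.sum_le_tsum A fun x _ => gz_nonneg _

lemma num3 {c z : Vtx} {a b : ℕ} (ha : 1 ≤ a) (hz : z ∈ Zs c a b) :
    ((Lz c z : ℕ) : ℝ) ^ (-(35 / 12) : ℝ) ≤ (a : ℝ) ^ (-(1 / 4) : ℝ) *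
      (((1 / 2 : ℝ) ^ (-(4 / 3) : ℝ) * gz (z.1 - c.1)) *
        ((1 / 2 : ℝ) ^ (-(4 / 3) : ℝ) * gz (z.2 - c.2))) := by
  obtain ⟨hz1, hz2⟩ := mem_Zs.1 hz
  have hL := Lz_eq c z
  have hL1 : a ≤ Lz c z := by omega
  have ha0 : (0 : ℝ) < a := by exact_mod_cast (by omega : 0 < a)
  have hLa : (a : ℝ) ≤ (Lz c z : ℝ) := by exact_mod_cast hL1
  have hL0 : (0 : ℝ) < (Lz c z : ℝ) := lt_of_lt_of_le ha0 hLa
  have hL2 : (1 : ℝ) ≤ (Lz c z : ℝ) := by exact_mod_cast (by omega : 1 ≤ Lz c z)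
  have hlv : ((Lz c z : ℕ) : ℝ) = ((lv c z : ℤ) : ℝ) := by rw [← hL]; simp
  have hx : |((z.1 - c.1 : ℤ) : ℝ)| ≤ (Lz c z : ℝ) := by
    rw [hlv]
    exact_mod_cast (le_max_left _ _ : |z.1 - c.1| ≤ lv c z)
  have hy : |((z.2 - c.2 : ℤ) : ℝ)| ≤ (Lz c z : ℝ) := by
    rw [hlv]
    exact_mod_cast (le_max_right _ _ : |z.2 - c.2| ≤ lv c z)
  have key : ∀ x : ℤ, |(x : ℝ)| ≤ (Lz c z : ℝ) → ((Lz c z : ℕ) : ℝ) ^ (-(4 / 3) : ℝ) ≤
      (1 / 2 : ℝ) ^ (-(4 / 3) : ℝ) * gz x := by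
    intro x hx
    unfold gz
    rw [← Real.mul_rpow (by norm_num) (by positivity)]
    refine Real.rpow_le_rpow_of_nonpos (by positivity) (by linarith) (by norm_num)
  have h1 : ((Lz c z : ℕ) : ℝ) ^ (-(35 / 12) : ℝ) = ((Lz c z : ℕ) : ℝ) ^ (-(1 / 4) : ℝ) *
      (((Lz c z : ℕ) : ℝ) ^ (-(4 / 3) : ℝ) * ((Lz c z : ℕ) : ℝ) ^ (-(4 / 3) : ℝ)) := by
    rw [← Real.rpow_add hL0, ← Real.rpow_add hL0]
    norm_num
  rw [h1]
  refine mul_le_mul ?_ (mul_le_mul (key _ hx) (key _ hy) (by positivity) ?_) (by positivity)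
    (by positivity)
  · exact Real.rpow_le_rpow_of_nonpos ha0 hLa (by norm_num)
  · exact mul_nonneg (by positivity) (gz_nonneg _)

lemma num4 {c : Vtx} {a b : ℕ} (ha : 1 ≤ a) :
    ∑ z ∈ Zs c a b, ((Lz c z : ℕ) : ℝ) ^ (-(35 / 12) : ℝ) ≤ (a : ℝ) ^ (-(1 / 4) : ℝ) *
      ((1 / 2 : ℝ) ^ (-(4 / 3) : ℝ) * (1 / 2 : ℝ) ^ (-(4 / 3) : ℝ) *
        ((∑' x, gz x) * ∑' x, gz x)) := by
  have ht : 0 ≤ ∑' x, gz x := tsum_nonneg gz_nonneg
  calc ∑ z ∈ Zs c a b, ((Lz c z : ℕ) : ℝ) ^ (-(35 / 12) : ℝ)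
      ≤ ∑ z ∈ Zs c a b, (a : ℝ) ^ (-(1 / 4) : ℝ) *
      (((1 / 2 : ℝ) ^ (-(4 / 3) : ℝ) * gz (z.1 - c.1)) *
        ((1 / 2 : ℝ) ^ (-(4 / 3) : ℝ) * gz (z.2 - c.2))) :=
        Finset.sum_le_sum fun z hz => num3 ha hz
    _ ≤ ∑ z ∈ (Finset.Icc (c.1 - b) (c.1 + b)) ×ˢ (Finset.Icc (c.2 - b) (c.2 + b)),
        (a : ℝ) ^ (-(1 / 4) : ℝ) *
      (((1 / 2 : ℝ) ^ (-(4 / 3) : ℝ) * gz (z.1 - c.1)) *
        ((1 / 2 : ℝ) ^ (-(4 / 3) : ℝ) * gz (z.2 - c.2))) := by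
        refine Finset.sum_le_sum_of_subset_of_nonneg (Finset.filter_subset _ _) fun z _ _ => ?_
        have h1 := gz_nonneg (z.1 - c.1)
        have h2 := gz_nonneg (z.2 - c.2)
        positivity
    _ = (a : ℝ) ^ (-(1 / 4) : ℝ) *
      ((1 / 2 : ℝ) ^ (-(4 / 3) : ℝ) * (1 / 2 : ℝ) ^ (-(4 / 3) : ℝ) *
        ((∑ x ∈ Finset.Icc (c.1 - b) (c.1 + b), gz (x - c.1)) *
          ∑ y ∈ Finset.Icc (c.2 - b) (c.2 + b), gz (y - c.2))) := by
        rw [Finset.sum_product, Finset.sum_mul_sum, Finset.mul_sum, Finset.mul_sum]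
        refine Finset.sum_congr rfl fun x _ => ?_
        rw [Finset.mul_sum, Finset.mul_sum]
        refine Finset.sum_congr rfl fun y _ => ?_
        ring
    _ ≤ _ := by
        refine mul_le_mul_of_nonneg_left (mul_le_mul_of_nonneg_left ?_ (by positivity))
          (by positivity)
        exact mul_le_mul (gz_sum _ _) (gz_sum _ _)
          (Finset.sum_nonneg fun _ _ => gz_nonneg _) ht

lemma num5 {a b : ℕ} (ha : 240 ≤ a) (hab : a < b) :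
    (1 / 60 : ℝ) ^ (5 / 4 : ℝ) * ((a : ℝ) / b) ^ (5 / 4 : ℝ) ≤
      (((a / 2 : ℕ) : ℝ) / ((12 * b + 3 : ℕ) : ℝ)) ^ (5 / 4 : ℝ) := by
  rw [← Real.mul_rpow (by norm_num) (by positivity)]
  refine Real.rpow_le_rpow (by positivity) ?_ (by norm_num)
  have h1 : (a : ℝ) ≤ 4 * ((a / 2 : ℕ) : ℝ) := by exact_mod_cast (by omega : a ≤ 4 * (a / 2))
  have h2 : ((12 * b + 3 : ℕ) : ℝ) ≤ 15 * b := by
    exact_mod_cast (by omega : 12 * b + 3 ≤ 15 * b)
  have hb : (0 : ℝ) < b := by exact_mod_cast (by omega : 0 < b)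
  have ha0 : (0 : ℝ) < a := by exact_mod_cast (by omega : 0 < a)
  have hB : (0 : ℝ) < ((12 * b + 3 : ℕ) : ℝ) := by positivity
  rw [one_div_mul_eq_div, div_div, div_le_div_iff₀ (by positivity) hB]
  calc (a : ℝ) * ((12 * b + 3 : ℕ) : ℝ) ≤ (4 * ((a / 2 : ℕ) : ℝ)) * (15 * b) :=
        mul_le_mul h1 h2 hB.le (by positivity)
    _ = ((a / 2 : ℕ) : ℝ) * (b * 60) := by ring

/-! ### The theorem -/

/-- The bound for one point. -/
lemma point_bound (hl : St_loc) (ho : St_OCt) {CF CU CM : ℝ} (hCF : 0 < CF) (hCU : 0 < CU)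
    (hCM : 0 < CM)
    (hF : ∀ (c : Vtx) (a b : ℕ) (S : Finset Edg), 1 ≤ a → a < b →
      GeF c a b ⊆ S → Pr (fun _ => (1/2 : ℝ)) S (fun F => OC c a b 2 (↑F : Set Edg)) ≤
        CF * ((a : ℝ) / b) ^ (5/4 : ℝ))
    (hU : ∀ n : ℕ, 1 ≤ n → Pr (fun _ => (1/2 : ℝ)) (boxE n)
      (fun F => Pool.Agent.H160R2.ML.KArm 3 (15 : ℕ) n (↑F : Set Edg)) ≤
        CU * (n : ℝ) ^ (-(35 / 12) : ℝ))
    (hM : ∀ (c : Vtx) (a b : ℕ) (S : Finset Edg), 1 ≤ a → 3 * a ≤ b → GeF c a b ⊆ S →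
      Ex (fun _ => (1/2 : ℝ)) S (fun F => ((NL c a b (↑F : Set Edg) : ℕ) : ℝ) ^ 2) ≤ CM)
    {c z : Vtx} {a b : ℕ} (ha : 240 ≤ a) (hz : z ∈ Zs c a b) :
    Ex (fun _ => (1/2 : ℝ)) (GeF c (a / 2) (12 * b + 3)) (fun F => pc c a b z (↑F : Set Edg)) ≤
      (CF * CF * CU * CM * (1 / 16 : ℝ) ^ (-(35 / 12) : ℝ)) * ((a : ℝ) / b) ^ (5 / 4 : ℝ) *
        ((Lz c z : ℕ) : ℝ) ^ (-(35 / 12) : ℝ) := by
  obtain ⟨hz1, hz2⟩ := mem_Zs.1 hz
  have hL := Lz_eq c z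
  have hL1 : a ≤ Lz c z := by omega
  have hL2 : Lz c z ≤ b := by omega
  have s1 : GeF c (a / 2) (Lz c z - Lz c z / 8 - 1) ⊆ GeF c (a / 2) (12 * b + 3) :=
    GeF_mono le_rfl (by omega)
  have s2 : GeF z 15 (Lz c z / 8) ⊆ GeF c (a / 2) (12 * b + 3) := by
    intro e he
    rw [mem_GeF] at he ⊢
    have t1 := lv_tri c z (src e)
    have t2 := lv_tri c z (tgt e)
    have t3 := lv_tri c (src e) z
    have t4 := lv_tri c (tgt e) z
    rw [lv_symm (src e) z] at t3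
    rw [lv_symm (tgt e) z] at t4
    omega
  have s3 : GeF c (Lz c z + Lz c z / 8 + 1) (4 * b) ⊆ GeF c (a / 2) (12 * b + 3) :=
    GeF_mono (by omega) (by omega)
  have s4 : GeF c (4 * b + 1) (12 * b + 3) ⊆ GeF c (a / 2) (12 * b + 3) :=
    GeF_mono (by omega) le_rfl
  have b1 := hF c (a / 2) (Lz c z - Lz c z / 8 - 1) _ (by omega) (by omega) s1
  have b3 := hF c (Lz c z + Lz c z / 8 + 1) (4 * b) _ (by omega) (by omega) s3
  have b4 := hM c (4 * b + 1) (12 * b + 3) _ (by omega) (by omega) s4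
  have b2 : Pr (fun _ => (1/2 : ℝ)) (GeF c (a / 2) (12 * b + 3))
      (fun F => OC z 15 (Lz c z / 8) 3 (↑F : Set Edg)) ≤
      CU * ((Lz c z / 8 : ℕ) : ℝ) ^ (-(35 / 12) : ℝ) := by
    rw [ho z 15 (Lz c z / 8) 3 _ (by omega) s2]
    exact hU (Lz c z / 8) (by omega)
  have b2' := b2.trans (mul_le_mul_of_nonneg_left (num2 (L := Lz c z) (by omega)) hCU.le)
  have n1 := num1 ha hL1 hL2
  rw [Ex_pc hl ha hz]
  set x1 := (((a / 2 : ℕ) : ℝ) / ((Lz c z - Lz c z / 8 - 1 : ℕ) : ℝ)) ^ (5 / 4 : ℝ) with hx1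
  set x3 := (((Lz c z + Lz c z / 8 + 1 : ℕ) : ℝ) / ((4 * b : ℕ) : ℝ)) ^ (5 / 4 : ℝ) with hx3
  set k16 := (1 / 16 : ℝ) ^ (-(35 / 12) : ℝ) with hk16
  set ell := ((Lz c z : ℕ) : ℝ) ^ (-(35 / 12) : ℝ) with hell
  have hx1n : 0 ≤ x1 := by positivity
  have hx3n : 0 ≤ x3 := by positivity
  have hk : 0 ≤ k16 := by positivity
  have hl0 : 0 ≤ ell := by positivity
  have p1 := Pr_nonneg ok (GeF c (a / 2) (12 * b + 3))
    (fun F => OC c (a / 2) (Lz c z - Lz c z / 8 - 1) 2 (↑F : Set Edg))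
  have p2 := Pr_nonneg ok (GeF c (a / 2) (12 * b + 3))
    (fun F => OC z 15 (Lz c z / 8) 3 (↑F : Set Edg))
  have p3 := Pr_nonneg ok (GeF c (a / 2) (12 * b + 3))
    (fun F => OC c (Lz c z + Lz c z / 8 + 1) (4 * b) 2 (↑F : Set Edg))
  have p4 : 0 ≤ Ex (fun _ => (1/2 : ℝ)) (GeF c (a / 2) (12 * b + 3))
      (fun F => ((NL c (4 * b + 1) (12 * b + 3) (↑F : Set Edg) : ℕ) : ℝ) ^ 2) :=
    Ex_nonneg ok fun _ _ => sq_nonneg _
  calc _ ≤ (CF * x1) * ((CU * (k16 * ell)) * ((CF * x3) * CM)) := by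
        refine mul_le_mul b1 (mul_le_mul b2' (mul_le_mul b3 b4 p4 (by positivity))
          (mul_nonneg p3 p4) (by positivity)) (mul_nonneg p2 (mul_nonneg p3 p4)) (by positivity)
    _ = (CF * CF * CU * CM * k16) * (x1 * x3) * ell := by ring
    _ ≤ (CF * CF * CU * CM * k16) * ((a : ℝ) / b) ^ (5 / 4 : ℝ) * ell :=
        mul_le_mul_of_nonneg_right (mul_le_mul_of_nonneg_left n1 (by positivity)) hl0

/-- The theorem from the bounds of the arm events. -/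
theorem thin0 (hB : St_basic) (hR : St_restr) (hTL : St_TL) (hf : St_fin)
    (hl : St_loc) (hc : St_cnt) (hc' : St_cnt') (ho : St_OCt) (hm : St_Mom) (h2 : St_F2)
    (hlow : ∃ c : ℝ, 0 < c ∧ ∀ r n : ℕ, 2 ≤ r → r ≤ n →
      c * ((r : ℝ) / n) ^ (5 / 4 : ℝ) ≤ Pr (fun _ => (1 / 2 : ℝ)) (boxE n)
        (fun F => Pool.Agent.H160R2.ML.KArm 2 r n (↑F : Set Edg)))
    (hupp : ∃ C : ℝ, 0 < C ∧ ∀ n : ℕ, 1 ≤ n → Pr (fun _ => (1/2 : ℝ)) (boxE n)
      (fun F => Pool.Agent.H160R2.ML.KArm 3 (15 : ℕ) n (↑F : Set Edg)) ≤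
        C * (n : ℝ) ^ (-(35 / 12) : ℝ)) : St_THIN := by
  obtain ⟨c1, hc1, hlow⟩ := hlow
  obtain ⟨CU, hCU, hU⟩ := hupp
  obtain ⟨CF, hCF, hF⟩ := h2
  obtain ⟨CM, hCM, hM⟩ := hm 2
  set D : ℝ := (1 / 2 : ℝ) ^ (-(4 / 3) : ℝ) * (1 / 2 : ℝ) ^ (-(4 / 3) : ℝ) *
        ((∑' x, gz x) * ∑' x, gz x) with hD
  have hD0 : 0 ≤ D := by
    have ht : 0 ≤ ∑' x, gz x := tsum_nonneg gz_nonneg
    positivity
  set K0 : ℝ := CF * CF * CU * CM * (1 / 16 : ℝ) ^ (-(35 / 12) : ℝ) with hK0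
  have hK00 : 0 < K0 := by positivity
  set κ : ℝ := c1 * (1 / 60 : ℝ) ^ (5 / 4 : ℝ) with hκ
  have hκ0 : 0 < κ := by positivity
  -- the choice of the radius
  have htend : Filter.Tendsto (fun n : ℕ => K0 * D * (n : ℝ) ^ (-(1 / 4) : ℝ)) Filter.atTop
      (nhds 0) := by
    have h1 := (tendsto_rpow_neg_atTop (by norm_num : (0 : ℝ) < 1 / 4)).comp
      tendsto_natCast_atTop_atTop
    have h3 := h1.const_mul (K0 * D)
    rw [mul_zero] at h3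
    exact h3
  obtain ⟨N, hN⟩ := Filter.eventually_atTop.1
    (htend.eventually_lt_const (show 0 < κ / 2 by positivity))
  refine ⟨κ / 2, by positivity, max 240 N, le_max_of_le_left (by norm_num), ?_⟩
  intro c a b S ha0 hab hS
  have ha : 240 ≤ a := (le_max_left _ _).trans ha0
  have haN := hN a ((le_max_right _ _).trans ha0)
  -- change of the ground set
  have hloc : Loc (GeF c a b) (fun F => ((TS c a b (↑F : Set Edg)).ncard : ℝ)) :=
    Loc_of_Ge (f := fun F => ((TS c a b F).ncard : ℝ)) fun F G h => by rw [TS_loc hl hab h]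
  have hsubU : GeF c a b ⊆ GeF c (a / 2) (12 * b + 3) := GeF_mono (by omega) (by omega)
  have hE : Ex (fun _ => (1/2 : ℝ)) S (fun F => ((TS c a b (↑F : Set Edg)).ncard : ℝ)) =
      Ex (fun _ => (1/2 : ℝ)) (GeF c (a / 2) (12 * b + 3))
        (fun F => ((TS c a b (↑F : Set Edg)).ncard : ℝ)) := by
    rw [Ex_local hS fun F _ => hloc.inter subset_rfl F,
      Ex_local hsubU fun F _ => hloc.inter subset_rfl F]
  have hgoal : Ex (fun _ => (1/2 : ℝ)) S (fun F => ((Set.ncard {σ : Fin 2 → St |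
      TupE 12 (fun _ => true) c a b (fun _ => (↑F : Set Edg)) σ} : ℕ) : ℝ)) =
      Ex (fun _ => (1/2 : ℝ)) S (fun F => ((TS c a b (↑F : Set Edg)).ncard : ℝ)) := rfl
  rw [hgoal, hE]
  -- the lower bound for all pairs
  have hlo : κ * ((a : ℝ) / b) ^ (5 / 4 : ℝ) ≤
      Ex (fun _ => (1/2 : ℝ)) (GeF c (a / 2) (12 * b + 3))
        (fun F => ((PS c (a / 2) (12 * b + 3) (↑F : Set Edg)).ncard : ℝ)) := by
    have h3 := hlow (a / 2) (12 * b + 3) (by omega) (by omega)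
    rw [← ho c (a / 2) (12 * b + 3) 2 (GeF c (a / 2) (12 * b + 3)) (by omega)
      (Finset.Subset.refl _)] at h3
    have h4 : Pr (fun _ => (1/2 : ℝ)) (GeF c (a / 2) (12 * b + 3))
        (fun F => OC c (a / 2) (12 * b + 3) 2 (↑F : Set Edg)) ≤
        Ex (fun _ => (1/2 : ℝ)) (GeF c (a / 2) (12 * b + 3))
        (fun F => ((PS c (a / 2) (12 * b + 3) (↑F : Set Edg)).ncard : ℝ)) :=
      Ex_mono ok fun F _ => PS_pos hf hc (by omega) (by omega) _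
    refine le_trans ?_ (h3.trans h4)
    rw [hκ, mul_assoc]
    exact mul_le_mul_of_nonneg_left (num5 ha hab) hc1.le
  -- the near pairs
  have hup : ∑ z ∈ Zs c a b, Ex (fun _ => (1/2 : ℝ)) (GeF c (a / 2) (12 * b + 3))
      (fun F => pc c a b z (↑F : Set Edg)) ≤ (κ / 2) * ((a : ℝ) / b) ^ (5 / 4 : ℝ) := by
    have hab0 : 0 ≤ ((a : ℝ) / b) ^ (5 / 4 : ℝ) := by positivity
    calc _ ≤ ∑ z ∈ Zs c a b, K0 * ((a : ℝ) / b) ^ (5 / 4 : ℝ) *
          ((Lz c z : ℕ) : ℝ) ^ (-(35 / 12) : ℝ) :=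
          Finset.sum_le_sum fun z hz => point_bound hl ho hCF hCU hCM hF hU hM ha hz
      _ = K0 * ((a : ℝ) / b) ^ (5 / 4 : ℝ) *
          ∑ z ∈ Zs c a b, ((Lz c z : ℕ) : ℝ) ^ (-(35 / 12) : ℝ) := by rw [Finset.mul_sum]
      _ ≤ K0 * ((a : ℝ) / b) ^ (5 / 4 : ℝ) * ((a : ℝ) ^ (-(1 / 4) : ℝ) * D) :=
          mul_le_mul_of_nonneg_left (num4 (by omega)) (by positivity)
      _ = (K0 * D * (a : ℝ) ^ (-(1 / 4) : ℝ)) * ((a : ℝ) / b) ^ (5 / 4 : ℝ) := by ring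
      _ ≤ (κ / 2) * ((a : ℝ) / b) ^ (5 / 4 : ℝ) := mul_le_mul_of_nonneg_right haN.le hab0
  have hcount : Ex (fun _ => (1/2 : ℝ)) (GeF c (a / 2) (12 * b + 3))
      (fun F => ((PS c (a / 2) (12 * b + 3) (↑F : Set Edg)).ncard : ℝ)) ≤
      Ex (fun _ => (1/2 : ℝ)) (GeF c (a / 2) (12 * b + 3))
        (fun F => ((TS c a b (↑F : Set Edg)).ncard : ℝ)) +
      ∑ z ∈ Zs c a b, Ex (fun _ => (1/2 : ℝ)) (GeF c (a / 2) (12 * b + 3))
        (fun F => pc c a b z (↑F : Set Edg)) := by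
    rw [← Ex_sum, ← Ex_add]
    exact Ex_mono ok fun F _ => count_ineq hB hR hTL hf hc' ha hab _
  have hfin : κ * ((a : ℝ) / b) ^ (5 / 4 : ℝ) =
      (κ / 2) * ((a : ℝ) / b) ^ (5 / 4 : ℝ) + (κ / 2) * ((a : ℝ) / b) ^ (5 / 4 : ℝ) := by ring
  linarith

end C5

theorem thin (hB : St_basic) (hR : St_restr) (_hn3 : St_N3) (hTL : St_TL) (hf : St_fin)
    (hl : St_loc) (hc : St_cnt) (hc' : St_cnt') (ho : St_OCt) (hm : St_Mom) (h2 : St_F2) :
    St_THIN := by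
  refine C5.thin0 hB hR hTL hf hl hc hc' ho hm h2 ?_ ?_
  · obtain ⟨c, hc, h⟩ := TH992.E.lower 2 le_rfl
    refine ⟨c, hc, fun r n h1 h2 => ?_⟩
    have h3 := h r n h1 h2
    rw [show (4 * ((2 : ℕ) : ℝ) ^ 2 - 1) / 12 = 5 / 4 by norm_num] at h3
    exact h3
  · obtain ⟨C, hC, h⟩ := TH992.E.upper 3 (by norm_num) 15
    refine ⟨C, hC, fun n h1 => ?_⟩
    have h3 := h n h1
    rw [show -((4 * ((3 : ℕ) : ℝ) ^ 2 - 1) / 12) = -(35 / 12) by norm_num] at h3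
    exact h3

end Pool.Agent.N948.IX
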