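import Pool.Agent.N948.IX.Cut
import Pool.Agent.N948.IX.Bas

/-!
# Project IX, C6 (helper897): lower bound for an inward and an outward crossing
-/

set_option autoImplicit false

namespace Pool.Agent.N948.IX

open H974 H906.Cyl H12S Finset H984P H342P Pool.Agent.W92.DP

namespace C6

theorem ok {E : Type*} : Ok (fun _ : E => (1/2 : ℝ)) := fun _ => by constructor <;> norm_num

/-! ### The edges of the annulus -/

theorem mem_GeF {c : Vtx} {a b : ℕ} {e : Edg} : e ∈ GeF c a b ↔ e ∈ Ge c a b := by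
  obtain ⟨x, y, d⟩ := e
  constructor
  · intro h
    unfold GeF at h
    rw [Finset.mem_filter] at h
    obtain ⟨h1, h2, h3⟩ := h
    refine ⟨⟨h2, ?_⟩, h3, ?_⟩
    · unfold lv
      rw [max_le_iff, abs_le, abs_le]
      cases d
      · rw [mem_RE_false] at h1
        obtain ⟨u1, u2, u3, u4⟩ := h1
        simp only [src_mk]
        refine ⟨⟨?_, ?_⟩, ?_, ?_⟩ <;> linarith
      · rw [mem_RE_true] at h1
        obtain ⟨u1, u2, u3, u4⟩ := h1
        simp only [src_mk]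
        refine ⟨⟨?_, ?_⟩, ?_, ?_⟩ <;> linarith
    · unfold lv
      rw [max_le_iff, abs_le, abs_le]
      cases d
      · rw [mem_RE_false] at h1
        obtain ⟨u1, u2, u3, u4⟩ := h1
        simp only [tgt_false]
        refine ⟨⟨?_, ?_⟩, ?_, ?_⟩ <;> linarith
      · rw [mem_RE_true] at h1
        obtain ⟨u1, u2, u3, u4⟩ := h1
        simp only [tgt_true]
        refine ⟨⟨?_, ?_⟩, ?_, ?_⟩ <;> linarith
  · rintro ⟨⟨h1, h2⟩, h3, h4⟩
    unfold GeF
    rw [Finset.mem_filter]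
    refine ⟨?_, h1, h3⟩
    unfold lv at h2 h4
    rw [max_le_iff, abs_le, abs_le] at h2 h4
    cases d
    · simp only [src_mk, tgt_false] at h2 h4
      rw [mem_RE_false]
      refine ⟨?_, ?_, ?_, ?_⟩ <;> linarith [h2.1.1, h2.1.2, h2.2.1, h2.2.2, h4.1.1, h4.1.2, h4.2.1, h4.2.2]
    · simp only [src_mk, tgt_true] at h2 h4
      rw [mem_RE_true]
      refine ⟨?_, ?_, ?_, ?_⟩ <;> linarith [h2.1.1, h2.1.2, h2.2.1, h2.2.2, h4.1.1, h4.1.2, h4.2.1, h4.2.2]

theorem GeF_mono {c : Vtx} {a b a' b' : ℕ} (ha : a ≤ a') (hb : b' ≤ b) :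
    GeF c a' b' ⊆ GeF c a b := by
  intro e he
  have ha' : (a : ℤ) ≤ a' := by exact_mod_cast ha
  have hb' : (b' : ℤ) ≤ b := by exact_mod_cast hb
  obtain ⟨⟨h1, h2⟩, h3, h4⟩ := mem_GeF.1 he
  exact mem_GeF.2 ⟨⟨ha'.trans h1, h2.trans hb'⟩, ha'.trans h3, h4.trans hb'⟩

theorem GeF_disj {c : Vtx} {a b a' b' : ℕ} (h : b < a') : Disjoint (GeF c a b) (GeF c a' b') := by
  rw [Finset.disjoint_left]
  intro e he he'
  have h1 := (mem_GeF.1 he).1.2
  have h2 := (mem_GeF.1 he').1.1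
  have h3 : (b : ℤ) < a' := by exact_mod_cast h
  linarith

theorem inter_ge (F : Finset Edg) (c : Vtx) (a b : ℕ) :
    (↑(F ∩ GeF c a b) : Set Edg) ∩ Ge c a b = (↑F : Set Edg) ∩ Ge c a b := by
  ext e
  simp only [Finset.coe_inter, Set.mem_inter_iff, Finset.mem_coe, mem_GeF]
  tauto

theorem lv_nonneg (c v : Vtx) : 0 ≤ lv c v := (abs_nonneg _).trans (le_max_left _ _)

theorem Bx_sub (c : Vtx) (b : ℕ) : Bx c b ⊆ (↑(GeF c 0 b) : Set Edg) := by
  intro e he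
  rw [Finset.mem_coe, mem_GeF]
  exact ⟨⟨by have := lv_nonneg c (src e); simpa using this, he.1⟩,
    by have := lv_nonneg c (tgt e); simpa using this, he.2⟩

theorem Ge_sub_Bx (c : Vtx) (a b : ℕ) : Ge c a b ⊆ Bx c b := fun _ he => ⟨he.1.2, he.2.2⟩

theorem eq_on {F G : Set Edg} {X Y : Set Edg} (hXY : X ⊆ Y) (h : F ∩ Y = G ∩ Y) :
    F ∩ X = G ∩ X := by
  ext e
  constructor
  · rintro ⟨h1, h2⟩
    have h3 : e ∈ F ∩ Y := ⟨h1, hXY h2⟩
    rw [h] at h3
    exact ⟨h3.1, h2⟩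
  · rintro ⟨h1, h2⟩
    have h3 : e ∈ G ∩ Y := ⟨h1, hXY h2⟩
    rw [← h] at h3
    exact ⟨h3.1, h2⟩

/-! ### Outward crossings -/

theorem lf_ne (c : Vtx) (ρ : St) (m : ℤ) : lf c (face ρ) ≠ 2 * m := by
  have := Bas.cor c ρ
  omega

theorem hstep (F : Set Edg) (σ : St) (s : ℕ) :
    face (orb F σ (s + 1)) = face (orb F σ s) ∨
      face (orb F σ (s + 1)) = face (rt (orb F σ s)) := by
  rw [orb_succ]
  by_cases h1 : ae (orb F σ s) ∈ F
  · left
    rw [nxt_open h1, p2_face_mv]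
  · right
    rw [nxt_closed h1]

theorem out_one {F : Set Edg} {c : Vtx} {a b : ℕ} {τ : St} {U : ℕ} (hab : a < b)
    (h : OutLeg F c a b τ U) : 1 < U := by
  have hab' : (a : ℤ) < b := by exact_mod_cast hab
  by_contra hT
  have hT1 : U = 1 := by have := h.pos; omega
  have h1 := h.st
  have h2 := h.en
  rw [hT1] at h2
  rcases hstep F τ 0 with h3 | h3
  · rw [h3, orb_zero] at h2
    omega
  · rw [h3, orb_zero] at h2
    have h4 := Bas.cor c τ
    have h5 := Bas.cor_rt c τ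
    omega

theorem out_ge {F : Set Edg} {c : Vtx} {a b : ℕ} {τ : St} {U : ℕ} (hab : a < b)
    (h : OutLeg F c a b τ U) : ∀ s < U, ae (orb F τ s) ∈ Ge c a b := by
  intro s hs
  rcases Nat.eq_zero_or_pos s with rfl | hs0
  · obtain ⟨h1, h2⟩ := h.mid 1 (by omega) (out_one hab h)
    rw [orb_zero]
    apply Bas.ge_of_rt
    rcases hstep F τ 0 with h3 | h3
    · have := h.st
      rw [h3, orb_zero] at h1
      omega
    · rw [orb_zero] at h3
      rw [← h3]
      exact ⟨h1, h2⟩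
  · exact Bas.ge_of_face (h.mid s hs0 hs)

theorem out_first {F : Set Edg} {c : Vtx} {a b m : ℕ} {τ : St} {U : ℕ} (ham : a < m) (hmb : m ≤ b)
    (h : OutLeg F c a b τ U) : ∃ U' ≤ U, OutLeg F c a m τ U' := by
  have ham' : (a : ℤ) < m := by exact_mod_cast ham
  have hmb' : (m : ℤ) ≤ b := by exact_mod_cast hmb
  classical
  have hex : ∃ s, 0 < s ∧ 2 * (m : ℤ) < lf c (face (orb F τ s)) := ⟨U, h.pos, by
    have := h.en; omega⟩
  have hle : Nat.find hex ≤ U := Nat.find_min' hex ⟨h.pos, by have := h.en; omega⟩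
  refine ⟨Nat.find hex, hle, ⟨(Nat.find_spec hex).1, h.st, ?_, (Nat.find_spec hex).2⟩⟩
  intro s hs hs'
  have h1 := Nat.find_min hex hs'
  have h2 := h.mid s hs (by omega)
  have h3 := lf_ne c (orb F τ s) m
  refine ⟨h2.1, ?_⟩
  by_contra hcon
  exact h1 ⟨hs, by omega⟩

theorem out_last {F : Set Edg} {c : Vtx} {a b m : ℕ} {τ : St} {U : ℕ} (ham : a ≤ m) (hmb : m < b)
    (h : OutLeg F c a b τ U) : ∃ s < U, OutLeg F c m b (orb F τ s) (U - s) := by
  have ham' : (a : ℤ) ≤ m := by exact_mod_cast ham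
  have hmb' : (m : ℤ) < b := by exact_mod_cast hmb
  classical
  have h0 : lf c (face (orb F τ 0)) < 2 * (m : ℤ) := by
    have := h.st
    rw [orb_zero]
    omega
  set s := Nat.findGreatest (fun s => lf c (face (orb F τ s)) < 2 * (m : ℤ)) (U - 1) with hs
  have hs1 : s ≤ U - 1 := Nat.findGreatest_le _
  have hs2 : lf c (face (orb F τ s)) < 2 * (m : ℤ) :=
    Nat.findGreatest_spec (P := fun s => lf c (face (orb F τ s)) < 2 * (m : ℤ)) (Nat.zero_le _) h0
  have hpos := h.pos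
  refine ⟨s, by omega, ⟨by omega, hs2, ?_, ?_⟩⟩
  · intro t ht ht'
    rw [← orb_add]
    have h1 : ¬ lf c (face (orb F τ (t + s))) < 2 * (m : ℤ) :=
      Nat.findGreatest_is_greatest (P := fun s => lf c (face (orb F τ s)) < 2 * (m : ℤ))
        (n := U - 1) (k := t + s) (by omega) (by omega)
    have h2 := h.mid (t + s) (by omega) (by omega)
    have h3 := lf_ne c (orb F τ (t + s)) m
    omega
  · rw [← orb_add]
    have e : U - s + s = U := by omega
    rw [e]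
    exact h.en

theorem out_inj {F : Set Edg} {c : Vtx} {a b : ℕ} {τ τ' : St} {U U' s s' : ℕ}
    (h : OutLeg F c a b τ U) (h' : OutLeg F c a b τ' U') (hs : s < U) (hs' : s' < U')
    (he : orb F τ s = orb F τ' s') : τ = τ' := by
  rcases Nat.lt_trichotomy s s' with h1 | h1 | h1
  · exfalso
    have e : s' = s + (s' - s) := by omega
    rw [e, orb_add] at he
    have h2 := Bas.orb_inj he
    have h3 := h'.mid (s' - s) (by omega) (by omega)
    have h4 := h.st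
    rw [← h2] at h3
    omega
  · subst h1
    exact Bas.orb_inj he
  · exfalso
    have e : s = s' + (s - s') := by omega
    rw [e, orb_add] at he
    have h2 := Bas.orb_inj he
    have h3 := h.mid (s - s') (by omega) (by omega)
    have h4 := h'.st
    rw [h2] at h3
    omega

/-! ### Crossings of both types -/

section leg

variable {ε : Bool} {F G : Set Edg} {c : Vtx} {a b : ℕ} {σ : St} {T T' : ℕ}

theorem leg_true : Leg true F c a b σ T ↔ InLeg F c a b σ T := by simp [Leg]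

theorem leg_false : Leg false F c a b σ T ↔ OutLeg F c a b σ T := by simp [Leg]

theorem leg_ge (hB : St_basic) (hab : a < b) (h : Leg ε F c a b σ T) :
    ∀ s < T, ae (orb F σ s) ∈ Ge c a b := by
  cases ε
  · exact out_ge hab (leg_false.1 h)
  · exact (hB F c a b σ T hab (leg_true.1 h)).2.2.2.1

theorem leg_exm (hB : St_basic) (hab : a < b) (h : Leg ε F c a b σ T) :
    Exm F σ T ⊆ GeF c a b := by
  intro e he
  obtain ⟨s, hs, rfl⟩ := mem_Exm.1 he
  exact mem_GeF.2 (leg_ge hB hab h s hs)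

theorem leg_congr (h : ∀ e ∈ Exm F σ T, (e ∈ F ↔ e ∈ G)) (hl : Leg ε F c a b σ T) :
    Leg ε G c a b σ T := by
  have e : ∀ s ≤ T, orb G σ s = orb F σ s := fun s hs => orb_congr h hs
  cases ε
  · rw [leg_false] at *
    refine ⟨hl.pos, hl.st, fun s h0 h1 => ?_, ?_⟩
    · rw [e s h1.le]; exact hl.mid s h0 h1
    · rw [e T le_rfl]; exact hl.en
  · rw [leg_true] at *
    refine ⟨hl.pos, hl.st, fun s h0 h1 => ?_, ?_⟩
    · rw [e s h1.le]; exact hl.mid s h0 h1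
    · rw [e T le_rfl]; exact hl.en

theorem leg_loc (hB : St_basic) (hab : a < b) (h : F ∩ Ge c a b = G ∩ Ge c a b)
    (hl : Leg ε F c a b σ T) : Leg ε G c a b σ T ∧ Exm G σ T = Exm F σ T := by
  have h1 : ∀ e ∈ Exm F σ T, (e ∈ F ↔ e ∈ G) := by
    intro e he
    obtain ⟨s, hs, rfl⟩ := mem_Exm.1 he
    have h2 := leg_ge hB hab hl s hs
    have h3 : ae (orb F σ s) ∈ F ∩ Ge c a b ↔ ae (orb F σ s) ∈ G ∩ Ge c a b := by rw [h]
    exact ⟨fun h4 => (h3.1 ⟨h4, h2⟩).1, fun h4 => (h3.2 ⟨h4, h2⟩).1⟩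
  exact ⟨leg_congr h1 hl, Exm_congr h1⟩

theorem leg_uniq (h : Leg ε F c a b σ T) (h' : Leg ε F c a b σ T') : T = T' := by
  cases ε
  · rw [leg_false] at *
    rcases Nat.lt_trichotomy T T' with h1 | h1 | h1
    · have h2 := h'.mid T h.pos h1
      have h3 := h.en
      omega
    · exact h1
    · have h2 := h.mid T' h'.pos h1
      have h3 := h'.en
      omega
  · rw [leg_true] at *
    rcases Nat.lt_trichotomy T T' with h1 | h1 | h1
    · have h2 := h'.mid T h.pos h1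
      have h3 := h.en
      omega
    · exact h1
    · have h2 := h.mid T' h'.pos h1
      have h3 := h'.en
      omega

/-- candidates for the starting states -/
noncomputable def cand (c : Vtx) (b : ℕ) : Finset St :=
  ((Finset.Icc (c.1 - b) (c.1 + b)) ×ˢ (Finset.Icc (c.2 - b) (c.2 + b))) ×ˢ (Finset.univ : Finset Q4)

theorem mem_cand (h : lv c σ.1 ≤ b) : σ ∈ cand c b := by
  have h2 : |σ.1.1 - c.1| ≤ (b : ℤ) := (le_max_left _ _).trans h
  have h3 : |σ.1.2 - c.2| ≤ (b : ℤ) := (le_max_right _ _).trans h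
  rw [abs_le] at h2 h3
  unfold cand
  rw [Finset.mem_product, Finset.mem_product, Finset.mem_Icc, Finset.mem_Icc]
  refine ⟨⟨⟨?_, ?_⟩, ?_, ?_⟩, Finset.mem_univ _⟩
  · linarith
  · linarith
  · linarith
  · linarith

theorem leg_cand (hB : St_basic) (hab : a < b) (h : Leg ε F c a b σ T) : σ ∈ cand c b := by
  have hab' : (a : ℤ) < b := by exact_mod_cast hab
  apply mem_cand
  cases ε
  · have h1 := (leg_false.1 h).st
    have h2 := Bas.cor c σ
    omega
  · have h1 := (hB F c a b σ T hab (leg_true.1 h)).2.1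
    omega

end leg

/-! ### Counting families -/

theorem ncard_sum {K : ℕ} (c : Vtx) (b : ℕ) (Q : (Fin K → St) → Prop)
    (h : ∀ σ, Q σ → ∀ i, σ i ∈ cand c b) :
    ((Set.ncard {σ : Fin K → St | Q σ} : ℕ) : ℝ) =
      ∑ σ ∈ Fintype.piFinset (fun _ : Fin K => cand c b), ind (Q σ) := by
  classical
  have h1 : {σ : Fin K → St | Q σ} =
      ↑((Fintype.piFinset (fun _ : Fin K => cand c b)).filter (fun σ => Q σ)) := by
    ext σ
    rw [Finset.mem_coe, Finset.mem_filter, Fintype.mem_piFinset]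
    exact ⟨fun hs => ⟨h σ hs, hs⟩, fun hs => hs.2⟩
  rw [h1, Set.ncard_coe_finset, Finset.card_filter]
  push_cast
  refine Finset.sum_congr rfl fun s _ => ?_
  unfold ind
  split_ifs <;> rfl

theorem tupE_iff {K n : ℕ} {ε : Fin K → Bool} {c : Vtx} {a b : ℕ} {ω : Fin K → Set Edg}
    {σ : Fin K → St} : TupE n ε c a b ω σ ↔ ∃ A : Fin K → Finset Edg,
      (∀ i, ∃ T, Leg (ε i) (ω i) c a b (σ i) T ∧ Exm (ω i) (σ i) T = A i) ∧
      ∀ i i', i ≠ i' → Sep n (A i) (A i') := by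
  constructor
  · rintro ⟨T, h1, h2⟩
    exact ⟨fun i => Exm (ω i) (σ i) (T i), fun i => ⟨T i, h1 i, rfl⟩, h2⟩
  · rintro ⟨A, h1, h2⟩
    choose T hT1 hT2 using h1
    refine ⟨T, hT1, fun i i' hii => ?_⟩
    rw [hT2, hT2]
    exact h2 i i' hii

theorem tupE_congr (hB : St_basic) {K n : ℕ} {ε : Fin K → Bool} {c : Vtx} {a b : ℕ} (hab : a < b)
    {ω ω' : Fin K → Set Edg} (h : ∀ i, ω i ∩ Ge c a b = ω' i ∩ Ge c a b) {σ : Fin K → St}
    (hσ : TupE n ε c a b ω σ) : TupE n ε c a b ω' σ := by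
  obtain ⟨T, hT, hd⟩ := hσ
  refine ⟨T, fun i => (leg_loc hB hab (h i) (hT i)).1, fun i i' hii => ?_⟩
  rw [(leg_loc hB hab (h i) (hT i)).2, (leg_loc hB hab (h i') (hT i')).2]
  exact hd i i' hii

theorem gps_tupE (hB : St_basic) (hg : St_GPS) {m K n : ℕ} (j : Fin K → Fin m) (hn : 1 ≤ n)
    (ε : Fin K → Bool) (c : Vtx) {a b : ℕ} (hab : a < b) {S : Finset Edg} (hS : GeF c a b ⊆ S)
    (σ : Fin K → St) :
    Pr (fun _ => (1/2 : ℝ)) ((Finset.univ : Finset (Fin m)) ×ˢ S)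
      (fun F => TupE n ε c a b (fun i => sl F (j i)) σ) =
    Pr (fun _ => (1/2 : ℝ)) S (fun F => TupE n ε c a b (fun _ => (↑F : Set Edg)) σ) := by
  have h := hg m K j S
    (fun i F A => ∃ T, Leg (ε i) F c a b (σ i) T ∧ Exm F (σ i) T = A)
    (fun A => ∀ i i', i ≠ i' → Sep n (A i) (A i')) ?_ ?_ ?_ ?_
  · rw [Pr_congr (p := fun _ : Fin m × Edg => (1/2 : ℝ)) (fun F _ => tupE_iff),
      Pr_congr (p := fun _ : Edg => (1/2 : ℝ)) (fun F _ => tupE_iff)]
    exact h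
  · rintro i F A ⟨T, h1, rfl⟩
    exact (leg_exm hB hab h1).trans hS
  · rintro i F G A ⟨T, h1, rfl⟩ hFG
    exact ⟨T, leg_congr hFG h1, Exm_congr hFG⟩
  · rintro i F A A' ⟨T, h1, rfl⟩ ⟨T', h2, rfl⟩
    rw [leg_uniq h1 h2]
  · intro A hA i i' hii
    rw [Finset.disjoint_left]
    intro e he he'
    have h1 := hA i i' hii e he e he'
    have h2 : lv (src e) (src e) = 0 := by simp [lv]
    rw [h2] at h1
    omega

theorem tupE_cand (hB : St_basic) {K n : ℕ} {ε : Fin K → Bool} {c : Vtx} {a b : ℕ} (hab : a < b)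
    {ω : Fin K → Set Edg} {σ : Fin K → St} (hσ : TupE n ε c a b ω σ) (i : Fin K) :
    σ i ∈ cand c b := by
  obtain ⟨T, hT, -⟩ := hσ
  exact leg_cand hB hab (hT i)

theorem ex_ncard (hB : St_basic) (hg : St_GPS) {m K n : ℕ} (j : Fin K → Fin m) (hn : 1 ≤ n)
    (ε : Fin K → Bool) (c : Vtx) {a b : ℕ} (hab : a < b) {S : Finset Edg} (hS : GeF c a b ⊆ S) :
    Ex (fun _ => (1/2 : ℝ)) ((Finset.univ : Finset (Fin m)) ×ˢ S)
      (fun F => ((Set.ncard {σ : Fin K → St | TupE n ε c a b (fun i => sl F (j i)) σ} : ℕ) : ℝ)) =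
    Ex (fun _ => (1/2 : ℝ)) S
      (fun F => ((Set.ncard {σ : Fin K → St | TupE n ε c a b (fun _ => (↑F : Set Edg)) σ} : ℕ)
        : ℝ)) := by
  rw [Ex_congr (p := fun _ : Fin m × Edg => (1/2 : ℝ))
      (fun F _ => ncard_sum c b _ (fun σ hσ => tupE_cand hB hab hσ)), Ex_sum,
    Ex_congr (p := fun _ : Edg => (1/2 : ℝ))
      (fun F _ => ncard_sum c b _ (fun σ hσ => tupE_cand hB hab hσ)), Ex_sum]
  exact Finset.sum_congr rfl fun σ _ => gps_tupE hB hg j hn ε c hab hS σ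

/-! ### The number of outward crossings -/

/-- The starting states of the outward crossings. -/
def OS (c : Vtx) (a b : ℕ) (F : Set Edg) : Set St := {τ | ∃ U, OutLeg F c a b τ U}

theorem LS_fin (hB : St_basic) {c : Vtx} {a b : ℕ} (hab : a < b) (F : Set Edg) :
    (LS c a b F).Finite := by
  refine (cand c b).finite_toSet.subset ?_
  rintro σ ⟨T, hT⟩
  exact leg_cand hB hab (leg_true.2 hT)

theorem OS_fin (hB : St_basic) {c : Vtx} {a b : ℕ} (hab : a < b) (F : Set Edg) :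
    (OS c a b F).Finite := by
  refine (cand c b).finite_toSet.subset ?_
  rintro σ ⟨T, hT⟩
  exact leg_cand hB hab (leg_false.2 hT)

theorem OS_congr (hB : St_basic) {c : Vtx} {a b : ℕ} (hab : a < b) {F G : Set Edg}
    (h : F ∩ Ge c a b = G ∩ Ge c a b) : OS c a b F = OS c a b G := by
  ext σ
  constructor
  · rintro ⟨T, hT⟩
    exact ⟨T, leg_false.1 (leg_loc hB hab h (leg_false.2 hT)).1⟩
  · rintro ⟨T, hT⟩
    exact ⟨T, leg_false.1 (leg_loc hB hab h.symm (leg_false.2 hT)).1⟩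

theorem LS_congr (hB : St_basic) {c : Vtx} {a b : ℕ} (hab : a < b) {F G : Set Edg}
    (h : F ∩ Ge c a b = G ∩ Ge c a b) : LS c a b F = LS c a b G := by
  ext σ
  constructor
  · rintro ⟨T, hT⟩
    exact ⟨T, leg_true.1 (leg_loc hB hab h (leg_true.2 hT)).1⟩
  · rintro ⟨T, hT⟩
    exact ⟨T, leg_true.1 (leg_loc hB hab h.symm (leg_true.2 hT)).1⟩

theorem NL_eq (c : Vtx) (a b : ℕ) (F : Set Edg) : NL c a b F = (LS c a b F).ncard := rfl

/-- one crossing -/
theorem ncard_one (P : St → Prop) :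
    Set.ncard {σ : Fin 1 → St | P (σ 0)} = Set.ncard {s : St | P s} := by
  have h : {s : St | P s} = (fun σ : Fin 1 → St => σ 0) '' {σ : Fin 1 → St | P (σ 0)} := by
    ext s
    constructor
    · intro hs
      exact ⟨fun _ => s, hs, rfl⟩
    · rintro ⟨σ, hσ, rfl⟩
      exact hσ
  rw [h, Set.ncard_image_of_injective]
  intro σ τ hστ
  funext i
  rw [Subsingleton.elim i 0]
  exact hστ

theorem OS_le (h1 : St_SH1) {c : Vtx} {a b : ℕ} (ha : 1 ≤ a) (hab : a + 2 < b) (F : Set Edg) :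
    (OS c a b F).ncard ≤ NL c (a + 1) (b - 1) (DS F) := by
  have h := h1 1 (fun _ => false) c a b (fun _ => F) ha hab
  have e1 : {σ : Fin 1 → St | TupE 10 (fun _ => false) c a b (fun _ => F) σ} =
      {σ : Fin 1 → St | σ 0 ∈ OS c a b F} := by
    ext σ
    constructor
    · rintro ⟨T, hT, -⟩
      exact ⟨T 0, leg_false.1 (hT 0)⟩
    · rintro ⟨U, hU⟩
      refine ⟨fun _ => U, fun i => ?_, fun i i' hii => absurd (Subsingleton.elim i i') hii⟩
      rw [Subsingleton.elim i 0]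
      exact leg_false.2 hU
  have e2 : {σ : Fin 1 → St | Tup c (a + 1) (b - 1) (swt (fun _ => false) (fun _ => F)) σ} =
      {σ : Fin 1 → St | σ 0 ∈ LS c (a + 1) (b - 1) (DS F)} := by
    ext σ
    constructor
    · rintro ⟨T, hT, -⟩
      refine ⟨T 0, ?_⟩
      have := hT 0
      simpa [swt] using this
    · rintro ⟨U, hU⟩
      refine ⟨fun _ => U, fun i => ?_, fun i i' hii => absurd (Subsingleton.elim i i') hii⟩
      rw [Subsingleton.elim i 0]
      simpa [swt] using hU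
  rw [e1, e2, ncard_one (fun s => s ∈ OS c a b F),
    ncard_one (fun s => s ∈ LS c (a + 1) (b - 1) (DS F))] at h
  exact h

/-- the law of a slice -/
theorem Ex_slice {m : ℕ} (i : Fin m) (S : Finset Edg) (g : Set Edg → ℝ) :
    Ex (fun _ => (1/2 : ℝ)) ((Finset.univ : Finset (Fin m)) ×ˢ S) (fun F => g (sl F i)) =
      Ex (fun _ => (1/2 : ℝ)) S (fun F => g (↑F : Set Edg)) := by
  obtain ⟨φ, hφ⟩ : ∃ φ : Edg ↪ Fin m × Edg, ∀ e, φ e = (i, e) :=
    ⟨⟨fun e => (i, e), fun e e' h => (Prod.mk.inj h).2⟩, fun _ => rfl⟩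
  have hsub : S.map φ ⊆ (Finset.univ : Finset (Fin m)) ×ˢ S := by
    intro x hx
    obtain ⟨e, he, rfl⟩ := Finset.mem_map.1 hx
    rw [hφ]
    exact Finset.mem_product.2 ⟨Finset.mem_univ _, he⟩
  have hmem : ∀ (F : Finset Edg) (e : Edg), (i, e) ∈ F.map φ ↔ e ∈ F := by
    intro F e
    rw [← hφ, Finset.mem_map']
  rw [Ex_local hsub (f := fun F => g (sl F i)), Ex_map]
  · apply Ex_congr
    intro F hF
    congr 1
    ext e
    exact hmem F e
  · intro F hF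
    congr 1
    ext e
    show (i, e) ∈ F ↔ (i, e) ∈ F ∩ S.map φ
    rw [Finset.mem_inter, hmem]
    constructor
    · intro h
      exact ⟨h, (Finset.mem_product.1 (hF h)).2⟩
    · exact fun h => h.1

/-- the number of inward crossings of the shifted dual configuration -/
theorem Ex_DS (hB : St_basic) (hL : St_SHL) (K : ℕ) (c : Vtx) {a b : ℕ} (hab : a < b)
    {S : Finset Edg} (hS : Bx c (b + 2) ⊆ (↑S : Set Edg)) :
    Ex (fun _ => (1/2 : ℝ)) S (fun F => ((NL c a b (DS (↑F : Set Edg)) : ℕ) : ℝ) ^ K) =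
    Ex (fun _ => (1/2 : ℝ)) S (fun F => ((NL c a b (↑F : Set Edg) : ℕ) : ℝ) ^ K) := by
  have h := hL 1 (fun _ => false) c b (fun ω => ((NL c a b (ω 0) : ℕ) : ℝ) ^ K) ?_ S hS
  · have e1 : ∀ F : Finset (Fin 1 × Edg),
        swt (fun _ : Fin 1 => false) (fun i => sl F i) 0 = DS (sl F 0) := fun F => by simp [swt]
    simp only [e1] at h
    rw [Ex_slice (m := 1) 0 S (fun F => ((NL c a b (DS F) : ℕ) : ℝ) ^ K),
      Ex_slice (m := 1) 0 S (fun F => ((NL c a b F : ℕ) : ℝ) ^ K)] at h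
    exact h
  · intro ω ω' hω
    have h1 := LS_congr hB hab (eq_on (Ge_sub_Bx c a b) (hω 0))
    simp only [NL_eq, h1]

/-! ### Pairs of an inward and an outward crossing -/

theorem IO_congr (hB : St_basic) {n : ℕ} {c : Vtx} {a b : ℕ} (hab : a < b) {F G : Set Edg}
    (h : F ∩ Ge c a b = G ∩ Ge c a b) (hF : IO n c a b F) : IO n c a b G := by
  obtain ⟨σ, T, τ, U, h1, h2, h3⟩ := hF
  obtain ⟨i1, i2⟩ := leg_loc hB hab h (leg_true.2 h1)
  obtain ⟨o1, o2⟩ := leg_loc hB hab h (leg_false.2 h2)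
  refine ⟨σ, T, τ, U, leg_true.1 i1, leg_false.1 o1, ?_⟩
  rw [i2, o2]
  exact h3

/-- the types -/
def e2 : Fin 2 → Bool := ![true, false]

theorem io_of (hR : St_restr) {c : Vtx} {a b B : ℕ} (hab : a < b) (hbB : b ≤ B) {F : Set Edg}
    {σ : Fin 2 → St} (h : TupE 10 e2 c a B (fun _ => F) σ) : IO 10 c a b F := by
  obtain ⟨T, hT, hd⟩ := h
  have h0 : InLeg F c a B (σ 0) (T 0) := leg_true.1 (hT 0)
  have h1 : OutLeg F c a B (σ 1) (T 1) := leg_false.1 (hT 1)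
  have hs := hd 0 1 (by decide)
  obtain ⟨s, hs1, hs2⟩ := (hR F c a B (σ 0) (T 0) (by omega) h0).2.2.1 b hab hbB
  obtain ⟨U, hU1, hU2⟩ := out_first hab hbB h1
  refine ⟨orb F (σ 0) s, T 0 - s, σ 1, U, hs2, hU2, ?_⟩
  intro e he e' he'
  refine hs e ?_ e' ?_
  · obtain ⟨t, ht, rfl⟩ := mem_Exm.1 he
    exact mem_Exm.2 ⟨t + s, by omega, by rw [orb_add]⟩
  · obtain ⟨t, ht, rfl⟩ := mem_Exm.1 he'
    exact mem_Exm.2 ⟨t, by omega, rfl⟩

open Classical in
/-- the start of the last part of an outward crossing -/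
noncomputable def lst (F : Set Edg) (c : Vtx) (a m b : ℕ) (τ : St) : St :=
  if h : ∃ s U, OutLeg F c a b τ U ∧ s < U ∧ OutLeg F c m b (orb F τ s) (U - s) then
    orb F τ h.choose else τ

theorem lst_spec {F : Set Edg} {c : Vtx} {a m b : ℕ} {τ : St} {U : ℕ} (ham : a ≤ m) (hmb : m < b)
    (h : OutLeg F c a b τ U) : ∃ s U, OutLeg F c a b τ U ∧ s < U ∧
      OutLeg F c m b (orb F τ s) (U - s) ∧ lst F c a m b τ = orb F τ s := by
  have hex : ∃ s U, OutLeg F c a b τ U ∧ s < U ∧ OutLeg F c m b (orb F τ s) (U - s) := by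
    obtain ⟨s, hs, h'⟩ := out_last ham hmb h
    exact ⟨s, U, h, hs, h'⟩
  obtain ⟨U', h1, h2, h3⟩ := hex.choose_spec
  refine ⟨hex.choose, U', h1, h2, h3, ?_⟩
  unfold lst
  rw [dif_pos hex]

theorem pairs_le (hB : St_basic) (hR : St_restr) {c : Vtx} {a m B : ℕ} (ham : a ≤ m) (hmB : m < B)
    (F : Set Edg) :
    Set.ncard {σ : Fin 2 → St | TupE 10 e2 c a B (fun _ => F) σ} ≤
      NL c m B F * (OS c m B F).ncard := by
  rw [NL_eq, ← Set.ncard_prod]
  refine Set.ncard_le_ncard_of_injOn (fun σ : Fin 2 → St => (σ 0, lst F c a m B (σ 1))) ?_ ?_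
    ((LS_fin hB hmB F).prod (OS_fin hB hmB F))
  · rintro σ ⟨T, hT, hd⟩
    have h0 : InLeg F c a B (σ 0) (T 0) := leg_true.1 (hT 0)
    have h1 : OutLeg F c a B (σ 1) (T 1) := leg_false.1 (hT 1)
    obtain ⟨T', -, hT'⟩ := (hR F c a B (σ 0) (T 0) (by omega) h0).2.1 m ham hmB
    obtain ⟨s, U, -, -, h3, h4⟩ := lst_spec ham hmB h1
    refine ⟨⟨T', hT'⟩, ?_⟩
    show lst F c a m B (σ 1) ∈ OS c m B F
    rw [h4]
    exact ⟨_, h3⟩
  · rintro σ ⟨T, hT, hd⟩ σ' ⟨T', hT', hd'⟩ he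
    have h1 : OutLeg F c a B (σ 1) (T 1) := leg_false.1 (hT 1)
    have h1' : OutLeg F c a B (σ' 1) (T' 1) := leg_false.1 (hT' 1)
    obtain ⟨he0, he1⟩ := Prod.mk.inj he
    obtain ⟨s, U, h2, h3, -, h4⟩ := lst_spec ham hmB h1
    obtain ⟨s', U', h2', h3', -, h4'⟩ := lst_spec ham hmB h1'
    rw [h4, h4'] at he1
    have h5 := out_inj h2 h2' h3 h3' he1
    funext i
    fin_cases i
    · exact he0
    · exact h5

theorem num {a b a1 : ℕ} (ha : a1 + 2 ≤ a) (hab : a < b) {C1 C2 P : ℝ} (hC1 : 0 < C1) (hC2 : 0 < C2)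
    (hfin : C1 * (((a - 1 : ℕ) : ℝ) / ((3 * (b + 3) + 2 + 1 : ℕ) : ℝ)) ^ (5 / 4 : ℝ) ≤ P * C2) :
    C1 / C2 * (1 / 30 : ℝ) ^ (5 / 4 : ℝ) * ((a : ℝ) / b) ^ (5 / 4 : ℝ) ≤ P := by
  have hb1 : 1 ≤ b := by omega
  have ha0 : (0 : ℝ) ≤ (a : ℝ) / b := by positivity
  have hbR : (1 : ℝ) ≤ b := by exact_mod_cast hb1
  have hbR' : (0 : ℝ) < b := by linarith
  have hcmp : (1 / 30 : ℝ) * ((a : ℝ) / b) ≤
      ((a - 1 : ℕ) : ℝ) / ((3 * (b + 3) + 2 + 1 : ℕ) : ℝ) := by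
    have e1 : ((a - 1 : ℕ) : ℝ) = (a : ℝ) - 1 := by
      rw [Nat.cast_sub (by omega), Nat.cast_one]
    have e2 : ((3 * (b + 3) + 2 + 1 : ℕ) : ℝ) = 3 * (b : ℝ) + 12 := by
      push_cast
      ring
    have haR : (2 : ℝ) ≤ a := by exact_mod_cast (by omega : 2 ≤ a)
    rw [e1, e2]
    have e3 : (1 / 30 : ℝ) * ((a : ℝ) / b) = (a : ℝ) / (30 * b) := by
      rw [div_mul_div_comm, one_mul]
    rw [e3, div_le_div_iff₀ (by linarith) (by linarith)]
    nlinarith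
  have hpow : (1 / 30 : ℝ) ^ (5 / 4 : ℝ) * ((a : ℝ) / b) ^ (5 / 4 : ℝ) ≤
      (((a - 1 : ℕ) : ℝ) / ((3 * (b + 3) + 2 + 1 : ℕ) : ℝ)) ^ (5 / 4 : ℝ) := by
    rw [← Real.mul_rpow (by norm_num) ha0]
    exact Real.rpow_le_rpow (mul_nonneg (by norm_num) ha0) hcmp (by norm_num)
  have h3 : C1 * ((1 / 30 : ℝ) ^ (5 / 4 : ℝ) * ((a : ℝ) / b) ^ (5 / 4 : ℝ)) ≤ P * C2 :=
    (mul_le_mul_of_nonneg_left hpow hC1.le).trans hfin
  rw [← div_le_iff₀ hC2] at h3
  refine le_trans (le_of_eq ?_) h3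
  rw [mul_div_right_comm, mul_assoc]

end C6

open C6 in
/-- The lower bound for an inward and an outward crossing. -/
theorem ioLo (hB : St_basic) (hR : St_restr) (hm : St_Mom) (hg : St_GPS) (h1 : St_SH1)
    (h2 : St_SH2) (hL : St_SHL) (hT : St_THIN) : St_IOlo := by
  obtain ⟨C1, hC1, a1, ha1, hT⟩ := hT
  obtain ⟨C2, hC2, hm⟩ := hm 2
  refine ⟨C1 / C2 * (1 / 30 : ℝ) ^ (5 / 4 : ℝ), by positivity, a1 + 2, by omega, ?_⟩
  intro c a b S ha hab hS
  set B : ℕ := 3 * (b + 3) + 2 with hBdef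
  set U : Finset Edg := GeF c 0 (B + 3) with hU
  have hb1 : 1 ≤ b := by omega
  have hUB : ∀ n, n ≤ B + 3 → Bx c n ⊆ (↑U : Set Edg) := fun n hn =>
    (Bx_sub c n).trans (by exact_mod_cast GeF_mono (le_refl 0) hn)
  have hGU : ∀ a' b', b' ≤ B + 3 → GeF c a' b' ⊆ U := fun a' b' h => GeF_mono (Nat.zero_le _) h
  -- the probability does not depend on the finite set
  have hPr : Pr (fun _ => (1/2 : ℝ)) S (fun F => IO 10 c a b (↑F : Set Edg)) =
      Pr (fun _ => (1/2 : ℝ)) U (fun F => IO 10 c a b (↑F : Set Edg)) := by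
    have hloc : ∀ S' : Finset Edg, GeF c a b ⊆ S' →
        Pr (fun _ => (1/2 : ℝ)) S' (fun F => IO 10 c a b (↑F : Set Edg)) =
        Pr (fun _ => (1/2 : ℝ)) (GeF c a b) (fun F => IO 10 c a b (↑F : Set Edg)) := by
      intro S' hS'
      refine Pr_local hS' fun F _ => ?_
      exact ⟨IO_congr hB hab (inter_ge F c a b).symm, IO_congr hB hab (inter_ge F c a b)⟩
    rw [hloc S hS, hloc U (hGU a b (by omega))]
  rw [hPr]
  -- from pairs of inward crossings to pairs of an inward and an outward crossing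
  have hA1 : C1 * (((a - 1 : ℕ) : ℝ) / ((B + 1 : ℕ) : ℝ)) ^ (5 / 4 : ℝ) ≤
      Ex (fun _ => (1/2 : ℝ)) U (fun F => ((Set.ncard {σ : Fin 2 → St |
        TupE 12 (fun _ => true) c (a - 1) (B + 1) (fun _ => (↑F : Set Edg)) σ} : ℕ) : ℝ)) :=
    hT c (a - 1) (B + 1) U (by omega) (by omega) (hGU _ _ (by omega))
  have hA2 : Ex (fun _ => (1/2 : ℝ)) U (fun F => ((Set.ncard {σ : Fin 2 → St |
        TupE 12 (fun _ => true) c (a - 1) (B + 1) (fun _ => (↑F : Set Edg)) σ} : ℕ) : ℝ)) =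
      Ex (fun _ => (1/2 : ℝ)) ((Finset.univ : Finset (Fin 2)) ×ˢ U) (fun F =>
        ((Set.ncard {σ : Fin 2 → St | TupE 12 (fun _ => true) c (a - 1) (B + 1)
          (swt e2 (fun i => sl F i)) σ} : ℕ) : ℝ)) := by
    rw [← ex_ncard hB hg (m := 2) (K := 2) id (by norm_num) (fun _ => true) c
      (by omega : a - 1 < B + 1) (hGU _ _ (by omega))]
    refine (hL 2 e2 c (B + 1) (fun ω => ((Set.ncard {σ : Fin 2 → St |
      TupE 12 (fun _ => true) c (a - 1) (B + 1) ω σ} : ℕ) : ℝ)) ?_ U (hUB _ (by omega))).symm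
    intro ω ω' hω
    have hω' : ∀ i, ω i ∩ Ge c (a - 1) (B + 1) = ω' i ∩ Ge c (a - 1) (B + 1) :=
      fun i => eq_on (Ge_sub_Bx c (a - 1) (B + 1)) (hω i)
    have : {σ : Fin 2 → St | TupE 12 (fun _ => true) c (a - 1) (B + 1) ω σ} =
        {σ : Fin 2 → St | TupE 12 (fun _ => true) c (a - 1) (B + 1) ω' σ} := by
      ext σ
      exact ⟨tupE_congr hB (by omega) hω', tupE_congr hB (by omega) (fun i => (hω' i).symm)⟩
    simp only [this]
  have hA3 : Ex (fun _ => (1/2 : ℝ)) ((Finset.univ : Finset (Fin 2)) ×ˢ U) (fun F =>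
        ((Set.ncard {σ : Fin 2 → St | TupE 12 (fun _ => true) c (a - 1) (B + 1)
          (swt e2 (fun i => sl F i)) σ} : ℕ) : ℝ)) ≤
      Ex (fun _ => (1/2 : ℝ)) ((Finset.univ : Finset (Fin 2)) ×ˢ U) (fun F =>
        ((Set.ncard {σ : Fin 2 → St | TupE 10 e2 c a B (fun i => sl F i) σ} : ℕ) : ℝ)) := by
    refine Ex_mono ok fun F _ => ?_
    have h := h2 2 e2 c (a - 1) (B + 1) (fun i => sl F i) (by omega) (by omega)
    have e1 : a - 1 + 1 = a := by omega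
    rw [e1, Nat.add_sub_cancel] at h
    exact_mod_cast h
  have hA4 : Ex (fun _ => (1/2 : ℝ)) ((Finset.univ : Finset (Fin 2)) ×ˢ U) (fun F =>
        ((Set.ncard {σ : Fin 2 → St | TupE 10 e2 c a B (fun i => sl F i) σ} : ℕ) : ℝ)) =
      Ex (fun _ => (1/2 : ℝ)) U (fun F =>
        ((Set.ncard {σ : Fin 2 → St | TupE 10 e2 c a B (fun _ => (↑F : Set Edg)) σ} : ℕ) : ℝ)) :=
    ex_ncard hB hg (m := 2) (K := 2) id (by norm_num) e2 c (by omega) (hGU _ _ (by omega))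
  -- independence
  set N1 : Set Edg → ℝ := fun F => ((NL c (b + 1) B F : ℕ) : ℝ) with hN1
  set N2 : Set Edg → ℝ := fun F => (((OS c (b + 1) B F).ncard : ℕ) : ℝ) with hN2
  have hA5 : Ex (fun _ => (1/2 : ℝ)) U (fun F =>
        ((Set.ncard {σ : Fin 2 → St | TupE 10 e2 c a B (fun _ => (↑F : Set Edg)) σ} : ℕ) : ℝ)) ≤
      Ex (fun _ => (1/2 : ℝ)) U (fun F => ind (IO 10 c a b (↑F : Set Edg)) *
        (N1 (↑F : Set Edg) * N2 (↑F : Set Edg))) := by
    refine Ex_mono ok fun F _ => ?_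
    by_cases hIO : IO 10 c a b (↑F : Set Edg)
    · rw [ind_of hIO, one_mul, hN1, hN2]
      have := pairs_le hB hR (c := c) (a := a) (m := b + 1) (B := B) (by omega) (by omega)
        (↑F : Set Edg)
      simp only
      exact_mod_cast this
    · rw [ind_not_of hIO, zero_mul]
      have : {σ : Fin 2 → St | TupE 10 e2 c a B (fun _ => (↑F : Set Edg)) σ} = ∅ := by
        rw [Set.eq_empty_iff_forall_notMem]
        intro σ hσ
        exact hIO (io_of hR hab (by omega) hσ)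
      rw [this, Set.ncard_empty, Nat.cast_zero]
  have hA6 : Ex (fun _ => (1/2 : ℝ)) U (fun F => ind (IO 10 c a b (↑F : Set Edg)) *
        (N1 (↑F : Set Edg) * N2 (↑F : Set Edg))) =
      Pr (fun _ => (1/2 : ℝ)) U (fun F => IO 10 c a b (↑F : Set Edg)) *
        Ex (fun _ => (1/2 : ℝ)) U (fun F => N1 (↑F : Set Edg) * N2 (↑F : Set Edg)) := by
    refine Ex_mul_indep (S := GeF c a b) (T := GeF c (b + 1) B) (hGU _ _ (by omega))
      (hGU _ _ (by omega)) (GeF_disj (by omega)) (fun F _ => ?_) (fun F _ => ?_)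
    · exact ind_congr ⟨IO_congr hB hab (inter_ge F c a b).symm,
        IO_congr hB hab (inter_ge F c a b)⟩
    · simp only [hN1, hN2, NL_eq]
      rw [LS_congr hB (by omega : b + 1 < B) (inter_ge F c (b + 1) B),
        OS_congr hB (by omega : b + 1 < B) (inter_ge F c (b + 1) B)]
  have hA7 : Ex (fun _ => (1/2 : ℝ)) U (fun F => N1 (↑F : Set Edg) * N2 (↑F : Set Edg)) ≤ C2 := by
    have q1 : Ex (fun _ => (1/2 : ℝ)) U (fun F => N1 (↑F : Set Edg) ^ 2) ≤ C2 :=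
      hm c (b + 1) B U (by omega) (by omega) (hGU _ _ (by omega))
    have q2 : Ex (fun _ => (1/2 : ℝ)) U (fun F => N2 (↑F : Set Edg) ^ 2) ≤ C2 := by
      have r1 : Ex (fun _ => (1/2 : ℝ)) U (fun F => N2 (↑F : Set Edg) ^ 2) ≤
          Ex (fun _ => (1/2 : ℝ)) U
            (fun F => ((NL c (b + 2) (B - 1) (DS (↑F : Set Edg)) : ℕ) : ℝ) ^ 2) := by
        refine Ex_mono ok fun F _ => ?_
        have := OS_le h1 (c := c) (a := b + 1) (b := B) (by omega) (by omega) (↑F : Set Edg)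
        have h' : N2 (↑F : Set Edg) ≤ ((NL c (b + 2) (B - 1) (DS (↑F : Set Edg)) : ℕ) : ℝ) := by
          rw [hN2]
          simp only
          exact_mod_cast this
        exact pow_le_pow_left₀ (Nat.cast_nonneg _) h' 2
      refine r1.trans ?_
      rw [Ex_DS hB hL 2 c (by omega : b + 2 < B - 1) (hUB _ (by omega))]
      exact hm c (b + 2) (B - 1) U (by omega) (by omega) (hGU _ _ (by omega))
    have q3 : Ex (fun _ => (1/2 : ℝ)) U (fun F => N1 (↑F : Set Edg) * N2 (↑F : Set Edg)) ≤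
        Ex (fun _ => (1/2 : ℝ)) U
          (fun F => (1/2 : ℝ) * N1 (↑F : Set Edg) ^ 2 + (1/2 : ℝ) * N2 (↑F : Set Edg) ^ 2) := by
      refine Ex_mono ok fun F _ => ?_
      nlinarith [sq_nonneg (N1 (↑F : Set Edg) - N2 (↑F : Set Edg))]
    rw [Ex_add, Ex_mul_left, Ex_mul_left] at q3
    linarith
  have hp0 : 0 ≤ Pr (fun _ => (1/2 : ℝ)) U (fun F => IO 10 c a b (↑F : Set Edg)) :=
    Pr_nonneg ok _ _
  have hfin : C1 * (((a - 1 : ℕ) : ℝ) / ((B + 1 : ℕ) : ℝ)) ^ (5 / 4 : ℝ) ≤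
      Pr (fun _ => (1/2 : ℝ)) U (fun F => IO 10 c a b (↑F : Set Edg)) * C2 := by
    refine hA1.trans ?_
    rw [hA2]
    refine hA3.trans ?_
    rw [hA4]
    refine hA5.trans ?_
    rw [hA6]
    exact mul_le_mul_of_nonneg_left hA7 hp0
  exact C6.num ha hab hC1 hC2 hfin

end Pool.Agent.N948.IX
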