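import Pool.Agent.W92.DP.Loop
import Pool.Agent.H443R3.BT.Conv

/-!
# Interface crossings of annuli (project IX): definitions

Conventions of `Pool.Agent.H984R3.Per.Defs`: a state `σ = (v, q)` of the interface is a vertex `v` on
its right and a corner face `face σ` on its left, `ae σ` is the edge which is examined, `nxt F σ` the
next state (open edges on the right, closed dual edges on the left), `orb F σ s` the state after `s`
steps, `Exm F σ T` the edges examined before time `T`.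

The position of the interface is measured by its face: `lf c (face σ)` is twice the sup-distance
from `c` to the centre of the face, an odd number.
-/

set_option autoImplicit false

namespace Pool.Agent.N948.IX

open H974 H12S Finset H984P H342P Pool.Agent.W92.DP

/-- Sup-distance of the vertex `v` from `c`. -/
def lv (c v : Vtx) : ℤ := max |v.1 - c.1| |v.2 - c.2|

/-- Twice the sup-distance of the centre of the face `f` from `c`. -/
def lf (c f : Vtx) : ℤ := max |2 * (f.1 - c.1) + 1| |2 * (f.2 - c.2) + 1|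

/-- Inward crossing of the annulus between the squares of radius `a` and `b` around `c`: the
interface starts at a face outside the large square, ends at a face inside the small square, and is
between the two squares in the meantime. -/
structure InLeg (F : Set Edg) (c : Vtx) (a b : ℕ) (σ : St) (T : ℕ) : Prop where
  pos : 0 < T
  st : 2 * (b : ℤ) < lf c (face σ)
  mid : ∀ s, 0 < s → s < T → 2 * (a : ℤ) < lf c (face (orb F σ s)) ∧
    lf c (face (orb F σ s)) < 2 * (b : ℤ)
  en : lf c (face (orb F σ T)) < 2 * (a : ℤ)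

/-- Outward crossing. -/
structure OutLeg (F : Set Edg) (c : Vtx) (a b : ℕ) (σ : St) (T : ℕ) : Prop where
  pos : 0 < T
  st : lf c (face σ) < 2 * (a : ℤ)
  mid : ∀ s, 0 < s → s < T → 2 * (a : ℤ) < lf c (face (orb F σ s)) ∧
    lf c (face (orb F σ s)) < 2 * (b : ℤ)
  en : 2 * (b : ℤ) < lf c (face (orb F σ T))

/-- The edges of the annulus. -/
def Ge (c : Vtx) (a b : ℕ) : Set Edg :=
  {e | ((a : ℤ) ≤ lv c (src e) ∧ lv c (src e) ≤ b) ∧ ((a : ℤ) ≤ lv c (tgt e) ∧ lv c (tgt e) ≤ b)}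

/-- The faces of the annulus. -/
def Af (c : Vtx) (a b : ℕ) (f : Vtx) : Prop := 2 * (a : ℤ) < lf c f ∧ lf c f < 2 * (b : ℤ)

/-- The edges with two faces of the annulus. -/
def Gd (c : Vtx) (a b : ℕ) : Set Edg := {e | Af c a b (dsrc e) ∧ Af c a b (dtgt e)}

/-- `K` distinct open clusters of the annulus cross it. -/
def OC (c : Vtx) (a b K : ℕ) (F : Set Edg) : Prop :=
  ∃ x : Fin K → Vtx, (∀ i, lv c (x i) = a ∧ ∃ y, lv c y = b ∧ Reach (F ∩ Ge c a b) (x i) y) ∧
    ∀ i j, i ≠ j → ¬ Reach (F ∩ Ge c a b) (x i) (x j)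

/-- The face `f` of the annulus is joined to the inside by a closed dual edge. -/
def TIn (c : Vtx) (a b : ℕ) (F : Set Edg) (f : Vtx) : Prop :=
  Af c a b f ∧ ∃ e, e ∉ F ∧ ((dsrc e = f ∧ lf c (dtgt e) < 2 * (a : ℤ)) ∨
    (dtgt e = f ∧ lf c (dsrc e) < 2 * (a : ℤ)))

/-- The face `f` of the annulus is joined to the outside by a closed dual edge. -/
def TOut (c : Vtx) (a b : ℕ) (F : Set Edg) (f : Vtx) : Prop :=
  Af c a b f ∧ ∃ e, e ∉ F ∧ ((dsrc e = f ∧ 2 * (b : ℤ) < lf c (dtgt e)) ∨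
    (dtgt e = f ∧ 2 * (b : ℤ) < lf c (dsrc e)))

/-- `K` distinct closed dual clusters of the annulus cross it. -/
def DC (c : Vtx) (a b K : ℕ) (F : Set Edg) : Prop :=
  ∃ f : Fin K → Vtx, (∀ i, TIn c a b F (f i) ∧ ∃ g, TOut c a b F g ∧
    DReach (Fᶜ ∩ Gd c a b) (f i) g) ∧ ∀ i j, i ≠ j → ¬ DReach (Fᶜ ∩ Gd c a b) (f i) (f j)

/-- The edges of the square of radius `d` around `z`. -/
def Bx (z : Vtx) (d : ℕ) : Set Edg := {e | lv z (src e) ≤ d ∧ lv z (tgt e) ≤ d}

/-- The edges of the annulus, as a finite set. -/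
noncomputable def GeF (c : Vtx) (a b : ℕ) : Finset Edg :=
  (RE (c.1 - b) (c.1 + b) (c.2 - b) (c.2 + b)).filter (fun e => (a : ℤ) ≤ lv c (src e) ∧ (a : ℤ) ≤ lv c (tgt e))

/-! ### Topology (statements) -/

/-- Basic facts: crossings only examine edges of the annulus, their vertices are in one open cluster
of the annulus and their faces in one closed dual cluster. -/
def St_basic : Prop := ∀ (F : Set Edg) (c : Vtx) (a b : ℕ) (σ : St) (T : ℕ), a < b →
  InLeg F c a b σ T →
    1 < T ∧ lv c σ.1 = b ∧ lv c (orb F σ T).1 = a ∧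
    (∀ s < T, ae (orb F σ s) ∈ Ge c a b) ∧
    (∀ s ≤ T, Reach (F ∩ Ge c a b) σ.1 (orb F σ s).1) ∧
    (∀ s, 0 < s → s < T → DReach (Fᶜ ∩ Gd c a b) (face (orb F σ 1)) (face (orb F σ s))) ∧
    TOut c a b F (face (orb F σ 1)) ∧ TIn c a b F (face (orb F σ (T - 1)))

/-- Different inward crossings have different open clusters on their right. -/
def St_N1o : Prop := ∀ (F : Set Edg) (c : Vtx) (a b : ℕ) (σ σ' : St) (T T' : ℕ), a < b →
  InLeg F c a b σ T → InLeg F c a b σ' T' → σ ≠ σ' → ¬ Reach (F ∩ Ge c a b) σ.1 σ'.1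

/-- Different inward crossings have different closed dual clusters on their left. -/
def St_N1d : Prop := ∀ (F : Set Edg) (c : Vtx) (a b : ℕ) (σ σ' : St) (T T' : ℕ), a < b →
  InLeg F c a b σ T → InLeg F c a b σ' T' → σ ≠ σ' →
    ¬ DReach (Fᶜ ∩ Gd c a b) (face (orb F σ 1)) (face (orb F σ' 1))

/-- An open crossing cluster has an inward crossing on its boundary, if there is a second
crossing cluster. -/
def St_N2o : Prop := ∀ (F : Set Edg) (c : Vtx) (a b : ℕ) (x y x' y' : Vtx), 1 ≤ a → a < b →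
  lv c x = a → lv c y = b → Reach (F ∩ Ge c a b) x y →
  lv c x' = a → lv c y' = b → Reach (F ∩ Ge c a b) x' y' → ¬ Reach (F ∩ Ge c a b) x x' →
  ∃ (σ : St) (T : ℕ), InLeg F c a b σ T ∧ Reach (F ∩ Ge c a b) x σ.1

/-- The same for closed dual clusters. -/
def St_N2d : Prop := ∀ (F : Set Edg) (c : Vtx) (a b : ℕ) (f g f' g' : Vtx), 1 ≤ a → a < b →
  TIn c a b F f → TOut c a b F g → DReach (Fᶜ ∩ Gd c a b) f g →
  TIn c a b F f' → TOut c a b F g' → DReach (Fᶜ ∩ Gd c a b) f' g' →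
  ¬ DReach (Fᶜ ∩ Gd c a b) f f' →
  ∃ (σ : St) (T : ℕ), InLeg F c a b σ T ∧ DReach (Fᶜ ∩ Gd c a b) f (face (orb F σ 1))

/-- Different inward crossings examine disjoint sets of edges. -/
def St_N3 : Prop := ∀ (F : Set Edg) (c : Vtx) (a b : ℕ) (σ σ' : St) (T T' : ℕ), a < b →
  InLeg F c a b σ T → InLeg F c a b σ' T' → σ ≠ σ' → Disjoint (Exm F σ T) (Exm F σ' T')

/-- Two inward crossings near each other imply three crossing clusters of a small annulus. -/
def St_TL : Prop := ∀ (F : Set Edg) (c : Vtx) (a b : ℕ) (σ σ' : St) (T T' : ℕ) (z : Vtx) (d R : ℕ),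
  1 ≤ a → a < b → InLeg F c a b σ T → InLeg F c a b σ' T' → σ ≠ σ' → d + 2 ≤ R →
  (a : ℤ) + R < lv c z → lv c z + R < b →
  (∃ s < T, lv z (orb F σ s).1 ≤ d) → (∃ s < T', lv z (orb F σ' s).1 ≤ d) →
  OC z (d + 2) R 3 F

/-- Chains of states outside the large square (modulo two). -/
def St_LkOut : Prop := ∀ (c : Vtx) (b : ℕ) (σ τ : St), 2 * (b : ℤ) < lf c (face σ) →
  2 * (b : ℤ) < lf c (face τ) → ∃ α : St → ZMod 2,
    (∀ ρ, lf c (face ρ) < 2 * (b : ℤ) → α ρ = 0) ∧ ∀ ρ, T4 α ρ = inc σ ρ + inc τ ρ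

/-- The faces outside a square are connected. -/
def St_ConnO : Prop := ∀ (c : Vtx) (b : ℕ) (h : Vtx → ZMod 2),
  (∀ f g : Vtx, 2 * (b : ℤ) < lf c f → 2 * (b : ℤ) < lf c g → |f.1 - g.1| + |f.2 - g.2| = 1 →
    h f = h g) → ∀ f g : Vtx, 2 * (b : ℤ) < lf c f → 2 * (b : ℤ) < lf c g → h f = h g

/-- The faces inside a square are connected. -/
def St_ConnI : Prop := ∀ (c : Vtx) (a : ℕ) (h : Vtx → ZMod 2),
  (∀ f g : Vtx, lf c f < 2 * (a : ℤ) → lf c g < 2 * (a : ℤ) → |f.1 - g.1| + |f.2 - g.2| = 1 →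
    h f = h g) → ∀ f g : Vtx, lf c f < 2 * (a : ℤ) → lf c g < 2 * (a : ℤ) → h f = h g

/-- The interface only depends on the examined edges. -/
def St_congr : Prop := ∀ (F F' : Set Edg) (σ : St) (T : ℕ),
  (∀ s < T, (ae (orb F σ s) ∈ F ↔ ae (orb F σ s) ∈ F')) → ∀ s ≤ T, orb F' σ s = orb F σ s

/-- Restriction of a crossing to smaller annuli; a crossing is determined by any of its states. -/
def St_restr : Prop := ∀ (F : Set Edg) (c : Vtx) (a b : ℕ) (σ : St) (T : ℕ), a < b →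
  InLeg F c a b σ T →
    (∀ T', InLeg F c a b σ T' → T' = T) ∧
    (∀ m, a ≤ m → m < b → ∃ T' ≤ T, InLeg F c m b σ T') ∧
    (∀ m, a < m → m ≤ b → ∃ s < T, InLeg F c a m (orb F σ s) (T - s)) ∧
    (∀ σ' T' s s', InLeg F c a b σ' T' → s < T → s' < T' → orb F σ s = orb F σ' s' →
      σ = σ' ∧ s = s')

/-- As many open as closed crossing clusters. -/
def St_E : Prop := ∀ (F : Set Edg) (c : Vtx) (a b K : ℕ), 1 ≤ a → a < b → 2 ≤ K →
  (OC c a b K F ↔ DC c a b K F)

/-! ### Path sums -/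

/-- The slice of a family of `m` configurations. -/
def sl {m : ℕ} (F : Finset (Fin m × Edg)) (i : Fin m) : Set Edg := {e | (i, e) ∈ F}

/-- Crossings with the starting states `σ i` in the configurations `ω i` which examine pairwise
disjoint sets of edges. -/
def Tup {K : ℕ} (c : Vtx) (a b : ℕ) (ω : Fin K → Set Edg) (σ : Fin K → St) : Prop :=
  ∃ T : Fin K → ℕ, (∀ i, InLeg (ω i) c a b (σ i) (T i)) ∧
    ∀ i i', i ≠ i' → Disjoint (Exm (ω i) (σ i) (T i)) (Exm (ω i') (σ i') (T i'))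

/-- The path sum identity: crossings in several independent configurations or in one. -/
def St_PS : Prop := ∀ (m K : ℕ) (j : Fin K → Fin m) (c : Vtx) (a b : ℕ) (σ : Fin K → St)
  (S : Finset Edg), a < b → GeF c a b ⊆ S →
  Pr (fun _ => (1/2 : ℝ)) ((Finset.univ : Finset (Fin m)) ×ˢ S)
    (fun F => Tup c a b (fun i => sl F (j i)) σ) =
  Pr (fun _ => (1/2 : ℝ)) S (fun F => Tup c a b (fun _ => (↑F : Set Edg)) σ)

open Classical in
/-- The number of inward crossings. -/
noncomputable def NL (c : Vtx) (a b : ℕ) (F : Set Edg) : ℕ :=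
  Set.ncard {σ : St | ∃ T, InLeg F c a b σ T}

end Pool.Agent.N948.IX
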