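import Pool.Agent.N948.IX.Cut
import Pool.Agent.H984R4.HN.FinalH

/-!
# Project IX (helper948): the local cut points of the limits of the exploration path
-/

set_option autoImplicit false

namespace Pool.Agent.N948.IX

open MeasureTheory Filter Topology
open H984H (lawH)
open scoped ENNReal NNReal

/-- The local cut points of a curve: the points `f t` such that the curve just before `t` and the
curve just after `t` are disjoint. -/
def LCut (f : C(unitInterval, ℂ)) : Set ℂ :=
  {z | ∃ s t u : unitInterval, s < t ∧ t < u ∧ f t = z ∧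
    Disjoint (f '' Set.Ico s t) (f '' Set.Ioc t u)}

/-- Local cut points of the weak limits in a fixed set. -/
def St_LIM : Prop := ∀ φ : ℕ → ℕ, Tendsto φ atTop atTop → ∀ μ : ProbabilityMeasure C(unitInterval, ℂ),
  Tendsto (fun i => lawH (φ i)) atTop (𝓝 μ) → ∀ T : Set ℂ,
    ∀ᵐ f : C(unitInterval, ℂ) ∂(μ : Measure C(unitInterval, ℂ)),
      (∀ s t : unitInterval, s < t → ∃ u ∈ Set.Icc s t, f u ≠ f s) →
      dimH (LCut f ∩ T ∩ {w | 0 < w.im}) ≤ dimH T - ENNReal.ofReal (5/4) ∧
      (μH[5/4] T = 0 → LCut f ∩ T ∩ {w | 0 < w.im} = ∅)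

end Pool.Agent.N948.IX
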