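import Pool.Agent.N948.IX.Sp
import Pool.Agent.N948.IX.Lim0
import Pool.Agent.W92.DP.Loop

/-!
# Project XD (helper948): exact dimension of the local cut points. Statements.

`U = L * m` is the unit of length around the vertex `c`; the crossings live in the annulus between the
radii `a` and `16 U`.
-/

set_option autoImplicit false

namespace Pool.Agent.N948.IX

open H974 H906.Cyl H12S Finset H984P H342P H984P.SideAux MeasureTheory Filter Topology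
open Pool.Agent.W92.DP (core4 SA HA DTB DLR)
open H984N (Dm sd)
open scoped ENNReal

/-! ### Orientation -/

/-- The vertices of the square of radius `n` around `c`, counterclockwise from the upper left
corner. -/
def cir (c : Vtx) (n i : ℕ) : Vtx :=
  if i ≤ 2 * n then (c.1 - n, c.2 + n - i)
  else if i ≤ 4 * n then (c.1 - n + (i - 2 * n), c.2 - n)
  else if i ≤ 6 * n then (c.1 + n, c.2 - n + (i - 4 * n))
  else (c.1 + n - (i - 6 * n), c.2 + n)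

/-- An inward crossing of the circle through the arc from `i0` to `i1` has its right side at the
counterclockwise end. -/
def St_FLUX : Prop := ∀ (F : Set Edg) (c : Vtx) (a b n i0 i1 : ℕ) (σ : St) (T : ℕ)
  (hv hf : Vtx → ZMod 2) (x : ZMod 2), a < n → n < b → i0 ≤ i1 → i1 ≤ 8 * n →
  InLeg F c a b σ T → (∀ s, 0 < s → s < T → hv (orb F σ s).1 = x) →
  (∀ e ∈ Exm F σ T, lv c (src e) = n → lv c (tgt e) = n → ∃ i, i0 ≤ i ∧ i < i1 ∧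
    ((src e = cir c n i ∧ tgt e = cir c n (i + 1)) ∨
      (tgt e = cir c n i ∧ src e = cir c n (i + 1)))) →
  (∀ ρ : St, (∃ i, i0 ≤ i ∧ i ≤ i1 ∧ ρ.1 = cir c n i) →
    hv ρ.1 + hf (face ρ) = b2 (∃ s, 0 < s ∧ s < T ∧ orb F σ s = ρ)) →
  hv (cir c n i1) = x ∧ hv (cir c n i0) = x + 1

/-! ### Landing -/

/-- The edges of `A` at distance at least `r` of `c` are in the lower left quadrant. -/
def CfSW (c : Vtx) (r t : ℕ) (A : Finset Edg) : Prop :=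
  ∀ e ∈ A, (r : ℤ) ≤ lv c (src e) → (src e).1 ≤ c.1 + t ∧ (src e).2 ≤ c.2 + t

/-- The edges of `A` at distance at least `r` of `c` are in the upper right quadrant. -/
def CfNE (c : Vtx) (r t : ℕ) (A : Finset Edg) : Prop :=
  ∀ e ∈ A, (r : ℤ) ≤ lv c (src e) → c.1 - t ≤ (src e).1 ∧ c.2 - t ≤ (src e).2

/-- The plus event gives two crossings in opposite quadrants, or three crossing clusters. -/
def St_LT : Prop := ∀ (L m a1 : ℕ) (β : Bool) (F : Set Edg), 2 ≤ L → 64 ≤ m → 2 ≤ a1 →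
  a1 ≤ m → Plus (4 * L * m) m (16 * L * m) (e0 β) F → ¬ OC (0, 0) a1 (16 * L * m) 3 F →
  ∃ (σ : St) (T : ℕ) (ρ : St) (T' : ℕ), InLeg F (0, 0) a1 (16 * L * m) σ T ∧
    InLeg F (0, 0) a1 (16 * L * m) ρ T' ∧ σ ≠ ρ ∧
    CfSW (0, 0) (4 * L * m + 16) (2 * m) (Exm F σ T) ∧
    CfNE (0, 0) (4 * L * m + 16) (2 * m) (Exm F ρ T')

/-- Two crossings in opposite quadrants. -/
def LE2 (L m a1 : ℕ) (c : Vtx) (F : Set Edg) : Prop :=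
  ∃ (σ : St) (T : ℕ) (ρ : St) (T' : ℕ), InLeg F c a1 (16 * L * m) σ T ∧
    InLeg F c a1 (16 * L * m) ρ T' ∧ σ ≠ ρ ∧
    CfSW c (4 * L * m + 16) (2 * m) (Exm F σ T) ∧ CfNE c (4 * L * m + 16) (2 * m) (Exm F ρ T')

/-- Its probability, uniformly in the inner radius. -/
def St_LAND : Prop := ∃ (L M0 : ℕ) (k : ℝ), 2 ≤ L ∧ 64 ≤ M0 ∧ 0 < k ∧ ∀ a1 : ℕ, 2 ≤ a1 →
  ∃ r0 : ℕ, 1 ≤ r0 ∧ ∀ (r : ℕ) (c : Vtx) (S : Finset Edg), r0 ≤ r →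
    GeF c a1 (16 * L * (M0 * r)) ⊆ S →
    k * ((a1 : ℝ) / (16 * L * (M0 * r) : ℕ)) ^ (5/4 : ℝ) ≤
      Pr (fun _ => (1/2 : ℝ)) S (fun F => LE2 L (M0 * r) a1 c (↑F : Set Edg))

/-! ### Good pairs -/

def LeanO (F : Set Edg) (c : Vtx) (M b : ℕ) (τ : St) (T : ℕ) : Prop :=
  ∀ s t, s ≤ t → t ≤ T →
    (lf c (face (orb F τ s))) ^ 2 ≤ (M : ℤ) * b * lf c (face (orb F τ t))

/-- A good pair: an inward crossing in the lower left quadrant and an outward crossing in the upper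
right quadrant. -/
structure GIO (M M' B N : ℕ) (c : Vtx) (a b rs rc t : ℕ) (F : Set Edg) (σ τ : St) (T T' : ℕ) :
    Prop where
  i : InLeg F c a b σ T
  o : OutLeg F c a b τ T'
  li : LeanP F c M b σ T
  lo : LeanO F c M b τ T'
  ci : LnIn F c (80 * a) (N * a) σ T
  co : LnOut F c (80 * a) (N * a) τ T'
  sp : ∀ e ∈ Exm F σ T, ∀ e' ∈ Exm F τ T', 10 ≤ lv (src e) (src e') ∧
    (lv c (src e) ≤ rs ∨ lv c (src e') ≤ rs →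
      (max (lv c (src e)) (lv c (src e'))) ^ B ≤
        (M' : ℤ) * (b : ℤ) ^ (B - 1) * lv (src e) (src e'))
  si : CfSW c rc t (Exm F σ T)
  so : CfNE c rc t (Exm F τ T')

/-- Good pairs at the scale `m`. -/
def GIOm (M M' B N L m : ℕ) (c : Vtx) (a : ℕ) (F : Set Edg) (σ τ : St) (T T' : ℕ) : Prop :=
  GIO M M' B N c a (16 * L * m - 1) (4 * L * m + 24) (4 * L * m + 20) (2 * m + 4) F σ τ T T'

/-- The expected number of good pairs. -/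
def St_PIO : Prop := ∃ (L M0 B a M M' N r0 : ℕ) (k : ℝ), 2 ≤ L ∧ 64 ≤ M0 ∧ 2 ≤ B ∧ 2 ≤ a ∧
  1 ≤ M ∧ 1 ≤ M' ∧ 81 ≤ N ∧ 1 ≤ r0 ∧ 0 < k ∧ ∀ (r : ℕ) (c : Vtx) (S : Finset Edg), r0 ≤ r →
    Bx c (16 * L * (M0 * r) + 3) ⊆ (↑S : Set Edg) →
    k * (r : ℝ) ^ (-(5/4) : ℝ) ≤ Ex (fun _ => (1/2 : ℝ)) S (fun F =>
      ((Set.ncard {p : St × St | ∃ T T', GIOm M M' B N L (M0 * r) c a (↑F : Set Edg) p.1 p.2 T T'}
        : ℕ) : ℝ))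

/-! ### Connection to the boundary -/

/-- The edges of the ring off the upper right quadrant. -/
def RegO (c : Vtx) (rc t b : ℕ) : Set Edg :=
  {e | (rc : ℤ) + 2 < lv c (src e) ∧ lv c (src e) + 2 < b ∧
    ¬ (c.1 - t - 2 ≤ (src e).1 ∧ c.2 - t - 2 ≤ (src e).2)}

/-- A point of the ring in the free lower right part. -/
def InSE (c : Vtx) (rc t b : ℕ) (p : Vtx) : Prop :=
  c.1 + t + 2 < p.1 ∧ p.2 + t + 2 < c.2 ∧ (rc : ℤ) + 2 < lv c p ∧ lv c p + 2 < b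

/-- A point of the ring in the free upper left part. -/
def InNW (c : Vtx) (rc t b : ℕ) (p : Vtx) : Prop :=
  p.1 + t + 2 < c.1 ∧ c.2 + t + 2 < p.2 ∧ (rc : ℤ) + 2 < lv c p ∧ lv c p + 2 < b

/-- An open path (of the fresh configuration) around the lower left quadrant hits the inward
crossing from its right side. -/
def St_HITo : Prop := ∀ (F G : Set Edg) (c p q : Vtx) (a b rc t : ℕ) (σ τ : St) (T T' : ℕ),
  1 ≤ a → a < rc → 2 * t ≤ rc → rc + 10 < b → InLeg F c a b σ T → OutLeg F c a b τ T' →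
  Disjoint (Exm F σ T) (Exm F τ T') → CfSW c rc t (Exm F σ T) → CfNE c rc t (Exm F τ T') →
  InSE c rc t b p → InNW c rc t b q → (∀ e ∈ RegO c rc t b, e ∉ Exm F σ T → (e ∈ F ↔ e ∈ G)) →
  Reach (G ∩ RegO c rc t b) p q →
  ∃ s, 0 < s ∧ s < T ∧ Reach ((F ∩ RegO c rc t b) \ ↑(Exm F σ T)) p (orb F σ s).1

/-- A dual path hits it from its left side. -/
def St_HITd : Prop := ∀ (F G : Set Edg) (c p q : Vtx) (a b rc t : ℕ) (σ τ : St) (T T' : ℕ),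
  1 ≤ a → a < rc → 2 * t ≤ rc → rc + 10 < b → InLeg F c a b σ T → OutLeg F c a b τ T' →
  Disjoint (Exm F σ T) (Exm F τ T') → CfSW c rc t (Exm F σ T) → CfNE c rc t (Exm F τ T') →
  InSE c rc t b p → InNW c rc t b q → (∀ e ∈ RegO c rc t b, e ∉ Exm F σ T → (e ∈ F ↔ e ∈ G)) →
  DReach (Gᶜ ∩ RegO c rc t b) q p →
  ∃ s, 0 < s ∧ s < T ∧ DReach ((Fᶜ ∩ RegO c rc t b) \ ↑(Exm F σ T)) q (face (orb F σ s))

/-- Open and dual corridors to the boundary. -/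
def Cor (c : Vtx) (U : ℤ) (G : Finset Edg) : Prop :=
  (LRc (c.1 - 14 * U) (c.1 + 6 * U) (c.2 - 14 * U) (c.2 - 12 * U) G ∧
    TBc (c.1 - 14 * U) (c.1 - 12 * U) (c.2 - 14 * U) (c.2 + 4 * U) G ∧
    TBc (c.1 + 2 * U) (c.1 + 6 * U) 0 (c.2 - 12 * U) G) ∧
  (DLR (c.1 - 10 * U) (c.1 + 6 * U) (c.2 - 10 * U) (c.2 - 8 * U) G ∧
    DTB (c.1 - 10 * U) (c.1 - 8 * U) (c.2 - 10 * U) (38 * U) G ∧
    DLR (-(24 * U)) (14 * U) (36 * U) (38 * U) G ∧ DTB (10 * U) (14 * U) 0 (38 * U) G)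

/-- The event in the fresh configuration. -/
def QE (a : ℕ) (c : Vtx) (U : ℤ) (G : Finset Edg) : Prop := Gd2 c a (↑G : Set Edg) ∧ Cor c U G

/-- It has positive probability. -/
def St_COR : Prop := ∀ a : ℕ, 2 ≤ a → ∃ (k : ℝ) (U0 : ℕ), 0 < k ∧ ∀ (U : ℕ) (S : Finset Edg),
  U0 ≤ U → SA U ⊆ S → ∀ c ∈ core4 (U : ℤ), k ≤ PQ (1/2) S (QE a c U)

/-- **The event**: a good pair, joined at the core and connected to the boundary. -/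
def E5 (M M' B N a L m : ℕ) (c : Vtx) (F : Finset Edg) : Prop :=
  ∃ (σ τ : St) (T T' : ℕ) (G : Finset Edg), GIOm M M' B N L m c a (↑F : Set Edg) σ τ T T' ∧
    (∀ e, e ∉ Exm (↑F : Set Edg) σ T → e ∉ Exm (↑F : Set Edg) τ T' → (e ∈ F ↔ e ∈ G)) ∧
    QE a c (L * m : ℕ) G

/-- One-point lower bound. -/
def St_ONE5 : Prop := ∃ (L M0 B a M M' N r0 : ℕ) (k : ℝ), 2 ≤ L ∧ 64 ≤ M0 ∧ 2 ≤ B ∧ 2 ≤ a ∧
  1 ≤ M ∧ 1 ≤ M' ∧ 81 ≤ N ∧ 1 ≤ r0 ∧ 0 < k ∧ ∀ (r : ℕ) (S : Finset Edg), r0 ≤ r →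
    SA (L * (M0 * r) : ℕ) ⊆ S → ∀ c ∈ core4 (L * (M0 * r) : ℕ),
    k * ((M0 * r : ℕ) : ℝ) ^ (-(5/4) : ℝ) ≤ PQ (1/2) S (E5 M M' B N a L (M0 * r) c)

/-- Two-point upper bound. -/
def St_TWO5 : Prop := ∀ M M' B N a L : ℕ, 2 ≤ L → 2 ≤ a → ∃ (C : ℝ) (m0 : ℕ), 0 < C ∧ 64 ≤ m0 ∧
  ∀ m : ℕ, m0 ≤ m → ∀ v ∈ core4 (L * m : ℕ), ∀ w ∈ core4 (L * m : ℕ), ∀ S : Finset Edg,
    SA (L * m : ℕ) ⊆ S →
    PQ (1/2) S (fun F => E5 M M' B N a L m v F ∧ E5 M M' B N a L m w F) ≤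
      C * ((max (sd v w) 1 : ℤ) : ℝ) ^ (-(5/4) : ℝ) * (m : ℝ) ^ (-(5/4) : ℝ)

open Classical in
/-- The vertices of the core with the event `E5`. -/
noncomputable def V5 (M M' B N a L m : ℕ) (F : Finset Edg) : Finset Vtx :=
  (core4 (L * m : ℕ)).filter (fun v => E5 M M' B N a L m v F)

/-- Their energy. -/
noncomputable def En5 (t : ℝ) (M M' B N a L m : ℕ) (F : Finset Edg) : ℝ :=
  ∑ v ∈ V5 M M' B N a L m F, ∑ w ∈ V5 M M' B N a L m F, ((max (sd v w) 1 : ℤ) : ℝ) ^ (-t)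

/-- The good event at the scale `m`. -/
def Gd5 (c0 E0 t : ℝ) (M M' B N a L m : ℕ) (F : Finset Edg) : Prop :=
  c0 * (m : ℝ) ^ (3/4 : ℝ) ≤ ((V5 M M' B N a L m F).card : ℝ) ∧
    En5 t M M' B N a L m F ≤ E0 * (m : ℝ) ^ (3/2 - t)

/-- It has positive probability (second moment method). -/
def St_GOOD5 : Prop := ∀ t : ℝ, 0 < t → t < 3/4 →
  ∃ (L M0 B a M M' N r0 : ℕ) (c0 E0 p : ℝ), 2 ≤ L ∧ 64 ≤ M0 ∧ 2 ≤ B ∧ 2 ≤ a ∧ 1 ≤ M ∧ 1 ≤ M' ∧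
    81 ≤ N ∧ 1 ≤ r0 ∧ 0 < c0 ∧ 0 < E0 ∧ 0 < p ∧ p ≤ 1 ∧
    ∀ (r : ℕ) (S : Finset Edg), r0 ≤ r → SA (L * (M0 * r) : ℕ) ⊆ S →
      p ≤ PQ (1/2) S (Gd5 c0 E0 t M M' B N a L (M0 * r))

/-- Independence of the scales. -/
def St_IND5 : Prop := ∀ (p c0 E0 t : ℝ) (M M' B N a L M0 r0 : ℕ), p ≤ 1 → 2 ≤ L → 64 ≤ M0 →
  2 ≤ a → 1 ≤ r0 → 100 * a ≤ r0 →
  (∀ (r : ℕ) (S : Finset Edg), r0 ≤ r → SA (L * (M0 * r) : ℕ) ⊆ S →
    p ≤ PQ (1/2) S (Gd5 c0 E0 t M M' B N a L (M0 * r))) →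
  ∀ (J r : ℕ) (S : Finset Edg), r0 ≤ r → (∀ j < J, SA (L * (M0 * (64 ^ j * r)) : ℕ) ⊆ S) →
    PQ (1/2) S (fun F => ∀ j < J, ¬ Gd5 c0 E0 t M M' B N a L (M0 * (64 ^ j * r)) F) ≤ (1 - p) ^ J

/-- A passage of the walk `w` near `v`, whose two sides are separated: before the time `j` the walk
comes near `v`, afterwards it goes away, both without moving back much, and the two parts are far
from each other. -/
def CutW (κ M B U n : ℕ) (w : ℕ → Vtx) (v : Vtx) : Prop :=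
  ∃ i j l : ℕ, i ≤ j ∧ j ≤ l ∧ l ≤ n ∧ sd (w j) v ≤ κ ∧ 3 * (U : ℤ) ≤ sd (w i) v ∧
    3 * (U : ℤ) ≤ sd (w l) v ∧
    (∀ s s', i ≤ s → s ≤ s' → s' ≤ j → (sd (w s') v) ^ 2 ≤ (M : ℤ) * U * (sd (w s) v + κ)) ∧
    (∀ s s', j ≤ s → s ≤ s' → s' ≤ l → (sd (w s) v) ^ 2 ≤ (M : ℤ) * U * (sd (w s') v + κ)) ∧
    ∀ s s', i ≤ s → s ≤ j → j ≤ s' → s' ≤ l →
      (max (sd (w s) v) (sd (w s') v)) ^ B ≤ (M : ℤ) * (U : ℤ) ^ (B - 1) * (sd (w s) (w s') + κ)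

/-- Deterministic part. -/
def St_DET5 : Prop := ∀ M M' B N a L : ℕ, 2 ≤ L → 2 ≤ a → 2 ≤ B → 81 ≤ N → 1 ≤ M → 1 ≤ M' →
  ∃ κ K m0 : ℕ, 1 ≤ K ∧ ∀ (D : Dm) (F : Finset Edg), D.Ok → F ⊆ D.edges → ∀ m : ℕ, m0 ≤ m →
    D.l < -(27 * (L * m : ℕ)) → 27 * (L * m : ℕ) < D.r → 39 * (L * m : ℕ) < D.h →
    ∀ v ∈ core4 (L * m : ℕ), E5 M M' B N a L m v F →
      CutW κ K B (L * m) (D.len F) (fun k => (D.walk F k).1) v

/-- The local cut points in a half-disc, up to the time `t`. -/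
def LCutT (t : unitInterval) (r : ℝ) (f : C(unitInterval, ℂ)) : Set ℂ :=
  {z | 0 < z.im ∧ ‖z‖ < r ∧ ∃ s u v : unitInterval, s < u ∧ u < v ∧ v ≤ t ∧ f u = z ∧
    Disjoint (f '' Set.Ico s u) (f '' Set.Ioc u v)}

/-- **Lower bound for the limits.** -/
def St_LIM5 : Prop := ∀ φ : ℕ → ℕ, Tendsto φ atTop atTop → ∀ μ : ProbabilityMeasure C(unitInterval, ℂ),
  Tendsto (fun i => H984H.lawH (φ i)) atTop (𝓝 μ) →
  ∀ᵐ f : C(unitInterval, ℂ) ∂(μ : Measure C(unitInterval, ℂ)), ∀ t : unitInterval, 0 < t →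
    ∀ r : ℝ, 0 < r → 3 / 4 ≤ dimH (LCutT t r f)

end Pool.Agent.N948.IX
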