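import Pool.Agent.N948.IX.Ex0
import Pool.Agent.H389R2.Dim.Lower

/-!
# Project XD (helper948): more statements
-/

set_option autoImplicit false

namespace Pool.Agent.N948.IX

open H974 H906.Cyl H12S Finset H984P H342P H984P.SideAux MeasureTheory Filter Topology
open Pool.Agent.W92.DP (core4 SA HA DTB DLR)
open H984N (Dm sd)
open scoped ENNReal

/-- The separation lemma, with `2 ≤ a1`. -/
def St_SEPT2 : Prop := ∃ B : ℕ, 2 ≤ B ∧ ∀ ε : ℝ, 0 < ε → ∃ a1 M M' N b0 : ℕ, 2 ≤ a1 ∧ 1 ≤ M ∧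
  1 ≤ M' ∧ 200 ≤ N ∧ ∀ (c : Vtx) (b r : ℕ) (S : Finset Edg), b0 ≤ b → 18 * r ≤ 5 * b →
  GeF c a1 b ⊆ S →
  Pr (fun _ => (1/2 : ℝ)) S (fun F => OC c a1 b 2 (↑F : Set Edg) ∧
    ¬ AllG M M' B N c a1 b r (↑F : Set Edg)) ≤ ε * ((a1 : ℝ) / b) ^ (5/4 : ℝ)

/-- A good pair of inward crossings, in two configurations. -/
structure GII (M M' B N : ℕ) (c : Vtx) (a1 b rs rc t : ℕ) (F1 F2 : Set Edg) (σ ρ : St)
    (T T' : ℕ) : Prop where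
  i : InLeg F1 c (8 * a1) b σ T
  o : InLeg F2 c (8 * a1) b ρ T'
  li : LeanP F1 c M b σ T
  lo : LeanP F2 c M b ρ T'
  ci : CoreL F1 c (8 * a1) N σ T
  co : CoreL F2 c (8 * a1) N ρ T'
  sp : ∀ e ∈ Exm F1 σ T, ∀ e' ∈ Exm F2 ρ T', 12 ≤ lv (src e) (src e') ∧
    (lv c (src e) ≤ rs ∨ lv c (src e') ≤ rs →
      (max (lv c (src e)) (lv c (src e'))) ^ B ≤
        (M' : ℤ) * (b : ℤ) ^ (B - 1) * lv (src e) (src e'))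
  si : CfSW c rc t (Exm F1 σ T)
  so : CfNE c rc t (Exm F2 ρ T')

/-- A good pair of an inward and an outward crossing, in two configurations. -/
structure GIO2 (M M' B N : ℕ) (c : Vtx) (a b rs rc t : ℕ) (F1 F2 : Set Edg) (σ τ : St)
    (T T' : ℕ) : Prop where
  i : InLeg F1 c a b σ T
  o : OutLeg F2 c a b τ T'
  li : LeanP F1 c M b σ T
  lo : LeanO F2 c M b τ T'
  ci : LnIn F1 c (80 * a) (N * a) σ T
  co : LnOut F2 c (80 * a) (N * a) τ T'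
  sp : ∀ e ∈ Exm F1 σ T, ∀ e' ∈ Exm F2 τ T', 10 ≤ lv (src e) (src e') ∧
    (lv c (src e) ≤ rs ∨ lv c (src e') ≤ rs →
      (max (lv c (src e)) (lv c (src e'))) ^ B ≤
        (M' : ℤ) * (b : ℤ) ^ (B - 1) * lv (src e) (src e'))
  si : CfSW c rc t (Exm F1 σ T)
  so : CfNE c rc t (Exm F2 τ T')

/-- The expected number of good pairs of inward crossings in two independent configurations. -/
def St_PII : Prop := ∃ (L M0 B a1 M M' N r0 : ℕ) (k : ℝ), 2 ≤ L ∧ 64 ≤ M0 ∧ 2 ≤ B ∧ 2 ≤ a1 ∧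
  1 ≤ M ∧ 1 ≤ M' ∧ 200 ≤ N ∧ 1 ≤ r0 ∧ 0 < k ∧ ∀ (r : ℕ) (c : Vtx) (S : Finset Edg), r0 ≤ r →
    GeF c a1 (16 * L * (M0 * r)) ⊆ S →
    k * (r : ℝ) ^ (-(5/4) : ℝ) ≤ Ex (fun _ => (1/2 : ℝ)) ((Finset.univ : Finset (Fin 2)) ×ˢ S)
      (fun F => ((Set.ncard {p : St × St | ∃ T T', GII M M' B N c a1 (16 * L * (M0 * r))
        (4 * L * (M0 * r) + 26) (4 * L * (M0 * r) + 16) (2 * (M0 * r)) (sl F 0) (sl F 1)
        p.1 p.2 T T'} : ℕ) : ℝ))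

/-- From the dual configuration to an outward crossing. -/
def St_SHQ : Prop := ∀ M M' B N : ℕ, 1 ≤ M → 1 ≤ M' → 2 ≤ B → 200 ≤ N → ∃ M1 M1' : ℕ, 1 ≤ M1 ∧
  1 ≤ M1' ∧ ∀ (c : Vtx) (a1 b rs rc t : ℕ) (F1 F2 : Set Edg), 1 ≤ a1 → 100 * a1 ≤ b →
  Set.ncard {p : St × St | ∃ T T', GII M M' B N c a1 b (rs + 2) rc t F1 (DS F2) p.1 p.2 T T'} ≤
    Set.ncard {p : St × St | ∃ T T', GIO2 M1 M1' B N c (8 * a1 + 1) (b - 1) rs (rc + 4) (t + 4)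
      F1 F2 p.1 p.2 T T'}

/-- Approximate local cut points. -/
def QQ (η M : ℝ) (B : ℕ) (ε : ℝ) (K : Set ℂ) (f : C(unitInterval, ℂ)) : Set ℂ :=
  {z | z ∈ K ∧ ∃ s u v : unitInterval, s ≤ u ∧ u ≤ v ∧ dist (f u) z ≤ ε ∧
    η ≤ dist (f s) z + ε ∧ η ≤ dist (f v) z + ε ∧
    (∀ x y : unitInterval, s ≤ x → x ≤ y → y ≤ u → (dist (f y) z) ^ 2 ≤ M * (dist (f x) z + ε)) ∧
    (∀ x y : unitInterval, u ≤ x → x ≤ y → y ≤ v → (dist (f x) z) ^ 2 ≤ M * (dist (f y) z + ε)) ∧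
    (∀ x y : unitInterval, s ≤ x → x ≤ u → u ≤ y → y ≤ v →
      (max (dist (f x) z) (dist (f y) z)) ^ B ≤ M * (dist (f x) (f y) + ε))}

/-- The local cut points in a half-disc. -/
def LC (ρ0 : ℝ) (g : C(unitInterval, ℂ)) : Set ℂ :=
  {z | 0 < z.im ∧ ‖z‖ < ρ0 ∧ ∃ s u v : unitInterval, s < u ∧ u < v ∧ g u = z ∧
    Disjoint (g '' Set.Ico s u) (g '' Set.Ioc u v)}

/-- Abstract passage to the limit. -/
def St_QLIM : Prop := ∀ (μs : ℕ → ProbabilityMeasure C(unitInterval, ℂ))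
  (μ : ProbabilityMeasure C(unitInterval, ℂ)), Tendsto μs atTop (𝓝 μ) → ∀ t : ℝ, 0 < t →
  ∀ (τ : C(unitInterval, unitInterval)) (ρ0 : ℝ), 0 < ρ0 →
  (∀ ε : ℝ≥0∞, 0 < ε → ∃ (c η M : ℝ) (B : ℕ) (K : Set ℂ), 0 < c ∧ 0 < η ∧ 0 < M ∧ 1 ≤ B ∧
    IsCompact K ∧ (∀ z ∈ K, 0 < z.im ∧ ‖z‖ < ρ0) ∧ ∀ ε' : ℝ, 0 < ε' → ∀ᶠ i in atTop,
      (μs i : Measure C(unitInterval, ℂ)) {f | ¬ Pool.Agent.H389R2.Dim.Good t ε' c
        (QQ η M B ε' K (f.comp τ))} ≤ ε) →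
  ∀ᵐ f : C(unitInterval, ℂ) ∂(μ : Measure C(unitInterval, ℂ)),
    ENNReal.ofReal t ≤ dimH (LC ρ0 (f.comp τ))

end Pool.Agent.N948.IX
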