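import Pool.Agent.N948.IX.Ex1
import Pool.Agent.H984R4.NP.Model

/-!
# Project XD (helper948): statements for the rectangle
-/

set_option autoImplicit false

namespace Pool.Agent.N948.IX

open MeasureTheory Filter Topology
open H984N (Rect X)
open scoped ENNReal NNReal

/-- Local cut points of the limits in a fixed set, upper bound (rectangle). -/
def St_LIMR : Prop := ∀ (R : Rect) (δ : ℕ → ℝ), (∀ i, 0 < δ i) → Tendsto δ atTop (𝓝 0) →
  ∀ μ : ProbabilityMeasure X, Tendsto (fun i => R.law (δ i)) atTop (𝓝 μ) → ∀ T : Set ℂ,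
    ∀ᵐ p ∂(μ : Measure X),
      (∀ s t : unitInterval, s < t → ∃ u ∈ Set.Icc s t, p.1 u ≠ p.1 s) →
      dimH (LCut p.1 ∩ T ∩ R.D) ≤ dimH T - ENNReal.ofReal (5/4) ∧
      (μH[5/4] T = 0 → LCut p.1 ∩ T ∩ R.D = ∅)

/-- Lower bound near the end point (rectangle). -/
def St_LIMR5 : Prop := ∀ (R : Rect) (δ : ℕ → ℝ), (∀ i, 0 < δ i) → Tendsto δ atTop (𝓝 0) →
  ∀ μ : ProbabilityMeasure X, Tendsto (fun i => R.law (δ i)) atTop (𝓝 μ) →
    ∀ᵐ p ∂(μ : Measure X), ∀ ρ : ℝ, 0 < ρ →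
      3 / 4 ≤ dimH (LCut p.1 ∩ R.D ∩ Metric.ball 0 ρ)

end Pool.Agent.N948.IX
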