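import Pool.Agent.N948.IX.Defs

/-!
Project IX (helper948), N3 (helper123): different inward crossings examine disjoint sets of edges.
-/

set_option autoImplicit false

namespace Pool.Agent.N948.IX

open H974 H12S Finset H984P H342P Pool.Agent.W92.DP

namespace N3

/-- the two states which examine an edge -/
theorem two (ρ ρ' : St) (h : ae ρ = ae ρ') :
    ρ = ρ' ∨ (ρ'.1 = (mv ρ).1 ∧ face ρ' = face (rt ρ)) := by
  obtain ⟨⟨x, y⟩, k⟩ := ρ
  obtain ⟨⟨x', y'⟩, k'⟩ := ρ'
  cases k <;> cases k' <;> simp only [ae_ne, ae_nw, ae_sw, ae_se, Prod.mk.injEq, and_true,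
    reduceCtorEq, and_false, Bool.false_eq_true, Bool.true_eq_false] at h ⊢
  all_goals
    obtain ⟨h1, h2⟩ := h
    first
    | (left; exact ⟨h1, h2⟩)
    | (left; exact ⟨by omega, by omega⟩)
    | (right
       simp only [mv_ne, mv_nw, mv_sw, mv_se, rt_ne, rt_nw, rt_sw, rt_se, face_ne, face_nw, face_sw,
         face_se, Prod.mk.injEq]
       refine ⟨⟨?_, ?_⟩, ⟨?_, ?_⟩⟩ <;> omega)

end N3

theorem n3 (hB : St_basic) (hR : St_restr) (h1 : St_N1o) (h2 : St_N1d) : St_N3 := by
  intro F c a b σ σ' T T' hab hL hL' hne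
  rw [Finset.disjoint_left]
  intro e he he'
  obtain ⟨s, hs, hse⟩ := mem_Exm.1 he
  obtain ⟨s', hs', hse'⟩ := mem_Exm.1 he'
  obtain ⟨-, -, -, -, bR, bD, -, -⟩ := hB F c a b σ T hab hL
  obtain ⟨-, -, -, -, bR', bD', -, -⟩ := hB F c a b σ' T' hab hL'
  rcases N3.two (orb F σ s) (orb F σ' s') (hse.trans hse'.symm) with h | ⟨hv, hf⟩
  · exact hne ((hR F c a b σ T hab hL).2.2.2 σ' T' s s' hL' hs hs' h).1
  · by_cases ho : ae (orb F σ s) ∈ F
    · have e1 : (orb F σ (s + 1)).1 = (orb F σ' s').1 := by
        rw [orb_succ, nxt_open ho, hv]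
      have r1 := bR (s + 1) (by omega)
      have r2 := bR' s' hs'.le
      rw [e1] at r1
      exact h1 F c a b σ σ' T T' hab hL hL' hne (r1.trans r2.symm)
    · have e1 : face (orb F σ (s + 1)) = face (orb F σ' s') := by
        rw [orb_succ, nxt_closed ho, hf]
      rcases Nat.lt_or_ge (s + 1) T with hs1 | hs1
      · have m1 := hL.mid (s + 1) (by omega) hs1
        rcases Nat.eq_zero_or_pos s' with h0 | h0
        · have m2 := hL'.st
          rw [e1, h0] at m1
          have m3 := m1.2
          change lf c (face σ') < _ at m3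
          omega
        · have d1 := bD (s + 1) (by omega) hs1
          have d2 := bD' s' h0 hs'
          rw [e1] at d1
          exact h2 F c a b σ σ' T T' hab hL hL' hne (d1.trans d2.symm)
      · have hT : s + 1 = T := by omega
        have m1 := hL.en
        rw [← hT, e1] at m1
        have hab' : (a : ℤ) < b := by exact_mod_cast hab
        rcases Nat.eq_zero_or_pos s' with h0 | h0
        · have m2 := hL'.st
          rw [h0] at m1
          change lf c (face σ') < _ at m1
          omega
        · have m2 := (hL'.mid s' h0 hs').1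
          omega

end Pool.Agent.N948.IX
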