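import Pool.Agent.N948.IX.Defs

/-!
# Project IX: equal numbers of open and dual clusters (`e`); two close crossings give three open
crossing clusters of a small annulus (`tl`) (helper395)
-/

set_option autoImplicit false

namespace Pool.Agent.N948.IX

open H974 H12S Finset H984P H342P Pool.Agent.W92.DP

namespace TL

/-! ### Geometry -/

theorem lv_tri (c z v : Vtx) : lv c v ≤ lv c z + lv z v := by
  simp only [lv, abs_eq_max_neg]; omega

theorem lv_tri' (c z v : Vtx) : lv c z ≤ lv c v + lv z v := by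
  simp only [lv, abs_eq_max_neg]; omega

theorem lf_tri (c z f : Vtx) : lf c f ≤ 2 * lv c z + lf z f := by
  simp only [lv, lf, abs_eq_max_neg]; omega

theorem lf_tri' (c z f : Vtx) : 2 * lv c z ≤ lf c f + lf z f := by
  simp only [lv, lf, abs_eq_max_neg]; omega

theorem lf_face (z : Vtx) (σ : St) : lf z (face σ) ≤ 2 * lv z σ.1 + 1 := by
  obtain ⟨⟨x, y⟩, k⟩ := σ
  cases k <;> simp only [face_ne, face_nw, face_sw, face_se, lv, lf, abs_eq_max_neg] <;> omega

theorem lv_edge (z : Vtx) (e : Edg) : lv z (tgt e) ≤ lv z (src e) + 1 ∧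
    lv z (src e) ≤ lv z (tgt e) + 1 := by
  obtain ⟨x, y, b⟩ := e
  cases b <;> simp only [src_mk, tgt_true, tgt_false, lv, abs_eq_max_neg] <;> omega

theorem lf_edge (z : Vtx) (e : Edg) : lf z (dsrc e) ≤ 2 * lv z (src e) + 1 ∧
    lf z (dtgt e) ≤ 2 * lv z (src e) + 1 := by
  obtain ⟨x, y, b⟩ := e
  cases b <;> simp only [src_mk, dsrc_true, dsrc_false, dtgt_mk, lv, lf, abs_eq_max_neg] <;> omega

/-- An edge of the square has a face of the square next to it. -/
theorem edge_face (z : Vtx) (d : ℕ) (e : Edg) (he : e ∈ Bx z (d + 1)) :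
    lf z (dsrc e) ≤ 2 * d + 1 ∨ lf z (dtgt e) ≤ 2 * d + 1 := by
  obtain ⟨x, y, b⟩ := e
  obtain ⟨h1, h2⟩ := he
  cases b <;> simp only [src_mk, tgt_true, tgt_false, dsrc_true, dsrc_false, dtgt_mk, lv, lf,
    abs_eq_max_neg, Nat.cast_add, Nat.cast_one] at h1 h2 ⊢ <;> omega

/-- An edge between two faces of the square is an edge of the square. -/
theorem face_edge (z : Vtx) (d : ℕ) (e : Edg) (h1 : lf z (dsrc e) ≤ 2 * d + 1)
    (h2 : lf z (dtgt e) ≤ 2 * d + 1) : e ∈ Bx z (d + 1) := by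
  obtain ⟨x, y, b⟩ := e
  constructor
  · cases b <;> simp only [src_mk, tgt_true, tgt_false, dsrc_true, dsrc_false, dtgt_mk, lv, lf,
      abs_eq_max_neg, Nat.cast_add, Nat.cast_one] at h1 h2 ⊢ <;> omega
  · cases b <;> simp only [src_mk, tgt_true, tgt_false, dsrc_true, dsrc_false, dtgt_mk, lv, lf,
      abs_eq_max_neg, Nat.cast_add, Nat.cast_one] at h1 h2 ⊢ <;> omega

end TL

/-! ### Equal numbers -/

theorem e (hB : St_basic) (h1 : St_N1o) (h2 : St_N1d) (h3 : St_N2o) (h4 : St_N2d) : St_E := by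
  intro F c a b K ha hab hK
  constructor
  · rintro ⟨x, hx, hne⟩
    have hex : ∀ i : Fin K, ∃ j : Fin K, i ≠ j := by
      intro i
      by_cases hi : i = ⟨0, by omega⟩
      · exact ⟨⟨1, by omega⟩, by rw [hi]; intro h; simp at h⟩
      · exact ⟨_, hi⟩
    have key : ∀ i, ∃ (σ : St) (T : ℕ), InLeg F c a b σ T ∧ Reach (F ∩ Ge c a b) (x i) σ.1 := by
      intro i
      obtain ⟨j, hj⟩ := hex i
      obtain ⟨hxa, y, hy, hxy⟩ := hx i
      obtain ⟨hxa', y', hy', hxy'⟩ := hx j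
      exact h3 F c a b (x i) y (x j) y' ha hab hxa hy hxy hxa' hy' hxy' (hne i j hj)
    choose σ T hleg hre using key
    refine ⟨fun i => face (orb F (σ i) (T i - 1)), ?_, ?_⟩
    · intro i
      obtain ⟨hT, -, -, -, -, hD, hO, hI⟩ := hB F c a b (σ i) (T i) hab (hleg i)
      exact ⟨hI, _, hO, (hD (T i - 1) (by omega) (by omega)).symm⟩
    · intro i j hij hcon
      obtain ⟨hT, -, -, -, -, hD, hO, hI⟩ := hB F c a b (σ i) (T i) hab (hleg i)
      obtain ⟨hT', -, -, -, -, hD', hO', hI'⟩ := hB F c a b (σ j) (T j) hab (hleg j)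
      refine h2 F c a b (σ i) (σ j) (T i) (T j) hab (hleg i) (hleg j) ?_ ?_
      · intro h
        have h5 := hre j
        rw [← h] at h5
        exact hne i j hij ((hre i).trans h5.symm)
      · exact ((hD (T i - 1) (by omega) (by omega)).trans hcon).trans
          (hD' (T j - 1) (by omega) (by omega)).symm
  · rintro ⟨f, hf, hne⟩
    have hex : ∀ i : Fin K, ∃ j : Fin K, i ≠ j := by
      intro i
      by_cases hi : i = ⟨0, by omega⟩
      · exact ⟨⟨1, by omega⟩, by rw [hi]; intro h; simp at h⟩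
      · exact ⟨_, hi⟩
    have key : ∀ i, ∃ (σ : St) (T : ℕ), InLeg F c a b σ T ∧
        DReach (Fᶜ ∩ Gd c a b) (f i) (face (orb F σ 1)) := by
      intro i
      obtain ⟨j, hj⟩ := hex i
      obtain ⟨hI, g, hg, hfg⟩ := hf i
      obtain ⟨hI', g', hg', hfg'⟩ := hf j
      exact h4 F c a b (f i) g (f j) g' ha hab hI hg hfg hI' hg' hfg' (hne i j hj)
    choose σ T hleg hre using key
    refine ⟨fun i => (orb F (σ i) (T i)).1, ?_, ?_⟩
    · intro i
      obtain ⟨hT, hb', ha', -, hR, -, -, -⟩ := hB F c a b (σ i) (T i) hab (hleg i)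
      exact ⟨ha', _, hb', (hR (T i) le_rfl).symm⟩
    · intro i j hij hcon
      obtain ⟨hT, hb', ha', -, hR, -, -, -⟩ := hB F c a b (σ i) (T i) hab (hleg i)
      obtain ⟨hT', hb'', ha'', -, hR', -, -, -⟩ := hB F c a b (σ j) (T j) hab (hleg j)
      refine h1 F c a b (σ i) (σ j) (T i) (T j) hab (hleg i) (hleg j) ?_ ?_
      · intro h
        have h5 := hre j
        rw [← h] at h5
        exact hne i j hij ((hre i).trans h5.symm)
      · exact ((hR (T i) le_rfl).trans hcon).trans (hR' (T j) le_rfl).symm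

namespace TL

/-- All faces of the square are joined by closed dual edges if the edges of the square are closed. -/
theorem zconn {G : Set Edg} {z : Vtx} {d : ℕ}
    (hG : ∀ e : Edg, lf z (dsrc e) ≤ 2 * d + 1 → lf z (dtgt e) ≤ 2 * d + 1 → e ∈ G)
    {f g : Vtx} (hf : lf z f ≤ 2 * d + 1) (hg : lf z g ≤ 2 * d + 1) : DReach G f g := by
  have key : ∀ i j : ℕ, i ≤ 2 * d + 1 → j ≤ 2 * d + 1 →
      DReach G (z.1 - (d + 1), z.2 - (d + 1)) (z.1 - (d + 1) + i, z.2 - (d + 1) + j) := by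
    intro i j hi hj
    induction i with
    | zero =>
      induction j with
      | zero => simpa using DReach.refl G _
      | succ j ih =>
        refine (ih (by omega)).trans (DAdj.reach ⟨(z.1 - (d + 1), z.2 - (d + 1) + (j + 1), true), ?_,
          Or.inl ⟨?_, ?_⟩⟩)
        · apply hG
          · simp only [dsrc_true, lf, abs_eq_max_neg]; omega
          · simp only [dtgt_mk, lf, abs_eq_max_neg]; omega
        · apply Prod.ext <;> simp only [dsrc_true] <;> omega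
        · apply Prod.ext <;> simp only [dtgt_mk] <;> omega
    | succ i ih =>
      refine (ih (by omega)).trans (DAdj.reach ⟨(z.1 - (d + 1) + (i + 1), z.2 - (d + 1) + j, false), ?_,
          Or.inl ⟨?_, ?_⟩⟩)
      · apply hG
        · simp only [dsrc_false, lf, abs_eq_max_neg]; omega
        · simp only [dtgt_mk, lf, abs_eq_max_neg]; omega
      · apply Prod.ext <;> simp only [dsrc_false] <;> omega
      · apply Prod.ext <;> simp only [dtgt_mk] <;> omega
  have h1 : ∀ f : Vtx, lf z f ≤ 2 * d + 1 → DReach G (z.1 - (d + 1), z.2 - (d + 1)) f := by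
    intro f hf
    have h2 : z.1 - (d + 1) ≤ f.1 ∧ f.1 ≤ z.1 + d ∧ z.2 - (d + 1) ≤ f.2 ∧ f.2 ≤ z.2 + d := by
      simp only [lf, abs_eq_max_neg] at hf
      omega
    have h3 := key (f.1 - (z.1 - (d + 1))).toNat (f.2 - (z.2 - (d + 1))).toNat (by omega) (by omega)
    have h4 : (z.1 - (d + 1) + ((f.1 - (z.1 - (d + 1))).toNat : ℤ),
        z.2 - (d + 1) + ((f.2 - (z.2 - (d + 1))).toNat : ℤ)) = f := by
      apply Prod.ext
      · simp only; omega
      · simp only; omega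
    rw [h4] at h3
    exact h3
  exact (h1 f hf).symm.trans (h1 g hg)

/-- a path either avoids the square or reaches it -/
theorem avoid_or {F G : Set Edg} {z : Vtx} {n : ℕ} {u v : Vtx} (h : Reach (F ∩ G) u v) :
    Reach ((F \ Bx z n) ∩ G) u v ∨ ∃ w, lv z w ≤ n ∧ Reach ((F \ Bx z n) ∩ G) u w := by
  induction h with
  | refl => exact Or.inl (Reach.refl _ _)
  | @tail v v' _ hstep ih =>
    rcases ih with ih | ih
    · obtain ⟨e, ⟨heF, heG⟩, hcase⟩ := hstep
      by_cases hB : e ∈ Bx z n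
      · right
        refine ⟨v, ?_, ih⟩
        rcases hcase with ⟨h1, -⟩ | ⟨-, h1⟩
        · rw [← h1]; exact hB.1
        · rw [← h1]; exact hB.2
      · left
        exact ih.trans (Adj.reach ⟨e, ⟨⟨heF, hB⟩, heG⟩, hcase⟩)
    · exact Or.inr ih

/-- a path from the outside of the annulus to its inside crosses it -/
theorem cross {G : Set Edg} {z : Vtx} {n R : ℕ} (hR : n + 1 ≤ R) {u w : Vtx} (h : Reach G u w)
    (hu : (R : ℤ) ≤ lv z u) (hw : lv z w ≤ n) :
    ∃ u₁ v₁, lv z u₁ = R ∧ lv z v₁ = n + 1 ∧ Reach G u u₁ ∧ Reach (G ∩ Ge z (n + 1) R) u₁ v₁ := by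
  have key : ∀ v, Reach G u v → ((R : ℤ) ≤ lv z v ∨
      (∃ u₁ v₁, lv z u₁ = R ∧ lv z v₁ = n + 1 ∧ Reach G u u₁ ∧
        Reach (G ∩ Ge z (n + 1) R) u₁ v₁) ∨
      ((n + 1 : ℤ) ≤ lv z v ∧ lv z v ≤ R ∧ ∃ u₁, lv z u₁ = R ∧ Reach G u u₁ ∧
        Reach (G ∩ Ge z (n + 1) R) u₁ v)) := by
    intro v hv
    induction hv with
    | refl => exact Or.inl hu
    | @tail v v' hv hstep ih =>
      have hvv' := hv
      obtain ⟨e, heG, hcase⟩ := hstep
      have hlv : lv z v' ≤ lv z v + 1 ∧ lv z v ≤ lv z v' + 1 := by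
        rcases hcase with ⟨h1, h2⟩ | ⟨h1, h2⟩
        · rw [← h1, ← h2]; exact lv_edge z e
        · rw [← h1, ← h2]; exact (lv_edge z e).symm
      have hGe : (n + 1 : ℤ) ≤ lv z v → lv z v ≤ R → (n + 1 : ℤ) ≤ lv z v' → lv z v' ≤ R →
          e ∈ Ge z (n + 1) R := by
        intro g1 g2 g3 g4
        rcases hcase with ⟨h1, h2⟩ | ⟨h1, h2⟩
        · simp only [Ge, Set.mem_ofPred_eq, h1, h2]
          push_cast
          exact ⟨⟨g1, g2⟩, g3, g4⟩
        · simp only [Ge, Set.mem_ofPred_eq, h1, h2]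
          push_cast
          exact ⟨⟨g3, g4⟩, g1, g2⟩
      have hC : (n + 1 : ℤ) ≤ lv z v → lv z v ≤ R → (∃ u₁, lv z u₁ = R ∧ Reach G u u₁ ∧
        Reach (G ∩ Ge z (n + 1) R) u₁ v) → ((R : ℤ) ≤ lv z v' ∨
      (∃ u₁ v₁, lv z u₁ = R ∧ lv z v₁ = n + 1 ∧ Reach G u u₁ ∧
        Reach (G ∩ Ge z (n + 1) R) u₁ v₁) ∨
      ((n + 1 : ℤ) ≤ lv z v' ∧ lv z v' ≤ R ∧ ∃ u₁, lv z u₁ = R ∧ Reach G u u₁ ∧
        Reach (G ∩ Ge z (n + 1) R) u₁ v')) := by
        rintro g1 g2 ⟨u₁, g3, g4, g5⟩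
        rcases lt_or_ge (lv z v') (n + 1) with g6 | g6
        · right; left
          exact ⟨u₁, v, g3, by omega, g4, g5⟩
        · rcases lt_or_ge (lv z v') R with g7 | g7
          · right; right
            exact ⟨g6, g7.le, u₁, g3, g4, g5.trans (Adj.reach ⟨e, ⟨heG, hGe g1 g2 g6 g7.le⟩, hcase⟩)⟩
          · left; exact g7
      rcases ih with ih | ih | ⟨g1, g2, g3⟩
      · rcases lt_or_ge (lv z v') R with g7 | g7
        · exact hC (by omega) (by omega) ⟨v, by omega, hvv', Reach.refl _ _⟩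
        · exact Or.inl g7
      · exact Or.inr (Or.inl ih)
      · exact hC g1 g2 g3
  rcases key w h with h1 | h1 | ⟨h1, -, -⟩
  · omega
  · exact h1
  · omega

/-- adding an element to a family of pairwise unrelated elements -/
theorem cons_pair {m : ℕ} {α : Type} {r : α → α → Prop} (hs : ∀ x y, r x y → r y x) {x : α}
    {f : Fin m → α} (hx : ∀ i, ¬ r x (f i)) (hf : ∀ i j, i ≠ j → ¬ r (f i) (f j)) :
    ∀ i j : Fin (m + 1), i ≠ j →
      ¬ r ((Fin.cons x f : Fin (m + 1) → α) i) ((Fin.cons x f : Fin (m + 1) → α) j) := by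
  intro i j
  refine Fin.cases ?_ ?_ i
  · refine Fin.cases ?_ ?_ j
    · intro h; exact absurd rfl h
    · intro j _; simpa using hx j
  · intro i
    refine Fin.cases ?_ ?_ j
    · intro _ h; exact hx i (hs _ _ (by simpa using h))
    · intro j hij; simpa using hf i j (fun h => hij (by rw [h]))

/-- the number of crossing clusters is bounded -/
theorem OC_bdd (F : Set Edg) (c : Vtx) (a b : ℕ) : ∃ N : ℕ, ∀ K, OC c a b K F → K ≤ N := by
  let S : Finset Vtx := Finset.Icc (c.1 - a) (c.1 + a) ×ˢ Finset.Icc (c.2 - a) (c.2 + a)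
  refine ⟨S.card, ?_⟩
  rintro K ⟨x, hx, hne⟩
  have hinj : Function.Injective x := by
    intro i j hij
    by_contra h
    exact hne i j h (by rw [hij]; exact Reach.refl _ _)
  have h1 : Finset.univ.image x ⊆ S := by
    intro v hv
    rw [Finset.mem_image] at hv
    obtain ⟨i, -, rfl⟩ := hv
    have := (hx i).1
    simp only [lv, abs_eq_max_neg] at this
    simp only [S, Finset.mem_product, Finset.mem_Icc]
    omega
  have h2 := Finset.card_le_card h1
  rw [Finset.card_image_of_injective _ hinj, Finset.card_univ, Fintype.card_fin] at h2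
  exact h2

theorem OC_max (F : Set Edg) (c : Vtx) (a b : ℕ) (h2 : OC c a b 2 F) :
    ∃ m : ℕ, OC c a b (m + 1 + 1) F ∧ ¬ OC c a b (m + 1 + 1 + 1) F := by
  by_contra hcon
  push Not at hcon
  obtain ⟨N, hN⟩ := OC_bdd F c a b
  have : ∀ m : ℕ, OC c a b (m + 1 + 1) F := by
    intro m
    induction m with
    | zero => exact h2
    | succ m ih => exact hcon m ih
  have := hN _ (this N)
  omega

/-- closing a square near two different dual crossing clusters reduces the number of crossing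
clusters -/
theorem closed (hB : St_basic) (h2 : St_N1d) (hE : St_E) (F : Set Edg) (c : Vtx) (a b : ℕ)
    (σ σ' : St) (T T' : ℕ) (z : Vtx) (d R m : ℕ) (ha : 1 ≤ a) (hab : a < b)
    (hl : InLeg F c a b σ T) (hl' : InLeg F c a b σ' T') (hσ : σ ≠ σ') (hd : d + 2 ≤ R)
    (hz1 : (a : ℤ) + R < lv c z) (hz2 : lv c z + R < b)
    (hs : ∃ s < T, lv z (orb F σ s).1 ≤ d) (hs' : ∃ s < T', lv z (orb F σ' s).1 ≤ d)
    (hm : ¬ OC c a b (m + 1 + 1 + 1) F) : ¬ OC c a b (m + 1 + 1) (F \ Bx z (d + 1)) := by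
  intro hOC
  have hDC := (hE _ c a b (m + 1 + 1) ha hab (by omega)).1 hOC
  apply hm
  rw [hE F c a b (m + 1 + 1 + 1) ha hab (by omega)]
  obtain ⟨f, hf, hne⟩ := hDC
  set Fc : Set Edg := F \ Bx z (d + 1) with hFc
  have hsub : Fᶜ ∩ Gd c a b ⊆ Fcᶜ ∩ Gd c a b := by
    rintro e ⟨h1, h2⟩
    exact ⟨fun h => h1 h.1, h2⟩
  -- faces of the square are annular
  have hAf : ∀ g : Vtx, lf z g ≤ 2 * d + 1 → Af c a b g := by
    intro g hg
    have h5 := lf_tri c z g
    have h6 := lf_tri' c z g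
    constructor <;> omega
  have hZ : ∀ g g' : Vtx, lf z g ≤ 2 * d + 1 → lf z g' ≤ 2 * d + 1 →
      DReach (Fcᶜ ∩ Gd c a b) g g' := by
    intro g g' hg hg'
    refine zconn (z := z) (d := d) ?_ hg hg'
    intro e h5 h6
    refine ⟨fun h => h.2 (face_edge z d e h5 h6), hAf _ h5, hAf _ h6⟩
  -- at most one cluster of `Fc` contains a face of the square
  obtain ⟨i₀, hi₀⟩ : ∃ i₀ : Fin (m + 1 + 1), ∀ i, i ≠ i₀ → ∀ g, lf z g ≤ 2 * d + 1 →
      ¬ DReach (Fcᶜ ∩ Gd c a b) (f i) g := by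
    by_cases hex : ∃ i₀ g, lf z g ≤ 2 * d + 1 ∧ DReach (Fcᶜ ∩ Gd c a b) (f i₀) g
    · obtain ⟨i₀, g₀, hg₀, hr₀⟩ := hex
      refine ⟨i₀, fun i hi g hg hr => hne i i₀ hi ?_⟩
      exact (hr.trans (hZ g g₀ hg hg₀)).trans hr₀.symm
    · push Not at hex
      exact ⟨0, fun i _ g hg => hex i g hg⟩
  -- the other clusters are crossing clusters of `F`
  have hpath : ∀ i, i ≠ i₀ → ∀ g, DReach (Fcᶜ ∩ Gd c a b) (f i) g →
      DReach (Fᶜ ∩ Gd c a b) (f i) g := by
    intro i hi g hg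
    induction hg with
    | refl => exact DReach.refl _ _
    | @tail g' g'' hg' hstep ih =>
      have hstep' := hstep
      obtain ⟨e, ⟨he1, he2⟩, hcase⟩ := hstep
      refine ih.trans (DAdj.reach ⟨e, ⟨?_, he2⟩, hcase⟩)
      intro heF
      have heB : e ∈ Bx z (d + 1) := by
        by_contra h
        exact he1 ⟨heF, h⟩
      have h5 : DReach (Fcᶜ ∩ Gd c a b) (f i) g'' :=
        Relation.ReflTransGen.tail hg' hstep'
      rcases edge_face z d e heB with h6 | h6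
      · rcases hcase with ⟨h7, h8⟩ | ⟨h7, h8⟩
        · exact hi₀ i hi _ (h7 ▸ h6) hg'
        · exact hi₀ i hi _ (h7 ▸ h6) h5
      · rcases hcase with ⟨h7, h8⟩ | ⟨h7, h8⟩
        · exact hi₀ i hi _ (h8 ▸ h6) h5
        · exact hi₀ i hi _ (h8 ▸ h6) hg'
  -- edges of the square are far from the boundary
  have hfar : ∀ e : Edg, e ∈ Bx z (d + 1) → (2 * (a : ℤ) < lf c (dsrc e) ∧ lf c (dsrc e) < 2 * b) ∧
      (2 * (a : ℤ) < lf c (dtgt e) ∧ lf c (dtgt e) < 2 * b) := by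
    intro e he
    have h5 := lf_edge z e
    have h6 := he.1
    push_cast at h6
    have h7 := lf_tri c z (dsrc e)
    have h8 := lf_tri' c z (dsrc e)
    have h9 := lf_tri c z (dtgt e)
    have h10 := lf_tri' c z (dtgt e)
    refine ⟨⟨?_, ?_⟩, ?_, ?_⟩ <;> omega
  have hTIn : ∀ g, TIn c a b Fc g → TIn c a b F g := by
    rintro g ⟨h5, e, he, hcase⟩
    refine ⟨h5, e, ?_, hcase⟩
    intro heF
    have heB : e ∈ Bx z (d + 1) := by
      by_contra h
      exact he ⟨heF, h⟩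
    have h6 := hfar e heB
    rcases hcase with ⟨-, h7⟩ | ⟨-, h7⟩ <;> omega
  have hTOut : ∀ g, TOut c a b Fc g → TOut c a b F g := by
    rintro g ⟨h5, e, he, hcase⟩
    refine ⟨h5, e, ?_, hcase⟩
    intro heF
    have heB : e ∈ Bx z (d + 1) := by
      by_contra h
      exact he ⟨heF, h⟩
    have h6 := hfar e heB
    rcases hcase with ⟨-, h7⟩ | ⟨-, h7⟩ <;> omega
  -- the clusters of the two crossings
  have hcross : ∀ (σ : St) (T : ℕ), InLeg F c a b σ T → (∃ s < T, lv z (orb F σ s).1 ≤ d) →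
      (TIn c a b F (face (orb F σ (T - 1))) ∧ ∃ g, TOut c a b F g ∧
        DReach (Fᶜ ∩ Gd c a b) (face (orb F σ (T - 1))) g) ∧
      DReach (Fᶜ ∩ Gd c a b) (face (orb F σ 1)) (face (orb F σ (T - 1))) ∧
      ∃ g, lf z g ≤ 2 * d + 1 ∧ DReach (Fᶜ ∩ Gd c a b) (face (orb F σ (T - 1))) g := by
    rintro σ T hl ⟨s, hsT, hs⟩
    obtain ⟨hT, hb', ha', -, hR, hD, hO, hI⟩ := hB F c a b σ T hab hl
    have hs0 : 0 < s := by
      rcases Nat.eq_zero_or_pos s with h | h
      · exfalso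
        rw [h, orb_zero] at hs
        have := lv_tri c z σ.1
        omega
      · exact h
    refine ⟨⟨hI, _, hO, (hD (T - 1) (by omega) (by omega)).symm⟩, hD (T - 1) (by omega) (by omega),
      face (orb F σ s), ?_, ?_⟩
    · have := lf_face z (orb F σ s)
      omega
    · exact (hD (T - 1) (by omega) (by omega)).symm.trans (hD s hs0 hsT)
  obtain ⟨hx1, hx2, g₁, hg₁, hx3⟩ := hcross σ T hl hs
  obtain ⟨hy1, hy2, g₂, hg₂, hy3⟩ := hcross σ' T' hl' hs'
  set r : Vtx → Vtx → Prop := fun f g => DReach (Fᶜ ∩ Gd c a b) f g with hr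
  have hrs : ∀ x y, r x y → r y x := fun x y h => DReach.symm h
  have hp1 : ∀ i j : Fin (m + 1), i ≠ j → ¬ r (f (i₀.succAbove i)) (f (i₀.succAbove j)) := by
    intro i j hij h
    exact hne _ _ (fun h5 => hij (Fin.succAbove_right_injective h5)) (h.mono hsub)
  have hno : ∀ (i : Fin (m + 1)) (x g : Vtx), lf z g ≤ 2 * d + 1 → r x g →
      ¬ r x (f (i₀.succAbove i)) := by
    intro i x g hg hxg h
    exact hi₀ _ (Fin.succAbove_ne _ _) g hg ((h.symm.trans hxg).mono hsub)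
  have hp2 := cons_pair (r := r) hrs (x := face (orb F σ' (T' - 1)))
    (fun i => hno i _ g₂ hg₂ hy3) hp1
  have hp3 := cons_pair (r := r) hrs (x := face (orb F σ (T - 1)))
    (f := (Fin.cons (face (orb F σ' (T' - 1))) (fun i => f (i₀.succAbove i)) :
      Fin (m + 1 + 1) → Vtx)) (by
      intro i
      refine Fin.cases ?_ ?_ i
      · simp only [Fin.cons_zero]
        intro h
        exact h2 F c a b σ σ' T T' hab hl hl' hσ ((hx2.trans h).trans hy2.symm)
      · intro i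
        simp only [Fin.cons_succ]
        exact hno i _ g₁ hg₁ hx3) hp2
  refine ⟨_, ?_, hp3⟩
  intro i
  refine Fin.cases ?_ ?_ i
  · simp only [Fin.cons_zero]
    exact hx1
  · intro i
    refine Fin.cases ?_ ?_ i
    · simp only [Fin.cons_succ, Fin.cons_zero]
      exact hy1
    · intro i
      simp only [Fin.cons_succ]
      obtain ⟨h5, g, hg, hfg⟩ := hf (i₀.succAbove i)
      exact ⟨hTIn _ h5, g, hTOut _ hg, hpath _ (Fin.succAbove_ne _ _) g hfg⟩

end TL

theorem tl (hB : St_basic) (h1 : St_N1o) (h2 : St_N1d) (hE : St_E) : St_TL := by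
  intro F c a b σ σ' T T' z d R ha hab hl hl' hσ hd hz1 hz2 hs hs'
  obtain ⟨hT, hb', ha', -, hR, -, -, -⟩ := hB F c a b σ T hab hl
  obtain ⟨hT', hb'', ha'', -, hR', -, -, -⟩ := hB F c a b σ' T' hab hl'
  have hnc := h1 F c a b σ σ' T T' hab hl hl' hσ
  -- two crossing clusters
  have hOC2 : OC c a b 2 F := by
    refine ⟨![(orb F σ T).1, (orb F σ' T').1], ?_, ?_⟩
    · intro i
      fin_cases i
      · exact ⟨ha', _, hb', (hR T le_rfl).symm⟩
      · exact ⟨ha'', _, hb'', (hR' T' le_rfl).symm⟩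
    · have h5 : ¬ Reach (F ∩ Ge c a b) (orb F σ T).1 (orb F σ' T').1 := fun h =>
        hnc (((hR T le_rfl).trans h).trans (hR' T' le_rfl).symm)
      intro i j hij
      fin_cases i <;> fin_cases j
      · exact absurd rfl hij
      · exact h5
      · exact fun h => h5 h.symm
      · exact absurd rfl hij
  obtain ⟨m, hm1, hm2⟩ := TL.OC_max F c a b hOC2
  have hm3 := TL.closed hB h2 hE F c a b σ σ' T T' z d R m ha hab hl hl' hσ hd hz1 hz2 hs hs' hm2
  obtain ⟨x, hx, hne⟩ := hm1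
  set Fc : Set Edg := F \ Bx z (d + 1) with hFc
  have hsub : Fc ∩ Ge c a b ⊆ F ∩ Ge c a b := fun e he => ⟨he.1.1, he.2⟩
  -- a cluster which does not cross without the square
  obtain ⟨j, hj⟩ : ∃ j, ∀ x' y', lv c x' = a → lv c y' = b → Reach (F ∩ Ge c a b) (x j) x' →
      ¬ Reach (Fc ∩ Ge c a b) x' y' := by
    by_contra hcon
    push Not at hcon
    choose x' y' g1 g2 g3 g4 using hcon
    refine hm3 ⟨x', fun i => ⟨g1 i, y' i, g2 i, g4 i⟩, fun i j hij h => hne i j hij ?_⟩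
    exact ((g3 i).trans (h.mono hsub)).trans (g3 j).symm
  obtain ⟨hxj, y, hy, hxy⟩ := hx j
  have hno : ¬ Reach (Fc ∩ Ge c a b) (x j) y := hj (x j) y hxj hy (Reach.refl _ _)
  have hx0 : (R : ℤ) ≤ lv z (x j) := by
    have := TL.lv_tri' c z (x j)
    omega
  have hfar : ∀ v, lv c v = b → (R : ℤ) ≤ lv z v := by
    intro v hv
    have := TL.lv_tri c z v
    omega
  obtain ⟨w₁, hw₁, hxw⟩ : ∃ w, lv z w ≤ (d + 1 : ℕ) ∧ Reach (Fc ∩ Ge c a b) (x j) w := by
    rcases TL.avoid_or (z := z) (n := d + 1) hxy with h | h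
    · exact absurd h hno
    · exact h
  obtain ⟨w₂, hw₂, hyw⟩ : ∃ w, lv z w ≤ (d + 1 : ℕ) ∧ Reach (Fc ∩ Ge c a b) y w := by
    rcases TL.avoid_or (z := z) (n := d + 1) hxy.symm with h | h
    · exact absurd h.symm hno
    · exact h
  obtain ⟨τ, w₃, hτ, hτw, hw₃, hτn⟩ : ∃ τ w : Vtx, lv c τ = b ∧ Reach (F ∩ Ge c a b) τ w ∧
      lv z w ≤ (d + 1 : ℕ) ∧ ¬ Reach (F ∩ Ge c a b) (x j) τ := by
    obtain ⟨s, hsT, hsd⟩ := hs
    obtain ⟨s', hsT', hsd'⟩ := hs'
    by_cases h : Reach (F ∩ Ge c a b) (x j) σ.1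
    · refine ⟨σ'.1, _, hb'', hR' s' hsT'.le, by push_cast; omega, ?_⟩
      intro h'
      exact hnc (h.symm.trans h')
    · exact ⟨σ.1, _, hb', hR s hsT.le, by push_cast; omega, h⟩
  obtain ⟨a₁, b₁, ha₁, hb₁, hr₁, hc₁⟩ := TL.cross (n := d + 1) (by omega) hxw hx0 hw₁
  obtain ⟨a₂, b₂, ha₂, hb₂, hr₂, hc₂⟩ := TL.cross (n := d + 1) (by omega) hyw (hfar y hy) hw₂
  obtain ⟨a₃, b₃, ha₃, hb₃, hr₃, hc₃⟩ := TL.cross (n := d + 1) (by omega) hτw (hfar τ hτ) hw₃
  have e2 : d + 1 + 1 = d + 2 := rfl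
  rw [e2] at hc₁ hc₂ hc₃
  have hb₁' : lv z b₁ = ((d + 2 : ℕ) : ℤ) := by rw [hb₁]; push_cast; ring
  have hb₂' : lv z b₂ = ((d + 2 : ℕ) : ℤ) := by rw [hb₂]; push_cast; ring
  have hb₃' : lv z b₃ = ((d + 2 : ℕ) : ℤ) := by rw [hb₃]; push_cast; ring
  have hz : ∀ e, e ∈ F ∩ Ge z (d + 2) R → e ∈ Fc ∩ Ge c a b := by
    rintro e ⟨he1, he2, he3⟩
    push_cast at he2 he3
    refine ⟨⟨he1, ?_⟩, ?_⟩
    · intro h
      have := h.1
      push_cast at this
      omega
    · have g1 := TL.lv_tri c z (src e)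
      have g2 := TL.lv_tri' c z (src e)
      have g3 := TL.lv_tri c z (tgt e)
      have g4 := TL.lv_tri' c z (tgt e)
      refine ⟨⟨?_, ?_⟩, ?_, ?_⟩ <;> omega
  have hs1 : Fc ∩ Ge c a b ∩ Ge z (d + 2) R ⊆ F ∩ Ge z (d + 2) R :=
    fun e he => ⟨he.1.1.1, he.2⟩
  have hs2 : F ∩ Ge c a b ∩ Ge z (d + 2) R ⊆ F ∩ Ge z (d + 2) R :=
    fun e he => ⟨he.1.1, he.2⟩
  have hs3 : Fc ∩ Ge c a b ∩ Ge z (d + 2) R ⊆ Fc ∩ Ge c a b := fun e he => he.1
  have hs4 : F ∩ Ge c a b ∩ Ge z (d + 2) R ⊆ F ∩ Ge c a b := fun e he => he.1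
  have q1 : Reach (Fc ∩ Ge c a b) (x j) b₁ := hr₁.trans (hc₁.mono hs3)
  have q2 : Reach (Fc ∩ Ge c a b) y b₂ := hr₂.trans (hc₂.mono hs3)
  have q3 : Reach (F ∩ Ge c a b) τ b₃ := hr₃.trans (hc₃.mono hs4)
  have n12 : ¬ Reach (F ∩ Ge z (d + 2) R) b₁ b₂ := fun h =>
    hno ((q1.trans (h.mono hz)).trans q2.symm)
  have n13 : ¬ Reach (F ∩ Ge z (d + 2) R) b₁ b₃ := fun h =>
    hτn (((q1.trans (h.mono hz)).mono hsub).trans q3.symm)
  have n23 : ¬ Reach (F ∩ Ge z (d + 2) R) b₂ b₃ := fun h =>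
    hτn ((hxy.trans ((q2.trans (h.mono hz)).mono hsub)).trans q3.symm)
  refine ⟨![b₁, b₂, b₃], ?_, ?_⟩
  · intro i
    fin_cases i
    · exact ⟨hb₁', a₁, ha₁, (hc₁.mono hs1).symm⟩
    · exact ⟨hb₂', a₂, ha₂, (hc₂.mono hs1).symm⟩
    · exact ⟨hb₃', a₃, ha₃, (hc₃.mono hs2).symm⟩
  · intro i j hij
    fin_cases i <;> fin_cases j
    · exact absurd rfl hij
    · exact n12
    · exact n13
    · exact fun h => n12 h.symm
    · exact absurd rfl hij
    · exact n23
    · exact fun h => n13 h.symm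
    · exact fun h => n23 h.symm
    · exact absurd rfl hij

end Pool.Agent.N948.IX
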