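import Pool.Agent.N948.IX.A1
import Pool.Agent.N948.IX.A2
import Pool.Agent.N948.IX.A3
import Pool.Agent.N948.IX.A4
import Pool.Agent.N948.IX.A5
import Pool.Agent.N948.IX.N3
import Pool.Agent.N948.IX.TL
import Pool.Agent.N948.IX.PS

/-!
# Project IX (helper948): assembly of the first theorem
-/

set_option autoImplicit false

namespace Pool.Agent.N948.IX

open H974 H906.Cyl H12S Finset H984P H342P
open MeasureTheory
open Pool.Agent.H160R2.ML (KArm)
open Pool.Agent.H160R2.ML.TFIN (Z2 crit)

theorem hn1o : St_N1o := n1o congr basic lkOut connI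
theorem hn1d : St_N1d := n1d congr basic lkOut
theorem hn3 : St_N3 := n3 basic restr hn1o hn1d
theorem hps : St_PS := ps congr basic restr
theorem hmom : St_Mom := mom basic restr hn3 hps fin loc nlp
theorem hup : St_Up := up basic restr hn3 hps fin loc cnt cnt' oct hmom
theorem hlo : St_Lo := lo basic restr hn3 hps fin loc cnt cnt' oct hmom
theorem hie : St_IE := ie basic loc hup hlo law

/-- The probability of disjoint crossings with given starting states does not depend on the number
of independent configurations. -/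
theorem tup_law {m K : ℕ} (j : Fin K → Fin m) {a b : ℕ} (hab : a < b) (σ : Fin K → St) :
    (Measure.pi (fun _ : Fin m => crit)).real
      {ω | Tup (0, 0) a b (fun i => opn (ω (j i))) σ} =
    Pr (fun _ => (1/2 : ℝ)) (GeF (0, 0) a b)
      (fun F => Tup (0, 0) a b (fun _ => (↑F : Set Edg)) σ) := by
  rw [← hps m K j (0, 0) a b σ (GeF (0, 0) a b) hab (Finset.Subset.refl _)]
  have h := law m (GeF (0, 0) a b) (fun F => Tup (0, 0) a b (fun i => sl F (j i)) σ)
  rw [← h]
  congr 1
  ext ω
  have e : ∀ i : Fin K, opn (ω (j i)) ∩ Ge (0, 0) a b =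
      sl (A5.tr (GeF (0, 0) a b) ω) (j i) ∩ Ge (0, 0) a b := by
    intro i
    rw [A5.sl_tr]
    ext e
    constructor
    · rintro ⟨h1, h2⟩
      exact ⟨⟨h1, A5.ge_sub _ _ _ _ h2⟩, h2⟩
    · rintro ⟨⟨h1, -⟩, h2⟩
      exact ⟨h1, h2⟩
  constructor
  · intro hσ
    exact A5.tup_loc loc hab e hσ
  · intro hσ
    exact A5.tup_loc loc hab (fun i => (e i).symm) hσ

end Pool.Agent.N948.IX
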