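import Pool.Agent.N948.IX.Fin1
import Pool.Agent.N948.IX.C1
import Pool.Agent.N948.IX.C2
import Pool.Agent.N948.IX.C3
import Pool.Agent.N948.IX.C4
import Pool.Agent.N948.IX.C5
import Pool.Agent.N948.IX.C6

/-!
# Project IX (helper948): assembly of the theorems on colour switching
-/

set_option autoImplicit false

namespace Pool.Agent.N948.IX

open H974 H906.Cyl H12S Finset H984P H342P
open MeasureTheory
open Pool.Agent.H160R2.ML.TFIN (Z2 crit)

theorem hE : St_E := e basic hn1o hn1d (N2.n2o congr basic connO connI) (N2.n2d congr connO)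
theorem htl : St_TL := tl basic hn1o hn1d hE
theorem hf2 : St_F2 := f2 oct
theorem hupE : St_UpE := upE basic restr fin loc cnt' oct hmom
theorem hupE2 : St_UpE2 := upE2 basic restr fin loc cnt' oct hmom hf2
theorem hsh1 : St_SH1 := sh1 basic restr fin
theorem hsh2 : St_SH2 := sh2 basic restr fin
theorem hteUp : St_TEup := teUp basic restr hn3 fin loc hps gps hsh1 shl hupE
theorem hioUp : St_IOup := ioUp basic restr hn3 fin loc hps gps hsh1 shl hupE hupE2
theorem hthin : St_THIN := thin basic restr hn3 htl fin loc cnt cnt' oct hmom hf2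
theorem hioLo : St_IOlo := ioLo basic restr hmom gps hsh1 hsh2 shl hthin

/-- The law of the event `IO`. -/
theorem io_law (n : ℕ) {a b : ℕ} (hab : a < b) :
    crit.real {ω | IO n (0, 0) a b (opn ω)} =
      Pr (fun _ => (1/2 : ℝ)) (GeF (0, 0) a b) (fun F => IO n (0, 0) a b (↑F : Set Edg)) := by
  have h : {ω : Z2.edgeSet → Bool | IO n (0, 0) a b (opn ω)} =
      {ω : sqLattice.edgeSet → Bool | (fun F : Finset Edg => IO n (0, 0) a b (↑F : Set Edg))
        (FF (GeF (0, 0) a b) ω)} := by
    ext ω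
    have e : opn ω ∩ Ge (0, 0) a b =
        (↑(FF (GeF (0, 0) a b) ω) : Set Edg) ∩ Ge (0, 0) a b := by
      rw [FF_coe]
      ext e
      constructor
      · rintro ⟨h1, h2⟩
        exact ⟨⟨h1, A5.ge_sub _ _ _ _ h2⟩, h2⟩
      · rintro ⟨⟨h1, -⟩, h2⟩
        exact ⟨h1, h2⟩
    exact ⟨C6.IO_congr basic hab e, C6.IO_congr basic hab e.symm⟩
  rw [h]
  exact law_event hlf (GeF (0, 0) a b) (fun F => IO n (0, 0) a b (↑F : Set Edg))

end Pool.Agent.N948.IX
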