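import Pool.Agent.N948.IX.Six
import Pool.Agent.N948.IX.N1
import Pool.Agent.N948.IX.N2
import Pool.Agent.N948.IX.Bas

/-!
# Project XD (helper948): outward crossings

Reflection in the vertical axis: the reflected interface runs backwards, so outward crossings
become inward crossings.
-/

set_option autoImplicit false

namespace Pool.Agent.N948.IX.X1

open H974 H906.Cyl H12S Finset H984P H342P Pool.Agent.W92.DP Bas

/-! ### Reflection -/

/-- Reflection of vertices. -/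
def pV (v : Vtx) : Vtx := (-v.1, v.2)

/-- Reflection of faces. -/
def pF (f : Vtx) : Vtx := (-f.1 - 1, f.2)

/-- Reflection of edges. -/
def pE (e : Edg) : Edg := if e.2.2 then (-e.1 - 1, e.2.1, true) else (-e.1, e.2.1, false)

/-- Reflection of corners. -/
def pQ : Q4 → Q4
  | .ne => .nw
  | .nw => .ne
  | .sw => .se
  | .se => .sw

/-- Reflection of states. -/
def pS (ρ : St) : St := (pV ρ.1, pQ ρ.2)

/-- Reflection of configurations. -/
def pG (F : Set Edg) : Set Edg := {e | pE e ∈ F}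

@[simp] lemma pE_true (x y : ℤ) : pE (x, y, true) = (-x - 1, y, true) := rfl
@[simp] lemma pE_false (x y : ℤ) : pE (x, y, false) = (-x, y, false) := rfl

lemma pV_pV (v : Vtx) : pV (pV v) = v := by
  obtain ⟨x, y⟩ := v
  simp [pV]

lemma pF_pF (v : Vtx) : pF (pF v) = v := by
  obtain ⟨x, y⟩ := v
  simp [pF]

lemma pE_pE (e : Edg) : pE (pE e) = e := by
  obtain ⟨x, y, _ | _⟩ := e <;> simp

lemma pQ_pQ (q : Q4) : pQ (pQ q) = q := by
  cases q <;> rfl

lemma pS_pS (ρ : St) : pS (pS ρ) = ρ := by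
  obtain ⟨v, q⟩ := ρ
  simp [pS, pV_pV, pQ_pQ]

lemma pG_pG (F : Set Edg) : pG (pG F) = F := by
  ext e
  show pE (pE e) ∈ F ↔ e ∈ F
  rw [pE_pE]

lemma mem_pG (F : Set Edg) (e : Edg) : e ∈ pG F ↔ pE e ∈ F := Iff.rfl

lemma lv_pV (c v : Vtx) : lv (pV c) (pV v) = lv c v := by
  obtain ⟨x, y⟩ := v
  obtain ⟨cx, cy⟩ := c
  simp only [lv, pV, abs_eq_max_neg]
  omega

lemma lf_pF (c f : Vtx) : lf (pV c) (pF f) = lf c f := by
  obtain ⟨x, y⟩ := f
  obtain ⟨cx, cy⟩ := c
  simp only [lf, pV, pF, abs_eq_max_neg]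
  omega

lemma face_pS (ρ : St) : face (pS ρ) = pF (face ρ) := by
  obtain ⟨⟨x, y⟩, q⟩ := ρ
  cases q <;> simp only [pS, pV, pQ, pF, face_ne, face_nw, face_sw, face_se, Prod.mk.injEq, eq_self,
    and_true, true_and] <;> omega

lemma ae_mv (ρ : St) : ae (pS (mv ρ)) = pE (ae ρ) := by
  obtain ⟨⟨x, y⟩, q⟩ := ρ
  cases q <;> simp only [pS, pV, pQ, mv_ne, mv_nw, mv_sw, mv_se, ae_ne, ae_nw, ae_sw, ae_se,
    pE_true, pE_false, Prod.mk.injEq, eq_self, and_true, true_and] <;> omega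

lemma ae_rt (ρ : St) : ae (pS (rt ρ)) = pE (ae ρ) := by
  obtain ⟨⟨x, y⟩, q⟩ := ρ
  cases q <;> simp only [pS, pV, pQ, rt_ne, rt_nw, rt_sw, rt_se, ae_ne, ae_nw, ae_sw, ae_se,
    pE_true, pE_false, Prod.mk.injEq, eq_self, and_true, true_and] <;> omega

lemma mv_mv (ρ : St) : mv (pS (mv ρ)) = pS ρ := by
  obtain ⟨⟨x, y⟩, q⟩ := ρ
  cases q <;> simp only [pS, pV, pQ, mv_ne, mv_nw, mv_sw, mv_se, Prod.mk.injEq, eq_self, and_true,
    true_and] <;> omega

lemma rt_rt (ρ : St) : rt (pS (rt ρ)) = pS ρ := by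
  obtain ⟨⟨x, y⟩, q⟩ := ρ
  cases q <;> simp only [pS, pV, pQ, rt_ne, rt_nw, rt_sw, rt_se]

/-- the examined edge -/
lemma ae_nxt (F : Set Edg) (ρ : St) : ae (pS (nxt F ρ)) = pE (ae ρ) := by
  by_cases h : ae ρ ∈ F
  · rw [nxt_open h, ae_mv]
  · rw [nxt_closed h, ae_rt]

/-- the reflected interface runs backwards -/
lemma nxt_pS (F : Set Edg) (ρ : St) : nxt (pG F) (pS (nxt F ρ)) = pS ρ := by
  by_cases h : ae ρ ∈ F
  · have h' : ae (pS (mv ρ)) ∈ pG F := by
      rw [ae_mv, mem_pG, pE_pE]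
      exact h
    rw [nxt_open h, nxt_open h', mv_mv]
  · have h' : ae (pS (rt ρ)) ∉ pG F := by
      rw [ae_rt, mem_pG, pE_pE]
      exact h
    rw [nxt_closed h, nxt_closed h', rt_rt]

lemma orb_pS (F : Set Edg) (τ : St) (U : ℕ) : ∀ s ≤ U,
    orb (pG F) (pS (orb F τ U)) s = pS (orb F τ (U - s)) := by
  intro s
  induction s with
  | zero => intro _; rfl
  | succ s ih =>
    intro hs
    rw [orb_succ, ih (by omega)]
    have e : U - s = (U - (s + 1)) + 1 := by omega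
    rw [e, orb_succ, nxt_pS]

lemma ends_pE (e : Edg) : (src (pE e) = pV (src e) ∧ tgt (pE e) = pV (tgt e)) ∨
    (src (pE e) = pV (tgt e) ∧ tgt (pE e) = pV (src e)) := by
  obtain ⟨x, y, _ | _⟩ := e
  · left
    simp [pV]
  · right
    simp only [pE_true, src_mk, tgt_true, pV, Prod.mk.injEq, eq_self, and_true, true_and]
    omega

lemma dends_pE (e : Edg) : (dsrc (pE e) = pF (dsrc e) ∧ dtgt (pE e) = pF (dtgt e)) ∨
    (dsrc (pE e) = pF (dtgt e) ∧ dtgt (pE e) = pF (dsrc e)) := by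
  obtain ⟨x, y, _ | _⟩ := e
  · right
    simp only [pE_false, dsrc_false, dtgt_mk, pF, Prod.mk.injEq, eq_self, and_true, true_and]
    omega
  · left
    simp [pF]

lemma ge_pE (c : Vtx) (a b : ℕ) (e : Edg) : pE e ∈ Ge (pV c) a b ↔ e ∈ Ge c a b := by
  unfold Ge
  rw [Set.mem_ofPred_eq, Set.mem_ofPred_eq]
  rcases ends_pE e with ⟨h1, h2⟩ | ⟨h1, h2⟩
  · rw [h1, h2, lv_pV, lv_pV]
  · rw [h1, h2, lv_pV, lv_pV]
    exact and_comm

lemma af_pF (c : Vtx) (a b : ℕ) (f : Vtx) : Af (pV c) a b (pF f) ↔ Af c a b f := by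
  unfold Af
  rw [lf_pF]

lemma gd_pE (c : Vtx) (a b : ℕ) (e : Edg) : pE e ∈ Gd (pV c) a b ↔ e ∈ Gd c a b := by
  unfold Gd
  rw [Set.mem_ofPred_eq, Set.mem_ofPred_eq]
  rcases dends_pE e with ⟨h1, h2⟩ | ⟨h1, h2⟩
  · rw [h1, h2, af_pF, af_pF]
  · rw [h1, h2, af_pF, af_pF]
    exact and_comm

lemma reach_pV {F : Set Edg} {c : Vtx} {a b : ℕ} {u v : Vtx} (h : Reach (F ∩ Ge c a b) u v) :
    Reach (pG F ∩ Ge (pV c) a b) (pV u) (pV v) := by
  induction h with
  | refl => exact Reach.refl _ _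
  | @tail v w _ hs ih =>
    refine ih.trans (Adj.reach ?_)
    obtain ⟨e, ⟨he, hG⟩, hc⟩ := hs
    refine ⟨pE e, ⟨?_, (ge_pE c a b e).2 hG⟩, ?_⟩
    · rw [mem_pG, pE_pE]; exact he
    · rcases ends_pE e with ⟨h1, h2⟩ | ⟨h1, h2⟩ <;> rw [h1, h2] <;>
        rcases hc with ⟨h3, h4⟩ | ⟨h3, h4⟩ <;> rw [h3, h4] <;> simp

lemma reach_back {F : Set Edg} {c : Vtx} {a b : ℕ} {u v : Vtx}
    (h : Reach (pG F ∩ Ge (pV c) a b) (pV u) (pV v)) : Reach (F ∩ Ge c a b) u v := by
  have := reach_pV h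
  rwa [pG_pG, pV_pV, pV_pV, pV_pV] at this

lemma dreach_pF {F : Set Edg} {c : Vtx} {a b : ℕ} {u v : Vtx}
    (h : DReach (Fᶜ ∩ Gd c a b) u v) :
    DReach ((pG F)ᶜ ∩ Gd (pV c) a b) (pF u) (pF v) := by
  induction h with
  | refl => exact DReach.refl _ _
  | @tail v w _ hs ih =>
    refine ih.trans (DAdj.reach ?_)
    obtain ⟨e, ⟨he, hG⟩, hc⟩ := hs
    refine ⟨pE e, ⟨?_, (gd_pE c a b e).2 hG⟩, ?_⟩
    · show pE e ∉ pG F
      rw [mem_pG, pE_pE]; exact he
    · rcases dends_pE e with ⟨h1, h2⟩ | ⟨h1, h2⟩ <;> rw [h1, h2] <;>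
        rcases hc with ⟨h3, h4⟩ | ⟨h3, h4⟩ <;> rw [h3, h4] <;> simp

lemma dreach_back {F : Set Edg} {c : Vtx} {a b : ℕ} {u v : Vtx}
    (h : DReach ((pG F)ᶜ ∩ Gd (pV c) a b) (pF u) (pF v)) : DReach (Fᶜ ∩ Gd c a b) u v := by
  have := dreach_pF h
  rwa [pG_pG, pV_pV, pF_pF, pF_pF] at this

lemma tin_pF {F : Set Edg} {c : Vtx} {a b : ℕ} {f : Vtx} (h : TIn c a b F f) :
    TIn (pV c) a b (pG F) (pF f) := by
  obtain ⟨h1, e, he, hc⟩ := h
  refine ⟨(af_pF c a b f).2 h1, pE e, ?_, ?_⟩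
  · rw [mem_pG, pE_pE]; exact he
  · rcases dends_pE e with ⟨h1, h2⟩ | ⟨h1, h2⟩ <;> rw [h1, h2, lf_pF, lf_pF] <;>
      rcases hc with ⟨h3, h4⟩ | ⟨h3, h4⟩ <;> rw [h3] <;> simp [h4]

lemma tout_pF {F : Set Edg} {c : Vtx} {a b : ℕ} {f : Vtx} (h : TOut c a b F f) :
    TOut (pV c) a b (pG F) (pF f) := by
  obtain ⟨h1, e, he, hc⟩ := h
  refine ⟨(af_pF c a b f).2 h1, pE e, ?_, ?_⟩
  · rw [mem_pG, pE_pE]; exact he
  · rcases dends_pE e with ⟨h1, h2⟩ | ⟨h1, h2⟩ <;> rw [h1, h2, lf_pF, lf_pF] <;>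
      rcases hc with ⟨h3, h4⟩ | ⟨h3, h4⟩ <;> rw [h3] <;> simp [h4]

lemma tin_back {F : Set Edg} {c : Vtx} {a b : ℕ} {f : Vtx}
    (h : TIn (pV c) a b (pG F) (pF f)) : TIn c a b F f := by
  have := tin_pF h
  rwa [pG_pG, pV_pV, pF_pF] at this

lemma tout_back {F : Set Edg} {c : Vtx} {a b : ℕ} {f : Vtx}
    (h : TOut (pV c) a b (pG F) (pF f)) : TOut c a b F f := by
  have := tout_pF h
  rwa [pG_pG, pV_pV, pF_pF] at this

/-- an outward crossing becomes an inward crossing -/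
lemma in_of_out {F : Set Edg} {c : Vtx} {a b : ℕ} {τ : St} {U : ℕ} (h : OutLeg F c a b τ U) :
    InLeg (pG F) (pV c) a b (pS (orb F τ U)) U := by
  refine ⟨h.pos, ?_, ?_, ?_⟩
  · rw [face_pS, lf_pF]
    exact h.en
  · intro s hs hs'
    rw [orb_pS F τ U s hs'.le, face_pS, lf_pF]
    exact h.mid (U - s) (by omega) (by omega)
  · rw [orb_pS F τ U U le_rfl, Nat.sub_self, orb_zero, face_pS, lf_pF]
    exact h.st

/-- an inward crossing becomes an outward crossing -/
lemma out_of_in {F : Set Edg} {c : Vtx} {a b : ℕ} {σ : St} {T : ℕ} (h : InLeg F c a b σ T) :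
    OutLeg (pG F) (pV c) a b (pS (orb F σ T)) T := by
  refine ⟨h.pos, ?_, ?_, ?_⟩
  · rw [face_pS, lf_pF]
    exact h.en
  · intro s hs hs'
    rw [orb_pS F σ T s hs'.le, face_pS, lf_pF]
    exact h.mid (T - s) (by omega) (by omega)
  · rw [orb_pS F σ T T le_rfl, Nat.sub_self, orb_zero, face_pS, lf_pF]
    exact h.st

lemma out_back {F : Set Edg} {c : Vtx} {a b : ℕ} {σ : St} {T : ℕ}
    (h : InLeg (pG F) (pV c) a b σ T) : OutLeg F c a b (pS (orb (pG F) σ T)) T := by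
  have := out_of_in h
  rwa [pG_pG, pV_pV] at this

/-- the orbit of an outward crossing which is obtained by reflection -/
lemma orb_back {F : Set Edg} {σ : St} {T : ℕ} (s : ℕ) (hs : s ≤ T) :
    orb F (pS (orb (pG F) σ T)) s = pS (orb (pG F) σ (T - s)) := by
  have := orb_pS (pG F) σ T s hs
  rwa [pG_pG] at this

end Pool.Agent.N948.IX.X1

namespace Pool.Agent.N948.IX

open H974 H906.Cyl H12S Finset H984P H342P Pool.Agent.W92.DP Bas X1

theorem oBasic : St_oBasic := by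
  intro F c a b τ U hab h
  have hi := in_of_out h
  obtain ⟨h1, h2, h3, h4, h5, h6, h7, h8⟩ := basic _ _ _ _ _ _ hab hi
  rw [orb_pS F τ U U le_rfl, Nat.sub_self, orb_zero] at h3
  refine ⟨h1, ?_, ?_, ?_, ?_, ?_, ?_, ?_⟩
  · rwa [show (pS τ).1 = pV τ.1 from rfl, lv_pV] at h3
  · rwa [show (pS (orb F τ U)).1 = pV (orb F τ U).1 from rfl, lv_pV] at h2
  · intro s hs
    have h9 := h4 (U - (s + 1)) (by omega)
    rw [orb_pS F τ U _ (by omega)] at h9
    rw [show U - (U - (s + 1)) = s + 1 by omega, orb_succ, ae_nxt] at h9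
    exact (ge_pE c a b _).1 h9
  · intro s hs
    have h9 := h5 U le_rfl
    have h10 := h5 (U - s) (by omega)
    rw [orb_pS F τ U _ (by omega)] at h9 h10
    rw [show U - (U - s) = s by omega] at h10
    rw [Nat.sub_self, orb_zero] at h9
    exact reach_back (h9.symm.trans h10)
  · intro s hs hs'
    have h9 := h6 (U - 1) (by omega) (by omega)
    have h10 := h6 (U - s) (by omega) (by omega)
    rw [orb_pS F τ U (U - 1) (by omega), face_pS] at h9
    rw [orb_pS F τ U (U - s) (by omega), face_pS] at h10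
    rw [show U - (U - s) = s by omega] at h10
    rw [show U - (U - 1) = 1 by omega] at h9
    exact dreach_back (h9.symm.trans h10)
  · rw [orb_pS F τ U (U - 1) (by omega), face_pS, show U - (U - 1) = 1 by omega] at h8
    exact tin_back h8
  · rw [orb_pS F τ U 1 (by omega), face_pS] at h7
    exact tout_back h7

/-- Different outward crossings become different inward crossings. -/
lemma X1.ne_of_ne {F : Set Edg} {c : Vtx} {a b : ℕ} {τ τ' : St} {U U' : ℕ} (hab : a < b)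
    (h : OutLeg F c a b τ U) (h' : OutLeg F c a b τ' U') (hne : τ ≠ τ') :
    pS (orb F τ U) ≠ pS (orb F τ' U') := by
  intro he
  have hi := in_of_out h
  have hi' := in_of_out h'
  rw [← he] at hi'
  have hU := (restr _ _ _ _ _ _ hab hi).1 U' hi'
  subst hU
  have h1 := orb_pS F τ U' U' le_rfl
  have h2 := orb_pS F τ' U' U' le_rfl
  rw [he, h2, Nat.sub_self, orb_zero, orb_zero] at h1
  have h3 := congrArg pS h1
  rw [pS_pS, pS_pS] at h3
  exact hne h3.symm

theorem oN1o : St_oN1o := by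
  intro F c a b τ τ' U U' hab h h' hne hr
  have hi := in_of_out h
  have hi' := in_of_out h'
  have hn := n1o congr basic lkOut connI _ _ _ _ _ _ _ _ hab hi hi' (X1.ne_of_ne hab h h' hne)
  have h5 := (basic _ _ _ _ _ _ hab hi).2.2.2.2.1 U le_rfl
  have h5' := (basic _ _ _ _ _ _ hab hi').2.2.2.2.1 U' le_rfl
  rw [orb_pS F _ _ _ le_rfl, Nat.sub_self, orb_zero] at h5 h5'
  exact hn (h5.trans ((reach_pV hr).trans h5'.symm))

theorem oN1d : St_oN1d := by
  intro F c a b τ τ' U U' hab h h' hne hr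
  have hi := in_of_out h
  have hi' := in_of_out h'
  have hn := n1d congr basic lkOut _ _ _ _ _ _ _ _ hab hi hi' (X1.ne_of_ne hab h h' hne)
  have h1 := (basic _ _ _ _ _ _ hab hi).1
  have h1' := (basic _ _ _ _ _ _ hab hi').1
  have h6 := (basic _ _ _ _ _ _ hab hi).2.2.2.2.2.1 (U - 1) (by omega) (by omega)
  have h6' := (basic _ _ _ _ _ _ hab hi').2.2.2.2.2.1 (U' - 1) (by omega) (by omega)
  rw [orb_pS F _ _ (U - 1) (by omega), face_pS, show U - (U - 1) = 1 by omega] at h6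
  rw [orb_pS F _ _ (U' - 1) (by omega), face_pS, show U' - (U' - 1) = 1 by omega] at h6'
  exact hn (h6.trans ((dreach_pF hr).trans h6'.symm))

theorem oN2o : St_oN2o := by
  intro F c a b x y x' y' ha hab hx hy hr hx' hy' hr' hn
  obtain ⟨σ, T, hσ, hσr⟩ := N2.n2o congr basic connO connI (pG F) (pV c) a b (pV x) (pV y) (pV x')
    (pV y') ha hab (by rw [lv_pV]; exact hx) (by rw [lv_pV]; exact hy) (reach_pV hr)
    (by rw [lv_pV]; exact hx') (by rw [lv_pV]; exact hy') (reach_pV hr')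
    (fun h => hn (reach_back h))
  refine ⟨pS (orb (pG F) σ T), T, out_back hσ, ?_⟩
  have h5 := (basic _ _ _ _ _ _ hab hσ).2.2.2.2.1 T le_rfl
  have h6 := hσr.trans h5
  rw [← pV_pV (orb (pG F) σ T).1] at h6
  exact reach_back h6

theorem oN2d : St_oN2d := by
  intro F c a b f g f' g' ha hab hf hg hr hf' hg' hr' hn
  obtain ⟨σ, T, hσ, hσr⟩ := N2.n2d congr connO (pG F) (pV c) a b (pF f) (pF g) (pF f')
    (pF g') ha hab (tin_pF hf) (tout_pF hg) (dreach_pF hr) (tin_pF hf') (tout_pF hg')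
    (dreach_pF hr') (fun h => hn (dreach_back h))
  refine ⟨pS (orb (pG F) σ T), T, out_back hσ, ?_⟩
  have hT := (basic _ _ _ _ _ _ hab hσ).1
  have h5 := (basic _ _ _ _ _ _ hab hσ).2.2.2.2.2.1 (T - 1) (by omega) (by omega)
  have h6 := hσr.trans h5
  rw [orb_back 1 hT.le, face_pS]
  rw [← pF_pF (face (orb (pG F) σ (T - 1)))] at h6
  exact dreach_back h6

theorem oRestr : St_oRestr := by
  intro F c a b τ U hab h
  have hab' : (a : ℤ) < b := by exact_mod_cast hab
  have hi := in_of_out h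
  refine ⟨?_, ?_, ?_, ?_, ?_⟩
  · intro U' h'
    rcases Nat.lt_trichotomy U' U with h1 | h1 | h1
    · have h2 := h.mid U' h'.pos h1
      have h3 := h'.en
      omega
    · exact h1
    · have h2 := h'.mid U h.pos h1
      have h3 := h.en
      omega
  · intro m hm hmb
    obtain ⟨s, hs, hL⟩ := (restr _ _ _ _ _ _ hab hi).2.2.1 m hm hmb
    refine ⟨U - s, by omega, ?_⟩
    have h1 := out_back hL
    rw [← orb_add, show U - s + s = U by omega, orb_pS F τ U U le_rfl, Nat.sub_self, orb_zero,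
      pS_pS] at h1
    exact h1
  · intro m hm hmb
    obtain ⟨T', hT', hL⟩ := (restr _ _ _ _ _ _ hab hi).2.1 m hm hmb
    have hpos := hL.pos
    refine ⟨U - T', by omega, ?_⟩
    have h1 := out_back hL
    rw [orb_pS F τ U T' hT', pS_pS] at h1
    rw [show U - (U - T') = T' by omega]
    exact h1
  · intro τ' U' s s' h' hs hs' he
    rcases Nat.lt_trichotomy s s' with h1 | h1 | h1
    · exfalso
      have e : s' = s + (s' - s) := by omega
      rw [e, orb_add] at he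
      have h2 := orb_inj he
      have h3 := h'.mid (s' - s) (by omega) (by omega)
      have h4 := h.st
      rw [← h2] at h3
      omega
    · subst h1
      exact ⟨orb_inj he, rfl⟩
    · exfalso
      have e : s = s' + (s - s') := by omega
      rw [e, orb_add] at he
      have h2 := orb_inj he
      have h3 := h.mid (s - s') (by omega) (by omega)
      have h4 := h'.st
      rw [h2] at h3
      omega
  · intro σ T t s hσ ht hs he
    have h1 := hσ.st
    have h2 := h.st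
    rcases Nat.lt_or_ge s t with hst | hst
    · have e : t = s + (t - s) := by omega
      rw [e, orb_add] at he
      have h3 := orb_inj he
      have h4 := hσ.mid (t - s) (by omega) (by omega)
      rw [h3] at h4
      omega
    · have e : s = t + (s - t) := by omega
      rw [e, orb_add] at he
      have h3 := orb_inj he
      rcases Nat.eq_zero_or_pos (s - t) with h4 | h4
      · rw [h4, orb_zero] at h3
        rw [h3] at h1
        omega
      · have h5 := h.mid (s - t) h4 (by omega)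
        rw [← h3] at h5
        omega

end Pool.Agent.N948.IX
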