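import Pool.Agent.N948.IX.X10
import Pool.Agent.N948.IX.Ex1

/-!
# Project XD: the separation lemma with `2 ≤ a1` (proof of helper478, `X10`)
-/

set_option autoImplicit false
namespace Pool.Agent.N948.IX.X10
open H974 Finset H984P
open Pool.Agent.N948.IX.C5

theorem sept02 (hB : St_basic) (hr : St_restr) (hl : St_loc) (hc : St_cnt) (hc' : St_cnt')
    (ho : St_OCt) (hTL : St_TL) (hF2 : St_F2) (hU : St_U32) (hNL : St_NL3) (hA : St_APP)
    (hupp : ∃ C : ℝ, 0 < C ∧ ∀ n : ℕ, 1 ≤ n → Pr (fun _ => (1/2 : ℝ)) (boxE n)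
      (fun F => Pool.Agent.H160R2.ML.KArm 3 (15 : ℕ) n (↑F : Set Edg)) ≤
        C * (n : ℝ) ^ (-(35 / 12) : ℝ)) : St_SEPT2 := by
  obtain ⟨C1, hC1, hF⟩ := f2' hF2
  obtain ⟨C3, hC3, hU3⟩ := hU
  obtain ⟨CU, hCU, hUU⟩ := hupp
  obtain ⟨CA, κ, hCA, hκ, -, hAp⟩ := hA
  obtain ⟨K1, hK1, hE1⟩ := e1_pr hC1 hC3 hF hU3
  obtain ⟨K2, hK2, hE2⟩ := e2_pr hC1 hC3 hF hU3
  obtain ⟨K3, hK3, hE3⟩ := e3_pr ho hC1 hCU hF hUU
  -- the exponent
  obtain ⟨B0, hB0⟩ := exists_nat_ge (7 / 2 / κ)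
  have hBκ : 7 / 2 ≤ κ * (((B0 + 2 : ℕ) : ℝ) - 1) := by
    have h1 : 7 / 2 ≤ κ * B0 := by
      rw [div_le_iff₀ hκ] at hB0
      linarith
    push_cast
    nlinarith
  refine ⟨B0 + 2, by omega, ?_⟩
  intro ε hε
  have hε4 : 0 < ε / 4 := by positivity
  obtain ⟨N3, hN3⟩ := small K3 (κ := 1/4) (by norm_num) hε4
  obtain ⟨N1, hN1⟩ := small K1 (κ := 1/8) (by norm_num) hε4
  obtain ⟨N2, hN2⟩ := small K2 (κ := 1/4) (by norm_num) hε4
  obtain ⟨K4, hK4, hE4⟩ := e4_pr hB hl hC1 hCA hκ hF hAp (B := B0 + 2) (by omega) hBκ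
    (max 16 N1) (le_max_of_le_left (by norm_num))
  obtain ⟨N4, hN4⟩ := small K4 hκ hε4
  refine ⟨max 240 N3, max 16 N1, max 8 N4, max 201 N2,
    2000 + 8 * max 240 N3 + (48 * max 240 N3) ^ (B0 + 2) + 1, le_max_of_le_left (by norm_num),
    le_max_of_le_left (by norm_num), le_max_of_le_left (by norm_num),
    le_max_of_le_left (by norm_num), ?_⟩
  intro c b r S hb hrb hS
  have ha : 240 ≤ max 240 N3 := le_max_left _ _
  have hM : 16 ≤ max 16 N1 := le_max_left _ _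
  have hM' : 8 ≤ max 8 N4 := le_max_left _ _
  have hN : 201 ≤ max 201 N2 := le_max_left _ _
  have k1 := hN3 (max 240 N3) (le_max_right _ _)
  have k2 := hN1 (max 16 N1) (le_max_right _ _)
  have k3 := hN4 (max 8 N4) (le_max_right _ _)
  have k4 := hN2 (max 201 N2) (le_max_right _ _)
  generalize max 240 N3 = a at *
  generalize max 16 N1 = M at *
  generalize max 8 N4 = M' at *
  generalize max 201 N2 = N at *
  have e1 := hE1 c a M b S (by omega) (by omega) (by omega) hS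
  have e2 := hE2 c a N b S (by omega) (by omega) (by omega) hS
  have e3 := hE3 c a b r S ha (by omega) hrb hS
  have e4 := hE4 c a M' b S (by omega) (by omega) (by omega) hS
  have hab : 0 ≤ ((a : ℝ) / b) ^ (5/4 : ℝ) := by positivity
  have u : Pr (fun _ => (1/2 : ℝ)) S (fun F => OC c a b 2 (↑F : Set Edg) ∧
      ¬ AllG M M' (B0 + 2) N c a b r (↑F : Set Edg)) ≤
      Pr (fun _ => (1/2 : ℝ)) S (fun F => E1 c a M b (↑F : Set Edg)) +
      (Pr (fun _ => (1/2 : ℝ)) S (fun F => E2 c a N b (↑F : Set Edg)) +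
      (Pr (fun _ => (1/2 : ℝ)) S (fun F => E3 c a b r (↑F : Set Edg)) +
      Pr (fun _ => (1/2 : ℝ)) S (fun F => E4 c a M M' (B0 + 2) b (↑F : Set Edg)))) := by
    refine (pr_mono (B := fun F : Finset Edg => E1 c a M b (↑F : Set Edg) ∨
      E2 c a N b (↑F : Set Edg) ∨ E3 c a b r (↑F : Set Edg) ∨
      E4 c a M M' (B0 + 2) b (↑F : Set Edg)) fun F hF =>
      bad_of hB hr hc hc' hTL hNL ha (by omega) hM hM' (by omega) hN (by omega) (by omega) hrb
        hF.1 hF.2).trans ?_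
    refine (Pr_or_le ok S _ _).trans (add_le_add_right ?_ _)
    refine (Pr_or_le ok S _ _).trans (add_le_add_right ?_ _)
    exact Pr_or_le ok S _ _
  refine u.trans ?_
  have m1 := e1.trans (mul_le_mul_of_nonneg_right k2 hab)
  have m2 := e2.trans (mul_le_mul_of_nonneg_right k4 hab)
  have m3 := e3.trans (mul_le_mul_of_nonneg_right k1 hab)
  have m4 := e4.trans (mul_le_mul_of_nonneg_right k3 hab)
  linarith

end X10

/-- **The separation lemma**. -/
theorem sept2 (hB : St_basic) (hr : St_restr) (hl : St_loc) (hc : St_cnt) (hc' : St_cnt')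
    (ho : St_OCt) (hTL : St_TL) (hF2 : St_F2) (hU : St_U32) (hNL : St_NL3) (hA : St_APP) :
    St_SEPT2 := by
  refine X10.sept02 hB hr hl hc hc' ho hTL hF2 hU hNL hA ?_
  obtain ⟨C, hC, h⟩ := TH992.E.upper 3 (by norm_num) 15
  refine ⟨C, hC, fun n h1 => ?_⟩
  have h3 := h n h1
  rw [show -((4 * ((3 : ℕ) : ℝ) ^ 2 - 1) / 12) = -(35 / 12) by norm_num] at h3
  exact h3

end Pool.Agent.N948.IX
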