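import Pool.Agent.N948.IX.Ex0

/-!
# Project XD (helper948): orientation of the crossings of a circle (helper527)
-/

set_option autoImplicit false

namespace Pool.Agent.N948.IX

namespace X11

open H974 Finset H984P

/-- the corner of the state with the vertex `cir c n i` and the inner face of the edge -/
def qB (n i : ℕ) : Q4 :=
  if i < 2 * n then .se else if i < 4 * n then .ne else if i < 6 * n then .nw else .sw

/-- the corner of the state with the vertex `cir c n (i + 1)` and the outer face of the edge -/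
def qA (n i : ℕ) : Q4 :=
  if i < 2 * n then .nw else if i < 4 * n then .sw else if i < 6 * n then .se else .ne

def stA (c : Vtx) (n i : ℕ) : St := (cir c n (i + 1), qA n i)

def stB (c : Vtx) (n i : ℕ) : St := (cir c n i, qB n i)

lemma cir_left {c : Vtx} {n i : ℕ} (h : i ≤ 2 * n) : cir c n i = (c.1 - n, c.2 + n - i) := by
  unfold cir
  rw [if_pos h]

lemma cir_bot {c : Vtx} {n i : ℕ} (h0 : 2 * n ≤ i) (h : i ≤ 4 * n) :
    cir c n i = (c.1 - n + (i - 2 * n), c.2 - n) := by
  unfold cir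
  split_ifs with h1
  · ext
    · simp only
      omega
    · simp only
      omega
  · rfl

lemma cir_right {c : Vtx} {n i : ℕ} (h0 : 4 * n ≤ i) (h : i ≤ 6 * n) :
    cir c n i = (c.1 + n, c.2 - n + (i - 4 * n)) := by
  unfold cir
  split_ifs with h1 h2
  · ext
    · simp only
      omega
    · simp only
      omega
  · ext
    · simp only
      omega
    · simp only
      omega
  · rfl

lemma cir_top {c : Vtx} {n i : ℕ} (h0 : 6 * n ≤ i) (h : i ≤ 8 * n) :
    cir c n i = (c.1 + n - (i - 6 * n), c.2 + n) := by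
  unfold cir
  split_ifs with h1 h2 h3
  · ext
    · simp only
      omega
    · simp only
      omega
  · ext
    · simp only
      omega
    · simp only
      omega
  · ext
    · simp only
      omega
    · simp only
      omega
  · rfl

/-- the coordinates of the two states -/
lemma forms {c : Vtx} {n i : ℕ} (hi : i < 8 * n) :
    (i < 2 * n ∧ stB c n i = ((c.1 - n, c.2 + n - i), .se) ∧
      stA c n i = ((c.1 - n, c.2 + n - i - 1), .nw)) ∨
    (2 * n ≤ i ∧ i < 4 * n ∧ stB c n i = ((c.1 - n + (i - 2 * n), c.2 - n), .ne) ∧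
      stA c n i = ((c.1 - n + (i - 2 * n) + 1, c.2 - n), .sw)) ∨
    (4 * n ≤ i ∧ i < 6 * n ∧ stB c n i = ((c.1 + n, c.2 - n + (i - 4 * n)), .nw) ∧
      stA c n i = ((c.1 + n, c.2 - n + (i - 4 * n) + 1), .se)) ∨
    (6 * n ≤ i ∧ stB c n i = ((c.1 + n - (i - 6 * n), c.2 + n), .sw) ∧
      stA c n i = ((c.1 + n - (i - 6 * n) - 1, c.2 + n), .ne)) := by
  by_cases h1 : i < 2 * n
  · refine Or.inl ⟨h1, ?_, ?_⟩
    · unfold stB qB
      rw [if_pos h1, cir_left (by omega)]
    · unfold stA qA
      rw [if_pos h1, cir_left (by omega)]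
      refine Prod.ext (Prod.ext rfl ?_) rfl
      simp only
      push_cast
      ring
  · by_cases h2 : i < 4 * n
    · refine Or.inr (Or.inl ⟨by omega, h2, ?_, ?_⟩)
      · unfold stB qB
        rw [if_neg h1, if_pos h2, cir_bot (by omega) (by omega)]
      · unfold stA qA
        rw [if_neg h1, if_pos h2, cir_bot (by omega) (by omega)]
        refine Prod.ext (Prod.ext ?_ rfl) rfl
        simp only
        push_cast
        ring
    · by_cases h3 : i < 6 * n
      · refine Or.inr (Or.inr (Or.inl ⟨by omega, h3, ?_, ?_⟩))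
        · unfold stB qB
          rw [if_neg h1, if_neg h2, if_pos h3, cir_right (by omega) (by omega)]
        · unfold stA qA
          rw [if_neg h1, if_neg h2, if_pos h3, cir_right (by omega) (by omega)]
          refine Prod.ext (Prod.ext rfl ?_) rfl
          simp only
          push_cast
          ring
      · refine Or.inr (Or.inr (Or.inr ⟨by omega, ?_, ?_⟩))
        · unfold stB qB
          rw [if_neg h1, if_neg h2, if_neg h3, cir_top (by omega) (by omega)]
        · unfold stA qA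
          rw [if_neg h1, if_neg h2, if_neg h3, cir_top (by omega) (by omega)]
          refine Prod.ext (Prod.ext ?_ rfl) rfl
          simp only
          push_cast
          ring

lemma ae_eq {c : Vtx} {n i : ℕ} (hi : i < 8 * n) : ae (stA c n i) = ae (stB c n i) := by
  rcases forms (c := c) hi with ⟨_, h1, h2⟩ | ⟨_, _, h1, h2⟩ | ⟨_, _, h1, h2⟩ | ⟨_, h1, h2⟩ <;>
    rw [h1, h2] <;> simp [ae]

lemma mvA {c : Vtx} {n i : ℕ} (hi : i < 8 * n) : mv (stA c n i) = rt (stB c n i) := by
  rcases forms (c := c) hi with ⟨_, h1, h2⟩ | ⟨_, _, h1, h2⟩ | ⟨_, _, h1, h2⟩ | ⟨_, h1, h2⟩ <;>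
    rw [h1, h2] <;> simp [mv, rt]

lemma mvB {c : Vtx} {n i : ℕ} (hi : i < 8 * n) : mv (stB c n i) = rt (stA c n i) := by
  rcases forms (c := c) hi with ⟨_, h1, h2⟩ | ⟨_, _, h1, h2⟩ | ⟨_, _, h1, h2⟩ | ⟨_, h1, h2⟩ <;>
    rw [h1, h2] <;> simp [mv, rt]

lemma face_mv (ρ : St) : face (mv ρ) = face ρ := by
  obtain ⟨v, q⟩ := ρ
  cases q <;> simp [mv, face]

lemma rt_fst (ρ : St) : (rt ρ).1 = ρ.1 := by
  obtain ⟨v, q⟩ := ρ
  cases q <;> rfl

lemma lfA {c : Vtx} {n i : ℕ} (hi : i < 8 * n) : lf c (face (stA c n i)) = 2 * n + 1 := by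
  rcases forms (c := c) hi with ⟨_, h1, h2⟩ | ⟨_, _, h1, h2⟩ | ⟨_, _, h1, h2⟩ | ⟨_, h1, h2⟩ <;>
    rw [h2] <;> simp only [face, lf, abs_eq_max_neg] <;> omega

lemma lfB {c : Vtx} {n i : ℕ} (hi : i < 8 * n) : lf c (face (stB c n i)) = 2 * n - 1 := by
  rcases forms (c := c) hi with ⟨_, h1, h2⟩ | ⟨_, _, h1, h2⟩ | ⟨_, _, h1, h2⟩ | ⟨_, h1, h2⟩ <;>
    rw [h1] <;> simp only [face, lf, abs_eq_max_neg] <;> omega

lemma injA {c : Vtx} {n i j : ℕ} (hi : i < 8 * n) (hj : j < 8 * n)
    (h : stA c n i = stA c n j) : i = j := by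
  rcases forms (c := c) hi with ⟨_, _, h2⟩ | ⟨_, _, _, h2⟩ | ⟨_, _, _, h2⟩ | ⟨_, _, h2⟩ <;>
  rcases forms (c := c) hj with ⟨_, _, h4⟩ | ⟨_, _, _, h4⟩ | ⟨_, _, _, h4⟩ | ⟨_, _, h4⟩ <;>
    rw [h2, h4] at h <;> simp only [Prod.mk.injEq, reduceCtorEq, and_false, and_true] at h <;> omega

lemma injB {c : Vtx} {n i j : ℕ} (hi : i < 8 * n) (hj : j < 8 * n)
    (h : stB c n i = stB c n j) : i = j := by
  rcases forms (c := c) hi with ⟨_, h2, _⟩ | ⟨_, _, h2, _⟩ | ⟨_, _, h2, _⟩ | ⟨_, h2, _⟩ <;>
  rcases forms (c := c) hj with ⟨_, h4, _⟩ | ⟨_, _, h4, _⟩ | ⟨_, _, h4, _⟩ | ⟨_, h4, _⟩ <;>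
    rw [h2, h4] at h <;> simp only [Prod.mk.injEq, reduceCtorEq, and_false, and_true] at h <;> omega

/-- the faces on the two sides of the circle -/
lemma lv_of_cross {c : Vtx} {n : ℕ} {ρ : St}
    (h : (lf c (face ρ) < 2 * n ∧ 2 * (n : ℤ) < lf c (face (rt ρ))) ∨
      (2 * (n : ℤ) < lf c (face ρ) ∧ lf c (face (rt ρ)) < 2 * n)) :
    lv c (src (ae ρ)) = n ∧ lv c (tgt (ae ρ)) = n := by
  obtain ⟨⟨x, y⟩, q⟩ := ρ
  cases q <;> simp only [face, rt, ae, src, tgt, lf, lv, abs_eq_max_neg, if_true, if_false,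
    Bool.false_eq_true] at h ⊢ <;> omega

/-- the states of an edge of the circle -/
lemma of_ends {c : Vtx} {n i : ℕ} (hi : i < 8 * n) {ρ : St}
    (h : (src (ae ρ) = cir c n i ∧ tgt (ae ρ) = cir c n (i + 1)) ∨
      (tgt (ae ρ) = cir c n i ∧ src (ae ρ) = cir c n (i + 1))) :
    ρ = stA c n i ∨ ρ = stB c n i := by
  have e1 : (stB c n i).1 = cir c n i := rfl
  have e2 : (stA c n i).1 = cir c n (i + 1) := rfl
  rw [← e1, ← e2] at h
  obtain ⟨⟨x, y⟩, q⟩ := ρ
  rcases forms (c := c) hi with ⟨_, h1, h2⟩ | ⟨_, _, h1, h2⟩ | ⟨_, _, h1, h2⟩ | ⟨_, h1, h2⟩ <;>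
    rw [h1, h2] at h ⊢ <;> cases q <;>
    simp only [ae, src, tgt, Prod.mk.injEq, reduceCtorEq, and_false, and_true, if_true, if_false,
      Bool.false_eq_true, or_false, false_or] at h ⊢ <;> omega

/-- the states visited by the leg -/
def vis (F : Set Edg) (σ : St) (T : ℕ) (ρ : St) : Prop := ∃ s, 0 < s ∧ s < T ∧ orb F σ s = ρ

lemma vis_nxt {F : Set Edg} {c : Vtx} {a b : ℕ} {σ : St} {T : ℕ} (h : InLeg F c a b σ T) {ρ : St}
    (h1 : lf c (face ρ) < 2 * (b : ℤ)) (h2 : 2 * (a : ℤ) < lf c (face (nxt F ρ))) :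
    vis F σ T ρ ↔ vis F σ T (nxt F ρ) := by
  constructor
  · rintro ⟨s, h3, h4, h5⟩
    refine ⟨s + 1, by omega, ?_, by rw [orb_succ, h5]⟩
    by_contra h6
    have h7 : s + 1 = T := by omega
    have h8 := h.en
    rw [← h7, orb_succ, h5] at h8
    omega
  · rintro ⟨s, h3, h4, h5⟩
    obtain ⟨s, rfl⟩ : ∃ k, s = k + 1 := ⟨s - 1, by omega⟩
    rw [orb_succ] at h5
    have h6 := (nxt_bij F).injective h5
    refine ⟨s, ?_, by omega, h6⟩
    by_contra h7
    have h8 : s = 0 := by omega
    subst h8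
    have h9 := h.st
    rw [orb_zero] at h6
    rw [h6] at h9
    omega

lemma vis_congr_b2 {P Q : Prop} (h : P ↔ Q) : b2 P = b2 Q := by
  rw [propext h]

open Classical in
/-- one edge of the circle -/
lemma edge {F : Set Edg} {c : Vtx} {a b n : ℕ} {σ : St} {T : ℕ} (h : InLeg F c a b σ T)
    (ha : a < n) (hb : n < b) {i : ℕ} (hi : i < 8 * n) {hv hf : Vtx → ZMod 2} {x : ZMod 2}
    (hx : ∀ s, 0 < s → s < T → hv (orb F σ s).1 = x)
    (hp : ∀ ρ : St, (ρ.1 = cir c n i ∨ ρ.1 = cir c n (i + 1)) →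
      hv ρ.1 + hf (face ρ) = b2 (vis F σ T ρ)) :
    (if hv (cir c n (i + 1)) = x then (1 : ℤ) else 0) - (if hv (cir c n i) = x then 1 else 0) =
      (if ae (stA c n i) ∉ F ∧ vis F σ T (stA c n i) then 1 else 0) -
        (if ae (stB c n i) ∉ F ∧ vis F σ T (stB c n i) then 1 else 0) := by
  have eA : (stA c n i).1 = cir c n (i + 1) := rfl
  have eB : (stB c n i).1 = cir c n i := rfl
  have fA := lfA (c := c) hi
  have fB := lfB (c := c) hi
  have mA : (mv (stA c n i)).1 = cir c n i := by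
    rw [mvA hi, rt_fst, eB]
  have gA : lf c (face (mv (stA c n i))) = 2 * n + 1 := by rw [face_mv, fA]
  have gB : lf c (face (mv (stB c n i))) = 2 * n - 1 := by rw [face_mv, fB]
  have p1 := hp (stA c n i) (Or.inr eA)
  have p2 := hp (mv (stA c n i)) (Or.inl mA)
  rw [eA] at p1
  rw [mA, face_mv] at p2
  by_cases hF : ae (stA c n i) ∈ F
  · have hF' : ae (stB c n i) ∈ F := by rw [← ae_eq hi]; exact hF
    have v1 : vis F σ T (stA c n i) ↔ vis F σ T (mv (stA c n i)) := by
      have := vis_nxt h (ρ := stA c n i) (by omega) (by rw [nxt_open hF]; omega)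
      rwa [nxt_open hF] at this
    rw [vis_congr_b2 v1, ← p2] at p1
    have e1 : hv (cir c n (i + 1)) = hv (cir c n i) := add_right_cancel p1
    have nA : ¬ (ae (stA c n i) ∉ F ∧ vis F σ T (stA c n i)) := fun h => h.1 hF
    have nB : ¬ (ae (stB c n i) ∉ F ∧ vis F σ T (stB c n i)) := fun h => h.1 hF'
    rw [e1, if_neg nA, if_neg nB, sub_self, sub_self]
  · have hF' : ae (stB c n i) ∉ F := by rw [← ae_eq hi]; exact hF
    have v2 : vis F σ T (stB c n i) ↔ vis F σ T (mv (stA c n i)) := by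
      have := vis_nxt h (ρ := stB c n i) (by omega) (by rw [nxt_closed hF', ← mvA hi]; omega)
      rwa [nxt_closed hF', ← mvA hi] at this
    rw [← vis_congr_b2 v2] at p2
    have xA : vis F σ T (stA c n i) → hv (cir c n (i + 1)) = x := by
      rintro ⟨s, h3, h4, h5⟩
      have := hx s h3 h4
      rw [h5] at this
      exact this
    have xB : vis F σ T (stB c n i) → hv (cir c n i) = x := by
      rintro ⟨s, h3, h4, h5⟩
      have := hx s h3 h4
      rw [h5] at this
      exact this
    by_cases vA : vis F σ T (stA c n i)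
    · by_cases vB : vis F σ T (stB c n i)
      · rw [if_pos (xA vA), if_pos (xB vB), if_pos ⟨hF, vA⟩, if_pos ⟨hF', vB⟩]
      · rw [b2_of vA, xA vA] at p1
        rw [b2_not_of vB] at p2
        have hne : hv (cir c n i) ≠ x := by
          intro he
          rw [he, p1] at p2
          exact absurd p2 (by decide)
        rw [if_pos (xA vA), if_neg hne, if_pos ⟨hF, vA⟩, if_neg (fun h => vB h.2)]
    · by_cases vB : vis F σ T (stB c n i)
      · rw [b2_not_of vA] at p1
        rw [b2_of vB, xB vB] at p2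
        have hne : hv (cir c n (i + 1)) ≠ x := by
          intro he
          rw [he, p2] at p1
          exact absurd p1 (by decide)
        rw [if_pos (xB vB), if_neg hne, if_neg (fun h => vA h.2), if_pos ⟨hF', vB⟩]
      · rw [b2_not_of vA] at p1
        rw [b2_not_of vB, ← p1] at p2
        have e1 : hv (cir c n i) = hv (cir c n (i + 1)) := add_right_cancel p2
        have nA : ¬ (ae (stA c n i) ∉ F ∧ vis F σ T (stA c n i)) := fun h => vA h.2
        have nB : ¬ (ae (stB c n i) ∉ F ∧ vis F σ T (stB c n i)) := fun h => vB h.2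
        rw [e1, if_neg nA, if_neg nB, sub_self, sub_self]

open Classical in
/-- one time step -/
lemma time {F : Set Edg} {c : Vtx} {a b n i0 i1 : ℕ} {σ : St} {T : ℕ} (h : InLeg F c a b σ T)
    (hb : n < b) (hi1 : i1 ≤ 8 * n)
    (hE : ∀ e ∈ Exm F σ T, lv c (src e) = n → lv c (tgt e) = n → ∃ i, i0 ≤ i ∧ i < i1 ∧
      ((src e = cir c n i ∧ tgt e = cir c n (i + 1)) ∨
        (tgt e = cir c n i ∧ src e = cir c n (i + 1)))) {s : ℕ} (hs : s < T) :
    (if lf c (face (orb F σ (s + 1))) < 2 * (n : ℤ) then (1 : ℤ) else 0) -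
      (if lf c (face (orb F σ s)) < 2 * (n : ℤ) then 1 else 0) =
    ∑ i ∈ Finset.Ico i0 i1, ((if ae (stA c n i) ∉ F ∧ 0 < s ∧ orb F σ s = stA c n i
      then (1 : ℤ) else 0) - (if ae (stB c n i) ∉ F ∧ 0 < s ∧ orb F σ s = stB c n i
      then 1 else 0)) := by
  have hodd : ∀ f : Vtx, lf c f < 2 * n ∨ 2 * (n : ℤ) < lf c f := by
    intro f
    simp only [lf, abs_eq_max_neg]
    omega
  by_cases hF : ae (orb F σ s) ∈ F
  · rw [orb_succ, nxt_open hF, face_mv, sub_self]
    symm
    apply Finset.sum_eq_zero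
    intro i hi
    rw [if_neg, if_neg, sub_self]
    · rintro ⟨h1, -, h2⟩
      rw [h2] at hF
      exact h1 hF
    · rintro ⟨h1, -, h2⟩
      rw [h2] at hF
      exact h1 hF
  · rw [orb_succ, nxt_closed hF]
    by_cases hc : (lf c (face (orb F σ s)) < 2 * n ∧ 2 * (n : ℤ) < lf c (face (rt (orb F σ s)))) ∨
      (2 * (n : ℤ) < lf c (face (orb F σ s)) ∧ lf c (face (rt (orb F σ s))) < 2 * n)
    · obtain ⟨l1, l2⟩ := lv_of_cross hc
      obtain ⟨j, j0, j1, hj⟩ := hE (ae (orb F σ s)) (mem_Exm.2 ⟨s, hs, rfl⟩) l1 l2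
      have hj8 : j < 8 * n := by omega
      have fA := lfA (c := c) hj8
      have fB := lfB (c := c) hj8
      have hs0 : 0 < s := by
        by_contra h0
        have h1 : s = 0 := by omega
        subst h1
        have h2 := h.st
        rw [orb_zero] at hj
        rcases of_ends hj8 hj with h3 | h3
        · rw [h3, fA] at h2
          omega
        · rw [h3, fB] at h2
          omega
      rcases of_ends hj8 hj with h3 | h3
      · have hne : ∀ i, i < 8 * n → stA c n j ≠ stB c n i := by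
          intro i hi he
          have fBi := lfB (c := c) hi
          rw [← he, fA] at fBi
          omega
        rw [h3] at hc hF ⊢
        rw [Finset.sum_eq_single_of_mem j (Finset.mem_Ico.2 ⟨j0, j1⟩)]
        · have t1 : (if lf c (face (rt (stA c n j))) < 2 * (n : ℤ) then (1 : ℤ) else 0) = 1 :=
            if_pos (by omega)
          have t2 : (if lf c (face (stA c n j)) < 2 * (n : ℤ) then (1 : ℤ) else 0) = 0 :=
            if_neg (by omega)
          have t3 : (if ae (stA c n j) ∉ F ∧ 0 < s ∧ stA c n j = stA c n j then (1 : ℤ)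
            else 0) = 1 := if_pos ⟨hF, hs0, rfl⟩
          have t4 : (if ae (stB c n j) ∉ F ∧ 0 < s ∧ stA c n j = stB c n j then (1 : ℤ)
            else 0) = 0 := if_neg (fun h => hne j hj8 h.2.2)
          rw [t1, t2, t3, t4]
        · intro i hi hij
          have hi' := Finset.mem_Ico.1 hi
          rw [if_neg, if_neg, sub_self]
          · rintro ⟨-, -, h2⟩
            exact hne i (by omega) h2
          · rintro ⟨-, -, h2⟩
            exact hij (injA hj8 (by omega) h2).symm
      · have hne : ∀ i, i < 8 * n → stB c n j ≠ stA c n i := by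
          intro i hi he
          have fAi := lfA (c := c) hi
          rw [← he, fB] at fAi
          omega
        rw [h3] at hc hF ⊢
        rw [Finset.sum_eq_single_of_mem j (Finset.mem_Ico.2 ⟨j0, j1⟩)]
        · have t1 : (if lf c (face (rt (stB c n j))) < 2 * (n : ℤ) then (1 : ℤ) else 0) = 0 :=
            if_neg (by omega)
          have t2 : (if lf c (face (stB c n j)) < 2 * (n : ℤ) then (1 : ℤ) else 0) = 1 :=
            if_pos (by omega)
          have t3 : (if ae (stB c n j) ∉ F ∧ 0 < s ∧ stB c n j = stB c n j then (1 : ℤ)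
            else 0) = 1 := if_pos ⟨hF, hs0, rfl⟩
          have t4 : (if ae (stA c n j) ∉ F ∧ 0 < s ∧ stB c n j = stA c n j then (1 : ℤ)
            else 0) = 0 := if_neg (fun h => hne j hj8 h.2.2)
          rw [t1, t2, t3, t4]
        · intro i hi hij
          have hi' := Finset.mem_Ico.1 hi
          rw [if_neg, if_neg, sub_self]
          · rintro ⟨-, -, h2⟩
            exact hij (injB hj8 (by omega) h2).symm
          · rintro ⟨-, -, h2⟩
            exact hne i (by omega) h2
    · have hL : (if lf c (face (rt (orb F σ s))) < 2 * (n : ℤ) then (1 : ℤ) else 0) -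
          (if lf c (face (orb F σ s)) < 2 * (n : ℤ) then 1 else 0) = 0 := by
        rcases hodd (face (orb F σ s)) with h1 | h1 <;>
          rcases hodd (face (rt (orb F σ s))) with h2 | h2
        · rw [if_pos h1, if_pos h2, sub_self]
        · exact absurd (Or.inl ⟨h1, h2⟩) hc
        · exact absurd (Or.inr ⟨h1, h2⟩) hc
        · rw [if_neg (by omega), if_neg (by omega), sub_self]
      rw [hL]
      symm
      apply Finset.sum_eq_zero
      intro i hi
      have hi' := Finset.mem_Ico.1 hi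
      have hi8 : i < 8 * n := by omega
      have fA := lfA (c := c) hi8
      have fB := lfB (c := c) hi8
      have kA : lf c (face (rt (stA c n i))) = 2 * n - 1 := by rw [← mvB hi8, face_mv, fB]
      have kB : lf c (face (rt (stB c n i))) = 2 * n + 1 := by rw [← mvA hi8, face_mv, fA]
      rw [if_neg, if_neg, sub_self]
      · rintro ⟨-, -, h2⟩
        apply hc
        rw [h2]
        left
        constructor <;> omega
      · rintro ⟨-, -, h2⟩
        apply hc
        rw [h2]
        right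
        constructor <;> omega

open Classical in
/-- the number of visits -/
lemma count {F : Set Edg} {σ : St} {T : ℕ}
    (hu : ∀ s s', s < T → s' < T → orb F σ s = orb F σ s' → s = s') (P : Prop) (ρ : St) :
    ∑ s ∈ Finset.range T, (if P ∧ 0 < s ∧ orb F σ s = ρ then (1 : ℤ) else 0) =
      if P ∧ vis F σ T ρ then 1 else 0 := by
  by_cases hv : P ∧ vis F σ T ρ
  · rw [if_pos hv]
    obtain ⟨hP, t, t0, t1, t2⟩ := hv
    rw [Finset.sum_eq_single_of_mem t (Finset.mem_range.2 t1)]
    · rw [if_pos ⟨hP, t0, t2⟩]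
    · intro s hs hst
      rw [if_neg]
      rintro ⟨-, -, h2⟩
      exact hst (hu s t (Finset.mem_range.1 hs) t1 (h2.trans t2.symm))
  · rw [if_neg hv]
    apply Finset.sum_eq_zero
    intro s hs
    rw [if_neg]
    rintro ⟨h0, h1, h2⟩
    exact hv ⟨h0, s, h1, Finset.mem_range.1 hs, h2⟩

lemma ne_add_one : ∀ {x y : ZMod 2}, ¬ y = x → y = x + 1 := by
  decide

end X11

open X11 H974 Finset H984P Classical in
/-- An inward crossing of the circle through an arc has its right side at the counterclockwise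
end. -/
theorem flux (hr : St_restr) : St_FLUX := by
  intro F c a b n i0 i1 σ T hv hf x ha hb h01 hi1 h hx hE hp
  have hu : ∀ s s', s < T → s' < T → orb F σ s = orb F σ s' → s = s' := by
    intro s s' h1 h2 h3
    exact ((hr F c a b σ T (by omega) h).2.2.2 σ T s s' h h1 h2 h3).2
  have e1 : ∀ i ∈ Finset.Ico i0 i1,
      (if hv (cir c n (i + 1)) = x then (1 : ℤ) else 0) - (if hv (cir c n i) = x then 1 else 0) =
      (if ae (stA c n i) ∉ F ∧ vis F σ T (stA c n i) then 1 else 0) -
        (if ae (stB c n i) ∉ F ∧ vis F σ T (stB c n i) then 1 else 0) := by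
    intro i hi
    have hi' := Finset.mem_Ico.1 hi
    refine edge h ha hb (by omega) hx (hf := hf) ?_
    rintro ρ (hρ | hρ)
    · exact hp ρ ⟨i, by omega, by omega, hρ⟩
    · exact hp ρ ⟨i + 1, by omega, by omega, hρ⟩
  have e2 := Finset.sum_range_sub
    (fun s => if lf c (face (orb F σ s)) < 2 * (n : ℤ) then (1 : ℤ) else 0) T
  have e3 : (if lf c (face (orb F σ T)) < 2 * (n : ℤ) then (1 : ℤ) else 0) = 1 := by
    have := h.en
    rw [if_pos (by omega)]
  have e4 : (if lf c (face (orb F σ 0)) < 2 * (n : ℤ) then (1 : ℤ) else 0) = 0 := by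
    have := h.st
    rw [orb_zero, if_neg (by omega)]
  simp only [e3, e4] at e2
  rw [Finset.sum_congr rfl (fun s hs => time h hb hi1 hE (Finset.mem_range.1 hs)),
    Finset.sum_comm] at e2
  have cA : ∀ i, ∑ s ∈ Finset.range T, (if ae (stA c n i) ∉ F ∧ 0 < s ∧ orb F σ s = stA c n i
      then (1 : ℤ) else 0) = if ae (stA c n i) ∉ F ∧ vis F σ T (stA c n i) then 1 else 0 := by
    intro i
    convert count hu (ae (stA c n i) ∉ F) (stA c n i)
  have cB : ∀ i, ∑ s ∈ Finset.range T, (if ae (stB c n i) ∉ F ∧ 0 < s ∧ orb F σ s = stB c n i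
      then (1 : ℤ) else 0) = if ae (stB c n i) ∉ F ∧ vis F σ T (stB c n i) then 1 else 0 := by
    intro i
    convert count hu (ae (stB c n i) ∉ F) (stB c n i)
  simp only [Finset.sum_sub_distrib, cA, cB] at e2
  rw [← Finset.sum_sub_distrib, ← Finset.sum_congr rfl e1,
    Finset.sum_Ico_sub (fun i => if hv (cir c n i) = x then (1 : ℤ) else 0) h01] at e2
  by_cases q1 : hv (cir c n i1) = x
  · refine ⟨q1, ?_⟩
    by_cases q0 : hv (cir c n i0) = x
    · simp [q0, q1] at e2
    · exact ne_add_one q0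
  · by_cases q0 : hv (cir c n i0) = x
    · simp [q0, q1] at e2
    · simp [q0, q1] at e2

end Pool.Agent.N948.IX
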