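import Pool.Agent.N948.IX.Ex0
import Pool.Agent.N948.IX.Bas
import Pool.Agent.N948.IX.N1

/-!
Project XD (helper948), X12 (helper691): an open path around the lower left quadrant hits the inward
crossing from its right side.
-/

set_option autoImplicit false

namespace Pool.Agent.N948.IX.X12

open H974 H12S Finset H984P H342P Pool.Agent.W92.DP H984P.SideAux Pool.Agent.N948.IX.Bas
open Pool.Agent.N948.IX.N1

/-! ### Chains of states with faces in a square (as in X5) -/

/-- A chain of states with inner faces. -/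
def LkI (c : Vtx) (b : ℕ) (σ τ : St) : Prop :=
  ∃ α : St → ZMod 2, (∀ ρ, 2 * (b : ℤ) < lf c (face ρ) → α ρ = 0) ∧
    ∀ ρ, T4 α ρ = inc σ ρ + inc τ ρ

variable {c : Vtx} {b : ℕ}

theorem LkI.refl (σ : St) : LkI c b σ σ :=
  ⟨fun _ => 0, fun _ _ => rfl, fun ρ => by unfold T4; rw [z2s (inc σ ρ)]; rfl⟩

theorem LkI.symm {σ τ : St} (h : LkI c b σ τ) : LkI c b τ σ := by
  obtain ⟨α, h1, h2⟩ := h
  exact ⟨α, h1, fun ρ => by rw [h2, add_comm]⟩

theorem LkI.trans {σ τ υ : St} (h : LkI c b σ τ) (h' : LkI c b τ υ) : LkI c b σ υ := by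
  obtain ⟨α, h1, h2⟩ := h
  obtain ⟨β, h3, h4⟩ := h'
  refine ⟨fun ρ => α ρ + β ρ, fun ρ hρ => by
    show α ρ + β ρ = 0; rw [h1 ρ hρ, h3 ρ hρ, add_zero], fun ρ => ?_⟩
  have e1 := h2 ρ
  have e2 := h4 ρ
  have e3 := z2s (inc τ ρ)
  unfold T4 at e1 e2 ⊢
  linear_combination e1 + e2 + e3

theorem LkI.sR {σ : St} (h : lf c (face σ) < 2 * (b : ℤ)) : LkI c b σ (rt σ) := by
  refine ⟨fun ρ => b2 (ρ = σ), fun ρ hρ => b2_not_of (fun e => by rw [e] at hρ; omega), fun ρ => ?_⟩
  unfold T4 inc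
  have e1 : b2 (rt ρ = rt σ) = b2 (ρ = σ) := b2_congr rt_inj
  have e2 : b2 (mv ρ = rt σ) = b2 (op ρ = σ) := by
    rw [← rt_op]; exact b2_congr rt_inj
  rw [e1, e2]
  ring

theorem LkI.sM {σ : St} (h : lf c (face σ) < 2 * (b : ℤ)) : LkI c b σ (mv σ) := by
  refine ⟨fun ρ => b2 (ρ = σ), fun ρ hρ => b2_not_of (fun e => by rw [e] at hρ; omega), fun ρ => ?_⟩
  unfold T4 inc
  have e1 : b2 (mv ρ = mv σ) = b2 (ρ = σ) := b2_congr mv_inj
  have e2 : b2 (rt ρ = mv σ) = b2 (op ρ = σ) := by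
    rw [← mv_op]; exact b2_congr mv_inj
  rw [e1, e2]
  ring

/-- all states with the same inner face are linked -/
theorem LkI.faces (σ : St) (h : lf c (face σ) < 2 * (b : ℤ)) : LkI c b ((face σ), .ne) σ := by
  obtain ⟨⟨x, y⟩, q⟩ := σ
  have step : ∀ τ : St, face τ = face ((x, y), q) → LkI c b τ (mv τ) :=
    fun τ hτ => LkI.sM (by rw [hτ]; exact h)
  cases q
  · simpa using LkI.refl _
  · have h1 := step ((x - 1, y), .ne) (by simp)
    simpa using h1
  · have h1 := step ((x - 1, y - 1), .ne) (by simp)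
    have h2 := step ((x, y - 1), .nw) (by simp)
    have h3 := h1.trans (by simpa using h2)
    simpa using h3
  · have h1 := step ((x, y - 1), .ne) (by simp)
    have h2 := step ((x + 1, y - 1), .nw) (by simp)
    have h3 := step ((x + 1, y), .sw) (by simp)
    have h4 : LkI c b ((x, y - 1), .ne) ((x + 1, y - 1), .nw) := by simpa using h1
    have h5 : LkI c b ((x + 1, y - 1), .nw) ((x + 1, y), .sw) := by simpa using h2
    have h6 : LkI c b ((x + 1, y), .sw) ((x, y), .se) := by simpa using h3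
    exact h4.trans (h5.trans h6)

/-- neighbouring inner faces are linked -/
theorem LkI.nbr1 (x y : ℤ) (h : lf c (x, y) < 2 * (b : ℤ)) (h' : lf c (x, y - 1) < 2 * (b : ℤ)) :
    LkI c b ((x, y), .ne) ((x, y - 1), .ne) := by
  have h1 : LkI c b ((x, y), .ne) ((x, y), .se) := by
    simpa using LkI.sR (c := c) (b := b) (σ := ((x, y), Q4.ne)) (by simpa using h)
  have h2 := LkI.faces (c := c) (b := b) ((x, y), Q4.se) (by simpa using h')
  exact h1.trans h2.symm

theorem LkI.nbr2 (x y : ℤ) (h : lf c (x, y) < 2 * (b : ℤ)) (h' : lf c (x - 1, y) < 2 * (b : ℤ)) :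
    LkI c b ((x, y), .ne) ((x - 1, y), .ne) := by
  have h1 := LkI.faces (c := c) (b := b) ((x, y + 1), Q4.se) (by simpa using h)
  have h2 : LkI c b ((x, y + 1), .se) ((x, y + 1), .sw) := by
    simpa using LkI.sR (c := c) (b := b) (σ := ((x, y + 1), Q4.se)) (by simpa using h)
  have h3 := LkI.faces (c := c) (b := b) ((x, y + 1), Q4.sw) (by simpa using h')
  have h4 := h1.trans (h2.trans h3.symm)
  simpa using h4

theorem LkI.nbr {f g : Vtx} (hf : lf c f < 2 * (b : ℤ)) (hg : lf c g < 2 * (b : ℤ))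
    (h : |f.1 - g.1| + |f.2 - g.2| = 1) : LkI c b (f, .ne) (g, .ne) := by
  obtain ⟨x, y⟩ := f
  obtain ⟨x', y'⟩ := g
  simp only [abs_eq_max_neg] at h
  have h4 : (x' = x ∧ y' = y - 1) ∨ (x' = x ∧ y' = y + 1) ∨ (x' = x - 1 ∧ y' = y) ∨
      (x' = x + 1 ∧ y' = y) := by omega
  rcases h4 with ⟨rfl, rfl⟩ | ⟨rfl, rfl⟩ | ⟨rfl, rfl⟩ | ⟨rfl, rfl⟩
  · exact LkI.nbr1 _ _ hf hg
  · have := LkI.nbr1 (c := c) (b := b) x' (y + 1) hg (by simpa using hf)
    simpa using this.symm
  · exact LkI.nbr2 _ _ hf hg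
  · have := LkI.nbr2 (c := c) (b := b) (x + 1) y' hg (by simpa using hf)
    simpa using this.symm

theorem lkIn (c : Vtx) (b : ℕ) (σ τ : St) (hσ : lf c (face σ) < 2 * (b : ℤ))
    (hτ : lf c (face τ) < 2 * (b : ℤ)) : LkI c b σ τ := by
  classical
  have h1 := LkI.faces σ hσ
  have h2 := LkI.faces τ hτ
  have h3 : LkI c b ((face σ), .ne) ((face τ), .ne) := by
    have key := connI c b (fun f => if LkI c b ((face σ), .ne) (f, .ne) then 1 else 0) ?_
      (face σ) (face τ) hσ hτ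
    · rw [if_pos (LkI.refl _)] at key
      by_contra hcon
      rw [if_neg hcon] at key
      exact one_ne_zero key
    · intro f g hf hg hfg
      have h4 := LkI.nbr hf hg hfg
      have h5 : LkI c b ((face σ), .ne) (f, .ne) ↔ LkI c b ((face σ), .ne) (g, .ne) :=
        ⟨fun h => h.trans h4, fun h => h.trans h4.symm⟩
      simp only [h5]
  exact h1.symm.trans (h3.trans h2)

/-! ### Steps -/

theorem step (F : Set Edg) (σ : St) (s : ℕ) :
    (ae (orb F σ s) ∈ F ∧ face (orb F σ (s + 1)) = face (orb F σ s) ∧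
      (orb F σ (s + 1)).1 = (mv (orb F σ s)).1) ∨
      (ae (orb F σ s) ∉ F ∧ face (orb F σ (s + 1)) = face (rt (orb F σ s)) ∧
      (orb F σ (s + 1)).1 = (orb F σ s).1) := by
  rw [orb_succ]
  by_cases h1 : ae (orb F σ s) ∈ F
  · left
    rw [nxt_open h1, p2_face_mv]
    exact ⟨h1, rfl, rfl⟩
  · right
    rw [nxt_closed h1, p2_rt_fst]
    exact ⟨h1, rfl, rfl⟩

theorem al_one {G : Set Edg} {σ : St} {N s : ℕ} (hs : s < N)
    (hinj : ∀ r < N, r ≠ s → orb G σ r ≠ orb G σ s) : al G σ N (orb G σ s) = 1 := by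
  unfold al
  rw [Finset.sum_eq_single s]
  · exact b2_of rfl
  · intro r hr hrs
    exact b2_not_of (hinj r (Finset.mem_range.1 hr) hrs)
  · intro h
    exact absurd (Finset.mem_range.2 hs) h

theorem al_zero {G : Set Edg} {σ : St} {N : ℕ} {ρ : St} (h : ∀ r < N, orb G σ r ≠ ρ) :
    al G σ N ρ = 0 := by
  unfold al
  exact Finset.sum_eq_zero fun r hr => b2_not_of (h r (Finset.mem_range.1 hr))

theorem one_cases {x y : ZMod 2} (h : x + y = 1) : y = x + 1 := by
  revert x y
  decide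

theorem zero_cases {x y : ZMod 2} (h : x + y = 0) : y = x := by
  revert x y
  decide

theorem ne_add_one (x : ZMod 2) : x ≠ x + 1 := by
  revert x
  decide

theorem eq_add_one {x y : ZMod 2} (h : x ≠ y) : x = y + 1 := by
  revert x y
  decide


/-! ### Visited states -/

/-- The state `ρ` is visited strictly inside. -/
def Vis (F : Set Edg) (σ : St) (T : ℕ) (ρ : St) : Prop := ∃ s, 0 < s ∧ s < T ∧ orb F σ s = ρ

theorem vis_nxt {F : Set Edg} {c : Vtx} {a b : ℕ} {σ : St} {T : ℕ} (h0 : ¬ Af c a b (face σ))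
    (hT : ¬ Af c a b (face (orb F σ T))) {ρ : St} (hρ : Af c a b (face ρ))
    (hn : Af c a b (face (nxt F ρ))) : Vis F σ T ρ ↔ Vis F σ T (nxt F ρ) := by
  constructor
  · rintro ⟨s, hs0, hsT, rfl⟩
    refine ⟨s + 1, by omega, ?_, orb_succ F σ s⟩
    rcases Nat.lt_or_ge (s + 1) T with h | h
    · exact h
    · exfalso
      have e : s + 1 = T := by omega
      apply hT
      rw [← e, orb_succ]
      exact hn
  · rintro ⟨s, hs0, hsT, hs⟩
    obtain ⟨r, rfl⟩ : ∃ r, s = r + 1 := ⟨s - 1, by omega⟩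
    rw [orb_succ] at hs
    have e := (nxt_bij F).1 hs
    rcases Nat.eq_zero_or_pos r with h | h
    · exfalso
      apply h0
      rw [h, orb_zero] at e
      rw [e]
      exact hρ
    · exact ⟨r, h, by omega, e⟩

theorem al_vis {F : Set Edg} {c : Vtx} {a b : ℕ} {σ : St} {T : ℕ} (h0 : ¬ Af c a b (face σ))
    (hinj : ∀ r s, r < T → s < T → orb F σ r = orb F σ s → r = s) {ρ : St}
    (hρ : Af c a b (face ρ)) : al F σ T ρ = b2 (Vis F σ T ρ) := by
  by_cases h : ∃ s < T, orb F σ s = ρ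
  · obtain ⟨s, hs, rfl⟩ := h
    have hs0 : 0 < s := by
      rcases Nat.eq_zero_or_pos s with h | h
      · exfalso
        rw [h, orb_zero] at hρ
        exact h0 hρ
      · exact h
    rw [al_one hs (fun r hr hrs he => hrs (hinj r s hr hs he)), b2_of ⟨s, hs0, hs, rfl⟩]
  · rw [al_zero (fun r hr he => h ⟨r, hr, he⟩), b2_not_of]
    rintro ⟨s, -, hs, he⟩
    exact h ⟨s, hs, he⟩

theorem b2_or {p q : Prop} (h : ¬ (p ∧ q)) : b2 p + b2 q = b2 (p ∨ q) := by
  by_cases hp : p
  · have hq : ¬ q := fun hq => h ⟨hp, hq⟩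
    rw [b2_of hp, b2_not_of hq, b2_of (Or.inl hp), add_zero]
  · by_cases hq : q
    · rw [b2_not_of hp, b2_of hq, b2_of (Or.inr hq), zero_add]
    · rw [b2_not_of hp, b2_not_of hq, b2_not_of (fun h => h.elim hp hq), zero_add]

theorem af_of {c : Vtx} {a b : ℕ} {ρ : St} (h1 : (a : ℤ) < lv c ρ.1) (h2 : lv c ρ.1 < b) :
    Af c a b (face ρ) := by
  have := cor c ρ
  constructor <;> omega

theorem in_st {F : Set Edg} {c : Vtx} {a b : ℕ} {σ : St} {T : ℕ} (h : InLeg F c a b σ T) :
    ¬ Af c a b (face σ) := fun h' => by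
  have h1 := h.st
  have h2 := h'.2
  omega

theorem in_en {F : Set Edg} {c : Vtx} {a b : ℕ} {σ : St} {T : ℕ} (h : InLeg F c a b σ T) :
    ¬ Af c a b (face (orb F σ T)) := fun h' => by
  have h1 := h.en
  have h2 := h'.1
  omega

theorem out_st {F : Set Edg} {c : Vtx} {a b : ℕ} {σ : St} {T : ℕ} (h : OutLeg F c a b σ T) :
    ¬ Af c a b (face σ) := fun h' => by
  have h1 := h.st
  have h2 := h'.1
  omega

theorem out_en {F : Set Edg} {c : Vtx} {a b : ℕ} {σ : St} {T : ℕ} (h : OutLeg F c a b σ T) :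
    ¬ Af c a b (face (orb F σ T)) := fun h' => by
  have h1 := h.en
  have h2 := h'.2
  omega

/-- The potentials of an inward and an outward crossing. -/
theorem pots {F : Set Edg} {c : Vtx} {a b : ℕ} {σ τ : St} {T T' : ℕ} (hr : St_restr)
    (hoR : St_oRestr) (hLk : St_LkOut) (hab : a < b) (hσ : InLeg F c a b σ T)
    (hτ : OutLeg F c a b τ T') :
    ∃ (hv hf : Vtx → ZMod 2) (x : ZMod 2),
      (∀ ρ, Af c a b (face ρ) → hv ρ.1 + hf (face ρ) = b2 (Vis F σ T ρ ∨ Vis F τ T' ρ)) ∧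
      (∀ s, 0 < s → s < T → hv (orb F σ s).1 = x) ∧
      ∀ s, 0 < s → s < T → hf (face (orb F σ s)) = x + 1 := by
  obtain ⟨β₁, h1a, h1b⟩ := lkIn c a (orb F σ T) τ hσ.en hτ.st
  obtain ⟨β₂, h2a, h2b⟩ := hLk c b (orb F τ T') σ hτ.en hσ.st
  obtain ⟨hv, hf, hpot⟩ := pot4
    (fun x => al F σ T x + al F τ T' x + β₁ x + β₂ x) (by
      intro x
      have e1 := al_T4 F σ T x
      have e2 := al_T4 F τ T' x
      have e3 := h1b x
      have e4 := h2b x
      have e5 := z2s (inc σ x)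
      have e6 := z2s (inc (orb F σ T) x)
      have e7 := z2s (inc τ x)
      have e8 := z2s (inc (orb F τ T') x)
      unfold T4 at e1 e2 e3 e4 ⊢
      linear_combination e1 + e2 + e3 + e4 + e5 + e6 + e7 + e8)
  have hH : ∀ ρ, Af c a b (face ρ) →
      hv ρ.1 + hf (face ρ) = b2 (Vis F σ T ρ ∨ Vis F τ T' ρ) := by
    intro ρ hρ
    rw [hpot, h1a ρ hρ.1, h2a ρ hρ.2, add_zero, add_zero,
      al_vis (in_st hσ) (fun r s hr' hs he =>
        ((hr F c a b σ T hab hσ).2.2.2 σ T r s hσ hr' hs he).2) hρ,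
      al_vis (out_st hτ) (fun r s hr' hs he =>
        ((hoR F c a b τ T' hab hτ).2.2.2.1 τ T' r s hτ hr' hs he).2) hρ]
    apply b2_or
    rintro ⟨⟨s, -, hs, he⟩, ⟨s', -, hs', he'⟩⟩
    exact (hoR F c a b τ T' hab hτ).2.2.2.2 σ T s s' hσ hs hs' (he.trans he'.symm)
  have v1 : ∀ s, 0 < s → s < T → hv (orb F σ s).1 + hf (face (orb F σ s)) = 1 := by
    intro s hs hsT
    rw [hH _ (hσ.mid s hs hsT), b2_of (Or.inl ⟨s, hs, hsT, rfl⟩)]
  have c1 : ∀ s, 0 < s → s < T → hv (orb F σ s).1 = hv (orb F σ 1).1 := by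
    intro s
    induction s with
    | zero => intro h; exact absurd h (lt_irrefl 0)
    | succ s ih =>
      intro _ hs
      rcases Nat.eq_zero_or_pos s with h0 | h0
      · subst h0; rfl
      · rw [← ih h0 (by omega)]
        have k1 := v1 s h0 (by omega)
        have k2 := v1 (s + 1) (by omega) hs
        rcases step F σ s with ⟨-, g1, g2⟩ | ⟨-, g1, g2⟩
        · rw [g1] at k2
          exact add_right_cancel (k2.trans k1.symm)
        · rw [g2]
  refine ⟨hv, hf, hv (orb F σ 1).1, hH, c1, fun s hs hsT => ?_⟩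
  rw [← c1 s hs hsT]
  exact one_cases (v1 s hs hsT)

/-- `hv` is constant along open edges. -/
theorem open_const {F : Set Edg} {c : Vtx} {a b : ℕ} {σ τ : St} {T T' : ℕ}
    {hv hf : Vtx → ZMod 2} (hσ : InLeg F c a b σ T) (hτ : OutLeg F c a b τ T')
    (hH : ∀ ρ, Af c a b (face ρ) → hv ρ.1 + hf (face ρ) = b2 (Vis F σ T ρ ∨ Vis F τ T' ρ))
    {ρ : St} (hρ : Af c a b (face ρ)) (ho : ae ρ ∈ F) : hv (mv ρ).1 = hv ρ.1 := by
  have e0 : nxt F ρ = mv ρ := nxt_open ho
  have hn : Af c a b (face (nxt F ρ)) := by rw [e0, p2_face_mv]; exact hρ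
  have h1 := vis_nxt (in_st hσ) (in_en hσ) hρ hn
  have h2 := vis_nxt (out_st hτ) (out_en hτ) hρ hn
  rw [e0] at h1 h2 hn
  have k1 := hH ρ hρ
  have k2 := hH (mv ρ) hn
  rw [← b2_congr (or_congr h1 h2), ← k1, p2_face_mv] at k2
  exact add_right_cancel k2

/-- `hf` is constant across closed edges. -/
theorem closed_const {F : Set Edg} {c : Vtx} {a b : ℕ} {σ τ : St} {T T' : ℕ}
    {hv hf : Vtx → ZMod 2} (hσ : InLeg F c a b σ T) (hτ : OutLeg F c a b τ T')
    (hH : ∀ ρ, Af c a b (face ρ) → hv ρ.1 + hf (face ρ) = b2 (Vis F σ T ρ ∨ Vis F τ T' ρ))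
    {ρ : St} (hρ : Af c a b (face ρ)) (hρ' : Af c a b (face (rt ρ))) (ho : ae ρ ∉ F) :
    hf (face (rt ρ)) = hf (face ρ) := by
  have e0 : nxt F ρ = rt ρ := nxt_closed ho
  have hn : Af c a b (face (nxt F ρ)) := by rw [e0]; exact hρ'
  have h1 := vis_nxt (in_st hσ) (in_en hσ) hρ hn
  have h2 := vis_nxt (out_st hτ) (out_en hτ) hρ hn
  rw [e0] at h1 h2 hn
  have k1 := hH ρ hρ
  have k2 := hH (rt ρ) hn
  rw [← b2_congr (or_congr h1 h2), ← k1, p2_rt_fst] at k2
  exact add_left_cancel k2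

/-! ### Regions -/

theorem edge_ends (e : Edg) : ((tgt e).1 = (src e).1 + 1 ∧ (tgt e).2 = (src e).2) ∨
    ((tgt e).1 = (src e).1 ∧ (tgt e).2 = (src e).2 + 1) := by
  obtain ⟨x, y, _ | _⟩ := e
  · right; simp
  · left; simp

theorem lv_src_tgt (c : Vtx) (e : Edg) : lv c (tgt e) ≤ lv c (src e) + 1 ∧
    lv c (src e) ≤ lv c (tgt e) + 1 := by
  have h := edge_ends e
  unfold lv
  rcases h with ⟨h1, h2⟩ | ⟨h1, h2⟩ <;> rw [h1, h2] <;> simp only [abs_eq_max_neg] <;> omega

theorem vis_sw {F : Set Edg} {c : Vtx} {rc t : ℕ} {σ : St} {T : ℕ}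
    (h : CfSW c rc t (Exm F σ T)) {ρ : St} (hv : Vis F σ T ρ) (hρ : (rc : ℤ) + 1 ≤ lv c ρ.1) :
    ρ.1.1 ≤ c.1 + t + 1 ∧ ρ.1.2 ≤ c.2 + t + 1 := by
  obtain ⟨s, hs0, hsT, rfl⟩ := hv
  have h1 := h (ae (orb F σ s)) (mem_Exm.2 ⟨s, hsT, rfl⟩)
  have h2 := lv_src_tgt c (ae (orb F σ s))
  have h3 := edge_ends (ae (orb F σ s))
  rcases p2_ends (orb F σ s) with ⟨e1, e2⟩ | ⟨e1, e2⟩
  · rw [e1] at h1
    have h4 := h1 (by omega)
    constructor <;> omega
  · rw [e2] at h2 h3
    have h4 := h1 (by omega)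
    rcases h3 with ⟨h5, h6⟩ | ⟨h5, h6⟩ <;> constructor <;> omega

theorem vis_ne {F : Set Edg} {c : Vtx} {rc t : ℕ} {σ : St} {T : ℕ}
    (h : CfNE c rc t (Exm F σ T)) {ρ : St} (hv : Vis F σ T ρ) (hρ : (rc : ℤ) + 1 ≤ lv c ρ.1) :
    c.1 - t ≤ ρ.1.1 ∧ c.2 - t ≤ ρ.1.2 := by
  obtain ⟨s, hs0, hsT, rfl⟩ := hv
  have h1 := h (ae (orb F σ s)) (mem_Exm.2 ⟨s, hsT, rfl⟩)
  have h2 := lv_src_tgt c (ae (orb F σ s))
  have h3 := edge_ends (ae (orb F σ s))
  rcases p2_ends (orb F σ s) with ⟨e1, e2⟩ | ⟨e1, e2⟩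
  · rw [e1] at h1
    have h4 := h1 (by omega)
    constructor <;> omega
  · rw [e2] at h2 h3
    have h4 := h1 (by omega)
    rcases h3 with ⟨h5, h6⟩ | ⟨h5, h6⟩ <;> constructor <;> omega

/-! ### The circle -/

theorem cir1 (c : Vtx) {n i : ℕ} (h : i ≤ 2 * n) : cir c n i = (c.1 - n, c.2 + n - i) := by
  unfold cir
  rw [if_pos h]

theorem cir2 (c : Vtx) {n i : ℕ} (h : 2 * n ≤ i) (h' : i ≤ 4 * n) :
    cir c n i = (c.1 - n + (i - 2 * n), c.2 - n) := by
  unfold cir
  split_ifs with h1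
  · have e : i = 2 * n := by omega
    subst e
    push_cast
    ext <;> simp only [] <;> ring
  · rfl

theorem cir3 (c : Vtx) {n i : ℕ} (hn : 0 < n) (h : 4 * n ≤ i) (h' : i ≤ 6 * n) :
    cir c n i = (c.1 + n, c.2 - n + (i - 4 * n)) := by
  unfold cir
  split_ifs with h1 h2
  · omega
  · have e : i = 4 * n := by omega
    subst e
    push_cast
    ext <;> simp only [] <;> ring
  · rfl

/-- The arc of the circle used below: it starts on the west side, or at the upper left corner, and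
ends on the south side or on the east side. -/
theorem arc {F : Set Edg} {c : Vtx} {a b rc t : ℕ} {σ τ : St} {T T' : ℕ}
    {hv hf : Vtx → ZMod 2} {x : ZMod 2} (hFl : St_FLUX) (harc : a < rc) (_htr : 2 * t ≤ rc)
    (hσ : InLeg F c a b σ T)
    (hH : ∀ ρ, Af c a b (face ρ) → hv ρ.1 + hf (face ρ) = b2 (Vis F σ T ρ ∨ Vis F τ T' ρ))
    (hx : ∀ s, 0 < s → s < T → hv (orb F σ s).1 = x)
    (hsw : CfSW c rc t (Exm F σ T)) (hne : CfNE c rc t (Exm F τ T')) {n i0 i1 : ℕ}
    (hn1 : rc + 2 < n) (hn2 : n + 2 < b) (h0 : i0 + t + 3 ≤ n) (h1 : 3 * n + t + 3 ≤ i1)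
    (h2 : i1 + t + 3 ≤ 5 * n) : hv (cir c n i1) = x ∧ hv (cir c n i0) = x + 1 := by
  refine hFl F c a b n i0 i1 σ T hv hf x (by omega) (by omega) (by omega) (by omega) hσ hx ?_ ?_
  · intro e he hs ht
    obtain ⟨k1, k2⟩ := hsw e he (by omega)
    have hs1 := hs.le
    have hs2 := hs.ge
    have ht1 := ht.le
    have ht2 := ht.ge
    rw [lv_le] at hs1 ht1
    rw [le_lv] at hs2 ht2
    obtain ⟨u, w, _ | _⟩ := e
    · simp only [src_mk, tgt_false] at k1 k2 hs1 hs2 ht1 ht2 ⊢
      have hu : u = c.1 - n := by omega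
      refine ⟨(c.2 + n - w - 1).toNat, by omega, by omega, Or.inr ⟨?_, ?_⟩⟩
      · rw [cir1 c (by omega)]
        ext <;> simp only [] <;> omega
      · rw [cir1 c (by omega)]
        ext <;> simp only [] <;> omega
    · simp only [src_mk, tgt_true] at k1 k2 hs1 hs2 ht1 ht2 ⊢
      have hw : w = c.2 - n := by omega
      refine ⟨(3 * n + u - c.1).toNat, by omega, by omega, Or.inl ⟨?_, ?_⟩⟩
      · rw [cir2 c (by omega) (by omega)]
        ext <;> simp only [] <;> omega
      · rw [cir2 c (by omega) (by omega)]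
        ext <;> simp only [] <;> omega
  · rintro ρ ⟨i, hi0, hi1, hi⟩
    have hlv : lv c ρ.1 = n ∧ (ρ.1.1 < c.1 - t ∨ ρ.1.2 < c.2 - t) := by
      rw [hi]
      refine ⟨le_antisymm (lv_le.2 ?_) (le_lv.2 ?_), ?_⟩
      · rcases Nat.lt_or_ge (2 * n) i with g | g
        · rcases Nat.lt_or_ge (4 * n) i with g' | g'
          · rw [cir3 c (by omega) (by omega) (by omega)]
            simp only []
            omega
          · rw [cir2 c (by omega) (by omega)]
            simp only []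
            omega
        · rw [cir1 c (by omega)]
          simp only []
          omega
      · rcases Nat.lt_or_ge (2 * n) i with g | g
        · rcases Nat.lt_or_ge (4 * n) i with g' | g'
          · rw [cir3 c (by omega) (by omega) (by omega)]
            simp only []
            omega
          · rw [cir2 c (by omega) (by omega)]
            simp only []
            omega
        · rw [cir1 c (by omega)]
          simp only []
          omega
      · rcases Nat.lt_or_ge (2 * n) i with g | g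
        · rcases Nat.lt_or_ge (4 * n) i with g' | g'
          · rw [cir3 c (by omega) (by omega) (by omega)]
            simp only []
            omega
          · rw [cir2 c (by omega) (by omega)]
            simp only []
            omega
        · rw [cir1 c (by omega)]
          simp only []
          omega
    obtain ⟨g1, g2⟩ := hlv
    have hAf : Af c a b (face ρ) := af_of (by omega) (by omega)
    rw [hH ρ hAf]
    refine b2_congr ⟨fun h => h.resolve_right fun hτv => ?_, fun h => Or.inl h⟩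
    have := vis_ne hne hτv (by omega)
    omega

/-- The value at a point of the lower right part. -/
theorem val_se {F : Set Edg} {c : Vtx} {a b rc t : ℕ} {σ τ : St} {T T' : ℕ}
    {hv hf : Vtx → ZMod 2} {x : ZMod 2} (hFl : St_FLUX) (harc : a < rc) (htr : 2 * t ≤ rc)
    (hσ : InLeg F c a b σ T)
    (hH : ∀ ρ, Af c a b (face ρ) → hv ρ.1 + hf (face ρ) = b2 (Vis F σ T ρ ∨ Vis F τ T' ρ))
    (hx : ∀ s, 0 < s → s < T → hv (orb F σ s).1 = x)
    (hsw : CfSW c rc t (Exm F σ T)) (hne : CfNE c rc t (Exm F τ T')) {p : Vtx}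
    (hp : InSE c rc t b p) : hv p = x := by
  obtain ⟨p1, p2, p3, p4⟩ := hp
  obtain ⟨n, hn⟩ : ∃ n : ℕ, lv c p = n := ⟨(lv c p).toNat, by omega⟩
  have q1 := hn.le
  have q2 := hn.ge
  rw [lv_le] at q1
  rw [le_lv] at q2
  by_cases hs : c.2 - p.2 = n
  · have h := (arc hFl harc htr hσ hH hx hsw hne (n := n) (i0 := 0)
      (i1 := (3 * n + p.1 - c.1).toNat) (by omega) (by omega) (by omega) (by omega) (by omega)).1
    rw [cir2 c (by omega) (by omega)] at h
    have e : ((c.1 - n + (((3 * n + p.1 - c.1).toNat : ℤ) - 2 * n), c.2 - n) : Vtx) = p := by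
      ext <;> simp only [] <;> omega
    rw [e] at h
    exact h
  · have h := (arc hFl harc htr hσ hH hx hsw hne (n := n) (i0 := 0)
      (i1 := (5 * n + p.2 - c.2).toNat) (by omega) (by omega) (by omega) (by omega) (by omega)).1
    rw [cir3 c (by omega) (by omega) (by omega)] at h
    have e : ((c.1 + n, c.2 - n + (((5 * n + p.2 - c.2).toNat : ℤ) - 4 * n)) : Vtx) = p := by
      ext <;> simp only [] <;> omega
    rw [e] at h
    exact h

/-- The value at a point of the upper left part. -/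
theorem val_nw {F : Set Edg} {c : Vtx} {a b rc t : ℕ} {σ τ : St} {T T' : ℕ}
    {hv hf : Vtx → ZMod 2} {x : ZMod 2} (hFl : St_FLUX) (harc : a < rc) (htr : 2 * t ≤ rc)
    (hσ : InLeg F c a b σ T)
    (hH : ∀ ρ, Af c a b (face ρ) → hv ρ.1 + hf (face ρ) = b2 (Vis F σ T ρ ∨ Vis F τ T' ρ))
    (hx : ∀ s, 0 < s → s < T → hv (orb F σ s).1 = x)
    (hsw : CfSW c rc t (Exm F σ T)) (hne : CfNE c rc t (Exm F τ T')) {q : Vtx}
    (hq : InNW c rc t b q) : hv q = x + 1 := by
  obtain ⟨p1, p2, p3, p4⟩ := hq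
  obtain ⟨n, hn⟩ : ∃ n : ℕ, lv c q = n := ⟨(lv c q).toNat, by omega⟩
  have q1 := hn.le
  have q2 := hn.ge
  rw [lv_le] at q1
  rw [le_lv] at q2
  by_cases hs : c.1 - q.1 = n
  · have h := (arc hFl harc htr hσ hH hx hsw hne (n := n) (i0 := (n + c.2 - q.2).toNat)
      (i1 := 4 * n) (by omega) (by omega) (by omega) (by omega) (by omega)).2
    rw [cir1 c (by omega)] at h
    have e : ((c.1 - n, c.2 + n - ((n + c.2 - q.2).toNat : ℤ)) : Vtx) = q := by
      ext <;> simp only [] <;> omega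
    rw [e] at h
    exact h
  · have h := (arc hFl harc htr hσ hH hx hsw hne (n := n) (i0 := 0)
      (i1 := 4 * n) (by omega) (by omega) (by omega) (by omega) (by omega)).2
    rw [cir1 c (by omega)] at h
    have hz : ∀ ρ : St, ρ.1.1 ≤ q.1 → c.1 - n ≤ ρ.1.1 → ρ.1.2 = c.2 + n →
        hv ρ.1 + hf (face ρ) = 0 := by
      intro ρ r1 r2 r3
      have g : lv c ρ.1 = n := by
        refine le_antisymm (lv_le.2 ?_) (le_lv.2 ?_) <;> omega
      rw [hH ρ (af_of (by omega) (by omega)), b2_not_of]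
      rintro (h' | h')
      · have := vis_sw hsw h' (by omega)
        omega
      · have := vis_ne hne h' (by omega)
        omega
    have key : ∀ k : ℕ, c.1 - n + k ≤ q.1 →
        hv (c.1 - n + k, c.2 + n) = hv (c.1 - n, c.2 + n) := by
      intro k
      induction k with
      | zero => intro _; simp
      | succ k ih =>
        intro hk
        have hk' : c.1 - (n : ℤ) + k + 1 ≤ q.1 := by push_cast at hk; omega
        rw [← ih (by omega)]
        have k1 := hz ((c.1 - n + k, c.2 + n), .ne) (by simp only []; omega)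
          (by simp only []; omega) rfl
        have k2 := hz ((c.1 - n + k + 1, c.2 + n), .nw) (by simp only []; omega)
          (by simp only []; omega) rfl
        rw [face_ne] at k1
        rw [face_nw, add_sub_cancel_right] at k2
        have k3 := add_right_cancel (k2.trans k1.symm)
        have e : c.1 - (n : ℤ) + ((k + 1 : ℕ) : ℤ) = c.1 - n + k + 1 := by push_cast; ring
        rw [e]
        exact k3
    have h3 := key (q.1 - c.1 + n).toNat (by omega)
    have e : ((c.1 - n + ((q.1 - c.1 + n).toNat : ℤ), c.2 + n) : Vtx) = q := by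
      ext <;> simp only [] <;> omega
    have e' : ((c.1 - n, c.2 + n - ((0 : ℕ) : ℤ)) : Vtx) = (c.1 - n, c.2 + n) := by simp
    rw [e] at h3
    rw [e', ← h3] at h
    exact h

theorem main (hr : St_restr) (hoR : St_oRestr) (hLk : St_LkOut) (hFl : St_FLUX) : St_HITo := by
  intro F G c p q a b rc t σ τ T T' ha harc htr hrb hσ hτ hdis hsw hne hp hq hFG hpq
  have hab : a < b := by omega
  obtain ⟨hv, hf, x, hH, hx, hx'⟩ := pots hr hoR hLk hab hσ hτ
  have vp := val_se hFl harc htr hσ hH hx hsw hne hp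
  have vq := val_nw hFl harc htr hσ hH hx hsw hne hq
  -- the faces at the edges of the region
  have hreg : ∀ ρ : St, ae ρ ∈ RegO c rc t b →
      ((rc : ℤ) + 1 < lv c ρ.1 ∧ lv c ρ.1 + 1 < b) ∧
      ((rc : ℤ) + 1 < lv c (mv ρ).1 ∧ lv c (mv ρ).1 + 1 < b) := by
    intro ρ h
    obtain ⟨h1, h2, -⟩ := h
    have h3 := lv_src_tgt c (ae ρ)
    rcases p2_ends ρ with ⟨e1, e2⟩ | ⟨e1, e2⟩ <;> rw [e1] at h1 h2 h3 <;> rw [e2] at h3 <;>
      refine ⟨⟨?_, ?_⟩, ⟨?_, ?_⟩⟩ <;> omega
  have hAf : ∀ ρ : St, ae ρ ∈ RegO c rc t b → Af c a b (face ρ) := by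
    intro ρ h
    obtain ⟨⟨h1, h2⟩, -⟩ := hreg ρ h
    exact af_of (by omega) (by omega)
  have hconst : ∀ v, Reach ((F ∩ RegO c rc t b) \ ↑(Exm F σ T)) p v → hv v = x := by
    intro v h
    rw [← vp]
    refine (reach_const (fun e he => ?_) h).symm
    obtain ⟨ρ, rfl⟩ := exists_ae e
    have h1 := open_const hσ hτ hH (hAf ρ he.1.2) he.1.1
    rcases p2_ends ρ with ⟨e1, e2⟩ | ⟨e1, e2⟩
    · rw [e1, e2]; exact h1.symm
    · rw [e1, e2]; exact h1
  by_contra hcon
  have hno : ∀ v, Reach ((F ∩ RegO c rc t b) \ ↑(Exm F σ T)) p v →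
      ∀ s, 0 < s → s < T → (orb F σ s).1 ≠ v := by
    intro v h s hs hsT he
    exact hcon ⟨s, hs, hsT, by rw [he]; exact h⟩
  have hall : ∀ v, Reach (G ∩ RegO c rc t b) p v →
      Reach ((F ∩ RegO c rc t b) \ ↑(Exm F σ T)) p v := by
    intro v h
    induction h with
    | refl => exact Relation.ReflTransGen.refl
    | @tail u v' _ hst ih =>
      obtain ⟨e, he, g⟩ := hst
      by_cases hex : e ∈ Exm F σ T
      · exfalso
        obtain ⟨s, hsT, hse⟩ := mem_Exm.1 hex
        subst hse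
        have hR := he.2
        have hA := hAf _ hR
        have hs0 : 0 < s := by
          rcases Nat.eq_zero_or_pos s with h0 | h0
          · exfalso
            rw [h0, orb_zero] at hA
            exact in_st hσ hA
          · exact h0
        have hu : u = (orb F σ s).1 ∨ u = (mv (orb F σ s)).1 := by
          rcases p2_ends (orb F σ s) with ⟨e1, e2⟩ | ⟨e1, e2⟩ <;> rw [e1, e2] at g <;>
            rcases g with ⟨g1, g2⟩ | ⟨g1, g2⟩
          · exact Or.inl g1.symm
          · exact Or.inr g2.symm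
          · exact Or.inr g1.symm
          · exact Or.inl g2.symm
        rcases hu with hu | hu
        · exact hno u ih s hs0 hsT hu.symm
        · by_cases ho : ae (orb F σ s) ∈ F
          · rcases Nat.lt_or_ge (s + 1) T with h1 | h1
            · refine hno u ih (s + 1) (by omega) h1 ?_
              rw [orb_succ, nxt_open ho, hu]
            · have e : s + 1 = T := by omega
              apply in_en hσ
              rw [← e, orb_succ, nxt_open ho, p2_face_mv]
              exact hA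
          · have hfm : face (mv (orb F σ s)) = face (orb F σ s) := p2_face_mv _
            have k1 := hH (mv (orb F σ s)) (by rw [hfm]; exact hA)
            have k2 : ¬ (Vis F σ T (mv (orb F σ s)) ∨ Vis F τ T' (mv (orb F σ s))) := by
              rintro (⟨r, hr0, hrT, hre⟩ | h')
              · exact hno u ih r hr0 hrT (by rw [hre, hu])
              · have g1 := vis_ne hne h' (by have := (hreg _ hR).2.1; omega)
                have g2 := hR.2.2
                apply g2
                have h3 := edge_ends (ae (orb F σ s))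
                rcases p2_ends (orb F σ s) with ⟨e1, e2⟩ | ⟨e1, e2⟩
                · rw [e1, e2] at h3
                  rw [e1]
                  rcases h3 with ⟨h5, h6⟩ | ⟨h5, h6⟩ <;> constructor <;> omega
                · rw [e1]
                  constructor <;> omega
            rw [b2_not_of k2, hfm, hx' s hs0 hsT, ← hu, hconst u ih, ← add_assoc, z2s,
              zero_add] at k1
            exact one_ne_zero k1
      · exact ih.tail ⟨e, ⟨⟨(hFG e he.2 hex).2 he.1, he.2⟩, hex⟩, g⟩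
  have h1 := hconst q (hall q hpq)
  rw [vq] at h1
  exact ne_add_one x h1.symm

end Pool.Agent.N948.IX.X12

namespace Pool.Agent.N948.IX

open H974 H12S Finset H984P H342P Pool.Agent.W92.DP

theorem hito (_hB : St_basic) (_hoB : St_oBasic) (hr : St_restr) (hoR : St_oRestr)
    (hLk : St_LkOut) (hFl : St_FLUX) : St_HITo :=
  X12.main hr hoR hLk hFl

end Pool.Agent.N948.IX
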