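import Pool.Agent.N948.IX.Sp
import Pool.Agent.N948.IX.Bas
import Pool.Agent.N948.IX.N1
import Pool.Agent.N948.IX.N3
import Pool.Agent.N948.IX.TL

/-!
Project XD (helper948), X5 (helper362): the fresh arm at the first approach of a second crossing.
The potentials of the closed chain formed by the beginnings of the two crossings, a chain inside of
the small square and a chain outside of the large square.
-/

set_option autoImplicit false

/-! ### Chains of states with faces in a square -/

namespace Pool.Agent.N948.IX.X5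

open H974 H12S Finset H984P H342P Pool.Agent.W92.DP H984P.SideAux Pool.Agent.N948.IX.Bas
open Pool.Agent.N948.IX.N1

/-- A chain of states with inner faces. -/
def LkI (c : Vtx) (b : ℕ) (σ τ : St) : Prop :=
  ∃ α : St → ZMod 2, (∀ ρ, 2 * (b : ℤ) < lf c (face ρ) → α ρ = 0) ∧
    ∀ ρ, T4 α ρ = inc σ ρ + inc τ ρ

variable {c : Vtx} {b : ℕ}

theorem LkI.refl (σ : St) : LkI c b σ σ :=
  ⟨fun _ => 0, fun _ _ => rfl, fun ρ => by unfold T4; rw [z2s (inc σ ρ)]; rfl⟩

theorem LkI.symm {σ τ : St} (h : LkI c b σ τ) : LkI c b τ σ := by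
  obtain ⟨α, h1, h2⟩ := h
  exact ⟨α, h1, fun ρ => by rw [h2, add_comm]⟩

theorem LkI.trans {σ τ υ : St} (h : LkI c b σ τ) (h' : LkI c b τ υ) : LkI c b σ υ := by
  obtain ⟨α, h1, h2⟩ := h
  obtain ⟨β, h3, h4⟩ := h'
  refine ⟨fun ρ => α ρ + β ρ, fun ρ hρ => by
    show α ρ + β ρ = 0; rw [h1 ρ hρ, h3 ρ hρ, add_zero], fun ρ => ?_⟩
  have e1 := h2 ρ
  have e2 := h4 ρ
  have e3 := z2s (inc τ ρ)
  unfold T4 at e1 e2 ⊢
  linear_combination e1 + e2 + e3

theorem LkI.sR {σ : St} (h : lf c (face σ) < 2 * (b : ℤ)) : LkI c b σ (rt σ) := by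
  refine ⟨fun ρ => b2 (ρ = σ), fun ρ hρ => b2_not_of (fun e => by rw [e] at hρ; omega), fun ρ => ?_⟩
  unfold T4 inc
  have e1 : b2 (rt ρ = rt σ) = b2 (ρ = σ) := b2_congr rt_inj
  have e2 : b2 (mv ρ = rt σ) = b2 (op ρ = σ) := by
    rw [← rt_op]; exact b2_congr rt_inj
  rw [e1, e2]
  ring

theorem LkI.sM {σ : St} (h : lf c (face σ) < 2 * (b : ℤ)) : LkI c b σ (mv σ) := by
  refine ⟨fun ρ => b2 (ρ = σ), fun ρ hρ => b2_not_of (fun e => by rw [e] at hρ; omega), fun ρ => ?_⟩
  unfold T4 inc
  have e1 : b2 (mv ρ = mv σ) = b2 (ρ = σ) := b2_congr mv_inj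
  have e2 : b2 (rt ρ = mv σ) = b2 (op ρ = σ) := by
    rw [← mv_op]; exact b2_congr mv_inj
  rw [e1, e2]
  ring

/-- all states with the same inner face are linked -/
theorem LkI.faces (σ : St) (h : lf c (face σ) < 2 * (b : ℤ)) : LkI c b ((face σ), .ne) σ := by
  obtain ⟨⟨x, y⟩, q⟩ := σ
  have step : ∀ τ : St, face τ = face ((x, y), q) → LkI c b τ (mv τ) :=
    fun τ hτ => LkI.sM (by rw [hτ]; exact h)
  cases q
  · simpa using LkI.refl _
  · have h1 := step ((x - 1, y), .ne) (by simp)
    simpa using h1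
  · have h1 := step ((x - 1, y - 1), .ne) (by simp)
    have h2 := step ((x, y - 1), .nw) (by simp)
    have h3 := h1.trans (by simpa using h2)
    simpa using h3
  · have h1 := step ((x, y - 1), .ne) (by simp)
    have h2 := step ((x + 1, y - 1), .nw) (by simp)
    have h3 := step ((x + 1, y), .sw) (by simp)
    have h4 : LkI c b ((x, y - 1), .ne) ((x + 1, y - 1), .nw) := by simpa using h1
    have h5 : LkI c b ((x + 1, y - 1), .nw) ((x + 1, y), .sw) := by simpa using h2
    have h6 : LkI c b ((x + 1, y), .sw) ((x, y), .se) := by simpa using h3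
    exact h4.trans (h5.trans h6)

/-- neighbouring inner faces are linked -/
theorem LkI.nbr1 (x y : ℤ) (h : lf c (x, y) < 2 * (b : ℤ)) (h' : lf c (x, y - 1) < 2 * (b : ℤ)) :
    LkI c b ((x, y), .ne) ((x, y - 1), .ne) := by
  have h1 : LkI c b ((x, y), .ne) ((x, y), .se) := by
    simpa using LkI.sR (c := c) (b := b) (σ := ((x, y), Q4.ne)) (by simpa using h)
  have h2 := LkI.faces (c := c) (b := b) ((x, y), Q4.se) (by simpa using h')
  exact h1.trans h2.symm

theorem LkI.nbr2 (x y : ℤ) (h : lf c (x, y) < 2 * (b : ℤ)) (h' : lf c (x - 1, y) < 2 * (b : ℤ)) :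
    LkI c b ((x, y), .ne) ((x - 1, y), .ne) := by
  have h1 := LkI.faces (c := c) (b := b) ((x, y + 1), Q4.se) (by simpa using h)
  have h2 : LkI c b ((x, y + 1), .se) ((x, y + 1), .sw) := by
    simpa using LkI.sR (c := c) (b := b) (σ := ((x, y + 1), Q4.se)) (by simpa using h)
  have h3 := LkI.faces (c := c) (b := b) ((x, y + 1), Q4.sw) (by simpa using h')
  have h4 := h1.trans (h2.trans h3.symm)
  simpa using h4

theorem LkI.nbr {f g : Vtx} (hf : lf c f < 2 * (b : ℤ)) (hg : lf c g < 2 * (b : ℤ))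
    (h : |f.1 - g.1| + |f.2 - g.2| = 1) : LkI c b (f, .ne) (g, .ne) := by
  obtain ⟨x, y⟩ := f
  obtain ⟨x', y'⟩ := g
  simp only [abs_eq_max_neg] at h
  have h4 : (x' = x ∧ y' = y - 1) ∨ (x' = x ∧ y' = y + 1) ∨ (x' = x - 1 ∧ y' = y) ∨
      (x' = x + 1 ∧ y' = y) := by omega
  rcases h4 with ⟨rfl, rfl⟩ | ⟨rfl, rfl⟩ | ⟨rfl, rfl⟩ | ⟨rfl, rfl⟩
  · exact LkI.nbr1 _ _ hf hg
  · have := LkI.nbr1 (c := c) (b := b) x' (y + 1) hg (by simpa using hf)
    simpa using this.symm
  · exact LkI.nbr2 _ _ hf hg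
  · have := LkI.nbr2 (c := c) (b := b) (x + 1) y' hg (by simpa using hf)
    simpa using this.symm

theorem lkIn (c : Vtx) (b : ℕ) (σ τ : St) (hσ : lf c (face σ) < 2 * (b : ℤ))
    (hτ : lf c (face τ) < 2 * (b : ℤ)) : LkI c b σ τ := by
  classical
  have h1 := LkI.faces σ hσ
  have h2 := LkI.faces τ hτ
  have h3 : LkI c b ((face σ), .ne) ((face τ), .ne) := by
    have key := connI c b (fun f => if LkI c b ((face σ), .ne) (f, .ne) then 1 else 0) ?_
      (face σ) (face τ) hσ hτ
    · rw [if_pos (LkI.refl _)] at key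
      by_contra hcon
      rw [if_neg hcon] at key
      exact one_ne_zero key
    · intro f g hf hg hfg
      have h4 := LkI.nbr hf hg hfg
      have h5 : LkI c b ((face σ), .ne) (f, .ne) ↔ LkI c b ((face σ), .ne) (g, .ne) :=
        ⟨fun h => h.trans h4, fun h => h.trans h4.symm⟩
      simp only [h5]
  exact h1.symm.trans (h3.trans h2)

/-! ### Steps -/

theorem step (F : Set Edg) (σ : St) (s : ℕ) :
    (ae (orb F σ s) ∈ F ∧ face (orb F σ (s + 1)) = face (orb F σ s) ∧
      (orb F σ (s + 1)).1 = (mv (orb F σ s)).1) ∨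
      (ae (orb F σ s) ∉ F ∧ face (orb F σ (s + 1)) = face (rt (orb F σ s)) ∧
      (orb F σ (s + 1)).1 = (orb F σ s).1) := by
  rw [orb_succ]
  by_cases h1 : ae (orb F σ s) ∈ F
  · left
    rw [nxt_open h1, p2_face_mv]
    exact ⟨h1, rfl, rfl⟩
  · right
    rw [nxt_closed h1, p2_rt_fst]
    exact ⟨h1, rfl, rfl⟩

theorem al_one {G : Set Edg} {σ : St} {N s : ℕ} (hs : s < N)
    (hinj : ∀ r < N, r ≠ s → orb G σ r ≠ orb G σ s) : al G σ N (orb G σ s) = 1 := by
  unfold al
  rw [Finset.sum_eq_single s]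
  · exact b2_of rfl
  · intro r hr hrs
    exact b2_not_of (hinj r (Finset.mem_range.1 hr) hrs)
  · intro h
    exact absurd (Finset.mem_range.2 hs) h

theorem al_zero {G : Set Edg} {σ : St} {N : ℕ} {ρ : St} (h : ∀ r < N, orb G σ r ≠ ρ) :
    al G σ N ρ = 0 := by
  unfold al
  exact Finset.sum_eq_zero fun r hr => b2_not_of (h r (Finset.mem_range.1 hr))

/-- the states of a crossing are different -/
theorem inj {F : Set Edg} {c : Vtx} {a b : ℕ} {ρ : St} {T : ℕ} (hr : St_restr) (hab : a < b)
    (h : InLeg F c a b ρ T) {r s : ℕ} (hrs : r < s) (hs : s ≤ T) : orb F ρ r ≠ orb F ρ s := by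
  intro he
  rcases Nat.lt_or_ge s T with h1 | h1
  · have := ((hr F c a b ρ T hab h).2.2.2 ρ T r s h (by omega) h1 he).2
    omega
  · have e : s = T := by omega
    rw [e] at he
    have h2 := h.en
    rw [← he] at h2
    rcases Nat.eq_zero_or_pos r with h0 | h0
    · rw [h0, orb_zero] at h2
      have := h.st
      omega
    · have := (h.mid r h0 (by omega)).1
      omega

/-- the states of different crossings are different -/
theorem diff {F : Set Edg} {c : Vtx} {a b : ℕ} {σ ρ : St} {T T' : ℕ} (hr : St_restr) (hab : a < b)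
    (h : InLeg F c a b σ T) (h' : InLeg F c a b ρ T') (hne : σ ≠ ρ) {r s : ℕ} (hrT : r < T)
    (hs : s ≤ T') : orb F σ r ≠ orb F ρ s := by
  intro he
  have hab' : (a : ℤ) < b := by exact_mod_cast hab
  rcases Nat.lt_or_ge s T' with h1 | h1
  · exact hne ((hr F c a b σ T hab h).2.2.2 ρ T' r s h' hrT h1 he).1
  · have e : s = T' := by omega
    rw [e] at he
    have h2 := h'.en
    rw [← he] at h2
    rcases Nat.eq_zero_or_pos r with h0 | h0
    · rw [h0, orb_zero] at h2
      have := h.st
      omega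
    · have := (h.mid r h0 hrT).1
      omega

theorem one_cases {x y : ZMod 2} (h : x + y = 1) : y = x + 1 := by
  revert x y
  decide

theorem zero_cases {x y : ZMod 2} (h : x + y = 0) : y = x := by
  revert x y
  decide

theorem ne_add_one (x : ZMod 2) : x ≠ x + 1 := by
  revert x
  decide

theorem eq_add_one {x y : ZMod 2} (h : x ≠ y) : x = y + 1 := by
  revert x y
  decide

/-- The two potentials along the crossing. -/
theorem pots {F : Set Edg} {c q : Vtx} {a b w : ℕ} {σ ρ : St} {T T' t t' sq : ℕ}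
    (hr : St_restr) (hLk : St_LkOut) (hab : a < b) (hσ : InLeg F c a b σ T)
    (hρ : InLeg F c a b ρ T') (hne : σ ≠ ρ) (hsq : sq ≤ T)
    (hsQ : lf q (face (orb F σ sq)) < 2 * (w : ℤ)) (ht : t ≤ T')
    (htQ : lf q (face (orb F ρ t)) < 2 * (w : ℤ))
    (hbef : ∀ s < t, 2 * (w : ℤ) < lf q (face (orb F ρ s))) (htt : t ≤ t') (ht' : t' < T')
    (haft : ∀ s, t' < s → s ≤ T' → 2 * (w : ℤ) < lf q (face (orb F ρ s))) (ht2 : 2 ≤ t) :
    ∃ (hv hf : Vtx → ZMod 2) (pR p0 : ZMod 2), (∀ s < t, hv (orb F ρ s).1 = pR) ∧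
      (∀ s, 0 < s → s < t → hf (face (orb F ρ s)) = pR + 1) ∧
      (∀ s, t' < s → s ≤ T' → hv (orb F ρ s).1 = p0) ∧
      ∀ s, t' < s → s ≤ T' → hf (face (orb F ρ s)) = p0 := by
  have hab' : (a : ℤ) < b := by exact_mod_cast hab
  obtain ⟨β₁, h1a, h1b⟩ := lkIn q w (orb F ρ t) (orb F σ sq) htQ hsQ
  obtain ⟨β₂, h2a, h2b⟩ := hLk c b ρ σ hρ.st hσ.st
  obtain ⟨hv, hf, hpot⟩ := pot4
    (fun x => al F ρ t x + al F σ sq x + β₁ x + β₂ x) (by
      intro x
      have e1 := al_T4 F ρ t x
      have e2 := al_T4 F σ sq x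
      have e3 := h1b x
      have e4 := h2b x
      have e5 := z2s (inc ρ x)
      have e6 := z2s (inc (orb F ρ t) x)
      have e7 := z2s (inc σ x)
      have e8 := z2s (inc (orb F σ sq) x)
      unfold T4 at e1 e2 e3 e4 ⊢
      linear_combination e1 + e2 + e3 + e4 + e5 + e6 + e7 + e8)
  have hin : ∀ s, 0 < s → s ≤ T' → lf c (face (orb F ρ s)) < 2 * (b : ℤ) := by
    intro s hs hsT
    rcases Nat.lt_or_ge s T' with g | g
    · exact (hρ.mid s hs g).2
    · have e : s = T' := by omega
      rw [e]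
      have := hρ.en
      omega
  have v1 : ∀ s, 0 < s → s < t → hv (orb F ρ s).1 + hf (face (orb F ρ s)) = 1 := by
    intro s hs hst
    rw [hpot]
    rw [al_one hst (by
      intro r hr' hrs
      rcases Nat.lt_or_ge r s with g | g
      · exact inj hr hab hρ g (by omega)
      · exact (inj hr hab hρ (show s < r by omega) (by omega)).symm),
      al_zero (fun r hr' => diff hr hab hσ hρ hne (by omega) (by omega)),
      h1a _ (hbef s hst), h2a _ (hin s hs (by omega))]
    ring
  have v0 : ∀ s, t' < s → s ≤ T' → hv (orb F ρ s).1 + hf (face (orb F ρ s)) = 0 := by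
    intro s hs hsT
    rw [hpot]
    rw [al_zero (fun r hr' => inj hr hab hρ (by omega) hsT),
      al_zero (fun r hr' => diff hr hab hσ hρ hne (by omega) hsT),
      h1a _ (haft s hs hsT), h2a _ (hin s (by omega) hsT)]
    ring
  -- the first part
  have c1 : ∀ s, 0 < s → s < t → hv (orb F ρ s).1 = hv (orb F ρ 1).1 := by
    intro s
    induction s with
    | zero => intro h; exact absurd h (lt_irrefl 0)
    | succ s ih =>
      intro _ hs
      rcases Nat.eq_zero_or_pos s with h0 | h0
      · subst h0; rfl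
      · rw [← ih h0 (by omega)]
        have k1 := v1 s h0 (by omega)
        have k2 := v1 (s + 1) (by omega) hs
        rcases step F ρ s with ⟨-, g1, g2⟩ | ⟨-, g1, g2⟩
        · rw [g1] at k2
          exact add_right_cancel (k2.trans k1.symm)
        · rw [g2]
  -- the last part
  have c0 : ∀ s, t' < s → s ≤ T' → hv (orb F ρ s).1 = hv (orb F ρ (t' + 1)).1 := by
    intro s
    induction s with
    | zero => intro h; omega
    | succ s ih =>
      intro hs hsT
      rcases Nat.lt_or_ge t' s with h0 | h0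
      · rw [← ih h0 (by omega)]
        have k1 := v0 s h0 (by omega)
        have k2 := v0 (s + 1) (by omega) hsT
        rcases step F ρ s with ⟨-, g1, g2⟩ | ⟨-, g1, g2⟩
        · rw [g1] at k2
          exact add_right_cancel (k2.trans k1.symm)
        · rw [g2]
      · have e : s = t' := by omega
        rw [e]
  refine ⟨hv, hf, hv (orb F ρ 1).1, hv (orb F ρ (t' + 1)).1, ?_, ?_, c0, ?_⟩
  · intro s hs
    rcases Nat.eq_zero_or_pos s with h0 | h0
    · subst h0
      rcases step F ρ 0 with ⟨-, g1, g2⟩ | ⟨-, g1, g2⟩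
      · exfalso
        have k1 := hin 1 one_pos (by omega)
        have k2 := hρ.st
        rw [zero_add, orb_zero] at g1
        rw [g1] at k1
        omega
      · rw [zero_add] at g2
        rw [g2]
    · exact c1 s h0 hs
  · intro s hs hst
    rw [← c1 s hs hst]
    exact one_cases (v1 s hs hst)
  · intro s hs hsT
    rw [← c0 s hs hsT]
    exact zero_cases (v0 s hs hsT)

end Pool.Agent.N948.IX.X5

namespace Pool.Agent.N948.IX

open H974 H12S Finset H984P H342P Pool.Agent.W92.DP X5 Bas N1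

theorem fr (hB : St_basic) (hoB : St_oBasic) (hr : St_restr) (hn3 : St_N3) (hLk : St_LkOut) :
    St_FR := by
  classical
  intro F G c q a b w R σ ρ T T' t ha hab hw hwR hq1 hq2 hσ hρ hne hsq ht htQ hbef hFG
  obtain ⟨sq, hsqT, hsQ⟩ := hsq
  have hab' : (a : ℤ) < b := by exact_mod_cast hab
  have hw' : (1 : ℤ) ≤ w := by exact_mod_cast hw
  have hwR' : (w : ℤ) < R := by exact_mod_cast hwR
  have ha' : (1 : ℤ) ≤ a := by exact_mod_cast ha
  -- the time `t` is at least two
  have ht2 : 2 ≤ t := by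
    by_contra hcon
    have k0 := TL.lf_tri c q (face (orb F ρ t))
    have k1 : lf c (face (orb F ρ t)) < 2 * (b : ℤ) - 2 := by omega
    rcases Nat.eq_zero_or_pos t with h0 | h0
    · rw [h0, orb_zero] at k1
      have := hρ.st
      omega
    · have e : t = 1 := by omega
      rw [e] at k1
      have k2 := hρ.st
      have k3 := cor c ρ
      rcases step F ρ 0 with ⟨-, g1, g2⟩ | ⟨-, g1, g2⟩
      · rw [zero_add, orb_zero] at g1
        rw [g1] at k1
        omega
      · rw [zero_add, orb_zero] at g1 g2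
        have k4 := cor_rt c ρ
        rw [g1] at k1
        omega
  -- the last visit
  obtain ⟨t', ht'1, ht'2, ht'3, ht'4⟩ : ∃ t' ≤ T', t ≤ t' ∧
      lf q (face (orb F ρ t')) < 2 * (w : ℤ) ∧
      ∀ s, t' < s → s ≤ T' → ¬ lf q (face (orb F ρ s)) < 2 * (w : ℤ) := by
    refine ⟨Nat.findGreatest (fun s => lf q (face (orb F ρ s)) < 2 * (w : ℤ)) T',
      Nat.findGreatest_le _, ?_, ?_, ?_⟩
    · exact Nat.le_findGreatest ht htQ
    · exact Nat.findGreatest_spec (P := fun s => lf q (face (orb F ρ s)) < 2 * (w : ℤ)) ht htQ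
    · intro s h1 h2
      exact Nat.findGreatest_is_greatest h1 h2
  have hend : 2 * (R : ℤ) < lf q (face (orb F ρ T')) := by
    have k1 := TL.lf_tri' c q (face (orb F ρ T'))
    have k2 := hρ.en
    omega
  have ht'T : t' < T' := by
    rcases Nat.lt_or_ge t' T' with g | g
    · exact g
    · have e : t' = T' := by omega
      rw [e] at ht'3
      omega
  have haft : ∀ s, t' < s → s ≤ T' → 2 * (w : ℤ) < lf q (face (orb F ρ s)) := by
    intro s h1 h2
    have k1 := ht'4 s h1 h2
    have k2 := lf_odd q (face (orb F ρ s)) w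
    omega
  obtain ⟨hv, hf, pR, p0, m1, m2, m3, m4⟩ := pots (q := q) (w := w) hr hLk hab hσ hρ hne
    hsqT hsQ ht htQ hbef ht'2 ht'T haft ht2
  -- the outward crossing
  have hex : ∃ n, 0 < n ∧ 2 * (R : ℤ) < lf q (face (orb F ρ (n + t'))) :=
    ⟨T' - t', by omega, by rw [Nat.sub_add_cancel ht'1]; exact hend⟩
  obtain ⟨U, ⟨hU0, hU1⟩, hU2, hU3⟩ : ∃ U, (0 < U ∧ 2 * (R : ℤ) < lf q (face (orb F ρ (U + t')))) ∧
      (∀ s < U, ¬ (0 < s ∧ 2 * (R : ℤ) < lf q (face (orb F ρ (s + t'))))) ∧ U ≤ T' - t' :=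
    ⟨Nat.find hex, Nat.find_spec hex, fun s hs => Nat.find_min hex hs,
      Nat.find_min' hex ⟨by omega, by rw [Nat.sub_add_cancel ht'1]; exact hend⟩⟩
  have ho : ∀ s, orb F (orb F ρ t') s = orb F ρ (s + t') := fun s => (orb_add F ρ s t').symm
  have hmid : ∀ s, 0 < s → s < U → 2 * (w : ℤ) < lf q (face (orb F ρ (s + t'))) ∧
      lf q (face (orb F ρ (s + t'))) < 2 * (R : ℤ) := by
    intro s h1 h2
    refine ⟨haft _ (by omega) (by omega), ?_⟩
    have k1 := hU2 s h2
    have k2 := lf_odd q (face (orb F ρ (s + t'))) R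
    by_contra hcon
    exact k1 ⟨h1, by omega⟩
  have hout : OutLeg F q w R (orb F ρ t') U :=
    { pos := hU0
      st := ht'3
      mid := fun s h1 h2 => by rw [ho]; exact hmid s h1 h2
      en := by rw [ho]; exact hU1 }
  obtain ⟨o1, o2, o3, o4, -, -, -, -⟩ := hoB F q w R (orb F ρ t') U hwR hout
  have hdis := hn3 F c a b σ ρ T T' hab hσ hρ hne
  rw [Finset.disjoint_left] at hdis
  -- the two faces and the two ends of an edge examined twice
  have two : ∀ s < U, ae (orb F ρ (s + t')) ∈ Exm F ρ t → ∃ r < t,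
      (orb F ρ r).1 = (mv (orb F ρ (s + t'))).1 ∧
      face (orb F ρ r) = face (rt (orb F ρ (s + t'))) := by
    intro s hs he
    obtain ⟨r, hrt, hre⟩ := mem_Exm.1 he
    refine ⟨r, hrt, ?_⟩
    rcases N3.two (orb F ρ (s + t')) (orb F ρ r) hre.symm with h | h
    · exact absurd h.symm (inj hr hab hρ (by omega) (by omega))
    · exact h
  have hnotσ : ∀ s < U, ae (orb F ρ (s + t')) ∉ Exm F σ T := by
    intro s hs he
    exact hdis he (mem_Exm.2 ⟨s + t', by omega, rfl⟩)
  by_cases hp : p0 = pR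
  · -- closed arm
    right
    have hcl : ∀ s < U, ae (orb F ρ (s + t')) ∉ F → ae (orb F ρ (s + t')) ∉ G := by
      intro s hs hF
      have he := o4 s hs
      rw [ho] at he
      rw [← hFG _ he (hnotσ s hs) ?_]
      · exact hF
      intro hex'
      obtain ⟨r, hrt, -, hrf⟩ := two s hs hex'
      have e1 : face (orb F ρ r) = face (orb F ρ (s + t' + 1)) := by
        rcases step F ρ (s + t') with ⟨g0, -, -⟩ | ⟨-, g1, -⟩
        · exact absurd g0 hF
        · rw [hrf, g1]
      have e2 := m4 (s + t' + 1) (by omega) (by omega)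
      rcases Nat.eq_zero_or_pos r with h0 | h0
      · have k1 := hρ.st
        rw [h0, orb_zero] at e1
        rw [e1] at k1
        rcases Nat.lt_or_ge (s + t' + 1) T' with g | g
        · have := (hρ.mid (s + t' + 1) (by omega) g).2
          omega
        · have e : s + t' + 1 = T' := by omega
          rw [e] at k1
          have := hρ.en
          omega
      · have e3 := m2 r h0 hrt
        rw [e1, e2, hp] at e3
        exact ne_add_one pR e3
    -- the first step
    have hf0 : ae (orb F ρ (0 + t')) ∉ F ∧ face (orb F ρ (0 + t' + 1)) =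
        face (rt (orb F ρ (0 + t'))) := by
      rcases step F ρ (0 + t') with ⟨-, g1, -⟩ | ⟨g0, g1, -⟩
      · exfalso
        have k1 := haft (0 + t' + 1) (by omega) (by omega)
        rw [g1] at k1
        rw [zero_add] at k1
        omega
      · exact ⟨g0, g1⟩
    -- the last step
    have hl0 : ae (orb F ρ (U - 1 + t')) ∉ F ∧ face (orb F ρ (U - 1 + t' + 1)) =
        face (rt (orb F ρ (U - 1 + t'))) := by
      rcases step F ρ (U - 1 + t') with ⟨-, g1, -⟩ | ⟨g0, g1, -⟩
      · exfalso
        have e : U - 1 + t' + 1 = U + t' := by omega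
        rw [e] at g1
        have k1 := (hmid (U - 1) (by omega) (by omega)).2
        rw [g1] at hU1
        omega
      · exact ⟨g0, g1⟩
    refine ⟨fun _ => face (orb F ρ (1 + t')), ?_, fun i j hij => absurd (Subsingleton.elim i j) hij⟩
    intro _
    have hA : ∀ s, 0 < s → s < U → Af q w R (face (orb F ρ (s + t'))) := fun s h1 h2 => hmid s h1 h2
    refine ⟨⟨hA 1 one_pos o1, ae (orb F ρ (0 + t')), hcl 0 (by omega) hf0.1, ?_⟩,
      face (orb F ρ (U - 1 + t')), ⟨hA _ (by omega) (by omega), ae (orb F ρ (U - 1 + t')),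
        hcl _ (by omega) hl0.1, ?_⟩, ?_⟩
    · have e1 : 1 + t' = 0 + t' + 1 := by omega
      rw [e1, hf0.2]
      have k1 : lf q (face (orb F ρ (0 + t'))) < 2 * (w : ℤ) := by rw [zero_add]; exact ht'3
      rcases p2_dends (orb F ρ (0 + t')) with ⟨g1, g2⟩ | ⟨g1, g2⟩
      · right
        rw [g1, g2]
        exact ⟨rfl, k1⟩
      · left
        rw [g1, g2]
        exact ⟨rfl, k1⟩
    · have e1 : U - 1 + t' + 1 = U + t' := by omega
      have k1 := hU1
      rw [← e1, hl0.2] at k1
      rcases p2_dends (orb F ρ (U - 1 + t')) with ⟨g1, g2⟩ | ⟨g1, g2⟩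
      · left
        rw [g1, g2]
        exact ⟨rfl, k1⟩
      · right
        rw [g1, g2]
        exact ⟨rfl, k1⟩
    · have key : ∀ s, 0 < s → s < U → DReach (Gᶜ ∩ Gd q w R) (face (orb F ρ (1 + t')))
          (face (orb F ρ (s + t'))) := by
        intro s
        induction s with
        | zero => intro h; exact absurd h (lt_irrefl 0)
        | succ s ih =>
          intro _ hs
          rcases Nat.eq_zero_or_pos s with h0 | h0
          · subst h0
            exact DReach.refl _ _
          · have ih' := ih h0 (by omega)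
            have e1 : s + 1 + t' = s + t' + 1 := by omega
            rcases step F ρ (s + t') with ⟨-, g1, -⟩ | ⟨g0, g1, -⟩
            · rw [e1, g1]
              exact ih'
            · refine ih'.trans (DAdj.reach ⟨ae (orb F ρ (s + t')),
                ⟨hcl s (by omega) g0, gd_of (hA s h0 (by omega)) ?_⟩, ?_⟩)
              · rw [← g1, ← e1]
                exact hA (s + 1) (by omega) hs
              · rw [e1, g1]
                exact p2_dends _
      exact key (U - 1) (by omega) (by omega)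
  · -- open arm
    left
    have hop : ∀ s < U, ae (orb F ρ (s + t')) ∈ F → ae (orb F ρ (s + t')) ∈ G := by
      intro s hs hF
      have he := o4 s hs
      rw [ho] at he
      rw [← hFG _ he (hnotσ s hs) ?_]
      · exact hF
      intro hex'
      obtain ⟨r, hrt, hrv, -⟩ := two s hs hex'
      have e1 : (orb F ρ r).1 = (orb F ρ (s + t' + 1)).1 := by
        rcases step F ρ (s + t') with ⟨-, -, g1⟩ | ⟨g0, -, -⟩
        · rw [hrv, g1]
        · exact absurd hF g0
      have e2 := m3 (s + t' + 1) (by omega) (by omega)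
      have e3 := m1 r hrt
      rw [e1, e2] at e3
      exact hp e3
    refine ⟨fun _ => (orb F ρ t').1, ?_, fun i j hij => absurd (Subsingleton.elim i j) hij⟩
    intro _
    refine ⟨o2, (orb F (orb F ρ t') U).1, o3, ?_⟩
    have key : ∀ s ≤ U, Reach (G ∩ Ge q w R) (orb F ρ t').1 (orb F ρ (s + t')).1 := by
      intro s
      induction s with
      | zero =>
        intro _
        rw [zero_add]
        exact Reach.refl _ _
      | succ s ih =>
        intro hs
        have ih' := ih (by omega)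
        have e1 : s + 1 + t' = s + t' + 1 := by omega
        rcases step F ρ (s + t') with ⟨g0, -, g1⟩ | ⟨-, -, g1⟩
        · have he := o4 s (by omega)
          rw [ho] at he
          refine ih'.trans (Adj.reach ⟨ae (orb F ρ (s + t')), ⟨hop s (by omega) g0, he⟩, ?_⟩)
          rw [e1, g1]
          exact p2_ends _
        · rw [e1, g1]
          exact ih'
    rw [ho]
    exact key U le_rfl

end Pool.Agent.N948.IX
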