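import Pool.Agent.N948.IX.Ex0
import Pool.Agent.N948.IX.X5

/-!
Project XD (helper948), X13 (helper281): a dual path around the lower left quadrant hits the inward
crossing from its left side. The potentials of the closed chain formed by the inward crossing, a
chain inside of the small square, the outward crossing and a chain outside of the large square.
-/

set_option autoImplicit false

namespace Pool.Agent.N948.IX.X13

open H974 H12S Finset H984P H342P Pool.Agent.W92.DP H984P.SideAux Pool.Agent.N948.IX.Bas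
open Pool.Agent.N948.IX.N1 Pool.Agent.N948.IX.X5

/-- The potentials. -/
theorem pots {F : Set Edg} {c : Vtx} {a b : ℕ} {σ τ : St} {T T' : ℕ} (hr : St_restr)
    (hoR : St_oRestr) (hLk : St_LkOut) (hab : a < b) (hσ : InLeg F c a b σ T)
    (hτ : OutLeg F c a b τ T') :
    ∃ (hv hf : Vtx → ZMod 2) (x : ZMod 2), (∀ s, 0 < s → s < T → hv (orb F σ s).1 = x) ∧
      ∀ ρ : St, 2 * (a : ℤ) < lf c (face ρ) → lf c (face ρ) < 2 * (b : ℤ) →
        hv ρ.1 + hf (face ρ) = al F σ T ρ + al F τ T' ρ := by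
  have hab' : (a : ℤ) < b := by exact_mod_cast hab
  obtain ⟨β₁, h1a, h1b⟩ := lkIn c a (orb F σ T) τ hσ.en hτ.st
  obtain ⟨β₂, h2a, h2b⟩ := hLk c b (orb F τ T') σ hτ.en hσ.st
  obtain ⟨hv, hf, hpot⟩ := pot4
    (fun x => al F σ T x + al F τ T' x + β₁ x + β₂ x) (by
      intro x
      have e1 := al_T4 F σ T x
      have e2 := al_T4 F τ T' x
      have e3 := h1b x
      have e4 := h2b x
      have e5 := z2s (inc σ x)
      have e6 := z2s (inc (orb F σ T) x)
      have e7 := z2s (inc τ x)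
      have e8 := z2s (inc (orb F τ T') x)
      unfold T4 at e1 e2 e3 e4 ⊢
      linear_combination e1 + e2 + e3 + e4 + e5 + e6 + e7 + e8)
  have key : ∀ ρ : St, 2 * (a : ℤ) < lf c (face ρ) → lf c (face ρ) < 2 * (b : ℤ) →
        hv ρ.1 + hf (face ρ) = al F σ T ρ + al F τ T' ρ := by
    intro ρ h1 h2
    rw [hpot, h1a ρ h1, h2a ρ h2]
    ring
  have v1 : ∀ s, 0 < s → s < T → hv (orb F σ s).1 + hf (face (orb F σ s)) = 1 := by
    intro s hs hsT
    have z1 : al F σ T (orb F σ s) = 1 := al_one hsT (by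
      intro r hr' hrs
      rcases Nat.lt_or_ge r s with g | g
      · exact inj hr hab hσ g (by omega)
      · exact (inj hr hab hσ (show s < r by omega) (by omega)).symm)
    have z2 : al F τ T' (orb F σ s) = 0 :=
      al_zero (fun r hr' => ((hoR F c a b τ T' hab hτ).2.2.2.2 σ T s r hσ hsT hr').symm)
    rw [key _ (hσ.mid s hs hsT).1 (hσ.mid s hs hsT).2, z1, z2, add_zero]
  refine ⟨hv, hf, hv (orb F σ 1).1, ?_, key⟩
  intro s
  induction s with
  | zero => intro h; exact absurd h (lt_irrefl 0)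
  | succ s ih =>
    intro _ hs
    rcases Nat.eq_zero_or_pos s with h0 | h0
    · subst h0; rfl
    · rw [← ih h0 (by omega)]
      have k1 := v1 s h0 (by omega)
      have k2 := v1 (s + 1) (by omega) hs
      rcases step F σ s with ⟨-, g1, g2⟩ | ⟨-, g1, g2⟩
      · rw [g1] at k2
        exact add_right_cancel (k2.trans k1.symm)
      · rw [g2]

/-- the visits of a crossing -/
theorem al_b2 {F : Set Edg} {c : Vtx} {a b : ℕ} {σ : St} {T : ℕ} (hr : St_restr) (hab : a < b)
    (hσ : InLeg F c a b σ T) {ρ : St} (h : lf c (face ρ) < 2 * (b : ℤ)) :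
    al F σ T ρ = b2 (∃ s, 0 < s ∧ s < T ∧ orb F σ s = ρ) := by
  by_cases hex : ∃ s, 0 < s ∧ s < T ∧ orb F σ s = ρ
  · rw [b2_of hex]
    obtain ⟨s, hs0, hsT, rfl⟩ := hex
    exact al_one hsT (by
      intro r hr' hrs
      rcases Nat.lt_or_ge r s with g | g
      · exact inj hr hab hσ g (by omega)
      · exact (inj hr hab hσ (show s < r by omega) (by omega)).symm)
  · rw [b2_not_of hex]
    refine al_zero fun r hr' he => hex ⟨r, ?_, hr', he⟩
    rcases Nat.eq_zero_or_pos r with h0 | h0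
    · exfalso
      rw [h0, orb_zero] at he
      rw [← he] at h
      have := hσ.st
      omega
    · exact h0

theorem tgt_or (e : Edg) : tgt e = ((src e).1 + 1, (src e).2) ∨
    tgt e = ((src e).1, (src e).2 + 1) := by
  obtain ⟨x, y, _ | _⟩ := e
  · right; rfl
  · left; rfl

/-- the vertices which are not visited by a crossing in the upper right quadrant -/
theorem offNE {F : Set Edg} {c : Vtx} {rc t : ℕ} {τ : St} {T' : ℕ}
    (h : CfNE c rc t (Exm F τ T')) {v : Vtx} (h1 : (rc : ℤ) < lv c v)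
    (h2 : v.1 < c.1 - t ∨ v.2 < c.2 - t) {s : ℕ} (hs : s < T') : (orb F τ s).1 ≠ v := by
  rintro rfl
  have he := h (ae (orb F τ s)) (mem_Exm.2 ⟨s, hs, rfl⟩)
  have k1 := tgt_or (ae (orb F τ s))
  have k2 := TL.lv_edge c (ae (orb F τ s))
  rcases p2_ends (orb F τ s) with ⟨e1, e2⟩ | ⟨e1, e2⟩
  · rw [e1] at he
    have := he h1.le
    omega
  · rw [e2] at k2
    have k3 := he (by omega)
    rw [e2] at k1
    rcases k1 with k1 | k1 <;> rw [k1] at h2 <;> simp only at h2 <;> omega

/-- the vertices which are not visited by a crossing in the lower left quadrant -/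
theorem offSW {F : Set Edg} {c : Vtx} {rc t : ℕ} {σ : St} {T : ℕ}
    (h : CfSW c rc t (Exm F σ T)) {v : Vtx} (h1 : (rc : ℤ) < lv c v)
    (h2 : c.1 + t + 1 < v.1 ∨ c.2 + t + 1 < v.2) {s : ℕ} (hs : s < T) : (orb F σ s).1 ≠ v := by
  rintro rfl
  have he := h (ae (orb F σ s)) (mem_Exm.2 ⟨s, hs, rfl⟩)
  have k1 := tgt_or (ae (orb F σ s))
  have k2 := TL.lv_edge c (ae (orb F σ s))
  rcases p2_ends (orb F σ s) with ⟨e1, e2⟩ | ⟨e1, e2⟩
  · rw [e1] at he
    have := he h1.le
    omega
  · rw [e2] at k2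
    have k3 := he (by omega)
    rw [e2] at k1
    rcases k1 with k1 | k1 <;> rw [k1] at h2 <;> simp only at h2 <;> omega

/-- straight lines of free vertices -/
theorem line_h {hv hf : Vtx → ZMod 2} {y : ℤ} : ∀ (k : ℕ) (x : ℤ),
    (∀ j : ℤ, x ≤ j → j ≤ x + k → ∀ q : Q4, hv (j, y) = hf (face ((j, y), q))) →
    hv (x, y) = hv (x + k, y) := by
  intro k
  induction k with
  | zero => intro x _; simp
  | succ k ih =>
    intro x h
    have h1 := h x le_rfl (by push_cast; omega) .ne
    have h2 := h (x + 1) (by omega) (by push_cast; omega) .nw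
    have h3 := ih (x + 1) (fun j g1 g2 => h j (by omega) (by push_cast; omega))
    rw [face_ne] at h1
    rw [face_nw, add_sub_cancel_right] at h2
    rw [h1, ← h2, h3]
    congr 2
    push_cast
    ring

theorem line_v {hv hf : Vtx → ZMod 2} {x : ℤ} : ∀ (k : ℕ) (y : ℤ),
    (∀ j : ℤ, y ≤ j → j ≤ y + k → ∀ q : Q4, hv (x, j) = hf (face ((x, j), q))) →
    hv (x, y) = hv (x, y + k) := by
  intro k
  induction k with
  | zero => intro y _; simp
  | succ k ih =>
    intro y h
    have h1 := h y le_rfl (by push_cast; omega) .ne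
    have h2 := h (y + 1) (by omega) (by push_cast; omega) .se
    have h3 := ih (y + 1) (fun j g1 g2 => h j (by omega) (by push_cast; omega))
    rw [face_ne] at h1
    rw [face_se, add_sub_cancel_right] at h2
    rw [h1, ← h2, h3]
    congr 2
    push_cast
    ring

theorem cir_west (c : Vtx) (n : ℕ) (y : ℤ) (h1 : c.2 - n ≤ y) (h2 : y ≤ c.2 + n) :
    cir c n (c.2 + n - y).toNat = (c.1 - n, y) := by
  unfold cir
  rw [if_pos (by omega)]
  have : (((c.2 + n - y).toNat : ℕ) : ℤ) = c.2 + n - y := Int.toNat_of_nonneg (by omega)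
  rw [this]
  congr 1
  ring

theorem cir_south (c : Vtx) (n : ℕ) (x : ℤ) (h1 : c.1 - n ≤ x) (h2 : x ≤ c.1 + n) :
    cir c n (x - c.1 + 3 * n).toNat = (x, c.2 - n) := by
  have h3 : (((x - c.1 + 3 * n).toNat : ℕ) : ℤ) = x - c.1 + 3 * n :=
    Int.toNat_of_nonneg (by omega)
  unfold cir
  by_cases h4 : (x - c.1 + 3 * n).toNat ≤ 2 * n
  · rw [if_pos h4, h3]
    ext
    · simp only; omega
    · simp only; omega
  · rw [if_neg h4, if_pos (by omega), h3]
    congr 1
    ring

theorem cir_mem (c : Vtx) (n i : ℕ) (hi : i ≤ 4 * n) :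
    lv c (cir c n i) = n ∧ ((cir c n i).1 = c.1 - n ∨ (cir c n i).2 = c.2 - n) := by
  obtain ⟨cx, cy⟩ := c
  by_cases h1 : i ≤ 2 * n
  · have e : cir (cx, cy) n i = (cx - n, cy + n - i) := by
      unfold cir
      rw [if_pos h1]
    rw [e]
    refine ⟨?_, Or.inl rfl⟩
    unfold lv
    simp only [abs_eq_max_neg]
    omega
  · have e : cir (cx, cy) n i = (cx - n + (i - 2 * n), cy - n) := by
      unfold cir
      rw [if_neg h1, if_pos hi]
    rw [e]
    refine ⟨?_, Or.inr rfl⟩
    unfold lv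
    simp only [abs_eq_max_neg]
    omega

/-- The values of the potentials at the corners of the circle. -/
theorem corners {F : Set Edg} {c : Vtx} {a b rc t n : ℕ} {σ τ : St} {T T' : ℕ} (hr : St_restr)
    (hFl : St_FLUX) (hab : a < b) (harc : a < rc) (htrc : 2 * t ≤ rc) (hσ : InLeg F c a b σ T)
    (hSW : CfSW c rc t (Exm F σ T)) (hNE : CfNE c rc t (Exm F τ T'))
    {hv hf : Vtx → ZMod 2} {x : ZMod 2} (hx : ∀ s, 0 < s → s < T → hv (orb F σ s).1 = x)
    (hpot : ∀ ρ : St, 2 * (a : ℤ) < lf c (face ρ) → lf c (face ρ) < 2 * (b : ℤ) →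
        hv ρ.1 + hf (face ρ) = al F σ T ρ + al F τ T' ρ) (hn1 : rc + 2 < n) (hn2 : n + 2 < b) :
    hv (c.1 + n, c.2 - n) = x ∧ hv (c.1 - n, c.2 + n) = x + 1 := by
  have key := hFl F c a b n 0 (4 * n) σ T hv hf x (by omega) (by omega) (by omega) (by omega) hσ hx
    ?_ ?_
  · have e1 : cir c n (4 * n) = (c.1 + n, c.2 - n) := by
      have := cir_south c n (c.1 + n) (by omega) le_rfl
      have e2 : (c.1 + n - c.1 + 3 * n : ℤ).toNat = 4 * n := by omega
      rwa [e2] at this
    have e3 : cir c n 0 = (c.1 - n, c.2 + n) := by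
      have := cir_west c n (c.2 + n) (by omega) le_rfl
      have e2 : (c.2 + n - (c.2 + n) : ℤ).toNat = 0 := by omega
      rwa [e2] at this
    rw [e1, e3] at key
    exact key
  · intro e he h1 h2
    have h3 := hSW e he (by omega)
    obtain ⟨ex, ey, eb⟩ := e
    obtain ⟨cx, cy⟩ := c
    cases eb
    · rw [src_mk] at h1 h3
      rw [tgt_false] at h2
      unfold lv at h1 h2
      simp only [abs_eq_max_neg] at h1 h2 h3
      have hex : ex = cx - n := by omega
      have hey1 : cy - n ≤ ey := by omega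
      have hey2 : ey + 1 ≤ cy + n := by omega
      refine ⟨(cy + n - (ey + 1)).toNat, Nat.zero_le _, by omega, Or.inr ⟨?_, ?_⟩⟩
      · rw [tgt_false, hex]
        exact (cir_west (cx, cy) n (ey + 1) (by simp only; omega) (by simp only; omega)).symm
      · rw [src_mk, hex]
        have e1 : (cy + n - (ey + 1)).toNat + 1 = (cy + n - ey).toNat := by omega
        rw [e1]
        exact (cir_west (cx, cy) n ey (by simp only; omega) (by simp only; omega)).symm
    · rw [src_mk] at h1 h3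
      rw [tgt_true] at h2
      unfold lv at h1 h2
      simp only [abs_eq_max_neg] at h1 h2 h3
      have hey : ey = cy - n := by omega
      have hex1 : cx - n ≤ ex := by omega
      have hex2 : ex + 1 ≤ cx + n := by omega
      refine ⟨(ex - cx + 3 * n).toNat, Nat.zero_le _, by omega, Or.inl ⟨?_, ?_⟩⟩
      · rw [src_mk, hey]
        exact (cir_south (cx, cy) n ex (by simp only; omega) (by simp only; omega)).symm
      · rw [tgt_true, hey]
        have e1 : (ex - cx + 3 * n).toNat + 1 = (ex + 1 - cx + 3 * n).toNat := by omega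
        rw [e1]
        exact (cir_south (cx, cy) n (ex + 1) (by simp only; omega) (by simp only; omega)).symm
  · rintro ρ ⟨i, -, hi, hρ⟩
    obtain ⟨k1, k2⟩ := cir_mem c n i hi
    rw [← hρ] at k1 k2
    have k3 := cor c ρ
    have z1 : al F τ T' ρ = 0 := al_zero fun s hs he =>
      offNE hNE (v := ρ.1) (by omega) (by omega) hs (by rw [he])
    rw [hpot ρ (by omega) (by omega), al_b2 hr hab hσ (by omega), z1, add_zero]

/-- The potential of the faces. -/
theorem main (hr : St_restr) (hoR : St_oRestr) (hLk : St_LkOut) (hFl : St_FLUX) {F : Set Edg}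
    {c : Vtx} {a b rc t : ℕ} {σ τ : St} {T T' : ℕ} (harc : a < rc) (htrc : 2 * t ≤ rc)
    (hrcb : rc + 10 < b) (hσ : InLeg F c a b σ T) (hτ : OutLeg F c a b τ T')
    (hSW : CfSW c rc t (Exm F σ T)) (hNE : CfNE c rc t (Exm F τ T')) :
    ∃ (hf : Vtx → ZMod 2) (x : ZMod 2), (∀ p, InSE c rc t b p → hf p = x) ∧
      (∀ q, InNW c rc t b q → hf q = x + 1) ∧
      (∀ ρ : St, ae ρ ∈ RegO c rc t b → ae ρ ∉ Exm F σ T → ae ρ ∉ F →
        hf (face ρ) = hf (face (rt ρ))) ∧
      ∀ f, hf f = x + 1 → ∀ e ∈ Exm F σ T, e ∈ RegO c rc t b → (dsrc e = f ∨ dtgt e = f) →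
        ∃ s, 0 < s ∧ s < T ∧ face (orb F σ s) = f := by
  classical
  have hab : a < b := by omega
  obtain ⟨hv, hf, x, hx, hpot⟩ := pots hr hoR hLk hab hσ hτ
  -- free vertices
  have hfree : ∀ v : Vtx, (rc : ℤ) < lv c v → lv c v < b →
      (v.1 < c.1 - t ∨ v.2 < c.2 - t) → (c.1 + t + 1 < v.1 ∨ c.2 + t + 1 < v.2) →
      ∀ q : Q4, hv v = hf (face (v, q)) := by
    intro v h1 h2 h3 h4 q
    have k1 := cor c (v, q)
    simp only at k1
    have k2 := hpot (v, q) (by omega) (by omega)
    have z1 : al F σ T (v, q) = 0 :=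
      al_zero (fun s hs he => offSW hSW h1 h4 hs (by rw [he]))
    have z2 : al F τ T' (v, q) = 0 :=
      al_zero (fun s hs he => offNE hNE h1 h3 hs (by rw [he]))
    rw [z1, z2, add_zero] at k2
    exact (zero_cases k2).symm
  -- the value at `p`
  have hvp : ∀ p, InSE c rc t b p → hv p = x := by
    rintro p ⟨p1, p2, p3, p4⟩
    obtain ⟨n, hn⟩ : ∃ n : ℕ, (n : ℤ) = lv c p := ⟨(lv c p).toNat, Int.toNat_of_nonneg (by omega)⟩
    have k1 := (corners (n := n) hr hFl hab harc htrc hσ hSW hNE hx hpot (by omega)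
      (by omega)).1
    rw [← k1]
    obtain ⟨px, py⟩ := p
    obtain ⟨cx, cy⟩ := c
    simp only at p1 p2 k1 ⊢
    have hn' := hn
    unfold lv at hn'
    simp only [abs_eq_max_neg] at hn'
    by_cases hs : py = cy - n
    · have e1 := line_h (hv := hv) (hf := hf) (y := py) (cx + n - px).toNat px ?_
      · have e2 : px + (((cx + n - px).toNat : ℕ) : ℤ) = cx + n := by omega
        rw [e2] at e1
        rw [e1, hs]
      · intro j g1 g2 r
        have e3 : lv ((cx, cy) : Vtx) (j, py) = n := by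
          unfold lv
          simp only [abs_eq_max_neg]
          omega
        exact hfree (j, py) (by rw [e3]; omega) (by rw [e3]; omega) (by simp only; omega)
          (by simp only; omega) r
    · have hpx : px = cx + n := by omega
      have e1 := line_v (hv := hv) (hf := hf) (x := px) (py - (cy - n)).toNat (cy - n) ?_
      · have e2 : cy - (n : ℤ) + (((py - (cy - n)).toNat : ℕ) : ℤ) = py := by omega
        rw [e2] at e1
        rw [← e1, hpx]
      · intro j g1 g2 r
        have e3 : lv ((cx, cy) : Vtx) (px, j) = n := by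
          unfold lv
          simp only [abs_eq_max_neg]
          omega
        exact hfree (px, j) (by rw [e3]; omega) (by rw [e3]; omega) (by simp only; omega)
          (by simp only; omega) r
  -- the value at `q`
  have hvq : ∀ q, InNW c rc t b q → hv q = x + 1 := by
    rintro q ⟨q1, q2, q3, q4⟩
    obtain ⟨n, hn⟩ : ∃ n : ℕ, (n : ℤ) = lv c q := ⟨(lv c q).toNat, Int.toNat_of_nonneg (by omega)⟩
    have k1 := (corners (n := n) hr hFl hab harc htrc hσ hSW hNE hx hpot (by omega)
      (by omega)).2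
    rw [← k1]
    obtain ⟨qx, qy⟩ := q
    obtain ⟨cx, cy⟩ := c
    simp only at q1 q2 k1 ⊢
    have hn' := hn
    unfold lv at hn'
    simp only [abs_eq_max_neg] at hn'
    by_cases hs : qy = cy + n
    · have e1 := line_h (hv := hv) (hf := hf) (y := qy) (qx - (cx - n)).toNat (cx - n) ?_
      · have e2 : cx - (n : ℤ) + (((qx - (cx - n)).toNat : ℕ) : ℤ) = qx := by omega
        rw [e2] at e1
        rw [← e1, hs]
      · intro j g1 g2 r
        have e3 : lv ((cx, cy) : Vtx) (j, qy) = n := by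
          unfold lv
          simp only [abs_eq_max_neg]
          omega
        exact hfree (j, qy) (by rw [e3]; omega) (by rw [e3]; omega) (by simp only; omega)
          (by simp only; omega) r
    · have hqx : qx = cx - n := by omega
      have e1 := line_v (hv := hv) (hf := hf) (x := qx) (cy + n - qy).toNat qy ?_
      · have e2 : qy + (((cy + n - qy).toNat : ℕ) : ℤ) = cy + n := by omega
        rw [e2] at e1
        rw [e1, hqx]
      · intro j g1 g2 r
        have e3 : lv ((cx, cy) : Vtx) (qx, j) = n := by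
          unfold lv
          simp only [abs_eq_max_neg]
          omega
        exact hfree (qx, j) (by rw [e3]; omega) (by rw [e3]; omega) (by simp only; omega)
          (by simp only; omega) r
  have hfp : ∀ p, InSE c rc t b p → hf p = x := by
    intro p hp
    rw [← hvp p hp]
    obtain ⟨p1, p2, p3, p4⟩ := hp
    exact (hfree p (by omega) (by omega) (by omega) (by omega) .ne).symm
  have hfq : ∀ q, InNW c rc t b q → hf q = x + 1 := by
    intro q hq
    rw [← hvq q hq]
    obtain ⟨q1, q2, q3, q4⟩ := hq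
    exact (hfree q (by omega) (by omega) (by omega) (by omega) .ne).symm
  -- the edges of the region
  have hreg : ∀ ρ : St, ae ρ ∈ RegO c rc t b → ((2 * (a : ℤ) < lf c (face ρ) ∧
      lf c (face ρ) < 2 * (b : ℤ)) ∧ (2 * (a : ℤ) < lf c (face (rt ρ)) ∧
      lf c (face (rt ρ)) < 2 * (b : ℤ))) ∧ ∀ s < T', (orb F τ s).1 ≠ ρ.1 := by
    rintro ρ ⟨h1, h2, h3⟩
    have k1 := tgt_or (ae ρ)
    have k2 := TL.lv_edge c (ae ρ)
    have k3 : lv c (src (ae ρ)) - 1 ≤ lv c ρ.1 ∧ lv c ρ.1 ≤ lv c (src (ae ρ)) + 1 ∧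
        (ρ.1.1 < c.1 - t ∨ ρ.1.2 < c.2 - t) := by
      rcases p2_ends ρ with ⟨e1, e2⟩ | ⟨e1, e2⟩
      · rw [e1] at h3 ⊢
        omega
      · rw [e2] at k1 k2
        refine ⟨by omega, by omega, ?_⟩
        rcases k1 with k1 | k1 <;> rw [k1] <;> simp only <;> omega
    have k4 := cor c ρ
    have k5 := cor_rt c ρ
    refine ⟨⟨⟨by omega, by omega⟩, by omega, by omega⟩, fun s hs => ?_⟩
    exact offNE hNE (by omega) k3.2.2 hs
  -- potentials across the free closed edges
  have hcross : ∀ ρ : St, ae ρ ∈ RegO c rc t b → ae ρ ∉ Exm F σ T → ae ρ ∉ F →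
      hf (face ρ) = hf (face (rt ρ)) := by
    intro ρ h1 h2 h3
    obtain ⟨⟨h4, h5⟩, h6⟩ := hreg ρ h1
    have k1 := hpot ρ h4.1 h4.2
    have k2 := hpot (rt ρ) h5.1 h5.2
    rw [p2_rt_fst] at k2
    have z1 : al F σ T ρ = 0 := al_zero (fun s hs he => h2 (mem_Exm.2 ⟨s, hs, by rw [he]⟩))
    have z2 : al F τ T' ρ = 0 := al_zero (fun s hs he => h6 s hs (by rw [he]))
    have z3 : al F τ T' (rt ρ) = 0 := al_zero (fun s hs he => h6 s hs (by rw [he, p2_rt_fst]))
    have z4 : al F σ T (rt ρ) = 0 := by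
      refine al_zero fun s hs he => ?_
      rcases Nat.eq_zero_or_pos s with h0 | h0
      · rw [h0, orb_zero] at he
        rw [← he] at h5
        have := hσ.st
        omega
      · obtain ⟨r, rfl⟩ : ∃ r, s = r + 1 := ⟨s - 1, by omega⟩
        rw [orb_succ, ← nxt_closed h3] at he
        have := (nxt_bij F).1 he
        exact h2 (mem_Exm.2 ⟨r, by omega, by rw [this]⟩)
    rw [z1, z2, add_zero] at k1
    rw [z3, z4, add_zero] at k2
    rw [zero_cases k1, zero_cases k2]
  refine ⟨hf, x, hfp, hfq, hcross, ?_⟩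
  intro f ih2 e heE he2 hee
  obtain ⟨s, hsT, rfl⟩ := mem_Exm.1 heE
  obtain ⟨⟨h4, h5⟩, h6⟩ := hreg _ he2
  have hs0 : 0 < s := by
    rcases Nat.eq_zero_or_pos s with h0 | h0
    · rw [h0, orb_zero] at h4
      have := hσ.st
      omega
    · exact h0
  have hff : face (orb F σ s) = f ∨ face (rt (orb F σ s)) = f := by
    rcases p2_dends (orb F σ s) with ⟨e1, e2⟩ | ⟨e1, e2⟩ <;> rw [e1, e2] at hee
    · exact hee
    · exact hee.symm
  rcases hff with g | g
  · exact ⟨s, hs0, hsT, g⟩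
  · have k2 := hpot (rt (orb F σ s)) h5.1 h5.2
    have z1 : al F τ T' (rt (orb F σ s)) = 0 :=
      al_zero (fun r hr' he => h6 r hr' (by rw [he, p2_rt_fst]))
    rw [p2_rt_fst, hx s hs0 hsT, g, ih2, z1, add_zero, al_b2 hr hab hσ h5.2] at k2
    by_cases hex : ∃ s', 0 < s' ∧ s' < T ∧ orb F σ s' = rt (orb F σ s)
    · obtain ⟨s', g1, g2, g3⟩ := hex
      exact ⟨s', g1, g2, by rw [g3, g]⟩
    · exfalso
      rw [b2_not_of hex, ← add_assoc, z2s, zero_add] at k2
      exact one_ne_zero k2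

/-- paths of free closed edges keep the potential -/
theorem keep {F : Set Edg} {A B : Set Edg} {hf : Vtx → ZMod 2}
    (h : ∀ ρ : St, ae ρ ∈ A → ae ρ ∉ B → ae ρ ∉ F → hf (face ρ) = hf (face (rt ρ))) {f g : Vtx}
    (hp : DReach ((Fᶜ ∩ A) \ B) f g) : hf g = hf f := by
  induction hp with
  | refl => rfl
  | @tail g g' _ hstep ih =>
    obtain ⟨e, ⟨⟨he1, he2⟩, he3⟩, hee⟩ := hstep
    obtain ⟨ρ, rfl⟩ := exists_ae e
    have k1 := h ρ he2 he3 he1
    rw [← ih]
    rcases p2_dends ρ with ⟨e1, e2⟩ | ⟨e1, e2⟩ <;> rw [e1, e2] at hee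
    · rcases hee with ⟨g1, g2⟩ | ⟨g1, g2⟩
      · rw [← g1, ← g2, k1]
      · rw [← g1, ← g2, k1]
    · rcases hee with ⟨g1, g2⟩ | ⟨g1, g2⟩
      · rw [← g1, ← g2, k1]
      · rw [← g1, ← g2, k1]

end Pool.Agent.N948.IX.X13

namespace Pool.Agent.N948.IX

open H974 H12S Finset H984P H342P Pool.Agent.W92.DP X5 Bas N1 H984P.SideAux

/-- The first examined edge on a free dual path from the upper left has a left face of the inward
crossing on the side of the path. -/
def St_HITf : Prop := ∀ (F : Set Edg) (c q f : Vtx) (a b rc t : ℕ) (σ τ : St) (T T' : ℕ),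
  1 ≤ a → a < rc → 2 * t ≤ rc → rc + 10 < b → InLeg F c a b σ T → OutLeg F c a b τ T' →
  Disjoint (Exm F σ T) (Exm F τ T') → CfSW c rc t (Exm F σ T) → CfNE c rc t (Exm F τ T') →
  InNW c rc t b q → DReach ((Fᶜ ∩ RegO c rc t b) \ ↑(Exm F σ T)) q f →
  ∀ e ∈ Exm F σ T, e ∈ RegO c rc t b → (dsrc e = f ∨ dtgt e = f) →
  ∃ s, 0 < s ∧ s < T ∧ face (orb F σ s) = f

theorem hitf (_hB : St_basic) (_hoB : St_oBasic) (hr : St_restr) (hoR : St_oRestr)
    (hLk : St_LkOut) (hFl : St_FLUX) : St_HITf := by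
  intro F c q f a b rc t σ τ T T' _ harc htrc hrcb hσ hτ _ hSW hNE hq hpath
  obtain ⟨hf, x, -, hfq, hcross, hhit⟩ := X13.main hr hoR hLk hFl harc htrc hrcb hσ hτ hSW hNE
  refine hhit f ?_
  rw [X13.keep (B := ↑(Exm F σ T)) (fun ρ h1 h2 h3 => hcross ρ h1 (fun h => h2 (mem_coe.2 h)) h3)
    hpath]
  exact hfq q hq

theorem hitd (_hB : St_basic) (_hoB : St_oBasic) (hr : St_restr) (hoR : St_oRestr)
    (hLk : St_LkOut) (hFl : St_FLUX) : St_HITd := by
  intro F G c p q a b rc t σ τ T T' _ harc htrc hrcb hσ hτ _ hSW hNE hp hq hFG hpath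
  obtain ⟨hf, x, hfp, hfq, hcross, hhit⟩ := X13.main hr hoR hLk hFl harc htrc hrcb hσ hτ hSW hNE
  -- follow the path
  have hmain : ∀ f, DReach (Gᶜ ∩ RegO c rc t b) q f →
      (∃ s, 0 < s ∧ s < T ∧ DReach ((Fᶜ ∩ RegO c rc t b) \ ↑(Exm F σ T)) q
        (face (orb F σ s))) ∨ DReach ((Fᶜ ∩ RegO c rc t b) \ ↑(Exm F σ T)) q f := by
    intro f hf'
    induction hf' with
    | refl => exact Or.inr (DReach.refl _ _)
    | @tail f f' _ hstep ih =>
      rcases ih with ih | ih1
      · exact Or.inl ih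
      obtain ⟨e, ⟨he1, he2⟩, hee⟩ := hstep
      by_cases heE : e ∈ Exm F σ T
      · -- the path has hit the crossing
        left
        obtain ⟨s, hs0, hsT, hs⟩ := hhit f (by
          rw [X13.keep (B := ↑(Exm F σ T))
            (fun ρ h1 h2 h3 => hcross ρ h1 (fun h => h2 (mem_coe.2 h)) h3) ih1]
          exact hfq q hq) e heE he2 (by
            rcases hee with ⟨g1, -⟩ | ⟨-, g1⟩
            · exact Or.inl g1
            · exact Or.inr g1)
        exact ⟨s, hs0, hsT, by rw [hs]; exact ih1⟩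
      · -- a free edge
        right
        have heF : e ∉ F := by
          rw [hFG e he2 heE]
          exact he1
        exact ih1.trans (DAdj.reach ⟨e, ⟨⟨heF, he2⟩, fun h => heE (mem_coe.1 h)⟩, hee⟩)
  rcases hmain p hpath with h | h
  · exact h
  · exfalso
    have k1 := X13.keep (B := ↑(Exm F σ T))
      (fun ρ h1 h2 h3 => hcross ρ h1 (fun h => h2 (mem_coe.2 h)) h3) h
    rw [hfp p hp, hfq q hq] at k1
    exact ne_add_one x k1

end Pool.Agent.N948.IX
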