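import Pool.Agent.N948.IX.Ex0
import Pool.Agent.N948.IX.C6
import Pool.Agent.W52.DPTwo

/-!
# Project XD, X15 (helper55): the two-point bound
-/

set_option autoImplicit false

namespace Pool.Agent.N948.IX

open H974 H906.Cyl H12S Finset H984P H342P H389NS
open Pool.Agent.W92.DP
open Pool.Agent.W52.DPInd (okhalf mem_core4)
open Pool.Agent.W52.DPTwo (blk_SA sd_spec)
open H984N (Dm sd)

namespace X15

open C6

theorem GeF_blk (c : Vtx) (a b : ℕ) : GeF c a b ⊆ blk c b := by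
  unfold GeF blk
  exact Finset.filter_subset _ _

/-- restriction of a pair of crossings to a smaller annulus -/
theorem IO_mono (hR : St_restr) {n : ℕ} {c : Vtx} {A B a b : ℕ} (hAa : A ≤ a) (hab : a < b)
    (hbB : b ≤ B) {F : Set Edg} (h : IO n c A B F) : IO n c a b F := by
  obtain ⟨σ, T, τ, U, h1, h2, h3⟩ := h
  obtain ⟨s, hs1, hs2⟩ := (hR F c A B σ T (by omega) h1).2.2.1 b (by omega) hbB
  obtain ⟨T', hT1, hT2⟩ := (hR F c A b (orb F σ s) (T - s) (by omega) hs2).2.1 a hAa hab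
  obtain ⟨U', hU1, hU2⟩ := out_first (by omega : A < b) hbB h2
  obtain ⟨t, ht1, ht2⟩ := out_last hAa hab hU2
  refine ⟨orb F σ s, T', orb F τ t, U' - t, hT2, ht2, ?_⟩
  intro e he e' he'
  refine h3 e ?_ e' ?_
  · obtain ⟨k, hk, rfl⟩ := mem_Exm.1 he
    exact mem_Exm.2 ⟨k + s, by omega, by rw [orb_add]⟩
  · obtain ⟨k, hk, rfl⟩ := mem_Exm.1 he'
    exact mem_Exm.2 ⟨k + t, by omega, by rw [orb_add]⟩

theorem E5_IO {M M' B N a L m : ℕ} {v : Vtx} {F : Finset Edg} (h : E5 M M' B N a L m v F) :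
    IO 10 v a (16 * L * m - 1) (↑F : Set Edg) := by
  obtain ⟨σ, τ, T, T', G, h1, -, -⟩ := h
  exact ⟨σ, T, τ, T', h1.i, h1.o, fun e he e' he' => (h1.sp e he e' he').1⟩

theorem IO_local (hB : St_basic) {n : ℕ} {c : Vtx} {a b : ℕ} (hab : a < b) {T : Finset Edg}
    (hT : GeF c a b ⊆ T) (F : Finset Edg) :
    IO n c a b (↑F : Set Edg) ↔ IO n c a b (↑(F ∩ T) : Set Edg) := by
  have h : (↑F : Set Edg) ∩ Ge c a b = (↑(F ∩ T) : Set Edg) ∩ Ge c a b := by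
    ext e
    simp only [Finset.coe_inter, Set.mem_inter_iff, Finset.mem_coe]
    constructor
    · rintro ⟨h1, h2⟩
      exact ⟨⟨h1, hT (mem_GeF.2 h2)⟩, h2⟩
    · rintro ⟨⟨h1, _⟩, h2⟩
      exact ⟨h1, h2⟩
  exact ⟨IO_congr hB hab h, IO_congr hB hab h.symm⟩

theorem lv_tri (v w x : Vtx) : sd v w ≤ lv v x + lv w x := by
  unfold sd lv
  have h1 := le_max_left |x.1 - v.1| |x.2 - v.2|
  have h2 := le_max_right |x.1 - v.1| |x.2 - v.2|
  have h3 := le_max_left |x.1 - w.1| |x.2 - w.2|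
  have h4 := le_max_right |x.1 - w.1| |x.2 - w.2|
  refine max_le ?_ ?_
  · have : |v.1 - w.1| ≤ |x.1 - v.1| + |x.1 - w.1| := by
      have := abs_sub_le v.1 x.1 w.1
      rw [abs_sub_comm v.1 x.1] at this
      exact this
    linarith
  · have : |v.2 - w.2| ≤ |x.2 - v.2| + |x.2 - w.2| := by
      have := abs_sub_le v.2 x.2 w.2
      rw [abs_sub_comm v.2 x.2] at this
      exact this
    linarith

theorem lv_tri' (v w x : Vtx) : lv v x ≤ sd v w + lv w x := by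
  unfold sd lv
  have h1 := le_max_left |v.1 - w.1| |v.2 - w.2|
  have h2 := le_max_right |v.1 - w.1| |v.2 - w.2|
  have h3 := le_max_left |x.1 - w.1| |x.2 - w.2|
  have h4 := le_max_right |x.1 - w.1| |x.2 - w.2|
  refine max_le ?_ ?_
  · have := abs_sub_le x.1 w.1 v.1
    rw [abs_sub_comm w.1 v.1] at this
    linarith
  · have := abs_sub_le x.2 w.2 v.2
    rw [abs_sub_comm w.2 v.2] at this
    linarith

theorem disj1 {v w : Vtx} {a ρ : ℕ} (h : (2 * ρ : ℕ) < sd v w) :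
    Disjoint (GeF v a ρ) (GeF w a ρ) := by
  rw [Finset.disjoint_left]
  intro e h1 h2
  have g1 := (mem_GeF.1 h1).1.2
  have g2 := (mem_GeF.1 h2).1.2
  have g3 := lv_tri v w (src e)
  push_cast at h
  linarith

theorem disj2 {v w : Vtx} {a ρ k b : ℕ} (h : sd v w + ρ < k) :
    Disjoint (GeF w a ρ) (GeF v k b) := by
  rw [Finset.disjoint_left]
  intro e h1 h2
  have g1 := (mem_GeF.1 h1).1.2
  have g2 := (mem_GeF.1 h2).1.1
  have g3 := lv_tri' v w (src e)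
  linarith

/-! ### real numbers -/

theorem sum_bound {C : ℝ} (hC : 0 < C) {a ρ K m b : ℕ} (hρ : K ≤ 4 * ρ) (hK : 1 ≤ K) (hm : 1 ≤ m)
    (hmb : 2 * m ≤ b) {q1 q2 q3 : ℝ} (h1 : q1 ≤ C * ((a : ℝ) / ρ) ^ (5/4 : ℝ))
    (h2 : q2 ≤ C * ((a : ℝ) / ρ) ^ (5/4 : ℝ))
    (h3 : q3 ≤ C * (((2 * K : ℕ) : ℝ) / (b : ℝ)) ^ (5/4 : ℝ))
    (h02 : 0 ≤ q2) (h03 : 0 ≤ q3) :
    q1 * (q2 * q3) ≤ C ^ 3 * ((4 * (a : ℝ)) ^ (5/4 : ℝ)) ^ 2 *
      ((K : ℝ) ^ (-(5/4) : ℝ) * (m : ℝ) ^ (-(5/4) : ℝ)) := by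
  have hK' : (1 : ℝ) ≤ K := by exact_mod_cast hK
  have hm' : (1 : ℝ) ≤ m := by exact_mod_cast hm
  have hb' : 2 * (m : ℝ) ≤ b := by exact_mod_cast hmb
  have hρ' : (K : ℝ) ≤ 4 * ρ := by exact_mod_cast hρ
  have hρ0 : (0 : ℝ) < ρ := by linarith
  have ha0 : (0 : ℝ) ≤ a := Nat.cast_nonneg a
  have e1 : ((a : ℝ) / ρ) ^ (5/4 : ℝ) ≤ (4 * (a : ℝ)) ^ (5/4 : ℝ) / (K : ℝ) ^ (5/4 : ℝ) := by
    rw [← Real.div_rpow (by positivity) (by positivity)]
    apply Real.rpow_le_rpow (by positivity) _ (by norm_num)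
    rw [div_le_div_iff₀ hρ0 (by linarith)]
    nlinarith
  have e2 : (((2 * K : ℕ) : ℝ) / (b : ℝ)) ^ (5/4 : ℝ) ≤
      (K : ℝ) ^ (5/4 : ℝ) / (m : ℝ) ^ (5/4 : ℝ) := by
    rw [← Real.div_rpow (by positivity) (by positivity)]
    apply Real.rpow_le_rpow (by positivity) _ (by norm_num)
    rw [div_le_div_iff₀ (by linarith) (by linarith)]
    push_cast
    nlinarith
  rw [Real.rpow_neg (by positivity), Real.rpow_neg (by positivity)]
  have k0 : 0 < (K : ℝ) ^ (5/4 : ℝ) := Real.rpow_pos_of_pos (by linarith) _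
  have l0 : 0 < (m : ℝ) ^ (5/4 : ℝ) := Real.rpow_pos_of_pos (by linarith) _
  have p0 : 0 ≤ (4 * (a : ℝ)) ^ (5/4 : ℝ) := Real.rpow_nonneg (by positivity) _
  set kk := (K : ℝ) ^ (5/4 : ℝ)
  set ll := (m : ℝ) ^ (5/4 : ℝ)
  set pp := (4 * (a : ℝ)) ^ (5/4 : ℝ)
  have g1 := h1.trans (mul_le_mul_of_nonneg_left e1 hC.le)
  have g2 := h2.trans (mul_le_mul_of_nonneg_left e1 hC.le)
  have g3 := h3.trans (mul_le_mul_of_nonneg_left e2 hC.le)
  calc q1 * (q2 * q3) ≤ (C * (pp / kk)) * ((C * (pp / kk)) * (C * (kk / ll))) := by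
        apply mul_le_mul g1 (mul_le_mul g2 g3 h03 (by positivity)) (by positivity) (by positivity)
    _ = C ^ 3 * pp ^ 2 * (kk⁻¹ * ll⁻¹) := by
        field_simp

theorem small_bound {C : ℝ} (hC : 0 < C) {a K K0 m b : ℕ} (hK : K ≤ K0) (hK1 : 1 ≤ K) (hm : 1 ≤ m)
    (hmb : m ≤ b) {q : ℝ} (h : q ≤ C * ((a : ℝ) / (b : ℝ)) ^ (5/4 : ℝ)) :
    q ≤ C * (a : ℝ) ^ (5/4 : ℝ) * (K0 : ℝ) ^ (5/4 : ℝ) *
      ((K : ℝ) ^ (-(5/4) : ℝ) * (m : ℝ) ^ (-(5/4) : ℝ)) := by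
  have hm' : (1 : ℝ) ≤ m := by exact_mod_cast hm
  have hb' : (m : ℝ) ≤ b := by exact_mod_cast hmb
  have hK' : (K : ℝ) ≤ K0 := by exact_mod_cast hK
  have hK1' : (1 : ℝ) ≤ K := by exact_mod_cast hK1
  have ha0 : (0 : ℝ) ≤ a := Nat.cast_nonneg a
  have e2 : ((a : ℝ) / (b : ℝ)) ^ (5/4 : ℝ) ≤ (a : ℝ) ^ (5/4 : ℝ) / (m : ℝ) ^ (5/4 : ℝ) := by
    rw [← Real.div_rpow ha0 (by positivity)]
    apply Real.rpow_le_rpow (by positivity) _ (by norm_num)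
    rw [div_le_div_iff₀ (by linarith) (by linarith)]
    nlinarith
  have e3 : (K : ℝ) ^ (5/4 : ℝ) ≤ (K0 : ℝ) ^ (5/4 : ℝ) :=
    Real.rpow_le_rpow (by linarith) hK' (by norm_num)
  rw [Real.rpow_neg (by positivity), Real.rpow_neg (by positivity)]
  have k0 : 0 < (K : ℝ) ^ (5/4 : ℝ) := Real.rpow_pos_of_pos (by linarith) _
  have l0 : 0 < (m : ℝ) ^ (5/4 : ℝ) := Real.rpow_pos_of_pos (by linarith) _
  have a0 : 0 ≤ (a : ℝ) ^ (5/4 : ℝ) := Real.rpow_nonneg ha0 _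
  set kk := (K : ℝ) ^ (5/4 : ℝ)
  set ll := (m : ℝ) ^ (5/4 : ℝ)
  set pp := (K0 : ℝ) ^ (5/4 : ℝ)
  set aa := (a : ℝ) ^ (5/4 : ℝ)
  have e4 : 1 ≤ pp * kk⁻¹ := by
    rw [← div_eq_mul_inv, le_div_iff₀ k0, one_mul]
    exact e3
  calc q ≤ C * (aa / ll) := h.trans (mul_le_mul_of_nonneg_left e2 hC.le)
    _ = C * aa * (1 * ll⁻¹) := by rw [one_mul, div_eq_mul_inv, mul_assoc]
    _ ≤ C * aa * ((pp * kk⁻¹) * ll⁻¹) := by
        apply mul_le_mul_of_nonneg_left _ (by positivity)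
        exact mul_le_mul_of_nonneg_right e4 (by positivity)
    _ = C * aa * pp * (kk⁻¹ * ll⁻¹) := by ring

end X15

open X15 C6 in
/-- The two-point upper bound. -/
theorem two5 (hB : St_basic) (hR : St_restr) (hU : St_IOup) : St_TWO5 := by
  obtain ⟨C, hC, hA⟩ := hU
  intro M M' B N a L hL ha
  refine ⟨C ^ 3 * ((4 * (a : ℝ)) ^ (5/4 : ℝ)) ^ 2 +
    C * (a : ℝ) ^ (5/4 : ℝ) * ((8 * (a + 4) : ℕ) : ℝ) ^ (5/4 : ℝ), 64 + a, ?_, by omega, ?_⟩
  · have : (2:ℝ) ≤ a := by exact_mod_cast ha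
    positivity
  intro m hm v hv w hw S hS
  have hmL : m * 2 ≤ L * m := by rw [mul_comm L m]; exact Nat.mul_le_mul_left m hL
  have e16 : 16 * L * m = 16 * (L * m) := by ring
  obtain ⟨U, hUd⟩ : ∃ U : ℕ, U = L * m := ⟨_, rfl⟩
  rw [← hUd] at hv hw hS hmL e16
  have hk0 : 0 ≤ sd v w := le_max_of_le_left (abs_nonneg _)
  obtain ⟨K, hK⟩ := Int.eq_ofNat_of_zero_le hk0
  have hsp := sd_spec hK
  have hv' := mem_core4.1 hv
  have hw' := mem_core4.1 hw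
  have hKU : K ≤ 2 * U := by omega
  have hbv : ∀ a' N : ℕ, N ≤ 16 * U → GeF v a' N ⊆ S := fun a' N hN =>
    (GeF_blk v a' N).trans ((blk_SA hv (by omega)).trans hS)
  have hbw : ∀ a' N : ℕ, N ≤ 16 * U → GeF w a' N ⊆ S := fun a' N hN =>
    (GeF_blk w a' N).trans ((blk_SA hw (by omega)).trans hS)
  obtain ⟨b, hb⟩ : ∃ b : ℕ, b = 16 * L * m - 1 := ⟨_, rfl⟩
  have hbU : b = 16 * U - 1 := by rw [hb, e16]
  have hE : ∀ (x : Vtx) (F : Finset Edg), E5 M M' B N a L m x F → IO 10 x a b (↑F : Set Edg) := by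
    intro x F h
    rw [hb]
    exact E5_IO h
  have hmm : 0 < (m : ℝ) ^ (-(5/4) : ℝ) :=
    Real.rpow_pos_of_pos (by exact_mod_cast (by omega : 0 < m)) _
  have haR : (2:ℝ) ≤ a := by exact_mod_cast ha
  by_cases hK3 : K ≤ 8 * (a + 4)
  · have hmx : (max (sd v w) 1) = ((max K 1 : ℕ) : ℤ) := by rw [hK]; push_cast; rfl
    rw [hmx]
    have h1 : PQ (1/2) S (fun F => E5 M M' B N a L m v F ∧ E5 M M' B N a L m w F) ≤
        PQ (1/2) S (fun F => IO 10 v a b (↑F : Set Edg)) :=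
      Pr_mono okhalf (fun F _ hF => hE v F hF.1)
    have h2 := h1.trans (hA v a b S (by omega) (by omega) (hbv _ _ (by omega)))
    have h3 := small_bound hC (a := a) (K := max K 1) (K0 := 8 * (a + 4)) (m := m) (b := b)
      (by omega) (by omega) (by omega) (by omega) h2
    have h4 : (((max K 1 : ℕ) : ℤ) : ℝ) = ((max K 1 : ℕ) : ℝ) := by norm_cast
    rw [h4]
    have hm0 : 0 < ((max K 1 : ℕ) : ℝ) ^ (-(5/4) : ℝ) := by
      apply Real.rpow_pos_of_pos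
      have : 0 < max K 1 := by omega
      exact_mod_cast this
    have h5 : 0 ≤ C ^ 3 * ((4 * (a : ℝ)) ^ (5/4 : ℝ)) ^ 2 *
        (((max K 1 : ℕ) : ℝ) ^ (-(5/4) : ℝ) * (m : ℝ) ^ (-(5/4) : ℝ)) := by positivity
    linarith
  · obtain ⟨ρ, hρ1, hρ2, hρ3⟩ : ∃ ρ : ℕ, 2 * ρ < K ∧ K ≤ 4 * ρ ∧ a < ρ :=
      ⟨(K - 1) / 2, by omega, by omega, by omega⟩
    have hmx : (max (sd v w) 1) = (K : ℤ) := by rw [hK]; omega
    rw [hmx]
    have hab : a < b := by omega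
    have hKb : 2 * K < b := by omega
    have d12 : Disjoint (GeF v a ρ) (GeF w a ρ) := disj1 (by rw [hK]; exact_mod_cast hρ1)
    have d13 : Disjoint (GeF v a ρ) (GeF v (2 * K) b) := GeF_disj (by omega)
    have d23 : Disjoint (GeF w a ρ) (GeF v (2 * K) b) := disj2 (by rw [hK]; push_cast; omega)
    have s1 : GeF v a ρ ⊆ S := hbv _ _ (by omega)
    have s2 : GeF w a ρ ⊆ S := hbw _ _ (by omega)
    have s3 : GeF v (2 * K) b ⊆ S := hbv _ _ (by omega)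
    have i23 : PQ (1/2) S (fun F => IO 10 w a ρ (↑F : Set Edg) ∧
          IO 10 v (2 * K) b (↑F : Set Edg)) =
        PQ (1/2) S (fun F => IO 10 w a ρ (↑F : Set Edg)) *
          PQ (1/2) S (fun F => IO 10 v (2 * K) b (↑F : Set Edg)) :=
      Pr_indep s2 s3 d23 (fun F _ => IO_local hB hρ3 Finset.Subset.rfl F)
        (fun F _ => IO_local hB hKb Finset.Subset.rfl F)
    have i1 : PQ (1/2) S (fun F => IO 10 v a ρ (↑F : Set Edg) ∧
        (IO 10 w a ρ (↑F : Set Edg) ∧ IO 10 v (2 * K) b (↑F : Set Edg))) =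
        PQ (1/2) S (fun F => IO 10 v a ρ (↑F : Set Edg)) *
          PQ (1/2) S (fun F => IO 10 w a ρ (↑F : Set Edg) ∧
            IO 10 v (2 * K) b (↑F : Set Edg)) := by
      apply Pr_indep s1 (Finset.union_subset s2 s3)
        (Finset.disjoint_union_right.2 ⟨d12, d13⟩)
        (fun F _ => IO_local hB hρ3 Finset.Subset.rfl F)
      intro F _
      rw [IO_local hB hρ3 (T := GeF w a ρ ∪ GeF v (2 * K) b) Finset.subset_union_left F,
        IO_local hB hKb (T := GeF w a ρ ∪ GeF v (2 * K) b) Finset.subset_union_right F]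
    have h1 : PQ (1/2) S (fun F => E5 M M' B N a L m v F ∧ E5 M M' B N a L m w F) ≤
        PQ (1/2) S (fun F => IO 10 v a ρ (↑F : Set Edg) ∧
          (IO 10 w a ρ (↑F : Set Edg) ∧ IO 10 v (2 * K) b (↑F : Set Edg))) :=
      Pr_mono okhalf (fun F _ hF =>
        ⟨IO_mono hR le_rfl hρ3 (by omega) (hE v F hF.1),
          IO_mono hR le_rfl hρ3 (by omega) (hE w F hF.2),
          IO_mono hR (by omega) hKb le_rfl (hE v F hF.1)⟩)
    rw [i1, i23] at h1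
    have h2 := sum_bound hC (a := a) (ρ := ρ) (K := K) (m := m) (b := b) hρ2 (by omega) (by omega)
      (by omega) (hA v a ρ S (by omega) hρ3 s1) (hA w a ρ S (by omega) hρ3 s2)
      (hA v (2 * K) b S (by omega) hKb s3)
      (Pr_nonneg okhalf _ _) (Pr_nonneg okhalf _ _)
    have h3 := h1.trans h2
    have h7 : (((K : ℕ) : ℤ) : ℝ) = (K : ℝ) := by norm_cast
    rw [h7]
    have hK0 : 0 < (K : ℝ) ^ (-(5/4) : ℝ) := by
      apply Real.rpow_pos_of_pos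
      have : 0 < K := by omega
      exact_mod_cast this
    have h5 : 0 ≤ C * (a : ℝ) ^ (5/4 : ℝ) * ((8 * (a + 4) : ℕ) : ℝ) ^ (5/4 : ℝ) *
        ((K : ℝ) ^ (-(5/4) : ℝ) * (m : ℝ) ^ (-(5/4) : ℝ)) := by
      positivity
    linarith

end Pool.Agent.N948.IX
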