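import Pool.Agent.N948.IX.Ex0
import Pool.Agent.W347.DPGood

/-!
# Project XD (helper948): second moment for the good vertices (after `Pool.Agent.W347.DPGood`)
-/

set_option autoImplicit false

namespace Pool.Agent.N948.IX

open H974 H973 H12S H934E Finset H389NS H984P H984N
open Pool.Agent.W92.DP (core4 SA)

namespace X16

open Pool.Agent.W347.DPGood (t5_two t5_max_nonneg t5_max_pos t5_card)

/-! ### Number of vertices and energy -/

/-- the number of vertices as a sum of indicators -/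
theorem t5_N (M M' B N a L m : ℕ) (F : Finset Edg) :
    ((V5 M M' B N a L m F).card : ℝ) = ∑ v ∈ core4 (L * m : ℕ), ind (E5 M M' B N a L m v F) := by
  classical
  unfold V5
  rw [Finset.card_filter]
  push_cast
  apply Finset.sum_congr rfl
  intro v _
  by_cases hv : E5 M M' B N a L m v F
  · rw [if_pos hv, ind_of hv]
  · rw [if_neg hv, ind_not_of hv]

/-- the energy as a sum of indicators -/
theorem t5_En (t : ℝ) (M M' B N a L m : ℕ) (F : Finset Edg) :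
    En5 t M M' B N a L m F = ∑ v ∈ core4 (L * m : ℕ), ∑ w ∈ core4 (L * m : ℕ),
      ((max (sd v w) 1 : ℤ) : ℝ) ^ (-t) * ind (E5 M M' B N a L m v F ∧ E5 M M' B N a L m w F) := by
  classical
  unfold En5 V5
  rw [Finset.sum_filter]
  apply Finset.sum_congr rfl
  intro v _
  by_cases hv : E5 M M' B N a L m v F
  · rw [if_pos hv, Finset.sum_filter]
    apply Finset.sum_congr rfl
    intro w _
    by_cases hw : E5 M M' B N a L m w F
    · rw [if_pos hw, ind_of ⟨hv, hw⟩, mul_one]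
    · rw [if_neg hw, ind_not_of (fun h => hw h.2), mul_zero]
  · rw [if_neg hv]
    symm
    apply Finset.sum_eq_zero
    intro w _
    rw [ind_not_of (fun h => hv h.1), mul_zero]

theorem t5_sq (M M' B N a L m : ℕ) (F : Finset Edg) :
    ((V5 M M' B N a L m F).card : ℝ) * ((V5 M M' B N a L m F).card : ℝ) = En5 0 M M' B N a L m F := by
  unfold En5
  simp only [neg_zero, Real.rpow_zero, Finset.sum_const, nsmul_eq_mul, mul_one]

theorem t5_En_nonneg (t : ℝ) (M M' B N a L m : ℕ) (F : Finset Edg) : 0 ≤ En5 t M M' B N a L m F :=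
  Finset.sum_nonneg (fun _ _ => Finset.sum_nonneg
    (fun _ _ => Real.rpow_nonneg (t5_max_nonneg _) _))

/-- expectation of the energy -/
theorem t5_EE (h2 : St_TWO5) {t : ℝ} (ht : 0 ≤ t) (ht1 : t < 3/4) (M M' B N a L : ℕ) (hL : 2 ≤ L)
    (ha : 2 ≤ a) : ∃ (C : ℝ) (m0 : ℕ), 0 < C ∧ 64 ≤ m0 ∧ ∀ m : ℕ, m0 ≤ m → ∀ S : Finset Edg, SA (L * m : ℕ) ⊆ S →
      EE S (En5 t M M' B N a L m) ≤ C * (m : ℝ) ^ (3/2 - t) := by
  obtain ⟨C, m0, hC, hm0, hT⟩ := h2 M M' B N a L hL ha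
  have hb : 0 < 1 - (t + 5/4) / 2 := by linarith
  have hL0 : (0:ℝ) < L := by
    have : 0 < L := by omega
    exact_mod_cast this
  refine ⟨9 * (L : ℝ) ^ 2 * C * ((1 + 4 / (1 - (t + 5/4) / 2)) ^ 2 * (L : ℝ) ^ (2 - (t + 5/4))),
    m0, by positivity, hm0, ?_⟩
  intro m hmm S hS
  have hm : 64 ≤ m := hm0.trans hmm
  have hm0 : (0:ℝ) < m := by
    have : 0 < m := by omega
    exact_mod_cast this
  have hU1 : (1 : ℤ) ≤ ((L * m : ℕ) : ℤ) := by
    have : 0 < L * m := Nat.mul_pos (by omega) (by omega)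
    exact_mod_cast this
  have hUr : (((L * m : ℕ) : ℤ) : ℝ) = (L : ℝ) * m := by push_cast; ring
  have hU0 : (0:ℝ) < (L : ℝ) * m := mul_pos hL0 hm0
  have hU1r : (1:ℝ) ≤ (L : ℝ) * m := by
    rw [← hUr]; exact_mod_cast hU1
  have e1 : EE S (En5 t M M' B N a L m) = ∑ v ∈ core4 (L * m : ℕ), ∑ w ∈ core4 (L * m : ℕ),
      ((max (sd v w) 1 : ℤ) : ℝ) ^ (-t) * Q S (fun F => E5 M M' B N a L m v F ∧ E5 M M' B N a L m w F) := by
    have e0 : EE S (En5 t M M' B N a L m) = EE S (fun F => ∑ v ∈ core4 (L * m : ℕ), ∑ w ∈ core4 (L * m : ℕ),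
      ((max (sd v w) 1 : ℤ) : ℝ) ^ (-t) * ind (E5 M M' B N a L m v F ∧ E5 M M' B N a L m w F)) := by
      congr 1
      funext F
      exact t5_En t M M' B N a L m F
    rw [e0]
    unfold H934E.EE
    rw [Ex_sum]
    apply Finset.sum_congr rfl
    intro v _
    rw [Ex_sum]
    apply Finset.sum_congr rfl
    intro w _
    rw [Ex_mul_left]
    rfl
  rw [e1]
  have h2 : ∀ v ∈ core4 (L * m : ℕ), ∑ w ∈ core4 (L * m : ℕ),
      ((max (sd v w) 1 : ℤ) : ℝ) ^ (-t) * Q S (fun F => E5 M M' B N a L m v F ∧ E5 M M' B N a L m w F) ≤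
      C * (m : ℝ) ^ (-(5/4) : ℝ) *
        ((1 + 4 / (1 - (t + 5/4) / 2)) ^ 2 * ((L : ℝ) * m) ^ (2 - (t + 5/4))) := by
    intro v hv
    have i1 := t5_two (a := t + 5/4) (by linarith) (by linarith) ((L * m : ℕ) : ℤ) hU1 v hv
    rw [hUr] at i1
    refine le_trans ?_ (mul_le_mul_of_nonneg_left i1
      (mul_nonneg hC.le (Real.rpow_nonneg hm0.le _)))
    rw [Finset.mul_sum]
    apply Finset.sum_le_sum
    intro w hw
    have i2 := hT m hmm v hv w hw S hS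
    have e2 : ((max (sd v w) 1 : ℤ) : ℝ) ^ (-(t + 5/4)) =
        ((max (sd v w) 1 : ℤ) : ℝ) ^ (-t) * ((max (sd v w) 1 : ℤ) : ℝ) ^ (-(5/4) : ℝ) := by
      rw [← Real.rpow_add (t5_max_pos _)]
      congr 1
      ring
    rw [e2]
    calc _ ≤ ((max (sd v w) 1 : ℤ) : ℝ) ^ (-t) *
          (C * ((max (sd v w) 1 : ℤ) : ℝ) ^ (-(5/4) : ℝ) * (m : ℝ) ^ (-(5/4) : ℝ)) :=
          mul_le_mul_of_nonneg_left i2 (Real.rpow_nonneg (t5_max_nonneg _) _)
      _ = _ := by ring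
  refine (Finset.sum_le_sum h2).trans ?_
  rw [Finset.sum_const, nsmul_eq_mul, Pool.Agent.W347.DPGood.t5_card (by omega), hUr]
  have e3 : (m : ℝ) ^ 2 * ((m : ℝ) ^ (-(5/4) : ℝ) * (m : ℝ) ^ (2 - (t + 5/4))) =
      (m : ℝ) ^ (3/2 - t) := by
    rw [← Real.rpow_add hm0, ← Real.rpow_natCast, ← Real.rpow_add hm0]
    congr 1
    push_cast
    ring
  have e4 : ((L : ℝ) * m) ^ (2 - (t + 5/4)) = (L : ℝ) ^ (2 - (t + 5/4)) * (m : ℝ) ^ (2 - (t + 5/4)) :=
    Real.mul_rpow hL0.le hm0.le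
  have h4 : (2 * ((L : ℝ) * m) + 1) ^ 2 ≤ 9 * ((L : ℝ) * m) ^ 2 := by nlinarith
  have h5 : 0 ≤ C * (m : ℝ) ^ (-(5/4) : ℝ) *
        ((1 + 4 / (1 - (t + 5/4) / 2)) ^ 2 * ((L : ℝ) * m) ^ (2 - (t + 5/4))) := by
    have := Real.rpow_nonneg hm0.le (-(5/4) : ℝ)
    have := Real.rpow_nonneg hU0.le (2 - (t + 5/4))
    positivity
  calc (2 * ((L : ℝ) * m) + 1) ^ 2 * (C * (m : ℝ) ^ (-(5/4) : ℝ) *
        ((1 + 4 / (1 - (t + 5/4) / 2)) ^ 2 * ((L : ℝ) * m) ^ (2 - (t + 5/4))))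
      ≤ (9 * ((L : ℝ) * m) ^ 2) * (C * (m : ℝ) ^ (-(5/4) : ℝ) *
        ((1 + 4 / (1 - (t + 5/4) / 2)) ^ 2 * ((L : ℝ) * m) ^ (2 - (t + 5/4)))) :=
        mul_le_mul_of_nonneg_right h4 h5
    _ = 9 * (L : ℝ) ^ 2 * C * ((1 + 4 / (1 - (t + 5/4) / 2)) ^ 2 * (L : ℝ) ^ (2 - (t + 5/4))) *
        ((m : ℝ) ^ 2 * ((m : ℝ) ^ (-(5/4) : ℝ) * (m : ℝ) ^ (2 - (t + 5/4)))) := by rw [e4]; ring
    _ = _ := by rw [e3]

end X16

open X16 in
/-- **The good event has positive probability.** -/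
theorem good5 (h1 : St_ONE5) (h2 : St_TWO5) : St_GOOD5 := by
  intro t ht ht1
  obtain ⟨L, M0, B, a, M, M', N, r0, c, hL, hM, hB, ha, hM1, hM1', hN, hr0, hc, hone⟩ := h1
  obtain ⟨C0, m1, hC0, hm1, hE0⟩ := t5_EE h2 (t := 0) le_rfl (by norm_num) M M' B N a L hL ha
  obtain ⟨Ct, m2, hCt, hm2, hEt⟩ := t5_EE h2 (t := t) ht.le ht1 M M' B N a L hL ha
  have hL0 : (0:ℝ) < L := by
    have : 0 < L := by omega
    exact_mod_cast this
  obtain ⟨A, hA⟩ : ∃ A : ℝ, A = 4 * (L : ℝ) ^ 2 * c := ⟨_, rfl⟩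
  have hA0 : 0 < A := by rw [hA]; positivity
  set p : ℝ := A ^ 2 / (4 * C0) / 2 with hp
  have hp0 : 0 < p := by positivity
  refine ⟨L, M0, B, a, M, M', N, max r0 (max m1 m2), A / 2, Ct / p, min p 1, hL, hM, hB, ha, hM1,
    hM1', hN, le_trans hr0 (le_max_left _ _), by positivity, by positivity,
    lt_min hp0 one_pos, min_le_right _ _, ?_⟩
  intro r S hr hS
  refine (min_le_left _ _).trans ?_
  obtain ⟨m, hm⟩ : ∃ m : ℕ, m = M0 * r := ⟨_, rfl⟩
  have hr1 : r0 ≤ r := (le_max_left _ _).trans hr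
  have hr2 : m1 ≤ r := (le_trans (le_max_left _ _) (le_max_right _ _)).trans hr
  have hr3 : m2 ≤ r := (le_trans (le_max_right _ _) (le_max_right _ _)).trans hr
  have hrm : r ≤ m := by
    rw [hm]
    calc r = 1 * r := by ring
      _ ≤ M0 * r := Nat.mul_le_mul_right _ (by omega)
  have hm64 : 64 ≤ m := (hm1.trans hr2).trans hrm
  have hone' := hone r S hr1
  rw [← hm] at hone' hS ⊢
  have hone'' := hone' hS
  have hm0 : (0:ℝ) < m := by
    have : 0 < m := by omega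
    exact_mod_cast this
  have hU1 : (1 : ℤ) ≤ ((L * m : ℕ) : ℤ) := by
    have : 0 < L * m := Nat.mul_pos (by omega) (by omega)
    exact_mod_cast this
  have hUr : (((L * m : ℕ) : ℤ) : ℝ) = (L : ℝ) * m := by push_cast; ring
  have hU1r : (1:ℝ) ≤ (L : ℝ) * m := by
    rw [← hUr]; exact_mod_cast hU1
  have hU : 0 < (m : ℝ) ^ (3/4 : ℝ) := Real.rpow_pos_of_pos hm0 _
  have hU2 : (m : ℝ) ^ (3/4 : ℝ) * (m : ℝ) ^ (3/4 : ℝ) = (m : ℝ) ^ (3/2 - (0:ℝ)) := by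
    rw [← Real.rpow_add hm0]; norm_num
  set X : Finset Edg → ℝ := fun F => ((V5 M M' B N a L m F).card : ℝ) with hX
  have hX0 : ∀ F, 0 ≤ X F := fun F => Nat.cast_nonneg _
  -- first moment
  have l1 : A * (m : ℝ) ^ (3/4 : ℝ) ≤ EE S X := by
    have e1 : EE S X = ∑ v ∈ core4 (L * m : ℕ), Q S (fun F => E5 M M' B N a L m v F) := by
      have e0 : EE S X = EE S (fun F => ∑ v ∈ core4 (L * m : ℕ), ind (E5 M M' B N a L m v F)) := by
        congr 1
        funext F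
        rw [hX]
        simp only
        rw [t5_N]
      rw [e0]
      unfold H934E.EE
      rw [Ex_sum]
      rfl
    rw [e1]
    have i1 : ∀ v ∈ core4 (L * m : ℕ), c * (m : ℝ) ^ (-(5/4) : ℝ) ≤
        Q S (fun F => E5 M M' B N a L m v F) := by
      intro v hv
      exact hone'' v hv
    refine le_trans ?_ (Finset.sum_le_sum i1)
    rw [Finset.sum_const, nsmul_eq_mul, Pool.Agent.W347.DPGood.t5_card (by omega), hUr]
    have e3 : (m : ℝ) ^ 2 * (m : ℝ) ^ (-(5/4) : ℝ) = (m : ℝ) ^ (3/4 : ℝ) := by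
      rw [← Real.rpow_natCast, ← Real.rpow_add hm0]
      congr 1
      norm_num
    rw [← e3]
    have h4 : 4 * ((L : ℝ) * m) ^ 2 ≤ (2 * ((L : ℝ) * m) + 1) ^ 2 := by nlinarith
    have h5 : 0 ≤ c * (m : ℝ) ^ (-(5/4) : ℝ) := by
      have := Real.rpow_nonneg hm0.le (-(5/4) : ℝ)
      positivity
    calc A * ((m : ℝ) ^ 2 * (m : ℝ) ^ (-(5/4) : ℝ)) =
        4 * ((L : ℝ) * m) ^ 2 * (c * (m : ℝ) ^ (-(5/4) : ℝ)) := by rw [hA]; ring
      _ ≤ _ := mul_le_mul_of_nonneg_right h4 h5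
  -- second moment
  have l2 : EE S (fun F => X F * X F) ≤ C0 * (m : ℝ) ^ (3/2 - (0:ℝ)) := by
    refine le_trans ?_ (hE0 m (hr2.trans hrm) S hS)
    unfold H934E.EE
    apply Ex_mono okhalf
    intro F _
    rw [← t5_sq]
  have k := paley (S := S) (f := X) (fun F _ => hX0 F)
    (m := A * (m : ℝ) ^ (3/4 : ℝ)) (V := C0 * (m : ℝ) ^ (3/2 - (0:ℝ)))
    (by positivity) (by positivity) l1 l2
  have e3 : (A * (m : ℝ) ^ (3/4 : ℝ)) ^ 2 /
      (4 * (C0 * (m : ℝ) ^ (3/2 - (0:ℝ)))) = 2 * p := by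
    rw [← hU2, hp]
    field_simp
  rw [e3] at k
  -- energy
  have hU3 : 0 < (m : ℝ) ^ (3/2 - t) := Real.rpow_pos_of_pos hm0 _
  have i2 := markov (S := S) (f := En5 t M M' B N a L m)
    (fun F _ => t5_En_nonneg t M M' B N a L m F)
    (t := Ct / p * (m : ℝ) ^ (3/2 - t)) (by positivity)
  have i3 : EE S (En5 t M M' B N a L m) / (Ct / p * (m : ℝ) ^ (3/2 - t)) ≤ p := by
    rw [div_le_iff₀ (by positivity)]
    refine (hEt m (hr3.trans hrm) S hS).trans (le_of_eq ?_)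
    field_simp
  have i4 : Q S (fun F => A * (m : ℝ) ^ (3/4 : ℝ) / 2 ≤ X F) ≤
      Q S (Gd5 (A / 2) (Ct / p) t M M' B N a L m) +
      Q S (fun F => Ct / p * (m : ℝ) ^ (3/2 - t) ≤ En5 t M M' B N a L m F) := by
    refine le_trans ?_ (Pr_or_le okhalf S (Gd5 (A / 2) (Ct / p) t M M' B N a L m) _)
    apply Q_mono
    intro F _ hF
    by_cases h5 : En5 t M M' B N a L m F ≤ Ct / p * (m : ℝ) ^ (3/2 - t)
    · left
      refine ⟨?_, h5⟩
      rw [hX] at hF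
      simp only at hF
      refine le_trans (le_of_eq ?_) hF
      ring
    · exact Or.inr (le_of_not_ge h5)
  have i5 : p ≤ Q S (Gd5 (A / 2) (Ct / p) t M M' B N a L m) := by linarith
  exact i5

end Pool.Agent.N948.IX
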