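import Pool.Agent.N948.IX.Ex0
import Pool.Agent.N948.IX.Bas
import Pool.Agent.W52.DPInd

/-!
# X17: independence of the scales (helper37)
-/

set_option autoImplicit false

namespace Pool.Agent.N948.IX.X17

open H974 H973 H906.Cyl H12S Finset H389NS H984P H342P H984N
open Pool.Agent.W92.DP Pool.Agent.W52.DPInd Pool.Agent.N948.IX

/-! ### Crossings only depend on the edges of the annulus -/

theorem exm_eq {F F' : Set Edg} {σ : St} {T : ℕ} (h : ∀ s ≤ T, orb F' σ s = orb F σ s) :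
    Exm F' σ T = Exm F σ T := by
  ext e
  rw [mem_Exm, mem_Exm]
  constructor
  · rintro ⟨s, hs, he⟩
    exact ⟨s, hs, by rw [← h s hs.le]; exact he⟩
  · rintro ⟨s, hs, he⟩
    exact ⟨s, hs, by rw [h s hs.le]; exact he⟩

theorem orb_in (hB : St_basic) {F F' : Set Edg} {c : Vtx} {a b : ℕ} {σ : St} {T : ℕ} (hab : a < b)
    (hL : InLeg F c a b σ T) (hF : ∀ e ∈ Ge c a b, (e ∈ F ↔ e ∈ F')) :
    ∀ s ≤ T, orb F' σ s = orb F σ s := by
  obtain ⟨-, -, -, h, -⟩ := hB F c a b σ T hab hL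
  exact Pool.Agent.N948.IX.congr F F' σ T (fun s hs => hF _ (h s hs))

theorem orb_out (hoB : St_oBasic) {F F' : Set Edg} {c : Vtx} {a b : ℕ} {σ : St} {T : ℕ}
    (hab : a < b) (hL : OutLeg F c a b σ T) (hF : ∀ e ∈ Ge c a b, (e ∈ F ↔ e ∈ F')) :
    ∀ s ≤ T, orb F' σ s = orb F σ s := by
  obtain ⟨-, -, -, h, -⟩ := hoB F c a b σ T hab hL
  exact Pool.Agent.N948.IX.congr F F' σ T (fun s hs => hF _ (h s hs))

theorem gio_local (hB : St_basic) (hoB : St_oBasic) {M M' B N : ℕ} {c : Vtx} {a b rs rc t : ℕ}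
    {F F' : Set Edg} {σ τ : St} {T T' : ℕ} (hab : a < b)
    (hF : ∀ e ∈ Ge c a b, (e ∈ F ↔ e ∈ F')) (h : GIO M M' B N c a b rs rc t F σ τ T T') :
    GIO M M' B N c a b rs rc t F' σ τ T T' ∧ Exm F' σ T = Exm F σ T ∧
      Exm F' τ T' = Exm F τ T' := by
  have h1 := orb_in hB hab h.i hF
  have h2 := orb_out hoB hab h.o hF
  have e1 := exm_eq h1
  have e2 := exm_eq h2
  refine ⟨⟨?_, ?_, ?_, ?_, ?_, ?_, ?_, ?_, ?_⟩, e1, e2⟩
  · refine ⟨h.i.pos, h.i.st, ?_, ?_⟩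
    · intro s hs hs'
      rw [h1 s hs'.le]
      exact h.i.mid s hs hs'
    · rw [h1 T le_rfl]
      exact h.i.en
  · refine ⟨h.o.pos, h.o.st, ?_, ?_⟩
    · intro s hs hs'
      rw [h2 s hs'.le]
      exact h.o.mid s hs hs'
    · rw [h2 T' le_rfl]
      exact h.o.en
  · intro s t hst ht
    rw [h1 s (hst.trans ht), h1 t ht]
    exact h.li s t hst ht
  · intro s t hst ht
    rw [h2 s (hst.trans ht), h2 t ht]
    exact h.lo s t hst ht
  · intro s t hst ht
    rw [h1 s (hst.trans ht), h1 t ht]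
    exact h.ci s t hst ht
  · intro s t hst ht
    rw [h2 s (hst.trans ht), h2 t ht]
    exact h.co s t hst ht
  · rw [e1, e2]
    exact h.sp
  · rw [e1]
    exact h.si
  · rw [e2]
    exact h.so

/-! ### Geometry -/

theorem mem_SA {U : ℤ} {v : Vtx} (hv : v ∈ core4 U) {R : ℤ} (hR : R ≤ 16 * U) {e : Edg}
    (h1 : lv v (src e) ≤ R) (h2 : lv v (tgt e) ≤ R) : e ∈ SA U := by
  rw [mem_core4] at hv
  unfold SA
  rw [mem_ES, mem_HA, mem_HA]
  unfold lv at h1 h2
  have a1 := abs_le.mp ((le_max_left _ _).trans h1)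
  have a2 := abs_le.mp ((le_max_right _ _).trans h1)
  have a3 := abs_le.mp ((le_max_left _ _).trans h2)
  have a4 := abs_le.mp ((le_max_right _ _).trans h2)
  refine ⟨?_, ?_⟩ <;> omega

/-- the edges near a face -/
theorem near_face {v : Vtx} {e : Edg} {R : ℤ} {f : Vtx} (hf : dsrc e = f ∨ dtgt e = f)
    (h : lf v f < 2 * R) : lv v (src e) ≤ R ∧ lv v (tgt e) ≤ R := by
  obtain ⟨x, y, b⟩ := e
  obtain ⟨v1, v2⟩ := v
  unfold lf at h
  unfold lv
  have h1 := abs_lt.mp ((le_max_left _ _).trans_lt h)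
  have h2 := abs_lt.mp ((le_max_right _ _).trans_lt h)
  cases b
  · rw [dsrc_false, dtgt_mk] at hf
    rw [src_mk, tgt_false]
    rcases hf with hf | hf <;> subst hf <;> simp only at h1 h2 ⊢ <;>
      refine ⟨max_le (abs_le.mpr ⟨?_, ?_⟩) (abs_le.mpr ⟨?_, ?_⟩),
        max_le (abs_le.mpr ⟨?_, ?_⟩) (abs_le.mpr ⟨?_, ?_⟩)⟩ <;> omega
  · rw [dsrc_true, dtgt_mk] at hf
    rw [src_mk, tgt_true]
    rcases hf with hf | hf <;> subst hf <;> simp only at h1 h2 ⊢ <;>
      refine ⟨max_le (abs_le.mpr ⟨?_, ?_⟩) (abs_le.mpr ⟨?_, ?_⟩),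
        max_le (abs_le.mpr ⟨?_, ?_⟩) (abs_le.mpr ⟨?_, ?_⟩)⟩ <;> omega

/-! ### Local events -/

theorem oc_local {c : Vtx} {a b K : ℕ} {F F' : Set Edg}
    (h : ∀ e ∈ Ge c a b, (e ∈ F ↔ e ∈ F')) : OC c a b K F ↔ OC c a b K F' := by
  have h1 : F ∩ Ge c a b = F' ∩ Ge c a b := by
    ext e
    constructor
    · rintro ⟨h1, h2⟩
      exact ⟨(h e h2).mp h1, h2⟩
    · rintro ⟨h1, h2⟩
      exact ⟨(h e h2).mpr h1, h2⟩
  unfold OC
  rw [h1]

theorem tin_local {c : Vtx} {a b : ℕ} {F F' : Set Edg}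
    (h : ∀ e, (∃ f, (dsrc e = f ∨ dtgt e = f) ∧ Af c a b f) → (e ∈ F ↔ e ∈ F')) (f : Vtx) :
    TIn c a b F f ↔ TIn c a b F' f := by
  unfold TIn
  refine and_congr_right fun hf => exists_congr fun e => ?_
  constructor
  · rintro ⟨h1, h2⟩
    have : (dsrc e = f ∨ dtgt e = f) := h2.imp (fun h => h.1) (fun h => h.1)
    exact ⟨fun h3 => h1 ((h e ⟨f, this, hf⟩).mpr h3), h2⟩
  · rintro ⟨h1, h2⟩
    have : (dsrc e = f ∨ dtgt e = f) := h2.imp (fun h => h.1) (fun h => h.1)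
    exact ⟨fun h3 => h1 ((h e ⟨f, this, hf⟩).mp h3), h2⟩

theorem tout_local {c : Vtx} {a b : ℕ} {F F' : Set Edg}
    (h : ∀ e, (∃ f, (dsrc e = f ∨ dtgt e = f) ∧ Af c a b f) → (e ∈ F ↔ e ∈ F')) (f : Vtx) :
    TOut c a b F f ↔ TOut c a b F' f := by
  unfold TOut
  refine and_congr_right fun hf => exists_congr fun e => ?_
  constructor
  · rintro ⟨h1, h2⟩
    have : (dsrc e = f ∨ dtgt e = f) := h2.imp (fun h => h.1) (fun h => h.1)
    exact ⟨fun h3 => h1 ((h e ⟨f, this, hf⟩).mpr h3), h2⟩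
  · rintro ⟨h1, h2⟩
    have : (dsrc e = f ∨ dtgt e = f) := h2.imp (fun h => h.1) (fun h => h.1)
    exact ⟨fun h3 => h1 ((h e ⟨f, this, hf⟩).mp h3), h2⟩

theorem dc_local {c : Vtx} {a b K : ℕ} {F F' : Set Edg}
    (h : ∀ e, (∃ f, (dsrc e = f ∨ dtgt e = f) ∧ Af c a b f) → (e ∈ F ↔ e ∈ F')) :
    DC c a b K F ↔ DC c a b K F' := by
  have h1 : Fᶜ ∩ Gd c a b = F'ᶜ ∩ Gd c a b := by
    ext e
    constructor
    · rintro ⟨h1, h2⟩
      exact ⟨fun h3 => h1 ((h e ⟨_, Or.inl rfl, h2.1⟩).mpr h3), h2⟩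
    · rintro ⟨h1, h2⟩
      exact ⟨fun h3 => h1 ((h e ⟨_, Or.inl rfl, h2.1⟩).mp h3), h2⟩
  unfold DC
  rw [h1]
  simp only [tin_local h, tout_local h]

theorem cor_local {U : ℤ} (hU : 1 ≤ U) {c : Vtx} (hc : c ∈ core4 U) (G : Finset Edg) :
    Cor c U G ↔ Cor c U (G ∩ SA U) := by
  rw [mem_core4] at hc
  unfold Cor
  rw [← LRc_local (LRE_subset_RE.trans (RE_sub (by omega) (by omega) (by omega) (by omega)
      (by omega))),
    ← TBc_local (TBE_subset_RE.trans (RE_sub (by omega) (by omega) (by omega) (by omega)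
      (by omega))),
    ← TBc_local (TBE_subset_RE.trans (RE_sub (by omega) (by omega) (by omega) (by omega)
      (by omega))),
    ← DLR_local (S := SA U) (TBE_subset_RE.trans (RE_sub (by omega) (by omega) (by omega)
      (by omega) (by omega))),
    ← DTB_local (S := SA U) (LRE_subset_RE.trans (RE_sub (by omega) (by omega) (by omega)
      (by omega) (by omega))),
    ← DLR_local (S := SA U) (TBE_subset_RE.trans (RE_sub (by omega) (by omega) (by omega)
      (by omega) (by omega))),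
    ← DTB_local (S := SA U) (LRE_subset_RE.trans (RE_sub (by omega) (by omega) (by omega)
      (by omega) (by omega)))]

theorem qe_local {U : ℤ} (hU : 1 ≤ U) {c : Vtx} (hc : c ∈ core4 U) {a : ℕ}
    (ha : 72 * (a : ℤ) ≤ 16 * U) (G : Finset Edg) : QE a c U G ↔ QE a c U (G ∩ SA U) := by
  have e1 : ∀ e ∈ Ge c (9 * a) (72 * a), (e ∈ (↑G : Set Edg) ↔ e ∈ (↑(G ∩ SA U) : Set Edg)) := by
    intro e he
    have : e ∈ SA U := mem_SA hc (R := 72 * (a : ℤ)) ha (by have := he.1.2; push_cast at this; omega)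
      (by have := he.2.2; push_cast at this; omega)
    rw [Finset.mem_coe, Finset.mem_coe, Finset.mem_inter]
    exact ⟨fun h => ⟨h, this⟩, fun h => h.1⟩
  have e2 : ∀ e, (∃ f, (dsrc e = f ∨ dtgt e = f) ∧ Af c a (8 * a) f) →
      (e ∈ (↑G : Set Edg) ↔ e ∈ (↑(G ∩ SA U) : Set Edg)) := by
    rintro e ⟨f, hf, h⟩
    have h1 := near_face hf h.2
    have : e ∈ SA U := mem_SA hc (by push_cast; omega) h1.1 h1.2
    rw [Finset.mem_coe, Finset.mem_coe, Finset.mem_inter]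
    exact ⟨fun h => ⟨h, this⟩, fun h => h.1⟩
  unfold QE Gd2
  rw [oc_local e1, dc_local e2, ← cor_local hU hc]

theorem E5_local (hB : St_basic) (hoB : St_oBasic) {M M' B N a L m : ℕ}
    (hm : 1 ≤ L * m) (ha : 5 * a ≤ L * m) {v : Vtx}
    (hv : v ∈ core4 (L * m : ℕ)) (F : Finset Edg) :
    E5 M M' B N a L m v F ↔ E5 M M' B N a L m v (F ∩ SA (L * m : ℕ)) := by
  have e16 : 16 * L * m = 16 * (L * m) := by ring
  have hab : a < 16 * L * m - 1 := by omega
  have hU : (1 : ℤ) ≤ ((L * m : ℕ) : ℤ) := by exact_mod_cast hm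
  have ha' : 72 * (a : ℤ) ≤ 16 * ((L * m : ℕ) : ℤ) := by omega
  have hG : ∀ e ∈ Ge v a (16 * L * m - 1), e ∈ SA (L * m : ℕ) := by
    intro e he
    have h1 := he.1.2
    have h2 := he.2.2
    exact mem_SA hv (R := ((16 * L * m - 1 : ℕ) : ℤ)) (by omega) h1 h2
  have hF : ∀ e ∈ Ge v a (16 * L * m - 1),
      (e ∈ (↑F : Set Edg) ↔ e ∈ (↑(F ∩ SA (L * m : ℕ)) : Set Edg)) := by
    intro e he
    rw [Finset.mem_coe, Finset.mem_coe, Finset.mem_inter]
    exact ⟨fun h => ⟨h, hG e he⟩, fun h => h.1⟩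
  unfold E5
  constructor
  · rintro ⟨σ, τ, T, T', G, h1, h2, h3⟩
    obtain ⟨k1, k2, k3⟩ := gio_local hB hoB hab hF h1
    refine ⟨σ, τ, T, T', G ∩ SA (L * m : ℕ), k1, ?_, (qe_local hU hv ha' G).mp h3⟩
    rw [k2, k3]
    intro e he he'
    rw [Finset.mem_inter, Finset.mem_inter, h2 e he he']
  · rintro ⟨σ, τ, T, T', G, h1, h2, h3⟩
    obtain ⟨k1, k2, k3⟩ := gio_local hB hoB hab (fun e he => (hF e he).symm) h1
    refine ⟨σ, τ, T, T', (F \ SA (L * m : ℕ)) ∪ (G ∩ SA (L * m : ℕ)), k1, ?_, ?_⟩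
    · rw [k2, k3]
      intro e he he'
      have h4 := h2 e he he'
      rw [Finset.mem_inter] at h4
      rw [Finset.mem_union, Finset.mem_sdiff, Finset.mem_inter]
      by_cases h5 : e ∈ SA (L * m : ℕ)
      · constructor
        · intro h6
          exact Or.inr ⟨h4.mp ⟨h6, h5⟩, h5⟩
        · rintro (⟨_, h6⟩ | ⟨h6, _⟩)
          · exact absurd h5 h6
          · exact (h4.mpr h6).1
      · constructor
        · intro h6
          exact Or.inl ⟨h6, h5⟩
        · rintro (⟨h6, _⟩ | ⟨_, h6⟩)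
          · exact h6
          · exact absurd h6 h5
    · rw [qe_local hU hv ha']
      rw [qe_local hU hv ha'] at h3
      have : ((F \ SA (L * m : ℕ)) ∪ (G ∩ SA (L * m : ℕ))) ∩ SA (L * m : ℕ) =
          G ∩ SA (L * m : ℕ) := by
        ext e
        simp only [Finset.mem_inter, Finset.mem_union, Finset.mem_sdiff]
        tauto
      rw [this]
      exact h3

theorem V5_local (hB : St_basic) (hoB : St_oBasic) {M M' B N a L m : ℕ}
    (hm : 1 ≤ L * m) (ha : 5 * a ≤ L * m) (F : Finset Edg) :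
    V5 M M' B N a L m F = V5 M M' B N a L m (F ∩ SA (L * m : ℕ)) := by
  classical
  unfold V5
  apply Finset.filter_congr
  intro v hv
  exact E5_local hB hoB hm ha hv F

theorem Gd5_local (hB : St_basic) (hoB : St_oBasic) {c0 E0 t : ℝ} {M M' B N a L m : ℕ}
    (hm : 1 ≤ L * m) (ha : 5 * a ≤ L * m) (F : Finset Edg) :
    Gd5 c0 E0 t M M' B N a L m F ↔ Gd5 c0 E0 t M M' B N a L m (F ∩ SA (L * m : ℕ)) := by
  unfold Gd5 En5
  rw [← V5_local hB hoB hm ha F]

end Pool.Agent.N948.IX.X17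

namespace Pool.Agent.N948.IX

open H974 H973 H906.Cyl H12S Finset H389NS H984P H342P H984N
open Pool.Agent.W92.DP Pool.Agent.W52.DPInd

/-- Independence of the scales. -/
theorem ind5 (hB : St_basic) (hoB : St_oBasic) : St_IND5 := by
  intro p c0 E0 t M M' B N a L M0 r0 hp hL hM0 ha hr0 har hG J r
  induction J with
  | zero =>
    intro S _ _
    rw [pow_zero]
    exact Pr_le_one okhalf _ _
  | succ J ih =>
    intro S hr hS
    have hrj : ∀ j : ℕ, r0 ≤ 64 ^ j * r := fun j =>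
      hr.trans (Nat.le_mul_of_pos_left r (by positivity))
    have hmj : ∀ j : ℕ, r0 ≤ L * (M0 * (64 ^ j * r)) := fun j =>
      (hrj j).trans ((Nat.le_mul_of_pos_left _ (by omega)).trans
        (Nat.le_mul_of_pos_left _ (by omega)))
    have hm1 : ∀ j : ℕ, 1 ≤ L * (M0 * (64 ^ j * r)) := fun j => hr0.trans (hmj j)
    have hma : ∀ j : ℕ, 5 * a ≤ L * (M0 * (64 ^ j * r)) := fun j =>
      (by omega : 5 * a ≤ r0).trans (hmj j)
    have hUj : ∀ j : ℕ, (1 : ℤ) ≤ ((L * (M0 * (64 ^ j * r)) : ℕ) : ℤ) := by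
      intro j
      have := hm1 j
      omega
    set T : Finset Edg := (Finset.range J).biUnion
      (fun j => SA (L * (M0 * (64 ^ j * r)) : ℕ)) with hT
    have hTS : T ⊆ S := by
      rw [hT, Finset.biUnion_subset]
      intro j hj
      exact hS j (by have := Finset.mem_range.mp hj; omega)
    have hdis : Disjoint T (SA (L * (M0 * (64 ^ J * r)) : ℕ)) := by
      rw [hT, Finset.disjoint_biUnion_left]
      intro j hj
      have hj' := Finset.mem_range.mp hj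
      apply SA_disj (hUj j)
      have h1 : 64 ^ (j + 1) ≤ 64 ^ J := pow_le_pow_right₀ (by norm_num) hj'
      have h2 : 64 * (L * (M0 * (64 ^ j * r))) ≤ L * (M0 * (64 ^ J * r)) := by
        calc 64 * (L * (M0 * (64 ^ j * r))) = L * (M0 * (64 ^ (j + 1) * r)) := by ring
          _ ≤ L * (M0 * (64 ^ J * r)) :=
            Nat.mul_le_mul_left _ (Nat.mul_le_mul_left _ (Nat.mul_le_mul_right _ h1))
      exact_mod_cast h2
    have hA : ∀ F : Finset Edg, F ⊆ S →
        ((∀ j < J, ¬ Gd5 c0 E0 t M M' B N a L (M0 * (64 ^ j * r)) F) ↔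
        ∀ j < J, ¬ Gd5 c0 E0 t M M' B N a L (M0 * (64 ^ j * r)) (F ∩ T)) := by
      intro F _
      refine forall_congr' fun j => ?_
      refine forall_congr' fun hj => ?_
      have hsub : SA (L * (M0 * (64 ^ j * r)) : ℕ) ⊆ T := by
        rw [hT]
        exact Finset.subset_biUnion_of_mem (fun j => SA (L * (M0 * (64 ^ j * r)) : ℕ))
          (Finset.mem_range.mpr hj)
      rw [X17.Gd5_local hB hoB (hm1 j) (hma j) F, X17.Gd5_local hB hoB (hm1 j) (hma j) (F ∩ T),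
        Finset.inter_assoc, Finset.inter_eq_right.mpr hsub]
    have hB' : ∀ F : Finset Edg, F ⊆ S → (¬ Gd5 c0 E0 t M M' B N a L (M0 * (64 ^ J * r)) F ↔
        ¬ Gd5 c0 E0 t M M' B N a L (M0 * (64 ^ J * r))
          (F ∩ SA (L * (M0 * (64 ^ J * r)) : ℕ))) := by
      intro F _
      rw [← X17.Gd5_local hB hoB (hm1 J) (hma J) F]
    have h1 : PQ (1/2) S (fun F => ∀ j < J + 1,
          ¬ Gd5 c0 E0 t M M' B N a L (M0 * (64 ^ j * r)) F) =
        PQ (1/2) S (fun F => (∀ j < J, ¬ Gd5 c0 E0 t M M' B N a L (M0 * (64 ^ j * r)) F) ∧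
          ¬ Gd5 c0 E0 t M M' B N a L (M0 * (64 ^ J * r)) F) := by
      apply Pr_congr
      intro F _
      constructor
      · intro h2
        exact ⟨fun j hj => h2 j (by omega), h2 J (by omega)⟩
      · rintro ⟨h2, h3⟩ j hj
        rcases Nat.lt_or_ge j J with h4 | h4
        · exact h2 j h4
        · have : j = J := by omega
          subst this
          exact h3
    rw [h1]
    have h2 : PQ (1/2) S (fun F => (∀ j < J, ¬ Gd5 c0 E0 t M M' B N a L (M0 * (64 ^ j * r)) F) ∧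
          ¬ Gd5 c0 E0 t M M' B N a L (M0 * (64 ^ J * r)) F) =
        PQ (1/2) S (fun F => ∀ j < J, ¬ Gd5 c0 E0 t M M' B N a L (M0 * (64 ^ j * r)) F) *
          PQ (1/2) S (fun F => ¬ Gd5 c0 E0 t M M' B N a L (M0 * (64 ^ J * r)) F) :=
      Pr_indep hTS (hS J (by omega)) hdis hA hB'
    rw [h2, pow_succ]
    have h3 := ih S hr (fun j hj => hS j (by omega))
    have h4 : PQ (1/2) S (fun F => ¬ Gd5 c0 E0 t M M' B N a L (M0 * (64 ^ J * r)) F) ≤
        1 - p := by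
      have h5 : PQ (1/2) S (fun F => ¬ Gd5 c0 E0 t M M' B N a L (M0 * (64 ^ J * r)) F) =
        1 - PQ (1/2) S (Gd5 c0 E0 t M M' B N a L (M0 * (64 ^ J * r))) := Pr_not _ _
      rw [h5]
      have := hG (64 ^ J * r) S (hrj J) (hS J (by omega))
      linarith
    have h5 : 0 ≤ PQ (1/2) S (fun F => ¬ Gd5 c0 E0 t M M' B N a L (M0 * (64 ^ J * r)) F) :=
      Pr_nonneg okhalf _ _
    have h6 : (0 : ℝ) ≤ (1 - p) ^ J := pow_nonneg (by linarith) _
    exact mul_le_mul h3 h4 h5 h6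

end Pool.Agent.N948.IX
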