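import Pool.Agent.N948.IX.Six
import Pool.Agent.N948.IX.Bas
import Pool.Agent.N948.IX.N1

/-!
# An inward and an outward crossing between the same clusters

Let `G` be the configuration `F` in the annulus together with all the edges of the outer ring. The
orbit in `G` of the inward crossing stays next to the open cluster or next to the dual cluster, and its
potentials show that it contains all inward crossings. Author: helper521.
-/

set_option autoImplicit false

namespace Pool.Agent.N948.IX.X2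

open H974 H12S Finset H984P H342P Pool.Agent.W92.DP H984P.SideAux Bas

/-- the edges of the outer ring -/
def RB (c : Vtx) (b : ℕ) : Set Edg := {e | lv c (src e) = b ∧ lv c (tgt e) = b}

/-- the configuration with the outer ring -/
def GG (F : Set Edg) (c : Vtx) (a b : ℕ) : Set Edg := (F ∩ Ge c a b) ∪ RB c b

variable {F : Set Edg} {c : Vtx} {a b : ℕ}

lemma rb_ge (hab : a < b) {e : Edg} (h : e ∈ RB c b) : e ∈ Ge c a b := by
  obtain ⟨h1, h2⟩ := h
  have hab' : (a : ℤ) < b := by exact_mod_cast hab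
  unfold Ge
  rw [Set.mem_ofPred_eq, h1, h2]
  exact ⟨⟨hab'.le, le_rfl⟩, ⟨hab'.le, le_rfl⟩⟩

/-- crossing the ring -/
lemma ring_of {ρ : St} (h : lf c (face ρ) < 2 * (b : ℤ)) (h' : 2 * (b : ℤ) < lf c (face (rt ρ))) :
    ae ρ ∈ RB c b := by
  have h1 := cor c ρ
  have h2 := cor_mv c ρ
  have h3 := cor_rt c ρ
  have h4 := cor_mv_rt c ρ
  unfold RB
  rcases p2_ends ρ with ⟨e1, e2⟩ | ⟨e1, e2⟩ <;> rw [Set.mem_ofPred_eq, e1, e2] <;> omega

lemma ring_face {ρ : St} (h : ae ρ ∈ RB c b) : 2 * (b : ℤ) - 1 ≤ lf c (face ρ) ∧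
    2 * (b : ℤ) - 1 ≤ lf c (face (rt ρ)) := by
  have h1 := cor c ρ
  have h3 := cor_rt c ρ
  have h5 : lv c ρ.1 = b := by
    obtain ⟨h6, h7⟩ := h
    rcases p2_ends ρ with ⟨e1, e2⟩ | ⟨e1, e2⟩
    · rw [← e1]; exact h6
    · rw [← e2]; exact h7
  omega

lemma ring_out (hb : 1 ≤ b) {ρ : St} (h : ae ρ ∈ RB c b) (h' : lf c (face ρ) < 2 * (b : ℤ)) :
    2 * (b : ℤ) < lf c (face (rt ρ)) := by
  obtain ⟨h1, h2⟩ := h
  obtain ⟨⟨x, y⟩, q⟩ := ρ
  obtain ⟨cx, cy⟩ := c
  cases q <;> simp only [face_ne, face_nw, face_sw, face_se, rt_ne, rt_nw, rt_sw, rt_se, ae_ne,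
    ae_nw, ae_sw, ae_se, src_mk, tgt_true, tgt_false, lv, lf, abs_eq_max_neg] at h1 h2 h' ⊢ <;> omega

lemma in_out (hab : a < b) {ρ : St} (h : lf c (face ρ) < 2 * (a : ℤ)) :
    lf c (face (rt ρ)) < 2 * (b : ℤ) := by
  have h1 := cor c ρ
  have h3 := cor_rt c ρ
  omega

/-- a function constant along the ring -/
lemma ring_const {h : Vtx → ZMod 2} (hh : ∀ e ∈ RB c b, h (src e) = h (tgt e)) :
    ∀ v w, lv c v = b → lv c w = b → h v = h w := by
  have hor : ∀ y : ℤ, (y = c.2 + b ∨ y = c.2 - b) → ∀ x x' : ℤ,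
      (c.1 - b ≤ x ∧ x ≤ c.1 + b) → (c.1 - b ≤ x' ∧ x' ≤ c.1 + b) → h (x, y) = h (x', y) := by
    intro y hy x x' hx hx'
    refine line (fun x => c.1 - b ≤ x ∧ x ≤ c.1 + b) (by intros; omega) (fun x => h (x, y)) ?_
      x x' hx hx'
    intro z hz hz'
    have := hh (z, y, true) (by
      unfold RB lv
      simp only [Set.mem_ofPred_eq, src_mk, tgt_true, abs_eq_max_neg]
      omega)
    exact this
  have ver : ∀ x : ℤ, (x = c.1 + b ∨ x = c.1 - b) → ∀ y y' : ℤ,
      (c.2 - b ≤ y ∧ y ≤ c.2 + b) → (c.2 - b ≤ y' ∧ y' ≤ c.2 + b) → h (x, y) = h (x, y') := by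
    intro x hx y y' hy hy'
    refine line (fun y => c.2 - b ≤ y ∧ y ≤ c.2 + b) (by intros; omega) (fun y => h (x, y)) ?_
      y y' hy hy'
    intro z hz hz'
    have := hh (x, z, false) (by
      unfold RB lv
      simp only [Set.mem_ofPred_eq, src_mk, tgt_false, abs_eq_max_neg]
      omega)
    exact this
  have key : ∀ v, lv c v = b → h v = h (c.1 + b, c.2 + b) := by
    rintro ⟨x, y⟩ hv
    have h0 : (0 : ℤ) ≤ b := Nat.cast_nonneg b
    unfold lv at hv
    simp only [abs_eq_max_neg] at hv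
    have hc : ((y = c.2 + b) ∨ (y = c.2 - b)) ∨ ((x = c.1 + b) ∨ (x = c.1 - b)) := by omega
    have hx : c.1 - b ≤ x ∧ x ≤ c.1 + b := by omega
    have hy : c.2 - b ≤ y ∧ y ≤ c.2 + b := by omega
    rcases hc with (hc | hc) | (hc | hc)
    · rw [hc]
      exact hor _ (Or.inl rfl) _ _ hx (by omega)
    · rw [hc]
      exact (hor _ (Or.inr rfl) _ _ hx (by omega)).trans
        (ver (c.1 + b) (Or.inl rfl) _ _ (by omega) (by omega))
    · rw [hc]
      exact ver _ (Or.inl rfl) _ _ hy (by omega)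
    · rw [hc]
      exact (ver _ (Or.inr rfl) _ _ hy (by omega)).trans
        (hor (c.2 + b) (Or.inl rfl) _ _ (by omega) (by omega))
  intro v w hv hw
  rw [key v hv, key w hw]

/-! ### The two kinds of states of the orbit -/

/-- a state inside, or after a state inside, whose vertex is in the cluster of `u` -/
def HP (F : Set Edg) (c : Vtx) (a b : ℕ) (u : Vtx) (ρ : St) : Prop :=
  ∃ (t : St) (j : ℕ), lf c (face t) < 2 * (a : ℤ) ∧
    (∀ i, 0 < i → i ≤ j → Af c a b (face (orb F t i))) ∧ ρ = orb F t j ∧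
    Reach (F ∩ Ge c a b) u t.1

/-- a state after a state outside, whose face is in the dual cluster of `f` -/
def HQ (F : Set Edg) (c : Vtx) (a b : ℕ) (f : Vtx) (ρ : St) : Prop :=
  ∃ (s : St) (j : ℕ), 0 < j ∧ 2 * (b : ℤ) < lf c (face s) ∧
    (∀ i, 0 < i → i ≤ j → Af c a b (face (orb F s i))) ∧ ρ = orb F s j ∧
    DReach (Fᶜ ∩ Gd c a b) f (face (orb F s 1))

lemma HP.reach {u : Vtx} {ρ : St} (h : HP F c a b u ρ) : Reach (F ∩ Ge c a b) u ρ.1 := by
  obtain ⟨t, j, h1, h2, rfl, h3⟩ := h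
  refine h3.trans (orb_reach (T := j) (fun s hs => ?_) le_rfl)
  rcases Nat.eq_zero_or_pos s with rfl | hs0
  · have h4 := h2 1 one_pos hs
    rw [orb_zero]
    rw [orb_succ, orb_zero] at h4
    by_cases ho : ae t ∈ F
    · rw [nxt_open ho, p2_face_mv] at h4
      have := h4.1
      omega
    · rw [nxt_closed ho] at h4
      exact ge_of_rt h4
  · exact ge_of_face (h2 s hs0 hs.le)

lemma HQ.dreach {f : Vtx} {ρ : St} (h : HQ F c a b f ρ) : DReach (Fᶜ ∩ Gd c a b) f (face ρ) := by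
  obtain ⟨s, j, hj, h1, h2, rfl, h3⟩ := h
  refine h3.trans ?_
  have key : ∀ i, 0 < i → i ≤ j → DReach (Fᶜ ∩ Gd c a b) (face (orb F s 1)) (face (orb F s i)) := by
    intro i
    induction i with
    | zero => intro h0; omega
    | succ i ih =>
      intro _ hi
      rcases Nat.eq_zero_or_pos i with rfl | hi0
      · exact DReach.refl _ _
      · have h4 := ih hi0 (by omega)
        have h5 := h2 i hi0 (by omega)
        have h6 := h2 (i + 1) (by omega) hi
        have e := orb_succ F s i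
        rw [e] at h6 ⊢
        by_cases ho : ae (orb F s i) ∈ F
        · rw [nxt_open ho, p2_face_mv]
          exact h4
        · rw [nxt_closed ho] at h6 ⊢
          refine h4.trans (DAdj.reach ⟨ae (orb F s i), ⟨ho, gd_of h5 h6⟩, ?_⟩)
          exact p2_dends _
  exact key j hj le_rfl

/-- after a ring edge which is closed in `F` -/
lemma hq_op {f : Vtx} {ρ : St} (hb : 1 ≤ b) (hA : Af c a b (face ρ)) (hF : ae ρ ∉ F)
    (hR : ae ρ ∈ RB c b) (hd : DReach (Fᶜ ∩ Gd c a b) f (face ρ)) : HQ F c a b f (mv ρ) := by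
  have h1 : orb F (op ρ) 1 = mv ρ := by
    rw [orb_succ, orb_zero, nxt_closed (by rw [ae_op]; exact hF), rt_op]
  refine ⟨op ρ, 1, one_pos, ?_, ?_, h1.symm, ?_⟩
  · rw [← face_rt]
    exact ring_out hb hR hA.2
  · intro i hi hi'
    have : i = 1 := by omega
    rw [this, h1, p2_face_mv]
    exact hA
  · rw [h1, p2_face_mv]
    exact hd

lemma tri (c f : Vtx) (n : ℕ) : lf c f < 2 * (n : ℤ) ∨ 2 * (n : ℤ) < lf c f := by
  have := N1.lf_odd c f n
  omega

lemma stepP (hoB : St_oBasic) (ho1o : St_oN1o) (ha : 1 ≤ a) (hab : a < b) {τ : St} {U : ℕ}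
    (hτ : OutLeg F c a b τ U) {u f : Vtx} (hu : Reach (F ∩ Ge c a b) u τ.1)
    (hf : DReach (Fᶜ ∩ Gd c a b) f (face (orb F τ 1))) {ρ : St} (h : HP F c a b u ρ) :
    HP F c a b u (nxt (GG F c a b) ρ) ∨ HQ F c a b f (nxt (GG F c a b) ρ) := by
  have hr := h.reach
  obtain ⟨t, j, h1, h2, hρ, h3⟩ := h
  have hab' : (a : ℤ) < b := by exact_mod_cast hab
  have hface : (j = 0 ∧ lf c (face ρ) < 2 * (a : ℤ)) ∨ (0 < j ∧ Af c a b (face ρ)) := by
    rcases Nat.eq_zero_or_pos j with hj | hj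
    · left
      refine ⟨hj, ?_⟩
      rw [hρ, hj]
      exact h1
    · right
      refine ⟨hj, ?_⟩
      rw [hρ]
      exact h2 j hj le_rfl
  have hext : ∀ ρ' : St, nxt F ρ = ρ' → Af c a b (face ρ') → HP F c a b u ρ' := by
    intro ρ' h4 h5
    refine ⟨t, j + 1, h1, ?_, by rw [orb_succ, ← hρ, h4], h3⟩
    intro i hi hi'
    rcases Nat.lt_or_ge j i with h6 | h6
    · have : i = j + 1 := by omega
      rw [this, orb_succ, ← hρ, h4]
      exact h5
    · exact h2 i hi h6
  have hins : ∀ ρ' : St, Reach (F ∩ Ge c a b) u ρ'.1 → lf c (face ρ') < 2 * (a : ℤ) →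
      HP F c a b u ρ' := by
    intro ρ' h4 h5
    exact ⟨ρ', 0, h5, fun i hi hi' => by omega, rfl, h4⟩
  by_cases hF : ae ρ ∈ F ∩ Ge c a b
  · left
    rw [nxt_open (Or.inl hF : ae ρ ∈ GG F c a b)]
    rcases hface with ⟨_, h4⟩ | ⟨_, h4⟩
    · refine hins _ (hr.trans (Adj.reach ⟨ae ρ, hF, p2_ends ρ⟩)) ?_
      rw [p2_face_mv]
      exact h4
    · refine hext _ (nxt_open hF.1) ?_
      rw [p2_face_mv]
      exact h4
  · by_cases hR : ae ρ ∈ RB c b
    · right
      have hnF : ae ρ ∉ F := fun h4 => hF ⟨h4, rb_ge hab hR⟩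
      have h5 := (ring_face hR).1
      obtain ⟨hj, hA⟩ : 0 < j ∧ Af c a b (face ρ) := by
        rcases hface with ⟨_, h4⟩ | h4
        · omega
        · exact h4
      rw [nxt_open (Or.inr hR : ae ρ ∈ GG F c a b)]
      have hO : OutLeg F c a b t (j + 1) := by
        refine ⟨by omega, h1, fun s hs hs' => h2 s hs (by omega), ?_⟩
        rw [orb_succ, ← hρ, nxt_closed hnF]
        exact ring_out (by omega) hR hA.2
      have hτt : τ = t := by
        by_contra hne
        exact ho1o F c a b τ t U (j + 1) hab hτ hO hne (hu.symm.trans h3)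
      subst hτt
      obtain ⟨-, -, -, -, -, h6, -, -⟩ := hoB F c a b τ (j + 1) hab hO
      have h7 := h6 j hj (by omega)
      rw [← hρ] at h7
      exact hq_op (by omega) hA hnF hR (hf.trans h7)
    · left
      have hnG : ae ρ ∉ GG F c a b := fun h4 => h4.elim hF hR
      rw [nxt_closed hnG]
      rcases tri c (face (rt ρ)) a with h4 | h4
      · exact hins _ (by rw [p2_rt_fst]; exact hr) h4
      · rcases hface with ⟨hj, h5⟩ | ⟨hj, h5⟩
        · have h6 := in_out hab h5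
          have h7 : ae ρ ∈ Ge c a b := ge_of_rt ⟨h4, h6⟩
          exact hext _ (nxt_closed fun h8 => hF ⟨h8, h7⟩) ⟨h4, h6⟩
        · have h7 : ae ρ ∈ Ge c a b := ge_of_face h5
          rcases tri c (face (rt ρ)) b with h6 | h6
          · exact hext _ (nxt_closed fun h8 => hF ⟨h8, h7⟩) ⟨h4, h6⟩
          · exact absurd (ring_of h5.2 h6) hR

lemma stepQ (hB : St_basic) (h1d : St_N1d) (ha : 1 ≤ a) (hab : a < b) {σ : St} {T : ℕ}
    (hσ : InLeg F c a b σ T) {ρ : St} (h : HQ F c a b (face (orb F σ 1)) ρ) :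
    HP F c a b σ.1 (nxt (GG F c a b) ρ) ∨ HQ F c a b (face (orb F σ 1)) (nxt (GG F c a b) ρ) := by
  have hd := h.dreach
  obtain ⟨s, j, hj, h1, h2, hρ, h3⟩ := h
  have hA : Af c a b (face ρ) := by
    rw [hρ]
    exact h2 j hj le_rfl
  have hge : ae ρ ∈ Ge c a b := ge_of_face hA
  have hext : ∀ ρ' : St, nxt F ρ = ρ' → Af c a b (face ρ') →
      HQ F c a b (face (orb F σ 1)) ρ' := by
    intro ρ' h4 h5
    refine ⟨s, j + 1, by omega, h1, ?_, by rw [orb_succ, ← hρ, h4], h3⟩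
    intro i hi hi'
    rcases Nat.lt_or_ge j i with h6 | h6
    · have : i = j + 1 := by omega
      rw [this, orb_succ, ← hρ, h4]
      exact h5
    · exact h2 i hi h6
  by_cases hF : ae ρ ∈ F
  · right
    rw [nxt_open (Or.inl ⟨hF, hge⟩ : ae ρ ∈ GG F c a b)]
    refine hext _ (nxt_open hF) ?_
    rw [p2_face_mv]
    exact hA
  · by_cases hR : ae ρ ∈ RB c b
    · right
      rw [nxt_open (Or.inr hR : ae ρ ∈ GG F c a b)]
      exact hq_op (by omega) hA hF hR hd
    · have hnG : ae ρ ∉ GG F c a b := fun h4 => h4.elim (fun h5 => hF h5.1) hR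
      rw [nxt_closed hnG]
      rcases tri c (face (rt ρ)) a with h4 | h4
      · left
        have hI : InLeg F c a b s (j + 1) := by
          refine ⟨by omega, h1, fun i hi hi' => h2 i hi (by omega), ?_⟩
          rw [orb_succ, ← hρ, nxt_closed hF]
          exact h4
        have hs : σ = s := by
          by_contra hne
          exact h1d F c a b σ s T (j + 1) hab hσ hI hne h3
        subst hs
        obtain ⟨-, -, -, -, h6, -, -, -⟩ := hB F c a b σ (j + 1) hab hI
        have h7 := h6 j (by omega)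
        rw [← hρ] at h7
        exact ⟨rt ρ, 0, h4, fun i hi hi' => by omega, rfl, by rw [p2_rt_fst]; exact h7⟩
      · right
        rcases tri c (face (rt ρ)) b with h6 | h6
        · exact hext _ (nxt_closed hF) ⟨h4, h6⟩
        · exact absurd (ring_of hA.2 h6) hR

end Pool.Agent.N948.IX.X2

namespace Pool.Agent.N948.IX

open H974 H12S Finset H984P H342P Pool.Agent.W92.DP H984P.SideAux Bas X2

theorem t3 (hB : St_basic) (hoB : St_oBasic) (hr : St_restr) (hoR : St_oRestr) (h1o : St_N1o)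
    (h1d : St_N1d) (h2o : St_N2o) (ho1o : St_oN1o) (hE : St_E) : St_T3 := by
  intro F c a b σ τ T U ha hab hσ hτ hu hd hOC
  obtain ⟨x, hx, hx'⟩ := hOC
  have hab' : (a : ℤ) < b := by exact_mod_cast hab
  -- a crossing next to a second cluster
  obtain ⟨i, j, hij, hi⟩ : ∃ i j : Fin 2, i ≠ j ∧ ¬ Reach (F ∩ Ge c a b) (x i) σ.1 := by
    by_contra hcon
    push Not at hcon
    exact hx' 0 1 (by decide) ((hcon 0 1 (by decide)).trans (hcon 1 0 (by decide)).symm)
  obtain ⟨hxi, y, hy, hxy⟩ := hx i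
  obtain ⟨hxj, y', hy', hxy'⟩ := hx j
  obtain ⟨σ', T', hσ', hxσ'⟩ := h2o F c a b (x i) y (x j) y' ha hab hxi hy hxy hxj hy' hxy'
    (hx' i j hij)
  have hne : σ ≠ σ' := by
    rintro rfl
    exact hi hxσ'
  have hnr : ¬ Reach (F ∩ Ge c a b) σ.1 σ'.1 := fun h => hi (hxσ'.trans h.symm)
  obtain ⟨b1, b2', b3, b4, b5, b6, b7, b8⟩ := hB F c a b σ T hab hσ
  obtain ⟨d1, d2, d3, d4, d5, d6, d7, d8⟩ := hB F c a b σ' T' hab hσ'
  -- the orbit
  have hA1 : Af c a b (face (orb F σ 1)) := hσ.mid 1 one_pos b1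
  have hG : ∀ e ∈ GG F c a b, lv c (src e) ≤ b ∧ lv c (tgt e) ≤ b := by
    rintro e (he | he)
    · exact ⟨he.2.1.2, he.2.2.2⟩
    · exact ⟨he.1.le, he.2.le⟩
  have hlv : lv c (orb F σ 1).1 ≤ b := by
    have h1 := cor c (orb F σ 1)
    have h2 := hA1.2
    omega
  obtain ⟨n, hn, hper⟩ := N1.periodic hG hlv
  obtain ⟨A, hA⟩ : ∃ A : Set St, A = {ρ | ∃ s, orb (GG F c a b) (orb F σ 1) s = ρ} := ⟨_, rfl⟩
  have mA : ∀ ρ, ρ ∈ A ↔ ∃ s, orb (GG F c a b) (orb F σ 1) s = ρ := by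
    intro ρ
    rw [hA]
    exact Iff.rfl
  have hinv : ∀ ρ, ρ ∈ A ↔ nxt (GG F c a b) ρ ∈ A := by
    intro ρ
    rw [mA, mA]
    constructor
    · rintro ⟨s, rfl⟩
      exact ⟨s + 1, orb_succ _ _ _⟩
    · rintro ⟨s, hs⟩
      obtain ⟨m, hm⟩ : ∃ m, orb (GG F c a b) (orb F σ 1) (m + 1) = nxt (GG F c a b) ρ := by
        rcases Nat.eq_zero_or_pos s with rfl | hs0
        · refine ⟨n - 1, ?_⟩
          rw [Nat.sub_add_cancel hn, hper]
          exact hs
        · exact ⟨s - 1, by rw [Nat.sub_add_cancel hs0]; exact hs⟩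
      rw [orb_succ] at hm
      exact ⟨m, (nxt_bij (GG F c a b)).1 hm⟩
  obtain ⟨hv, hf, hp, hv', hf'⟩ := pot_of_inv (GG F c a b) A hinv
  have hvr : ∀ {u v : Vtx}, Reach (F ∩ Ge c a b) u v → hv u = hv v := fun h =>
    N1.reach_const (fun e he => hv' e (Or.inl he)) h
  have hfr : ∀ {u v : Vtx}, DReach (Fᶜ ∩ Gd c a b) u v → hf u = hf v := by
    intro u v h
    refine N1.dreach_const (fun e he => hf' e ?_) h
    rintro (h1 | h1)
    · exact he.1 h1.1
    · obtain ⟨ρ, rfl⟩ := exists_ae e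
      have h2 : lf c (face ρ) < 2 * (b : ℤ) ∧ lf c (face (rt ρ)) < 2 * (b : ℤ) := by
        rcases p2_dends ρ with ⟨k1, k2⟩ | ⟨k1, k2⟩
        · exact ⟨by rw [← k1]; exact he.2.1.2, by rw [← k2]; exact he.2.2.2⟩
        · exact ⟨by rw [← k2]; exact he.2.2.2, by rw [← k1]; exact he.2.1.2⟩
      have h3 := ring_out (by omega) h1 h2.1
      have h4 := h2.2
      omega
  -- the potential of the faces inside
  have hin : ∀ f g : Vtx, lf c f < 2 * (a : ℤ) → lf c g < 2 * (a : ℤ) → hf f = hf g := by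
    refine connI c a hf (fun f g g1 g2 g3 => ?_)
    obtain ⟨e, he⟩ := N1.adj_edge g3
    have key : ∀ e : Edg, lf c (dsrc e) < 2 * (a : ℤ) → lf c (dtgt e) < 2 * (a : ℤ) →
        hf (dsrc e) = hf (dtgt e) := by
      intro e k1 k2
      refine hf' e ?_
      rintro (k3 | k3)
      · exact N1.inner_edge k1 k2 ⟨k3.2.1.1, k3.2.2.1⟩
      · refine N1.inner_edge k1 k2 ⟨?_, ?_⟩
        · rw [k3.1]; exact hab'.le
        · rw [k3.2]; exact hab'.le
    rcases he with ⟨k1, k2⟩ | ⟨k1, k2⟩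
    · have := key e (by rw [k1]; exact g1) (by rw [k2]; exact g2)
      rw [k1, k2] at this
      exact this
    · have := key e (by rw [k1]; exact g2) (by rw [k2]; exact g1)
      rw [k1, k2] at this
      exact this.symm
  have htin : ∀ f : Vtx, TIn c a b F f → ∃ g, lf c g < 2 * (a : ℤ) ∧ hf f = hf g := by
    rintro f ⟨hAf, e, heF, he⟩
    have heG : e ∉ GG F c a b := by
      rintro (k3 | k3)
      · exact heF k3.1
      · obtain ⟨ρ, rfl⟩ := exists_ae e
        have k4 := ring_face k3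
        rcases p2_dends ρ with ⟨k1, k2⟩ | ⟨k1, k2⟩ <;> rw [k1, k2] at he <;>
          rcases he with ⟨-, k5⟩ | ⟨-, k5⟩ <;> omega
    have k := hf' e heG
    rcases he with ⟨k1, k2⟩ | ⟨k1, k2⟩
    · exact ⟨dtgt e, k2, by rw [← k1]; exact k⟩
    · exact ⟨dsrc e, k2, by rw [← k1]; exact k.symm⟩
  obtain ⟨g1, hg1, hg1'⟩ := htin _ b8
  obtain ⟨g2, hg2, hg2'⟩ := htin _ d8
  have e1 : hf (face (orb F σ' 1)) = hf (face (orb F σ 1)) := by
    rw [hfr (b6 (T - 1) (by omega) (by omega)), hfr (d6 (T' - 1) (by omega) (by omega)), hg1', hg2']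
    exact hin _ _ hg2 hg1
  have e2 : hv (orb F σ' 1).1 = hv (orb F σ 1).1 := by
    rw [← hvr (b5 1 (by omega)), ← hvr (d5 1 (by omega))]
    exact ring_const (c := c) (b := b) (fun e he => hv' e (Or.inr he)) _ _ d2 b2'
  have hmem : orb F σ' 1 ∈ A := by
    by_contra hcon
    have hm0 : orb F σ 1 ∈ A := (mA _).2 ⟨0, rfl⟩
    have k1 := hp (orb F σ' 1)
    rw [b2_not_of hcon, e1, e2, hp (orb F σ 1), b2_of hm0] at k1
    exact one_ne_zero k1
  obtain ⟨k, hk⟩ := (mA _).1 hmem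
  have key : ∀ k, HP F c a b σ.1 (orb (GG F c a b) (orb F σ 1) k) ∨
      HQ F c a b (face (orb F σ 1)) (orb (GG F c a b) (orb F σ 1) k) := by
    intro k
    induction k with
    | zero =>
      right
      refine ⟨σ, 1, one_pos, hσ.st, ?_, rfl, DReach.refl _ _⟩
      intro i hi hi'
      have : i = 1 := by omega
      rw [this]
      exact hA1
    | succ k ih =>
      rw [orb_succ]
      rcases ih with ih | ih
      · exact stepP hoB ho1o ha hab hτ hu hd ih
      · exact stepQ hB h1d ha hab hσ ih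
  rcases key k with h | h
  · rw [hk] at h
    exact hnr (h.reach.trans (d5 1 (by omega)).symm)
  · rw [hk] at h
    exact h1d F c a b σ σ' T T' hab hσ hσ' hne h.dreach

end Pool.Agent.N948.IX
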