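import Pool.Agent.N948.IX.Ex0
import Pool.Agent.N948.IX.X5
import Pool.Agent.W571.DParms
import Pool.Agent.H12R2.Sep.DualBox

/-!
Project XD (helper948), X21 (helper273): the plus event gives two crossings in opposite quadrants.
-/

set_option autoImplicit false

namespace Pool.Agent.N948.IX.X21

open H974 H12S Finset H984P H342P Pool.Agent.W92.DP H984P.SideAux Pool.Agent.N948.IX.Bas
open Pool.Agent.N948.IX.N1 Pool.Agent.N948.IX.X5

/-! ### Rows and columns -/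

theorem row {S : Set Edg} {y : ℤ} (k : ℕ) : ∀ x : ℤ,
    (∀ i : ℤ, x < i → i ≤ x + k → ((i, y, false) : Edg) ∈ S) → DReach S (x, y) (x + k, y) := by
  induction k with
  | zero =>
    intro x _
    simpa using DReach.refl S (x, y)
  | succ k ih =>
    intro x h
    have h1 := ih x (fun i hi hi' => h i hi (by push_cast; omega))
    refine h1.trans (DAdj.reach ⟨(x + k + 1, y, false), h _ (by omega) (by push_cast; omega), ?_⟩)
    left
    constructor
    · rw [dsrc_false]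
      ext <;> simp
    · rw [dtgt_mk]
      ext
      · push_cast; ring
      · rfl

/-- A row of faces. -/
theorem row' {S : Set Edg} {x x' y : ℤ} (hx : x ≤ x')
    (h : ∀ i : ℤ, x < i → i ≤ x' → ((i, y, false) : Edg) ∈ S) : DReach S (x, y) (x', y) := by
  obtain ⟨k, hk⟩ : ∃ k : ℕ, x' = x + k := ⟨(x' - x).toNat, by omega⟩
  subst hk
  exact row k x h

theorem col {S : Set Edg} {x : ℤ} (k : ℕ) : ∀ y : ℤ,
    (∀ i : ℤ, y ≤ i → i < y + k → ((x, i, false) : Edg) ∈ S) → Reach S (x, y) (x, y + k) := by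
  induction k with
  | zero =>
    intro y _
    simpa using Reach.refl S (x, y)
  | succ k ih =>
    intro y h
    have h1 := ih y (fun i hi hi' => h i hi (by push_cast; omega))
    refine h1.trans (Adj.reach ⟨(x, y + k, false), h _ (by omega) (by push_cast; omega), ?_⟩)
    left
    constructor
    · rw [src_mk]
    · rw [tgt_false]
      ext
      · rfl
      · push_cast; ring

/-- A column of vertices. -/
theorem col' {S : Set Edg} {x y y' : ℤ} (hy : y ≤ y')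
    (h : ∀ i : ℤ, y ≤ i → i < y' → ((x, i, false) : Edg) ∈ S) : Reach S (x, y) (x, y') := by
  obtain ⟨k, hk⟩ : ∃ k : ℕ, y' = y + k := ⟨(y' - y).toNat, by omega⟩
  subst hk
  exact col k y h

/-! ### The box -/

theorem mem_box {N : ℕ} {e : Edg} : e ∈ boxE N ↔
    (-(N : ℤ) ≤ (src e).1 ∧ (src e).1 ≤ N ∧ -(N : ℤ) ≤ (src e).2 ∧ (src e).2 ≤ N) ∧
    (-(N : ℤ) ≤ (tgt e).1 ∧ (tgt e).1 ≤ N ∧ -(N : ℤ) ≤ (tgt e).2 ∧ (tgt e).2 ≤ N) := by
  obtain ⟨x, y, _ | _⟩ := e
  · unfold boxE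
    rw [mem_RE_false]
    simp only [src_mk, tgt_false]
    omega
  · unfold boxE
    rw [mem_RE_true]
    simp only [src_mk, tgt_true]
    omega

/-- A path from the bottom to the top and a dual path from the left to the right have a common
edge. -/
theorem planar {N : ℕ} (hN : 1 ≤ N) {G : Set Edg} {u v : Vtx} (hu : u.2 = -(N : ℤ))
    (hv : v.2 = (N : ℤ)) (h : Reach (G ∩ ↑(boxE N)) u v) {f g : Vtx} (hf : f.1 = -(N : ℤ) - 1)
    (hg : g.1 = (N : ℤ)) (hd : DReach (↑(boxE N) \ G) f g) : False := by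
  classical
  set G' : Finset Edg := (boxE N).filter (fun e => e ∈ G) with hG'
  have hcoe : (↑G' : Set Edg) = G ∩ ↑(boxE N) := by
    ext e
    rw [hG', Finset.mem_coe, Finset.mem_filter]
    exact ⟨fun h => ⟨h.2, h.1⟩, fun h => ⟨h.2, h.1⟩⟩
  have hsub : G' ⊆ boxE N := Finset.filter_subset _ _
  have h1 : Cn (botV N) (topV N) (↑G' : Set Edg) := ⟨u, hu, v, hv, by rw [hcoe]; exact h⟩
  rw [cn_dual N hN hsub] at h1
  apply h1
  refine ⟨f, hf, g, hg, ?_⟩
  rw [coe_dmp, reach_dl]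
  refine hd.mono ?_
  rintro e ⟨h2, h3⟩
  rw [Finset.mem_coe, Finset.mem_sdiff, hG', Finset.mem_filter]
  exact ⟨h2, fun h4 => h3 h4.2⟩

theorem lv_adj (c : Vtx) (e : Edg) : lv c (src e) ≤ lv c (tgt e) + 1 ∧
    lv c (tgt e) ≤ lv c (src e) + 1 := by
  obtain ⟨x, y, _ | _⟩ := e
  · simp only [lv, src_mk, tgt_false, abs_eq_max_neg]
    omega
  · simp only [lv, src_mk, tgt_true, abs_eq_max_neg]
    omega

/-- Last exit. -/
theorem lastO {G : Set Edg} {a : ℤ} {c u w : Vtx} (h : Reach G u w) (hu : lv c u ≤ a)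
    (hw : a ≤ lv c w) : ∃ u', lv c u' = a ∧
      Reach (G ∩ {e | a ≤ lv c (src e) ∧ a ≤ lv c (tgt e)}) u' w := by
  induction h with
  | refl => exact ⟨u, by omega, Reach.refl _ _⟩
  | tail _ hs ih =>
    rename_i w1 w2 _
    rcases hw.eq_or_lt with h1 | h1
    · exact ⟨w2, h1.symm, Reach.refl _ _⟩
    · obtain ⟨e, he, hor⟩ := hs
      have h2 := lv_adj c e
      have h3 : a ≤ lv c w1 := by
        rcases hor with ⟨g1, g2⟩ | ⟨g1, g2⟩ <;> rw [g1, g2] at h2 <;> omega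
      obtain ⟨u', hu', hr⟩ := ih h3
      refine ⟨u', hu', hr.trans (Adj.reach ⟨e, ⟨he, ?_⟩, hor⟩)⟩
      rcases hor with ⟨g1, g2⟩ | ⟨g1, g2⟩
      · exact ⟨by rw [g1]; exact h3, by rw [g2]; exact h1.le⟩
      · exact ⟨by rw [g1]; exact h1.le, by rw [g2]; exact h3⟩

/-- A path in the box stays in the box. -/
theorem reach_box {G : Set Edg} {N : ℕ} (hG : G ⊆ ↑(boxE N)) {u w : Vtx} (h : Reach G u w)
    (hu : lv (0, 0) u ≤ N) : lv (0, 0) w ≤ N := by
  induction h with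
  | refl => exact hu
  | tail _ hs _ =>
    obtain ⟨e, he, hor⟩ := hs
    have h1 := mem_box.1 (Finset.mem_coe.1 (hG he))
    rcases hor with ⟨g1, g2⟩ | ⟨g1, g2⟩
    · rw [g2] at h1
      rw [lv_le]
      omega
    · rw [g1] at h1
      rw [lv_le]
      omega

theorem adj_faces (e : Edg) : (dtgt e = ((dsrc e).1 + 1, (dsrc e).2) ∧ e.2.2 = false) ∨
    (dtgt e = ((dsrc e).1, (dsrc e).2 + 1) ∧ e.2.2 = true) := by
  obtain ⟨x, y, _ | _⟩ := e
  · left; simp
  · right; simp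

/-- Last exit for dual paths. -/
theorem lastD {F H : Set Edg} {a N : ℕ} (haN : a < N)
    (hH : ∀ e ∈ H, e ∉ F ∧ e ∈ boxE N) {f w : Vtx} (h : DReach H f w)
    (hf : lf (0, 0) f < 2 * (a : ℤ)) :
    (Af (0, 0) a N w → ∃ u, TIn (0, 0) a N F u ∧ DReach (Fᶜ ∩ Gd (0, 0) a N) u w) ∧
    (2 * (N : ℤ) < lf (0, 0) w → ∃ u w', TIn (0, 0) a N F u ∧
      DReach (Fᶜ ∩ Gd (0, 0) a N) u w' ∧ TOut (0, 0) a N F w' ∧ DAdj H w' w) := by
  have hab : (a : ℤ) < N := by exact_mod_cast haN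
  induction h with
  | refl =>
    refine ⟨fun h1 => ?_, fun h1 => ?_⟩
    · have := h1.1; omega
    · omega
  | tail _ hs ih =>
    rename_i w1 w2 _
    obtain ⟨e, he, hor⟩ := hs
    obtain ⟨he1, he2⟩ := hH e he
    have hbox := mem_box.1 he2
    have hodd1 := lf_odd (0, 0) w1 a
    have hodd2 := lf_odd (0, 0) w1 N
    constructor
    · intro h2
      rcases lt_or_gt_of_ne hodd1 with h3 | h3
      · refine ⟨w2, ⟨h2, e, he1, ?_⟩, DReach.refl _ _⟩
        rcases hor with ⟨g1, g2⟩ | ⟨g1, g2⟩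
        · right; exact ⟨g2, by rw [g1]; exact h3⟩
        · left; exact ⟨g1, by rw [g2]; exact h3⟩
      · rcases lt_or_gt_of_ne hodd2 with h4 | h4
        · obtain ⟨u, hu, hr⟩ := ih.1 ⟨h3, h4⟩
          refine ⟨u, hu, hr.trans (DAdj.reach ⟨e, ⟨he1, ?_⟩, hor⟩)⟩
          rcases hor with ⟨g1, g2⟩ | ⟨g1, g2⟩
          · exact ⟨by rw [g1]; exact ⟨h3, h4⟩, by rw [g2]; exact h2⟩
          · exact ⟨by rw [g1]; exact h2, by rw [g2]; exact ⟨h3, h4⟩⟩
        · obtain ⟨u, w', hu, hr, ho, e', he', hor'⟩ := ih.2 h4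
          have hbox' := mem_box.1 (hH e' he').2
          have h5 := h2.2
          have h6 := ho.1.2
          have h7 : w' = w2 := by
            have h4' : ¬ lf (0, 0) w1 < 2 * (N : ℤ) := by omega
            rw [lf_lt] at h4' h5 h6
            obtain ⟨x, y, _ | _⟩ := e <;> obtain ⟨x', y', _ | _⟩ := e' <;>
              simp only [src_mk, tgt_true, tgt_false, dsrc_true, dsrc_false, dtgt_mk] at * <;>
              rcases hor with ⟨g1, g2⟩ | ⟨g1, g2⟩ <;> rcases hor' with ⟨g3, g4⟩ | ⟨g3, g4⟩ <;>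
              subst g1 <;> subst g2 <;> rw [Prod.ext_iff] at g3 g4 ⊢ <;> simp only at * <;> omega
          rw [← h7]
          exact ⟨u, hu, hr⟩
    · intro h2
      rcases lt_or_gt_of_ne hodd2 with h4 | h4
      · rcases lt_or_gt_of_ne hodd1 with h3 | h3
        · exfalso
          have h2' : ¬ lf (0, 0) w2 < 2 * (N : ℤ) := by omega
          rw [lf_lt] at h2' h3
          obtain ⟨x, y, _ | _⟩ := e <;>
            simp only [src_mk, tgt_true, tgt_false, dsrc_true, dsrc_false, dtgt_mk] at * <;>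
            rcases hor with ⟨g1, g2⟩ | ⟨g1, g2⟩ <;> subst g1 <;> subst g2 <;> simp only at * <;> omega
        · obtain ⟨u, hu, hr⟩ := ih.1 ⟨h3, h4⟩
          refine ⟨u, w1, hu, hr, ⟨⟨h3, h4⟩, e, he1, ?_⟩, ⟨e, he, hor⟩⟩
          rcases hor with ⟨g1, g2⟩ | ⟨g1, g2⟩
          · left; exact ⟨g1, by rw [g2]; exact h2⟩
          · right; exact ⟨g2, by rw [g1]; exact h2⟩
      · exfalso
        have h2' : ¬ lf (0, 0) w2 < 2 * (N : ℤ) := by omega
        have h4' : ¬ lf (0, 0) w1 < 2 * (N : ℤ) := by omega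
        rw [lf_lt] at h2' h4'
        obtain ⟨x, y, _ | _⟩ := e <;>
          simp only [src_mk, tgt_true, tgt_false, dsrc_true, dsrc_false, dtgt_mk] at * <;>
          rcases hor with ⟨g1, g2⟩ | ⟨g1, g2⟩ <;> subst g1 <;> subst g2 <;> simp only at * <;> omega

/-! ### Edges of the boxes and annuli -/

theorem mem_XV_false {b w N : ℕ} {x y : ℤ} : ((x, y, false) : Edg) ∈ XV b w N ↔
    (-(b : ℤ) ≤ x ∧ x ≤ b ∧ -(b : ℤ) ≤ y ∧ y < b) ∨
      (-(w : ℤ) ≤ x ∧ x ≤ w ∧ -(N : ℤ) ≤ y ∧ y < N) := by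
  unfold XV boxE
  rw [Finset.mem_union, mem_RE_false, mem_RE_false]

theorem mem_XV_true {b w N : ℕ} {x y : ℤ} : ((x, y, true) : Edg) ∈ XV b w N ↔
    (-(b : ℤ) ≤ x ∧ x < b ∧ -(b : ℤ) ≤ y ∧ y ≤ b) ∨
      (-(w : ℤ) ≤ x ∧ x < w ∧ -(N : ℤ) ≤ y ∧ y ≤ N) := by
  unfold XV boxE
  rw [Finset.mem_union, mem_RE_true, mem_RE_true]

theorem mem_XH_false {b w N : ℕ} {x y : ℤ} : ((x, y, false) : Edg) ∈ XH b w N ↔
    (-(b : ℤ) ≤ x ∧ x ≤ b ∧ -(b : ℤ) ≤ y ∧ y < b) ∨
      (-(N : ℤ) ≤ x ∧ x ≤ N ∧ -(w : ℤ) ≤ y ∧ y < w) := by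
  unfold XH boxE
  rw [Finset.mem_union, mem_RE_false, mem_RE_false]

theorem mem_boxE_false {N : ℕ} {x y : ℤ} : ((x, y, false) : Edg) ∈ boxE N ↔
    -(N : ℤ) ≤ x ∧ x ≤ N ∧ -(N : ℤ) ≤ y ∧ y < N := by
  unfold boxE
  rw [mem_RE_false]

theorem Ge_box {a N : ℕ} {e : Edg} (h : e ∈ Ge (0, 0) a N) : e ∈ boxE N := by
  rw [mem_box]
  have h1 := lv_le.1 h.1.2
  have h2 := lv_le.1 h.2.2
  simp only at h1 h2
  omega

theorem Gd_box {a N : ℕ} {e : Edg} (h : e ∈ Gd (0, 0) a N) : e ∈ boxE N := by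
  have h1 := lf_lt.1 h.1.2
  have h2 := lf_lt.1 h.2.2
  rw [mem_box]
  obtain ⟨x, y, _ | _⟩ := e
  · simp only [src_mk, tgt_false, dsrc_false, dtgt_mk] at h1 h2 ⊢
    omega
  · simp only [src_mk, tgt_true, dsrc_true, dtgt_mk] at h1 h2 ⊢
    omega

theorem e0_Ge {a N : ℕ} {β : Bool} (ha : 2 ≤ a) (h : e0 β ∈ Ge (0, 0) a N) : False := by
  have h1 := h.1.1
  unfold e0 at h1
  rw [le_lv] at h1
  simp only [src_mk] at h1
  omega

theorem e0_Gd {a N : ℕ} {β : Bool} (ha : 2 ≤ a) (h : e0 β ∈ Gd (0, 0) a N) : False := by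
  have h1 := h.2.1
  have h2 : ¬ lf (0, 0) (dtgt (e0 β)) < 2 * (a : ℤ) := by omega
  unfold e0 at h2
  rw [lf_lt] at h2
  simp only [dtgt_mk] at h2
  omega

/-- A state at an edge of the annulus with a face of the annulus. -/
theorem exists_faceA {a N : ℕ} {e : Edg} (ha : 1 ≤ a) (haN : a < N) (h : e ∈ Ge (0, 0) a N) :
    ∃ x, ae x = e ∧ Af (0, 0) a N (face x) := by
  have hab : (a : ℤ) < N := by exact_mod_cast haN
  obtain ⟨⟨h1, h2⟩, h3, h4⟩ := h
  rw [le_lv] at h1 h3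
  rw [lv_le] at h2 h4
  have key : ∀ f : Vtx, (-(N : ℤ) ≤ f.1 ∧ f.1 < N ∧ -(N : ℤ) ≤ f.2 ∧ f.2 < N) →
      ¬ (-(a : ℤ) ≤ f.1 ∧ f.1 < a ∧ -(a : ℤ) ≤ f.2 ∧ f.2 < a) → Af (0, 0) a N f := by
    intro f g1 g2
    have g3 := lf_odd (0, 0) f a
    constructor
    · by_contra g4
      have g5 : lf (0, 0) f < 2 * (a : ℤ) := by omega
      rw [lf_lt] at g5
      simp only at g5
      omega
    · rw [lf_lt]
      simp only
      omega
  obtain ⟨x, y, _ | _⟩ := e
  · simp only [src_mk, tgt_false] at h1 h2 h3 h4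
    by_cases hx : x < N ∧ ¬ (-(a : ℤ) ≤ x ∧ x < a ∧ -(a : ℤ) ≤ y ∧ y < a)
    · exact ⟨((x, y + 1), .se), by simp, key _ (by simp only [face_se]; omega)
        (by simp only [face_se]; omega)⟩
    · exact ⟨((x, y), .nw), by simp, key _ (by simp only [face_nw]; omega)
        (by simp only [face_nw]; omega)⟩
  · simp only [src_mk, tgt_true] at h1 h2 h3 h4
    by_cases hy : y < N ∧ ¬ (-(a : ℤ) ≤ x ∧ x < a ∧ -(a : ℤ) ≤ y ∧ y < a)
    · exact ⟨((x, y), .ne), by simp, key _ (by simp only [face_ne]; omega)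
        (by simp only [face_ne]; omega)⟩
    · exact ⟨((x + 1, y), .sw), by simp, key _ (by simp only [face_sw]; omega)
        (by simp only [face_sw]; omega)⟩

theorem dreach_Af {a N : ℕ} {G : Set Edg} (hG : G ⊆ Gd (0, 0) a N) {f g : Vtx}
    (h : DReach G f g) (hf : Af (0, 0) a N f) : Af (0, 0) a N g := by
  induction h with
  | refl => exact hf
  | tail _ hs _ =>
    obtain ⟨e, he, hor⟩ := hs
    have h1 := hG he
    rcases hor with ⟨g1, g2⟩ | ⟨g1, g2⟩
    · rw [← g2]; exact h1.2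
    · rw [← g1]; exact h1.1

theorem reach_lvN {a N : ℕ} {G : Set Edg} (hG : G ⊆ Ge (0, 0) a N) {u v : Vtx}
    (h : Reach G u v) (hu : lv (0, 0) u ≤ N) : lv (0, 0) v ≤ N := by
  induction h with
  | refl => exact hu
  | tail _ hs _ =>
    obtain ⟨e, he, hor⟩ := hs
    have h1 := hG he
    rcases hor with ⟨g1, g2⟩ | ⟨g1, g2⟩
    · rw [← g2]; exact h1.2.2
    · rw [← g1]; exact h1.1.2

/-! ### The arms of the plus event -/

/-- The crossings of the annulus given by the plus event. -/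
structure Arms (a m B N : ℕ) (β : Bool) (F : Set Edg) (uS wS uN wN uW wW gW uE wE gE : Vtx) :
    Prop where
  ha : 2 ≤ a
  ham : a ≤ m
  hm : 64 ≤ m
  hB : 8 * m ≤ B
  hN : N = 4 * B
  s1 : lv (0, 0) uS = a
  s2 : wS.2 = -(N : ℤ)
  s3 : lv (0, 0) wS = N
  s4 : Reach ((F ∩ ↑(XV B m N)) ∩ Ge (0, 0) a N) uS wS
  n1 : lv (0, 0) uN = a
  n2 : wN.2 = (N : ℤ)
  n3 : lv (0, 0) wN = N
  n4 : Reach ((F ∩ ↑(XV B m N)) ∩ Ge (0, 0) a N) uN wN
  sn : ¬ Reach (F ∩ Ge (0, 0) a N) uS uN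
  w1 : TIn (0, 0) a N F uW
  w2 : TOut (0, 0) a N F wW
  w3 : DReach (Fᶜ ∩ Gd (0, 0) a N) uW wW
  w4 : gW.1 = -(N : ℤ) - 1
  w5 : DAdj ((↑(boxE N) \ F) \ {e0 β}) wW gW
  e1 : TIn (0, 0) a N F uE
  e2 : TOut (0, 0) a N F wE
  e3 : DReach (Fᶜ ∩ Gd (0, 0) a N) uE wE
  e4 : gE.1 = (N : ℤ)
  e5 : DAdj ((↑(boxE N) \ F) \ {e0 β}) wE gE
  pV : Cn (botV N) (topV N) (insert (e0 β) (F ∩ ↑(XV B m N)))
  pH : ¬ Cn (botV N) (topV N) (((F ∩ ↑(XH B m N)) ∪ ↑(boxE N \ XH B m N)) \ {e0 β})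

theorem arms_of {a m B N : ℕ} {β : Bool} {F : Set Edg} (ha : 2 ≤ a) (ham : a ≤ m) (hm : 64 ≤ m)
    (hB : 8 * m ≤ B) (hN : N = 4 * B) (hP : Plus B m N (e0 β) F)
    (hA : (∃ a a' : Vtx, ((a = src (e0 β) ∧ a' = tgt (e0 β)) ∨ (a = tgt (e0 β) ∧ a' = src (e0 β))) ∧
        (∃ w : Vtx, w.2 = -(N : ℤ) ∧ Reach ((F ∩ ↑(XV B m N)) \ {e0 β}) a w) ∧
        (∃ w : Vtx, w.2 = (N : ℤ) ∧ Reach ((F ∩ ↑(XV B m N)) \ {e0 β}) a' w)) ∧
      (∃ f f' : Vtx, ((f = dsrc (e0 β) ∧ f' = dtgt (e0 β)) ∨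
        (f = dtgt (e0 β) ∧ f' = dsrc (e0 β))) ∧
        (∃ g : Vtx, g.1 = -(N : ℤ) - 1 ∧ DReach ((↑(XH B m N) \ F) \ {e0 β}) f g) ∧
        (∃ g : Vtx, g.1 = (N : ℤ) ∧ DReach ((↑(XH B m N) \ F) \ {e0 β}) f' g)) ∧
      ¬ Reach ((F ∩ ↑(boxE N)) \ {e0 β}) (src (e0 β)) (tgt (e0 β))) :
    ∃ uS wS uN wN uW wW gW uE wE gE : Vtx, Arms a m B N β F uS wS uN wN uW wW gW uE wE gE := by
  obtain ⟨⟨p, p', hpp, ⟨wS, hwS, rS⟩, ⟨wN, hwN, rN⟩⟩, ⟨f, f', hff, ⟨gW, hgW, dW⟩, ⟨gE, hgE, dE⟩⟩,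
    hst⟩ := hA
  have hXV : XV B m N ⊆ boxE N := Pool.Agent.W571.DParms.XV_sub (by omega) (by omega)
  have hXH : XH B m N ⊆ boxE N := DU_XH_sub (by omega) (by omega)
  have hp : lv (0, 0) p ≤ 1 ∧ lv (0, 0) p' ≤ 1 := by
    rw [lv_le, lv_le]
    unfold e0 at hpp
    rcases hpp with ⟨rfl, rfl⟩ | ⟨rfl, rfl⟩ <;> cases β <;> simp
  have hf : lf (0, 0) f < 2 * (a : ℤ) ∧ lf (0, 0) f' < 2 * (a : ℤ) := by
    rw [lf_lt, lf_lt]
    unfold e0 at hff
    rcases hff with ⟨rfl, rfl⟩ | ⟨rfl, rfl⟩ <;> cases β <;>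
      simp only [dsrc_true, dsrc_false, dtgt_mk] <;> omega
  have hlS : (N : ℤ) ≤ lv (0, 0) wS := by rw [le_lv]; simp only; omega
  have hlN : (N : ℤ) ≤ lv (0, 0) wN := by rw [le_lv]; simp only; omega
  have hsub1 : ((F ∩ ↑(XV B m N)) \ {e0 β} : Set Edg) ⊆ ↑(boxE N) := fun e he => hXV he.1.2
  have hlS' : lv (0, 0) wS ≤ N := reach_box hsub1 rS (by omega)
  have hlN' : lv (0, 0) wN ≤ N := reach_box hsub1 rN (by omega)
  have hGe : ∀ e : Edg, e ∈ ((F ∩ ↑(XV B m N)) \ {e0 β} : Set Edg) ∩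
      {e | (a : ℤ) ≤ lv (0, 0) (src e) ∧ (a : ℤ) ≤ lv (0, 0) (tgt e)} →
      e ∈ (F ∩ ↑(XV B m N)) ∩ Ge (0, 0) a N := by
    rintro e ⟨⟨h1, h2⟩, h3⟩
    have h4 := mem_box.1 (hXV h1.2)
    refine ⟨h1, ⟨h3.1, ?_⟩, ⟨h3.2, ?_⟩⟩
    · rw [lv_le]; simp only; omega
    · rw [lv_le]; simp only; omega
  obtain ⟨uS, huS, rS'⟩ := lastO (a := (a : ℤ)) (c := (0, 0)) rS (by omega) (by omega)
  obtain ⟨uN, huN, rN'⟩ := lastO (a := (a : ℤ)) (c := (0, 0)) rN (by omega) (by omega)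
  have hDH : ∀ e ∈ ((↑(XH B m N) \ F) \ {e0 β} : Set Edg), e ∉ F ∧ e ∈ boxE N :=
    fun e he => ⟨he.1.2, hXH he.1.1⟩
  have hgWl : 2 * (N : ℤ) < lf (0, 0) gW := by
    by_contra h1
    have h2 : lf (0, 0) gW < 2 * (N : ℤ) := by
      have := lf_odd (0, 0) gW N
      omega
    rw [lf_lt] at h2
    simp only at h2
    omega
  have hgEl : 2 * (N : ℤ) < lf (0, 0) gE := by
    by_contra h1
    have h2 : lf (0, 0) gE < 2 * (N : ℤ) := by
      have := lf_odd (0, 0) gE N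
      omega
    rw [lf_lt] at h2
    simp only at h2
    omega
  obtain ⟨uW, wW, tW, qW, oW, aW⟩ := (lastD (by omega) hDH dW hf.1).2 hgWl
  obtain ⟨uE, wE, tE, qE, oE, aE⟩ := (lastD (by omega) hDH dE hf.2).2 hgEl
  have hsub2 : ((↑(XH B m N) \ F) \ {e0 β} : Set Edg) ⊆ (↑(boxE N) \ F) \ {e0 β} :=
    fun e he => ⟨⟨hXH he.1.1, he.1.2⟩, he.2⟩
  refine ⟨uS, wS, uN, wN, uW, wW, gW, uE, wE, gE, ha, ham, hm, hB, hN, huS, hwS, by omega,
    rS'.mono hGe, huN, hwN, by omega, rN'.mono hGe, ?_, tW, oW, qW, hgW, aW.mono hsub2,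
    tE, oE, qE, hgE, aE.mono hsub2, hP.1, hP.2⟩
  intro hr
  apply hst
  have k1 : Reach ((F ∩ ↑(boxE N)) \ {e0 β}) p wS := rS.mono
    (by intro e he; exact ⟨⟨he.1.1, hXV he.1.2⟩, he.2⟩)
  have k2 : Reach ((F ∩ ↑(boxE N)) \ {e0 β}) p' wN := rN.mono
    (by intro e he; exact ⟨⟨he.1.1, hXV he.1.2⟩, he.2⟩)
  have hG1 : ∀ e : Edg, e ∈ Ge (0, 0) a N → e ∈ F → e ∈ ((F ∩ ↑(boxE N)) \ {e0 β} : Set Edg) := by
    intro e h1 h2
    refine ⟨⟨h2, Ge_box h1⟩, fun h3 => ?_⟩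
    rw [Set.mem_singleton_iff] at h3
    rw [h3] at h1
    exact e0_Ge ha h1
  have k3 : Reach ((F ∩ ↑(boxE N)) \ {e0 β}) uS wS :=
    (rS'.mono hGe).mono (fun e he => hG1 e he.2 he.1.1)
  have k4 : Reach ((F ∩ ↑(boxE N)) \ {e0 β}) uN wN :=
    (rN'.mono hGe).mono (fun e he => hG1 e he.2 he.1.1)
  have k5 : Reach ((F ∩ ↑(boxE N)) \ {e0 β}) uS uN := hr.mono (fun e he => hG1 e he.2 he.1)
  have k6 : Reach ((F ∩ ↑(boxE N)) \ {e0 β}) p p' :=
    ((k1.trans k3.symm).trans (k5.trans k4)).trans k2.symm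
  rcases hpp with ⟨g1, g2⟩ | ⟨g1, g2⟩
  · rw [← g1, ← g2]; exact k6
  · rw [← g1, ← g2]; exact k6.symm

section loc

variable {a m B N : ℕ} {β : Bool} {F : Set Edg} {uS wS uN wN uW wW gW uE wE gE : Vtx}

theorem e0_XV (hB : 1 ≤ B) {w : ℕ} : e0 β ∈ XV B w N := by
  unfold e0
  cases β
  · rw [mem_XV_false]; omega
  · rw [mem_XV_true]; omega

theorem dW_box (A : Arms a m B N β F uS wS uN wN uW wW gW uE wE gE) {f g : Vtx}
    (h : DReach (Fᶜ ∩ Gd (0, 0) a N) f g) : DReach ((↑(boxE N) \ F) \ {e0 β}) f g := by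
  refine h.mono ?_
  rintro e ⟨h1, h2⟩
  refine ⟨⟨Gd_box h2, h1⟩, fun h3 => ?_⟩
  rw [Set.mem_singleton_iff] at h3
  rw [h3] at h2
  exact e0_Gd A.ha h2

theorem clB {e : Edg} (h : e ∈ ((↑(boxE N) \ F) \ {e0 β} : Set Edg)) :
    e ∈ (↑(boxE N) \ insert (e0 β) (F ∩ ↑(XV B m N)) : Set Edg) := by
  refine ⟨h.1.1, fun h3 => ?_⟩
  rcases h3 with h3 | h3
  · exact h.2 h3
  · exact h.1.2 h3.1

/-- There is no dual crossing from the left to the right off the vertical path. -/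
theorem noV (A : Arms a m B N β F uS wS uN wN uW wW gW uE wE gE) {f g : Vtx}
    (hf : f.1 = -(N : ℤ) - 1) (hg : g.1 = (N : ℤ))
    (hd : DReach (↑(boxE N) \ insert (e0 β) (F ∩ ↑(XV B m N))) f g) : False := by
  have h1 := A.hm
  have h2 := A.hB
  have h3 := A.hN
  obtain ⟨u, hu, v, hv, hr⟩ := A.pV
  refine planar (by omega) hu hv (hr.mono ?_) hf hg hd
  intro e he
  refine ⟨he, ?_⟩
  rcases he with he | he
  · rw [he]
    exact (Pool.Agent.W571.DParms.XV_sub (b := B) (w := m) (N := N) (by omega) (by omega))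
      (e0_XV (by omega))
  · exact (Pool.Agent.W571.DParms.XV_sub (b := B) (w := m) (N := N) (by omega) (by omega)) he.2

theorem neWE (A : Arms a m B N β F uS wS uN wN uW wW gW uE wE gE) :
    ¬ DReach (Fᶜ ∩ Gd (0, 0) a N) wW wE := by
  intro h
  refine noV A A.w4 A.e4 ?_
  have h1 : DReach ((↑(boxE N) \ F) \ {e0 β}) gW gE :=
    (A.w5.reach.symm.trans (dW_box A h)).trans A.e5.reach
  exact h1.mono (fun e he => clB he)

theorem locW (A : Arms a m B N β F uS wS uN wN uW wW gW uE wE gE) {g : Vtx}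
    (h : DReach (Fᶜ ∩ Gd (0, 0) a N) wW g) (hg : 2 * (B : ℤ) < lf (0, 0) g) : g.1 < m := by
  have h1 := A.hm
  have h2 := A.hB
  have h3 := A.hN
  by_contra hc
  have hA := dreach_Af Set.inter_subset_right h A.w2.1
  have hA2 := lf_lt.1 hA.2
  have hg2 : ¬ lf (0, 0) g < 2 * (B : ℤ) := by omega
  rw [lf_lt] at hg2
  simp only at hA2 hg2
  refine noV A A.w4 (g := ((N : ℤ), g.2)) rfl ?_
  have k1 : DReach ((↑(boxE N) \ F) \ {e0 β}) gW g := A.w5.reach.symm.trans (dW_box A h)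
  refine (k1.mono (fun e he => clB he)).trans ?_
  refine row' (x := g.1) (y := g.2) (by omega) (fun i hi hi' => ⟨?_, ?_⟩)
  · rw [Finset.mem_coe, mem_boxE_false]; omega
  · rintro (k2 | k2)
    · unfold e0 at k2
      simp only [Prod.mk.injEq] at k2
      omega
    · have k3 := k2.2
      rw [Finset.mem_coe, mem_XV_false] at k3
      omega

theorem locE (A : Arms a m B N β F uS wS uN wN uW wW gW uE wE gE) {g : Vtx}
    (h : DReach (Fᶜ ∩ Gd (0, 0) a N) wE g) (hg : 2 * (B : ℤ) < lf (0, 0) g) :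
    -(m : ℤ) ≤ g.1 := by
  have h1 := A.hm
  have h2 := A.hB
  have h3 := A.hN
  by_contra hc
  have hA := dreach_Af Set.inter_subset_right h A.e2.1
  have hA2 := lf_lt.1 hA.2
  have hg2 : ¬ lf (0, 0) g < 2 * (B : ℤ) := by omega
  rw [lf_lt] at hg2
  simp only at hA2 hg2
  refine noV A (f := (-(N : ℤ) - 1, g.2)) rfl A.e4 ?_
  have k1 : DReach ((↑(boxE N) \ F) \ {e0 β}) g gE := (dW_box A h).symm.trans A.e5.reach
  refine DReach.trans ?_ (k1.mono (fun e he => clB he))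
  refine row' (x' := g.1) (y := g.2) (by omega) (fun i hi hi' => ⟨?_, ?_⟩)
  · rw [Finset.mem_coe, mem_boxE_false]; omega
  · rintro (k2 | k2)
    · unfold e0 at k2
      simp only [Prod.mk.injEq] at k2
      omega
    · have k3 := k2.2
      rw [Finset.mem_coe, mem_XV_false] at k3
      omega

theorem opH (A : Arms a m B N β F uS wS uN wN uW wW gW uE wE gE) {u v : Vtx}
    (h : Reach (F ∩ Ge (0, 0) a N) u v) :
    Reach (((F ∩ ↑(XH B m N)) ∪ ↑(boxE N \ XH B m N)) \ {e0 β}) u v := by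
  refine h.mono ?_
  rintro e ⟨h1, h2⟩
  refine ⟨?_, fun h3 => ?_⟩
  · by_cases h4 : e ∈ XH B m N
    · exact Or.inl ⟨h1, h4⟩
    · right
      rw [Finset.mem_coe, Finset.mem_sdiff]
      exact ⟨Ge_box h2, h4⟩
  · rw [Set.mem_singleton_iff] at h3
    rw [h3] at h2
    exact e0_Ge A.ha h2

theorem sS (A : Arms a m B N β F uS wS uN wN uW wW gW uE wE gE) :
    Reach (F ∩ Ge (0, 0) a N) uS wS := A.s4.mono (by intro e he; exact ⟨he.1.1, he.2⟩)

theorem sN (A : Arms a m B N β F uS wS uN wN uW wW gW uE wE gE) :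
    Reach (F ∩ Ge (0, 0) a N) uN wN := A.n4.mono (by intro e he; exact ⟨he.1.1, he.2⟩)

theorem e0_XH (hB : 1 ≤ B) {w : ℕ} : e0 β ∈ XH B w N := by
  unfold e0 XH boxE
  rw [Finset.mem_union]
  left
  cases β
  · rw [mem_RE_false]; omega
  · rw [mem_RE_true]; omega

theorem locS (A : Arms a m B N β F uS wS uN wN uW wW gW uE wE gE) {v : Vtx}
    (h : Reach (F ∩ Ge (0, 0) a N) uS v) (hv : (B : ℤ) < lv (0, 0) v) : v.2 < m := by
  have h1 := A.hm
  have h2 := A.hB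
  have h3 := A.hN
  have h4 := A.ha
  have h5 := A.ham
  by_contra hc
  have hA := lv_le.1 (reach_lvN Set.inter_subset_right h (by rw [A.s1]; omega))
  have hg2 : ¬ lv (0, 0) v ≤ (B : ℤ) := by omega
  rw [lv_le] at hg2
  simp only at hA hg2
  apply A.pH
  refine ⟨wS, A.s2, (v.1, (N : ℤ)), rfl, ?_⟩
  refine (opH A ((sS A).symm.trans h)).trans ?_
  refine col' (x := v.1) (y := v.2) (by omega) (fun i hi hi' => ?_)
  have k1 : ((v.1, i, false) : Edg) ∉ XH B m N := by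
    rw [mem_XH_false]; omega
  refine ⟨Or.inr ?_, fun k2 => ?_⟩
  · rw [Finset.mem_coe, Finset.mem_sdiff, mem_boxE_false]
    exact ⟨by omega, k1⟩
  · rw [Set.mem_singleton_iff] at k2
    rw [k2] at k1
    exact k1 (e0_XH (by omega))

theorem locN (A : Arms a m B N β F uS wS uN wN uW wW gW uE wE gE) {v : Vtx}
    (h : Reach (F ∩ Ge (0, 0) a N) uN v) (hv : (B : ℤ) < lv (0, 0) v) : -(m : ℤ) < v.2 := by
  have h1 := A.hm
  have h2 := A.hB
  have h3 := A.hN
  have h4 := A.ha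
  have h5 := A.ham
  by_contra hc
  have hA := lv_le.1 (reach_lvN Set.inter_subset_right h (by rw [A.n1]; omega))
  have hg2 : ¬ lv (0, 0) v ≤ (B : ℤ) := by omega
  rw [lv_le] at hg2
  simp only at hA hg2
  apply A.pH
  refine ⟨(v.1, -(N : ℤ)), rfl, wN, A.n2, ?_⟩
  refine Reach.trans ?_ (opH A (h.symm.trans (sN A)))
  refine col' (x := v.1) (y' := v.2) (by omega) (fun i hi hi' => ?_)
  have k1 : ((v.1, i, false) : Edg) ∉ XH B m N := by
    rw [mem_XH_false]; omega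
  refine ⟨Or.inr ?_, fun k2 => ?_⟩
  · rw [Finset.mem_coe, Finset.mem_sdiff, mem_boxE_false]
    exact ⟨by omega, k1⟩
  · rw [Set.mem_singleton_iff] at k2
    rw [k2] at k1
    exact k1 (e0_XH (by omega))

end loc

/-! ### Orientation -/

theorem reach_self {K : Set Edg} {u w : Vtx} (h : Reach K u w) :
    Reach {e | e ∈ K ∧ Reach K u (src e)} u w := by
  induction h with
  | refl => exact Reach.refl _ _
  | tail h1 hs ih =>
    obtain ⟨e, he, hor⟩ := hs
    refine ih.trans (Adj.reach ⟨e, ⟨he, ?_⟩, hor⟩)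
    rcases hor with ⟨g1, g2⟩ | ⟨g1, g2⟩
    · rw [g1]; exact h1
    · rw [g1]; exact Relation.ReflTransGen.tail h1 ⟨e, he, Or.inr ⟨g1, g2⟩⟩

theorem core_conn {a : ℕ} {u v : Vtx} (hu : lv (0, 0) u ≤ a) (hv : lv (0, 0) v ≤ a) :
    Reach {e | lv (0, 0) (src e) ≤ a ∧ lv (0, 0) (tgt e) ≤ a} u v := by
  classical
  by_contra hc
  have h1 := box_const (c := (0, 0)) (a := a) (h := fun w =>
    if Reach {e | lv (0, 0) (src e) ≤ a ∧ lv (0, 0) (tgt e) ≤ a} u w then (1 : ZMod 2) else 0) (by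
      intro e h1 h2
      have h3 : Reach {e | lv (0, 0) (src e) ≤ (a : ℤ) ∧ lv (0, 0) (tgt e) ≤ a} (src e) (tgt e) :=
        Adj.reach ⟨e, ⟨h1, h2⟩, Or.inl ⟨rfl, rfl⟩⟩
      have h4 : Reach {e | lv (0, 0) (src e) ≤ (a : ℤ) ∧ lv (0, 0) (tgt e) ≤ a} u (src e) ↔
          Reach {e | lv (0, 0) (src e) ≤ (a : ℤ) ∧ lv (0, 0) (tgt e) ≤ a} u (tgt e) :=
        ⟨fun h => h.trans h3, fun h => h.trans h3.symm⟩
      simp only [h4])
  have h2 := h1 u hu
  have h3 := h1 v hv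
  rw [← h3] at h2
  simp only [if_neg hc, if_pos (Reach.refl _ u)] at h2
  exact one_ne_zero h2

theorem crossY {G : Set Edg} {u w : Vtx} {k : ℤ} (h : Reach G u w) (hu : k ≤ u.2)
    (hw : w.2 ≤ k) : ∃ v : Vtx, v.2 = k ∧ Reach G u v := by
  induction h with
  | refl => exact ⟨u, by omega, Reach.refl _ _⟩
  | tail h1 hs ih =>
    rename_i w1 w2
    rcases hw.eq_or_lt with h2 | h2
    · exact ⟨w2, h2, Relation.ReflTransGen.tail h1 hs⟩
    · obtain ⟨e, he, hor⟩ := hs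
      apply ih
      obtain ⟨x, y, _ | _⟩ := e
      · simp only [src_mk, tgt_false] at hor
        rcases hor with ⟨g1, g2⟩ | ⟨g1, g2⟩
        · rw [← g1]; rw [← g2] at h2; simp only at h2 ⊢; omega
        · rw [← g2]; rw [← g1] at h2; simp only at h2 ⊢; omega
      · simp only [src_mk, tgt_true] at hor
        rcases hor with ⟨g1, g2⟩ | ⟨g1, g2⟩
        · rw [← g1]; rw [← g2] at h2; simp only at h2 ⊢; omega
        · rw [← g2]; rw [← g1] at h2; simp only at h2 ⊢; omega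

theorem cirS {n i : ℕ} {x : ℤ} (hx : (i : ℤ) = 2 * n + (x + n)) (h1 : -(n : ℤ) < x)
    (h2 : x ≤ n) : cir (0, 0) n i = (x, -(n : ℤ)) := by
  unfold cir
  rw [if_neg (by omega), if_pos (by omega)]
  ext
  · simp only; omega
  · simp only; omega

theorem cirE {n i : ℕ} {y : ℤ} (hn : 0 < n) (hy : (i : ℤ) = 4 * n + (y + n))
    (h1 : -(n : ℤ) ≤ y) (h2 : y ≤ n) : cir (0, 0) n i = ((n : ℤ), y) := by
  unfold cir
  rw [if_neg (by omega)]
  by_cases h : i ≤ 4 * n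
  · rw [if_pos h]
    ext
    · simp only; omega
    · simp only; omega
  · rw [if_neg h, if_pos (by omega)]
    ext
    · simp only; omega
    · simp only; omega

/-- The potentials of the two crossings. -/
theorem pots {F : Set Edg} {a N : ℕ} {σ ρ : St} {T T' : ℕ} (hLk : St_LkOut) (ha : 1 ≤ a)
    (haN : a < N) (hσ : InLeg F (0, 0) a N σ T) (hρ : InLeg F (0, 0) a N ρ T') :
    ∃ hv hf : Vtx → ZMod 2, (∀ x : St, Af (0, 0) a N (face x) →
      hv x.1 + hf (face x) = al F σ T x + al F ρ T' x) ∧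
      ∀ e ∈ F ∩ Ge (0, 0) a N, hv (src e) = hv (tgt e) := by
  obtain ⟨β₁, h1a, h1b⟩ := lkIn (0, 0) a (orb F σ T) (orb F ρ T') hσ.en hρ.en
  obtain ⟨β₂, h2a, h2b⟩ := hLk (0, 0) N σ ρ hσ.st hρ.st
  obtain ⟨hv, hf, hpot⟩ := pot4
    (fun x => al F σ T x + al F ρ T' x + β₁ x + β₂ x) (by
      intro x
      have e1 := al_T4 F σ T x
      have e2 := al_T4 F ρ T' x
      have e3 := h1b x
      have e4 := h2b x
      have e5 := z2s (inc σ x)
      have e6 := z2s (inc (orb F σ T) x)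
      have e7 := z2s (inc ρ x)
      have e8 := z2s (inc (orb F ρ T') x)
      unfold T4 at e1 e2 e3 e4 ⊢
      linear_combination e1 + e2 + e3 + e4 + e5 + e6 + e7 + e8)
  have hA : ∀ x : St, Af (0, 0) a N (face x) →
      hv x.1 + hf (face x) = al F σ T x + al F ρ T' x := by
    intro x hx
    rw [hpot, h1a x hx.1, h2a x hx.2]
    ring
  refine ⟨hv, hf, hA, ?_⟩
  rintro e ⟨he1, he2⟩
  obtain ⟨x, rfl, hx⟩ := exists_faceA ha haN he2
  have hx1 := hx.1
  have hx2 := hx.2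
  have key : ∀ {τ : St} {t : ℕ}, InLeg F (0, 0) a N τ t → al F τ t x = al F τ t (mv x) := by
    intro τ t hτ
    have k1 := al_nxt F τ t x
    rw [nxt_open he1] at k1
    have k2 : ¬ mv x = τ := by
      intro h
      have h3 := hτ.st
      rw [← h, p2_face_mv] at h3
      omega
    have k3 : ¬ mv x = orb F τ t := by
      intro h
      have h3 := hτ.en
      rw [← h, p2_face_mv] at h3
      omega
    rw [b2_not_of k2, b2_not_of k3, add_zero] at k1
    exact z2_eq k1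
  have k1 := hA x hx
  have k2 := hA (mv x) (by rw [p2_face_mv]; exact hx)
  rw [key hσ, key hρ, ← k2, p2_face_mv] at k1
  have k3 : hv x.1 = hv (mv x).1 := add_right_cancel k1
  rcases p2_ends x with ⟨g2, g3⟩ | ⟨g2, g3⟩
  · rw [g2, g3]; exact k3
  · rw [g2, g3]; exact k3.symm

section bad

variable {a m B N : ℕ} {β : Bool} {F : Set Edg} {uS wS uN wN uW wW gW uE wE gE : Vtx}

/-- The vertices of the bottom arm. -/
theorem vert (A : Arms a m B N β F uS wS uN wN uW wW gW uE wE gE) {v : Vtx}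
    (h : Reach ((F ∩ ↑(XV B m N)) ∩ Ge (0, 0) a N) uS v) :
    lv (0, 0) v ≤ B ∨ (-(m : ℤ) ≤ v.1 ∧ v.1 ≤ m) := by
  have h1 := A.hm
  have h2 := A.hB
  have h3 := A.hN
  have h4 := A.ham
  induction h with
  | refl => left; rw [A.s1]; omega
  | tail _ hs _ =>
    obtain ⟨e, ⟨⟨-, he⟩, -⟩, hor⟩ := hs
    rw [lv_le]
    obtain ⟨x, y, _ | _⟩ := e
    · rw [Finset.mem_coe, mem_XV_false] at he
      simp only [src_mk, tgt_false] at hor
      rcases hor with ⟨g1, g2⟩ | ⟨g1, g2⟩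
      · rw [← g2]; simp only; omega
      · rw [← g1]; simp only; omega
    · rw [Finset.mem_coe, mem_XV_true] at he
      simp only [src_mk, tgt_true] at hor
      rcases hor with ⟨g1, g2⟩ | ⟨g1, g2⟩
      · rw [← g2]; simp only; omega
      · rw [← g1]; simp only; omega

/-- The faces to the left of the bottom arm are not in the right dual cluster. -/
theorem cut (A : Arms a m B N β F uS wS uN wN uW wW gW uE wE gE) {x0 : ℤ}
    (hmin : ∀ x : ℤ, Reach ((F ∩ ↑(XV B m N)) ∩ Ge (0, 0) a N) uS (x, -(2 * B : ℤ)) → x0 ≤ x)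
    {g : Vtx} (hg : DReach (Fᶜ ∩ Gd (0, 0) a N) wE g)
    (hg2 : g.2 = -(2 * B : ℤ) ∨ g.2 = -(2 * B : ℤ) - 1) (hx : g.1 < x0) : False := by
  have h1 := A.hm
  have h2 := A.hB
  have h3 := A.hN
  have h4 := A.ham
  have h5 := A.ha
  obtain ⟨K, hK⟩ : ∃ K, K = (F ∩ ↑(XV B m N)) ∩ Ge (0, 0) a N := ⟨_, rfl⟩
  have s4 := A.s4
  have n4 := A.n4
  rw [← hK] at hmin s4 n4
  have hKF : ∀ e ∈ K, e ∈ F ∩ Ge (0, 0) a N := by
    rw [hK]
    exact fun e he => ⟨he.1.1, he.2⟩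
  obtain ⟨G, hG⟩ : ∃ G : Set Edg, G = ({e | e ∈ K ∧ Reach K uS (src e)} ∪
    {e | e ∈ K ∧ Reach K uN (src e)}) ∪ {e | lv (0, 0) (src e) ≤ a ∧ lv (0, 0) (tgt e) ≤ a} :=
    ⟨_, rfl⟩
  have hA2 := lf_lt.1 (dreach_Af Set.inter_subset_right hg A.e2.1).2
  simp only at hA2
  refine planar (N := N) (by omega) (G := G) A.s2 A.n2 ?_ (f := (-(N : ℤ) - 1, g.2)) rfl A.e4 ?_
  · have k1 : Reach (G ∩ ↑(boxE N)) uS wS := by
      refine (reach_self s4).mono ?_
      intro e he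
      exact ⟨by rw [hG]; exact Or.inl (Or.inl he), Ge_box (hKF e he.1).2⟩
    have k2 : Reach (G ∩ ↑(boxE N)) uN wN := by
      refine (reach_self n4).mono ?_
      intro e he
      exact ⟨by rw [hG]; exact Or.inl (Or.inr he), Ge_box (hKF e he.1).2⟩
    have k3 : Reach (G ∩ ↑(boxE N)) uS uN := by
      refine (core_conn (a := a) (by rw [A.s1]) (by rw [A.n1])).mono ?_
      rintro e ⟨he1, he2⟩
      refine ⟨by rw [hG]; exact Or.inr ⟨he1, he2⟩, ?_⟩
      rw [lv_le] at he1 he2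
      rw [Finset.mem_coe, mem_box]
      simp only at he1 he2
      omega
    exact (k1.symm.trans k3).trans k2
  · have hfin : ∀ e : Edg, e ∉ F → e ∈ boxE N →
        ¬ (lv (0, 0) (src e) ≤ a ∧ lv (0, 0) (tgt e) ≤ a) → e ∈ (↑(boxE N) \ G : Set Edg) := by
      intro e k1 k2 k3
      refine ⟨k2, fun k4 => ?_⟩
      rw [hG] at k4
      rcases k4 with (k4 | k4) | k4
      · exact k1 (hKF e k4.1).1
      · exact k1 (hKF e k4.1).1
      · exact k3 k4
    have k1 : DReach (↑(boxE N) \ G) wE gE := by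
      obtain ⟨e, he, hor⟩ := A.e5
      refine DAdj.reach ⟨e, hfin e he.1.2 he.1.1 ?_, hor⟩
      rintro ⟨k2, k3⟩
      rw [lv_le] at k2 k3
      have k4 := A.e4
      obtain ⟨x, y, _ | _⟩ := e
      · simp only [src_mk, tgt_false, dsrc_false, dtgt_mk] at k2 k3 hor
        rcases hor with ⟨g1, g2⟩ | ⟨g1, g2⟩
        · rw [← g2] at k4; simp only at k4; omega
        · rw [← g1] at k4; simp only at k4; omega
      · simp only [src_mk, tgt_true, dsrc_true, dtgt_mk] at k2 k3 hor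
        rcases hor with ⟨g1, g2⟩ | ⟨g1, g2⟩
        · rw [← g2] at k4; simp only at k4; omega
        · rw [← g1] at k4; simp only at k4; omega
    have k2 : DReach (↑(boxE N) \ G) wE g := by
      refine hg.mono ?_
      rintro e ⟨he1, he2⟩
      refine hfin e he1 (Gd_box he2) ?_
      rintro ⟨k2, k3⟩
      have k4 : ¬ lf (0, 0) (dsrc e) < 2 * (a : ℤ) := by have := he2.1.1; omega
      have k5 : ¬ lf (0, 0) (dtgt e) < 2 * (a : ℤ) := by have := he2.2.1; omega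
      rw [lv_le] at k2 k3
      rw [lf_lt] at k4 k5
      obtain ⟨x, y, _ | _⟩ := e
      · simp only [src_mk, tgt_false, dsrc_false, dtgt_mk] at k2 k3 k4 k5
        omega
      · simp only [src_mk, tgt_true, dsrc_true, dtgt_mk] at k2 k3 k4 k5
        omega
    refine DReach.trans ?_ (k2.symm.trans k1)
    refine row' (x' := g.1) (y := g.2) (by omega) (fun i hi hi' => ?_)
    refine ⟨by rw [Finset.mem_coe, mem_boxE_false]; omega, fun k4 => ?_⟩
    rw [hG] at k4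
    have hv : ∀ u : Vtx, ((i, g.2, false) : Edg) ∈ K → Reach K u (src ((i, g.2, false) : Edg)) →
        Reach K u (i, -(2 * B : ℤ)) := by
      intro u k5 k6
      rcases hg2 with k7 | k7
      · rw [← k7]; exact k6
      · have k8 : ((i, -(2 * B : ℤ)) : Vtx) = tgt ((i, g.2, false) : Edg) := by
          rw [tgt_false, k7]
          ext
          · rfl
          · simp only; omega
        rw [k8]
        exact k6.trans (Adj.reach ⟨_, k5, Or.inl ⟨rfl, rfl⟩⟩)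
    rcases k4 with (k4 | k4) | k4
    · have := hmin i (hv uS k4.1 k4.2)
      omega
    · have k5 := (hv uN k4.1 k4.2).mono hKF
      have k6 := locN A k5 (by
        have : (2 * B : ℤ) ≤ lv (0, 0) (i, -(2 * B : ℤ)) := by rw [le_lv]; simp only; omega
        omega)
      simp only at k6
      omega
    · obtain ⟨k5, k6⟩ := k4
      rw [lv_le] at k5 k6
      simp only [src_mk, tgt_false] at k5 k6
      omega

/-- The wrong orientation is impossible. -/
theorem bad (hFl : St_FLUX) (hB : St_basic) (hLk : St_LkOut) (hr : St_restr)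
    (A : Arms a m B N β F uS wS uN wN uW wW gW uE wE gE) {σ ρ : St} {T T' : ℕ}
    (hσ : InLeg F (0, 0) a N σ T) (hρ : InLeg F (0, 0) a N ρ T')
    (oσ : Reach (F ∩ Ge (0, 0) a N) uS σ.1) (oρ : Reach (F ∩ Ge (0, 0) a N) uN ρ.1)
    (dσ : DReach (Fᶜ ∩ Gd (0, 0) a N) wE (face (orb F σ 1)))
    (dρ : DReach (Fᶜ ∩ Gd (0, 0) a N) wW (face (orb F ρ 1))) : False := by
  have h1 := A.hm
  have h2 := A.hB
  have h3 := A.hN
  have h4 := A.ham
  have h5 := A.ha
  have haN : a < N := by omega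
  obtain ⟨b1, b2', b3, b4, b5, b6, b7, b8⟩ := hB F (0, 0) a N σ T haN hσ
  obtain ⟨c1, c2, c3, c4, c5, c6, c7, c8⟩ := hB F (0, 0) a N ρ T' haN hρ
  obtain ⟨hv, hf, hA, hcon⟩ := pots hLk (by omega) haN hσ hρ
  have hx : ∀ v, Reach (F ∩ Ge (0, 0) a N) uS v → hv v = hv uS :=
    fun v h => (reach_const hcon h).symm
  have s4 := A.s4
  obtain ⟨v0, hv0, hr0⟩ := crossY (k := -(2 * B : ℤ)) s4 (by
    have := lv_le.1 (le_of_eq A.s1)
    simp only at this
    omega) (by rw [A.s2]; omega)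
  have hex : ∃ x : ℤ, Reach ((F ∩ ↑(XV B m N)) ∩ Ge (0, 0) a N) uS (x, -(2 * B : ℤ)) :=
    ⟨v0.1, by rw [← hv0]; exact hr0⟩
  have hbd : ∀ x : ℤ, Reach ((F ∩ ↑(XV B m N)) ∩ Ge (0, 0) a N) uS (x, -(2 * B : ℤ)) →
      -(m : ℤ) ≤ x ∧ x ≤ m := by
    intro x h
    rcases vert A h with k | k
    · rw [lv_le] at k
      simp only at k
      omega
    · exact k
  obtain ⟨x0, hx0, hmin⟩ := Int.exists_least_of_bdd ⟨-(m : ℤ), fun x h => (hbd x h).1⟩ hex
  have hx0' := hbd x0 hx0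
  obtain ⟨n, hn⟩ : ∃ n : ℕ, n = 2 * B := ⟨_, rfl⟩
  have hnZ : (n : ℤ) = 2 * B := by rw [hn]; push_cast; ring
  obtain ⟨i0, hi0⟩ : ∃ i0 : ℕ, (i0 : ℤ) = 2 * n + (x0 + n) :=
    ⟨(2 * n + (x0 + n)).toNat, by omega⟩
  have hcut := fun g => cut A hmin (g := g)
  have hfl := hFl F (0, 0) a N n i0 (5 * n + 2 * m + 4) σ T hv hf (hv uS) (by omega) (by omega)
    (by omega) (by omega) hσ (fun s hs hsT => hx _ (oσ.trans (b5 s hsT.le))) ?_ ?_
  · have k1 := hfl.2
    rw [cirS hi0 (by omega) (by omega), hnZ] at k1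
    rw [hx _ (hx0.mono (by intro e he; exact ⟨he.1.1, he.2⟩))] at k1
    exact ne_add_one _ k1
  · intro e he hes het
    obtain ⟨s, hsT, rfl⟩ := mem_Exm.1 he
    have hlv : lv (0, 0) (orb F σ s).1 = n := by
      rcases p2_ends (orb F σ s) with ⟨g1, g2⟩ | ⟨g1, g2⟩
      · rw [← g1]; exact hes
      · rw [← g2]; exact het
    have hs0 : 0 < s := by
      by_contra h
      have h0 : s = 0 := by omega
      rw [h0, orb_zero, b2'] at hlv
      omega
    have k1 := locS A (oσ.trans (b5 s hsT.le)) (by rw [hlv]; omega)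
    have k2 : DReach (Fᶜ ∩ Gd (0, 0) a N) wE (face (orb F σ s)) := dσ.trans (b6 s hs0 hsT)
    have k3 := fun h => locE A k2 h
    have k4 := hcut _ k2
    generalize orb F σ s = τ at hes het hlv k1 k2 k3 k4
    obtain ⟨⟨x, y⟩, q⟩ := τ
    have e1 := le_of_eq hlv
    have e2 := le_of_eq hes
    have e3 := le_of_eq het
    have e4 := ge_of_eq hlv
    have e5 := ge_of_eq hes
    have e6 := ge_of_eq het
    rw [lv_le] at e1 e2 e3
    rw [le_lv] at e4 e5 e6
    have hlf : ∀ f : Vtx, (x - 1 ≤ f.1 ∧ f.1 ≤ x) → (y - 1 ≤ f.2 ∧ f.2 ≤ y) →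
        2 * (B : ℤ) < lf (0, 0) f := by
      intro f g1 g2
      by_contra g3
      have g4 : lf (0, 0) f < 2 * (B : ℤ) := by
        have := lf_odd (0, 0) f B
        omega
      rw [lf_lt] at g4
      simp only at g4 e4
      omega
    cases q
    · have k5 := k3 (hlf _ (by simp) (by simp))
      simp only [face_ne, ae_ne, src_mk, tgt_true] at k1 k4 k5 e1 e2 e3 e4 e5 e6 ⊢
      have hy : y = -(2 * B : ℤ) := by omega
      have hx1 : x0 ≤ x := by
        by_contra h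
        exact k4 (Or.inl hy) (by omega)
      obtain ⟨i, hi⟩ : ∃ i : ℕ, (i : ℤ) = 2 * n + (x + n) := ⟨(2 * n + (x + n)).toNat, by omega⟩
      refine ⟨i, by omega, by omega, Or.inl ⟨?_, ?_⟩⟩
      · rw [cirS hi (by omega) (by omega), hy, hnZ]
      · rw [cirS (i := i + 1) (x := x + 1) (by push_cast; omega) (by omega) (by omega), hy, hnZ]
    · have k5 := k3 (hlf _ (by simp) (by simp))
      simp only [face_nw, ae_nw, src_mk, tgt_false] at k1 k4 k5 e1 e2 e3 e4 e5 e6 ⊢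
      have hx1 : x = n := by omega
      obtain ⟨i, hi⟩ : ∃ i : ℕ, (i : ℤ) = 4 * n + (y + n) := ⟨(4 * n + (y + n)).toNat, by omega⟩
      refine ⟨i, by omega, by omega, Or.inl ⟨?_, ?_⟩⟩
      · rw [cirE (by omega) hi (by omega) (by omega), hx1]
      · rw [cirE (i := i + 1) (y := y + 1) (by omega) (by push_cast; omega) (by omega) (by omega),
          hx1]
    · have k5 := k3 (hlf _ (by simp) (by simp))
      simp only [face_sw, ae_sw, src_mk, tgt_true, sub_add_cancel] at k1 k4 k5 e1 e2 e3 e4 e5 e6 ⊢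
      have hy : y = -(2 * B : ℤ) := by omega
      have hx1 : x0 ≤ x - 1 := by
        by_contra h
        exact k4 (Or.inr (by omega)) (by omega)
      obtain ⟨i, hi⟩ : ∃ i : ℕ, (i : ℤ) = 2 * n + (x - 1 + n) :=
        ⟨(2 * n + (x - 1 + n)).toNat, by omega⟩
      refine ⟨i, by omega, by omega, Or.inl ⟨?_, ?_⟩⟩
      · rw [cirS hi (by omega) (by omega), hy, hnZ]
      · rw [cirS (i := i + 1) (x := x) (by push_cast; omega) (by omega) (by omega), hy, hnZ]
    · have k5 := k3 (hlf _ (by simp) (by simp))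
      simp only [face_se, ae_se, src_mk, tgt_false, sub_add_cancel] at k1 k4 k5 e1 e2 e3 e4 e5 e6 ⊢
      have hx1 : x = n := by omega
      obtain ⟨i, hi⟩ : ∃ i : ℕ, (i : ℤ) = 4 * n + (y - 1 + n) :=
        ⟨(4 * n + (y - 1 + n)).toNat, by omega⟩
      refine ⟨i, by omega, by omega, Or.inl ⟨?_, ?_⟩⟩
      · rw [cirE (by omega) hi (by omega) (by omega), hx1]
      · rw [cirE (i := i + 1) (y := y) (by omega) (by push_cast; omega) (by omega) (by omega),
          hx1]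
  · rintro ⟨⟨x, y⟩, q⟩ ⟨i, hi1, hi2, hi⟩
    have hpos : (y = -(2 * B : ℤ) ∧ -(2 * B : ℤ) < x ∧ x ≤ 2 * B) ∨
        (x = 2 * B ∧ -(2 * B : ℤ) ≤ y ∧ y ≤ 2 * B) := by
      simp only at hi
      by_cases h : i ≤ 4 * n
      · left
        rw [cirS (x := (i : ℤ) - 3 * n) (by ring) (by omega) (by omega), Prod.mk.injEq] at hi
        omega
      · right
        rw [cirE (y := (i : ℤ) - 5 * n) (by omega) (by ring) (by omega) (by omega),
          Prod.mk.injEq] at hi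
        omega
    have hlvv : (B : ℤ) < lv (0, 0) (x, y) := by
      have : (2 * B : ℤ) ≤ lv (0, 0) (x, y) := by rw [le_lv]; simp only; omega
      omega
    have hfa : (x - 1 ≤ (face ((x, y), q)).1 ∧ (face ((x, y), q)).1 ≤ x) ∧
        (y - 1 ≤ (face ((x, y), q)).2 ∧ (face ((x, y), q)).2 ≤ y) := by
      cases q <;> simp
    have hAf : Af (0, 0) a N (face ((x, y), q)) := by
      constructor
      · by_contra g3
        have g4 : lf (0, 0) (face ((x, y), q)) < 2 * (a : ℤ) := by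
          have := lf_odd (0, 0) (face ((x, y), q)) a
          omega
        rw [lf_lt] at g4
        simp only at g4
        omega
      · rw [lf_lt]
        simp only
        omega
    have hlfB : 2 * (B : ℤ) < lf (0, 0) (face ((x, y), q)) := by
      by_contra g3
      have g4 : lf (0, 0) (face ((x, y), q)) < 2 * (B : ℤ) := by
        have := lf_odd (0, 0) (face ((x, y), q)) B
        omega
      rw [lf_lt] at g4
      simp only at g4
      omega
    have hρ0 : al F ρ T' ((x, y), q) = 0 := by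
      refine al_zero fun r hrT he => ?_
      have hr0 : 0 < r := by
        by_contra h
        have h0 : r = 0 := by omega
        rw [h0, orb_zero] at he
        have k1 := hρ.st
        rw [he] at k1
        have k2 := hAf.2
        omega
      have k1 := locN A (oρ.trans (c5 r hrT.le)) (by rw [he]; exact hlvv)
      have k2 := locW A (dρ.trans (c6 r hr0 hrT)) (by rw [he]; exact hlfB)
      rw [he] at k1 k2
      simp only at k1
      omega
    rw [hA _ hAf, hρ0, add_zero]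
    by_cases hex2 : ∃ s, 0 < s ∧ s < T ∧ orb F σ s = ((x, y), q)
    · rw [b2_of hex2]
      obtain ⟨s, hs0, hsT, hs⟩ := hex2
      rw [← hs]
      refine al_one hsT (fun r hrT hrs => ?_)
      rcases Nat.lt_or_ge r s with g | g
      · exact inj hr haN hσ g (by omega)
      · exact (inj hr haN hσ (show s < r by omega) (by omega)).symm
    · rw [b2_not_of hex2]
      refine al_zero fun r hrT he => hex2 ⟨r, ?_, hrT, he⟩
      by_contra h
      have h0 : r = 0 := by omega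
      rw [h0, orb_zero] at he
      have k1 := hσ.st
      rw [he] at k1
      have k2 := hAf.2
      omega

end bad

/-! ### Assembly -/

theorem face_near (x : St) : (x.1.1 - 1 ≤ (face x).1 ∧ (face x).1 ≤ x.1.1) ∧
    (x.1.2 - 1 ≤ (face x).2 ∧ (face x).2 ≤ x.1.2) := by
  obtain ⟨⟨x, y⟩, q⟩ := x
  cases q <;> simp

theorem src_near (x : St) : (x.1.1 - 1 ≤ (src (ae x)).1 ∧ (src (ae x)).1 ≤ x.1.1) ∧
    (x.1.2 - 1 ≤ (src (ae x)).2 ∧ (src (ae x)).2 ≤ x.1.2) := by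
  obtain ⟨⟨x, y⟩, q⟩ := x
  cases q <;> simp

theorem near {F : Set Edg} {a N : ℕ} (hB : St_basic) (haN : a < N) {σ : St} {T : ℕ} {w : Vtx}
    (hσ : InLeg F (0, 0) a N σ T)
    (dσ : DReach (Fᶜ ∩ Gd (0, 0) a N) w (face (orb F σ 1))) {s : ℕ} (hs : s < T) :
    ∃ g, DReach (Fᶜ ∩ Gd (0, 0) a N) w g ∧
      ((orb F σ s).1.1 - 1 ≤ g.1 ∧ g.1 ≤ (orb F σ s).1.1) ∧
      ((orb F σ s).1.2 - 1 ≤ g.2 ∧ g.2 ≤ (orb F σ s).1.2) := by
  obtain ⟨b1, b2', b3, b4, b5, b6, b7, b8⟩ := hB F (0, 0) a N σ T haN hσ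
  rcases Nat.eq_zero_or_pos s with h0 | h0
  · subst h0
    refine ⟨face (orb F σ 1), dσ, ?_⟩
    rcases step F σ 0 with ⟨-, g1, -⟩ | ⟨-, -, g2⟩
    · exfalso
      rw [zero_add, orb_zero] at g1
      have k1 := (hσ.mid 1 one_pos b1).2
      have k2 := hσ.st
      rw [g1] at k1
      omega
    · rw [zero_add] at g2
      rw [← g2]
      exact face_near _
  · exact ⟨face (orb F σ s), dσ.trans (b6 s h0 hs), face_near _⟩

end Pool.Agent.N948.IX.X21

namespace Pool.Agent.N948.IX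

open H974 H12S Finset H984P H342P Pool.Agent.W92.DP X21 X5 Bas N1

/-- The plus event gives two crossings in opposite quadrants, or three crossing clusters. -/
theorem lt (hFl : St_FLUX) (hB : St_basic) (_h1o : St_N1o) (h1d : St_N1d) (h2o : St_N2o)
    (hE : St_E) (hLk : St_LkOut) (hr : St_restr) : St_LT := by
  intro L m a β F hL hm ha ham hP hOC
  have hArm := Pool.Agent.W571.DParms.arms L m hL hm β F hP
  obtain ⟨B, hBd⟩ : ∃ B : ℕ, B = 4 * L * m := ⟨_, rfl⟩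
  obtain ⟨N, hNd⟩ : ∃ N : ℕ, N = 16 * L * m := ⟨_, rfl⟩
  rw [← hBd, ← hNd] at hP hArm ⊢
  rw [← hNd] at hOC
  have hB8 : 8 * m ≤ B := by rw [hBd]; nlinarith
  have hN4 : N = 4 * B := by rw [hBd, hNd]; ring
  obtain ⟨uS, wS, uN, wN, uW, wW, gW, uE, wE, gE, A⟩ := arms_of ha ham hm hB8 hN4 hP hArm
  have haN : a < N := by omega
  obtain ⟨σ, T, hσ, oσ⟩ := h2o F (0, 0) a N uS wS uN wN (by omega) haN A.s1 A.s3 (sS A) A.n1 A.n3
    (sN A) A.sn
  obtain ⟨ρ, T', hρ, oρ⟩ := h2o F (0, 0) a N uN wN uS wS (by omega) haN A.n1 A.n3 (sN A) A.s1 A.s3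
    (sS A) (fun h => A.sn h.symm)
  have hne : σ ≠ ρ := by
    rintro rfl
    exact A.sn (oσ.trans oρ.symm)
  have hDC : ¬ DC (0, 0) a N 3 F :=
    fun h => hOC ((hE F (0, 0) a N 3 (by omega) haN (by norm_num)).2 h)
  have hcl : ∀ {τ : St} {t : ℕ}, InLeg F (0, 0) a N τ t →
      DReach (Fᶜ ∩ Gd (0, 0) a N) wW (face (orb F τ 1)) ∨
        DReach (Fᶜ ∩ Gd (0, 0) a N) wE (face (orb F τ 1)) := by
    intro τ t hτ
    obtain ⟨b1, b2', b3, b4, b5, b6, b7, b8⟩ := hB F (0, 0) a N τ t haN hτ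
    have b9 := b6 (t - 1) (by omega) (by omega)
    by_contra hc
    rw [not_or] at hc
    apply hDC
    have n1 : ¬ DReach (Fᶜ ∩ Gd (0, 0) a N) uW uE := fun h =>
      neWE A ((A.w3.symm.trans h).trans A.e3)
    have n2 : ¬ DReach (Fᶜ ∩ Gd (0, 0) a N) uW (face (orb F τ (t - 1))) := fun h =>
      hc.1 ((A.w3.symm.trans h).trans b9.symm)
    have n3 : ¬ DReach (Fᶜ ∩ Gd (0, 0) a N) uE (face (orb F τ (t - 1))) := fun h =>
      hc.2 ((A.e3.symm.trans h).trans b9.symm)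
    refine ⟨![uW, uE, face (orb F τ (t - 1))], ?_, ?_⟩
    · intro i
      fin_cases i
      · exact ⟨A.w1, wW, A.w2, A.w3⟩
      · exact ⟨A.e1, wE, A.e2, A.e3⟩
      · exact ⟨b8, _, b7, b9.symm⟩
    · intro i j hij
      fin_cases i <;> fin_cases j
      · exact absurd rfl hij
      · exact n1
      · exact n2
      · exact fun h => n1 h.symm
      · exact absurd rfl hij
      · exact n3
      · exact fun h => n2 h.symm
      · exact fun h => n3 h.symm
      · exact absurd rfl hij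
  have hd := h1d F (0, 0) a N σ ρ T T' haN hσ hρ hne
  rcases hcl hσ with dσ | dσ
  · rcases hcl hρ with dρ | dρ
    · exact absurd (dσ.symm.trans dρ) hd
    · refine ⟨σ, T, ρ, T', hσ, hρ, hne, ?_, ?_⟩
      · intro e he hle
        obtain ⟨s, hsT, rfl⟩ := mem_Exm.1 he
        obtain ⟨b1, b2', b3, b4, b5, b6, b7, b8⟩ := hB F (0, 0) a N σ T haN hσ
        obtain ⟨g, hg, hg1, hg2⟩ := near hB haN hσ dσ hsT
        have k0 := src_near (orb F σ s)
        rw [le_lv] at hle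
        simp only at hle
        push_cast at hle
        have k1 := locS A (oσ.trans (b5 s hsT.le)) (by
          have : (B : ℤ) + 1 ≤ lv (0, 0) (orb F σ s).1 := by rw [le_lv]; simp only; omega
          omega)
        have k2 := locW A hg (by
          by_contra g3
          have g4 : lf (0, 0) g < 2 * (B : ℤ) := by
            have := lf_odd (0, 0) g B
            omega
          rw [lf_lt] at g4
          simp only at g4
          omega)
        simp only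
        push_cast
        omega
      · intro e he hle
        obtain ⟨s, hsT, rfl⟩ := mem_Exm.1 he
        obtain ⟨b1, b2', b3, b4, b5, b6, b7, b8⟩ := hB F (0, 0) a N ρ T' haN hρ
        obtain ⟨g, hg, hg1, hg2⟩ := near hB haN hρ dρ hsT
        have k0 := src_near (orb F ρ s)
        rw [le_lv] at hle
        simp only at hle
        push_cast at hle
        have k1 := locN A (oρ.trans (b5 s hsT.le)) (by
          have : (B : ℤ) + 1 ≤ lv (0, 0) (orb F ρ s).1 := by rw [le_lv]; simp only; omega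
          omega)
        have k2 := locE A hg (by
          by_contra g3
          have g4 : lf (0, 0) g < 2 * (B : ℤ) := by
            have := lf_odd (0, 0) g B
            omega
          rw [lf_lt] at g4
          simp only at g4
          omega)
        simp only
        push_cast
        omega
  · rcases hcl hρ with dρ | dρ
    · exact (bad hFl hB hLk hr A hσ hρ oσ oρ dσ dρ).elim
    · exact absurd (dσ.symm.trans dρ) hd

end Pool.Agent.N948.IX
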