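import Pool.Agent.N948.IX.Ex0
import Pool.Agent.N948.IX.A2
import Pool.Agent.W571.DParms

/-!
# Probability of two crossings in opposite quadrants
-/

set_option autoImplicit false

namespace Pool.Agent.N948.IX

open H974 H906.Cyl H12S Finset H984P H342P H984P.SideAux MeasureTheory Filter Topology
open Pool.Agent.W92.DP (core4 SA HA DTB DLR)
open H984N (Dm sd)

namespace X22

theorem ok : Ok (fun _ : Edg => (1/2 : ℝ)) := fun _ => by constructor <;> norm_num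

/-! ### Translations -/

/-- the translated state -/
def sT (c : Vtx) (σ : St) : St := ((trl c.1 c.2).ψ σ.1, σ.2)

theorem sT_inj (c : Vtx) {σ ρ : St} (h : sT c σ = sT c ρ) : σ = ρ := by
  unfold sT at h
  rw [Prod.mk.injEq] at h
  exact Prod.ext ((trl c.1 c.2).ψ.injective h.1) h.2

theorem face_sT (c : Vtx) (σ : St) : face (sT c σ) = (trl c.1 c.2).ψ (face σ) := by
  obtain ⟨⟨x, y⟩, q⟩ := σ
  obtain ⟨p, r⟩ := c
  cases q
  · rfl
  · refine Prod.ext ?_ ?_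
    · change x + p - 1 = x - 1 + p
      ring
    · rfl
  · refine Prod.ext ?_ ?_
    · change x + p - 1 = x - 1 + p
      ring
    · change y + r - 1 = y - 1 + r
      ring
  · refine Prod.ext ?_ ?_
    · rfl
    · change y + r - 1 = y - 1 + r
      ring

theorem ae_sT (c : Vtx) (σ : St) : ae (sT c σ) = (trl c.1 c.2).φ (ae σ) := by
  obtain ⟨⟨x, y⟩, q⟩ := σ
  obtain ⟨p, r⟩ := c
  cases q
  · rfl
  · rfl
  · refine Prod.ext ?_ ?_
    · change x + p - 1 = x - 1 + p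
      ring
    · rfl
  · refine Prod.ext ?_ (Prod.ext ?_ ?_)
    · rfl
    · change y + r - 1 = y - 1 + r
      ring
    · rfl

theorem mv_sT (c : Vtx) (σ : St) : mv (sT c σ) = sT c (mv σ) := by
  obtain ⟨⟨x, y⟩, q⟩ := σ
  obtain ⟨p, r⟩ := c
  cases q
  · refine Prod.ext (Prod.ext ?_ ?_) ?_
    · change x + p + 1 = x + 1 + p
      ring
    · rfl
    · rfl
  · refine Prod.ext (Prod.ext ?_ ?_) ?_
    · rfl
    · change y + r + 1 = y + 1 + r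
      ring
    · rfl
  · refine Prod.ext (Prod.ext ?_ ?_) ?_
    · change x + p - 1 = x - 1 + p
      ring
    · rfl
    · rfl
  · refine Prod.ext (Prod.ext ?_ ?_) ?_
    · rfl
    · change y + r - 1 = y - 1 + r
      ring
    · rfl

theorem rt_sT (c : Vtx) (σ : St) : rt (sT c σ) = sT c (rt σ) := by
  obtain ⟨⟨x, y⟩, q⟩ := σ
  cases q <;> rfl

theorem lv_tr' (c v : Vtx) : lv c ((trl c.1 c.2).ψ v) = lv (0, 0) v := by
  obtain ⟨x, y⟩ := v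
  obtain ⟨p, q⟩ := c
  simp only [trl_ψ, lv, add_sub_cancel_right, sub_zero]

theorem lf_sT (c : Vtx) (σ : St) : lf c (face (sT c σ)) = lf (0, 0) (face σ) := by
  rw [face_sT]
  obtain ⟨x, y⟩ := face σ
  obtain ⟨p, q⟩ := c
  simp only [trl_ψ, lf, add_sub_cancel_right, sub_zero]

theorem nxt_sT (c : Vtx) (F : Set Edg) (σ : St) :
    nxt ((trl c.1 c.2).φ '' F) (sT c σ) = sT c (nxt F σ) := by
  by_cases h : ae σ ∈ F
  · rw [nxt_open h, nxt_open (by rw [ae_sT]; exact Set.mem_image_of_mem _ h), mv_sT]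
  · rw [nxt_closed h, nxt_closed, rt_sT]
    rw [ae_sT]
    rintro ⟨e, he, h1⟩
    exact h (by rwa [← (trl c.1 c.2).φ.injective h1])

theorem orb_sT (c : Vtx) (F : Set Edg) (σ : St) (s : ℕ) :
    orb ((trl c.1 c.2).φ '' F) (sT c σ) s = sT c (orb F σ s) := by
  induction s with
  | zero => rfl
  | succ s ih => rw [orb_succ, orb_succ, ih, nxt_sT]

theorem exm_sT {c : Vtx} {F : Set Edg} {σ : St} {T : ℕ} {e : Edg}
    (h : e ∈ Exm ((trl c.1 c.2).φ '' F) (sT c σ) T) :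
    ∃ e' ∈ Exm F σ T, e = (trl c.1 c.2).φ e' := by
  rw [mem_Exm] at h
  obtain ⟨s, hs, rfl⟩ := h
  refine ⟨ae (orb F σ s), mem_Exm.2 ⟨s, hs, rfl⟩, ?_⟩
  rw [orb_sT, ae_sT]

theorem inleg_sT (c : Vtx) {F : Set Edg} {a b : ℕ} {σ : St} {T : ℕ}
    (h : InLeg F (0, 0) a b σ T) : InLeg ((trl c.1 c.2).φ '' F) c a b (sT c σ) T where
  pos := h.pos
  st := by rw [lf_sT]; exact h.st
  mid := by
    intro s h1 h2
    rw [orb_sT, lf_sT]
    exact h.mid s h1 h2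
  en := by rw [orb_sT, lf_sT]; exact h.en

theorem le2_sT (L m a1 : ℕ) (c : Vtx) {F : Set Edg} (h : LE2 L m a1 (0, 0) F) :
    LE2 L m a1 c ((trl c.1 c.2).φ '' F) := by
  obtain ⟨σ, T, ρ, T', h1, h2, h3, h4, h5⟩ := h
  refine ⟨sT c σ, T, sT c ρ, T', inleg_sT c h1, inleg_sT c h2, fun e => h3 (sT_inj c e), ?_, ?_⟩
  · intro e he hlv
    obtain ⟨e', he', rfl⟩ := exm_sT he
    rw [A2.src_tr] at hlv ⊢
    rw [lv_tr'] at hlv
    have h6 := h4 e' he' hlv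
    change (src e').1 ≤ 0 + _ ∧ (src e').2 ≤ 0 + _ at h6
    change (src e').1 + c.1 ≤ _ ∧ (src e').2 + c.2 ≤ _
    constructor <;> linarith [h6.1, h6.2]
  · intro e he hlv
    obtain ⟨e', he', rfl⟩ := exm_sT he
    rw [A2.src_tr] at hlv ⊢
    rw [lv_tr'] at hlv
    have h6 := h5 e' he' hlv
    change 0 - _ ≤ (src e').1 ∧ 0 - _ ≤ (src e').2 at h6
    change _ ≤ (src e').1 + c.1 ∧ _ ≤ (src e').2 + c.2
    constructor <;> linarith [h6.1, h6.2]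

theorem le2_loc (hl : St_loc) {L m a1 : ℕ} {c : Vtx} (hab : a1 < 16 * L * m) {F G : Set Edg}
    (h : F ∩ Ge c a1 (16 * L * m) = G ∩ Ge c a1 (16 * L * m)) (hF : LE2 L m a1 c F) :
    LE2 L m a1 c G := by
  obtain ⟨σ, T, ρ, T', h1, h2, h3, h4, h5⟩ := hF
  obtain ⟨k1, k2⟩ := hl F G c a1 (16 * L * m) hab h σ T h1
  obtain ⟨k3, k4⟩ := hl F G c a1 (16 * L * m) hab h ρ T' h2
  exact ⟨σ, T, ρ, T', k1, k3, h3, by rw [k2]; exact h4, by rw [k4]; exact h5⟩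

theorem le2_iff (hl : St_loc) {L m a1 : ℕ} {c : Vtx} (hab : a1 < 16 * L * m) {F G : Set Edg}
    (h : F ∩ Ge c a1 (16 * L * m) = G ∩ Ge c a1 (16 * L * m)) :
    LE2 L m a1 c F ↔ LE2 L m a1 c G :=
  ⟨le2_loc hl hab h, le2_loc hl hab h.symm⟩

/-- the probability does not depend on the centre -/
theorem pr_le2 (hl : St_loc) {L m a1 : ℕ} (c : Vtx) (hab : a1 < 16 * L * m) {S : Finset Edg}
    (hS : GeF c a1 (16 * L * m) ⊆ S) :
    Pr (fun _ => (1/2 : ℝ)) (boxE (16 * L * m)) (fun F => LE2 L m a1 (0, 0) (↑F : Set Edg)) ≤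
      Pr (fun _ => (1/2 : ℝ)) S (fun F => LE2 L m a1 c (↑F : Set Edg)) := by
  have h1 : Pr (fun _ => (1/2 : ℝ)) S (fun F => LE2 L m a1 c (↑F : Set Edg)) =
      Pr (fun _ => (1/2 : ℝ)) (GeF c a1 (16 * L * m)) (fun F => LE2 L m a1 c (↑F : Set Edg)) :=
    Pr_local hS fun F _ => le2_iff hl hab (A2.inter_GeF c a1 (16 * L * m) F)
  have h2 : Pr (fun _ => (1/2 : ℝ)) (boxE (16 * L * m))
      (fun F => LE2 L m a1 (0, 0) (↑F : Set Edg)) =
      Pr (fun _ => (1/2 : ℝ)) (GeF (0, 0) a1 (16 * L * m))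
        (fun F => LE2 L m a1 (0, 0) (↑F : Set Edg)) :=
    Pr_local (A2.GeF_sub a1 (16 * L * m)) fun F _ =>
      le2_iff hl hab (A2.inter_GeF (0, 0) a1 (16 * L * m) F)
  have h3 : Pr (fun _ => (1/2 : ℝ)) (GeF c a1 (16 * L * m))
      (fun F => LE2 L m a1 c (↑F : Set Edg)) =
      Pr (fun _ => (1/2 : ℝ)) (GeF (0, 0) a1 (16 * L * m))
        (fun F => LE2 L m a1 c (↑((trl c.1 c.2).mp F) : Set Edg)) := by
    rw [← A2.mp_GeF c]
    exact LSym.pr (trl c.1 c.2) (1/2) (GeF (0, 0) a1 (16 * L * m)) _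
  rw [h1, h2, h3]
  refine Pr_mono ok fun F _ h => ?_
  rw [LSym.coe_mp]
  exact le2_sT L m a1 c h

/-! ### The two arms near the centre -/

theorem lv_edge (z : Vtx) (e : Edg) : lv z (src e) ≤ lv z (tgt e) + 1 ∧
    lv z (tgt e) ≤ lv z (src e) + 1 := by
  obtain ⟨x, y, _ | _⟩ := e
  · simp only [src_mk, tgt_false, lv, abs_eq_max_neg]
    omega
  · simp only [src_mk, tgt_true, lv, abs_eq_max_neg]
    omega

/-- a path from the centre to the outside crosses the annulus -/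
theorem cross {G : Set Edg} {z : Vtx} {R : ℕ} (hR : 1 ≤ R) {u w : Vtx} (h : Reach G u w)
    (hu : lv z u ≤ 1) (hw : (R : ℤ) ≤ lv z w) :
    ∃ x y, lv z x = (1 : ℕ) ∧ lv z y = R ∧ Reach G u x ∧ Reach (G ∩ Ge z 1 R) x y := by
  have key : ∀ v, Reach G u v → (lv z v ≤ 0 ∨
      (∃ x y, lv z x = (1 : ℕ) ∧ lv z y = R ∧ Reach G u x ∧ Reach (G ∩ Ge z 1 R) x y) ∨
      (1 ≤ lv z v ∧ lv z v ≤ R ∧ ∃ x, lv z x = (1 : ℕ) ∧ Reach G u x ∧
        Reach (G ∩ Ge z 1 R) x v)) := by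
    intro v hv
    induction hv with
    | refl =>
      rcases lt_or_ge (lv z u) 1 with h1 | h1
      · exact Or.inl (by omega)
      · exact Or.inr (Or.inr ⟨h1, by omega, u, by omega, Reach.refl _ _, Reach.refl _ _⟩)
    | @tail v v' hv hstep ih =>
      have hvv' : Reach G u v' := hv.tail hstep
      obtain ⟨e, heG, hcase⟩ := hstep
      have hlv : lv z v' ≤ lv z v + 1 ∧ lv z v ≤ lv z v' + 1 := by
        rcases hcase with ⟨h1, h2⟩ | ⟨h1, h2⟩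
        · rw [← h1, ← h2]; exact (lv_edge z e).symm
        · rw [← h1, ← h2]; exact lv_edge z e
      rcases ih with ih | ih | ⟨g1, g2, x, g3, g4, g5⟩
      · rcases lt_or_ge (lv z v') 1 with h1 | h1
        · exact Or.inl (by omega)
        · exact Or.inr (Or.inr ⟨h1, by omega, v', by omega, hvv', Reach.refl _ _⟩)
      · exact Or.inr (Or.inl ih)
      · rcases lt_or_ge (lv z v') 1 with h1 | h1
        · exact Or.inl (by omega)
        · rcases lt_or_ge (lv z v) R with h2 | h2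
          · right; right
            refine ⟨h1, by omega, x, g3, g4, g5.trans (Adj.reach ⟨e, ⟨heG, ?_⟩, hcase⟩)⟩
            rcases hcase with ⟨k1, k2⟩ | ⟨k1, k2⟩
            · simp only [Ge, Set.mem_ofPred_eq, k1, k2]
              push_cast
              omega
            · simp only [Ge, Set.mem_ofPred_eq, k1, k2]
              push_cast
              omega
          · right; left
            exact ⟨x, v, g3, by omega, g4, g5⟩
  rcases key w h with h1 | h1 | ⟨h1, h2, x, h3, h4, h5⟩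
  · omega
  · exact h1
  · exact ⟨x, w, h3, by omega, h4, h5⟩

/-- the plus event gives two arms near the centre -/
theorem arms2 (hAr : Pool.Agent.W92.DP.St_arms) {L m R : ℕ} (hL : 2 ≤ L) (hm : 64 ≤ m)
    (hR : 1 ≤ R) (hRm : R ≤ m) {β : Bool} {F : Set Edg}
    (hP : Plus (4 * L * m) m (16 * L * m) (e0 β) F) : OC (0, 0) 1 R 2 F := by
  obtain ⟨⟨a, a', haa, ⟨w, hw, hw2⟩, ⟨w', hw', hw2'⟩⟩, -, hno⟩ := hAr L m hL hm β F hP
  obtain ⟨N, hN⟩ : ∃ N : ℕ, N = 16 * L * m := ⟨_, rfl⟩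
  rw [← hN] at hw hw2 hw' hw2' hno
  have hmN : m ≤ N := by rw [hN]; nlinarith
  have hbN : 4 * L * m ≤ N := by rw [hN]; nlinarith
  have hsub : (F ∩ ↑(XV (4 * L * m) m N)) \ {e0 β} ⊆ (F ∩ ↑(boxE N)) \ {e0 β} := by
    rintro g ⟨⟨h1, h2⟩, h3⟩
    exact ⟨⟨h1, Pool.Agent.W571.DParms.XV_sub hbN hmN h2⟩, h3⟩
  have hlv : ∀ v : Vtx, v = src (e0 β) ∨ v = tgt (e0 β) → lv (0, 0) v ≤ 1 := by
    rintro v (rfl | rfl)
    · simp [e0, lv]
    · cases β <;> simp [e0, lv]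
  have hla : lv (0, 0) a ≤ 1 := hlv a (by rcases haa with ⟨h, _⟩ | ⟨h, _⟩ <;> simp [h])
  have hla' : lv (0, 0) a' ≤ 1 := hlv a' (by rcases haa with ⟨_, h⟩ | ⟨_, h⟩ <;> simp [h])
  have hlw : (R : ℤ) ≤ lv (0, 0) w := by
    have : (R : ℤ) ≤ N := by exact_mod_cast hRm.trans hmN
    simp only [lv, abs_eq_max_neg]
    omega
  have hlw' : (R : ℤ) ≤ lv (0, 0) w' := by
    have : (R : ℤ) ≤ N := by exact_mod_cast hRm.trans hmN
    simp only [lv, abs_eq_max_neg]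
    omega
  obtain ⟨x, y, k1, k2, k3, k4⟩ := cross hR hw2 hla hlw
  obtain ⟨x', y', k1', k2', k3', k4'⟩ := cross hR hw2' hla' hlw'
  have hGe : F ∩ Ge (0, 0) 1 R ⊆ (F ∩ ↑(boxE N)) \ {e0 β} := by
    rintro g ⟨h1, h2⟩
    refine ⟨⟨h1, ?_⟩, ?_⟩
    · have h3 : g ∈ GeF (0, 0) 1 R := by
        rw [← Finset.mem_coe, A2.coe_GeF]
        exact h2
      exact DU_boxE_mono (hRm.trans hmN) (A2.GeF_sub 1 R h3)
    · intro h3
      rw [Set.mem_singleton_iff] at h3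
      have h4 := h2.1.1
      rw [h3] at h4
      simp [e0, lv] at h4
  have hmono : ∀ {u v : Vtx}, Reach (((F ∩ ↑(XV (4 * L * m) m N)) \ {e0 β}) ∩ Ge (0, 0) 1 R) u v →
      Reach (F ∩ Ge (0, 0) 1 R) u v := fun h => h.mono (by
    rintro g ⟨⟨⟨h1, _⟩, _⟩, h2⟩
    exact ⟨h1, h2⟩)
  have hxx : ¬ Reach (F ∩ Ge (0, 0) 1 R) x x' := by
    intro h
    have h1 : Reach ((F ∩ ↑(boxE N)) \ {e0 β}) a a' :=
      ((k3.mono hsub).trans (h.mono hGe)).trans (k3'.mono hsub).symm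
    rcases haa with ⟨h2, h3⟩ | ⟨h2, h3⟩
    · rw [h2, h3] at h1
      exact hno h1
    · rw [h2, h3] at h1
      exact hno h1.symm
  refine ⟨![x, x'], ?_, ?_⟩
  · intro i
    fin_cases i
    · exact ⟨k1, y, k2, hmono k4⟩
    · exact ⟨k1', y', k2', hmono k4'⟩
  · intro i j hij
    fin_cases i <;> fin_cases j
    · exact absurd rfl hij
    · exact hxx
    · exact fun h => hxx h.symm
    · exact absurd rfl hij

theorem GeF_disj {a b a' : ℕ} {c : Vtx} {b' : ℕ} (h : b < a') :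
    Disjoint (GeF c a b) (GeF c a' b') := by
  rw [Finset.disjoint_left]
  intro e h1 h2
  rw [← Finset.mem_coe, A2.coe_GeF] at h1 h2
  have h3 := h1.1.2
  have h4 := h2.1.1
  have : (b : ℤ) < a' := by exact_mod_cast h
  omega

/-- the upper bound of the probability of the plus event -/
theorem plus_le (hAr : Pool.Agent.W92.DP.St_arms) (hLT : St_LT) (hl : St_loc) {CF : ℝ}
    (hCF : 0 < CF) (hF2 : ∀ (c : Vtx) (a b : ℕ) (S : Finset Edg), 1 ≤ a → a < b →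
      GeF c a b ⊆ S → Pr (fun _ => (1/2 : ℝ)) S (fun F => OC c a b 2 (↑F : Set Edg)) ≤
      CF * ((a : ℝ) / b) ^ (5/4 : ℝ)) {L m a1 : ℕ} (hL : 2 ≤ L) (hm : 64 ≤ m) (ha1 : 2 ≤ a1)
    (ham : a1 ≤ m) (β : Bool) :
    PQ (1/2) (boxE (16 * L * m)) (fun F => Plus (4 * L * m) m (16 * L * m) (e0 β) ↑F) ≤
      4 * (CF + 1) * (1 / (a1 : ℝ)) ^ (5/4 : ℝ) *
        Pr (fun _ => (1/2 : ℝ)) (boxE (16 * L * m)) (fun F => LE2 L m a1 (0, 0) (↑F : Set Edg) ∨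
          OC (0, 0) a1 (16 * L * m) 3 (↑F : Set Edg)) := by
  obtain ⟨P2, hP2⟩ : ∃ P2, P2 = Pr (fun _ => (1/2 : ℝ)) (boxE (16 * L * m))
    (fun F => LE2 L m a1 (0, 0) (↑F : Set Edg) ∨
          OC (0, 0) a1 (16 * L * m) 3 (↑F : Set Edg)) := ⟨_, rfl⟩
  have hP20 : 0 ≤ P2 := by rw [hP2]; exact Pr_nonneg ok _ _
  have haN : a1 < 16 * L * m := by nlinarith
  have himp : ∀ F : Finset Edg, Plus (4 * L * m) m (16 * L * m) (e0 β) ↑F →
      LE2 L m a1 (0, 0) (↑F : Set Edg) ∨ OC (0, 0) a1 (16 * L * m) 3 (↑F : Set Edg) := by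
    intro F hF
    by_cases h : OC (0, 0) a1 (16 * L * m) 3 (↑F : Set Edg)
    · exact Or.inr h
    · exact Or.inl (hLT L m a1 β ↑F hL hm ha1 ham hF h)
  have h1a : (0 : ℝ) < a1 := by exact_mod_cast (by omega : 0 < a1)
  have h2 : (2 : ℝ) ^ (5/4 : ℝ) ≤ 4 := by
    calc (2 : ℝ) ^ (5/4 : ℝ) ≤ (2 : ℝ) ^ (2 : ℝ) :=
          Real.rpow_le_rpow_of_exponent_le (by norm_num) (by norm_num)
      _ = 4 := by norm_num
  have hpos : 0 ≤ (1 / (a1 : ℝ)) ^ (5/4 : ℝ) := by positivity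
  rw [← hP2]
  rcases Nat.lt_or_ge a1 3 with h3 | h3
  · have ha2 : a1 = 2 := by omega
    have h4 : 1 ≤ 4 * (CF + 1) * (1 / (a1 : ℝ)) ^ (5/4 : ℝ) := by
      rw [ha2]
      push_cast
      have h5 : (1 / (2:ℝ)) ^ (5/4 : ℝ) * (2:ℝ) ^ (5/4 : ℝ) = 1 := by
        rw [← Real.mul_rpow (by norm_num) (by norm_num)]
        norm_num
      have h6 : 0 < (1 / (2:ℝ)) ^ (5/4 : ℝ) := by positivity
      nlinarith [mul_le_mul_of_nonneg_left h2 h6.le, mul_pos hCF h6]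
    calc _ ≤ P2 := by
          rw [hP2]
          exact Pr_mono ok fun F _ h => himp F h
      _ = 1 * P2 := (one_mul _).symm
      _ ≤ _ := mul_le_mul_of_nonneg_right h4 hP20
  · have h4 : PQ (1/2) (boxE (16 * L * m))
        (fun F => Plus (4 * L * m) m (16 * L * m) (e0 β) ↑F) ≤
        Pr (fun _ => (1/2 : ℝ)) (boxE (16 * L * m))
          (fun F => OC (0, 0) 1 (a1 - 1) 2 (↑F : Set Edg) ∧
          (LE2 L m a1 (0, 0) (↑F : Set Edg) ∨ OC (0, 0) a1 (16 * L * m) 3 (↑F : Set Edg))) :=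
      Pr_mono ok fun F _ h => ⟨arms2 hAr hL hm (by omega) (by omega) h, himp F h⟩
    have h5 : Pr (fun _ => (1/2 : ℝ)) (boxE (16 * L * m))
          (fun F => OC (0, 0) 1 (a1 - 1) 2 (↑F : Set Edg) ∧
          (LE2 L m a1 (0, 0) (↑F : Set Edg) ∨ OC (0, 0) a1 (16 * L * m) 3 (↑F : Set Edg))) =
        Pr (fun _ => (1/2 : ℝ)) (boxE (16 * L * m))
          (fun F => OC (0, 0) 1 (a1 - 1) 2 (↑F : Set Edg)) * P2 := by
      rw [hP2]
      refine Pr_indep (S := GeF (0, 0) 1 (a1 - 1)) (T := GeF (0, 0) a1 (16 * L * m))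
        ((A2.GeF_sub _ _).trans (DU_boxE_mono (by omega))) (A2.GeF_sub _ _)
        (GeF_disj (by omega)) ?_ ?_
      · intro F _
        exact A2.oc_loc (0, 0) 1 (a1 - 1) 2 (A2.inter_GeF (0, 0) 1 (a1 - 1) F)
      · intro F _
        exact or_congr (le2_iff hl haN (A2.inter_GeF (0, 0) a1 (16 * L * m) F))
          (A2.oc_loc (0, 0) a1 (16 * L * m) 3 (A2.inter_GeF (0, 0) a1 (16 * L * m) F))
    have h6 := hF2 (0, 0) 1 (a1 - 1) (boxE (16 * L * m)) le_rfl (by omega)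
      ((A2.GeF_sub _ _).trans (DU_boxE_mono (by omega)))
    have h7 : (((1 : ℕ) : ℝ) / ((a1 - 1 : ℕ) : ℝ)) ^ (5/4 : ℝ) ≤ 4 * (1 / (a1 : ℝ)) ^ (5/4 : ℝ) := by
      have h8 : ((1 : ℕ) : ℝ) / ((a1 - 1 : ℕ) : ℝ) ≤ 2 * (1 / (a1 : ℝ)) := by
        rw [Nat.cast_sub (by omega)]
        push_cast
        have h9 : (3 : ℝ) ≤ a1 := by exact_mod_cast h3
        rw [mul_one_div, div_le_div_iff₀ (by linarith) h1a]
        linarith
      calc _ ≤ (2 * (1 / (a1 : ℝ))) ^ (5/4 : ℝ) :=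
            Real.rpow_le_rpow (by positivity) h8 (by norm_num)
        _ = (2 : ℝ) ^ (5/4 : ℝ) * (1 / (a1 : ℝ)) ^ (5/4 : ℝ) :=
            Real.mul_rpow (by norm_num) (by positivity)
        _ ≤ _ := mul_le_mul_of_nonneg_right h2 hpos
    refine h4.trans ?_
    rw [h5]
    refine mul_le_mul_of_nonneg_right (h6.trans ?_) hP20
    calc CF * (((1 : ℕ) : ℝ) / ((a1 - 1 : ℕ) : ℝ)) ^ (5/4 : ℝ) ≤
          CF * (4 * (1 / (a1 : ℝ)) ^ (5/4 : ℝ)) := mul_le_mul_of_nonneg_left h7 hCF.le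
      _ ≤ _ := by nlinarith

end X22

theorem land (hP : Pool.Agent.W92.DP.St_P) (hAr : Pool.Agent.W92.DP.St_arms) (hLT : St_LT)
    (hU : St_U32) (hF2 : St_F2) (hl : St_loc) : St_LAND := by
  obtain ⟨L, M0, c0, hL, hM0, hc0, hplus⟩ := hP
  obtain ⟨CF, hCF, hF2'⟩ := hF2
  obtain ⟨C2, hC2, hU'⟩ := hU
  obtain ⟨C1, hC1⟩ : ∃ C1, C1 = 4 * (CF + 1) := ⟨_, rfl⟩
  have hC1p : 0 < C1 := by rw [hC1]; positivity
  refine ⟨L, M0, c0 / (2 * C1), hL, hM0, by positivity, fun a1 ha1 => ?_⟩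
  obtain ⟨δ, hδ⟩ : ∃ δ, δ = c0 / (2 * C1 * C2) := ⟨_, rfl⟩
  have hδp : 0 < δ := by rw [hδ]; positivity
  refine ⟨a1 + ⌈(a1 : ℝ) / δ ^ 4⌉₊ + 1, by omega, fun r c S hr hS => ?_⟩
  obtain ⟨m, hm⟩ : ∃ m, m = M0 * r := ⟨_, rfl⟩
  rw [← hm] at hS ⊢
  have hr1 : 1 ≤ r := by omega
  have hrm : r ≤ m := by rw [hm]; nlinarith
  have hm64 : 64 ≤ m := by rw [hm]; nlinarith
  have ham : a1 ≤ m := by omega
  obtain ⟨β, hβ⟩ := hplus r hr1
  rw [← hm] at hβ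
  have haN : a1 < 16 * L * m := by nlinarith
  have hmN : m ≤ 16 * L * m := by nlinarith
  have h1 := X22.plus_le hAr hLT hl hCF hF2' hL hm64 ha1 ham β
  rw [← hC1] at h1
  have h2 := Pr_or_le X22.ok (boxE (16 * L * m)) (fun F => LE2 L m a1 (0, 0) (↑F : Set Edg))
    (fun F => OC (0, 0) a1 (16 * L * m) 3 (↑F : Set Edg))
  have h3 := hU' (0, 0) a1 (16 * L * m) (boxE (16 * L * m)) (by omega) haN (A2.GeF_sub _ _)
  have h4 := X22.pr_le2 hl c haN hS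
  obtain ⟨P, hPd⟩ : ∃ P, P = Pr (fun _ => (1/2 : ℝ)) S (fun F => LE2 L m a1 c (↑F : Set Edg)) :=
    ⟨_, rfl⟩
  rw [← hPd] at h4 ⊢
  have hm0 : (0 : ℝ) < m := by exact_mod_cast (by omega : 0 < m)
  have ha0 : (0 : ℝ) < a1 := by exact_mod_cast (by omega : 0 < a1)
  have hN0 : (0 : ℝ) < ((16 * L * m : ℕ) : ℝ) := by exact_mod_cast (by omega : 0 < 16 * L * m)
  obtain ⟨x, hx⟩ : ∃ x, x = (a1 : ℝ) / ((16 * L * m : ℕ) : ℝ) := ⟨_, rfl⟩
  have hx0 : 0 < x := by rw [hx]; positivity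
  rw [← hx] at h3 ⊢
  have h5 : c0 * (m : ℝ) ^ (-(5/4) : ℝ) ≤ C1 * (1 / (a1 : ℝ)) ^ (5/4 : ℝ) *
      (P + C2 * x ^ (3/2 : ℝ)) := by
    refine (hβ.trans h1).trans ?_
    refine mul_le_mul_of_nonneg_left ?_ (by positivity)
    linarith
  have h6 : (m : ℝ) ^ (-(5/4) : ℝ) * (a1 : ℝ) ^ (5/4 : ℝ) = ((a1 : ℝ) / m) ^ (5/4 : ℝ) := by
    rw [Real.div_rpow ha0.le hm0.le, Real.rpow_neg hm0.le]
    ring
  have h7 : (1 / (a1 : ℝ)) ^ (5/4 : ℝ) * (a1 : ℝ) ^ (5/4 : ℝ) = 1 := by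
    rw [← Real.mul_rpow (by positivity) ha0.le, one_div, inv_mul_cancel₀ ha0.ne', Real.one_rpow]
  have h8 : x ^ (5/4 : ℝ) ≤ ((a1 : ℝ) / m) ^ (5/4 : ℝ) := by
    refine Real.rpow_le_rpow hx0.le ?_ (by norm_num)
    rw [hx]
    have : (m : ℝ) ≤ ((16 * L * m : ℕ) : ℝ) := by exact_mod_cast hmN
    gcongr
  have h9 : c0 * x ^ (5/4 : ℝ) ≤ C1 * (P + C2 * x ^ (3/2 : ℝ)) := by
    have h10 := mul_le_mul_of_nonneg_right h5 (Real.rpow_nonneg ha0.le (5/4 : ℝ))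
    calc c0 * x ^ (5/4 : ℝ) ≤ c0 * ((a1 : ℝ) / m) ^ (5/4 : ℝ) :=
          mul_le_mul_of_nonneg_left h8 hc0.le
      _ = c0 * (m : ℝ) ^ (-(5/4) : ℝ) * (a1 : ℝ) ^ (5/4 : ℝ) := by rw [← h6]; ring
      _ ≤ C1 * (1 / (a1 : ℝ)) ^ (5/4 : ℝ) * (P + C2 * x ^ (3/2 : ℝ)) * (a1 : ℝ) ^ (5/4 : ℝ) := h10
      _ = C1 * (P + C2 * x ^ (3/2 : ℝ)) * ((1 / (a1 : ℝ)) ^ (5/4 : ℝ) * (a1 : ℝ) ^ (5/4 : ℝ)) := by
          ring
      _ = _ := by rw [h7, mul_one]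
  have h11 : x ^ (3/2 : ℝ) = x ^ (5/4 : ℝ) * x ^ (1/4 : ℝ) := by
    rw [← Real.rpow_add hx0]
    norm_num
  have h12 : x ≤ δ ^ 4 := by
    have h13 : (a1 : ℝ) / δ ^ 4 ≤ r := by
      refine (Nat.le_ceil _).trans ?_
      exact_mod_cast (by omega : ⌈(a1 : ℝ) / δ ^ 4⌉₊ ≤ r)
    have hr0 : (0 : ℝ) < r := by exact_mod_cast hr1
    have h14 : (r : ℝ) ≤ ((16 * L * m : ℕ) : ℝ) := by exact_mod_cast hrm.trans hmN
    rw [hx, div_le_iff₀ hN0]
    rw [div_le_iff₀ (by positivity)] at h13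
    nlinarith [pow_pos hδp 4]
  have h15 : x ^ (1/4 : ℝ) ≤ δ := by
    calc x ^ (1/4 : ℝ) ≤ (δ ^ 4) ^ (1/4 : ℝ) := Real.rpow_le_rpow hx0.le h12 (by norm_num)
      _ = δ := by
        rw [← Real.rpow_natCast, ← Real.rpow_mul hδp.le]
        norm_num
  have h16 : C1 * (C2 * δ) = c0 / 2 := by
    rw [hδ]
    field_simp
  have hy : 0 < x ^ (5/4 : ℝ) := Real.rpow_pos_of_pos hx0 _
  rw [h11] at h9
  have h17 : C1 * (C2 * (x ^ (5/4 : ℝ) * x ^ (1/4 : ℝ))) ≤ c0 / 2 * x ^ (5/4 : ℝ) := by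
    calc C1 * (C2 * (x ^ (5/4 : ℝ) * x ^ (1/4 : ℝ))) ≤ C1 * (C2 * (x ^ (5/4 : ℝ) * δ)) := by
          gcongr
      _ = C1 * (C2 * δ) * x ^ (5/4 : ℝ) := by ring
      _ = _ := by rw [h16]
  have h18 : c0 / 2 * x ^ (5/4 : ℝ) ≤ C1 * P := by
    have : C1 * (P + C2 * (x ^ (5/4 : ℝ) * x ^ (1/4 : ℝ))) =
        C1 * P + C1 * (C2 * (x ^ (5/4 : ℝ) * x ^ (1/4 : ℝ))) := by ring
    rw [this] at h9
    linarith
  calc c0 / (2 * C1) * x ^ (5/4 : ℝ) = c0 / 2 * x ^ (5/4 : ℝ) / C1 := by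
        field_simp
    _ ≤ C1 * P / C1 := by gcongr
    _ = P := by field_simp

end Pool.Agent.N948.IX
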