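import Pool.Agent.N948.IX.Ex1
import Pool.Agent.N948.IX.C6

/-!
# Project XD, X23 (helper458, for helper948): good pairs of inward crossings
-/

set_option autoImplicit false

namespace Pool.Agent.N948.IX

open H974 H906.Cyl H12S Finset H984P H342P Pool.Agent.W92.DP

namespace X23

variable {M M' B N a1 b rs rc t : ℕ} {c : Vtx}

theorem exm_mono {F : Set Edg} {σ : St} {T T' : ℕ} (h : T ≤ T') : Exm F σ T ⊆ Exm F σ T' := by
  intro e he
  obtain ⟨s, hs, rfl⟩ := mem_Exm.1 he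
  exact mem_Exm.2 ⟨s, by omega, rfl⟩

/-- the separation condition -/
def SPc (M' B : ℕ) (c : Vtx) (b rs : ℕ) (A A' : Finset Edg) : Prop :=
  ∀ e ∈ A, ∀ e' ∈ A', 12 ≤ lv (src e) (src e') ∧
    (lv c (src e) ≤ rs ∨ lv c (src e') ≤ rs →
      (max (lv c (src e)) (lv c (src e'))) ^ B ≤
        (M' : ℤ) * (b : ℤ) ^ (B - 1) * lv (src e) (src e'))

/-- the condition for the first crossing -/
def W0 (M N : ℕ) (c : Vtx) (a1 b rc t : ℕ) (σ : St) (F : Set Edg) (A : Finset Edg) : Prop :=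
  ∃ T, InLeg F c (8 * a1) b σ T ∧ LeanP F c M b σ T ∧ CoreL F c (8 * a1) N σ T ∧
    CfSW c rc t (Exm F σ T) ∧ Exm F σ T = A

/-- the condition for the second crossing -/
def W1 (M N : ℕ) (c : Vtx) (a1 b rc t : ℕ) (σ : St) (F : Set Edg) (A : Finset Edg) : Prop :=
  ∃ T, InLeg F c (8 * a1) b σ T ∧ LeanP F c M b σ T ∧ CoreL F c (8 * a1) N σ T ∧
    CfNE c rc t (Exm F σ T) ∧ Exm F σ T = A

theorem inleg_congr {F G : Set Edg} {σ : St} {T a : ℕ} (h : ∀ e ∈ Exm F σ T, (e ∈ F ↔ e ∈ G))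
    (hi : InLeg F c a b σ T) : InLeg G c a b σ T :=
  C6.leg_true.1 (C6.leg_congr h (C6.leg_true.2 hi))

theorem lean_congr {F G : Set Edg} {σ : St} {T : ℕ} (h : ∀ e ∈ Exm F σ T, (e ∈ F ↔ e ∈ G))
    (hi : LeanP F c M b σ T) : LeanP G c M b σ T := by
  intro s u hs hu
  rw [orb_congr h hu, orb_congr h (hs.trans hu)]
  exact hi s u hs hu

theorem core_congr {F G : Set Edg} {σ : St} {T a : ℕ} (h : ∀ e ∈ Exm F σ T, (e ∈ F ↔ e ∈ G))
    (hi : CoreL F c a N σ T) : CoreL G c a N σ T := by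
  intro s u hs hu
  rw [orb_congr h hu, orb_congr h (hs.trans hu)]
  exact hi s u hs hu

theorem W0_congr {σ : St} {F G : Set Edg} {A : Finset Edg} (h : W0 M N c a1 b rc t σ F A)
    (hFG : ∀ e ∈ A, (e ∈ F ↔ e ∈ G)) : W0 M N c a1 b rc t σ G A := by
  obtain ⟨T, h1, h2, h3, h4, rfl⟩ := h
  refine ⟨T, inleg_congr hFG h1, lean_congr hFG h2, core_congr hFG h3, ?_, Exm_congr hFG⟩
  rw [Exm_congr hFG]
  exact h4

theorem W1_congr {σ : St} {F G : Set Edg} {A : Finset Edg} (h : W1 M N c a1 b rc t σ F A)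
    (hFG : ∀ e ∈ A, (e ∈ F ↔ e ∈ G)) : W1 M N c a1 b rc t σ G A := by
  obtain ⟨T, h1, h2, h3, h4, rfl⟩ := h
  refine ⟨T, inleg_congr hFG h1, lean_congr hFG h2, core_congr hFG h3, ?_, Exm_congr hFG⟩
  rw [Exm_congr hFG]
  exact h4

/-- the pairs -/
def PP (M M' B N : ℕ) (c : Vtx) (a1 b rs rc t : ℕ) (F1 F2 : Set Edg) (p : St × St) : Prop :=
  ∃ T T', GII M M' B N c a1 b rs rc t F1 F2 p.1 p.2 T T'

theorem PP_iff {F1 F2 : Set Edg} {p : St × St} : PP M M' B N c a1 b rs rc t F1 F2 p ↔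
    ∃ A A' : Finset Edg, (W0 M N c a1 b rc t p.1 F1 A ∧ W1 M N c a1 b rc t p.2 F2 A') ∧
      SPc M' B c b rs A A' := by
  constructor
  · rintro ⟨T, T', h⟩
    exact ⟨_, _, ⟨⟨T, h.i, h.li, h.ci, h.si, rfl⟩, ⟨T', h.o, h.lo, h.co, h.so, rfl⟩⟩, h.sp⟩
  · rintro ⟨A, A', ⟨⟨T, h1, h2, h3, h4, rfl⟩, ⟨T', g1, g2, g3, g4, rfl⟩⟩, h5⟩
    exact ⟨T, T', ⟨h1, g1, h2, g2, h3, g3, h5, h4, g4⟩⟩

theorem gps (hB : St_basic) (hg : St_GPS) (hab : 8 * a1 < b) {S : Finset Edg}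
    (hS : GeF c (8 * a1) b ⊆ S) (p : St × St) :
    Pr (fun _ => (1/2 : ℝ)) ((Finset.univ : Finset (Fin 2)) ×ˢ S)
      (fun F => PP M M' B N c a1 b rs rc t (sl F 0) (sl F 1) p) =
    Pr (fun _ => (1/2 : ℝ)) S
      (fun F => PP M M' B N c a1 b rs rc t (↑F : Set Edg) (↑F : Set Edg) p) := by
  have h := hg 2 2 id S
    (fun i F A => if i = 0 then W0 M N c a1 b rc t p.1 F A else W1 M N c a1 b rc t p.2 F A)
    (fun A => SPc M' B c b rs (A 0) (A 1)) ?_ ?_ ?_ ?_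
  · have e1 : ∀ F : Finset (Fin 2 × Edg), PP M M' B N c a1 b rs rc t (sl F 0) (sl F 1) p ↔
        ∃ A : Fin 2 → Finset Edg, (∀ i, if i = 0 then W0 M N c a1 b rc t p.1 (sl F (id i)) (A i)
          else W1 M N c a1 b rc t p.2 (sl F (id i)) (A i)) ∧ SPc M' B c b rs (A 0) (A 1) := by
      intro F
      rw [PP_iff]
      constructor
      · rintro ⟨A, A', ⟨h1, h2⟩, h3⟩
        refine ⟨![A, A'], ?_, h3⟩
        intro i
        fin_cases i
        · exact h1
        · exact h2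
      · rintro ⟨A, h1, h2⟩
        exact ⟨A 0, A 1, ⟨h1 0, h1 1⟩, h2⟩
    have e2 : ∀ F : Finset Edg, PP M M' B N c a1 b rs rc t (↑F : Set Edg) (↑F : Set Edg) p ↔
        ∃ A : Fin 2 → Finset Edg, (∀ i, if i = 0 then W0 M N c a1 b rc t p.1 (↑F : Set Edg) (A i)
          else W1 M N c a1 b rc t p.2 (↑F : Set Edg) (A i)) ∧ SPc M' B c b rs (A 0) (A 1) := by
      intro F
      rw [PP_iff]
      constructor
      · rintro ⟨A, A', ⟨h1, h2⟩, h3⟩
        refine ⟨![A, A'], ?_, h3⟩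
        intro i
        fin_cases i
        · exact h1
        · exact h2
      · rintro ⟨A, h1, h2⟩
        exact ⟨A 0, A 1, ⟨h1 0, h1 1⟩, h2⟩
    rw [Pr_congr (p := fun _ : Fin 2 × Edg => (1/2 : ℝ)) (fun F _ => e1 F),
      Pr_congr (p := fun _ : Edg => (1/2 : ℝ)) (fun F _ => e2 F)]
    exact h
  · intro i F A hA
    by_cases hi : i = 0
    · simp only [hi, if_true] at hA
      obtain ⟨T, h1, -, -, -, rfl⟩ := hA
      exact (C6.leg_exm hB hab (C6.leg_true.2 h1)).trans hS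
    · simp only [hi, if_false] at hA
      obtain ⟨T, h1, -, -, -, rfl⟩ := hA
      exact (C6.leg_exm hB hab (C6.leg_true.2 h1)).trans hS
  · intro i F G A hA hFG
    by_cases hi : i = 0
    · simp only [hi, if_true] at hA ⊢
      exact W0_congr hA hFG
    · simp only [hi, if_false] at hA ⊢
      exact W1_congr hA hFG
  · intro i F A A' hA hA'
    by_cases hi : i = 0
    · simp only [hi, if_true] at hA hA'
      obtain ⟨T, h1, -, -, -, rfl⟩ := hA
      obtain ⟨T', h2, -, -, -, rfl⟩ := hA'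
      rw [C6.leg_uniq (C6.leg_true.2 h1) (C6.leg_true.2 h2)]
    · simp only [hi, if_false] at hA hA'
      obtain ⟨T, h1, -, -, -, rfl⟩ := hA
      obtain ⟨T', h2, -, -, -, rfl⟩ := hA'
      rw [C6.leg_uniq (C6.leg_true.2 h1) (C6.leg_true.2 h2)]
  · intro A hA i i' hii
    have h01 : Disjoint (A 0) (A 1) := by
      rw [Finset.disjoint_left]
      intro e he he'
      have h1 := (hA e he e he').1
      have h2 : lv (src e) (src e) = 0 := by simp [lv]
      rw [h2] at h1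
      omega
    fin_cases i <;> fin_cases i'
    · exact absurd rfl hii
    · exact h01
    · exact h01.symm
    · exact absurd rfl hii

theorem PP_cand (hB : St_basic) (hab : 8 * a1 < b) {F1 F2 : Set Edg} {p : St × St}
    (h : PP M M' B N c a1 b rs rc t F1 F2 p) : p ∈ C6.cand c b ×ˢ C6.cand c b := by
  obtain ⟨T, T', h⟩ := h
  rw [Finset.mem_product]
  exact ⟨C6.leg_cand hB hab (C6.leg_true.2 h.i), C6.leg_cand hB hab (C6.leg_true.2 h.o)⟩

theorem ncard_sum2 {α : Type*} (X : Finset α) (Q : α → Prop) (h : ∀ p, Q p → p ∈ X) :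
    ((Set.ncard {p : α | Q p} : ℕ) : ℝ) = ∑ p ∈ X, ind (Q p) := by
  classical
  have h1 : {p : α | Q p} = ↑(X.filter (fun p => Q p)) := by
    ext p
    rw [Finset.mem_coe, Finset.mem_filter]
    exact ⟨fun hs => ⟨h p hs, hs⟩, fun hs => hs.2⟩
  rw [h1, Set.ncard_coe_finset, Finset.card_filter]
  push_cast
  refine Finset.sum_congr rfl fun s _ => ?_
  unfold ind
  split_ifs <;> rfl

theorem ex_eq (hB : St_basic) (hg : St_GPS) (hab : 8 * a1 < b) {S : Finset Edg}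
    (hS : GeF c (8 * a1) b ⊆ S) :
    Ex (fun _ => (1/2 : ℝ)) ((Finset.univ : Finset (Fin 2)) ×ˢ S)
      (fun F => ((Set.ncard {p : St × St |
        PP M M' B N c a1 b rs rc t (sl F 0) (sl F 1) p} : ℕ) : ℝ)) =
    Ex (fun _ => (1/2 : ℝ)) S
      (fun F => ((Set.ncard {p : St × St |
        PP M M' B N c a1 b rs rc t (↑F : Set Edg) (↑F : Set Edg) p} : ℕ) : ℝ)) := by
  rw [Ex_congr (p := fun _ : Fin 2 × Edg => (1/2 : ℝ))
      (fun F _ => ncard_sum2 (C6.cand c b ×ˢ C6.cand c b) _ (fun p hp => PP_cand hB hab hp)),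
    Ex_sum,
    Ex_congr (p := fun _ : Edg => (1/2 : ℝ))
      (fun F _ => ncard_sum2 (C6.cand c b ×ˢ C6.cand c b) _ (fun p hp => PP_cand hB hab hp)),
    Ex_sum]
  exact Finset.sum_congr rfl fun p _ => gps hB hg hab hS p

/-- On the good event there is a good pair. -/
theorem exists_pair (hr : St_restr) {L m rr : ℕ} (hL : 2 ≤ L) (hm : 64 ≤ m)
    (hb : b = 16 * L * m) (hab : 8 * a1 < b) (hrr : 4 * L * m + 26 ≤ rr) {F : Set Edg}
    (h : LE2 L m a1 c F) (hG : AllG M M' B N c a1 b rr F) :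
    ∃ p, PP M M' B N c a1 b (4 * L * m + 26) (4 * L * m + 16) (2 * m) F F p := by
  obtain ⟨σ, T, ρ, T', h1, h2, h3, h4, h5⟩ := h
  rw [← hb] at h1 h2
  obtain ⟨T1, hT1, i1⟩ := (hr F c a1 b σ T (by omega) h1).2.1 (8 * a1) (by omega) hab
  obtain ⟨T2, hT2, i2⟩ := (hr F c a1 b ρ T' (by omega) h2).2.1 (8 * a1) (by omega) hab
  obtain ⟨l1, c1, s1⟩ := hG σ T1 ⟨T, h1⟩ i1
  obtain ⟨l2, c2, -⟩ := hG ρ T2 ⟨T', h2⟩ i2
  have s2 := s1 ρ T2 ⟨T', h2⟩ i2 h3
  have q1 : CfSW c (4 * L * m + 16) (2 * m) (Exm F σ T1) :=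
    fun e he hre => h4 e (exm_mono hT1 he) hre
  have q2 : CfNE c (4 * L * m + 16) (2 * m) (Exm F ρ T2) :=
    fun e he hre => h5 e (exm_mono hT2 he) hre
  refine ⟨(σ, ρ), T1, T2, ⟨i1, i2, l1, l2, c1, c2, ?_, q1, q2⟩⟩
  have hrrZ : (4 * (L : ℤ) * m + 26) ≤ rr := by exact_mod_cast hrr
  have hLm : 2 * (m : ℤ) ≤ L * m := by
    have : (2 : ℤ) ≤ L := by exact_mod_cast hL
    have hm0 : (0 : ℤ) ≤ m := by positivity
    nlinarith
  have hmZ : (64 : ℤ) ≤ m := by exact_mod_cast hm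
  intro e he e' he'
  by_cases hcase : lv c (src e) ≤ rr ∨ lv c (src e') ≤ rr
  · obtain ⟨u1, u2⟩ := s2 e he e' he' hcase
    exact ⟨u1, fun _ => u2⟩
  · push Not at hcase
    obtain ⟨g1, g2⟩ := hcase
    constructor
    · have v1 := q1 e he (by push_cast; linarith)
      have v2 := q2 e' he' (by push_cast; linarith)
      push_cast at v1 v2
      unfold lv at g1
      rw [lt_max_iff, lt_abs, lt_abs] at g1
      unfold lv
      rw [le_max_iff, le_abs, le_abs]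
      have hmul : 4 * (L : ℤ) * m = 4 * (L * m) := by ring
      rcases g1 with (g1 | g1) | (g1 | g1)
      · exfalso; linarith [v1.1]
      · left; left; linarith [v2.1]
      · exfalso; linarith [v1.2]
      · right; left; linarith [v2.2]
    · intro hor
      exfalso
      push_cast at hor
      rcases hor with hor | hor <;> linarith

end X23

open X23 in
/-- The expected number of good pairs of inward crossings. -/
theorem pii (hB : St_basic) (hr : St_restr) (hc' : St_cnt') (hg : St_GPS) (hLa : St_LAND)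
    (hS : St_SEPT2) : St_PII := by
  obtain ⟨L, M0, k, hL, hM0, hk, hLa⟩ := hLa
  obtain ⟨B, hB2, hS⟩ := hS
  obtain ⟨a1, M, M', N, b0, ha1, hM, hM', hN, hS⟩ := hS (k / 2) (by positivity)
  obtain ⟨r0, hr0, hLa⟩ := hLa a1 ha1
  have hLM : 0 < L * M0 := Nat.mul_pos (by omega) (by omega)
  have ha1R : (0 : ℝ) < a1 := by
    have : (2 : ℝ) ≤ a1 := by exact_mod_cast ha1
    linarith
  have hLMR : (0 : ℝ) < 16 * L * M0 := by
    have h1 : (2 : ℝ) ≤ L := by exact_mod_cast hL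
    have h2 : (64 : ℝ) ≤ M0 := by exact_mod_cast hM0
    have h3 : (0 : ℝ) < L := by linarith
    have h4 : (0 : ℝ) < M0 := by linarith
    positivity
  refine ⟨L, M0, B, a1, M, M', N, r0 + b0 + a1, k / 2 * ((a1 : ℝ) / (16 * L * M0)) ^ (5/4 : ℝ),
    hL, hM0, hB2, ha1, hM, hM', hN, by omega, by positivity, ?_⟩
  intro r c S hrr0 hSS
  set m : ℕ := M0 * r with hm
  have hr1 : 1 ≤ r := by omega
  have hm64 : 64 ≤ m := by
    rw [hm]
    calc 64 = 64 * 1 := by norm_num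
      _ ≤ M0 * r := Nat.mul_le_mul hM0 hr1
  set b : ℕ := 16 * L * m with hb
  have hrb : 16 * r ≤ b := by
    rw [hb, hm, mul_assoc]
    refine Nat.mul_le_mul_left 16 ?_
    calc r = 1 * (1 * r) := by ring
      _ ≤ L * (M0 * r) := Nat.mul_le_mul (by omega) (Nat.mul_le_mul_right _ (by omega))
  have hab : 8 * a1 < b := by omega
  have hab1 : a1 < b := by omega
  set U : ℕ := L * m with hU
  have hbU : b = 16 * U := by rw [hb, hU]; ring
  have hU128 : 128 ≤ U := by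
    rw [hU]
    calc 128 = 2 * 64 := by norm_num
      _ ≤ L * m := Nat.mul_le_mul hL hm64
  set rr : ℕ := 4 * U + U / 4 with hrr
  have hrr1 : 18 * rr ≤ 5 * b := by
    rw [hrr, hbU]
    have := Nat.div_mul_le_self U 4
    omega
  have hrr2 : 4 * L * m + 26 ≤ rr := by
    have h1 : 4 * L * m = 4 * U := by rw [hU]; ring
    rw [h1, hrr]
    omega
  -- the probability of the good event
  have p1 := hLa r c S (by omega) hSS
  have p2 := hS c b rr S (by omega) hrr1 hSS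
  have p3 : Pr (fun _ => (1/2 : ℝ)) S (fun F => LE2 L m a1 c (↑F : Set Edg)) ≤
      Pr (fun _ => (1/2 : ℝ)) S (fun F => LE2 L m a1 c (↑F : Set Edg) ∧
        AllG M M' B N c a1 b rr (↑F : Set Edg)) +
      Pr (fun _ => (1/2 : ℝ)) S (fun F => OC c a1 b 2 (↑F : Set Edg) ∧
        ¬ AllG M M' B N c a1 b rr (↑F : Set Edg)) := by
    refine le_trans (Pr_mono C6.ok ?_) (Pr_or_le C6.ok S _ _)
    intro F _ hF
    by_cases hG : AllG M M' B N c a1 b rr (↑F : Set Edg)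
    · exact Or.inl ⟨hF, hG⟩
    · refine Or.inr ⟨?_, hG⟩
      obtain ⟨σ, T, ρ, T', h1, h2, h3, -, -⟩ := hF
      rw [← hb] at h1 h2
      refine hc' (↑F : Set Edg) c a1 b 2 ![σ, ρ] hab1 ?_ ?_
      · intro i i' hii
        fin_cases i <;> fin_cases i'
        · rfl
        · exact absurd hii h3
        · exact absurd hii.symm h3
        · rfl
      · intro i
        fin_cases i
        · exact ⟨T, h1⟩
        · exact ⟨T', h2⟩
  have p4 : k / 2 * ((a1 : ℝ) / (b : ℕ)) ^ (5/4 : ℝ) ≤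
      Pr (fun _ => (1/2 : ℝ)) S (fun F => LE2 L m a1 c (↑F : Set Edg) ∧
        AllG M M' B N c a1 b rr (↑F : Set Edg)) := by
    have e : k * ((a1 : ℝ) / (b : ℕ)) ^ (5/4 : ℝ) = k / 2 * ((a1 : ℝ) / (b : ℕ)) ^ (5/4 : ℝ) +
        k / 2 * ((a1 : ℝ) / (b : ℕ)) ^ (5/4 : ℝ) := by ring
    linarith
  have p5 : k / 2 * ((a1 : ℝ) / (16 * L * M0)) ^ (5/4 : ℝ) * (r : ℝ) ^ (-(5/4) : ℝ) =
      k / 2 * ((a1 : ℝ) / (b : ℕ)) ^ (5/4 : ℝ) := by
    have hrR : (0 : ℝ) < r := by exact_mod_cast (by omega : 0 < r)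
    have e1 : (a1 : ℝ) / (b : ℕ) = (a1 : ℝ) / (16 * L * M0) * (r : ℝ)⁻¹ := by
      rw [hb, hm]
      push_cast
      field_simp
    rw [e1, Real.mul_rpow (by positivity) (by positivity), Real.inv_rpow hrR.le,
      Real.rpow_neg hrR.le]
    ring
  rw [p5]
  refine p4.trans ?_
  have hSS' : GeF c (8 * a1) b ⊆ S := (C6.GeF_mono (by omega) le_rfl).trans hSS
  have p6 := ex_eq (M := M) (M' := M') (B := B) (N := N) (rs := 4 * L * m + 26)
    (rc := 4 * L * m + 16) (t := 2 * m) hB hg hab hSS'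
  refine le_trans ?_ (le_of_eq p6.symm)
  show Ex (fun _ => (1/2 : ℝ)) S (fun F => ind (LE2 L m a1 c (↑F : Set Edg) ∧
        AllG M M' B N c a1 b rr (↑F : Set Edg))) ≤ _
  refine Ex_mono C6.ok fun F _ => ?_
  by_cases hE : LE2 L m a1 c (↑F : Set Edg) ∧ AllG M M' B N c a1 b rr (↑F : Set Edg)
  · rw [ind_of hE]
    obtain ⟨p, hp⟩ := exists_pair hr hL hm64 hb hab hrr2 hE.1 hE.2
    have hfin : {p : St × St | PP M M' B N c a1 b (4 * L * m + 26) (4 * L * m + 16) (2 * m)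
        (↑F : Set Edg) (↑F : Set Edg) p}.Finite :=
      (C6.cand c b ×ˢ C6.cand c b).finite_toSet.subset (fun q hq => PP_cand hB hab hq)
    have h1 : 1 ≤ Set.ncard {p : St × St | PP M M' B N c a1 b (4 * L * m + 26)
        (4 * L * m + 16) (2 * m) (↑F : Set Edg) (↑F : Set Edg) p} :=
      (Set.ncard_pos hfin).2 ⟨p, hp⟩
    exact_mod_cast h1
  · rw [ind_not_of hE]
    exact Nat.cast_nonneg _

end Pool.Agent.N948.IX
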