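import Pool.Agent.N948.IX.Ex1
import Pool.Agent.N948.IX.C1

/-!
# Project XD: colour switching for good pairs
-/

set_option autoImplicit false

namespace Pool.Agent.N948.IX.X24

open H974 H906.Cyl H12S Finset H984P H342P Pool.Agent.W92.DP Bas C1

/-- `lf` is at least one -/
lemma lf_pos (c : Vtx) (f : Vtx) : 1 ≤ lf c f := by
  obtain ⟨x, y⟩ := f
  obtain ⟨cx, cy⟩ := c
  simp only [lf, abs_eq_max_neg]
  omega

/-- restriction of an inward crossing -/
lemma stepI {F : Set Edg} {c : Vtx} {a b : ℕ} (hab : a + 2 < b) {σ : St} {T : ℕ}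
    (h : InLeg F c a b σ T) :
    ∃ s t, s + t ≤ T ∧ 0 < t ∧ InLeg F c (a + 1) (b - 1) (orb F σ s) t := by
  obtain ⟨b', rfl⟩ : ∃ b', b = b' + 1 := ⟨b - 1, by omega⟩
  rw [Nat.add_sub_cancel]
  have hab' : a + 1 < b' := by omega
  obtain ⟨s, t, hst, hleg⟩ := inleg_of (F := F) (c := c) (a := a + 1) (b := b') hab' (ρ := σ)
    (n := T) (by have := h.st; push_cast at this; omega)
    (by have := h.en; push_cast; omega)
  exact ⟨s, t, hst, hleg.pos, hleg⟩

/-- time reversal of an inward crossing of the dual configuration -/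
lemma stepO {F : Set Edg} {c : Vtx} {a b : ℕ} (hab : a + 2 < b) {σ : St} {T : ℕ}
    (h : InLeg (DS F) c a b σ T) :
    ∃ (τ : St) (s t : ℕ), s + t ≤ T ∧ 0 < t ∧ OutLeg F c (a + 1) (b - 1) (orb F τ s) t ∧
      (∀ k ≤ T, orb (DS F) σ k = th (orb F τ (T - k))) ∧
      Exm (DS F) σ T = (Exm F τ T).image dl := by
  obtain ⟨b', rfl⟩ : ∃ b', b = b' + 1 := ⟨b - 1, by omega⟩
  rw [Nat.add_sub_cancel]
  have hab' : a + 1 < b' := by omega
  have hab2 : (a : ℤ) + 1 < b' := by exact_mod_cast hab'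
  obtain ⟨τ, hτ⟩ : ∃ τ, τ = thi (orb (DS F) σ T) := ⟨_, rfl⟩
  have hσ : σ = th (orb F τ T) := by
    have h1 := (tht F τ T T le_rfl).1
    rw [Nat.sub_self, orb_zero, hτ, th_thi] at h1
    exact (orb_inj h1).symm.trans (by rw [hτ])
  have horb : ∀ s ≤ T, orb (DS F) σ s = th (orb F τ (T - s)) := by
    intro s hs
    rw [hσ]
    exact (tht F τ T s hs).1
  have hExm : Exm (DS F) σ T = (Exm F τ T).image dl := by
    rw [hσ]
    have h1 := (tht F τ T T le_rfl).2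
    rw [Nat.sub_self, orb_zero] at h1
    exact h1
  have h1 := lf_th c (orb F τ T)
  rw [← hσ] at h1
  have h2 := lf_th c τ
  have h3 := horb T le_rfl
  rw [Nat.sub_self, orb_zero] at h3
  rw [← h3] at h2
  obtain ⟨s, t, hst, hleg⟩ := outleg_of (F := F) (c := c) (a := a + 1) (b := b') hab'
    (ρ := τ) (n := T) (by have := h.en; push_cast; omega)
    (by have := h.st; push_cast at this; omega)
  exact ⟨τ, s, t, hst, hleg.pos, hleg, horb, hExm⟩

/-- arithmetic for the leaning condition -/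
lemma leanAr {M b x y X Y : ℤ} (hM : 1 ≤ M) (hb : 2 ≤ b) (hx : 1 ≤ x) (hX : 1 ≤ X) (hy : 1 ≤ y)
    (hY : 1 ≤ Y) (h1 : x ≤ X + 2) (h2 : Y ≤ y + 2) (h : X ^ 2 ≤ M * b * Y) :
    x ^ 2 ≤ 54 * M * (b - 1) * y := by
  have h3 : x ≤ 3 * X := by omega
  have h4 : Y ≤ 3 * y := by omega
  have h5 : x ^ 2 ≤ (3 * X) ^ 2 := by gcongr
  have h6 : b ≤ 2 * (b - 1) := by omega
  have h7 : M * b * Y ≤ M * (2 * (b - 1)) * (3 * y) := by
    have : 0 ≤ 2 * (b - 1) := by omega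
    gcongr
  nlinarith

/-- arithmetic for the power separation -/
lemma sepAr {M' b p q q' l l' : ℤ} {B : ℕ} (hM : 1 ≤ M') (hb : 2 ≤ b) (hB : 2 ≤ B)
    (hp : 1 ≤ p) (hq0 : 0 ≤ q) (hq1 : q ≤ q' + 1) (hl : 10 ≤ l) (hl' : l' ≤ l + 1)
    (h : (max p q') ^ B ≤ M' * b ^ (B - 1) * l') :
    (max p q) ^ B ≤ (4 ^ B * M') * (b - 1) ^ (B - 1) * l := by
  have h1 : max p q ≤ 2 * max p q' := by omega
  have h0 : 0 ≤ max p q := by omega
  have h2 : (max p q) ^ B ≤ (2 * max p q') ^ B := pow_le_pow_left₀ h0 h1 B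
  rw [mul_pow] at h2
  have h3 : b ^ (B - 1) ≤ (2 * (b - 1)) ^ (B - 1) :=
    pow_le_pow_left₀ (by omega) (by omega) (B - 1)
  rw [mul_pow] at h3
  have h4 : l' ≤ 2 * l := by omega
  have hb1 : (0 : ℤ) ≤ (b - 1) ^ (B - 1) := pow_nonneg (by omega) _
  have hb2 : (0 : ℤ) ≤ b ^ (B - 1) := pow_nonneg (by omega) _
  have h5 : M' * b ^ (B - 1) * l' ≤ M' * (2 ^ (B - 1) * (b - 1) ^ (B - 1)) * (2 * l) := by
    calc M' * b ^ (B - 1) * l' ≤ M' * b ^ (B - 1) * (2 * l) := by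
          apply mul_le_mul_of_nonneg_left h4
          positivity
      _ ≤ M' * (2 ^ (B - 1) * (b - 1) ^ (B - 1)) * (2 * l) := by
          apply mul_le_mul_of_nonneg_right _ (by omega)
          apply mul_le_mul_of_nonneg_left h3 (by omega)
  have h6 : (4 : ℤ) ^ B = 2 ^ B * (2 ^ (B - 1) * 2) := by
    rw [← pow_succ, Nat.sub_add_cancel (by omega), ← mul_pow]
    norm_num
  calc (max p q) ^ B ≤ 2 ^ B * (max p q') ^ B := h2
    _ ≤ 2 ^ B * (M' * (2 ^ (B - 1) * (b - 1) ^ (B - 1)) * (2 * l)) := by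
        apply mul_le_mul_of_nonneg_left (h.trans h5)
        positivity
    _ = (4 ^ B * M') * (b - 1) ^ (B - 1) * l := by
        rw [h6]
        ring

/-- the relation for the inward crossing -/
def rI (F : Set Edg) (c : Vtx) (a b : ℕ) (σ σ' : St) : Prop := r2 c a b true F σ σ'

/-- the relation for the outward crossing -/
def rO (F : Set Edg) (c : Vtx) (a b : ℕ) (σ σ' : St) : Prop := r2 c a b false F σ σ'

lemma lv_dl' (e : Edg) : |(src e).1 - (src (dl e)).1| ≤ 1 ∧ |(src e).2 - (src (dl e)).2| ≤ 1 := by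
  obtain ⟨x, y, _ | _⟩ := e <;> simp [abs_eq_max_neg]

/-- the main step -/
lemma main (hB : St_basic) {M M' B N : ℕ} (hM : 1 ≤ M) (hM' : 1 ≤ M') (hBB : 2 ≤ B)
    (hN : 200 ≤ N) {c : Vtx} {a1 b rs rc t : ℕ} {F1 F2 : Set Edg} (ha : 1 ≤ a1)
    (hb : 100 * a1 ≤ b) {σ ρ : St} {T T' : ℕ}
    (h : GII M M' B N c a1 b (rs + 2) rc t F1 (DS F2) σ ρ T T') :
    ∃ (σ' τ : St) (T1 T1' : ℕ), GIO2 (54 * M) (4 ^ B * M') B N c (8 * a1 + 1) (b - 1) rs (rc + 4)
      (t + 4) F1 F2 σ' τ T1 T1' ∧ rI F1 c (8 * a1) b σ σ' ∧ rO F2 c (8 * a1) b ρ τ := by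
  have hab : 8 * a1 + 2 < b := by omega
  obtain ⟨s, n, hsn, hn, hI⟩ := stepI hab h.i
  obtain ⟨τ0, s', n', hsn', hn', hO, horb, hExm⟩ := stepO hab h.o
  have hbc : ((b - 1 : ℕ) : ℤ) = (b : ℤ) - 1 := by
    push_cast [Nat.cast_sub (show 1 ≤ b by omega)]
    ring
  have hbZ : (100 : ℤ) * a1 ≤ b := by exact_mod_cast hb
  have haZ : (1 : ℤ) ≤ a1 := by exact_mod_cast ha
  have hMZ : (1 : ℤ) ≤ M := by exact_mod_cast hM
  have hMZ' : (1 : ℤ) ≤ M' := by exact_mod_cast hM'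
  have hNZ : (200 : ℤ) ≤ N := by exact_mod_cast hN
  have hNa : (N : ℤ) ≤ N * a1 := by nlinarith
  -- the states of the outward crossing
  have key : ∀ k, k ≤ n' → T' - (k + s') ≤ T' ∧
      orb (DS F2) ρ (T' - (k + s')) = th (orb F2 (orb F2 τ0 s') k) := by
    intro k hk
    refine ⟨Nat.sub_le _ _, ?_⟩
    rw [horb _ (Nat.sub_le _ _), ← orb_add]
    congr 2
    omega
  have hsub1 : Exm F1 (orb F1 σ s) n ⊆ Exm F1 σ T := exm_sub hsn
  have hsub2 : ∀ e ∈ Exm F2 (orb F2 τ0 s') n', dl e ∈ Exm (DS F2) ρ T' := by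
    intro e he
    rw [hExm]
    exact mem_image_of_mem _ (exm_sub hsn' he)
  refine ⟨orb F1 σ s, orb F2 τ0 s', n, n', ⟨hI, hO, ?_, ?_, ?_, ?_, ?_, ?_, ?_⟩, ?_, ?_⟩
  · -- LeanP
    intro u v huv hv
    rw [← orb_add, ← orb_add, hbc]
    have h1 := h.li (u + s) (v + s) (by omega) (by omega)
    have h2 := lf_pos c (face (orb F1 σ (u + s)))
    have h3 := lf_pos c (face (orb F1 σ (v + s)))
    push_cast
    exact leanAr hMZ (by omega) h3 h3 h2 h2 (by omega) (by omega) h1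
  · -- LeanO
    intro u v huv hv
    rw [hbc]
    obtain ⟨k1, k2⟩ := key u (by omega)
    obtain ⟨k3, k4⟩ := key v (by omega)
    have h1 := h.lo (T' - (v + s')) (T' - (u + s')) (by omega) k1
    rw [k2, k4] at h1
    have h2 := lf_th c (orb F2 (orb F2 τ0 s') u)
    have h3 := lf_th c (orb F2 (orb F2 τ0 s') v)
    push_cast
    exact leanAr hMZ (by omega) (lf_pos _ _) (lf_pos _ _) (lf_pos _ _) (lf_pos _ _) h2.2 h3.1 h1
  · -- LnIn
    intro u v huv hv hlt
    rw [← orb_add] at hlt ⊢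
    have h1 := h.ci (u + s) (v + s) (by omega) (by omega) (by push_cast at hlt ⊢; omega)
    push_cast at h1 ⊢
    nlinarith
  · -- LnOut
    intro u v huv hv hlt
    obtain ⟨k1, k2⟩ := key u (by omega)
    obtain ⟨k3, k4⟩ := key v (by omega)
    have h2 := lf_th c (orb F2 (orb F2 τ0 s') u)
    have h3 := lf_th c (orb F2 (orb F2 τ0 s') v)
    have h1 := h.co (T' - (v + s')) (T' - (u + s')) (by omega) k1
      (by rw [k4]; push_cast at hlt ⊢; omega)
    rw [k2] at h1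
    push_cast at h1 ⊢
    nlinarith
  · -- separation
    intro e he e' he'
    have h1 := h.sp e (hsub1 he) (dl e') (hsub2 e' he')
    have h2 := lv_dl e'
    have h3 := lv_tri (src e) (src e') (src (dl e'))
    have h4 := lv_tri c (src e') (src (dl e'))
    have h4' := lv_tri c (src (dl e')) (src e')
    rw [lv_comm' (src (dl e')) (src e')] at h4'
    have h5 : (1 : ℤ) ≤ lv c (src e) := by
      have h6 := hsub1 he
      rw [mem_Exm] at h6
      obtain ⟨k, hk, rfl⟩ := h6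
      have h7 := (hB F1 c (8 * a1) b σ T (by omega) h.i).2.2.2.1 k hk
      have h8 := h7.1.1
      push_cast at h8
      omega
    have h6 : (0 : ℤ) ≤ lv c (src e') := by
      unfold lv
      exact le_max_of_le_left (abs_nonneg _)
    refine ⟨by omega, fun hor => ?_⟩
    rw [hbc]
    have h7 := h1.2 (by
      push_cast
      rcases hor with h8 | h8
      · left; omega
      · right; omega)
    push_cast
    exact sepAr hMZ' (by omega) hBB h5 h6 (by omega) (by omega) (by omega) h7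
  · -- lower left
    intro e he hr
    have h1 := h.si e (hsub1 he) (by push_cast at hr; omega)
    push_cast
    omega
  · -- upper right
    intro e he hr
    have h2 := lv_dl e
    have h3 := lv_dl' e
    rw [abs_le, abs_le] at h3
    have h4' := lv_tri c (src (dl e)) (src e)
    rw [lv_comm' (src (dl e)) (src e)] at h4'
    have h1 := h.so (dl e) (hsub2 e he) (by push_cast at hr; omega)
    push_cast
    omega
  · -- relation
    unfold rI r2
    rw [if_pos rfl]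
    exact ⟨T, s, h.i, by omega, rfl⟩
  · unfold rO r2
    rw [if_neg (by simp)]
    refine ⟨T', T' - s', h.o, by omega, Nat.sub_le _ _, ?_⟩
    rw [horb _ (Nat.sub_le _ _)]
    congr 2
    omega

end X24

open H974 H906.Cyl H12S Finset H984P H342P Pool.Agent.W92.DP Bas C1 X24

theorem shq (hB : St_basic) (hr : St_restr) (hf : St_fin) : St_SHQ := by
  intro M M' B N hM hM' hBB hN
  refine ⟨54 * M, 4 ^ B * M', by omega, ?_, ?_⟩
  · have : 1 ≤ 4 ^ B := Nat.one_le_pow _ _ (by norm_num)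
    nlinarith
  intro c a1 b rs rc t F1 F2 ha hb
  refine ncard_rel (fun p q => rI F1 c (8 * a1) b p.1 q.1 ∧ rO F2 c (8 * a1) b p.2 q.2) ?_ ?_ ?_
  · rintro ⟨σ, ρ⟩ ⟨T, T', h⟩
    obtain ⟨σ', τ, T1, T1', h1, h2, h3⟩ := main hB hM hM' hBB hN ha hb h
    exact ⟨(σ', τ), ⟨T1, T1', h1⟩, h2, h3⟩
  · rintro ⟨σ, ρ⟩ ⟨σ2, ρ2⟩ ⟨σ', τ⟩ ⟨h1, h2⟩ ⟨h3, h4⟩
    have e1 := r2_inj hr (by omega) h1 h3
    have e2 := r2_inj hr (by omega) h2 h4
    simp only at e1 e2
    rw [e1, e2]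
  · obtain ⟨A, hA⟩ := hf c (b - 1)
    refine ((A.finite_toSet).prod (fin_states c (8 * a1 + 1))).subset ?_
    rintro ⟨σ, τ⟩ ⟨T, T', h⟩
    exact ⟨hA F1 (8 * a1 + 1) (by omega) ⟨T, h.i⟩, h.o.st⟩

end Pool.Agent.N948.IX
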