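import Pool.Agent.N948.IX.Ex1
import Pool.Agent.N948.IX.C6

/-!
# Project XD (helper948), X25 (helper216): the expected number of good pairs
-/

set_option autoImplicit false

namespace Pool.Agent.N948.IX

open H974 H906.Cyl H12S Finset H984P H342P Pool.Agent.W92.DP

namespace X25

/-! ### Dependence on the edges -/

section

variable {F G : Set Edg} {c : Vtx} {σ : St} {T : ℕ}

theorem leanP_congr {M b : ℕ} (h : ∀ s ≤ T, orb G σ s = orb F σ s) (hl : LeanP F c M b σ T) :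
    LeanP G c M b σ T := by
  intro s t hst ht
  rw [h t ht, h s (hst.trans ht)]
  exact hl s t hst ht

theorem leanO_congr {M b : ℕ} (h : ∀ s ≤ T, orb G σ s = orb F σ s) (hl : LeanO F c M b σ T) :
    LeanO G c M b σ T := by
  intro s t hst ht
  rw [h t ht, h s (hst.trans ht)]
  exact hl s t hst ht

theorem coreL_congr {a N : ℕ} (h : ∀ s ≤ T, orb G σ s = orb F σ s) (hl : CoreL F c a N σ T) :
    CoreL G c a N σ T := by
  intro s t hst ht
  rw [h t ht, h s (hst.trans ht)]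
  exact hl s t hst ht

theorem lnIn_congr {M1 M2 : ℕ} (h : ∀ s ≤ T, orb G σ s = orb F σ s) (hl : LnIn F c M1 M2 σ T) :
    LnIn G c M1 M2 σ T := by
  intro s t hst ht
  rw [h t ht, h s (hst.trans ht)]
  exact hl s t hst ht

theorem lnOut_congr {M1 M2 : ℕ} (h : ∀ s ≤ T, orb G σ s = orb F σ s) (hl : LnOut F c M1 M2 σ T) :
    LnOut G c M1 M2 σ T := by
  intro s t hst ht
  rw [h t ht, h s (hst.trans ht)]
  exact hl s t hst ht

end

theorem in_loc (hB : St_basic) {F G : Set Edg} {c : Vtx} {a b : ℕ} {σ : St} {T : ℕ} (hab : a < b)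
    (h : F ∩ Ge c a b = G ∩ Ge c a b) (hl : InLeg F c a b σ T) :
    InLeg G c a b σ T ∧ Exm G σ T = Exm F σ T ∧ ∀ s ≤ T, orb G σ s = orb F σ s := by
  have h1 := C6.leg_loc hB hab h (C6.leg_true.2 hl)
  have h2 : ∀ e ∈ Exm F σ T, (e ∈ F ↔ e ∈ G) := by
    intro e he
    obtain ⟨s, hs, rfl⟩ := mem_Exm.1 he
    have h2 := C6.leg_ge hB hab (C6.leg_true.2 hl) s hs
    have h3 : ae (orb F σ s) ∈ F ∩ Ge c a b ↔ ae (orb F σ s) ∈ G ∩ Ge c a b := by rw [h]
    exact ⟨fun h4 => (h3.1 ⟨h4, h2⟩).1, fun h4 => (h3.2 ⟨h4, h2⟩).1⟩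
  exact ⟨C6.leg_true.1 h1.1, h1.2, fun s hs => orb_congr h2 hs⟩

theorem gii_congr (hB : St_basic) {M M' B N : ℕ} {c : Vtx} {a1 b rs rc t : ℕ}
    {F1 F2 G1 G2 : Set Edg} {σ ρ : St} {T T' : ℕ} (hab : 8 * a1 < b)
    (h1 : F1 ∩ Ge c (8 * a1) b = G1 ∩ Ge c (8 * a1) b)
    (h2 : F2 ∩ Ge c (8 * a1) b = G2 ∩ Ge c (8 * a1) b)
    (h : GII M M' B N c a1 b rs rc t F1 F2 σ ρ T T') :
    GII M M' B N c a1 b rs rc t G1 G2 σ ρ T T' := by
  obtain ⟨i1, i2, i3⟩ := in_loc hB hab h1 h.i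
  obtain ⟨o1, o2, o3⟩ := in_loc hB hab h2 h.o
  refine ⟨i1, o1, leanP_congr i3 h.li, leanP_congr o3 h.lo, coreL_congr i3 h.ci,
    coreL_congr o3 h.co, ?_, ?_, ?_⟩
  · rw [i2, o2]
    exact h.sp
  · rw [i2]
    exact h.si
  · rw [o2]
    exact h.so

/-! ### Counting pairs -/

theorem ncard_pair (Cd : Finset St) (Q : St → St → Prop)
    (h : ∀ σ τ, Q σ τ → σ ∈ Cd ∧ τ ∈ Cd) :
    ((Set.ncard {p : St × St | Q p.1 p.2} : ℕ) : ℝ) = ∑ p ∈ Cd ×ˢ Cd, ind (Q p.1 p.2) := by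
  classical
  have h1 : {p : St × St | Q p.1 p.2} = ↑((Cd ×ˢ Cd).filter (fun p => Q p.1 p.2)) := by
    ext p
    rw [Finset.mem_coe, Finset.mem_filter, Finset.mem_product]
    exact ⟨fun hs => ⟨h _ _ hs, hs⟩, fun hs => hs.2⟩
  rw [h1, Set.ncard_coe_finset, Finset.card_filter]
  push_cast
  refine Finset.sum_congr rfl fun s _ => ?_
  unfold ind
  split_ifs <;> rfl

/-- the witness sets of inward crossings -/
def Wi (M N : ℕ) (c : Vtx) (a b rc t : ℕ) (σ : St) (F : Set Edg) (A : Finset Edg) : Prop :=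
  ∃ T, InLeg F c a b σ T ∧ LeanP F c M b σ T ∧ LnIn F c (80 * a) (N * a) σ T ∧
    CfSW c rc t (Exm F σ T) ∧ Exm F σ T = A

/-- the witness sets of outward crossings -/
def Wo (M N : ℕ) (c : Vtx) (a b rc t : ℕ) (τ : St) (F : Set Edg) (A : Finset Edg) : Prop :=
  ∃ T, OutLeg F c a b τ T ∧ LeanO F c M b τ T ∧ LnOut F c (80 * a) (N * a) τ T ∧
    CfNE c rc t (Exm F τ T) ∧ Exm F τ T = A

/-- both -/
def W2 (M N : ℕ) (c : Vtx) (a b rc t : ℕ) (σ τ : St) (i : Fin 2) (F : Set Edg) (A : Finset Edg) :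
    Prop :=
  if i = 0 then Wi M N c a b rc t σ F A else Wo M N c a b rc t τ F A

/-- the distances -/
def R2 (M' B : ℕ) (c : Vtx) (b rs : ℕ) (A : Fin 2 → Finset Edg) : Prop :=
  ∀ e ∈ A 0, ∀ e' ∈ A 1, 10 ≤ lv (src e) (src e') ∧
    (lv c (src e) ≤ rs ∨ lv c (src e') ≤ rs →
      (max (lv c (src e)) (lv c (src e'))) ^ B ≤
        (M' : ℤ) * (b : ℤ) ^ (B - 1) * lv (src e) (src e'))

variable {M M' B N : ℕ} {c : Vtx} {a b rs rc t : ℕ} {σ τ : St}

theorem W2_zero {F : Set Edg} {A : Finset Edg} :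
    W2 M N c a b rc t σ τ 0 F A ↔ Wi M N c a b rc t σ F A := by
  unfold W2
  rw [if_pos rfl]

theorem W2_one {F : Set Edg} {A : Finset Edg} :
    W2 M N c a b rc t σ τ 1 F A ↔ Wo M N c a b rc t τ F A := by
  unfold W2
  rw [if_neg (by decide)]

theorem gio2_iff (ω : Fin 2 → Set Edg) :
    (∃ T T', GIO2 M M' B N c a b rs rc t (ω 0) (ω 1) σ τ T T') ↔
      ∃ A : Fin 2 → Finset Edg, (∀ i, W2 M N c a b rc t σ τ i (ω i) (A i)) ∧
        R2 M' B c b rs A := by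
  constructor
  · rintro ⟨T, T', h⟩
    refine ⟨![Exm (ω 0) σ T, Exm (ω 1) τ T'], ?_, ?_⟩
    · intro i
      fin_cases i
      · exact W2_zero.2 ⟨T, h.i, h.li, h.ci, h.si, rfl⟩
      · exact W2_one.2 ⟨T', h.o, h.lo, h.co, h.so, rfl⟩
    · exact h.sp
  · rintro ⟨A, hA, hR⟩
    obtain ⟨T, i1, i2, i3, i4, i5⟩ := W2_zero.1 (hA 0)
    obtain ⟨T', o1, o2, o3, o4, o5⟩ := W2_one.1 (hA 1)
    refine ⟨T, T', i1, o1, i2, o2, i3, o3, ?_, i4, o4⟩
    rw [i5, o5]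
    exact hR

theorem gps_pair (hB : St_basic) (hg : St_GPS) (hab : a < b) {S : Finset Edg}
    (hS : GeF c a b ⊆ S) :
    Pr (fun _ => (1/2 : ℝ)) ((Finset.univ : Finset (Fin 2)) ×ˢ S)
      (fun F => ∃ T T', GIO2 M M' B N c a b rs rc t (sl F 0) (sl F 1) σ τ T T') =
    Pr (fun _ => (1/2 : ℝ)) S
      (fun F => ∃ T T', GIO2 M M' B N c a b rs rc t (↑F : Set Edg) (↑F : Set Edg) σ τ T T') := by
  have h := hg 2 2 id S (W2 M N c a b rc t σ τ) (R2 M' B c b rs) ?_ ?_ ?_ ?_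
  · rw [Pr_congr (p := fun _ : Fin 2 × Edg => (1/2 : ℝ))
        (fun F _ => gio2_iff (fun i => sl F i)),
      Pr_congr (p := fun _ : Edg => (1/2 : ℝ)) (fun F _ => gio2_iff (fun _ => (↑F : Set Edg)))]
    exact h
  · intro i F A hW
    fin_cases i
    · obtain ⟨T, h1, -, -, -, rfl⟩ := W2_zero.1 hW
      exact (C6.leg_exm hB hab (C6.leg_true.2 h1)).trans hS
    · obtain ⟨T, h1, -, -, -, rfl⟩ := W2_one.1 hW
      exact (C6.leg_exm hB hab (C6.leg_false.2 h1)).trans hS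
  · intro i F G A hW hFG
    fin_cases i
    · obtain ⟨T, h1, h2, h3, h4, rfl⟩ := W2_zero.1 hW
      have e1 : ∀ s ≤ T, orb G σ s = orb F σ s := fun s hs => orb_congr hFG hs
      have e2 : Exm G σ T = Exm F σ T := Exm_congr hFG
      refine W2_zero.2 ⟨T, C6.leg_true.1 (C6.leg_congr hFG (C6.leg_true.2 h1)),
        leanP_congr e1 h2, lnIn_congr e1 h3, ?_, e2⟩
      rw [e2]
      exact h4
    · obtain ⟨T, h1, h2, h3, h4, rfl⟩ := W2_one.1 hW
      have e1 : ∀ s ≤ T, orb G τ s = orb F τ s := fun s hs => orb_congr hFG hs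
      have e2 : Exm G τ T = Exm F τ T := Exm_congr hFG
      refine W2_one.2 ⟨T, C6.leg_false.1 (C6.leg_congr hFG (C6.leg_false.2 h1)),
        leanO_congr e1 h2, lnOut_congr e1 h3, ?_, e2⟩
      rw [e2]
      exact h4
  · intro i F A A' hW hW'
    fin_cases i
    · obtain ⟨T, h1, -, -, -, rfl⟩ := W2_zero.1 hW
      obtain ⟨T', h1', -, -, -, rfl⟩ := W2_zero.1 hW'
      rw [C6.leg_uniq (C6.leg_true.2 h1) (C6.leg_true.2 h1')]
    · obtain ⟨T, h1, -, -, -, rfl⟩ := W2_one.1 hW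
      obtain ⟨T', h1', -, -, -, rfl⟩ := W2_one.1 hW'
      rw [C6.leg_uniq (C6.leg_false.2 h1) (C6.leg_false.2 h1')]
  · intro A hA i i' hii
    have h01 : Disjoint (A 0) (A 1) := by
      rw [Finset.disjoint_left]
      intro e he he'
      have h1 := (hA e he e he').1
      have h2 : lv (src e) (src e) = 0 := by simp [lv]
      rw [h2] at h1
      omega
    fin_cases i <;> fin_cases i'
    · exact absurd rfl hii
    · exact h01
    · exact h01.symm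
    · exact absurd rfl hii

theorem gio2_cand (hB : St_basic) (hab : a < b) {F1 F2 : Set Edg}
    (h : ∃ T T', GIO2 M M' B N c a b rs rc t F1 F2 σ τ T T') :
    σ ∈ C6.cand c b ∧ τ ∈ C6.cand c b := by
  obtain ⟨T, T', h⟩ := h
  exact ⟨C6.leg_cand hB hab (C6.leg_true.2 h.i), C6.leg_cand hB hab (C6.leg_false.2 h.o)⟩

theorem gio2_ex (hB : St_basic) (hg : St_GPS) (hab : a < b) {S : Finset Edg}
    (hS : GeF c a b ⊆ S) :
    Ex (fun _ => (1/2 : ℝ)) ((Finset.univ : Finset (Fin 2)) ×ˢ S)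
      (fun F => ((Set.ncard {p : St × St | ∃ T T', GIO2 M M' B N c a b rs rc t (sl F 0) (sl F 1)
        p.1 p.2 T T'} : ℕ) : ℝ)) =
    Ex (fun _ => (1/2 : ℝ)) S
      (fun F => ((Set.ncard {p : St × St | ∃ T T', GIO M M' B N c a b rs rc t (↑F : Set Edg)
        p.1 p.2 T T'} : ℕ) : ℝ)) := by
  have e0 : ∀ F : Finset Edg, {p : St × St | ∃ T T', GIO M M' B N c a b rs rc t (↑F : Set Edg)
      p.1 p.2 T T'} = {p : St × St | ∃ T T', GIO2 M M' B N c a b rs rc t (↑F : Set Edg)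
      (↑F : Set Edg) p.1 p.2 T T'} := by
    intro F
    ext p
    constructor
    · rintro ⟨T, T', h⟩
      exact ⟨T, T', h.i, h.o, h.li, h.lo, h.ci, h.co, h.sp, h.si, h.so⟩
    · rintro ⟨T, T', h⟩
      exact ⟨T, T', h.i, h.o, h.li, h.lo, h.ci, h.co, h.sp, h.si, h.so⟩
  simp only [e0]
  rw [Ex_congr (p := fun _ : Fin 2 × Edg => (1/2 : ℝ))
      (fun F _ => ncard_pair (C6.cand c b)
        (fun σ τ => ∃ T T', GIO2 M M' B N c a b rs rc t (sl F 0) (sl F 1) σ τ T T')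
        (fun σ τ hσ => gio2_cand hB hab hσ)), Ex_sum,
    Ex_congr (p := fun _ : Edg => (1/2 : ℝ))
      (fun F _ => ncard_pair (C6.cand c b)
        (fun σ τ => ∃ T T', GIO2 M M' B N c a b rs rc t (↑F : Set Edg) (↑F : Set Edg) σ τ T T')
        (fun σ τ hσ => gio2_cand hB hab hσ)), Ex_sum]
  exact Finset.sum_congr rfl fun p _ => gps_pair hB hg hab hS

end X25

open X25 in
/-- The expected number of good pairs. -/
theorem pio (hB : St_basic) (hoB : St_oBasic) (hr : St_restr) (hoR : St_oRestr) (hf : St_fin)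
    (hg : St_GPS) (hL : St_SHL) (hQ : St_SHQ) (hP : St_PII) : St_PIO := by
  obtain ⟨L, M0, B, a1, M, M', N, r0, k, hL2, hM0, hB2, ha1, hM, hM', hN, hr0, hk, hP⟩ := hP
  obtain ⟨M1, M1', hM1, hM1', hQ⟩ := hQ M M' B N hM hM' hB2 hN
  refine ⟨L, M0, B, 8 * a1 + 1, M1, M1', N, r0 + a1, k, hL2, hM0, hB2, by omega, hM1, hM1',
    by omega, by omega, hk, ?_⟩
  intro r c S hrr hS
  have hLM : 128 ≤ L * M0 := by nlinarith
  have hb : 100 * a1 ≤ 16 * L * (M0 * r) := by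
    have h1 : a1 ≤ r := by omega
    calc 100 * a1 ≤ 16 * 128 * r := by omega
      _ ≤ 16 * (L * M0) * r := by
        apply Nat.mul_le_mul_right
        omega
      _ = 16 * L * (M0 * r) := by ring
  set b : ℕ := 16 * L * (M0 * r) with hbdef
  have hBxm : ∀ n, n ≤ b + 3 → Bx c n ⊆ (↑S : Set Edg) := by
    intro n hn e he
    apply hS
    have h1 : (n : ℤ) ≤ ((b + 3 : ℕ) : ℤ) := by exact_mod_cast hn
    exact ⟨he.1.trans h1, he.2.trans h1⟩
  have hGe : ∀ a' b', b' ≤ b + 3 → GeF c a' b' ⊆ S := by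
    intro a' b' hb' e he
    have h1 := C6.Ge_sub_Bx c a' b' (C6.mem_GeF.1 he)
    exact_mod_cast hBxm b' hb' h1
  refine (hP r c S (by omega) (hGe _ _ (by omega))).trans ?_
  -- the dual configuration
  have h2 := hL 2 C6.e2 c b (fun ω => ((Set.ncard {p : St × St | ∃ T T', GII M M' B N c a1 b
    (4 * L * (M0 * r) + 26) (4 * L * (M0 * r) + 16) (2 * (M0 * r)) (ω 0) (ω 1)
    p.1 p.2 T T'} : ℕ) : ℝ)) ?_ S (hBxm _ (by omega))
  · rw [← h2]
    have h3 : Ex (fun _ => (1/2 : ℝ)) ((Finset.univ : Finset (Fin 2)) ×ˢ S) (fun F =>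
        ((Set.ncard {p : St × St | ∃ T T', GII M M' B N c a1 b
          (4 * L * (M0 * r) + 26) (4 * L * (M0 * r) + 16) (2 * (M0 * r))
          (swt C6.e2 (fun i => sl F i) 0) (swt C6.e2 (fun i => sl F i) 1)
          p.1 p.2 T T'} : ℕ) : ℝ)) ≤
        Ex (fun _ => (1/2 : ℝ)) ((Finset.univ : Finset (Fin 2)) ×ˢ S) (fun F =>
        ((Set.ncard {p : St × St | ∃ T T', GIO2 M1 M1' B N c (8 * a1 + 1) (b - 1)
          (4 * L * (M0 * r) + 24) (4 * L * (M0 * r) + 20) (2 * (M0 * r) + 4) (sl F 0) (sl F 1)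
          p.1 p.2 T T'} : ℕ) : ℝ)) := by
      refine Ex_mono C6.ok fun F _ => ?_
      have h4 := hQ c a1 b (4 * L * (M0 * r) + 24) (4 * L * (M0 * r) + 16) (2 * (M0 * r))
        (sl F 0) (sl F 1) (by omega) hb
      have e1 : swt C6.e2 (fun i => sl F i) 0 = sl F 0 := by simp [swt, C6.e2]
      have e2 : swt C6.e2 (fun i => sl F i) 1 = DS (sl F 1) := by simp [swt, C6.e2]
      rw [e1, e2]
      exact_mod_cast h4
    refine h3.trans (le_of_eq ?_)
    exact gio2_ex hB hg (by omega) (hGe _ _ (by omega))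
  · intro ω ω' hω
    have h3 : ∀ i, ω i ∩ Ge c (8 * a1) b = ω' i ∩ Ge c (8 * a1) b :=
      fun i => C6.eq_on (C6.Ge_sub_Bx c (8 * a1) b) (hω i)
    have h4 : {p : St × St | ∃ T T', GII M M' B N c a1 b
        (4 * L * (M0 * r) + 26) (4 * L * (M0 * r) + 16) (2 * (M0 * r)) (ω 0) (ω 1)
        p.1 p.2 T T'} = {p : St × St | ∃ T T', GII M M' B N c a1 b
        (4 * L * (M0 * r) + 26) (4 * L * (M0 * r) + 16) (2 * (M0 * r)) (ω' 0) (ω' 1)
        p.1 p.2 T T'} := by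
      ext p
      constructor
      · rintro ⟨T, T', h⟩
        exact ⟨T, T', gii_congr hB (by omega) (h3 0) (h3 1) h⟩
      · rintro ⟨T, T', h⟩
        exact ⟨T, T', gii_congr hB (by omega) (h3 0).symm (h3 1).symm h⟩
    simp only [h4]

end Pool.Agent.N948.IX
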