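import Pool.Agent.N948.IX.Six

/-!
# An inward and an outward crossing with circuits off them
-/

set_option autoImplicit false

namespace Pool.Agent.N948.IX.X3

open H974 H12S Finset H984P H342P Pool.Agent.W92.DP

/-! ### Norms -/

theorem lf_odd (c f : Vtx) (k : ℤ) : lf c f ≠ 2 * k := by
  unfold lf
  simp only [abs_eq_max_neg]
  omega

theorem lf_adj (c : Vtx) (e : Edg) :
    lf c (dsrc e) ≤ lf c (dtgt e) + 2 ∧ lf c (dtgt e) ≤ lf c (dsrc e) + 2 := by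
  obtain ⟨x, y, q⟩ := e
  obtain ⟨cx, cy⟩ := c
  cases q <;> simp only [dsrc_true, dsrc_false, dtgt_mk, lf, abs_eq_max_neg] <;> omega

theorem lv_adj (c : Vtx) (e : Edg) :
    lv c (src e) ≤ lv c (tgt e) + 1 ∧ lv c (tgt e) ≤ lv c (src e) + 1 := by
  obtain ⟨x, y, q⟩ := e
  obtain ⟨cx, cy⟩ := c
  cases q <;> simp only [tgt_true, tgt_false, src_mk, lv, abs_eq_max_neg] <;> omega

theorem ge_of {c : Vtx} {r s : ℕ} {e : Edg} {h : Vtx} (hh : Af c r s h)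
    (he : dsrc e = h ∨ dtgt e = h) : e ∈ Ge c r s := by
  obtain ⟨x, y, q⟩ := e
  obtain ⟨cx, cy⟩ := c
  obtain ⟨h1, h2⟩ := hh
  unfold Ge
  rw [Set.mem_ofPred_eq]
  rcases he with rfl | rfl <;> cases q <;>
    simp only [dsrc_true, dsrc_false, dtgt_mk, tgt_true, tgt_false, src_mk, lv, lf,
      abs_eq_max_neg] at h1 h2 ⊢ <;> omega

theorem af_of {c f : Vtx} {r s : ℕ} (h1 : ¬ lf c f < 2 * (r : ℤ)) (h2 : ¬ 2 * (s : ℤ) < lf c f) :
    Af c r s f := by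
  have h3 := lf_odd c f r
  have h4 := lf_odd c f s
  exact ⟨by omega, by omega⟩

/-! ### Paths -/

theorem path_mid {V : Type} (R : V → V → Prop) (φ : V → ℤ) (hφ : ∀ p q, R p q → φ q ≤ φ p + 1)
    {r s : ℤ} (hrs : r < s) {x y : V} (h : Relation.ReflTransGen R x y) (hx : φ x ≤ r)
    (hy : s ≤ φ y) : ∃ v w, φ v = r ∧ φ w = s ∧ Relation.ReflTransGen
      (fun p q => R p q ∧ (r ≤ φ p ∧ φ p ≤ s) ∧ (r ≤ φ q ∧ φ q ≤ s)) v w := by
  have key : (∃ v w, φ v = r ∧ φ w = s ∧ Relation.ReflTransGen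
      (fun p q => R p q ∧ (r ≤ φ p ∧ φ p ≤ s) ∧ (r ≤ φ q ∧ φ q ≤ s)) v w) ∨
      (φ y < s ∧ (r ≤ φ y → ∃ v, φ v = r ∧ Relation.ReflTransGen
      (fun p q => R p q ∧ (r ≤ φ p ∧ φ p ≤ s) ∧ (r ≤ φ q ∧ φ q ≤ s)) v y)) := by
    clear hy
    induction h with
    | refl => exact Or.inr ⟨by omega, fun h => ⟨x, by omega, Relation.ReflTransGen.refl⟩⟩
    | @tail p q _ hpq ih =>
      rcases ih with ih | ⟨ih1, ih2⟩
      · exact Or.inl ih
      have h1 := hφ p q hpq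
      by_cases h2 : s ≤ φ q
      · obtain ⟨v, hv, hvp⟩ := ih2 (by omega)
        exact Or.inl ⟨v, q, hv, by omega, hvp.tail ⟨hpq, by omega, by omega⟩⟩
      · refine Or.inr ⟨by omega, fun h3 => ?_⟩
        by_cases h4 : r ≤ φ p
        · obtain ⟨v, hv, hvp⟩ := ih2 h4
          exact ⟨v, hv, hvp.tail ⟨hpq, by omega, by omega⟩⟩
        · exact ⟨q, by omega, Relation.ReflTransGen.refl⟩
  rcases key with key | ⟨h1, _⟩
  · exact key
  · omega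

theorem path_bd {V : Type} (R : V → V → Prop) (In Out : V → Prop) (hio : ∀ p, In p → ¬ Out p)
    (hj : ∀ p q, R p q → In p → ¬ Out q) {x y : V} (h : Relation.ReflTransGen R x y)
    (hx : In x) (hy : Out y) : ∃ v₀ v w w₁, In v₀ ∧ R v₀ v ∧ (¬ In v ∧ ¬ Out v) ∧
      (¬ In w ∧ ¬ Out w) ∧ R w w₁ ∧ Out w₁ ∧ Relation.ReflTransGen
      (fun p q => R p q ∧ (¬ In p ∧ ¬ Out p) ∧ (¬ In q ∧ ¬ Out q)) v w := by
  have key : (∃ v₀ v w w₁, In v₀ ∧ R v₀ v ∧ (¬ In v ∧ ¬ Out v) ∧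
      (¬ In w ∧ ¬ Out w) ∧ R w w₁ ∧ Out w₁ ∧ Relation.ReflTransGen
      (fun p q => R p q ∧ (¬ In p ∧ ¬ Out p) ∧ (¬ In q ∧ ¬ Out q)) v w) ∨
      (¬ Out y ∧ (¬ In y → ∃ v₀ v, In v₀ ∧ R v₀ v ∧ (¬ In v ∧ ¬ Out v) ∧ Relation.ReflTransGen
      (fun p q => R p q ∧ (¬ In p ∧ ¬ Out p) ∧ (¬ In q ∧ ¬ Out q)) v y)) := by
    clear hy
    induction h with
    | refl => exact Or.inr ⟨hio x hx, fun h => absurd hx h⟩
    | @tail p q _ hpq ih =>
      rcases ih with ih | ⟨ih1, ih2⟩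
      · exact Or.inl ih
      by_cases h2 : Out q
      · have h3 : ¬ In p := fun h => hj p q hpq h h2
        obtain ⟨v₀, v, hv0, hv, hv', hvp⟩ := ih2 h3
        exact Or.inl ⟨v₀, v, p, q, hv0, hv, hv', ⟨h3, ih1⟩, hpq, h2, hvp⟩
      · refine Or.inr ⟨h2, fun h3 => ?_⟩
        by_cases h4 : In p
        · exact ⟨p, q, h4, hpq, ⟨h3, h2⟩, Relation.ReflTransGen.refl⟩
        · obtain ⟨v₀, v, hv0, hv, hv', hvp⟩ := ih2 h4
          exact ⟨v₀, v, hv0, hv, hv', hvp.tail ⟨hpq, ⟨h4, ih1⟩, ⟨h3, h2⟩⟩⟩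
  rcases key with key | ⟨h1, _⟩
  · exact key
  · exact absurd hy h1

/-! ### Examined edges -/

theorem exm_face {F : Set Edg} {c : Vtx} {a b : ℕ} {σ : St} {T : ℕ} (h0 : ¬ Af c a b (face σ))
    (hT : ¬ Af c a b (face (orb F σ T))) {e : Edg} (heF : e ∉ F) (he : e ∈ Exm F σ T) {h : Vtx}
    (hh : dsrc e = h ∨ dtgt e = h) (hA : Af c a b h) : ∃ t, 0 < t ∧ t < T ∧ face (orb F σ t) = h := by
  obtain ⟨t, ht, rfl⟩ := mem_Exm.1 he
  have h1 : orb F σ (t + 1) = rt (orb F σ t) := by rw [orb_succ, nxt_closed heF]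
  have h2 : face (orb F σ t) = h ∨ face (orb F σ (t + 1)) = h := by
    rw [h1]
    rcases p2_dends (orb F σ t) with ⟨e1, e2⟩ | ⟨e1, e2⟩
    · rw [e1, e2] at hh
      exact hh
    · rw [e1, e2] at hh
      exact hh.symm
  rcases h2 with h2 | h2
  · refine ⟨t, ?_, ht, h2⟩
    rcases Nat.eq_zero_or_pos t with rfl | h3
    · rw [orb_zero] at h2
      rw [h2] at h0
      exact absurd hA h0
    · exact h3
  · refine ⟨t + 1, by omega, ?_, h2⟩
    rcases Nat.lt_or_ge (t + 1) T with h3 | h3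
    · exact h3
    · have h4 : t + 1 = T := by omega
      rw [h4] at h2
      rw [h2] at hT
      exact absurd hA hT

theorem exm_vtx {F : Set Edg} {σ : St} {T : ℕ} {e : Edg} (heF : e ∈ F) (he : e ∈ Exm F σ T)
    {v : Vtx} (hv : src e = v ∨ tgt e = v) : ∃ t, t ≤ T ∧ (orb F σ t).1 = v := by
  obtain ⟨t, ht, rfl⟩ := mem_Exm.1 he
  have h1 : orb F σ (t + 1) = mv (orb F σ t) := by rw [orb_succ, nxt_open heF]
  have h2 : (orb F σ t).1 = v ∨ (orb F σ (t + 1)).1 = v := by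
    rw [h1]
    rcases p2_ends (orb F σ t) with ⟨e1, e2⟩ | ⟨e1, e2⟩
    · rw [e1, e2] at hv
      exact hv
    · rw [e1, e2] at hv
      exact hv.symm
  rcases h2 with h2 | h2
  · exact ⟨t, by omega, h2⟩
  · exact ⟨t + 1, by omega, h2⟩

/-- every closed crossing cluster is next to one of the two crossings -/
theorem clA (hB : St_basic) (hoB : St_oBasic) {F G : Set Edg} {c : Vtx} {a b r s : ℕ} {σ τ : St}
    {T U : ℕ} (har : a ≤ r) (hrs : r < s) (hsb : s ≤ b)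
    (hσ : InLeg F c a b σ T) (hτ : OutLeg F c a b τ U)
    (hG : ∀ e ∈ Ge c r s, e ∉ Exm F σ T → e ∉ Exm F τ U → (e ∈ F ↔ e ∈ G))
    (hDC : ¬ DC c r s 1 G) {f g : Vtx} (hf : TIn c a b F f) (hg : TOut c a b F g)
    (hfg : DReach (Fᶜ ∩ Gd c a b) f g) : DReach (Fᶜ ∩ Gd c a b) (face (orb F σ 1)) f ∨
      DReach (Fᶜ ∩ Gd c a b) (face (orb F τ 1)) f := by
  have hab : a < b := by omega
  by_contra hcon
  push Not at hcon
  obtain ⟨hc1, hc2⟩ := hcon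
  obtain ⟨-, -, -, -, -, hb6, -, -⟩ := hB F c a b σ T hab hσ
  obtain ⟨-, -, -, -, -, ob6, -, -⟩ := hoB F c a b τ U hab hτ
  have hK : ∀ e, e ∉ F → ∀ h, (dsrc e = h ∨ dtgt e = h) → Af c a b h →
      DReach (Fᶜ ∩ Gd c a b) f h → e ∉ Exm F σ T ∧ e ∉ Exm F τ U := by
    intro e heF h hh hA hfh
    refine ⟨fun he => ?_, fun he => ?_⟩
    · obtain ⟨t, ht1, ht2, ht3⟩ := exm_face (c := c) (a := a) (b := b)
        (fun h => absurd h.2 (by have := hσ.st; omega))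
        (fun h => absurd h.1 (by have := hσ.en; omega)) heF he hh hA
      have h1 := hb6 t ht1 ht2
      rw [ht3] at h1
      exact hc1 (h1.trans hfh.symm)
    · obtain ⟨t, ht1, ht2, ht3⟩ := exm_face (c := c) (a := a) (b := b)
        (fun h => absurd h.1 (by have := hτ.st; omega))
        (fun h => absurd h.2 (by have := hτ.en; omega)) heF he hh hA
      have h1 := ob6 t ht1 ht2
      rw [ht3] at h1
      exact hc2 (h1.trans hfh.symm)
  set R : Vtx → Vtx → Prop := fun p q => ∃ e, e ∉ F ∧ ((dsrc e = p ∧ dtgt e = q) ∨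
    (dsrc e = q ∧ dtgt e = p)) ∧ e ∉ Exm F σ T ∧ e ∉ Exm F τ U with hR
  obtain ⟨hfA, e0, he0F, he0⟩ := hf
  obtain ⟨hgA, e1, he1F, he1⟩ := hg
  -- the path
  have hmid : Relation.ReflTransGen R f g := by
    have : DReach (Fᶜ ∩ Gd c a b) f g ∧ Relation.ReflTransGen R f g := by
      have h0 : ∀ y, Relation.ReflTransGen (DAdj (Fᶜ ∩ Gd c a b)) f y →
          DReach (Fᶜ ∩ Gd c a b) f y ∧ Relation.ReflTransGen R f y := by
        intro y hy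
        induction hy with
        | refl => exact ⟨DReach.refl _ _, Relation.ReflTransGen.refl⟩
        | @tail p q _ hpq ih =>
          refine ⟨ih.1.trans hpq.reach, ih.2.tail ?_⟩
          obtain ⟨e, ⟨heF, heG⟩, he⟩ := hpq
          rcases he with ⟨e1, e2⟩ | ⟨e1, e2⟩
          · exact ⟨e, heF, Or.inl ⟨e1, e2⟩, hK e heF p (Or.inl e1) (by rw [← e1]; exact heG.1) ih.1⟩
          · exact ⟨e, heF, Or.inr ⟨e1, e2⟩, hK e heF p (Or.inr e2) (by rw [← e2]; exact heG.2) ih.1⟩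
      exact h0 g hfg
    exact this.2
  obtain ⟨f₀, hf₀, hf₀R⟩ : ∃ f₀, lf c f₀ < 2 * (a : ℤ) ∧ R f₀ f := by
    rcases he0 with ⟨h1, h2⟩ | ⟨h1, h2⟩
    · exact ⟨dtgt e0, h2, e0, he0F, Or.inr ⟨h1, rfl⟩, hK e0 he0F f (Or.inl h1) hfA (DReach.refl _ _)⟩
    · exact ⟨dsrc e0, h2, e0, he0F, Or.inl ⟨rfl, h1⟩, hK e0 he0F f (Or.inr h1) hfA (DReach.refl _ _)⟩
  obtain ⟨g₁, hg₁, hg₁R⟩ : ∃ g₁, 2 * (b : ℤ) < lf c g₁ ∧ R g g₁ := by
    rcases he1 with ⟨h1, h2⟩ | ⟨h1, h2⟩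
    · exact ⟨dtgt e1, h2, e1, he1F, Or.inl ⟨h1, rfl⟩, hK e1 he1F g (Or.inl h1) hgA hfg⟩
    · exact ⟨dsrc e1, h2, e1, he1F, Or.inr ⟨rfl, h1⟩, hK e1 he1F g (Or.inr h1) hgA hfg⟩
  have hpath : Relation.ReflTransGen R f₀ g₁ :=
    (Relation.ReflTransGen.head hf₀R hmid).tail hg₁R
  have hjump : ∀ p q, R p q → lf c q ≤ lf c p + 2 := by
    rintro p q ⟨e, -, he, -⟩
    have h1 := lf_adj c e
    rcases he with ⟨e1, e2⟩ | ⟨e1, e2⟩ <;> rw [e1, e2] at h1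
    · exact h1.2
    · exact h1.1
  obtain ⟨v₀, v, w, w₁, hv₀, hv, hv', hw', hw, hw₁, hvw⟩ := path_bd R
    (fun p => lf c p < 2 * (r : ℤ)) (fun p => 2 * (s : ℤ) < lf c p)
    (fun p h => by omega) (fun p q h h' => by have := hjump p q h; omega) hpath
    (by omega) (by omega)
  apply hDC
  have hAv : Af c r s v := af_of hv'.1 hv'.2
  have hAw : Af c r s w := af_of hw'.1 hw'.2
  have hnG : ∀ e h, e ∉ F → e ∉ Exm F σ T → e ∉ Exm F τ U → (dsrc e = h ∨ dtgt e = h) →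
      Af c r s h → e ∉ G := by
    intro e h h1 h2 h3 h4 h5 h6
    exact h1 ((hG e (ge_of h5 h4) h2 h3).2 h6)
  refine ⟨fun _ => v, fun _ => ⟨⟨hAv, ?_⟩, w, ⟨hAw, ?_⟩, ?_⟩, fun i j hij => ?_⟩
  · obtain ⟨e, heF, he, h1, h2⟩ := hv
    rcases he with ⟨h3, h4⟩ | ⟨h3, h4⟩
    · exact ⟨e, hnG e v heF h1 h2 (Or.inr h4) hAv, Or.inr ⟨h4, by rw [h3]; exact hv₀⟩⟩
    · exact ⟨e, hnG e v heF h1 h2 (Or.inl h3) hAv, Or.inl ⟨h3, by rw [h4]; exact hv₀⟩⟩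
  · obtain ⟨e, heF, he, h1, h2⟩ := hw
    rcases he with ⟨h3, h4⟩ | ⟨h3, h4⟩
    · exact ⟨e, hnG e w heF h1 h2 (Or.inl h3) hAw, Or.inl ⟨h3, by rw [h4]; exact hw₁⟩⟩
    · exact ⟨e, hnG e w heF h1 h2 (Or.inr h4) hAw, Or.inr ⟨h4, by rw [h3]; exact hw₁⟩⟩
  · refine Relation.ReflTransGen.mono ?_ _ _ hvw
    rintro p q ⟨⟨e, heF, he, h1, h2⟩, hp, hq⟩
    have hAp : Af c r s p := af_of hp.1 hp.2
    have hAq : Af c r s q := af_of hq.1 hq.2
    rcases he with ⟨h3, h4⟩ | ⟨h3, h4⟩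
    · have h5 : e ∈ Gd c r s := by
        rw [Gd, Set.mem_ofPred_eq, h3, h4]
        exact ⟨hAp, hAq⟩
      exact ⟨e, ⟨hnG e p heF h1 h2 (Or.inl h3) hAp, h5⟩, Or.inl ⟨h3, h4⟩⟩
    · have h5 : e ∈ Gd c r s := by
        rw [Gd, Set.mem_ofPred_eq, h3, h4]
        exact ⟨hAq, hAp⟩
      exact ⟨e, ⟨hnG e p heF h1 h2 (Or.inr h4) hAp, h5⟩, Or.inr ⟨h3, h4⟩⟩
  · exact absurd (Subsingleton.elim i j) hij

/-- every open crossing cluster is next to one of the two crossings -/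
theorem clB (hB : St_basic) (hoB : St_oBasic) {F G : Set Edg} {c : Vtx} {a b r s : ℕ} {σ τ : St}
    {T U : ℕ} (har : a ≤ r) (hrs : r < s) (hsb : s ≤ b)
    (hσ : InLeg F c a b σ T) (hτ : OutLeg F c a b τ U)
    (hG : ∀ e ∈ Ge c r s, e ∉ Exm F σ T → e ∉ Exm F τ U → (e ∈ F ↔ e ∈ G))
    (hOC : ¬ OC c r s 1 G) {x y : Vtx} (hx : lv c x = a) (hy : lv c y = b)
    (hxy : Reach (F ∩ Ge c a b) x y) : Reach (F ∩ Ge c a b) σ.1 x ∨
      Reach (F ∩ Ge c a b) τ.1 x := by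
  have hab : a < b := by omega
  by_contra hcon
  push Not at hcon
  obtain ⟨hc1, hc2⟩ := hcon
  obtain ⟨-, -, -, -, hb5, -, -, -⟩ := hB F c a b σ T hab hσ
  obtain ⟨-, -, -, -, ob5, -, -, -⟩ := hoB F c a b τ U hab hτ
  have hK : ∀ e, e ∈ F → ∀ h, (src e = h ∨ tgt e = h) →
      Reach (F ∩ Ge c a b) x h → e ∉ Exm F σ T ∧ e ∉ Exm F τ U := by
    intro e heF h hh hxh
    refine ⟨fun he => ?_, fun he => ?_⟩
    · obtain ⟨t, ht2, ht3⟩ := exm_vtx heF he hh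
      have h1 := hb5 t ht2
      rw [ht3] at h1
      exact hc1 (h1.trans hxh.symm)
    · obtain ⟨t, ht2, ht3⟩ := exm_vtx heF he hh
      have h1 := ob5 t ht2
      rw [ht3] at h1
      exact hc2 (h1.trans hxh.symm)
  set R : Vtx → Vtx → Prop := fun p q => ∃ e, e ∈ F ∧ ((src e = p ∧ tgt e = q) ∨
    (src e = q ∧ tgt e = p)) ∧ e ∉ Exm F σ T ∧ e ∉ Exm F τ U with hR
  have hpath : Relation.ReflTransGen R x y := by
    have h0 : ∀ y, Relation.ReflTransGen (Adj (F ∩ Ge c a b)) x y →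
        Reach (F ∩ Ge c a b) x y ∧ Relation.ReflTransGen R x y := by
      intro y hy
      induction hy with
      | refl => exact ⟨Reach.refl _ _, Relation.ReflTransGen.refl⟩
      | @tail p q _ hpq ih =>
        refine ⟨ih.1.trans hpq.reach, ih.2.tail ?_⟩
        obtain ⟨e, ⟨heF, heG⟩, he⟩ := hpq
        rcases he with ⟨e1, e2⟩ | ⟨e1, e2⟩
        · exact ⟨e, heF, Or.inl ⟨e1, e2⟩, hK e heF p (Or.inl e1) ih.1⟩
        · exact ⟨e, heF, Or.inr ⟨e1, e2⟩, hK e heF p (Or.inr e2) ih.1⟩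
    exact (h0 y hxy).2
  have hjump : ∀ p q, R p q → lv c q ≤ lv c p + 1 := by
    rintro p q ⟨e, -, he, -⟩
    have h1 := lv_adj c e
    rcases he with ⟨e1, e2⟩ | ⟨e1, e2⟩ <;> rw [e1, e2] at h1
    · exact h1.2
    · exact h1.1
  obtain ⟨v, w, hv, hw, hvw⟩ := path_mid R (lv c) hjump (r := (r : ℤ)) (s := (s : ℤ))
    (by omega) hpath (by omega) (by omega)
  apply hOC
  refine ⟨fun _ => v, fun _ => ⟨hv, w, hw, ?_⟩, fun i j hij => ?_⟩
  · refine Relation.ReflTransGen.mono ?_ _ _ hvw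
    rintro p q ⟨⟨e, heF, he, h1, h2⟩, hp, hq⟩
    rcases he with ⟨h3, h4⟩ | ⟨h3, h4⟩
    · have h5 : e ∈ Ge c r s := by
        rw [Ge, Set.mem_ofPred_eq, h3, h4]
        exact ⟨hp, hq⟩
      exact ⟨e, ⟨(hG e h5 h1 h2).1 heF, h5⟩, Or.inl ⟨h3, h4⟩⟩
    · have h5 : e ∈ Ge c r s := by
        rw [Ge, Set.mem_ofPred_eq, h3, h4]
        exact ⟨hq, hp⟩
      exact ⟨e, ⟨(hG e h5 h1 h2).1 heF, h5⟩, Or.inr ⟨h3, h4⟩⟩
  · exact absurd (Subsingleton.elim i j) hij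

end Pool.Agent.N948.IX.X3

namespace Pool.Agent.N948.IX

open H974 H12S Finset H984P H342P Pool.Agent.W92.DP

theorem l1a (hB : St_basic) (hoB : St_oBasic) (hoN2o : St_oN2o) (hoN1d : St_oN1d)
    (hT3 : St_T3) : St_L1a := by
  intro F G c a b r s σ τ T U ha har hrs hsb hσ hτ hG hDC
  have hab : a < b := by omega
  by_contra hcon
  obtain ⟨-, b2, b3, -, b5, -, -, -⟩ := hB F c a b σ T hab hσ
  obtain ⟨-, o2, o3, -, o5, -, -, -⟩ := hoB F c a b τ U hab hτ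
  have hr1 : Reach (F ∩ Ge c a b) σ.1 (orb F σ T).1 := b5 T le_rfl
  have hr2 : Reach (F ∩ Ge c a b) τ.1 (orb F τ U).1 := o5 U le_rfl
  have hne : ¬ Reach (F ∩ Ge c a b) (orb F σ T).1 τ.1 := fun h => hcon (hr1.trans h)
  have hOC : OC c a b 2 F := by
    refine ⟨![(orb F σ T).1, τ.1], ?_, ?_⟩
    · intro i
      fin_cases i
      · exact ⟨b3, σ.1, b2, hr1.symm⟩
      · exact ⟨o2, (orb F τ U).1, o3, hr2⟩
    · intro i j hij
      fin_cases i <;> fin_cases j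
      · exact absurd rfl hij
      · exact hne
      · exact fun h => hne h.symm
      · exact absurd rfl hij
  obtain ⟨τ', U', hτ', hr⟩ := hoN2o F c a b (orb F σ T).1 σ.1 τ.1 (orb F τ U).1 ha hab b3 b2
    hr1.symm o2 o3 hr2 hne
  obtain ⟨p1, -, -, -, -, p6, p7, p8⟩ := hoB F c a b τ' U' hab hτ'
  rcases X3.clA hB hoB har hrs hsb hσ hτ hG hDC p7 p8 (p6 (U' - 1) (by omega) (by omega)) with h | h
  · exact hT3 F c a b σ τ' T U' ha hab hσ hτ' (hr1.trans hr) h hOC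
  · by_cases h2 : τ = τ'
    · rw [← h2] at hr
      exact hne hr
    · exact hoN1d F c a b τ τ' U U' hab hτ hτ' h2 h

theorem l1b (hB : St_basic) (hoB : St_oBasic) (hoN2d : St_oN2d) (hoN1o : St_oN1o)
    (hT3 : St_T3) (hE : St_E) : St_L1b := by
  intro F G c a b r s σ τ T U ha har hrs hsb hσ hτ hG hOC1
  have hab : a < b := by omega
  by_contra hcon
  obtain ⟨b1, -, -, -, -, b6, b7, b8⟩ := hB F c a b σ T hab hσ
  obtain ⟨o1, -, -, -, -, o6, o7, o8⟩ := hoB F c a b τ U hab hτ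
  have hr1 : DReach (Fᶜ ∩ Gd c a b) (face (orb F σ 1)) (face (orb F σ (T - 1))) :=
    b6 (T - 1) (by omega) (by omega)
  have hr2 : DReach (Fᶜ ∩ Gd c a b) (face (orb F τ 1)) (face (orb F τ (U - 1))) :=
    o6 (U - 1) (by omega) (by omega)
  have hne : ¬ DReach (Fᶜ ∩ Gd c a b) (face (orb F σ (T - 1))) (face (orb F τ 1)) :=
    fun h => hcon (hr1.trans h)
  have hOC : OC c a b 2 F := by
    rw [hE F c a b 2 ha hab le_rfl]
    refine ⟨![face (orb F σ (T - 1)), face (orb F τ 1)], ?_, ?_⟩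
    · intro i
      fin_cases i
      · exact ⟨b8, face (orb F σ 1), b7, hr1.symm⟩
      · exact ⟨o7, face (orb F τ (U - 1)), o8, hr2⟩
    · intro i j hij
      fin_cases i <;> fin_cases j
      · exact absurd rfl hij
      · exact hne
      · exact fun h => hne h.symm
      · exact absurd rfl hij
  obtain ⟨τ', U', hτ', hr⟩ := hoN2d F c a b (face (orb F σ (T - 1))) (face (orb F σ 1))
    (face (orb F τ 1)) (face (orb F τ (U - 1))) ha hab b8 b7 hr1.symm o7 o8 hr2 hne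
  obtain ⟨-, p2, p3, -, p5, -, -, -⟩ := hoB F c a b τ' U' hab hτ'
  rcases X3.clB hB hoB har hrs hsb hσ hτ hG hOC1 p2 p3 (p5 U' le_rfl) with h | h
  · exact hT3 F c a b σ τ' T U' ha hab hσ hτ' h (hr1.trans hr) hOC
  · by_cases h2 : τ = τ'
    · rw [← h2] at hr
      exact hne hr
    · exact hoN1o F c a b τ τ' U U' hab hτ hτ' h2 h

end Pool.Agent.N948.IX
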