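import Pool.Agent.N948.IX.Six
import Pool.Agent.N948.IX.Bas

/-!
# Project XD (helper948): the continuation of an inward crossing
-/

set_option autoImplicit false

namespace Pool.Agent.N948.IX.X4

open Pool.Agent.N948.IX
open H974 H906.Cyl H12S Finset H984P H342P

theorem lf_ne (c f : Vtx) (k : ℤ) : lf c f ≠ 2 * k := by
  unfold lf
  rw [abs_eq_max_neg, abs_eq_max_neg]
  omega

/-- First time above `B` and the last time below `A` before it. -/
theorem seq_up {h : ℕ → ℤ} {A B : ℤ} (hAB : A ≤ B) {J : ℕ} (h0 : h 0 < A) (hJ : B < h J) :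
    ∃ s T : ℕ, s < T ∧ h s < A ∧ B < h T ∧ (∀ j, s < j → j < T → A ≤ h j) ∧
      ∀ j < T, h j ≤ B := by
  classical
  have hex : ∃ T, B < h T := ⟨J, hJ⟩
  set T := Nat.find hex with hT
  have hT1 : B < h T := Nat.find_spec hex
  have hT2 : ∀ j < T, h j ≤ B := fun j hj => not_lt.1 (Nat.find_min hex hj)
  have hT0 : 0 < T := by
    rcases Nat.eq_zero_or_pos T with h1 | h1
    · rw [h1] at hT1
      omega
    · exact h1
  set s := Nat.findGreatest (fun j => h j < A) (T - 1) with hs
  have hs1 : h s < A := Nat.findGreatest_spec (P := fun j => h j < A) (Nat.zero_le (T - 1)) h0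
  have hs2 : s ≤ T - 1 := Nat.findGreatest_le _
  refine ⟨s, T, by omega, hs1, hT1, fun j hj hjT => ?_, hT2⟩
  by_contra hcon
  push Not at hcon
  have h3 := Nat.le_findGreatest (P := fun j => h j < A) (m := j) (n := T - 1) (by omega) hcon
  omega

/-- There are finitely many states with a face in a square. -/
theorem fin_in (c : Vtx) (M : ℕ) : {ρ : St | lf c (face ρ) < 2 * (M : ℤ)}.Finite := by
  have h1 : (↑((Finset.Icc (c.1 - M) (c.1 + M) ×ˢ Finset.Icc (c.2 - M) (c.2 + M)) ×ˢ
      (Finset.univ : Finset Q4) : Finset (Vtx × Q4)) : Set (Vtx × Q4)).Finite :=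
    Finset.finite_toSet _
  refine h1.subset ?_
  rintro ⟨⟨x, y⟩, q⟩ hρ
  have h2 : lf c (face ((x, y), q)) < 2 * (M : ℤ) := hρ
  have h3 := Bas.cor c ((x, y), q)
  have h4 : lv c (x, y) ≤ M := by
    simp only at h3
    omega
  unfold lv at h4
  simp only [abs_eq_max_neg] at h4
  simp only [Finset.mem_coe, Finset.mem_product, Finset.mem_Icc, Finset.mem_univ, and_true]
  omega

/-- An orbit which starts outside of a square does not stay inside for ever. -/
theorem leaves {F : Set Edg} {c : Vtx} {M : ℕ} {σ : St} {T : ℕ}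
    (hσ : 2 * (M : ℤ) < lf c (face σ)) : ∃ n, 2 * (M : ℤ) < lf c (face (orb F σ (T + n))) := by
  by_contra hcon
  push Not at hcon
  have h1 : ∀ n, orb F σ (T + n) ∈ {ρ : St | lf c (face ρ) < 2 * (M : ℤ)} := by
    intro n
    have h2 := hcon n
    have h3 := lf_ne c (face (orb F σ (T + n))) M
    show lf c (face (orb F σ (T + n))) < 2 * (M : ℤ)
    omega
  have h2 : ¬ Function.Injective (fun n : ℕ => orb F σ (T + n)) := by
    intro hinj
    have h3 : (Set.range (fun n : ℕ => orb F σ (T + n))).Finite :=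
      (fin_in c M).subset (by rintro _ ⟨n, rfl⟩; exact h1 n)
    exact Set.infinite_range_of_injective hinj h3
  simp only [Function.Injective, not_forall] at h2
  obtain ⟨i, j, hij, hne⟩ := h2
  -- the period
  obtain ⟨p, hp0, hp⟩ : ∃ p, 0 < p ∧ orb F σ p = σ := by
    rcases Nat.lt_or_gt_of_ne hne with h | h
    · refine ⟨j - i, by omega, ?_⟩
      have e : orb F σ (T + j) = orb F (orb F σ (j - i)) (T + i) := by
        rw [← orb_add, show T + i + (j - i) = T + j by omega]
      exact (Bas.orb_inj (hij.trans e)).symm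
    · refine ⟨i - j, by omega, ?_⟩
      have e : orb F σ (T + i) = orb F (orb F σ (i - j)) (T + j) := by
        rw [← orb_add, show T + j + (i - j) = T + i by omega]
      exact (Bas.orb_inj (hij.symm.trans e)).symm
  have hk : ∀ k : ℕ, orb F σ (k * p) = σ := by
    intro k
    induction k with
    | zero => rw [zero_mul, orb_zero]
    | succ k ih => rw [Nat.succ_mul, orb_add, hp, ih]
  have hT : T ≤ T * p := Nat.le_mul_of_pos_right T hp0
  have h3 := hcon (T * p - T)
  rw [Nat.add_sub_cancel' hT, hk] at h3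
  omega

/-- Two different outward crossings give two crossing clusters. -/
theorem oc2 (hoB : St_oBasic) (ho1o : St_oN1o) {F : Set Edg} {c : Vtx} {a b : ℕ} (hab : a < b)
    {τ τ' : St} {U U' : ℕ} (h : OutLeg F c a b τ U) (h' : OutLeg F c a b τ' U') (hne : τ ≠ τ') :
    OC c a b 2 F := by
  have h1 := hoB F c a b τ U hab h
  have h2 := hoB F c a b τ' U' hab h'
  have h3 := ho1o F c a b τ τ' U U' hab h h' hne
  refine ⟨![τ.1, τ'.1], ?_, ?_⟩
  · intro i
    fin_cases i
    · exact ⟨h1.2.1, _, h1.2.2.1, h1.2.2.2.2.1 U le_rfl⟩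
    · exact ⟨h2.2.1, _, h2.2.2.1, h2.2.2.2.2.1 U' le_rfl⟩
  · intro i j hij
    fin_cases i <;> fin_cases j
    · exact absurd rfl hij
    · exact h3
    · exact fun h => h3 h.symm
    · exact absurd rfl hij

/-- The face of a state which examines an edge of a small annulus. -/
theorem face_lt {c : Vtx} {r s : ℕ} {ρ : St} (h : ae ρ ∈ Ge c r s) :
    lf c (face ρ) < 2 * ((s : ℤ) + 1) := by
  have h1 : lv c ρ.1 ≤ s := by
    rcases p2_ends ρ with ⟨e1, -⟩ | ⟨-, e1⟩
    · rw [← e1]
      exact h.1.2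
    · rw [← e1]
      exact h.2.2
  have h2 := Bas.cor c ρ
  omega

theorem ge_mono {c : Vtx} {a b r s : ℕ} (h1 : a ≤ r) (h2 : s ≤ b) : Ge c r s ⊆ Ge c a b := by
  rintro e ⟨⟨e1, e2⟩, e3, e4⟩
  refine ⟨⟨?_, ?_⟩, ?_, ?_⟩ <;> omega

end Pool.Agent.N948.IX.X4

namespace Pool.Agent.N948.IX

open H974 H906.Cyl H12S Finset H984P H342P

/-- **The continuation of the inward crossing is the outward crossing.** -/
theorem l1 (_ : St_basic) (hr : St_restr) (hoB : St_oBasic) (hoR : St_oRestr) (ho1o : St_oN1o)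
    (h3 : St_T3) (ha : St_L1a) (hb : St_L1b) : St_L1 := by
  intro F G c a M1 M2 b r s r' s' σ τ T U h1a har hrs hsM har' hrs' hsM' hM hMb hσ hτ hLn hLo hFG
    hDC hOC
  have hab : a < b := by omega
  have haM : a < M2 := by omega
  obtain ⟨s0, hs0, hσ2⟩ := (hr F c a b σ T hab hσ).2.2.1 M2 haM hMb
  obtain ⟨U', hU', hτ2⟩ := (hoR F c a b τ U hab hτ).2.1 M2 haM hMb
  -- the examined edges near the centre
  have key : ∀ r s : ℕ, a ≤ r → s < M1 → ∀ e ∈ Ge c r s, e ∉ Exm F (orb F σ s0) (T - s0) →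
      e ∉ Exm F τ U' → (e ∈ F ↔ e ∈ G) := by
    intro r s har hsM e he h1 h2
    refine hFG e (X4.ge_mono har hsM.le he) ?_ ?_
    · intro h4
      rw [mem_Exm] at h4
      obtain ⟨t, ht, rfl⟩ := h4
      have h5 := X4.face_lt he
      rcases Nat.lt_or_ge t s0 with h6 | h6
      · have h7 := hLn t s0 h6.le hs0.le (by omega)
        have h8 := hσ2.st
        omega
      · apply h1
        rw [mem_Exm]
        refine ⟨t - s0, by omega, ?_⟩
        rw [← orb_add, Nat.sub_add_cancel h6]
    · intro h4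
      rw [mem_Exm] at h4
      obtain ⟨t, ht, rfl⟩ := h4
      have h5 := X4.face_lt he
      rcases Nat.lt_or_ge t U' with h6 | h6
      · apply h2
        rw [mem_Exm]
        exact ⟨t, h6, rfl⟩
      · have h7 := hLo U' t h6 ht.le (by omega)
        have h8 := hτ2.en
        omega
  have k1 := ha F G c a M2 r s (orb F σ s0) τ (T - s0) U' h1a har hrs (by omega) hσ2 hτ2
    (key r s har hsM) hDC
  have k2 := hb F G c a M2 r' s' (orb F σ s0) τ (T - s0) U' h1a har' hrs' (by omega) hσ2 hτ2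
    (key r' s' har' hsM') hOC
  have k3 := h3 F c a M2 (orb F σ s0) τ (T - s0) U' h1a haM hσ2 hτ2 k1 k2
  -- the orbit leaves the square
  have hst := hσ.st
  have hen := hσ.en
  obtain ⟨J, hJ⟩ := X4.leaves (F := F) (c := c) (M := M2) (σ := σ) (T := T) (by omega)
  obtain ⟨n0, n1, h4, h5, h6, h7, h8⟩ := X4.seq_up
    (h := fun n => lf c (face (orb F σ (T + n)))) (A := 2 * (a : ℤ)) (B := 2 * (M2 : ℤ)) (J := J)
    (by omega) hen hJ
  have hout : OutLeg F c a M2 (orb F σ (T + n0)) (n1 - n0) := by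
    refine ⟨by omega, h5, fun j hj hjT => ?_, ?_⟩
    · rw [← orb_add, show j + (T + n0) = T + (n0 + j) by omega]
      have h9 := h7 (n0 + j) (by omega) (by omega)
      have h10 := h8 (n0 + j) (by omega)
      have h11 := X4.lf_ne c (face (orb F σ (T + (n0 + j)))) a
      have h12 := X4.lf_ne c (face (orb F σ (T + (n0 + j)))) M2
      omega
    · rw [← orb_add, show n1 - n0 + (T + n0) = T + n1 by omega]
      exact h6
  refine ⟨n0, ?_, fun i hi => ?_⟩
  · by_contra hne
    exact k3 (X4.oc2 hoB ho1o haM hout hτ2 hne)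
  · have h10 := h8 i (by omega)
    have h12 := X4.lf_ne c (face (orb F σ (T + i))) M2
    omega

end Pool.Agent.N948.IX
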