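import Pool.Agent.N948.IX.Sp
import Pool.Agent.N948.IX.A3

/-!
# Project XD, part X6: crossings which move back; a weak six-arm bound (helper749)
-/

set_option autoImplicit false

namespace Pool.Agent.N948.IX.X6

open H974 H906.Cyl H12S Finset H984P H342P

/-! ### Topology -/

theorem lf_odd (c f : Vtx) (n : ℕ) : lf c f ≠ 2 * (n : ℤ) := by
  unfold lf
  intro h
  rcases max_choice |2 * (f.1 - c.1) + 1| |2 * (f.2 - c.2) + 1| with h1 | h1 <;> rw [h1] at h <;>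
    rcases abs_choice (2 * (f.1 - c.1) + 1) with h2 | h2 <;>
    rcases abs_choice (2 * (f.2 - c.2) + 1) with h3 | h3 <;>
    simp only [h2, h3] at h <;> omega

/-- A path from the outside to the inside contains a crossing. -/
theorem sub (F : Set Edg) (c : Vtx) (u1 u2 : ℕ) (hu : u1 < u2) (σ : St) (p q : ℕ) (hpq : p ≤ q)
    (hp : 2 * (u2 : ℤ) < lf c (face (orb F σ p))) (hq : lf c (face (orb F σ q)) < 2 * (u1 : ℤ)) :
    ∃ s e, p ≤ s ∧ s < e ∧ e ≤ q ∧ InLeg F c u1 u2 (orb F σ s) (e - s) := by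
  classical
  -- the first time inside
  have hex : ∃ e, p ≤ e ∧ lf c (face (orb F σ e)) < 2 * (u1 : ℤ) := ⟨q, hpq, hq⟩
  set e := Nat.find hex with he
  have he1 : p ≤ e ∧ lf c (face (orb F σ e)) < 2 * (u1 : ℤ) := Nat.find_spec hex
  have he2 : ∀ m, p ≤ m → m < e → ¬ lf c (face (orb F σ m)) < 2 * (u1 : ℤ) :=
    fun m hm hme h => Nat.find_min hex hme ⟨hm, h⟩
  have heq : e ≤ q := Nat.find_min' hex ⟨hpq, hq⟩
  have hpe : p < e := by
    rcases Nat.lt_or_ge p e with h | h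
    · exact h
    · have h1 : e = p := le_antisymm h he1.1
      have h2 := he1.2
      rw [h1] at h2
      exfalso
      have : (u1 : ℤ) < u2 := by exact_mod_cast hu
      linarith
  -- the last time outside before it
  set s := Nat.findGreatest (fun m => 2 * (u2 : ℤ) < lf c (face (orb F σ m))) (e - 1) with hs
  have hs1 : 2 * (u2 : ℤ) < lf c (face (orb F σ s)) :=
    Nat.findGreatest_spec (P := fun m => 2 * (u2 : ℤ) < lf c (face (orb F σ m)))
      (show p ≤ e - 1 by omega) hp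
  have hs2 : p ≤ s :=
    Nat.le_findGreatest (P := fun m => 2 * (u2 : ℤ) < lf c (face (orb F σ m)))
      (show p ≤ e - 1 by omega) hp
  have hs3 : s ≤ e - 1 := Nat.findGreatest_le _
  have hs4 : ∀ m, s < m → m ≤ e - 1 → ¬ 2 * (u2 : ℤ) < lf c (face (orb F σ m)) :=
    fun m h1 h2 => Nat.findGreatest_is_greatest h1 h2
  have hse : s < e := by omega
  refine ⟨s, e, hs2, hse, heq, ⟨by omega, hs1, fun k hk hk' => ?_, ?_⟩⟩
  · rw [← orb_add]
    have h1 := he2 (k + s) (by omega) (by omega)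
    have h2 := hs4 (k + s) (by omega) (by omega)
    have h3 := lf_odd c (face (orb F σ (k + s))) u1
    have h4 := lf_odd c (face (orb F σ (k + s))) u2
    exact ⟨lt_of_le_of_ne (not_lt.1 h1) (Ne.symm h3), lt_of_le_of_ne (not_lt.1 h2) h4⟩
  · rw [← orb_add, Nat.sub_add_cancel hse.le]
    exact he1.2

/-! ### The two-arm bound -/

/-- Two arms in an annulus (`Pool.Agent.N86.EW.annUp`, `H985T.st_A`). -/
def St_Ann : Prop := ∃ C : ℝ, 0 < C ∧ ∀ r R : ℕ, 1 ≤ r → r ≤ R → ∀ (c1 c2 : ℤ) (S : Finset Edg),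
  Pr (fun _ => (1/2 : ℝ)) S
    (fun F => H12S.Crs c1 c2 r R (↑F : Set Edg) ∧ H12S.DCrs c1 c2 r R (↑(S \ F) : Set Edg)) ≤
    C * ((r : ℝ) / R) ^ (1/4 : ℝ)

theorem okh : Ok (fun _ : Edg => (1/2 : ℝ)) := fun e => by constructor <;> norm_num

theorem lv_le {c v : Vtx} {k : ℤ} : lv c v ≤ k ↔
    (c.1 - k ≤ v.1 ∧ v.1 ≤ c.1 + k) ∧ (c.2 - k ≤ v.2 ∧ v.2 ≤ c.2 + k) := by
  unfold lv
  rw [max_le_iff, abs_le, abs_le]
  constructor
  · rintro ⟨⟨h1, h2⟩, h3, h4⟩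
    refine ⟨⟨?_, ?_⟩, ?_, ?_⟩ <;> linarith
  · rintro ⟨⟨h1, h2⟩, h3, h4⟩
    refine ⟨⟨?_, ?_⟩, ?_, ?_⟩ <;> linarith

theorem lf_le {c f : Vtx} {k : ℤ} : lf c f ≤ k ↔
    (-k ≤ 2 * (f.1 - c.1) + 1 ∧ 2 * (f.1 - c.1) + 1 ≤ k) ∧
    (-k ≤ 2 * (f.2 - c.2) + 1 ∧ 2 * (f.2 - c.2) + 1 ≤ k) := by
  unfold lf
  rw [max_le_iff, abs_le, abs_le]

theorem Gd_sub (c : Vtx) (a b : ℕ) : Gd c a b ⊆ Ge c a b := by
  rintro e ⟨⟨h1, h2⟩, h3, h4⟩
  have h1' := mt lf_le.2 (not_le.2 h1)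
  have h3' := mt lf_le.2 (not_le.2 h3)
  have h2' := lf_le.1 h2.le
  have h4' := lf_le.1 h4.le
  have key : ∀ v : Vtx, ((a : ℤ) ≤ lv c v ∧ lv c v ≤ b) ↔ (¬ lv c v ≤ (a : ℤ) - 1 ∧ lv c v ≤ b) := by
    intro v
    constructor
    · rintro ⟨h, h'⟩
      exact ⟨by omega, h'⟩
    · rintro ⟨h, h'⟩
      exact ⟨by omega, h'⟩
  show ((a : ℤ) ≤ lv c (src e) ∧ lv c (src e) ≤ b) ∧ ((a : ℤ) ≤ lv c (tgt e) ∧ lv c (tgt e) ≤ b)
  rw [key, key, lv_le, lv_le, lv_le, lv_le]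
  obtain ⟨x, y, _ | _⟩ := e
  · simp only [dtgt_mk, dsrc_false] at h1' h3' h2' h4'
    simp only [src_mk, tgt_false]
    omega
  · simp only [dtgt_mk, dsrc_true] at h1' h3' h2' h4'
    simp only [src_mk, tgt_true]
    omega

theorem mem_GeF {c : Vtx} {a b : ℕ} {e : Edg} : e ∈ GeF c a b ↔ e ∈ Ge c a b := by
  unfold GeF
  rw [Finset.mem_filter]
  show _ ↔ ((a : ℤ) ≤ lv c (src e) ∧ lv c (src e) ≤ b) ∧ ((a : ℤ) ≤ lv c (tgt e) ∧ lv c (tgt e) ≤ b)
  rw [lv_le, lv_le]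
  obtain ⟨x, y, _ | _⟩ := e
  · simp only [mem_RE_false, src_mk, tgt_false]
    constructor
    · rintro ⟨⟨h1, h2, h3, h4⟩, h5, h6⟩
      refine ⟨⟨h5, ⟨?_, ?_⟩, ?_, ?_⟩, h6, ⟨?_, ?_⟩, ?_, ?_⟩ <;> linarith
    · rintro ⟨⟨h5, ⟨h1, h2⟩, h3, h4⟩, h6, ⟨h7, h8⟩, h9, h10⟩
      refine ⟨⟨?_, ?_, ?_, ?_⟩, h5, h6⟩ <;> linarith
  · simp only [mem_RE_true, src_mk, tgt_true]
    constructor
    · rintro ⟨⟨h1, h2, h3, h4⟩, h5, h6⟩
      refine ⟨⟨h5, ⟨?_, ?_⟩, ?_, ?_⟩, h6, ⟨?_, ?_⟩, ?_, ?_⟩ <;> linarith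
    · rintro ⟨⟨h5, ⟨h1, h2⟩, h3, h4⟩, h6, ⟨h7, h8⟩, h9, h10⟩
      refine ⟨⟨?_, ?_, ?_, ?_⟩, h5, h6⟩ <;> linarith

/-- A crossing gives an open and a closed dual arm. -/
theorem arms (hB : St_basic) (c : Vtx) (a b : ℕ) (hab : a < b) (S : Finset Edg)
    (hS : GeF c a b ⊆ S) (F : Finset Edg) (h : (LS c a b (↑F : Set Edg)).Nonempty) :
    H12S.Crs c.1 c.2 (a + 1) (b - 1) (↑F : Set Edg) ∧
    H12S.DCrs c.1 c.2 (a + 1) (b - 1) (↑(S \ F) : Set Edg) := by
  obtain ⟨σ, T, hT⟩ := h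
  obtain ⟨hT1, hb, ha, -, ho, hd, hout, hin⟩ := hB _ c a b σ T hab hT
  have hbc : ((b - 1 : ℕ) : ℤ) = (b : ℤ) - 1 := by
    rw [Nat.cast_sub (by omega)]
    simp
  constructor
  · refine ⟨(orb (↑F : Set Edg) σ T).1, σ.1, ?_, ?_, ?_⟩
    · have h1 := lv_le.1 ha.le
      unfold inR
      push_cast
      omega
    · have h1 : ¬ lv c σ.1 ≤ (b : ℤ) - 1 := by rw [hb]; omega
      rw [lv_le] at h1
      rw [hbc]
      omega
    · exact (ho T le_rfl).symm.mono Set.inter_subset_left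
  · refine ⟨face (orb (↑F : Set Edg) σ (T - 1)), face (orb (↑F : Set Edg) σ 1), ?_, ?_, ?_⟩
    · obtain ⟨-, e, -, he⟩ := hin
      have h1 : ∀ f g : Vtx, |f.1 - g.1| ≤ 1 → |f.2 - g.2| ≤ 1 → lf c g < 2 * (a : ℤ) →
          inR (c.1 - ((a + 1 : ℕ) : ℤ)) (c.1 + ((a + 1 : ℕ) : ℤ)) (c.2 - ((a + 1 : ℕ) : ℤ))
            (c.2 + ((a + 1 : ℕ) : ℤ)) f := by
        intro f g h1 h2 h3
        have h4 := lf_le.1 h3.le
        rw [abs_le] at h1 h2
        unfold inR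
        push_cast
        omega
      rcases he with ⟨h2, h3⟩ | ⟨h2, h3⟩
      · rw [← h2]
        refine h1 _ _ ?_ ?_ h3 <;> obtain ⟨x, y, _ | _⟩ := e <;> simp
      · rw [← h2]
        refine h1 _ _ ?_ ?_ h3 <;> obtain ⟨x, y, _ | _⟩ := e <;> simp
    · obtain ⟨-, e, -, he⟩ := hout
      have h1 : ∀ f g : Vtx, |f.1 - g.1| + |f.2 - g.2| ≤ 1 → 2 * (b : ℤ) < lf c g →
          (f.1 ≤ c.1 - ((b - 1 : ℕ) : ℤ) ∨ c.1 + ((b - 1 : ℕ) : ℤ) ≤ f.1 ∨
            f.2 ≤ c.2 - ((b - 1 : ℕ) : ℤ) ∨ c.2 + ((b - 1 : ℕ) : ℤ) ≤ f.2) := by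
        intro f g h1 h3
        have h4 := mt lf_le.2 (not_le.2 h3)
        have h5 : |f.1 - g.1| ≤ 1 := by linarith [abs_nonneg (f.2 - g.2)]
        have h6 : |f.2 - g.2| ≤ 1 := by linarith [abs_nonneg (f.1 - g.1)]
        rw [abs_le] at h5 h6
        rw [hbc]
        omega
      rcases he with ⟨h2, h3⟩ | ⟨h2, h3⟩
      · rw [← h2]
        refine h1 _ _ ?_ h3
        obtain ⟨x, y, _ | _⟩ := e <;> simp
      · rw [← h2]
        refine h1 _ _ ?_ h3
        obtain ⟨x, y, _ | _⟩ := e <;> simp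
    · refine ((hd (T - 1) (by omega) (by omega)).symm).mono ?_
      rintro e ⟨h1, h2⟩
      rw [Finset.mem_coe, Finset.mem_sdiff]
      exact ⟨hS (mem_GeF.2 (Gd_sub c a b h2)), fun h => h1 (Finset.mem_coe.2 h)⟩

/-- The probability of a crossing. -/
theorem one (hB : St_basic) (hA : St_Ann) : ∃ C : ℝ, 0 < C ∧ ∀ (c : Vtx) (a b : ℕ)
    (S : Finset Edg), 1 ≤ a → 3 * a + 6 ≤ b → GeF c a b ⊆ S →
    Pr (fun _ => (1/2 : ℝ)) S (fun F => (LS c a b (↑F : Set Edg)).Nonempty) ≤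
      C * ((a : ℝ) / b) ^ (1/4 : ℝ) := by
  obtain ⟨C, hC, h⟩ := hA
  refine ⟨C * (4 : ℝ) ^ (1/4 : ℝ), by positivity, fun c a b S ha hab hS => ?_⟩
  have h1 := h (a + 1) (b - 1) (by omega) (by omega) c.1 c.2 S
  refine (Pr_mono okh (fun F _ hF => arms hB c a b (by omega) S hS F hF)).trans (h1.trans ?_)
  rw [mul_assoc, ← Real.mul_rpow (by norm_num) (by positivity)]
  refine mul_le_mul_of_nonneg_left (Real.rpow_le_rpow (by positivity) ?_ (by norm_num)) hC.le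
  have hb0 : (0 : ℝ) < b := by
    have : 0 < b := by omega
    exact_mod_cast this
  have hb1 : (0 : ℝ) < ((b - 1 : ℕ) : ℝ) := by
    have : 0 < b - 1 := by omega
    exact_mod_cast this
  rw [mul_div_assoc', div_le_div_iff₀ hb1 hb0]
  have h2 : (a + 1) * b ≤ 4 * a * (b - 1) := by
    obtain ⟨k, hk⟩ : ∃ k, b = k + 1 := ⟨b - 1, by omega⟩
    subst hk
    rw [Nat.add_sub_cancel]
    have h3 : a + 1 ≤ 2 * a := by omega
    have h4 : k + 1 ≤ 2 * k := by omega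
    calc (a + 1) * (k + 1) ≤ (2 * a) * (2 * k) := Nat.mul_le_mul h3 h4
      _ = 4 * a * k := by ring
  exact_mod_cast h2

/-! ### Three crossings -/

theorem prodsum {α : Type} [DecidableEq α] (A : Finset α) (g : α × α → ℝ) (h : α → ℝ) :
    ∑ p ∈ (A ×ˢ A) ×ˢ A, g p.1 * h p.2 = (∑ q ∈ A ×ˢ A, g q) * ∑ z ∈ A, h z := by
  rw [Finset.sum_mul_sum, ← Finset.sum_product']

open Classical in
theorem three (hn3 : St_N3) (hps : St_PS) (hf : St_fin) (hc : St_cnt) (c : Vtx) (a b : ℕ)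
    (S : Finset Edg) (ha : 1 ≤ a) (hab : a < b) (hS : GeF c a b ⊆ S) :
    Pr (fun _ => (1/2 : ℝ)) S (fun F => OC c a b 3 (↑F : Set Edg)) ≤
      Ex (fun _ => (1/2 : ℝ)) S (fun F => (((NL c a b (↑F : Set Edg)).descFactorial 2 : ℕ) : ℝ)) *
      Ex (fun _ => (1/2 : ℝ)) S (fun F => (NL c a b (↑F : Set Edg) : ℝ)) := by
  obtain ⟨A, hA⟩ := hf c b
  have hok : ∀ {E : Type} [DecidableEq E], Ok (fun _ : E => (1/2 : ℝ)) := by
    intro E _ e
    constructor <;> norm_num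
  set Nf : Set Edg → Finset St := fun F => A.filter fun σ => σ ∈ LS c a b F with hNf
  have hNfL : ∀ F : Set Edg, (↑(Nf F) : Set St) = LS c a b F := by
    intro F
    ext σ
    rw [mem_coe, hNf, mem_filter]
    exact ⟨fun h => h.2, fun h => ⟨hA F a hab h, h⟩⟩
  have hNL : ∀ F : Set Edg, NL c a b F = (Nf F).card := by
    intro F
    show Set.ncard (LS c a b F) = _
    rw [← hNfL F, Set.ncard_coe_finset]
  -- the first moment
  have hfirst : Ex (fun _ => (1/2 : ℝ)) S (fun F => (NL c a b (↑F : Set Edg) : ℝ)) =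
      ∑ s ∈ A, Pr (fun _ => (1/2 : ℝ)) S (fun F => s ∈ LS c a b (↑F : Set Edg)) := by
    unfold Pr
    rw [← Ex_sum]
    refine Ex_congr fun F _ => ?_
    rw [hNL, hNf, card_filter, Nat.cast_sum]
    refine sum_congr rfl fun s _ => ?_
    by_cases h : s ∈ LS c a b (↑F : Set Edg)
    · rw [ind_of h, if_pos h, Nat.cast_one]
    · rw [ind_not_of h, if_neg h, Nat.cast_zero]
  -- pairs
  have hsecond : ∑ q ∈ A ×ˢ A, Pr (fun _ => (1/2 : ℝ)) S
      (fun F => Tup c a b (fun _ : Fin 2 => (↑F : Set Edg)) ![q.1, q.2]) ≤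
      Ex (fun _ => (1/2 : ℝ)) S
        (fun F => (((NL c a b (↑F : Set Edg)).descFactorial 2 : ℕ) : ℝ)) := by
    unfold Pr
    rw [← Ex_sum]
    refine Ex_mono hok fun F _ => ?_
    have h1 : ∑ q ∈ A ×ˢ A, ind (Tup c a b (fun _ : Fin 2 => (↑F : Set Edg)) ![q.1, q.2]) =
        (((A ×ˢ A).filter
          (fun q => Tup c a b (fun _ : Fin 2 => (↑F : Set Edg)) ![q.1, q.2])).card : ℝ) := by
      rw [card_filter, Nat.cast_sum]
      refine sum_congr rfl fun q _ => ?_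
      by_cases h : Tup c a b (fun _ : Fin 2 => (↑F : Set Edg)) ![q.1, q.2]
      · rw [ind_of h, if_pos h, Nat.cast_one]
      · rw [ind_not_of h, if_neg h, Nat.cast_zero]
    rw [h1]
    have h2 : ((A ×ˢ A).filter
        (fun q => Tup c a b (fun _ : Fin 2 => (↑F : Set Edg)) ![q.1, q.2])) ⊆
        (Nf (↑F : Set Edg)).offDiag := by
      intro q hq
      rw [mem_filter, mem_product] at hq
      obtain ⟨⟨hq1, hq2⟩, T, hT, hdis⟩ := hq
      have hT0 := hT 0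
      have hT1 := hT 1
      have hd := hdis 0 1 (by decide)
      simp only [Matrix.cons_val_zero, Matrix.cons_val_one] at hT0 hT1 hd
      rw [mem_offDiag, hNf, mem_filter, mem_filter]
      refine ⟨⟨hq1, T 0, hT0⟩, ⟨hq2, T 1, hT1⟩, fun heq => ?_⟩
      rw [Finset.disjoint_left] at hd
      have m0 : ae q.1 ∈ Exm (↑F : Set Edg) q.1 (T 0) := by
        rw [mem_Exm]
        exact ⟨0, hT0.pos, rfl⟩
      have m1 : ae q.1 ∈ Exm (↑F : Set Edg) q.2 (T 1) := by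
        rw [mem_Exm]
        exact ⟨0, hT1.pos, by rw [orb_zero, heq]⟩
      exact hd m0 m1
    have h3 := card_le_card h2
    rw [offDiag_card] at h3
    have h4 : (Nf (↑F : Set Edg)).card * (Nf (↑F : Set Edg)).card - (Nf (↑F : Set Edg)).card =
        (NL c a b (↑F : Set Edg)).descFactorial 2 := by
      rw [hNL]
      generalize (Nf (↑F : Set Edg)).card = n
      rcases Nat.eq_zero_or_pos n with h | h
      · rw [h]; rfl
      · obtain ⟨k, hk⟩ : ∃ k, n = k + 1 := ⟨n - 1, by omega⟩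
        rw [hk]
        simp only [Nat.descFactorial, Nat.add_sub_cancel, Nat.sub_zero, mul_one]
        rw [Nat.add_mul, Nat.one_mul, Nat.add_sub_cancel]
    rw [h4] at h3
    exact_mod_cast h3
  -- the union bound
  have hunion : Pr (fun _ => (1/2 : ℝ)) S (fun F => OC c a b 3 (↑F : Set Edg)) ≤
      ∑ p ∈ (A ×ˢ A) ×ˢ A, Pr (fun _ => (1/2 : ℝ)) S
        (fun F => Tup c a b (fun _ : Fin 3 => (↑F : Set Edg)) ![p.1.1, p.1.2, p.2]) := by
    unfold Pr
    rw [← Ex_sum]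
    refine Ex_mono hok fun F _ => ?_
    by_cases hO : OC c a b 3 (↑F : Set Edg)
    · rw [ind_of hO]
      obtain ⟨σ, hinj, hσ⟩ := hc _ c a b 3 ha hab (by norm_num) hO
      have hσA : ∀ i, σ i ∈ A := fun i => hA _ a hab (hσ i)
      choose T hT using hσ
      have hmem : ((σ 0, σ 1), σ 2) ∈ (A ×ˢ A) ×ˢ A := by
        rw [mem_product, mem_product]
        exact ⟨⟨hσA 0, hσA 1⟩, hσA 2⟩
      have hσe : (![σ 0, σ 1, σ 2] : Fin 3 → St) = σ := by
        funext i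
        fin_cases i <;> rfl
      have hTup : Tup c a b (fun _ : Fin 3 => (↑F : Set Edg)) ![σ 0, σ 1, σ 2] := by
        rw [hσe]
        exact ⟨T, hT, fun i i' hii => hn3 _ c a b _ _ _ _ hab (hT i) (hT i')
          fun h => hii (hinj h)⟩
      have h5 := single_le_sum (s := (A ×ˢ A) ×ˢ A)
        (f := fun p => ind (Tup c a b (fun _ : Fin 3 => (↑F : Set Edg)) ![p.1.1, p.1.2, p.2]))
        (fun p _ => ind_nonneg _) hmem
      have h6 : ind (Tup c a b (fun _ : Fin 3 => (↑F : Set Edg)) ![σ 0, σ 1, σ 2]) = 1 :=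
        ind_of hTup
      calc (1 : ℝ) = ind (Tup c a b (fun _ : Fin 3 => (↑F : Set Edg)) ![σ 0, σ 1, σ 2]) := h6.symm
        _ ≤ _ := h5
    · rw [ind_not_of hO]
      exact sum_nonneg fun p _ => ind_nonneg _
  refine hunion.trans ?_
  calc ∑ p ∈ (A ×ˢ A) ×ˢ A, Pr (fun _ => (1/2 : ℝ)) S
        (fun F => Tup c a b (fun _ : Fin 3 => (↑F : Set Edg)) ![p.1.1, p.1.2, p.2])
      ≤ ∑ p ∈ (A ×ˢ A) ×ˢ A, Pr (fun _ => (1/2 : ℝ)) S
          (fun F => Tup c a b (fun _ : Fin 2 => (↑F : Set Edg)) ![p.1.1, p.1.2]) *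
          Pr (fun _ => (1/2 : ℝ)) S (fun F => p.2 ∈ LS c a b (↑F : Set Edg)) := by
        refine sum_le_sum fun p _ => ?_
        rw [← hps 2 3 ![0, 0, 1] c a b ![p.1.1, p.1.2, p.2] S hab hS]
        have h5 := A3.indep (1/2 : ℝ) S (fun (i : Fin 2) (F : Set Edg) =>
          if i = 0 then Tup c a b (fun _ : Fin 2 => F) ![p.1.1, p.1.2] else p.2 ∈ LS c a b F) univ
        rw [Fin.prod_univ_two] at h5
        simp only [if_true, Fin.isValue, one_ne_zero, if_false] at h5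
        rw [← h5]
        refine Pr_mono hok fun F _ h => ?_
        obtain ⟨T, hT, hdis⟩ := h
        intro i _
        fin_cases i
        · simp only [Fin.zero_eta, Fin.isValue, if_true]
          refine ⟨![T 0, T 1], fun i => ?_, fun i i' hii => ?_⟩
          · fin_cases i
            · exact hT 0
            · exact hT 1
          · fin_cases i <;> fin_cases i'
            · exact absurd rfl hii
            · exact hdis 0 1 (by decide)
            · exact hdis 1 0 (by decide)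
            · exact absurd rfl hii
        · simp only [Fin.mk_one, Fin.isValue, one_ne_zero, if_false]
          exact ⟨T 2, hT 2⟩
    _ = (∑ q ∈ A ×ˢ A, Pr (fun _ => (1/2 : ℝ)) S
          (fun F => Tup c a b (fun _ : Fin 2 => (↑F : Set Edg)) ![q.1, q.2])) *
        ∑ z ∈ A, Pr (fun _ => (1/2 : ℝ)) S (fun F => z ∈ LS c a b (↑F : Set Edg)) :=
        prodsum A (fun q => Pr (fun _ => (1/2 : ℝ)) S
          (fun F => Tup c a b (fun _ : Fin 2 => (↑F : Set Edg)) ![q.1, q.2]))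
          (fun z => Pr (fun _ => (1/2 : ℝ)) S (fun F => z ∈ LS c a b (↑F : Set Edg)))
    _ ≤ _ := by
        rw [hfirst]
        refine mul_le_mul_of_nonneg_right hsecond ?_
        exact sum_nonneg fun z _ => Pr_nonneg hok _ _

end Pool.Agent.N948.IX.X6

namespace Pool.Agent.N948.IX

open H974 H906.Cyl H12S Finset H984P H342P

/-- **A crossing which moves back gives an additional crossing cluster.** -/
theorem nl3 (_hB : St_basic) (hr : St_restr) (hc' : St_cnt') : St_NL3 := by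
  intro F c a b u1 u2 σ ρ T T' s t hab hσ hρ hne h1 h12 h2 hst htT hs ht
  have e1 : (a : ℤ) ≤ u1 := by exact_mod_cast h1
  have e2 : (u1 : ℤ) < u2 := by exact_mod_cast h12
  have e3 : (u2 : ℤ) ≤ b := by exact_mod_cast h2
  have hσ0 : 2 * (u2 : ℤ) < lf c (face (orb F σ 0)) := by
    rw [orb_zero]
    linarith [hσ.st]
  have hρ0 : 2 * (u2 : ℤ) < lf c (face (orb F ρ 0)) := by
    rw [orb_zero]
    linarith [hρ.st]
  have hσT : lf c (face (orb F σ T)) < 2 * (u1 : ℤ) := by linarith [hσ.en]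
  have hρT : lf c (face (orb F ρ T')) < 2 * (u1 : ℤ) := by linarith [hρ.en]
  obtain ⟨s1, t1, -, hs1, ht1, l1⟩ := X6.sub F c u1 u2 h12 σ 0 s (Nat.zero_le _) hσ0 hs
  obtain ⟨s2, t2, hs2', hs2, ht2, l2⟩ := X6.sub F c u1 u2 h12 σ t T htT ht hσT
  obtain ⟨s3, t3, -, hs3, ht3, l3⟩ := X6.sub F c u1 u2 h12 ρ 0 T' (Nat.zero_le _) hρ0 hρT
  have hR := (hr F c a b σ T hab hσ).2.2.2
  have n12 : orb F σ s1 ≠ orb F σ s2 := by
    intro h
    have := (hR σ T s1 s2 hσ (by omega) (by omega) h).2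
    omega
  have n13 : orb F σ s1 ≠ orb F ρ s3 := by
    intro h
    exact hne (hR ρ T' s1 s3 hρ (by omega) (by omega) h).1
  have n23 : orb F σ s2 ≠ orb F ρ s3 := by
    intro h
    exact hne (hR ρ T' s2 s3 hρ (by omega) (by omega) h).1
  refine hc' F c u1 u2 3 ![orb F σ s1, orb F σ s2, orb F ρ s3] h12 ?_ ?_
  · intro i j hij
    fin_cases i <;> fin_cases j
    · rfl
    · exact absurd hij n12
    · exact absurd hij n13
    · exact absurd hij.symm n12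
    · rfl
    · exact absurd hij n23
    · exact absurd hij.symm n13
    · exact absurd hij.symm n23
    · rfl
  · intro i
    fin_cases i
    · exact ⟨_, l1⟩
    · exact ⟨_, l2⟩
    · exact ⟨_, l3⟩

/-- **A weak six-arm bound**, uniform in the inner radius. -/
theorem u32 (hB : St_basic) (_hr : St_restr) (hf : St_fin) (_hl : St_loc) (hc : St_cnt)
    (hn3 : St_N3) (hps : St_PS) (hE2 : St_UpE2) (_hm : St_Mom) (hA : X6.St_Ann) : St_U32 := by
  obtain ⟨C2, hC2, hE⟩ := hE2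
  obtain ⟨C1, hC1, h1⟩ := X6.one hB hA
  refine ⟨C2 * (C1 + C2) + 27, by positivity, fun c a b S ha hab hS => ?_⟩
  have hb0 : (0 : ℝ) < b := by
    have : 0 < b := by omega
    exact_mod_cast this
  have ha0 : (0 : ℝ) < a := by exact_mod_cast ha
  have hab0 : (0 : ℝ) < (a : ℝ) / b := by positivity
  have hab1 : (a : ℝ) / b ≤ 1 := by
    rw [div_le_one hb0]
    exact_mod_cast hab.le
  have hx32 : 0 ≤ ((a : ℝ) / b) ^ (3/2 : ℝ) := by positivity
  rcases Nat.lt_or_ge b (3 * a + 6) with hb | hb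
  · refine (Pr_le_one X6.okh S _).trans ?_
    have h2 : (1 : ℝ) / 9 ≤ (a : ℝ) / b := by
      rw [div_le_div_iff₀ (by norm_num) hb0]
      have : b ≤ 9 * a := by omega
      have h3 : (b : ℝ) ≤ 9 * a := by exact_mod_cast this
      linarith
    have h3 : ((1 : ℝ) / 9) ^ (3/2 : ℝ) ≤ ((a : ℝ) / b) ^ (3/2 : ℝ) :=
      Real.rpow_le_rpow (by norm_num) h2 (by norm_num)
    have h4 : ((1 : ℝ) / 9) ^ (3/2 : ℝ) = 1 / 27 := by
      rw [show (1 : ℝ) / 9 = (1 / 3) ^ (2 : ℝ) by norm_num, ← Real.rpow_mul (by norm_num)]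
      norm_num
    rw [h4] at h3
    have h5 : 0 ≤ C2 * (C1 + C2) * ((a : ℝ) / b) ^ (3/2 : ℝ) := by positivity
    nlinarith [h3, h5]
  · have hE' := hE c a b S ha hb hS
    have h1' := h1 c a b S ha hb hS
    have h3 := X6.three hn3 hps hf hc c a b S ha hab hS
    have hNL : Ex (fun _ => (1/2 : ℝ)) S (fun F => (NL c a b (↑F : Set Edg) : ℝ)) ≤
        (C1 + C2) * ((a : ℝ) / b) ^ (1/4 : ℝ) := by
      have h4 : Ex (fun _ => (1/2 : ℝ)) S (fun F => (NL c a b (↑F : Set Edg) : ℝ)) ≤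
          Pr (fun _ => (1/2 : ℝ)) S (fun F => (LS c a b (↑F : Set Edg)).Nonempty) +
          Ex (fun _ => (1/2 : ℝ)) S
            (fun F => (((NL c a b (↑F : Set Edg)).descFactorial 2 : ℕ) : ℝ)) := by
        unfold Pr
        rw [← Ex_add]
        refine Ex_mono X6.okh fun F _ => ?_
        rcases Nat.eq_zero_or_pos (NL c a b (↑F : Set Edg)) with h | h
        · rw [h]
          have := ind_nonneg (LS c a b (↑F : Set Edg)).Nonempty
          simpa using this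
        · have hne : (LS c a b (↑F : Set Edg)).Nonempty :=
            Set.nonempty_of_ncard_ne_zero (Nat.pos_iff_ne_zero.1 h)
          rw [ind_of hne]
          generalize NL c a b (↑F : Set Edg) = n at h
          obtain ⟨k, hk⟩ : ∃ k, n = k + 1 := ⟨n - 1, by omega⟩
          subst hk
          have h6 : k + 1 ≤ 1 + (k + 1).descFactorial 2 := by
            simp only [Nat.descFactorial, Nat.add_sub_cancel, Nat.sub_zero, mul_one]
            nlinarith [Nat.zero_le k]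
          exact_mod_cast h6
      have h5 : ((a : ℝ) / b) ^ (5/4 : ℝ) ≤ ((a : ℝ) / b) ^ (1/4 : ℝ) :=
        Real.rpow_le_rpow_of_exponent_ge hab0 hab1 (by norm_num)
      calc _ ≤ _ := h4
        _ ≤ C1 * ((a : ℝ) / b) ^ (1/4 : ℝ) + C2 * ((a : ℝ) / b) ^ (5/4 : ℝ) := add_le_add h1' hE'
        _ ≤ C1 * ((a : ℝ) / b) ^ (1/4 : ℝ) + C2 * ((a : ℝ) / b) ^ (1/4 : ℝ) := by gcongr
        _ = _ := by ring
    have hN0 : 0 ≤ Ex (fun _ => (1/2 : ℝ)) S (fun F => (NL c a b (↑F : Set Edg) : ℝ)) :=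
      Ex_nonneg X6.okh fun F _ => Nat.cast_nonneg _
    calc _ ≤ _ := h3
      _ ≤ (C2 * ((a : ℝ) / b) ^ (5/4 : ℝ)) * ((C1 + C2) * ((a : ℝ) / b) ^ (1/4 : ℝ)) :=
        mul_le_mul hE' hNL hN0 (by positivity)
      _ = C2 * (C1 + C2) * (((a : ℝ) / b) ^ (5/4 : ℝ) * ((a : ℝ) / b) ^ (1/4 : ℝ)) := by ring
      _ = C2 * (C1 + C2) * ((a : ℝ) / b) ^ (3/2 : ℝ) := by
        rw [← Real.rpow_add hab0]
        norm_num
      _ ≤ (C2 * (C1 + C2) + 27) * ((a : ℝ) / b) ^ (3/2 : ℝ) := by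
        refine mul_le_mul_of_nonneg_right (by linarith) hx32

end Pool.Agent.N948.IX
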