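import Pool.Agent.N948.IX.Sp

/-!
# Project XD (helper948), part X7: glueing a fresh configuration, when the event in the fresh
configuration depends on the explored part

By helper953.
-/

set_option autoImplicit false

namespace Pool.Agent.N948.IX.X7

open H974 Finset

section gen

variable {E : Type} [DecidableEq E]

theorem cyl (U I O : Finset E) (hI : I ⊆ U) :
    Pr (fun _ => (1/2 : ℝ)) U (fun F => ∀ e ∈ I, (e ∈ F ↔ e ∈ O)) = (1/2 : ℝ) ^ I.card := by
  rw [Pr_local (S' := I) hI]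
  · unfold Pr Ex
    rw [Finset.sum_eq_single (I ∩ O)]
    · beta_reduce
      rw [ind_of]
      · rw [Finset.prod_const, Finset.prod_const, mul_one]
        have h1 : (1 : ℝ) - 1 / 2 = 1 / 2 := by norm_num
        rw [h1, ← pow_add]
        congr 1
        have := Finset.card_sdiff_add_card_inter I (I ∩ O)
        rw [Finset.inter_eq_right.2 Finset.inter_subset_left] at this
        omega
      · intro e he
        simp [he]
    · intro F hF hne
      beta_reduce
      rw [ind_not_of, mul_zero]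
      intro h
      apply hne
      ext e
      rw [Finset.mem_powerset] at hF
      rw [Finset.mem_inter]
      constructor
      · intro he
        exact ⟨hF he, (h e (hF he)).1 he⟩
      · rintro ⟨h1, h2⟩
        exact (h e h1).2 h2
    · intro h
      exact absurd (Finset.mem_powerset.2 Finset.inter_subset_left) h
  · intro F _
    constructor
    · intro h e he
      rw [Finset.mem_inter]
      exact ⟨fun h1 => (h e he).1 h1.1, fun h1 => ⟨(h e he).2 h1, he⟩⟩
    · intro h e he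
      have := h e he
      rw [Finset.mem_inter] at this
      exact ⟨fun h1 => this.1 ⟨h1, he⟩, fun h1 => (this.2 h1).1⟩

/-- the slice `i` -/
def sg (F : Finset (Fin 2 × E)) (i : Fin 2) : Set E := {e | (i, e) ∈ F}

/-- glueing -/
def gg (F H : Set E) (A : Finset E) : Set E := {e | (e ∈ A ∧ e ∈ H) ∨ (e ∉ A ∧ e ∈ F)}

open Classical in
/-- the patterns -/
noncomputable def Pt (S : Finset E) (W : Set E → Finset E → Prop) : Finset (Finset E × Finset E) :=
  (S.powerset ×ˢ S.powerset).filter (fun q => q.2 ⊆ q.1 ∧ W (↑q.2 : Set E) q.1)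

theorem mem_Pt {S : Finset E} {W : Set E → Finset E → Prop} {q : Finset E × Finset E} :
    q ∈ Pt S W ↔ (q.1 ⊆ S ∧ q.2 ⊆ S) ∧ q.2 ⊆ q.1 ∧ W (↑q.2 : Set E) q.1 := by
  classical
  unfold Pt
  rw [Finset.mem_filter, Finset.mem_product, Finset.mem_powerset, Finset.mem_powerset]

theorem ind_ex {S : Finset E} {W : Set E → Finset E → Prop} {Q : Set E → Finset E → Set E → Prop}
    (h1 : ∀ F A, W F A → A ⊆ S)
    (h2 : ∀ F G A, W F A → (∀ e ∈ A, (e ∈ F ↔ e ∈ G)) → W G A)
    (h3 : ∀ F A B, W F A → W F B → A = B)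
    (h4 : ∀ F F' A G, (∀ e ∈ A, (e ∈ F ↔ e ∈ F')) → Q F A G → Q F' A G)
    (ω : Set E) (γ : Finset E → Set E) :
    ind (∃ A, W ω A ∧ Q ω A (γ A)) =
      ∑ q ∈ Pt S W, ind (∀ e ∈ q.1, (e ∈ ω ↔ e ∈ q.2)) * ind (Q (↑q.2 : Set E) q.1 (γ q.1)) := by
  classical
  simp_rw [← ind_and]
  by_cases h : ∃ A, W ω A ∧ Q ω A (γ A)
  · rw [ind_of h]
    obtain ⟨A, hA, hQ⟩ := h
    rw [Finset.sum_eq_single (A, A.filter (fun e => e ∈ ω))]
    · rw [ind_of]
      refine ⟨?_, ?_⟩
      · intro e he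
        show e ∈ ω ↔ e ∈ A.filter (fun e => e ∈ ω)
        rw [Finset.mem_filter]
        exact ⟨fun h => ⟨he, h⟩, fun h => h.2⟩
      · refine h4 _ _ _ _ (fun e he => ?_) hQ
        rw [Finset.mem_coe, Finset.mem_filter]
        exact ⟨fun h => ⟨he, h⟩, fun h => h.2⟩
    · intro q hq hne
      apply ind_not_of
      rintro ⟨hq2, -⟩
      apply hne
      obtain ⟨-, h5, h6⟩ := mem_Pt.1 hq
      have h7 : W ω q.1 := h2 _ _ _ h6 fun e he => (hq2 e he).symm
      have h8 : q.1 = A := h3 _ _ _ h7 hA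
      refine Prod.ext h8 ?_
      ext e
      rw [Finset.mem_filter]
      constructor
      · intro he
        have he1 := h5 he
        exact ⟨by rw [← h8]; exact he1, (hq2 e he1).2 he⟩
      · rintro ⟨h9, h10⟩
        rw [← h8] at h9
        exact (hq2 e h9).1 h10
    · intro hnp
      exfalso
      apply hnp
      rw [mem_Pt]
      have h5 : A.filter (fun e => e ∈ ω) ⊆ A := Finset.filter_subset _ _
      refine ⟨⟨h1 _ _ hA, h5.trans (h1 _ _ hA)⟩, h5, ?_⟩
      refine h2 _ _ _ hA fun e he => ?_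
      rw [Finset.mem_coe, Finset.mem_filter]
      exact ⟨fun h => ⟨he, h⟩, fun h => h.2⟩
  · rw [ind_not_of h]
    symm
    apply Finset.sum_eq_zero
    intro q hq
    apply ind_not_of
    rintro ⟨hq2, hq3⟩
    apply h
    obtain ⟨-, h5, h6⟩ := mem_Pt.1 hq
    exact ⟨q.1, h2 _ _ _ h6 fun e he => (hq2 e he).symm,
      h4 _ _ _ _ (fun e he => (hq2 e he).symm) hq3⟩

/-- the embedding which chooses the slice `1` on `A` and the slice `0` off `A` -/
def em (A : Finset E) : E ↪ Fin 2 × E where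
  toFun e := (if e ∈ A then 1 else 0, e)
  inj' := fun _ _ h => (Prod.ext_iff.1 h).2

theorem em_apply (A : Finset E) (e : E) : em A e = (if e ∈ A then 1 else 0, e) := rfl

theorem mem_gg (F : Finset (Fin 2 × E)) (A : Finset E) (e : E) :
    e ∈ gg (sg F 0) (sg F 1) A ↔ em A e ∈ F := by
  rw [em_apply]
  unfold gg sg
  by_cases h : e ∈ A
  · rw [if_pos h]
    constructor
    · rintro (⟨_, h1⟩ | ⟨h1, _⟩)
      · exact h1
      · exact absurd h h1
    · intro h1
      exact Or.inl ⟨h, h1⟩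
  · rw [if_neg h]
    constructor
    · rintro (⟨h1, _⟩ | ⟨_, h1⟩)
      · exact absurd h1 h
      · exact h1
    · intro h1
      exact Or.inr ⟨h, h1⟩

theorem one {S A O : Finset E} (hA : A ⊆ S) (P : Set E → Prop)
    (hP : ∀ G G' : Set E, G' ∩ ↑S = G ∩ ↑S → P G → P G') :
    Ex (fun _ => (1/2 : ℝ)) ((Finset.univ : Finset (Fin 2)) ×ˢ S)
      (fun F => ind (∀ e ∈ A, (e ∈ sg F 0 ↔ e ∈ O)) * ind (P (gg (sg F 0) (sg F 1) A))) =
    (1/2 : ℝ) ^ A.card * Pr (fun _ => (1/2 : ℝ)) S (fun G => P (↑G : Set E)) := by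
  classical
  have hem : ∀ e ∈ S, em A e ∈ (Finset.univ : Finset (Fin 2)) ×ˢ S := fun e he =>
    Finset.mem_product.2 ⟨Finset.mem_univ _, he⟩
  have hz : ∀ e ∈ S, ((0 : Fin 2), e) ∈ (Finset.univ : Finset (Fin 2)) ×ˢ S := fun e he =>
    Finset.mem_product.2 ⟨Finset.mem_univ _, he⟩
  obtain ⟨I0, hI0⟩ : ∃ I : Finset (Fin 2 × E), I = A.map ⟨fun e => ((0 : Fin 2), e),
    fun _ _ h => (Prod.ext_iff.1 h).2⟩ := ⟨_, rfl⟩
  have hI0m : ∀ x, x ∈ I0 ↔ ∃ e ∈ A, ((0 : Fin 2), e) = x := by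
    intro x
    rw [hI0, Finset.mem_map]
    rfl
  obtain ⟨T0, hT0⟩ : ∃ T : Finset (Fin 2 × E), T = S.map (em A) := ⟨_, rfl⟩
  have hI0S : I0 ⊆ (Finset.univ : Finset (Fin 2)) ×ˢ S := by
    intro x hx
    obtain ⟨e, he, rfl⟩ := (hI0m x).1 hx
    exact hz e (hA he)
  have hT0S : T0 ⊆ (Finset.univ : Finset (Fin 2)) ×ˢ S := by
    intro x hx
    rw [hT0, Finset.mem_map] at hx
    obtain ⟨e, he, rfl⟩ := hx
    exact hem e he
  have hd : Disjoint I0 T0 := by
    rw [Finset.disjoint_left]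
    intro x hx hx2
    obtain ⟨e, he, rfl⟩ := (hI0m x).1 hx
    rw [hT0, Finset.mem_map] at hx2
    obtain ⟨e', he', h⟩ := hx2
    rw [em_apply, Prod.mk.injEq] at h
    obtain ⟨h5, rfl⟩ := h
    rw [if_pos he] at h5
    exact absurd h5 (by decide)
  have hlocQ : ∀ F : Finset (Fin 2 × E), ind (P (gg (sg F 0) (sg F 1) A)) =
      ind (P (gg (sg (F ∩ T0) 0) (sg (F ∩ T0) 1) A)) := by
    intro F
    have hset : gg (sg F 0) (sg F 1) A ∩ ↑S = gg (sg (F ∩ T0) 0) (sg (F ∩ T0) 1) A ∩ ↑S := by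
      ext e
      rw [Set.mem_inter_iff, Set.mem_inter_iff, mem_gg, mem_gg, Finset.mem_inter]
      constructor
      · rintro ⟨h6, h7⟩
        refine ⟨⟨h6, ?_⟩, h7⟩
        rw [hT0]
        exact Finset.mem_map_of_mem _ h7
      · rintro ⟨⟨h6, _⟩, h7⟩
        exact ⟨h6, h7⟩
    exact ind_congr ⟨fun h => hP _ _ hset.symm h, fun h => hP _ _ hset h⟩
  rw [Ex_mul_indep hI0S hT0S hd (fun F _ => ?_) (fun F _ => hlocQ F)]
  · congr 1
    · have h6 := cyl ((Finset.univ : Finset (Fin 2)) ×ˢ S) I0 (O.map ⟨fun e => ((0 : Fin 2), e),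
        fun _ _ h => (Prod.ext_iff.1 h).2⟩) hI0S
      have h7 : I0.card = A.card := by rw [hI0, Finset.card_map]
      rw [h7] at h6
      rw [← h6]
      apply Ex_congr
      intro F _
      apply ind_congr
      constructor
      · intro h x hx
        obtain ⟨e, he, rfl⟩ := (hI0m x).1 hx
        rw [Finset.mem_map]
        constructor
        · intro h8
          exact ⟨e, (h e he).1 h8, rfl⟩
        · rintro ⟨e', he', h9⟩
          have h10 : e' = e := (Prod.ext_iff.1 h9).2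
          rw [h10] at he'
          exact (h e he).2 he'
      · intro h e he
        have h8 := h (0, e) ((hI0m _).2 ⟨e, he, rfl⟩)
        rw [Finset.mem_map] at h8
        constructor
        · intro h9
          obtain ⟨e', he', h10⟩ := h8.1 h9
          have h11 : e' = e := (Prod.ext_iff.1 h10).2
          rwa [h11] at he'
        · intro h9
          exact h8.2 ⟨e, h9, rfl⟩
    · rw [Ex_local (S' := T0) hT0S (fun F _ => hlocQ F), hT0, Ex_map]
      unfold Pr
      apply Ex_congr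
      intro G _
      apply ind_congr
      have hset : gg (sg (G.map (em A)) 0) (sg (G.map (em A)) 1) A ∩ ↑S = (↑G : Set E) ∩ ↑S := by
        ext e
        rw [Set.mem_inter_iff, Set.mem_inter_iff, mem_gg, Finset.mem_map']
        exact Iff.rfl
      exact ⟨fun h => hP _ _ hset.symm h, fun h => hP _ _ hset h⟩
  · apply ind_congr
    constructor
    · intro h e he
      rw [← h e he]
      show (0, e) ∈ F ∩ I0 ↔ (0, e) ∈ F
      rw [Finset.mem_inter]
      exact ⟨fun h => h.1, fun h => ⟨h, (hI0m _).2 ⟨e, he, rfl⟩⟩⟩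
    · intro h e he
      rw [← h e he]
      show (0, e) ∈ F ↔ (0, e) ∈ F ∩ I0
      rw [Finset.mem_inter]
      exact ⟨fun h => ⟨h, (hI0m _).2 ⟨e, he, rfl⟩⟩, fun h => h.1⟩

theorem pr_two {S : Finset E} {W : Set E → Finset E → Prop}
    {Q : Set E → Finset E → Set E → Prop}
    (h1 : ∀ F A, W F A → A ⊆ S)
    (h2 : ∀ F G A, W F A → (∀ e ∈ A, (e ∈ F ↔ e ∈ G)) → W G A)
    (h3 : ∀ F A B, W F A → W F B → A = B)
    (h4 : ∀ F F' A G, (∀ e ∈ A, (e ∈ F ↔ e ∈ F')) → Q F A G → Q F' A G)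
    (h5 : ∀ F A G G', G ∩ ↑S = G' ∩ ↑S → Q F A G → Q F A G') :
    Pr (fun _ => (1/2 : ℝ)) ((Finset.univ : Finset (Fin 2)) ×ˢ S)
      (fun F => ∃ A, W (sg F 0) A ∧ Q (sg F 0) A (gg (sg F 0) (sg F 1) A)) =
    ∑ q ∈ Pt S W, (1/2 : ℝ) ^ q.1.card *
      Pr (fun _ => (1/2 : ℝ)) S (fun G => Q (↑q.2 : Set E) q.1 (↑G : Set E)) := by
  unfold Pr
  rw [Ex_congr (g := fun F => ∑ q ∈ Pt S W, ind (∀ e ∈ q.1, (e ∈ sg F 0 ↔ e ∈ q.2)) *
    ind (Q (↑q.2 : Set E) q.1 (gg (sg F 0) (sg F 1) q.1)))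
    (fun F _ => ind_ex h1 h2 h3 h4 (sg F 0) (fun A => gg (sg F 0) (sg F 1) A)), Ex_sum]
  apply Finset.sum_congr rfl
  intro q hq
  exact one (mem_Pt.1 hq).1.1 (fun G => Q (↑q.2 : Set E) q.1 G) (fun G G' h h' =>
    h5 _ _ _ _ h.symm h')

theorem pr_one {S : Finset E} {W : Set E → Finset E → Prop}
    (h1 : ∀ F A, W F A → A ⊆ S)
    (h2 : ∀ F G A, W F A → (∀ e ∈ A, (e ∈ F ↔ e ∈ G)) → W G A)
    (h3 : ∀ F A B, W F A → W F B → A = B) :
    Pr (fun _ => (1/2 : ℝ)) S (fun F => ∃ A, W (↑F : Set E) A) =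
    ∑ q ∈ Pt S W, (1/2 : ℝ) ^ q.1.card := by
  unfold Pr
  rw [Ex_congr (g := fun F => ∑ q ∈ Pt S W, ind (∀ e ∈ q.1, (e ∈ F ↔ e ∈ q.2))), Ex_sum]
  · apply Finset.sum_congr rfl
    intro q hq
    exact cyl S q.1 q.2 (mem_Pt.1 hq).1.1
  · intro F _
    have h := ind_ex (Q := fun _ _ _ => True) h1 h2 h3 (fun _ _ _ _ _ _ => trivial)
      (↑F : Set E) (fun _ => ∅)
    simp only [and_true, ind_of trivial, mul_one, Finset.mem_coe] at h
    exact h

end gen

end Pool.Agent.N948.IX.X7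

namespace Pool.Agent.N948.IX

open H974 Finset H984P

/-- **The configuration is fresh off the explored edges**; the event in the fresh configuration may
depend on the explored part. -/
theorem glw : St_GLW := by
  intro S W Q p hp h1 h2 h3 h4 h5
  have hsl : ∀ F : Finset (Fin 2 × Edg), ∀ i, sl F i = X7.sg F i := fun _ _ => rfl
  have hgl : ∀ (F H : Set Edg) (A : Finset Edg), gl F H A = X7.gg F H A := fun _ _ _ => rfl
  have e2 := X7.pr_two h1 h2 h3 h4 h5
  have e1 := X7.pr_one h1 h2 h3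
  simp only [hsl, hgl]
  rw [e2, e1, Finset.mul_sum]
  constructor
  · intro hb
    refine Finset.sum_le_sum fun q hq => ?_
    rw [mul_comm p]
    exact mul_le_mul_of_nonneg_left (hb _ _ (X7.mem_Pt.1 hq).2.2) (by positivity)
  · intro hb
    refine Finset.sum_le_sum fun q hq => ?_
    rw [mul_comm p]
    exact mul_le_mul_of_nonneg_left (hb _ _ (X7.mem_Pt.1 hq).2.2) (by positivity)

end Pool.Agent.N948.IX
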