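import Pool.Agent.N948.IX.Sp
import Pool.Agent.H12R2.Sep.Win1

/-!
# Project XD, file X8: one-arm bounds for annuli
-/

set_option autoImplicit false

namespace Pool.Agent.N948.IX.X8

open H974 H12S Finset

/-- independence over scales -/
theorem pr_annuli' (j K : ℕ) {U : Finset Edg} (hU : boxE (RR (j + K)) ⊆ U) :
    Pr (fun _ => (1/2 : ℝ)) U
      (fun F => ∀ k, j ≤ k → k < j + K → ¬ H974.Blk (RR k) (RR (k + 1)) F) ≤
      (1 - (1/2 : ℝ)^188)^K := by
  have ok := okq (q := 1/2) (by norm_num) (by norm_num)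
  induction K with
  | zero =>
    simp only [pow_zero]
    exact Pr_le_one ok _ _
  | succ K ih =>
    have hlt : RR (j + K) < RR (j + K + 1) := by rw [RR_succ]; have := RR_ge (j + K); omega
    have hU' : boxE (RR (j + K)) ⊆ U := (boxE_mono hlt.le).trans hU
    have i1 := ih hU'
    have hann : annE (RR (j + K)) (RR (j + K + 1)) ⊆ U := Finset.sdiff_subset.trans hU
    have e1 : Pr (fun _ => (1/2 : ℝ)) U
        (fun F => ∀ k, j ≤ k → k < j + (K + 1) → ¬ H974.Blk (RR k) (RR (k + 1)) F) =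
        Pr (fun _ => (1/2 : ℝ)) U
          (fun F => (∀ k, j ≤ k → k < j + K → ¬ H974.Blk (RR k) (RR (k + 1)) F) ∧
          ¬ H974.Blk (RR (j + K)) (RR (j + K + 1)) F) := by
      apply Pr_congr
      intro F _
      constructor
      · intro h
        exact ⟨fun k hk hk' => h k hk (by omega), h (j + K) (by omega) (by omega)⟩
      · rintro ⟨h, h'⟩ k hk hk'
        rcases Nat.lt_or_ge k (j + K) with hlt | hge
        · exact h k hk hlt
        · have : k = j + K := by omega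
          rw [this]; exact h'
    have i2 := Pr_indep (p := fun _ => (1/2:ℝ))
      (A := fun F => ∀ k, j ≤ k → k < j + K → ¬ H974.Blk (RR k) (RR (k + 1)) F)
      (B := fun F => ¬ H974.Blk (RR (j + K)) (RR (j + K + 1)) F) hU' hann (Finset.disjoint_sdiff)
      (fun F _ => forall_congr' fun k => forall_congr' fun hk => forall_congr' fun hk' => not_congr
        (Blk_local (by rw [RR_succ]; have := RR_ge k; omega)
          (Finset.sdiff_subset.trans (boxE_mono (RR_mono (by omega)))) F))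
      (fun F _ => not_congr (Blk_local hlt (Finset.Subset.refl _) F))
    rw [e1, i2, Pr_not, pow_succ]
    have hb : (1/2 : ℝ)^188 ≤ Pr (fun _ => (1/2 : ℝ)) U
        (H974.Blk (RR (j + K)) (RR (j + K + 1))) := by
      rw [RR_succ] at hann ⊢
      exact pr_Blk (by have := RR_ge (j + K); omega) hann
    apply mul_le_mul i1 (by linarith)
    · have := Pr_le_one ok U (H974.Blk (RR (j + K)) (RR (j + K + 1)))
      linarith
    · apply pow_nonneg
      have : (1/2 : ℝ)^188 ≤ 1 := pow_le_one₀ (by norm_num) (by norm_num)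
      linarith

/-- a crossing meets no blocked annulus -/
theorem crs_blks {c1 c2 : ℤ} {r R j m : ℕ} (hj : r ≤ RR j) (hm : RR (j + m) ≤ R) {F : Finset Edg}
    (h : Crs c1 c2 r R ↑F) :
    ∀ k, j ≤ k → k < j + m → ¬ H974.Blk (RR k) (RR (k + 1)) ((trl (-c1) (-c2)).mp F) := by
  intro k hk hk'
  obtain ⟨⟨x1, x2⟩, ⟨y1, y2⟩, hx, hy, hr⟩ := h
  have h1 := (trl (-c1) (-c2)).reach hr
  rw [trl_ψ, trl_ψ, ← LSym.coe_mp] at h1
  unfold inR at hx
  simp only at hx hy
  have hlt : RR k < RR (k + 1) := by rw [RR_succ]; have := RR_ge k; omega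
  have hle : RR (k + 1) ≤ RR (j + m) := RR_mono (by omega)
  have hjk : RR j ≤ RR k := RR_mono hk
  exact not_blk_of_reach (by exact_mod_cast hlt)
    (by unfold inR; simp only; omega) h1 (by omega)

theorem scales (c1 c2 : ℤ) {r R j m : ℕ} (hj : r ≤ RR j) (hm : RR (j + m) ≤ R)
    (S : Finset Edg) :
    Pr (fun _ => (1/2 : ℝ)) S (fun F => Crs c1 c2 r R ↑F) ≤ (1 - (1/2 : ℝ)^188)^m := by
  have ok := okq (q := 1/2) (by norm_num) (by norm_num)
  have e1 : Pr (fun _ => (1/2 : ℝ)) S (fun F => Crs c1 c2 r R ↑F) ≤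
      Pr (fun _ => (1/2 : ℝ)) S (fun F => (fun G : Finset Edg => ∀ k, j ≤ k → k < j + m →
        ¬ H974.Blk (RR k) (RR (k + 1)) G) ((trl (-c1) (-c2)).mp F)) :=
    Pr_mono ok (fun F _ hF => crs_blks hj hm hF)
  refine e1.trans ?_
  refine (Pr_shift_le (by norm_num) (by norm_num) (trl (-c1) (-c2)) S
    (B := boxE (RR (j + m))) ?_ ?_).trans (pr_annuli' j m (Finset.Subset.refl _))
  · intro F G hFG hF k hk hk' hG
    apply hF k hk hk'
    exact ⟨fun h => hG.1 (h.imp (LRc.mono hFG) (LRc.mono hFG)),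
      fun h => hG.2 (h.imp (TBc.mono hFG) (TBc.mono hFG))⟩
  · intro F
    exact forall_congr' fun k => forall_congr' fun hk => forall_congr' fun hk' => not_congr
        (Blk_local (by rw [RR_succ]; have := RR_ge k; omega)
          (Finset.sdiff_subset.trans (boxE_mono (RR_mono (by omega)))) F)

/-- the power bound for crossings -/
theorem crs_pow : ∃ C β : ℝ, 0 < C ∧ 0 < β ∧ ∀ (c1 c2 : ℤ) (r R : ℕ) (S : Finset Edg), 1 ≤ r →
    r ≤ R → Pr (fun _ => (1/2 : ℝ)) S (fun F => Crs c1 c2 r R ↑F) ≤ C * ((r : ℝ) / R) ^ β := by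
  obtain ⟨l, hl⟩ : ∃ l : ℝ, l = 1 - (1/2 : ℝ)^188 := ⟨_, rfl⟩
  have hl1 : l < 1 := by
    rw [hl]
    have : (0 : ℝ) < (1/2 : ℝ)^188 := by positivity
    linarith
  have hl0 : 0 < l := by
    rw [hl]
    have : (1/2 : ℝ)^188 < 1 := pow_lt_one₀ (by norm_num) (by norm_num) (by norm_num)
    linarith
  have hlog3 : 0 < Real.log 3 := Real.log_pos (by norm_num)
  obtain ⟨β, hβ⟩ : ∃ β : ℝ, β = -Real.log l / Real.log 3 := ⟨_, rfl⟩
  have hβ0 : 0 < β := by
    rw [hβ]
    exact div_pos (neg_pos.2 (Real.log_neg hl0 hl1)) hlog3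
  have hlβ : l = (3 : ℝ) ^ (-β) := by
    rw [hβ, Real.rpow_def_of_pos (by norm_num)]
    have : Real.log 3 * -(-Real.log l / Real.log 3) = Real.log l := by field_simp
    rw [this, Real.exp_log hl0]
  refine ⟨81 ^ β, β, by positivity, hβ0, ?_⟩
  intro c1 c2 r R S hr hrR
  have hr' : (1 : ℝ) ≤ r := by exact_mod_cast hr
  have hR' : (1 : ℝ) ≤ R := by exact_mod_cast (hr.trans hrR)
  have ok := okq (q := 1/2) (by norm_num) (by norm_num)
  rw [← Real.mul_rpow (by norm_num) (by positivity)]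
  by_cases htriv : (R : ℝ) ≤ 81 * r
  · refine (Pr_le_one ok _ _).trans ?_
    refine Real.one_le_rpow ?_ hβ0.le
    rw [mul_div_assoc', le_div_iff₀ (by linarith)]
    linarith
  · rw [not_le] at htriv
    obtain ⟨i, hi1, hi2⟩ := exists_nat_pow_near hr' (show (1 : ℝ) < 3 by norm_num)
    have hj : r ≤ RR (i + 1) := by
      have h1 : (r : ℝ) ≤ ((3 ^ (i + 1) : ℕ) : ℝ) := by push_cast; exact hi2.le
      have h2 : r ≤ 3 ^ (i + 1) := by exact_mod_cast h1
      have h3 : (3 ^ (i + 1) : ℕ) ≤ RR (i + 1) := by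
        unfold RR
        omega
      exact h2.trans h3
    have hx : (1 : ℝ) ≤ (R : ℝ) / (27 * 3 ^ i) := by
      rw [le_div_iff₀ (by positivity)]
      linarith
    obtain ⟨m, hm1, hm2⟩ := exists_nat_pow_near hx (show (1 : ℝ) < 3 by norm_num)
    rw [le_div_iff₀ (by positivity)] at hm1
    rw [div_lt_iff₀ (by positivity)] at hm2
    have hm : RR (i + 1 + m) ≤ R := by
      have h1 : ((RR (i + 1 + m) : ℕ) : ℝ) ≤ R := by
        unfold RR
        push_cast
        refine le_trans (le_of_eq ?_) hm1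
        ring
      exact_mod_cast h1
    have h1 := scales c1 c2 hj hm S
    refine h1.trans ?_
    have e : ((3 : ℝ) ^ (-β)) ^ m = (((3 : ℝ) ^ m)⁻¹) ^ β := by
      rw [← Real.rpow_natCast, ← Real.rpow_mul (by norm_num),
        show -β * (m : ℝ) = (-(m : ℝ)) * β by ring, Real.rpow_mul (by norm_num),
        Real.rpow_neg (by norm_num), Real.rpow_natCast]
    rw [← hl, hlβ, e]
    refine Real.rpow_le_rpow (by positivity) ?_ hβ0.le
    rw [inv_eq_one_div, mul_div_assoc', div_le_div_iff₀ (by positivity) (by linarith), one_mul]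
    have h2 : (R : ℝ) < 3 ^ m * 3 * (27 * 3 ^ i) := by rwa [pow_succ] at hm2
    have h3 : (3 : ℝ) ^ m * 3 * (27 * 3 ^ i) ≤ 3 ^ m * 3 * (27 * r) := by gcongr
    have h4 : (3 : ℝ) ^ m * 3 * (27 * r) = 81 * r * 3 ^ m := by ring
    linarith

/-- an open crossing of the annulus -/
theorem oc_crs {c : Vtx} {a b : ℕ} {F : Set Edg} (h : OC c a b 1 F) : Crs c.1 c.2 a b F := by
  obtain ⟨x, hx, -⟩ := h
  obtain ⟨h1, y, h2, h3⟩ := hx 0
  refine ⟨x 0, y, ?_, ?_, h3.mono Set.inter_subset_left⟩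
  · unfold inR
    unfold lv at h1
    simp only [abs_eq_max_neg] at h1
    omega
  · unfold lv at h2
    simp only [abs_eq_max_neg] at h2
    omega

/-- edges with two faces of the annulus -/
theorem gd_sub {c : Vtx} {a b : ℕ} {e : Edg} (h : e ∈ Gd c a b) : e ∈ GeF c a b := by
  obtain ⟨p, q⟩ := c
  obtain ⟨x, y, _ | _⟩ := e
  · unfold Gd Af lf at h
    rw [GeF, Finset.mem_filter, mem_RE_false]
    simp only [Set.mem_ofPred_eq, dsrc_false, dtgt_mk, lv, src_mk, tgt_false, abs_eq_max_neg] at h ⊢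
    omega
  · unfold Gd Af lf at h
    rw [GeF, Finset.mem_filter, mem_RE_true]
    simp only [Set.mem_ofPred_eq, dsrc_true, dtgt_mk, lv, src_mk, tgt_true, abs_eq_max_neg] at h ⊢
    omega

/-- a closed dual crossing of the annulus -/
theorem dc_crs {c : Vtx} {a b : ℕ} (hb : 1 ≤ b) {S F : Finset Edg} (hS : GeF c a b ⊆ S)
    (h : DC c a b 1 (↑F : Set Edg)) : DCrs c.1 c.2 (a + 1) (b - 1) (↑(S \ F) : Set Edg) := by
  obtain ⟨f, hf, -⟩ := h
  obtain ⟨⟨h1, e, -, h2⟩, g, ⟨h3, e', -, h4⟩, h5⟩ := hf 0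
  refine ⟨f 0, g, ?_, ?_, h5.mono ?_⟩
  · unfold inR
    generalize f 0 = f0 at *
    obtain ⟨x, y, _ | _⟩ := e
    · rcases h2 with ⟨h2, h6⟩ | ⟨h2, h6⟩ <;> rw [← h2] <;>
        simp only [lf, dsrc_false, dtgt_mk, abs_eq_max_neg] at h6 ⊢ <;> push_cast <;> omega
    · rcases h2 with ⟨h2, h6⟩ | ⟨h2, h6⟩ <;> rw [← h2] <;>
        simp only [lf, dsrc_true, dtgt_mk, abs_eq_max_neg] at h6 ⊢ <;> push_cast <;> omega
  · obtain ⟨x, y, _ | _⟩ := e'
    · rcases h4 with ⟨h4, h6⟩ | ⟨h4, h6⟩ <;> rw [← h4] <;>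
        simp only [lf, dsrc_false, dtgt_mk, abs_eq_max_neg] at h6 ⊢ <;>
        rw [Nat.cast_sub hb] <;> push_cast <;> omega
    · rcases h4 with ⟨h4, h6⟩ | ⟨h4, h6⟩ <;> rw [← h4] <;>
        simp only [lf, dsrc_true, dtgt_mk, abs_eq_max_neg] at h6 ⊢ <;>
        rw [Nat.cast_sub hb] <;> push_cast <;> omega
  · rintro e ⟨he, hg⟩
    rw [Finset.coe_sdiff]
    exact ⟨hS (gd_sub hg), he⟩

theorem rs1_ : St_RS1 := by
  obtain ⟨C, β, hC, hβ, h⟩ := crs_pow
  have ok := okq (q := 1/2) (by norm_num) (by norm_num)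
  refine ⟨max 2 (max C (C * 4 ^ β)), min β 1, by positivity, lt_min hβ one_pos, min_le_right _ _, ?_⟩
  intro c a b S ha hab hS
  have ha' : (1 : ℝ) ≤ a := by exact_mod_cast ha
  have hab' : (a : ℝ) + 1 ≤ b := by exact_mod_cast hab
  have hb0 : (0 : ℝ) < b := by linarith
  have hx0 : (0 : ℝ) < (a : ℝ) / b := by positivity
  have hx1 : (a : ℝ) / b ≤ 1 := by rw [div_le_one hb0]; linarith
  have hκ : ((a : ℝ) / b) ^ β ≤ ((a : ℝ) / b) ^ (min β 1) :=
    Real.rpow_le_rpow_of_exponent_ge hx0 hx1 (min_le_left _ _)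
  have hκ1 : (a : ℝ) / b ≤ ((a : ℝ) / b) ^ (min β 1) := by
    conv_lhs => rw [← Real.rpow_one ((a : ℝ) / b)]
    exact Real.rpow_le_rpow_of_exponent_ge hx0 hx1 (min_le_right _ _)
  have hp0 : 0 ≤ ((a : ℝ) / b) ^ β := by positivity
  have hp1 : 0 ≤ ((a : ℝ) / b) ^ (min β 1) := by positivity
  constructor
  · have h1 : Pr (fun _ => (1/2 : ℝ)) S (fun F => OC c a b 1 (↑F : Set Edg)) ≤
        Pr (fun _ => (1/2 : ℝ)) S (fun F => Crs c.1 c.2 a b (↑F : Set Edg)) :=
      Pr_mono ok fun F _ hF => oc_crs hF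
    refine (h1.trans (h c.1 c.2 a b S ha hab.le)).trans ?_
    calc C * ((a : ℝ) / b) ^ β ≤ C * ((a : ℝ) / b) ^ (min β 1) :=
          mul_le_mul_of_nonneg_left hκ hC.le
      _ ≤ _ := mul_le_mul_of_nonneg_right ((le_max_left _ _).trans (le_max_right _ _)) hp1
  · by_cases hab2 : a + 1 ≤ b - 1
    · have h1 : Pr (fun _ => (1/2 : ℝ)) S (fun F => DC c a b 1 (↑F : Set Edg)) ≤
          Pr (fun _ => (1/2 : ℝ)) S
            (fun F => DCrs c.1 c.2 (a + 1) (b - 1) (↑(S \ F) : Set Edg)) :=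
        Pr_mono ok fun F _ hF => dc_crs (by omega) hS hF
      have h2 : Pr (fun _ => (1/2 : ℝ)) S
            (fun F => DCrs c.1 c.2 (a + 1) (b - 1) (↑(S \ F) : Set Edg)) =
          Pr (fun _ => (1/2 : ℝ)) (dmp S)
            (fun F => Crs c.1 c.2 (a + 1) (b - 1) (↑F : Set Edg)) := by
        have h3 := pr_dual (q := (1/2 : ℝ)) S (fun G => Crs c.1 c.2 (a + 1) (b - 1) (↑G : Set Edg))
        rw [show (1 : ℝ) - 1/2 = 1/2 by norm_num] at h3
        refine Eq.trans ?_ h3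
        apply Pr_congr
        intro F _
        exact dcrs_iff
      rw [h2] at h1
      refine (h1.trans (h c.1 c.2 (a + 1) (b - 1) (dmp S) (by omega) hab2)).trans ?_
      have hb1 : ((b - 1 : ℕ) : ℝ) = (b : ℝ) - 1 := by
        rw [Nat.cast_sub (by omega)]; simp
      have hb3 : (3 : ℝ) ≤ b := by
        have : 3 ≤ b := by omega
        exact_mod_cast this
      have h4 : (((a + 1 : ℕ) : ℝ) / ((b - 1 : ℕ) : ℝ)) ^ β ≤ (4 * ((a : ℝ) / b)) ^ β := by
        refine Real.rpow_le_rpow (by positivity) ?_ hβ.le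
        rw [hb1]
        push_cast
        rw [mul_div_assoc', div_le_div_iff₀ (by linarith) hb0]
        nlinarith
      rw [Real.mul_rpow (by norm_num) hx0.le] at h4
      calc C * (((a + 1 : ℕ) : ℝ) / ((b - 1 : ℕ) : ℝ)) ^ β
          ≤ C * (4 ^ β * ((a : ℝ) / b) ^ β) := mul_le_mul_of_nonneg_left h4 hC.le
        _ = C * 4 ^ β * ((a : ℝ) / b) ^ β := by ring
        _ ≤ C * 4 ^ β * ((a : ℝ) / b) ^ (min β 1) :=
          mul_le_mul_of_nonneg_left hκ (by positivity)
        _ ≤ _ := mul_le_mul_of_nonneg_right ((le_max_right _ _).trans (le_max_right _ _)) hp1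
    · have hb2 : (b : ℝ) ≤ (a : ℝ) + 1 := by
        have : b ≤ a + 1 := by omega
        exact_mod_cast this
      refine (Pr_le_one ok _ _).trans ?_
      have h5 : (1 : ℝ) / 2 ≤ (a : ℝ) / b := by
        rw [div_le_div_iff₀ (by norm_num) hb0]
        linarith
      calc (1 : ℝ) ≤ 2 * ((a : ℝ) / b) := by linarith
        _ ≤ 2 * ((a : ℝ) / b) ^ (min β 1) := by linarith
        _ ≤ _ := mul_le_mul_of_nonneg_right (le_max_left _ _) hp1

end Pool.Agent.N948.IX.X8

namespace Pool.Agent.N948.IX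

/-- One-arm bounds. -/
theorem rs1 : St_RS1 := X8.rs1_

end Pool.Agent.N948.IX
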