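import Pool.Agent.N948.IX.Sp
import Pool.Agent.N948.IX.Bas

/-!
Project XD (helper948), X9 (helper394): two crossings are rarely near each other, uniform version.
-/

set_option autoImplicit false

namespace Pool.Agent.N948.IX

open H974 H906.Cyl H12S Finset H984P H342P

namespace X9

/-! ### General facts -/

theorem ok {E : Type*} : Ok (fun _ : E => (1/2 : ℝ)) := fun _ => by constructor <;> norm_num

/-- the law of a slice -/
theorem Ex_slice {m : ℕ} (i : Fin m) (S : Finset Edg) (g : Set Edg → ℝ) :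
    Ex (fun _ => (1/2 : ℝ)) ((Finset.univ : Finset (Fin m)) ×ˢ S) (fun F => g (sl F i)) =
      Ex (fun _ => (1/2 : ℝ)) S (fun F => g (↑F : Set Edg)) := by
  obtain ⟨φ, hφ⟩ : ∃ φ : Edg ↪ Fin m × Edg, ∀ e, φ e = (i, e) :=
    ⟨⟨fun e => (i, e), fun e e' h => (Prod.mk.inj h).2⟩, fun _ => rfl⟩
  have hsub : S.map φ ⊆ (Finset.univ : Finset (Fin m)) ×ˢ S := by
    intro x hx
    obtain ⟨e, he, rfl⟩ := Finset.mem_map.1 hx
    rw [hφ]
    exact Finset.mem_product.2 ⟨Finset.mem_univ _, he⟩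
  have hmem : ∀ (F : Finset Edg) (e : Edg), (i, e) ∈ F.map φ ↔ e ∈ F := by
    intro F e
    rw [← hφ, Finset.mem_map']
  rw [Ex_local hsub (f := fun F => g (sl F i)), Ex_map]
  · apply Ex_congr
    intro F hF
    congr 1
    ext e
    exact hmem F e
  · intro F hF
    congr 1
    ext e
    show (i, e) ∈ F ↔ (i, e) ∈ F ∩ S.map φ
    rw [Finset.mem_inter, hmem]
    constructor
    · intro h
      exact ⟨h, (Finset.mem_product.1 (hF h)).2⟩
    · exact fun h => h.1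

theorem ind_exists_le {α : Type*} {P : Finset α} {Q : α → Prop} (h : ∀ σ, Q σ → σ ∈ P) :
    ind (∃ σ, Q σ) ≤ ∑ σ ∈ P, ind (Q σ) := by
  by_cases hex : ∃ σ, Q σ
  · obtain ⟨σ, hσ⟩ := hex
    rw [ind_of ⟨σ, hσ⟩, ← ind_of hσ]
    exact Finset.single_le_sum (f := fun σ => ind (Q σ)) (fun _ _ => ind_nonneg _) (h σ hσ)
  · rw [ind_not_of hex]
    exact Finset.sum_nonneg fun _ _ => ind_nonneg _

theorem mem_GeF {c : Vtx} {a b : ℕ} {e : Edg} : e ∈ GeF c a b ↔ e ∈ Ge c a b := by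
  obtain ⟨x, y, d⟩ := e
  constructor
  · intro h
    unfold GeF at h
    rw [Finset.mem_filter] at h
    obtain ⟨h1, h2, h3⟩ := h
    refine ⟨⟨h2, ?_⟩, h3, ?_⟩
    · unfold lv
      rw [max_le_iff, abs_le, abs_le]
      cases d
      · rw [mem_RE_false] at h1
        obtain ⟨u1, u2, u3, u4⟩ := h1
        simp only [src_mk]
        refine ⟨⟨?_, ?_⟩, ?_, ?_⟩ <;> linarith
      · rw [mem_RE_true] at h1
        obtain ⟨u1, u2, u3, u4⟩ := h1
        simp only [src_mk]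
        refine ⟨⟨?_, ?_⟩, ?_, ?_⟩ <;> linarith
    · unfold lv
      rw [max_le_iff, abs_le, abs_le]
      cases d
      · rw [mem_RE_false] at h1
        obtain ⟨u1, u2, u3, u4⟩ := h1
        simp only [tgt_false]
        refine ⟨⟨?_, ?_⟩, ?_, ?_⟩ <;> linarith
      · rw [mem_RE_true] at h1
        obtain ⟨u1, u2, u3, u4⟩ := h1
        simp only [tgt_true]
        refine ⟨⟨?_, ?_⟩, ?_, ?_⟩ <;> linarith
  · rintro ⟨⟨h1, h2⟩, h3, h4⟩
    unfold GeF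
    rw [Finset.mem_filter]
    refine ⟨?_, h1, h3⟩
    unfold lv at h2 h4
    rw [max_le_iff, abs_le, abs_le] at h2 h4
    cases d
    · simp only [src_mk, tgt_false] at h2 h4
      rw [mem_RE_false]
      refine ⟨?_, ?_, ?_, ?_⟩ <;> linarith [h2.1.1, h2.1.2, h2.2.1, h2.2.2, h4.1.1, h4.1.2, h4.2.1, h4.2.2]
    · simp only [src_mk, tgt_true] at h2 h4
      rw [mem_RE_true]
      refine ⟨?_, ?_, ?_, ?_⟩ <;> linarith [h2.1.1, h2.1.2, h2.2.1, h2.2.2, h4.1.1, h4.1.2, h4.2.1, h4.2.2]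

theorem sum_LS {A : Finset St} {c : Vtx} {a b : ℕ} {F : Set Edg} (h : LS c a b F ⊆ ↑A) :
    ∑ s ∈ A, ind (s ∈ LS c a b F) = ((NL c a b F : ℕ) : ℝ) := by
  classical
  have h1 : LS c a b F = ↑(A.filter (fun s => s ∈ LS c a b F)) := by
    ext s
    rw [Finset.mem_coe, Finset.mem_filter]
    exact ⟨fun hs => ⟨h hs, hs⟩, fun hs => hs.2⟩
  have h2 : NL c a b F = (A.filter (fun s => s ∈ LS c a b F)).card := by
    have h3 : NL c a b F = (LS c a b F).ncard := rfl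
    rw [h3]
    conv_lhs => rw [h1]
    exact Set.ncard_coe_finset _
  rw [h2, Finset.card_filter]
  push_cast
  refine Finset.sum_congr rfl fun s _ => ?_
  unfold ind
  split_ifs <;> rfl

/-! ### Norms -/

lemma lf_one (σ : St) : lf σ.1 (face σ) = 1 := by
  obtain ⟨⟨x, y⟩, q⟩ := σ
  cases q <;> simp only [face_ne, face_nw, face_sw, face_se, lf, abs_eq_max_neg] <;> omega

lemma lf_near {q : Vtx} {τ : St} {w : ℤ} (h : lv q τ.1 ≤ w) : lf q (face τ) ≤ 2 * w + 1 := by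
  have := Bas.cor q τ
  omega

lemma lf_le (c q f : Vtx) : lf c f ≤ 2 * lv c q + lf q f := by
  unfold lf lv
  simp only [abs_eq_max_neg]
  omega

lemma lf_ge (c q f : Vtx) : 2 * lv c q ≤ lf c f + lf q f := by
  unfold lf lv
  simp only [abs_eq_max_neg]
  omega

lemma lv_le (c q x : Vtx) : lv c x ≤ lv c q + lv q x := by
  unfold lv
  simp only [abs_eq_max_neg]
  omega

lemma lv_ge (c q x : Vtx) : lv c q ≤ lv c x + lv q x := by
  unfold lv
  simp only [abs_eq_max_neg]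
  omega

lemma lf_odd (c f : Vtx) (m : ℤ) : lf c f ≠ 2 * m := by
  unfold lf
  simp only [abs_eq_max_neg]
  omega

/-! ### Locality -/

lemma ge_dsrc {c : Vtx} {a b : ℕ} {e : Edg} (h : Af c a b (dsrc e)) : e ∈ Ge c a b := by
  obtain ⟨x, y, d⟩ := e
  unfold Af lf at h
  cases d
  · rw [dsrc_false] at h
    unfold Ge lv
    rw [Set.mem_ofPred_eq, src_mk, tgt_false]
    simp only [abs_eq_max_neg] at h ⊢
    omega
  · rw [dsrc_true] at h
    unfold Ge lv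
    rw [Set.mem_ofPred_eq, src_mk, tgt_true]
    simp only [abs_eq_max_neg] at h ⊢
    omega

lemma ge_dtgt {c : Vtx} {a b : ℕ} {e : Edg} (h : Af c a b (dtgt e)) : e ∈ Ge c a b := by
  obtain ⟨x, y, d⟩ := e
  unfold Af lf at h
  rw [dtgt_mk] at h
  cases d
  · unfold Ge lv
    rw [Set.mem_ofPred_eq, src_mk, tgt_false]
    simp only [abs_eq_max_neg] at h ⊢
    omega
  · unfold Ge lv
    rw [Set.mem_ofPred_eq, src_mk, tgt_true]
    simp only [abs_eq_max_neg] at h ⊢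
    omega

theorem oc_cg {c : Vtx} {a b K : ℕ} {F G : Set Edg}
    (h : F ∩ Ge c a b = G ∩ Ge c a b) (hF : OC c a b K F) : OC c a b K G := by
  unfold OC at hF ⊢
  rwa [← h]

theorem tin_cg {c : Vtx} {a b : ℕ} {F G : Set Edg} (h : ∀ e ∈ Ge c a b, (e ∈ F ↔ e ∈ G)) {f : Vtx}
    (hf : TIn c a b F f) : TIn c a b G f := by
  obtain ⟨h1, e, h2, h3⟩ := hf
  refine ⟨h1, e, fun hG => h2 ((h e ?_).2 hG), h3⟩
  rcases h3 with ⟨h4, -⟩ | ⟨h4, -⟩
  · exact ge_dsrc (by rw [h4]; exact h1)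
  · exact ge_dtgt (by rw [h4]; exact h1)

theorem tout_cg {c : Vtx} {a b : ℕ} {F G : Set Edg} (h : ∀ e ∈ Ge c a b, (e ∈ F ↔ e ∈ G)) {f : Vtx}
    (hf : TOut c a b F f) : TOut c a b G f := by
  obtain ⟨h1, e, h2, h3⟩ := hf
  refine ⟨h1, e, fun hG => h2 ((h e ?_).2 hG), h3⟩
  rcases h3 with ⟨h4, -⟩ | ⟨h4, -⟩
  · exact ge_dsrc (by rw [h4]; exact h1)
  · exact ge_dtgt (by rw [h4]; exact h1)

theorem dc_cg {c : Vtx} {a b K : ℕ} {F G : Set Edg}
    (h : F ∩ Ge c a b = G ∩ Ge c a b) (hF : DC c a b K F) : DC c a b K G := by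
  have h' : ∀ e ∈ Ge c a b, (e ∈ F ↔ e ∈ G) := by
    intro e he
    have h1 : e ∈ F ∩ Ge c a b ↔ e ∈ G ∩ Ge c a b := by rw [h]
    exact ⟨fun h2 => (h1.1 ⟨h2, he⟩).1, fun h2 => (h1.2 ⟨h2, he⟩).1⟩
  have hgd : Fᶜ ∩ Gd c a b = Gᶜ ∩ Gd c a b := by
    ext e
    constructor
    · rintro ⟨h1, h2⟩
      exact ⟨fun h3 => h1 ((h' e (ge_dsrc h2.1)).2 h3), h2⟩
    · rintro ⟨h1, h2⟩
      exact ⟨fun h3 => h1 ((h' e (ge_dsrc h2.1)).1 h3), h2⟩
  obtain ⟨f, hf, hf'⟩ := hF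
  refine ⟨f, fun i => ?_, fun i j hij => ?_⟩
  · obtain ⟨h1, g, h2, h3⟩ := hf i
    refine ⟨tin_cg h' h1, g, tout_cg h' h2, ?_⟩
    rwa [← hgd]
  · rw [← hgd]
    exact hf' i j hij

/-! ### The witness -/

/-- The face of `ρ` at the time `t` is near the vertex of `σ` at the time `s`. -/
def Nr (F : Set Edg) (c : Vtx) (u w : ℕ) (σ ρ : St) (T t s : ℕ) : Prop :=
  s ≤ T ∧ ((u : ℤ) ≤ lv c (orb F σ s).1 ∧ 8 * lv c (orb F σ s).1 < 9 * (u : ℤ)) ∧
    lf (orb F σ s).1 (face (orb F ρ t)) < 2 * (w : ℤ)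

/-- The crossing from `σ` and the interface from `ρ` up to the first time at which it is near. -/
structure Wt (F : Set Edg) (c : Vtx) (a b u w : ℕ) (σ ρ : St) (T t s : ℕ) (A : Finset Edg) :
    Prop where
  leg : InLeg F c a b σ T
  near : Nr F c u w σ ρ T t s
  ft : ∀ t' < t, ∀ s', ¬ Nr F c u w σ ρ T t' s'
  fs : ∀ s' < s, ¬ Nr F c u w σ ρ T t s'
  out : 2 * (b : ℤ) < lf c (face ρ)
  mid : ∀ t', 0 < t' → t' ≤ t → Af c a b (face (orb F ρ t'))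
  eq : A = Exm F σ T ∪ Exm F ρ t

section

variable {F F' G : Set Edg} {c : Vtx} {a b u w R : ℕ} {σ ρ : St} {T t s T' t' s' : ℕ}
  {A B : Finset Edg}

theorem Wt.uniq (hr : St_restr) (hab : a < b) (h : Wt F c a b u w σ ρ T t s A)
    (h' : Wt F c a b u w σ ρ T' t' s' B) : T' = T ∧ t' = t ∧ s' = s ∧ B = A := by
  have h1 : T' = T := (hr F c a b σ T hab h.leg).1 T' h'.leg
  subst h1
  have h2 : t' = t := by
    rcases lt_trichotomy t' t with h3 | h3 | h3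
    · exact absurd h'.near (h.ft t' h3 s')
    · exact h3
    · exact absurd h.near (h'.ft t h3 s)
  subst h2
  have h3 : s' = s := by
    rcases lt_trichotomy s' s with h4 | h4 | h4
    · exact absurd h'.near (h.fs s' h4)
    · exact h4
    · exact absurd h.near (h'.fs s h4)
  refine ⟨rfl, rfl, h3, ?_⟩
  rw [h.eq, h'.eq]

theorem exm_cg (h : ∀ i ≤ T, orb F' σ i = orb F σ i) : Exm F' σ T = Exm F σ T := by
  ext e
  rw [mem_Exm, mem_Exm]
  constructor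
  · rintro ⟨i, hi, he⟩
    rw [h i hi.le] at he
    exact ⟨i, hi, he⟩
  · rintro ⟨i, hi, he⟩
    rw [← h i hi.le] at he
    exact ⟨i, hi, he⟩

theorem orb_cg (h : ∀ e ∈ Exm F σ T, (e ∈ F ↔ e ∈ F')) : ∀ i ≤ T, orb F' σ i = orb F σ i :=
  congr F F' σ T fun i hi => h _ (mem_Exm.2 ⟨i, hi, rfl⟩)

theorem Wt.cg (h : Wt F c a b u w σ ρ T t s A) (hA : ∀ e ∈ A, (e ∈ F ↔ e ∈ F')) :
    Wt F' c a b u w σ ρ T t s A ∧ (orb F' σ s).1 = (orb F σ s).1 := by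
  have e1 : ∀ i ≤ T, orb F' σ i = orb F σ i :=
    orb_cg fun e he => hA e (by rw [h.eq]; exact Finset.mem_union_left _ he)
  have e2 : ∀ i ≤ t, orb F' ρ i = orb F ρ i :=
    orb_cg fun e he => hA e (by rw [h.eq]; exact Finset.mem_union_right _ he)
  have hN : ∀ t' ≤ t, ∀ s', Nr F' c u w σ ρ T t' s' ↔ Nr F c u w σ ρ T t' s' := by
    intro t' ht' s'
    constructor
    · rintro ⟨h1, h2, h3⟩
      rw [e1 s' h1] at h2 h3
      rw [e2 t' ht'] at h3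
      exact ⟨h1, h2, h3⟩
    · rintro ⟨h1, h2, h3⟩
      rw [← e1 s' h1] at h2 h3
      rw [← e2 t' ht'] at h3
      exact ⟨h1, h2, h3⟩
  refine ⟨⟨⟨h.leg.pos, h.leg.st, fun i hi hi' => ?_, ?_⟩, (hN t le_rfl s).2 h.near,
    fun t' ht' s' hn => h.ft t' ht' s' ((hN t' ht'.le s').1 hn),
    fun s' hs' hn => h.fs s' hs' ((hN t le_rfl s').1 hn), h.out, fun t' h1 h2 => ?_, ?_⟩, ?_⟩
  · rw [e1 i hi'.le]
    exact h.leg.mid i hi hi'
  · rw [e1 T le_rfl]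
    exact h.leg.en
  · rw [e2 t' h2]
    exact h.mid t' h1 h2
  · rw [exm_cg e1, exm_cg e2]
    exact h.eq
  · rw [e1 s h.near.1]

theorem near_out (hn : Nr F c u w σ ρ T t s) (ha : 2 * a ≤ u) (h8 : 8 * (w + 1) ≤ u)
    (hu : 1 ≤ u) (m : ℕ) (hm : 9 * u + 8 * w ≤ 8 * m) :
    2 * (a : ℤ) < lf c (face (orb F ρ t)) ∧ lf c (face (orb F ρ t)) < 2 * (m : ℤ) := by
  obtain ⟨-, ⟨h1, h2⟩, h3⟩ := hn
  have h4 := lf_le c (orb F σ s).1 (face (orb F ρ t))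
  have h5 := lf_ge c (orb F σ s).1 (face (orb F ρ t))
  have ha' : 2 * (a : ℤ) ≤ u := by exact_mod_cast ha
  have hm' : 9 * (u : ℤ) + 8 * w ≤ 8 * m := by exact_mod_cast hm
  have h8' : 8 * ((w : ℤ) + 1) ≤ u := by exact_mod_cast h8
  constructor <;> omega

theorem Wt.sub (hB : St_basic) (hab : a < b) (h : Wt F c a b u w σ ρ T t s A) (ht : 0 < t) :
    A ⊆ GeF c a b := by
  intro e he
  rw [h.eq, Finset.mem_union, mem_Exm, mem_Exm] at he
  rw [mem_GeF]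
  rcases he with ⟨i, hi, rfl⟩ | ⟨i, hi, rfl⟩
  · exact (hB F c a b σ T hab h.leg).2.2.2.1 i hi
  · rcases Nat.eq_zero_or_pos i with h0 | h0
    · subst h0
      have h1 := h.mid 1 one_pos ht
      have e1 : orb F ρ 1 = nxt F ρ := rfl
      rw [e1] at h1
      by_cases hF : ae ρ ∈ F
      · exfalso
        rw [nxt_open hF, p2_face_mv] at h1
        have h2 := h.out
        have h3 := h1.2
        omega
      · rw [nxt_closed hF] at h1
        exact Bas.ge_of_rt h1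
    · exact Bas.ge_of_face (h.mid i h0 hi.le)

theorem Wt.tpos (h : Wt F c a b u w σ ρ T t s A) (ha : 2 * a ≤ u) (h8 : 8 * (w + 1) ≤ u)
    (hu : 1 ≤ u) (hb : 9 * u + 8 * w ≤ 8 * b) : 0 < t := by
  rcases Nat.eq_zero_or_pos t with h0 | h0
  · exfalso
    have h1 := h.near
    rw [h0] at h1
    have h2 := (near_out (a := a) h1 ha h8 hu b hb).2
    have h3 := h.out
    rw [orb_zero] at h2
    omega
  · exact h0

theorem Wt.mem1 (hr : St_restr) (h : Wt F c a b u w σ ρ T t s A) (m : ℕ) (ham : a ≤ m)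
    (hmb : m < b) : σ ∈ LS c m b F := by
  obtain ⟨T', -, h'⟩ := (hr F c a b σ T (by omega) h.leg).2.1 m ham hmb
  exact ⟨T', h'⟩

theorem Wt.mem2 (h : Wt F c a b u w σ ρ T t s A) (ha : 2 * a ≤ u) (h8 : 8 * (w + 1) ≤ u)
    (hu : 1 ≤ u) (m : ℕ) (hm : 9 * u + 8 * w ≤ 8 * m) (hmb : m < b) : ρ ∈ LS c m b F := by
  classical
  have h1 : ∃ i, lf c (face (orb F ρ i)) < 2 * (m : ℤ) := ⟨t, (near_out (a := a) h.near ha h8 hu m hm).2⟩
  have h2 := Nat.find_spec h1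
  have h3 : Nat.find h1 ≤ t := Nat.find_min' h1 (near_out (a := a) h.near ha h8 hu m hm).2
  have h4 : ∀ i < Nat.find h1, ¬ lf c (face (orb F ρ i)) < 2 * (m : ℤ) := fun i hi => Nat.find_min h1 hi
  obtain ⟨n, hn⟩ : ∃ n, n = Nat.find h1 := ⟨_, rfl⟩
  rw [← hn] at h2 h3 h4
  have hmb' : (m : ℤ) < b := by exact_mod_cast hmb
  refine ⟨n, ⟨?_, h.out, fun i hi hi' => ⟨?_, (h.mid i hi (hi'.le.trans h3)).2⟩, h2⟩⟩
  · rcases Nat.eq_zero_or_pos n with h0 | h0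
    · exfalso
      rw [h0, orb_zero] at h2
      have h5 := h.out
      omega
    · exact h0
  · have h5 := h4 i hi'
    have h6 := lf_odd c (face (orb F ρ i)) m
    omega

/-- the edges around a vertex of the crossing -/
theorem ge_sub {q : Vtx} (h1 : (a : ℤ) + R < lv c q) (h2 : lv c q + R < b) : Ge q w R ⊆ Ge c a b := by
  rintro e ⟨⟨-, h3⟩, -, h4⟩
  have k1 := lv_le c q (src e)
  have k2 := lv_ge c q (src e)
  have k3 := lv_le c q (tgt e)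
  have k4 := lv_ge c q (tgt e)
  refine ⟨⟨?_, ?_⟩, ?_, ?_⟩ <;> omega

end

/-- The event in the fresh configuration. -/
def Qv (c : Vtx) (a b u w R : ℕ) (σ ρ : St) (F : Set Edg) (A : Finset Edg) (G : Set Edg) : Prop :=
  ∃ T t s, Wt F c a b u w σ ρ T t s A ∧ (OC (orb F σ s).1 w R 1 G ∨ DC (orb F σ s).1 w R 1 G)

/-- The explored edges. -/
def Wv (c : Vtx) (a b u w : ℕ) (σ ρ : St) (F : Set Edg) (A : Finset Edg) : Prop :=
  ∃ T t s, Wt F c a b u w σ ρ T t s A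

/-- The approach gives the event in all configurations which agree off the explored edges. -/
theorem key (hr : St_restr) (hFR : St_FR) {F : Set Edg} {c : Vtx} {a b u w w' R : ℕ} (ha1 : 1 ≤ a)
    (hab : a < b) (ha : 2 * a ≤ u) (hw1 : 1 ≤ w) (hw : w' = w + 2) (hR : w' < R) (hR4 : 4 * R ≤ u)
    (h8 : 8 * (w' + 1) ≤ u) (hb : 4 * u ≤ b) (h : App F c a b u w) :
    ∃ p : St × St, (p.1 ∈ LS c a b F ∧ p.2 ∈ LS c a b F) ∧ ∃ A, Wv c a b u w' p.1 p.2 F A ∧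
      ∀ G : Set Edg, (∀ e, e ∉ A → (e ∈ F ↔ e ∈ G)) → Qv c a b u w' R p.1 p.2 F A G := by
  classical
  obtain ⟨σ, T, ρ, T', s, t, hσ, hρ, hne, hs, ht, h1, h2, h3⟩ := h
  have hab' : (a : ℤ) < b := by exact_mod_cast hab
  have hb' : 4 * (u : ℤ) ≤ b := by exact_mod_cast hb
  have ha' : 2 * (a : ℤ) ≤ u := by exact_mod_cast ha
  have hw'' : (w' : ℤ) = w + 2 := by exact_mod_cast hw
  have hR4' : 4 * (R : ℤ) ≤ u := by exact_mod_cast hR4
  have hu : 1 ≤ u := by omega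
  have hn0 : Nr F c u w' σ ρ T t s := by
    refine ⟨hs, ⟨h1, h2⟩, ?_⟩
    have := lf_near h3
    omega
  have hex : ∃ t, ∃ s, Nr F c u w' σ ρ T t s := ⟨t, s, hn0⟩
  obtain ⟨t0, ht0⟩ : ∃ n, n = Nat.find hex := ⟨_, rfl⟩
  have k1 : ∃ s, Nr F c u w' σ ρ T t0 s := by rw [ht0]; exact Nat.find_spec hex
  have k2 : ∀ i < t0, ∀ s', ¬ Nr F c u w' σ ρ T i s' := by
    intro i hi s' hcon
    rw [ht0] at hi
    exact Nat.find_min hex hi ⟨s', hcon⟩
  have k3 : t0 ≤ t := by rw [ht0]; exact Nat.find_min' hex ⟨s, hn0⟩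
  obtain ⟨s0, hs0⟩ : ∃ n, n = Nat.find k1 := ⟨_, rfl⟩
  have k4 : Nr F c u w' σ ρ T t0 s0 := by rw [hs0]; exact Nat.find_spec k1
  have k5 : ∀ i < s0, ¬ Nr F c u w' σ ρ T t0 i := by
    intro i hi hcon
    rw [hs0] at hi
    exact Nat.find_min k1 hi hcon
  have hb9 : 9 * u + 8 * w' ≤ 8 * b := by omega
  have k6 := near_out (a := a) k4 ha h8 hu b hb9
  have hW : Wt F c a b u w' σ ρ T t0 s0 (Exm F σ T ∪ Exm F ρ t0) := by
    refine ⟨hσ, k4, k2, k5, hρ.st, fun i hi hi' => ?_, rfl⟩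
    rcases lt_or_eq_of_le hi' with h4 | h4
    · exact hρ.mid i hi (lt_of_lt_of_le h4 (k3.trans ht))
    · rw [h4]
      exact k6
  refine ⟨(σ, ρ), ⟨⟨T, hσ⟩, ⟨T', hρ⟩⟩, _, ⟨T, t0, s0, hW⟩, fun G hG => ⟨T, t0, s0, hW, ?_⟩⟩
  obtain ⟨m1, ⟨m2, m3⟩, m4⟩ := k4
  refine hFR F G c (orb F σ s0).1 a b w' R σ ρ T T' t0 ha1 hab (by omega) hR ?_ ?_ hσ hρ hne
    ⟨s0, m1, ?_⟩ (k3.trans ht) m4 ?_ ?_
  · omega
  · omega
  · rw [lf_one]
    omega
  · intro i hi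
    have h4 : ¬ lf (orb F σ s0).1 (face (orb F ρ i)) < 2 * (w' : ℤ) := fun hcon =>
      k2 i hi s0 ⟨m1, ⟨m2, m3⟩, hcon⟩
    have h5 := lf_odd (orb F σ s0).1 (face (orb F ρ i)) w'
    omega
  · intro e _ h4 h5
    refine hG e fun hcon => ?_
    rcases Finset.mem_union.1 hcon with h6 | h6
    · exact h4 h6
    · exact h5 h6

/-- The bound for one pair of starting states. -/
theorem pairB (hB : St_basic) (hr : St_restr) (hG : St_GLW) {C1 κ : ℝ}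
    (hC1 : 0 < C1)
    (h1 : ∀ (c : Vtx) (a b : ℕ) (S : Finset Edg), 1 ≤ a → a < b → GeF c a b ⊆ S →
      Pr (fun _ => (1/2 : ℝ)) S (fun F => OC c a b 1 (↑F : Set Edg)) ≤ C1 * ((a : ℝ) / b) ^ κ ∧
      Pr (fun _ => (1/2 : ℝ)) S (fun F => DC c a b 1 (↑F : Set Edg)) ≤ C1 * ((a : ℝ) / b) ^ κ)
    {c : Vtx} {a b u w R : ℕ} {S : Finset Edg} (hab : a < b) (ha : 2 * a ≤ u) (hw1 : 1 ≤ w)
    (hR : w < R) (hR4 : 4 * R ≤ u) (h8 : 8 * (w + 1) ≤ u) (hb : 4 * u ≤ b) (hS : GeF c a b ⊆ S)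
    (σ ρ : St) :
    Pr (fun _ => (1/2 : ℝ)) ((Finset.univ : Finset (Fin 2)) ×ˢ S)
      (fun F => ∃ A, Wv c a b u w σ ρ (sl F 0) A ∧
        Qv c a b u w R σ ρ (sl F 0) A (gl (sl F 0) (sl F 1) A)) ≤
    2 * (C1 * ((w : ℝ) / R) ^ κ) *
      Pr (fun _ => (1/2 : ℝ)) S (fun F => ∃ A, Wv c a b u w σ ρ (↑F : Set Edg) A) := by
  have hu : 1 ≤ u := by omega
  have hb9 : 9 * u + 8 * w ≤ 8 * b := by omega
  have hb' : 4 * (u : ℤ) ≤ b := by exact_mod_cast hb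
  have ha' : 2 * (a : ℤ) ≤ u := by exact_mod_cast ha
  have hR4' : 4 * (R : ℤ) ≤ u := by exact_mod_cast hR4
  have hwR : ∀ {F : Set Edg} {T t s : ℕ} {A : Finset Edg}, Wt F c a b u w σ ρ T t s A →
      (a : ℤ) + R < lv c (orb F σ s).1 ∧ lv c (orb F σ s).1 + R < b := by
    intro F T t s A h
    obtain ⟨-, ⟨m2, m3⟩, -⟩ := h.near
    constructor <;> omega
  have hgs : ∀ {F : Set Edg} {T t s : ℕ} {A : Finset Edg}, Wt F c a b u w σ ρ T t s A →
      ∀ e ∈ Ge (orb F σ s).1 w R, e ∈ S := by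
    intro F T t s A h e he
    exact hS (mem_GeF.2 (ge_sub (hwR h).1 (hwR h).2 he))
  refine (hG S (Wv c a b u w σ ρ) (Qv c a b u w R σ ρ) (2 * (C1 * ((w : ℝ) / R) ^ κ))
    (by positivity) ?_ ?_ ?_ ?_ ?_).1 ?_
  · rintro F A ⟨T, t, s, h⟩
    exact (h.sub hB hab (h.tpos ha h8 hu hb9)).trans hS
  · rintro F G A ⟨T, t, s, h⟩ hA
    exact ⟨T, t, s, (h.cg hA).1⟩
  · rintro F A B ⟨T, t, s, h⟩ ⟨T', t', s', h'⟩
    exact (h.uniq hr hab h').2.2.2.symm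
  · rintro F F' A G hA ⟨T, t, s, h, h2⟩
    obtain ⟨h3, h4⟩ := h.cg hA
    refine ⟨T, t, s, h3, ?_⟩
    rw [h4]
    exact h2
  · rintro F A G G' hGG ⟨T, t, s, h, h2⟩
    have e1 : G ∩ Ge (orb F σ s).1 w R = G' ∩ Ge (orb F σ s).1 w R := by
      ext e
      constructor
      · rintro ⟨h3, h4⟩
        have h5 : e ∈ G ∩ ↑S := ⟨h3, hgs h e h4⟩
        rw [hGG] at h5
        exact ⟨h5.1, h4⟩
      · rintro ⟨h3, h4⟩
        have h5 : e ∈ G' ∩ ↑S := ⟨h3, hgs h e h4⟩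
        rw [← hGG] at h5
        exact ⟨h5.1, h4⟩
    refine ⟨T, t, s, h, ?_⟩
    rcases h2 with h2 | h2
    · exact Or.inl (oc_cg e1 h2)
    · exact Or.inr (dc_cg e1 h2)
  · rintro F A ⟨T, t, s, h⟩
    have h2 : Pr (fun _ => (1/2 : ℝ)) S (fun G => Qv c a b u w R σ ρ F A (↑G : Set Edg)) ≤
        Pr (fun _ => (1/2 : ℝ)) S (fun G => OC (orb F σ s).1 w R 1 (↑G : Set Edg) ∨
          DC (orb F σ s).1 w R 1 (↑G : Set Edg)) := by
      refine Pr_mono ok fun G _ => ?_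
      rintro ⟨T', t', s', h', h3⟩
      obtain ⟨-, -, h4, -⟩ := h.uniq hr hab h'
      rw [h4] at h3
      exact h3
    have h3 := h1 (orb F σ s).1 w R S hw1 hR (fun e he => hgs h e (mem_GeF.1 he))
    calc _ ≤ _ := h2
      _ ≤ _ := Pr_or_le ok S _ _
      _ ≤ C1 * ((w : ℝ) / R) ^ κ + C1 * ((w : ℝ) / R) ^ κ := add_le_add h3.1 h3.2
      _ = _ := by ring

end X9

open X9

/-- **Two crossings are rarely near each other.** -/
theorem app (hB : St_basic) (hr : St_restr) (hf : St_fin) (hl : St_loc) (hn3 : St_N3) (hm : St_Mom)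
    (hFR : St_FR) (hG : St_GLW) (h1 : St_RS1) : St_APP := by
  classical
  obtain ⟨C1, κ, hC1, hκ, hκ1, h1⟩ := h1
  obtain ⟨C2, hC2, hm⟩ := hm 2
  refine ⟨48 * C1 * C2 + 1000, κ, by positivity, hκ, hκ1, fun c a b u w S ha1 ha hb hw1 hS => ?_⟩
  have hu0 : 0 < u := by omega
  have huR : (0 : ℝ) < u := by exact_mod_cast hu0
  have hwR : (0 : ℝ) < w := by exact_mod_cast (by omega : 0 < w)
  have hpos : 0 ≤ ((w : ℝ) / u) ^ κ := by positivity
  rcases Nat.lt_or_ge u (1000 * w) with hlt | hge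
  · -- the trivial case
    have h2 : (1 : ℝ) / 1000 ≤ (w : ℝ) / u := by
      rw [div_le_div_iff₀ (by norm_num) huR]
      have : (u : ℝ) ≤ 1000 * w := by exact_mod_cast hlt.le
      linarith
    have h3 : (1 : ℝ) / 1000 ≤ ((w : ℝ) / u) ^ κ := by
      calc (1 : ℝ) / 1000 = (1 / 1000 : ℝ) ^ (1 : ℝ) := (Real.rpow_one _).symm
        _ ≤ (1 / 1000 : ℝ) ^ κ := Real.rpow_le_rpow_of_exponent_ge (by norm_num) (by norm_num) hκ1
        _ ≤ _ := Real.rpow_le_rpow (by norm_num) h2 hκ.le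
    refine (Pr_le_one ok S _).trans ?_
    have h4 : 0 ≤ 48 * C1 * C2 * ((w : ℝ) / u) ^ κ := by positivity
    nlinarith
  · obtain ⟨w', hw'⟩ : ∃ w', w' = w + 2 := ⟨_, rfl⟩
    obtain ⟨R, hR⟩ : ∃ R, R = u / 4 := ⟨_, rfl⟩
    obtain ⟨m, hmd⟩ : ∃ m, m = 5 * u / 4 := ⟨_, rfl⟩
    have hab : a < b := by omega
    have q1 : w' < R := by omega
    have q2 : 4 * R ≤ u := by omega
    have q3 : 8 * (w' + 1) ≤ u := by omega
    have q4 : 9 * u + 8 * w' ≤ 8 * m := by omega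
    have q5 : m < b := by omega
    have q6 : a ≤ m := by omega
    have q7 : 3 * m ≤ b := by omega
    obtain ⟨A0, hA0⟩ := hf c b
    obtain ⟨p, hp⟩ : ∃ p : ℝ, p = 2 * (C1 * ((w' : ℝ) / R) ^ κ) := ⟨_, rfl⟩
    have hp0 : 0 ≤ p := by rw [hp]; positivity
    -- the probability is a sum over the starting states
    have s1 : Pr (fun _ => (1/2 : ℝ)) S (fun F => App (↑F : Set Edg) c a b u w) =
        Pr (fun _ => (1/2 : ℝ)) ((Finset.univ : Finset (Fin 2)) ×ˢ S)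
          (fun F => App (sl F 0) c a b u w) :=
      (Ex_slice (m := 2) 0 S (fun F => ind (App F c a b u w))).symm
    have s2 : Pr (fun _ => (1/2 : ℝ)) ((Finset.univ : Finset (Fin 2)) ×ˢ S)
          (fun F => App (sl F 0) c a b u w) ≤
        ∑ x ∈ A0 ×ˢ A0, Pr (fun _ => (1/2 : ℝ)) ((Finset.univ : Finset (Fin 2)) ×ˢ S)
          (fun F => ∃ A, Wv c a b u w' x.1 x.2 (sl F 0) A ∧
            Qv c a b u w' R x.1 x.2 (sl F 0) A (gl (sl F 0) (sl F 1) A)) := by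
      unfold Pr
      rw [← Ex_sum]
      refine Ex_mono ok fun F _ => ?_
      by_cases hA : App (sl F 0) c a b u w
      · obtain ⟨x, ⟨hx1, hx2⟩, A, hx3, hx4⟩ := key hr hFR ha1 hab ha hw1 hw' q1 q2 q3 hb hA
        have hx : x ∈ A0 ×ˢ A0 := Finset.mem_product.2
          ⟨Finset.mem_coe.1 (hA0 _ a hab hx1), Finset.mem_coe.1 (hA0 _ a hab hx2)⟩
        have hE : ∃ A, Wv c a b u w' x.1 x.2 (sl F 0) A ∧
            Qv c a b u w' R x.1 x.2 (sl F 0) A (gl (sl F 0) (sl F 1) A) := by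
          refine ⟨A, hx3, hx4 _ fun e he => ?_⟩
          unfold gl
          rw [Set.mem_ofPred_eq]
          tauto
        rw [ind_of hA, ← ind_of hE]
        exact Finset.single_le_sum (f := fun x : St × St => ind (∃ A, Wv c a b u w' x.1 x.2 (sl F 0) A ∧
            Qv c a b u w' R x.1 x.2 (sl F 0) A (gl (sl F 0) (sl F 1) A)))
          (fun _ _ => ind_nonneg _) hx
      · rw [ind_not_of hA]
        exact Finset.sum_nonneg fun _ _ => ind_nonneg _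
    have s3 : ∀ x : St × St, Pr (fun _ => (1/2 : ℝ)) ((Finset.univ : Finset (Fin 2)) ×ˢ S)
          (fun F => ∃ A, Wv c a b u w' x.1 x.2 (sl F 0) A ∧
            Qv c a b u w' R x.1 x.2 (sl F 0) A (gl (sl F 0) (sl F 1) A)) ≤
        p * Ex (fun _ => (1/2 : ℝ)) S (fun F => ind (x.1 ∈ LS c m b (↑F : Set Edg)) *
          ind (x.2 ∈ LS c m b (↑F : Set Edg))) := by
      intro x
      refine (pairB hB hr hG hC1 h1 hab ha (by omega) q1 q2 q3 hb hS x.1 x.2).trans ?_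
      rw [← hp]
      refine mul_le_mul_of_nonneg_left ?_ hp0
      unfold Pr
      refine Ex_mono ok fun F _ => ?_
      rw [← ind_and]
      refine ind_mono ?_
      rintro ⟨A, T, t, s, h⟩
      exact ⟨h.mem1 hr m q6 q5, h.mem2 ha q3 hu0 m q4 q5⟩
    have s4 : ∑ x ∈ A0 ×ˢ A0, p * Ex (fun _ => (1/2 : ℝ)) S
          (fun F => ind (x.1 ∈ LS c m b (↑F : Set Edg)) * ind (x.2 ∈ LS c m b (↑F : Set Edg))) =
        p * Ex (fun _ => (1/2 : ℝ)) S (fun F => ((NL c m b (↑F : Set Edg) : ℕ) : ℝ) ^ 2) := by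
      rw [← Finset.mul_sum, ← Ex_sum]
      congr 1
      refine Ex_congr fun F _ => ?_
      rw [Finset.sum_product, sq, ← sum_LS (hA0 (↑F : Set Edg) m q5), Finset.sum_mul_sum]
    have s5 : Ex (fun _ => (1/2 : ℝ)) S (fun F => ((NL c m b (↑F : Set Edg) : ℕ) : ℝ) ^ 2) ≤ C2 := by
      refine hm c m b S (by omega) q7 (fun e he => hS ?_)
      rw [mem_GeF] at he ⊢
      obtain ⟨⟨h2, h3⟩, h4, h5⟩ := he
      have h6 : (a : ℤ) ≤ m := by exact_mod_cast q6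
      exact ⟨⟨h6.trans h2, h3⟩, h6.trans h4, h5⟩
    have s6 : p ≤ 48 * C1 * ((w : ℝ) / u) ^ κ := by
      have hR0 : (0 : ℝ) < R := by exact_mod_cast (by omega : 0 < R)
      have h2 : (w' : ℝ) / R ≤ 24 * ((w : ℝ) / u) := by
        rw [mul_div_assoc', div_le_div_iff₀ hR0 huR]
        have h3 : (w' : ℝ) ≤ 3 * w := by exact_mod_cast (by omega : w' ≤ 3 * w)
        have h4 : (u : ℝ) ≤ 8 * R := by exact_mod_cast (by omega : u ≤ 8 * R)
        nlinarith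
      have h3 : ((w' : ℝ) / R) ^ κ ≤ 24 * ((w : ℝ) / u) ^ κ := by
        calc ((w' : ℝ) / R) ^ κ ≤ (24 * ((w : ℝ) / u)) ^ κ :=
              Real.rpow_le_rpow (by positivity) h2 hκ.le
          _ = (24 : ℝ) ^ κ * ((w : ℝ) / u) ^ κ := Real.mul_rpow (by norm_num) (by positivity)
          _ ≤ 24 * ((w : ℝ) / u) ^ κ := by
              refine mul_le_mul_of_nonneg_right ?_ hpos
              calc (24 : ℝ) ^ κ ≤ (24 : ℝ) ^ (1 : ℝ) :=
                    Real.rpow_le_rpow_of_exponent_le (by norm_num) hκ1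
                _ = 24 := Real.rpow_one _
      rw [hp]
      nlinarith
    calc Pr (fun _ => (1/2 : ℝ)) S (fun F => App (↑F : Set Edg) c a b u w)
        ≤ ∑ x ∈ A0 ×ˢ A0, Pr (fun _ => (1/2 : ℝ)) ((Finset.univ : Finset (Fin 2)) ×ˢ S)
          (fun F => ∃ A, Wv c a b u w' x.1 x.2 (sl F 0) A ∧
            Qv c a b u w' R x.1 x.2 (sl F 0) A (gl (sl F 0) (sl F 1) A)) := by rw [s1]; exact s2
      _ ≤ ∑ x ∈ A0 ×ˢ A0, p * Ex (fun _ => (1/2 : ℝ)) S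
          (fun F => ind (x.1 ∈ LS c m b (↑F : Set Edg)) * ind (x.2 ∈ LS c m b (↑F : Set Edg))) :=
          Finset.sum_le_sum fun x _ => s3 x
      _ = p * Ex (fun _ => (1/2 : ℝ)) S (fun F => ((NL c m b (↑F : Set Edg) : ℕ) : ℝ) ^ 2) := s4
      _ ≤ p * C2 := mul_le_mul_of_nonneg_left s5 hp0
      _ ≤ (48 * C1 * ((w : ℝ) / u) ^ κ) * C2 := mul_le_mul_of_nonneg_right s6 hC2.le
      _ ≤ _ := by nlinarith

end Pool.Agent.N948.IX
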