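import Pool.Agent.N948.IX.Fin2
import Pool.Agent.N948.IX.X1
import Pool.Agent.N948.IX.X2
import Pool.Agent.N948.IX.X3
import Pool.Agent.N948.IX.X4
import Pool.Agent.N948.IX.X5
import Pool.Agent.N948.IX.X6
import Pool.Agent.N948.IX.X7
import Pool.Agent.N948.IX.X8
import Pool.Agent.N948.IX.X9
import Pool.Agent.N948.IX.X10b
import Pool.Agent.N948.IX.X11
import Pool.Agent.N948.IX.X12
import Pool.Agent.N948.IX.X13
import Pool.Agent.N948.IX.X15
import Pool.Agent.N948.IX.X16
import Pool.Agent.N948.IX.X17
import Pool.Agent.N948.IX.X18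
import Pool.Agent.N948.IX.X21
import Pool.Agent.N948.IX.X22
import Pool.Agent.N948.IX.X23
import Pool.Agent.N948.IX.X24
import Pool.Agent.N948.IX.X25
import Pool.Agent.H985R3.TA.STA
import Pool.Agent.W598.DPplow
import Pool.Agent.W571.DParms

/-!
# Project XD (helper948): assembly
-/

set_option autoImplicit false

namespace Pool.Agent.N948.IX

theorem ht3 : St_T3 := t3 basic oBasic restr oRestr hn1o hn1d (N2.n2o congr basic connO connI)
  oN1o hE
theorem hl1a : St_L1a := l1a basic oBasic oN2o oN1d ht3
theorem hl1b : St_L1b := l1b basic oBasic oN2d oN1o ht3 hE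
theorem hl1 : St_L1 := l1 basic restr oBasic oRestr oN1o ht3 hl1a hl1b
theorem hfr : St_FR := fr basic oBasic restr hn3 lkOut
theorem hnl3 : St_NL3 := nl3 basic restr cnt'
theorem hann : X6.St_Ann := by
  obtain ⟨C, hC, h⟩ := H985T.st_A
  exact ⟨C, hC, fun r R hr hR c1 c2 S => h r R hr hR c1 c2 S⟩
theorem hu32 : St_U32 := u32 basic restr fin loc cnt hn3 hps hupE2 hmom hann
theorem happ : St_APP := app basic restr fin loc hn3 hmom hfr glw rs1
theorem hsept2 : St_SEPT2 := sept2 basic restr loc cnt cnt' oct htl hf2 hu32 hnl3 happ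
theorem hflux : St_FLUX := flux restr
theorem hhito : St_HITo := hito basic oBasic restr oRestr lkOut hflux
theorem hhitd : St_HITd := hitd basic oBasic restr oRestr lkOut hflux
theorem hlt : St_LT := lt hflux basic hn1o hn1d (N2.n2o congr basic connO connI) hE lkOut restr
theorem hland : St_LAND := land Pool.Agent.W598.DP.plow Pool.Agent.W571.DParms.arms hlt hu32 hf2 loc
theorem hpii : St_PII := pii basic restr cnt' gps hland hsept2
theorem hshq : St_SHQ := shq basic restr fin
theorem hpio : St_PIO := pio basic oBasic restr oRestr fin gps shl hshq hpii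
theorem hone5 (hC : St_COR) : St_ONE5 :=
  one5 basic oBasic restr oRestr hmom hsh1 shl hioUp glw hC hpio
theorem htwo5 : St_TWO5 := two5 basic restr hioUp
theorem hgood5 (hC : St_COR) : St_GOOD5 := good5 (hone5 hC) htwo5
theorem hind5 : St_IND5 := ind5 basic oBasic

end Pool.Agent.N948.IX
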