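import Pool.Agent.N948.IX.Ex0
import Pool.Agent.W52.DPOne

/-!
# Project XD (helper948): the corridors and the two circuits (proof of `St_COR`)
-/

set_option autoImplicit false

namespace Pool.Agent.N948.IX.X14

open H974 H12S Finset H984P H342P
open Pool.Agent.W92.DP (core4 SA HA DTB DLR)
open Pool.Agent.W52.DPInd Pool.Agent.W52.DPOne
open H973 (dlt dlt_pos rswL)

/-! ### Increasing and decreasing events -/

def Inc (A : Finset Edg → Prop) : Prop := ∀ F G : Finset Edg, F ⊆ G → A F → A G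

def Dec (A : Finset Edg → Prop) : Prop := ∀ F G : Finset Edg, F ⊆ G → A G → A F

theorem Inc.and {A B : Finset Edg → Prop} (hA : Inc A) (hB : Inc B) :
    Inc (fun F => A F ∧ B F) := fun F G h hF => ⟨hA F G h hF.1, hB F G h hF.2⟩

theorem Dec.and {A B : Finset Edg → Prop} (hA : Dec A) (hB : Dec B) :
    Dec (fun F => A F ∧ B F) := fun F G h hF => ⟨hA F G h hF.1, hB F G h hF.2⟩

theorem har_i {S : Finset Edg} {A B : Finset Edg → Prop} (hA : Inc A) (hB : Inc B) {x y : ℝ}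
    (hx0 : 0 ≤ x) (hy0 : 0 ≤ y) (hx : x ≤ PQ (1/2) S A) (hy : y ≤ PQ (1/2) S B) :
    x * y ≤ PQ (1/2) S (fun F => A F ∧ B F) := by
  have h : PQ (1/2) S A * PQ (1/2) S B ≤ PQ (1/2) S (fun F => A F ∧ B F) :=
    Pr_harris H973.okhalf (fun F G h _ hF => hA F G h hF) (fun F G h _ hF => hB F G h hF)
  exact (mul_le_mul hx hy hy0 (hx0.trans hx)).trans h

theorem har_d {S : Finset Edg} {A B : Finset Edg → Prop} (hA : Dec A) (hB : Dec B) {x y : ℝ}
    (hx0 : 0 ≤ x) (hy0 : 0 ≤ y) (hx : x ≤ PQ (1/2) S A) (hy : y ≤ PQ (1/2) S B) :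
    x * y ≤ PQ (1/2) S (fun F => A F ∧ B F) := by
  have h : (1 - PQ (1/2) S (fun F => ¬ A F)) * (1 - PQ (1/2) S (fun F => ¬ B F)) ≤
      PQ (1/2) S (fun F => ¬ ¬ A F ∧ ¬ ¬ B F) :=
    Pr_harris_dd H973.okhalf (fun F G h _ hF hG => hF (hA F G h hG))
      (fun F G h _ hF hG => hF (hB F G h hG))
  have e1 : PQ (1/2) S (fun F => ¬ A F) = 1 - PQ (1/2) S A := Pr_not _ _
  have e2 : PQ (1/2) S (fun F => ¬ B F) = 1 - PQ (1/2) S B := Pr_not _ _
  have e3 : PQ (1/2) S (fun F => ¬ ¬ A F ∧ ¬ ¬ B F) = PQ (1/2) S (fun F => A F ∧ B F) := by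
    apply Pr_congr
    intro F _
    rw [not_not, not_not]
  rw [e1, e2, e3, sub_sub_cancel, sub_sub_cancel] at h
  exact (mul_le_mul hx hy hy0 (hx0.trans hx)).trans h

theorem pr_one {S : Finset Edg} {e : Edg} (he : e ∈ S) : PQ (1/2) S (fun F => e ∈ F) = 1 / 2 := by
  refine Eq.trans ?_ (pr_mem e)
  apply Pr_local (Finset.singleton_subset_iff.2 he)
  intro F _
  rw [Finset.mem_inter, Finset.mem_singleton]
  exact ⟨fun h => ⟨h, rfl⟩, fun h => h.1⟩

theorem op_lb (S : Finset Edg) (B : Finset Edg) (hB : B ⊆ S) :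
    (1/2 : ℝ) ^ B.card ≤ PQ (1/2) S (fun F => B ⊆ F) := by
  induction B using Finset.induction_on with
  | empty =>
    rw [Finset.card_empty, pow_zero]
    exact le_of_eq (Pr_true S (fun F _ => Finset.empty_subset F)).symm
  | insert e B he ih =>
    have h1 := ih ((Finset.subset_insert e B).trans hB)
    have h2 := pr_one (hB (Finset.mem_insert_self e B))
    have h3 := har_i (S := S) (A := fun F => e ∈ F) (B := fun F => B ⊆ F)
      (fun F G h hF => h hF) (fun F G h hF => hF.trans h) (by norm_num) (by positivity)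
      h2.ge h1
    rw [Finset.card_insert_of_notMem he, pow_succ, mul_comm]
    refine h3.trans (le_of_eq ?_)
    apply Pr_congr
    intro F _
    rw [Finset.insert_subset_iff]

theorem cl_lb (S : Finset Edg) (B : Finset Edg) (hB : B ⊆ S) :
    (1/2 : ℝ) ^ B.card ≤ PQ (1/2) S (fun F => ∀ e ∈ B, e ∉ F) := by
  induction B using Finset.induction_on with
  | empty =>
    rw [Finset.card_empty, pow_zero]
    exact le_of_eq (Pr_true S (fun F _ e he => absurd he (Finset.notMem_empty e))).symm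
  | insert e B he ih =>
    have h1 := ih ((Finset.subset_insert e B).trans hB)
    have h2 : (1/2 : ℝ) ≤ PQ (1/2) S (fun F => e ∉ F) := by
      have h3 : PQ (1/2) S (fun F => e ∉ F) = 1 - PQ (1/2) S (fun F => e ∈ F) := Pr_not _ _
      rw [h3, pr_one (hB (Finset.mem_insert_self e B))]
      norm_num
    have h3 := har_d (S := S) (A := fun F => e ∉ F) (B := fun F => ∀ g ∈ B, g ∉ F)
      (fun F G h hF h' => hF (h h')) (fun F G h hF g hg h' => hF g hg (h h')) (by norm_num)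
      (by positivity) h2 h1
    rw [Finset.card_insert_of_notMem he, pow_succ, mul_comm]
    refine h3.trans (le_of_eq ?_)
    apply Pr_congr
    intro F _
    constructor
    · rintro ⟨h4, h5⟩ g hg
      rcases Finset.mem_insert.1 hg with rfl | hg
      · exact h4
      · exact h5 g hg
    · intro h4
      exact ⟨h4 e (Finset.mem_insert_self e B), fun g hg => h4 g (Finset.mem_insert_of_mem hg)⟩

/-! ### The two circuits -/

noncomputable def BO (a : ℕ) (c : Vtx) : Finset Edg :=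
  RE (c.1 - a - 1) (c.1 + a + 1) (c.2 - a - 1) (c.2 + a + 1)

noncomputable def BC (a : ℕ) (c : Vtx) : Finset Edg :=
  (RE (c.1 - 9 * a - 1) (c.1 + 9 * a + 1) (c.2 - 9 * a - 1) (c.2 + 9 * a + 1)).filter
    (fun e => 9 * (a : ℤ) ≤ lv c (src e))

theorem card_RE {a b c d : ℤ} {n : ℕ} (h1 : b + 1 - a ≤ n) (h2 : d + 1 - c ≤ n) :
    (RE a b c d).card ≤ n * (n * 2) := by
  unfold RE
  refine (Finset.card_filter_le _ _).trans ?_
  rw [Finset.card_product, Finset.card_product, Int.card_Icc, Int.card_Icc, Finset.card_univ,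
    Fintype.card_bool]
  exact Nat.mul_le_mul (Int.toNat_le.2 h1) (Nat.mul_le_mul_right 2 (Int.toNat_le.2 h2))

theorem card_BO (a : ℕ) (c : Vtx) : (BO a c).card ≤ (2 * a + 3) * ((2 * a + 3) * 2) :=
  card_RE (by push_cast; omega) (by push_cast; omega)

theorem card_BC (a : ℕ) (c : Vtx) : (BC a c).card ≤ (18 * a + 3) * ((18 * a + 3) * 2) :=
  (Finset.card_filter_le _ _).trans (card_RE (by push_cast; omega) (by push_cast; omega))

theorem not_DC {a b : ℕ} {c : Vtx} {F : Finset Edg} (h : BO a c ⊆ F) :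
    ¬ DC c a b 1 (↑F : Set Edg) := by
  rintro ⟨f, hf, -⟩
  obtain ⟨⟨-, e, he, h1⟩, -⟩ := hf 0
  apply he
  refine Finset.mem_coe.2 (h ?_)
  obtain ⟨x, y, _ | _⟩ := e
  · unfold BO
    rw [mem_RE_false]
    rcases h1 with ⟨-, h2⟩ | ⟨-, h2⟩
    · rw [dtgt_mk, lf, max_lt_iff, abs_lt, abs_lt] at h2
      simp only at h2
      omega
    · rw [dsrc_false, lf, max_lt_iff, abs_lt, abs_lt] at h2
      simp only at h2
      omega
  · unfold BO
    rw [mem_RE_true]
    rcases h1 with ⟨-, h2⟩ | ⟨-, h2⟩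
    · rw [dtgt_mk, lf, max_lt_iff, abs_lt, abs_lt] at h2
      simp only at h2
      omega
    · rw [dsrc_true, lf, max_lt_iff, abs_lt, abs_lt] at h2
      simp only at h2
      omega

theorem not_OC {a : ℕ} (ha : 1 ≤ a) {c : Vtx} {F : Finset Edg} (h : ∀ e ∈ BC a c, e ∉ F) :
    ¬ OC c (9 * a) (72 * a) 1 (↑F : Set Edg) := by
  rintro ⟨x, hx, -⟩
  obtain ⟨h1, y, h2, h3⟩ := hx 0
  generalize x 0 = z at h1 h3
  push_cast at h1 h2
  rcases Relation.ReflTransGen.cases_head h3 with h4 | ⟨w, ⟨e, ⟨heF, heG⟩, hadj⟩, -⟩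
  · rw [h4] at h1
    omega
  · refine h e ?_ (Finset.mem_coe.1 heF)
    unfold BC
    rw [Finset.mem_filter]
    have hle := heG.1.1
    push_cast at hle
    refine ⟨?_, hle⟩
    have h5 : |z.1 - c.1| ≤ 9 * (a : ℤ) ∧ |z.2 - c.2| ≤ 9 * (a : ℤ) := by
      rw [← max_le_iff]
      exact h1.le
    rw [abs_le, abs_le] at h5
    obtain ⟨p, q, _ | _⟩ := e
    · rw [mem_RE_false]
      rw [src_mk, tgt_false] at hadj
      rcases hadj with ⟨h6, -⟩ | ⟨-, h6⟩ <;> rw [← h6] at h5 <;> simp only at h5 <;> omega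
    · rw [mem_RE_true]
      rw [src_mk, tgt_true] at hadj
      rcases hadj with ⟨h6, -⟩ | ⟨-, h6⟩ <;> rw [← h6] at h5 <;> simp only at h5 <;> omega

/-! ### The events -/

/-- The increasing event. -/
def AO (a : ℕ) (c : Vtx) (U : ℤ) (F : Finset Edg) : Prop :=
  BO a c ⊆ F ∧ (LRc (c.1 - 14 * U) (c.1 + 6 * U) (c.2 - 14 * U) (c.2 - 12 * U) F ∧
    (TBc (c.1 - 14 * U) (c.1 - 12 * U) (c.2 - 14 * U) (c.2 + 4 * U) F ∧
    TBc (c.1 + 2 * U) (c.1 + 6 * U) 0 (c.2 - 12 * U) F))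

/-- The decreasing event. -/
def AC (a : ℕ) (c : Vtx) (U : ℤ) (F : Finset Edg) : Prop :=
  (∀ e ∈ BC a c, e ∉ F) ∧ (¬ TBc (c.1 - 10 * U) (c.1 + 6 * U) (c.2 - 10 * U) (c.2 - 8 * U) F ∧
    (¬ LRc (c.1 - 10 * U) (c.1 - 8 * U) (c.2 - 10 * U) (38 * U) F ∧
    (¬ TBc (-(24 * U)) (14 * U) (36 * U) (38 * U) F ∧ ¬ LRc (10 * U) (14 * U) 0 (38 * U) F)))

/-- The region of the increasing event. -/
noncomputable def RA (a : ℕ) (c : Vtx) (U : ℤ) : Finset Edg :=
  BO a c ∪ (RE (c.1 - 14 * U) (c.1 + 6 * U) (c.2 - 14 * U) (c.2 - 12 * U) ∪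
    (RE (c.1 - 14 * U) (c.1 - 12 * U) (c.2 - 14 * U) (c.2 + 4 * U) ∪
    RE (c.1 + 2 * U) (c.1 + 6 * U) 0 (c.2 - 12 * U)))

/-- The region of the decreasing event. -/
noncomputable def RB (a : ℕ) (c : Vtx) (U : ℤ) : Finset Edg :=
  BC a c ∪ (RE (c.1 - 10 * U) (c.1 + 6 * U) (c.2 - 10 * U) (c.2 - 8 * U) ∪
    (RE (c.1 - 10 * U) (c.1 - 8 * U) (c.2 - 10 * U) (38 * U) ∪
    (RE (-(24 * U)) (14 * U) (36 * U) (38 * U) ∪ RE (10 * U) (14 * U) 0 (38 * U))))

theorem RA_sub {a : ℕ} {U : ℤ} (ha : 1 ≤ a) (hU : 100 * (a : ℤ) ≤ U) {c : Vtx}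
    (hc : c ∈ core4 U) : RA a c U ⊆ SA U := by
  rw [mem_core4] at hc
  exact Finset.union_subset (RE_sub (by omega) (by omega) (by omega) (by omega) (by omega))
    (Finset.union_subset (RE_sub (by omega) (by omega) (by omega) (by omega) (by omega))
    (Finset.union_subset (RE_sub (by omega) (by omega) (by omega) (by omega) (by omega))
      (RE_sub (by omega) (by omega) (by omega) (by omega) (by omega))))

theorem RB_sub {a : ℕ} {U : ℤ} (ha : 1 ≤ a) (hU : 100 * (a : ℤ) ≤ U) {c : Vtx}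
    (hc : c ∈ core4 U) : RB a c U ⊆ SA U := by
  rw [mem_core4] at hc
  exact Finset.union_subset ((Finset.filter_subset _ _).trans
      (RE_sub (by omega) (by omega) (by omega) (by omega) (by omega)))
    (Finset.union_subset (RE_sub (by omega) (by omega) (by omega) (by omega) (by omega))
    (Finset.union_subset (RE_sub (by omega) (by omega) (by omega) (by omega) (by omega))
    (Finset.union_subset (RE_sub (by omega) (by omega) (by omega) (by omega) (by omega))
      (RE_sub (by omega) (by omega) (by omega) (by omega) (by omega)))))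

theorem R_disj {a : ℕ} {U : ℤ} (ha : 1 ≤ a) (hU : 100 * (a : ℤ) ≤ U) {c : Vtx}
    (hc : c ∈ core4 U) : Disjoint (RA a c U) (RB a c U) := by
  rw [mem_core4] at hc
  rw [Finset.disjoint_left]
  intro e h1 h2
  unfold RA BO at h1
  unfold RB BC at h2
  obtain ⟨x, y, _ | _⟩ := e
  · simp only [Finset.mem_union, Finset.mem_filter, mem_RE_false, src_mk, lv, le_max_iff,
      le_abs] at h1 h2
    omega
  · simp only [Finset.mem_union, Finset.mem_filter, mem_RE_true, src_mk, lv, le_max_iff,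
      le_abs] at h1 h2
    omega

theorem AO_local (a : ℕ) (c : Vtx) (U : ℤ) (F : Finset Edg) :
    AO a c U F ↔ AO a c U (F ∩ RA a c U) := by
  unfold AO
  have h0 : BO a c ⊆ RA a c U := Finset.subset_union_left
  have h1 : LRE (c.1 - 14 * U) (c.1 + 6 * U) (c.2 - 14 * U) (c.2 - 12 * U) ⊆ RA a c U :=
    LRE_subset_RE.trans (Finset.subset_union_left.trans Finset.subset_union_right)
  have h2 : TBE (c.1 - 14 * U) (c.1 - 12 * U) (c.2 - 14 * U) (c.2 + 4 * U) ⊆ RA a c U :=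
    TBE_subset_RE.trans (Finset.subset_union_left.trans (Finset.subset_union_right.trans
      Finset.subset_union_right))
  have h3 : TBE (c.1 + 2 * U) (c.1 + 6 * U) 0 (c.2 - 12 * U) ⊆ RA a c U :=
    TBE_subset_RE.trans (Finset.subset_union_right.trans (Finset.subset_union_right.trans
      Finset.subset_union_right))
  rw [← LRc_local h1, ← TBc_local h2, ← TBc_local h3]
  constructor
  · rintro ⟨h4, h5⟩
    exact ⟨Finset.subset_inter h4 h0, h5⟩
  · rintro ⟨h4, h5⟩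
    exact ⟨h4.trans Finset.inter_subset_left, h5⟩

theorem AC_local (a : ℕ) (c : Vtx) (U : ℤ) (F : Finset Edg) :
    AC a c U F ↔ AC a c U (F ∩ RB a c U) := by
  unfold AC
  have h0 : BC a c ⊆ RB a c U := Finset.subset_union_left
  have h1 : TBE (c.1 - 10 * U) (c.1 + 6 * U) (c.2 - 10 * U) (c.2 - 8 * U) ⊆ RB a c U :=
    TBE_subset_RE.trans (Finset.subset_union_left.trans Finset.subset_union_right)
  have h2 : LRE (c.1 - 10 * U) (c.1 - 8 * U) (c.2 - 10 * U) (38 * U) ⊆ RB a c U :=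
    LRE_subset_RE.trans (Finset.subset_union_left.trans (Finset.subset_union_right.trans
      Finset.subset_union_right))
  have h3 : TBE (-(24 * U)) (14 * U) (36 * U) (38 * U) ⊆ RB a c U :=
    TBE_subset_RE.trans (Finset.subset_union_left.trans (Finset.subset_union_right.trans
      (Finset.subset_union_right.trans Finset.subset_union_right)))
  have h4 : LRE (10 * U) (14 * U) 0 (38 * U) ⊆ RB a c U :=
    LRE_subset_RE.trans (Finset.subset_union_right.trans (Finset.subset_union_right.trans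
      (Finset.subset_union_right.trans Finset.subset_union_right)))
  rw [← TBc_local h1, ← LRc_local h2, ← TBc_local h3, ← LRc_local h4]
  constructor
  · rintro ⟨h5, h6⟩
    exact ⟨fun e he h7 => h5 e he (Finset.mem_inter.1 h7).1, h6⟩
  · rintro ⟨h5, h6⟩
    exact ⟨fun e he h7 => h5 e he (Finset.mem_inter.2 ⟨h7, h0 he⟩), h6⟩

theorem inc_LR (a b c d : ℤ) : Inc (LRc a b c d) := fun _ _ h hF => hF.mono h
theorem inc_TB (a b c d : ℤ) : Inc (TBc a b c d) := fun _ _ h hF => hF.mono h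
theorem dec_LR (a b c d : ℤ) : Dec (fun F => ¬ LRc a b c d F) := fun _ _ h hF h' => hF (h'.mono h)
theorem dec_TB (a b c d : ℤ) : Dec (fun F => ¬ TBc a b c d F) := fun _ _ h hF h' => hF (h'.mono h)

theorem dec_no (B : Finset Edg) : Dec (fun F => ∀ e ∈ B, e ∉ F) :=
  fun _ _ h hF e he h' => hF e he (h h')

theorem p_LR {a b c d m : ℤ} {S : Finset Edg} (hS : RE a b c d ⊆ S) (hm : 0 < m) (h1 : a < b)
    (h2 : b - a ≤ 152 * m) (h3 : 2 * m ≤ d - c) : dlt ≤ PQ (1/2) S (LRc a b c d) := by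
  have e : PQ (1/2) S (LRc a b c d) = hh (1/2) (b - a) (d - c) :=
    pr_LRc (1/2) (LRE_subset_RE.trans hS)
  rw [e]
  exact rswL (m := m) hm (by omega) h2 h3

theorem p_TB {a b c d m : ℤ} {S : Finset Edg} (hS : RE a b c d ⊆ S) (hm : 0 < m) (h1 : c < d)
    (h2 : d - c ≤ 152 * m) (h3 : 2 * m ≤ b - a) : dlt ≤ PQ (1/2) S (TBc a b c d) := by
  have e : PQ (1/2) S (TBc a b c d) = hh (1/2) (d - c) (b - a) :=
    pr_TBc (1/2) (TBE_subset_RE.trans hS)
  rw [e]
  exact rswL (m := m) hm (by omega) h2 h3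

theorem p_nLR {a b c d m : ℤ} {S : Finset Edg} (hS : RE a b c d ⊆ S) (hm : 0 < m) (h1 : c ≤ d)
    (h2 : d - c + 1 ≤ 152 * m) (h3 : 2 * m ≤ b - a - 1) :
    dlt ≤ PQ (1/2) S (fun F => ¬ LRc a b c d F) := by
  have e0 : PQ (1/2) S (fun F => ¬ LRc a b c d F) = 1 - PQ (1/2) S (LRc a b c d) := Pr_not _ _
  have e : PQ (1/2) S (LRc a b c d) = hh (1/2) (b - a) (d - c) :=
    pr_LRc (1/2) (LRE_subset_RE.trans hS)
  have e3 : (1:ℝ) - 1/2 = 1/2 := by norm_num
  have e2 := hh_dual (q := 1/2) (w := b - a) (h := d - c) (by omega) (by omega)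
  rw [e3] at e2
  have e4 := rswL (m := m) (w := d - c + 1) (h := b - a - 1) hm (by omega) h2 h3
  rw [e0, e, e2]
  linarith

theorem p_nTB {a b c d m : ℤ} {S : Finset Edg} (hS : RE a b c d ⊆ S) (hm : 0 < m) (h1 : a ≤ b)
    (h2 : b - a + 1 ≤ 152 * m) (h3 : 2 * m ≤ d - c - 1) :
    dlt ≤ PQ (1/2) S (fun F => ¬ TBc a b c d F) := by
  have e0 : PQ (1/2) S (fun F => ¬ TBc a b c d F) = 1 - PQ (1/2) S (TBc a b c d) := Pr_not _ _
  have e : PQ (1/2) S (TBc a b c d) = hh (1/2) (d - c) (b - a) :=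
    pr_TBc (1/2) (TBE_subset_RE.trans hS)
  have e3 : (1:ℝ) - 1/2 = 1/2 := by norm_num
  have e2 := hh_dual (q := 1/2) (w := d - c) (h := b - a) (by omega) (by omega)
  rw [e3] at e2
  have e4 := rswL (m := m) (w := b - a + 1) (h := d - c - 1) hm (by omega) h2 h3
  rw [e0, e, e2]
  linarith

theorem pr_AO {a : ℕ} {U : ℤ} (ha : 1 ≤ a) (hU : 100 * (a : ℤ) ≤ U) {c : Vtx}
    (hc : c ∈ core4 U) {S : Finset Edg} (hS : SA U ⊆ S) :
    (1/2 : ℝ) ^ ((2 * a + 3) * ((2 * a + 3) * 2)) * (dlt * (dlt * dlt)) ≤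
      PQ (1/2) S (AO a c U) := by
  have hd0 := dlt_pos
  have hR : RA a c U ⊆ S := (RA_sub ha hU hc).trans hS
  rw [mem_core4] at hc
  have q0 : (1/2 : ℝ) ^ ((2 * a + 3) * ((2 * a + 3) * 2)) ≤ PQ (1/2) S (fun F => BO a c ⊆ F) :=
    (pow_le_pow_of_le_one (by norm_num) (by norm_num) (card_BO a c)).trans
      (op_lb S (BO a c) (Finset.subset_union_left.trans hR))
  have q1 : dlt ≤ PQ (1/2) S (LRc (c.1 - 14 * U) (c.1 + 6 * U) (c.2 - 14 * U) (c.2 - 12 * U)) :=
    p_LR (m := U) ((Finset.subset_union_left.trans Finset.subset_union_right).trans hR)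
      (by omega) (by omega) (by omega) (by omega)
  have q2 : dlt ≤ PQ (1/2) S (TBc (c.1 - 14 * U) (c.1 - 12 * U) (c.2 - 14 * U) (c.2 + 4 * U)) :=
    p_TB (m := U) ((Finset.subset_union_left.trans (Finset.subset_union_right.trans
      Finset.subset_union_right)).trans hR) (by omega) (by omega) (by omega) (by omega)
  have q3 : dlt ≤ PQ (1/2) S (TBc (c.1 + 2 * U) (c.1 + 6 * U) 0 (c.2 - 12 * U)) :=
    p_TB (m := U) ((Finset.subset_union_right.trans (Finset.subset_union_right.trans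
      Finset.subset_union_right)).trans hR) (by omega) (by omega) (by omega) (by omega)
  exact har_i (fun F G h hF => hF.trans h) ((inc_LR _ _ _ _).and ((inc_TB _ _ _ _).and
    (inc_TB _ _ _ _))) (by positivity) (by positivity) q0
    (har_i (inc_LR _ _ _ _) ((inc_TB _ _ _ _).and (inc_TB _ _ _ _)) (by positivity)
      (by positivity) q1
      (har_i (inc_TB _ _ _ _) (inc_TB _ _ _ _) (by positivity) (by positivity) q2 q3))

theorem pr_AC {a : ℕ} {U : ℤ} (ha : 1 ≤ a) (hU : 100 * (a : ℤ) ≤ U) {c : Vtx}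
    (hc : c ∈ core4 U) {S : Finset Edg} (hS : SA U ⊆ S) :
    (1/2 : ℝ) ^ ((18 * a + 3) * ((18 * a + 3) * 2)) * (dlt * (dlt * (dlt * dlt))) ≤
      PQ (1/2) S (AC a c U) := by
  have hd0 := dlt_pos
  have hR : RB a c U ⊆ S := (RB_sub ha hU hc).trans hS
  rw [mem_core4] at hc
  have q0 : (1/2 : ℝ) ^ ((18 * a + 3) * ((18 * a + 3) * 2)) ≤
      PQ (1/2) S (fun F => ∀ e ∈ BC a c, e ∉ F) :=
    (pow_le_pow_of_le_one (by norm_num) (by norm_num) (card_BC a c)).trans
      (cl_lb S (BC a c) (Finset.subset_union_left.trans hR))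
  have q1 : dlt ≤ PQ (1/2) S (fun F => ¬ TBc (c.1 - 10 * U) (c.1 + 6 * U) (c.2 - 10 * U)
      (c.2 - 8 * U) F) :=
    p_nTB (m := U - 1) ((Finset.subset_union_left.trans Finset.subset_union_right).trans hR)
      (by omega) (by omega) (by omega) (by omega)
  have q2 : dlt ≤ PQ (1/2) S (fun F => ¬ LRc (c.1 - 10 * U) (c.1 - 8 * U) (c.2 - 10 * U)
      (38 * U) F) :=
    p_nLR (m := U - 1) ((Finset.subset_union_left.trans (Finset.subset_union_right.trans
      Finset.subset_union_right)).trans hR) (by omega) (by omega) (by omega) (by omega)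
  have q3 : dlt ≤ PQ (1/2) S (fun F => ¬ TBc (-(24 * U)) (14 * U) (36 * U) (38 * U) F) :=
    p_nTB (m := U - 1) ((Finset.subset_union_left.trans (Finset.subset_union_right.trans
      (Finset.subset_union_right.trans Finset.subset_union_right))).trans hR) (by omega)
      (by omega) (by omega) (by omega)
  have q4 : dlt ≤ PQ (1/2) S (fun F => ¬ LRc (10 * U) (14 * U) 0 (38 * U) F) :=
    p_nLR (m := U) ((Finset.subset_union_right.trans (Finset.subset_union_right.trans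
      (Finset.subset_union_right.trans Finset.subset_union_right))).trans hR) (by omega)
      (by omega) (by omega) (by omega)
  exact har_d (dec_no (BC a c)) ((dec_TB _ _ _ _).and
    ((dec_LR _ _ _ _).and ((dec_TB _ _ _ _).and (dec_LR _ _ _ _)))) (by positivity)
    (by positivity) q0
    (har_d (dec_TB _ _ _ _) ((dec_LR _ _ _ _).and ((dec_TB _ _ _ _).and (dec_LR _ _ _ _)))
      (by positivity) (by positivity) q1
      (har_d (dec_LR _ _ _ _) ((dec_TB _ _ _ _).and (dec_LR _ _ _ _)) (by positivity)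
        (by positivity) q2
        (har_d (dec_TB _ _ _ _) (dec_LR _ _ _ _) (by positivity) (by positivity) q3 q4)))

theorem QE_of {a : ℕ} {U : ℤ} (ha : 1 ≤ a) (hU : 100 * (a : ℤ) ≤ U) {c : Vtx}
    (hc : c ∈ core4 U) {F : Finset Edg} (h1 : AO a c U F) (h2 : AC a c U F) : QE a c U F := by
  rw [mem_core4] at hc
  obtain ⟨b1, b2, b3, b4⟩ := h1
  obtain ⟨c1, c2, c3, c4, c5⟩ := h2
  exact ⟨⟨not_DC b1, not_OC ha c1⟩, ⟨b2, b3, b4⟩, DLR_of (by omega) (by omega) c2,
    DTB_of (by omega) (by omega) c3, DLR_of (by omega) (by omega) c4,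
    DTB_of (by omega) (by omega) c5⟩

end Pool.Agent.N948.IX.X14

namespace Pool.Agent.N948.IX

open H974 H12S Finset
open Pool.Agent.W92.DP (core4 SA)
open H973 (dlt dlt_pos)

theorem cor : St_COR := by
  intro a ha
  have hd0 := dlt_pos
  refine ⟨((1/2 : ℝ) ^ ((2 * a + 3) * ((2 * a + 3) * 2)) * (dlt * (dlt * dlt))) *
    ((1/2 : ℝ) ^ ((18 * a + 3) * ((18 * a + 3) * 2)) * (dlt * (dlt * (dlt * dlt)))), 100 * a,
    by positivity, ?_⟩
  intro U S hU hS c hc
  have ha1 : 1 ≤ a := by omega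
  have hU' : 100 * (a : ℤ) ≤ (U : ℤ) := by exact_mod_cast hU
  have h1 := X14.pr_AO ha1 hU' hc hS
  have h2 := X14.pr_AC ha1 hU' hc hS
  have h3 : PQ (1/2) S (fun F => X14.AO a c U F ∧ X14.AC a c U F) =
      PQ (1/2) S (X14.AO a c U) * PQ (1/2) S (X14.AC a c U) :=
    Pr_indep ((X14.RA_sub ha1 hU' hc).trans hS) ((X14.RB_sub ha1 hU' hc).trans hS)
      (X14.R_disj ha1 hU' hc) (fun F _ => X14.AO_local a c U F) (fun F _ => X14.AC_local a c U F)
  have h4 : PQ (1/2) S (fun F => X14.AO a c U F ∧ X14.AC a c U F) ≤ PQ (1/2) S (QE a c U) :=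
    Pr_mono H973.okhalf (fun F _ hF => X14.QE_of ha1 hU' hc hF.1 hF.2)
  refine le_trans ?_ h4
  rw [h3]
  exact mul_le_mul h1 h2 (by positivity) ((by positivity : (0:ℝ) ≤ _).trans h1)

end Pool.Agent.N948.IX
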