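import Pool.Agent.N948.IX.Ex1

/-!
# Project XD (helper948): approximate local cut points, passage to the limit (after `TH966.DP.DD`)
-/

set_option autoImplicit false

namespace Pool.Agent.N948.IX

namespace X19b

open Set Filter Topology Metric Pool.Agent.H389R2.Dim MeasureTheory
open scoped ENNReal NNReal

/-- The point of `[s, u]` next to `x`. -/
def cl (s u x : unitInterval) : unitInterval := max s (min x u)

theorem cl_ge {s u x : unitInterval} : s ≤ cl s u x := le_max_left _ _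

theorem cl_le {s u x : unitInterval} (h : s ≤ u) : cl s u x ≤ u := max_le h (min_le_right _ _)

theorem cl_mono {s u x y : unitInterval} (h : x ≤ y) : cl s u x ≤ cl s u y :=
  max_le_max le_rfl (min_le_min h le_rfl)

theorem cl_id {s u x : unitInterval} (h1 : s ≤ x) (h2 : x ≤ u) : cl s u x = x := by
  unfold cl
  rw [min_eq_left h2, max_eq_right h1]

/-- The parameters. -/
abbrev PP (K : Set ℂ) : Type := K × unitInterval × unitInterval × unitInterval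

/-- The closed condition. -/
def Cnd (η M : ℝ) (B : ℕ) (ε : ℝ) (K : Set ℂ) : Set (C(unitInterval, ℂ) × PP K) :=
  {p | p.2.2.1 ≤ p.2.2.2.1} ∩ {p | p.2.2.2.1 ≤ p.2.2.2.2} ∩
  {p | dist (p.1 p.2.2.2.1) (p.2.1 : ℂ) ≤ ε} ∩
  {p | η ≤ dist (p.1 p.2.2.1) (p.2.1 : ℂ) + ε} ∩
  {p | η ≤ dist (p.1 p.2.2.2.2) (p.2.1 : ℂ) + ε} ∩
  (⋂ q : {q : unitInterval × unitInterval // q.1 ≤ q.2},
    {p | (dist (p.1 (cl p.2.2.1 p.2.2.2.1 q.1.2)) (p.2.1 : ℂ)) ^ 2 ≤
      M * (dist (p.1 (cl p.2.2.1 p.2.2.2.1 q.1.1)) (p.2.1 : ℂ) + ε)}) ∩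
  (⋂ q : {q : unitInterval × unitInterval // q.1 ≤ q.2},
    {p | (dist (p.1 (cl p.2.2.2.1 p.2.2.2.2 q.1.1)) (p.2.1 : ℂ)) ^ 2 ≤
      M * (dist (p.1 (cl p.2.2.2.1 p.2.2.2.2 q.1.2)) (p.2.1 : ℂ) + ε)}) ∩
  (⋂ q : unitInterval × unitInterval,
    {p | (max (dist (p.1 (cl p.2.2.1 p.2.2.2.1 q.1)) (p.2.1 : ℂ))
      (dist (p.1 (cl p.2.2.2.1 p.2.2.2.2 q.2)) (p.2.1 : ℂ))) ^ B ≤
      M * (dist (p.1 (cl p.2.2.1 p.2.2.2.1 q.1)) (p.1 (cl p.2.2.2.1 p.2.2.2.2 q.2)) + ε)})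

theorem closed_cnd (η M : ℝ) (B : ℕ) (ε : ℝ) {K : Set ℂ} : IsClosed (Cnd η M B ε K) := by
  have ct : Continuous (fun p : C(unitInterval, ℂ) × PP K => p.2.2.1) := by fun_prop
  have cu : Continuous (fun p : C(unitInterval, ℂ) × PP K => p.2.2.2.1) := by fun_prop
  have cv : Continuous (fun p : C(unitInterval, ℂ) × PP K => p.2.2.2.2) := by fun_prop
  have c0 : Continuous (fun p : C(unitInterval, ℂ) × PP K => (p.2.1 : ℂ)) := by fun_prop
  have ev : ∀ g : C(unitInterval, ℂ) × PP K → unitInterval, Continuous g →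
      Continuous (fun p : C(unitInterval, ℂ) × PP K => p.1 (g p)) :=
    fun g hg => continuous_fst.eval hg
  have c1 := ev _ ct
  have c2 := ev _ cu
  have c3 := ev _ cv
  have k1 : ∀ x : unitInterval, Continuous (fun p : C(unitInterval, ℂ) × PP K =>
      p.1 (cl p.2.2.1 p.2.2.2.1 x)) := fun x =>
    ev _ (ct.max (continuous_const.min cu))
  have k2 : ∀ x : unitInterval, Continuous (fun p : C(unitInterval, ℂ) × PP K =>
      p.1 (cl p.2.2.2.1 p.2.2.2.2 x)) := fun x =>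
    ev _ (cu.max (continuous_const.min cv))
  unfold Cnd
  refine IsClosed.inter (IsClosed.inter (IsClosed.inter (IsClosed.inter (IsClosed.inter
    (IsClosed.inter (IsClosed.inter ?_ ?_) ?_) ?_) ?_) ?_) ?_) ?_
  · exact isClosed_le ct cu
  · exact isClosed_le cu cv
  · exact isClosed_le (c2.dist c0) continuous_const
  · exact isClosed_le continuous_const ((c1.dist c0).add continuous_const)
  · exact isClosed_le continuous_const ((c3.dist c0).add continuous_const)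
  · exact isClosed_iInter fun q => isClosed_le (((k1 _).dist c0).pow 2)
      (continuous_const.mul (((k1 _).dist c0).add continuous_const))
  · exact isClosed_iInter fun q => isClosed_le (((k2 _).dist c0).pow 2)
      (continuous_const.mul (((k2 _).dist c0).add continuous_const))
  · exact isClosed_iInter fun q => isClosed_le ((((k1 _).dist c0).max ((k2 _).dist c0)).pow B)
      (continuous_const.mul (((k1 _).dist (k2 _)).add continuous_const))

theorem mem_QQ {η M : ℝ} {B : ℕ} {ε : ℝ} {K : Set ℂ} {f : C(unitInterval, ℂ)} {z : ℂ}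
    (hz : z ∈ K) : z ∈ QQ η M B ε K f ↔
    ∃ s u v : unitInterval, (f, ((⟨z, hz⟩ : K), s, u, v)) ∈ Cnd η M B ε K := by
  constructor
  · rintro ⟨-, s, u, v, h1, h2, h3, h4, h5, h6, h7, h8⟩
    refine ⟨s, u, v, ⟨⟨⟨⟨⟨⟨⟨h1, h2⟩, h3⟩, h4⟩, h5⟩, ?_⟩, ?_⟩, ?_⟩⟩
    · rw [mem_iInter]
      rintro ⟨⟨x, y⟩, hxy⟩
      exact h6 _ _ cl_ge (cl_mono hxy) (cl_le h1)
    · rw [mem_iInter]
      rintro ⟨⟨x, y⟩, hxy⟩
      exact h7 _ _ cl_ge (cl_mono hxy) (cl_le h2)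
    · rw [mem_iInter]
      rintro ⟨x, y⟩
      exact h8 _ _ cl_ge (cl_le h1) cl_ge (cl_le h2)
  · rintro ⟨s, u, v, ⟨⟨⟨⟨⟨⟨⟨h1, h2⟩, h3⟩, h4⟩, h5⟩, h6⟩, h7⟩, h8⟩⟩
    refine ⟨hz, s, u, v, h1, h2, h3, h4, h5, ?_, ?_, ?_⟩
    · intro x y hx hxy hy
      have h := mem_iInter.1 h6 ⟨(x, y), hxy⟩
      simp only [mem_ofPred_eq] at h
      rwa [cl_id hx (hxy.trans hy), cl_id (hx.trans hxy) hy] at h
    · intro x y hx hxy hy
      have h := mem_iInter.1 h7 ⟨(x, y), hxy⟩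
      simp only [mem_ofPred_eq] at h
      rwa [cl_id hx (hxy.trans hy), cl_id (hx.trans hxy) hy] at h
    · intro x y hx hxu hy hyv
      have h := mem_iInter.1 h8 (x, y)
      simp only [mem_ofPred_eq] at h
      rwa [cl_id hx hxu, cl_id hy hyv] at h

theorem QQ_mono {η M : ℝ} (hM : 0 ≤ M) {B : ℕ} {ε ε' : ℝ} (h : ε ≤ ε') (K : Set ℂ)
    (f : C(unitInterval, ℂ)) : QQ η M B ε K f ⊆ QQ η M B ε' K f := by
  rintro z ⟨hz, s, u, v, h1, h2, h3, h4, h5, h6, h7, h8⟩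
  refine ⟨hz, s, u, v, h1, h2, h3.trans h, h4.trans (by linarith), h5.trans (by linarith),
    fun x y a b c => (h6 x y a b c).trans (mul_le_mul_of_nonneg_left (by linarith) hM),
    fun x y a b c => (h7 x y a b c).trans (mul_le_mul_of_nonneg_left (by linarith) hM),
    fun x y a b c d => (h8 x y a b c d).trans (mul_le_mul_of_nonneg_left (by linarith) hM)⟩

/-- Upper semicontinuity. -/
theorem isOpen_sub {η M : ℝ} {B : ℕ} {ε : ℝ} {K O : Set ℂ} (hK : IsCompact K) (hO : IsOpen O) :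
    IsOpen {f : C(unitInterval, ℂ) | QQ η M B ε K f ⊆ O} := by
  have hK' : IsCompact (K \ O) := hK.diff hO
  have : CompactSpace ↥(K \ O) := isCompact_iff_compactSpace.1 hK'
  have h1 := closed_cnd η M B ε (K := K \ O)
  have h2 := isClosedMap_fst_of_compactSpace _ h1
  have h3 : {f : C(unitInterval, ℂ) | QQ η M B ε K f ⊆ O}ᶜ = Prod.fst '' Cnd η M B ε (K \ O) := by
    ext f
    simp only [mem_compl_iff, mem_ofPred_eq, not_subset]
    constructor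
    · rintro ⟨z, ⟨hz, hh⟩, hzO⟩
      have h4 : z ∈ QQ η M B ε (K \ O) f := ⟨⟨hz, hzO⟩, hh⟩
      obtain ⟨s, u, v, h5⟩ := (mem_QQ (K := K \ O) ⟨hz, hzO⟩).1 h4
      exact ⟨_, h5, rfl⟩
    · rintro ⟨⟨g, ⟨⟨z, hz⟩, s, u, v⟩⟩, h5, rfl⟩
      have h4 : z ∈ QQ η M B ε (K \ O) g := (mem_QQ hz).2 ⟨s, u, v, h5⟩
      exact ⟨z, ⟨hz.1, h4.2⟩, hz.2⟩
  rw [← isClosed_compl_iff, h3]
  exact h2

theorem isClosed_good' {t δ c η M : ℝ} {B : ℕ} {ε : ℝ} {K : Set ℂ} (hK : IsCompact K) :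
    IsClosed {f : C(unitInterval, ℂ) | Good t δ c (QQ η M B ε K f)} := by
  have h : {f : C(unitInterval, ℂ) | Good t δ c (QQ η M B ε K f)} =
      ⋂ s : Finset (ℂ × ℝ), {f : C(unitInterval, ℂ) | (∀ p ∈ s, δ ≤ p.2) →
        QQ η M B ε K f ⊆ ⋃ p ∈ s, ball p.1 p.2 → c ≤ ∑ p ∈ s, p.2 ^ t} := by
    ext K; simp [Good]
  rw [h]
  apply isClosed_iInter
  intro s
  by_cases h1 : (∀ p ∈ s, δ ≤ p.2) ∧ ¬ c ≤ ∑ p ∈ s, p.2 ^ t
  · have h2 : {f : C(unitInterval, ℂ) | (∀ p ∈ s, δ ≤ p.2) →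
        QQ η M B ε K f ⊆ ⋃ p ∈ s, ball p.1 p.2 → c ≤ ∑ p ∈ s, p.2 ^ t} =
        {f : C(unitInterval, ℂ) | QQ η M B ε K f ⊆ ⋃ p ∈ s, ball p.1 p.2}ᶜ := by
      ext g
      simp only [Set.mem_ofPred_eq, Set.mem_compl_iff]
      constructor
      · intro h3 h4; exact h1.2 (h3 h1.1 h4)
      · intro h3 _ h4; exact absurd h4 h3
    rw [h2]
    exact (isOpen_sub hK (isOpen_biUnion fun p _ => isOpen_ball)).isClosed_compl
  · have h2 : {f : C(unitInterval, ℂ) | (∀ p ∈ s, δ ≤ p.2) →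
        QQ η M B ε K f ⊆ ⋃ p ∈ s, ball p.1 p.2 → c ≤ ∑ p ∈ s, p.2 ^ t} = univ := by
      ext g
      simp only [Set.mem_ofPred_eq, Set.mem_univ, iff_true]
      intro h3 _
      by_contra h4
      exact h1 ⟨h3, h4⟩
    rw [h2]; exact isClosed_univ

theorem isCompact_QQ {η M : ℝ} {B : ℕ} {ε : ℝ} {K : Set ℂ} (hK : IsCompact K)
    (f : C(unitInterval, ℂ)) : IsCompact (QQ η M B ε K f) := by
  have : CompactSpace ↥K := isCompact_iff_compactSpace.1 hK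
  have h1 := closed_cnd η M B ε (K := K)
  have hc : Continuous (fun p : PP K => (f, p)) := by fun_prop
  have h2 := (h1.preimage hc).isCompact
  have h3 : QQ η M B ε K f = (fun p : PP K => (p.1 : ℂ)) ''
      ((fun p : PP K => (f, p)) ⁻¹' Cnd η M B ε K) := by
    ext z
    constructor
    · intro hz
      obtain ⟨s, u, v, h5⟩ := (mem_QQ hz.1).1 hz
      exact ⟨_, h5, rfl⟩
    · rintro ⟨⟨⟨z, hz⟩, s, u, v⟩, h5, rfl⟩
      exact (mem_QQ hz).2 ⟨s, u, v, h5⟩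
  rw [h3]
  exact h2.image (by fun_prop)

/-- The conditions pass to the limit `ε → 0`. -/
theorem cnd_zero {η M : ℝ} {B : ℕ} {K : Set ℂ} {q : C(unitInterval, ℂ) × PP K}
    (hq : ∀ n : ℕ, q ∈ Cnd η M B (1 / ((n : ℝ) + 1)) K) : q ∈ Cnd η M B 0 K := by
  have hlim : Tendsto (fun n : ℕ => 1 / ((n : ℝ) + 1)) atTop (𝓝 0) :=
    tendsto_one_div_add_atTop_nhds_zero_nat
  have l1 : ∀ a b : ℝ, (∀ n : ℕ, a ≤ b + 1 / ((n : ℝ) + 1)) → a ≤ b + 0 := fun a b h =>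
    ge_of_tendsto' (tendsto_const_nhds.add hlim) h
  have l2 : ∀ a b : ℝ, (∀ n : ℕ, a ≤ M * (b + 1 / ((n : ℝ) + 1))) → a ≤ M * (b + 0) :=
    fun a b h => ge_of_tendsto' ((tendsto_const_nhds.add hlim).const_mul M) h
  refine ⟨⟨⟨⟨⟨⟨⟨(hq 0).1.1.1.1.1.1.1, (hq 0).1.1.1.1.1.1.2⟩, ?_⟩, ?_⟩, ?_⟩, ?_⟩, ?_⟩, ?_⟩
  · exact ge_of_tendsto' hlim fun n => (hq n).1.1.1.1.1.2
  · exact l1 _ _ fun n => (hq n).1.1.1.1.2
  · exact l1 _ _ fun n => (hq n).1.1.1.2
  · rw [mem_iInter]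
    intro x
    exact l2 _ _ fun n => mem_iInter.1 (hq n).1.1.2 x
  · rw [mem_iInter]
    intro x
    exact l2 _ _ fun n => mem_iInter.1 (hq n).1.2 x
  · rw [mem_iInter]
    intro x
    exact l2 _ _ fun n => mem_iInter.1 (hq n).2 x

/-- Passing to `ε = 0`. -/
theorem good_zero {t δ c η M : ℝ} (hM : 0 ≤ M) {B : ℕ} {K : Set ℂ} (hK : IsCompact K)
    (f : C(unitInterval, ℂ))
    (h : ∀ n : ℕ, Good t δ c (QQ η M B (1 / ((n : ℝ) + 1)) K f)) : Good t δ c (QQ η M B 0 K f) := by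
  intro s hs hcov
  set O : Set ℂ := ⋃ p ∈ s, ball p.1 p.2 with hOdef
  have hO : IsOpen O := isOpen_biUnion fun p _ => isOpen_ball
  by_contra hcon
  have hne : ∀ n : ℕ, (QQ η M B (1 / ((n : ℝ) + 1)) (K \ O) f).Nonempty := by
    intro n
    by_contra hemp
    apply hcon
    apply h n s hs
    rintro z ⟨hz, hh⟩
    by_contra hzO
    exact hemp ⟨z, ⟨hz, hzO⟩, hh⟩
  have hK' : IsCompact (K \ O) := hK.diff hO
  have : CompactSpace ↥(K \ O) := isCompact_iff_compactSpace.1 hK'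
  have hc : Continuous (fun p : PP (K \ O) => (f, p)) := by fun_prop
  let A : ℕ → Set (PP (K \ O)) :=
    fun n => (fun p => (f, p)) ⁻¹' Cnd η M B (1 / ((n : ℝ) + 1)) (K \ O)
  have hAcl : ∀ n, IsClosed (A n) := fun n => (closed_cnd η M B _).preimage hc
  have hle : ∀ n : ℕ, 1 / (((n + 1 : ℕ) : ℝ) + 1) ≤ 1 / ((n : ℝ) + 1) := fun n =>
    Nat.one_div_le_one_div (Nat.le_succ n)
  have hAanti : ∀ n, A (n + 1) ⊆ A n := by
    rintro n p ⟨⟨⟨⟨⟨⟨⟨h1, h2⟩, h3⟩, h4⟩, h5⟩, h6⟩, h7⟩, h8⟩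
    have hn := hle n
    have mm : ∀ a b : ℝ, a ≤ M * (b + 1 / (((n + 1 : ℕ) : ℝ) + 1)) →
        a ≤ M * (b + 1 / ((n : ℝ) + 1)) := fun a b h =>
      h.trans (mul_le_mul_of_nonneg_left (by linarith) hM)
    refine ⟨⟨⟨⟨⟨⟨⟨h1, h2⟩, ?_⟩, ?_⟩, ?_⟩, ?_⟩, ?_⟩, ?_⟩
    · exact le_trans h3 hn
    · exact LE.le.trans (show η ≤ dist (f p.2.1) (p.1 : ℂ) + 1 / (((n + 1 : ℕ) : ℝ) + 1) from h4)
        (add_le_add le_rfl hn)
    · exact LE.le.trans (show η ≤ dist (f p.2.2.2) (p.1 : ℂ) + 1 / (((n + 1 : ℕ) : ℝ) + 1) from h5)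
        (add_le_add le_rfl hn)
    · rw [mem_iInter] at h6 ⊢
      exact fun x => mm _ _ (h6 x)
    · rw [mem_iInter] at h7 ⊢
      exact fun x => mm _ _ (h7 x)
    · rw [mem_iInter] at h8 ⊢
      exact fun x => mm _ _ (h8 x)
  have hAne : ∀ n, (A n).Nonempty := by
    intro n
    obtain ⟨z, hz⟩ := hne n
    obtain ⟨s', u', v', h1⟩ := (mem_QQ hz.1).1 hz
    exact ⟨(⟨z, hz.1⟩, s', u', v'), h1⟩
  obtain ⟨p, hp⟩ := IsCompact.nonempty_iInter_of_sequence_nonempty_isCompact_isClosed A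
    hAanti hAne (hAcl 0).isCompact hAcl
  rw [mem_iInter] at hp
  have hz0 : (f, p) ∈ Cnd η M B 0 (K \ O) := cnd_zero hp
  have hz : (p.1 : ℂ) ∈ QQ η M B 0 (K \ O) f := (mem_QQ p.1.2).2 ⟨p.2.1, p.2.2.1, p.2.2.2, hz0⟩
  exact p.1.2.2 (hcov ⟨p.1.2.1, hz.2⟩)

/-- The limit points are local cut points. -/
theorem QQ_sub {η M : ℝ} (hη : 0 < η) {B : ℕ} (hB : 1 ≤ B) {K : Set ℂ} {ρ0 : ℝ}
    (hK : ∀ z ∈ K, 0 < z.im ∧ ‖z‖ < ρ0) (f : C(unitInterval, ℂ)) : QQ η M B 0 K f ⊆ LC ρ0 f := by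
  rintro z ⟨hz, s, u, v, h1, h2, h3, h4, h5, h6, h7, h8⟩
  simp only [add_zero] at h4 h5 h6 h7 h8
  have hu : f u = z := dist_le_zero.1 h3
  -- the first time at `z`
  have hcl : IsClosed {x : unitInterval | s ≤ x ∧ x ≤ u ∧ f x = z} :=
    (isClosed_le continuous_const continuous_id).inter
      ((isClosed_le continuous_id continuous_const).inter
        (isClosed_eq f.continuous continuous_const))
  have hne : {x : unitInterval | s ≤ x ∧ x ≤ u ∧ f x = z}.Nonempty := ⟨u, h1, le_rfl, hu⟩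
  obtain ⟨u0, ⟨g1, g2, g3⟩, hmin⟩ := hcl.isCompact.exists_isLeast hne
  have hfs : f s ≠ z := by
    rintro h
    rw [h, dist_self] at h4
    linarith
  have hfv : f v ≠ z := by
    rintro h
    rw [h, dist_self] at h5
    linarith
  have hsu : s < u0 := lt_of_le_of_ne g1 (by rintro rfl; exact hfs g3)
  have huv : u0 < v := lt_of_le_of_lt g2 (lt_of_le_of_ne h2 (by rintro rfl; exact hfv hu))
  have hconst : ∀ y, u0 ≤ y → y ≤ u → f y = z := by
    intro y hy1 hy2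
    have h := h6 u0 y g1 hy1 hy2
    rw [g3, dist_self, mul_zero] at h
    exact dist_le_zero.1 (by nlinarith [dist_nonneg (x := f y) (y := z)])
  refine ⟨(hK z hz).1, (hK z hz).2, s, u0, v, hsu, huv, g3, ?_⟩
  rw [Set.disjoint_left]
  rintro w ⟨x, ⟨hx1, hx2⟩, rfl⟩ ⟨y, ⟨hy1, hy2⟩, hxy⟩
  have hxz : f x ≠ z := fun h => absurd (hmin ⟨hx1, hx2.le.trans g2, h⟩) (not_le.2 hx2)
  rcases le_total y u with hyu | hyu
  · exact hxz (hxy ▸ hconst y hy1.le hyu)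
  · have h := h8 x y hx1 (hx2.le.trans g2) hyu hy2
    rw [hxy, dist_self, mul_zero, max_self] at h
    have h9 : dist (f x) z = 0 := by
      by_contra hcon
      have h10 : 0 < dist (f x) z := lt_of_le_of_ne dist_nonneg (Ne.symm hcon)
      have := pow_pos h10 B
      linarith
    exact hxz (dist_eq_zero.1 h9)

end X19b

open Set Filter Topology Metric Pool.Agent.H389R2.Dim MeasureTheory X19b in
open scoped ENNReal NNReal in
/-- **Abstract passage to the limit.** -/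
theorem qlim' : St_QLIM := by
  intro μs μ hμ t ht τ ρ0 hρ0 h
  have hc0 : Continuous (fun f : C(unitInterval, ℂ) => f.comp τ) :=
    ContinuousMap.continuous_precomp τ
  rw [ae_iff, ← nonpos_iff_eq_zero]
  apply ENNReal.le_of_forall_pos_le_add
  intro ε hε _
  obtain ⟨c, η, M, B, K, hc, hη, hM, hB, hK, hT, h1⟩ := h ε (by exact_mod_cast hε)
  have hopen : ∀ ε' : ℝ, IsOpen {f : C(unitInterval, ℂ) |
      ¬ Good t ε' c (QQ η M B ε' K (f.comp τ))} := by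
    intro ε'
    exact ((isClosed_good' (t := t) (δ := ε') (c := c) (η := η) (M := M) (B := B) (ε := ε')
      hK).preimage hc0).isOpen_compl
  have h2 : ∀ ε' : ℝ, 0 < ε' → (μ : Measure C(unitInterval, ℂ))
      {f | ¬ Good t ε' c (QQ η M B ε' K (f.comp τ))} ≤ ε := by
    intro ε' hε'
    refine (ProbabilityMeasure.le_liminf_measure_open_of_tendsto hμ (hopen ε')).trans ?_
    exact liminf_le_of_frequently_le (h1 ε' hε').frequently
  set Bd : ℕ → Set C(unitInterval, ℂ) := fun n =>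
    {f | ¬ Good t (1 / ((n : ℝ) + 1)) c (QQ η M B (1 / ((n : ℝ) + 1)) K (f.comp τ))} with hBd
  have hmono : Monotone Bd := by
    intro n n' hnn f hf hG
    apply hf
    have h3 := hG.anti (Nat.one_div_le_one_div (α := ℝ) hnn)
    exact h3.mono (QQ_mono hM.le (Nat.one_div_le_one_div hnn) K _)
  have h3 : {f : C(unitInterval, ℂ) | ¬ ENNReal.ofReal t ≤ dimH (LC ρ0 (f.comp τ))} ⊆
      ⋃ n : ℕ, Bd n := by
    intro f hf
    by_contra hcon
    simp only [hBd, Set.mem_iUnion, Set.mem_ofPred_eq, not_exists, not_not] at hcon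
    apply hf
    have h4 : ∀ δ' : ℝ, 0 < δ' → Good t δ' c (QQ η M B 0 K (f.comp τ)) := by
      intro δ' hδ'
      apply good_zero hM.le hK
      intro n
      obtain ⟨m, hm⟩ := exists_nat_one_div_lt hδ'
      have h5 := hcon (max n m)
      have h6 : (1 : ℝ) / (((max n m : ℕ) : ℝ) + 1) ≤ 1 / ((n : ℝ) + 1) :=
        Nat.one_div_le_one_div (le_max_left _ _)
      have h7 : (1 : ℝ) / (((max n m : ℕ) : ℝ) + 1) ≤ 1 / ((m : ℝ) + 1) :=
        Nat.one_div_le_one_div (le_max_right _ _)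
      exact (h5.mono (QQ_mono hM.le h6 K _)).anti (h7.trans hm.le)
    exact (le_dimH_of_good ht hc (isCompact_QQ hK _) h4).trans
      (dimH_mono (QQ_sub hη hB hT _))
  refine le_trans (measure_mono h3) ?_
  rw [zero_add, hmono.measure_iUnion]
  exact iSup_le fun n => h2 _ (by positivity)

end Pool.Agent.N948.IX
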