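import Pool.Agent.N948.IX.Ex0
import Pool.Agent.N948.IX.Bas
import Pool.Agent.N948.IX.X13
import Pool.Agent.W801.DPdet

/-!
# Project XD, task X26 (helper296): deterministic part
-/

set_option autoImplicit false

namespace Pool.Agent.N948.IX.X26

open H974 H906.Cyl H12S Finset H984P H342P H984P.SideAux
open Pool.Agent.W92.DP (core4 DTB DLR)
open Pool.Agent.W801.DPdet (dcross_meet dl_RE dl_LRE dl_TBE free_edge mem_core4)
open H984N (Dm sd)

/-! ### Arithmetic -/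

theorem quad {M b U l l' x x' : ℤ} (hM : 0 ≤ M) (hb0 : 0 ≤ b) (hb : b ≤ 16 * U)
    (h1 : 2 * x' ≤ l' + 1) (h1' : 1 ≤ l') (hx' : 0 ≤ x') (h2 : l ≤ 2 * x + 1) (hl : 1 ≤ l)
    (hx : 0 ≤ x) (h : l' ^ 2 ≤ M * b * l) : x' ^ 2 ≤ 32 * M * U * (x + 1) := by
  have e1 : x' ≤ l' := by omega
  have e2 : x' ^ 2 ≤ l' ^ 2 := pow_le_pow_left₀ hx' e1 2
  have hU : 0 ≤ U := by omega
  have e3 : M * b * l ≤ M * (16 * U) * (2 * x + 1) := by
    apply mul_le_mul _ h2 (by omega) (by positivity)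
    exact mul_le_mul_of_nonneg_left hb hM
  have e4 : M * (16 * U) * (2 * x + 1) ≤ 32 * M * U * (x + 1) := by
    have : 0 ≤ M * U := by positivity
    nlinarith
  linarith

theorem sep1 {B : ℕ} (hB : 1 ≤ B) {X U R d : ℤ} (hX0 : 0 ≤ X) (hX : X ≤ 5 * U)
    (hXd : X ≤ d + R) : X ^ B ≤ 5 ^ (B - 1) * U ^ (B - 1) * (d + R) := by
  obtain ⟨n, rfl⟩ : ∃ n, B = n + 1 := ⟨B - 1, by omega⟩
  rw [Nat.add_sub_cancel, pow_succ, ← mul_pow]
  exact mul_le_mul (pow_le_pow_left₀ hX0 hX n) hXd hX0 (pow_nonneg (by omega) n)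

theorem sep2 {B : ℕ} {X Y U M b d d' : ℤ} (hX0 : 0 ≤ X) (hY0 : 0 ≤ Y)
    (hXY : X ≤ Y + 1) (hM : 0 ≤ M) (hb0 : 0 ≤ b) (hb : b ≤ 16 * U) (hU : 1 ≤ U)
    (h : Y ^ B ≤ M * b ^ (B - 1) * d') (hd : d' ≤ d + 2) (hd0 : 0 ≤ d) :
    X ^ B ≤ (2 ^ B * M * 16 ^ (B - 1) + 1) * U ^ (B - 1) * (d + 2) := by
  have hU1 : 1 ≤ U ^ (B - 1) := one_le_pow₀ hU
  have hP : 0 ≤ 2 ^ B * M * 16 ^ (B - 1) := by positivity
  rcases eq_or_lt_of_le hY0 with h0 | h0
  · have e1 : X ^ B ≤ 1 := pow_le_one₀ hX0 (by omega)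
    have e2 : 1 ≤ (2 ^ B * M * 16 ^ (B - 1) + 1) * U ^ (B - 1) := by nlinarith
    nlinarith
  · have e1 : X ^ B ≤ (2 * Y) ^ B := pow_le_pow_left₀ hX0 (by omega) B
    rw [mul_pow] at e1
    have e2 : M * b ^ (B - 1) * d' ≤ M * (16 * U) ^ (B - 1) * (d + 2) := by
      have f1 : b ^ (B - 1) ≤ (16 * U) ^ (B - 1) := pow_le_pow_left₀ hb0 hb _
      have f2 : M * b ^ (B - 1) ≤ M * (16 * U) ^ (B - 1) := mul_le_mul_of_nonneg_left f1 hM
      have f3 : 0 ≤ M * b ^ (B - 1) := by positivity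
      calc M * b ^ (B - 1) * d' ≤ M * b ^ (B - 1) * (d + 2) := mul_le_mul_of_nonneg_left hd f3
        _ ≤ M * (16 * U) ^ (B - 1) * (d + 2) := mul_le_mul_of_nonneg_right f2 (by omega)
    have e3 : (2 : ℤ) ^ B * Y ^ B ≤ 2 ^ B * (M * (16 * U) ^ (B - 1) * (d + 2)) :=
      mul_le_mul_of_nonneg_left (h.trans e2) (by positivity)
    have e4 : (2 : ℤ) ^ B * (M * (16 * U) ^ (B - 1) * (d + 2)) =
        (2 ^ B * M * 16 ^ (B - 1)) * U ^ (B - 1) * (d + 2) := by
      rw [mul_pow]; ring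
    have e5 : (2 ^ B * M * 16 ^ (B - 1)) * U ^ (B - 1) * (d + 2) ≤
        (2 ^ B * M * 16 ^ (B - 1) + 1) * U ^ (B - 1) * (d + 2) := by
      apply mul_le_mul_of_nonneg_right _ (by omega)
      apply mul_le_mul_of_nonneg_right _ (by omega)
      omega
    linarith

/-! ### Paths -/

theorem dfirst {S : Set Edg} {h : ℤ} {f g : Vtx} (hf : f.2 ≤ h) (hg : h ≤ g.2)
    (hr : DReach S f g) : ∃ q : Vtx, q.2 = h ∧
      DReach (S ∩ {e | (dsrc e).2 ≤ h ∧ (dtgt e).2 ≤ h}) f q := by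
  have key : ∀ w, DReach S f w → (∃ q : Vtx, q.2 = h ∧
      DReach (S ∩ {e | (dsrc e).2 ≤ h ∧ (dtgt e).2 ≤ h}) f q) ∨
      (w.2 < h ∧ DReach (S ∩ {e | (dsrc e).2 ≤ h ∧ (dtgt e).2 ≤ h}) f w) := by
    intro w hw
    induction hw with
    | refl =>
      rcases eq_or_lt_of_le hf with h1 | h1
      · exact Or.inl ⟨f, h1, DReach.refl _ _⟩
      · exact Or.inr ⟨h1, DReach.refl _ _⟩
    | @tail w w' _ hs ih =>
      rcases ih with h1 | ⟨h1, h2⟩
      · exact Or.inl h1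
      · obtain ⟨e, he, hor⟩ := hs
        have hstep : w'.2 ≤ w.2 + 1 := by
          obtain ⟨x, y, _ | _⟩ := e
          · simp only [dsrc_false, dtgt_mk] at hor
            rcases hor with ⟨rfl, rfl⟩ | ⟨rfl, rfl⟩ <;> simp
          · simp only [dsrc_true, dtgt_mk] at hor
            rcases hor with ⟨rfl, rfl⟩ | ⟨rfl, rfl⟩ <;> simp only <;> omega
        have hmem : e ∈ S ∩ {e | (dsrc e).2 ≤ h ∧ (dtgt e).2 ≤ h} := by
          refine ⟨he, ?_⟩
          rcases hor with ⟨h3, h4⟩ | ⟨h3, h4⟩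
          · show (dsrc e).2 ≤ h ∧ (dtgt e).2 ≤ h
            rw [h3, h4]; omega
          · show (dsrc e).2 ≤ h ∧ (dtgt e).2 ≤ h
            rw [h3, h4]; omega
        have h5 := h2.trans (DAdj.reach ⟨e, hmem, hor⟩)
        rcases eq_or_lt_of_le (show w'.2 ≤ h by omega) with h6 | h6
        · exact Or.inl ⟨w', h6, h5⟩
        · exact Or.inr ⟨h6, h5⟩
  rcases key g hr with h1 | ⟨h1, -⟩
  · exact h1
  · omega

theorem pfirst {S : Set Edg} {h : ℤ} {u v : Vtx} (hu : h ≤ u.2) (hv : v.2 ≤ h)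
    (hr : Reach S u v) : ∃ q : Vtx, q.2 = h ∧
      Reach (S ∩ {e | h ≤ (src e).2 ∧ h ≤ (tgt e).2}) u q := by
  have key : ∀ w, Reach S u w → (∃ q : Vtx, q.2 = h ∧
      Reach (S ∩ {e | h ≤ (src e).2 ∧ h ≤ (tgt e).2}) u q) ∨
      (h < w.2 ∧ Reach (S ∩ {e | h ≤ (src e).2 ∧ h ≤ (tgt e).2}) u w) := by
    intro w hw
    induction hw with
    | refl =>
      rcases eq_or_lt_of_le hu with h1 | h1
      · exact Or.inl ⟨u, h1.symm, Reach.refl _ _⟩
      · exact Or.inr ⟨h1, Reach.refl _ _⟩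
    | @tail w w' _ hs ih =>
      rcases ih with h1 | ⟨h1, h2⟩
      · exact Or.inl h1
      · obtain ⟨e, he, hor⟩ := hs
        have hstep : w.2 ≤ w'.2 + 1 := by
          obtain ⟨x, y, _ | _⟩ := e
          · simp only [tgt_false, src_mk] at hor
            rcases hor with ⟨rfl, rfl⟩ | ⟨rfl, rfl⟩ <;> simp only <;> omega
          · simp only [tgt_true, src_mk] at hor
            rcases hor with ⟨rfl, rfl⟩ | ⟨rfl, rfl⟩ <;> simp
        have hmem : e ∈ S ∩ {e | h ≤ (src e).2 ∧ h ≤ (tgt e).2} := by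
          refine ⟨he, ?_⟩
          rcases hor with ⟨h3, h4⟩ | ⟨h3, h4⟩
          · show h ≤ (src e).2 ∧ h ≤ (tgt e).2
            rw [h3, h4]; omega
          · show h ≤ (src e).2 ∧ h ≤ (tgt e).2
            rw [h3, h4]; omega
        have h5 := h2.trans (Adj.reach ⟨e, hmem, hor⟩)
        rcases eq_or_lt_of_le (show h ≤ w'.2 by omega) with h6 | h6
        · exact Or.inl ⟨w', h6.symm, h5⟩
        · exact Or.inr ⟨h6, h5⟩
  rcases key v hr with h1 | ⟨h1, -⟩
  · exact h1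
  · omega

theorem dsplit {S : Set Edg} {E : Finset Edg} {f g : Vtx} (hr : DReach S f g) :
    DReach (S \ ↑E) f g ∨
      ∃ f1, DReach (S \ ↑E) f f1 ∧ ∃ e ∈ S, e ∈ E ∧ (dsrc e = f1 ∨ dtgt e = f1) := by
  induction hr with
  | refl => exact Or.inl (DReach.refl _ _)
  | @tail w w' _ hs ih =>
    rcases ih with h | h
    · obtain ⟨e, he, hor⟩ := hs
      by_cases h1 : e ∈ E
      · right
        refine ⟨w, h, e, he, h1, ?_⟩
        rcases hor with ⟨h2, -⟩ | ⟨-, h2⟩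
        · exact Or.inl h2
        · exact Or.inr h2
      · left
        exact h.trans (DAdj.reach ⟨e, ⟨he, fun h2 => h1 (Finset.mem_coe.1 h2)⟩, hor⟩)
    · exact Or.inr h

theorem dinv {S : Set Edg} {P : Vtx → Prop} (hP : ∀ e ∈ S, P (dsrc e) ∧ P (dtgt e)) {f g : Vtx}
    (hf : P f) (hr : DReach S f g) : P g := by
  induction hr with
  | refl => exact hf
  | tail _ hs _ =>
    obtain ⟨e, he, ⟨-, h⟩ | ⟨h, -⟩⟩ := hs
    · rw [← h]; exact (hP e he).2
    · rw [← h]; exact (hP e he).1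

/-! ### Distances -/

theorem lv_le {c v : Vtx} {n : ℤ} : lv c v ≤ n ↔
    (v.1 - c.1 ≤ n ∧ c.1 - v.1 ≤ n) ∧ (v.2 - c.2 ≤ n ∧ c.2 - v.2 ≤ n) := by
  unfold lv
  simp only [abs_eq_max_neg]
  omega

theorem le_lv {c v : Vtx} {n : ℤ} : n ≤ lv c v ↔
    (n ≤ v.1 - c.1 ∨ n ≤ c.1 - v.1) ∨ (n ≤ v.2 - c.2 ∨ n ≤ c.2 - v.2) := by
  unfold lv
  simp only [abs_eq_max_neg]
  omega

/-! ### The data -/

/-- the data of the event -/
structure Dat (D : Dm) (F G : Finset Edg) (c : Vtx) (U : ℤ) (a b rc t : ℕ) (σ τ : St)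
    (T T' : ℕ) : Prop where
  ok : D.Ok
  FD : F ⊆ D.edges
  U0 : 64 ≤ U
  a0 : 1 ≤ a
  arc : a < rc
  eb : (b : ℤ) = 16 * U - 1
  erc : (rc : ℤ) = 4 * U + 20
  et : (t : ℤ) ≤ U + 4
  hl : D.l < -(27 * U)
  hr : 27 * U < D.r
  hh : 39 * U < D.h
  c1 : -(10 * U) ≤ c.1
  c1' : c.1 ≤ -(8 * U)
  c2 : 17 * U ≤ c.2
  c2' : c.2 ≤ 19 * U
  i : InLeg ↑F c a b σ T
  o : OutLeg ↑F c a b τ T'
  dis : Disjoint (Exm ↑F σ T) (Exm ↑F τ T')
  si : CfSW c rc t (Exm ↑F σ T)
  so : CfNE c rc t (Exm ↑F τ T')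
  ag : ∀ e, e ∉ Exm (↑F : Set Edg) σ T → e ∉ Exm (↑F : Set Edg) τ T' → (e ∈ F ↔ e ∈ G)
  bi : ∀ e ∈ Exm (↑F : Set Edg) σ T, lv c (src e) ≤ b
  bo : ∀ e ∈ Exm (↑F : Set Edg) τ T', lv c (src e) ≤ b

variable {D : Dm} {F G : Finset Edg} {c : Vtx} {U : ℤ} {a b rc t : ℕ} {σ τ : St} {T T' : ℕ}

theorem Dat.ab (h : Dat D F G c U a b rc t σ τ T T') : a < b := by
  have h1 := h.eb
  have h2 := h.erc
  have h3 := h.arc
  have h4 := h.U0
  omega

theorem Dat.trc (h : Dat D F G c U a b rc t σ τ T T') : 2 * t ≤ rc := by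
  have h2 := h.erc
  have h3 := h.et
  have h4 := h.U0
  omega

theorem Dat.rcb (h : Dat D F G c U a b rc t σ τ T T') : rc + 10 < b := by
  have h1 := h.eb
  have h2 := h.erc
  have h4 := h.U0
  omega

/-- an edge below or to the left of the upper right quadrant is not examined by `τ` -/
theorem Dat.nτ (h : Dat D F G c U a b rc t σ τ T T') {e : Edg} (h1 : (rc : ℤ) ≤ lv c (src e))
    (h2 : (src e).1 < c.1 - t ∨ (src e).2 < c.2 - t) : e ∉ Exm (↑F : Set Edg) τ T' := by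
  intro he
  obtain ⟨h3, h4⟩ := h.so e he h1
  omega

theorem Dat.nσ (h : Dat D F G c U a b rc t σ τ T T') {e : Edg} (h1 : (rc : ℤ) ≤ lv c (src e))
    (h2 : c.1 + t < (src e).1 ∨ c.2 + t < (src e).2) : e ∉ Exm (↑F : Set Edg) σ T := by
  intro he
  obtain ⟨h3, h4⟩ := h.si e he h1
  omega

/-- an edge far away is not examined -/
theorem Dat.far (h : Dat D F G c U a b rc t σ τ T T') {e : Edg} (h1 : (b : ℤ) < lv c (src e)) :
    e ∉ Exm (↑F : Set Edg) σ T ∧ e ∉ Exm (↑F : Set Edg) τ T' :=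
  ⟨fun h2 => by have := h.bi e h2; omega, fun h2 => by have := h.bo e h2; omega⟩

theorem Dat.agR (h : Dat D F G c U a b rc t σ τ T T') {e : Edg} (h1 : e ∈ RegO c rc t b)
    (h2 : e ∉ Exm (↑F : Set Edg) σ T) : (e ∈ (↑F : Set Edg) ↔ e ∈ (↑G : Set Edg)) := by
  obtain ⟨h3, h4, h5⟩ := h1
  refine h.ag e h2 (h.nτ (by omega) ?_)
  by_contra h6
  exact h5 (by omega)

/-- the edges of the square are interior -/
theorem Dat.inn (h : Dat D F G c U a b rc t σ τ T T') {e : Edg} (h1 : lv c (src e) ≤ 16 * U - 1) :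
    e ∈ D.edges ∧ e ∉ D.wir := by
  have e1 := h.hl
  have e2 := h.hr
  have e3 := h.hh
  have e4 := h.c1
  have e5 := h.c1'
  have e6 := h.c2
  have e7 := h.c2'
  have e8 := h.U0
  refine free_edge h.ok (a := c.1 - 16 * U) (b := c.1 + 16 * U) (c := c.2 - 16 * U)
    (d := c.2 + 16 * U) (by omega) (by omega) (by omega) (by omega) (by omega) ?_
  rw [lv_le] at h1
  obtain ⟨x, y, _ | _⟩ := e
  · rw [mem_RE_false]
    simp only [src_mk] at h1
    omega
  · rw [mem_RE_true]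
    simp only [src_mk] at h1
    omega

theorem Dat.dsub (h : Dat D F G c U a b rc t σ τ T T') {S : Set Edg}
    (h1 : ∀ e ∈ S, lv c (src e) ≤ 16 * U - 1 ∧ e ∉ F) : S ⊆ (↑D.edges \ D.cfg F : Set Edg) := by
  intro e he
  obtain ⟨h2, h3⟩ := h1 e he
  obtain ⟨h4, h5⟩ := h.inn h2
  exact ⟨Finset.mem_coe.2 h4, fun h6 => h6.elim (fun h7 => h3 (Finset.mem_coe.1 h7)) h5⟩

/-! ### The right vertices -/

theorem right_clu (hB : St_basic) (hHo : St_HITo) (h : Dat D F G c U a b rc t σ τ T T')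
    (hR1 : LRc (c.1 - 14 * U) (c.1 + 6 * U) (c.2 - 14 * U) (c.2 - 12 * U) G)
    (hR2 : TBc (c.1 - 14 * U) (c.1 - 12 * U) (c.2 - 14 * U) (c.2 + 4 * U) G)
    (hR3 : TBc (c.1 + 2 * U) (c.1 + 6 * U) 0 (c.2 - 12 * U) G) :
    ∀ s ≤ T, (orb (↑F : Set Edg) σ s).1 ∈ D.clu F := by
  obtain ⟨y1, y1', hy1, hy1', k1⟩ := hR1
  obtain ⟨x2, x2', hx2, hx2', k2⟩ := hR2
  obtain ⟨x3, x3', hx3, hx3', k3⟩ := hR3
  have e0 := h.eb
  have e0' := h.erc
  have e0'' := h.et
  have e1 := h.hl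
  have e2 := h.hr
  have e3 := h.hh
  have e4 := h.c1
  have e5 := h.c1'
  have e6 := h.c2
  have e7 := h.c2'
  have e8 := h.U0
  -- the third crossing is open in `F`
  have sub3 : ((↑G : Set Edg) ∩ ↑(TBE (c.1 + 2 * U) (c.1 + 6 * U) 0 (c.2 - 12 * U))) ⊆
      (↑F : Set Edg) := by
    rintro e ⟨hG, hE⟩
    have hpos : c.1 + 2 * U ≤ (src e).1 ∧ (src e).2 ≤ c.2 - 12 * U := by
      obtain ⟨x, y, _ | _⟩ := e
      · rw [Finset.mem_coe, mem_TBE_false] at hE
        simp only [src_mk]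
        omega
      · rw [Finset.mem_coe, mem_TBE_true] at hE
        simp only [src_mk]
        omega
    have hlv : (rc : ℤ) ≤ lv c (src e) := by
      rw [le_lv]
      omega
    exact (h.ag e (h.nσ hlv (by omega)) (h.nτ hlv (by omega))).2 (Finset.mem_coe.1 hG)
  have sF : (↑F : Set Edg) ⊆ D.cfg F := Set.subset_union_left
  have pclu : Reach (D.cfg F) (0, 0) (x3', c.2 - 12 * U) := by
    have m3 := H984N.clu_bottom (D := D) F (-x3).toNat (by omega)
    have e3 : (-(((-x3).toNat : ℕ) : ℤ)) = x3 := by omega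
    rw [e3] at m3
    exact m3.trans (k3.mono (sub3.trans sF))
  -- the path in the ring
  obtain ⟨w, hw, kw⟩ := pfirst (h := c.2 - 14 * U) (u := (x3', c.2 - 12 * U)) (v := (x3, 0))
    (by simp only; omega) (by simp only; omega) k3.symm
  have A3 : Reach (((↑G : Set Edg) ∩ RegO c rc t b) ∩
      ↑(RE (c.1 + 2 * U) (c.1 + 6 * U) (c.2 - 14 * U) (c.2 - 12 * U))) (x3', c.2 - 12 * U) w := by
    refine kw.mono ?_
    rintro e ⟨⟨hG, hE⟩, he1, he2⟩
    obtain ⟨x, y, _ | _⟩ := e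
    · rw [Finset.mem_coe, mem_TBE_false] at hE
      simp only [src_mk, tgt_false] at he1 he2
      refine ⟨⟨hG, ?_, ?_, ?_⟩, ?_⟩
      · rw [← not_le, lv_le]; simp only [src_mk]; omega
      · have : lv c (src (x, y, false)) ≤ 14 * U := by rw [lv_le]; simp only [src_mk]; omega
        omega
      · simp only [src_mk]; omega
      · rw [Finset.mem_coe, mem_RE_false]; omega
    · rw [Finset.mem_coe, mem_TBE_true] at hE
      simp only [src_mk, tgt_true] at he1 he2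
      refine ⟨⟨hG, ?_, ?_, ?_⟩, ?_⟩
      · rw [← not_le, lv_le]; simp only [src_mk]; omega
      · have : lv c (src (x, y, true)) ≤ 14 * U := by rw [lv_le]; simp only [src_mk]; omega
        omega
      · simp only [src_mk]; omega
      · rw [Finset.mem_coe, mem_RE_true]; omega
  have A1 : Reach (((↑G : Set Edg) ∩ RegO c rc t b) ∩
      ↑(RE (c.1 - 14 * U) (c.1 + 6 * U) (c.2 - 14 * U) (c.2 - 12 * U)))
      (c.1 - 14 * U, y1) (c.1 + 6 * U, y1') := by
    refine k1.mono ?_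
    rintro e ⟨hG, hE⟩
    have hE' := LRE_subset_RE (Finset.mem_coe.1 hE)
    obtain ⟨x, y, _ | _⟩ := e
    · rw [mem_RE_false] at hE'
      refine ⟨⟨hG, ?_, ?_, ?_⟩, ?_⟩
      · rw [← not_le, lv_le]; simp only [src_mk]; omega
      · have : lv c (src (x, y, false)) ≤ 14 * U := by rw [lv_le]; simp only [src_mk]; omega
        omega
      · simp only [src_mk]; omega
      · rw [Finset.mem_coe, mem_RE_false]; omega
    · rw [mem_RE_true] at hE'
      refine ⟨⟨hG, ?_, ?_, ?_⟩, ?_⟩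
      · rw [← not_le, lv_le]; simp only [src_mk]; omega
      · have : lv c (src (x, y, true)) ≤ 14 * U := by rw [lv_le]; simp only [src_mk]; omega
        omega
      · simp only [src_mk]; omega
      · rw [Finset.mem_coe, mem_RE_true]; omega
  have A2 : Reach (((↑G : Set Edg) ∩ RegO c rc t b) ∩
      ↑(RE (c.1 - 14 * U) (c.1 - 12 * U) (c.2 - 14 * U) (c.2 + 4 * U)))
      (x2, c.2 - 14 * U) (x2', c.2 + 4 * U) := by
    refine k2.mono ?_
    rintro e ⟨hG, hE⟩
    have hE' := TBE_subset_RE (Finset.mem_coe.1 hE)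
    obtain ⟨x, y, _ | _⟩ := e
    · rw [mem_RE_false] at hE'
      refine ⟨⟨hG, ?_, ?_, ?_⟩, ?_⟩
      · rw [← not_le, lv_le]; simp only [src_mk]; omega
      · have : lv c (src (x, y, false)) ≤ 14 * U := by rw [lv_le]; simp only [src_mk]; omega
        omega
      · simp only [src_mk]; omega
      · rw [Finset.mem_coe, mem_RE_false]; omega
    · rw [mem_RE_true] at hE'
      refine ⟨⟨hG, ?_, ?_, ?_⟩, ?_⟩
      · rw [← not_le, lv_le]; simp only [src_mk]; omega
      · have : lv c (src (x, y, true)) ≤ 14 * U := by rw [lv_le]; simp only [src_mk]; omega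
        omega
      · simp only [src_mk]; omega
      · rw [Finset.mem_coe, mem_RE_true]; omega
  have m1 := cross_meet (F := ((↑G : Set Edg) ∩ RegO c rc t b)) (A := c.1 - 14 * U)
    (B := c.1 + 6 * U) (C := c.2 - 14 * U) (D := c.2 - 12 * U) (a := c.1 + 2 * U)
    (b := c.1 + 6 * U) (c := c.2 - 14 * U) (d := c.2 - 12 * U) (by omega) (by omega) (by omega)
    (by omega) (by omega) (by omega) A1 (by simp only; omega) (by simp only; omega)
    (A3.symm) (by omega) (by simp only; omega)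
  have m2 := cross_meet (F := ((↑G : Set Edg) ∩ RegO c rc t b)) (A := c.1 - 14 * U)
    (B := c.1 + 6 * U) (C := c.2 - 14 * U) (D := c.2 + 4 * U) (a := c.1 - 14 * U)
    (b := c.1 - 12 * U) (c := c.2 - 14 * U) (d := c.2 - 12 * U) (by omega) (by omega) (by omega)
    (by omega) (by omega) (by omega) A1 (by simp only; omega) (by simp only; omega)
    A2 (by simp only; omega) (by simp only; omega)
  have hpq : Reach ((↑G : Set Edg) ∩ RegO c rc t b) (x3', c.2 - 12 * U) (x2', c.2 + 4 * U) :=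
    (((A3.mono Set.inter_subset_left).trans (m1.symm.mono Set.inter_subset_left)).trans
      (m2.mono Set.inter_subset_left)).trans (A2.mono Set.inter_subset_left)
  have hp : InSE c rc t b (x3', c.2 - 12 * U) := by
    refine ⟨by simp only; omega, by simp only; omega, ?_, ?_⟩
    · rw [← not_le, lv_le]; simp only; omega
    · have : lv c (x3', c.2 - 12 * U) ≤ 14 * U := by rw [lv_le]; simp only; omega
      omega
  have hq : InNW c rc t b (x2', c.2 + 4 * U) := by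
    refine ⟨by simp only; omega, by simp only; omega, ?_, ?_⟩
    · rw [← not_le, lv_le]; simp only; omega
    · have : lv c (x2', c.2 + 4 * U) ≤ 14 * U := by rw [lv_le]; simp only; omega
      omega
  obtain ⟨s, hs0, hsT, hs⟩ := hHo ↑F ↑G c _ _ a b rc t σ τ T T' h.a0 h.arc h.trc h.rcb h.i h.o
    h.dis h.si h.so hp hq (fun e he he' => h.agR he he') hpq
  have hs' : (orb (↑F : Set Edg) σ s).1 ∈ D.clu F :=
    pclu.trans (hs.mono (fun e he => sF he.1.1))
  have hreach := (hB ↑F c a b σ T h.ab h.i).2.2.2.2.1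
  intro s' hs'T
  have r1 := hreach s hsT.le
  have r2 := hreach s' hs'T
  have r3 : Reach (D.cfg F) (orb (↑F : Set Edg) σ s).1 (orb (↑F : Set Edg) σ s').1 :=
    (r1.symm.trans r2).mono (fun e he => sF he.1)
  exact Reach.trans hs' r3

/-! ### The left faces -/

theorem dclu_trans {g g' : Vtx} (hg : g ∈ D.dclu F)
    (hr : DReach (↑D.edges \ D.cfg F : Set Edg) g g') : g' ∈ D.dclu F := by
  obtain ⟨g0, h0, h1⟩ := hg
  exact ⟨g0, h0, h1.trans hr⟩

theorem left_dclu (hB : St_basic) (hHd : St_HITd) (hHf : St_HITf)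
    (h : Dat D F G c U a b rc t σ τ T T')
    (hD1 : DLR (c.1 - 10 * U) (c.1 + 6 * U) (c.2 - 10 * U) (c.2 - 8 * U) G)
    (hD2 : DTB (c.1 - 10 * U) (c.1 - 8 * U) (c.2 - 10 * U) (38 * U) G)
    (hD3 : DLR (-(24 * U)) (14 * U) (36 * U) (38 * U) G)
    (hD4 : DTB (10 * U) (14 * U) 0 (38 * U) G) :
    ∀ s, 0 < s → s < T → face (orb (↑F : Set Edg) σ s) ∈ D.dclu F := by
  obtain ⟨y1, y1', hy1, hy1', k1⟩ := hD1
  obtain ⟨x2, x2', hx2, hx2', k2⟩ := hD2
  obtain ⟨y3, y3', hy3, hy3', k3⟩ := hD3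
  obtain ⟨x4, x4', hx4, hx4', k4⟩ := hD4
  have e0 := h.eb
  have e0' := h.erc
  have e0'' := h.et
  have e1 := h.hl
  have e2 := h.hr
  have e3 := h.hh
  have e4 := h.c1
  have e5 := h.c1'
  have e6 := h.c2
  have e7 := h.c2'
  have e8 := h.U0
  set S2 : Set Edg := (↑(LRE (c.1 - 10 * U) (c.1 - 8 * U) (c.2 - 10 * U) (38 * U) \ G) : Set Edg)
    with hS2
  set E1 : Finset Edg := Exm (↑F : Set Edg) σ T with hE1
  -- the edges of the second dual crossing
  have pos2 : ∀ e ∈ S2, ((c.1 - 10 * U ≤ (src e).1 ∧ (src e).1 < c.1 - 8 * U) ∧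
      (c.2 - 10 * U ≤ (src e).2 ∧ (src e).2 ≤ 38 * U)) ∧ e ∉ G := by
    rintro e he
    rw [hS2, Finset.mem_coe, Finset.mem_sdiff] at he
    obtain ⟨x, y, _ | _⟩ := e
    · rw [mem_LRE_false] at he
      simp only [src_mk]
      exact ⟨by omega, he.2⟩
    · rw [mem_LRE_true] at he
      simp only [src_mk]
      exact ⟨by omega, he.2⟩
  have fac2 : ∀ e ∈ S2, (c.1 - 10 * U ≤ (dsrc e).1 ∧ (dsrc e).1 ≤ c.1 - 8 * U - 1) ∧
      (c.1 - 10 * U ≤ (dtgt e).1 ∧ (dtgt e).1 ≤ c.1 - 8 * U - 1) := by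
    rintro e he
    rw [hS2, Finset.mem_coe, Finset.mem_sdiff] at he
    obtain ⟨x, y, _ | _⟩ := e
    · rw [mem_LRE_false] at he
      simp only [dsrc_false, dtgt_mk]
      omega
    · rw [mem_LRE_true] at he
      simp only [dsrc_true, dtgt_mk]
      omega
  have dl2 : ∀ e ∈ S2, dl e ∈ RE (c.1 - 10 * U) (c.1 - 8 * U - 1) (c.2 - 10 * U - 1) (38 * U) := by
    rintro e he
    rw [hS2, Finset.mem_coe, Finset.mem_sdiff] at he
    exact dl_LRE he.1
  have lv2 : ∀ e ∈ S2, (rc : ℤ) + 2 < lv c (src e) := by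
    intro e he
    obtain ⟨h1, -⟩ := pos2 e he
    rw [← not_le, lv_le]
    omega
  have nF2 : ∀ e ∈ S2 \ ↑E1, e ∉ F := by
    rintro e ⟨he, he'⟩
    have h1 := lv2 e he
    obtain ⟨h2, h3⟩ := pos2 e he
    have h4 := h.ag e (fun h5 => he' (Finset.mem_coe.2 h5)) (h.nτ (by omega) (by omega))
    exact fun h5 => h3 (h4.1 h5)
  have sub2 : S2 \ ↑E1 ⊆ (↑D.edges \ D.cfg F : Set Edg) := by
    intro e he
    have h1 := nF2 e he
    have h2 : e ∈ LRE (c.1 - 10 * U) (c.1 - 8 * U) (c.2 - 10 * U) (38 * U) := by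
      have h3 := he.1
      rw [hS2, Finset.mem_coe, Finset.mem_sdiff] at h3
      exact h3.1
    obtain ⟨h4, h5⟩ := free_edge h.ok (a := c.1 - 10 * U) (b := c.1 - 8 * U) (c := c.2 - 10 * U)
      (d := 38 * U) (by omega) (by omega) (by omega) (by omega) (by omega) (LRE_subset_RE h2)
    exact ⟨Finset.mem_coe.2 h4, fun h6 => h6.elim (fun h7 => h1 (Finset.mem_coe.1 h7)) h5⟩
  have reg2 : ∀ e ∈ S2, (dtgt e).2 ≤ c.2 + 3 * U → e ∈ RegO c rc t b := by
    intro e he h1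
    obtain ⟨h2, -⟩ := pos2 e he
    have h3 : (dtgt e).2 = (src e).2 := rfl
    refine ⟨lv2 e he, ?_, by omega⟩
    have : lv c (src e) ≤ 10 * U := by rw [lv_le]; omega
    omega
  -- the other dual crossings
  have sub3 : (↑(TBE (-(24 * U)) (14 * U) (36 * U) (38 * U) \ G) : Set Edg) ⊆
      (↑D.edges \ D.cfg F : Set Edg) := by
    intro e he
    rw [Finset.mem_coe, Finset.mem_sdiff] at he
    have h2 : 36 * U ≤ (src e).2 := by
      obtain ⟨x, y, _ | _⟩ := e
      · have := he.1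
        rw [mem_TBE_false] at this
        simp only [src_mk]
        omega
      · have := he.1
        rw [mem_TBE_true] at this
        simp only [src_mk]
        omega
    have h3 : (b : ℤ) < lv c (src e) := by rw [← not_le, lv_le]; omega
    obtain ⟨h6, h7⟩ := h.far h3
    have h8 := h.ag e h6 h7
    obtain ⟨h4, h5⟩ := free_edge h.ok (a := -(24 * U)) (b := 14 * U) (c := 36 * U)
      (d := 38 * U) (by omega) (by omega) (by omega) (by omega) (by omega) (TBE_subset_RE he.1)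
    exact ⟨Finset.mem_coe.2 h4,
      fun h6 => h6.elim (fun h7 => he.2 (h8.1 (Finset.mem_coe.1 h7))) h5⟩
  have sub4 : (↑(LRE (10 * U) (14 * U) 0 (38 * U) \ G) : Set Edg) ⊆
      (↑D.edges \ D.cfg F : Set Edg) := by
    intro e he
    rw [Finset.mem_coe, Finset.mem_sdiff] at he
    have h2 : 10 * U ≤ (src e).1 := by
      obtain ⟨x, y, _ | _⟩ := e
      · have := he.1
        rw [mem_LRE_false] at this
        simp only [src_mk]
        omega
      · have := he.1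
        rw [mem_LRE_true] at this
        simp only [src_mk]
        omega
    have h3 : (b : ℤ) < lv c (src e) := by rw [← not_le, lv_le]; omega
    obtain ⟨h6, h7⟩ := h.far h3
    have h8 := h.ag e h6 h7
    obtain ⟨h4, h5⟩ := free_edge h.ok (a := 10 * U) (b := 14 * U) (c := 0)
      (d := 38 * U) (by omega) (by omega) (by omega) (by omega) (by omega) (LRE_subset_RE he.1)
    exact ⟨Finset.mem_coe.2 h4,
      fun h6 => h6.elim (fun h7 => he.2 (h8.1 (Finset.mem_coe.1 h7))) h5⟩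
  have dl3 : ∀ e ∈ (↑(TBE (-(24 * U)) (14 * U) (36 * U) (38 * U) \ G) : Set Edg),
      dl e ∈ RE (-(24 * U) - 1) (14 * U) (36 * U) (38 * U - 1) := by
    intro e he
    rw [Finset.mem_coe, Finset.mem_sdiff] at he
    exact dl_TBE he.1
  have dl4 : ∀ e ∈ (↑(LRE (10 * U) (14 * U) 0 (38 * U) \ G) : Set Edg),
      dl e ∈ RE (10 * U) (14 * U - 1) (0 - 1) (38 * U) := by
    intro e he
    rw [Finset.mem_coe, Finset.mem_sdiff] at he
    exact dl_LRE he.1
  have m2 := dcross_meet (G := (↑D.edges \ D.cfg F : Set Edg)) (A := -(24 * U) - 1)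
    (B := 14 * U) (C := 0 - 1) (D := 38 * U) (a := 10 * U) (b := 14 * U - 1)
    (c := 36 * U) (d := 38 * U - 1) (by omega) (by omega) (by omega) (by omega)
    (by omega) (by omega) k3 sub3 dl3 (by simp only; omega) (by simp only; omega) k4 sub4 dl4
    (by simp only; omega) (by simp only; omega)
  have hout : ((x4, (0 : ℤ) - 1) : Vtx) ∈ D.outer :=
    Or.inl ⟨by simp, by simp only; omega, by simp only; omega⟩
  have join : ∀ g : Vtx, g.2 ≤ 36 * U → DReach (S2 \ ↑E1) (x2', 38 * U) g → g ∈ D.dclu F := by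
    intro g hg hr
    have m1 := dcross_meet (G := (↑D.edges \ D.cfg F : Set Edg)) (A := -(24 * U) - 1)
      (B := 14 * U) (C := c.2 - 10 * U - 1) (D := 38 * U) (a := c.1 - 10 * U)
      (b := c.1 - 8 * U - 1) (c := 36 * U) (d := 38 * U - 1) (by omega) (by omega) (by omega)
      (by omega) (by omega) (by omega) k3 sub3 dl3 (by simp only; omega) (by simp only; omega)
      hr.symm sub2 (fun e he => dl2 e he.1) (by omega) (by simp only; omega)
    exact ⟨_, hout, m2.symm.trans m1⟩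
  -- all the left faces are in one dual cluster
  have hface := (hB ↑F c a b σ T h.ab h.i).2.2.2.2.2.1
  have subG : ((↑F : Set Edg)ᶜ ∩ Gd c a b) ⊆ (↑D.edges \ D.cfg F : Set Edg) := by
    refine h.dsub ?_
    rintro e ⟨h1, h2⟩
    refine ⟨?_, fun h3 => h1 (Finset.mem_coe.2 h3)⟩
    obtain ⟨-, -, h4⟩ := h2
    rw [Bas.inner_iff] at h4
    have h5 : dtgt e = src e := rfl
    rw [h5] at h4
    rw [lv_le]
    omega
  suffices hone : ∃ s, 0 < s ∧ s < T ∧ face (orb (↑F : Set Edg) σ s) ∈ D.dclu F by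
    obtain ⟨s0, h1, h2, h3⟩ := hone
    intro s hs0 hsT
    have r1 := hface s0 h1 h2
    have r2 := hface s hs0 hsT
    exact dclu_trans h3 ((r1.symm.trans r2).mono subG)
  have subR : (((↑F : Set Edg)ᶜ ∩ RegO c rc t b) \ ↑E1) ⊆ (↑D.edges \ D.cfg F : Set Edg) := by
    refine h.dsub ?_
    rintro e ⟨⟨h1, h2⟩, -⟩
    refine ⟨?_, fun h3 => h1 (Finset.mem_coe.2 h3)⟩
    have := h2.2.1
    omega
  have bot : (c.1 - 10 * U ≤ x2 ∧ x2 ≤ c.1 - 8 * U - 1) := by omega
  rcases dsplit (E := E1) k2.symm with hA | ⟨f1, hf1, e1', he1S, he1E, he1f⟩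
  · -- the whole second crossing is unexamined
    obtain ⟨q0, hq0, kq⟩ := dfirst (h := c.2 + 3 * U) (f := (x2, c.2 - 10 * U - 1))
      (g := (x2', 38 * U)) (by simp only; omega) (by simp only; omega) hA.symm
    have hq0x : c.1 - 10 * U ≤ q0.1 ∧ q0.1 ≤ c.1 - 8 * U - 1 :=
      dinv (S := S2) (P := fun f => c.1 - 10 * U ≤ f.1 ∧ f.1 ≤ c.1 - 8 * U - 1) fac2 bot
        (kq.mono (fun e he => he.1.1))
    have reg1 : (↑(TBE (c.1 - 10 * U) (c.1 + 6 * U) (c.2 - 10 * U) (c.2 - 8 * U) \ G) : Set Edg) ⊆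
        ((↑G : Set Edg)ᶜ ∩ RegO c rc t b) := by
      intro e he
      rw [Finset.mem_coe, Finset.mem_sdiff] at he
      have h2 : (c.1 - 10 * U ≤ (src e).1 ∧ (src e).1 ≤ c.1 + 6 * U) ∧
          (c.2 - 10 * U ≤ (src e).2 ∧ (src e).2 < c.2 - 8 * U) := by
        obtain ⟨x, y, _ | _⟩ := e
        · have := he.1
          rw [mem_TBE_false] at this
          simp only [src_mk]
          omega
        · have := he.1
          rw [mem_TBE_true] at this
          simp only [src_mk]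
          omega
      refine ⟨fun h3 => he.2 (Finset.mem_coe.1 h3), ?_, ?_, by omega⟩
      · rw [← not_le, lv_le]; omega
      · have : lv c (src e) ≤ 10 * U := by rw [lv_le]; omega
        omega
    have m := dcross_meet (G := ((↑G : Set Edg)ᶜ ∩ RegO c rc t b)) (A := c.1 - 10 * U - 1)
      (B := c.1 + 6 * U) (C := c.2 - 10 * U - 1) (D := 38 * U) (a := c.1 - 10 * U)
      (b := c.1 - 8 * U - 1) (c := c.2 - 10 * U) (d := c.2 - 8 * U - 1) (by omega) (by omega)
      (by omega) (by omega) (by omega) (by omega) k1 reg1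
      (fun e he => by
        rw [Finset.mem_coe, Finset.mem_sdiff] at he
        exact dl_TBE he.1) (by simp only; omega) (by simp only; omega) kq
      (fun e he => ⟨fun h3 => (pos2 e he.1.1).2 (Finset.mem_coe.1 h3), reg2 e he.1.1 he.2.2⟩)
      (fun e he => dl2 e he.1.1) (by simp only; omega) (by omega)
    have hqp : DReach ((↑G : Set Edg)ᶜ ∩ RegO c rc t b) q0 (c.1 + 6 * U, y1') := by
      have n1 : DReach ((↑G : Set Edg)ᶜ ∩ RegO c rc t b) (x2, c.2 - 10 * U - 1) q0 := by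
        refine kq.mono ?_
        intro e he
        exact ⟨fun h3 => (pos2 e he.1.1).2 (Finset.mem_coe.1 h3), reg2 e he.1.1 he.2.2⟩
      exact (n1.symm.trans m.symm).trans (k1.mono reg1)
    have hp : InSE c rc t b (c.1 + 6 * U, y1') := by
      refine ⟨by simp only; omega, by simp only; omega, ?_, ?_⟩
      · rw [← not_le, lv_le]; simp only; omega
      · have : lv c (c.1 + 6 * U, y1') ≤ 10 * U := by rw [lv_le]; simp only; omega
        omega
    have hq : InNW c rc t b q0 := by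
      refine ⟨by omega, by omega, ?_, ?_⟩
      · rw [← not_le, lv_le]; omega
      · have : lv c q0 ≤ 10 * U := by rw [lv_le]; omega
        omega
    obtain ⟨s, hs0, hsT, hs⟩ := hHd ↑F ↑G c _ _ a b rc t σ τ T T' h.a0 h.arc h.trc h.rcb h.i h.o
      h.dis h.si h.so hp hq (fun e he he' => h.agR he he') hqp
    refine ⟨s, hs0, hsT, ?_⟩
    have g0 := join _ (by simp only; omega) hA
    exact dclu_trans (dclu_trans g0 (kq.mono (fun e he => sub2 he.1))) (hs.mono subR)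
  · have hf1x : c.1 - 10 * U ≤ f1.1 ∧ f1.1 ≤ c.1 - 8 * U - 1 := by
      rcases he1f with h1 | h1
      · rw [← h1]; exact (fac2 _ he1S).1
      · rw [← h1]; exact (fac2 _ he1S).2
    have hf1y : f1.2 ≤ c.2 + t := by
      have h1 := (h.si _ he1E (by have := lv2 _ he1S; omega)).2
      rcases he1f with h2 | h2
      · rw [← h2]
        obtain ⟨x, y, _ | _⟩ := e1'
        · simp only [dsrc_false, src_mk] at h1 ⊢
          exact h1
        · simp only [dsrc_true, src_mk] at h1 ⊢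
          omega
      · rw [← h2]
        exact h1
    have hreg : e1' ∈ RegO c rc t b := by
      refine reg2 _ he1S ?_
      have h1 := (h.si _ he1E (by have := lv2 _ he1S; omega)).2
      have h2 : (dtgt e1').2 = (src e1').2 := rfl
      omega
    obtain ⟨q1, hq1, kq⟩ := dfirst (h := c.2 + 3 * U) (f := f1)
      (g := (x2', 38 * U)) (by omega) (by simp only; omega) hf1.symm
    have hq1x : c.1 - 10 * U ≤ q1.1 ∧ q1.1 ≤ c.1 - 8 * U - 1 :=
      dinv (S := S2) (P := fun f => c.1 - 10 * U ≤ f.1 ∧ f.1 ≤ c.1 - 8 * U - 1) fac2 hf1x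
        (kq.mono (fun e he => he.1.1))
    have hq : InNW c rc t b q1 := by
      refine ⟨by omega, by omega, ?_, ?_⟩
      · rw [← not_le, lv_le]; omega
      · have : lv c q1 ≤ 10 * U := by rw [lv_le]; omega
        omega
    have hqf : DReach (((↑F : Set Edg)ᶜ ∩ RegO c rc t b) \ ↑E1) q1 f1 := by
      refine kq.symm.mono ?_
      intro e he
      exact ⟨⟨fun h3 => nF2 e he.1 (Finset.mem_coe.1 h3), reg2 e he.1.1 he.2.2⟩, he.1.2⟩
    obtain ⟨s, hs0, hsT, hs⟩ := hHf ↑F c q1 f1 a b rc t σ τ T T' h.a0 h.arc h.trc h.rcb h.i h.o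
      h.dis h.si h.so hq hqf _ he1E hreg he1f
    refine ⟨s, hs0, hsT, ?_⟩
    rw [hs]
    exact join f1 (by omega) hf1

/-! ### The walk -/

theorem src_ae (ρ : St) : ((src (ae ρ)).1 ≤ ρ.1.1 ∧ ρ.1.1 - 1 ≤ (src (ae ρ)).1) ∧
    ((src (ae ρ)).2 ≤ ρ.1.2 ∧ ρ.1.2 - 1 ≤ (src (ae ρ)).2) := by
  obtain ⟨⟨x, y⟩, q⟩ := ρ
  cases q <;> simp only [ae_ne, ae_nw, ae_sw, ae_se, src_mk] <;> omega

theorem lv_ae (c : Vtx) (ρ : St) : lv c (src (ae ρ)) ≤ lv c ρ.1 + 1 ∧
    lv c ρ.1 ≤ lv c (src (ae ρ)) + 1 := by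
  have h := src_ae ρ
  have h1 : lv c ρ.1 ≤ lv c ρ.1 := le_rfl
  have h2 : lv c (src (ae ρ)) ≤ lv c (src (ae ρ)) := le_rfl
  constructor
  · rw [lv_le]
    rw [lv_le] at h1
    omega
  · rw [lv_le]
    rw [lv_le] at h2
    omega

theorem lv_ae2 (ρ ρ' : St) : lv (src (ae ρ)) (src (ae ρ')) ≤ sd ρ.1 ρ'.1 + 2 := by
  have h := src_ae ρ
  have h' := src_ae ρ'
  rw [lv_le]
  unfold sd
  simp only [abs_eq_max_neg]
  omega

theorem lv_nonneg (c v : Vtx) : 0 ≤ lv c v := (abs_nonneg _).trans (le_max_left _ _)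

theorem sd_nonneg (u v : Vtx) : 0 ≤ sd u v := (abs_nonneg _).trans (le_max_left _ _)

theorem lf_pos (c f : Vtx) : 1 ≤ lf c f := by
  unfold lf
  simp only [abs_eq_max_neg]
  omega

theorem tri (c u v : Vtx) : lv c u ≤ lv c v + sd u v ∧ lv c v ≤ lv c u + sd u v := by
  unfold lv sd
  simp only [abs_eq_max_neg]
  omega

theorem sd_lv (u c : Vtx) : sd u c = lv c u := rfl

theorem Dat.walk_orb (h : Dat D F G c U a b rc t σ τ T T') {i n : ℕ} {ρ : St}
    (hi : D.walk F i = ρ)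
    (hn : ∀ k < n, lv c (src (ae (orb (↑F : Set Edg) ρ k))) ≤ 16 * U - 1) {k : ℕ} (hk : k ≤ n) :
    D.walk F (i + k) = orb (↑F : Set Edg) ρ k := by
  have h1 := Pool.Agent.N948.IX.congr (↑F : Set Edg) (D.cfg F) ρ n (fun s hs => by
    have h2 := (h.inn (hn s hs)).2
    constructor
    · exact fun h3 => Or.inl h3
    · exact fun h3 => h3.elim id (fun h4 => absurd h4 h2)) k hk
  rw [← h1, ← hi, add_comm]
  exact orb_add _ _ _ _

theorem cutw (hB : St_basic) (hoB : St_oBasic) (hr : St_restr) (hoR : St_oRestr) (hL1 : St_L1)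
    (h : Dat D F G c U a b rc t σ τ T T') {M M' B N L m rs : ℕ} (hU : U = (L * m : ℕ))
    (hB2 : 2 ≤ B) (hN : 81 ≤ N) (hNa : N * a ≤ L * m) (hrs : (rs : ℤ) = 4 * U + 24)
    (li : LeanP (↑F : Set Edg) c M b σ T) (lo : LeanO (↑F : Set Edg) c M b τ T')
    (ci : LnIn (↑F : Set Edg) c (80 * a) (N * a) σ T)
    (co : LnOut (↑F : Set Edg) c (80 * a) (N * a) τ T')
    (sp : ∀ e ∈ Exm (↑F : Set Edg) σ T, ∀ e' ∈ Exm (↑F : Set Edg) τ T',
      10 ≤ lv (src e) (src e') ∧ (lv c (src e) ≤ rs ∨ lv c (src e') ≤ rs →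
      (max (lv c (src e)) (lv c (src e'))) ^ B ≤
        (M' : ℤ) * (b : ℤ) ^ (B - 1) * lv (src e) (src e')))
    (hgd : Gd2 c a (↑G : Set Edg))
    (hclu : ∀ s ≤ T, (orb (↑F : Set Edg) σ s).1 ∈ D.clu F)
    (hdclu : ∀ s, 0 < s → s < T → face (orb (↑F : Set Edg) σ s) ∈ D.dclu F) :
    CutW ((N * a) ^ 2 + N * a + 2) (32 * M + 5 ^ (B - 1) + 2 ^ B * M' * 16 ^ (B - 1) + 1) B
      (L * m) (D.len F) (fun k => (D.walk F k).1) c := by
  have e0 := h.eb
  have e1 := h.hl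
  have e2 := h.hr
  have e3 := h.hh
  have e4 := h.c1
  have e5 := h.c1'
  have e6 := h.c2
  have e7 := h.c2'
  have e8 := h.U0
  have a0 := h.a0
  set R : ℤ := ((N * a : ℕ) : ℤ) with hR
  have hRU : R ≤ U := by rw [hU, hR]; exact_mod_cast hNa
  have haR : (a : ℤ) ≤ R := by
    rw [hR]
    have : 1 * a ≤ N * a := Nat.mul_le_mul (by omega) le_rfl
    omega
  have hRR : 0 ≤ R := by omega
  have haN : 80 * a < N * a := Nat.mul_lt_mul_of_pos_right (by omega) (by omega)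
  -- the restriction of `σ`
  set b4 : ℕ := 4 * (L * m) with hb4
  have eb4 : (b4 : ℤ) = 4 * U := by rw [hb4, hU]; push_cast; ring
  have hab4 : a < b4 := by omega
  have hb4b : b4 ≤ b := by omega
  obtain ⟨s1, hs1T, hI⟩ := (hr ↑F c a b σ T h.ab h.i).2.2.1 b4 hab4 hb4b
  have hs1 : 0 < s1 := by
    rcases Nat.eq_zero_or_pos s1 with h0 | h0
    · exfalso
      rw [h0, orb_zero, Nat.sub_zero] at hI
      have f1 := (hB ↑F c a b4 σ T hab4 hI).2.1
      have f2 := (hB ↑F c a b σ T h.ab h.i).2.1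
      omega
    · exact h0
  -- the continuation
  obtain ⟨n, hn, hn'⟩ := hL1 ↑F ↑G c a (80 * a) (N * a) b a (8 * a) (9 * a) (72 * a) σ τ T T' a0
    le_rfl (by omega) (by omega) (by omega) (by omega) (by omega) haN (by omega) h.i h.o ci co
    (fun e _ h1 h2 => h.ag e h1 h2) hgd.1 hgd.2
  -- the restriction of `τ`
  obtain ⟨U2, hU2, hO⟩ := (hoR ↑F c a b τ T' h.ab h.o).2.1 b4 hab4 hb4b
  have basI := hB ↑F c a b4 _ _ hab4 hI
  have basO := hoB ↑F c a b4 _ _ hab4 hO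
  have hU2' : U2 < T' := by
    rcases Nat.lt_or_eq_of_le hU2 with h0 | h0
    · exact h0
    · exfalso
      have f1 := basO.2.2.1
      have f2 := (hoB ↑F c a b τ T' h.ab h.o).2.2.1
      rw [h0] at f1
      omega
  -- bounds for the vertices
  have vI : ∀ p ≤ T - s1, lv c (orb (↑F : Set Edg) σ (p + s1)).1 ≤ 4 * U := by
    intro p hp
    rw [orb_add]
    rcases Nat.eq_zero_or_pos p with h0 | h0
    · rw [h0, orb_zero, basI.2.1]; omega
    · rcases Nat.lt_or_eq_of_le hp with h2 | h2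
      · have f1 := (hI.mid p h0 h2).2
        have f2 := Bas.cor c (orb (↑F : Set Edg) (orb (↑F : Set Edg) σ s1) p)
        omega
      · rw [h2, basI.2.2.1]; omega
  have vN : ∀ p ≤ n, lv c (orb (↑F : Set Edg) σ (T + p)).1 ≤ R := by
    intro p hp
    have f1 := hn' p hp
    have f2 := Bas.cor c (orb (↑F : Set Edg) σ (T + p))
    omega
  have vO : ∀ p ≤ U2, lv c (orb (↑F : Set Edg) τ p).1 ≤ 4 * U := by
    intro p hp
    rcases Nat.eq_zero_or_pos p with h0 | h0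
    · rw [h0, orb_zero, basO.2.1]; omega
    · rcases Nat.lt_or_eq_of_le hp with h2 | h2
      · have f1 := (hO.mid p h0 h2).2
        have f2 := Bas.cor c (orb (↑F : Set Edg) τ p)
        omega
      · rw [h2, basO.2.2.1]; omega
  -- the walk
  obtain ⟨i, hi, hiw⟩ := H443B.visited h.ok h.FD (σ := orb (↑F : Set Edg) σ s1)
    (hclu s1 hs1T.le) (hdclu s1 hs1 hs1T)
  have oI : ∀ p, orb (↑F : Set Edg) (orb (↑F : Set Edg) σ s1) p = orb (↑F : Set Edg) σ (p + s1) :=
    fun p => (orb_add _ _ _ _).symm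
  have oN : ∀ p, orb (↑F : Set Edg) (orb (↑F : Set Edg) σ s1) (T - s1 + p) =
      orb (↑F : Set Edg) σ (T + p) := by
    intro p
    rw [oI]
    congr 1
    omega
  have oO : ∀ p, orb (↑F : Set Edg) (orb (↑F : Set Edg) σ s1) (T - s1 + n + p) =
      orb (↑F : Set Edg) τ p := by
    intro p
    rw [add_assoc, oN, ← add_assoc, add_comm (T + n), orb_add, hn]
  have vA : ∀ p ≤ T - s1 + n + U2,
      lv c (orb (↑F : Set Edg) (orb (↑F : Set Edg) σ s1) p).1 ≤ 4 * U := by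
    intro p hp
    rcases Nat.lt_or_ge (T - s1) p with h0 | h0
    · rcases Nat.lt_or_ge (T - s1 + n) p with h2 | h2
      · obtain ⟨p', rfl⟩ : ∃ p', p = T - s1 + n + p' := ⟨p - (T - s1 + n), by omega⟩
        rw [oO]
        exact vO p' (by omega)
      · obtain ⟨p', rfl⟩ : ∃ p', p = T - s1 + p' := ⟨p - (T - s1), by omega⟩
        rw [oN]
        have := vN p' (by omega)
        omega
    · rw [oI]
      exact vI p h0
  have wA : ∀ p ≤ T - s1 + n + U2,
      D.walk F (i + p) = orb (↑F : Set Edg) (orb (↑F : Set Edg) σ s1) p := by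
    intro p hp
    refine h.walk_orb hiw (n := T - s1 + n + U2) ?_ hp
    intro k hk
    have f1 := (lv_ae c (orb (↑F : Set Edg) (orb (↑F : Set Edg) σ s1) k)).1
    have f2 := vA k hk.le
    omega
  have wI : ∀ p ≤ T - s1, D.walk F (i + p) = orb (↑F : Set Edg) σ (p + s1) := by
    intro p hp
    rw [wA p (by omega), oI]
  have wN : ∀ p ≤ n, D.walk F (i + (T - s1) + p) = orb (↑F : Set Edg) σ (T + p) := by
    intro p hp
    rw [add_assoc, wA _ (by omega), oN]
  have wO : ∀ p ≤ U2, D.walk F (i + (T - s1) + n + p) = orb (↑F : Set Edg) τ p := by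
    intro p hp
    rw [show i + (T - s1) + n + p = i + (T - s1 + n + p) by ring, wA _ (by omega), oO]
  have hlen : i + (T - s1) + n + U2 ≤ D.len F := by
    by_contra hcon
    push Not at hcon
    obtain ⟨p, hp⟩ : ∃ p, D.len F = i + p := ⟨D.len F - i, by omega⟩
    have f1 := H984N.walk_len h.ok h.FD
    rw [hp, wA p (by omega)] at f1
    have f2 := vA p (by omega)
    rw [f1] at f2
    have f3 : lv c (Dm.stop).1 ≤ 4 * U ↔ _ := lv_le
    rw [f3] at f2
    simp only [Dm.stop] at f2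
    omega
  -- constants
  set K : ℤ := ((32 * M + 5 ^ (B - 1) + 2 ^ B * M' * 16 ^ (B - 1) + 1 : ℕ) : ℤ) with hK
  set κ : ℤ := (((N * a) ^ 2 + N * a + 2 : ℕ) : ℤ) with hκ
  have hκR : κ = R ^ 2 + R + 2 := by rw [hκ, hR]; push_cast; ring
  have hK1 : K = 32 * M + 5 ^ (B - 1) + 2 ^ B * M' * 16 ^ (B - 1) + 1 := by
    rw [hK]; push_cast; ring
  have p5 : (0 : ℤ) ≤ 5 ^ (B - 1) := by positivity
  have pM : (0 : ℤ) ≤ 2 ^ B * M' * 16 ^ (B - 1) := by positivity
  have pM0 : (0 : ℤ) ≤ 32 * M := by positivity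
  have hUp : (0 : ℤ) ≤ U ^ (B - 1) := by positivity
  have hRsq : 0 ≤ R ^ 2 := by positivity
  have quadK : ∀ x x' : ℤ, 0 ≤ x → x' ^ 2 ≤ 32 * M * U * (x + 1) → x' ^ 2 ≤ K * U * (x + κ) := by
    intro x x' hx hx'
    refine hx'.trans ?_
    apply mul_le_mul _ (by omega) (by omega) (by positivity)
    apply mul_le_mul_of_nonneg_right _ (by omega)
    omega
  have innK : ∀ x x' : ℤ, 0 ≤ x → x ≤ R → 0 ≤ x' → x ^ 2 ≤ K * U * (x' + κ) := by
    intro x x' hx hxR hx'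
    have f1 : x ^ 2 ≤ R ^ 2 := pow_le_pow_left₀ hx hxR 2
    have f2 : 1 ≤ K * U := by
      have : 1 ≤ K := by omega
      nlinarith
    have f3 : 1 * (x' + κ) ≤ K * U * (x' + κ) := mul_le_mul_of_nonneg_right f2 (by omega)
    omega
  have sepK : ∀ X d : ℤ, 0 ≤ X → X ≤ 5 * U → 0 ≤ d → X ≤ d + R →
      X ^ B ≤ K * U ^ (B - 1) * (d + κ) := by
    intro X d hX hXU hd hXd
    refine (sep1 (by omega) hX hXU hXd).trans ?_
    apply mul_le_mul _ (by omega) (by omega) (by positivity)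
    apply mul_le_mul_of_nonneg_right _ hUp
    omega
  have hUc : ((L * m : ℕ) : ℤ) = U := hU.symm
  refine ⟨i, i + (T - s1), i + (T - s1) + n + U2, by omega, by omega, hlen, ?_, ?_, ?_, ?_, ?_, ?_⟩
  · show sd (D.walk F (i + (T - s1))).1 c ≤ κ
    have f1 := wN 0 (by omega)
    rw [add_zero] at f1
    rw [f1, sd_lv]
    have f2 := vN 0 (by omega)
    omega
  · show 3 * ((L * m : ℕ) : ℤ) ≤ sd (D.walk F i).1 c
    rw [hUc, hiw, sd_lv, basI.2.1]
    omega
  · show 3 * ((L * m : ℕ) : ℤ) ≤ sd (D.walk F (i + (T - s1) + n + U2)).1 c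
    rw [hUc, wO U2 le_rfl, sd_lv, basO.2.2.1]
    omega
  · intro s s' hs hss hs'
    show (sd (D.walk F s').1 c) ^ 2 ≤ K * ((L * m : ℕ) : ℤ) * (sd (D.walk F s).1 c + κ)
    rw [hUc]
    obtain ⟨p, rfl⟩ : ∃ p, s = i + p := ⟨s - i, by omega⟩
    obtain ⟨p', rfl⟩ : ∃ p', s' = i + p' := ⟨s' - i, by omega⟩
    rw [wI p (by omega), wI p' (by omega), sd_lv, sd_lv]
    refine quadK _ _ (lv_nonneg _ _) ?_
    have f1 := li (p + s1) (p' + s1) (by omega) (by omega)
    have f2 := Bas.cor c (orb (↑F : Set Edg) σ (p + s1))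
    have f3 := Bas.cor c (orb (↑F : Set Edg) σ (p' + s1))
    exact quad (b := (b : ℤ)) (by positivity) (by positivity) (by omega) (by omega) (lf_pos _ _)
      (lv_nonneg _ _) (by omega) (lf_pos _ _) (lv_nonneg _ _) f1
  · intro s s' hs hss hs'
    show (sd (D.walk F s).1 c) ^ 2 ≤ K * ((L * m : ℕ) : ℤ) * (sd (D.walk F s').1 c + κ)
    rw [hUc]
    rcases Nat.lt_or_ge (i + (T - s1) + n) s with h0 | h0
    · obtain ⟨p, rfl⟩ : ∃ p, s = i + (T - s1) + n + p := ⟨s - (i + (T - s1) + n), by omega⟩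
      obtain ⟨p', rfl⟩ : ∃ p', s' = i + (T - s1) + n + p' := ⟨s' - (i + (T - s1) + n), by omega⟩
      rw [wO p (by omega), wO p' (by omega), sd_lv, sd_lv]
      refine quadK _ _ (lv_nonneg _ _) ?_
      have f1 := lo p p' (by omega) (by omega)
      have f2 := Bas.cor c (orb (↑F : Set Edg) τ p)
      have f3 := Bas.cor c (orb (↑F : Set Edg) τ p')
      exact quad (b := (b : ℤ)) (by positivity) (by positivity) (by omega) (by omega) (lf_pos _ _)
        (lv_nonneg _ _) (by omega) (lf_pos _ _) (lv_nonneg _ _) f1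
    · obtain ⟨p, rfl⟩ : ∃ p, s = i + (T - s1) + p := ⟨s - (i + (T - s1)), by omega⟩
      rw [wN p (by omega), sd_lv, sd_lv]
      exact innK _ _ (lv_nonneg _ _) (vN p (by omega)) (lv_nonneg _ _)
  · intro s s' hs hsj hjs' hs'
    show (max (sd (D.walk F s).1 c) (sd (D.walk F s').1 c)) ^ B ≤
      K * ((L * m : ℕ) : ℤ) ^ (B - 1) * (sd (D.walk F s).1 (D.walk F s').1 + κ)
    rw [hUc, sd_lv, sd_lv]
    have hd0 := sd_nonneg (D.walk F s).1 (D.walk F s').1
    obtain ⟨t1, t2⟩ := tri c (D.walk F s).1 (D.walk F s').1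
    have x0 := lv_nonneg c (D.walk F s).1
    have y0 := lv_nonneg c (D.walk F s').1
    obtain ⟨p, rfl⟩ : ∃ p, s = i + p := ⟨s - i, by omega⟩
    have xU : lv c (D.walk F (i + p)).1 ≤ 4 * U := by
      rw [wI p (by omega)]
      exact vI p (by omega)
    have yU : lv c (D.walk F s').1 ≤ 4 * U := by
      obtain ⟨p', rfl⟩ : ∃ p', s' = i + p' := ⟨s' - i, by omega⟩
      rw [wA p' (by omega)]
      exact vA p' (by omega)
    rcases Nat.lt_or_ge (i + (T - s1) + n) s' with h0 | h0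
    · rcases Nat.lt_or_ge p (T - s1) with h2 | h2
      · -- on the two crossings
        obtain ⟨p', rfl⟩ : ∃ p', s' = i + (T - s1) + n + p' := ⟨s' - (i + (T - s1) + n), by omega⟩
        rw [wI p (by omega), wO p' (by omega)] at *
        have g1 : ae (orb (↑F : Set Edg) σ (p + s1)) ∈ Exm (↑F : Set Edg) σ T :=
          mem_Exm.2 ⟨p + s1, by omega, rfl⟩
        have g2 : ae (orb (↑F : Set Edg) τ p') ∈ Exm (↑F : Set Edg) τ T' :=
          mem_Exm.2 ⟨p', by omega, rfl⟩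
        obtain ⟨-, g3⟩ := sp _ g1 _ g2
        have l1 := lv_ae c (orb (↑F : Set Edg) σ (p + s1))
        have l2 := lv_ae c (orb (↑F : Set Edg) τ p')
        have l3 := lv_ae2 (orb (↑F : Set Edg) σ (p + s1)) (orb (↑F : Set Edg) τ p')
        have g4 := g3 (Or.inl (by omega))
        have l4 := lv_nonneg c (src (ae (orb (↑F : Set Edg) σ (p + s1))))
        refine (sep2 (U := U) (Y := max (lv c (src (ae (orb (↑F : Set Edg) σ (p + s1)))))
          (lv c (src (ae (orb (↑F : Set Edg) τ p'))))) (le_max_of_le_left (lv_nonneg _ _))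
          (le_max_of_le_left (lv_nonneg _ _)) (by omega) (by positivity) (by positivity)
          (by omega) (by omega) g4 l3 hd0).trans ?_
        apply mul_le_mul _ (by omega) (by omega) (by positivity)
        apply mul_le_mul_of_nonneg_right _ hUp
        omega
      · have f1 := vN 0 (by omega)
        have f2 := wN 0 (by omega)
        simp only [add_zero] at f1 f2
        have f3 : p = T - s1 := by omega
        subst f3
        rw [f2] at *
        exact sepK _ _ (le_max_of_le_left x0) (by omega) hd0 (by omega)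
    · obtain ⟨p', rfl⟩ : ∃ p', s' = i + (T - s1) + p' := ⟨s' - (i + (T - s1)), by omega⟩
      have f1 := vN p' (by omega)
      rw [wN p' (by omega)] at *
      exact sepK _ _ (le_max_of_le_left x0) (by omega) hd0 (by omega)

end Pool.Agent.N948.IX.X26

namespace Pool.Agent.N948.IX

open H974 H906.Cyl H12S Finset H984P H342P X26

/-- The deterministic part. -/
theorem det5 (hB : St_basic) (hoB : St_oBasic) (hr : St_restr) (hoR : St_oRestr) (hL1 : St_L1)
    (hHo : St_HITo) (hHd : St_HITd) (hHf : St_HITf) : St_DET5 := by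
  intro M M' B N a L hL ha hB2 hN hM hM'
  refine ⟨(N * a) ^ 2 + N * a + 2, 32 * M + 5 ^ (B - 1) + 2 ^ B * M' * 16 ^ (B - 1) + 1,
    N * a + 64, Nat.le_add_left _ _, ?_⟩
  intro D F hD hF m hm hl hrr hh v hv hE
  obtain ⟨σ, τ, T, T', G, hG, hag, hgd, ⟨hR1, hR2, hR3⟩, hD1, hD2, hD3, hD4⟩ := hE
  rw [Pool.Agent.W801.DPdet.mem_core4] at hv
  have hLm : 2 * m ≤ L * m := Nat.mul_le_mul_right m hL
  have hNa : a ≤ N * a := Nat.le_mul_of_pos_left a (by omega)
  have e16 : 16 * L * m = 16 * (L * m) := by ring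
  have e4 : 4 * L * m = 4 * (L * m) := by ring
  have eb : ((16 * L * m - 1 : ℕ) : ℤ) = 16 * ((L * m : ℕ) : ℤ) - 1 := by omega
  have erc : ((4 * L * m + 20 : ℕ) : ℤ) = 4 * ((L * m : ℕ) : ℤ) + 20 := by omega
  have hab : a < 16 * L * m - 1 := by omega
  have hdis : Disjoint (Exm (↑F : Set Edg) σ T) (Exm (↑F : Set Edg) τ T') := by
    rw [Finset.disjoint_left]
    intro e h1 h2
    have h3 := (hG.sp e h1 e h2).1
    unfold lv at h3
    simp at h3
  have hdat : Dat D F G v ((L * m : ℕ) : ℤ) a (16 * L * m - 1) (4 * L * m + 20) (2 * m + 4) σ τ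
      T T' := by
    refine ⟨hD, hF, by omega, by omega, by omega, eb, erc, by omega, hl, hrr, hh, hv.1.1, hv.1.2,
      hv.2.1, hv.2.2, hG.i, hG.o, hdis, hG.si, hG.so, hag, ?_, ?_⟩
    · intro e he
      obtain ⟨s, hs, rfl⟩ := mem_Exm.1 he
      exact ((hB _ _ _ _ _ _ hab hG.i).2.2.2.1 s hs).1.2
    · intro e he
      obtain ⟨s, hs, rfl⟩ := mem_Exm.1 he
      exact ((hoB _ _ _ _ _ _ hab hG.o).2.2.2.1 s hs).1.2
  have hclu := right_clu hB hHo hdat hR1 hR2 hR3
  have hdclu := left_dclu hB hHd hHf hdat hD1 hD2 hD3 hD4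
  exact cutw hB hoB hr hoR hL1 hdat (rs := 4 * L * m + 24) rfl hB2 hN (by omega) (by omega)
    hG.li hG.lo hG.ci hG.co hG.sp hgd hclu hdclu

end Pool.Agent.N948.IX
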