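import Pool.Agent.N948.IX.Lim0
import Pool.Agent.N948.IX.Bas
import Pool.Agent.TH990.HP.Det
import Pool.Agent.TH990.FU.CovF

/-!
# Project IX (helper948): the local cut points of the limits of the exploration path (proof)
-/

set_option autoImplicit false

namespace Pool.Agent.N948.IX.Lim

open Pool.Agent.N948.IX
open H974 H12S Finset H389NS H984P H342P Pool.Agent.TH990.FU
open MeasureTheory Filter Topology Pool.Agent.W92.DP Pool.Agent.W462.DPL Pool.Agent.W424.OD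
open H984H (Conf perc opn path place gam curve bx cut lawH)
open Pool.Agent.TH990.HP
open scoped ENNReal NNReal

/-! ### Transfer (as in `TH990.HP.Lim`) -/

/-- The open half-plane. -/
def Hp : Set ℂ := {w | 0 < w.im}

theorem Hp_open : IsOpen Hp := isOpen_lt continuous_const Complex.continuous_im

theorem ev_cont (s : unitInterval) (z : ℂ) :
    Continuous (fun f : C(unitInterval, ℂ) => dist (f s) z) :=
  (continuous_eval_const s).dist continuous_const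

theorem law_le {n : ℕ} {G : Set C(unitInterval, ℂ)} (hG : IsOpen G) {ρ : ℤ}
    {A : Finset Edg → Prop} {x : ℝ} (h : ∀ ω, curve n ω ∈ G → A (cut ω ρ))
    (hx : Pr (fun _ => (1/2:ℝ)) (bx ρ).edges A ≤ x) :
    (lawH n : Measure C(unitInterval, ℂ)) G ≤ ENNReal.ofReal x := by
  rw [H984H.lawH_apply n hG.measurableSet]
  apply ENNReal.ofReal_le_ofReal
  have h1 : perc.real {ω | curve n ω ∈ G} ≤ perc.real {ω | A (cut ω ρ)} :=
    measureReal_mono (fun ω hω => h ω hω)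
  rw [H984H.perc_cut ρ A] at h1
  exact h1.trans hx

theorem law_one {n : ℕ} {G : Set C(unitInterval, ℂ)} {x : ℝ} (hx : 1 ≤ x) :
    (lawH n : Measure C(unitInterval, ℂ)) G ≤ ENNReal.ofReal x :=
  prob_le_one.trans (by rw [← ENNReal.ofReal_one]; exact ENNReal.ofReal_le_ofReal hx)

theorem big_pow {r d C M s : ℝ} (hr : 0 < r) (hrd : r ≤ d) (hC : 1 ≤ C) (hM : 1 ≤ M) (hs : 0 < s)
    (h : ¬ M * r ≤ d) : 1 ≤ C * M ^ s * (r / d) ^ s := by
  push Not at h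
  have hd0 : 0 < d := hr.trans_le hrd
  have h2 : 1 ≤ M * (r / d) := by
    rw [← mul_div_assoc, le_div_iff₀ hd0]
    linarith
  have h3 : 1 ≤ (M * (r / d)) ^ s := Real.one_le_rpow h2 hs.le
  rw [Real.mul_rpow (by linarith) (by positivity)] at h3
  nlinarith

theorem blk_sub {ρ : ℤ} {c : ℤ × ℤ} {K k : ℕ} (h0 : 0 < c.2 - K) (h1 : -ρ < c.1 - K)
    (h2 : c.1 + K < ρ) (h3 : c.2 + K < ρ) (hk : k ≤ K) : blk c k ⊆ (bx ρ).edges := by
  refine RE_subset ?_ ?_ ?_ ?_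
  · show -ρ ≤ _
    omega
  · show _ ≤ ρ
    omega
  · omega
  · show _ ≤ ρ
    omega

theorem sc_tendsto {φ : ℕ → ℕ} (hφ : Tendsto φ atTop atTop) :
    Tendsto (fun i => sc (φ i)) atTop (𝓝 0) :=
  (tendsto_rpow_neg_atTop (by norm_num : (0:ℝ) < 4/7)).comp
    (tendsto_natCast_atTop_atTop.comp hφ)

/-! ### The events -/

/-- A crossing towards `z` during `[s1, s2]` and a crossing away from `z` during `[u1, u2]`, at
distance more than `ζ` from each other. -/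
def E5 (z : ℂ) (r ρ ζ : ℝ) : Set C(unitInterval, ℂ) :=
  {f | ∃ s1 s2 u1 u2 : unitInterval, (s1 ≤ s2 ∧ u1 ≤ u2) ∧ ρ < dist (f s1) z ∧
    dist (f s2) z < r ∧ dist (f u1) z < r ∧ ρ < dist (f u2) z ∧
    ∀ p ∈ Set.Icc s1 s2 ×ˢ Set.Icc u1 u2, ζ < dist (f p.1) (f p.2)}

theorem sep_open (K : Set (unitInterval × unitInterval)) (hK : IsCompact K) (ζ : ℝ) :
    IsOpen {f : C(unitInterval, ℂ) | ∀ p ∈ K, ζ < dist (f p.1) (f p.2)} := by
  rw [isOpen_iff_mem_nhds]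
  intro f hf
  refine hK.eventually_forall_of_forall_eventually
    (P := fun (f : C(unitInterval, ℂ)) p => ζ < dist (f p.1) (f p.2)) ?_
  intro p hp
  have hc : Continuous (fun q : C(unitInterval, ℂ) × (unitInterval × unitInterval) =>
      dist (q.1 q.2.1) (q.1 q.2.2)) := by fun_prop
  exact hc.continuousAt.eventually (lt_mem_nhds (hf p hp))

theorem E5_open (z : ℂ) (r ρ ζ : ℝ) : IsOpen (E5 z r ρ ζ) := by
  have h : E5 z r ρ ζ = ⋃ (s1 : unitInterval) (s2 : unitInterval) (u1 : unitInterval)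
      (u2 : unitInterval) (_ : s1 ≤ s2 ∧ u1 ≤ u2),
      ({f : C(unitInterval, ℂ) | ρ < dist (f s1) z} ∩ {f : C(unitInterval, ℂ) | dist (f s2) z < r} ∩
        {f : C(unitInterval, ℂ) | dist (f u1) z < r} ∩ {f : C(unitInterval, ℂ) | ρ < dist (f u2) z} ∩
        {f : C(unitInterval, ℂ) | ∀ p ∈ Set.Icc s1 s2 ×ˢ Set.Icc u1 u2,
          ζ < dist (f p.1) (f p.2)}) := by
    ext f
    simp only [E5, Set.mem_ofPred_eq, Set.mem_iUnion, Set.mem_inter_iff, exists_prop]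
    constructor
    · rintro ⟨s1, s2, u1, u2, h0, h1, h2, h3, h4, h5⟩
      exact ⟨s1, s2, u1, u2, h0, ⟨⟨⟨h1, h2⟩, h3⟩, h4⟩, h5⟩
    · rintro ⟨s1, s2, u1, u2, h0, ⟨⟨⟨h1, h2⟩, h3⟩, h4⟩, h5⟩
      exact ⟨s1, s2, u1, u2, h0, h1, h2, h3, h4, h5⟩
  rw [h]
  refine isOpen_iUnion fun s1 => isOpen_iUnion fun s2 => isOpen_iUnion fun u1 =>
    isOpen_iUnion fun u2 => isOpen_iUnion fun _ => ?_
  exact ((((isOpen_lt continuous_const (ev_cont s1 z)).inter
    (isOpen_lt (ev_cont s2 z) continuous_const)).inter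
    (isOpen_lt (ev_cont u1 z) continuous_const)).inter
    (isOpen_lt continuous_const (ev_cont u2 z))).inter
    (sep_open _ (isCompact_Icc.prod isCompact_Icc) ζ)

theorem E5_anti {z : ℂ} {r ρ ζ ζ' : ℝ} (h : ζ' ≤ ζ) : E5 z r ρ ζ ⊆ E5 z r ρ ζ' := by
  rintro f ⟨s1, s2, u1, u2, h0, h1, h2, h3, h4, h5⟩
  exact ⟨s1, s2, u1, u2, h0, h1, h2, h3, h4, fun p hp => h.trans_lt (h5 p hp)⟩

/-! ### The points -/

/-- The cut points at scale `η`. -/
def SC (η : ℝ) (f : C(unitInterval, ℂ)) : Set ℂ :=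
  {z | ∃ s t u : unitInterval, (s < t ∧ t < u) ∧ f t = z ∧ η ≤ dist (f s) z ∧ η ≤ dist (f u) z ∧
    Disjoint (f '' Set.Ico s t) (f '' Set.Ioc t u)}

theorem LCut_sub {f : C(unitInterval, ℂ)}
    (hf : ∀ s t : unitInterval, s < t → ∃ u ∈ Set.Icc s t, f u ≠ f s) :
    LCut f ⊆ ⋃ i : ℕ, SC (1 / ((i:ℝ) + 1)) f := by
  rintro z ⟨s, t, u, hst, htu, hz, hd⟩
  -- the time before
  obtain ⟨s', hs', hs2⟩ : ∃ s' ∈ Set.Ico s t, f s' ≠ z := by
    by_cases h : f s = z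
    · obtain ⟨v, hv, hv2⟩ := hf s t hst
      rw [h] at hv2
      refine ⟨v, ⟨hv.1, lt_of_le_of_ne hv.2 ?_⟩, hv2⟩
      rintro rfl
      exact hv2 hz
    · exact ⟨s, ⟨le_rfl, hst⟩, h⟩
  obtain ⟨u', hu', hu2⟩ : ∃ u' ∈ Set.Ioc t u, f u' ≠ z := by
    obtain ⟨v, hv, hv2⟩ := hf t u htu
    rw [hz] at hv2
    refine ⟨v, ⟨lt_of_le_of_ne hv.1 ?_, hv.2⟩, hv2⟩
    rintro rfl
    exact hv2 hz
  have h1 : 0 < dist (f s') z := dist_pos.2 hs2
  have h2 : 0 < dist (f u') z := dist_pos.2 hu2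
  obtain ⟨i, hi⟩ := exists_nat_one_div_lt (lt_min h1 h2)
  refine Set.mem_iUnion.2 ⟨i, s', t, u', ⟨hs'.2, hu'.1⟩, hz, (hi.trans_le (min_le_left _ _)).le,
    (hi.trans_le (min_le_right _ _)).le, hd.mono (Set.image_mono ?_) (Set.image_mono ?_)⟩
  · exact Set.Ico_subset_Ico_left hs'.1
  · exact Set.Ioc_subset_Ioc_right hu'.2

theorem E5_of {η r ρ : ℝ} {f : C(unitInterval, ℂ)} {z w : ℂ} (hw : w ∈ SC η f)
    (hwz : dist w z < r) (hρ : ρ + r ≤ η) : f ∈ ⋃ j : ℕ, E5 z r ρ (1 / ((j:ℝ) + 1)) := by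
  obtain ⟨s, t, u, ⟨hst, htu⟩, rfl, h1, h2, hd⟩ := hw
  have hc : Continuous (fun v => dist (f v) z) := by fun_prop
  have hev : ∀ᶠ v in 𝓝 t, dist (f v) z < r := hc.continuousAt.eventually (gt_mem_nhds hwz)
  -- the times near `t`
  obtain ⟨s2, hs2, hs3⟩ : ∃ s2 ∈ Set.Ico s t, dist (f s2) z < r := by
    have h3 : ∀ᶠ v in 𝓝[<] t, dist (f v) z < r := hev.filter_mono nhdsWithin_le_nhds
    have h4 : Set.Ico s t ∈ 𝓝[<] t := Ico_mem_nhdsLT hst
    have : (𝓝[<] t).NeBot := nhdsLT_neBot_of_exists_lt ⟨s, hst⟩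
    obtain ⟨v, hv1, hv2⟩ := (h3.and h4).exists
    exact ⟨v, hv2, hv1⟩
  obtain ⟨u1, hu1, hu3⟩ : ∃ u1 ∈ Set.Ioc t u, dist (f u1) z < r := by
    have h3 : ∀ᶠ v in 𝓝[>] t, dist (f v) z < r := hev.filter_mono nhdsWithin_le_nhds
    have h4 : Set.Ioc t u ∈ 𝓝[>] t := Ioc_mem_nhdsGT htu
    have : (𝓝[>] t).NeBot := nhdsGT_neBot_of_exists_gt ⟨u, htu⟩
    obtain ⟨v, hv1, hv2⟩ := (h3.and h4).exists
    exact ⟨v, hv2, hv1⟩
  have hK1 : IsCompact (f '' Set.Icc s s2) := isCompact_Icc.image f.continuous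
  have hK2 : IsCompact (f '' Set.Icc u1 u) := isCompact_Icc.image f.continuous
  have hdis : Disjoint (f '' Set.Icc s s2) (f '' Set.Icc u1 u) := by
    refine hd.mono (Set.image_mono ?_) (Set.image_mono ?_)
    · exact fun v hv => ⟨hv.1, hv.2.trans_lt hs2.2⟩
    · exact fun v hv => ⟨hu1.1.trans_le hv.1, hv.2⟩
  obtain ⟨δ, hδ, hth⟩ := hdis.exists_thickenings hK1 hK2.isClosed
  obtain ⟨j, hj⟩ := exists_nat_one_div_lt hδ
  have e1 := dist_triangle (f s) z (f t)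
  have e2 := dist_triangle (f u) z (f t)
  rw [dist_comm z (f t)] at e1 e2
  refine Set.mem_iUnion.2 ⟨j, s, s2, u1, u, ⟨hs2.1, hu1.2⟩, by linarith, hs3, hu3, by linarith, ?_⟩
  rintro ⟨x, y⟩ ⟨hx, hy⟩
  refine hj.trans_le ?_
  by_contra hcon
  push Not at hcon
  refine Set.disjoint_left.1 hth (Metric.self_subset_thickening hδ _
    (⟨x, hx, rfl⟩ : f x ∈ f '' Set.Icc s s2)) ?_
  rw [Metric.mem_thickening_iff]
  exact ⟨f y, ⟨y, hy, rfl⟩, hcon⟩

/-! ### Sequences -/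

theorem seq_up {h : ℕ → ℤ} {A B : ℤ} (hAB : A ≤ B) {J : ℕ} (h0 : h 0 < A) (hJ : B < h J) :
    ∃ s T : ℕ, s < T ∧ T ≤ J ∧ h s < A ∧ B < h T ∧ ∀ j, s < j → j < T → A ≤ h j ∧ h j ≤ B := by
  classical
  have hex : ∃ T, B < h T := ⟨J, hJ⟩
  set T := Nat.find hex with hT
  have hT1 : B < h T := Nat.find_spec hex
  have hT2 : ∀ j < T, h j ≤ B := fun j hj => not_lt.1 (Nat.find_min hex hj)
  have hTJ : T ≤ J := Nat.find_min' hex hJ
  have hT0 : 0 < T := by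
    rcases Nat.eq_zero_or_pos T with h1 | h1
    · rw [h1] at hT1
      omega
    · exact h1
  -- the last time below A
  set s := Nat.findGreatest (fun j => h j < A) (T - 1) with hs
  have hs1 : h s < A := Nat.findGreatest_spec (P := fun j => h j < A) (Nat.zero_le (T - 1)) h0
  have hs2 : s ≤ T - 1 := Nat.findGreatest_le _
  refine ⟨s, T, by omega, hTJ, hs1, hT1, fun j hj hjT => ⟨?_, hT2 j hjT⟩⟩
  by_contra hcon
  push Not at hcon
  have h3 := Nat.le_findGreatest (P := fun j => h j < A) (m := j) (n := T - 1) (by omega) hcon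
  omega

theorem seq_down {h : ℕ → ℤ} {A B : ℤ} (hAB : A ≤ B) {J : ℕ} (h0 : B < h 0) (hJ : h J < A) :
    ∃ s T : ℕ, s < T ∧ T ≤ J ∧ B < h s ∧ h T < A ∧ ∀ j, s < j → j < T → A ≤ h j ∧ h j ≤ B := by
  obtain ⟨s, T, h1, h2, h3, h4, h5⟩ := seq_up (h := fun j => - h j) (A := -B) (B := -A) (J := J)
    (by omega) (by simpa using h0) (by simpa using hJ)
  refine ⟨s, T, h1, h2, by simpa using h3, by simpa using h4, fun j hj hjT => ?_⟩
  have h6 := h5 j hj hjT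
  omega

/-! ### Squares -/

theorem lf_ne (c f : Vtx) (k : ℤ) : lf c f ≠ 2 * k := by
  unfold lf
  rw [abs_eq_max_neg, abs_eq_max_neg]
  omega

theorem BX_iff {c : Vtx} {K : ℕ} {v : Vtx} : BX c K v ↔ lv c v ≤ K := by
  unfold BX inR lv
  rw [abs_eq_max_neg, abs_eq_max_neg]
  omega

/-! ### Locality -/

theorem exm_congr {F F' : Set Edg} {σ : St} {T : ℕ}
    (h : ∀ s < T, (ae (orb F σ s) ∈ F ↔ ae (orb F σ s) ∈ F')) : Exm F' σ T = Exm F σ T := by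
  have h1 := congr F F' σ T h
  ext e
  rw [mem_Exm, mem_Exm]
  constructor
  · rintro ⟨s, hs, rfl⟩
    exact ⟨s, hs, by rw [h1 s hs.le]⟩
  · rintro ⟨s, hs, rfl⟩
    exact ⟨s, hs, by rw [h1 s hs.le]⟩

theorem in_congr {F F' : Set Edg} {c : Vtx} {a b : ℕ} {σ : St} {T : ℕ}
    (h : ∀ s < T, (ae (orb F σ s) ∈ F ↔ ae (orb F σ s) ∈ F')) (hI : InLeg F c a b σ T) :
    InLeg F' c a b σ T := by
  have h1 := congr F F' σ T h
  refine ⟨hI.pos, hI.st, fun s hs hsT => ?_, ?_⟩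
  · rw [h1 s hsT.le]
    exact hI.mid s hs hsT
  · rw [h1 T le_rfl]
    exact hI.en

theorem out_congr {F F' : Set Edg} {c : Vtx} {a b : ℕ} {σ : St} {T : ℕ}
    (h : ∀ s < T, (ae (orb F σ s) ∈ F ↔ ae (orb F σ s) ∈ F')) (hI : OutLeg F c a b σ T) :
    OutLeg F' c a b σ T := by
  have h1 := congr F F' σ T h
  refine ⟨hI.pos, hI.st, fun s hs hsT => ?_, ?_⟩
  · rw [h1 s hsT.le]
    exact hI.mid s hs hsT
  · rw [h1 T le_rfl]
    exact hI.en

theorem box_of_face {c : Vtx} {b : ℕ} {ρ : St} (h : lf c (face ρ) < 2 * (b : ℤ)) :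
    lv c (src (ae ρ)) ≤ b ∧ lv c (tgt (ae ρ)) ≤ b := by
  have h1 := Bas.cor c ρ
  have h2 := Bas.cor_mv c ρ
  rcases p2_ends ρ with ⟨e1, e2⟩ | ⟨e1, e2⟩ <;> rw [e1, e2] <;> omega

/-- `IO` only depends on the edges in the square of radius `b`. -/
theorem IO_loc {F F' : Set Edg} {c : Vtx} {n a b : ℕ} (hab : a < b)
    (h : ∀ e, lv c (src e) ≤ b → lv c (tgt e) ≤ b → (e ∈ F ↔ e ∈ F')) (hI : IO n c a b F) :
    IO n c a b F' := by
  obtain ⟨σ, T, τ, U, h1, h2, h3⟩ := hI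
  have k1 : ∀ s < T, (ae (orb F σ s) ∈ F ↔ ae (orb F σ s) ∈ F') := by
    intro s hs
    have h4 := (basic F c a b σ T hab h1).2.2.2.1 s hs
    exact h _ h4.1.2 h4.2.2
  have k2 : ∀ s < U, (ae (orb F τ s) ∈ F ↔ ae (orb F τ s) ∈ F') := by
    intro s hs
    have h4 : lf c (face (orb F τ s)) < 2 * (b : ℤ) := by
      rcases Nat.eq_zero_or_pos s with rfl | h0
      · have := h2.st
        rw [orb_zero]
        omega
      · exact (h2.mid s h0 hs).2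
    have h5 := box_of_face h4
    exact h _ h5.1 h5.2
  refine ⟨σ, T, τ, U, in_congr k1 h1, out_congr k2 h2, ?_⟩
  rw [exm_congr k1, exm_congr k2]
  exact h3

/-! ### The path -/

theorem orb_path (ω : Conf) (k : ℕ) : ∀ j ≤ k, orb (opn ω) (path ω k) j = path ω (k - j) := by
  intro j
  induction j with
  | zero => intro _; rfl
  | succ j ih =>
    intro hj
    rw [orb_succ, ih (by omega)]
    have h := nxt_path ω (k - (j + 1))
    rw [show k - (j + 1) + 1 = k - j by omega] at h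
    exact h

/-- crossing outwards -/
theorem out_of {ω : Conf} {c : Vtx} {a b i k : ℕ} (hab : a ≤ b) (hik : i ≤ k)
    (hk : lf c (face (path ω k)) < 2 * (a : ℤ)) (hi : 2 * (b : ℤ) < lf c (face (path ω i))) :
    ∃ m T : ℕ, m ≤ k ∧ T ≤ m ∧ i ≤ m - T ∧ OutLeg (opn ω) c a b (path ω m) T := by
  obtain ⟨s, T, h1, h2, h3, h4, h5⟩ := seq_up (h := fun j => lf c (face (path ω (k - j))))
    (A := 2 * (a : ℤ)) (B := 2 * (b : ℤ)) (J := k - i) (by omega) (by simpa using hk)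
    (by simpa [Nat.sub_sub_self hik] using hi)
  refine ⟨k - s, T - s, by omega, by omega, by omega, ⟨by omega, h3, fun j hj hjT => ?_, ?_⟩⟩
  · have h6 := h5 (s + j) (by omega) (by omega)
    rw [orb_path ω _ j (by omega), show k - s - j = k - (s + j) by omega]
    have h7 := lf_ne c (face (path ω (k - (s + j)))) a
    have h8 := lf_ne c (face (path ω (k - (s + j)))) b
    omega
  · rw [orb_path ω _ _ (by omega), show k - s - (T - s) = k - T by omega]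
    exact h4

/-- crossing inwards -/
theorem in_of {ω : Conf} {c : Vtx} {a b i k : ℕ} (hab : a ≤ b) (hik : i ≤ k)
    (hk : 2 * (b : ℤ) < lf c (face (path ω k))) (hi : lf c (face (path ω i)) < 2 * (a : ℤ)) :
    ∃ m T : ℕ, m ≤ k ∧ T ≤ m ∧ i ≤ m - T ∧ InLeg (opn ω) c a b (path ω m) T := by
  obtain ⟨s, T, h1, h2, h3, h4, h5⟩ := seq_down (h := fun j => lf c (face (path ω (k - j))))
    (A := 2 * (a : ℤ)) (B := 2 * (b : ℤ)) (J := k - i) (by omega) (by simpa using hk)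
    (by simpa [Nat.sub_sub_self hik] using hi)
  refine ⟨k - s, T - s, by omega, by omega, by omega, ⟨by omega, h3, fun j hj hjT => ?_, ?_⟩⟩
  · have h6 := h5 (s + j) (by omega) (by omega)
    rw [orb_path ω _ j (by omega), show k - s - j = k - (s + j) by omega]
    have h7 := lf_ne c (face (path ω (k - (s + j)))) a
    have h8 := lf_ne c (face (path ω (k - (s + j)))) b
    omega
  · rw [orb_path ω _ _ (by omega), show k - s - (T - s) = k - T by omega]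
    exact h4

/-- distance of the vertices -/
theorem zp_le {δ : ℝ} (hδ : 0 ≤ δ) (v w : Vtx) :
    dist (zp δ 0 v) (zp δ 0 w) ≤ 2 * δ * (lv v w : ℤ) := by
  have e1 : |(zp δ 0 v).re - (zp δ 0 w).re| ≤ (lv v w : ℤ) * δ := by
    have : (zp δ 0 v).re - (zp δ 0 w).re = ((v.1 - w.1 : ℤ) : ℝ) * δ := by
      show (0:ℂ).re + δ * v.1 - ((0:ℂ).re + δ * w.1) = _
      push_cast
      ring
    rw [this, abs_mul, abs_of_nonneg hδ]
    refine mul_le_mul_of_nonneg_right ?_ hδ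
    rw [← Int.cast_abs]
    have h1 : |v.1 - w.1| ≤ lv v w := by
      rw [abs_sub_comm]
      exact le_max_left _ _
    exact_mod_cast h1
  have e2 : |(zp δ 0 v).im - (zp δ 0 w).im| ≤ (lv v w : ℤ) * δ := by
    have : (zp δ 0 v).im - (zp δ 0 w).im = ((v.2 - w.2 : ℤ) : ℝ) * δ := by
      show (0:ℂ).im + δ * v.2 - ((0:ℂ).im + δ * w.2) = _
      push_cast
      ring
    rw [this, abs_mul, abs_of_nonneg hδ]
    refine mul_le_mul_of_nonneg_right ?_ hδ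
    rw [← Int.cast_abs]
    have h1 : |v.2 - w.2| ≤ lv v w := by
      rw [abs_sub_comm]
      exact le_max_right _ _
    exact_mod_cast h1
  refine (H984N.ML.dist_le_of e1 e2).trans (le_of_eq ?_)
  ring

theorem lv_tri (u v w : Vtx) : lv u w ≤ lv u v + lv v w := by
  unfold lv
  simp only [abs_eq_max_neg]
  omega

theorem lv_comm (u v : Vtx) : lv u v = lv v u := by
  unfold lv
  simp only [abs_eq_max_neg]
  omega

theorem lv_mv (ρ : St) : lv ρ.1 (mv ρ).1 ≤ 1 := by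
  obtain ⟨⟨x, y⟩, q⟩ := ρ
  cases q <;> simp [lv]

theorem src_near (ρ : St) : lv (src (ae ρ)) ρ.1 ≤ 1 := by
  rcases p2_ends ρ with ⟨e1, -⟩ | ⟨e1, -⟩ <;> rw [e1]
  · simp [lv]
  · rw [lv_comm]
    exact lv_mv ρ

/-- nodes between two times -/
theorem node_near {n : ℕ} (hn : 0 < n) {p : ℕ → ℂ} {δ : ℝ}
    {s t : unitInterval} (hst : s ≤ t) {i k m : ℕ} (hk : k < n)
    (hi1 : (i : ℝ) ≤ s * n) (hi : (s : ℝ) * n ≤ i + 1) (hk1 : (k : ℝ) ≤ t * n)
    (hδ : 0 ≤ δ) (hsi : dist (H984N.pl n p s) (p i) ≤ δ)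
    (him : i ≤ m) (hmk : m ≤ k) :
    ∃ x ∈ Set.Icc s t, dist (H984N.pl n p x) (p m) ≤ δ := by
  rcases him.eq_or_lt with h | h
  · subst h
    exact ⟨s, ⟨le_rfl, hst⟩, hsi⟩
  · obtain ⟨x, hx, hx2⟩ := Pool.Agent.TH990.DP.pl_node hn p (k := m) (by omega)
    have hn' : (0:ℝ) < n := by exact_mod_cast hn
    have h1 : (i : ℝ) + 1 ≤ m := by exact_mod_cast h
    have h2 : (m : ℝ) ≤ k := by exact_mod_cast hmk
    refine ⟨x, ⟨?_, ?_⟩, ?_⟩
    · show (s : ℝ) ≤ x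
      rw [hx, le_div_iff₀ hn']
      linarith
    · show (x : ℝ) ≤ t
      rw [hx, div_le_iff₀ hn']
      linarith
    · rw [hx2, dist_self]
      exact hδ

/-- two separated crossings -/
theorem det5 {n : ℕ} (hn : 0 < n) {z : ℂ} {r d ζ : ℝ} (hδr : sc n ≤ r) (hd : 256 * r ≤ d)
    (hζ : 64 * sc n ≤ ζ) (hball : Metric.ball z d ⊆ {w : ℂ | 0 < w.im}) {ω : Conf}
    (hE : curve n ω ∈ E5 z r (d / 2) ζ) {ρ : ℤ}
    (hρ : Big n (vz (sc n) 0 z) ⌊d / (8 * sc n)⌋₊ ρ) :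
    IO 10 (vz (sc n) 0 z) (⌈r / sc n⌉₊ + 3 + 2) (⌊d / (8 * sc n)⌋₊ - 2) ↑(cut ω ρ) := by
  obtain ⟨t1, t2, t3, t4, ⟨ht12, ht34⟩, e1, e2, e3, e4, hsep⟩ := hE
  set δ := sc n with hδdef
  have hδ : 0 < δ := sc_pos hn
  have hr : 0 < r := hδ.trans_le hδr
  have hd0 : 0 < d := by linarith
  have hst : ∀ k < n, dist (((δ : ℝ) : ℂ) * gam ω k) (((δ : ℝ) : ℂ) * gam ω (k + 1)) ≤ δ / 2 :=
    fun k _ => gstep hδ.le ω k
  rw [curve_eq, ← hδdef] at e1 e2 e3 e4 hsep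
  obtain ⟨i1, hi1, ⟨a1, b1⟩, c1⟩ := pl_close' hn hst t1
  obtain ⟨i2, hi2, ⟨a2, b2⟩, c2⟩ := pl_close' hn hst t2
  obtain ⟨i3, hi3, ⟨a3, b3⟩, c3⟩ := pl_close' hn hst t3
  obtain ⟨i4, hi4, ⟨a4, b4⟩, c4⟩ := pl_close' hn hst t4
  set p : ℕ → ℂ := fun k => ((δ : ℝ) : ℂ) * gam ω k with hp
  set f := H984N.pl n p with hf
  have hne12 : t1 ≠ t2 := by
    rintro rfl
    linarith
  have hne34 : t3 ≠ t4 := by
    rintro rfl
    linarith
  have h12 : i1 ≤ i2 := idx_le hn ht12 hne12 a1 b2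
  have h34 : i3 ≤ i4 := idx_le hn ht34 hne34 a3 b4
  have hpos : ∀ k : ℕ, dist (p k) (zp δ 0 (path ω k).1) ≤ δ / 2 :=
    fun k => place_near hδ.le (path ω k)
  obtain ⟨s1, s2, _, _⟩ := sizes hδ hδr hd
  obtain ⟨ρ1, ρ2, ρ3, ρ4⟩ := hρ
  have hdom := dom_half (K := ⌊d / (8 * δ)⌋₊) hδ (by linarith) hball (k_small hδ (by linarith))
  have hnear : ∀ k : ℕ, dist (p k) z ≤ r + δ / 2 →
      lf (vz δ 0 z) (face (path ω k)) < 2 * ((⌈r / δ⌉₊ + 3 + 2 : ℕ) : ℤ) := by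
    intro k hk
    have h5 := dist_triangle_left (zp δ 0 (path ω k).1) z (p k)
    have h6 := hpos k
    have h7 := BX_iff.1 (box_of (z := z) (w := (path ω k).1) (r := r) (o := 0) hδ (by linarith))
    have h8 := Bas.cor (vz δ 0 z) (path ω k)
    push_cast at h7 ⊢
    omega
  have hfar : ∀ k : ℕ, d / 2 - δ / 2 < dist (p k) z →
      2 * ((⌊d / (8 * δ)⌋₊ - 2 : ℕ) : ℤ) < lf (vz δ 0 z) (face (path ω k)) := by
    intro k hk
    have h5 := dist_triangle (p k) (zp δ 0 (path ω k).1) z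
    have h6 := hpos k
    have h7 : ¬ BX (vz δ 0 z) ⌊d / (8 * δ)⌋₊ (path ω k).1 := by
      intro hin
      have h8 := far_box hδ (by linarith) le_rfl (w := (path ω k).1) hin
      linarith
    rw [BX_iff] at h7
    have h8 := Bas.cor (vz δ 0 z) (path ω k)
    omega
  have g1 : d / 2 - δ / 2 < dist (p i1) z := by
    have := dist_triangle (f t1) (p i1) z
    linarith
  have g2 : dist (p i2) z ≤ r + δ / 2 := by
    have := dist_triangle_left (p i2) z (f t2)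
    linarith
  have g3 : dist (p i3) z ≤ r + δ / 2 := by
    have := dist_triangle_left (p i3) z (f t3)
    linarith
  have g4 : d / 2 - δ / 2 < dist (p i4) z := by
    have := dist_triangle (f t4) (p i4) z
    linarith
  obtain ⟨m, T, hm1, hm2, hm3, hout⟩ := out_of (ω := ω) (c := vz δ 0 z)
    (a := ⌈r / δ⌉₊ + 3 + 2) (b := ⌊d / (8 * δ)⌋₊ - 2) (by omega) h12 (hnear i2 g2) (hfar i1 g1)
  obtain ⟨m', T', hn1, hn2, hn3, hin⟩ := in_of (ω := ω) (c := vz δ 0 z)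
    (a := ⌈r / δ⌉₊ + 3 + 2) (b := ⌊d / (8 * δ)⌋₊ - 2) (by omega) h34 (hfar i4 g4) (hnear i3 g3)
  have hIO : IO 10 (vz δ 0 z) (⌈r / δ⌉₊ + 3 + 2) (⌊d / (8 * δ)⌋₊ - 2) (opn ω) := by
    refine ⟨path ω m', T', path ω m, T, hin, hout, ?_⟩
    intro e he e' he'
    rw [mem_Exm] at he he'
    obtain ⟨s, hs, rfl⟩ := he
    obtain ⟨s', hs', rfl⟩ := he'
    rw [orb_path ω _ s (by omega), orb_path ω _ s' (by omega)]
    obtain ⟨x, hx, hx2⟩ := node_near hn (p := p) ht12 hi2 a1 b1 a2 (by positivity) c1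
      (m := m - s') (by omega) (by omega)
    obtain ⟨y, hy, hy2⟩ := node_near hn (p := p) ht34 hi4 a3 b3 a4 (by positivity) c3
      (m := m' - s) (by omega) (by omega)
    have h1 := hsep (x, y) ⟨hx, hy⟩
    simp only at h1
    have h2 := dist_triangle4 (f x) (p (m - s')) (p (m' - s)) (f y)
    have h3 := dist_triangle4 (p (m - s')) (zp δ 0 (path ω (m - s')).1)
      (zp δ 0 (path ω (m' - s)).1) (p (m' - s))
    have h4 := hpos (m - s')
    have h5 := hpos (m' - s)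
    rw [dist_comm] at h5 hy2
    have h6 := zp_le hδ.le (path ω (m - s')).1 (path ω (m' - s)).1
    have h7 : 62 * δ < 2 * δ * (lv (path ω (m - s')).1 (path ω (m' - s)).1 : ℤ) := by linarith
    have h8 : (31 : ℝ) < (lv (path ω (m - s')).1 (path ω (m' - s)).1 : ℤ) := by
      by_contra hcon
      push Not at hcon
      nlinarith
    have h9 : (31 : ℤ) < lv (path ω (m - s')).1 (path ω (m' - s)).1 := by exact_mod_cast h8
    have k1 := src_near (path ω (m - s'))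
    have k2 := src_near (path ω (m' - s))
    have k3 := lv_tri (path ω (m - s')).1 (src (ae (path ω (m - s')))) (path ω (m' - s)).1
    have k4 := lv_tri (src (ae (path ω (m - s')))) (src (ae (path ω (m' - s))))
      (path ω (m' - s)).1
    rw [lv_comm (path ω (m - s')).1 (src (ae (path ω (m - s'))))] at k3
    rw [lv_comm (src (ae (path ω (m - s')))) (src (ae (path ω (m' - s))))] at k4
    push_cast
    omega
  refine IO_loc (by omega) ?_ hIO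
  intro e q1 q2
  rw [Finset.mem_coe]
  refine cut_iff (K := ⌊d / (8 * δ)⌋₊) hdom (by omega) (by omega) (by omega) ?_
  have w1 : lv (vz δ 0 z) (src e) ≤ (⌊d / (8 * δ)⌋₊ : ℕ) := by omega
  have w2 : lv (vz δ 0 z) (tgt e) ≤ (⌊d / (8 * δ)⌋₊ : ℕ) := by omega
  exact ⟨BX_iff.2 w1, BX_iff.2 w2⟩

/-- probability of two separated crossings -/
theorem prob5 (hI : St_IOup) : ∃ C : ℝ, 0 < C ∧ ∀ (z : ℂ) (r d ζ : ℝ) (n : ℕ), 0 < n → 0 < r →
    r ≤ d → Metric.ball z d ⊆ Hp → sc n ≤ r → 64 * sc n ≤ ζ →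
      (lawH n : Measure C(unitInterval, ℂ)) (E5 z r (d / 2) ζ) ≤
        ENNReal.ofReal (C * (r / d) ^ (5/4 : ℝ)) := by
  obtain ⟨C1, hC1, hI'⟩ := hI
  refine ⟨(C1 + 1) * 256 ^ (5/4 : ℝ), by positivity, ?_⟩
  intro z r d ζ n hn hr hrd hball hδr hζ
  by_cases h256 : 256 * r ≤ d
  swap
  · exact law_one (big_pow hr hrd (by linarith) (by norm_num) (by norm_num) h256)
  have hδ : 0 < sc n := sc_pos hn
  have hd0 : 0 < d := hr.trans_le hrd
  obtain ⟨s1, s2, s3, s4⟩ := sizes hδ hδr h256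
  obtain ⟨ρ, hρ1, hρ⟩ := exists_big n (vz (sc n) 0 z) ⌊d / (8 * sc n)⌋₊
  have hdom := dom_half (K := ⌊d / (8 * sc n)⌋₊) hδ (by linarith) hball
    (k_small hδ (by linarith))
  refine law_le (E5_open z r (d / 2) ζ) (ρ := ρ)
    (A := fun F => IO 10 (vz (sc n) 0 z) (⌈r / sc n⌉₊ + 3 + 2) (⌊d / (8 * sc n)⌋₊ - 2) ↑F)
    (fun ω hω => det5 hn hδr h256 hζ hball hω hρ) ?_
  obtain ⟨ρ1, ρ2, ρ3, ρ4⟩ := hρ
  have hsub : GeF (vz (sc n) 0 z) (⌈r / sc n⌉₊ + 3 + 2) (⌊d / (8 * sc n)⌋₊ - 2) ⊆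
      (bx ρ).edges :=
    (Finset.filter_subset _ _).trans
      (blk_sub (K := ⌊d / (8 * sc n)⌋₊) (k := ⌊d / (8 * sc n)⌋₊ - 2) hdom ρ2 ρ3 ρ4 (by omega))
  have h1 := hI' (vz (sc n) 0 z) (⌈r / sc n⌉₊ + 3 + 2) (⌊d / (8 * sc n)⌋₊ - 2) (bx ρ).edges
    (by omega) (by omega) hsub
  have hpow : (((⌈r / sc n⌉₊ + 3 + 2 : ℕ) : ℝ) / ((⌊d / (8 * sc n)⌋₊ - 2 : ℕ) : ℝ)) ^ (5/4 : ℝ) ≤
      (256 * (r / d)) ^ (5/4 : ℝ) :=
    Real.rpow_le_rpow (by positivity) s4 (by norm_num)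
  have h3 := mul_le_mul_of_nonneg_left hpow hC1.le
  refine (h1.trans h3).trans ?_
  rw [Real.mul_rpow (by norm_num) (by positivity)]
  have hy : 0 ≤ (256:ℝ) ^ (5/4 : ℝ) * (r / d) ^ (5/4 : ℝ) := by positivity
  nlinarith

/-- the points at the scales `1 / (i + 1)` in a fixed set -/
theorem fix5 (hI : St_IOup) {φ : ℕ → ℕ} (hφ : Tendsto φ atTop atTop)
    {μ : ProbabilityMeasure C(unitInterval, ℂ)} (hμ : Tendsto (fun i => lawH (φ i)) atTop (𝓝 μ))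
    (T : Set ℂ) :
    ∀ᵐ f : C(unitInterval, ℂ) ∂(μ : Measure C(unitInterval, ℂ)),
      dimH ((⋃ i : ℕ, SC (1 / ((i:ℝ) + 1)) f) ∩ T ∩ Hp) ≤ dimH T - ENNReal.ofReal (5/4) ∧
      (μH[5/4] T = 0 → (⋃ i : ℕ, SC (1 / ((i:ℝ) + 1)) f) ∩ T ∩ Hp = ∅) := by
  obtain ⟨C, hC, hP⟩ := prob5 hI
  refine fixed_dim (μ := (μ : Measure C(unitInterval, ℂ)))
    (E := fun d z r => ⋃ j : ℕ, E5 z r (d / 2) (1 / ((j:ℝ) + 1)))
    (fun d z r => (isOpen_iUnion fun j => E5_open _ _ _ _).measurableSet)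
    (S := fun η f => SC η f) ?_ Hp_open hC.le
    (show (0:ℝ) < 5/4 by norm_num) ?_ T
  · intro η d z r w f hdη hrd hw hwz
    exact E5_of hw hwz (by linarith)
  · intro z r d hr hrd hball
    show (μ : Measure C(unitInterval, ℂ)) (⋃ j : ℕ, E5 z r (d / 2) (1 / ((j:ℝ) + 1))) ≤ _
    have hmono : Monotone (fun j : ℕ => E5 z r (d / 2) (1 / ((j:ℝ) + 1))) :=
      fun i j hij => E5_anti (Nat.one_div_le_one_div hij)
    rw [hmono.measure_iUnion]
    refine iSup_le fun j => ?_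
    refine (ProbabilityMeasure.le_liminf_measure_open_of_tendsto hμ (E5_open _ _ _ _)).trans ?_
    refine liminf_le_of_frequently_le (Eventually.frequently ?_)
    have hpos : (0:ℝ) < 1 / ((j:ℝ) + 1) / 64 := by positivity
    filter_upwards [(sc_tendsto hφ).eventually (ge_mem_nhds hr),
      (sc_tendsto hφ).eventually (ge_mem_nhds hpos),
      (tendsto_atTop.mp hφ 1)] with i hi hi3 hi2
    exact hP z r d _ (φ i) hi2 hr hrd hball hi (by linarith)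

end Pool.Agent.N948.IX.Lim

namespace Pool.Agent.N948.IX

open MeasureTheory Filter Topology
open H984H (lawH)
open scoped ENNReal NNReal

/-- **Local cut points of the weak limits of the exploration path in a fixed set.** -/
theorem lim (hI : St_IOup) : St_LIM := by
  intro φ hφ μ hμ T
  filter_upwards [Lim.fix5 hI hφ hμ T] with f hf hne
  have hsub : LCut f ∩ T ∩ {w : ℂ | 0 < w.im} ⊆
      (⋃ i : ℕ, Lim.SC (1 / ((i:ℝ) + 1)) f) ∩ T ∩ Lim.Hp := by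
    rintro w ⟨⟨h1, h2⟩, h3⟩
    exact ⟨⟨Lim.LCut_sub hne h1, h2⟩, h3⟩
  refine ⟨(dimH_mono hsub).trans hf.1, fun hT => ?_⟩
  rw [← Set.subset_empty_iff]
  refine hsub.trans ?_
  rw [hf.2 hT]

end Pool.Agent.N948.IX
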