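import Pool.Agent.N948.IX.Ex2
import Pool.Agent.N948.IX.Lim
import Pool.Agent.W462.DPL.C

/-!
# Project XD (helper948), part X27: upper bound for the cut points, rectangle (by helper565, after
`Pool/Agent/N948/IX/Lim.lean` of helper72 and `Pool/Agent/W462/DPL`)
-/

set_option autoImplicit false

namespace Pool.Agent.N948.IX.X27

open Pool.Agent.N948.IX
open H974 H12S Finset H389NS H984P H342P H984N Pool.Agent.TH990.FU
open MeasureTheory Filter Topology Pool.Agent.W92.DP Pool.Agent.W424.OD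
open Pool.Agent.W462.DPL (pl_close' idx_le step ctr near_box box_near dom_box sizes okh)
open Pool.Agent.N948.IX.Lim (E5_open E5_anti SC LCut_sub E5_of seq_up seq_down lf_ne BX_iff
  IO_loc src_near lv_tri lv_comm node_near big_pow)
open scoped ENNReal NNReal

theorem D_open (R : Rect) : IsOpen R.D := by
  have h1 : IsOpen {z : ℂ | -R.A < z.re} := isOpen_lt continuous_const Complex.continuous_re
  have h2 : IsOpen {z : ℂ | z.re < R.B} := isOpen_lt Complex.continuous_re continuous_const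
  have h3 : IsOpen {z : ℂ | 0 < z.im} := isOpen_lt continuous_const Complex.continuous_im
  have h4 : IsOpen {z : ℂ | z.im < R.H} := isOpen_lt Complex.continuous_im continuous_const
  exact h1.inter (h2.inter (h3.inter h4))

/-! ### The walk -/

theorem orb_walk (D : Dm) (F : Finset Edg) (k j : ℕ) :
    orb (D.cfg F) (D.walk F k) j = D.walk F (k + j) := by
  unfold Dm.walk
  rw [add_comm k j, orb_add]

/-- crossing inwards -/
theorem in_of {D : Dm} {F : Finset Edg} {c : Vtx} {a b i k : ℕ} (hab : a ≤ b) (hik : i ≤ k)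
    (hi : 2 * (b : ℤ) < lf c (face (D.walk F i)))
    (hk : lf c (face (D.walk F k)) < 2 * (a : ℤ)) :
    ∃ m T : ℕ, i ≤ m ∧ m + T ≤ k ∧ InLeg (D.cfg F) c a b (D.walk F m) T := by
  obtain ⟨s, T, h1, h2, h3, h4, h5⟩ := seq_down (h := fun j => lf c (face (D.walk F (i + j))))
    (A := 2 * (a : ℤ)) (B := 2 * (b : ℤ)) (J := k - i) (by omega) (by simpa using hi)
    (by simpa [Nat.add_sub_cancel' hik] using hk)
  refine ⟨i + s, T - s, by omega, by omega, ⟨by omega, h3, fun j hj hjT => ?_, ?_⟩⟩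
  · have h6 := h5 (s + j) (by omega) (by omega)
    rw [orb_walk, show i + s + j = i + (s + j) by omega]
    have h7 := lf_ne c (face (D.walk F (i + (s + j)))) a
    have h8 := lf_ne c (face (D.walk F (i + (s + j)))) b
    omega
  · rw [orb_walk, show i + s + (T - s) = i + T by omega]
    exact h4

/-- crossing outwards -/
theorem out_of {D : Dm} {F : Finset Edg} {c : Vtx} {a b i k : ℕ} (hab : a ≤ b) (hik : i ≤ k)
    (hi : lf c (face (D.walk F i)) < 2 * (a : ℤ))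
    (hk : 2 * (b : ℤ) < lf c (face (D.walk F k))) :
    ∃ m T : ℕ, i ≤ m ∧ m + T ≤ k ∧ OutLeg (D.cfg F) c a b (D.walk F m) T := by
  obtain ⟨s, T, h1, h2, h3, h4, h5⟩ := seq_up (h := fun j => lf c (face (D.walk F (i + j))))
    (A := 2 * (a : ℤ)) (B := 2 * (b : ℤ)) (J := k - i) (by omega) (by simpa using hi)
    (by simpa [Nat.add_sub_cancel' hik] using hk)
  refine ⟨i + s, T - s, by omega, by omega, ⟨by omega, h3, fun j hj hjT => ?_, ?_⟩⟩
  · have h6 := h5 (s + j) (by omega) (by omega)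
    rw [orb_walk, show i + s + j = i + (s + j) by omega]
    have h7 := lf_ne c (face (D.walk F (i + (s + j)))) a
    have h8 := lf_ne c (face (D.walk F (i + (s + j)))) b
    omega
  · rw [orb_walk, show i + s + (T - s) = i + T by omega]
    exact h4

theorem sd_lv (u v : Vtx) : sd u v = lv v u := rfl

/-- the wired edges are far from the inner boxes -/
theorem not_wir {D : Dm} {c : Vtx} {K b : ℕ} (h1 : D.l < c.1 - K) (h2 : 0 < c.2 - K)
    (h3 : c.2 + K < D.h) (hb : b ≤ K) {e : Edg} (he : lv c (src e) ≤ b) : e ∉ D.wir := by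
  obtain ⟨x, y, q⟩ := e
  have h4 : |x - c.1| ≤ b := (le_max_left _ _).trans he
  have h5 : |y - c.2| ≤ b := (le_max_right _ _).trans he
  rw [abs_le] at h4 h5
  rintro (⟨-, g, -⟩ | ⟨-, g, -⟩ | ⟨-, g, -⟩)
  · have g' : y = D.h := g
    omega
  · have g' : x = D.l := g
    omega
  · have g' : y = 0 := g
    omega

/-- two separated crossings -/
theorem det5 (R : Rect) {z : ℂ} {r d δ ζ : ℝ} (hδ : 0 < δ) (hδr : δ ≤ r) (hd : 256 * r ≤ d)
    (hζ : 64 * δ ≤ ζ) (hball : Metric.ball z d ⊆ R.D) {F : Finset Edg}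
    (hE : R.curve δ F ∈ Lim.E5 z r (d / 2) ζ) :
    IO 10 (ctr δ z) (⌈r / δ⌉₊ + 3 + 2) (⌊d / (8 * δ)⌋₊ - 2) ↑F := by
  obtain ⟨t1, t2, t3, t4, ⟨ht12, ht34⟩, e1, e2, e3, e4, hsep⟩ := hE
  have hr : 0 < r := hδ.trans_le hδr
  have hd0 : 0 < d := by linarith
  set N : ℕ := (R.dm δ).len F with hN
  have hcur : R.curve δ F = pl N (fun k => pos δ ((R.dm δ).walk F k)) := rfl
  rw [hcur] at e1 e2 e3 e4 hsep
  rcases Nat.eq_zero_or_pos N with h0 | hNpos
  · exfalso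
    rw [h0, pl_apply'] at e1 e2
    simp only [Finset.range_zero, Finset.sum_empty, add_zero] at e1 e2
    linarith
  have hst : ∀ k < N, dist (pos δ ((R.dm δ).walk F k)) (pos δ ((R.dm δ).walk F (k + 1))) ≤ δ / 2 :=
    fun k _ => step hδ.le F k
  obtain ⟨i1, hi1, ⟨a1, b1⟩, c1⟩ := pl_close' hNpos hst t1
  obtain ⟨i2, hi2, ⟨a2, b2⟩, c2⟩ := pl_close' hNpos hst t2
  obtain ⟨i3, hi3, ⟨a3, b3⟩, c3⟩ := pl_close' hNpos hst t3
  obtain ⟨i4, hi4, ⟨a4, b4⟩, c4⟩ := pl_close' hNpos hst t4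
  set p : ℕ → ℂ := fun k => pos δ ((R.dm δ).walk F k) with hp
  set f := pl N p with hf
  have hne12 : t1 ≠ t2 := by
    rintro rfl
    linarith
  have hne34 : t3 ≠ t4 := by
    rintro rfl
    linarith
  have h12 : i1 ≤ i2 := idx_le hNpos ht12 hne12 a1 b2
  have h34 : i3 ≤ i4 := idx_le hNpos ht34 hne34 a3 b4
  obtain ⟨s1, s2, _, _⟩ := sizes hδ hδr hd
  obtain ⟨d1, d2, d3, d4⟩ := dom_box R hδ (by linarith) hball
  have hnear : ∀ k : ℕ, dist (p k) z ≤ r + δ / 2 →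
      lf (ctr δ z) (face ((R.dm δ).walk F k)) < 2 * ((⌈r / δ⌉₊ + 3 + 2 : ℕ) : ℤ) := by
    intro k hk
    have h7 : lv (ctr δ z) ((R.dm δ).walk F k).1 ≤ (⌈r / δ⌉₊ + 3 : ℕ) :=
      BX_iff.1 (near_box hδ hk)
    have h8 := Bas.cor (ctr δ z) ((R.dm δ).walk F k)
    push_cast at h7 ⊢
    omega
  have hfar : ∀ k : ℕ, d / 2 - δ / 2 < dist (p k) z →
      2 * ((⌊d / (8 * δ)⌋₊ - 2 : ℕ) : ℤ) < lf (ctr δ z) (face ((R.dm δ).walk F k)) := by
    intro k hk
    have h7 : ¬ BX (ctr δ z) ⌊d / (8 * δ)⌋₊ ((R.dm δ).walk F k).1 := by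
      intro hin
      have h5 := box_near hδ hin
      have hk : (⌊d / (8 * δ)⌋₊ : ℝ) ≤ d / (8 * δ) := Nat.floor_le (by positivity)
      have h6 : 2 * δ * (⌊d / (8 * δ)⌋₊ : ℝ) ≤ d / 4 := by
        calc 2 * δ * (⌊d / (8 * δ)⌋₊ : ℝ) ≤ 2 * δ * (d / (8 * δ)) :=
              mul_le_mul_of_nonneg_left hk (by positivity)
          _ = d / 4 := by
              field_simp
              norm_num
      linarith
    rw [BX_iff] at h7
    have h8 := Bas.cor (ctr δ z) ((R.dm δ).walk F k)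
    omega
  have g1 : d / 2 - δ / 2 < dist (p i1) z := by
    have := dist_triangle (f t1) (p i1) z
    linarith
  have g2 : dist (p i2) z ≤ r + δ / 2 := by
    have := dist_triangle_left (p i2) z (f t2)
    linarith
  have g3 : dist (p i3) z ≤ r + δ / 2 := by
    have := dist_triangle_left (p i3) z (f t3)
    linarith
  have g4 : d / 2 - δ / 2 < dist (p i4) z := by
    have := dist_triangle (f t4) (p i4) z
    linarith
  obtain ⟨m, T, hm1, hm2, hin⟩ := in_of (D := R.dm δ) (F := F) (c := ctr δ z)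
    (a := ⌈r / δ⌉₊ + 3 + 2) (b := ⌊d / (8 * δ)⌋₊ - 2) (by omega) h12 (hfar i1 g1) (hnear i2 g2)
  obtain ⟨m', T', hn1, hn2, hout⟩ := out_of (D := R.dm δ) (F := F) (c := ctr δ z)
    (a := ⌈r / δ⌉₊ + 3 + 2) (b := ⌊d / (8 * δ)⌋₊ - 2) (by omega) h34 (hnear i3 g3) (hfar i4 g4)
  have hIO : IO 10 (ctr δ z) (⌈r / δ⌉₊ + 3 + 2) (⌊d / (8 * δ)⌋₊ - 2) ((R.dm δ).cfg F) := by
    refine ⟨(R.dm δ).walk F m, T, (R.dm δ).walk F m', T', hin, hout, ?_⟩
    intro e he e' he'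
    rw [mem_Exm] at he he'
    obtain ⟨s, hs, rfl⟩ := he
    obtain ⟨s', hs', rfl⟩ := he'
    rw [orb_walk, orb_walk]
    obtain ⟨x, hx, hx2⟩ := node_near hNpos (p := p) ht12 hi2 a1 b1 a2 (by positivity) c1
      (m := m + s) (by omega) (by omega)
    obtain ⟨y, hy, hy2⟩ := node_near hNpos (p := p) ht34 hi4 a3 b3 a4 (by positivity) c3
      (m := m' + s') (by omega) (by omega)
    have h1 := hsep (x, y) ⟨hx, hy⟩
    simp only at h1
    have h2 := dist_triangle4 (f x) (p (m + s)) (p (m' + s')) (f y)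
    rw [dist_comm] at hy2
    have h6 : dist (p (m + s)) (p (m' + s')) ≤
        δ * (2 * ((lv ((R.dm δ).walk F (m' + s')).1 ((R.dm δ).walk F (m + s)).1 : ℤ) : ℝ) + 1) :=
      dist_pos_le hδ.le ((R.dm δ).walk F (m + s)) ((R.dm δ).walk F (m' + s'))
    have h7 : 62 * δ < δ *
        (2 * ((lv ((R.dm δ).walk F (m' + s')).1 ((R.dm δ).walk F (m + s)).1 : ℤ) : ℝ) + 1) := by
      linarith
    have h8 : (30 : ℝ) <
        (lv ((R.dm δ).walk F (m' + s')).1 ((R.dm δ).walk F (m + s)).1 : ℤ) := by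
      by_contra hcon
      push Not at hcon
      nlinarith
    have h9 : (30 : ℤ) < lv ((R.dm δ).walk F (m' + s')).1 ((R.dm δ).walk F (m + s)).1 := by
      exact_mod_cast h8
    have k1 := src_near ((R.dm δ).walk F (m + s))
    have k2 := src_near ((R.dm δ).walk F (m' + s'))
    have k3 := lv_tri ((R.dm δ).walk F (m' + s')).1 (src (ae ((R.dm δ).walk F (m' + s'))))
      ((R.dm δ).walk F (m + s)).1
    have k4 := lv_tri (src (ae ((R.dm δ).walk F (m' + s')))) (src (ae ((R.dm δ).walk F (m + s))))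
      ((R.dm δ).walk F (m + s)).1
    rw [lv_comm ((R.dm δ).walk F (m' + s')).1 (src (ae ((R.dm δ).walk F (m' + s'))))] at k3
    rw [lv_comm (src (ae ((R.dm δ).walk F (m' + s')))) (src (ae ((R.dm δ).walk F (m + s))))]
      at k4
    push_cast
    omega
  refine IO_loc (by omega) ?_ hIO
  intro e q1 _
  have hw : e ∉ (R.dm δ).wir := not_wir (K := ⌊d / (8 * δ)⌋₊) (b := ⌊d / (8 * δ)⌋₊ - 2) d1 d3 d4
    (by omega) q1
  constructor
  · rintro (h | h)
    · exact h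
    · exact absurd h hw
  · exact fun h => Or.inl h

/-- the event for the curve with its time -/
def EX (z : ℂ) (r ρ ζ : ℝ) : Set X := {p | p.1 ∈ Lim.E5 z r ρ ζ}

theorem EX_open (z : ℂ) (r ρ ζ : ℝ) : IsOpen (EX z r ρ ζ) :=
  (E5_open z r ρ ζ).preimage continuous_fst

/-- probability of two separated crossings -/
theorem prob5 (hI : St_IOup) (R : Rect) : ∃ C : ℝ, 0 < C ∧ ∀ (z : ℂ) (r d ζ δ : ℝ), 0 < r →
    r ≤ d → Metric.ball z d ⊆ R.D → 0 < δ → δ ≤ r → 64 * δ ≤ ζ →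
      (R.law δ : Measure X) (EX z r (d / 2) ζ) ≤ ENNReal.ofReal (C * (r / d) ^ (5/4 : ℝ)) := by
  obtain ⟨C1, hC1, hI'⟩ := hI
  refine ⟨(C1 + 1) * 256 ^ (5/4 : ℝ), by positivity, ?_⟩
  intro z r d ζ δ hr hrd hball hδ hδr hζ
  have hd0 : 0 < d := hr.trans_le hrd
  rw [R.law_apply δ (EX_open z r (d / 2) ζ).measurableSet]
  apply ENNReal.ofReal_le_ofReal
  by_cases h256 : 256 * r ≤ d
  swap
  · have h1 : R.prob δ (fun F => (R.curve δ F, R.time δ F) ∈ EX z r (d / 2) ζ) ≤ 1 :=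
      Pr_le_one okh _ _
    exact h1.trans (big_pow hr hrd (by linarith) (by norm_num) (by norm_num) h256)
  obtain ⟨s1, s2, s3, s4⟩ := sizes hδ hδr h256
  obtain ⟨b1, b2, b3, b4⟩ := dom_box R hδ (by linarith) hball
  have hmono : R.prob δ (fun F => (R.curve δ F, R.time δ F) ∈ EX z r (d / 2) ζ) ≤
      Pr (fun _ => (1/2 : ℝ)) (R.dm δ).edges (fun F =>
        IO 10 (ctr δ z) (⌈r / δ⌉₊ + 3 + 2) (⌊d / (8 * δ)⌋₊ - 2) (↑F : Set Edg)) := by
    apply Pr_mono okh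
    intro F hF hE
    exact det5 R hδ hδr h256 hζ hball hE
  have hsub : GeF (ctr δ z) (⌈r / δ⌉₊ + 3 + 2) (⌊d / (8 * δ)⌋₊ - 2) ⊆ (R.dm δ).edges := by
    refine (Finset.filter_subset _ _).trans (RE_subset ?_ ?_ ?_ ?_) <;> omega
  have h1 := hI' (ctr δ z) (⌈r / δ⌉₊ + 3 + 2) (⌊d / (8 * δ)⌋₊ - 2) (R.dm δ).edges
    (by omega) (by omega) hsub
  have hpow : (((⌈r / δ⌉₊ + 3 + 2 : ℕ) : ℝ) / ((⌊d / (8 * δ)⌋₊ - 2 : ℕ) : ℝ)) ^ (5/4 : ℝ) ≤
      (256 * (r / d)) ^ (5/4 : ℝ) :=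
    Real.rpow_le_rpow (by positivity) s4 (by norm_num)
  have h3 := mul_le_mul_of_nonneg_left hpow hC1.le
  refine (hmono.trans (h1.trans h3)).trans ?_
  rw [Real.mul_rpow (by norm_num) (by positivity)]
  have hy : 0 ≤ (256:ℝ) ^ (5/4 : ℝ) * (r / d) ^ (5/4 : ℝ) := by positivity
  nlinarith

/-- the points at the scales `1 / (i + 1)` in a fixed set -/
theorem fix5 (hI : St_IOup) (R : Rect) {δ : ℕ → ℝ} (hδ : ∀ i, 0 < δ i)
    (hδ0 : Tendsto δ atTop (𝓝 0)) {μ : ProbabilityMeasure X}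
    (hμ : Tendsto (fun i => R.law (δ i)) atTop (𝓝 μ)) (T : Set ℂ) :
    ∀ᵐ p : X ∂(μ : Measure X),
      dimH ((⋃ i : ℕ, SC (1 / ((i:ℝ) + 1)) p.1) ∩ T ∩ R.D) ≤ dimH T - ENNReal.ofReal (5/4) ∧
      (μH[5/4] T = 0 → (⋃ i : ℕ, SC (1 / ((i:ℝ) + 1)) p.1) ∩ T ∩ R.D = ∅) := by
  obtain ⟨C, hC, hP⟩ := prob5 hI R
  refine fixed_dim (μ := (μ : Measure X))
    (E := fun d z r => ⋃ j : ℕ, EX z r (d / 2) (1 / ((j:ℝ) + 1)))
    (fun d z r => (isOpen_iUnion fun j => EX_open _ _ _ _).measurableSet)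
    (S := fun η p => SC η p.1) ?_ (D_open R) hC.le
    (show (0:ℝ) < 5/4 by norm_num) ?_ T
  · intro η d z r w p hdη hrd hw hwz
    obtain ⟨j, hj⟩ := Set.mem_iUnion.1 (E5_of (ρ := d / 2) hw hwz (by linarith))
    exact Set.mem_iUnion.2 ⟨j, hj⟩
  · intro z r d hr hrd hball
    show (μ : Measure X) (⋃ j : ℕ, EX z r (d / 2) (1 / ((j:ℝ) + 1))) ≤ _
    have hmono : Monotone (fun j : ℕ => EX z r (d / 2) (1 / ((j:ℝ) + 1))) :=
      fun i j hij p hp => E5_anti (Nat.one_div_le_one_div hij) hp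
    rw [hmono.measure_iUnion]
    refine iSup_le fun j => ?_
    refine (ProbabilityMeasure.le_liminf_measure_open_of_tendsto hμ (EX_open _ _ _ _)).trans ?_
    refine liminf_le_of_frequently_le (Eventually.frequently ?_)
    have hpos : (0:ℝ) < 1 / ((j:ℝ) + 1) / 64 := by positivity
    filter_upwards [hδ0.eventually (ge_mem_nhds hr), hδ0.eventually (ge_mem_nhds hpos)]
      with i hi hi3
    exact hP z r d _ (δ i) hr hrd hball (hδ i) hi (by linarith)

end Pool.Agent.N948.IX.X27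

namespace Pool.Agent.N948.IX

open MeasureTheory Filter Topology
open H984N (Rect X)
open scoped ENNReal NNReal

/-- **Local cut points of the limits in a fixed set, upper bound (rectangle).** -/
theorem limr (hI : St_IOup) : St_LIMR := by
  intro R δ hδ hδ0 μ hμ T
  filter_upwards [X27.fix5 hI R hδ hδ0 hμ T] with p hp hne
  have hsub : LCut p.1 ∩ T ∩ R.D ⊆ (⋃ i : ℕ, Lim.SC (1 / ((i:ℝ) + 1)) p.1) ∩ T ∩ R.D := by
    rintro w ⟨⟨h1, h2⟩, h3⟩
    exact ⟨⟨Lim.LCut_sub hne h1, h2⟩, h3⟩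
  refine ⟨(dimH_mono hsub).trans hp.1, fun hT => ?_⟩
  rw [← Set.subset_empty_iff]
  refine hsub.trans ?_
  rw [hp.2 hT]

end Pool.Agent.N948.IX
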