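import Pool.Agent.N948.IX.Ex2
import Pool.Agent.TH966.DP.LimL

/-!
# Project XD (helper948), X28 (helper216): lower bound for the local cut points, rectangle
-/

set_option autoImplicit false

namespace Pool.Agent.N948.IX

open H974 H12S Finset H984P H984N MeasureTheory Filter Topology
open Pool.Agent.W92.DP Pool.Agent.H389R2.Dim
open Pool.Agent.TH966.DP (zp dist_pos_zp le_dist_pos_zp zp_dist zp_inj pl_node nt nt_mul nt_le SA_sub
  okh dm_big)
open scoped ENNReal NNReal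

namespace X28

/-! ### Nodes -/

/-- the index of the last node before the time `x` -/
noncomputable def nd (N : ℕ) (x : unitInterval) : ℕ := ⌊(x : ℝ) * N⌋₊

theorem nd_le (N : ℕ) (x : unitInterval) : nd N x ≤ N := by
  unfold nd
  have h0 : (0 : ℝ) ≤ N := Nat.cast_nonneg N
  have h1 : (x : ℝ) * N ≤ N := by nlinarith [x.2.2]
  exact Nat.floor_le_of_le h1

theorem nd_mono {N : ℕ} {x y : unitInterval} (h : x ≤ y) : nd N x ≤ nd N y := by
  unfold nd
  apply Nat.floor_le_floor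
  exact mul_le_mul_of_nonneg_right h (Nat.cast_nonneg N)

theorem le_nd {N i : ℕ} (hi : i ≤ N) {x : unitInterval} (h : nt N i hi ≤ x) : i ≤ nd N x := by
  unfold nd
  apply Nat.le_floor
  rcases Nat.eq_zero_or_pos N with h0 | h0
  · subst h0
    have h1 : i = 0 := by omega
    subst h1
    simp
  · have h1 : (i : ℝ) / N ≤ x := h
    rwa [div_le_iff₀ (by exact_mod_cast h0)] at h1

theorem nd_le' {N j : ℕ} (hj : j ≤ N) {x : unitInterval} (h : x ≤ nt N j hj) : nd N x ≤ j := by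
  unfold nd
  apply Nat.floor_le_of_le
  rcases Nat.eq_zero_or_pos N with h0 | h0
  · subst h0
    simp
  · have h1 : (x : ℝ) ≤ (j : ℝ) / N := h
    rwa [le_div_iff₀ (by exact_mod_cast h0)] at h1

theorem nd_nt {N j : ℕ} (hj : j ≤ N) : nd N (nt N j hj) = j :=
  le_antisymm (nd_le' hj le_rfl) (le_nd hj le_rfl)

theorem near {N : ℕ} {p : ℕ → ℂ} {δ : ℝ} (hδ : 0 ≤ δ) (h : ∀ k < N, dist (p k) (p (k + 1)) ≤ δ)
    (x : unitInterval) : dist (pl N p x) (p (nd N x)) ≤ δ := by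
  have h0 : 0 ≤ (x : ℝ) * N := mul_nonneg x.2.1 (Nat.cast_nonneg N)
  rcases Nat.eq_zero_or_pos N with rfl | hN
  · have h1 : nd 0 x = 0 := by simp [nd]
    rw [h1, pl_apply']
    simpa using hδ
  · rcases lt_or_ge (nd N x) N with h1 | h1
    · have h2 : ((nd N x : ℕ) : ℝ) ≤ x * N := Nat.floor_le h0
      have h3 : (x : ℝ) * N ≤ (nd N x : ℕ) + 1 := (Nat.lt_floor_add_one _).le
      rw [pl_seg h1 h2 h3, dist_eq_norm]
      have e : p (nd N x) + (((x : ℝ) * N - (nd N x : ℕ) : ℝ) : ℂ) *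
          (p (nd N x + 1) - p (nd N x)) - p (nd N x) =
          (((x : ℝ) * N - (nd N x : ℕ) : ℝ) : ℂ) * (p (nd N x + 1) - p (nd N x)) := by ring
      rw [e, norm_mul, Complex.norm_real, Real.norm_eq_abs, abs_of_nonneg (by linarith)]
      have h4 := h _ h1
      rw [dist_comm, dist_eq_norm] at h4
      have h5 := norm_nonneg (p (nd N x + 1) - p (nd N x))
      nlinarith
    · have h2 : nd N x = N := le_antisymm (nd_le N x) h1
      have h3 : (x : ℝ) * N = N := by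
        apply le_antisymm
        · have h4 : (0 : ℝ) ≤ N := Nat.cast_nonneg N
          nlinarith [x.2.2]
        · have h5 : ((nd N x : ℕ) : ℝ) ≤ x * N := Nat.floor_le h0
          rwa [h2] at h5
      rw [pl_node p hN le_rfl h3, h2, dist_self]
      exact hδ

section curve

variable (R : Rect) {δ : ℝ} (F : Finset Edg)

theorem curve_near (hδ : 0 ≤ δ) (x : unitInterval) : dist (R.curve δ F x)
    (pos δ ((R.dm δ).walk F (nd ((R.dm δ).len F) x))) ≤ δ / 2 := by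
  refine near (p := fun k => pos δ ((R.dm δ).walk F k)) (by positivity) (fun k _ => ?_) x
  show dist (pos δ (orb ((R.dm δ).cfg F) (R.dm δ).start k))
    (pos δ (orb ((R.dm δ).cfg F) (R.dm δ).start (k + 1))) ≤ δ / 2
  rw [orb_succ]
  exact pos_nxt hδ _ _

/-- the vertex of the last node before the time `x` -/
noncomputable def vx (R : Rect) (δ : ℝ) (F : Finset Edg) (x : unitInterval) : Vtx :=
  ((R.dm δ).walk F (nd ((R.dm δ).len F) x)).1

theorem zp_dist_le (hδ : 0 ≤ δ) (v w : Vtx) :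
    dist (zp δ v) (zp δ w) ≤ 2 * (δ * ((sd v w : ℤ) : ℝ)) := by
  have h1 : |(zp δ v).re - (zp δ w).re| ≤ δ * ((sd v w : ℤ) : ℝ) := by
    rw [ML.sd_cast]
    have e1 : |(zp δ v).re - (zp δ w).re| = δ * |((v.1 - w.1 : ℤ) : ℝ)| := by
      simp only [zp]
      rw [← mul_sub, abs_mul, abs_of_nonneg hδ]
      push_cast
      rfl
    rw [e1]
    exact mul_le_mul_of_nonneg_left (le_max_left _ _) hδ
  have h2 : |(zp δ v).im - (zp δ w).im| ≤ δ * ((sd v w : ℤ) : ℝ) := by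
    rw [ML.sd_cast]
    have e1 : |(zp δ v).im - (zp δ w).im| = δ * |((v.2 - w.2 : ℤ) : ℝ)| := by
      simp only [zp]
      rw [← mul_sub, abs_mul, abs_of_nonneg hδ]
      push_cast
      congr 2
      ring
    rw [e1]
    exact mul_le_mul_of_nonneg_left (le_max_right _ _) hδ
  refine (ML.dist_le_of h1 h2).trans ?_
  linarith

theorem up (hδ : 0 ≤ δ) (x : unitInterval) (v : Vtx) :
    dist (R.curve δ F x) (zp δ v) ≤ 2 * (δ * ((sd (vx R δ F x) v : ℤ) : ℝ)) + δ := by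
  have h1 := curve_near R F hδ x
  have h2 := dist_pos_zp hδ ((R.dm δ).walk F (nd ((R.dm δ).len F) x))
  have h3 := zp_dist_le hδ (vx R δ F x) v
  have h4 := dist_triangle (R.curve δ F x) (pos δ ((R.dm δ).walk F (nd ((R.dm δ).len F) x)))
    (zp δ v)
  have h5 := dist_triangle (pos δ ((R.dm δ).walk F (nd ((R.dm δ).len F) x)))
    (zp δ (vx R δ F x)) (zp δ v)
  have h6 : dist (pos δ ((R.dm δ).walk F (nd ((R.dm δ).len F) x))) (zp δ (vx R δ F x)) ≤ δ / 2 := h2
  linarith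

theorem lo (hδ : 0 ≤ δ) (x : unitInterval) (v : Vtx) :
    δ * ((sd (vx R δ F x) v : ℤ) : ℝ) ≤ dist (R.curve δ F x) (zp δ v) + 2 * δ := by
  have h1 := curve_near R F hδ x
  have h2 : δ * ((sd (vx R δ F x) v : ℤ) : ℝ) - δ ≤
    dist (pos δ ((R.dm δ).walk F (nd ((R.dm δ).len F) x))) (zp δ v) :=
    le_dist_pos_zp hδ ((R.dm δ).walk F (nd ((R.dm δ).len F) x)) v
  have h4 := dist_triangle_left (pos δ ((R.dm δ).walk F (nd ((R.dm δ).len F) x))) (zp δ v)
    (R.curve δ F x)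
  linarith

theorem lo2 (hδ : 0 ≤ δ) (x y : unitInterval) :
    δ * ((sd (vx R δ F x) (vx R δ F y) : ℤ) : ℝ) ≤
      dist (R.curve δ F x) (R.curve δ F y) + 2 * δ := by
  have h1 := curve_near R F hδ x
  have h1' := curve_near R F hδ y
  have h2 : δ * (((sd (vx R δ F x) (vx R δ F y) : ℤ) : ℝ) - 1/2) ≤
    dist (pos δ ((R.dm δ).walk F (nd ((R.dm δ).len F) x)))
      (pos δ ((R.dm δ).walk F (nd ((R.dm δ).len F) y))) := le_dist_pos hδ _ _
  have h4 := dist_triangle_left (pos δ ((R.dm δ).walk F (nd ((R.dm δ).len F) x)))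
    (pos δ ((R.dm δ).walk F (nd ((R.dm δ).len F) y))) (R.curve δ F x)
  have h5 := dist_triangle (R.curve δ F x) (R.curve δ F y)
    (pos δ ((R.dm δ).walk F (nd ((R.dm δ).len F) y)))
  linarith

theorem sd_nonneg (u v : Vtx) : (0 : ℝ) ≤ ((sd u v : ℤ) : ℝ) := by
  have : (0 : ℤ) ≤ sd u v := (abs_nonneg _).trans (le_max_left _ _)
  exact_mod_cast this

/-- the quadratic bounds -/
theorem sq_bd {D D' a a' q K κ δ ε' X : ℝ} (hK : 0 ≤ K) (hq : 0 ≤ q) (hδ : 0 < δ) (hδ1 : δ ≤ 1)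
    (hκ : 0 ≤ κ) (hε : (2 * κ + 3) * δ ≤ ε') (hD' : 0 ≤ D') (ha' : 0 ≤ a')
    (hX : 0 ≤ X) (hD : 0 ≤ D) (h1 : D' ≤ 2 * a' + δ) (h2 : a ≤ D + 2 * δ)
    (h3 : a' ^ 2 ≤ K * q * (a + δ * κ)) :
    D' ^ 2 ≤ (8 * K * q + 8 + X) * (D + ε') := by
  have h4 : D' ^ 2 ≤ (2 * a' + δ) ^ 2 := pow_le_pow_left₀ hD' h1 2
  have h5 : (2 * a' + δ) ^ 2 ≤ 8 * a' ^ 2 + 2 * δ ^ 2 := by nlinarith [sq_nonneg (2 * a' - δ)]
  have h6 : 0 ≤ K * q := by positivity
  have hκδ : 0 ≤ κ * δ := by positivity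
  have h7 : a + δ * κ ≤ D + ε' := by nlinarith
  have h8 := mul_le_mul_of_nonneg_left h7 h6
  have h9 : δ ^ 2 ≤ δ := by nlinarith
  have h10 : δ ≤ ε' := by nlinarith
  have h11 : 0 ≤ X * (D + ε') := by
    have : 0 ≤ D + ε' := by linarith
    positivity
  nlinarith

/-- the bound with the power `B` -/
theorem pow_bd {D1 D2 D mx s2 q K κ δ ε' X : ℝ} {B : ℕ} (hB : 1 ≤ B) (hK : 0 ≤ K) (hq : 0 ≤ q)
    (hδ : 0 < δ) (hδ1 : δ ≤ 1) (hκ : 0 ≤ κ) (hε : (2 * κ + 3) * δ ≤ ε') (hX : 0 ≤ X)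
    (hD1 : 0 ≤ D1) (hD2 : 0 ≤ D2) (hmx : 0 ≤ mx) (hD : 0 ≤ D) (h1 : D1 ≤ 2 * mx + δ)
    (h2 : D2 ≤ 2 * mx + δ) (h3 : s2 ≤ D + 2 * δ)
    (h4 : mx ^ B ≤ K * q ^ (B - 1) * (s2 + δ * κ)) :
    (max D1 D2) ^ B ≤ (X + 4 ^ B * (K * q ^ (B - 1) + 1)) * (D + ε') := by
  have e1 : (max D1 D2) ^ B ≤ (2 * mx + δ) ^ B :=
    pow_le_pow_left₀ (le_max_of_le_left hD1) (max_le h1 h2) B
  have e2 : (2 * mx + δ) ^ B ≤ 2 ^ (B - 1) * ((2 * mx) ^ B + δ ^ B) :=
    add_pow_le (by positivity) hδ.le B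
  have e3 : δ ^ B ≤ δ := pow_le_of_le_one hδ.le hδ1 (by omega)
  have e4 : (2 : ℝ) ^ (B - 1) ≤ 2 ^ B := pow_le_pow_right₀ (by norm_num) (by omega)
  have e5 : (2 * mx) ^ B = 2 ^ B * mx ^ B := mul_pow _ _ _
  have e6 : (1 : ℝ) ≤ 2 ^ B := one_le_pow₀ (by norm_num)
  have e7 : (4 : ℝ) ^ B = 2 ^ B * 2 ^ B := by rw [← mul_pow]; norm_num
  have hmB : 0 ≤ mx ^ B := by positivity
  have e8 : 2 ^ (B - 1) * ((2 * mx) ^ B + δ ^ B) ≤ 4 ^ B * (mx ^ B + δ) := by
    rw [e5, e7]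
    have f1 : 2 ^ B * mx ^ B + δ ^ B ≤ 2 ^ B * (mx ^ B + δ) := by nlinarith
    calc 2 ^ (B - 1) * (2 ^ B * mx ^ B + δ ^ B) ≤ 2 ^ B * (2 ^ B * mx ^ B + δ ^ B) :=
          mul_le_mul_of_nonneg_right e4 (by positivity)
      _ ≤ 2 ^ B * (2 ^ B * (mx ^ B + δ)) := mul_le_mul_of_nonneg_left f1 (by positivity)
      _ = 2 ^ B * 2 ^ B * (mx ^ B + δ) := by ring
  have hκδ : 0 ≤ κ * δ := by positivity
  have h7 : s2 + δ * κ ≤ D + ε' := by nlinarith
  have h10 : δ ≤ ε' := by nlinarith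
  have h6 : 0 ≤ K * q ^ (B - 1) := by positivity
  have h8 := mul_le_mul_of_nonneg_left h7 h6
  have h9 : mx ^ B + δ ≤ (K * q ^ (B - 1) + 1) * (D + ε') := by nlinarith
  have h11 : 0 ≤ X * (D + ε') := by
    have : 0 ≤ D + ε' := by linarith
    positivity
  have h12 := mul_le_mul_of_nonneg_left h9 (by positivity : (0 : ℝ) ≤ 4 ^ B)
  calc (max D1 D2) ^ B ≤ 4 ^ B * (mx ^ B + δ) := e1.trans (e2.trans e8)
    _ ≤ 4 ^ B * ((K * q ^ (B - 1) + 1) * (D + ε')) := h12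
    _ ≤ (X + 4 ^ B * (K * q ^ (B - 1) + 1)) * (D + ε') := by nlinarith

variable {κ K B U : ℕ} {v : Vtx}

/-- the passages of the walk are passages of the curve -/
theorem mem_QQ (hδ : 0 < δ) (hδ1 : δ ≤ 1)
    (hcut : CutW κ K B U ((R.dm δ).len F) (fun k => ((R.dm δ).walk F k).1) v) (hB : 1 ≤ B)
    {Kc : Set ℂ} (hKc : zp δ v ∈ Kc) {η ε' q : ℝ} (hη : η ≤ 3 * (δ * U)) (hq : δ * U ≤ q)
    (hε : (2 * (κ : ℝ) + 3) * δ ≤ ε') :
    zp δ v ∈ QQ η (8 * K * q + 8 + 4 ^ B * (K * q ^ (B - 1) + 1)) B ε' Kc (R.curve δ F) := by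
  obtain ⟨i, j, l, hij, hjl, hl, c1, c2, c3, c4, c5, c6⟩ := hcut
  have hU0 : (0 : ℝ) ≤ δ * U := by positivity
  have hq0 : 0 ≤ q := hU0.trans hq
  have hκδ : 0 ≤ (κ : ℝ) * δ := by positivity
  have hεδ : 2 * δ ≤ ε' := by nlinarith
  have hjN : j ≤ (R.dm δ).len F := hjl.trans hl
  have hiN : i ≤ (R.dm δ).len F := hij.trans hjN
  have hvx : ∀ k (hk : k ≤ (R.dm δ).len F), vx R δ F (nt _ k hk) = ((R.dm δ).walk F k).1 := by
    intro k hk
    unfold vx
    rw [nd_nt]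
  have hX1 : (0 : ℝ) ≤ 4 ^ B * (K * q ^ (B - 1) + 1) := by positivity
  have hX2 : (0 : ℝ) ≤ 8 * K * q + 8 := by positivity
  refine ⟨hKc, nt _ i hiN, nt _ j hjN, nt _ l hl, nt_le _ _ hij, nt_le _ _ hjl, ?_, ?_, ?_, ?_,
    ?_, ?_⟩
  · have h1 := up R F hδ.le (nt _ j hjN) v
    rw [hvx] at h1
    have h2 : ((sd ((R.dm δ).walk F j).1 v : ℤ) : ℝ) ≤ κ := by exact_mod_cast c1
    have h3 := mul_le_mul_of_nonneg_left h2 hδ.le
    nlinarith
  · have h1 := lo R F hδ.le (nt _ i hiN) v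
    rw [hvx] at h1
    have h2 : 3 * (U : ℝ) ≤ ((sd ((R.dm δ).walk F i).1 v : ℤ) : ℝ) := by exact_mod_cast c2
    have h3 := mul_le_mul_of_nonneg_left h2 hδ.le
    nlinarith
  · have h1 := lo R F hδ.le (nt _ l hl) v
    rw [hvx] at h1
    have h2 : 3 * (U : ℝ) ≤ ((sd ((R.dm δ).walk F l).1 v : ℤ) : ℝ) := by exact_mod_cast c3
    have h3 := mul_le_mul_of_nonneg_left h2 hδ.le
    nlinarith
  · intro x y hx hxy hy
    have h1 := c4 (nd _ x) (nd _ y) (le_nd hiN hx) (nd_mono hxy) (nd_le' hjN hy)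
    have h2 : (((sd (vx R δ F y) v : ℤ) : ℝ)) ^ 2 ≤
        (K : ℝ) * U * (((sd (vx R δ F x) v : ℤ) : ℝ) + κ) := by exact_mod_cast h1
    have n1 := sd_nonneg (vx R δ F x) v
    have n2 := sd_nonneg (vx R δ F y) v
    refine sq_bd (a := δ * ((sd (vx R δ F x) v : ℤ) : ℝ))
      (a' := δ * ((sd (vx R δ F y) v : ℤ) : ℝ)) (Nat.cast_nonneg K) hq0 hδ hδ1
      (Nat.cast_nonneg κ) hε dist_nonneg (by positivity) hX1 dist_nonneg (up R F hδ.le y v)
      (lo R F hδ.le x v) ?_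
    have h3 := mul_le_mul_of_nonneg_left h2 (by positivity : (0 : ℝ) ≤ δ ^ 2)
    have h4 : δ ^ 2 * ((K : ℝ) * U * (((sd (vx R δ F x) v : ℤ) : ℝ) + κ)) =
        K * (δ * U) * (δ * ((sd (vx R δ F x) v : ℤ) : ℝ) + δ * κ) := by ring
    have h5 : (K : ℝ) * (δ * U) * (δ * ((sd (vx R δ F x) v : ℤ) : ℝ) + δ * κ) ≤
        K * q * (δ * ((sd (vx R δ F x) v : ℤ) : ℝ) + δ * κ) := by
      apply mul_le_mul_of_nonneg_right _ (by positivity)
      exact mul_le_mul_of_nonneg_left hq (Nat.cast_nonneg K)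
    rw [mul_pow]
    linarith
  · intro x y hx hxy hy
    have h1 := c5 (nd _ x) (nd _ y) (le_nd hjN hx) (nd_mono hxy) (nd_le' hl hy)
    have h2 : (((sd (vx R δ F x) v : ℤ) : ℝ)) ^ 2 ≤
        (K : ℝ) * U * (((sd (vx R δ F y) v : ℤ) : ℝ) + κ) := by exact_mod_cast h1
    have n1 := sd_nonneg (vx R δ F x) v
    have n2 := sd_nonneg (vx R δ F y) v
    refine sq_bd (a := δ * ((sd (vx R δ F y) v : ℤ) : ℝ))
      (a' := δ * ((sd (vx R δ F x) v : ℤ) : ℝ)) (Nat.cast_nonneg K) hq0 hδ hδ1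
      (Nat.cast_nonneg κ) hε dist_nonneg (by positivity) hX1 dist_nonneg (up R F hδ.le x v)
      (lo R F hδ.le y v) ?_
    have h3 := mul_le_mul_of_nonneg_left h2 (by positivity : (0 : ℝ) ≤ δ ^ 2)
    have h4 : δ ^ 2 * ((K : ℝ) * U * (((sd (vx R δ F y) v : ℤ) : ℝ) + κ)) =
        K * (δ * U) * (δ * ((sd (vx R δ F y) v : ℤ) : ℝ) + δ * κ) := by ring
    have h5 : (K : ℝ) * (δ * U) * (δ * ((sd (vx R δ F y) v : ℤ) : ℝ) + δ * κ) ≤
        K * q * (δ * ((sd (vx R δ F y) v : ℤ) : ℝ) + δ * κ) := by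
      apply mul_le_mul_of_nonneg_right _ (by positivity)
      exact mul_le_mul_of_nonneg_left hq (Nat.cast_nonneg K)
    rw [mul_pow]
    linarith
  · intro x y hx hxu hy hyl
    have h1 := c6 (nd _ x) (nd _ y) (le_nd hiN hx) (nd_le' hjN hxu) (le_nd hjN hy) (nd_le' hl hyl)
    have h2 : (max ((sd (vx R δ F x) v : ℤ) : ℝ) ((sd (vx R δ F y) v : ℤ) : ℝ)) ^ B ≤
        (K : ℝ) * (U : ℝ) ^ (B - 1) * (((sd (vx R δ F x) (vx R δ F y) : ℤ) : ℝ) + κ) := by
      exact_mod_cast h1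
    have n1 := sd_nonneg (vx R δ F x) v
    have n2 := sd_nonneg (vx R δ F y) v
    have n3 := sd_nonneg (vx R δ F x) (vx R δ F y)
    set mx : ℝ := max ((sd (vx R δ F x) v : ℤ) : ℝ) ((sd (vx R δ F y) v : ℤ) : ℝ) with hmx
    have n4 : 0 ≤ mx := le_max_of_le_left n1
    refine pow_bd (mx := δ * mx) (s2 := δ * ((sd (vx R δ F x) (vx R δ F y) : ℤ) : ℝ)) (κ := κ) hB
      (Nat.cast_nonneg K) hq0 hδ hδ1 (Nat.cast_nonneg κ) hε hX2 dist_nonneg dist_nonneg
      (by positivity) dist_nonneg ?_ ?_ (lo2 R F hδ.le x y) ?_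
    · have h3 := up R F hδ.le x v
      have h4 := mul_le_mul_of_nonneg_left (le_max_left ((sd (vx R δ F x) v : ℤ) : ℝ)
        ((sd (vx R δ F y) v : ℤ) : ℝ)) hδ.le
      rw [← hmx] at h4
      linarith
    · have h3 := up R F hδ.le y v
      have h4 := mul_le_mul_of_nonneg_left (le_max_right ((sd (vx R δ F x) v : ℤ) : ℝ)
        ((sd (vx R δ F y) v : ℤ) : ℝ)) hδ.le
      rw [← hmx] at h4
      linarith
    · have h3 := mul_le_mul_of_nonneg_left h2 (by positivity : (0 : ℝ) ≤ δ ^ B)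
      have e1 : δ ^ B = δ ^ (B - 1) * δ := by
        rw [← pow_succ]
        congr 1
        omega
      have h4 : δ ^ B * ((K : ℝ) * (U : ℝ) ^ (B - 1) *
          (((sd (vx R δ F x) (vx R δ F y) : ℤ) : ℝ) + κ)) =
          K * (δ * U) ^ (B - 1) * (δ * ((sd (vx R δ F x) (vx R δ F y) : ℤ) : ℝ) + δ * κ) := by
        rw [e1, mul_pow]
        ring
      have h5 : (K : ℝ) * (δ * U) ^ (B - 1) *
          (δ * ((sd (vx R δ F x) (vx R δ F y) : ℤ) : ℝ) + δ * κ) ≤
          K * q ^ (B - 1) * (δ * ((sd (vx R δ F x) (vx R δ F y) : ℤ) : ℝ) + δ * κ) := by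
        apply mul_le_mul_of_nonneg_right _ (by positivity)
        exact mul_le_mul_of_nonneg_left (pow_le_pow_left₀ hU0 hq _) (Nat.cast_nonneg K)
      rw [mul_pow]
      linarith

end curve

/-! ### Energy -/

/-- The good event makes the set of approximate cut points good. -/
theorem good5 {δ : ℝ} (hδ : 0 < δ) {F : Finset Edg} {M M' B N a L m : ℕ} (hm : 1 ≤ m)
    {c0 E0 t : ℝ} (h : Gd5 c0 E0 t M M' B N a L m F) (hc0 : 0 < c0) (hE0 : 0 < E0) (ht : 0 < t)
    {ε' : ℝ} {Q : Set ℂ} (hQ : ∀ v ∈ V5 M M' B N a L m F, zp δ v ∈ Q) (hε : δ ≤ ε') {κ : ℝ}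
    (hκ : 0 < κ) (hκ' : κ ≤ δ * m) : Good t ε' (2 ^ (-t) / (E0 / c0 ^ 2 * κ ^ (-t))) Q := by
  classical
  obtain ⟨hcard, hEn⟩ := h
  have hm' : (0:ℝ) < m := by
    have : 0 < m := by omega
    exact_mod_cast this
  have hcpos : (0 : ℝ) < ((V5 M M' B N a L m F).card : ℝ) := lt_of_lt_of_le (by positivity) hcard
  have hne : (V5 M M' B N a L m F).Nonempty := by
    rw [← Finset.card_pos]; exact_mod_cast hcpos
  have hε0 : 0 < ε' := hδ.trans_le hε
  refine good_of_energy hε0 ht.le (by positivity) ((V5 M M' B N a L m F).image (zp δ))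
    (hne.image _) ?_ ?_
  · intro z hz
    rw [Finset.mem_coe, Finset.mem_image] at hz
    obtain ⟨v, hv, rfl⟩ := hz
    exact hQ v hv
  · rw [Finset.sum_image (fun a _ b _ hab => zp_inj hδ hab),
      Finset.card_image_of_injective _ (zp_inj hδ)]
    have e1 : ∀ v ∈ V5 M M' B N a L m F,
        ∑ y ∈ (V5 M M' B N a L m F).image (zp δ), (max (dist (zp δ v) y) ε') ^ (-t) ≤
        ∑ w ∈ V5 M M' B N a L m F, δ ^ (-t) * ((max (sd v w) 1 : ℤ) : ℝ) ^ (-t) := by
      intro v _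
      rw [Finset.sum_image (fun a _ b _ hab => zp_inj hδ hab)]
      refine Finset.sum_le_sum fun w _ => ?_
      have hm : (1 : ℝ) ≤ ((max (sd v w) 1 : ℤ) : ℝ) := by
        exact_mod_cast le_max_right (sd v w) 1
      rw [← Real.mul_rpow (by positivity) (by linarith)]
      refine Real.rpow_le_rpow_of_nonpos (by positivity) ?_ (by linarith)
      have h6 := zp_dist hδ.le v w
      rcases max_cases (sd v w) 1 with h | h
      · rw [h.1]; exact h6.trans (le_max_left _ _)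
      · rw [h.1]; push_cast; rw [mul_one]
        exact hε.trans (le_max_right _ _)
    refine (Finset.sum_le_sum e1).trans ?_
    have e2 : ∑ v ∈ V5 M M' B N a L m F, ∑ w ∈ V5 M M' B N a L m F,
        δ ^ (-t) * ((max (sd v w) 1 : ℤ) : ℝ) ^ (-t) = δ ^ (-t) * En5 t M M' B N a L m F := by
      unfold En5
      rw [Finset.mul_sum]
      refine Finset.sum_congr rfl fun v _ => ?_
      rw [Finset.mul_sum]
    rw [e2]
    have e3 : (c0 * (m : ℝ) ^ (3/4 : ℝ)) ^ 2 ≤ ((V5 M M' B N a L m F).card : ℝ) ^ 2 :=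
      pow_le_pow_left₀ (by positivity) hcard 2
    have e4 : (c0 * (m : ℝ) ^ (3/4 : ℝ)) ^ 2 = c0 ^ 2 * (m : ℝ) ^ (3/2 : ℝ) := by
      rw [mul_pow, ← Real.rpow_natCast ((m : ℝ) ^ (3/4 : ℝ)) 2, ← Real.rpow_mul hm'.le]
      norm_num
    rw [e4] at e3
    have e6 : (δ * m) ^ (-t) ≤ κ ^ (-t) :=
      Real.rpow_le_rpow_of_nonpos hκ hκ' (by linarith)
    calc δ ^ (-t) * En5 t M M' B N a L m F ≤ δ ^ (-t) * (E0 * (m : ℝ) ^ (3/2 - t)) :=
          mul_le_mul_of_nonneg_left hEn (by positivity)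
      _ = E0 / c0 ^ 2 * (δ * m) ^ (-t) * (c0 ^ 2 * (m : ℝ) ^ (3/2 : ℝ)) := by
          have : (m : ℝ) ^ (3/2 - t) = (m:ℝ) ^ (-t) * (m : ℝ) ^ (3/2 : ℝ) := by
            rw [← Real.rpow_add hm']
            congr 1
            ring
          rw [this, Real.mul_rpow hδ.le hm'.le]
          field_simp
      _ ≤ E0 / c0 ^ 2 * κ ^ (-t) * (c0 ^ 2 * (m : ℝ) ^ (3/2 : ℝ)) := by
          refine mul_le_mul_of_nonneg_right ?_ (by positivity)
          exact mul_le_mul_of_nonneg_left e6 (by positivity)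
      _ ≤ E0 / c0 ^ 2 * κ ^ (-t) * ((V5 M M' B N a L m F).card : ℝ) ^ 2 :=
          mul_le_mul_of_nonneg_left e3 (by positivity)

/-! ### The law of the curve -/

theorem map_le (R : Rect) (δ : ℝ) (A : Set C(unitInterval, ℂ)) :
    (((R.law δ).map (f := Prod.fst) continuous_fst.measurable.aemeasurable :
      ProbabilityMeasure C(unitInterval, ℂ)) : Measure C(unitInterval, ℂ)) A ≤
      ENNReal.ofReal (R.prob δ (fun F => R.curve δ F ∈ A)) := by
  classical
  set Cf : Set C(unitInterval, ℂ) := (fun F => R.curve δ F) '' (↑(R.dm δ).edges.powerset :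
    Set (Finset Edg)) with hCf
  have hfin : Cf.Finite := (Finset.finite_toSet _).image _
  set A' : Set C(unitInterval, ℂ) := (A ∩ Cf) ∪ Cfᶜ with hA'
  have hmeas : MeasurableSet A' :=
    (hfin.subset Set.inter_subset_right).measurableSet.union hfin.measurableSet.compl
  have hsub : A ⊆ A' := by
    intro f hf
    by_cases h : f ∈ Cf
    · exact Or.inl ⟨hf, h⟩
    · exact Or.inr h
  refine (measure_mono hsub).trans ?_
  rw [ProbabilityMeasure.toMeasure_map,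
    Measure.map_apply continuous_fst.measurable hmeas,
    R.law_apply δ (continuous_fst.measurable hmeas)]
  apply ENNReal.ofReal_le_ofReal
  apply Pr_mono okh
  intro F hF hmem
  have hFC : R.curve δ F ∈ Cf := ⟨F, by simpa using hF, rfl⟩
  rcases hmem with h | h
  · exact h.1
  · exact absurd hFC h

theorem three_quarters_le {x : ℝ≥0∞}
    (h : ∀ n : ℕ, ENNReal.ofReal (3/4 - (1/2) / ((n : ℝ) + 1)) ≤ x) : 3/4 ≤ x := by
  have h1 : Tendsto (fun n : ℕ => ENNReal.ofReal (3/4 - (1/2) / ((n : ℝ) + 1))) atTop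
      (𝓝 (ENNReal.ofReal (3/4))) := by
    apply ENNReal.tendsto_ofReal
    have h2 : Tendsto (fun n : ℕ => (1/2 : ℝ) / ((n : ℝ) + 1)) atTop (𝓝 0) := by
      have := (tendsto_one_div_add_atTop_nhds_zero_nat (𝕜 := ℝ)).const_mul (1/2)
      rw [mul_zero] at this
      refine this.congr fun n => ?_
      ring
    have := h2.const_sub (3/4 : ℝ)
    rwa [sub_zero] at this
  have h2 := le_of_tendsto' h1 h
  refine le_trans (le_of_eq ?_) h2
  rw [ENNReal.ofReal_div_of_pos (by norm_num)]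
  norm_num

/-- The lower bound with a given exponent, near the end point. -/
theorem limT (hG : St_GOOD5) (hI : St_IND5) (hD : St_DET5) (hQ : St_QLIM) (R : Rect) (δ : ℕ → ℝ)
    (hδ : ∀ i, 0 < δ i) (hlim : Tendsto δ atTop (𝓝 0)) (μ : ProbabilityMeasure X)
    (hμ : Tendsto (fun i => R.law (δ i)) atTop (𝓝 μ)) (t : ℝ) (ht : 0 < t) (ht1 : t < 3/4)
    (ρ : ℝ) (hρ : 0 < ρ) : ∀ᵐ p ∂(μ : Measure X),
      ENNReal.ofReal t ≤ dimH (LC (min R.A (min R.B (min R.H ρ))) p.1) := by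
  classical
  have hμ' := ProbabilityMeasure.tendsto_map_of_tendsto_of_continuous (fun i => R.law (δ i)) μ hμ
    (f := (Prod.fst : X → C(unitInterval, ℂ))) continuous_fst
  have hA := R.hA
  have hB := R.hB
  have hH := R.hH
  obtain ⟨ν, hν⟩ : ∃ ν, ν = min R.A (min R.B (min R.H ρ)) := ⟨_, rfl⟩
  have hν0 : 0 < ν := by
    rw [hν]; exact lt_min hA (lt_min hB (lt_min hH hρ))
  have hνA : ν ≤ R.A := by rw [hν]; exact min_le_left _ _
  have hνB : ν ≤ R.B := by rw [hν]; exact (min_le_right _ _).trans (min_le_left _ _)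
  have hνH : ν ≤ R.H := by
    rw [hν]; exact (min_le_right _ _).trans ((min_le_right _ _).trans (min_le_left _ _))
  rw [← hν]
  have key := hQ _ _ hμ' t ht (ContinuousMap.id unitInterval) ν hν0 ?_
  · have h1 := ae_of_ae_map (continuous_fst.measurable.aemeasurable) key
    filter_upwards [h1] with p hp
    rw [ContinuousMap.comp_id] at hp
    exact hp
  intro ε hε
  obtain ⟨δ', hδ', hδε⟩ : ∃ δ : ℝ, 0 < δ ∧ ENNReal.ofReal δ ≤ ε := by
    rcases eq_or_ne ε ∞ with h | h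
    · exact ⟨1, one_pos, by rw [h]; exact le_top⟩
    · exact ⟨ε.toReal, ENNReal.toReal_pos hε.ne' h, by rw [ENNReal.ofReal_toReal h]⟩
  obtain ⟨L, M0, B, a, M, M', N, r0, c0, E0, p, hL, hM0, hB2, ha, hM, hM', hN, hr0, hc0, hE0, hp,
    hp1, hg⟩ := hG t ht ht1
  obtain ⟨κ, K, m0, hK, hdet⟩ := hD M M' B N a L hL ha hB2 hN hM hM'
  obtain ⟨J, hJ⟩ := exists_pow_lt_of_lt_one hδ' (show 1 - p < 1 by linarith)
  -- the sizes
  obtain ⟨Q, hQd⟩ : ∃ Q : ℝ, Q = L * M0 * 64 ^ J := ⟨_, rfl⟩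
  have hL' : (2:ℝ) ≤ L := by exact_mod_cast hL
  have hM0' : (64:ℝ) ≤ M0 := by exact_mod_cast hM0
  have h64 : (1:ℝ) ≤ 64 ^ J := one_le_pow₀ (by norm_num)
  have hLM : (1:ℝ) ≤ L * M0 := by nlinarith
  have hQ1 : 1 ≤ Q := by
    rw [hQd]
    exact one_le_mul_of_one_le_of_one_le hLM h64
  have hLMQ : (L * M0 : ℝ) ≤ Q := by
    rw [hQd]
    exact le_mul_of_one_le_right (by positivity) h64
  obtain ⟨s, hs⟩ : ∃ s : ℝ, s = ν / (80 * Q) := ⟨_, rfl⟩
  have hs0 : 0 < s := by rw [hs]; positivity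
  have hQs : 80 * (Q * s) = ν := by
    rw [hs]; field_simp
  have hQs0 : 0 < Q * s := by positivity
  set Kc : Set ℂ := Set.Icc (-(10 * (Q * s))) 0 ×ℂ
    Set.Icc (17 * (L * M0) * (s / 2)) (20 * (Q * s)) with hKcdef
  have hKcc : IsCompact Kc := isCompact_Icc.reProdIm isCompact_Icc
  refine ⟨2 ^ (-t) / (E0 / c0 ^ 2 * (M0 * (s / 2)) ^ (-t)), 3 * ((L * M0) * (s / 2)),
    8 * K * (Q * s) + 8 + 4 ^ B * (K * (Q * s) ^ (B - 1) + 1), B, Kc,
    by positivity, by positivity, by positivity, by omega, hKcc, ?_, ?_⟩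
  · intro z hz
    rw [hKcdef, Complex.mem_reProdIm, Set.mem_Icc, Set.mem_Icc] at hz
    obtain ⟨⟨b1, b2⟩, b3, b4⟩ := hz
    have b5 : 0 < 17 * (L * M0) * (s / 2) := by positivity
    refine ⟨by linarith, ?_⟩
    have h3 : dist z 0 ≤ 10 * (Q * s) + 20 * (Q * s) := by
      apply ML.dist_le_of
      · simp only [Complex.zero_re, sub_zero]
        rw [abs_le]; constructor <;> linarith
      · simp only [Complex.zero_im, sub_zero]
        rw [abs_le]; constructor <;> linarith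
    rw [dist_zero_right] at h3
    linarith
  · intro ε' hε'
    obtain ⟨κ', S, δ0, hκ', hS, hδ0, hδ1, hsh⟩ := R.shape
    set w : ℝ := ((r0 + 100 * a + m0 + 1 : ℕ) : ℝ) with hw
    have hw0 : 0 < w := by rw [hw]; positivity
    obtain ⟨δm, hδm⟩ : ∃ δm : ℝ, δm = min (min δ0 (ε' / (2 * κ + 3)))
        (min (min (s / 2) (s / (2 * w))) (min (ν / 8) 1)) := ⟨_, rfl⟩
    have hδm0 : 0 < δm := by
      rw [hδm]
      exact lt_min (lt_min hδ0 (by positivity)) (lt_min (lt_min (by positivity) (by positivity))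
        (lt_min (by positivity) one_pos))
    have hev : ∀ᶠ i in atTop, δ i < δm := (tendsto_order.1 hlim).2 _ hδm0
    filter_upwards [hev] with i hi
    have hi0 : δ i ≤ δ0 := hi.le.trans (by
      rw [hδm]; exact (min_le_left _ _).trans (min_le_left _ _))
    have hi1 : δ i ≤ ε' / (2 * κ + 3) := hi.le.trans (by
      rw [hδm]; exact (min_le_left _ _).trans (min_le_right _ _))
    have hi2 : δ i ≤ s / 2 := hi.le.trans (by
      rw [hδm]; exact (min_le_right _ _).trans ((min_le_left _ _).trans (min_le_left _ _)))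
    have hi2' : δ i ≤ s / (2 * w) := hi.le.trans (by
      rw [hδm]; exact (min_le_right _ _).trans ((min_le_left _ _).trans (min_le_right _ _)))
    have hi3 : δ i ≤ ν / 8 := hi.le.trans (by
      rw [hδm]; exact (min_le_right _ _).trans ((min_le_right _ _).trans (min_le_left _ _)))
    have hi4 : δ i ≤ 1 := hi.le.trans (by
      rw [hδm]; exact (min_le_right _ _).trans ((min_le_right _ _).trans (min_le_right _ _)))
    have hδi := hδ i
    set d : ℝ := δ i with hd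
    have hκ3 : (0 : ℝ) < 2 * (κ : ℝ) + 3 := by positivity
    have hεκ : (2 * (κ : ℝ) + 3) * d ≤ ε' := by
      rw [le_div_iff₀ hκ3] at hi1
      linarith
    have hdε : d ≤ ε' := by
      have : (0 : ℝ) ≤ κ * d := by positivity
      nlinarith
    refine (map_le R d _).trans ?_
    refine le_trans (ENNReal.ofReal_le_ofReal ?_) hδε
    -- the lattice scale
    obtain ⟨r, hr⟩ : ∃ r : ℕ, r = ⌊s / d⌋₊ := ⟨_, rfl⟩
    have hr1 : d * r ≤ s := by
      have := Nat.floor_le (show 0 ≤ s / d by positivity)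
      rw [← hr, le_div_iff₀ hδi] at this
      linarith
    have hr2 : s / 2 ≤ d * r := by
      have := Nat.lt_floor_add_one (s / d)
      rw [← hr, div_lt_iff₀ hδi] at this
      nlinarith
    have hrw : w ≤ r := by
      rw [le_div_iff₀ (by positivity)] at hi2'
      have h1 : d * w ≤ d * r := by nlinarith
      exact le_of_mul_le_mul_left h1 hδi
    have hrN : r0 + 100 * a + m0 + 1 ≤ r := by
      rw [hw] at hrw
      exact_mod_cast hrw
    have hscale : ∀ j < J, ((L * (M0 * (64 ^ j * r)) : ℕ) : ℝ) ≤ Q * r := by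
      intro j hj
      push_cast
      have h1 : (64 : ℝ) ^ j ≤ 64 ^ J := pow_le_pow_right₀ (by norm_num) hj.le
      have h2 : (0:ℝ) ≤ r := Nat.cast_nonneg r
      rw [hQd]
      calc (L:ℝ) * (M0 * (64 ^ j * r)) = L * M0 * r * 64 ^ j := by ring
        _ ≤ L * M0 * r * 64 ^ J := mul_le_mul_of_nonneg_left h1 (by positivity)
        _ = L * M0 * 64 ^ J * r := by ring
    have hscale2 : ∀ j : ℕ, (L * M0 : ℝ) * r ≤ ((L * (M0 * (64 ^ j * r)) : ℕ) : ℝ) := by
      intro j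
      push_cast
      have h1 : (1 : ℝ) ≤ 64 ^ j := one_le_pow₀ (by norm_num)
      calc (L * M0 : ℝ) * r = L * M0 * r * 1 := by ring
        _ ≤ L * M0 * r * 64 ^ j := mul_le_mul_of_nonneg_left h1 (by positivity)
        _ = (L:ℝ) * (M0 * (64 ^ j * r)) := by ring
    have hdom : ∀ j < J, (R.dm d).l < -(27 * ((L * (M0 * (64 ^ j * r)) : ℕ) : ℤ)) ∧
        27 * ((L * (M0 * (64 ^ j * r)) : ℕ) : ℤ) < (R.dm d).r ∧
        39 * ((L * (M0 * (64 ^ j * r)) : ℕ) : ℤ) < (R.dm d).h := by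
      intro j hj
      refine dm_big R hδi hνA hνB hνH ?_
      have h1 := mul_le_mul_of_nonneg_left (hscale j hj) hδi.le
      have h2 : d * (Q * r) ≤ Q * s := by
        calc d * (Q * r) = Q * (d * r) := by ring
          _ ≤ Q * s := mul_le_mul_of_nonneg_left hr1 (by linarith)
      nlinarith
    have hsub : ∀ j < J, SA (L * (M0 * (64 ^ j * r)) : ℕ) ⊆ (R.dm d).edges := by
      intro j hj
      obtain ⟨h1, h2, h3⟩ := hdom j hj
      exact SA_sub h1.le h2.le h3.le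
    have hI' := hI p c0 E0 t M M' B N a L M0 (r0 + 100 * a) hp1 hL hM0 ha (by omega) (by omega)
      (fun r' S' hr' hS' => hg r' S' (by omega) hS') J r (R.dm d).edges (by omega) hsub
    refine le_trans ?_ (hI'.trans hJ.le)
    have hok := (hsh d hδi hi0).ok
    apply Pr_mono okh
    intro F hF hbad j hj hGd
    apply hbad
    obtain ⟨h1, h2, h3⟩ := hdom j hj
    have hrm : r ≤ M0 * (64 ^ j * r) := by
      have h4 : 1 ≤ 64 ^ j := Nat.one_le_pow _ _ (by norm_num)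
      have h5 : 1 ≤ M0 * 64 ^ j := by nlinarith
      calc r = 1 * r := (one_mul r).symm
        _ ≤ M0 * 64 ^ j * r := Nat.mul_le_mul_right r h5
        _ = M0 * (64 ^ j * r) := by ring
    have hδU : d * ((L * (M0 * (64 ^ j * r)) : ℕ) : ℝ) ≤ Q * s := by
      have h4 := mul_le_mul_of_nonneg_left (hscale j hj) hδi.le
      have h5 : d * (Q * r) ≤ Q * s := by
        calc d * (Q * r) = Q * (d * r) := by ring
          _ ≤ Q * s := mul_le_mul_of_nonneg_left hr1 (by linarith)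
      linarith
    have hδU2 : (L * M0) * (s / 2) ≤ d * ((L * (M0 * (64 ^ j * r)) : ℕ) : ℝ) := by
      have h4 := mul_le_mul_of_nonneg_left (hscale2 j) hδi.le
      have h5 : (L * M0 : ℝ) * (s / 2) ≤ L * M0 * (d * r) :=
        mul_le_mul_of_nonneg_left hr2 (by positivity)
      linarith
    rw [ContinuousMap.comp_id]
    refine good5 hδi (by omega) hGd hc0 hE0 ht ?_ hdε (by positivity) ?_
    · intro v hv
      unfold V5 at hv
      rw [Finset.mem_filter] at hv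
      have hcut := hdet (R.dm d) F hok hF (M0 * (64 ^ j * r)) (by omega) h1 h2 h3 v hv.1 hv.2
      refine mem_QQ R F hδi hi4 hcut (by omega) ?_ ?_ hδU hεκ
      · have hv1 := hv.1
        unfold core4 at hv1
        rw [Finset.mem_product, Finset.mem_Icc, Finset.mem_Icc] at hv1
        obtain ⟨⟨v1, v2⟩, v3, v4⟩ := hv1
        set U : ℕ := L * (M0 * (64 ^ j * r)) with hU
        have hU0 : (0:ℝ) ≤ U := Nat.cast_nonneg U
        have v1' : -(10 * (U : ℝ)) ≤ v.1 := by exact_mod_cast v1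
        have v2' : (v.1 : ℝ) ≤ -(8 * (U : ℝ)) := by exact_mod_cast v2
        have v3' : 17 * (U : ℝ) ≤ v.2 := by exact_mod_cast v3
        have v4' : (v.2 : ℝ) ≤ 19 * (U : ℝ) := by exact_mod_cast v4
        have w1 := mul_le_mul_of_nonneg_left v1' hδi.le
        have w2 := mul_le_mul_of_nonneg_left v2' hδi.le
        have w3 := mul_le_mul_of_nonneg_left v3' hδi.le
        have w4 := mul_le_mul_of_nonneg_left v4' hδi.le
        have w0 : 0 ≤ d * (U : ℝ) := by positivity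
        have hsQ : s ≤ Q * s := le_mul_of_one_le_left hs0.le hQ1
        rw [hKcdef, Complex.mem_reProdIm, Set.mem_Icc, Set.mem_Icc]
        have er : (zp d v).re = d * v.1 := rfl
        have ei : (zp d v).im = d * v.2 + d := by
          show d * ((v.2 : ℝ) + 1) = d * v.2 + d
          ring
        rw [er, ei]
        refine ⟨⟨by linarith, by linarith⟩, by linarith, by linarith⟩
      · linarith
    · push_cast
      have h4 : (1 : ℝ) ≤ 64 ^ j := one_le_pow₀ (by norm_num)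
      calc (M0:ℝ) * (s / 2) ≤ M0 * (d * r) := mul_le_mul_of_nonneg_left hr2 (by positivity)
        _ = d * (M0 * r) * 1 := by ring
        _ ≤ d * (M0 * r) * 64 ^ j := mul_le_mul_of_nonneg_left h4 (by positivity)
        _ = d * (M0 * (64 ^ j * r)) := by ring

theorem LC_sub (R : Rect) {ρ' ρ : ℝ} (h : ρ' ≤ ρ) (f : C(unitInterval, ℂ)) :
    LC (min R.A (min R.B (min R.H ρ'))) f ⊆ LCut f ∩ R.D ∩ Metric.ball 0 ρ := by
  rintro z ⟨h1, h2, s, u, v, h3, h4, h5, h6⟩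
  have hA : ‖z‖ < R.A := h2.trans_le (min_le_left _ _)
  have hB : ‖z‖ < R.B := h2.trans_le ((min_le_right _ _).trans (min_le_left _ _))
  have hH : ‖z‖ < R.H := h2.trans_le ((min_le_right _ _).trans
    ((min_le_right _ _).trans (min_le_left _ _)))
  have hρ : ‖z‖ < ρ := (h2.trans_le ((min_le_right _ _).trans
    ((min_le_right _ _).trans (min_le_right _ _)))).trans_le h
  have h7 := Complex.abs_re_le_norm z
  have h8 := Complex.abs_im_le_norm z
  rw [abs_le] at h7 h8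
  refine ⟨⟨⟨s, u, v, h3, h4, h5, h6⟩, ⟨by linarith, by linarith, h1, by linarith⟩⟩, ?_⟩
  rw [Metric.mem_ball, dist_zero_right]
  exact hρ

end X28

open X28 in
/-- **Lower bound for the local cut points of the limits, near the end point.** -/
theorem limr5 (hG : St_GOOD5) (hI : St_IND5) (hD : St_DET5) (hQ : St_QLIM) : St_LIMR5 := by
  intro R δ hδ hlim μ hμ
  have h1 : ∀ᵐ p ∂(μ : Measure X), ∀ n k : ℕ, ENNReal.ofReal (3/4 - (1/2) / ((n : ℝ) + 1)) ≤
      dimH (LC (min R.A (min R.B (min R.H (1 / ((k : ℝ) + 1))))) p.1) := by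
    rw [ae_all_iff]
    intro n
    rw [ae_all_iff]
    intro k
    have hn : (1/2 : ℝ) / ((n : ℝ) + 1) ≤ 1/2 := by
      rw [div_le_iff₀ (by positivity)]
      have : (0:ℝ) ≤ n := Nat.cast_nonneg n
      linarith
    have hn2 : (0 : ℝ) < (1/2 : ℝ) / ((n : ℝ) + 1) := by positivity
    exact limT hG hI hD hQ R δ hδ hlim μ hμ _ (by linarith) (by linarith) _ (by positivity)
  filter_upwards [h1] with p hp
  intro ρ hρ
  obtain ⟨k, hk⟩ := exists_nat_one_div_lt hρ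
  apply three_quarters_le
  intro n
  exact (hp n k).trans (dimH_mono (LC_sub R hk.le p.1))

end Pool.Agent.N948.IX
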