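import Pool.Agent.N948.IX.Fin3
import Pool.Agent.N948.IX.X14
import Pool.Agent.N948.IX.X19b
import Pool.Agent.N948.IX.X26
import Pool.Agent.N948.IX.X27
import Pool.Agent.N948.IX.X28

/-!
# Project XD (helper948): assembly, the limits
-/

set_option autoImplicit false

namespace Pool.Agent.N948.IX

theorem hgood : St_GOOD5 := hgood5 cor
theorem hhitf : St_HITf := hitf basic oBasic restr oRestr lkOut hflux
theorem hdet5 : St_DET5 := det5 basic oBasic restr oRestr hl1 hhito hhitd hhitf
theorem hlimr : St_LIMR := limr hioUp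
theorem hlimr5 : St_LIMR5 := limr5 hgood hind5 hdet5 qlim'

end Pool.Agent.N948.IX
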