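import Pool.Agent.N948.IX.X17
import Pool.Agent.N948.IX.X28
import Pool.Agent.Y989.HP.LimD
import Pool.Agent.Y989.HP.T_RETCUT

/-!
# Project XD (helper948), X20 (helper342): lower bound for the limits, half-plane
-/

set_option autoImplicit false

namespace Pool.Agent.N948.IX

open H974 hiding dl
open H12S Finset H984P MeasureTheory Filter Topology
open Pool.Agent.H389R2.Dim (Good)
open Pool.Agent.TH966.DP (zp zp_dist nt nt_mul nt_le SA_sub)
open Pool.Agent.W92.DP (SA core4 DTB DLR)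
open Pool.Agent.Y989.HP (S_RETP S_CUTP)
open Pool.Agent.Y989.HP.LIM (dl dl_pos place_zp curve_vis reach_small S_TAIL exists_small)
open Pool.Agent.Y989.HP.GEOT (mT)
open Pool.Agent.Y989.HP.DETV (bxN cutz walk_eq len_eq bxN_ok cutz_sub mem_cutz cutz_cut)
open Pool.Agent.Y989.HP.LIMD (transfer exists_mT)
open H984H (Conf perc path cut bx gam Ret_S lawH curve reach place lawH_apply)
open H984N (sd)
open scoped ENNReal NNReal

namespace X20

/-! ### The box without the axis -/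

theorem lrc_off {a b c d : ℤ} {G Z : Finset Edg} (hZ : ∀ e ∈ Z, e.2.1 = 0 ∧ e.2.2 = true)
    (hc : 0 < c) (h : LRc a b c d G) : LRc a b c d (G \ Z) := by
  obtain ⟨y, y', hy, hy', h1⟩ := h
  refine ⟨y, y', hy, hy', h1.mono ?_⟩
  rintro e ⟨he1, he2⟩
  refine ⟨?_, he2⟩
  rw [Finset.mem_coe, Finset.mem_sdiff]
  refine ⟨he1, fun hz => ?_⟩
  obtain ⟨p, q, u⟩ := e
  obtain ⟨z1, z2⟩ := hZ _ hz
  simp only at z1 z2
  subst z2
  rw [Finset.mem_coe, mem_LRE_true] at he2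
  omega

theorem tbc_off {a b c d : ℤ} {G Z : Finset Edg} (hZ : ∀ e ∈ Z, e.2.1 = 0 ∧ e.2.2 = true)
    (hc : 0 ≤ c) (h : TBc a b c d G) : TBc a b c d (G \ Z) := by
  obtain ⟨y, y', hy, hy', h1⟩ := h
  refine ⟨y, y', hy, hy', h1.mono ?_⟩
  rintro e ⟨he1, he2⟩
  refine ⟨?_, he2⟩
  rw [Finset.mem_coe, Finset.mem_sdiff]
  refine ⟨he1, fun hz => ?_⟩
  obtain ⟨p, q, u⟩ := e
  obtain ⟨z1, z2⟩ := hZ _ hz
  simp only at z1 z2
  subst z2
  rw [Finset.mem_coe, mem_TBE_true] at he2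
  omega

theorem dlr_off {a b c d : ℤ} {G Z : Finset Edg} (h : DLR a b c d G) : DLR a b c d (G \ Z) := by
  obtain ⟨x1, x1', a1, b1, h1⟩ := h
  refine ⟨x1, x1', a1, b1, h1.mono ?_⟩
  exact_mod_cast Finset.sdiff_subset_sdiff subset_rfl Finset.sdiff_subset

theorem dtb_off {a b c d : ℤ} {G Z : Finset Edg} (h : DTB a b c d G) : DTB a b c d (G \ Z) := by
  obtain ⟨x1, x1', a1, b1, h1⟩ := h
  refine ⟨x1, x1', a1, b1, h1.mono ?_⟩
  exact_mod_cast Finset.sdiff_subset_sdiff subset_rfl Finset.sdiff_subset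

theorem E5_cutz (hB : St_basic) (hoB : St_oBasic) {M M' B N a L m : ℕ} (hm : 1 ≤ L * m)
    (ha : 5 * a ≤ L * m) {ω : Conf} {ρ : ℤ} {v : Vtx} (hv : v ∈ core4 (L * m : ℕ))
    (h : E5 M M' B N a L m v (cut ω ρ)) : E5 M M' B N a L m v (cutz ω ρ) := by
  classical
  have hv2 := Pool.Agent.W52.DPInd.mem_core4.1 hv
  have e16 : 16 * L * m = 16 * (L * m) := by ring
  have hab : a < 16 * L * m - 1 := by omega
  have hU : (1 : ℤ) ≤ ((L * m : ℕ) : ℤ) := by exact_mod_cast hm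
  have haU : 5 * (a : ℤ) ≤ ((L * m : ℕ) : ℤ) := by exact_mod_cast ha
  obtain ⟨Z, hZ⟩ : ∃ Z, Z = cut ω ρ \ cutz ω ρ := ⟨_, rfl⟩
  have hZ1 : ∀ e ∈ Z, e.2.1 = 0 ∧ e.2.2 = true := by
    intro e he
    rw [hZ, Finset.mem_sdiff] at he
    by_contra hc
    exact he.2 (mem_cutz he.1 (fun h => hc ⟨h.2.1, h.1⟩))
  have hpos : ∀ e : Edg, ∀ R : ℤ, R ≤ 16 * ((L * m : ℕ) : ℤ) → lv v (src e) ≤ R → e ∉ Z := by
    intro e R hR h hz
    have h0 := (hZ1 e hz).1
    obtain ⟨x, y, u⟩ := e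
    unfold lv at h
    have h1 := abs_le.1 ((le_max_right _ _).trans h)
    rw [src_mk] at h1
    simp only at h1 h0
    omega
  have hiff : ∀ e, e ∉ Z → (e ∈ (↑(cut ω ρ) : Set Edg) ↔ e ∈ (↑(cutz ω ρ) : Set Edg)) := by
    intro e he
    rw [Finset.mem_coe, Finset.mem_coe]
    constructor
    · intro h
      by_contra h2
      exact he (by rw [hZ, Finset.mem_sdiff]; exact ⟨h, h2⟩)
    · exact fun h => cutz_cut ω ρ h
  obtain ⟨σ, τ, T, T', G, h1, h2, h3⟩ := h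
  have hF : ∀ e ∈ Ge v a (16 * L * m - 1),
      (e ∈ (↑(cut ω ρ) : Set Edg) ↔ e ∈ (↑(cutz ω ρ) : Set Edg)) := by
    intro e he
    exact hiff e (hpos e ((16 * L * m - 1 : ℕ) : ℤ) (by omega) he.1.2)
  obtain ⟨k1, k2, k3⟩ := X17.gio_local hB hoB hab hF h1
  refine ⟨σ, τ, T, T', G \ Z, k1, ?_, ?_⟩
  · rw [k2, k3]
    intro e he he'
    rw [Finset.mem_sdiff, ← h2 e he he', hZ, Finset.mem_sdiff]
    constructor
    · intro h
      exact ⟨cutz_cut ω ρ h, fun h' => h'.2 h⟩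
    · rintro ⟨h4, h5⟩
      by_contra h6
      exact h5 ⟨h4, h6⟩
  · obtain ⟨⟨q1, q2⟩, ⟨q3, q4, q5⟩, q6, q7, q8, q9⟩ := h3
    have hGZ : ∀ e, e ∉ Z → (e ∈ (↑G : Set Edg) ↔ e ∈ (↑(G \ Z) : Set Edg)) := by
      intro e he
      rw [Finset.mem_coe, Finset.mem_coe, Finset.mem_sdiff]
      exact ⟨fun h => ⟨h, he⟩, fun h => h.1⟩
    have e1 : ∀ e ∈ Ge v (9 * a) (72 * a), (e ∈ (↑G : Set Edg) ↔ e ∈ (↑(G \ Z) : Set Edg)) := by
      intro e he
      exact hGZ e (hpos e ((72 * a : ℕ) : ℤ) (by push_cast; omega) he.1.2)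
    have e2 : ∀ e, (∃ f, (dsrc e = f ∨ dtgt e = f) ∧ Af v a (8 * a) f) →
        (e ∈ (↑G : Set Edg) ↔ e ∈ (↑(G \ Z) : Set Edg)) := by
      rintro e ⟨f, hf, h⟩
      have h1 := X17.near_face hf h.2
      exact hGZ e (hpos e ((8 * a : ℕ) : ℤ) (by push_cast; omega) h1.1)
    refine ⟨⟨?_, ?_⟩, ⟨lrc_off hZ1 (by omega) q3, tbc_off hZ1 (by omega) q4,
      tbc_off hZ1 le_rfl q5⟩, dlr_off q6, dtb_off q7, dlr_off q8, dtb_off q9⟩
    · rw [← X17.dc_local e2]
      exact q1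
    · rw [← X17.oc_local e1]
      exact q2

/-! ### Restriction and reversal -/

theorem sd_tri (a b c : Vtx) : sd a c ≤ sd a b + sd b c := by
  unfold sd
  refine max_le ?_ ?_
  · exact (abs_sub_le _ b.1 _).trans (add_le_add (le_max_left _ _) (le_max_left _ _))
  · exact (abs_sub_le _ b.2 _).trans (add_le_add (le_max_right _ _) (le_max_right _ _))

theorem sd_comm' (a b : Vtx) : sd a b = sd b a := by
  unfold sd
  rw [abs_sub_comm a.1, abs_sub_comm a.2]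

/-- Restriction and reversal of a passage. -/
theorem cut_rev {κ M B U N : ℕ} {w : ℕ → Vtx} {v : Vtx}
    (hstep : ∀ k, sd (w k) (w (k + 1)) ≤ 1) (hκ : (κ : ℤ) < 3 * U)
    (hN : 3 * (U : ℤ) + 1 ≤ sd (w N) v) (h : CutW κ M B U N w v) :
    ∃ i, i < N ∧ sd (w i) v ≤ 3 * U ∧ ∀ p : ℕ → Vtx, (∀ k ≤ N - 1 - i, p k = w (N - 1 - k)) →
      CutW κ M B U (N - 1 - i) p v := by
  classical
  obtain ⟨i0, j, l, hij, hjl, hl, c1, c2, c3, c4, c5, c6⟩ := h
  obtain ⟨i, hi⟩ : ∃ i, i = Nat.findGreatest (fun k => i0 ≤ k ∧ 3 * (U : ℤ) ≤ sd (w k) v) j :=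
    ⟨_, rfl⟩
  have h1 : i0 ≤ i ∧ 3 * (U : ℤ) ≤ sd (w i) v := by
    rw [hi]
    exact Nat.findGreatest_spec (P := fun k => i0 ≤ k ∧ 3 * (U : ℤ) ≤ sd (w k) v) hij
      ⟨le_rfl, c2⟩
  have h2 : i ≤ j := by rw [hi]; exact Nat.findGreatest_le j
  have h3 : i ≠ j := by
    rintro h
    rw [h] at h1
    omega
  have h4 : sd (w (i + 1)) v < 3 * U := by
    have := Nat.findGreatest_is_greatest (P := fun k => i0 ≤ k ∧ 3 * (U : ℤ) ≤ sd (w k) v)
      (n := j) (k := i + 1) (by rw [← hi]; omega) (by omega)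
    by_contra h
    exact this ⟨by omega, not_lt.1 h⟩
  have h5 : sd (w i) v ≤ 3 * U := by
    have := sd_tri (w i) (w (i + 1)) v
    have := hstep i
    omega
  have hjN : j ≠ N := by
    rintro h
    rw [h] at c1
    omega
  obtain ⟨l2, e1, e2, e3, e4⟩ : ∃ l2, j ≤ l2 ∧ l2 ≤ l ∧ l2 ≤ N - 1 ∧ 3 * (U : ℤ) ≤ sd (w l2) v := by
    by_cases h : l = N
    · refine ⟨N - 1, by omega, by omega, le_rfl, ?_⟩
      have h6 := sd_tri (w N) (w (N - 1)) v
      have h7 := hstep (N - 1)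
      rw [show N - 1 + 1 = N by omega, sd_comm'] at h7
      omega
    · exact ⟨l, hjl, le_rfl, by omega, c3⟩
  refine ⟨i, by omega, h5, fun p hp => ?_⟩
  refine ⟨N - 1 - l2, N - 1 - j, N - 1 - i, by omega, by omega, le_rfl, ?_, ?_, ?_, ?_, ?_, ?_⟩
  · rw [hp _ (by omega), show N - 1 - (N - 1 - j) = j by omega]
    exact c1
  · rw [hp _ (by omega), show N - 1 - (N - 1 - l2) = l2 by omega]
    exact e4
  · rw [hp _ (by omega), show N - 1 - (N - 1 - i) = i by omega]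
    exact h1.2
  · intro s s' hs hss hs'
    rw [hp s' (by omega), hp s (by omega)]
    exact c5 _ _ (by omega) (by omega) (by omega)
  · intro s s' hs hss hs'
    rw [hp s' (by omega), hp s (by omega)]
    exact c4 _ _ (by omega) (by omega) (by omega)
  · intro s s' hs hss hs' hs2
    rw [hp s' (by omega), hp s (by omega), max_comm, sd_comm' (w (N - 1 - s)) (w (N - 1 - s'))]
    exact c6 _ _ (by omega) (by omega) (by omega) (by omega)

/-- The passages of the path of the half-plane. -/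
theorem detH {κ K B L m : ℕ} {ω : Conf} {ρ R r : ℤ} {v : Vtx} (hm : 1 ≤ L * m)
    (hκ : κ < 3 * (L * m)) (hr : 30 * ((L * m : ℕ) : ℤ) ≤ r) (hrR : r < R) (hRρ : R < ρ)
    (hS : ∀ u ∈ Ret_S ω r, H984H.sd u (0, 0) < R) (hv : v ∈ core4 (L * m : ℕ))
    (h : CutW κ K B (L * m) ((bxN ρ).len (cutz ω ρ)) (fun k => ((bxN ρ).walk (cutz ω ρ) k).1) v) :
    ∃ l0 : ℕ, (∀ k ≤ l0, H984H.sd (path ω k).1 (0, 0) < R) ∧
      CutW κ K B (L * m) l0 (fun k => (path ω k).1) v := by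
  have hU : (1 : ℤ) ≤ ((L * m : ℕ) : ℤ) := by exact_mod_cast hm
  have hρ1 : 1 ≤ ρ := by omega
  have hv2 := Pool.Agent.W52.DPInd.mem_core4.1 hv
  have hstep : ∀ k, sd ((bxN ρ).walk (cutz ω ρ) k).1 ((bxN ρ).walk (cutz ω ρ) (k + 1)).1 ≤ 1 :=
    fun k => H984N.walk_step (bxN ρ) (cutz ω ρ) k
  have hstop := H984N.walk_len (bxN_ok hρ1) (cutz_sub ω ρ)
  obtain ⟨i, hi, hiv, hrev⟩ := cut_rev (w := fun k => ((bxN ρ).walk (cutz ω ρ) k).1) hstep
    (by exact_mod_cast hκ) (by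
      rw [hstop]
      show 3 * ((L * m : ℕ) : ℤ) + 1 ≤ sd ((0 : ℤ), (0 : ℤ)) v
      unfold sd
      refine le_max_of_le_right ?_
      rw [le_abs]
      right
      simp only
      omega) h
  rw [walk_eq] at hiv
  rw [len_eq] at hi hrev
  have hvr : H984H.sd ((bx ρ).walk (cut ω ρ) i).1 (0, 0) ≤ r := by
    rw [H984H.Ret_sd]
    unfold sd at hiv
    have h1 := abs_le.1 ((le_max_left _ _).trans hiv)
    have h2 := abs_le.1 ((le_max_right _ _).trans hiv)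
    refine max_le (abs_le.2 ?_) (abs_le.2 ?_) <;> omega
  have ht := transfer (by omega) hrR hRρ hS (i := i) hi hvr
  refine ⟨(bx ρ).len (cut ω ρ) - 1 - i, fun k hk => (ht k hk).2, hrev _ fun k hk => ?_⟩
  rw [(ht k hk).1, walk_eq]

/-! ### The curve -/

open X28 in
/-- The curve is near the last node. -/
theorem cnear {n : ℕ} (hn : 0 < n) (ω : Conf) (s : unitInterval) :
    dist (curve n ω s) (zp (dl n) (path ω (nd n s)).1) ≤ 3 * dl n := by
  have hd := dl_pos hn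
  rcases lt_or_ge (nd n s) n with h | h
  · have h0 : 0 ≤ (s : ℝ) * n := mul_nonneg s.2.1 (Nat.cast_nonneg n)
    have h1 : ((nd n s : ℕ) : ℝ) ≤ s * n := Nat.floor_le h0
    have h2 : (s : ℝ) * n ≤ (nd n s : ℕ) + 1 := (Nat.lt_floor_add_one _).le
    have h3 := H984H.curve_node ω h h1 h2
    have h4 := place_zp hd.le (path ω (nd n s))
    have h6 := dist_triangle (curve n ω s) (((dl n : ℝ) : ℂ) * gam ω (nd n s))
      (zp (dl n) (path ω (nd n s)).1)
    have h7 : dist (curve n ω s) (((dl n : ℝ) : ℂ) * gam ω (nd n s)) ≤ dl n * (1 / 2) := by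
      rw [dist_eq_norm]; exact h3
    have h8 : dist (((dl n : ℝ) : ℂ) * gam ω (nd n s)) (zp (dl n) (path ω (nd n s)).1) ≤
      2 * dl n := h4
    linarith
  · have h1 : nd n s = n := le_antisymm (nd_le n s) h
    have hn' : (0 : ℝ) < n := by exact_mod_cast hn
    have h2 : s = nt n n le_rfl := by
      apply Subtype.ext
      show (s : ℝ) = (n : ℝ) / n
      rw [div_self hn'.ne']
      apply le_antisymm s.2.2
      have h5 : ((nd n s : ℕ) : ℝ) ≤ s * n := Nat.floor_le (mul_nonneg s.2.1 hn'.le)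
      rw [h1] at h5
      by_contra hlt
      push Not at hlt
      nlinarith
    rw [h1, h2]
    have h3 := curve_vis hn ω (le_refl n)
    linarith

open X28 in
theorem mem_QQH {n : ℕ} (hn : 0 < n) {t0 : unitInterval} (h0 : 0 < (t0 : ℝ)) {ω : Conf}
    {κ K B U l0 : ℕ} {v : Vtx} (hcut : CutW κ K B U l0 (fun k => (path ω k).1) v) (hl0 : l0 ≤ n)
    (hlt : (l0 : ℝ) ≤ t0 * n) (hB : 1 ≤ B) {Kc : Set ℂ} (hKc : zp (dl n) v ∈ Kc) {η ε' q : ℝ}
    (hδ1 : 3 * dl n ≤ 1) (hη : η ≤ 3 * (dl n * U)) (hq : dl n * U ≤ q)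
    (hε : (2 * (κ : ℝ) + 3) * (3 * dl n) ≤ ε') :
    zp (dl n) v ∈ QQ η (8 * K * q + 8 + 4 ^ B * (K * q ^ (B - 1) + 1)) B ε' Kc
      ((curve n ω).comp (mT t0)) := by
  obtain ⟨i, j, l, hij, hjl, hl, c1, c2, c3, c4, c5, c6⟩ := hcut
  have hd := dl_pos hn
  obtain ⟨d, hdd⟩ : ∃ d : ℝ, d = dl n := ⟨_, rfl⟩
  have hnear0 : ∀ s : unitInterval, dist (curve n ω s) (zp d (path ω (nd n s)).1) ≤ 3 * d := by
    intro s
    rw [hdd]
    exact cnear hn ω s
  rw [← hdd] at hδ1 hη hq hε hd hKc ⊢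
  obtain ⟨g, hg⟩ : ∃ g : C(unitInterval, ℂ), g = (curve n ω).comp (mT t0) := ⟨_, rfl⟩
  obtain ⟨vx, hvx⟩ : ∃ vx : unitInterval → Vtx, vx = fun x => (path ω (nd n (t0 * x))).1 :=
    ⟨_, rfl⟩
  have hn' : (0 : ℝ) < n := by exact_mod_cast hn
  have near : ∀ x, dist (g x) (zp d (vx x)) ≤ 3 * d := by
    intro x
    rw [hg, hvx]
    exact hnear0 (t0 * x)
  have up : ∀ x, dist (g x) (zp d v) ≤ 2 * (d * ((sd (vx x) v : ℤ) : ℝ)) + 3 * d := by
    intro x
    have h1 := near x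
    have h2 := zp_dist_le hd.le (vx x) v
    have h3 := dist_triangle (g x) (zp d (vx x)) (zp d v)
    linarith
  have lo : ∀ x, d * ((sd (vx x) v : ℤ) : ℝ) ≤ dist (g x) (zp d v) + 2 * (3 * d) := by
    intro x
    have h1 := near x
    have h2 := zp_dist hd.le (vx x) v
    have h3 := dist_triangle_left (zp d (vx x)) (zp d v) (g x)
    linarith
  have lo2 : ∀ x y, d * ((sd (vx x) (vx y) : ℤ) : ℝ) ≤ dist (g x) (g y) + 2 * (3 * d) := by
    intro x y
    have h1 := near x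
    have h1' := near y
    have h2 := zp_dist hd.le (vx x) (vx y)
    have h3 := dist_triangle_left (zp d (vx x)) (zp d (vx y)) (g x)
    have h4 := dist_triangle (g x) (g y) (zp d (vx y))
    linarith
  have hln : l ≤ n := hl.trans hl0
  have hex : ∀ (k : ℕ) (hk : k ≤ l), ∃ x : unitInterval, t0 * x = nt n k (hk.trans hln) := by
    intro k hk
    have hkn : k ≤ n := by omega
    have h1 : ((nt n k hkn : unitInterval) : ℝ) = k / n := rfl
    have h2 : (k : ℝ) ≤ t0 * n := by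
      refine le_trans ?_ hlt
      exact_mod_cast (by omega : k ≤ l0)
    obtain ⟨s, -, hs⟩ := exists_mT h0 (s := nt n k hkn) (by
      rw [h1, div_le_iff₀ hn']; exact h2)
    exact ⟨s, hs⟩
  obtain ⟨xi, exi⟩ := hex i (by omega)
  obtain ⟨xj, exj⟩ := hex j (by omega)
  obtain ⟨xl, exl⟩ := hex l le_rfl
  have hmul : ∀ x y : unitInterval, x ≤ y → t0 * x ≤ t0 * y := by
    intro x y hxy
    show ((t0 * x : unitInterval) : ℝ) ≤ ((t0 * y : unitInterval) : ℝ)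
    rw [Set.Icc.coe_mul, Set.Icc.coe_mul]
    exact mul_le_mul_of_nonneg_left hxy t0.2.1
  have hmul' : ∀ x y : unitInterval, t0 * x ≤ t0 * y → x ≤ y := by
    intro x y hxy
    have h1 : ((t0 * x : unitInterval) : ℝ) ≤ ((t0 * y : unitInterval) : ℝ) := hxy
    rw [Set.Icc.coe_mul, Set.Icc.coe_mul] at h1
    exact le_of_mul_le_mul_left h1 h0
  have vxi : vx xi = (path ω i).1 := by rw [hvx]; simp only; rw [exi, nd_nt]
  have vxj : vx xj = (path ω j).1 := by rw [hvx]; simp only; rw [exj, nd_nt]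
  have vxl : vx xl = (path ω l).1 := by rw [hvx]; simp only; rw [exl, nd_nt]
  have gei : ∀ x, xi ≤ x → i ≤ nd n (t0 * x) := by
    intro x hx
    exact le_nd (by omega) (exi ▸ hmul _ _ hx)
  have gej : ∀ x, xj ≤ x → j ≤ nd n (t0 * x) := by
    intro x hx
    exact le_nd (by omega) (exj ▸ hmul _ _ hx)
  have lej : ∀ x, x ≤ xj → nd n (t0 * x) ≤ j := by
    intro x hx
    exact nd_le' (by omega) (exj ▸ hmul _ _ hx)
  have lel : ∀ x, x ≤ xl → nd n (t0 * x) ≤ l := by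
    intro x hx
    exact nd_le' (by omega) (exl ▸ hmul _ _ hx)
  have hU0 : (0 : ℝ) ≤ d * U := by positivity
  have hq0 : 0 ≤ q := hU0.trans hq
  have hκd : 0 ≤ (κ : ℝ) * d := by positivity
  have hX1 : (0 : ℝ) ≤ 4 ^ B * (K * q ^ (B - 1) + 1) := by positivity
  have hX2 : (0 : ℝ) ≤ 8 * K * q + 8 := by positivity
  have hd3 : 0 < 3 * d := by positivity
  rw [← hg]
  refine ⟨hKc, xi, xj, xl, hmul' _ _ ?_, hmul' _ _ ?_, ?_, ?_, ?_, ?_, ?_, ?_⟩
  · rw [exi, exj]; exact nt_le _ _ hij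
  · rw [exj, exl]; exact nt_le _ _ hjl
  · have h1 := up xj
    rw [vxj] at h1
    have h2 : ((sd (path ω j).1 v : ℤ) : ℝ) ≤ κ := by exact_mod_cast c1
    have h3 := mul_le_mul_of_nonneg_left h2 hd.le
    nlinarith
  · have h1 := lo xi
    rw [vxi] at h1
    have h2 : 3 * (U : ℝ) ≤ ((sd (path ω i).1 v : ℤ) : ℝ) := by exact_mod_cast c2
    have h3 := mul_le_mul_of_nonneg_left h2 hd.le
    nlinarith
  · have h1 := lo xl
    rw [vxl] at h1
    have h2 : 3 * (U : ℝ) ≤ ((sd (path ω l).1 v : ℤ) : ℝ) := by exact_mod_cast c3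
    have h3 := mul_le_mul_of_nonneg_left h2 hd.le
    nlinarith
  · intro x y hx hxy hy
    have h1 := c4 (nd _ (t0 * x)) (nd _ (t0 * y)) (gei x hx) (nd_mono (hmul _ _ hxy)) (lej y hy)
    have h2 : (((sd (vx y) v : ℤ) : ℝ)) ^ 2 ≤
        (K : ℝ) * U * (((sd (vx x) v : ℤ) : ℝ) + κ) := by
      rw [hvx]
      exact_mod_cast h1
    have n1 := sd_nonneg (vx x) v
    have n2 := sd_nonneg (vx y) v
    refine sq_bd (a := d * ((sd (vx x) v : ℤ) : ℝ))
      (a' := d * ((sd (vx y) v : ℤ) : ℝ)) (Nat.cast_nonneg K) hq0 hd3 hδ1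
      (Nat.cast_nonneg κ) hε dist_nonneg (by positivity) hX1 dist_nonneg (up y)
      (lo x) ?_
    have h3 := mul_le_mul_of_nonneg_left h2 (by positivity : (0 : ℝ) ≤ d ^ 2)
    have h4 : d ^ 2 * ((K : ℝ) * U * (((sd (vx x) v : ℤ) : ℝ) + κ)) =
        K * (d * U) * (d * ((sd (vx x) v : ℤ) : ℝ) + d * κ) := by ring
    have h5 : (K : ℝ) * (d * U) * (d * ((sd (vx x) v : ℤ) : ℝ) + d * κ) ≤
        K * q * (d * ((sd (vx x) v : ℤ) : ℝ) + 3 * d * κ) := by
      apply mul_le_mul (mul_le_mul_of_nonneg_left hq (Nat.cast_nonneg K)) _ (by positivity)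
        (by positivity)
      linarith
    rw [mul_pow]
    linarith
  · intro x y hx hxy hy
    have h1 := c5 (nd _ (t0 * x)) (nd _ (t0 * y)) (gej x hx) (nd_mono (hmul _ _ hxy)) (lel y hy)
    have h2 : (((sd (vx x) v : ℤ) : ℝ)) ^ 2 ≤
        (K : ℝ) * U * (((sd (vx y) v : ℤ) : ℝ) + κ) := by
      rw [hvx]
      exact_mod_cast h1
    have n1 := sd_nonneg (vx x) v
    have n2 := sd_nonneg (vx y) v
    refine sq_bd (a := d * ((sd (vx y) v : ℤ) : ℝ))
      (a' := d * ((sd (vx x) v : ℤ) : ℝ)) (Nat.cast_nonneg K) hq0 hd3 hδ1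
      (Nat.cast_nonneg κ) hε dist_nonneg (by positivity) hX1 dist_nonneg (up x)
      (lo y) ?_
    have h3 := mul_le_mul_of_nonneg_left h2 (by positivity : (0 : ℝ) ≤ d ^ 2)
    have h4 : d ^ 2 * ((K : ℝ) * U * (((sd (vx y) v : ℤ) : ℝ) + κ)) =
        K * (d * U) * (d * ((sd (vx y) v : ℤ) : ℝ) + d * κ) := by ring
    have h5 : (K : ℝ) * (d * U) * (d * ((sd (vx y) v : ℤ) : ℝ) + d * κ) ≤
        K * q * (d * ((sd (vx y) v : ℤ) : ℝ) + 3 * d * κ) := by
      apply mul_le_mul (mul_le_mul_of_nonneg_left hq (Nat.cast_nonneg K)) _ (by positivity)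
        (by positivity)
      linarith
    rw [mul_pow]
    linarith
  · intro x y hx hxu hy hyl
    have h1 := c6 (nd _ (t0 * x)) (nd _ (t0 * y)) (gei x hx) (lej x hxu) (gej y hy) (lel y hyl)
    have h2 : (max ((sd (vx x) v : ℤ) : ℝ) ((sd (vx y) v : ℤ) : ℝ)) ^ B ≤
        (K : ℝ) * (U : ℝ) ^ (B - 1) * (((sd (vx x) (vx y) : ℤ) : ℝ) + κ) := by
      rw [hvx]
      exact_mod_cast h1
    have n1 := sd_nonneg (vx x) v
    have n2 := sd_nonneg (vx y) v
    have n3 := sd_nonneg (vx x) (vx y)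
    obtain ⟨mx, hmx⟩ : ∃ mx : ℝ, mx = max ((sd (vx x) v : ℤ) : ℝ) ((sd (vx y) v : ℤ) : ℝ) :=
      ⟨_, rfl⟩
    rw [← hmx] at h2
    have n4 : 0 ≤ mx := by rw [hmx]; exact le_max_of_le_left n1
    refine pow_bd (mx := d * mx) (s2 := d * ((sd (vx x) (vx y) : ℤ) : ℝ)) (κ := κ) hB
      (Nat.cast_nonneg K) hq0 hd3 hδ1 (Nat.cast_nonneg κ) hε hX2 dist_nonneg dist_nonneg
      (by positivity) dist_nonneg ?_ ?_ (lo2 x y) ?_
    · have h3 := up x
      have h4 := mul_le_mul_of_nonneg_left (le_max_left ((sd (vx x) v : ℤ) : ℝ)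
        ((sd (vx y) v : ℤ) : ℝ)) hd.le
      rw [← hmx] at h4
      linarith
    · have h3 := up y
      have h4 := mul_le_mul_of_nonneg_left (le_max_right ((sd (vx x) v : ℤ) : ℝ)
        ((sd (vx y) v : ℤ) : ℝ)) hd.le
      rw [← hmx] at h4
      linarith
    · have h3 := mul_le_mul_of_nonneg_left h2 (by positivity : (0 : ℝ) ≤ d ^ B)
      have e1 : d ^ B = d ^ (B - 1) * d := by
        rw [← pow_succ]
        congr 1
        omega
      have h4 : d ^ B * ((K : ℝ) * (U : ℝ) ^ (B - 1) *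
          (((sd (vx x) (vx y) : ℤ) : ℝ) + κ)) =
          K * (d * U) ^ (B - 1) * (d * ((sd (vx x) (vx y) : ℤ) : ℝ) + d * κ) := by
        rw [e1, mul_pow]
        ring
      have h5 : (K : ℝ) * (d * U) ^ (B - 1) *
          (d * ((sd (vx x) (vx y) : ℤ) : ℝ) + d * κ) ≤
          K * q ^ (B - 1) * (d * ((sd (vx x) (vx y) : ℤ) : ℝ) + 3 * d * κ) := by
        apply mul_le_mul (mul_le_mul_of_nonneg_left (pow_le_pow_left₀ hU0 hq _)
          (Nat.cast_nonneg K)) _ (by positivity) (by positivity)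
        linarith
      rw [mul_pow]
      linarith

/-! ### The law of the curve -/

theorem curve_range (n : ℕ) : (Set.range (curve n)).Countable := by
  refine (Set.countable_range (fun v : Fin (n + 1) → St => H984N.pl n
    (fun k => (((n : ℝ) ^ (-(4/7) : ℝ) : ℝ) : ℂ) * place (v ⟨min k n, by omega⟩)))).mono ?_
  rintro f ⟨ω, rfl⟩
  refine ⟨fun j => path ω j, ?_⟩
  apply H984H.Perc_pl_congr
  intro k hk
  simp only [min_eq_left hk]
  rfl

theorem law_le (n : ℕ) (A : Set C(unitInterval, ℂ)) :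
    (lawH n : Measure C(unitInterval, ℂ)) A ≤ ENNReal.ofReal (perc.real {ω | curve n ω ∈ A}) := by
  obtain ⟨A', hA'⟩ : ∃ A', A' = (A ∩ Set.range (curve n)) ∪ (Set.range (curve n))ᶜ := ⟨_, rfl⟩
  have hmeas : MeasurableSet A' := by
    rw [hA']
    exact ((curve_range n).mono Set.inter_subset_right).measurableSet.union
      (curve_range n).measurableSet.compl
  have hsub : A ⊆ A' := by
    intro f hf
    rw [hA']
    by_cases h : f ∈ Set.range (curve n)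
    · exact Or.inl ⟨hf, h⟩
    · exact Or.inr h
  refine (measure_mono hsub).trans ?_
  rw [lawH_apply n hmeas]
  apply ENNReal.ofReal_le_ofReal
  refine measureReal_mono ?_ (measure_ne_top _ _)
  intro ω hω
  have h1 : curve n ω ∈ A' := hω
  rw [hA'] at h1
  rcases h1 with h | h
  · exact h.1
  · exact absurd ⟨ω, rfl⟩ h

/-! ### The limit -/

/-- The lower bound with a given exponent, up to the time `t0`, in a half-disc. -/
theorem limT (hB : St_basic) (hoB : St_oBasic) (hretp : S_RETP) (hcut : S_CUTP) (htail : S_TAIL)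
    (hG : St_GOOD5) (hI : St_IND5) (hD : St_DET5) (hQ : St_QLIM) {φ : ℕ → ℕ}
    (hφ : Tendsto φ atTop atTop) {μ : ProbabilityMeasure C(unitInterval, ℂ)}
    (hμ : Tendsto (fun i => lawH (φ i)) atTop (𝓝 μ))
    {t : ℝ} (ht : 0 < t) (ht1 : t < 3 / 4) {t0 : unitInterval} (h0 : 0 < (t0 : ℝ)) {ρ0 : ℝ}
    (hρ0 : 0 < ρ0) :
    ∀ᵐ f : C(unitInterval, ℂ) ∂(μ : Measure C(unitInterval, ℂ)),
      ENNReal.ofReal t ≤ dimH (LC ρ0 (f.comp (mT t0))) := by
  classical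
  refine hQ (fun i => lawH (φ i)) μ hμ t ht (mT t0) ρ0 hρ0 ?_
  intro ε hε
  have h01 : (t0 : ℝ) ≤ 1 := t0.2.2
  obtain ⟨δ', hδ', hδε⟩ : ∃ δ : ℝ, 0 < δ ∧ ENNReal.ofReal δ ≤ ε := by
    rcases eq_or_ne ε ∞ with h | h
    · exact ⟨1, one_pos, by rw [h]; exact le_top⟩
    · exact ⟨ε.toReal, ENNReal.toReal_pos hε.ne' h, by rw [ENNReal.ofReal_toReal h]⟩
  obtain ⟨L, M0, B, a, M, M', N, r0, c0, E0, p, hL, hM0, hB2, ha, hM, hM', hN, hr0, hc0, hE0, hp,
    hp1, hg⟩ := hG t ht ht1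
  obtain ⟨κ, K, m0, hK, hdet⟩ := hD M M' B N a L hL ha hB2 hN hM hM'
  obtain ⟨J, hJ⟩ := exists_pow_lt_of_lt_one (show 0 < δ' / 3 by positivity)
    (show 1 - p < 1 by linarith)
  obtain ⟨C, c, hC, hc, hret⟩ := hretp
  obtain ⟨u1, hu1, hu1', hu1''⟩ := exists_small (C := C) hc (show 0 < δ' / 3 by positivity)
  obtain ⟨K1, hK1⟩ : ∃ K1 : ℕ, K1 = max 2 ⌈1 / u1⌉₊ := ⟨_, rfl⟩
  have hK12 : 2 ≤ K1 := by rw [hK1]; exact le_max_left _ _
  have hK1u : C * ((1 : ℝ) / K1) ^ c ≤ δ' / 3 := by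
    have hK0 : (0 : ℝ) < K1 := by
      have : 0 < K1 := by omega
      exact_mod_cast this
    apply hu1'' _ (by positivity)
    rw [div_le_iff₀ hK0]
    have h2 : 1 / u1 ≤ K1 := by
      refine (Nat.le_ceil _).trans ?_
      rw [hK1]
      exact_mod_cast le_max_right _ _
    rwa [div_le_iff₀ hu1, mul_comm] at h2
  obtain ⟨A, hA, hAt⟩ := htail
  obtain ⟨x, hx, hx', hx''⟩ := exists_small (C := A) (show (0 : ℝ) < 7 / 4 by norm_num)
    (show 0 < δ' / 3 by positivity)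
  have hxA := hx'' x hx le_rfl
  -- the sizes
  obtain ⟨Q, hQd⟩ : ∃ Q : ℝ, Q = L * M0 * 64 ^ J := ⟨_, rfl⟩
  have hL' : (2:ℝ) ≤ L := by exact_mod_cast hL
  have hM0' : (64:ℝ) ≤ M0 := by exact_mod_cast hM0
  have h64 : (1:ℝ) ≤ 64 ^ J := one_le_pow₀ (by norm_num)
  have hLM : (1:ℝ) ≤ L * M0 := by nlinarith
  have hQ1 : 1 ≤ Q := by
    rw [hQd]
    exact one_le_mul_of_one_le_of_one_le hLM h64
  have hK1r : (2 : ℝ) ≤ K1 := by exact_mod_cast hK12
  obtain ⟨Y, hY⟩ : ∃ Y : ℝ, Y = x * ((t0 : ℝ) / 2) ^ (4/7 : ℝ) := ⟨_, rfl⟩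
  have hY0 : 0 < Y := by rw [hY]; positivity
  obtain ⟨s, hs⟩ : ∃ s : ℝ, s = min (Y / (240 * (K1 * Q))) (ρ0 / (320 * Q)) := ⟨_, rfl⟩
  have hs0 : 0 < s := by
    rw [hs]
    apply lt_min <;> positivity
  have hsY : 240 * (K1 * (Q * s)) ≤ Y := by
    have h2 : s ≤ Y / (240 * (K1 * Q)) := by rw [hs]; exact min_le_left _ _
    rw [le_div_iff₀ (by positivity)] at h2
    linarith
  have hsρ : 320 * (Q * s) ≤ ρ0 := by
    have h2 : s ≤ ρ0 / (320 * Q) := by rw [hs]; exact min_le_right _ _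
    rw [le_div_iff₀ (by positivity)] at h2
    linarith
  have hQs0 : 0 < Q * s := by positivity
  have hsQ : s ≤ Q * s := le_mul_of_one_le_left hs0.le hQ1
  obtain ⟨Kc, hKcdef⟩ : ∃ Kc : Set ℂ, Kc = Set.Icc (-(10 * (Q * s))) 0 ×ℂ
    Set.Icc (17 * (L * M0) * (s / 2)) (20 * (Q * s)) := ⟨_, rfl⟩
  have hKcc : IsCompact Kc := by rw [hKcdef]; exact isCompact_Icc.reProdIm isCompact_Icc
  refine ⟨2 ^ (-t) / (E0 / c0 ^ 2 * (M0 * (s / 2)) ^ (-t)), 3 * ((L * M0) * (s / 2)),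
    8 * K * (Q * s) + 8 + 4 ^ B * (K * (Q * s) ^ (B - 1) + 1), B, Kc,
    by positivity, by positivity, by positivity, by omega, hKcc, ?_, ?_⟩
  · intro z hz
    rw [hKcdef, Complex.mem_reProdIm, Set.mem_Icc, Set.mem_Icc] at hz
    obtain ⟨⟨b1, b2⟩, b3, b4⟩ := hz
    have b5 : 0 < 17 * (L * M0) * (s / 2) := by positivity
    refine ⟨by linarith, ?_⟩
    have e1 : ‖z‖ ≤ |z.re| + |z.im| := Complex.norm_le_abs_re_add_abs_im _
    have e2 : |z.re| ≤ 10 * (Q * s) := by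
      rw [abs_le]; constructor <;> linarith
    have e3 : |z.im| ≤ 20 * (Q * s) := by
      rw [abs_le]; constructor <;> linarith
    linarith
  · intro ε' hε'
    obtain ⟨w, hw⟩ : ∃ w : ℝ, w = ((r0 + 100 * a + m0 + κ + 1 : ℕ) : ℝ) := ⟨_, rfl⟩
    have hw0 : 0 < w := by rw [hw]; positivity
    obtain ⟨δm, hδm⟩ : ∃ δm : ℝ, δm = min (min (Y / 4) (ε' / (3 * (2 * κ + 3))))
        (min (min (s / 2) (s / (2 * w))) (1 / 3)) := ⟨_, rfl⟩
    have hδm0 : 0 < δm := by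
      rw [hδm]
      exact lt_min (lt_min (by positivity) (by positivity))
        (lt_min (lt_min (by positivity) (by positivity)) (by positivity))
    have hsc : Tendsto (fun i => dl (φ i)) atTop (𝓝 0) :=
      (tendsto_rpow_neg_atTop (by norm_num : (0:ℝ) < 4/7)).comp
        (tendsto_natCast_atTop_atTop.comp hφ)
    have hev : ∀ᶠ i in atTop, dl (φ i) < δm := (tendsto_order.1 hsc).2 _ hδm0
    have hev2 : ∀ᶠ i in atTop, 2 / (t0 : ℝ) ≤ ((φ i : ℕ) : ℝ) :=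
      (tendsto_natCast_atTop_atTop.comp hφ).eventually_ge_atTop _
    filter_upwards [hev, hev2] with i hi hn2
    obtain ⟨n, hn⟩ : ∃ n, n = φ i := ⟨_, rfl⟩
    rw [← hn] at hi hn2 ⊢
    have hn0' : (0 : ℝ) < n := lt_of_lt_of_le (by positivity) hn2
    have hn0 : 0 < n := by exact_mod_cast hn0'
    have hi0 : dl n ≤ Y / 4 := hi.le.trans (by
      rw [hδm]; exact (min_le_left _ _).trans (min_le_left _ _))
    have hi1 : dl n ≤ ε' / (3 * (2 * κ + 3)) := hi.le.trans (by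
      rw [hδm]; exact (min_le_left _ _).trans (min_le_right _ _))
    have hi2 : dl n ≤ s / 2 := hi.le.trans (by
      rw [hδm]; exact (min_le_right _ _).trans ((min_le_left _ _).trans (min_le_left _ _)))
    have hi2' : dl n ≤ s / (2 * w) := hi.le.trans (by
      rw [hδm]; exact (min_le_right _ _).trans ((min_le_left _ _).trans (min_le_right _ _)))
    have hi4 : dl n ≤ 1 / 3 := hi.le.trans (by
      rw [hδm]; exact (min_le_right _ _).trans (min_le_right _ _))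
    have hδi := dl_pos hn0
    obtain ⟨d, hd⟩ : ∃ d : ℝ, d = dl n := ⟨_, rfl⟩
    rw [← hd] at hi0 hi1 hi2 hi2' hi4 hδi
    have hκ3 : (0 : ℝ) < 3 * (2 * (κ : ℝ) + 3) := by positivity
    have hεκ : (2 * (κ : ℝ) + 3) * (3 * d) ≤ ε' := by
      rw [le_div_iff₀ hκ3] at hi1
      linarith
    have hdε : d ≤ ε' := by
      have : (0 : ℝ) ≤ κ * d := by positivity
      nlinarith
    refine (law_le n _).trans ?_
    refine le_trans (ENNReal.ofReal_le_ofReal ?_) hδε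
    -- the lattice scale
    obtain ⟨r, hr⟩ : ∃ r : ℕ, r = ⌊s / d⌋₊ := ⟨_, rfl⟩
    have hr1 : d * r ≤ s := by
      have := Nat.floor_le (show 0 ≤ s / d by positivity)
      rw [← hr, le_div_iff₀ hδi] at this
      linarith
    have hr2 : s / 2 ≤ d * r := by
      have := Nat.lt_floor_add_one (s / d)
      rw [← hr, div_lt_iff₀ hδi, show ((r : ℝ) + 1) * d = d * r + d by ring] at this
      linarith
    have hrw : w ≤ r := by
      rw [le_div_iff₀ (by positivity)] at hi2'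
      have h1 : d * w ≤ d * r := by nlinarith
      exact le_of_mul_le_mul_left h1 hδi
    have hrN : r0 + 100 * a + m0 + κ + 1 ≤ r := by
      rw [hw] at hrw
      exact_mod_cast hrw
    have hscale : ∀ j < J, ((L * (M0 * (64 ^ j * r)) : ℕ) : ℝ) ≤ Q * r := by
      intro j hj
      push_cast
      have h1 : (64 : ℝ) ^ j ≤ 64 ^ J := pow_le_pow_right₀ (by norm_num) hj.le
      have h2 : (0:ℝ) ≤ r := Nat.cast_nonneg r
      rw [hQd]
      calc (L:ℝ) * (M0 * (64 ^ j * r)) = L * M0 * r * 64 ^ j := by ring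
        _ ≤ L * M0 * r * 64 ^ J := mul_le_mul_of_nonneg_left h1 (by positivity)
        _ = L * M0 * 64 ^ J * r := by ring
    have hscaleN : ∀ j < J, L * (M0 * (64 ^ j * r)) ≤ L * (M0 * (64 ^ J * r)) := by
      intro j hj
      exact Nat.mul_le_mul_left _ (Nat.mul_le_mul_left _ (Nat.mul_le_mul_right r
        (Nat.pow_le_pow_right (by norm_num) hj.le)))
    have hscale2 : ∀ j : ℕ, (L * M0 : ℝ) * r ≤ ((L * (M0 * (64 ^ j * r)) : ℕ) : ℝ) := by
      intro j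
      push_cast
      have h1 : (1 : ℝ) ≤ 64 ^ j := one_le_pow₀ (by norm_num)
      calc (L * M0 : ℝ) * r = L * M0 * r * 1 := by ring
        _ ≤ L * M0 * r * 64 ^ j := mul_le_mul_of_nonneg_left h1 (by positivity)
        _ = (L:ℝ) * (M0 * (64 ^ j * r)) := by ring
    have hdQ : d * (Q * r) ≤ Q * s := by
      calc d * (Q * r) = Q * (d * r) := by ring
        _ ≤ Q * s := mul_le_mul_of_nonneg_left hr1 (by linarith)
    -- the boxes
    obtain ⟨W, hW⟩ : ∃ W : ℕ, W = L * (M0 * (64 ^ J * r)) := ⟨_, rfl⟩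
    rw [← hW] at hscaleN
    have hW1 : 1 ≤ W := by
      rw [hW]
      exact Nat.mul_pos (by omega) (Nat.mul_pos (by omega) (Nat.mul_pos (by positivity) (by omega)))
    obtain ⟨R1, hR1⟩ : ∃ R1 : ℕ, R1 = 30 * W := ⟨_, rfl⟩
    obtain ⟨R2, hR2⟩ : ∃ R2 : ℕ, R2 = K1 * R1 := ⟨_, rfl⟩
    have hR12 : R1 < R2 := by
      rw [hR2]
      have h1 : 1 ≤ R1 := by omega
      have h2 : 2 * R1 ≤ K1 * R1 := Nat.mul_le_mul_right _ hK12
      omega
    obtain ⟨ρ, hρ⟩ : ∃ ρ : ℤ, ρ = R2 + 39 * W + 1 := ⟨_, rfl⟩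
    have hdW : d * W ≤ Q * s := by
      have e1 : (W : ℝ) = Q * r := by
        rw [hW, hQd]; push_cast; ring
      rw [e1]
      exact hdQ
    -- the time
    obtain ⟨m, hm⟩ : ∃ m : ℕ, m = ⌊(t0 : ℝ) * n⌋₊ := ⟨_, rfl⟩
    have hm1 : (m : ℝ) ≤ t0 * n := by
      rw [hm]; exact Nat.floor_le (by positivity)
    have ht0n : 2 ≤ (t0 : ℝ) * n := by
      rw [div_le_iff₀ h0] at hn2
      linarith
    have hm2 : (t0 : ℝ) / 2 * n ≤ m := by
      have := Nat.lt_floor_add_one ((t0 : ℝ) * n)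
      rw [← hm] at this
      linarith
    have hmn : m ≤ n := by
      have h1 : (t0 : ℝ) * n ≤ 1 * n := mul_le_mul_of_nonneg_right h01 hn0'.le
      have : (m : ℝ) ≤ n := by linarith
      exact_mod_cast this
    have hmpos : 1 ≤ m := by
      have : (0 : ℝ) < m := by linarith
      exact_mod_cast this
    -- the events
    have hB1 : perc.real {ω | ∀ j < J, ¬ Gd5 c0 E0 t M M' B N a L (M0 * (64 ^ j * r)) (cut ω ρ)} ≤
        δ' / 3 := by
      have hsub : ∀ j < J, SA (L * (M0 * (64 ^ j * r)) : ℕ) ⊆ (bx ρ).edges := by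
        intro j hj
        have h1 := hscaleN j hj
        have h2 : ((L * (M0 * (64 ^ j * r)) : ℕ) : ℤ) ≤ W := by exact_mod_cast h1
        have h3 : (0 : ℤ) ≤ ((L * (M0 * (64 ^ j * r)) : ℕ) : ℤ) := Int.natCast_nonneg _
        show SA (L * (M0 * (64 ^ j * r)) : ℕ) ⊆ RE (-ρ) ρ 0 ρ
        exact SA_sub (by omega) (by omega) (by omega)
      have hI' := hI p c0 E0 t M M' B N a L M0 (r0 + 100 * a) hp1 hL hM0 ha (by omega) (by omega)
        (fun r' S' hr' hS' => hg r' S' (by omega) hS') J r (bx ρ).edges (by omega) hsub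
      rw [hcut ρ (fun F => ∀ j < J, ¬ Gd5 c0 E0 t M M' B N a L (M0 * (64 ^ j * r)) F)]
      exact hI'.trans hJ.le
    have hB2' : perc.real {ω | ¬ ∀ u ∈ Ret_S ω (R1 : ℤ), H984H.sd u (0, 0) < (R2 : ℤ)} ≤
        δ' / 3 := by
      refine (hret R1 R2 (by omega) hR12.le).trans ?_
      have h1 : (R1 : ℝ) / R2 = 1 / K1 := by
        rw [hR2]
        push_cast
        have : (0 : ℝ) < R1 := by
          have : 0 < R1 := by omega
          exact_mod_cast this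
        field_simp
      rw [h1]
      exact hK1u
    have hB3 : perc.real {ω | reach m ω ≤ x * (m : ℝ) ^ (4/7 : ℝ)} ≤ δ' / 3 :=
      (hAt m x hmpos hx).trans hxA
    refine le_trans (measureReal_mono (s₂ := ({ω | ∀ j < J, ¬ Gd5 c0 E0 t M M' B N a L
        (M0 * (64 ^ j * r)) (cut ω ρ)} ∪
      {ω | ¬ ∀ u ∈ Ret_S ω (R1 : ℤ), H984H.sd u (0, 0) < (R2 : ℤ)}) ∪
      {ω | reach m ω ≤ x * (m : ℝ) ^ (4/7 : ℝ)}) ?_ (measure_ne_top _ _)) ?_
    swap
    · have e1 := measureReal_union_le (μ := perc)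
        ({ω | ∀ j < J, ¬ Gd5 c0 E0 t M M' B N a L (M0 * (64 ^ j * r)) (cut ω ρ)} ∪
        {ω | ¬ ∀ u ∈ Ret_S ω (R1 : ℤ), H984H.sd u (0, 0) < (R2 : ℤ)})
        {ω | reach m ω ≤ x * (m : ℝ) ^ (4/7 : ℝ)}
      have e2 := measureReal_union_le (μ := perc)
        {ω | ∀ j < J, ¬ Gd5 c0 E0 t M M' B N a L (M0 * (64 ^ j * r)) (cut ω ρ)}
        {ω | ¬ ∀ u ∈ Ret_S ω (R1 : ℤ), H984H.sd u (0, 0) < (R2 : ℤ)}
      linarith
    intro ω hbad
    by_contra hcon
    simp only [Set.mem_union, Set.mem_ofPred_eq, not_or, not_forall, not_not] at hcon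
    obtain ⟨⟨⟨j, hj, hGd⟩, hS⟩, hrch⟩ := hcon
    push Not at hrch
    apply hbad
    have hrm : r ≤ M0 * (64 ^ j * r) := by
      have h4 : 1 ≤ 64 ^ j := Nat.one_le_pow _ _ (by norm_num)
      have h5 : 1 ≤ M0 * 64 ^ j := by nlinarith
      calc r = 1 * r := (one_mul r).symm
        _ ≤ M0 * 64 ^ j * r := Nat.mul_le_mul_right r h5
        _ = M0 * (64 ^ j * r) := by ring
    have hδU : d * ((L * (M0 * (64 ^ j * r)) : ℕ) : ℝ) ≤ Q * s := by
      have h4 := mul_le_mul_of_nonneg_left (hscale j hj) hδi.le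
      linarith
    have hδU2 : (L * M0) * (s / 2) ≤ d * ((L * (M0 * (64 ^ j * r)) : ℕ) : ℝ) := by
      have h4 := mul_le_mul_of_nonneg_left (hscale2 j) hδi.le
      have h5 : (L * M0 : ℝ) * (s / 2) ≤ L * M0 * (d * r) :=
        mul_le_mul_of_nonneg_left hr2 (by positivity)
      linarith
    have haW := hscaleN j hj
    have hMs : (M0 : ℝ) * (s / 2) ≤ d * ((M0 * (64 ^ j * r) : ℕ) : ℝ) := by
      push_cast
      have h4 : (1 : ℝ) ≤ 64 ^ j := one_le_pow₀ (by norm_num)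
      calc (M0:ℝ) * (s / 2) ≤ M0 * (d * r) := mul_le_mul_of_nonneg_left hr2 (by positivity)
        _ = d * (M0 * r) * 1 := by ring
        _ ≤ d * (M0 * r) * 64 ^ j := mul_le_mul_of_nonneg_left h4 (by positivity)
        _ = d * (M0 * (64 ^ j * r)) := by ring
    obtain ⟨q, hq⟩ : ∃ q : ℕ, q = M0 * (64 ^ j * r) := ⟨_, rfl⟩
    rw [← hq] at hrm hδU hδU2 haW hMs hGd
    have hLq : q ≤ L * q := Nat.le_mul_of_pos_left q (by omega)
    have haWz : ((L * q : ℕ) : ℤ) ≤ W := by exact_mod_cast haW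
    refine X28.good5 hδi (by omega) hGd hc0 hE0 ht ?_ hdε (by positivity) hMs
    intro v hv
    unfold V5 at hv
    rw [Finset.mem_filter] at hv
    obtain ⟨hv, hE⟩ := hv
    have hE' := E5_cutz hB hoB (ρ := ρ) (by omega) (by omega) hv hE
    have hcw := hdet (bxN ρ) (cutz ω ρ) (bxN_ok (by omega)) (cutz_sub ω ρ) q (by omega)
      (by simp only [bxN]; omega) (by simp only [bxN]; omega) (by simp only [bxN]; omega) v hv hE'
    obtain ⟨l0, hl1, hl2⟩ := detH (R := R2) (r := R1) (by omega) (by omega)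
      (by omega) (by exact_mod_cast hR12) (by omega) (by
        intro u hu
        by_contra hcon2
        exact hS ⟨u, hu, hcon2⟩) hv hcw
    have hkm : l0 ≤ m := by
      by_contra hkm
      push Not at hkm
      have h1 := reach_small (ω := ω) (m := m) (R := R2) (fun j hj => hl1 j (by omega))
      have h2 : x * (m : ℝ) ^ (4/7 : ℝ) < 2 * R2 + 1 := by
        refine lt_of_lt_of_le hrch ?_
        exact_mod_cast h1
      have h3 : ((t0 : ℝ) / 2 * n) ^ (4/7 : ℝ) ≤ (m : ℝ) ^ (4/7 : ℝ) :=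
        Real.rpow_le_rpow (by positivity) hm2 (by norm_num)
      rw [Real.mul_rpow (by positivity) hn0'.le] at h3
      have h4 : d * (n : ℝ) ^ (4/7 : ℝ) = 1 := by
        rw [hd]
        unfold Pool.Agent.Y989.HP.LIM.dl
        rw [← Real.rpow_add hn0']
        norm_num
      have h5 : Y ≤ d * (x * (m : ℝ) ^ (4/7 : ℝ)) := by
        calc Y = d * (n : ℝ) ^ (4/7 : ℝ) * Y := by rw [h4, one_mul]
          _ = d * (x * (((t0 : ℝ) / 2) ^ (4/7 : ℝ) * (n : ℝ) ^ (4/7 : ℝ))) := by rw [hY]; ring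
          _ ≤ _ := by
            refine mul_le_mul_of_nonneg_left (mul_le_mul_of_nonneg_left h3 hx.le) hδi.le
      have h6 : d * (x * (m : ℝ) ^ (4/7 : ℝ)) < d * (2 * R2 + 1) :=
        mul_lt_mul_of_pos_left h2 hδi
      have h7 : (R2 : ℝ) = K1 * (30 * W) := by
        rw [hR2, hR1]; push_cast; ring
      have h8 : d * (2 * (R2 : ℝ) + 1) = 60 * (K1 * (d * W)) + d := by
        rw [h7]; ring
      have h9 : (K1 : ℝ) * (d * W) ≤ K1 * (Q * s) := mul_le_mul_of_nonneg_left hdW (by positivity)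
      have h10 : 0 ≤ (K1 : ℝ) * (Q * s) := by positivity
      linarith
    have hlt : (l0 : ℝ) ≤ t0 * n := by
      have : (l0 : ℝ) ≤ m := by exact_mod_cast hkm
      linarith
    rw [hd] at hδU hδU2 hεκ hi4 hδi ⊢
    refine mem_QQH hn0 h0 hl2 (hkm.trans hmn) hlt (by omega) ?_ (by linarith) (by linarith)
      hδU hεκ
    unfold core4 at hv
    rw [Finset.mem_product, Finset.mem_Icc, Finset.mem_Icc] at hv
    obtain ⟨⟨v1, v2⟩, v3, v4⟩ := hv
    obtain ⟨U, hU⟩ : ∃ U : ℕ, U = L * q := ⟨_, rfl⟩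
    rw [← hU] at v1 v2 v3 v4 hδU hδU2
    have hU0 : (0:ℝ) ≤ U := Nat.cast_nonneg U
    have v1' : -(10 * (U : ℝ)) ≤ v.1 := by exact_mod_cast v1
    have v2' : (v.1 : ℝ) ≤ -(8 * (U : ℝ)) := by exact_mod_cast v2
    have v3' : 17 * (U : ℝ) ≤ v.2 := by exact_mod_cast v3
    have v4' : (v.2 : ℝ) ≤ 19 * (U : ℝ) := by exact_mod_cast v4
    have w1 := mul_le_mul_of_nonneg_left v1' hδi.le
    have w2 := mul_le_mul_of_nonneg_left v2' hδi.le
    have w3 := mul_le_mul_of_nonneg_left v3' hδi.le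
    have w4 := mul_le_mul_of_nonneg_left v4' hδi.le
    have w0 : 0 ≤ dl n * (U : ℝ) := by positivity
    rw [hd] at hi2
    rw [hKcdef, Complex.mem_reProdIm, Set.mem_Icc, Set.mem_Icc]
    have er : (zp (dl n) v).re = dl n * v.1 := rfl
    have ei : (zp (dl n) v).im = dl n * v.2 + dl n := by
      show dl n * ((v.2 : ℝ) + 1) = dl n * v.2 + dl n
      ring
    rw [er, ei]
    refine ⟨⟨by linarith, by linarith⟩, by linarith, by linarith⟩

theorem LCutT_mono {t t' : unitInterval} (ht : t ≤ t') {r r' : ℝ} (hr : r ≤ r')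
    (f : C(unitInterval, ℂ)) : LCutT t r f ⊆ LCutT t' r' f := by
  rintro z ⟨h1, h2, s, u, v, h3, h4, h5, h6, h7⟩
  exact ⟨h1, h2.trans_le hr, s, u, v, h3, h4, h5.trans ht, h6, h7⟩

theorem comp_sub {t : unitInterval} (h0 : 0 < (t : ℝ)) {r : ℝ} (f : C(unitInterval, ℂ)) :
    LC r (f.comp (mT t)) ⊆ LCutT t r f := by
  have key : ∀ x y : unitInterval, x < y → t * x < t * y := by
    intro x y hxy
    show ((t * x : unitInterval) : ℝ) < ((t * y : unitInterval) : ℝ)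
    rw [Set.Icc.coe_mul, Set.Icc.coe_mul]
    exact mul_lt_mul_of_pos_left hxy h0
  have key2 : ∀ x y : unitInterval, t * x < t * y → x < y := by
    intro x y hxy
    have h1 : ((t * x : unitInterval) : ℝ) < ((t * y : unitInterval) : ℝ) := hxy
    rw [Set.Icc.coe_mul, Set.Icc.coe_mul] at h1
    exact lt_of_mul_lt_mul_left h1 h0.le
  have key3 : ∀ x y : unitInterval, t * x ≤ t * y → x ≤ y := by
    intro x y hxy
    have h1 : ((t * x : unitInterval) : ℝ) ≤ ((t * y : unitInterval) : ℝ) := hxy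
    rw [Set.Icc.coe_mul, Set.Icc.coe_mul] at h1
    exact le_of_mul_le_mul_left h1 h0
  have ex : ∀ y : unitInterval, y ≤ t → ∃ x, t * x = y := by
    intro y hy
    obtain ⟨x, -, hx⟩ := exists_mT h0 (s := y) hy
    exact ⟨x, hx⟩
  have hle : ∀ x : unitInterval, t * x ≤ t := by
    intro x
    show ((t * x : unitInterval) : ℝ) ≤ t
    exact mul_le_of_le_one_right t.2.1 x.2.2
  rintro z ⟨h1, h2, s, u, v, h3, h4, h5, h6⟩
  refine ⟨h1, h2, t * s, t * u, t * v, key _ _ h3, key _ _ h4, hle v, h5, ?_⟩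
  rw [Set.disjoint_left] at h6 ⊢
  rintro w ⟨y, ⟨hy1, hy2⟩, rfl⟩ ⟨y', ⟨hy3, hy4⟩, hyy⟩
  obtain ⟨x, rfl⟩ := ex y (hy2.le.trans (hle u))
  obtain ⟨x', rfl⟩ := ex y' (hy4.trans (hle v))
  exact h6 (a := f (t * x)) ⟨x, ⟨key3 _ _ hy1, key2 _ _ hy2⟩, rfl⟩
    ⟨x', ⟨key2 _ _ hy3, key3 _ _ hy4⟩, hyy⟩

end X20

open X20 in
/-- **Lower bound for the limits.** (`hT` is the theorem `Pool.Agent.Y989.HP.a_TAIL`.) -/
theorem lim5 (hB : St_basic) (hoB : St_oBasic) (hT : S_TAIL) (hG : St_GOOD5) (hI : St_IND5)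
    (hD : St_DET5) (hQ : St_QLIM) : St_LIM5 := by
  intro φ hφ μ hμ
  have hq1 : ∀ q : ℕ, (1 : ℝ) / ((q : ℝ) + 1) ≤ 1 := by
    intro q
    have hq : (0 : ℝ) ≤ q := Nat.cast_nonneg q
    rw [div_le_one (by positivity)]; linarith
  have hlow : ∀ᵐ f : C(unitInterval, ℂ) ∂(μ : Measure C(unitInterval, ℂ)), ∀ m q n : ℕ,
      ENNReal.ofReal (3 / 4 - (1 / 2) / ((n : ℝ) + 1)) ≤
        dimH (LCutT ⟨1 / ((q : ℝ) + 1), by positivity, hq1 q⟩ (1 / ((m : ℝ) + 1)) f) := by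
    rw [ae_all_iff]
    intro m
    rw [ae_all_iff]
    intro q
    rw [ae_all_iff]
    intro n
    have hn : (1/2 : ℝ) / ((n : ℝ) + 1) ≤ 1/2 := by
      rw [div_le_iff₀ (by positivity)]
      have : (0:ℝ) ≤ n := Nat.cast_nonneg n
      linarith
    have hn2 : (0 : ℝ) < (1/2 : ℝ) / ((n : ℝ) + 1) := by positivity
    have h0 : (0 : ℝ) < ((⟨1 / ((q : ℝ) + 1), by positivity, hq1 q⟩ : unitInterval) : ℝ) := by
      show (0 : ℝ) < 1 / ((q : ℝ) + 1)
      positivity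
    filter_upwards [limT hB hoB Pool.Agent.Y989.HP.RETCUT.t_RETP
      Pool.Agent.Y989.HP.RETCUT.t_CUTP hT hG hI hD hQ hφ hμ
      (t := 3 / 4 - (1 / 2) / ((n : ℝ) + 1)) (by linarith) (by linarith)
      (t0 := ⟨1 / ((q : ℝ) + 1), by positivity, hq1 q⟩) h0 (ρ0 := 1 / ((m : ℝ) + 1))
      (by positivity)] with f hf
    exact hf.trans (dimH_mono (comp_sub h0 f))
  filter_upwards [hlow] with f hf t ht r hr
  have ht' : (0 : ℝ) < t := ht
  obtain ⟨q, hq⟩ := exists_nat_one_div_lt ht'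
  obtain ⟨m, hm⟩ := exists_nat_one_div_lt hr
  refine (X28.three_quarters_le (hf m q)).trans (dimH_mono (LCutT_mono ?_ hm.le f))
  exact Subtype.coe_le_coe.1 hq.le

end Pool.Agent.N948.IX
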