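import Pool.Agent.N948.IX.Fin4
import Pool.Agent.N948.IX.X20
import Pool.Agent.Y989.HP.All

/-!
# Project XD (helper948): assembly, the half-plane limits
-/

set_option autoImplicit false

namespace Pool.Agent.N948.IX

theorem hlim5 : St_LIM5 := lim5 basic oBasic Pool.Agent.Y989.HP.a_TAIL hgood hind5 hdet5 qlim'

end Pool.Agent.N948.IX
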