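import Pool.Agent.N948.IX.Hp
import Pool.Agent.W808.HU.All

/-!
# Project IX (helper948): exploration paths of independent half-planes, law and assembly

By helper814.
-/

set_option autoImplicit false

namespace Pool.Agent.N948.IX.HL

open H974 H906.Cyl H12S Finset H984P H342P
open MeasureTheory
open Pool.Agent.H160R2.ML (nm)
open Pool.Agent.H160R2.ML.TFIN (Z2 crit)
open Pool.Agent.W808.HU (Hs hbx SEh sPh)

/-- the edges examined at the vertices of norm `< R` are in the box -/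
lemma ae_box {R : ℕ} {σ : St} (h : nm σ.1 < (R : ℤ)) : ae σ ∈ boxE (R + 1) := by
  obtain ⟨⟨x, y⟩, q⟩ := σ
  unfold nm at h
  rw [max_lt_iff, abs_lt, abs_lt] at h
  obtain ⟨⟨h1, h2⟩, h3, h4⟩ := h
  simp only at h1 h2 h3 h4
  unfold boxE
  cases q
  · rw [ae_ne, mem_RE_true]; push_cast; omega
  · rw [ae_nw, mem_RE_false]; push_cast; omega
  · rw [ae_sw, mem_RE_true]; push_cast; omega
  · rw [ae_se, mem_RE_false]; push_cast; omega

lemma hit_unique {F : Set Edg} {R : ℕ} {σ : St} {T T' : ℕ} (h : Hit F R σ T)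
    (h' : Hit F R σ T') : T = T' := by
  rcases lt_trichotomy T T' with hlt | rfl | hlt
  · have := h'.2 T hlt
    rw [h.1] at this
    exact absurd this (lt_irrefl _)
  · rfl
  · have := h.2 T' hlt
    rw [h'.1] at this
    exact absurd this (lt_irrefl _)

open Classical in
/-- the examined edges of the half-plane -/
noncomputable def hw (F : Set Edg) (σ : St) (T : ℕ) : Finset Edg :=
  (Exm (F ∩ Hs) σ T).filter (fun e => e ∈ Hs)

lemma mem_hw {F : Set Edg} {σ : St} {T : ℕ} {e : Edg} :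
    e ∈ hw F σ T ↔ e ∈ Exm (F ∩ Hs) σ T ∧ e ∈ Hs := by
  classical
  unfold hw
  exact Finset.mem_filter

/-- the witness sets -/
def Wit (R : ℕ) (σ : St) (F : Set Edg) (A : Finset Edg) : Prop :=
  ∃ T, Hit (F ∩ Hs) R σ T ∧ A = hw F σ T

lemma wit_sub {R : ℕ} {σ : St} {F : Set Edg} {A : Finset Edg} (h : Wit R σ F A) :
    A ⊆ boxE (R + 1) := by
  obtain ⟨T, h1, rfl⟩ := h
  intro e he
  obtain ⟨he, -⟩ := mem_hw.1 he
  obtain ⟨s, hs, rfl⟩ := mem_Exm.1 he
  exact ae_box (h1.2 s hs)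

lemma wit_congr {R : ℕ} {σ : St} {F G : Set Edg} {A : Finset Edg} (h : Wit R σ F A)
    (hA : ∀ e ∈ A, (e ∈ F ↔ e ∈ G)) : Wit R σ G A := by
  obtain ⟨T, h1, rfl⟩ := h
  have hc : ∀ e ∈ Exm (F ∩ Hs) σ T, (e ∈ F ∩ Hs ↔ e ∈ G ∩ Hs) := by
    intro e he
    by_cases hH : e ∈ Hs
    · have h2 := hA e (mem_hw.2 ⟨he, hH⟩)
      exact ⟨fun h => ⟨h2.1 h.1, hH⟩, fun h => ⟨h2.2 h.1, hH⟩⟩
    · exact ⟨fun h => absurd h.2 hH, fun h => absurd h.2 hH⟩
  refine ⟨T, ⟨?_, fun s hs => ?_⟩, ?_⟩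
  · rw [orb_congr hc le_rfl]
    exact h1.1
  · rw [orb_congr hc hs.le]
    exact h1.2 s hs
  · unfold hw
    rw [Exm_congr hc]

lemma wit_unique {R : ℕ} {σ : St} {F : Set Edg} {A B : Finset Edg} (h : Wit R σ F A)
    (h' : Wit R σ F B) : A = B := by
  obtain ⟨T, h1, rfl⟩ := h
  obtain ⟨T', h2, rfl⟩ := h'
  rw [hit_unique h1 h2]

lemma exp_iff {K R : ℕ} (ω : Fin K → Set Edg) : Exp R ω ↔
    ∃ A : Fin K → Finset Edg, (∀ i : Fin K, Wit R (s0 i) (ω i) (A i)) ∧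
      ∀ i i', i ≠ i' → Disjoint (A i) (A i') := by
  constructor
  · rintro ⟨T, h1, h2⟩
    refine ⟨fun i => hw (ω i) (s0 i) (T i), fun i => ⟨T i, h1 i, rfl⟩, fun i i' hii => ?_⟩
    rw [Finset.disjoint_left]
    intro e he he'
    obtain ⟨h3, h4⟩ := mem_hw.1 he
    obtain ⟨h5, -⟩ := mem_hw.1 he'
    exact h2 i i' hii e h4 h3 h5
  · rintro ⟨A, h1, h2⟩
    choose T hT hA using h1
    refine ⟨T, hT, fun i i' hii e he h3 h5 => ?_⟩
    have h6 := h2 i i' hii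
    rw [hA i, hA i', Finset.disjoint_left] at h6
    exact h6 (mem_hw.2 ⟨h3, he⟩) (mem_hw.2 ⟨h5, he⟩)

lemma exp_congr {K R : ℕ} {ω ω' : Fin K → Set Edg}
    (h : ∀ i, ∀ e ∈ boxE (R + 1), (e ∈ ω i ↔ e ∈ ω' i)) : Exp R ω → Exp R ω' := by
  rw [exp_iff, exp_iff]
  rintro ⟨A, h1, h2⟩
  exact ⟨A, fun i => wit_congr (h1 i) fun e he => h i e (wit_sub (h1 i) he), h2⟩

lemma hbx_sub {R : ℕ} {e : Edg} (he : e ∈ hbx (R : ℤ)) : e ∈ boxE R := by
  obtain ⟨x, y, d⟩ := e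
  obtain ⟨-, h1, h2⟩ := he
  unfold nm at h1 h2
  rw [max_le_iff, abs_le, abs_le] at h1 h2
  unfold boxE
  cases d
  · simp only [src_mk, tgt_false] at h1 h2
    rw [mem_RE_false]
    omega
  · simp only [src_mk, tgt_true] at h1 h2
    rw [mem_RE_true]
    omega

lemma box_mono {a b : ℕ} (h : a ≤ b) : boxE a ⊆ boxE b := by
  intro e he
  obtain ⟨x, y, d⟩ := e
  unfold boxE at he ⊢
  cases d
  · rw [mem_RE_false] at he ⊢
    omega
  · rw [mem_RE_true] at he ⊢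
    omega

/-- the event in a larger box -/
lemma sPh_eq (K : ℕ) {R n : ℕ} (h : R ≤ n) :
    Pr (fun _ => (1/2 : ℝ)) (boxE n) (fun F => SEh K (R : ℤ) (↑F : Set Edg)) = sPh K R := by
  unfold sPh
  refine Pr_local (box_mono h) fun F _ => ?_
  have e1 : (↑(F ∩ boxE R) : Set Edg) ∩ hbx (R : ℤ) = (↑F : Set Edg) ∩ hbx (R : ℤ) := by
    ext e
    rw [Finset.coe_inter]
    constructor
    · rintro ⟨⟨h1, -⟩, h2⟩
      exact ⟨h1, h2⟩
    · rintro ⟨h1, h2⟩
      exact ⟨⟨h1, hbx_sub h2⟩, h2⟩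
  unfold SEh
  rw [e1]

lemma ok_half : Ok (fun _ : Edg => (1/2 : ℝ)) := okq (by norm_num) (by norm_num)

end Pool.Agent.N948.IX.HL

namespace Pool.Agent.N948.IX

open H974 H906.Cyl H12S Finset H984P H342P
open MeasureTheory
open Pool.Agent.H160R2.ML (nm)
open Pool.Agent.H160R2.ML.TFIN (Z2 crit)
open Pool.Agent.W808.HU (Hs hbx SEh sPh)

theorem hp3 (hg : St_GPS) (hW : St_Law) : St_H3 := by
  intro m K j R _
  have h1 := hW m (boxE (R + 1)) (fun F => Exp R (fun i => sl F (j i)))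
  have h2 : {ω : Fin m → Z2.edgeSet → Bool | Exp R (fun i => opn (ω (j i)))} =
      {ω | Exp R (fun i => sl (((Finset.univ : Finset (Fin m)) ×ˢ boxE (R + 1)).filter
        (fun p => ω p.1 (toE p.2) = true)) (j i))} := by
    ext ω
    have h3 : ∀ i, ∀ e ∈ boxE (R + 1), (e ∈ opn (ω (j i)) ↔
        e ∈ sl (((Finset.univ : Finset (Fin m)) ×ˢ boxE (R + 1)).filter
        (fun p => ω p.1 (toE p.2) = true)) (j i)) := by
      intro i e he
      constructor
      · intro h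
        exact Finset.mem_filter.2 ⟨Finset.mem_product.2 ⟨Finset.mem_univ _, he⟩, h⟩
      · intro h
        exact (Finset.mem_filter.1 h).2
    exact ⟨HL.exp_congr h3, HL.exp_congr fun i e he => (h3 i e he).symm⟩
  rw [h2]
  refine h1.trans ?_
  have h3 := hg m K j (boxE (R + 1)) (fun i => HL.Wit R (s0 i))
    (fun A => ∀ i i', i ≠ i' → Disjoint (A i) (A i')) (fun i F A h => HL.wit_sub h)
    (fun i F G A h h' => HL.wit_congr h h') (fun i F A B h h' => HL.wit_unique h h')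
    (fun A h => h)
  refine Eq.trans ?_ (h3.trans ?_)
  · exact Pr_congr fun F _ => HL.exp_iff _
  · exact Pr_congr fun F _ => (HL.exp_iff _).symm

theorem hp (h1 : St_H1) (h2 : St_H2) (h3 : St_H3) : St_HP := by
  intro K hK
  obtain ⟨c, C, hc, hC, h⟩ := Pool.Agent.W808.HU.a_SHARP K hK
  obtain ⟨al, hal⟩ : ∃ al : ℝ, al = (K : ℝ) * (2 * K - 1) / 3 := ⟨_, rfl⟩
  rw [← hal] at h
  have hal0 : 0 ≤ al := by
    rw [hal]
    have : (2 : ℝ) ≤ K := by exact_mod_cast hK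
    have : 0 ≤ (2 * (K : ℝ) - 1) := by linarith
    positivity
  refine ⟨c, C * 2 ^ al, hc, by positivity, fun m j R hKR => ?_⟩
  rw [← hal, h3 m K j R hKR]
  constructor
  · refine (h R hKR.le).1.trans ?_
    rw [← HL.sPh_eq K (Nat.le_succ R)]
    exact Pr_mono HL.ok_half fun F _ hF => h2 K R _ hK hKR hF
  · have e1 : Pr (fun _ => (1/2 : ℝ)) (boxE (R + 1))
        (fun F => Exp (K := K) R (fun _ => (↑F : Set Edg))) ≤ sPh K (R - 1) := by
      rw [← HL.sPh_eq K (show R - 1 ≤ R + 1 by omega)]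
      exact Pr_mono HL.ok_half fun F _ hF => h1 K R _ hK hKR hF
    refine e1.trans ((h (R - 1) (by omega)).2.trans ?_)
    have hR : (3 : ℝ) ≤ R := by
      have : 3 ≤ R := by omega
      exact_mod_cast this
    have hR1 : ((R - 1 : ℕ) : ℝ) = (R : ℝ) - 1 := by
      rw [Nat.cast_sub (by omega), Nat.cast_one]
    rw [hR1, mul_assoc]
    refine mul_le_mul_of_nonneg_left ?_ hC.le
    have e2 : (2 : ℝ) ^ al * (R : ℝ) ^ (-al) = ((R : ℝ) / 2) ^ (-al) := by
      rw [Real.div_rpow (by linarith) (by norm_num), Real.rpow_neg (by norm_num : (0 : ℝ) ≤ 2),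
        div_inv_eq_mul, mul_comm]
    rw [e2]
    exact Real.rpow_le_rpow_of_nonpos (by linarith) (by linarith) (by linarith)

end Pool.Agent.N948.IX
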