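import Pool.Agent.N948.IX.Hp
import Pool.Agent.N948.IX.Bas
import Pool.Agent.N948.IX.N1

/-!
Project IX (helper948): exploration paths of the half-plane and clusters of boundary vertices.
Author: helper691.

Closed chains of states, completed by a chain of states with faces on the diagonal, and their
potentials.
-/

set_option autoImplicit false

namespace Pool.Agent.N948.IX.HT

open H974 H906.Cyl H12S Finset H984P H342P Pool.Agent.W92.DP H984P.SideAux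
open Pool.Agent.H160R2.ML (nm)
open Pool.Agent.W808.HU (Hs hbx SEh)
open Pool.Agent.N948.IX Pool.Agent.N948.IX.N1

/-! ### Norms, edges and faces -/

theorem nm_lv (v : Vtx) : nm v = lv (0, 0) v := by
  unfold nm lv
  simp

theorem mem_hbx {R : ℤ} {e : Edg} :
    e ∈ hbx R ↔ e ∈ Hs ∧ lv (0, 0) (src e) ≤ R ∧ lv (0, 0) (tgt e) ≤ R := by
  rw [← nm_lv, ← nm_lv]
  exact Iff.rfl

/-- an edge of the half-plane has a face below the diagonal -/
theorem in_face {e : Edg} (he : e ∈ Hs) : ∃ ρ, ae ρ = e ∧ (face ρ).2 < (face ρ).1 := by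
  obtain ⟨x, y, _ | _⟩ := e
  · have h : 0 ≤ x - y - 1 := he
    exact ⟨((x, y + 1), .se), by simp, by simp only [face_se]; omega⟩
  · have h : 0 ≤ x - y := he
    exact ⟨((x + 1, y), .sw), by simp, by simp only [face_sw]; omega⟩

/-- the horizontal edges above the diagonal -/
theorem up_edge {x y : ℤ} (h : x ≤ y) : ((x, y + 1, true) : Edg) ∉ Hs := by
  intro h'
  have h2 : 0 ≤ x - (y + 1) := h'
  omega

theorem far_edge {n : ℕ} {G1 : Set Edg} (hG : G1 ⊆ hbx (n : ℤ)) {ρ : St}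
    (h1 : 2 * (n : ℤ) < lf (0, 0) (face ρ)) (h2 : 2 * (n : ℤ) < lf (0, 0) (face (rt ρ))) :
    ae ρ ∉ G1 := by
  intro h
  have h3 := mem_hbx.1 (hG h)
  have h4 := face_or h3.2.1 h3.2.2
  rcases p2_dends ρ with ⟨k1, k2⟩ | ⟨k1, k2⟩ <;> rw [k1, k2] at h4 <;> omega

/-- a vertex at distance `n` has a far face -/
theorem ex_far {n : ℕ} {y : Vtx} (h : lv (0, 0) y = n) :
    ∃ ρ : St, ρ.1 = y ∧ 2 * (n : ℤ) < lf (0, 0) (face ρ) := by
  obtain ⟨x, y⟩ := y
  have h1 : (n : ℤ) ≤ lv (0, 0) (x, y) := h.ge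
  rw [le_lv] at h1
  simp only [sub_zero] at h1
  rcases h1 with (h1 | h1) | (h1 | h1)
  · exact ⟨((x, y), .ne), rfl, by rw [Bas.outer_iff]; simp only [face_ne]; omega⟩
  · exact ⟨((x, y), .nw), rfl, by rw [Bas.outer_iff]; simp only [face_nw]; omega⟩
  · exact ⟨((x, y), .ne), rfl, by rw [Bas.outer_iff]; simp only [face_ne]; omega⟩
  · exact ⟨((x, y), .se), rfl, by rw [Bas.outer_iff]; simp only [face_se]; omega⟩

/-- functions on far faces, from states -/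
theorem far_adj {n : ℕ} {h : Vtx → ZMod 2}
    (hh : ∀ ρ : St, 2 * (n : ℤ) < lf (0, 0) (face ρ) → 2 * (n : ℤ) < lf (0, 0) (face (rt ρ)) →
      h (face ρ) = h (face (rt ρ))) {f g : Vtx} (hf : 2 * (n : ℤ) < lf (0, 0) f)
    (hg : 2 * (n : ℤ) < lf (0, 0) g) : h f = h g := by
  refine connO (0, 0) n h (fun f g h1 h2 h3 => ?_) f g hf hg
  obtain ⟨e, he⟩ := N1.adj_edge h3
  obtain ⟨ρ, rfl⟩ := exists_ae e
  rcases p2_dends ρ with ⟨k1, k2⟩ | ⟨k1, k2⟩ <;> rw [k1, k2] at he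
  · rcases he with ⟨rfl, rfl⟩ | ⟨rfl, rfl⟩
    · exact hh ρ h1 h2
    · exact (hh ρ h2 h1).symm
  · rcases he with ⟨rfl, rfl⟩ | ⟨rfl, rfl⟩
    · exact (hh ρ h2 h1).symm
    · exact hh ρ h1 h2

/-- faces from which one can move upwards -/
theorem outc {n : ℕ} {h : Vtx → ZMod 2} (P : Vtx → Prop)
    (hP : ∀ x y : ℤ, P (x, y) → P (x, y + 1))
    (h1 : ∀ x y : ℤ, P (x, y) → h (x, y) = h (x, y + 1))
    (hh : ∀ ρ : St, 2 * (n : ℤ) < lf (0, 0) (face ρ) → 2 * (n : ℤ) < lf (0, 0) (face (rt ρ)) →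
      h (face ρ) = h (face (rt ρ))) {f g : Vtx} (hf : P f ∨ 2 * (n : ℤ) < lf (0, 0) f)
    (hg : 2 * (n : ℤ) < lf (0, 0) g) : h f = h g := by
  rcases hf with hf | hf
  · obtain ⟨x, y⟩ := f
    have key : ∀ k : ℕ, P (x, y + k) ∧ h (x, y) = h (x, y + k) := by
      intro k
      induction k with
      | zero => simpa using hf
      | succ k ih =>
        have e : y + ((k + 1 : ℕ) : ℤ) = y + k + 1 := by push_cast; ring
        rw [e]
        exact ⟨hP _ _ ih.1, ih.2.trans (h1 _ _ ih.1)⟩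
    obtain ⟨k, hk⟩ : ∃ k : ℕ, (n : ℤ) ≤ y + k := ⟨(n - y).toNat, by omega⟩
    rw [(key k).2]
    exact far_adj hh ((Bas.outer_iff _ _ _).2 (Or.inr (Or.inl (by simpa using hk)))) hg
  · exact far_adj hh hf hg

theorem reach_orb (G : Set Edg) (σ : St) (s : ℕ) : Reach G σ.1 (orb G σ s).1 := by
  have := orb_reach (F := G) (W := Set.univ) (σ := σ) (T := s) (fun _ _ => trivial) le_rfl
  rwa [Set.inter_univ] at this

theorem ae_cases {ρ τ : St} (h : ae ρ = ae τ) : τ = ρ ∨ τ = op ρ := by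
  obtain ⟨⟨x, y⟩, q⟩ := ρ
  obtain ⟨⟨x', y'⟩, q'⟩ := τ
  cases q <;> cases q' <;> simp [op, Prod.ext_iff] at h ⊢ <;> omega

/-! ### Chains with faces in a set -/

/-- A chain of states with faces in `D`. -/
def LkD (D : Set Vtx) (σ τ : St) : Prop :=
  ∃ α : St → ZMod 2, (∀ ρ, face ρ ∉ D → α ρ = 0) ∧ ∀ ρ, T4 α ρ = inc σ ρ + inc τ ρ

theorem LkD.refl (D : Set Vtx) (σ : St) : LkD D σ σ :=
  ⟨fun _ => 0, fun _ _ => rfl, fun ρ => by unfold T4; rw [z2s (inc σ ρ)]; rfl⟩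

theorem LkD.trans {D : Set Vtx} {σ τ υ : St} (h : LkD D σ τ) (h' : LkD D τ υ) : LkD D σ υ := by
  obtain ⟨α, h1, h2⟩ := h
  obtain ⟨β, h3, h4⟩ := h'
  refine ⟨fun ρ => α ρ + β ρ, fun ρ hρ => by
    show α ρ + β ρ = 0; rw [h1 ρ hρ, h3 ρ hρ, add_zero], fun ρ => ?_⟩
  have e1 := h2 ρ
  have e2 := h4 ρ
  have e3 := z2s (inc τ ρ)
  unfold T4 at e1 e2 ⊢
  linear_combination e1 + e2 + e3

theorem LkD.mono {D D' : Set Vtx} (hD : D ⊆ D') {σ τ : St} (h : LkD D σ τ) : LkD D' σ τ := by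
  obtain ⟨α, h1, h2⟩ := h
  exact ⟨α, fun ρ hρ => h1 ρ (fun h' => hρ (hD h')), h2⟩

theorem LkD.sR {D : Set Vtx} {σ : St} (h : face σ ∈ D) : LkD D σ (rt σ) := by
  refine ⟨fun ρ => b2 (ρ = σ), fun ρ hρ => b2_not_of (fun e => hρ (e ▸ h)), fun ρ => ?_⟩
  unfold T4 inc
  have e1 : b2 (rt ρ = rt σ) = b2 (ρ = σ) := b2_congr rt_inj
  have e2 : b2 (mv ρ = rt σ) = b2 (op ρ = σ) := by
    rw [← rt_op]; exact b2_congr rt_inj
  rw [e1, e2]
  ring

theorem LkD.sM {D : Set Vtx} {σ : St} (h : face σ ∈ D) : LkD D σ (mv σ) := by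
  refine ⟨fun ρ => b2 (ρ = σ), fun ρ hρ => b2_not_of (fun e => hρ (e ▸ h)), fun ρ => ?_⟩
  unfold T4 inc
  have e1 : b2 (mv ρ = mv σ) = b2 (ρ = σ) := b2_congr mv_inj
  have e2 : b2 (rt ρ = mv σ) = b2 (op ρ = σ) := by
    rw [← mv_op]; exact b2_congr mv_inj
  rw [e1, e2]
  ring

/-- The faces `(l, l)`, `(l, l + 1)`, `i ≤ l < j`. -/
def Dg (i j : ℤ) : Set Vtx := {f | (i ≤ f.1 ∧ f.1 < j) ∧ (f.2 = f.1 ∨ f.2 = f.1 + 1)}

theorem step_D (i : ℕ) : LkD (Dg i (i + 1)) (s0 i) (s0 (i + 1)) := by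
  have h1 : LkD (Dg i (i + 1)) (((i : ℤ), (i : ℤ)), Q4.ne) (((i : ℤ) + 1, (i : ℤ)), Q4.nw) := by
    have := LkD.sM (D := Dg i (i + 1)) (σ := (((i : ℤ), (i : ℤ)), Q4.ne)) (by
      rw [face_ne]; refine ⟨⟨?_, ?_⟩, ?_⟩ <;> simp)
    rwa [mv_ne] at this
  have h2 : LkD (Dg i (i + 1)) (((i : ℤ) + 1, (i : ℤ)), Q4.nw)
      (((i : ℤ) + 1, (i : ℤ) + 1), Q4.sw) := by
    have := LkD.sM (D := Dg i (i + 1)) (σ := (((i : ℤ) + 1, (i : ℤ)), Q4.nw)) (by
      rw [face_nw]; refine ⟨⟨?_, ?_⟩, ?_⟩ <;> simp)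
    rwa [mv_nw] at this
  have h3 : LkD (Dg i (i + 1)) (((i : ℤ) + 1, (i : ℤ) + 1), Q4.sw)
      (((i : ℤ) + 1, (i : ℤ) + 1), Q4.nw) := by
    have := LkD.sR (D := Dg i (i + 1)) (σ := (((i : ℤ) + 1, (i : ℤ) + 1), Q4.sw)) (by
      rw [face_sw]; refine ⟨⟨?_, ?_⟩, ?_⟩ <;> simp)
    rwa [rt_sw] at this
  have h4 : LkD (Dg i (i + 1)) (((i : ℤ) + 1, (i : ℤ) + 1), Q4.nw)
      (((i : ℤ) + 1, (i : ℤ) + 1), Q4.ne) := by
    have := LkD.sR (D := Dg i (i + 1)) (σ := (((i : ℤ) + 1, (i : ℤ) + 1), Q4.nw)) (by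
      rw [face_nw]; refine ⟨⟨?_, ?_⟩, ?_⟩ <;> simp)
    rwa [rt_nw] at this
  have h5 := h1.trans (h2.trans (h3.trans h4))
  unfold s0
  push_cast
  exact h5

theorem chain {i j : ℕ} (h : i ≤ j) : LkD (Dg i j) (s0 i) (s0 j) := by
  induction j, h using Nat.le_induction with
  | base => exact LkD.refl _ _
  | succ j hj ih =>
    have hj' : (i : ℤ) ≤ j := by exact_mod_cast hj
    refine (ih.mono ?_).trans ((step_D j).mono ?_)
    · rintro f ⟨⟨h1, h2⟩, h3⟩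
      refine ⟨⟨h1, ?_⟩, h3⟩
      push_cast
      omega
    · rintro f ⟨⟨h1, h2⟩, h3⟩
      refine ⟨⟨by omega, ?_⟩, h3⟩
      push_cast
      exact h2

/-- faces of the chain are neither below the diagonal nor far -/
theorem Dg_ne {i j : ℕ} {n : ℕ} (hj : j < n) {f : Vtx} (hf : f ∈ Dg i j) :
    f.1 ≤ f.2 ∧ lf (0, 0) f < 2 * (n : ℤ) := by
  obtain ⟨⟨h1, h2⟩, h3⟩ := hf
  have hj' : (j : ℤ) < n := by exact_mod_cast hj
  refine ⟨by omega, ?_⟩
  rw [lf_lt]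
  simp only [sub_zero]
  omega

/-! ### The cycle of a boundary state -/

/-- the orbit of a state -/
def Cy (G : Set Edg) (σ : St) : Set St := {ρ | ∃ n, orb G σ n = ρ}

theorem Cy_inv {n : ℕ} {G1 : Set Edg} (hG : G1 ⊆ hbx (n : ℤ)) {σ : St} (h : lv (0, 0) σ.1 ≤ n)
    (ρ : St) : ρ ∈ Cy G1 σ ↔ nxt G1 ρ ∈ Cy G1 σ := by
  constructor
  · rintro ⟨m, rfl⟩
    exact ⟨m + 1, orb_succ _ _ _⟩
  · rintro ⟨m, hm⟩
    obtain ⟨N, hN, hN'⟩ := periodic (G := G1) (c := (0, 0)) (b := n)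
      (fun e he => (mem_hbx.1 (hG he)).2) h
    have h1 : ∃ k, orb G1 σ (k + 1) = nxt G1 ρ := by
      rcases Nat.eq_zero_or_pos m with rfl | h0
      · refine ⟨N - 1, ?_⟩
        rw [Nat.sub_add_cancel hN, hN', ← hm, orb_zero]
      · exact ⟨m - 1, by rw [Nat.sub_add_cancel h0]; exact hm⟩
    obtain ⟨k, hk⟩ := h1
    rw [orb_succ] at hk
    exact ⟨k, (nxt_bij G1).1 hk⟩

/-- potentials of the cycle of a boundary state -/
theorem pot_Cy {n : ℕ} {G1 : Set Edg} (hG : G1 ⊆ hbx (n : ℤ)) {i : ℕ} (hi : i ≤ n) :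
    ∃ (hv : Vtx → ZMod 2) (o : ZMod 2), hv (i, i) + o = 1 ∧
      (∀ u v, Reach G1 u v → hv u = hv v) ∧
      ∀ ρ : St, ((face ρ).1 ≤ (face ρ).2 ∨ 2 * (n : ℤ) < lf (0, 0) (face ρ)) → hv ρ.1 + o = 1 →
        ∃ m, orb G1 (s0 i) m = ρ := by
  have hi' : (i : ℤ) ≤ n := by exact_mod_cast hi
  obtain ⟨hv, hf, h1, h2, h3⟩ := pot_of_inv G1 (Cy G1 (s0 i)) (Cy_inv hG (by
    rw [lv_le]; simp only [s0, sub_zero]; omega))
  have hfar : 2 * (n : ℤ) < lf (0, 0) ((n : ℤ), (n : ℤ)) := by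
    rw [Bas.outer_iff]; left; left; simp
  have out : ∀ f : Vtx, (f.1 ≤ f.2 ∨ 2 * (n : ℤ) < lf (0, 0) f) → hf f = hf ((n : ℤ), (n : ℤ)) := by
    intro f hf'
    refine outc (n := n) (fun f => f.1 ≤ f.2) ?_ ?_ ?_ hf' hfar
    · intro x y h; simp only at h ⊢; omega
    · intro x y h
      have := h3 (x, y + 1, true) (fun h' => up_edge h (mem_hbx.1 (hG h')).1)
      simpa using this
    · intro ρ k1 k2
      have := h3 (ae ρ) (far_edge hG k1 k2)
      rcases p2_dends ρ with ⟨e1, e2⟩ | ⟨e1, e2⟩ <;> rw [e1, e2] at this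
      · exact this
      · exact this.symm
  refine ⟨hv, hf ((n : ℤ), (n : ℤ)), ?_, ?_, ?_⟩
  · have k := h1 (s0 i)
    rw [b2_of (show s0 i ∈ Cy G1 (s0 i) from ⟨0, rfl⟩), out _ (Or.inl le_rfl)] at k
    exact k
  · intro u v huv
    exact reach_const h2 huv
  · intro ρ k1 k2
    rw [← out _ k1, h1 ρ] at k2
    by_contra hc
    rw [b2_not_of (show ρ ∉ Cy G1 (s0 i) from hc)] at k2
    exact absurd k2 (by decide)

/-! ### Sums over initial segments -/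

theorem al_one {G : Set Edg} {σ : St} {N s : ℕ} (hs : s < N)
    (hinj : ∀ r < N, r ≠ s → orb G σ r ≠ orb G σ s) : al G σ N (orb G σ s) = 1 := by
  unfold al
  rw [Finset.sum_eq_single s]
  · exact b2_of rfl
  · intro r hr hrs
    exact b2_not_of (hinj r (Finset.mem_range.1 hr) hrs)
  · intro h
    exact absurd (Finset.mem_range.2 hs) h

theorem al_zero {G : Set Edg} {σ : St} {N : ℕ} {ρ : St} (h : ∀ r < N, orb G σ r ≠ ρ) :
    al G σ N ρ = 0 := by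
  unfold al
  exact Finset.sum_eq_zero fun r hr => b2_not_of (h r (Finset.mem_range.1 hr))

theorem al_eq {G : Set Edg} {σ : St} {N : ℕ} {ρ : St} (h1 : nxt G ρ ≠ σ)
    (h2 : nxt G ρ ≠ orb G σ N) : al G σ N ρ = al G σ N (nxt G ρ) := by
  have k := al_nxt G σ N ρ
  rw [b2_not_of h1, b2_not_of h2, add_zero] at k
  exact z2_eq k

/-! ### The two explorations of a common edge -/

theorem key2 {n : ℕ} {G1 : Set Edg} (hG : G1 ⊆ hbx (n : ℤ)) {σ σ' : St}
    (h1 : (face σ).1 ≤ (face σ).2) (h1' : (face σ').1 ≤ (face σ').2) {β : St → ZMod 2}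
    (hβ1 : ∀ ρ, (face ρ).2 < (face ρ).1 → β ρ = 0)
    (hβ2 : ∀ ρ, 2 * (n : ℤ) < lf (0, 0) (face ρ) → β ρ = 0)
    (hβ3 : ∀ ρ, T4 β ρ = inc σ ρ + inc σ' ρ) {s s' : ℕ}
    (hs : ∀ r ≤ s, lv (0, 0) (orb G1 σ r).1 < n) (hs' : ∀ r ≤ s', lv (0, 0) (orb G1 σ' r).1 < n)
    (hinj : ∀ r r', r < r' → r' ≤ s + 1 → orb G1 σ r ≠ orb G1 σ r')
    (hinj' : ∀ r r', r < r' → r' ≤ s' + 1 → orb G1 σ' r ≠ orb G1 σ' r')
    (hop : orb G1 σ' s' = op (orb G1 σ s)) (he : ae (orb G1 σ s) ∉ G1)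
    (hdis : ¬ Reach G1 σ.1 σ'.1) {y y' : Vtx} (hy : lv (0, 0) y = n) (hy' : lv (0, 0) y' = n)
    (hr : Reach G1 σ.1 y) (hr' : Reach G1 σ'.1 y')
    (hin : (face (orb G1 σ s)).2 < (face (orb G1 σ s)).1) : False := by
  have hne : ∀ r r', orb G1 σ r ≠ orb G1 σ' r' := by
    intro r r' h
    refine hdis ((reach_orb G1 σ r).trans ?_)
    rw [h]
    exact (reach_orb G1 σ' r').symm
  have he' : ae (orb G1 σ' s') ∉ G1 := by rw [hop, ae_op]; exact he
  have n1 : orb G1 σ (s + 1) = rt (orb G1 σ s) := by rw [orb_succ, nxt_closed he]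
  have n2 : orb G1 σ' (s' + 1) = mv (orb G1 σ s) := by
    rw [orb_succ, nxt_closed he', hop, rt_op]
  obtain ⟨hv, hf, hpot⟩ := pot4 (fun ρ => al G1 σ (s + 1) ρ + al G1 σ' (s' + 1) ρ + β ρ) (by
    intro ρ
    have e1 := al_T4 G1 σ (s + 1) ρ
    have e2 := al_T4 G1 σ' (s' + 1) ρ
    have e3 := hβ3 ρ
    have e4 : inc (orb G1 σ (s + 1)) ρ = b2 (op ρ = orb G1 σ s) + b2 (ρ = orb G1 σ s) := by
      rw [n1]
      unfold inc
      rw [b2_congr (rt_inj (σ := ρ) (τ := orb G1 σ s)), ← rt_op ρ, b2_congr rt_inj]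
    have e5 : inc (orb G1 σ' (s' + 1)) ρ = b2 (ρ = orb G1 σ s) + b2 (op ρ = orb G1 σ s) := by
      rw [n2]
      unfold inc
      rw [b2_congr (mv_inj (σ := ρ) (τ := orb G1 σ s)), ← mv_op ρ, b2_congr mv_inj]
    have e6 := z2s (inc σ ρ)
    have e7 := z2s (inc σ' ρ)
    have e8 := z2s (b2 (ρ = orb G1 σ s))
    have e9 := z2s (b2 (op ρ = orb G1 σ s))
    rw [e4] at e1
    rw [e5] at e2
    unfold T4 at e1 e2 e3 ⊢
    linear_combination e1 + e2 + e3 + e6 + e7 + e8 + e9)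
  -- constant on clusters
  have c1 : ∀ e ∈ G1, hv (src e) = hv (tgt e) := by
    intro e heG
    obtain ⟨ρ, rfl, hρ⟩ := in_face (mem_hbx.1 (hG heG)).1
    have k0 : nxt G1 ρ = mv ρ := nxt_open heG
    have kf : face (nxt G1 ρ) = face ρ := by rw [k0, p2_face_mv]
    have k1 : al G1 σ (s + 1) ρ = al G1 σ (s + 1) (nxt G1 ρ) := by
      refine al_eq (fun g => ?_) (fun g => ?_)
      · rw [← g, kf] at h1; omega
      · rw [orb_succ] at g
        have := (nxt_bij G1).1 g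
        rw [this] at heG
        exact he heG
    have k2 : al G1 σ' (s' + 1) ρ = al G1 σ' (s' + 1) (nxt G1 ρ) := by
      refine al_eq (fun g => ?_) (fun g => ?_)
      · rw [← g, kf] at h1'; omega
      · rw [orb_succ] at g
        have := (nxt_bij G1).1 g
        rw [this] at heG
        exact he' heG
    have k3 := hpot ρ
    have k4 := hpot (nxt G1 ρ)
    try simp only at k3 k4
    rw [hβ1 ρ hρ, k1, k2] at k3
    rw [hβ1 _ (by rw [kf]; exact hρ), kf] at k4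
    have k5 : hv ρ.1 = hv (mv ρ).1 := by
      rw [← k0]
      exact add_right_cancel (k3.trans k4.symm)
    rcases p2_ends ρ with ⟨g2, g3⟩ | ⟨g2, g3⟩
    · rw [g2, g3]; exact k5
    · rw [g2, g3]; exact k5.symm
  -- zero on far faces
  have c2 : ∀ ρ : St, 2 * (n : ℤ) < lf (0, 0) (face ρ) → hv ρ.1 + hf (face ρ) = 0 := by
    intro ρ hρ
    have hc := Bas.cor (0, 0) ρ
    rw [hpot ρ]
    try simp only
    have z1 : al G1 σ (s + 1) ρ = 0 := al_zero (fun r hr g => by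
      have := hs r (by omega)
      rw [g] at this
      omega)
    have z2 : al G1 σ' (s' + 1) ρ = 0 := al_zero (fun r hr g => by
      have := hs' r (by omega)
      rw [g] at this
      omega)
    rw [hβ2 ρ hρ, z1, z2, add_zero, add_zero]
  have c3 : ∀ f g : Vtx, 2 * (n : ℤ) < lf (0, 0) f → 2 * (n : ℤ) < lf (0, 0) g → hf f = hf g := by
    intro f g k1 k2
    refine far_adj (fun ρ g1 g2 => ?_) k1 k2
    have g3 := c2 ρ g1
    have g4 := c2 (rt ρ) g2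
    rw [p2_rt_fst] at g4
    exact add_left_cancel (g3.trans g4.symm)
  have c4 : hv y = hv y' := by
    obtain ⟨ρ, rfl, k1⟩ := ex_far hy
    obtain ⟨ρ', rfl, k2⟩ := ex_far hy'
    have k3 := c2 ρ k1
    have k4 := c2 ρ' k2
    rw [c3 _ _ k1 k2] at k3
    exact add_right_cancel (k3.trans k4.symm)
  have c5 : hv (orb G1 σ s).1 = hv (orb G1 σ' s').1 := by
    rw [← reach_const c1 (reach_orb G1 σ s), ← reach_const c1 (reach_orb G1 σ' s'),
      reach_const c1 hr, reach_const c1 hr', c4]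
  have d1 : hv (orb G1 σ s).1 + hf (face (orb G1 σ s)) = 1 := by
    rw [hpot]
    try simp only
    rw [hβ1 _ hin, al_one (Nat.lt_succ_self s) (fun r hr hrs => hinj r s (by omega) (by omega)),
      al_zero (fun r _ => (hne s r).symm)]
    rfl
  have d2 : hv (orb G1 σ' s').1 + hf (face (orb G1 σ s)) = 0 := by
    have k := hpot (mv (orb G1 σ s))
    try simp only at k
    rw [p2_face_mv, hβ1 _ (by rw [p2_face_mv]; exact hin), mv_fst, ← hop] at k
    rw [k, ← n2, al_zero (fun r _ => hne r _), al_zero (fun r hr => hinj' r _ hr le_rfl)]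
    rfl
  rw [c5, d2] at d1
  exact absurd d1 (by decide)

/-! ### The part of a cycle between two boundary states -/

theorem key1 {n : ℕ} {G1 : Set Edg} (hG : G1 ⊆ hbx (n : ℤ)) {i j : ℕ} (hij : i < j) (hj : j < n)
    {t : ℕ} (ht : orb G1 (s0 i) t = s0 j) (hmin : ∀ r < t, orb G1 (s0 i) r ≠ s0 j) :
    ∀ r < t, lf (0, 0) (face (orb G1 (s0 i) r)) < 2 * (n : ℤ) := by
  have hij' : (i : ℤ) < j := by exact_mod_cast hij
  have hj' : (j : ℤ) < n := by exact_mod_cast hj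
  have hne0 : s0 i ≠ s0 j := by
    intro h
    have h2 : ((i : ℤ), (i : ℤ)) = ((j : ℤ), (j : ℤ)) := congrArg Prod.fst h
    rw [Prod.mk.injEq] at h2
    omega
  obtain ⟨β, hβ, hβ3⟩ := chain hij.le
  have hβ1 : ∀ ρ, (face ρ).2 < (face ρ).1 → β ρ = 0 := fun ρ h =>
    hβ ρ (fun h' => by have := (Dg_ne hj h').1; omega)
  have hβ2 : ∀ ρ, 2 * (n : ℤ) < lf (0, 0) (face ρ) → β ρ = 0 := fun ρ h =>
    hβ ρ (fun h' => by have := (Dg_ne hj h').2; omega)
  obtain ⟨hv, hf, hpot⟩ := pot4 (fun ρ => al G1 (s0 i) t ρ + β ρ) (by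
    intro ρ
    have e1 := al_T4 G1 (s0 i) t ρ
    have e3 := hβ3 ρ
    have e6 := z2s (inc (s0 i) ρ)
    have e7 := z2s (inc (s0 j) ρ)
    rw [ht] at e1
    unfold T4 at e1 e3 ⊢
    linear_combination e1 + e3 + e6 + e7)
  -- constant on clusters
  have c1 : ∀ e ∈ G1, hv (src e) = hv (tgt e) := by
    intro e heG
    obtain ⟨ρ, rfl, hρ⟩ := in_face (mem_hbx.1 (hG heG)).1
    have k0 : nxt G1 ρ = mv ρ := nxt_open heG
    have kf : face (nxt G1 ρ) = face ρ := by rw [k0, p2_face_mv]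
    have k1 : al G1 (s0 i) t ρ = al G1 (s0 i) t (nxt G1 ρ) := by
      refine al_eq (fun g => ?_) (fun g => ?_)
      · have : face ρ = ((i : ℤ), (i : ℤ)) := by rw [← kf, g]; rfl
        rw [this] at hρ
        exact lt_irrefl _ hρ
      · rw [ht] at g
        have : face ρ = ((j : ℤ), (j : ℤ)) := by rw [← kf, g]; rfl
        rw [this] at hρ
        exact lt_irrefl _ hρ
    have k3 := hpot ρ
    have k4 := hpot (nxt G1 ρ)
    try simp only at k3 k4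
    rw [hβ1 ρ hρ, k1] at k3
    rw [hβ1 _ (by rw [kf]; exact hρ), kf] at k4
    have k5 : hv ρ.1 = hv (mv ρ).1 := by
      rw [← k0]
      exact add_right_cancel (k3.trans k4.symm)
    rcases p2_ends ρ with ⟨g2, g3⟩ | ⟨g2, g3⟩
    · rw [g2, g3]; exact k5
    · rw [g2, g3]; exact k5.symm
  -- outer faces without chain
  have hfar : 2 * (n : ℤ) < lf (0, 0) ((n : ℤ), (n : ℤ)) := by
    rw [Bas.outer_iff]; left; left; simp
  have c2 : ∀ f : Vtx, (f.1 ≤ f.2 ∧ (f.1 < i ∨ j ≤ f.1 ∨ f.1 + 2 ≤ f.2)) ∨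
      2 * (n : ℤ) < lf (0, 0) f → hf f = hf ((n : ℤ), (n : ℤ)) := by
    intro f hf'
    refine outc (n := n) (fun f => f.1 ≤ f.2 ∧ (f.1 < i ∨ j ≤ f.1 ∨ f.1 + 2 ≤ f.2)) ?_ ?_ ?_ hf'
      hfar
    · intro x y h
      simp only at h ⊢
      omega
    · intro x y h
      simp only at h
      have hcl : ae ((x + 1, y + 1), Q4.sw) ∉ G1 := by
        intro h'
        refine up_edge h.1 (mem_hbx.1 (hG (?_ : (x, y + 1, true) ∈ G1))).1
        simpa using h'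
      have k0 : nxt G1 ((x + 1, y + 1), Q4.sw) = ((x + 1, y + 1), Q4.nw) := by
        rw [nxt_closed hcl, rt_sw]
      have k1 := al_eq (G := G1) (σ := s0 i) (N := t) (ρ := ((x + 1, y + 1), Q4.sw)) (by
        rw [k0]; simp [s0]) (by rw [k0, ht]; simp [s0])
      have k3 := hpot ((x + 1, y + 1), Q4.sw)
      have k4 := hpot ((x + 1, y + 1), Q4.nw)
      rw [k0] at k1
      simp only [face_sw, face_nw, add_sub_cancel_right] at k3 k4
      rw [hβ _ (fun h' => ?_), k1] at k3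
      · rw [hβ _ (fun h' => ?_)] at k4
        · exact add_left_cancel (k3.trans k4.symm)
        · rw [face_nw] at h'
          obtain ⟨⟨g1, g2⟩, g3⟩ := h'
          simp only [add_sub_cancel_right] at g1 g2 g3
          omega
      · rw [face_sw] at h'
        obtain ⟨⟨g1, g2⟩, g3⟩ := h'
        simp only [add_sub_cancel_right] at g1 g2 g3
        omega
    · intro ρ g1 g2
      have k0 : nxt G1 ρ = rt ρ := nxt_closed (far_edge hG g1 g2)
      have hnf : ∀ l : ℕ, l < n → nxt G1 ρ ≠ s0 l := by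
        intro l hl g
        rw [k0] at g
        rw [g] at g2
        have hl' : (l : ℤ) < n := by exact_mod_cast hl
        have : lf (0, 0) (face (s0 l)) < 2 * (n : ℤ) := by
          rw [lf_lt]
          simp only [s0, face_ne, sub_zero]
          omega
        omega
      have k1 := al_eq (G := G1) (σ := s0 i) (N := t) (ρ := ρ) (hnf i (by omega)) (by
        rw [ht]; exact hnf j hj)
      have k3 := hpot ρ
      have k4 := hpot (rt ρ)
      try simp only at k3 k4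
      rw [k0] at k1
      rw [hβ2 ρ g1, k1] at k3
      rw [hβ2 _ g2, p2_rt_fst] at k4
      exact add_left_cancel (k3.trans k4.symm)
  -- the state before the boundary state
  have c3 : hv (i, i) + hf ((n : ℤ), (n : ℤ)) = 0 := by
    have k3 := hpot (((i : ℤ), (i : ℤ)), Q4.sw)
    simp only [face_sw] at k3
    rw [c2 _ (Or.inl ⟨le_rfl, Or.inl (by simp)⟩), hβ _ (fun h' => ?_), add_zero] at k3
    · rw [k3]
      refine al_zero (fun r hr g => ?_)
      have e1 : ae (((i : ℤ), (i : ℤ)), Q4.sw) ∉ G1 := by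
        intro h'
        have := up_edge (x := (i : ℤ) - 1) (y := (i : ℤ) - 1) le_rfl
        refine this (mem_hbx.1 (hG (?_ : ((i : ℤ) - 1, (i : ℤ) - 1 + 1, true) ∈ G1))).1
        simpa using h'
      have e2 : ae (((i : ℤ), (i : ℤ)), Q4.nw) ∉ G1 := by
        intro h'
        have h2 := (mem_hbx.1 (hG h')).1
        rw [ae_nw] at h2
        have h3 : 0 ≤ (i : ℤ) - i - 1 := h2
        omega
      have e3 : orb G1 (s0 i) (r + 1) = (((i : ℤ), (i : ℤ)), Q4.nw) := by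
        rw [orb_succ, g, nxt_closed e1, rt_sw]
      have e4 : orb G1 (s0 i) (r + 2) = s0 i := by
        rw [show r + 2 = (r + 1) + 1 from rfl, orb_succ, e3, nxt_closed e2, rt_nw]
        rfl
      rcases Nat.lt_or_ge (r + 1) t with h5 | h5
      · have h6 : orb G1 (s0 i) (t - (r + 2)) = s0 j := by
          rw [← ht]
          conv_rhs => rw [show t = (t - (r + 2)) + (r + 2) by omega, orb_add, e4]
        exact hmin _ (by omega) h6
      · have h6 : t = r + 1 := by omega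
        rw [← h6, ht] at e3
        have h7 := congrArg Prod.snd e3
        simp [s0] at h7
    · obtain ⟨⟨g1, g2⟩, g3⟩ := h'
      simp only [face_sw] at g1
      omega
  intro r hr
  by_contra hc
  have hc' : 2 * (n : ℤ) < lf (0, 0) (face (orb G1 (s0 i) r)) := by
    have := lf_odd (0, 0) (face (orb G1 (s0 i) r)) n
    omega
  have k1 : hv (orb G1 (s0 i) r).1 + hf (face (orb G1 (s0 i) r)) = 0 := by
    rw [← reach_const c1 (reach_orb G1 (s0 i) r), c2 _ (Or.inr hc')]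
    exact c3
  rw [hpot] at k1
  try simp only at k1
  rw [hβ2 _ hc', al_one hr (fun q hq hqr g => ?_)] at k1
  · exact absurd k1 (by decide)
  · -- a shorter time
    have aux : ∀ a b : ℕ, a < b → b < t → orb G1 (s0 i) a = orb G1 (s0 i) b → False := by
      intro a b hab hb h
      obtain ⟨m, rfl⟩ : ∃ m, b = a + m := ⟨b - a, by omega⟩
      have h2 := orb_cancel h
      have h6 : orb G1 (s0 i) (t - m) = s0 j := by
        rw [← ht]
        conv_rhs => rw [show t = (t - m) + m by omega, orb_add, ← h2]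
      exact hmin _ (by omega) h6
    rcases Nat.lt_trichotomy q r with h | h | h
    · exact aux q r h hr g
    · exact hqr h
    · exact aux r q h hq g.symm

/-! ### Configurations in the half-plane and in the half box -/

theorem lv_mv (ρ : St) : lv (0, 0) (mv ρ).1 ≤ lv (0, 0) ρ.1 + 1 := by
  have h1 := Bas.cor (0, 0) ρ
  have h2 := Bas.cor_mv (0, 0) ρ
  omega

theorem lv_nxt (F : Set Edg) (ρ : St) : lv (0, 0) (nxt F ρ).1 ≤ lv (0, 0) ρ.1 + 1 := by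
  by_cases h : ae ρ ∈ F
  · rw [nxt_open h]
    exact lv_mv ρ
  · rw [nxt_closed h, p2_rt_fst]
    omega

theorem ends_le {ρ : St} {n : ℤ} (h1 : lv (0, 0) ρ.1 ≤ n) (h2 : lv (0, 0) (mv ρ).1 ≤ n) :
    lv (0, 0) (src (ae ρ)) ≤ n ∧ lv (0, 0) (tgt (ae ρ)) ≤ n := by
  rcases p2_ends ρ with ⟨k1, k2⟩ | ⟨k1, k2⟩ <;> rw [k1, k2]
  · exact ⟨h1, h2⟩
  · exact ⟨h2, h1⟩

theorem agree {G : Set Edg} {n : ℤ} {σ : St} {T : ℕ}
    (h : ∀ s < T, lv (0, 0) (orb (G ∩ hbx n) σ s).1 ≤ n ∧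
      lv (0, 0) (mv (orb (G ∩ hbx n) σ s)).1 ≤ n) :
    ∀ s ≤ T, orb (G ∩ Hs) σ s = orb (G ∩ hbx n) σ s := by
  refine congr (G ∩ hbx n) (G ∩ Hs) σ T (fun s hs => ?_)
  constructor
  · rintro ⟨g1, g2⟩
    exact ⟨g1, (mem_hbx.1 g2).1⟩
  · rintro ⟨g1, g2⟩
    exact ⟨g1, mem_hbx.2 ⟨g2, ends_le (h s hs).1 (h s hs).2⟩⟩

theorem s0_lv (i : ℕ) : lv (0, 0) (s0 i).1 = i := by
  unfold lv s0
  simp

theorem chain' {i j n : ℕ} (hi : i < n) (hj : j < n) : ∃ β : St → ZMod 2,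
    (∀ ρ, (face ρ).2 < (face ρ).1 → β ρ = 0) ∧
    (∀ ρ, 2 * (n : ℤ) < lf (0, 0) (face ρ) → β ρ = 0) ∧
    ∀ ρ, T4 β ρ = inc (s0 i) ρ + inc (s0 j) ρ := by
  rcases le_total i j with h | h
  · obtain ⟨β, hβ, hβ3⟩ := chain h
    exact ⟨β, fun ρ h => hβ ρ (fun h' => by have := (Dg_ne hj h').1; omega),
      fun ρ h => hβ ρ (fun h' => by have := (Dg_ne hj h').2; omega), hβ3⟩
  · obtain ⟨β, hβ, hβ3⟩ := chain h
    exact ⟨β, fun ρ h => hβ ρ (fun h' => by have := (Dg_ne hi h').1; omega),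
      fun ρ h => hβ ρ (fun h' => by have := (Dg_ne hi h').2; omega),
      fun ρ => by rw [hβ3, add_comm]⟩

theorem hit_inj {F : Set Edg} {σ : St} {n : ℤ} {T : ℕ} (hT : lv (0, 0) (orb F σ T).1 = n)
    (hT' : ∀ s < T, lv (0, 0) (orb F σ s).1 < n) {r r' : ℕ} (h : r < r') (h' : r' ≤ T) :
    orb F σ r ≠ orb F σ r' := by
  intro he
  obtain ⟨m, rfl⟩ : ∃ m, r' = r + m := ⟨r' - r, by omega⟩
  have h2 := orb_cancel he
  have h3 : orb F σ (T - m) = orb F σ T := by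
    conv_rhs => rw [show T = (T - m) + m by omega, orb_add, ← h2]
  have h4 := hT' (T - m) (by omega)
  rw [h3, hT] at h4
  exact lt_irrefl _ h4

/-- The exploration reaches distance `n`. -/
theorem hit_ex {G : Set Edg} {n i : ℕ} (hi : i < n) {y : Vtx} (hy : lv (0, 0) y = n)
    (hr : Reach (G ∩ hbx (n : ℤ)) (i, i) y) : ∃ T : ℕ,
    lv (0, 0) (orb (G ∩ hbx (n : ℤ)) (s0 i) T).1 = n ∧
      ∀ s < T, lv (0, 0) (orb (G ∩ hbx (n : ℤ)) (s0 i) s).1 < n := by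
  have hG : G ∩ hbx (n : ℤ) ⊆ hbx (n : ℤ) := Set.inter_subset_right
  obtain ⟨hv, o, k1, k2, k3⟩ := pot_Cy hG hi.le
  obtain ⟨ρ, rfl, k4⟩ := ex_far hy
  obtain ⟨m, hm⟩ := k3 ρ (Or.inr k4) (by rw [← k2 _ _ hr]; exact k1)
  classical
  have hex : ∃ m, lv (0, 0) (orb (G ∩ hbx (n : ℤ)) (s0 i) m).1 = n := ⟨m, by rw [hm]; exact hy⟩
  refine ⟨Nat.find hex, Nat.find_spec hex, fun s hs => ?_⟩
  have h1 := Nat.find_min hex hs
  have h2 := orb_box (G := G ∩ hbx (n : ℤ)) (c := (0, 0)) (b := n)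
    (fun e he => (mem_hbx.1 (hG he)).2) (σ := s0 i) (by
      rw [s0_lv]; exact_mod_cast hi.le) s
  exact lt_of_le_of_ne h2 h1

theorem disj {G : Set Edg} {n i j : ℕ} (hi : i < n) (hj : j < n) {T T' : ℕ}
    (hT : lv (0, 0) (orb (G ∩ hbx (n : ℤ)) (s0 i) T).1 = n)
    (hT' : ∀ s < T, lv (0, 0) (orb (G ∩ hbx (n : ℤ)) (s0 i) s).1 < n)
    (hU : lv (0, 0) (orb (G ∩ hbx (n : ℤ)) (s0 j) T').1 = n)
    (hU' : ∀ s < T', lv (0, 0) (orb (G ∩ hbx (n : ℤ)) (s0 j) s).1 < n)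
    (hdis : ¬ Reach (G ∩ hbx (n : ℤ)) (i, i) (j, j)) {y y' : Vtx}
    (hy : lv (0, 0) y = n) (hy' : lv (0, 0) y' = n)
    (hr : Reach (G ∩ hbx (n : ℤ)) (i, i) y) (hr' : Reach (G ∩ hbx (n : ℤ)) (j, j) y')
    {s s' : ℕ} (hs : s < T) (hs' : s' < T')
    (he : ae (orb (G ∩ hbx (n : ℤ)) (s0 i) s) ∈ Hs)
    (hee : ae (orb (G ∩ hbx (n : ℤ)) (s0 i) s) = ae (orb (G ∩ hbx (n : ℤ)) (s0 j) s')) :
    False := by
  have hG : G ∩ hbx (n : ℤ) ⊆ hbx (n : ℤ) := Set.inter_subset_right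
  generalize G ∩ hbx (n : ℤ) = G1 at *
  have hdis' : ¬ Reach G1 (j, j) (i, i) := fun h => hdis h.symm
  have hop : orb G1 (s0 j) s' = op (orb G1 (s0 i) s) := by
    rcases ae_cases hee with h | h
    · exfalso
      refine hdis ((reach_orb G1 (s0 i) s).trans ?_)
      rw [← h]
      exact (reach_orb G1 (s0 j) s').symm
    · exact h
  have hcl : ae (orb G1 (s0 i) s) ∉ G1 := by
    intro h
    refine hdis ((reach_orb G1 (s0 i) s).trans (Reach.trans (Adj.reach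
      ⟨ae (orb G1 (s0 i) s), h, ?_⟩) (reach_orb G1 (s0 j) s').symm))
    rw [hop]
    exact ends _
  obtain ⟨ρ, h1, h2⟩ := in_face he
  rcases ae_cases h1.symm with h3 | h3
  · obtain ⟨β, b1, b2', b3⟩ := chain' hi hj
    rw [h3] at h2
    exact key2 hG (σ := s0 i) (σ' := s0 j) (s := s) (s' := s') le_rfl le_rfl b1 b2' b3
      (fun r hr => hT' r (by omega)) (fun r hr => hU' r (by omega))
      (fun r r' g1 g2 => hit_inj hT hT' g1 (by omega))
      (fun r r' g1 g2 => hit_inj hU hU' g1 (by omega)) hop hcl hdis hy hy' hr hr' h2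
  · obtain ⟨β, b1, b2', b3⟩ := chain' hj hi
    rw [h3, ← hop] at h2
    refine key2 hG (σ := s0 j) (σ' := s0 i) (s := s') (s' := s) le_rfl le_rfl b1 b2' b3
      (fun r hr => hU' r (by omega)) (fun r hr => hT' r (by omega))
      (fun r r' g1 g2 => hit_inj hU hU' g1 (by omega))
      (fun r r' g1 g2 => hit_inj hT hT' g1 (by omega)) ?_ ?_ hdis' hy' hy hr' hr h2
    · rw [hop, op_op]
    · rw [← hee]; exact hcl

end Pool.Agent.N948.IX.HT

namespace Pool.Agent.N948.IX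

open H974 H906.Cyl H12S Finset H984P H342P Pool.Agent.W92.DP H984P.SideAux
open Pool.Agent.H160R2.ML (nm)
open Pool.Agent.W808.HU (Hs hbx SEh sv)
open N1 HT

/-- Disjoint explorations give different clusters in the smaller box. -/
theorem hp1 : St_H1 := by
  intro K R G _ hKR hExp
  obtain ⟨T, hT, hD⟩ := hExp
  have hG : G ∩ hbx ((R - 1 : ℕ) : ℤ) ⊆ hbx ((R - 1 : ℕ) : ℤ) := Set.inter_subset_right
  have hR : (((R - 1 : ℕ) : ℤ)) = (R : ℤ) - 1 := by omega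
  have main1 : ∀ i j : ℕ, i < j → j < K → ¬ Reach (G ∩ hbx ((R - 1 : ℕ) : ℤ)) (i, i) (j, j) := by
    intro i j hij hj hr
    obtain ⟨hv, o, k1, k2, k3⟩ := pot_Cy hG (i := i) (by omega)
    have hex := k3 (s0 j) (Or.inl le_rfl) (by
      show hv (j, j) + o = 1
      rw [← k2 _ _ hr]; exact k1)
    classical
    obtain ⟨t, ht, hmin⟩ : ∃ t, orb (G ∩ hbx ((R - 1 : ℕ) : ℤ)) (s0 i) t = s0 j ∧
        ∀ r < t, orb (G ∩ hbx ((R - 1 : ℕ) : ℤ)) (s0 i) r ≠ s0 j :=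
      ⟨Nat.find hex, Nat.find_spec hex, fun r hr => Nat.find_min hex hr⟩
    have hk := key1 hG hij (by omega) ht hmin
    have hle : ∀ r < t, lv (0, 0) (orb (G ∩ hbx ((R - 1 : ℕ) : ℤ)) (s0 i) r).1 ≤
        ((R - 1 : ℕ) : ℤ) ∧ lv (0, 0) (mv (orb (G ∩ hbx ((R - 1 : ℕ) : ℤ)) (s0 i) r)).1 ≤
        ((R - 1 : ℕ) : ℤ) := by
      intro r hr
      have g1 := hk r hr
      have g2 := Bas.cor (0, 0) (orb (G ∩ hbx ((R - 1 : ℕ) : ℤ)) (s0 i) r)
      have g3 := Bas.cor_mv (0, 0) (orb (G ∩ hbx ((R - 1 : ℕ) : ℤ)) (s0 i) r)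
      constructor <;> omega
    have hag := agree (G := G) hle
    have htT : t < T ⟨i, by omega⟩ := by
      by_contra hc
      have h1 := (hT ⟨i, by omega⟩).1
      rw [nm_lv, hag _ (by omega)] at h1
      rcases Nat.lt_or_ge (T ⟨i, by omega⟩) t with h2 | h2
      · have := (hle _ h2).1
        rw [h1] at this
        omega
      · have h3 : T ⟨i, by omega⟩ = t := by omega
        rw [h3, ht, s0_lv] at h1
        omega
    have hTj : 0 < T ⟨j, hj⟩ := by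
      rcases Nat.eq_zero_or_pos (T ⟨j, hj⟩) with h | h
      · have h1 := (hT ⟨j, hj⟩).1
        rw [h, orb_zero, nm_lv, s0_lv] at h1
        omega
      · exact h
    refine hD ⟨i, by omega⟩ ⟨j, hj⟩ (by
      intro h
      have : i = j := congrArg Fin.val h
      omega) (ae (s0 j)) ?_ ?_ ?_
    · show 0 ≤ (j : ℤ) - j
      omega
    · exact mem_Exm.2 ⟨t, htT, by rw [hag t le_rfl, ht]⟩
    · exact mem_Exm.2 ⟨0, hTj, rfl⟩
  refine ⟨?_, ?_⟩
  · intro i j hi hj hij hr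
    have e : ∀ l : ℕ, sv 0 0 l = ((l : ℤ), (l : ℤ)) := by
      intro l; unfold sv; simp
    rw [e, e] at hr
    rcases Nat.lt_trichotomy i j with h | h | h
    · exact main1 i j h hj hr
    · exact hij h
    · exact main1 j i h hi hr.symm
  · intro i hi
    have e : sv 0 0 i = (s0 i).1 := by
      unfold sv s0; simp
    classical
    have hex : ∃ m, (R : ℤ) - 1 ≤ lv (0, 0) (orb (G ∩ Hs) (s0 i) m).1 :=
      ⟨T ⟨i, hi⟩, by
        have := (hT ⟨i, hi⟩).1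
        rw [nm_lv] at this
        rw [this]; omega⟩
    obtain ⟨m, hm, hmin⟩ : ∃ m, (R : ℤ) - 1 ≤ lv (0, 0) (orb (G ∩ Hs) (s0 i) m).1 ∧
        ∀ r < m, ¬ (R : ℤ) - 1 ≤ lv (0, 0) (orb (G ∩ Hs) (s0 i) r).1 :=
      ⟨Nat.find hex, Nat.find_spec hex, fun r hr => Nat.find_min hex hr⟩
    have hm0 : m ≠ 0 := by
      rintro rfl
      rw [orb_zero, s0_lv] at hm
      omega
    obtain ⟨m, rfl⟩ : ∃ m', m = m' + 1 := ⟨m - 1, by omega⟩
    have hle : lv (0, 0) (orb (G ∩ Hs) (s0 i) (m + 1)).1 ≤ (R : ℤ) - 1 := by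
      have h1 := hmin m (Nat.lt_succ_self m)
      have h2 := lv_nxt (G ∩ Hs) (orb (G ∩ Hs) (s0 i) m)
      rw [← orb_succ] at h2
      omega
    refine ⟨(orb (G ∩ Hs) (s0 i) (m + 1)).1, by rw [nm_lv]; omega, ?_⟩
    rw [e]
    have h3 := orb_reach (F := G ∩ Hs)
      (W := {e | lv (0, 0) (src e) ≤ (R : ℤ) - 1 ∧ lv (0, 0) (tgt e) ≤ (R : ℤ) - 1})
      (σ := s0 i) (T := m + 1) (fun r hr => by
        have h1 := hmin r hr
        have h2 := lv_mv (orb (G ∩ Hs) (s0 i) r)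
        exact ends_le (by omega) (by omega)) le_rfl
    refine h3.mono ?_
    rintro g ⟨⟨g1, g2⟩, g3, g4⟩
    exact ⟨g1, mem_hbx.2 ⟨g2, by rw [hR]; exact g3, by rw [hR]; exact g4⟩⟩

/-- Different clusters which reach distance `R` give disjoint explorations. -/
theorem hp2 : St_H2 := by
  intro K R G _ hKR hS
  obtain ⟨hS1, hS2⟩ := hS
  have e : ∀ l : ℕ, sv 0 0 l = ((l : ℤ), (l : ℤ)) := by
    intro l; unfold sv; simp
  have h1 : ∀ i : Fin K, ∃ T : ℕ,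
      lv (0, 0) (orb (G ∩ hbx (R : ℤ)) (s0 i) T).1 = R ∧
      ∀ s < T, lv (0, 0) (orb (G ∩ hbx (R : ℤ)) (s0 i) s).1 < R := by
    intro i
    obtain ⟨y, hy, hr⟩ := hS2 i i.2
    rw [nm_lv] at hy
    rw [e] at hr
    exact hit_ex (by have := i.2; omega) hy hr
  choose T hT hT' using h1
  have hag : ∀ (i : Fin K), ∀ s ≤ T i, orb (G ∩ Hs) (s0 i) s = orb (G ∩ hbx (R : ℤ)) (s0 i) s := by
    intro i
    refine agree (fun s hs => ?_)
    have g1 := hT' i s hs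
    have g2 := lv_mv (orb (G ∩ hbx (R : ℤ)) (s0 i) s)
    constructor <;> omega
  refine ⟨T, fun i => ⟨?_, fun s hs => ?_⟩, ?_⟩
  · rw [nm_lv, hag i _ le_rfl]
    exact hT i
  · rw [nm_lv, hag i _ hs.le]
    exact hT' i s hs
  · intro i i' hii f hf h2 h3
    obtain ⟨s, hs, rfl⟩ := mem_Exm.1 h2
    obtain ⟨s', hs', he⟩ := mem_Exm.1 h3
    rw [hag i s hs.le] at hf he
    rw [hag i' s' hs'.le] at he
    obtain ⟨y, hy, hr⟩ := hS2 i i.2
    obtain ⟨y', hy', hr'⟩ := hS2 i' i'.2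
    rw [nm_lv] at hy hy'
    rw [e] at hr hr'
    have hdis := hS1 i i' i.2 i'.2 (fun h => hii (Fin.ext h))
    rw [e, e] at hdis
    exact disj (by have := i.2; omega) (by have := i'.2; omega) (hT i) (hT' i) (hT i') (hT' i')
      hdis hy hy' hr hr' hs hs' hf he.symm

end Pool.Agent.N948.IX
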