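import Pool.Agent.N948.IX.Cut
import Pool.Agent.W808.HU.Defs

/-!
# Project IX (helper948): exploration paths of independent half-planes

Half-plane `{(x, y) : y ≤ x}` with free boundary. The exploration path number `i` starts at the boundary
vertex `(i, i)`, which is on its right, the face `(i, i)` being on its left.
-/

set_option autoImplicit false

namespace Pool.Agent.N948.IX

open H974 H906.Cyl H12S Finset H984P H342P
open MeasureTheory
open Pool.Agent.H160R2.ML (nm)
open Pool.Agent.H160R2.ML.TFIN (Z2 crit)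
open Pool.Agent.W808.HU (Hs hbx SEh sPh)

/-- The starting state at the boundary vertex `(i, i)`. -/
def s0 (i : ℕ) : St := (((i : ℤ), (i : ℤ)), Q4.ne)

/-- The interface started at `σ` reaches sup-distance `R` from the origin for the first time at
time `T`. -/
def Hit (F : Set Edg) (R : ℕ) (σ : St) (T : ℕ) : Prop :=
  nm (orb F σ T).1 = (R : ℤ) ∧ ∀ s < T, nm (orb F σ s).1 < (R : ℤ)

/-- The exploration path number `i` of the half-plane configuration `ω i` reaches distance `R`, for
all `i`, and no edge of the half-plane is examined by two of them. -/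
def Exp {K : ℕ} (R : ℕ) (ω : Fin K → Set Edg) : Prop :=
  ∃ T : Fin K → ℕ, (∀ i, Hit (ω i ∩ Hs) R (s0 i) (T i)) ∧
    ∀ i i', i ≠ i' → ∀ e ∈ Hs, e ∈ Exm (ω i ∩ Hs) (s0 i) (T i) →
      e ∉ Exm (ω i' ∩ Hs) (s0 i') (T i')

/-- Disjoint explorations give different clusters in the smaller box. -/
def St_H1 : Prop := ∀ (K R : ℕ) (G : Set Edg), 2 ≤ K → K < R → Exp (K := K) R (fun _ => G) →
  SEh K ((R - 1 : ℕ) : ℤ) G

/-- Different clusters which reach distance `R` give disjoint explorations. -/
def St_H2 : Prop := ∀ (K R : ℕ) (G : Set Edg), 2 ≤ K → K < R → SEh K (R : ℤ) G →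
  Exp (K := K) R (fun _ => G)

/-- The event in finite volume: independent configurations or a single one. -/
def St_H3 : Prop := ∀ (m K : ℕ) (j : Fin K → Fin m) (R : ℕ), K < R →
  (Measure.pi (fun _ : Fin m => crit)).real {ω | Exp R (fun i => opn (ω (j i)))} =
    Pr (fun _ => (1/2 : ℝ)) (boxE (R + 1)) (fun F => Exp (K := K) R (fun _ => (↑F : Set Edg)))

/-- The theorem for the half-plane. -/
def St_HP : Prop := ∀ K : ℕ, 2 ≤ K → ∃ c C : ℝ, 0 < c ∧ 0 < C ∧
  ∀ (m : ℕ) (j : Fin K → Fin m) (R : ℕ), K < R →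
    c * (R : ℝ) ^ (-((K : ℝ) * (2 * K - 1) / 3)) ≤
      (Measure.pi (fun _ : Fin m => crit)).real {ω | Exp R (fun i => opn (ω (j i)))} ∧
    (Measure.pi (fun _ : Fin m => crit)).real {ω | Exp R (fun i => opn (ω (j i)))} ≤
      C * (R : ℝ) ^ (-((K : ℝ) * (2 * K - 1) / 3))

end Pool.Agent.N948.IX
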