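import Pool.Agent.N948.IX.Cut

/-!
# Project IX (helper948): the six-arm bound, uniform in the inner radius. Statements.
-/

set_option autoImplicit false

namespace Pool.Agent.N948.IX

open H974 H906.Cyl H12S Finset H984P H342P

/-! ### Outward crossings -/

def St_oBasic : Prop := ∀ (F : Set Edg) (c : Vtx) (a b : ℕ) (τ : St) (U : ℕ), a < b →
  OutLeg F c a b τ U →
    1 < U ∧ lv c τ.1 = a ∧ lv c (orb F τ U).1 = b ∧
    (∀ s < U, ae (orb F τ s) ∈ Ge c a b) ∧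
    (∀ s ≤ U, Reach (F ∩ Ge c a b) τ.1 (orb F τ s).1) ∧
    (∀ s, 0 < s → s < U → DReach (Fᶜ ∩ Gd c a b) (face (orb F τ 1)) (face (orb F τ s))) ∧
    TIn c a b F (face (orb F τ 1)) ∧ TOut c a b F (face (orb F τ (U - 1)))

def St_oN1o : Prop := ∀ (F : Set Edg) (c : Vtx) (a b : ℕ) (τ τ' : St) (U U' : ℕ), a < b →
  OutLeg F c a b τ U → OutLeg F c a b τ' U' → τ ≠ τ' → ¬ Reach (F ∩ Ge c a b) τ.1 τ'.1

def St_oN1d : Prop := ∀ (F : Set Edg) (c : Vtx) (a b : ℕ) (τ τ' : St) (U U' : ℕ), a < b →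
  OutLeg F c a b τ U → OutLeg F c a b τ' U' → τ ≠ τ' →
    ¬ DReach (Fᶜ ∩ Gd c a b) (face (orb F τ 1)) (face (orb F τ' 1))

def St_oN2o : Prop := ∀ (F : Set Edg) (c : Vtx) (a b : ℕ) (x y x' y' : Vtx), 1 ≤ a → a < b →
  lv c x = a → lv c y = b → Reach (F ∩ Ge c a b) x y →
  lv c x' = a → lv c y' = b → Reach (F ∩ Ge c a b) x' y' → ¬ Reach (F ∩ Ge c a b) x x' →
  ∃ (τ : St) (U : ℕ), OutLeg F c a b τ U ∧ Reach (F ∩ Ge c a b) x τ.1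

def St_oN2d : Prop := ∀ (F : Set Edg) (c : Vtx) (a b : ℕ) (f g f' g' : Vtx), 1 ≤ a → a < b →
  TIn c a b F f → TOut c a b F g → DReach (Fᶜ ∩ Gd c a b) f g →
  TIn c a b F f' → TOut c a b F g' → DReach (Fᶜ ∩ Gd c a b) f' g' →
  ¬ DReach (Fᶜ ∩ Gd c a b) f f' →
  ∃ (τ : St) (U : ℕ), OutLeg F c a b τ U ∧ DReach (Fᶜ ∩ Gd c a b) f (face (orb F τ 1))

def St_oRestr : Prop := ∀ (F : Set Edg) (c : Vtx) (a b : ℕ) (τ : St) (U : ℕ), a < b →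
  OutLeg F c a b τ U →
    (∀ U', OutLeg F c a b τ U' → U' = U) ∧
    (∀ m, a < m → m ≤ b → ∃ U' ≤ U, OutLeg F c a m τ U') ∧
    (∀ m, a ≤ m → m < b → ∃ s < U, OutLeg F c m b (orb F τ s) (U - s)) ∧
    (∀ τ' U' s s', OutLeg F c a b τ' U' → s < U → s' < U' → orb F τ s = orb F τ' s' →
      τ = τ' ∧ s = s') ∧
    (∀ σ T t s, InLeg F c a b σ T → t < T → s < U → orb F σ t ≠ orb F τ s)

/-! ### Inward and outward crossings -/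

/-- An inward and an outward crossing with different clusters on both sides examine disjoint sets
of edges. -/
def St_N3x : Prop := ∀ (F : Set Edg) (c : Vtx) (a b : ℕ) (σ τ : St) (T U : ℕ), a < b →
  InLeg F c a b σ T → OutLeg F c a b τ U → ¬ Reach (F ∩ Ge c a b) σ.1 τ.1 →
  ¬ DReach (Fᶜ ∩ Gd c a b) (face (orb F σ 1)) (face (orb F τ 1)) →
  Disjoint (Exm F σ T) (Exm F τ U)

/-- If an inward and an outward crossing have the same clusters on both sides then there is only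
one crossing cluster. -/
def St_T3 : Prop := ∀ (F : Set Edg) (c : Vtx) (a b : ℕ) (σ τ : St) (T U : ℕ), 1 ≤ a → a < b →
  InLeg F c a b σ T → OutLeg F c a b τ U → Reach (F ∩ Ge c a b) σ.1 τ.1 →
  DReach (Fᶜ ∩ Gd c a b) (face (orb F σ 1)) (face (orb F τ 1)) → ¬ OC c a b 2 F

/-- No dual crossing off the two crossings: they have the same open cluster. -/
def St_L1a : Prop := ∀ (F G : Set Edg) (c : Vtx) (a b r s : ℕ) (σ τ : St) (T U : ℕ), 1 ≤ a →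
  a ≤ r → r < s → s ≤ b → InLeg F c a b σ T → OutLeg F c a b τ U →
  (∀ e ∈ Ge c r s, e ∉ Exm F σ T → e ∉ Exm F τ U → (e ∈ F ↔ e ∈ G)) → ¬ DC c r s 1 G →
  Reach (F ∩ Ge c a b) σ.1 τ.1

/-- No open crossing off the two crossings: they have the same dual cluster. -/
def St_L1b : Prop := ∀ (F G : Set Edg) (c : Vtx) (a b r s : ℕ) (σ τ : St) (T U : ℕ), 1 ≤ a →
  a ≤ r → r < s → s ≤ b → InLeg F c a b σ T → OutLeg F c a b τ U →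
  (∀ e ∈ Ge c r s, e ∉ Exm F σ T → e ∉ Exm F τ U → (e ∈ F ↔ e ∈ G)) → ¬ OC c r s 1 G →
  DReach (Fᶜ ∩ Gd c a b) (face (orb F σ 1)) (face (orb F τ 1))

/-- An inward crossing which does not leave the square of radius `M2` after it has entered the one
of radius `M1`. -/
def LnIn (F : Set Edg) (c : Vtx) (M1 M2 : ℕ) (σ : St) (T : ℕ) : Prop :=
  ∀ s t, s ≤ t → t ≤ T → lf c (face (orb F σ s)) < 2 * (M1 : ℤ) →
    lf c (face (orb F σ t)) < 2 * (M2 : ℤ)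

def LnOut (F : Set Edg) (c : Vtx) (M1 M2 : ℕ) (τ : St) (U : ℕ) : Prop :=
  ∀ s t, s ≤ t → t ≤ U → lf c (face (orb F τ t)) < 2 * (M1 : ℤ) →
    lf c (face (orb F τ s)) < 2 * (M2 : ℤ)

/-- Circuits off the two crossings: the second one is the continuation of the first one. -/
def St_L1 : Prop := ∀ (F G : Set Edg) (c : Vtx) (a M1 M2 b r s r' s' : ℕ) (σ τ : St) (T U : ℕ),
  1 ≤ a → a ≤ r → r < s → s < M1 → a ≤ r' → r' < s' → s' < M1 → M1 < M2 → M2 ≤ b →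
  InLeg F c a b σ T → OutLeg F c a b τ U → LnIn F c M1 M2 σ T → LnOut F c M1 M2 τ U →
  (∀ e ∈ Ge c a M1, e ∉ Exm F σ T → e ∉ Exm F τ U → (e ∈ F ↔ e ∈ G)) →
  ¬ DC c r s 1 G → ¬ OC c r' s' 1 G →
  ∃ n, orb F σ (T + n) = τ ∧ ∀ i ≤ n, lf c (face (orb F σ (T + i))) < 2 * (M2 : ℤ)

/-- Circuits off a crossing in a second configuration: its continuation hits the crossing of the
first configuration. -/
def St_L2 : Prop := ∀ (F1 F2 G : Set Edg) (c : Vtx) (a M1 M2 b r s r' s' : ℕ) (σ ρ : St)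
  (T V : ℕ), 1 ≤ a → a ≤ r → r < s → s < M1 → a ≤ r' → r' < s' → s' < M1 → M1 < M2 → M2 ≤ b →
  InLeg F1 c a b σ T → InLeg F2 c a b ρ V → LnIn F2 c M1 M2 ρ V →
  Disjoint (Exm F1 σ T) (Exm F2 ρ V) →
  (∀ e ∈ Ge c a M1, e ∉ Exm F2 ρ V → (e ∈ F2 ↔ e ∈ G)) →
  ¬ DC c r s 1 G → ¬ OC c r' s' 1 G →
  ∃ n, ae (orb F2 ρ (V + n)) ∈ Exm F1 σ T ∧
    ∀ i ≤ n, lf c (face (orb F2 ρ (V + i))) < 2 * (M2 : ℤ)

/-- Choice of three crossings off which there is a dual crossing, if there are three crossing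
clusters. -/
def St_PICK : Prop := ∀ (F : Set Edg) (c : Vtx) (a b : ℕ), 1 ≤ a → a < b → OC c a b 3 F →
  ∃ (σ : St) (T : ℕ) (τ : St) (U : ℕ) (ρ : St) (V : ℕ), InLeg F c a b σ T ∧
    OutLeg F c a b τ U ∧ InLeg F c a b ρ V ∧ Disjoint (Exm F ρ V) (Exm F σ T) ∧
    Disjoint (Exm F ρ V) (Exm F τ U) ∧
    ∀ G : Set Edg, (∀ e ∈ Ge c a b, e ∉ Exm F σ T → e ∉ Exm F τ U → e ∉ Exm F ρ V →
      (e ∈ F ↔ e ∈ G)) → DC c a b 1 G

/-- A crossing which moves back and forth gives a fourth crossing cluster. -/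
def St_BACK : Prop := ∀ (F : Set Edg) (c : Vtx) (a M1 M2 b : ℕ), 1 ≤ a → a ≤ M1 → M1 < M2 →
  M2 ≤ b → OC c a b 3 F →
  ((∃ σ T, InLeg F c a b σ T ∧ ¬ LnIn F c M1 M2 σ T) ∨
    ∃ τ U, OutLeg F c a b τ U ∧ ¬ LnOut F c M1 M2 τ U) → OC c M1 M2 4 F

/-! ### Probability -/

/-- Glueing: `H` on `A`, `F` elsewhere. -/
def gl (F H : Set Edg) (A : Finset Edg) : Set Edg := {e | (e ∈ A ∧ e ∈ H) ∨ (e ∉ A ∧ e ∈ F)}

/-- The configuration is fresh off the explored edges. -/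
def St_GLU : Prop := ∀ (K : ℕ) (S : Finset Edg) (W : Fin K → Set Edg → Finset Edg → Prop)
  (R : (Fin K → Finset Edg) → Prop) (Q : Fin K → Set Edg → Prop),
  (∀ i F A, W i F A → A ⊆ S) →
  (∀ i F G A, W i F A → (∀ e ∈ A, (e ∈ F ↔ e ∈ G)) → W i G A) →
  (∀ i F A B, W i F A → W i F B → A = B) →
  (∀ i F G, F ∩ ↑S = G ∩ ↑S → Q i F → Q i G) →
  Pr (fun _ => (1/2 : ℝ)) ((Finset.univ : Finset (Fin (K + K))) ×ˢ S)
    (fun F => ∃ A : Fin K → Finset Edg, (∀ i, W i (sl F (Fin.castAdd K i)) (A i)) ∧ R A ∧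
      ∀ i, Q i (gl (sl F (Fin.castAdd K i)) (sl F (Fin.natAdd K i)) (A i))) =
  Pr (fun _ => (1/2 : ℝ)) ((Finset.univ : Finset (Fin K)) ×ˢ S)
    (fun F => ∃ A : Fin K → Finset Edg, (∀ i, W i (sl F i) (A i)) ∧ R A) *
    ∏ i, Pr (fun _ => (1/2 : ℝ)) S (fun F => Q i (↑F : Set Edg))

/-- A closed and an open circuit. -/
def Gd2 (c : Vtx) (a : ℕ) (G : Set Edg) : Prop := ¬ DC c a (8 * a) 1 G ∧ ¬ OC c (9 * a) (72 * a) 1 G

def St_RSW : Prop := ∃ κ : ℝ, 0 < κ ∧ κ < 1 ∧ (∀ (c : Vtx) (a b : ℕ) (S : Finset Edg), 1 ≤ a →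
    8 * a ≤ b → GeF c a b ⊆ S →
    Pr (fun _ => (1/2 : ℝ)) S (fun F => DC c a b 1 (↑F : Set Edg)) ≤ 1 - κ) ∧
  ∀ (c : Vtx) (a : ℕ) (S : Finset Edg), 1 ≤ a → GeF c a (72 * a) ⊆ S →
    κ ≤ Pr (fun _ => (1/2 : ℝ)) S (fun F => Gd2 c a (↑F : Set Edg))

/-- Three crossings: `σ`, `τ` in `F1` and `ρ` in `F2`. -/
def TR0 (K : ℕ) (c : Vtx) (a b : ℕ) (F1 F2 : Set Edg) (p : St × St × St) : Prop :=
  ∃ T U V, InLeg F1 c a b p.1 T ∧ OutLeg F1 c a b p.2.1 U ∧ InLeg F2 c a b p.2.2 V ∧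
    LnIn F1 c (80 * a) (80 * K * a) p.1 T ∧ LnOut F1 c (80 * a) (80 * K * a) p.2.1 U ∧
    LnIn F2 c (80 * a) (80 * K * a) p.2.2 V ∧ Disjoint (Exm F2 p.2.2 V) (Exm F1 p.1 T) ∧
    Disjoint (Exm F2 p.2.2 V) (Exm F1 p.2.1 U)

/-- The same with circuits off the crossings. -/
def TR (K : ℕ) (c : Vtx) (a b : ℕ) (F1 F2 H1 H2 : Set Edg) (p : St × St × St) : Prop :=
  ∃ T U V, InLeg F1 c a b p.1 T ∧ OutLeg F1 c a b p.2.1 U ∧ InLeg F2 c a b p.2.2 V ∧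
    LnIn F1 c (80 * a) (80 * K * a) p.1 T ∧ LnOut F1 c (80 * a) (80 * K * a) p.2.1 U ∧
    LnIn F2 c (80 * a) (80 * K * a) p.2.2 V ∧ Disjoint (Exm F2 p.2.2 V) (Exm F1 p.1 T) ∧
    Disjoint (Exm F2 p.2.2 V) (Exm F1 p.2.1 U) ∧
    Gd2 c a (gl F1 H1 (Exm F1 p.1 T ∪ Exm F1 p.2.1 U)) ∧ Gd2 c a (gl F2 H2 (Exm F2 p.2.2 V))

/-- A grid of mesh `a`. -/
noncomputable def gridX (a n : ℕ) : Finset Vtx :=
  ((Finset.Icc (-(n : ℤ)) n) ×ˢ (Finset.Icc (-(n : ℤ)) n)).image (fun p => ((a : ℤ) * p.1, (a : ℤ) * p.2))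

/-- The first collision determines the centre. -/
def St_COL : Prop := ∀ K : ℕ, 2 ≤ K → ∃ C : ℕ, ∀ (a n q1 q b : ℕ) (F1 F2 H1 H2 : Set Edg), 1 ≤ a →
  a * n + 80 * K * a < q1 → q1 < q → q + a * n ≤ b →
  ∑ x ∈ gridX a n, Set.ncard {p : St × St × St | TR K x a b F1 F2 H1 H2 p} ≤
    C * NL (0, 0) q1 q F1 * NL (0, 0) q1 q F2

/-- The bound for three crossings, two configurations. -/
def St_SB : Prop := ∀ K : ℕ, 2 ≤ K → ∃ C : ℝ, 0 < C ∧ ∀ (c : Vtx) (a b : ℕ) (S : Finset Edg),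
  1 ≤ a → 2000 * K * a ≤ b → GeF c a b ⊆ S →
  Ex (fun _ => (1/2 : ℝ)) ((Finset.univ : Finset (Fin 2)) ×ˢ S)
    (fun F => ((Set.ncard {p : St × St × St | TR0 K c a b (sl F 0) (sl F 1) p} : ℕ) : ℝ)) ≤
    C * ((a : ℝ) / b) ^ 2

/-- The recursion. -/
def St_REC : Prop := ∃ ε : ℝ, 0 < ε ∧ ε ≤ 1 / 4 ∧ ∀ K : ℕ, 2 ≤ K → ∃ C : ℝ, 0 < C ∧
  ∀ (c : Vtx) (a b : ℕ) (S : Finset Edg), 1 ≤ a → 2000 * K * a ≤ b → GeF c a b ⊆ S →
  Pr (fun _ => (1/2 : ℝ)) S (fun F => OC c a b 3 (↑F : Set Edg)) ≤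
    C * ((a : ℝ) / b) ^ (2 + ε) +
    Pr (fun _ => (1/2 : ℝ)) S (fun F => OC c (80 * a) (80 * K * a) 4 (↑F : Set Edg)) *
    Pr (fun _ => (1/2 : ℝ)) S (fun F => OC c (80 * K * a + 1) b 3 (↑F : Set Edg))

/-- Eight arms. -/
def St_FAT : Prop := ∃ C : ℝ, 0 < C ∧ ∀ (c : Vtx) (a b : ℕ) (S : Finset Edg), 1 ≤ a →
  3 * a + 6 ≤ b → GeF c a b ⊆ S → Pr (fun _ => (1/2 : ℝ)) S (fun F => OC c a b 4 (↑F : Set Edg)) ≤
    C * ((a : ℝ) / b) ^ (5/2 : ℝ)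

/-- **Six arms**, uniform in the inner radius. -/
def St_U6 : Prop := ∃ ε C : ℝ, 0 < ε ∧ 0 < C ∧ ∀ (c : Vtx) (a b : ℕ) (S : Finset Edg), 1 ≤ a →
  a < b → GeF c a b ⊆ S → Pr (fun _ => (1/2 : ℝ)) S (fun F => OC c a b 3 (↑F : Set Edg)) ≤
    C * ((a : ℝ) / b) ^ (2 + ε)

end Pool.Agent.N948.IX
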