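import Pool.Agent.N948.IX.Six

/-!
# Project XD (helper948): separation of crossings. Statements.

Crossings of an annulus around `c` which exist together with a second one are far from each other on
all scales, except on an event whose probability is a small multiple of the four-arm probability.
-/

set_option autoImplicit false

namespace Pool.Agent.N948.IX

open H974 H906.Cyl H12S Finset H984P H342P

/-! ### Topology -/

/-- When the crossing `ρ` enters the square of radius `w` around `q`, which meets the crossing `σ`, for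
the first time, there is an unexplored open or dual arm around this square. -/
def St_FR : Prop := ∀ (F G : Set Edg) (c q : Vtx) (a b w R : ℕ) (σ ρ : St) (T T' t : ℕ), 1 ≤ a →
  a < b → 1 ≤ w → w < R → (a : ℤ) + R < lv c q → lv c q + R < b →
  InLeg F c a b σ T → InLeg F c a b ρ T' → σ ≠ ρ →
  (∃ s ≤ T, lf q (face (orb F σ s)) < 2 * (w : ℤ)) → t ≤ T' →
  lf q (face (orb F ρ t)) < 2 * (w : ℤ) → (∀ s < t, 2 * (w : ℤ) < lf q (face (orb F ρ s))) →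
  (∀ e ∈ Ge q w R, e ∉ Exm F σ T → e ∉ Exm F ρ t → (e ∈ F ↔ e ∈ G)) →
  OC q w R 1 G ∨ DC q w R 1 G

/-- A crossing which moves back gives an additional crossing cluster. -/
def St_NL3 : Prop := ∀ (F : Set Edg) (c : Vtx) (a b u1 u2 : ℕ) (σ ρ : St) (T T' s t : ℕ), a < b →
  InLeg F c a b σ T → InLeg F c a b ρ T' → σ ≠ ρ → a ≤ u1 → u1 < u2 → u2 ≤ b → s ≤ t → t ≤ T →
  lf c (face (orb F σ s)) < 2 * (u1 : ℤ) → 2 * (u2 : ℤ) < lf c (face (orb F σ t)) → OC c u1 u2 3 F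

/-! ### Fresh configurations -/

/-- The configuration is fresh off the explored edges; the event in the fresh configuration may
depend on the explored part. -/
def St_GLW : Prop := ∀ (S : Finset Edg) (W : Set Edg → Finset Edg → Prop)
  (Q : Set Edg → Finset Edg → Set Edg → Prop) (p : ℝ), 0 ≤ p →
  (∀ F A, W F A → A ⊆ S) →
  (∀ F G A, W F A → (∀ e ∈ A, (e ∈ F ↔ e ∈ G)) → W G A) →
  (∀ F A B, W F A → W F B → A = B) →
  (∀ F F' A G, (∀ e ∈ A, (e ∈ F ↔ e ∈ F')) → Q F A G → Q F' A G) →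
  (∀ F A G G', G ∩ ↑S = G' ∩ ↑S → Q F A G → Q F A G') →
  ((∀ F A, W F A → Pr (fun _ => (1/2 : ℝ)) S (fun G => Q F A (↑G : Set Edg)) ≤ p) →
    Pr (fun _ => (1/2 : ℝ)) ((Finset.univ : Finset (Fin 2)) ×ˢ S)
      (fun F => ∃ A, W (sl F 0) A ∧ Q (sl F 0) A (gl (sl F 0) (sl F 1) A)) ≤
    p * Pr (fun _ => (1/2 : ℝ)) S (fun F => ∃ A, W (↑F : Set Edg) A)) ∧
  ((∀ F A, W F A → p ≤ Pr (fun _ => (1/2 : ℝ)) S (fun G => Q F A (↑G : Set Edg))) →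
    p * Pr (fun _ => (1/2 : ℝ)) S (fun F => ∃ A, W (↑F : Set Edg) A) ≤
    Pr (fun _ => (1/2 : ℝ)) ((Finset.univ : Finset (Fin 2)) ×ˢ S)
      (fun F => ∃ A, W (sl F 0) A ∧ Q (sl F 0) A (gl (sl F 0) (sl F 1) A)))

/-! ### Bounds -/

/-- One arm. -/
def St_RS1 : Prop := ∃ C κ : ℝ, 0 < C ∧ 0 < κ ∧ κ ≤ 1 ∧ ∀ (c : Vtx) (a b : ℕ) (S : Finset Edg),
  1 ≤ a → a < b → GeF c a b ⊆ S →
  Pr (fun _ => (1/2 : ℝ)) S (fun F => OC c a b 1 (↑F : Set Edg)) ≤ C * ((a : ℝ) / b) ^ κ ∧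
  Pr (fun _ => (1/2 : ℝ)) S (fun F => DC c a b 1 (↑F : Set Edg)) ≤ C * ((a : ℝ) / b) ^ κ

/-- Six arms, a weak bound uniform in the inner radius. -/
def St_U32 : Prop := ∃ C : ℝ, 0 < C ∧ ∀ (c : Vtx) (a b : ℕ) (S : Finset Edg), 1 ≤ a → a < b →
  GeF c a b ⊆ S → Pr (fun _ => (1/2 : ℝ)) S (fun F => OC c a b 3 (↑F : Set Edg)) ≤
    C * ((a : ℝ) / b) ^ (3/2 : ℝ)

/-- Two crossings come near each other at the distance `u` of the centre. -/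
def App (F : Set Edg) (c : Vtx) (a b u w : ℕ) : Prop :=
  ∃ (σ : St) (T : ℕ) (ρ : St) (T' s t : ℕ), InLeg F c a b σ T ∧ InLeg F c a b ρ T' ∧ σ ≠ ρ ∧
    s ≤ T ∧ t ≤ T' ∧ (u : ℤ) ≤ lv c (orb F σ s).1 ∧ 8 * lv c (orb F σ s).1 < 9 * (u : ℤ) ∧
    lv (orb F σ s).1 (orb F ρ t).1 ≤ w

/-- The probability of this event is small. -/
def St_APP : Prop := ∃ C κ : ℝ, 0 < C ∧ 0 < κ ∧ κ ≤ 1 ∧ ∀ (c : Vtx) (a b u w : ℕ)
  (S : Finset Edg), 1 ≤ a → 2 * a ≤ u → 4 * u ≤ b → 1 ≤ w → GeF c a b ⊆ S →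
  Pr (fun _ => (1/2 : ℝ)) S (fun F => App (↑F : Set Edg) c a b u w) ≤ C * ((w : ℝ) / u) ^ κ

/-- The crossing does not move back much. -/
def LeanP (F : Set Edg) (c : Vtx) (M b : ℕ) (σ : St) (T : ℕ) : Prop :=
  ∀ s t, s ≤ t → t ≤ T →
    (lf c (face (orb F σ t))) ^ 2 ≤ (M : ℤ) * b * lf c (face (orb F σ s))

/-- It does not move back from the core. -/
def CoreL (F : Set Edg) (c : Vtx) (a N : ℕ) (σ : St) (T : ℕ) : Prop :=
  ∀ s t, s ≤ t → t ≤ T → lf c (face (orb F σ s)) ≤ 200 * (a : ℤ) →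
    lf c (face (orb F σ t)) ≤ (N : ℤ) * a

/-- Power separation (up to the radius `r`). -/
def SepP (c : Vtx) (M B b r : ℕ) (A A' : Finset Edg) : Prop :=
  ∀ e ∈ A, ∀ e' ∈ A', lv c (src e) ≤ r ∨ lv c (src e') ≤ r →
    12 ≤ lv (src e) (src e') ∧
    (max (lv c (src e)) (lv c (src e'))) ^ B ≤ (M : ℤ) * (b : ℤ) ^ (B - 1) * lv (src e) (src e')

/-- The crossings of the annulus `A (a1, b)`, restricted to `A (8 a1, b)`, are good. -/
def AllG (M M' B N : ℕ) (c : Vtx) (a1 b r : ℕ) (F : Set Edg) : Prop :=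
  ∀ σ T, σ ∈ LS c a1 b F → InLeg F c (8 * a1) b σ T →
    LeanP F c M b σ T ∧ CoreL F c (8 * a1) N σ T ∧
    ∀ ρ T', ρ ∈ LS c a1 b F → InLeg F c (8 * a1) b ρ T' → σ ≠ ρ →
      SepP c M' B b r (Exm F σ T) (Exm F ρ T')

/-- **The separation lemma**: the crossings of the annulus `A (a1, b)`, restricted to `A (8 a1, b)`, are
good up to an event of small relative probability. -/
def St_SEPT : Prop := ∃ B : ℕ, 2 ≤ B ∧ ∀ ε : ℝ, 0 < ε → ∃ a1 M M' N b0 : ℕ, 1 ≤ a1 ∧ 1 ≤ M ∧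
  1 ≤ M' ∧ 200 ≤ N ∧ ∀ (c : Vtx) (b r : ℕ) (S : Finset Edg), b0 ≤ b → 18 * r ≤ 5 * b →
  GeF c a1 b ⊆ S →
  Pr (fun _ => (1/2 : ℝ)) S (fun F => OC c a1 b 2 (↑F : Set Edg) ∧
    ¬ AllG M M' B N c a1 b r (↑F : Set Edg)) ≤ ε * ((a1 : ℝ) / b) ^ (5/4 : ℝ)

end Pool.Agent.N948.IX
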