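import Pool.Agent.N948.IX.Sp
import Pool.Agent.N948.IX.C5

/-!
# Project XD: the separation lemma
-/

set_option autoImplicit false

namespace Pool.Agent.N948.IX.X10

open H974 Finset H984P
open Pool.Agent.N948.IX.C5

/-! ### Numbers -/

lemma geo {κ : ℝ} (hκ : 0 < κ) : ∃ K : ℝ, 0 < K ∧ ∀ b : ℕ, 1 ≤ b →
    ∑ j ∈ Finset.range (Nat.log 2 b + 1), (((2 ^ j : ℕ) : ℝ) / b) ^ κ ≤ K := by
  have h2 : (1 : ℝ) < (2 : ℝ) ^ κ := Real.one_lt_rpow (by norm_num) hκ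
  have h20 : (0 : ℝ) < (2 : ℝ) ^ κ - 1 := by linarith
  refine ⟨(2 : ℝ) ^ κ / ((2 : ℝ) ^ κ - 1), by positivity, fun b hb => ?_⟩
  have hb0 : (0 : ℝ) < b := by exact_mod_cast (by omega : 0 < b)
  have h3 : ∀ j : ℕ, (((2 ^ j : ℕ) : ℝ) / b) ^ κ = ((2 : ℝ) ^ κ) ^ j * ((b : ℝ) ^ κ)⁻¹ := by
    intro j
    rw [Real.div_rpow (by positivity) (by positivity), div_eq_mul_inv]
    congr 1
    push_cast
    rw [← Real.rpow_natCast, ← Real.rpow_mul (by norm_num), ← Real.rpow_natCast,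
      ← Real.rpow_mul (by norm_num), mul_comm]
  rw [Finset.sum_congr rfl fun j _ => h3 j, ← Finset.sum_mul, geom_sum_eq (ne_of_gt h2)]
  have h4 : ((2 : ℝ) ^ κ) ^ (Nat.log 2 b) ≤ (b : ℝ) ^ κ := by
    rw [← Real.rpow_natCast, ← Real.rpow_mul (by norm_num), mul_comm, Real.rpow_mul (by norm_num),
      Real.rpow_natCast]
    refine Real.rpow_le_rpow (by positivity) ?_ hκ.le
    exact_mod_cast Nat.pow_log_le_self 2 (by omega)
  have h5 : (0 : ℝ) < (b : ℝ) ^ κ := by positivity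
  rw [div_mul_eq_mul_div]
  refine div_le_div_of_nonneg_right ?_ h20.le
  rw [← div_eq_mul_inv, div_le_iff₀ h5, pow_succ]
  nlinarith

lemma small (C : ℝ) {κ ε : ℝ} (hκ : 0 < κ) (hε : 0 < ε) :
    ∃ N : ℕ, ∀ n : ℕ, N ≤ n → C * (n : ℝ) ^ (-κ) ≤ ε := by
  have htend : Filter.Tendsto (fun n : ℕ => C * (n : ℝ) ^ (-κ)) Filter.atTop (nhds 0) := by
    have h1 := (tendsto_rpow_neg_atTop hκ).comp tendsto_natCast_atTop_atTop
    have h3 := h1.const_mul C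
    rw [mul_zero] at h3
    exact h3
  obtain ⟨N, hN⟩ := Filter.eventually_atTop.1 (htend.eventually_lt_const hε)
  exact ⟨N, fun n hn => (hN n hn).le⟩

lemma numT {a b u1 u2 : ℕ} (ha : 1 ≤ a) (hu1 : 2 * a ≤ u1) (hu : u1 < u2) (hb : u2 ≤ b) :
    ((a : ℝ) / ((u1 - 1 : ℕ) : ℝ)) ^ (5 / 4 : ℝ) * (((u1 : ℝ) / u2) ^ (3 / 2 : ℝ) *
      (((u2 + 1 : ℕ) : ℝ) / b) ^ (5 / 4 : ℝ)) ≤
      4 ^ (5 / 4 : ℝ) * ((a : ℝ) / b) ^ (5 / 4 : ℝ) * ((u1 : ℝ) / u2) ^ (1 / 4 : ℝ) := by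
  have h1 : (0 : ℝ) < u1 := by exact_mod_cast (by omega : 0 < u1)
  have h2 : (0 : ℝ) < u2 := by exact_mod_cast (by omega : 0 < u2)
  have h3 : (0 : ℝ) < b := by exact_mod_cast (by omega : 0 < b)
  have h4 : (0 : ℝ) < a := by exact_mod_cast (by omega : 0 < a)
  have h5 : (u1 : ℝ) ≤ 2 * ((u1 - 1 : ℕ) : ℝ) := by exact_mod_cast (by omega : u1 ≤ 2 * (u1 - 1))
  have h6 : (0 : ℝ) < ((u1 - 1 : ℕ) : ℝ) := by linarith
  have h7 : ((u2 + 1 : ℕ) : ℝ) ≤ 2 * u2 := by exact_mod_cast (by omega : u2 + 1 ≤ 2 * u2)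
  have e1 : ((a : ℝ) / ((u1 - 1 : ℕ) : ℝ)) ^ (5 / 4 : ℝ) ≤ (2 * a / u1) ^ (5 / 4 : ℝ) := by
    refine Real.rpow_le_rpow (by positivity) ?_ (by norm_num)
    rw [div_le_div_iff₀ h6 h1]
    nlinarith
  have e2 : (((u2 + 1 : ℕ) : ℝ) / b) ^ (5 / 4 : ℝ) ≤ (2 * u2 / b) ^ (5 / 4 : ℝ) := by
    refine Real.rpow_le_rpow (by positivity) ?_ (by norm_num)
    exact div_le_div_of_nonneg_right h7 h3.le
  have e3 : (2 * (a : ℝ) / u1) ^ (5 / 4 : ℝ) * (((u1 : ℝ) / u2) ^ (3 / 2 : ℝ) *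
      (2 * u2 / b) ^ (5 / 4 : ℝ)) =
      4 ^ (5 / 4 : ℝ) * ((a : ℝ) / b) ^ (5 / 4 : ℝ) * ((u1 : ℝ) / u2) ^ (1 / 4 : ℝ) := by
    have hx : (0 : ℝ) < (u1 : ℝ) / u2 := by positivity
    have f1 : ((u1 : ℝ) / u2) ^ (3 / 2 : ℝ) = ((u1 : ℝ) / u2) ^ (5 / 4 : ℝ) *
        ((u1 : ℝ) / u2) ^ (1 / 4 : ℝ) := by
      rw [← Real.rpow_add hx]
      norm_num
    have f2 : (2 * (a : ℝ) / u1) ^ (5 / 4 : ℝ) * ((u1 : ℝ) / u2) ^ (5 / 4 : ℝ) *
        (2 * u2 / b) ^ (5 / 4 : ℝ) = 4 ^ (5 / 4 : ℝ) * ((a : ℝ) / b) ^ (5 / 4 : ℝ) := by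
      rw [← Real.mul_rpow (by positivity) (by positivity),
        ← Real.mul_rpow (by positivity) (by positivity),
        ← Real.mul_rpow (by positivity) (by positivity)]
      congr 1
      field_simp
      ring
    rw [f1, ← f2]
    ring
  rw [← e3]
  refine mul_le_mul e1 (mul_le_mul_of_nonneg_left e2 (by positivity)) (by positivity)
    (by positivity)

/-- One term of the first sum. -/
lemma numE1 {M b P Q : ℕ} (hM : 1 ≤ M) (hb : 1 ≤ b) (hQ : 1 ≤ Q)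
    (h : M * b * P ≤ 16 * Q ^ 2) :
    ((P : ℝ) / Q) ^ (1 / 4 : ℝ) ≤ 16 ^ (1 / 8 : ℝ) * (M : ℝ) ^ (-(1 / 8) : ℝ) *
      ((Q : ℝ) / b) ^ (1 / 8 : ℝ) * ((P : ℝ) / Q) ^ (1 / 8 : ℝ) := by
  have hM0 : (0 : ℝ) < M := by exact_mod_cast (by omega : 0 < M)
  have hb0 : (0 : ℝ) < b := by exact_mod_cast (by omega : 0 < b)
  have hQ0 : (0 : ℝ) < Q := by exact_mod_cast (by omega : 0 < Q)
  have h' : (M : ℝ) * b * P ≤ 16 * (Q : ℝ) ^ 2 := by exact_mod_cast h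
  have hx : (0 : ℝ) ≤ (P : ℝ) / Q := by positivity
  have f1 : ((P : ℝ) / Q) ^ (1 / 4 : ℝ) = ((P : ℝ) / Q) ^ (1 / 8 : ℝ) *
      ((P : ℝ) / Q) ^ (1 / 8 : ℝ) := by
    rw [← Real.rpow_add_of_nonneg hx (by norm_num) (by norm_num)]
    norm_num
  have f2 : ((P : ℝ) / Q) ^ (1 / 8 : ℝ) ≤ 16 ^ (1 / 8 : ℝ) * (M : ℝ) ^ (-(1 / 8) : ℝ) *
      ((Q : ℝ) / b) ^ (1 / 8 : ℝ) := by
    rw [Real.rpow_neg hM0.le, ← Real.inv_rpow hM0.le, ← Real.mul_rpow (by norm_num) (by positivity),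
      ← Real.mul_rpow (by positivity) (by positivity)]
    refine Real.rpow_le_rpow hx ?_ (by norm_num)
    rw [div_le_iff₀ hQ0]
    have : 16 * (M : ℝ)⁻¹ * (Q / b) * Q = 16 * (Q : ℝ) ^ 2 / (M * b) := by
      field_simp
    rw [this, le_div_iff₀ (by positivity)]
    nlinarith
  rw [f1]
  exact mul_le_mul_of_nonneg_right f2 (by positivity)

lemma numE2 {a N : ℕ} (ha : 1 ≤ a) (hN : 1 ≤ N) :
    (((801 * a : ℕ) : ℝ) / ((4 * N * a : ℕ) : ℝ)) ^ (1 / 4 : ℝ) =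
      (801 / 4) ^ (1 / 4 : ℝ) * (N : ℝ) ^ (-(1 / 4) : ℝ) := by
  have hN0 : (0 : ℝ) < N := by exact_mod_cast (by omega : 0 < N)
  have ha0 : (0 : ℝ) < a := by exact_mod_cast (by omega : 0 < a)
  rw [Real.rpow_neg hN0.le, ← Real.inv_rpow hN0.le, ← Real.mul_rpow (by norm_num) (by positivity)]
  congr 1
  push_cast
  field_simp

lemma numE3 {a b L : ℕ} (ha : 240 ≤ a) (hL1 : 8 * a ≤ L) (hL2 : L ≤ b) :
    ((a : ℝ) / ((L - L / 8 - 1 : ℕ) : ℝ)) ^ (5 / 4 : ℝ) *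
      (((L + L / 8 + 1 : ℕ) : ℝ) / b) ^ (5 / 4 : ℝ) ≤
      4 ^ (5 / 4 : ℝ) * ((a : ℝ) / b) ^ (5 / 4 : ℝ) := by
  rw [← Real.mul_rpow (by positivity) (by positivity), ← Real.mul_rpow (by positivity) (by positivity)]
  refine Real.rpow_le_rpow (by positivity) ?_ (by norm_num)
  have h2 : (L : ℝ) ≤ 2 * ((L - L / 8 - 1 : ℕ) : ℝ) := by
    exact_mod_cast (by omega : L ≤ 2 * (L - L / 8 - 1))
  have h3 : ((L + L / 8 + 1 : ℕ) : ℝ) ≤ 2 * L := by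
    exact_mod_cast (by omega : L + L / 8 + 1 ≤ 2 * L)
  have hL : (0 : ℝ) < L := by exact_mod_cast (by omega : 0 < L)
  have hb : (0 : ℝ) < b := by exact_mod_cast (by omega : 0 < b)
  have ha0 : (0 : ℝ) < a := by exact_mod_cast (by omega : 0 < a)
  have hm : (0 : ℝ) < ((L - L / 8 - 1 : ℕ) : ℝ) := by linarith
  calc (a : ℝ) / ((L - L / 8 - 1 : ℕ) : ℝ) * (((L + L / 8 + 1 : ℕ) : ℝ) / b)
      ≤ (2 * a / L) * (2 * L / b) := by
        refine mul_le_mul ?_ (div_le_div_of_nonneg_right h3 hb.le) (by positivity) (by positivity)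
        rw [div_le_div_iff₀ hm hL]
        nlinarith
    _ = 4 * ((a : ℝ) / b) := by
        field_simp
        ring

/-- The inner radius. -/
def au (a M b u : ℕ) : ℕ := max (8 * a) (u ^ 2 / (2 * M * b))

/-- The distance. -/
def qu (M' B b u : ℕ) : ℕ := (3 * u) ^ B / (M' * b ^ (B - 1))

lemma numE4a {a M b u : ℕ} (ha : 1 ≤ a) (hM : 1 ≤ M) (hb : 1 ≤ b) (hu : 1 ≤ u) :
    ((a : ℝ) / ((au a M b u - 1 : ℕ) : ℝ)) ^ (5 / 4 : ℝ) ≤
      (8 * (M : ℝ)) ^ (5 / 4 : ℝ) * ((a : ℝ) / b) ^ (5 / 4 : ℝ) * ((b : ℝ) / u) ^ (5 / 2 : ℝ) := by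
  have hM0 : (0 : ℝ) < M := by exact_mod_cast (by omega : 0 < M)
  have hb0 : (0 : ℝ) < b := by exact_mod_cast (by omega : 0 < b)
  have hu0 : (0 : ℝ) < u := by exact_mod_cast (by omega : 0 < u)
  have ha0 : (0 : ℝ) < a := by exact_mod_cast (by omega : 0 < a)
  have h1 : 8 * a ≤ au a M b u := le_max_left _ _
  have h2 : u ^ 2 / (2 * M * b) ≤ au a M b u := le_max_right _ _
  have h3 : u ^ 2 < (2 * M * b) * (u ^ 2 / (2 * M * b) + 1) := by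
    have := Nat.lt_mul_div_succ (u ^ 2) (show 0 < 2 * M * b by positivity)
    exact this
  have h4 : u ^ 2 ≤ (8 * M * b) * (au a M b u - 1) := by
    have h5 : u ^ 2 / (2 * M * b) + 1 ≤ 4 * (au a M b u - 1) := by omega
    calc u ^ 2 ≤ (2 * M * b) * (u ^ 2 / (2 * M * b) + 1) := h3.le
      _ ≤ (2 * M * b) * (4 * (au a M b u - 1)) := Nat.mul_le_mul_left _ h5
      _ = (8 * M * b) * (au a M b u - 1) := by ring
  have h5 : (u : ℝ) ^ 2 ≤ (8 * M * b) * ((au a M b u - 1 : ℕ) : ℝ) := by exact_mod_cast h4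
  have h6 : (0 : ℝ) < ((au a M b u - 1 : ℕ) : ℝ) := by
    exact_mod_cast (by omega : 0 < au a M b u - 1)
  have h7 : ((b : ℝ) / u) ^ (5 / 2 : ℝ) = (((b : ℝ) / u) ^ 2) ^ (5 / 4 : ℝ) := by
    rw [← Real.rpow_natCast, ← Real.rpow_mul (by positivity)]
    norm_num
  rw [h7, ← Real.mul_rpow (by positivity) (by positivity),
    ← Real.mul_rpow (by positivity) (by positivity)]
  refine Real.rpow_le_rpow (by positivity) ?_ (by norm_num)
  have h8 : 8 * (M : ℝ) * (a / b) * (b / u) ^ 2 = 8 * M * b * a / (u : ℝ) ^ 2 := by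
    field_simp
  rw [h8, div_le_div_iff₀ h6 (by positivity)]
  nlinarith

lemma numE4b {M' B b u : ℕ} {κ : ℝ} (hκ : 0 < κ) (hM : 1 ≤ M') (hb : 1 ≤ b) (hu : 1 ≤ u)
    (hB : 2 ≤ B) (hq : 12 ≤ qu M' B b u) :
    (((qu M' B b u + 2 : ℕ) : ℝ) / u) ^ κ ≤
      (2 * 3 ^ B : ℝ) ^ κ * (M' : ℝ) ^ (-κ) * ((u : ℝ) / b) ^ (κ * (B - 1)) := by
  have hM0 : (0 : ℝ) < M' := by exact_mod_cast (by omega : 0 < M')
  have hb0 : (0 : ℝ) < b := by exact_mod_cast (by omega : 0 < b)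
  have hu0 : (0 : ℝ) < u := by exact_mod_cast (by omega : 0 < u)
  obtain ⟨k, rfl⟩ : ∃ k, B = k + 1 := ⟨B - 1, by omega⟩
  have h1 : ((u : ℝ) / b) ^ (κ * (((k + 1 : ℕ) : ℝ) - 1)) = (((u : ℝ) / b) ^ k) ^ κ := by
    rw [← Real.rpow_natCast, ← Real.rpow_mul (by positivity), mul_comm]
    push_cast
    ring_nf
  rw [h1, Real.rpow_neg hM0.le, ← Real.inv_rpow hM0.le,
    ← Real.mul_rpow (by positivity) (by positivity), ← Real.mul_rpow (by positivity) (by positivity)]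
  refine Real.rpow_le_rpow (by positivity) ?_ hκ.le
  have h2 : qu M' (k + 1) b u * (M' * b ^ k) ≤ (3 * u) ^ (k + 1) := by
    have := Nat.div_mul_le_self ((3 * u) ^ (k + 1)) (M' * b ^ (k + 1 - 1))
    exact this
  have h3 : ((qu M' (k + 1) b u : ℕ) : ℝ) * (M' * (b : ℝ) ^ k) ≤ (3 * (u : ℝ)) ^ (k + 1) := by
    exact_mod_cast h2
  have h4 : ((qu M' (k + 1) b u + 2 : ℕ) : ℝ) ≤ 2 * ((qu M' (k + 1) b u : ℕ) : ℝ) := by
    exact_mod_cast (by omega : qu M' (k + 1) b u + 2 ≤ 2 * qu M' (k + 1) b u)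
  have h5 : 2 * (3 : ℝ) ^ (k + 1) * (M' : ℝ)⁻¹ * ((u : ℝ) / b) ^ k =
      (2 * (3 * (u : ℝ)) ^ (k + 1) / (M' * (b : ℝ) ^ k)) / u := by
    rw [mul_pow, div_pow]
    field_simp
    ring
  rw [h5]
  refine div_le_div_of_nonneg_right (h4.trans ?_) hu0.le
  rw [le_div_iff₀ (by positivity)]
  nlinarith

lemma numE4c {B b u : ℕ} {κ : ℝ} (hb : 1 ≤ b) (hu : 1 ≤ u) (hub : u ≤ b)
    (hB : 7 / 2 ≤ κ * (B - 1)) :
    ((b : ℝ) / u) ^ (5 / 2 : ℝ) * ((u : ℝ) / b) ^ (κ * (B - 1)) ≤ (u : ℝ) / b := by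
  have hb0 : (0 : ℝ) < b := by exact_mod_cast (by omega : 0 < b)
  have hu0 : (0 : ℝ) < u := by exact_mod_cast (by omega : 0 < u)
  have hx : (0 : ℝ) < (u : ℝ) / b := by positivity
  have hx1 : (u : ℝ) / b ≤ 1 := by
    rw [div_le_one hb0]
    exact_mod_cast hub
  have h1 : ((b : ℝ) / u) ^ (5 / 2 : ℝ) = ((u : ℝ) / b) ^ (-(5 / 2) : ℝ) := by
    rw [Real.rpow_neg hx.le, ← Real.inv_rpow hx.le, inv_div]
  rw [h1, ← Real.rpow_add hx]
  calc ((u : ℝ) / b) ^ (-(5 / 2) + κ * (B - 1)) ≤ ((u : ℝ) / b) ^ (1 : ℝ) :=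
        Real.rpow_le_rpow_of_exponent_ge hx hx1 (by linarith)
    _ = (u : ℝ) / b := Real.rpow_one _

/-- Choice of the scale. -/
lemma scale {l r b : ℕ} (hl : 1900 ≤ l) (hlr : l ≤ r + 1) (hr : 18 * r ≤ 5 * b) (hb : 2000 ≤ b) :
    ∃ k ∈ Finset.range (Nat.log 2 b + 1), ∃ m ∈ Finset.Icc 128 256, m * 2 ^ k ≤ l ∧
      8 * l < 9 * (m * 2 ^ k) ∧ 4 * (m * 2 ^ k) ≤ b := by
  obtain ⟨t, ht⟩ : ∃ t, t = 8 * l / 9 + 1 := ⟨_, rfl⟩
  have ht1 : 128 ≤ t := by omega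
  have h0 : t / 128 ≠ 0 := by omega
  have h1 := Nat.pow_log_le_self 2 h0
  have h2 := Nat.lt_pow_succ_log_self one_lt_two (t / 128)
  obtain ⟨k, hk⟩ : ∃ k, k = Nat.log 2 (t / 128) := ⟨_, rfl⟩
  rw [← hk] at h1 h2
  rw [pow_succ] at h2
  have hp : 0 < 2 ^ k := by positivity
  generalize hP : 2 ^ k = p at h1 h2 hp
  have h3 := Nat.div_add_mod (t + p - 1) p
  have h4 := Nat.mod_lt (t + p - 1) hp
  obtain ⟨m, hm⟩ : ∃ m, m = (t + p - 1) / p := ⟨_, rfl⟩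
  rw [← hm] at h3
  have h5 : 128 * p ≤ t := by omega
  have h6 : t < 256 * p := by omega
  have h7 : t ≤ m * p := by
    rw [mul_comm]
    omega
  have h8 : m * p < t + p := by
    rw [mul_comm]
    omega
  have h9 : 128 ≤ m := Nat.le_of_mul_le_mul_right (h5.trans h7) hp
  have h10 : m < 257 := Nat.lt_of_mul_lt_mul_right (a := p) (by omega)
  refine ⟨k, ?_, m, ?_, ?_, ?_, ?_⟩
  · rw [Finset.mem_range, Nat.lt_succ_iff]
    refine Nat.le_log_of_pow_le one_lt_two ?_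
    rw [hP]
    omega
  · rw [Finset.mem_Icc]
    omega
  · rw [hP]
    omega
  · rw [hP]
    omega
  · rw [hP]
    omega


/-! ### Levels -/

lemma lf_lv (c : Vtx) (σ : St) :
    2 * lv c σ.1 - 1 ≤ lf c (face σ) ∧ lf c (face σ) ≤ 2 * lv c σ.1 + 1 := by
  obtain ⟨⟨x, y⟩, q⟩ := σ
  obtain ⟨p, r⟩ := c
  cases q <;> simp only [lf, lv, face, abs_eq_max_neg] <;> omega

lemma lf_odd (c f : Vtx) : lf c f % 2 = 1 := by
  simp only [lf, abs_eq_max_neg]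
  omega

lemma lf_pos (c f : Vtx) : 1 ≤ lf c f := by
  simp only [lf, abs_eq_max_neg]
  omega

lemma leg_up (hB : St_basic) {F : Set Edg} {c : Vtx} {a b : ℕ} {σ : St} {T s : ℕ} (hab : a < b)
    (hT : InLeg F c a b σ T) (hs : s ≤ T) : lf c (face (orb F σ s)) ≤ 2 * (b : ℤ) + 1 := by
  rcases Nat.eq_zero_or_pos s with h | h
  · subst h
    obtain ⟨-, h1, -⟩ := hB F c a b σ T hab hT
    have := (lf_lv c σ).2
    rw [orb_zero]
    omega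
  · rcases Nat.lt_or_ge s T with h' | h'
    · have := (hT.mid s h h').2
      omega
    · have h2 : s = T := le_antisymm hs h'
      subst h2
      have := hT.en
      omega

lemma leg_low {F : Set Edg} {c : Vtx} {a b : ℕ} {σ : St} {T s : ℕ} (hab : a < b)
    (hT : InLeg F c a b σ T) (hs : s < T) : 2 * (a : ℤ) < lf c (face (orb F σ s)) := by
  rcases Nat.eq_zero_or_pos s with h | h
  · subst h
    have := hT.st
    rw [orb_zero]
    omega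
  · exact (hT.mid s h hs).1

lemma leg_low' (hB : St_basic) {F : Set Edg} {c : Vtx} {a b : ℕ} {σ : St} {T s : ℕ} (hab : a < b)
    (hT : InLeg F c a b σ T) (hs : s ≤ T) : 2 * (a : ℤ) - 1 ≤ lf c (face (orb F σ s)) := by
  rcases Nat.lt_or_ge s T with h' | h'
  · have := leg_low hab hT h'
    omega
  · have h2 : s = T := le_antisymm hs h'
    subst h2
    obtain ⟨-, -, h1, -⟩ := hB F c a b σ s hab hT
    have := (lf_lv c (orb F σ s)).1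
    omega

lemma leT (hr : St_restr) {F : Set Edg} {c : Vtx} {a m b : ℕ} {σ : St} {T T1 : ℕ} (h1 : a ≤ m)
    (h2 : m < b) (hT1 : InLeg F c a b σ T1) (hT : InLeg F c m b σ T) : T ≤ T1 := by
  obtain ⟨-, g, -, -⟩ := hr F c a b σ T1 (by omega) hT1
  obtain ⟨T', h3, h4⟩ := g m h1 h2
  obtain ⟨g', -, -, -⟩ := hr F c m b σ T h2 hT
  have := g' T' h4
  omega

lemma in_of (hr : St_restr) {F : Set Edg} {c : Vtx} {a m b : ℕ} {σ : St} {T s1 : ℕ} (h1 : a ≤ m)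
    (h2 : m < b) (hT : InLeg F c a b σ T)
    (h : ∀ s ≤ s1, 2 * (m : ℤ) < lf c (face (orb F σ s))) :
    ∃ T'' : ℕ, InLeg F c m b σ T'' ∧ s1 ≤ T'' := by
  obtain ⟨-, g, -, -⟩ := hr F c a b σ T (by omega) hT
  obtain ⟨T', -, h4⟩ := g m h1 h2
  refine ⟨T', h4, ?_⟩
  by_contra hlt
  have h5 := h T' (by omega)
  have h6 := h4.en
  omega

lemma partner (hc : St_cnt) {F : Set Edg} {c : Vtx} {a b : ℕ} (ha : 1 ≤ a) (hab : a < b)
    (h : OC c a b 2 F) (σ : St) : ∃ (ρ : St) (T : ℕ), InLeg F c a b ρ T ∧ σ ≠ ρ := by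
  obtain ⟨τ, hi, hτ⟩ := hc F c a b 2 ha hab le_rfl h
  by_cases h0 : σ = τ 0
  · obtain ⟨T, hT⟩ := hτ 1
    refine ⟨τ 1, T, hT, fun h1 => ?_⟩
    have := hi (h0.symm.trans h1)
    simp at this
  · obtain ⟨T, hT⟩ := hτ 0
    exact ⟨τ 0, T, hT, h0⟩

/-! ### Three annuli -/

/-- Two crossing clusters of an inner and of an outer annulus, three in between. -/
def Tri (c : Vtx) (a b u1 u2 : ℕ) (F : Set Edg) : Prop :=
  (a < u1 - 1 → OC c a (u1 - 1) 2 F) ∧ OC c u1 u2 3 F ∧ (u2 + 1 < b → OC c (u2 + 1) b 2 F)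

lemma tri_of (hr : St_restr) (hc : St_cnt) (hc' : St_cnt') (hNL : St_NL3) {F : Set Edg} {c : Vtx}
    {a b : ℕ} (ha : 1 ≤ a) (hab : a < b) (h : OC c a b 2 F) {σ : St} {T s t : ℕ}
    (hT : InLeg F c a b σ T) {u1 u2 : ℕ} (h1 : a ≤ u1) (h2 : u1 < u2) (h3 : u2 ≤ b)
    (hst : s ≤ t) (htT : t ≤ T) (hs : lf c (face (orb F σ s)) < 2 * (u1 : ℤ))
    (ht : 2 * (u2 : ℤ) < lf c (face (orb F σ t))) : Tri c a b u1 u2 F := by
  obtain ⟨ρ, T', hT', hne⟩ := partner hc ha hab h σ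
  exact ⟨fun h4 => oc_two hr hc' le_rfl h4 (by omega) hT hT' hne,
    hNL F c a b u1 u2 σ ρ T T' s t hab hT hT' hne h1 h2 h3 hst htT hs ht,
    fun h4 => oc_two hr hc' (by omega) h4 le_rfl hT hT' hne⟩

lemma pr2 {S X Y : Finset Edg} (hX : X ⊆ S) (hY : Y ⊆ S) (dXY : Disjoint X Y)
    {A B : Finset Edg → Prop} (hA : Loc X (fun F => ind (A F))) (hB : Loc Y (fun F => ind (B F))) :
    Pr (fun _ => (1/2 : ℝ)) S (fun F => A F ∧ B F) =
      Pr (fun _ => (1/2 : ℝ)) S A * Pr (fun _ => (1/2 : ℝ)) S B := by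
  have e1 := Ex_mul hX hY dXY hA hB
  unfold Pr
  rw [← e1]
  congr 1
  funext F
  rw [ind_and]

lemma pr3 {S X Y Z : Finset Edg} (hX : X ⊆ S) (hY : Y ⊆ S) (hZ : Z ⊆ S) (dXY : Disjoint X Y)
    (dXZ : Disjoint X Z) (dYZ : Disjoint Y Z) {A B C : Finset Edg → Prop}
    (hA : Loc X (fun F => ind (A F))) (hB : Loc Y (fun F => ind (B F)))
    (hC : Loc Z (fun F => ind (C F))) :
    Pr (fun _ => (1/2 : ℝ)) S (fun F => A F ∧ B F ∧ C F) =
      Pr (fun _ => (1/2 : ℝ)) S A * (Pr (fun _ => (1/2 : ℝ)) S B * Pr (fun _ => (1/2 : ℝ)) S C) := by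
  have e2 := Ex_mul hY hZ dYZ hB hC
  have e1 := Ex_mul hX (Finset.union_subset hY hZ) (Finset.disjoint_union_right.2 ⟨dXY, dXZ⟩) hA
    (hB.mul hC)
  unfold Pr
  rw [← e2, ← e1]
  congr 1
  funext F
  rw [ind_and, ind_and]

lemma pr_le_sum {ι : Type*} (I : Finset ι) (S : Finset Edg) {A : Finset Edg → Prop}
    {B : ι → Finset Edg → Prop} (h : ∀ F, A F → ∃ i ∈ I, B i F) :
    Pr (fun _ => (1/2 : ℝ)) S A ≤ ∑ i ∈ I, Pr (fun _ => (1/2 : ℝ)) S (B i) := by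
  unfold Pr
  rw [← Ex_sum]
  refine Ex_mono ok fun F _ => ?_
  by_cases hA : A F
  · obtain ⟨i, hi, hB⟩ := h F hA
    rw [ind_of hA, ← ind_of hB]
    exact Finset.single_le_sum (f := fun i => ind (B i F)) (fun i _ => ind_nonneg _) hi
  · rw [ind_not_of hA]
    exact Finset.sum_nonneg fun i _ => ind_nonneg _

lemma pr_mono {S : Finset Edg} {A B : Finset Edg → Prop} (h : ∀ F, A F → B F) :
    Pr (fun _ => (1/2 : ℝ)) S A ≤ Pr (fun _ => (1/2 : ℝ)) S B := by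
  unfold Pr
  exact Ex_mono ok fun F _ => ind_mono (h F)

lemma pr_false {S : Finset Edg} {A : Finset Edg → Prop} (h : ∀ F, ¬ A F) :
    Pr (fun _ => (1/2 : ℝ)) S A ≤ 0 := by
  unfold Pr
  calc Ex (fun _ => (1/2 : ℝ)) S (fun F => ind (A F)) ≤ Ex (fun _ => (1/2 : ℝ)) S (fun _ => 0) :=
        Ex_mono ok fun F _ => by rw [ind_not_of (h F)]
    _ = 0 := Ex_const _ _ _

lemma pr_one {S : Finset Edg} (A : Finset Edg → Prop) : Pr (fun _ => (1/2 : ℝ)) S A ≤ 1 :=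
  Pr_le_one ok S A

lemma loc_oc (c : Vtx) (a b K : ℕ) :
    Loc (GeF c a b) (fun F => ind (OC c a b K (↑F : Set Edg))) :=
  Loc_of_Ge (f := fun F => ind (OC c a b K F)) fun _ _ h => ind_congr (oc_loc _ _ _ _ h)

lemma loc_oci (c : Vtx) (a b K : ℕ) (P : Prop) :
    Loc (GeF c a b) (fun F => ind (P → OC c a b K (↑F : Set Edg))) :=
  Loc_of_Ge (f := fun F => ind (P → OC c a b K F)) fun _ _ h =>
    ind_congr (imp_congr_right fun _ => oc_loc _ _ _ _ h)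

lemma disj {c : Vtx} {a b a' b' : ℕ} (h : b < a') : Disjoint (GeF c a b) (GeF c a' b') := by
  rw [Finset.disjoint_left]
  intro e h1 h2
  rw [mem_GeF] at h1 h2
  omega

/-- The four-arm bound for all radii. -/
def F2' (C1 : ℝ) : Prop := ∀ (c : Vtx) (a b : ℕ) (S : Finset Edg), 1 ≤ a → 1 ≤ b →
  GeF c a b ⊆ S → Pr (fun _ => (1/2 : ℝ)) S (fun F => a < b → OC c a b 2 (↑F : Set Edg)) ≤
    C1 * ((a : ℝ) / b) ^ (5/4 : ℝ)

lemma f2' (h : St_F2) : ∃ C1 : ℝ, 0 < C1 ∧ F2' C1 := by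
  obtain ⟨C, hC, h⟩ := h
  refine ⟨max C 1, lt_max_of_lt_left hC, fun c a b S ha hb hS => ?_⟩
  by_cases hab : a < b
  · calc Pr (fun _ => (1/2 : ℝ)) S (fun F => a < b → OC c a b 2 (↑F : Set Edg))
        ≤ Pr (fun _ => (1/2 : ℝ)) S (fun F => OC c a b 2 (↑F : Set Edg)) :=
          pr_mono fun F hF => hF hab
      _ ≤ C * ((a : ℝ) / b) ^ (5/4 : ℝ) := h c a b S ha hab hS
      _ ≤ _ := mul_le_mul_of_nonneg_right (le_max_left _ _) (by positivity)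
  · have hb0 : (0 : ℝ) < b := by exact_mod_cast (by omega : 0 < b)
    have h1 : (1 : ℝ) ≤ ((a : ℝ) / b) ^ (5/4 : ℝ) := by
      refine Real.one_le_rpow ?_ (by norm_num)
      rw [one_le_div hb0]
      exact_mod_cast (by omega : b ≤ a)
    refine (pr_one _).trans ?_
    nlinarith [le_max_right C 1]

/-- The six-arm bound. -/
def U3 (C3 : ℝ) : Prop := ∀ (c : Vtx) (a b : ℕ) (S : Finset Edg), 1 ≤ a → a < b →
  GeF c a b ⊆ S → Pr (fun _ => (1/2 : ℝ)) S (fun F => OC c a b 3 (↑F : Set Edg)) ≤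
    C3 * ((a : ℝ) / b) ^ (3/2 : ℝ)

lemma tri_pr {C1 C3 : ℝ} (h1 : 0 < C1) (h3 : 0 < C3) (hF : F2' C1) (hU : U3 C3)
    {c : Vtx} {a b u1 u2 : ℕ} {S : Finset Edg} (ha : 1 ≤ a) (hu1 : 2 * a ≤ u1) (hu : u1 < u2)
    (hb : u2 ≤ b) (hS : GeF c a b ⊆ S) :
    Pr (fun _ => (1/2 : ℝ)) S (fun F => Tri c a b u1 u2 (↑F : Set Edg)) ≤
      (C1 * C1 * C3) * (4 ^ (5/4 : ℝ) * ((a : ℝ) / b) ^ (5/4 : ℝ) *
        ((u1 : ℝ) / u2) ^ (1/4 : ℝ)) := by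
  have s1 : GeF c a (u1 - 1) ⊆ S := (GeF_mono le_rfl (by omega)).trans hS
  have s2 : GeF c u1 u2 ⊆ S := (GeF_mono (by omega) (by omega)).trans hS
  have s3 : GeF c (u2 + 1) b ⊆ S := (GeF_mono (by omega) le_rfl).trans hS
  have e : Pr (fun _ => (1/2 : ℝ)) S (fun F => Tri c a b u1 u2 (↑F : Set Edg)) = _ :=
    pr3 s1 s2 s3 (disj (by omega)) (disj (by omega)) (disj (by omega))
    (loc_oci c a (u1 - 1) 2 (a < u1 - 1)) (loc_oc c u1 u2 3) (loc_oci c (u2 + 1) b 2 (u2 + 1 < b))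
  have b1 := hF c a (u1 - 1) S ha (by omega) s1
  have b2 := hU c u1 u2 S (by omega) hu s2
  have b3 := hF c (u2 + 1) b S (by omega) (by omega) s3
  have p2 := Pr_nonneg ok S (fun F => OC c u1 u2 3 (↑F : Set Edg))
  have p3 := Pr_nonneg ok S (fun F => u2 + 1 < b → OC c (u2 + 1) b 2 (↑F : Set Edg))
  have n := numT ha hu1 hu hb
  rw [e]
  set x1 := ((a : ℝ) / ((u1 - 1 : ℕ) : ℝ)) ^ (5 / 4 : ℝ) with hx1
  set x2 := ((u1 : ℝ) / u2) ^ (3 / 2 : ℝ) with hx2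
  set x3 := (((u2 + 1 : ℕ) : ℝ) / b) ^ (5 / 4 : ℝ) with hx3
  have q1 : 0 ≤ x1 := by positivity
  have q2 : 0 ≤ x2 := by positivity
  have q3 : 0 ≤ x3 := by positivity
  calc _ ≤ (C1 * x1) * ((C3 * x2) * (C1 * x3)) :=
        mul_le_mul b1 (mul_le_mul b2 b3 p3 (by positivity)) (mul_nonneg p2 p3) (by positivity)
    _ = (C1 * C1 * C3) * (x1 * (x2 * x3)) := by ring
    _ ≤ _ := mul_le_mul_of_nonneg_left n (by positivity)

/-! ### First event: moving back -/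

/-- The first bad event. -/
def E1 (c : Vtx) (a M b : ℕ) (F : Set Edg) : Prop :=
  ∃ j ∈ Finset.range (Nat.log 2 b + 1), ∃ i ∈ Finset.range (j + 1),
    (8 * a ≤ 2 ^ i ∧ 2 ^ i < 2 ^ j ∧ 2 ^ j ≤ b ∧ M * b * 2 ^ i ≤ 16 * (2 ^ j) ^ 2) ∧
      Tri c a b (2 ^ i) (2 ^ j) F

lemma e1_of (hB : St_basic) (hr : St_restr) (hc : St_cnt) (hc' : St_cnt') (hNL : St_NL3)
    {F : Set Edg} {c : Vtx} {a M b : ℕ} (ha : 1 ≤ a) (h8 : 8 * a < b) (hM : 16 ≤ M)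
    (h : OC c a b 2 F) {σ : St} {T : ℕ} (hσ : σ ∈ LS c a b F) (hT : InLeg F c (8 * a) b σ T)
    (hL : ¬ LeanP F c M b σ T) : E1 c a M b F := by
  unfold LeanP at hL
  push Not at hL
  obtain ⟨s, t, hst, htT, hlt⟩ := hL
  obtain ⟨T1, hT1⟩ := hσ
  have hTT := leT hr (by omega : a ≤ 8 * a) h8 hT1 hT
  have hx0 := leg_low' hB h8 hT (hst.trans htT)
  have hy0 := leg_up hB h8 hT htT
  have hy1 := lf_odd c (face (orb F σ t))
  have hx1 := lf_pos c (face (orb F σ s))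
  have hy2 := lf_pos c (face (orb F σ t))
  obtain ⟨x, hx⟩ := Int.eq_ofNat_of_zero_le (show 0 ≤ lf c (face (orb F σ s)) by omega)
  obtain ⟨y, hy⟩ := Int.eq_ofNat_of_zero_le (show 0 ≤ lf c (face (orb F σ t)) by omega)
  have hlt' : M * b * x < y ^ 2 := by
    rw [hx, hy] at hlt
    exact_mod_cast hlt
  have hb0 : 0 < b := by omega
  have hx3 : 1 ≤ x := by omega
  have hMb : 16 ≤ M * b * x := by
    calc 16 ≤ M := hM
      _ = M * 1 * 1 := by ring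
      _ ≤ M * b * x := Nat.mul_le_mul (Nat.mul_le_mul le_rfl hb0) hx3
  have hy5 : 5 ≤ y := by
    by_contra h5
    have : y ≤ 4 := by omega
    have : y ^ 2 ≤ 4 ^ 2 := Nat.pow_le_pow_left this 2
    omega
  have i1 := Nat.pow_log_le_self 2 (show x ≠ 0 by omega)
  have i2 := Nat.lt_pow_succ_log_self one_lt_two x
  have j1 := Nat.pow_log_le_self 2 (show y ≠ 0 by omega)
  have j2 := Nat.lt_pow_succ_log_self one_lt_two y
  obtain ⟨j, hj⟩ : ∃ j, Nat.log 2 y = j + 1 :=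
    ⟨Nat.log 2 y - 1, by have := Nat.log_pos one_lt_two (show 2 ≤ y by omega); omega⟩
  obtain ⟨i, hi⟩ : ∃ i, Nat.log 2 x = i := ⟨_, rfl⟩
  rw [hj, pow_succ] at j1
  rw [hj, pow_succ, pow_succ] at j2
  rw [hi] at i1
  rw [hi, pow_succ] at i2
  have hQ : 2 * 2 ^ j < y := by omega
  have hQb : 2 ^ j ≤ b := by omega
  have hc1 : M * b * 2 ^ i ≤ 16 * (2 ^ j) ^ 2 := by
    have k1 : y ^ 2 ≤ (4 * 2 ^ j) ^ 2 := Nat.pow_le_pow_left (by omega) 2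
    have k2 : M * b * 2 ^ i ≤ M * b * x := Nat.mul_le_mul_left _ i1
    have k3 : (4 * 2 ^ j) ^ 2 = 16 * (2 ^ j) ^ 2 := by ring
    omega
  have hPQ : 2 ^ i < 2 ^ j := by
    have k1 : y ^ 2 < (4 * 2 ^ j) ^ 2 := Nat.pow_lt_pow_left (by omega) (by norm_num)
    have k2 : M * b * 2 ^ i ≤ M * b * x := Nat.mul_le_mul_left _ i1
    have k3 : (4 * 2 ^ j) ^ 2 = 16 * (2 ^ j * 2 ^ j) := by ring
    have k4 : 16 * (2 ^ j * 2 ^ j) ≤ 16 * (2 ^ j * b) :=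
      Nat.mul_le_mul_left _ (Nat.mul_le_mul_left _ hQb)
    have k5 : (M * 2 ^ i) * b < (16 * 2 ^ j) * b := by
      calc (M * 2 ^ i) * b = M * b * 2 ^ i := by ring
        _ < 16 * (2 ^ j * b) := by omega
        _ = (16 * 2 ^ j) * b := by ring
    have k6 : M * 2 ^ i < 16 * 2 ^ j := Nat.lt_of_mul_lt_mul_right k5
    have k7 : 16 * 2 ^ i ≤ M * 2 ^ i := Nat.mul_le_mul_right _ hM
    omega
  have hP8 : 8 * a ≤ 2 ^ i := by
    have : ((2 * (8 * a : ℕ) : ℕ) : ℤ) - 1 ≤ (x : ℤ) := by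
      rw [hx] at hx0
      push_cast at hx0 ⊢
      omega
    omega
  have hij : i < j := (Nat.pow_lt_pow_iff_right (by norm_num : 1 < 2)).1 hPQ
  refine ⟨j, ?_, i, ?_, ⟨hP8, hPQ, hQb, hc1⟩, ?_⟩
  · rw [Finset.mem_range, Nat.lt_succ_iff]
    exact Nat.le_log_of_pow_le one_lt_two hQb
  · rw [Finset.mem_range]
    omega
  · refine tri_of hr hc hc' hNL ha (by omega) h hT1 (by omega) hPQ hQb hst (htT.trans hTT) ?_ ?_
    · rw [hx]
      exact_mod_cast (by omega : x < 2 * 2 ^ i)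
    · rw [hy]
      exact_mod_cast hQ

lemma e1_pr {C1 C3 : ℝ} (h1 : 0 < C1) (h3 : 0 < C3) (hF : F2' C1) (hU : U3 C3) :
    ∃ C : ℝ, 0 < C ∧ ∀ (c : Vtx) (a M b : ℕ) (S : Finset Edg), 1 ≤ a → 1 ≤ M → 1 ≤ b →
      GeF c a b ⊆ S → Pr (fun _ => (1/2 : ℝ)) S (fun F => E1 c a M b (↑F : Set Edg)) ≤
        C * (M : ℝ) ^ (-(1/8) : ℝ) * ((a : ℝ) / b) ^ (5/4 : ℝ) := by
  obtain ⟨K, hK, hg⟩ := geo (κ := 1/8) (by norm_num)
  refine ⟨C1 * C1 * C3 * (4 ^ (5/4 : ℝ) * 16 ^ (1/8 : ℝ)) * (K * K), by positivity, ?_⟩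
  intro c a M b S ha hM hb hS
  have hM0 : (0 : ℝ) ≤ (M : ℝ) ^ (-(1/8) : ℝ) := by positivity
  have hab : (0 : ℝ) ≤ ((a : ℝ) / b) ^ (5/4 : ℝ) := by positivity
  -- one term
  have hterm : ∀ i j : ℕ, Pr (fun _ => (1/2 : ℝ)) S (fun F =>
      (8 * a ≤ 2 ^ i ∧ 2 ^ i < 2 ^ j ∧ 2 ^ j ≤ b ∧ M * b * 2 ^ i ≤ 16 * (2 ^ j) ^ 2) ∧
      Tri c a b (2 ^ i) (2 ^ j) (↑F : Set Edg)) ≤
      (C1 * C1 * C3 * (4 ^ (5/4 : ℝ) * 16 ^ (1/8 : ℝ)) * (M : ℝ) ^ (-(1/8) : ℝ) *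
        ((a : ℝ) / b) ^ (5/4 : ℝ)) * ((((2 ^ j : ℕ) : ℝ) / b) ^ (1/8 : ℝ) *
          (((2 ^ i : ℕ) : ℝ) / ((2 ^ j : ℕ) : ℝ)) ^ (1/8 : ℝ)) := by
    intro i j
    by_cases hcond : 8 * a ≤ 2 ^ i ∧ 2 ^ i < 2 ^ j ∧ 2 ^ j ≤ b ∧ M * b * 2 ^ i ≤ 16 * (2 ^ j) ^ 2
    · obtain ⟨k1, k2, k3, k4⟩ := hcond
      have t1 : Pr (fun _ => (1/2 : ℝ)) S (fun F =>
          (8 * a ≤ 2 ^ i ∧ 2 ^ i < 2 ^ j ∧ 2 ^ j ≤ b ∧ M * b * 2 ^ i ≤ 16 * (2 ^ j) ^ 2) ∧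
          Tri c a b (2 ^ i) (2 ^ j) (↑F : Set Edg)) ≤
          Pr (fun _ => (1/2 : ℝ)) S (fun F => Tri c a b (2 ^ i) (2 ^ j) (↑F : Set Edg)) :=
        pr_mono fun F hF => hF.2
      have t2 := tri_pr h1 h3 hF hU (c := c) (S := S) ha (by omega : 2 * a ≤ 2 ^ i) k2 k3 hS
      have t3 := numE1 hM hb (Nat.one_le_two_pow : 1 ≤ 2 ^ j) k4
      refine t1.trans (t2.trans ?_)
      calc (C1 * C1 * C3) * (4 ^ (5/4 : ℝ) * ((a : ℝ) / b) ^ (5/4 : ℝ) *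
            (((2 ^ i : ℕ) : ℝ) / ((2 ^ j : ℕ) : ℝ)) ^ (1/4 : ℝ))
          ≤ (C1 * C1 * C3) * (4 ^ (5/4 : ℝ) * ((a : ℝ) / b) ^ (5/4 : ℝ) *
            (16 ^ (1 / 8 : ℝ) * (M : ℝ) ^ (-(1 / 8) : ℝ) *
              (((2 ^ j : ℕ) : ℝ) / b) ^ (1 / 8 : ℝ) *
                (((2 ^ i : ℕ) : ℝ) / ((2 ^ j : ℕ) : ℝ)) ^ (1 / 8 : ℝ))) :=
            mul_le_mul_of_nonneg_left (mul_le_mul_of_nonneg_left t3 (by positivity))
              (by positivity)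
        _ = _ := by ring
    · refine (pr_false fun F hF => hcond hF.1).trans (by positivity)
  unfold E1
  refine (pr_le_sum (B := fun j F => ∃ i ∈ Finset.range (j + 1),
    (8 * a ≤ 2 ^ i ∧ 2 ^ i < 2 ^ j ∧ 2 ^ j ≤ b ∧ M * b * 2 ^ i ≤ 16 * (2 ^ j) ^ 2) ∧
      Tri c a b (2 ^ i) (2 ^ j) (↑F : Set Edg)) _ _ fun F hF => hF).trans ?_
  set D : ℝ := C1 * C1 * C3 * (4 ^ (5/4 : ℝ) * 16 ^ (1/8 : ℝ)) * (M : ℝ) ^ (-(1/8) : ℝ) *
        ((a : ℝ) / b) ^ (5/4 : ℝ) with hD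
  have hD0 : 0 ≤ D := by positivity
  have hj : ∀ j : ℕ, Pr (fun _ => (1/2 : ℝ)) S (fun F => ∃ i ∈ Finset.range (j + 1),
    (8 * a ≤ 2 ^ i ∧ 2 ^ i < 2 ^ j ∧ 2 ^ j ≤ b ∧ M * b * 2 ^ i ≤ 16 * (2 ^ j) ^ 2) ∧
      Tri c a b (2 ^ i) (2 ^ j) (↑F : Set Edg)) ≤ (D * K) * (((2 ^ j : ℕ) : ℝ) / b) ^ (1/8 : ℝ) := by
    intro j
    refine (pr_le_sum (B := fun i F =>
      (8 * a ≤ 2 ^ i ∧ 2 ^ i < 2 ^ j ∧ 2 ^ j ≤ b ∧ M * b * 2 ^ i ≤ 16 * (2 ^ j) ^ 2) ∧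
      Tri c a b (2 ^ i) (2 ^ j) (↑F : Set Edg)) _ _ fun F hF => hF).trans ?_
    refine (Finset.sum_le_sum fun i _ => hterm i j).trans ?_
    rw [← Finset.mul_sum, ← Finset.mul_sum]
    have g1 := hg (2 ^ j) Nat.one_le_two_pow
    rw [Nat.log_pow one_lt_two] at g1
    calc _ ≤ D * ((((2 ^ j : ℕ) : ℝ) / b) ^ (1/8 : ℝ) * K) :=
          mul_le_mul_of_nonneg_left (mul_le_mul_of_nonneg_left g1 (by positivity)) hD0
      _ = _ := by ring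
  refine (Finset.sum_le_sum fun j _ => hj j).trans ?_
  rw [← Finset.mul_sum]
  calc _ ≤ (D * K) * K := mul_le_mul_of_nonneg_left (hg b hb) (by positivity)
    _ = _ := by
      rw [hD]
      ring

/-! ### Second event: the core -/

/-- The second bad event. -/
def E2 (c : Vtx) (a N b : ℕ) (F : Set Edg) : Prop :=
  4 * N * a ≤ b ∧ Tri c a b (801 * a) (4 * N * a) F

lemma e2_of (hB : St_basic) (hr : St_restr) (hc : St_cnt) (hc' : St_cnt') (hNL : St_NL3)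
    {F : Set Edg} {c : Vtx} {a N b : ℕ} (ha : 1 ≤ a) (h8 : 8 * a < b) (hN : 201 ≤ N)
    (h : OC c a b 2 F) {σ : St} {T : ℕ} (hσ : σ ∈ LS c a b F) (hT : InLeg F c (8 * a) b σ T)
    (hL : ¬ CoreL F c (8 * a) N σ T) : E2 c a N b F := by
  unfold CoreL at hL
  push Not at hL
  obtain ⟨s, t, hst, htT, hs, ht⟩ := hL
  obtain ⟨T1, hT1⟩ := hσ
  have hTT := leT hr (by omega : a ≤ 8 * a) h8 hT1 hT
  have hy0 := leg_up hB h8 hT htT
  have h1 : 801 * a < 4 * N * a := Nat.mul_lt_mul_of_pos_right (by omega) (by omega)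
  have ht' : 2 * ((4 * N * a : ℕ) : ℤ) < lf c (face (orb F σ t)) := by
    refine lt_of_eq_of_lt ?_ ht
    push_cast
    ring
  have h2 : 4 * N * a ≤ b := by
    have : 2 * ((4 * N * a : ℕ) : ℤ) < 2 * (b : ℤ) + 1 := lt_of_lt_of_le ht' hy0
    omega
  refine ⟨h2, tri_of hr hc hc' hNL ha (by omega) h hT1 (by omega) h1 h2 hst (htT.trans hTT) ?_ ht'⟩
  push_cast at hs ⊢
  omega

lemma e2_pr {C1 C3 : ℝ} (h1 : 0 < C1) (h3 : 0 < C3) (hF : F2' C1) (hU : U3 C3) :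
    ∃ C : ℝ, 0 < C ∧ ∀ (c : Vtx) (a N b : ℕ) (S : Finset Edg), 1 ≤ a → 201 ≤ N → 1 ≤ b →
      GeF c a b ⊆ S → Pr (fun _ => (1/2 : ℝ)) S (fun F => E2 c a N b (↑F : Set Edg)) ≤
        C * (N : ℝ) ^ (-(1/4) : ℝ) * ((a : ℝ) / b) ^ (5/4 : ℝ) := by
  refine ⟨C1 * C1 * C3 * (4 ^ (5/4 : ℝ) * (801 / 4) ^ (1/4 : ℝ)), by positivity, ?_⟩
  intro c a N b S ha hN hb hS
  have hN0 : (0 : ℝ) ≤ (N : ℝ) ^ (-(1/4) : ℝ) := by positivity
  unfold E2
  by_cases hcond : 4 * N * a ≤ b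
  · have h4 : 801 * a < 4 * N * a := Nat.mul_lt_mul_of_pos_right (by omega) (by omega)
    have t2 := tri_pr h1 h3 hF hU (c := c) (S := S) ha (by omega : 2 * a ≤ 801 * a) h4 hcond hS
    rw [numE2 ha (by omega : 1 ≤ N)] at t2
    refine (pr_mono fun F hF => hF.2).trans (t2.trans (le_of_eq ?_))
    ring
  · exact (pr_false fun F hF => hcond hF.1).trans (by positivity)

/-! ### Third event: two crossings near each other -/

/-- The third bad event. -/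
def E3 (c : Vtx) (a b r : ℕ) (F : Set Edg) : Prop :=
  ∃ z ∈ Zs c (8 * a) r, OC c a (Lz c z - Lz c z / 8 - 1) 2 F ∧ OC z 15 (Lz c z / 8) 3 F ∧
    OC c (Lz c z + Lz c z / 8 + 1) b 2 F

lemma e3_of (hB : St_basic) (hr : St_restr) (hTL : St_TL) (hc' : St_cnt') {F : Set Edg} {c : Vtx}
    {a b r : ℕ} (ha : 240 ≤ a) (h8 : 8 * a < b) (hrb : 18 * r ≤ 5 * b) {σ ρ : St}
    {T T' T1 T1' s t : ℕ} (hT1 : InLeg F c a b σ T1) (hT1' : InLeg F c a b ρ T1')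
    (hT : InLeg F c (8 * a) b σ T) (hTT : T ≤ T1) (hTT' : T' ≤ T1') (hne : σ ≠ ρ) (hs : s < T)
    (ht : t < T') (hxr : lv c (src (ae (orb F σ s))) ≤ r)
    (hd : lv (src (ae (orb F σ s))) (src (ae (orb F ρ t))) < 12) : E3 c a b r F := by
  obtain ⟨-, -, -, hG, -⟩ := hB F c (8 * a) b σ T h8 hT
  obtain ⟨⟨h1, h2⟩, -⟩ := hG s hs
  set z := src (ae (orb F σ s)) with hz
  have hL := Lz_eq c z
  have hL1 : 8 * a ≤ Lz c z := by
    have : ((8 * a : ℕ) : ℤ) ≤ ((Lz c z : ℕ) : ℤ) := by rw [hL]; exact h1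
    exact_mod_cast this
  have hL2 : Lz c z ≤ r := by omega
  refine ⟨z, mem_Zs.2 ⟨h1, hxr⟩, ?_, ?_, ?_⟩
  · exact oc_two hr hc' le_rfl (by omega) (by omega) hT1 hT1' hne
  · refine hTL F c a b σ ρ T1 T1' z 13 (Lz c z / 8) (by omega) (by omega) hT1 hT1'
      hne (by omega) (by omega) (by omega) ⟨s, by omega, ?_⟩ ⟨t, by omega, ?_⟩
    · have := lv_ae (orb F σ s)
      rw [← hz] at this
      exact this.trans (by norm_num)
    · have g1 := lv_ae (orb F ρ t)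
      have g2 := lv_tri z (src (ae (orb F ρ t))) (orb F ρ t).1
      push_cast
      omega
  · exact oc_two hr hc' (by omega) (by omega) le_rfl hT1 hT1' hne

lemma e3_pr (ho : St_OCt) {C1 CU : ℝ} (h1 : 0 < C1) (hCU : 0 < CU) (hF : F2' C1)
    (hU : ∀ n : ℕ, 1 ≤ n → Pr (fun _ => (1/2 : ℝ)) (boxE n)
      (fun F => Pool.Agent.H160R2.ML.KArm 3 (15 : ℕ) n (↑F : Set Edg)) ≤
        CU * (n : ℝ) ^ (-(35 / 12) : ℝ)) :
    ∃ C : ℝ, 0 < C ∧ ∀ (c : Vtx) (a b r : ℕ) (S : Finset Edg), 240 ≤ a → 8 * a < b →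
      18 * r ≤ 5 * b → GeF c a b ⊆ S →
      Pr (fun _ => (1/2 : ℝ)) S (fun F => E3 c a b r (↑F : Set Edg)) ≤
        C * (a : ℝ) ^ (-(1/4) : ℝ) * ((a : ℝ) / b) ^ (5/4 : ℝ) := by
  set D : ℝ := (1 / 2 : ℝ) ^ (-(4 / 3) : ℝ) * (1 / 2 : ℝ) ^ (-(4 / 3) : ℝ) *
        ((∑' x, gz x) * ∑' x, gz x) with hD
  have hD0 : 0 ≤ D := by
    have ht : 0 ≤ ∑' x, gz x := tsum_nonneg gz_nonneg
    positivity
  set k16 : ℝ := (1 / 16 : ℝ) ^ (-(35 / 12) : ℝ) with hk16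
  have hk : 0 < k16 := by positivity
  refine ⟨C1 * C1 * CU * k16 * 4 ^ (5/4 : ℝ) * (D + 1), by positivity, ?_⟩
  intro c a b r S ha h8 hrb hS
  have hab : (0 : ℝ) ≤ ((a : ℝ) / b) ^ (5/4 : ℝ) := by positivity
  have hpt : ∀ z ∈ Zs c (8 * a) r, Pr (fun _ => (1/2 : ℝ)) S (fun F =>
      OC c a (Lz c z - Lz c z / 8 - 1) 2 (↑F : Set Edg) ∧ OC z 15 (Lz c z / 8) 3 (↑F : Set Edg) ∧
      OC c (Lz c z + Lz c z / 8 + 1) b 2 (↑F : Set Edg)) ≤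
      (C1 * C1 * CU * k16 * 4 ^ (5/4 : ℝ) * ((a : ℝ) / b) ^ (5/4 : ℝ)) *
        ((Lz c z : ℕ) : ℝ) ^ (-(35 / 12) : ℝ) := by
    intro z hz
    obtain ⟨hz1, hz2⟩ := mem_Zs.1 hz
    have hL := Lz_eq c z
    have hL1 : 8 * a ≤ Lz c z := by
      have : ((8 * a : ℕ) : ℤ) ≤ ((Lz c z : ℕ) : ℤ) := by rw [hL]; exact hz1
      exact_mod_cast this
    have hL2 : Lz c z ≤ r := by omega
    have s1 : GeF c a (Lz c z - Lz c z / 8 - 1) ⊆ S := (GeF_mono le_rfl (by omega)).trans hS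
    have s2 : GeF z 15 (Lz c z / 8) ⊆ S := by
      refine Finset.Subset.trans ?_ hS
      intro e he
      rw [mem_GeF] at he ⊢
      have t1 := lv_tri c z (src e)
      have t2 := lv_tri c z (tgt e)
      have t3 := lv_tri c (src e) z
      have t4 := lv_tri c (tgt e) z
      rw [lv_symm (src e) z] at t3
      rw [lv_symm (tgt e) z] at t4
      omega
    have s3 : GeF c (Lz c z + Lz c z / 8 + 1) b ⊆ S := (GeF_mono (by omega) le_rfl).trans hS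
    have d13 : Disjoint (GeF c a (Lz c z - Lz c z / 8 - 1))
        (GeF c (Lz c z + Lz c z / 8 + 1) b) := disj (by omega)
    have d23 : Disjoint (GeF z 15 (Lz c z / 8)) (GeF c (Lz c z + Lz c z / 8 + 1) b) := by
      rw [Finset.disjoint_left]
      intro e g1 g2
      have t1 := lv_tri c z (src e)
      rw [mem_GeF] at g1 g2
      omega
    have d12 : Disjoint (GeF c a (Lz c z - Lz c z / 8 - 1)) (GeF z 15 (Lz c z / 8)) := by
      rw [Finset.disjoint_left]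
      intro e g1 g2
      have t3 := lv_tri c (src e) z
      rw [lv_symm (src e) z] at t3
      rw [mem_GeF] at g1 g2
      omega
    have e := pr3 s1 s2 s3 d12 d13 d23 (loc_oc c a (Lz c z - Lz c z / 8 - 1) 2)
      (loc_oc z 15 (Lz c z / 8) 3) (loc_oc c (Lz c z + Lz c z / 8 + 1) b 2)
    have b1 : Pr (fun _ => (1/2 : ℝ)) S
        (fun F => OC c a (Lz c z - Lz c z / 8 - 1) 2 (↑F : Set Edg)) ≤
        C1 * ((a : ℝ) / ((Lz c z - Lz c z / 8 - 1 : ℕ) : ℝ)) ^ (5/4 : ℝ) :=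
      (pr_mono fun F hF _ => hF).trans
        (hF c a (Lz c z - Lz c z / 8 - 1) S (by omega) (by omega) s1)
    have b3 : Pr (fun _ => (1/2 : ℝ)) S
        (fun F => OC c (Lz c z + Lz c z / 8 + 1) b 2 (↑F : Set Edg)) ≤
        C1 * (((Lz c z + Lz c z / 8 + 1 : ℕ) : ℝ) / b) ^ (5/4 : ℝ) :=
      (pr_mono fun F hF _ => hF).trans
        (hF c (Lz c z + Lz c z / 8 + 1) b S (by omega) (by omega) s3)
    have b2 : Pr (fun _ => (1/2 : ℝ)) S (fun F => OC z 15 (Lz c z / 8) 3 (↑F : Set Edg)) ≤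
        CU * ((Lz c z / 8 : ℕ) : ℝ) ^ (-(35 / 12) : ℝ) := by
      rw [ho z 15 (Lz c z / 8) 3 _ (by omega) s2]
      exact hU (Lz c z / 8) (by omega)
    have b2' := b2.trans (mul_le_mul_of_nonneg_left (num2 (L := Lz c z) (by omega)) hCU.le)
    have n1 := numE3 (b := b) ha hL1 (by omega)
    rw [e]
    set x1 := ((a : ℝ) / ((Lz c z - Lz c z / 8 - 1 : ℕ) : ℝ)) ^ (5 / 4 : ℝ) with hx1
    set x3 := (((Lz c z + Lz c z / 8 + 1 : ℕ) : ℝ) / b) ^ (5 / 4 : ℝ) with hx3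
    set ell := ((Lz c z : ℕ) : ℝ) ^ (-(35 / 12) : ℝ) with hell
    have hx1n : 0 ≤ x1 := by positivity
    have hx3n : 0 ≤ x3 := by positivity
    have hl0 : 0 ≤ ell := by positivity
    have p2 := Pr_nonneg ok S (fun F => OC z 15 (Lz c z / 8) 3 (↑F : Set Edg))
    have p3 := Pr_nonneg ok S (fun F => OC c (Lz c z + Lz c z / 8 + 1) b 2 (↑F : Set Edg))
    calc _ ≤ (C1 * x1) * ((CU * (k16 * ell)) * (C1 * x3)) :=
          mul_le_mul b1 (mul_le_mul b2' b3 p3 (by positivity)) (mul_nonneg p2 p3) (by positivity)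
      _ = (C1 * C1 * CU * k16) * (x1 * x3) * ell := by ring
      _ ≤ (C1 * C1 * CU * k16) * (4 ^ (5 / 4 : ℝ) * ((a : ℝ) / b) ^ (5 / 4 : ℝ)) * ell :=
          mul_le_mul_of_nonneg_right (mul_le_mul_of_nonneg_left n1 (by positivity)) hl0
      _ = _ := by ring
  refine (pr_le_sum (B := fun z F => OC c a (Lz c z - Lz c z / 8 - 1) 2 (↑F : Set Edg) ∧
    OC z 15 (Lz c z / 8) 3 (↑F : Set Edg) ∧ OC c (Lz c z + Lz c z / 8 + 1) b 2 (↑F : Set Edg))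
    (Zs c (8 * a) r) S fun F hF => hF).trans ?_
  refine (Finset.sum_le_sum hpt).trans ?_
  rw [← Finset.mul_sum]
  have n4 := num4 (c := c) (a := 8 * a) (b := r) (by omega)
  have n5 : ((8 * a : ℕ) : ℝ) ^ (-(1 / 4) : ℝ) ≤ (a : ℝ) ^ (-(1 / 4) : ℝ) := by
    have ha0 : (0 : ℝ) < a := by exact_mod_cast (by omega : 0 < a)
    refine Real.rpow_le_rpow_of_nonpos ha0 ?_ (by norm_num)
    push_cast
    linarith
  rw [← hD] at n4
  have n6 : ∑ z ∈ Zs c (8 * a) r, ((Lz c z : ℕ) : ℝ) ^ (-(35 / 12) : ℝ) ≤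
      (a : ℝ) ^ (-(1 / 4) : ℝ) * (D + 1) := by
    refine n4.trans ?_
    exact mul_le_mul n5 (by linarith) hD0 (by positivity)
  calc _ ≤ (C1 * C1 * CU * k16 * 4 ^ (5/4 : ℝ) * ((a : ℝ) / b) ^ (5/4 : ℝ)) *
        ((a : ℝ) ^ (-(1 / 4) : ℝ) * (D + 1)) := mul_le_mul_of_nonneg_left n6 (by positivity)
    _ = _ := by ring

/-! ### Fourth event: power separation -/

/-- The fourth bad event. -/
def E4 (c : Vtx) (a M M' B b : ℕ) (F : Set Edg) : Prop :=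
  ∃ k ∈ Finset.range (Nat.log 2 b + 1), ∃ m ∈ Finset.Icc 128 256,
    (12 ≤ qu M' B b (m * 2 ^ k) ∧ 4 * (m * 2 ^ k) ≤ b ∧ 2 * au a M b (m * 2 ^ k) ≤ m * 2 ^ k) ∧
    OC c a (au a M b (m * 2 ^ k) - 1) 2 F ∧
    App F c (au a M b (m * 2 ^ k)) b (m * 2 ^ k) (qu M' B b (m * 2 ^ k) + 2)

lemma au_le {a M b u : ℕ} (hM : 1 ≤ M) (hb : 1 ≤ b) (h16 : 16 * a ≤ u) (hub : u ≤ b) :
    2 * au a M b u ≤ u := by
  have h1 : u ^ 2 / (2 * M * b) * (2 * M * b) ≤ u ^ 2 := Nat.div_mul_le_self _ _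
  have h2 : u ^ 2 ≤ u * (M * b) := by
    calc u ^ 2 = u * u := sq u
      _ ≤ u * (M * b) := Nat.mul_le_mul_left _ (hub.trans (Nat.le_mul_of_pos_left b hM))
  have h3 : (2 * (u ^ 2 / (2 * M * b))) * (M * b) ≤ u * (M * b) := by
    calc (2 * (u ^ 2 / (2 * M * b))) * (M * b) = u ^ 2 / (2 * M * b) * (2 * M * b) := by ring
      _ ≤ u * (M * b) := h1.trans h2
  have h4 : 2 * (u ^ 2 / (2 * M * b)) ≤ u := Nat.le_of_mul_le_mul_right h3 (by positivity)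
  unfold au
  generalize u ^ 2 / (2 * M * b) = q at h4
  omega

lemma lean_in {F : Set Edg} {c : Vtx} {a M b : ℕ} {σ : St} {T s1 u : ℕ} (h8 : 8 * a < b)
    (hM : 1 ≤ M) (hT : InLeg F c (8 * a) b σ T) (hL : LeanP F c M b σ T) (hs1 : s1 < T)
    (hu : (u : ℤ) < lf c (face (orb F σ s1))) (s : ℕ) (hs : s ≤ s1) :
    2 * ((au a M b u : ℕ) : ℤ) < lf c (face (orb F σ s)) := by
  rcases max_choice (8 * a) (u ^ 2 / (2 * M * b)) with h | h
  · unfold au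
    rw [h]
    exact leg_low h8 hT (by omega)
  · unfold au
    rw [h]
    by_contra hlt
    push Not at hlt
    have h1 := hL s s1 hs hs1.le
    have h2 : u ^ 2 / (2 * M * b) * (2 * M * b) ≤ u ^ 2 := Nat.div_mul_le_self _ _
    set q : ℕ := u ^ 2 / (2 * M * b) with hq
    have h2' : (q : ℤ) * (2 * M * b) ≤ (u : ℤ) ^ 2 := by exact_mod_cast h2
    have h3 : (M : ℤ) * b * lf c (face (orb F σ s)) ≤ (M : ℤ) * b * (2 * q) :=
      mul_le_mul_of_nonneg_left hlt (by positivity)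
    have h4 : (u : ℤ) ^ 2 < (lf c (face (orb F σ s1))) ^ 2 :=
      pow_lt_pow_left₀ hu (by positivity) (by norm_num)
    nlinarith

lemma orb_congr {F G : Set Edg} {σ : St} {T : ℕ}
    (h : ∀ s < T, (ae (orb F σ s) ∈ F ↔ ae (orb F σ s) ∈ G)) (s : ℕ) (hs : s ≤ T) :
    orb G σ s = orb F σ s := by
  induction s with
  | zero => rfl
  | succ n ih =>
    have ih' := ih (by omega)
    rw [orb_succ, orb_succ, ih']
    unfold nxt
    have := h n (by omega)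
    by_cases h1 : ae (orb F σ n) ∈ F
    · rw [if_pos h1, if_pos (this.1 h1)]
    · rw [if_neg h1, if_neg fun h2 => h1 (this.2 h2)]

lemma leg_congr (hB : St_basic) (hl : St_loc) {F G : Set Edg} {c : Vtx} {a b : ℕ} (hab : a < b)
    (h : F ∩ Ge c a b = G ∩ Ge c a b) {σ : St} {T : ℕ} (hT : InLeg F c a b σ T) :
    InLeg G c a b σ T ∧ ∀ s ≤ T, orb G σ s = orb F σ s := by
  refine ⟨(hl F G c a b hab h σ T hT).1, orb_congr fun s hs => ?_⟩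
  obtain ⟨-, -, -, hG, -⟩ := hB F c a b σ T hab hT
  have hm := hG s hs
  constructor
  · intro h1
    have : ae (orb F σ s) ∈ G ∩ Ge c a b := h ▸ ⟨h1, hm⟩
    exact this.1
  · intro h1
    have : ae (orb F σ s) ∈ F ∩ Ge c a b := h.symm ▸ ⟨h1, hm⟩
    exact this.1

lemma app_imp (hB : St_basic) (hl : St_loc) {F G : Set Edg} {c : Vtx} {a b u w : ℕ} (hab : a < b)
    (h : F ∩ Ge c a b = G ∩ Ge c a b) (hA : App F c a b u w) : App G c a b u w := by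
  obtain ⟨σ, T, ρ, T', s, t, h1, h2, h3, h4, h5, h6, h7, h8⟩ := hA
  obtain ⟨g1, g2⟩ := leg_congr hB hl hab h h1
  obtain ⟨g3, g4⟩ := leg_congr hB hl hab h h2
  refine ⟨σ, T, ρ, T', s, t, g1, g3, h3, h4, h5, ?_, ?_, ?_⟩
  · rw [g2 s h4]
    exact h6
  · rw [g2 s h4]
    exact h7
  · rw [g2 s h4, g4 t h5]
    exact h8

lemma loc_app (hB : St_basic) (hl : St_loc) (c : Vtx) {a b : ℕ} (u w : ℕ) (hab : a < b) :
    Loc (GeF c a b) (fun F => ind (App (↑F : Set Edg) c a b u w)) :=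
  Loc_of_Ge (f := fun F => ind (App F c a b u w)) fun _ _ h =>
    ind_congr ⟨app_imp hB hl hab h, app_imp hB hl hab h.symm⟩

/-- The bound for two crossings near each other. -/
def Ap (CA κ : ℝ) : Prop := ∀ (c : Vtx) (a b u w : ℕ)
  (S : Finset Edg), 1 ≤ a → 2 * a ≤ u → 4 * u ≤ b → 1 ≤ w → GeF c a b ⊆ S →
  Pr (fun _ => (1/2 : ℝ)) S (fun F => App (↑F : Set Edg) c a b u w) ≤ CA * ((w : ℝ) / u) ^ κ

lemma e4_pr (hB : St_basic) (hl : St_loc) {C1 CA κ : ℝ} (h1 : 0 < C1) (hCA : 0 < CA)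
    (hκ : 0 < κ) (hF : F2' C1) (hA : Ap CA κ) {B : ℕ} (hB2 : 2 ≤ B)
    (hBκ : 7 / 2 ≤ κ * (B - 1)) (M : ℕ) (hM : 1 ≤ M) :
    ∃ C : ℝ, 0 < C ∧ ∀ (c : Vtx) (a M' b : ℕ) (S : Finset Edg), 1 ≤ a → 1 ≤ M' → 1 ≤ b →
      GeF c a b ⊆ S → Pr (fun _ => (1/2 : ℝ)) S (fun F => E4 c a M M' B b (↑F : Set Edg)) ≤
        C * (M' : ℝ) ^ (-κ) * ((a : ℝ) / b) ^ (5/4 : ℝ) := by
  obtain ⟨K, hK, hg⟩ := geo (κ := 1) (by norm_num)
  have hM0 : (0 : ℝ) < M := by exact_mod_cast (by omega : 0 < M)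
  refine ⟨C1 * CA * (8 * (M : ℝ)) ^ (5 / 4 : ℝ) * (2 * 3 ^ B : ℝ) ^ κ * (129 * 256 * K),
    by positivity, ?_⟩
  intro c a M' b S ha hM' hb hS
  have hM'0 : (0 : ℝ) < M' := by exact_mod_cast (by omega : 0 < M')
  have hb0 : (0 : ℝ) < b := by exact_mod_cast (by omega : 0 < b)
  set D : ℝ := C1 * CA * (8 * (M : ℝ)) ^ (5 / 4 : ℝ) * (2 * 3 ^ B : ℝ) ^ κ * (M' : ℝ) ^ (-κ) *
    ((a : ℝ) / b) ^ (5/4 : ℝ) with hD
  have hD0 : 0 ≤ D := by positivity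
  have hterm : ∀ k : ℕ, ∀ m ∈ Finset.Icc 128 256, Pr (fun _ => (1/2 : ℝ)) S (fun F =>
      (12 ≤ qu M' B b (m * 2 ^ k) ∧ 4 * (m * 2 ^ k) ≤ b ∧
        2 * au a M b (m * 2 ^ k) ≤ m * 2 ^ k) ∧
      OC c a (au a M b (m * 2 ^ k) - 1) 2 (↑F : Set Edg) ∧
      App (↑F : Set Edg) c (au a M b (m * 2 ^ k)) b (m * 2 ^ k) (qu M' B b (m * 2 ^ k) + 2)) ≤
      D * (256 * (((2 ^ k : ℕ) : ℝ) / b)) := by
    intro k m hm
    rw [Finset.mem_Icc] at hm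
    by_cases hcond : 12 ≤ qu M' B b (m * 2 ^ k) ∧ 4 * (m * 2 ^ k) ≤ b ∧
        2 * au a M b (m * 2 ^ k) ≤ m * 2 ^ k
    · obtain ⟨k1, k2, k3⟩ := hcond
      have hp : 0 < 2 ^ k := by positivity
      have hu : 1 ≤ m * 2 ^ k := Nat.mul_pos (by omega) hp
      have hu2 : ((m * 2 ^ k : ℕ) : ℝ) / b ≤ 256 * (((2 ^ k : ℕ) : ℝ) / b) := by
        rw [← mul_div_assoc]
        refine div_le_div_of_nonneg_right ?_ hb0.le
        exact_mod_cast Nat.mul_le_mul_right (2 ^ k) hm.2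
      generalize hun : m * 2 ^ k = u at k1 k2 k3 hu hu2 ⊢
      have ha8 : 8 * a ≤ au a M b u := le_max_left _ _
      have hab' : au a M b u < b := by omega
      have s1 : GeF c a (au a M b u - 1) ⊆ S := (GeF_mono le_rfl (by omega)).trans hS
      have s2 : GeF c (au a M b u) b ⊆ S := (GeF_mono (by omega) le_rfl).trans hS
      have e := pr2 s1 s2 (disj (by omega)) (loc_oc c a (au a M b u - 1) 2)
        (loc_app hB hl c u (qu M' B b u + 2) hab')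
      have b1 : Pr (fun _ => (1/2 : ℝ)) S
          (fun F => OC c a (au a M b u - 1) 2 (↑F : Set Edg)) ≤
          C1 * ((a : ℝ) / ((au a M b u - 1 : ℕ) : ℝ)) ^ (5/4 : ℝ) :=
        (pr_mono fun F hF _ => hF).trans (hF c a (au a M b u - 1) S ha (by omega) s1)
      have b2 := hA c (au a M b u) b u (qu M' B b u + 2) S (by omega) k3 k2 (by omega) s2
      have n1 := numE4a (a := a) (M := M) (b := b) (u := u) ha hM hb hu
      have n2 := numE4b (B := B) hκ hM' hb hu hB2 k1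
      have n3 := numE4c (B := B) (κ := κ) hb hu (by omega : u ≤ b) hBκ
      have p2 := Pr_nonneg ok S
        (fun F => App (↑F : Set Edg) c (au a M b u) b u (qu M' B b u + 2))
      have b1' := b1.trans (mul_le_mul_of_nonneg_left n1 h1.le)
      have b2' := b2.trans (mul_le_mul_of_nonneg_left n2 hCA.le)
      refine (pr_mono fun F hF => hF.2).trans ?_
      rw [e]
      refine (mul_le_mul b1' b2' p2 (by positivity)).trans ?_
      calc _ = D * (((b : ℝ) / u) ^ (5 / 2 : ℝ) * ((u : ℝ) / b) ^ (κ * (B - 1))) := by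
            rw [hD]
            ring
        _ ≤ D * ((u : ℝ) / b) := mul_le_mul_of_nonneg_left n3 hD0
        _ ≤ _ := mul_le_mul_of_nonneg_left hu2 hD0
    · exact (pr_false fun F hF => hcond hF.1).trans (by positivity)
  unfold E4
  refine (pr_le_sum (B := fun k F => ∃ m ∈ Finset.Icc 128 256,
    (12 ≤ qu M' B b (m * 2 ^ k) ∧ 4 * (m * 2 ^ k) ≤ b ∧ 2 * au a M b (m * 2 ^ k) ≤ m * 2 ^ k) ∧
    OC c a (au a M b (m * 2 ^ k) - 1) 2 (↑F : Set Edg) ∧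
    App (↑F : Set Edg) c (au a M b (m * 2 ^ k)) b (m * 2 ^ k) (qu M' B b (m * 2 ^ k) + 2))
    _ _ fun F hF => hF).trans ?_
  have hk : ∀ k : ℕ, Pr (fun _ => (1/2 : ℝ)) S (fun F => ∃ m ∈ Finset.Icc 128 256,
    (12 ≤ qu M' B b (m * 2 ^ k) ∧ 4 * (m * 2 ^ k) ≤ b ∧ 2 * au a M b (m * 2 ^ k) ≤ m * 2 ^ k) ∧
    OC c a (au a M b (m * 2 ^ k) - 1) 2 (↑F : Set Edg) ∧
    App (↑F : Set Edg) c (au a M b (m * 2 ^ k)) b (m * 2 ^ k) (qu M' B b (m * 2 ^ k) + 2)) ≤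
    (D * (129 * 256)) * (((2 ^ k : ℕ) : ℝ) / b) ^ (1 : ℝ) := by
    intro k
    refine (pr_le_sum (B := fun m F =>
      (12 ≤ qu M' B b (m * 2 ^ k) ∧ 4 * (m * 2 ^ k) ≤ b ∧
        2 * au a M b (m * 2 ^ k) ≤ m * 2 ^ k) ∧
      OC c a (au a M b (m * 2 ^ k) - 1) 2 (↑F : Set Edg) ∧
      App (↑F : Set Edg) c (au a M b (m * 2 ^ k)) b (m * 2 ^ k) (qu M' B b (m * 2 ^ k) + 2))
      _ _ fun F hF => hF).trans ?_
    refine (Finset.sum_le_sum fun m hm => hterm k m hm).trans ?_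
    rw [Finset.sum_const, Nat.card_Icc, Real.rpow_one, nsmul_eq_mul]
    refine le_of_eq ?_
    push_cast
    ring
  refine (Finset.sum_le_sum fun k _ => hk k).trans ?_
  rw [← Finset.mul_sum]
  calc _ ≤ (D * (129 * 256)) * K := mul_le_mul_of_nonneg_left (hg b hb) (by positivity)
    _ = _ := by
      rw [hD]
      ring

lemma e4_of (hB : St_basic) (hr : St_restr) (hc' : St_cnt') {F : Set Edg} {c : Vtx}
    {a M M' B b r : ℕ} (ha : 240 ≤ a) (h8 : 8 * a < b) (hM : 1 ≤ M) (hM' : 8 ≤ M') (hB2 : 2 ≤ B)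
    (hb : 2000 ≤ b) (hbB : (48 * a) ^ B < b) (hrb : 18 * r ≤ 5 * b) {σ ρ : St}
    {T T' T1 T1' s t : ℕ} (hT1 : InLeg F c a b σ T1) (hT1' : InLeg F c a b ρ T1')
    (hT : InLeg F c (8 * a) b σ T) (hT' : InLeg F c (8 * a) b ρ T') (hne : σ ≠ ρ) (hs : s < T)
    (ht : t < T') (hL : LeanP F c M b σ T) (hL' : LeanP F c M b ρ T')
    (hxr : lv c (src (ae (orb F σ s))) ≤ r)
    (hd : 12 ≤ lv (src (ae (orb F σ s))) (src (ae (orb F ρ t))))
    (hmax : (M' : ℤ) * (b : ℤ) ^ (B - 1) * lv (src (ae (orb F σ s))) (src (ae (orb F ρ t))) <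
      (max (lv c (src (ae (orb F σ s)))) (lv c (src (ae (orb F ρ t))))) ^ B) :
    E4 c a M M' B b F := by
  obtain ⟨-, -, -, hG, -⟩ := hB F c (8 * a) b σ T h8 hT
  obtain ⟨-, -, -, hG', -⟩ := hB F c (8 * a) b ρ T' h8 hT'
  obtain ⟨⟨g1, g2⟩, -⟩ := hG s hs
  obtain ⟨⟨g3, g4⟩, -⟩ := hG' t ht
  have a1 := lv_ae (orb F σ s)
  have a2 := lv_ae (orb F ρ t)
  set z := src (ae (orb F σ s)) with hz
  set z' := src (ae (orb F ρ t)) with hz'
  have hX := Lz_eq c z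
  have hX' := Lz_eq c z'
  have hD := Lz_eq z z'
  have hl := Lz_eq c (orb F σ s).1
  have hl' := Lz_eq c (orb F ρ t).1
  -- triangle inequalities
  have t1 := lv_tri c z z'
  have t1' := lv_tri c z' z
  rw [lv_symm z' z] at t1'
  have t2 := lv_tri c z (orb F σ s).1
  have t3 := lv_tri c (orb F σ s).1 z
  rw [lv_symm (orb F σ s).1 z] at t3
  have t4 := lv_tri c z' (orb F ρ t).1
  have t5 := lv_tri c (orb F ρ t).1 z'
  rw [lv_symm (orb F ρ t).1 z'] at t5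
  have t6 := lv_tri (orb F σ s).1 z (orb F ρ t).1
  have t7 := lv_tri z z' (orb F ρ t).1
  rw [lv_symm (orb F σ s).1 z] at t6
  have f1 := (lf_lv c (orb F σ s)).1
  have f2 := (lf_lv c (orb F ρ t)).1
  rw [← hX] at g1 g2 t1 t1' t2 t3 hxr
  rw [← hX'] at g3 g4 t1 t1' t4 t5
  rw [← hD] at hd t1 t1' t7
  rw [← hl] at t2 t3 f1
  rw [← hl'] at t4 t5 f2
  rw [← hX, ← hX', ← hD] at hmax
  generalize Lz c z = X at *
  generalize Lz c z' = X' at *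
  generalize Lz z z' = D at *
  generalize hln : Lz c (orb F σ s).1 = l at *
  generalize Lz c (orb F ρ t).1 = l' at *
  have hmax' : M' * b ^ (B - 1) * D < (max X X') ^ B := by exact_mod_cast hmax
  have hg1 : 8 * a ≤ X := by
    have : ((8 * a : ℕ) : ℤ) ≤ (X : ℤ) := g1
    exact_mod_cast this
  obtain ⟨m, hm⟩ : ∃ m, m = max X X' := ⟨_, rfl⟩
  rw [← hm] at hmax'
  have hmb : m ≤ b := by omega
  have hb0 : 0 < b := by omega
  have hMD : M' * D < m := by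
    have h1 : m ^ B ≤ b ^ (B - 1) * m := by
      calc m ^ B = m ^ (B - 1) * m := by
            rw [← pow_succ]
            congr 1
            omega
        _ ≤ b ^ (B - 1) * m := Nat.mul_le_mul_right _ (Nat.pow_le_pow_left hmb _)
    have h2 : b ^ (B - 1) * (M' * D) < b ^ (B - 1) * m := by
      calc b ^ (B - 1) * (M' * D) = M' * b ^ (B - 1) * D := by ring
        _ < b ^ (B - 1) * m := lt_of_lt_of_le hmax' h1
    exact Nat.lt_of_mul_lt_mul_left h2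
  have h8D : 8 * D < m := lt_of_le_of_lt (Nat.mul_le_mul_right _ hM') hMD
  obtain ⟨k, hk, n, hn, hu1, hu2, hu3⟩ := scale (l := l) (r := r) (b := b) (by omega) (by omega)
    hrb hb
  refine ⟨k, hk, n, hn, ?_⟩
  generalize n * 2 ^ k = u at hu1 hu2 hu3 ⊢
  have h3u : m ≤ 3 * u := by omega
  have hbp : 0 < b ^ (B - 1) := by positivity
  have hqD : D ≤ qu M' B b u := by
    unfold qu
    rw [Nat.le_div_iff_mul_le (by positivity)]
    calc D * (M' * b ^ (B - 1)) = M' * b ^ (B - 1) * D := by ring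
      _ ≤ m ^ B := hmax'.le
      _ ≤ (3 * u) ^ B := Nat.pow_le_pow_left h3u _
  have hD12 : 12 ≤ D := by omega
  have hu16 : 16 * a ≤ u := by
    by_contra hlt
    have k1 : (3 * u) ^ B ≤ (48 * a) ^ B := Nat.pow_le_pow_left (by omega) _
    have k2 : b ≤ b ^ (B - 1) := Nat.le_self_pow (by omega) b
    have k3 : M' * b ^ (B - 1) * D < (3 * u) ^ B :=
      lt_of_lt_of_le hmax' (Nat.pow_le_pow_left h3u _)
    have k4 : b ^ (B - 1) ≤ M' * b ^ (B - 1) * D := by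
      calc b ^ (B - 1) = 1 * b ^ (B - 1) * 1 := by ring
        _ ≤ M' * b ^ (B - 1) * D :=
          Nat.mul_le_mul (Nat.mul_le_mul_right _ (by omega)) (by omega)
    omega
  have hau := au_le (a := a) (b := b) hM (by omega) hu16 (by omega : u ≤ b)
  have ha8 : 8 * a ≤ au a M b u := le_max_left _ _
  have hfσ : (u : ℤ) < lf c (face (orb F σ s)) := by omega
  have hfρ : (u : ℤ) < lf c (face (orb F ρ t)) := by omega
  obtain ⟨U, hU, hsU⟩ := in_of hr ha8 (by omega) hT (lean_in h8 hM hT hL hs hfσ)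
  obtain ⟨U', hU', htU'⟩ := in_of hr ha8 (by omega) hT' (lean_in h8 hM hT' hL' ht hfρ)
  refine ⟨⟨by omega, hu3, hau⟩, oc_two hr hc' le_rfl (by omega) (by omega) hT1 hT1' hne, ?_⟩
  refine ⟨σ, U, ρ, U', s, t, hU, hU', hne, hsU, htU', ?_, ?_, ?_⟩
  · rw [← hl]
    exact_mod_cast hu1
  · rw [← hl]
    exact_mod_cast hu2
  · push_cast
    omega

/-! ### The theorem -/

lemma bad_of (hB : St_basic) (hr : St_restr) (hc : St_cnt) (hc' : St_cnt') (hTL : St_TL)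
    (hNL : St_NL3) {F : Set Edg} {c : Vtx} {a M M' B N b r : ℕ} (ha : 240 ≤ a) (h8 : 8 * a < b)
    (hM : 16 ≤ M) (hM' : 8 ≤ M') (hB2 : 2 ≤ B) (hN : 201 ≤ N)
    (hb : 2000 ≤ b) (hbB : (48 * a) ^ B < b) (hrb : 18 * r ≤ 5 * b)
    (h : OC c a b 2 F) (hbad : ¬ AllG M M' B N c a b r F) :
    E1 c a M b F ∨ E2 c a N b F ∨ E3 c a b r F ∨ E4 c a M M' B b F := by
  by_cases hE1 : E1 c a M b F
  · exact Or.inl hE1
  have hlean : ∀ σ T, σ ∈ LS c a b F → InLeg F c (8 * a) b σ T → LeanP F c M b σ T := by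
    intro σ T h1 h2
    by_contra h3
    exact hE1 (e1_of hB hr hc hc' hNL (by omega) h8 hM h h1 h2 h3)
  unfold AllG at hbad
  push Not at hbad
  obtain ⟨σ, T, hσ, hT, hno⟩ := hbad
  have hL := hlean σ T hσ hT
  by_cases hC : CoreL F c (8 * a) N σ T
  · obtain ⟨ρ, T', hρ, hT', hne, hsep⟩ := hno hL hC
    unfold SepP at hsep
    push Not at hsep
    obtain ⟨e, he, e', he', hr1, hsep⟩ := hsep
    obtain ⟨s, hs, rfl⟩ := mem_Exm.1 he
    obtain ⟨t, ht, rfl⟩ := mem_Exm.1 he'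
    have hL' := hlean ρ T' hρ hT'
    obtain ⟨T1, hT1⟩ := hσ
    obtain ⟨T1', hT1'⟩ := hρ
    have hTT := leT hr (by omega : a ≤ 8 * a) h8 hT1 hT
    have hTT' := leT hr (by omega : a ≤ 8 * a) h8 hT1' hT'
    right
    right
    rcases hr1 with hr1 | hr1
    · by_cases hd : 12 ≤ lv (src (ae (orb F σ s))) (src (ae (orb F ρ t)))
      · exact Or.inr (e4_of hB hr hc' ha h8 (by omega) hM' hB2 hb hbB hrb hT1 hT1' hT hT' hne hs ht
          hL hL' hr1 hd (hsep hd))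
      · exact Or.inl (e3_of hB hr hTL hc' ha h8 hrb hT1 hT1' hT hTT hTT' hne hs ht hr1
          (by omega))
    · by_cases hd : 12 ≤ lv (src (ae (orb F σ s))) (src (ae (orb F ρ t)))
      · have h9 := hsep hd
        rw [lv_symm (src (ae (orb F σ s)))] at h9 hd
        rw [max_comm] at h9
        exact Or.inr (e4_of hB hr hc' ha h8 (by omega) hM' hB2 hb hbB hrb hT1' hT1 hT' hT hne.symm
          ht hs hL' hL hr1 hd h9)
      · rw [lv_symm (src (ae (orb F σ s)))] at hd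
        exact Or.inl (e3_of hB hr hTL hc' ha h8 hrb hT1' hT1 hT' hTT' hTT hne.symm ht hs hr1
          (by omega))
  · exact Or.inr (Or.inl (e2_of hB hr hc hc' hNL (by omega) h8 hN h hσ hT hC))

theorem sept0 (hB : St_basic) (hr : St_restr) (hl : St_loc) (hc : St_cnt) (hc' : St_cnt')
    (ho : St_OCt) (hTL : St_TL) (hF2 : St_F2) (hU : St_U32) (hNL : St_NL3) (hA : St_APP)
    (hupp : ∃ C : ℝ, 0 < C ∧ ∀ n : ℕ, 1 ≤ n → Pr (fun _ => (1/2 : ℝ)) (boxE n)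
      (fun F => Pool.Agent.H160R2.ML.KArm 3 (15 : ℕ) n (↑F : Set Edg)) ≤
        C * (n : ℝ) ^ (-(35 / 12) : ℝ)) : St_SEPT := by
  obtain ⟨C1, hC1, hF⟩ := f2' hF2
  obtain ⟨C3, hC3, hU3⟩ := hU
  obtain ⟨CU, hCU, hUU⟩ := hupp
  obtain ⟨CA, κ, hCA, hκ, -, hAp⟩ := hA
  obtain ⟨K1, hK1, hE1⟩ := e1_pr hC1 hC3 hF hU3
  obtain ⟨K2, hK2, hE2⟩ := e2_pr hC1 hC3 hF hU3
  obtain ⟨K3, hK3, hE3⟩ := e3_pr ho hC1 hCU hF hUU
  -- the exponent
  obtain ⟨B0, hB0⟩ := exists_nat_ge (7 / 2 / κ)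
  have hBκ : 7 / 2 ≤ κ * (((B0 + 2 : ℕ) : ℝ) - 1) := by
    have h1 : 7 / 2 ≤ κ * B0 := by
      rw [div_le_iff₀ hκ] at hB0
      linarith
    push_cast
    nlinarith
  refine ⟨B0 + 2, by omega, ?_⟩
  intro ε hε
  have hε4 : 0 < ε / 4 := by positivity
  obtain ⟨N3, hN3⟩ := small K3 (κ := 1/4) (by norm_num) hε4
  obtain ⟨N1, hN1⟩ := small K1 (κ := 1/8) (by norm_num) hε4
  obtain ⟨N2, hN2⟩ := small K2 (κ := 1/4) (by norm_num) hε4
  obtain ⟨K4, hK4, hE4⟩ := e4_pr hB hl hC1 hCA hκ hF hAp (B := B0 + 2) (by omega) hBκ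
    (max 16 N1) (le_max_of_le_left (by norm_num))
  obtain ⟨N4, hN4⟩ := small K4 hκ hε4
  refine ⟨max 240 N3, max 16 N1, max 8 N4, max 201 N2,
    2000 + 8 * max 240 N3 + (48 * max 240 N3) ^ (B0 + 2) + 1, le_max_of_le_left (by norm_num),
    le_max_of_le_left (by norm_num), le_max_of_le_left (by norm_num),
    le_max_of_le_left (by norm_num), ?_⟩
  intro c b r S hb hrb hS
  have ha : 240 ≤ max 240 N3 := le_max_left _ _
  have hM : 16 ≤ max 16 N1 := le_max_left _ _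
  have hM' : 8 ≤ max 8 N4 := le_max_left _ _
  have hN : 201 ≤ max 201 N2 := le_max_left _ _
  have k1 := hN3 (max 240 N3) (le_max_right _ _)
  have k2 := hN1 (max 16 N1) (le_max_right _ _)
  have k3 := hN4 (max 8 N4) (le_max_right _ _)
  have k4 := hN2 (max 201 N2) (le_max_right _ _)
  generalize max 240 N3 = a at *
  generalize max 16 N1 = M at *
  generalize max 8 N4 = M' at *
  generalize max 201 N2 = N at *
  have e1 := hE1 c a M b S (by omega) (by omega) (by omega) hS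
  have e2 := hE2 c a N b S (by omega) (by omega) (by omega) hS
  have e3 := hE3 c a b r S ha (by omega) hrb hS
  have e4 := hE4 c a M' b S (by omega) (by omega) (by omega) hS
  have hab : 0 ≤ ((a : ℝ) / b) ^ (5/4 : ℝ) := by positivity
  have u : Pr (fun _ => (1/2 : ℝ)) S (fun F => OC c a b 2 (↑F : Set Edg) ∧
      ¬ AllG M M' (B0 + 2) N c a b r (↑F : Set Edg)) ≤
      Pr (fun _ => (1/2 : ℝ)) S (fun F => E1 c a M b (↑F : Set Edg)) +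
      (Pr (fun _ => (1/2 : ℝ)) S (fun F => E2 c a N b (↑F : Set Edg)) +
      (Pr (fun _ => (1/2 : ℝ)) S (fun F => E3 c a b r (↑F : Set Edg)) +
      Pr (fun _ => (1/2 : ℝ)) S (fun F => E4 c a M M' (B0 + 2) b (↑F : Set Edg)))) := by
    refine (pr_mono (B := fun F : Finset Edg => E1 c a M b (↑F : Set Edg) ∨
      E2 c a N b (↑F : Set Edg) ∨ E3 c a b r (↑F : Set Edg) ∨
      E4 c a M M' (B0 + 2) b (↑F : Set Edg)) fun F hF =>
      bad_of hB hr hc hc' hTL hNL ha (by omega) hM hM' (by omega) hN (by omega) (by omega) hrb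
        hF.1 hF.2).trans ?_
    refine (Pr_or_le ok S _ _).trans (add_le_add_right ?_ _)
    refine (Pr_or_le ok S _ _).trans (add_le_add_right ?_ _)
    exact Pr_or_le ok S _ _
  refine u.trans ?_
  have m1 := e1.trans (mul_le_mul_of_nonneg_right k2 hab)
  have m2 := e2.trans (mul_le_mul_of_nonneg_right k4 hab)
  have m3 := e3.trans (mul_le_mul_of_nonneg_right k1 hab)
  have m4 := e4.trans (mul_le_mul_of_nonneg_right k3 hab)
  linarith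

end X10

/-- **The separation lemma**. -/
theorem sept (hB : St_basic) (hr : St_restr) (hl : St_loc) (hc : St_cnt) (hc' : St_cnt')
    (ho : St_OCt) (hTL : St_TL) (hF2 : St_F2) (hU : St_U32) (hNL : St_NL3) (hA : St_APP) :
    St_SEPT := by
  refine X10.sept0 hB hr hl hc hc' ho hTL hF2 hU hNL hA ?_
  obtain ⟨C, hC, h⟩ := TH992.E.upper 3 (by norm_num) 15
  refine ⟨C, hC, fun n h1 => ?_⟩
  have h3 := h n h1
  rw [show -((4 * ((3 : ℕ) : ℝ) ^ 2 - 1) / 12) = -(35 / 12) by norm_num] at h3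
  exact h3

end Pool.Agent.N948.IX
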