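import Pool.Agent.N948.IX.Ex0
import Pool.Agent.N948.IX.C6

/-!
# Project XD, X18 (helper849): the one-point lower bound
-/

set_option autoImplicit false

namespace Pool.Agent.N948.IX

open H974 H906.Cyl H12S Finset H984P H342P Pool.Agent.W92.DP

namespace X18

open C6

/-! ### Good pairs -/

section gio

variable {M M' B N : ℕ} {c : Vtx} {a b rs rc t : ℕ} {F G : Set Edg} {σ τ : St} {T T' : ℕ}

theorem gio_congr (h : GIO M M' B N c a b rs rc t F σ τ T T')
    (h1 : ∀ e ∈ Exm F σ T, (e ∈ F ↔ e ∈ G)) (h2 : ∀ e ∈ Exm F τ T', (e ∈ F ↔ e ∈ G)) :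
    GIO M M' B N c a b rs rc t G σ τ T T' := by
  have e1 : ∀ s ≤ T, orb G σ s = orb F σ s := fun s hs => orb_congr h1 hs
  have e2 : ∀ s ≤ T', orb G τ s = orb F τ s := fun s hs => orb_congr h2 hs
  have x1 : Exm G σ T = Exm F σ T := Exm_congr h1
  have x2 : Exm G τ T' = Exm F τ T' := Exm_congr h2
  refine ⟨leg_true.1 (leg_congr h1 (leg_true.2 h.i)),
    leg_false.1 (leg_congr h2 (leg_false.2 h.o)), ?_, ?_, ?_, ?_, ?_, ?_, ?_⟩
  · intro s t hst ht
    rw [e1 t ht, e1 s (hst.trans ht)]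
    exact h.li s t hst ht
  · intro s t hst ht
    rw [e2 t ht, e2 s (hst.trans ht)]
    exact h.lo s t hst ht
  · intro s t hst ht hs
    rw [e1 s (hst.trans ht)] at hs
    rw [e1 t ht]
    exact h.ci s t hst ht hs
  · intro s t hst ht hs
    rw [e2 t ht] at hs
    rw [e2 s (hst.trans ht)]
    exact h.co s t hst ht hs
  · rw [x1, x2]
    exact h.sp
  · rw [x1]
    exact h.si
  · rw [x2]
    exact h.so

theorem gio_loc (hB : St_basic) (hab : a < b) (hFG : F ∩ Ge c a b = G ∩ Ge c a b)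
    (h : GIO M M' B N c a b rs rc t F σ τ T T') : GIO M M' B N c a b rs rc t G σ τ T T' := by
  have key : ∀ e ∈ Ge c a b, (e ∈ F ↔ e ∈ G) := by
    intro e he
    constructor
    · intro h1
      have : e ∈ G ∩ Ge c a b := by
        rw [← hFG]
        exact ⟨h1, he⟩
      exact this.1
    · intro h1
      have : e ∈ F ∩ Ge c a b := by
        rw [hFG]
        exact ⟨h1, he⟩
      exact this.1
  refine gio_congr h (fun e he => key e ?_) (fun e he => key e ?_)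
  · exact mem_GeF.1 (leg_exm hB hab (leg_true.2 h.i) he)
  · exact mem_GeF.1 (leg_exm hB hab (leg_false.2 h.o) he)

end gio

/-- The pairs of starting states. -/
def GP (M M' B N : ℕ) (c : Vtx) (a b rs rc t : ℕ) (F : Set Edg) (p : St × St) : Prop :=
  ∃ T T', GIO M M' B N c a b rs rc t F p.1 p.2 T T'

/-- The explored edges. -/
def Wp (M M' B N : ℕ) (c : Vtx) (a b rs rc t : ℕ) (p : St × St) (F : Set Edg) (A : Finset Edg) :
    Prop :=
  ∃ T T', GIO M M' B N c a b rs rc t F p.1 p.2 T T' ∧ A = Exm F p.1 T ∪ Exm F p.2 T'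

section gp

variable {M M' B N : ℕ} {c : Vtx} {a b rs rc t : ℕ} {F G : Set Edg} {p : St × St} {A A' : Finset Edg}

theorem wp_iff : (∃ A, Wp M M' B N c a b rs rc t p F A) ↔ GP M M' B N c a b rs rc t F p := by
  constructor
  · rintro ⟨A, T, T', h, -⟩
    exact ⟨T, T', h⟩
  · rintro ⟨T, T', h⟩
    exact ⟨_, T, T', h, rfl⟩

theorem wp_sub (hB : St_basic) (hab : a < b) (h : Wp M M' B N c a b rs rc t p F A) :
    A ⊆ GeF c a b := by
  obtain ⟨T, T', h1, rfl⟩ := h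
  exact Finset.union_subset (leg_exm hB hab (leg_true.2 h1.i)) (leg_exm hB hab (leg_false.2 h1.o))

theorem wp_congr (h : Wp M M' B N c a b rs rc t p F A) (hA : ∀ e ∈ A, (e ∈ F ↔ e ∈ G)) :
    Wp M M' B N c a b rs rc t p G A := by
  obtain ⟨T, T', h1, rfl⟩ := h
  have g1 : ∀ e ∈ Exm F p.1 T, (e ∈ F ↔ e ∈ G) := fun e he => hA e (Finset.mem_union_left _ he)
  have g2 : ∀ e ∈ Exm F p.2 T', (e ∈ F ↔ e ∈ G) := fun e he => hA e (Finset.mem_union_right _ he)
  refine ⟨T, T', gio_congr h1 g1 g2, ?_⟩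
  rw [Exm_congr g1, Exm_congr g2]

theorem wp_uniq (h : Wp M M' B N c a b rs rc t p F A) (h' : Wp M M' B N c a b rs rc t p F A') :
    A = A' := by
  obtain ⟨T, T', h1, rfl⟩ := h
  obtain ⟨U, U', h2, rfl⟩ := h'
  rw [leg_uniq (leg_true.2 h1.i) (leg_true.2 h2.i), leg_uniq (leg_false.2 h1.o) (leg_false.2 h2.o)]

theorem gp_loc (hB : St_basic) (hab : a < b) (hFG : F ∩ Ge c a b = G ∩ Ge c a b)
    (h : GP M M' B N c a b rs rc t F p) : GP M M' B N c a b rs rc t G p := by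
  obtain ⟨T, T', h1⟩ := h
  exact ⟨T, T', gio_loc hB hab hFG h1⟩

theorem gp_cand (hB : St_basic) (hab : a < b) (h : GP M M' B N c a b rs rc t F p) :
    p ∈ cand c b ×ˢ cand c b := by
  obtain ⟨T, T', h1⟩ := h
  exact Finset.mem_product.2 ⟨leg_cand hB hab (leg_true.2 h1.i), leg_cand hB hab (leg_false.2 h1.o)⟩

theorem gp_tup (h : GP M M' B N c a b rs rc t F p) :
    TupE 10 e2 c a b (fun _ => F) ![p.1, p.2] := by
  obtain ⟨T, T', h1⟩ := h
  refine ⟨![T, T'], ?_, ?_⟩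
  · intro i
    fin_cases i
    · exact leg_true.2 h1.i
    · exact leg_false.2 h1.o
  · intro i i' hii
    fin_cases i <;> fin_cases i'
    · exact absurd rfl hii
    · intro e he e' he'
      exact_mod_cast (h1.sp e he e' he').1
    · intro e he e' he'
      have h2 := (h1.sp e' he' e he).1
      have h3 : lv (src e') (src e) = lv (src e) (src e') := by
        unfold lv
        rw [abs_sub_comm (src e).1, abs_sub_comm (src e).2]
      rw [h3] at h2
      exact_mod_cast h2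
    · exact absurd rfl hii

end gp

theorem ncard_pair {P : Finset (St × St)} {Q : St × St → Prop} (h : ∀ p, Q p → p ∈ P) :
    ((Set.ncard {p | Q p} : ℕ) : ℝ) = ∑ p ∈ P, ind (Q p) := by
  classical
  have h1 : {p | Q p} = ↑(P.filter (fun p => Q p)) := by
    ext p
    rw [Finset.mem_coe, Finset.mem_filter]
    exact ⟨fun hs => ⟨h p hs, hs⟩, fun hs => hs.2⟩
  rw [h1, Set.ncard_coe_finset, Finset.card_filter]
  push_cast
  refine Finset.sum_congr rfl fun s _ => ?_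
  unfold ind
  split_ifs <;> rfl

/-- The number of good pairs. -/
noncomputable def NG (M M' B N : ℕ) (c : Vtx) (a b rs rc t : ℕ) (F : Set Edg) : ℕ :=
  Set.ncard {p : St × St | GP M M' B N c a b rs rc t F p}

section ng

variable {M M' B N : ℕ} {c : Vtx} {a b rs rc t : ℕ} {F G : Set Edg}

theorem ng_congr (hB : St_basic) (hab : a < b) (hFG : F ∩ Ge c a b = G ∩ Ge c a b) :
    NG M M' B N c a b rs rc t F = NG M M' B N c a b rs rc t G := by
  unfold NG
  congr 1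
  ext p
  exact ⟨gp_loc hB hab hFG, gp_loc hB hab hFG.symm⟩

theorem ng_le (hB : St_basic) (hR : St_restr) {m : ℕ} (ham : a ≤ m) (hmb : m < b) :
    NG M M' B N c a b rs rc t F ≤ NL c m b F * (OS c m b F).ncard := by
  refine le_trans ?_ (pairs_le hB hR ham hmb F)
  unfold NG
  have hfin : {σ : Fin 2 → St | TupE 10 e2 c a b (fun _ => F) σ}.Finite := by
    refine (Fintype.piFinset (fun _ : Fin 2 => cand c b)).finite_toSet.subset ?_
    intro σ hσ
    rw [Finset.mem_coe, Fintype.mem_piFinset]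
    exact fun i => tupE_cand hB (lt_of_le_of_lt ham hmb) hσ i
  refine Set.ncard_le_ncard_of_injOn (fun p : St × St => ![p.1, p.2]) ?_ ?_ hfin
  · intro p hp
    exact gp_tup hp
  · intro p hp q hq h
    have h0 := congrFun h 0
    have h1 := congrFun h 1
    exact Prod.ext h0 h1

theorem ng_io (hR : St_restr) {b' : ℕ} (hab : a < b') (hbb : b' ≤ b)
    (h : NG M M' B N c a b rs rc t F ≠ 0) : IO 10 c a b' F := by
  unfold NG at h
  obtain ⟨p, hp⟩ := Set.nonempty_of_ncard_ne_zero h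
  exact io_of hR hab hbb (gp_tup hp)

end ng

/-! ### The second moment -/

theorem mom (hB : St_basic) (hm : St_Mom) (hSH1 : St_SH1) (hL : St_SHL) : ∃ C : ℝ, 0 < C ∧
    ∀ (c : Vtx) (m b : ℕ) (S : Finset Edg), 1 ≤ m → 3 * (m + 1) ≤ b - 1 → GeF c m b ⊆ S →
      Ex (fun _ => (1/2 : ℝ)) S (fun F => (((NL c m b (↑F : Set Edg) : ℕ) : ℝ) *
        (((OS c m b (↑F : Set Edg)).ncard : ℕ) : ℝ)) ^ 2) ≤ C := by
  obtain ⟨C, hC, hm⟩ := hm 4
  refine ⟨C, hC, fun c m b S h1 h2 hS => ?_⟩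
  set U : Finset Edg := GeF c 0 (b + 3) with hU
  have hUB : ∀ n, n ≤ b + 3 → Bx c n ⊆ (↑U : Set Edg) := fun n hn =>
    (Bx_sub c n).trans (by exact_mod_cast GeF_mono (le_refl 0) hn)
  have hGU : ∀ a' b', b' ≤ b + 3 → GeF c a' b' ⊆ U := fun a' b' h => GeF_mono (Nat.zero_le _) h
  set N1 : Set Edg → ℝ := fun F => ((NL c m b F : ℕ) : ℝ) with hN1
  set N2 : Set Edg → ℝ := fun F => (((OS c m b F).ncard : ℕ) : ℝ) with hN2
  have q1 : Ex (fun _ => (1/2 : ℝ)) S (fun F => N1 (↑F : Set Edg) ^ 4) ≤ C :=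
    hm c m b S h1 (by omega) hS
  have hloc : ∀ S' : Finset Edg, GeF c m b ⊆ S' →
      Ex (fun _ => (1/2 : ℝ)) S' (fun F => N2 (↑F : Set Edg) ^ 4) =
      Ex (fun _ => (1/2 : ℝ)) (GeF c m b) (fun F => N2 (↑F : Set Edg) ^ 4) := by
    intro S' hS'
    refine Ex_local hS' fun F _ => ?_
    simp only [hN2]
    rw [OS_congr hB (by omega : m < b) (inter_ge F c m b)]
  have q2 : Ex (fun _ => (1/2 : ℝ)) S (fun F => N2 (↑F : Set Edg) ^ 4) ≤ C := by
    rw [hloc S hS, ← hloc U (hGU _ _ (by omega))]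
    have r1 : Ex (fun _ => (1/2 : ℝ)) U (fun F => N2 (↑F : Set Edg) ^ 4) ≤
        Ex (fun _ => (1/2 : ℝ)) U
          (fun F => ((NL c (m + 1) (b - 1) (DS (↑F : Set Edg)) : ℕ) : ℝ) ^ 4) := by
      refine Ex_mono ok fun F _ => ?_
      have := OS_le hSH1 (c := c) (a := m) (b := b) (by omega) (by omega) (↑F : Set Edg)
      have h' : N2 (↑F : Set Edg) ≤ ((NL c (m + 1) (b - 1) (DS (↑F : Set Edg)) : ℕ) : ℝ) := by
        rw [hN2]
        simp only
        exact_mod_cast this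
      exact pow_le_pow_left₀ (Nat.cast_nonneg _) h' 4
    refine r1.trans ?_
    rw [Ex_DS hB hL 4 c (by omega : m + 1 < b - 1) (hUB _ (by omega))]
    exact hm c (m + 1) (b - 1) U (by omega) (by omega) (hGU _ _ (by omega))
  have q3 : Ex (fun _ => (1/2 : ℝ)) S (fun F => (N1 (↑F : Set Edg) * N2 (↑F : Set Edg)) ^ 2) ≤
      Ex (fun _ => (1/2 : ℝ)) S
        (fun F => (1/2 : ℝ) * N1 (↑F : Set Edg) ^ 4 + (1/2 : ℝ) * N2 (↑F : Set Edg) ^ 4) := by
    refine Ex_mono ok fun F _ => ?_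
    nlinarith [sq_nonneg (N1 (↑F : Set Edg) ^ 2 - N2 (↑F : Set Edg) ^ 2)]
  rw [Ex_add, Ex_mul_left, Ex_mul_left] at q3
  linarith

/-- second moment of the number of good pairs -/
theorem sec (hB : St_basic) (hR : St_restr) (hm : St_Mom) (hSH1 : St_SH1) (hL : St_SHL)
    (hU : St_IOup) : ∃ C : ℝ, 0 < C ∧
    ∀ (M M' B N : ℕ) (c : Vtx) (a b4 b rs rc t : ℕ) (S : Finset Edg), 1 ≤ a → a < b4 →
      3 * (b4 + 2) ≤ b - 1 → GeF c a b ⊆ S →
      Ex (fun _ => (1/2 : ℝ)) S (fun F => ((NG M M' B N c a b rs rc t (↑F : Set Edg) : ℕ) : ℝ) ^ 2)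
        ≤ C * ((a : ℝ) / b4) ^ (5/4 : ℝ) := by
  obtain ⟨C1, hC1, hm⟩ := mom hB hm hSH1 hL
  obtain ⟨C2, hC2, hU⟩ := hU
  refine ⟨C2 * C1, by positivity, fun M M' B N c a b4 b rs rc t S h1 h2 h3 hS => ?_⟩
  have hab : a < b := by omega
  set N1 : Set Edg → ℝ := fun F => ((NL c (b4 + 1) b F : ℕ) : ℝ) with hN1
  set N2 : Set Edg → ℝ := fun F => (((OS c (b4 + 1) b F).ncard : ℕ) : ℝ) with hN2
  have hS2 : GeF c (b4 + 1) b ⊆ S := (GeF_mono (by omega) le_rfl).trans hS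
  have hS1 : GeF c a b4 ⊆ S := (GeF_mono le_rfl (by omega)).trans hS
  have q1 : Ex (fun _ => (1/2 : ℝ)) S
      (fun F => ((NG M M' B N c a b rs rc t (↑F : Set Edg) : ℕ) : ℝ) ^ 2) ≤
      Ex (fun _ => (1/2 : ℝ)) S (fun F => ind (IO 10 c a b4 (↑F : Set Edg)) *
        (N1 (↑F : Set Edg) * N2 (↑F : Set Edg)) ^ 2) := by
    refine Ex_mono ok fun F _ => ?_
    by_cases h0 : NG M M' B N c a b rs rc t (↑F : Set Edg) = 0
    · rw [h0]
      have : 0 ≤ ind (IO 10 c a b4 (↑F : Set Edg)) := ind_nonneg _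
      have h00 : ((0 : ℕ) : ℝ) ^ 2 = 0 := by norm_num
      rw [h00]
      exact mul_nonneg this (sq_nonneg _)
    · rw [ind_of (ng_io hR h2 (by omega) h0), one_mul]
      have h4 := ng_le (M := M) (M' := M') (B := B) (N := N) (c := c) (a := a) (b := b) (rs := rs)
        (rc := rc) (t := t) (F := (↑F : Set Edg)) hB hR (m := b4 + 1) (by omega) (by omega)
      have h5 : ((NG M M' B N c a b rs rc t (↑F : Set Edg) : ℕ) : ℝ) ≤
          N1 (↑F : Set Edg) * N2 (↑F : Set Edg) := by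
        rw [hN1, hN2]
        simp only
        exact_mod_cast h4
      exact pow_le_pow_left₀ (Nat.cast_nonneg _) h5 2
  have q2 : Ex (fun _ => (1/2 : ℝ)) S (fun F => ind (IO 10 c a b4 (↑F : Set Edg)) *
        (N1 (↑F : Set Edg) * N2 (↑F : Set Edg)) ^ 2) =
      Pr (fun _ => (1/2 : ℝ)) S (fun F => IO 10 c a b4 (↑F : Set Edg)) *
        Ex (fun _ => (1/2 : ℝ)) S (fun F => (N1 (↑F : Set Edg) * N2 (↑F : Set Edg)) ^ 2) := by
    refine Ex_mul_indep (S := GeF c a b4) (T := GeF c (b4 + 1) b) hS1 hS2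
      (GeF_disj (by omega)) (fun F _ => ?_) (fun F _ => ?_)
    · exact ind_congr ⟨IO_congr hB h2 (inter_ge F c a b4).symm,
        IO_congr hB h2 (inter_ge F c a b4)⟩
    · simp only [hN1, hN2, NL_eq]
      rw [LS_congr hB (by omega : b4 + 1 < b) (inter_ge F c (b4 + 1) b),
        OS_congr hB (by omega : b4 + 1 < b) (inter_ge F c (b4 + 1) b)]
  have q3 := hm c (b4 + 1) b S (by omega) (by omega) hS2
  have q4 := hU c a b4 S h1 h2 hS1
  refine q1.trans ?_
  rw [q2]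
  calc Pr (fun _ => (1/2 : ℝ)) S (fun F => IO 10 c a b4 (↑F : Set Edg)) *
        Ex (fun _ => (1/2 : ℝ)) S (fun F => (N1 (↑F : Set Edg) * N2 (↑F : Set Edg)) ^ 2)
      ≤ (C2 * ((a : ℝ) / b4) ^ (5/4 : ℝ)) * C1 := by
        apply mul_le_mul q4 q3
        · exact Ex_nonneg ok fun F _ => by positivity
        · positivity
    _ = C2 * C1 * ((a : ℝ) / b4) ^ (5/4 : ℝ) := by ring

/-- the second moment method -/
theorem cs {E : Type*} [DecidableEq E] {S : Finset E} {X : Finset E → ℝ} {A : Finset E → Prop}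
    {μ V : ℝ} (hμ : 0 < μ) (hV : 0 < V) (h1 : μ ≤ Ex (fun _ => (1/2 : ℝ)) S X)
    (h2 : Ex (fun _ => (1/2 : ℝ)) S (fun F => X F ^ 2) ≤ V) (hA : ∀ F, F ⊆ S → ¬ A F → X F = 0) :
    μ ^ 2 / V ≤ Pr (fun _ => (1/2 : ℝ)) S A := by
  have h3 : Ex (fun _ => (1/2 : ℝ)) S (fun F => (2 * (V / μ)) * X F) ≤
      Ex (fun _ => (1/2 : ℝ)) S (fun F => X F ^ 2 + (V / μ) ^ 2 * ind (A F)) := by
    refine Ex_mono ok fun F hF => ?_
    by_cases h : A F
    · rw [ind_of h]
      nlinarith [sq_nonneg (X F - V / μ)]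
    · rw [hA F hF h, ind_not_of h]
      simp
  rw [Ex_mul_left, Ex_add, Ex_mul_left] at h3
  have h4 : 2 * (V / μ) * μ ≤ 2 * (V / μ) * Ex (fun _ => (1/2 : ℝ)) S X :=
    mul_le_mul_of_nonneg_left h1 (by positivity)
  have h5 : 2 * (V / μ) * μ = 2 * V := by field_simp
  have h6 : V ≤ (V / μ) ^ 2 * Pr (fun _ => (1/2 : ℝ)) S A := by
    unfold Pr
    linarith
  rw [div_le_iff₀ hV]
  have h7 : (V / μ) ^ 2 * Pr (fun _ => (1/2 : ℝ)) S A =
      V / μ ^ 2 * (Pr (fun _ => (1/2 : ℝ)) S A * V) := by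
    field_simp
  rw [h7] at h6
  have h8 : V * μ ^ 2 ≤ V * (Pr (fun _ => (1/2 : ℝ)) S A * V) := by
    have := mul_le_mul_of_nonneg_right h6 (by positivity : 0 ≤ μ ^ 2)
    refine this.trans (le_of_eq ?_)
    field_simp
  exact le_of_mul_le_mul_left h8 hV

/-! ### Geometry -/

theorem ge_SA {U : ℕ} {c : Vtx} (hU : 1 ≤ U) (hc : c ∈ core4 (U : ℤ)) {a b : ℕ} (hb : b < 16 * U) :
    GeF c a b ⊆ SA (U : ℤ) := by
  intro e he
  obtain ⟨⟨-, h1⟩, -, h2⟩ := mem_GeF.1 he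
  have hb' : (b : ℤ) < 16 * U := by exact_mod_cast hb
  have hU' : (1 : ℤ) ≤ U := by exact_mod_cast hU
  unfold core4 at hc
  rw [Finset.mem_product, Finset.mem_Icc, Finset.mem_Icc] at hc
  obtain ⟨⟨c1, c2⟩, c3, c4⟩ := hc
  have key : ∀ v : Vtx, lv c v ≤ b → v ∈ HA (U : ℤ) := by
    intro v hv
    unfold lv at hv
    rw [max_le_iff, abs_le, abs_le] at hv
    unfold HA
    rw [Finset.mem_filter, Finset.mem_product, Finset.mem_Icc, Finset.mem_Icc]
    obtain ⟨⟨v1, v2⟩, v3, v4⟩ := hv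
    refine ⟨⟨⟨by linarith, by linarith⟩, by linarith, by linarith⟩, ?_⟩
    right
    right
    linarith
  unfold SA
  rw [H973.mem_ES]
  exact ⟨key _ h1, key _ h2⟩

end X18

open X18 C6 in
/-- **One-point lower bound.** -/
theorem one5 (hB : St_basic) (_hoB : St_oBasic) (hr : St_restr) (_hoR : St_oRestr) (hm : St_Mom)
    (hSH1 : St_SH1) (hL : St_SHL) (hU : St_IOup) (hG : St_GLW) (hC : St_COR) (hP : St_PIO) :
    St_ONE5 := by
  classical
  obtain ⟨L, M0, B, a, M, M', N, r0, k, hL2, hM0, hB2, ha2, hM, hM', hN, hr0, hk, hP⟩ := hP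
  obtain ⟨κ, U0, hκ, hC⟩ := hC a ha2
  obtain ⟨C, hC0, hsec⟩ := sec hB hr hm hSH1 hL hU
  set K : ℝ := (κ * k) ^ 2 / (C * ((a : ℝ) / (4 * L * M0 : ℕ)) ^ (5/4 : ℝ)) with hK
  have hLM : 0 < 4 * L * M0 := by positivity
  have haR : (0 : ℝ) < a := by exact_mod_cast (by omega : 0 < a)
  have hLMR : (0 : ℝ) < (4 * L * M0 : ℕ) := by exact_mod_cast hLM
  have hK0 : 0 < K := by positivity
  refine ⟨L, M0, B, a, M, M', N, r0 + U0 + a + 2, K, hL2, hM0, hB2, ha2, hM, hM', hN, by omega,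
    hK0, fun r S hrr hS c hc => ?_⟩
  have hr1 : 1 ≤ r := by omega
  have hrR : (0 : ℝ) < r := by exact_mod_cast (by omega : 0 < r)
  set m : ℕ := M0 * r with hmdef
  have hmr : r ≤ m := by
    rw [hmdef]
    exact Nat.le_mul_of_pos_left r (by omega)
  set U : ℕ := L * m with hUdef
  have hUm : m ≤ U := by
    rw [hUdef]
    exact Nat.le_mul_of_pos_left m (by omega)
  have hb0 : 16 * L * m = 16 * U := by
    rw [hUdef]
    ring
  have hb4 : 4 * L * M0 * r = 4 * U := by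
    rw [hUdef, hmdef]
    ring
  -- notation
  set b : ℕ := 16 * L * m - 1 with hbdef
  have hab : a < b := by omega
  have hbU : b < 16 * U := by omega
  have hGS : GeF c a b ⊆ S := (ge_SA (by omega) hc hbU).trans hS
  set rs : ℕ := 4 * L * m + 24 with hrs
  set rc : ℕ := 4 * L * m + 20 with hrc
  set t : ℕ := 2 * m + 4 with ht
  -- the first moment
  have hfirst : k * (r : ℝ) ^ (-(5/4) : ℝ) ≤ Ex (fun _ => (1/2 : ℝ)) S
      (fun F => ((NG M M' B N c a b rs rc t (↑F : Set Edg) : ℕ) : ℝ)) := by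
    have h1 := hP r c (GeF c 0 (16 * L * m + 3)) (by omega) (by
      rw [← hmdef]
      exact Bx_sub c _)
    have h2 : ∀ S' : Finset Edg, GeF c a b ⊆ S' → Ex (fun _ => (1/2 : ℝ)) S'
        (fun F => ((NG M M' B N c a b rs rc t (↑F : Set Edg) : ℕ) : ℝ)) =
        Ex (fun _ => (1/2 : ℝ)) (GeF c a b)
          (fun F => ((NG M M' B N c a b rs rc t (↑F : Set Edg) : ℕ) : ℝ)) := by
      intro S' hS'
      refine Ex_local hS' fun F _ => ?_
      rw [ng_congr hB hab (inter_ge F c a b)]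
    rw [h2 S hGS, ← h2 (GeF c 0 (16 * L * m + 3)) (GeF_mono (Nat.zero_le _) (by omega))]
    exact h1
  -- the fresh configuration
  set Q : Set Edg → Finset Edg → Set Edg → Prop := fun _ _ G =>
    ∃ G' : Finset Edg, (↑G' : Set Edg) = G ∩ ↑S ∧ QE a c (U : ℤ) G' with hQ
  set P : Finset (St × St) := cand c b ×ˢ cand c b with hPdef
  set D2 : Finset (Fin 2 × Edg) := (Finset.univ : Finset (Fin 2)) ×ˢ S with hD2
  have hglw : ∀ p : St × St, κ * Pr (fun _ => (1/2 : ℝ)) S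
      (fun F => ∃ A, Wp M M' B N c a b rs rc t p (↑F : Set Edg) A) ≤
      Pr (fun _ => (1/2 : ℝ)) D2 (fun F => ∃ A, Wp M M' B N c a b rs rc t p (sl F 0) A ∧
        Q (sl F 0) A (gl (sl F 0) (sl F 1) A)) := by
    intro p
    refine (hG S (Wp M M' B N c a b rs rc t p) Q κ hκ.le ?_ ?_ ?_ ?_ ?_).2 ?_
    · intro F A h
      exact (wp_sub hB hab h).trans hGS
    · intro F G A h h'
      exact wp_congr h h'
    · intro F A A' h h'
      exact wp_uniq h h'
    · intro F F' A G _ h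
      exact h
    · rintro F A G G' h ⟨G1, h1, h2⟩
      exact ⟨G1, by rw [h1, h], h2⟩
    · intro F A _
      refine (hC U S (by omega) hS c hc).trans ?_
      refine Pr_mono ok fun G hG1 hG2 => ⟨G, ?_, hG2⟩
      symm
      rw [Set.inter_eq_left]
      exact_mod_cast hG1
  set X : Finset (Fin 2 × Edg) → ℝ := fun F => ∑ p ∈ P,
    ind (∃ A, Wp M M' B N c a b rs rc t p (sl F 0) A ∧
      Q (sl F 0) A (gl (sl F 0) (sl F 1) A)) with hX
  have hX1 : κ * k * (r : ℝ) ^ (-(5/4) : ℝ) ≤ Ex (fun _ => (1/2 : ℝ)) D2 X := by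
    rw [hX, Ex_sum]
    have h1 : ∀ F : Finset Edg, ((NG M M' B N c a b rs rc t (↑F : Set Edg) : ℕ) : ℝ) =
        ∑ p ∈ P, ind (∃ A, Wp M M' B N c a b rs rc t p (↑F : Set Edg) A) := by
      intro F
      unfold NG
      rw [ncard_pair (P := P) (fun p hp => gp_cand hB hab hp)]
      exact Finset.sum_congr rfl fun p _ => ind_congr wp_iff.symm
    rw [Ex_congr (fun F _ => h1 F), Ex_sum] at hfirst
    have h2 := mul_le_mul_of_nonneg_left hfirst hκ.le
    rw [← mul_assoc] at h2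
    refine h2.trans ?_
    rw [Finset.mul_sum]
    exact Finset.sum_le_sum fun p _ => hglw p
  have hX2 : Ex (fun _ => (1/2 : ℝ)) D2 (fun F => X F ^ 2) ≤
      C * ((a : ℝ) / (4 * U : ℕ)) ^ (5/4 : ℝ) := by
    refine le_trans ?_ (hsec M M' B N c a (4 * U) b rs rc t S (by omega) (by omega) (by omega) hGS)
    rw [← Ex_slice (m := 2) 0 S
      (fun F => ((NG M M' B N c a b rs rc t F : ℕ) : ℝ) ^ 2)]
    refine Ex_mono ok fun F _ => ?_
    have h1 : X F ≤ ((NG M M' B N c a b rs rc t (sl F 0) : ℕ) : ℝ) := by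
      unfold NG
      rw [ncard_pair (P := P) (fun p hp => gp_cand hB hab hp)]
      refine Finset.sum_le_sum fun p _ => ind_mono ?_
      rintro ⟨A, h, -⟩
      exact wp_iff.1 ⟨A, h⟩
    have h0 : 0 ≤ X F := Finset.sum_nonneg fun p _ => ind_nonneg _
    exact pow_le_pow_left₀ h0 h1 2
  -- the second moment method
  have hU4 : (0 : ℝ) < (4 * U : ℕ) := by exact_mod_cast (by omega : 0 < 4 * U)
  have hq := cs (A := fun F => ∃ F0 : Finset Edg, (↑F0 : Set Edg) = sl F 0 ∧ E5 M M' B N a L m c F0)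
    (show 0 < κ * k * (r : ℝ) ^ (-(5/4) : ℝ) by positivity)
    (show 0 < C * ((a : ℝ) / (4 * U : ℕ)) ^ (5/4 : ℝ) by positivity) hX1 hX2 (by
      intro F hF hno
      rw [hX]
      refine Finset.sum_eq_zero fun p _ => ind_not_of ?_
      rintro ⟨A, ⟨T, T', hg, hA⟩, G, hG1, hG2⟩
      apply hno
      have hS0 : ∀ e, e ∈ sl F 0 → e ∈ S := by
        intro e he
        exact (Finset.mem_product.1 (hF he)).2
      refine ⟨S.filter (fun e => e ∈ sl F 0), ?_, p.1, p.2, T, T', G, ?_, ?_, hG2⟩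
      · ext e
        rw [Finset.mem_coe, Finset.mem_filter]
        exact ⟨fun h => h.2, fun h => ⟨hS0 e h, h⟩⟩
      · have e0 : (↑(S.filter (fun e => e ∈ sl F 0)) : Set Edg) = sl F 0 := by
          ext e
          rw [Finset.mem_coe, Finset.mem_filter]
          exact ⟨fun h => h.2, fun h => ⟨hS0 e h, h⟩⟩
        rw [e0]
        exact hg
      · have e0 : (↑(S.filter (fun e => e ∈ sl F 0)) : Set Edg) = sl F 0 := by
          ext e
          rw [Finset.mem_coe, Finset.mem_filter]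
          exact ⟨fun h => h.2, fun h => ⟨hS0 e h, h⟩⟩
        rw [e0]
        intro e he1 he2
        have heA : e ∉ A := by
          rw [hA, Finset.mem_union]
          tauto
        rw [← Finset.mem_coe, ← Finset.mem_coe, e0, hG1]
        constructor
        · intro h
          exact ⟨Or.inr ⟨heA, h⟩, hS0 e h⟩
        · rintro ⟨h | h, -⟩
          · exact absurd h.1 heA
          · exact h.2)
  have hslice : Pr (fun _ => (1/2 : ℝ)) D2
      (fun F => ∃ F0 : Finset Edg, (↑F0 : Set Edg) = sl F 0 ∧ E5 M M' B N a L m c F0) =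
      PQ (1/2) S (E5 M M' B N a L m c) := by
    have h1 := Ex_slice (m := 2) 0 S
      (fun Fs => ind (∃ F0 : Finset Edg, (↑F0 : Set Edg) = Fs ∧ E5 M M' B N a L m c F0))
    refine h1.trans ?_
    refine Ex_congr fun F _ => ind_congr ?_
    constructor
    · rintro ⟨F0, h2, h3⟩
      rw [Finset.coe_injective h2] at h3
      exact h3
    · intro h2
      exact ⟨F, rfl, h2⟩
  rw [hslice] at hq
  refine le_trans ?_ hq
  -- the numbers
  have hmono : ((M0 * r : ℕ) : ℝ) ^ (-(5/4) : ℝ) ≤ (r : ℝ) ^ (-(5/4) : ℝ) := by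
    apply Real.rpow_le_rpow_of_nonpos hrR
    · exact_mod_cast hmr
    · norm_num
  refine (mul_le_mul_of_nonneg_left hmono hK0.le).trans (le_of_eq ?_)
  have e1 : ((a : ℝ) / (4 * U : ℕ)) ^ (5/4 : ℝ) =
      ((a : ℝ) / (4 * L * M0 : ℕ)) ^ (5/4 : ℝ) * (r : ℝ) ^ (-(5/4) : ℝ) := by
    rw [← hb4, Real.rpow_neg hrR.le, ← Real.inv_rpow hrR.le, ← Real.mul_rpow (by positivity)
      (by positivity)]
    congr 1
    push_cast
    field_simp
  rw [e1, hK]
  have hx : (0 : ℝ) < (r : ℝ) ^ (-(5/4) : ℝ) := by positivity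
  have hy : (0 : ℝ) < ((a : ℝ) / (4 * L * M0 : ℕ)) ^ (5/4 : ℝ) := by positivity
  field_simp

end Pool.Agent.N948.IX
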