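import Pool.Agent.N948.IX.Ex1

/-!
# Project XD (helper948), part X19: approximate cut points, passage to the limit

Adapted from `Pool.Agent.TH966.DP.DD` and `Pool.Agent.Y989.HP.LimD`.
-/

set_option autoImplicit false

namespace Pool.Agent.N948.IX.X19

open Set Filter Topology Metric Pool.Agent.H389R2.Dim MeasureTheory
open scoped ENNReal NNReal

theorem QQ_mono {η M : ℝ} (hM : 0 ≤ M) {B : ℕ} {ε ε' : ℝ} (h : ε ≤ ε') (K : Set ℂ)
    (f : C(unitInterval, ℂ)) : QQ η M B ε K f ⊆ QQ η M B ε' K f := by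
  rintro z ⟨hz, s, u, v, h1, h2, h3, h4, h5, h6, h7, h8⟩
  have hm : ∀ a : ℝ, M * (a + ε) ≤ M * (a + ε') := fun a =>
    mul_le_mul_of_nonneg_left (by linarith) hM
  exact ⟨hz, s, u, v, h1, h2, h3.trans h, h4.trans (by linarith), h5.trans (by linarith),
    fun x y a b c => (h6 x y a b c).trans (hm _), fun x y a b c => (h7 x y a b c).trans (hm _),
    fun x y a b c d => (h8 x y a b c d).trans (hm _)⟩

/-- the nearest point of the interval -/
def cl (s u x : unitInterval) : unitInterval := max s (min x u)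

theorem cl_ge (s u x : unitInterval) : s ≤ cl s u x := le_max_left _ _

theorem cl_le {s u : unitInterval} (h : s ≤ u) (x : unitInterval) : cl s u x ≤ u :=
  max_le h (min_le_right _ _)

theorem cl_mono (s u : unitInterval) {x y : unitInterval} (h : x ≤ y) : cl s u x ≤ cl s u y :=
  max_le_max le_rfl (min_le_min h le_rfl)

theorem cl_eq {s u x : unitInterval} (h1 : s ≤ x) (h2 : x ≤ u) : cl s u x = x := by
  unfold cl
  rw [min_eq_left h2, max_eq_right h1]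

/-- The closed condition. -/
def Cnd (η M : ℝ) (B : ℕ) (ε : ℝ) (K : Set ℂ) : Set (C(unitInterval, ℂ) ×
    (K × unitInterval × unitInterval × unitInterval)) :=
  {p | p.2.2.1 ≤ p.2.2.2.1 ∧ p.2.2.2.1 ≤ p.2.2.2.2 ∧ dist (p.1 p.2.2.2.1) (p.2.1 : ℂ) ≤ ε ∧
    η ≤ dist (p.1 p.2.2.1) (p.2.1 : ℂ) + ε ∧ η ≤ dist (p.1 p.2.2.2.2) (p.2.1 : ℂ) + ε ∧
    (∀ q ∈ {q : unitInterval × unitInterval | q.1 ≤ q.2},
      (dist (p.1 (cl p.2.2.1 p.2.2.2.1 q.2)) (p.2.1 : ℂ)) ^ 2 ≤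
        M * (dist (p.1 (cl p.2.2.1 p.2.2.2.1 q.1)) (p.2.1 : ℂ) + ε)) ∧
    (∀ q ∈ {q : unitInterval × unitInterval | q.1 ≤ q.2},
      (dist (p.1 (cl p.2.2.2.1 p.2.2.2.2 q.1)) (p.2.1 : ℂ)) ^ 2 ≤
        M * (dist (p.1 (cl p.2.2.2.1 p.2.2.2.2 q.2)) (p.2.1 : ℂ) + ε)) ∧
    (∀ q : unitInterval × unitInterval,
      (max (dist (p.1 (cl p.2.2.1 p.2.2.2.1 q.1)) (p.2.1 : ℂ))
        (dist (p.1 (cl p.2.2.2.1 p.2.2.2.2 q.2)) (p.2.1 : ℂ))) ^ B ≤
        M * (dist (p.1 (cl p.2.2.1 p.2.2.2.1 q.1)) (p.1 (cl p.2.2.2.1 p.2.2.2.2 q.2)) + ε))}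

theorem cnd_iff {η M : ℝ} {B : ℕ} {ε : ℝ} {K : Set ℂ} {f : C(unitInterval, ℂ)} {z : K}
    {s u v : unitInterval} : (f, (z, s, u, v)) ∈ Cnd η M B ε K ↔
    (s ≤ u ∧ u ≤ v ∧ dist (f u) z ≤ ε ∧
    η ≤ dist (f s) z + ε ∧ η ≤ dist (f v) z + ε ∧
    (∀ x y : unitInterval, s ≤ x → x ≤ y → y ≤ u → (dist (f y) z) ^ 2 ≤ M * (dist (f x) z + ε)) ∧
    (∀ x y : unitInterval, u ≤ x → x ≤ y → y ≤ v → (dist (f x) z) ^ 2 ≤ M * (dist (f y) z + ε)) ∧
    (∀ x y : unitInterval, s ≤ x → x ≤ u → u ≤ y → y ≤ v →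
      (max (dist (f x) z) (dist (f y) z)) ^ B ≤ M * (dist (f x) (f y) + ε))) := by
  constructor
  · rintro ⟨h1, h2, h3, h4, h5, h6, h7, h8⟩
    refine ⟨h1, h2, h3, h4, h5, fun x y a b c => ?_, fun x y a b c => ?_, fun x y a b c d => ?_⟩
    · have h := h6 (x, y) b
      dsimp only at h
      rwa [cl_eq (a.trans b) c, cl_eq a (b.trans c)] at h
    · have h := h7 (x, y) b
      dsimp only at h
      rwa [cl_eq (a.trans b) c, cl_eq a (b.trans c)] at h
    · have h := h8 (x, y)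
      dsimp only at h
      rwa [cl_eq a b, cl_eq c d] at h
  · rintro ⟨h1, h2, h3, h4, h5, h6, h7, h8⟩
    refine ⟨h1, h2, h3, h4, h5, fun q hq => ?_, fun q hq => ?_, fun q => ?_⟩
    · exact h6 _ _ (cl_ge _ _ _) (cl_mono _ _ hq) (cl_le h1 _)
    · exact h7 _ _ (cl_ge _ _ _) (cl_mono _ _ hq) (cl_le h2 _)
    · exact h8 _ _ (cl_ge _ _ _) (cl_le h1 _) (cl_ge _ _ _) (cl_le h2 _)

theorem closed_forall {X ι : Type} [TopologicalSpace X] (S : Set ι) (P : ι → X → Prop)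
    (h : ∀ i, IsClosed {x | P i x}) : IsClosed {x | ∀ i ∈ S, P i x} := by
  have e : {x | ∀ i ∈ S, P i x} = ⋂ i ∈ S, {x | P i x} := by
    ext x
    simp
  rw [e]
  exact isClosed_biInter fun i _ => h i

theorem closed_all {X ι : Type} [TopologicalSpace X] (P : ι → X → Prop)
    (h : ∀ i, IsClosed {x | P i x}) : IsClosed {x | ∀ i, P i x} := by
  have e : {x | ∀ i, P i x} = ⋂ i, {x | P i x} := by
    ext x
    simp
  rw [e]
  exact isClosed_iInter h

/-- the parameters -/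
abbrev Par (K : Set ℂ) : Type :=
  C(unitInterval, ℂ) × (K × unitInterval × unitInterval × unitInterval)

theorem closed_cnd (η M : ℝ) (B : ℕ) (ε : ℝ) {K : Set ℂ} : IsClosed (Cnd η M B ε K) := by
  have ev : ∀ {g : Par K → unitInterval}, Continuous g → Continuous fun p : Par K => p.1 (g p) :=
    fun hg => continuous_fst.eval hg
  have cs : Continuous (fun p : Par K => p.2.2.1) := by fun_prop
  have cu : Continuous (fun p : Par K => p.2.2.2.1) := by fun_prop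
  have cv : Continuous (fun p : Par K => p.2.2.2.2) := by fun_prop
  have c0 : Continuous (fun p : Par K => (p.2.1 : ℂ)) := by fun_prop
  have c1 : ∀ x : unitInterval, Continuous (fun p : Par K => cl p.2.2.1 p.2.2.2.1 x) := fun x =>
    cs.max (continuous_const.min cu)
  have c2 : ∀ x : unitInterval, Continuous (fun p : Par K => cl p.2.2.2.1 p.2.2.2.2 x) := fun x =>
    cu.max (continuous_const.min cv)
  have k1 : IsClosed {p : Par K | p.2.2.1 ≤ p.2.2.2.1} := isClosed_le cs cu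
  have k2 : IsClosed {p : Par K | p.2.2.2.1 ≤ p.2.2.2.2} := isClosed_le cu cv
  have k3 : IsClosed {p : Par K | dist (p.1 p.2.2.2.1) (p.2.1 : ℂ) ≤ ε} :=
    isClosed_le ((ev cu).dist c0) continuous_const
  have k4 : IsClosed {p : Par K | η ≤ dist (p.1 p.2.2.1) (p.2.1 : ℂ) + ε} :=
    isClosed_le continuous_const (((ev cs).dist c0).add continuous_const)
  have k5 : IsClosed {p : Par K | η ≤ dist (p.1 p.2.2.2.2) (p.2.1 : ℂ) + ε} :=
    isClosed_le continuous_const (((ev cv).dist c0).add continuous_const)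
  have k6 : IsClosed {p : Par K | ∀ q ∈ {q : unitInterval × unitInterval | q.1 ≤ q.2},
      (dist (p.1 (cl p.2.2.1 p.2.2.2.1 q.2)) (p.2.1 : ℂ)) ^ 2 ≤
        M * (dist (p.1 (cl p.2.2.1 p.2.2.2.1 q.1)) (p.2.1 : ℂ) + ε)} :=
    closed_forall _ _ fun q => isClosed_le (((ev (c1 _)).dist c0).pow 2)
      (continuous_const.mul (((ev (c1 _)).dist c0).add continuous_const))
  have k7 : IsClosed {p : Par K | ∀ q ∈ {q : unitInterval × unitInterval | q.1 ≤ q.2},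
      (dist (p.1 (cl p.2.2.2.1 p.2.2.2.2 q.1)) (p.2.1 : ℂ)) ^ 2 ≤
        M * (dist (p.1 (cl p.2.2.2.1 p.2.2.2.2 q.2)) (p.2.1 : ℂ) + ε)} :=
    closed_forall _ _ fun q => isClosed_le (((ev (c2 _)).dist c0).pow 2)
      (continuous_const.mul (((ev (c2 _)).dist c0).add continuous_const))
  have k8 : IsClosed {p : Par K | ∀ q : unitInterval × unitInterval,
      (max (dist (p.1 (cl p.2.2.1 p.2.2.2.1 q.1)) (p.2.1 : ℂ))
        (dist (p.1 (cl p.2.2.2.1 p.2.2.2.2 q.2)) (p.2.1 : ℂ))) ^ B ≤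
        M * (dist (p.1 (cl p.2.2.1 p.2.2.2.1 q.1)) (p.1 (cl p.2.2.2.1 p.2.2.2.2 q.2)) + ε)} :=
    closed_all _ fun q => isClosed_le
      ((((ev (c1 _)).dist c0).max ((ev (c2 _)).dist c0)).pow B)
      (continuous_const.mul (((ev (c1 _)).dist (ev (c2 _))).add continuous_const))
  exact k1.inter (k2.inter (k3.inter (k4.inter (k5.inter (k6.inter (k7.inter k8))))))

theorem mem_iff {η M : ℝ} {B : ℕ} {ε : ℝ} {K : Set ℂ} {f : C(unitInterval, ℂ)} {z : ℂ} :
    z ∈ QQ η M B ε K f ↔ ∃ (hz : z ∈ K) (s u v : unitInterval),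
      (f, ((⟨z, hz⟩ : K), s, u, v)) ∈ Cnd η M B ε K := by
  constructor
  · rintro ⟨hz, s, u, v, h⟩
    exact ⟨hz, s, u, v, cnd_iff.2 h⟩
  · rintro ⟨hz, s, u, v, h⟩
    exact ⟨hz, s, u, v, cnd_iff.1 h⟩

/-- Upper semicontinuity. -/
theorem isOpen_QQ_sub {η M : ℝ} {B : ℕ} {ε : ℝ} {K O : Set ℂ} (hK : IsCompact K)
    (hO : IsOpen O) : IsOpen {f : C(unitInterval, ℂ) | QQ η M B ε K f ⊆ O} := by
  have hKO : IsCompact (K \ O) := hK.diff hO
  have : CompactSpace ↥(K \ O) := isCompact_iff_compactSpace.1 hKO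
  have h1 := closed_cnd η M B ε (K := K \ O)
  have h2 := isClosedMap_fst_of_compactSpace _ h1
  have h3 : {f : C(unitInterval, ℂ) | QQ η M B ε K f ⊆ O}ᶜ =
      Prod.fst '' Cnd η M B ε (K \ O) := by
    ext f
    simp only [mem_compl_iff, mem_ofPred_eq, not_subset, mem_image, Prod.exists]
    constructor
    · rintro ⟨z, hz, hzO⟩
      obtain ⟨hzK, s, u, v, h⟩ := hz
      exact ⟨f, ⟨z, hzK, hzO⟩, s, u, v, cnd_iff.2 h, rfl⟩
    · rintro ⟨g, ⟨z, hz, hzO⟩, s, u, v, h, rfl⟩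
      exact ⟨z, ⟨hz, s, u, v, cnd_iff.1 h⟩, hzO⟩
  rw [← isClosed_compl_iff, h3]
  exact h2

theorem isClosed_good {t δ c η M : ℝ} {B : ℕ} {ε : ℝ} {K : Set ℂ} (hK : IsCompact K) :
    IsClosed {f : C(unitInterval, ℂ) | Good t δ c (QQ η M B ε K f)} := by
  have h : {f : C(unitInterval, ℂ) | Good t δ c (QQ η M B ε K f)} =
      ⋂ s : Finset (ℂ × ℝ), {f : C(unitInterval, ℂ) | (∀ p ∈ s, δ ≤ p.2) →
        QQ η M B ε K f ⊆ ⋃ p ∈ s, ball p.1 p.2 → c ≤ ∑ p ∈ s, p.2 ^ t} := by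
    ext f; simp [Good]
  rw [h]
  apply isClosed_iInter
  intro s
  by_cases h1 : (∀ p ∈ s, δ ≤ p.2) ∧ ¬ c ≤ ∑ p ∈ s, p.2 ^ t
  · have h2 : {f : C(unitInterval, ℂ) | (∀ p ∈ s, δ ≤ p.2) →
        QQ η M B ε K f ⊆ ⋃ p ∈ s, ball p.1 p.2 → c ≤ ∑ p ∈ s, p.2 ^ t} =
        {f : C(unitInterval, ℂ) | QQ η M B ε K f ⊆ ⋃ p ∈ s, ball p.1 p.2}ᶜ := by
      ext f
      simp only [Set.mem_ofPred_eq, Set.mem_compl_iff]
      constructor
      · intro h3 h4; exact h1.2 (h3 h1.1 h4)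
      · intro h3 _ h4; exact absurd h4 h3
    rw [h2]
    exact (isOpen_QQ_sub hK (isOpen_biUnion fun p _ => isOpen_ball)).isClosed_compl
  · have h2 : {f : C(unitInterval, ℂ) | (∀ p ∈ s, δ ≤ p.2) →
        QQ η M B ε K f ⊆ ⋃ p ∈ s, ball p.1 p.2 → c ≤ ∑ p ∈ s, p.2 ^ t} = univ := by
      ext f
      simp only [Set.mem_ofPred_eq, Set.mem_univ, iff_true]
      intro h3 _
      by_contra h4
      exact h1 ⟨h3, h4⟩
    rw [h2]; exact isClosed_univ

theorem isCompact_QQ {η M : ℝ} {B : ℕ} {ε : ℝ} {K : Set ℂ} (hK : IsCompact K)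
    (f : C(unitInterval, ℂ)) : IsCompact (QQ η M B ε K f) := by
  have : CompactSpace ↥K := isCompact_iff_compactSpace.1 hK
  have h1 := closed_cnd η M B ε (K := K)
  have hc : Continuous (fun p : ↥K × unitInterval × unitInterval × unitInterval =>
      (f, p)) := by
    fun_prop
  have h2 := (h1.preimage hc).isCompact
  have h3 : QQ η M B ε K f =
      (fun p : ↥K × unitInterval × unitInterval × unitInterval => (p.1 : ℂ)) ''
      ((fun p : ↥K × unitInterval × unitInterval × unitInterval => (f, p)) ⁻¹'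
        Cnd η M B ε K) := by
    ext z
    simp only [mem_image, mem_preimage, Prod.exists]
    constructor
    · rintro ⟨hz, s, u, v, h⟩
      exact ⟨⟨z, hz⟩, s, u, v, cnd_iff.2 h, rfl⟩
    · rintro ⟨⟨z, hz⟩, s, u, v, h, rfl⟩
      exact ⟨hz, s, u, v, cnd_iff.1 h⟩
  rw [h3]
  exact h2.image (by fun_prop)

/-- Passing to `ε = 0`. -/
theorem good_zero {t δ c η M : ℝ} (hM : 0 ≤ M) {B : ℕ} {K : Set ℂ} (hK : IsCompact K)
    (f : C(unitInterval, ℂ))
    (h : ∀ n : ℕ, Good t δ c (QQ η M B (1 / ((n : ℝ) + 1)) K f)) :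
    Good t δ c (QQ η M B 0 K f) := by
  intro s hs hcov
  set O : Set ℂ := ⋃ p ∈ s, ball p.1 p.2 with hOdef
  have hO : IsOpen O := isOpen_biUnion fun p _ => isOpen_ball
  by_contra hcon
  -- all approximations stick out of `O`
  have hne : ∀ n : ℕ, (QQ η M B (1 / ((n : ℝ) + 1)) (K \ O) f).Nonempty := by
    intro n
    by_contra hemp
    apply hcon
    apply h n s hs
    rintro z ⟨hz, hh⟩
    by_contra hzO
    exact hemp ⟨z, ⟨hz, hzO⟩, hh⟩
  have hKO : IsCompact (K \ O) := hK.diff hO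
  have : CompactSpace ↥(K \ O) := isCompact_iff_compactSpace.1 hKO
  have hc : Continuous (fun p : ↥(K \ O) × unitInterval × unitInterval ×
      unitInterval => (f, p)) := by fun_prop
  let A : ℕ → Set (↥(K \ O) × unitInterval × unitInterval × unitInterval) :=
    fun n => (fun p => (f, p)) ⁻¹' Cnd η M B (1 / ((n : ℝ) + 1)) (K \ O)
  have hAcl : ∀ n, IsClosed (A n) := fun n => (closed_cnd η M B _).preimage hc
  have hle : ∀ n : ℕ, 1 / (((n + 1 : ℕ) : ℝ) + 1) ≤ 1 / ((n : ℝ) + 1) := fun n =>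
    Nat.one_div_le_one_div (Nat.le_succ n)
  have hAanti : ∀ n, A (n + 1) ⊆ A n := by
    rintro n ⟨z, s', u', v'⟩ hp
    have h1 := cnd_iff.1 (show (f, (z, s', u', v')) ∈ Cnd η M B _ (K \ O) from hp)
    have h2 : (z : ℂ) ∈ K \ O := z.2
    refine (cnd_iff.2 ?_ : (f, (z, s', u', v')) ∈ Cnd η M B (1 / ((n : ℝ) + 1)) (K \ O))
    obtain ⟨a1, a2, a3, a4, a5, a6, a7, a8⟩ := h1
    have hm : ∀ a : ℝ, M * (a + 1 / (((n + 1 : ℕ) : ℝ) + 1)) ≤ M * (a + 1 / ((n : ℝ) + 1)) :=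
      fun a => mul_le_mul_of_nonneg_left (by linarith [hle n]) hM
    exact ⟨a1, a2, a3.trans (hle n), a4.trans (by linarith [hle n]),
      a5.trans (by linarith [hle n]), fun x y a b c => (a6 x y a b c).trans (hm _),
      fun x y a b c => (a7 x y a b c).trans (hm _),
      fun x y a b c d => (a8 x y a b c d).trans (hm _)⟩
  have hAne : ∀ n, (A n).Nonempty := by
    intro n
    obtain ⟨z, hz, s', u', v', h1⟩ := hne n
    exact ⟨(⟨z, hz⟩, s', u', v'), cnd_iff.2 h1⟩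
  obtain ⟨⟨z, s', u', v'⟩, hp⟩ := IsCompact.nonempty_iInter_of_sequence_nonempty_isCompact_isClosed
    A hAanti hAne (hAcl 0).isCompact hAcl
  rw [mem_iInter] at hp
  have hp' : ∀ n : ℕ, (f, (z, s', u', v')) ∈ Cnd η M B (1 / ((n : ℝ) + 1)) (K \ O) := hp
  simp only [cnd_iff] at hp'
  have hlim : Tendsto (fun n : ℕ => 1 / ((n : ℝ) + 1)) atTop (𝓝 0) :=
    tendsto_one_div_add_atTop_nhds_zero_nat
  have hlim1 : ∀ a : ℝ, Tendsto (fun n : ℕ => a + 1 / ((n : ℝ) + 1)) atTop (𝓝 (a + 0)) :=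
    fun a => tendsto_const_nhds.add hlim
  have hlim2 : ∀ a : ℝ, Tendsto (fun n : ℕ => M * (a + 1 / ((n : ℝ) + 1))) atTop
      (𝓝 (M * (a + 0))) := fun a => (hlim1 a).const_mul M
  have hz : (z : ℂ) ∈ QQ η M B 0 K f := by
    refine ⟨z.2.1, s', u', v', (hp' 0).1, (hp' 0).2.1, ?_, ?_, ?_, fun x y a b c => ?_,
      fun x y a b c => ?_, fun x y a b c d => ?_⟩
    · exact ge_of_tendsto' hlim fun n => (hp' n).2.2.1
    · exact ge_of_tendsto' (hlim1 _) fun n => (hp' n).2.2.2.1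
    · exact ge_of_tendsto' (hlim1 _) fun n => (hp' n).2.2.2.2.1
    · exact ge_of_tendsto' (hlim2 _) fun n => (hp' n).2.2.2.2.2.1 x y a b c
    · exact ge_of_tendsto' (hlim2 _) fun n => (hp' n).2.2.2.2.2.2.1 x y a b c
    · exact ge_of_tendsto' (hlim2 _) fun n => (hp' n).2.2.2.2.2.2.2 x y a b c d
  exact z.2.2 (hcov hz)

/-- The local cut points. -/
theorem QQ_zero {η M : ℝ} (hη : 0 < η) {B : ℕ} (hB : 1 ≤ B) {K : Set ℂ} {ρ0 : ℝ}
    (hK : ∀ z ∈ K, 0 < z.im ∧ ‖z‖ < ρ0) (f : C(unitInterval, ℂ)) :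
    QQ η M B 0 K f ⊆ LC ρ0 f := by
  rintro z ⟨hz, s, u, v, hsu, huv, h3, h4, h5, h6, h7, h8⟩
  have hfu : f u = z := dist_le_zero.1 h3
  have hfs : f s ≠ z := by
    intro h
    rw [h, dist_self] at h4
    linarith
  have hfv : f v ≠ z := by
    intro h
    rw [h, dist_self] at h5
    linarith
  -- the first visit
  have hcomp : IsCompact {x : unitInterval | (s ≤ x ∧ x ≤ u) ∧ f x = z} := by
    refine IsClosed.isCompact ?_
    have h9 : IsClosed (Set.Icc s u ∩ {x | f x = z}) :=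
      isClosed_Icc.inter (isClosed_eq f.continuous continuous_const)
    exact h9
  obtain ⟨u0, ⟨⟨hsu0, hu0u⟩, hfu0⟩, hmin⟩ := hcomp.exists_isLeast ⟨u, ⟨hsu, le_rfl⟩, hfu⟩
  have hs0 : s < u0 := lt_of_le_of_ne hsu0 fun h => hfs (h ▸ hfu0)
  have hv0 : u0 < v := lt_of_le_of_ne (hu0u.trans huv) fun h => hfv (h ▸ hfu0)
  have hno : ∀ x : unitInterval, s ≤ x → x < u0 → f x ≠ z := by
    intro x hx hx0 hfx
    exact absurd (hmin ⟨⟨hx, hx0.le.trans hu0u⟩, hfx⟩) (not_le.2 hx0)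
  refine ⟨(hK z hz).1, (hK z hz).2, s, u0, v, hs0, hv0, hfu0, ?_⟩
  rw [Set.disjoint_left]
  rintro w ⟨x, ⟨hx1, hx2⟩, hxw⟩ ⟨y, ⟨hy1, hy2⟩, hyw⟩
  have hxy : f x = f y := hxw.trans hyw.symm
  apply hno x hx1 hx2
  rcases le_total y u with hyu | hyu
  · have h := h6 u0 y hsu0 hy1.le hyu
    rw [hfu0, dist_self, add_zero, mul_zero] at h
    have h9 : dist (f y) z = 0 := by
      have h10 : (dist (f y) z) ^ 2 = 0 := le_antisymm h (sq_nonneg _)
      exact pow_eq_zero_iff (two_ne_zero) |>.1 h10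
    rw [hxy]
    exact dist_eq_zero.1 h9
  · have h := h8 x y hx1 (hx2.le.trans hu0u) hyu hy2
    rw [hxy, dist_self, add_zero, mul_zero, max_self] at h
    have h9 : dist (f y) z = 0 := by
      have h10 : (dist (f y) z) ^ B = 0 := le_antisymm h (pow_nonneg dist_nonneg _)
      exact pow_eq_zero_iff (by omega) |>.1 h10
    rw [hxy]
    exact dist_eq_zero.1 h9

end Pool.Agent.N948.IX.X19

namespace Pool.Agent.N948.IX

open Set Filter Topology Metric Pool.Agent.H389R2.Dim MeasureTheory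
open scoped ENNReal NNReal

/-- Abstract passage to the limit. -/
theorem qlim : St_QLIM := by
  intro μs μ hμ t ht τ ρ0 _ h
  rw [ae_iff, ← nonpos_iff_eq_zero]
  apply ENNReal.le_of_forall_pos_le_add
  intro ε hε _
  obtain ⟨c, η, M, B, K, hc, hη, hM, hB, hK, hKρ, h1⟩ := h ε (by exact_mod_cast hε)
  have hcτ : Continuous (fun f : C(unitInterval, ℂ) => f.comp τ) :=
    ContinuousMap.continuous_precomp τ
  have hopen : ∀ ε' : ℝ, IsOpen {f : C(unitInterval, ℂ) |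
      ¬ Good t ε' c (QQ η M B ε' K (f.comp τ))} := by
    intro ε'
    exact ((X19.isClosed_good (t := t) (δ := ε') (c := c) (η := η) (M := M) (B := B)
      (ε := ε') hK).preimage hcτ).isOpen_compl
  have h2 : ∀ ε' : ℝ, 0 < ε' → (μ : Measure C(unitInterval, ℂ))
      {f : C(unitInterval, ℂ) | ¬ Good t ε' c (QQ η M B ε' K (f.comp τ))} ≤ ε := by
    intro ε' hε'
    refine (ProbabilityMeasure.le_liminf_measure_open_of_tendsto hμ (hopen ε')).trans ?_
    exact liminf_le_of_frequently_le (h1 ε' hε').frequently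
  set Bd : ℕ → Set C(unitInterval, ℂ) := fun n =>
    {f | ¬ Good t (1 / ((n : ℝ) + 1)) c (QQ η M B (1 / ((n : ℝ) + 1)) K (f.comp τ))} with hBd
  have hmono : Monotone Bd := by
    intro n n' hnn p hp hG
    apply hp
    have h3 := hG.anti (Nat.one_div_le_one_div (α := ℝ) hnn)
    exact h3.mono (X19.QQ_mono hM.le (Nat.one_div_le_one_div hnn) K (p.comp τ))
  have h3 : {f : C(unitInterval, ℂ) | ¬ ENNReal.ofReal t ≤ dimH (LC ρ0 (f.comp τ))} ⊆
      ⋃ n : ℕ, Bd n := by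
    intro p hp
    by_contra hcon
    simp only [hBd, Set.mem_iUnion, Set.mem_ofPred_eq, not_exists, not_not] at hcon
    apply hp
    have h4 : ∀ δ' : ℝ, 0 < δ' → Good t δ' c (QQ η M B 0 K (p.comp τ)) := by
      intro δ' hδ'
      apply X19.good_zero hM.le hK
      intro n
      obtain ⟨m, hm⟩ := exists_nat_one_div_lt hδ'
      have h5 := hcon (max n m)
      have h6 : (1 : ℝ) / (((max n m : ℕ) : ℝ) + 1) ≤ 1 / ((n : ℝ) + 1) :=
        Nat.one_div_le_one_div (le_max_left _ _)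
      have h7 : (1 : ℝ) / (((max n m : ℕ) : ℝ) + 1) ≤ 1 / ((m : ℝ) + 1) :=
        Nat.one_div_le_one_div (le_max_right _ _)
      exact (h5.mono (X19.QQ_mono hM.le h6 K (p.comp τ))).anti (h7.trans hm.le)
    exact (le_dimH_of_good ht hc (X19.isCompact_QQ hK (p.comp τ)) h4).trans
      (dimH_mono (X19.QQ_zero hη hB hKρ (p.comp τ)))
  refine le_trans (measure_mono h3) ?_
  rw [zero_add, hmono.measure_iUnion]
  exact iSup_le fun n => h2 _ (by positivity)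

end Pool.Agent.N948.IX
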